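import Mathlib

/- Helper15.GLP.Shatter -/
section
set_option autoImplicit false

/-!
# Project GL+ (MP_120218), Shatter: order shattering of sets of integer vectors
-/

namespace Pool.Agent.Helper15.GLP

open Finset

/-- `S` contains a tree of the shape `a`: the `j`-th coordinate of the leaf `t` depends only on
`t 0, …, t j`, and is injective in `t j`. -/
def Tr {r : ℕ} (S : Finset (Fin r → ℤ)) (a : Fin r → ℕ) : Prop :=
  ∃ s : (Fin r → ℕ) → (Fin r → ℤ), (∀ t, (∀ j, t j ≤ a j) → s t ∈ S) ∧
    ∀ t t', (∀ j, t j ≤ a j) → (∀ j, t' j ≤ a j) → ∀ j, (∀ i, i < j → t i = t' i) →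
      (s t j = s t' j ↔ t j = t' j)

theorem Tr.mono {r : ℕ} {S : Finset (Fin r → ℤ)} {a b : Fin r → ℕ} (h : Tr S a) (hb : ∀ j, b j ≤ a j) :
    Tr S b := by
  obtain ⟨s, hs, hs2⟩ := h
  exact ⟨s, fun t ht => hs t fun j => (ht j).trans (hb j), fun t t' ht ht' =>
    hs2 t t' (fun j => (ht j).trans (hb j)) (fun j => (ht' j).trans (hb j))⟩

theorem exists_enum {α : Type*} [Inhabited α] (T : Finset α) (a : ℕ) (h : a < T.card) :
    ∃ e : ℕ → α, (∀ i, i ≤ a → e i ∈ T) ∧ ∀ i j, i ≤ a → j ≤ a → e i = e j → i = j := by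
  classical
  refine ⟨fun i => if hi : i < T.card then (T.equivFin.symm ⟨i, hi⟩ : T).1 else default, ?_, ?_⟩
  · intro i hi
    have : i < T.card := by omega
    simp only [this, dif_pos]
    exact (T.equivFin.symm ⟨i, this⟩).2
  · intro i j hi hj hij
    have h1 : i < T.card := by omega
    have h2 : j < T.card := by omega
    simp only [h1, h2, dif_pos] at hij
    have h3 := T.equivFin.symm.injective (Subtype.ext hij)
    exact Fin.mk.inj_iff.1 h3

/-- **Order shattering**: there are at least `|S|` shapes of trees in `S`. -/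
theorem shatter : ∀ (r : ℕ) (S : Finset (Fin r → ℤ)),
    ∃ S' : Finset (Fin r → ℕ), S.card ≤ S'.card ∧ ∀ a ∈ S', Tr S a := by
  classical
  intro r
  induction r with
  | zero =>
    intro S
    rcases S.eq_empty_or_nonempty with rfl | ⟨s, hs⟩
    · exact ⟨∅, by simp, by simp⟩
    · refine ⟨{fun j => 0}, ?_, ?_⟩
      · rw [Finset.card_singleton]
        exact Finset.card_le_one.2 fun x _ y _ => Subsingleton.elim _ _
      · intro a _
        refine ⟨fun _ => s, fun t _ => hs, fun t t' _ _ j => j.elim0⟩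
  | succ r ih =>
    intro S
    obtain ⟨F, hF⟩ : ∃ F : ℤ → Finset (Fin r → ℤ), F = fun v =>
      (S.filter (fun f => f 0 = v)).image (fun f => (Fin.tail f : Fin r → ℤ)) := ⟨_, rfl⟩
    obtain ⟨V, hV⟩ : ∃ V : Finset ℤ, V = S.image (fun f => f 0) := ⟨_, rfl⟩
    choose G hG1 hG2 using fun v => ih (F v)
    obtain ⟨U, hU⟩ : ∃ U : Finset (Fin r → ℕ), U = V.biUnion G := ⟨_, rfl⟩
    obtain ⟨c, hc⟩ : ∃ c : (Fin r → ℕ) → Finset ℤ, c = fun b => V.filter (fun v => b ∈ G v) :=
      ⟨_, rfl⟩
    refine ⟨(U.sigma (fun b => Finset.range (c b).card)).image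
      (fun x => (Fin.cons x.2 x.1 : Fin (r + 1) → ℕ)), ?_, ?_⟩
    · have hinj : Function.Injective
          (fun x : (Σ _ : (Fin r → ℕ), ℕ) => (Fin.cons x.2 x.1 : Fin (r + 1) → ℕ)) := by
        intro x y hxy
        have h1 := congrFun hxy 0
        have h2 : (Fin.tail (Fin.cons x.2 x.1 : Fin (r + 1) → ℕ) : Fin r → ℕ) =
          Fin.tail (Fin.cons y.2 y.1 : Fin (r + 1) → ℕ) := by
          have : (Fin.cons x.2 x.1 : Fin (r + 1) → ℕ) = Fin.cons y.2 y.1 := hxy
          rw [this]
        simp only [Fin.cons_zero] at h1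
        rw [Fin.tail_cons, Fin.tail_cons] at h2
        obtain ⟨x1, x2⟩ := x
        obtain ⟨y1, y2⟩ := y
        simp only at h1 h2
        rw [h1, h2]
      rw [Finset.card_image_of_injective _ hinj, Finset.card_sigma]
      have h1 : ∑ b ∈ U, (Finset.range (c b).card).card = ∑ v ∈ V, (G v).card := by
        have e1 : ∀ b ∈ U, (Finset.range (c b).card).card = ∑ v ∈ V, if b ∈ G v then 1 else 0 := by
          intro b _
          rw [Finset.card_range, hc, Finset.card_filter]
        rw [Finset.sum_congr rfl e1, Finset.sum_comm]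
        refine Finset.sum_congr rfl fun v hv => ?_
        rw [← Finset.card_filter]
        congr 1
        ext b
        simp only [Finset.mem_filter, hU, Finset.mem_biUnion]
        constructor
        · exact fun h => h.2
        · exact fun h => ⟨⟨v, hv, h⟩, h⟩
      rw [h1]
      have h2 : S.card = ∑ v ∈ V, (F v).card := by
        rw [Finset.card_eq_sum_card_image (fun f => f 0) S, hV]
        refine Finset.sum_congr rfl fun v _ => ?_
        rw [hF]
        refine (Finset.card_image_of_injOn ?_).symm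
        intro f hf g hg hfg
        have hf' := (Finset.mem_filter.1 (Finset.mem_coe.1 hf)).2
        have hg' := (Finset.mem_filter.1 (Finset.mem_coe.1 hg)).2
        have hfg' : (Fin.tail f : Fin r → ℤ) = Fin.tail g := hfg
        rw [← Fin.cons_self_tail f, ← Fin.cons_self_tail g, hfg']
        rw [hf', hg']
      rw [h2]
      exact Finset.sum_le_sum fun v _ => hG1 v
    · intro a ha
      obtain ⟨⟨b, n⟩, hx, rfl⟩ := Finset.mem_image.1 ha
      rw [Finset.mem_sigma] at hx
      obtain ⟨hb, hn⟩ := hx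
      simp only [Finset.mem_range] at hn
      obtain ⟨e, he1, he2⟩ := exists_enum (c b) n hn
      have he3 : ∀ i, i ≤ n → Tr (F (e i)) b := by
        intro i hi
        have := he1 i hi
        rw [hc, Finset.mem_filter] at this
        exact hG2 _ _ this.2
      choose! s hs1 hs2 using he3
      refine ⟨fun t => Fin.cons (e (t 0)) (s (t 0) (Fin.tail t)), ?_, ?_⟩
      · intro t ht
        have ht0 : t 0 ≤ n := by simpa using ht 0
        have ht1 : ∀ j, (Fin.tail t) j ≤ b j := by
          intro j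
          have := ht j.succ
          simpa [Fin.tail] using this
        have h1 := hs1 (t 0) ht0 (Fin.tail t) ht1
        rw [hF] at h1
        obtain ⟨f, hf, hf2⟩ := Finset.mem_image.1 h1
        rw [Finset.mem_filter] at hf
        have : (Fin.cons (e (t 0)) (s (t 0) (Fin.tail t)) : Fin (r + 1) → ℤ) = f := by
          rw [← Fin.cons_self_tail f, hf.2, ← hf2]
        change (Fin.cons (e (t 0)) (s (t 0) (Fin.tail t)) : Fin (r + 1) → ℤ) ∈ S
        rw [this]
        exact hf.1
      · intro t t' ht ht' j hj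
        have ht0 : t 0 ≤ n := by simpa using ht 0
        have ht0' : t' 0 ≤ n := by simpa using ht' 0
        have ht1 : ∀ j, (Fin.tail t) j ≤ b j := by
          intro j
          have := ht j.succ
          simpa [Fin.tail] using this
        have ht1' : ∀ j, (Fin.tail t') j ≤ b j := by
          intro j
          have := ht' j.succ
          simpa [Fin.tail] using this
        induction j using Fin.cases with
        | zero =>
          simp only [Fin.cons_zero]
          exact ⟨fun h => he2 _ _ ht0 ht0' h, fun h => by rw [h]⟩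
        | succ j =>
          have h0 : t 0 = t' 0 := hj 0 (Fin.succ_pos j)
          simp only [Fin.cons_succ]
          rw [← h0]
          exact hs2 (t 0) ht0 (Fin.tail t) (Fin.tail t') ht1 ht1' j (fun i hi => by
            have := hj i.succ (Fin.succ_lt_succ_iff.2 hi)
            simpa [Fin.tail] using this)

end Pool.Agent.Helper15.GLP
end

/- Helper15.GPP.Osh -/
section
set_option autoImplicit false

/-!
# Project GL++ (MP_120218), Osh: the down-set of a finite set of integer vectors
-/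

namespace Pool.Agent.Helper15.GPP

open Finset Pool.Agent.Helper15.GLP
open scoped Pointwise

/-- the vectors of `S` with first coordinate `v`, without this coordinate -/
def fib {r : ℕ} (S : Finset (Fin (r + 1) → ℤ)) (v : ℤ) : Finset (Fin r → ℤ) :=
  (S.filter (fun f => f 0 = v)).image (fun f => (Fin.tail f : Fin r → ℤ))

theorem mem_fib {r : ℕ} {S : Finset (Fin (r + 1) → ℤ)} {v : ℤ} {f : Fin r → ℤ} :
    f ∈ fib S v ↔ (Fin.cons v f : Fin (r + 1) → ℤ) ∈ S := by
  unfold fib
  rw [Finset.mem_image]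
  constructor
  · rintro ⟨g, hg, rfl⟩
    rw [Finset.mem_filter] at hg
    obtain ⟨hg, rfl⟩ := hg
    rw [Fin.cons_self_tail]
    exact hg
  · intro h
    refine ⟨Fin.cons v f, Finset.mem_filter.2 ⟨h, Fin.cons_zero _ _⟩, ?_⟩
    exact Fin.tail_cons _ _

theorem fib_mono {r : ℕ} {S T : Finset (Fin (r + 1) → ℤ)} (h : S ⊆ T) (v : ℤ) :
    fib S v ⊆ fib T v := by
  intro f hf
  rw [mem_fib] at hf ⊢
  exact h hf

theorem card_eq_sum_fib {r : ℕ} (S : Finset (Fin (r + 1) → ℤ)) :
    S.card = ∑ v ∈ S.image (fun f => f 0), (fib S v).card := by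
  classical
  rw [Finset.card_eq_sum_card_image (fun f => f 0) S]
  refine Finset.sum_congr rfl fun v _ => ?_
  unfold fib
  refine (Finset.card_image_of_injOn ?_).symm
  intro f hf g hg hfg
  have hf' := (Finset.mem_filter.1 (Finset.mem_coe.1 hf)).2
  have hg' := (Finset.mem_filter.1 (Finset.mem_coe.1 hg)).2
  have hfg' : (Fin.tail f : Fin r → ℤ) = Fin.tail g := hfg
  rw [← Fin.cons_self_tail f, ← Fin.cons_self_tail g, hfg']
  rw [hf', hg']

open Classical in
/-- the order shattered shapes of `S` -/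
noncomputable def osh : (r : ℕ) → Finset (Fin r → ℤ) → Finset (Fin r → ℕ)
  | 0, S => if S.Nonempty then {fun _ => 0} else ∅
  | r + 1, S =>
    (((S.image (fun f => f 0)).biUnion (fun v => osh r (fib S v))).sigma
      (fun b => Finset.range
        ((S.image (fun f => f 0)).filter (fun v => b ∈ osh r (fib S v))).card)).image
      (fun x => (Fin.cons x.2 x.1 : Fin (r + 1) → ℕ))

open Classical in
theorem osh_succ (r : ℕ) (S : Finset (Fin (r + 1) → ℤ)) : osh (r + 1) S =
    (((S.image (fun f => f 0)).biUnion (fun v => osh r (fib S v))).sigma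
      (fun b => Finset.range
        ((S.image (fun f => f 0)).filter (fun v => b ∈ osh r (fib S v))).card)).image
      (fun x => (Fin.cons x.2 x.1 : Fin (r + 1) → ℕ)) := rfl

theorem mem_osh_zero {S : Finset (Fin 0 → ℤ)} {a : Fin 0 → ℕ} : a ∈ osh 0 S ↔ S.Nonempty := by
  unfold osh
  by_cases h : S.Nonempty
  · rw [if_pos h, Finset.mem_singleton]
    exact ⟨fun _ => h, fun _ => Subsingleton.elim _ _⟩
  · rw [if_neg h]
    simp [h]

open Classical in
theorem mem_osh_succ {r : ℕ} {S : Finset (Fin (r + 1) → ℤ)} {n : ℕ} {b : Fin r → ℕ} :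
    (Fin.cons n b : Fin (r + 1) → ℕ) ∈ osh (r + 1) S ↔
      n < ((S.image (fun f => f 0)).filter (fun v => b ∈ osh r (fib S v))).card := by
  rw [osh_succ, Finset.mem_image]
  constructor
  · rintro ⟨⟨b', n'⟩, hx, h⟩
    rw [Finset.mem_sigma, Finset.mem_range] at hx
    have h1 := congrFun h 0
    have h2 : (Fin.tail (Fin.cons n' b' : Fin (r + 1) → ℕ) : Fin r → ℕ) =
        Fin.tail (Fin.cons n b : Fin (r + 1) → ℕ) := by
      have : (Fin.cons n' b' : Fin (r + 1) → ℕ) = Fin.cons n b := h
      rw [this]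
    simp only [Fin.cons_zero] at h1
    rw [Fin.tail_cons, Fin.tail_cons] at h2
    subst h1
    subst h2
    exact hx.2
  · intro h
    refine ⟨⟨b, n⟩, ?_, rfl⟩
    rw [Finset.mem_sigma, Finset.mem_range]
    refine ⟨?_, h⟩
    obtain ⟨v, hv⟩ := Finset.card_pos.1 (lt_of_le_of_lt (Nat.zero_le n) h)
    rw [Finset.mem_filter] at hv
    exact Finset.mem_biUnion.2 ⟨v, hv.1, hv.2⟩

theorem card_osh : ∀ (r : ℕ) (S : Finset (Fin r → ℤ)), (osh r S).card = S.card := by
  classical
  intro r
  induction r with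
  | zero =>
    intro S
    unfold osh
    by_cases h : S.Nonempty
    · rw [if_pos h, Finset.card_singleton]
      obtain ⟨s, hs⟩ := h
      refine (Finset.card_eq_one.2 ⟨s, ?_⟩).symm
      ext t
      rw [Finset.mem_singleton]
      exact ⟨fun _ => Subsingleton.elim _ _, fun ht => by rw [ht]; exact hs⟩
    · rw [if_neg h]
      rw [Finset.not_nonempty_iff_eq_empty] at h
      rw [h, Finset.card_empty, Finset.card_empty]
  | succ r ih =>
    intro S
    rw [osh_succ]
    have hinj : Function.Injective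
        (fun x : (Σ _ : (Fin r → ℕ), ℕ) => (Fin.cons x.2 x.1 : Fin (r + 1) → ℕ)) := by
      intro x y hxy
      have h1 := congrFun hxy 0
      have h2 : (Fin.tail (Fin.cons x.2 x.1 : Fin (r + 1) → ℕ) : Fin r → ℕ) =
        Fin.tail (Fin.cons y.2 y.1 : Fin (r + 1) → ℕ) := by
        have : (Fin.cons x.2 x.1 : Fin (r + 1) → ℕ) = Fin.cons y.2 y.1 := hxy
        rw [this]
      simp only [Fin.cons_zero] at h1
      rw [Fin.tail_cons, Fin.tail_cons] at h2
      obtain ⟨x1, x2⟩ := x
      obtain ⟨y1, y2⟩ := y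
      simp only at h1 h2
      rw [h1, h2]
    rw [Finset.card_image_of_injective _ hinj, Finset.card_sigma, card_eq_sum_fib S]
    rw [Finset.sum_congr rfl (fun v _ => (ih (fib S v)).symm)]
    have e1 : ∀ b ∈ ((S.image (fun f => f 0)).biUnion (fun v => osh r (fib S v))),
        (Finset.range ((S.image (fun f => f 0)).filter (fun v => b ∈ osh r (fib S v))).card).card =
          ∑ v ∈ S.image (fun f => f 0), if b ∈ osh r (fib S v) then 1 else 0 := by
      intro b _
      rw [Finset.card_range, Finset.card_filter]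
    rw [Finset.sum_congr rfl e1, Finset.sum_comm]
    refine Finset.sum_congr rfl fun v hv => ?_
    rw [← Finset.card_filter]
    congr 1
    ext b
    simp only [Finset.mem_filter, Finset.mem_biUnion]
    constructor
    · exact fun h => h.2
    · exact fun h => ⟨⟨v, hv, h⟩, h⟩

theorem osh_mono : ∀ (r : ℕ) (S T : Finset (Fin r → ℤ)), S ⊆ T → osh r S ⊆ osh r T := by
  classical
  intro r
  induction r with
  | zero =>
    intro S T h a ha
    rw [mem_osh_zero] at ha ⊢
    exact ha.mono h
  | succ r ih =>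
    intro S T h a ha
    rw [← Fin.cons_self_tail a, mem_osh_succ] at ha ⊢
    refine ha.trans_le (Finset.card_le_card ?_)
    intro v hv
    rw [Finset.mem_filter] at hv ⊢
    exact ⟨Finset.image_subset_image h hv.1, ih _ _ (fib_mono h v) hv.2⟩

theorem osh_down : ∀ (r : ℕ) (S : Finset (Fin r → ℤ)), ∀ a ∈ osh r S, ∀ b : Fin r → ℕ,
    (∀ j, b j ≤ a j) → b ∈ osh r S := by
  classical
  intro r
  induction r with
  | zero =>
    intro S a ha b _
    rw [mem_osh_zero] at ha ⊢
    exact ha
  | succ r ih =>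
    intro S a ha b hb
    rw [← Fin.cons_self_tail a, mem_osh_succ] at ha
    rw [← Fin.cons_self_tail b, mem_osh_succ]
    refine lt_of_le_of_lt (hb 0) (ha.trans_le (Finset.card_le_card ?_))
    intro v hv
    rw [Finset.mem_filter] at hv ⊢
    exact ⟨hv.1, ih _ _ hv.2 _ fun j => hb j.succ⟩

theorem osh_add : ∀ (r : ℕ) (S T : Finset (Fin r → ℤ)), ∀ a ∈ osh r S, ∀ b ∈ osh r T,
    a + b ∈ osh r (Finset.image₂ (fun x y => x + y) S T) := by
  classical
  intro r
  induction r with
  | zero =>
    intro S T a ha b hb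
    rw [mem_osh_zero] at ha hb ⊢
    exact ha.image₂ hb
  | succ r ih =>
    intro S T a ha b hb
    have hab : a + b = Fin.cons (a 0 + b 0) (Fin.tail a + Fin.tail b) := by
      rw [← Fin.cons_self_tail (a + b)]
      rfl
    rw [hab, mem_osh_succ]
    rw [← Fin.cons_self_tail a, mem_osh_succ] at ha
    rw [← Fin.cons_self_tail b, mem_osh_succ] at hb
    obtain ⟨V, hV⟩ : ∃ V : Finset ℤ, V = (S.image (fun f => f 0)).filter
      (fun v => Fin.tail a ∈ osh r (fib S v)) := ⟨_, rfl⟩
    obtain ⟨W, hW⟩ : ∃ W : Finset ℤ, W = (T.image (fun f => f 0)).filter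
      (fun v => Fin.tail b ∈ osh r (fib T v)) := ⟨_, rfl⟩
    rw [← hV] at ha
    rw [← hW] at hb
    have hVne : V.Nonempty := Finset.card_pos.1 (lt_of_le_of_lt (Nat.zero_le _) ha)
    have hWne : W.Nonempty := Finset.card_pos.1 (lt_of_le_of_lt (Nat.zero_le _) hb)
    have hcd := cauchy_davenport_of_isAddTorsionFree hVne hWne
    have hsub : V + W ⊆ ((Finset.image₂ (fun x y => x + y) S T).image (fun f => f 0)).filter
        (fun v => Fin.tail a + Fin.tail b ∈
          osh r (fib (Finset.image₂ (fun x y => x + y) S T) v)) := by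
      intro u hu
      obtain ⟨v, hv, w, hw, rfl⟩ := Finset.mem_add.1 hu
      rw [hV, Finset.mem_filter] at hv
      rw [hW, Finset.mem_filter] at hw
      rw [Finset.mem_filter]
      constructor
      · obtain ⟨f, hf, rfl⟩ := Finset.mem_image.1 hv.1
        obtain ⟨g, hg, rfl⟩ := Finset.mem_image.1 hw.1
        exact Finset.mem_image.2 ⟨f + g, Finset.mem_image₂_of_mem hf hg, rfl⟩
      · refine osh_mono r _ _ ?_ (ih _ _ _ hv.2 _ hw.2)
        intro z hz
        obtain ⟨x, hx, y, hy, rfl⟩ := Finset.mem_image₂.1 hz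
        rw [mem_fib] at hx hy ⊢
        have hxy : (Fin.cons (v + w) (x + y) : Fin (r + 1) → ℤ) = Fin.cons v x + Fin.cons w y := by
          funext j
          induction j using Fin.cases with
          | zero => simp
          | succ j => simp
        rw [hxy]
        exact Finset.mem_image₂_of_mem hx hy
    have h1 := Finset.card_le_card hsub
    show a 0 + b 0 < _
    omega

/-- the shapes in `osh` are shapes of trees -/
theorem osh_tr : ∀ (r : ℕ) (S : Finset (Fin r → ℤ)), ∀ a ∈ osh r S, Tr S a := by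
  classical
  intro r
  induction r with
  | zero =>
    intro S a ha
    rw [mem_osh_zero] at ha
    obtain ⟨s, hs⟩ := ha
    exact ⟨fun _ => s, fun t _ => hs, fun t t' _ _ j => j.elim0⟩
  | succ r ih =>
    intro S a ha
    rw [← Fin.cons_self_tail a, mem_osh_succ] at ha
    obtain ⟨n, hn⟩ : ∃ n : ℕ, n = a 0 := ⟨_, rfl⟩
    obtain ⟨b, hb⟩ : ∃ b : Fin r → ℕ, b = Fin.tail a := ⟨_, rfl⟩
    have hab : a = Fin.cons n b := by rw [hn, hb, Fin.cons_self_tail]
    rw [← hn, ← hb] at ha
    rw [hab]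
    obtain ⟨c, hc⟩ : ∃ c : Finset ℤ, c = (S.image (fun f => f 0)).filter
      (fun v => b ∈ osh r (fib S v)) := ⟨_, rfl⟩
    rw [← hc] at ha
    obtain ⟨e, he1, he2⟩ := exists_enum c n ha
    have he3 : ∀ i, i ≤ n → Tr (fib S (e i)) b := by
      intro i hi
      have := he1 i hi
      rw [hc, Finset.mem_filter] at this
      exact ih _ _ this.2
    choose! s hs1 hs2 using he3
    refine ⟨fun t => Fin.cons (e (t 0)) (s (t 0) (Fin.tail t)), ?_, ?_⟩
    · intro t ht
      have ht0 : t 0 ≤ n := by simpa using ht 0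
      have ht1 : ∀ j, (Fin.tail t) j ≤ b j := by
        intro j
        have := ht j.succ
        simpa [Fin.tail] using this
      exact mem_fib.1 (hs1 (t 0) ht0 (Fin.tail t) ht1)
    · intro t t' ht ht' j hj
      have ht0 : t 0 ≤ n := by simpa using ht 0
      have ht0' : t' 0 ≤ n := by simpa using ht' 0
      have ht1 : ∀ j, (Fin.tail t) j ≤ b j := by
        intro j
        have := ht j.succ
        simpa [Fin.tail] using this
      have ht1' : ∀ j, (Fin.tail t') j ≤ b j := by
        intro j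
        have := ht' j.succ
        simpa [Fin.tail] using this
      induction j using Fin.cases with
      | zero =>
        simp only [Fin.cons_zero]
        exact ⟨fun h => he2 _ _ ht0 ht0' h, fun h => by rw [h]⟩
      | succ j =>
        have h0 : t 0 = t' 0 := hj 0 (Fin.succ_pos j)
        simp only [Fin.cons_succ]
        rw [← h0]
        exact hs2 (t 0) ht0 (Fin.tail t) (Fin.tail t') ht1 ht1' j (fun i hi => by
          have := hj i.succ (Fin.succ_lt_succ_iff.2 hi)
          simpa [Fin.tail] using this)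

end Pool.Agent.Helper15.GPP
end

/- Helper24.DI.H15.GLP.Shape -/
section
set_option autoImplicit false

/-!
# Project GL+ (MP_120218), Shape: the number of shapes, existence of a tree with many leaves
-/

namespace Pool.Agent.Helper15.GLP

open Finset

/-- the vectors of natural numbers with sum at most `N` -/
def shapes (r N : ℕ) : Finset (Fin r → ℕ) :=
  (Fintype.piFinset (fun _ : Fin r => Finset.range (N + 1))).filter (fun a => ∑ j, a j ≤ N)

theorem mem_shapes {r N : ℕ} {a : Fin r → ℕ} : a ∈ shapes r N ↔ ∑ j, a j ≤ N := by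
  unfold shapes
  rw [Finset.mem_filter, Fintype.mem_piFinset]
  constructor
  · exact fun h => h.2
  · intro h
    refine ⟨fun j => ?_, h⟩
    rw [Finset.mem_range]
    have := Finset.single_le_sum (f := a) (fun i _ => Nat.zero_le _) (Finset.mem_univ j)
    omega

theorem card_shapes : ∀ r N : ℕ, (shapes r N).card = (N + r).choose r := by
  intro r
  induction r with
  | zero =>
    intro N
    rw [Nat.choose_zero_right]
    refine Finset.card_eq_one.2 ⟨fun j => 0, ?_⟩
    ext a
    rw [mem_shapes, Finset.mem_singleton]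
    simp only [Finset.univ_eq_empty, Finset.sum_empty, Nat.zero_le, true_iff]
    exact Subsingleton.elim _ _
  | succ r ih =>
    intro N
    have h1 : shapes (r + 1) N = (Finset.range (N + 1)).biUnion (fun n =>
        (shapes r (N - n)).image (fun b => (Fin.cons n b : Fin (r + 1) → ℕ))) := by
      ext a
      rw [mem_shapes, Finset.mem_biUnion]
      constructor
      · intro h
        rw [Fin.sum_univ_succ] at h
        refine ⟨a 0, by rw [Finset.mem_range]; omega, ?_⟩
        rw [Finset.mem_image]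
        refine ⟨Fin.tail a, ?_, Fin.cons_self_tail a⟩
        rw [mem_shapes]
        have : ∑ j, (Fin.tail a) j = ∑ j : Fin r, a j.succ := rfl
        rw [this]
        omega
      · rintro ⟨n, hn, h⟩
        rw [Finset.mem_range] at hn
        obtain ⟨b, hb, rfl⟩ := Finset.mem_image.1 h
        rw [mem_shapes] at hb
        rw [Fin.sum_univ_succ]
        simp only [Fin.cons_zero, Fin.cons_succ]
        omega
    rw [h1, Finset.card_biUnion]
    · have h2 : ∀ n ∈ Finset.range (N + 1), ((shapes r (N - n)).image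
          (fun b => (Fin.cons n b : Fin (r + 1) → ℕ))).card = (N - n + r).choose r := by
        intro n _
        rw [Finset.card_image_of_injective, ih]
        intro b b' h
        exact (Fin.cons_right_injective (α := fun _ => ℕ) n) h
      have h5 := Finset.sum_range_reflect (fun m => (m + r).choose r) (N + 1)
      simp only [Nat.add_sub_cancel] at h5
      rw [Finset.sum_congr rfl h2, h5]
      have h3 := Nat.sum_Icc_choose (N + r) r
      have h4 : ∑ m ∈ Finset.range (N + 1), (m + r).choose r =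
          ∑ m ∈ Finset.Icc r (N + r), m.choose r := by
        rw [Finset.range_eq_Ico, Finset.sum_Ico_add' (fun m => m.choose r) 0 (N + 1) r]
        refine Finset.sum_congr ?_ fun _ _ => rfl
        ext m
        simp only [Finset.mem_Ico, Finset.mem_Icc]
        omega
      rw [h4, h3]
      congr 1
    · intro n _ m _ hnm
      refine Finset.disjoint_left.2 fun a ha ha' => hnm ?_
      obtain ⟨b, _, rfl⟩ := Finset.mem_image.1 ha
      obtain ⟨b', _, h'⟩ := Finset.mem_image.1 ha'
      have := congrFun h' 0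
      simpa using this.symm

theorem exists_le_sum {r : ℕ} (N : ℕ) : ∀ (M : ℕ) (a : Fin r → ℕ), ∑ j, a j = N + M →
    ∃ b : Fin r → ℕ, (∀ j, b j ≤ a j) ∧ ∑ j, b j = N := by
  intro M
  induction M with
  | zero => exact fun a ha => ⟨a, fun _ => le_rfl, by simpa using ha⟩
  | succ M ih =>
    intro a ha
    have hpos : ∃ j, 0 < a j := by
      by_contra h
      push Not at h
      have : ∑ j, a j = 0 := Finset.sum_eq_zero fun j _ => Nat.le_zero.1 (h j)
      omega
    obtain ⟨j, hj⟩ := hpos
    have hsum : ∑ i, (Function.update a j (a j - 1)) i = N + M := by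
      have h1 := Finset.add_sum_erase Finset.univ a (Finset.mem_univ j)
      have h2 := Finset.add_sum_erase Finset.univ (Function.update a j (a j - 1))
        (Finset.mem_univ j)
      have h3 : ∑ x ∈ Finset.univ.erase j, (Function.update a j (a j - 1)) x =
          ∑ x ∈ Finset.univ.erase j, a x := by
        refine Finset.sum_congr rfl fun x hx => ?_
        rw [Function.update_of_ne (Finset.ne_of_mem_erase hx)]
      rw [h3, Function.update_self] at h2
      omega
    obtain ⟨b, hb, hb2⟩ := ih _ hsum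
    refine ⟨b, fun i => (hb i).trans ?_, hb2⟩
    rcases eq_or_ne i j with rfl | hij
    · rw [Function.update_self]; omega
    · rw [Function.update_of_ne hij]

/-- A set of more than `binom (N + r) r` integer vectors contains a tree with `∑ a = N`. -/
theorem exists_shape {r : ℕ} (S : Finset (Fin r → ℤ)) (N : ℕ) (h : (N + r).choose r < S.card) :
    ∃ a : Fin r → ℕ, ∑ j, a j = N ∧ Tr S a := by
  obtain ⟨S', hS', hT⟩ := shatter r S
  have hex : ∃ a ∈ S', N < ∑ j, a j := by
    by_contra hcon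
    push Not at hcon
    have : S' ⊆ shapes r N := fun a ha => mem_shapes.2 (hcon a ha)
    have := Finset.card_le_card this
    rw [card_shapes] at this
    omega
  obtain ⟨a, ha, hN⟩ := hex
  obtain ⟨b, hb, hbN⟩ := exists_le_sum N (∑ j, a j - N) a (by (clear * - S S' hN; omega))
  exact ⟨b, hbN, (hT a ha).mono hb⟩

end Pool.Agent.Helper15.GLP
end

/- Helper62.GLP.Defs -/
section
set_option autoImplicit false

/-!
# Project GL+ (MP_120218, helper62): isolation uniform in the rank, definitions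

A SHAPE is a list of pairs `(p, n)`, `p` a prime and `n` a number of shifts. The box of a shape is
the set of all lists `t` of the same length with `t_j < n_j`.
-/

namespace Pool.Agent.Helper62.GLP

/-- `t` is in the box of the shape `s` -/
def InBox (s : List (ℕ × ℕ)) (t : List ℕ) : Prop := List.Forall₂ (fun q a => a < q.2) s t

/-- `v_p (D (t_1, ..., t_m))`, `p = p_j`, depends only on `t_1, ..., t_j` and is injective in
`t_j`, for every `j` -/
def Good : List (ℕ × ℕ) → (List ℕ → ℕ) → Prop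
  | [], _ => True
  | (p, n) :: s, D => (∃ c : ℕ → ℕ, (∀ i < n, ∀ j < n, c i = c j → i = j) ∧
      ∀ i < n, ∀ t, InBox s t → padicValNat p (D (i :: t)) = c i) ∧
      ∀ i < n, Good s (fun t => D (i :: t))

end Pool.Agent.Helper62.GLP
end

/- Helper24.DI.H15.GPR.Lev -/
section
set_option autoImplicit false

/-!
# Project GL++ (MP_120218), Lev: level sets of a positive-definite-like function on `ZMod q`
-/

namespace Pool.Agent.Helper15.GPR

open Finset
open scoped Pointwise

open Classical in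
/-- level sets -/
noncomputable def lev {q : ℕ} [NeZero q] (F : ZMod q → ℝ) (j : ℕ) : Finset (ZMod q) :=
  Finset.univ.filter (fun x => 1 - F x ≤ (1 / 4) ^ j / 2)

theorem mem_lev {q : ℕ} [NeZero q] {F : ZMod q → ℝ} {j : ℕ} {x : ZMod q} :
    x ∈ lev F j ↔ 1 - F x ≤ (1 / 4) ^ j / 2 := by
  unfold lev
  rw [Finset.mem_filter]
  exact ⟨fun h => h.2, fun h => ⟨Finset.mem_univ _, h⟩⟩

theorem lev_anti {q : ℕ} [NeZero q] (F : ZMod q → ℝ) {i j : ℕ} (h : i ≤ j) : lev F j ⊆ lev F i := by
  intro x hx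
  rw [mem_lev] at hx ⊢
  refine hx.trans (div_le_div_of_nonneg_right ?_ (by norm_num))
  exact pow_le_pow_of_le_one (by norm_num) (by norm_num) h

theorem lev_card {q : ℕ} [NeZero q] (hq : q.Prime) (F : ZMod q → ℝ) (M : ℝ) (hM : 2 ≤ M)
    (h0 : F 0 = 1) (hsub : ∀ x y, 1 - F (x + y) ≤ 2 * (1 - F x) + 2 * (1 - F y))
    (hsq : ∑ x, F x ^ 2 ≤ q / M) : ∀ j : ℕ, 1 ≤ j →
      ((lev F j).card : ℝ) ≤ 1 + 8 / 3 * (1 / 2) ^ j * (q / M) := by
  have hq0 : (0 : ℝ) < q := by exact_mod_cast hq.pos
  have hM0 : (0 : ℝ) < M := by linarith only [hM]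
  have h1 : ((lev F 1).card : ℝ) ≤ 4 / 3 * (q / M) := by
    have h2 : ∑ x ∈ lev F 1, (3 / 4 : ℝ) ≤ ∑ x, F x ^ 2 := by
      refine le_trans (Finset.sum_le_sum (f := fun _ => (3 / 4 : ℝ)) (g := fun x => F x ^ 2) ?_)
        (Finset.sum_le_univ_sum_of_nonneg fun x => sq_nonneg _)
      intro x hx
      rw [mem_lev] at hx
      have h3 : 7 / 8 ≤ F x := by norm_num at hx; (clear * - hx; linarith only [hx])
      show (3 / 4 : ℝ) ≤ F x ^ 2
      (clear * - h3; nlinarith only [h3])
    rw [Finset.sum_const, nsmul_eq_mul] at h2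
    linarith
  have h1q : ((lev F 1).card : ℝ) < q := by
    refine lt_of_le_of_lt h1 ?_
    have h2 : q / M ≤ q / 2 := div_le_div_of_nonneg_left hq0.le (by norm_num) hM
    linarith only [hq0, h2]
  intro j hj
  induction j, hj using Nat.le_induction with
  | base =>
    refine h1.trans ?_
    rw [pow_one]
    have : 0 < q / M := by (clear * - hq0 hM; positivity)
    linarith only []
  | succ j hj ih =>
    have hne : (lev F (j + 1)).Nonempty := by
      refine ⟨0, mem_lev.2 ?_⟩
      rw [h0]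
      simp only [sub_self]
      positivity
    have hadd : lev F (j + 1) + lev F (j + 1) ⊆ lev F j := by
      intro z hz
      obtain ⟨x, hx, y, hy, rfl⟩ := Finset.mem_add.1 hz
      rw [mem_lev] at hx hy ⊢
      refine (hsub x y).trans ?_
      rw [pow_succ] at hx hy
      linarith only [hx, hy]
    have h2 := ZMod.cauchy_davenport hq hne hne
    have h3 := h2.trans (Finset.card_le_card hadd)
    have h4 : (lev F j).card ≤ (lev F 1).card := Finset.card_le_card (lev_anti F hj)
    have h5 : (lev F 1).card < q := by exact_mod_cast h1q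
    have h6 : 1 ≤ (lev F (j + 1)).card := hne.card_pos
    have h7 : 2 * (lev F (j + 1)).card ≤ (lev F j).card + 1 := by
      rcases min_le_iff.1 h3 with h | h <;> omega
    have h8 : 2 * ((lev F (j + 1)).card : ℝ) ≤ (lev F j).card + 1 := by exact_mod_cast h7
    rw [pow_succ]
    linarith only [ih, h8]

theorem pow_le_inv (x : ℝ) (hx0 : 0 ≤ x) (hx1 : x < 1) (n : ℕ) (hn : 1 ≤ n) :
    x ^ n ≤ 1 / (n * (1 - x)) := by
  have h1 : x ^ n ≤ Real.exp (-(n * (1 - x))) := by
    have h2 : x ≤ Real.exp (-(1 - x)) := by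
      have := Real.add_one_le_exp (-(1 - x))
      (clear * - this; linarith only [this])
    calc x ^ n ≤ Real.exp (-(1 - x)) ^ n := pow_le_pow_left₀ hx0 h2 n
      _ = Real.exp (-(n * (1 - x))) := by
          rw [← Real.exp_nat_mul]
          congr 1
          ring
  refine h1.trans ?_
  have hn0 : (0 : ℝ) < n := by exact_mod_cast hn
  have h3 : 0 < n * (1 - x) := mul_pos hn0 (by (clear * - hx1; linarith only [hx1]))
  rw [Real.exp_neg, one_div]
  refine inv_anti₀ h3 ?_
  have := Real.add_one_le_exp (n * (1 - x))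
  linarith only [this]

theorem sum_two_pow (J : ℕ) : ∑ j ∈ Finset.Ico 1 J, (2 : ℝ) ^ j ≤ 2 ^ J := by
  induction J with
  | zero => simp
  | succ J ih =>
    rcases Nat.eq_zero_or_pos J with h | h
    · subst h
      simp
    · rw [Finset.sum_Ico_succ_top h, pow_succ]
      (clear * - ih; linarith)

open Classical in
theorem sum_pow_le {q : ℕ} [NeZero q] (hq : q.Prime) (F : ZMod q → ℝ) (M : ℝ) (hM : 2 ≤ M)
    (h0 : F 0 = 1) (hF0 : ∀ x, 0 ≤ F x) (hF1 : ∀ x, F x ≤ 1)
    (hsub : ∀ x y, 1 - F (x + y) ≤ 2 * (1 - F x) + 2 * (1 - F y))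
    (hsq : ∑ x, F x ^ 2 ≤ q / M) (J : ℕ) (hJ : 1 ≤ J) (hJq : 2 ^ J * M ≤ q) :
    ∑ x, F x ^ (4 ^ J) ≤ 52 * (1 / 2) ^ J * (q / M) := by
  have hq0 : (0 : ℝ) < q := by exact_mod_cast hq.pos
  have hM0 : (0 : ℝ) < M := by (clear * - hM; linarith only [hM])
  have hqM : 0 < q / M := by (clear * - hq0 hM; positivity)
  have hlev := lev_card hq F M hM h0 hsub hsq
  have hone : 1 ≤ (1 / 2) ^ J * (q / M) := by
    rw [one_div, inv_pow, ← div_eq_inv_mul, le_div_iff₀ (by positivity), one_mul,
      le_div_iff₀ hM0]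
    exact hJq
  have hlev2 : ∀ j : ℕ, 1 ≤ j → j ≤ J → ((lev F j).card : ℝ) ≤ 4 * (1 / 2) ^ j * (q / M) := by
    intro j hj hjJ
    have h1 := hlev j hj
    have h2 : (1 / 2 : ℝ) ^ J * (q / M) ≤ (1 / 2) ^ j * (q / M) :=
      mul_le_mul_of_nonneg_right (pow_le_pow_of_le_one (by norm_num) (by norm_num) hjJ) hqM.le
    linarith only [hone, h1, h2]
  have hn4 : 4 ≤ 4 ^ J := by
    calc 4 = 4 ^ 1 := by norm_num
      _ ≤ 4 ^ J := Nat.pow_le_pow_right (by norm_num) hJ
  have hnR : ((4 ^ J : ℕ) : ℝ) = 4 ^ J := by push_cast; rfl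
  have h4J : (0 : ℝ) < 4 ^ J := by positivity
  have h24 : (16 : ℝ) / 4 ^ J ≤ 16 * (1 / 2) ^ J := by
    rw [div_le_iff₀ h4J, mul_assoc, ← mul_pow]
    have h1 : (1 : ℝ) ≤ (1 / 2 * 4) ^ J := one_le_pow₀ (by norm_num)
    (clear * - h1; linarith only [h1])
  -- pointwise bound
  have hpt : ∀ x, F x ^ (4 ^ J) ≤ 16 * (1 / 2) ^ J * F x ^ 2 +
      ∑ j ∈ Finset.Ico 1 J, (if x ∈ lev F j then 8 * 4 ^ j / 4 ^ J else (0 : ℝ)) +
      (if x ∈ lev F J then (1 : ℝ) else 0) := by
    intro x
    have hsum0 : 0 ≤ ∑ j ∈ Finset.Ico 1 J, (if x ∈ lev F j then 8 * 4 ^ j / 4 ^ J else (0 : ℝ)) := by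
      refine Finset.sum_nonneg fun j _ => ?_
      split_ifs
      · positivity
      · exact le_rfl
    have hA0 : 0 ≤ 16 * (1 / 2) ^ J * F x ^ 2 := by (clear * -; positivity)
    by_cases hxJ : x ∈ lev F J
    · rw [if_pos hxJ]
      have h1 : F x ^ (4 ^ J) ≤ 1 := pow_le_one₀ (hF0 x) (hF1 x)
      linarith only [hsum0, hA0, h1]
    rw [if_neg hxJ, add_zero]
    by_cases hx1 : x ∈ lev F 1
    · -- the largest level
      obtain ⟨j, hj1, hjJ, hxj, hxj'⟩ : ∃ j, 1 ≤ j ∧ j < J ∧ x ∈ lev F j ∧ x ∉ lev F (j + 1) := by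
        by_contra hcon
        push Not at hcon
        have h1 : ∀ j, 1 ≤ j → j ≤ J → x ∈ lev F j := by
          intro j hj
          induction j, hj using Nat.le_induction with
          | base => exact fun _ => hx1
          | succ j hj ih => exact fun h => hcon j hj (by omega) (ih (by omega))
        exact hxJ (h1 J hJ le_rfl)
      have h1 : F x ^ (4 ^ J) ≤ 8 * 4 ^ j / 4 ^ J := by
        rw [mem_lev, not_le] at hxj'
        have h2 : (0 : ℝ) < (1 / 4) ^ (j + 1) / 2 := by positivity
        have h3 := pow_le_inv (F x) (hF0 x) (by (clear * - hxj' h2; linarith only [hxj', h2])) (4 ^ J) (by omega)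
        refine h3.trans ?_
        rw [hnR]
        have h4 : 1 / (4 ^ J * (1 - F x)) ≤ 1 / (4 ^ J * ((1 / 4) ^ (j + 1) / 2)) := by
          refine one_div_le_one_div_of_le (by positivity) ?_
          exact mul_le_mul_of_nonneg_left hxj'.le h4J.le
        refine h4.trans (le_of_eq ?_)
        have h5 : (4 : ℝ) ^ j ≠ 0 := by positivity
        rw [pow_succ, one_div_pow]
        field_simp
        norm_num
      have h2 : (if x ∈ lev F j then 8 * 4 ^ j / 4 ^ J else (0 : ℝ)) ≤
          ∑ j ∈ Finset.Ico 1 J, (if x ∈ lev F j then 8 * 4 ^ j / 4 ^ J else (0 : ℝ)) := by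
        refine Finset.single_le_sum (f := fun j => if x ∈ lev F j then 8 * 4 ^ j / 4 ^ J
          else (0 : ℝ)) ?_ (Finset.mem_Ico.2 ⟨hj1, hjJ⟩)
        intro i _
        show 0 ≤ (if x ∈ lev F i then 8 * 4 ^ i / 4 ^ J else (0 : ℝ))
        split_ifs
        · positivity
        · exact le_rfl
      rw [if_pos hxj] at h2
      (clear * - hA0 h1 h2; linarith only [hA0, h1, h2])
    · rw [mem_lev, not_le] at hx1
      have hx2 : F x < 1 - 1 / 8 := by norm_num at hx1; linarith only [hx1]
      have h1 : F x ^ (4 ^ J) = F x ^ 2 * F x ^ (4 ^ J - 2) := by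
        rw [← pow_add]
        congr 1
        omega
      have h2 : F x ^ (4 ^ J - 2) ≤ 16 / 4 ^ J := by
        have h3 := pow_le_inv (F x) (hF0 x) (by (clear * - hx2; linarith only [hx2])) (4 ^ J - 2) (by omega)
        refine h3.trans ?_
        have h4 : ((4 ^ J : ℕ) : ℝ) / 2 ≤ ((4 ^ J - 2 : ℕ) : ℝ) := by
          rw [Nat.cast_sub (by omega)]
          have : ((4 : ℕ) : ℝ) ≤ ((4 ^ J : ℕ) : ℝ) := by exact_mod_cast hn4
          push_cast at this ⊢
          (clear * - this; linarith only [this])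
        rw [hnR] at h4
        have h5 : 4 ^ J / 16 ≤ ((4 ^ J - 2 : ℕ) : ℝ) * (1 - F x) := by
          calc (4 : ℝ) ^ J / 16 = 4 ^ J / 2 * (1 / 8) := by ring
            _ ≤ ((4 ^ J - 2 : ℕ) : ℝ) * (1 - F x) :=
                mul_le_mul h4 (by linarith only [hx2]) (by norm_num) (Nat.cast_nonneg _)
        refine (one_div_le_one_div_of_le (by positivity) h5).trans (le_of_eq ?_)
        rw [one_div_div]
      have h3 : F x ^ (4 ^ J) ≤ 16 * (1 / 2) ^ J * F x ^ 2 := by
        rw [h1, mul_comm (16 * (1 / 2) ^ J)]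
        exact mul_le_mul_of_nonneg_left (h2.trans h24) (sq_nonneg _)
      linarith only [hsum0, h3]
  refine (Finset.sum_le_sum fun x _ => hpt x).trans ?_
  rw [Finset.sum_add_distrib, Finset.sum_add_distrib, ← Finset.mul_sum, Finset.sum_comm]
  have e1 : ∀ j : ℕ, ∑ x, (if x ∈ lev F j then 8 * 4 ^ j / 4 ^ J else (0 : ℝ)) =
      (lev F j).card * (8 * 4 ^ j / 4 ^ J) := by
    intro j
    rw [← Finset.sum_filter, Finset.filter_mem_eq_inter, Finset.univ_inter, Finset.sum_const,
      nsmul_eq_mul]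
  have e2 : ∑ x, (if x ∈ lev F J then (1 : ℝ) else 0) = (lev F J).card := by
    rw [← Finset.sum_filter, Finset.filter_mem_eq_inter, Finset.univ_inter, Finset.sum_const,
      nsmul_eq_mul, mul_one]
  rw [e2, Finset.sum_congr rfl (fun j _ => e1 j)]
  have s1 : 16 * (1 / 2) ^ J * ∑ x, F x ^ 2 ≤ 16 * (1 / 2) ^ J * (q / M) :=
    mul_le_mul_of_nonneg_left hsq (by positivity)
  have s2 : ∑ j ∈ Finset.Ico 1 J, ((lev F j).card : ℝ) * (8 * 4 ^ j / 4 ^ J) ≤
      32 * (1 / 2) ^ J * (q / M) := by
    have h1 : ∀ j ∈ Finset.Ico 1 J, ((lev F j).card : ℝ) * (8 * 4 ^ j / 4 ^ J) ≤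
        32 / 4 ^ J * (q / M) * 2 ^ j := by
      intro j hj
      rw [Finset.mem_Ico] at hj
      calc ((lev F j).card : ℝ) * (8 * 4 ^ j / 4 ^ J) ≤
            (4 * (1 / 2) ^ j * (q / M)) * (8 * 4 ^ j / 4 ^ J) :=
            mul_le_mul_of_nonneg_right (hlev2 j hj.1 hj.2.le) (by positivity)
        _ = 32 / 4 ^ J * (q / M) * ((1 / 2) ^ j * 4 ^ j) := by ring
        _ = 32 / 4 ^ J * (q / M) * 2 ^ j := by
            rw [← mul_pow]
            norm_num
    refine (Finset.sum_le_sum h1).trans ?_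
    rw [← Finset.mul_sum]
    refine (mul_le_mul_of_nonneg_left (sum_two_pow J) (by (clear * - hq0 hM; positivity))).trans (le_of_eq ?_)
    have h2 : (1 / 2 : ℝ) ^ J = 2 ^ J / 4 ^ J := by
      rw [← div_pow]
      norm_num
    rw [h2]
    ring
  have s3 := hlev2 J hJ le_rfl
  (clear * - s1 s2 s3; linarith only [s1, s2, s3])

end Pool.Agent.Helper15.GPR
end

/- Helper24.DI.H15.GPR.Conc -/
section
set_option autoImplicit false

/-!
# Project GL++ (MP_120218), Conc: concentration of a sum of independent uniform variables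
-/

namespace Pool.Agent.Helper15.GPR

open Finset

/-- exponential sum -/
noncomputable def es {q : ℕ} [NeZero q] (V : Finset (ZMod q)) (x : ZMod q) : ℂ :=
  ∑ v ∈ V, ZMod.stdAddChar (x * v)

theorem es_zero {q : ℕ} [NeZero q] (V : Finset (ZMod q)) : es V 0 = V.card := by
  unfold es
  simp only [zero_mul, AddChar.map_zero_eq_one, Finset.sum_const, nsmul_eq_mul, mul_one]

theorem es_norm_le {q : ℕ} [NeZero q] (V : Finset (ZMod q)) (x : ZMod q) : ‖es V x‖ ≤ V.card := by
  unfold es
  refine (norm_sum_le _ _).trans (le_of_eq ?_)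
  rw [Finset.sum_congr rfl (fun v _ => AddChar.norm_apply _ _), Finset.sum_const, nsmul_eq_mul,
    mul_one]

theorem es_sq {q : ℕ} [NeZero q] (V : Finset (ZMod q)) :
    ∑ x, ‖es V x‖ ^ 2 = (q : ℝ) * V.card := by
  have h1 : (((∑ x, ‖es V x‖ ^ 2 : ℝ)) : ℂ) = ((q : ℝ) * V.card : ℝ) := by
    push_cast
    have h2 : ∀ x : ZMod q, (‖es V x‖ : ℂ) ^ 2 =
        ∑ v ∈ V, ∑ w ∈ V, (ZMod.stdAddChar (x * (v - w)) : ℂ) := by
      intro x
      rw [← Complex.mul_conj']
      unfold es
      rw [map_sum, Finset.sum_mul_sum]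
      refine Finset.sum_congr rfl fun v _ => Finset.sum_congr rfl fun w _ => ?_
      rw [← AddChar.map_neg_eq_conj, ← AddChar.map_add_eq_mul]
      congr 1
      ring
    rw [Finset.sum_congr rfl (fun x _ => h2 x), Finset.sum_comm]
    have h3 : ∀ v ∈ V, ∑ x : ZMod q, ∑ w ∈ V, (ZMod.stdAddChar (x * (v - w)) : ℂ) = q := by
      intro v hv
      rw [Finset.sum_comm]
      have h4 : ∀ w ∈ V, ∑ x : ZMod q, (ZMod.stdAddChar (x * (v - w)) : ℂ) =
          if w = v then (q : ℂ) else 0 := by
        intro w _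
        rw [AddChar.sum_mulShift (v - w) (ZMod.isPrimitive_stdAddChar q), ZMod.card]
        by_cases h : w = v
        · rw [if_pos h, if_pos (sub_eq_zero.2 h.symm)]
        · rw [if_neg h, if_neg (fun h' => h (sub_eq_zero.1 h').symm)]
          simp
      rw [Finset.sum_congr rfl h4, Finset.sum_ite_eq' V v, if_pos hv]
    rw [Finset.sum_congr rfl h3, Finset.sum_const, nsmul_eq_mul, mul_comm]
  exact_mod_cast h1

theorem unit_re (z w : ℂ) (hz : ‖z‖ = 1) (hw : ‖w‖ = 1) :
    1 - (z * w).re ≤ 2 * (1 - z.re) + 2 * (1 - w.re) := by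
  have h1 : z.re ^ 2 + z.im ^ 2 = 1 := by
    have h := Complex.sq_norm z
    rw [hz, Complex.normSq_apply] at h
    (clear * - h; linarith only [h])
  have h2 : w.re ^ 2 + w.im ^ 2 = 1 := by
    have h := Complex.sq_norm w
    rw [hw, Complex.normSq_apply] at h
    linarith only [h]
  rw [Complex.mul_re]
  (clear * - h1 h2; linarith only [sq_nonneg (z.re + w.re - 2), sq_nonneg (w.im - z.im), h1, h2])

theorem es_sub {q : ℕ} [NeZero q] (V : Finset (ZMod q)) (x y : ZMod q) :
    (V.card : ℝ) - ‖es V (x + y)‖ ≤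
      2 * ((V.card : ℝ) - ‖es V x‖) + 2 * ((V.card : ℝ) - ‖es V y‖) := by
  obtain ⟨c, hc, hcx⟩ := Complex.exists_norm_eq_mul_self (es V x)
  obtain ⟨d, hd, hdy⟩ := Complex.exists_norm_eq_mul_self (es V y)
  have e1 : ‖es V x‖ = ∑ v ∈ V, (c * ZMod.stdAddChar (x * v)).re := by
    have h1 : ((‖es V x‖ : ℝ) : ℂ).re = (c * es V x).re := by rw [hcx]
    rw [Complex.ofReal_re] at h1
    rw [h1]
    unfold es
    rw [Finset.mul_sum, Complex.re_sum]
  have e2 : ‖es V y‖ = ∑ v ∈ V, (d * ZMod.stdAddChar (y * v)).re := by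
    have h1 : ((‖es V y‖ : ℝ) : ℂ).re = (d * es V y).re := by rw [hdy]
    rw [Complex.ofReal_re] at h1
    rw [h1]
    unfold es
    rw [Finset.mul_sum, Complex.re_sum]
  have e3 : ∑ v ∈ V, (c * ZMod.stdAddChar (x * v) * (d * ZMod.stdAddChar (y * v))).re ≤
      ‖es V (x + y)‖ := by
    have h1 : ‖es V (x + y)‖ = ‖c * d * es V (x + y)‖ := by
      rw [norm_mul, norm_mul, hc, hd, one_mul, one_mul]
    rw [h1]
    refine le_trans (le_of_eq ?_) (Complex.re_le_norm _)
    unfold es
    rw [Finset.mul_sum, Complex.re_sum]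
    refine Finset.sum_congr rfl fun v _ => ?_
    rw [add_mul, AddChar.map_add_eq_mul]
    congr 1
    ring
  have e4 : ∑ v ∈ V, (1 - (c * ZMod.stdAddChar (x * v) * (d * ZMod.stdAddChar (y * v))).re) ≤
      ∑ v ∈ V, (2 * (1 - (c * ZMod.stdAddChar (x * v)).re) +
        2 * (1 - (d * ZMod.stdAddChar (y * v)).re)) := by
    refine Finset.sum_le_sum fun v _ => unit_re _ _ ?_ ?_
    · rw [norm_mul, hc, one_mul]
      exact AddChar.norm_apply _ _
    · rw [norm_mul, hd, one_mul]
      exact AddChar.norm_apply _ _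
  rw [Finset.sum_sub_distrib, Finset.sum_add_distrib, ← Finset.mul_sum, ← Finset.mul_sum,
    Finset.sum_sub_distrib, Finset.sum_sub_distrib, ← e1, ← e2, Finset.sum_const,
    nsmul_eq_mul, mul_one] at e4
  (clear * - e3 e4; linarith)

/-- the arithmetic-geometric inequality -/
theorem amgm {n : ℕ} (hn : 1 ≤ n) (a : Fin n → ℝ) (ha : ∀ i, 0 ≤ a i) :
    (n : ℝ) * ∏ i, a i ≤ ∑ i, a i ^ n := by
  have hn0 : (n : ℝ) ≠ 0 := by
    have : (0 : ℝ) < n := by exact_mod_cast hn
    exact this.ne'
  have h1 := Real.geom_mean_le_arith_mean_weighted Finset.univ (fun _ : Fin n => (n : ℝ)⁻¹)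
    (fun i => a i ^ n) (fun _ _ => by (clear * - hn; positivity)) (by
      rw [Finset.sum_const, Finset.card_univ, Fintype.card_fin, nsmul_eq_mul]
      exact mul_inv_cancel₀ hn0) (fun i _ => pow_nonneg (ha i) n)
  have h2 : ∏ i, (a i ^ n) ^ (n : ℝ)⁻¹ = ∏ i, a i :=
    Finset.prod_congr rfl fun i _ => Real.pow_rpow_inv_natCast (ha i) (by omega)
  rw [h2, ← Finset.mul_sum] at h1
  calc (n : ℝ) * ∏ i, a i ≤ n * ((n : ℝ)⁻¹ * ∑ i, a i ^ n) :=
        mul_le_mul_of_nonneg_left h1 (Nat.cast_nonneg _)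
    _ = ∑ i, a i ^ n := by rw [← mul_assoc, mul_inv_cancel₀ hn0, one_mul]

theorem char_sum {B ι : Type*} [AddCommMonoid B] (ψ : AddChar B ℂ) (s : Finset ι) (f : ι → B) :
    ψ (∑ i ∈ s, f i) = ∏ i ∈ s, ψ (f i) := by
  classical
  induction s using Finset.induction_on with
  | empty => simp
  | insert a s ha ih => rw [Finset.sum_insert ha, Finset.prod_insert ha, AddChar.map_add_eq_mul, ih]

/-- the number of solutions by characters -/
theorem count_char {q n : ℕ} [NeZero q] (V : Fin n → Finset (ZMod q)) (z : ZMod q) :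
    (q : ℝ) * ((Fintype.piFinset V).filter (fun v => ∑ i, v i = z)).card ≤
      ∑ x, ∏ i, ‖es (V i) x‖ := by
  have h1 : ((q : ℂ)) * ((Fintype.piFinset V).filter (fun v => ∑ i, v i = z)).card =
      ∑ x : ZMod q, (ZMod.stdAddChar (-(x * z)) : ℂ) * ∏ i, es (V i) x := by
    have h2 : ∀ x : ZMod q, (ZMod.stdAddChar (-(x * z)) : ℂ) * ∏ i, es (V i) x =
        ∑ v ∈ Fintype.piFinset V, (ZMod.stdAddChar (x * (∑ i, v i - z)) : ℂ) := by
      intro x
      unfold es
      rw [Finset.prod_univ_sum, Finset.mul_sum]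
      refine Finset.sum_congr rfl fun v _ => ?_
      rw [← char_sum, ← AddChar.map_add_eq_mul, ← Finset.mul_sum]
      congr 1
      ring
    rw [Finset.sum_congr rfl (fun x _ => h2 x), Finset.sum_comm]
    have h3 : ∀ v ∈ Fintype.piFinset V, ∑ x : ZMod q,
        (ZMod.stdAddChar (x * (∑ i, v i - z)) : ℂ) = if ∑ i, v i = z then (q : ℂ) else 0 := by
      intro v _
      rw [AddChar.sum_mulShift _ (ZMod.isPrimitive_stdAddChar q), ZMod.card]
      by_cases h : ∑ i, v i = z
      · rw [if_pos h, if_pos (sub_eq_zero.2 h)]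
      · rw [if_neg h, if_neg (fun h' => h (sub_eq_zero.1 h'))]
        simp
    rw [Finset.sum_congr rfl h3, ← Finset.sum_filter, Finset.sum_const, nsmul_eq_mul, mul_comm]
  have h4 : ‖((q : ℂ)) * ((Fintype.piFinset V).filter (fun v => ∑ i, v i = z)).card‖ =
      (q : ℝ) * ((Fintype.piFinset V).filter (fun v => ∑ i, v i = z)).card := by
    rw [norm_mul, Complex.norm_natCast, Complex.norm_natCast]
  rw [← h4, h1]
  refine (norm_sum_le _ _).trans (Finset.sum_le_sum fun x _ => le_of_eq ?_)
  rw [norm_mul, AddChar.norm_apply, one_mul, norm_prod]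

theorem conc_mod {q : ℕ} [NeZero q] (hq : q.Prime) (J M : ℕ) (hJ : 1 ≤ J) (hM : 2 ≤ M)
    (hJq : 2 ^ J * M ≤ q) (V : Fin (4 ^ J) → Finset (ZMod q)) (hV : ∀ i, (V i).card = M)
    (z : ZMod q) :
    ((Fintype.piFinset V).filter (fun v => ∑ i, v i = z)).card * (2 ^ J * M) ≤
      52 * M ^ (4 ^ J) := by
  have hq0 : (0 : ℝ) < q := by exact_mod_cast hq.pos
  have hM2 : (2 : ℝ) ≤ M := by exact_mod_cast hM
  have hM0 : (0 : ℝ) < M := by linarith only [hM2]
  have hn1 : 1 ≤ 4 ^ J := Nat.one_le_pow _ _ (by norm_num)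
  have hn0 : (0 : ℝ) < ((4 ^ J : ℕ) : ℝ) := by exact_mod_cast hn1
  have h1 := count_char V z
  have h2 : ∀ i, ∑ x, ‖es (V i) x‖ ^ (4 ^ J) ≤
      (M : ℝ) ^ (4 ^ J) * (52 * (1 / 2) ^ J * (q / M)) := by
    intro i
    have h3 := sum_pow_le hq (fun x => ‖es (V i) x‖ / M) (M : ℝ) hM2
      (by
        show ‖es (V i) 0‖ / M = 1
        rw [es_zero, hV i, Complex.norm_natCast]
        exact div_self hM0.ne')
      (fun x => div_nonneg (norm_nonneg _) hM0.le)
      (fun x => by
        show ‖es (V i) x‖ / M ≤ 1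
        rw [div_le_one hM0]
        have := es_norm_le (V i) x
        rwa [hV i] at this)
      (fun x y => by
        show 1 - ‖es (V i) (x + y)‖ / M ≤ 2 * (1 - ‖es (V i) x‖ / M) + 2 * (1 - ‖es (V i) y‖ / M)
        have h4 := es_sub (V i) x y
        rw [hV i] at h4
        have h5 := div_le_div_of_nonneg_right h4 hM0.le
        have e1 : ((M : ℝ) - ‖es (V i) (x + y)‖) / M = 1 - ‖es (V i) (x + y)‖ / M := by
          rw [sub_div, div_self hM0.ne']
        have e2 : (2 * ((M : ℝ) - ‖es (V i) x‖) + 2 * ((M : ℝ) - ‖es (V i) y‖)) / M =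
            2 * (1 - ‖es (V i) x‖ / M) + 2 * (1 - ‖es (V i) y‖ / M) := by
          field_simp
        rwa [e1, e2] at h5)
      (by
        have h4 := es_sq (V i)
        rw [hV i] at h4
        have h5 : ∑ x, (‖es (V i) x‖ / M) ^ 2 = (∑ x, ‖es (V i) x‖ ^ 2) / M ^ 2 := by
          rw [Finset.sum_div]
          exact Finset.sum_congr rfl fun x _ => div_pow _ _ _
        show ∑ x, (‖es (V i) x‖ / M) ^ 2 ≤ q / M
        rw [h5, h4]
        refine le_of_eq ?_
        (clear * - hM hq0; field_simp))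
      J hJ (by exact_mod_cast hJq)
    calc ∑ x, ‖es (V i) x‖ ^ (4 ^ J) = ∑ x, (M : ℝ) ^ (4 ^ J) * (‖es (V i) x‖ / M) ^ (4 ^ J) := by
          refine Finset.sum_congr rfl fun x _ => ?_
          rw [← mul_pow]
          congr 1
          field_simp
      _ = (M : ℝ) ^ (4 ^ J) * ∑ x, (‖es (V i) x‖ / M) ^ (4 ^ J) := by rw [Finset.mul_sum]
      _ ≤ _ := mul_le_mul_of_nonneg_left h3 (by positivity)
  have h3 : ((4 ^ J : ℕ) : ℝ) * ((q : ℝ) *
      ((Fintype.piFinset V).filter (fun v => ∑ i, v i = z)).card) ≤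
      ((4 ^ J : ℕ) : ℝ) * ((M : ℝ) ^ (4 ^ J) * (52 * (1 / 2) ^ J * (q / M))) := by
    calc ((4 ^ J : ℕ) : ℝ) * ((q : ℝ) *
        ((Fintype.piFinset V).filter (fun v => ∑ i, v i = z)).card) ≤
        ((4 ^ J : ℕ) : ℝ) * ∑ x, ∏ i, ‖es (V i) x‖ := mul_le_mul_of_nonneg_left h1 hn0.le
      _ = ∑ x, ((4 ^ J : ℕ) : ℝ) * ∏ i, ‖es (V i) x‖ := by rw [Finset.mul_sum]
      _ ≤ ∑ x, ∑ i, ‖es (V i) x‖ ^ (4 ^ J) :=
          Finset.sum_le_sum fun x _ => amgm hn1 _ fun i => norm_nonneg _
      _ = ∑ i, ∑ x, ‖es (V i) x‖ ^ (4 ^ J) := Finset.sum_comm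
      _ ≤ ∑ _i : Fin (4 ^ J), (M : ℝ) ^ (4 ^ J) * (52 * (1 / 2) ^ J * (q / M)) :=
          Finset.sum_le_sum fun i _ => h2 i
      _ = _ := by rw [Finset.sum_const, Finset.card_univ, Fintype.card_fin, nsmul_eq_mul]
  have h4 := le_of_mul_le_mul_left h3 hn0
  have h5 : (((Fintype.piFinset V).filter (fun v => ∑ i, v i = z)).card : ℝ) * (2 ^ J * M) ≤
      52 * M ^ (4 ^ J) := by
    have h6 : (q : ℝ) * ((((Fintype.piFinset V).filter (fun v => ∑ i, v i = z)).card : ℝ) *
        (2 ^ J * M)) ≤ q * (52 * M ^ (4 ^ J)) := by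
      calc (q : ℝ) * ((((Fintype.piFinset V).filter (fun v => ∑ i, v i = z)).card : ℝ) *
          (2 ^ J * M)) = ((q : ℝ) * ((Fintype.piFinset V).filter
            (fun v => ∑ i, v i = z)).card) * (2 ^ J * M) := by ring
        _ ≤ ((M : ℝ) ^ (4 ^ J) * (52 * (1 / 2) ^ J * (q / M))) * (2 ^ J * M) :=
            mul_le_mul_of_nonneg_right h4 (by positivity)
        _ = q * (52 * M ^ (4 ^ J)) * ((1 / 2) ^ J * 2 ^ J) := by
            (clear * - hM hq0; field_simp)
        _ = q * (52 * M ^ (4 ^ J)) := by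
            rw [← mul_pow]
            norm_num
    exact le_of_mul_le_mul_left h6 hq0
  exact_mod_cast h5

/-- **Concentration** of a sum of independent uniform integers. -/
theorem conc (J M : ℕ) (hM : 2 ≤ M) (V : Fin (4 ^ J) → Finset ℤ) (hV : ∀ i, (V i).card = M)
    (z : ℤ) :
    ((Fintype.piFinset V).filter (fun v => ∑ i, v i = z)).card * (2 ^ J * M) ≤
      52 * M ^ (4 ^ J) := by
  rcases Nat.eq_zero_or_pos J with hJ | hJ
  · subst hJ
    have h1 : ((Fintype.piFinset V).filter (fun v => ∑ i, v i = z)).card ≤ 1 := by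
      rw [Finset.card_le_one]
      intro v hv w hw
      have h2 := (Finset.mem_filter.1 hv).2
      have h3 := (Finset.mem_filter.1 hw).2
      have hn : 4 ^ 0 = 1 := by norm_num
      have h4 : ∀ i j : Fin (4 ^ 0), i = j := fun i j => Fin.ext (by omega)
      have h5 : ∀ u : Fin (4 ^ 0) → ℤ, ∀ i, ∑ k, u k = u i := by
        intro u i
        rw [Finset.sum_eq_single i (fun k _ hk => absurd (h4 k i) hk)
          (fun h => absurd (Finset.mem_univ i) h)]
      funext i
      rw [← h5 v i, ← h5 w i, h2, h3]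
    have h2 : (4 : ℕ) ^ 0 = 1 := by norm_num
    have h3 : (2 : ℕ) ^ 0 * M = M := by rw [pow_zero, one_mul]
    refine le_trans (Nat.mul_le_mul h1 (le_of_eq h3)) ?_
    rw [h2, pow_one]
    omega
  · -- a large prime
    obtain ⟨H, hH⟩ : ∃ H : ℕ, ∀ i, ∀ v ∈ V i, v.natAbs ≤ H := by
      refine ⟨∑ i, ∑ v ∈ V i, v.natAbs, fun i v hv => ?_⟩
      refine (Finset.single_le_sum (f := fun v : ℤ => v.natAbs) (fun _ _ => Nat.zero_le _) hv).trans ?_
      exact Finset.single_le_sum (f := fun i => ∑ v ∈ V i, v.natAbs) (fun _ _ => Nat.zero_le _)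
        (Finset.mem_univ i)
    obtain ⟨q, hqle, hq⟩ := Nat.exists_infinite_primes (2 * H + 1 + 2 ^ J * M)
    have : NeZero q := ⟨hq.ne_zero⟩
    have hinj : ∀ i, ∀ v ∈ V i, ∀ w ∈ V i, (v : ZMod q) = (w : ZMod q) → v = w := by
      intro i v hv w hw h
      have h1 := (ZMod.intCast_eq_intCast_iff_dvd_sub v w q).1 h
      have h2 := hH i v hv
      have h3 := hH i w hw
      have h4 : w - v = 0 := by
        refine Int.eq_zero_of_abs_lt_dvd h1 ?_
        have h5 : |w - v| ≤ 2 * H := by
          rw [abs_le]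
          omega
        have h6 : ((2 * H + 1 + 2 ^ J * M : ℕ) : ℤ) ≤ q := by exact_mod_cast hqle
        push_cast at h6
        have h7 : (0 : ℤ) ≤ 2 ^ J * M := by positivity
        linarith only [h5, h6, h7]
      (clear * - h4; linarith only [h4])
    have h1 := conc_mod hq J M hJ hM (by
      refine le_trans ?_ hqle
      omega) (fun i => (V i).image (fun v : ℤ => (v : ZMod q))) (fun i => by
        rw [Finset.card_image_of_injOn, hV i]
        intro v hv w hw h
        exact hinj i v (Finset.mem_coe.1 hv) w (Finset.mem_coe.1 hw) h) (z : ZMod q)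
    refine le_trans (Nat.mul_le_mul_right _ ?_) h1
    refine Finset.card_le_card_of_injOn (fun v => fun i => (v i : ZMod q)) ?_ ?_
    · intro v hv
      have h2 := Finset.mem_filter.1 (Finset.mem_coe.1 hv)
      refine Finset.mem_coe.2 (Finset.mem_filter.2 ⟨Fintype.mem_piFinset.2 fun i => ?_, ?_⟩)
      · exact Finset.mem_image_of_mem _ (Fintype.mem_piFinset.1 h2.1 i)
      · rw [← h2.2]
        push_cast
        rfl
    · intro v hv w hw h
      have h2 := Finset.mem_filter.1 (Finset.mem_coe.1 hv)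
      have h3 := Finset.mem_filter.1 (Finset.mem_coe.1 hw)
      funext i
      exact hinj i _ (Fintype.mem_piFinset.1 h2.1 i) _ (Fintype.mem_piFinset.1 h3.1 i)
        (congrFun h i)

end Pool.Agent.Helper15.GPR
end

/- Helper24.DI.H15.GPR.Walk -/
section
set_option autoImplicit false

/-!
# Project GL++ (MP_120218), Walk: sums of independent random leaves of trees
-/

namespace Pool.Agent.Helper15.GPR

open Finset

/-- the lower factor -/
def wl (J m : ℕ) : ℕ := if m = 0 then 1 else 2 ^ J * (m + 1)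

/-- the upper factor -/
def wu (J m : ℕ) : ℕ := if m = 0 then 1 else 52 * (m + 1) ^ (4 ^ J)

/-- one coordinate -/
theorem walk_one (J m : ℕ) (e : Fin (4 ^ J) → ℕ → ℤ)
    (he : ∀ i, ∀ t t', t ≤ m → t' ≤ m → e i t = e i t' → t = t') (z : ℤ) :
    ((Fintype.piFinset (fun _ : Fin (4 ^ J) => Finset.range (m + 1))).filter
      (fun σ => m ≠ 0 → ∑ i, e i (σ i) = z)).card * wl J m ≤ wu J m := by
  unfold wl wu
  by_cases hm : m = 0
  · rw [if_pos hm, if_pos hm, mul_one]
    refine (Finset.card_filter_le _ _).trans ?_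
    rw [Fintype.card_piFinset, Finset.prod_const, Finset.card_range, hm, zero_add, one_pow]
  · rw [if_neg hm, if_neg hm]
    have h1 := conc J (m + 1) (by omega) (fun i => (Finset.range (m + 1)).image (e i)) (fun i => by
      rw [Finset.card_image_of_injOn, Finset.card_range]
      intro t ht t' ht' h
      have h2 := Finset.mem_range.1 (Finset.mem_coe.1 ht)
      have h3 := Finset.mem_range.1 (Finset.mem_coe.1 ht')
      exact he i t t' (by omega) (by omega) h) z
    refine le_trans (Nat.mul_le_mul_right _ ?_) h1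
    refine Finset.card_le_card_of_injOn (fun σ => fun i => e i (σ i)) ?_ ?_
    · intro σ hσ
      have h2 := Finset.mem_filter.1 (Finset.mem_coe.1 hσ)
      exact Finset.mem_coe.2 (Finset.mem_filter.2 ⟨Fintype.mem_piFinset.2 fun i =>
        Finset.mem_image_of_mem _ (Fintype.mem_piFinset.1 h2.1 i), h2.2 hm⟩)
    · intro σ hσ σ' hσ' h
      have h2 := Finset.mem_filter.1 (Finset.mem_coe.1 hσ)
      have h3 := Finset.mem_filter.1 (Finset.mem_coe.1 hσ')
      funext i
      have h4 := Finset.mem_range.1 (Fintype.mem_piFinset.1 h2.1 i)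
      have h5 := Finset.mem_range.1 (Fintype.mem_piFinset.1 h3.1 i)
      exact he i _ _ (by omega) (by omega) (congrFun h i)

/-- **The walk along trees.** -/
theorem walk (J : ℕ) : ∀ (R : ℕ) (b : Fin R → ℕ) (s : Fin (4 ^ J) → (Fin R → ℕ) → (Fin R → ℤ)),
    (∀ i, ∀ t t' : Fin R → ℕ, (∀ j, t j ≤ b j) → (∀ j, t' j ≤ b j) → ∀ j,
      (∀ k, k < j → t k = t' k) → (s i t j = s i t' j ↔ t j = t' j)) →
    ∀ z : Fin R → ℤ,
    ((Fintype.piFinset (fun _ : Fin (4 ^ J) => Fintype.piFinset
      (fun j => Finset.range (b j + 1)))).filter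
        (fun τ => ∀ j, b j ≠ 0 → ∑ i, s i (τ i) j = z j)).card * ∏ j, wl J (b j) ≤
      ∏ j, wu J (b j) := by
  intro R
  induction R with
  | zero =>
    intro b s _ z
    rw [Fin.prod_univ_zero, Fin.prod_univ_zero, mul_one]
    refine (Finset.card_filter_le _ _).trans ?_
    rw [Fintype.card_piFinset, Finset.prod_const, Fintype.card_piFinset, Fin.prod_univ_zero,
      one_pow]
  | succ R ih =>
    intro b s hs z
    rw [Fin.prod_univ_succ, Fin.prod_univ_succ]
    obtain ⟨F, hF⟩ : ∃ F, F = (Fintype.piFinset (fun _ : Fin (4 ^ J) => Fintype.piFinset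
      (fun j => Finset.range (b j + 1)))).filter
        (fun τ => ∀ j, b j ≠ 0 → ∑ i, s i (τ i) j = z j) := ⟨_, rfl⟩
    rw [← hF]
    have memF : ∀ τ, τ ∈ F ↔ (∀ i j, τ i j ≤ b j) ∧ ∀ j, b j ≠ 0 → ∑ i, s i (τ i) j = z j := by
      intro τ
      rw [hF, Finset.mem_filter, Fintype.mem_piFinset]
      refine and_congr_left fun _ => forall_congr' fun i => ?_
      rw [Fintype.mem_piFinset]
      exact forall_congr' fun j => by rw [Finset.mem_range, Nat.lt_succ_iff]
    obtain ⟨e, he⟩ : ∃ e : Fin (4 ^ J) → ℕ → ℤ, e = fun i m =>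
      s i (Fin.cons m (fun _ => 0) : Fin (R + 1) → ℕ) 0 := ⟨_, rfl⟩
    have hcons : ∀ m, m ≤ b 0 → ∀ j, (Fin.cons m (fun _ => 0) : Fin (R + 1) → ℕ) j ≤ b j := by
      intro m hm j
      induction j using Fin.cases with
      | zero => simpa using hm
      | succ j => simp
    have he1 : ∀ i, ∀ t : Fin (R + 1) → ℕ, (∀ j, t j ≤ b j) → s i t 0 = e i (t 0) := by
      intro i t ht
      rw [he]
      refine (hs i t _ ht (hcons _ (ht 0)) 0 fun k hk => absurd hk (Fin.not_lt_zero k)).2 ?_
      simp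
    have he2 : ∀ i, ∀ t t', t ≤ b 0 → t' ≤ b 0 → e i t = e i t' → t = t' := by
      intro i t t' ht ht' h
      rw [he] at h
      have h1 := (hs i _ _ (hcons t ht) (hcons t' ht') 0
        fun k hk => absurd hk (Fin.not_lt_zero k)).1 h
      simpa using h1
    have h1 := walk_one J (b 0) e he2 (z 0)
    obtain ⟨S0, hS0⟩ : ∃ S0, S0 = (Fintype.piFinset (fun _ : Fin (4 ^ J) =>
      Finset.range (b 0 + 1))).filter (fun σ => b 0 ≠ 0 → ∑ i, e i (σ i) = z 0) := ⟨_, rfl⟩
    rw [← hS0] at h1
    have hmaps : ∀ τ ∈ F, (fun i => τ i 0) ∈ S0 := by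
      intro τ hτ
      rw [memF] at hτ
      rw [hS0, Finset.mem_filter, Fintype.mem_piFinset]
      refine ⟨fun i => ?_, fun h0 => ?_⟩
      · rw [Finset.mem_range, Nat.lt_succ_iff]
        exact hτ.1 i 0
      · rw [← hτ.2 0 h0]
        exact Finset.sum_congr rfl fun i _ => (he1 i (τ i) (hτ.1 i)).symm
    have hfib : ∀ σ ∈ S0, (F.filter (fun τ => (fun i => τ i 0) = σ)).card *
        ∏ j : Fin R, wl J (b j.succ) ≤ ∏ j : Fin R, wu J (b j.succ) := by
      intro σ hσ
      rw [hS0, Finset.mem_filter, Fintype.mem_piFinset] at hσ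
      have hσ0 : ∀ i, σ i ≤ b 0 := fun i => by
        have := Finset.mem_range.1 (hσ.1 i)
        omega
      have h2 := ih (fun j => b j.succ) (fun i t => fun j => s i (Fin.cons (σ i) t) j.succ)
        (by
          intro i t t' ht ht' j hj
          refine (hs i (Fin.cons (σ i) t) (Fin.cons (σ i) t') ?_ ?_ j.succ ?_).trans ?_
          · intro k
            induction k using Fin.cases with
            | zero => simpa using hσ0 i
            | succ k => simpa using ht k
          · intro k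
            induction k using Fin.cases with
            | zero => simpa using hσ0 i
            | succ k => simpa using ht' k
          · intro k hk
            induction k using Fin.cases with
            | zero => simp
            | succ k => simpa using hj k (Fin.succ_lt_succ_iff.1 hk)
          · rw [Fin.cons_succ, Fin.cons_succ]) (fun j => z j.succ)
      refine le_trans (Nat.mul_le_mul_right _ ?_) h2
      refine Finset.card_le_card_of_injOn (fun τ => fun i => (Fin.tail (τ i) : Fin R → ℕ)) ?_ ?_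
      · intro τ hτ
        obtain ⟨h3, h4⟩ := Finset.mem_filter.1 (Finset.mem_coe.1 hτ)
        rw [memF] at h3
        refine Finset.mem_coe.2 (Finset.mem_filter.2 ⟨Fintype.mem_piFinset.2 fun i =>
          Fintype.mem_piFinset.2 fun j => ?_, fun j hj => ?_⟩)
        · rw [Finset.mem_range, Nat.lt_succ_iff]
          exact h3.1 i j.succ
        · rw [← h3.2 j.succ hj]
          refine Finset.sum_congr rfl fun i _ => ?_
          rw [← congrFun h4 i, Fin.cons_self_tail]
      · intro τ hτ τ' hτ' h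
        have h4 := (Finset.mem_filter.1 (Finset.mem_coe.1 hτ)).2
        have h4' := (Finset.mem_filter.1 (Finset.mem_coe.1 hτ')).2
        funext i
        have h5 : τ i 0 = τ' i 0 := (congrFun h4 i).trans (congrFun h4' i).symm
        have h6 : (Fin.tail (τ i) : Fin R → ℕ) = Fin.tail (τ' i) := congrFun h i
        rw [← Fin.cons_self_tail (τ i), ← Fin.cons_self_tail (τ' i), h5, h6]
    rw [Finset.card_eq_sum_card_fiberwise hmaps]
    calc (∑ σ ∈ S0, (F.filter (fun τ => (fun i => τ i 0) = σ)).card) *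
          (wl J (b 0) * ∏ j : Fin R, wl J (b j.succ)) =
          wl J (b 0) * ∑ σ ∈ S0, (F.filter (fun τ => (fun i => τ i 0) = σ)).card *
            ∏ j : Fin R, wl J (b j.succ) := by
          rw [← Finset.sum_mul]
          ring
      _ ≤ wl J (b 0) * ∑ _σ ∈ S0, ∏ j : Fin R, wu J (b j.succ) :=
          Nat.mul_le_mul_left _ (Finset.sum_le_sum hfib)
      _ = (S0.card * wl J (b 0)) * ∏ j : Fin R, wu J (b j.succ) := by
          rw [Finset.sum_const, smul_eq_mul]
          ring
      _ ≤ wu J (b 0) * ∏ j : Fin R, wu J (b j.succ) := Nat.mul_le_mul_right _ h1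

end Pool.Agent.Helper15.GPR
end
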