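import Mathlib

/- Helper15.GL.Sep -/
section
set_option autoImplicit false

/-!
# Project GL (MP_120218), Sep: `r` primes separate a group of positive rationals of rank `r`
-/

namespace Pool.Agent.Helper15.GL

open Finset

theorem eq_one_of_val (x : ℚ) (hx : 0 < x) (h : ∀ p : ℕ, p.Prime → padicValRat p x = 0) :
    x = 1 := by
  have hnum : 0 < x.num := Rat.num_pos.2 hx
  have hval : ∀ p : ℕ, p.Prime → padicValInt p x.num = padicValNat p x.den := by
    intro p hp
    have := h p hp
    rw [padicValRat_def] at this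
    omega
  have hn1 : x.num.natAbs = 1 := by
    by_contra hne
    obtain ⟨p, hp, hpd⟩ := Nat.exists_prime_and_dvd hne
    have := Fact.mk hp
    have h1 : 1 ≤ padicValNat p x.num.natAbs :=
      one_le_padicValNat_of_dvd (by omega) hpd
    have h2 : padicValNat p x.num.natAbs = padicValNat p x.den := hval p hp
    rw [h2] at h1
    exact Nat.not_coprime_of_dvd_of_dvd hp.one_lt hpd (dvd_of_one_le_padicValNat h1) x.reduced
  have hd1 : x.den = 1 := by
    by_contra hne
    obtain ⟨p, hp, hpd⟩ := Nat.exists_prime_and_dvd hne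
    have := Fact.mk hp
    have h1 : 1 ≤ padicValNat p x.den := one_le_padicValNat_of_dvd x.den_ne_zero hpd
    have h2 : padicValNat p x.num.natAbs = padicValNat p x.den := hval p hp
    rw [← h2, hn1, padicValNat_one_right] at h1
    omega
  have h3 : x.num = 1 := by omega
  rw [← Rat.num_div_den x, h3, hd1]
  norm_num

theorem val_prod {r : ℕ} (p : ℕ) (hp : p.Prime) (g : Fin r → ℚ) (hg : ∀ i, 0 < g i)
    (e : Fin r → ℤ) :
    padicValRat p (∏ i, g i ^ e i) = ∑ i, e i * padicValRat p (g i) := by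
  have := Fact.mk hp
  have key : ∀ s : Finset (Fin r), padicValRat p (∏ i ∈ s, g i ^ e i) =
      ∑ i ∈ s, e i * padicValRat p (g i) := by
    classical
    intro s
    induction s using Finset.induction_on with
    | empty => simp
    | insert a s ha ih =>
      rw [Finset.prod_insert ha, Finset.sum_insert ha, padicValRat.mul, ih, padicValRat.zpow]
      · exact zpow_ne_zero _ (hg a).ne'
      · exact Finset.prod_ne_zero_iff.2 fun i _ => zpow_ne_zero _ (hg i).ne'
  exact key Finset.univ

theorem exists_separating (r : ℕ) (g : Fin r → ℚ) (hg : ∀ i, 0 < g i) :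
    ∃ q : Finset ℕ, (∀ p ∈ q, p.Prime) ∧ q.card ≤ r ∧ ∀ e e' : Fin r → ℤ,
      (∀ p ∈ q, padicValRat p (∏ i, g i ^ e i) = padicValRat p (∏ i, g i ^ e' i)) →
      ∏ i, g i ^ e i = ∏ i, g i ^ e' i := by
  classical
  obtain ⟨v, hv⟩ : ∃ v : Nat.Primes → (Fin r → ℚ),
      v = fun (p : Nat.Primes) i => ((padicValRat (p : ℕ) (g i) : ℤ) : ℚ) := ⟨_, rfl⟩
  obtain ⟨κ, a, ha, hspan, hli⟩ := exists_linearIndependent' ℚ v
  have : Finite κ := hli.finite_of_isNoetherian
  have := Fintype.ofFinite κ
  refine ⟨Finset.univ.image (fun k : κ => ((a k : Nat.Primes) : ℕ)), ?_, ?_, ?_⟩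
  · intro p hp
    obtain ⟨k, _, rfl⟩ := Finset.mem_image.1 hp
    exact (a k).2
  · refine Finset.card_image_le.trans ?_
    rw [Finset.card_univ]
    have := hli.fintype_card_le_finrank
    rwa [Module.finrank_fin_fun] at this
  · intro e e' hee
    obtain ⟨φ, hφ⟩ : ∃ φ : (Fin r → ℚ) →ₗ[ℚ] ℚ, ∀ x, φ x = ∑ i, ((e i - e' i : ℤ) : ℚ) * x i :=
      ⟨∑ i, ((e i - e' i : ℤ) : ℚ) • LinearMap.proj i, fun x => by simp⟩
    have hφv : ∀ p : Nat.Primes, φ (v p) =
        (((∑ i, e i * padicValRat (p : ℕ) (g i)) - ∑ i, e' i * padicValRat (p : ℕ) (g i) : ℤ) :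
          ℚ) := by
      intro p
      rw [hφ, hv]
      push_cast
      rw [← Finset.sum_sub_distrib]
      exact Finset.sum_congr rfl fun i _ => by ring
    have h0 : ∀ k : κ, φ (v (a k)) = 0 := by
      intro k
      have h1 := hee ((a k : Nat.Primes) : ℕ) (Finset.mem_image_of_mem _ (Finset.mem_univ k))
      rw [val_prod _ (a k).2 g hg, val_prod _ (a k).2 g hg] at h1
      rw [hφv, h1, sub_self, Int.cast_zero]
    have hker : Submodule.span ℚ (Set.range v) ≤ LinearMap.ker φ := by
      rw [← hspan, Submodule.span_le]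
      rintro x ⟨k, rfl⟩
      exact h0 k
    have hall : ∀ p : Nat.Primes, φ (v p) = 0 := fun p =>
      hker (Submodule.subset_span ⟨p, rfl⟩)
    have hpos : ∀ d : Fin r → ℤ, 0 < ∏ i, g i ^ d i := fun d =>
      Finset.prod_pos fun i _ => zpow_pos (hg i) _
    have h2 : (∏ i, g i ^ e i) / ∏ i, g i ^ e' i = 1 := by
      refine eq_one_of_val _ (div_pos (hpos e) (hpos e')) fun p hp => ?_
      have := Fact.mk hp
      rw [padicValRat.div (hpos e).ne' (hpos e').ne', val_prod p hp g hg, val_prod p hp g hg]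
      have h3 := hall ⟨p, hp⟩
      rw [hφv] at h3
      exact_mod_cast h3
    exact (div_eq_one_iff_eq (hpos e').ne').1 h2

end Pool.Agent.Helper15.GL
end

/- Helper24.DI.H15.GPQ.Base -/
section
set_option autoImplicit false

/-!
# Project GL++ (MP_120218), Base: rich translates, scaling, estimates (copies of the lemmas of
GL.GrowR, GL.Final and GLP.GrowB)
-/

namespace Pool.Agent.Helper15.GPQ

open Finset

/-- scaling a set of positive rationals to positive integers -/
theorem scale_pos (P : Finset ℚ) (hP : ∀ s ∈ P, 0 < s) :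
    ∃ (D : ℕ) (σ : ℚ → ℕ), 0 < D ∧ ∀ s ∈ P, σ s ≠ 0 ∧ ((σ s : ℕ) : ℚ) = s * D := by
  classical
  obtain ⟨D, hD⟩ : ∃ D : ℕ, D = ∏ s ∈ P, s.den := ⟨_, rfl⟩
  have hD0 : 0 < D := by
    rw [hD]
    exact Finset.prod_pos fun s _ => s.den_pos
  refine ⟨D, fun s => (s * D).num.natAbs, hD0, fun s hs => ?_⟩
  have hpos : 0 < s * D := mul_pos (hP s hs) (by exact_mod_cast hD0)
  obtain ⟨m, hm⟩ : s.den ∣ D := by
    rw [hD]
    exact Finset.dvd_prod_of_mem _ hs
  have hint : s * D = ((s.num * m : ℤ) : ℚ) := by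
    rw [hm]
    push_cast
    rw [← mul_assoc, Rat.mul_den_eq_num]
  have hnum : (s * D).num = s.num * m := by rw [hint]; exact Rat.num_intCast _
  have hpos' : 0 < (s * D).num := Rat.num_pos.2 hpos
  obtain ⟨N, hN⟩ : ∃ N : ℕ, (s * D).num = N := ⟨(s * D).num.toNat, by omega⟩
  refine ⟨?_, ?_⟩
  · show (s * D).num.natAbs ≠ 0
    rw [hN, Int.natAbs_natCast]
    intro h
    rw [hN, h] at hpos'
    simp at hpos'
  · show (((s * D).num.natAbs : ℕ) : ℚ) = s * D
    rw [hN, Int.natAbs_natCast]
    have h1 : ((s.num * m : ℤ) : ℚ) = ((N : ℤ) : ℚ) := by rw [← hnum, hN]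
    rw [hint, h1]
    norm_cast

/-- the elements of `A` in `z P` -/
def rich (A : Finset ℤ) (P : Finset ℚ) (z : ℚ) : Finset ℤ :=
  A.filter (fun a : ℤ => ∃ s ∈ P, (a : ℚ) = z * s)

theorem mem_rich {A : Finset ℤ} {P : Finset ℚ} {z : ℚ} {a : ℤ} :
    a ∈ rich A P z ↔ a ∈ A ∧ ∃ s ∈ P, (a : ℚ) = z * s := Finset.mem_filter

theorem rich_le (A : Finset ℤ) (P : Finset ℚ) (z : ℚ) : (rich A P z).card ≤ P.card := by
  classical
  calc (rich A P z).card = ((rich A P z).image (fun a : ℤ => (a : ℚ))).card := by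
        rw [Finset.card_image_of_injective _ Int.cast_injective]
    _ ≤ (P.image (fun s => z * s)).card := by
        refine Finset.card_le_card fun x hx => ?_
        obtain ⟨a, ha, rfl⟩ := Finset.mem_image.1 hx
        obtain ⟨_, s, hs, has⟩ := mem_rich.1 ha
        exact Finset.mem_image.2 ⟨s, hs, has.symm⟩
    _ ≤ P.card := Finset.card_image_le

/-- `A` expands every set `X` with `|X| ≤ |A|^B` almost maximally -/
def GrowsB (η B : ℝ) (A : Finset ℤ) : Prop :=
  ∀ X : Finset ℤ, X.Nonempty → Real.log X.card ≤ B * Real.log A.card →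
    (1 - η) * (Real.log X.card + Real.log A.card) ≤
      Real.log ((Finset.image₂ (fun a b => a + b) X A).card)

/-- `log y ≤ λ y + log (1 / λ)` -/
theorem log_le_lin (l y : ℝ) (hl : 0 < l) (hy : 0 < y) : Real.log y ≤ l * y + Real.log (1 / l) := by
  have h1 := Real.log_le_sub_one_of_pos (mul_pos hl hy)
  rw [Real.log_mul hl.ne' hy.ne'] at h1
  rw [one_div, Real.log_inv]
  (clear * - h1; linarith only [h1])

/-- the binomial coefficient `binom (N + r) r` -/
theorem choose_le (N r : ℕ) (hr : 1 ≤ r) :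
    (((N + r).choose r : ℕ) : ℝ) ≤ (Real.exp 1 * ((N : ℝ) + r) / r) ^ r := by
  have hr0 : (0 : ℝ) < r := by exact_mod_cast hr
  have h1 := Nat.choose_le_pow_div (α := ℝ) r (N + r)
  have h2 := Real.pow_div_factorial_le_exp (r : ℝ) hr0.le r
  have hf : (0 : ℝ) < r.factorial := by exact_mod_cast r.factorial_pos
  refine h1.trans ?_
  rw [div_le_iff₀ hf, div_pow, mul_pow, ← Real.exp_nat_mul, mul_one]
  rw [div_le_iff₀ hf] at h2
  rw [div_mul_eq_mul_div, le_div_iff₀ (by (clear * - hr; positivity))]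
  push_cast
  have h3 : (0 : ℝ) ≤ ((N : ℝ) + r) ^ r := by (clear * - hr; positivity)
  calc ((N : ℝ) + r) ^ r * (r : ℝ) ^ r ≤ ((N : ℝ) + r) ^ r * (Real.exp r * r.factorial) :=
        mul_le_mul_of_nonneg_left h2 h3
    _ = Real.exp r * ((N : ℝ) + r) ^ r * r.factorial := by ring

theorem log_choose_le (N r : ℕ) (l : ℝ) (hl : 0 < l) :
    Real.log (((N + r).choose r : ℕ) : ℝ) ≤ r + l * ((N : ℝ) + r) + r * Real.log (1 / l) := by
  rcases Nat.eq_zero_or_pos r with rfl | hr
  · simp only [Nat.choose_zero_right, Nat.cast_one, Real.log_one, Nat.cast_zero, zero_mul,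
      add_zero, zero_add]
    (clear * - hl; positivity)
  · have hr0 : (0 : ℝ) < r := by exact_mod_cast hr
    have hc : (0 : ℝ) < (((N + r).choose r : ℕ) : ℝ) := by
      exact_mod_cast Nat.choose_pos (by omega)
    have h1 := Real.log_le_log hc (choose_le N r hr)
    have hy : (0 : ℝ) < ((N : ℝ) + r) / r := by (clear * - hr; positivity)
    rw [mul_div_assoc, Real.log_pow, Real.log_mul (Real.exp_pos 1).ne' hy.ne',
      Real.log_exp] at h1
    have h2 := log_le_lin l _ hl hy
    have h3 : (r : ℝ) * Real.log (((N : ℝ) + r) / r) ≤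
        r * (l * (((N : ℝ) + r) / r) + Real.log (1 / l)) := mul_le_mul_of_nonneg_left h2 hr0.le
    have h4 : (r : ℝ) * (l * (((N : ℝ) + r) / r) + Real.log (1 / l)) =
        l * ((N : ℝ) + r) + r * Real.log (1 / l) := by
      field_simp
    rw [h4] at h3
    linarith only [h1, h3]

theorem choose_mono (N r r' : ℕ) (h : r' ≤ r) : (N + r').choose r' ≤ (N + r).choose r := by
  have e1 : (N + r').choose r' = (N + r').choose N := by
    rw [← Nat.choose_symm_add]
  have e2 : (N + r).choose r = (N + r).choose N := by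
    rw [← Nat.choose_symm_add]
  rw [e1, e2]
  exact Nat.choose_le_choose N (by omega)

/-- a common denominator -/
theorem scale_int (Z : Finset ℚ) : ∃ E : ℕ, 0 < E ∧ ∀ z ∈ Z, ((z * E).num : ℚ) = z * E := by
  classical
  obtain ⟨D, hD⟩ : ∃ D : ℕ, D = ∏ s ∈ Z, s.den := ⟨_, rfl⟩
  have hD0 : 0 < D := by
    rw [hD]
    exact Finset.prod_pos fun s _ => s.den_pos
  refine ⟨D, hD0, fun s hs => ?_⟩
  obtain ⟨m, hm⟩ : s.den ∣ D := by
    rw [hD]
    exact Finset.dvd_prod_of_mem _ hs
  have hint : s * D = ((s.num * m : ℤ) : ℚ) := by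
    rw [hm]
    push_cast
    rw [← mul_assoc, Rat.mul_den_eq_num]
  rw [hint, Rat.num_intCast]

theorem card_scale (E : ℕ) (hE : 0 < E) (X : Finset ℤ) :
    (X.image (fun x => (E : ℤ) * x)).card = X.card := by
  refine Finset.card_image_of_injective _ fun x y h => ?_
  have hE' : (E : ℤ) ≠ 0 := by exact_mod_cast hE.ne'
  exact mul_left_cancel₀ hE' h

theorem card_sum_scale (E : ℕ) (hE : 0 < E) (X A : Finset ℤ) :
    (Finset.image₂ (fun a b => a + b) (X.image (fun x => (E : ℤ) * x))
      (A.image (fun x => (E : ℤ) * x))).card =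
      (Finset.image₂ (fun a b => a + b) X A).card := by
  rw [← card_scale E hE (Finset.image₂ (fun a b => a + b) X A)]
  congr 1
  ext w
  simp only [Finset.mem_image₂, Finset.mem_image]
  constructor
  · rintro ⟨_, ⟨x, hx, rfl⟩, _, ⟨y, hy, rfl⟩, rfl⟩
    exact ⟨x + y, ⟨x, hx, y, hy, rfl⟩, by ring⟩
  · rintro ⟨_, ⟨x, hx, y, hy, rfl⟩, rfl⟩
    exact ⟨_, ⟨x, hx, rfl⟩, _, ⟨y, hy, rfl⟩, by ring⟩

end Pool.Agent.Helper15.GPQ
end

/- Helper24.DI.H15.GL.Node -/
section
set_option autoImplicit false

/-!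
# Project GL (MP_120218), Node: entropy of a convolution

For every `η > 0` there is `K` such that for all finite commutative groups `G` and probability
weights `f, g` on `G` the entropy of `f * g` is at least
`(1 - η) (H(f) + H(g)) - K H(f) H(g)`.
-/

namespace Pool.Agent.Helper15.GL

open Finset

/-- entropy of a weight function on a finite type -/
noncomputable def ent {α : Type} [Fintype α] (f : α → ℝ) : ℝ := ∑ a, Real.negMulLog (f a)

variable {G : Type} [Fintype G] [AddCommGroup G]

/-- convolution -/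
noncomputable def conv (f g : G → ℝ) (z : G) : ℝ := ∑ a, f a * g (z - a)

theorem conv_nonneg (f g : G → ℝ) (hf : ∀ a, 0 ≤ f a) (hg : ∀ a, 0 ≤ g a) (z : G) :
    0 ≤ conv f g z := Finset.sum_nonneg fun a _ => mul_nonneg (hf a) (hg _)

theorem conv_comm (f g : G → ℝ) : conv f g = conv g f := by
  funext z
  unfold conv
  rw [← Equiv.sum_comp (Equiv.subLeft z)]
  refine Finset.sum_congr rfl fun a _ => ?_
  simp only [Equiv.subLeft_apply]
  rw [sub_sub_cancel, mul_comm]

theorem sum_conv_mul (f g : G → ℝ) (F : G → ℝ) :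
    ∑ z, conv f g z * F z = ∑ a, ∑ b, f a * g b * F (a + b) := by
  unfold conv
  calc ∑ z, (∑ a, f a * g (z - a)) * F z = ∑ z, ∑ a, f a * g (z - a) * F z := by
        refine Finset.sum_congr rfl fun z _ => ?_
        rw [Finset.sum_mul]
    _ = ∑ a, ∑ z, f a * g (z - a) * F z := Finset.sum_comm
    _ = ∑ a, ∑ b, f a * g b * F (a + b) := by
        refine Finset.sum_congr rfl fun a _ => ?_
        rw [← Equiv.sum_comp (Equiv.addLeft a)]
        refine Finset.sum_congr rfl fun b _ => ?_
        simp only [Equiv.coe_addLeft, add_sub_cancel_left]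

theorem sum_conv (f g : G → ℝ) : ∑ z, conv f g z = (∑ a, f a) * ∑ b, g b := by
  have h := sum_conv_mul f g (fun _ => 1)
  simp only [mul_one] at h
  rw [h, Finset.sum_mul_sum]

/-- A code `W` for the pair `(a, b)` given `a + b` bounds the loss of entropy. -/
theorem code_bound (f g : G → ℝ) (hf : ∀ a, 0 ≤ f a) (hg : ∀ a, 0 ≤ g a) (hf1 : ∑ a, f a = 1)
    (hg1 : ∑ a, g a = 1) (W : G → G → ℝ) (hW : ∀ a b, 0 < f a → 0 < g b → 0 < W a b)
    (hW0 : ∀ a b, 0 ≤ W a b) (hK : ∀ z, ∑ a, W a (z - a) ≤ 1) :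
    ent f + ent g - ent (conv f g) ≤ ∑ a, ∑ b, f a * g b * (-Real.log (W a b)) := by
  classical
  have h1 : ∀ a b, f a * g b * (Real.log (conv f g (a + b)) + Real.log (W a b) -
      Real.log (f a) - Real.log (g b)) ≤ conv f g (a + b) * W a b - f a * g b := by
    intro a b
    rcases eq_or_lt_of_le (hf a) with ha | ha
    · rw [← ha]
      simp only [zero_mul, sub_zero]
      exact mul_nonneg (conv_nonneg f g hf hg _) (hW0 a b)
    rcases eq_or_lt_of_le (hg b) with hb | hb
    · rw [← hb]
      simp only [zero_mul, mul_zero, sub_zero]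
      exact mul_nonneg (conv_nonneg f g hf hg _) (hW0 a b)
    have hw := hW a b ha hb
    have hq : 0 < conv f g (a + b) := by
      unfold conv
      refine lt_of_lt_of_le (mul_pos ha hb) ?_
      have := Finset.single_le_sum (f := fun c => f c * g (a + b - c))
        (fun c _ => mul_nonneg (hf c) (hg _)) (Finset.mem_univ a)
      simpa only [add_sub_cancel_left] using this
    have h2 : Real.log (conv f g (a + b)) + Real.log (W a b) - Real.log (f a) - Real.log (g b) =
        Real.log (conv f g (a + b) * W a b / (f a * g b)) := by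
      rw [Real.log_div (by (clear * - hq hw; positivity)) (by (clear * - ha hb; positivity)), Real.log_mul hq.ne' hw.ne',
        Real.log_mul ha.ne' hb.ne']
      ring
    rw [h2]
    have h3 := Real.log_le_sub_one_of_pos
      (show 0 < conv f g (a + b) * W a b / (f a * g b) by (clear * - hq hw ha hb; positivity))
    calc f a * g b * Real.log (conv f g (a + b) * W a b / (f a * g b))
        ≤ f a * g b * (conv f g (a + b) * W a b / (f a * g b) - 1) :=
          mul_le_mul_of_nonneg_left h3 (by positivity)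
      _ = conv f g (a + b) * W a b - f a * g b := by
          field_simp
  have h2 : ∑ a, ∑ b, f a * g b * (Real.log (conv f g (a + b)) + Real.log (W a b) -
      Real.log (f a) - Real.log (g b)) ≤ ∑ a, ∑ b, (conv f g (a + b) * W a b - f a * g b) :=
    Finset.sum_le_sum fun a _ => Finset.sum_le_sum fun b _ => h1 a b
  have h3 : ∑ a, ∑ b, (conv f g (a + b) * W a b - f a * g b) ≤ 0 := by
    have e1 : ∑ a, ∑ b, (conv f g (a + b) * W a b - f a * g b) =
        ∑ a, ∑ b, conv f g (a + b) * W a b - ∑ a, ∑ b, f a * g b := by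
      rw [← Finset.sum_sub_distrib]
      refine Finset.sum_congr rfl fun a _ => ?_
      rw [Finset.sum_sub_distrib]
    have e2 : ∑ a, ∑ b, f a * g b = 1 := by
      rw [← Finset.sum_mul_sum, hf1, hg1, one_mul]
    have e3 : ∑ a, ∑ b, conv f g (a + b) * W a b = ∑ z, conv f g z * ∑ a, W a (z - a) := by
      calc ∑ a, ∑ b, conv f g (a + b) * W a b = ∑ a, ∑ z, conv f g z * W a (z - a) := by
            refine Finset.sum_congr rfl fun a _ => ?_
            rw [← Equiv.sum_comp (Equiv.addLeft a) (fun z => conv f g z * W a (z - a))]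
            refine Finset.sum_congr rfl fun b _ => ?_
            simp only [Equiv.coe_addLeft, add_sub_cancel_left]
        _ = ∑ z, ∑ a, conv f g z * W a (z - a) := Finset.sum_comm
        _ = _ := by
            refine Finset.sum_congr rfl fun z _ => ?_
            rw [Finset.mul_sum]
    have e4 : ∑ z, conv f g z * ∑ a, W a (z - a) ≤ ∑ z, conv f g z :=
      Finset.sum_le_sum fun z _ => mul_le_of_le_one_right (conv_nonneg f g hf hg z) (hK z)
    rw [sum_conv, hf1, hg1, one_mul] at e4
    rw [e1, e2, e3]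
    linarith only [e4]
  have h4 : ∑ a, ∑ b, f a * g b * (Real.log (conv f g (a + b)) + Real.log (W a b) -
      Real.log (f a) - Real.log (g b)) = -ent (conv f g) -
        (∑ a, ∑ b, f a * g b * (-Real.log (W a b))) + ent f + ent g := by
    have e1 : -ent (conv f g) = ∑ a, ∑ b, f a * g b * Real.log (conv f g (a + b)) := by
      rw [← sum_conv_mul f g (fun z => Real.log (conv f g z))]
      unfold ent Real.negMulLog
      rw [← Finset.sum_neg_distrib]
      refine Finset.sum_congr rfl fun z _ => ?_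
      ring
    have e2 : ent f = ∑ a, ∑ b, f a * g b * (-Real.log (f a)) := by
      unfold ent Real.negMulLog
      refine Finset.sum_congr rfl fun a _ => ?_
      rw [← Finset.sum_mul, ← Finset.mul_sum, hg1]
      ring
    have e3 : ent g = ∑ a, ∑ b, f a * g b * (-Real.log (g b)) := by
      unfold ent Real.negMulLog
      rw [Finset.sum_comm]
      refine Finset.sum_congr rfl fun b _ => ?_
      rw [← Finset.sum_mul, ← Finset.sum_mul, hf1]
      ring
    rw [e1, e2, e3, ← Finset.sum_sub_distrib, ← Finset.sum_add_distrib, ← Finset.sum_add_distrib]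
    refine Finset.sum_congr rfl fun a _ => ?_
    rw [← Finset.sum_sub_distrib, ← Finset.sum_add_distrib, ← Finset.sum_add_distrib]
    refine Finset.sum_congr rfl fun b _ => ?_
    ring
  linarith

theorem ent_nonneg {α : Type} [Fintype α] (f : α → ℝ) (hf : ∀ a, 0 ≤ f a) (hf1 : ∑ a, f a = 1) :
    0 ≤ ent f := by
  refine Finset.sum_nonneg fun a _ => Real.negMulLog_nonneg (hf a) ?_
  rw [← hf1]
  exact Finset.single_le_sum (f := f) (fun b _ => hf b) (Finset.mem_univ a)

/-- the loss of entropy is at most the entropy of one of the two laws -/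
theorem loss_le (f g : G → ℝ) (hf : ∀ a, 0 ≤ f a) (hg : ∀ a, 0 ≤ g a) (hf1 : ∑ a, f a = 1)
    (hg1 : ∑ a, g a = 1) : ent f + ent g - ent (conv f g) ≤ ent g := by
  have h := code_bound f g hf hg hf1 hg1 (fun _ b => g b) (fun a b _ hb => hb) (fun _ b => hg b)
    (fun z => by
      rw [← hg1, Equiv.sum_comp (Equiv.subLeft z) g |>.symm]
      exact le_of_eq rfl)
  refine h.trans (le_of_eq ?_)
  unfold ent Real.negMulLog
  rw [Finset.sum_comm]
  refine Finset.sum_congr rfl fun b _ => ?_
  rw [← Finset.sum_mul, ← Finset.sum_mul, hf1]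
  ring

/-- a law with mode `a0` and `τ = 1 - f a0` -/
theorem mode_facts {α : Type} [Fintype α] [DecidableEq α] (f : α → ℝ) (hf : ∀ a, 0 ≤ f a)
    (hf1 : ∑ a, f a = 1) (a0 : α) (h0 : ∀ a, f a ≤ f a0) :
    0 < f a0 ∧ f a0 ≤ 1 ∧ (∀ a, a ≠ a0 → f a ≤ 1 - f a0) ∧ 1 - f a0 ≤ ent f ∧
      (1 - f a0) * (-Real.log (1 - f a0)) ≤ ent f := by
  classical
  have hpos : 0 < f a0 := by
    by_contra hneg
    have h1 : ∀ a, f a = 0 := fun a => le_antisymm ((h0 a).trans (not_lt.1 hneg)) (hf a)
    rw [Finset.sum_eq_zero (fun a _ => h1 a)] at hf1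
    exact zero_ne_one hf1
  have hle : f a0 ≤ 1 := by
    rw [← hf1]
    exact Finset.single_le_sum (f := f) (fun b _ => hf b) (Finset.mem_univ a0)
  have hsum : ∑ a ∈ univ.erase a0, f a = 1 - f a0 := by
    have := Finset.add_sum_erase univ f (Finset.mem_univ a0)
    linarith only [hf1, this]
  have hother : ∀ a, a ≠ a0 → f a ≤ 1 - f a0 := by
    intro a ha
    rw [← hsum]
    exact Finset.single_le_sum (f := f) (fun b _ => hf b)
      (Finset.mem_erase.2 ⟨ha, Finset.mem_univ a⟩)
  refine ⟨hpos, hle, hother, ?_, ?_⟩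
  · have h1 : -Real.log (f a0) ≤ ent f := by
      have e : -Real.log (f a0) = ∑ a, f a * (-Real.log (f a0)) := by
        rw [← Finset.sum_mul, hf1, one_mul]
      rw [e]
      unfold ent Real.negMulLog
      refine Finset.sum_le_sum fun a _ => ?_
      rcases eq_or_lt_of_le (hf a) with ha | ha
      · rw [← ha]
        simp
      · have := Real.log_le_log ha (h0 a)
        (clear * - ha this; nlinarith only [ha, this])
    have h2 := Real.log_le_sub_one_of_pos hpos
    linarith
  · have e : (1 - f a0) * (-Real.log (1 - f a0)) =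
        ∑ a ∈ univ.erase a0, f a * (-Real.log (1 - f a0)) := by
      rw [← Finset.sum_mul, hsum]
    rw [e]
    have h1 : ∑ a ∈ univ.erase a0, f a * (-Real.log (1 - f a0)) ≤
        ∑ a ∈ univ.erase a0, Real.negMulLog (f a) := by
      refine Finset.sum_le_sum fun a ha => ?_
      unfold Real.negMulLog
      rcases eq_or_lt_of_le (hf a) with h | h
      · rw [← h]
        simp
      · have := Real.log_le_log h (hother a (Finset.ne_of_mem_erase ha))
        (clear * - h this; nlinarith only [h, this])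
    refine h1.trans ?_
    unfold ent
    refine Finset.sum_le_sum_of_subset_of_nonneg (Finset.erase_subset _ _) fun a _ _ => ?_
    refine Real.negMulLog_nonneg (hf a) ((h0 a).trans hle)

/-- the main code -/
theorem loss_code [DecidableEq G] (f g : G → ℝ) (hf : ∀ a, 0 ≤ f a) (hg : ∀ a, 0 ≤ g a) (hf1 : ∑ a, f a = 1)
    (hg1 : ∑ a, g a = 1) (a0 b0 : G) (ha0 : ∀ a, f a ≤ f a0) (hb0 : ∀ b, g b ≤ g b0)
    (ρ : ℝ) (hρ : 0 < ρ) (hρ2 : ρ ≤ 1 / 2) :
    ent f + ent g - ent (conv f g) ≤ 2 * ρ + ((1 - f a0) + (1 - g b0)) * Real.log 2 +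
      (1 - g b0) * ent f + (1 - f a0) * (1 - g b0) * (-Real.log ρ) := by
  classical
  obtain ⟨hfa, hfa1, hfo, -, -⟩ := mode_facts f hf hf1 a0 ha0
  obtain ⟨hgb, hgb1, hgo, -, -⟩ := mode_facts g hg hg1 b0 hb0
  have hl2 : 0 < Real.log 2 := Real.log_pos (by norm_num)
  obtain ⟨κ, hκ⟩ : ∃ κ : G → ℝ, κ = fun z => if z = a0 + b0 then ρ else 1 / 2 := ⟨_, rfl⟩
  have hκ0 : ∀ z, 0 < κ z := by
    intro z
    rw [hκ]
    simp only
    split_ifs
    · exact hρ
    · norm_num
  have hκ1 : ∀ z, κ z ≤ 1 / 2 := by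
    intro z
    rw [hκ]
    simp only
    split_ifs
    · exact hρ2
    · exact le_rfl
  obtain ⟨W, hWd⟩ : ∃ W : G → G → ℝ,
    W = fun a b => if b = b0 then 1 - κ (a + b) else κ (a + b) * f a := ⟨_, rfl⟩
  have hcode := code_bound f g hf hg hf1 hg1 W (by
      intro a b ha _
      rw [hWd]
      simp only
      split_ifs
      · have := hκ1 (a + b)
        linarith only [this]
      · exact mul_pos (hκ0 _) ha) (by
      intro a b
      rw [hWd]
      simp only
      split_ifs
      · have := hκ1 (a + b)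
        (clear * - this; linarith only [this])
      · exact mul_nonneg (hκ0 _).le (hf a)) (by
      intro z
      have h1 : ∀ a, W a (z - a) ≤ (if a = z - b0 then 1 - κ z else 0) + κ z * f a := by
        intro a
        rw [hWd]
        simp only [add_sub_cancel]
        by_cases h : z - a = b0
        · have h' : a = z - b0 := by rw [← h, sub_sub_cancel]
          rw [if_pos h, if_pos h']
          have := mul_nonneg (hκ0 z).le (hf a)
          linarith only [this]
        · have h' : a ≠ z - b0 := by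
            intro h2
            exact h (by rw [h2, sub_sub_cancel])
          rw [if_neg h, if_neg h', zero_add]
      refine (Finset.sum_le_sum fun a _ => h1 a).trans ?_
      rw [Finset.sum_add_distrib, ← Finset.mul_sum, hf1, Finset.sum_ite_eq' univ (z - b0)]
      simp)
  refine hcode.trans ?_
  -- termwise bound
  have hterm : ∀ a b, f a * g b * (-Real.log (W a b)) ≤
      (if b = b0 then g b0 * ((if a = a0 then f a0 * (2 * ρ) else f a * Real.log 2)) else
        g b * (Real.negMulLog (f a) + f a * Real.log 2 +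
          (if a = a0 + b0 - b then (1 - f a0) * (-Real.log ρ) else 0))) := by
    intro a b
    by_cases hb : b = b0
    · rw [if_pos hb, hb, hWd]
      simp only [if_true]
      by_cases ha : a = a0
      · rw [if_pos ha, ha, hκ]
        simp only [if_true]
        have h1 : -Real.log (1 - ρ) ≤ 2 * ρ := by
          have h2 := Real.one_sub_inv_le_log_of_pos (show (0 : ℝ) < 1 - ρ by (clear * - hρ2; linarith only [hρ2]))
          have h3 : (1 - ρ)⁻¹ ≤ 1 + 2 * ρ := by
            rw [inv_le_comm₀ (by linarith only [hρ2]) (by linarith only [hρ]), inv_eq_one_div, div_le_iff₀ (by linarith only [hρ])]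
            (clear * - hρ hρ2; nlinarith only [hρ, hρ2])
          (clear * - h2 h3; linarith only [h2, h3])
        have h2 := mul_le_mul_of_nonneg_left h1 (mul_nonneg hfa.le hgb.le)
        calc f a0 * g b0 * (-Real.log (1 - ρ)) ≤ f a0 * g b0 * (2 * ρ) := h2
          _ = g b0 * (f a0 * (2 * ρ)) := by ring
      · rw [if_neg ha, hκ]
        simp only
        rw [if_neg (by simpa using ha)]
        have h1 : Real.log (1 - 1 / 2 : ℝ) = -Real.log 2 := by
          rw [show (1 - 1 / 2 : ℝ) = 2⁻¹ by norm_num, Real.log_inv]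
        rw [h1]
        exact le_of_eq (by ring)
    · rw [if_neg hb, hWd]
      simp only
      rw [if_neg hb]
      rcases eq_or_lt_of_le (hf a) with ha | ha
      · rw [← ha]
        simp only [zero_mul, Real.negMulLog_zero, zero_add]
        refine mul_nonneg (hg b) ?_
        split_ifs
        · refine mul_nonneg (by linarith only [hfa1]) ?_
          have := Real.log_nonpos hρ.le (by (clear * - hρ hρ2; linarith))
          linarith only [this]
        · exact le_rfl
      · rw [Real.log_mul (hκ0 _).ne' ha.ne', Real.negMulLog]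
        have hlogρ : 0 ≤ -Real.log ρ := by
          have := Real.log_nonpos hρ.le (by (clear * - hρ hρ2; linarith))
          (clear * - this; linarith)
        by_cases hab : a = a0 + b0 - b
        · rw [if_pos hab]
          have h1 : a + b = a0 + b0 := by rw [hab, sub_add_cancel]
          have h2 : κ (a + b) = ρ := by
            rw [hκ]
            simp only
            rw [if_pos h1]
          have h3 : a ≠ a0 := by
            intro h4
            rw [h4] at h1
            exact hb (add_left_cancel h1)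
          have h4 := hfo a h3
          rw [h2]
          have h5 : f a * (-Real.log ρ) ≤ (1 - f a0) * (-Real.log ρ) :=
            mul_le_mul_of_nonneg_right h4 hlogρ
          have h6 : 0 ≤ f a * Real.log 2 := by (clear * - ha; positivity)
          have h7 : f a * g b * (-(Real.log ρ + Real.log (f a))) =
              g b * (f a * (-Real.log ρ) + -f a * Real.log (f a)) := by ring
          rw [h7]
          refine mul_le_mul_of_nonneg_left ?_ (hg b)
          linarith only [h5, h6]
        · rw [if_neg hab]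
          have h1 : a + b ≠ a0 + b0 := by
            intro h2
            exact hab (by rw [← h2, add_sub_cancel_right])
          have h2 : κ (a + b) = 1 / 2 := by
            rw [hκ]
            simp only
            rw [if_neg h1]
          rw [h2, one_div, Real.log_inv]
          exact le_of_eq (by ring)
  refine (Finset.sum_le_sum fun a _ => Finset.sum_le_sum fun b _ => hterm a b).trans ?_
  rw [Finset.sum_comm]
  have hsplit : ∀ b : G, ∑ a, (if b = b0 then g b0 * ((if a = a0 then f a0 * (2 * ρ) else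
      f a * Real.log 2)) else g b * (Real.negMulLog (f a) + f a * Real.log 2 +
          (if a = a0 + b0 - b then (1 - f a0) * (-Real.log ρ) else 0))) =
      (if b = b0 then g b0 * (f a0 * (2 * ρ) + (1 - f a0) * Real.log 2) else
        g b * (ent f + Real.log 2 + (1 - f a0) * (-Real.log ρ))) := by
    intro b
    by_cases hb : b = b0
    · simp only [if_pos hb]
      rw [← Finset.mul_sum]
      congr 1
      rw [← Finset.add_sum_erase univ _ (Finset.mem_univ a0)]
      rw [if_pos rfl]
      congr 1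
      have h1 : ∑ a ∈ univ.erase a0, (if a = a0 then f a0 * (2 * ρ) else f a * Real.log 2) =
          ∑ a ∈ univ.erase a0, f a * Real.log 2 := by
        refine Finset.sum_congr rfl fun a ha => ?_
        rw [if_neg (Finset.ne_of_mem_erase ha)]
      rw [h1, ← Finset.sum_mul]
      congr 1
      have := Finset.add_sum_erase univ f (Finset.mem_univ a0)
      linarith only [hf1, this]
    · simp only [if_neg hb]
      rw [← Finset.mul_sum]
      congr 1
      rw [Finset.sum_add_distrib, Finset.sum_add_distrib, ← Finset.sum_mul, hf1, one_mul,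
        Finset.sum_ite_eq' univ (a0 + b0 - b)]
      simp only [Finset.mem_univ, if_true]
      rfl
  rw [Finset.sum_congr rfl fun b _ => hsplit b]
  rw [← Finset.add_sum_erase univ _ (Finset.mem_univ b0), if_pos rfl]
  have h1 : ∑ b ∈ univ.erase b0, (if b = b0 then g b0 * (f a0 * (2 * ρ) + (1 - f a0) * Real.log 2)
      else g b * (ent f + Real.log 2 + (1 - f a0) * (-Real.log ρ))) =
      (1 - g b0) * (ent f + Real.log 2 + (1 - f a0) * (-Real.log ρ)) := by
    have h2 : ∑ b ∈ univ.erase b0, (if b = b0 then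
        g b0 * (f a0 * (2 * ρ) + (1 - f a0) * Real.log 2)
        else g b * (ent f + Real.log 2 + (1 - f a0) * (-Real.log ρ))) =
        ∑ b ∈ univ.erase b0, g b * (ent f + Real.log 2 + (1 - f a0) * (-Real.log ρ)) := by
      refine Finset.sum_congr rfl fun b hb => ?_
      rw [if_neg (Finset.ne_of_mem_erase hb)]
    rw [h2, ← Finset.sum_mul]
    congr 1
    have := Finset.add_sum_erase univ g (Finset.mem_univ b0)
    (clear * - hg1 this; linarith only [hg1, this])
  rw [h1]
  have h2 : g b0 * (f a0 * (2 * ρ) + (1 - f a0) * Real.log 2) ≤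
      2 * ρ + (1 - f a0) * Real.log 2 := by
    have h3 : 0 ≤ f a0 * (2 * ρ) + (1 - f a0) * Real.log 2 :=
      add_nonneg (by (clear * - hfa hρ; positivity)) (mul_nonneg (by linarith only [hfa1]) hl2.le)
    have h4 : g b0 * (f a0 * (2 * ρ) + (1 - f a0) * Real.log 2) ≤
        f a0 * (2 * ρ) + (1 - f a0) * Real.log 2 := mul_le_of_le_one_left h3 hgb1
    have h5 : f a0 * (2 * ρ) ≤ 2 * ρ := mul_le_of_le_one_left (by positivity) hfa1
    linarith only [h4, h5]
  calc g b0 * (f a0 * (2 * ρ) + (1 - f a0) * Real.log 2) +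
        (1 - g b0) * (ent f + Real.log 2 + (1 - f a0) * (-Real.log ρ))
      ≤ (2 * ρ + (1 - f a0) * Real.log 2) +
        (1 - g b0) * (ent f + Real.log 2 + (1 - f a0) * (-Real.log ρ)) := by linarith only [h2]
    _ = _ := by ring

end Pool.Agent.Helper15.GL
end

/- Helper24.DI.H15.GL.Node2 -/
section
set_option autoImplicit false

/-!
# Project GL (MP_120218), Node2: the node inequality
-/

namespace Pool.Agent.Helper15.GL

open Finset

private theorem exists_mode {α : Type} [Fintype α] (f : α → ℝ) (hf1 : ∑ a, f a = 1) :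
    ∃ a0, ∀ a, f a ≤ f a0 := by
  classical
  have hne : (univ : Finset α).Nonempty := by
    rw [Finset.nonempty_iff_ne_empty]
    intro h
    rw [h, Finset.sum_empty] at hf1
    exact zero_ne_one hf1
  obtain ⟨a0, -, h⟩ := Finset.exists_max_image univ f hne
  exact ⟨a0, fun a => h a (Finset.mem_univ a)⟩

/-- one of the laws has small entropy -/
private theorem node_aux (η t0 : ℝ) (hη : 0 < η) (hη1 : η ≤ 1) (ht0 : 0 < t0) (ht1 : t0 < 1)
    (h1 : Real.log 2 ≤ η / 4 * (-Real.log t0)) (h2 : t0 * (1 + Real.log (8 / η)) ≤ η / 4)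
    {G : Type} [Fintype G] [AddCommGroup G] (f g : G → ℝ) (hf : ∀ a, 0 ≤ f a)
    (hg : ∀ a, 0 ≤ g a) (hf1 : ∑ a, f a = 1) (hg1 : ∑ a, g a = 1) (hs : ent g ≤ η * t0) :
    ent f + ent g - ent (conv f g) ≤ η * (ent f + ent g) := by
  classical
  have hhf := ent_nonneg f hf hf1
  have hhg := ent_nonneg g hg hg1
  have hloss := loss_le f g hf hg hf1 hg1
  obtain ⟨a0, ha0⟩ := exists_mode f hf1
  obtain ⟨b0, hb0⟩ := exists_mode g hg1
  obtain ⟨hfa, hfa1, -, hf3, hf4⟩ := mode_facts f hf hf1 a0 ha0
  obtain ⟨hgb, hgb1, -, hg3, hg4⟩ := mode_facts g hg hg1 b0 hb0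
  obtain ⟨τ, hτ⟩ : ∃ τ : ℝ, τ = 1 - f a0 := ⟨_, rfl⟩
  obtain ⟨σ, hσ⟩ : ∃ σ : ℝ, σ = 1 - g b0 := ⟨_, rfl⟩
  rw [← hτ] at hf3 hf4
  rw [← hσ] at hg3 hg4
  have hτ0 : 0 ≤ τ := by rw [hτ]; (clear * - hfa1; linarith only [hfa1])
  have hσ0 : 0 ≤ σ := by rw [hσ]; (clear * - hgb1; linarith only [hgb1])
  rcases le_or_gt t0 τ with hcase | hcase
  · calc ent f + ent g - ent (conv f g) ≤ ent g := hloss
      _ ≤ η * t0 := hs
      _ ≤ η * (ent f + ent g) := mul_le_mul_of_nonneg_left (by linarith only [hf3, hg3, hσ0, hcase]) hη.le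
  · rcases eq_or_lt_of_le hhg with hg0 | hg0
    · rw [← hg0] at hloss
      have := mul_nonneg hη.le (add_nonneg hhf hhg)
      (clear * - hloss hg0 this; linarith only [hloss, hg0, this])
    · obtain ⟨ρ, hρ⟩ : ∃ ρ : ℝ, ρ = η * ent g / 8 := ⟨_, rfl⟩
      have hρ0 : 0 < ρ := by rw [hρ]; (clear * - hη hg0; positivity)
      have hgt : ent g ≤ t0 := hs.trans (mul_le_of_le_one_left ht0.le hη1)
      have hρ2 : ρ ≤ 1 / 2 := by
        rw [hρ]
        have : η * ent g ≤ 1 * 1 := mul_le_mul hη1 (by linarith only [ht1, hgt]) hhg (by norm_num)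
        (clear * - this; linarith only [this])
      have hmain := loss_code f g hf hg hf1 hg1 a0 b0 ha0 hb0 ρ hρ0 hρ2
      rw [← hτ, ← hσ] at hmain
      have hl8 : 0 ≤ Real.log (8 / η) := Real.log_nonneg (by
        rw [le_div_iff₀ hη]
        (clear * - hη1; linarith only [hη1]))
      have hsm : ∀ t h : ℝ, 0 ≤ t → t < t0 → t * (-Real.log t) ≤ h →
          t * Real.log 2 ≤ η / 4 * h := by
        intro t h ht ht' hh
        rcases eq_or_lt_of_le ht with he | hlt
        · rw [← he] at hh ⊢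
          simp only [zero_mul] at hh ⊢
          exact mul_nonneg (by positivity) hh
        · have h3 : -Real.log t0 ≤ -Real.log t := neg_le_neg (Real.log_le_log hlt ht'.le)
          calc t * Real.log 2 ≤ t * (η / 4 * (-Real.log t0)) := mul_le_mul_of_nonneg_left h1 ht
            _ ≤ t * (η / 4 * (-Real.log t)) :=
              mul_le_mul_of_nonneg_left (mul_le_mul_of_nonneg_left h3 (by positivity)) ht
            _ = η / 4 * (t * (-Real.log t)) := by ring
            _ ≤ η / 4 * h := mul_le_mul_of_nonneg_left hh (by positivity)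
      have hσt : σ ≤ t0 := hg3.trans hgt
      have e1 := hsm τ (ent f) hτ0 hcase hf4
      have e2 : σ * Real.log 2 ≤ η / 4 * ent g := by
        rcases lt_or_eq_of_le hσt with h | h
        · exact hsm σ (ent g) hσ0 h hg4
        · calc σ * Real.log 2 ≤ σ * (η / 4 * (-Real.log t0)) := mul_le_mul_of_nonneg_left h1 hσ0
            _ = η / 4 * (σ * (-Real.log σ)) := by rw [h]; ring
            _ ≤ η / 4 * ent g := mul_le_mul_of_nonneg_left hg4 (by positivity)
      have ht04 : t0 ≤ η / 4 := by
        have : t0 * 1 ≤ t0 * (1 + Real.log (8 / η)) :=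
          mul_le_mul_of_nonneg_left (by linarith only [hl8]) ht0.le
        linarith only [h2, this]
      have e3 : σ * ent f ≤ η / 4 * ent f := mul_le_mul_of_nonneg_right (hσt.trans ht04) hhf
      have e4 : τ * σ * (-Real.log ρ) ≤ η / 4 * ent g := by
        have h3 : -Real.log ρ = Real.log (8 / η) + (-Real.log (ent g)) := by
          rw [hρ, show η * ent g / 8 = (8 / η)⁻¹ * ent g by (clear * - hg0 hη; field_simp),
            Real.log_mul (by positivity) hg0.ne', Real.log_inv]
          ring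
        have h4 : σ * (-Real.log (ent g)) ≤ ent g := by
          rcases eq_or_lt_of_le hσ0 with he | hlt
          · rw [← he, zero_mul]
            exact hhg
          · have h5 : -Real.log (ent g) ≤ -Real.log σ := neg_le_neg (Real.log_le_log hlt hg3)
            exact (mul_le_mul_of_nonneg_left h5 hσ0).trans hg4
        have h5 : σ * (-Real.log ρ) ≤ (1 + Real.log (8 / η)) * ent g := by
          rw [h3, mul_add]
          have := mul_le_mul_of_nonneg_right hg3 hl8
          (clear * - h4 this; linarith only [h4, this])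
        calc τ * σ * (-Real.log ρ) = τ * (σ * (-Real.log ρ)) := by ring
          _ ≤ τ * ((1 + Real.log (8 / η)) * ent g) := mul_le_mul_of_nonneg_left h5 hτ0
          _ ≤ t0 * ((1 + Real.log (8 / η)) * ent g) :=
            mul_le_mul_of_nonneg_right hcase.le (mul_nonneg (by linarith only [hl8]) hhg)
          _ = (t0 * (1 + Real.log (8 / η))) * ent g := by ring
          _ ≤ η / 4 * ent g := mul_le_mul_of_nonneg_right h2 hhg
      have e5 : 2 * ρ = η / 4 * ent g := by rw [hρ]; ring
      have e6 : (τ + σ) * Real.log 2 = τ * Real.log 2 + σ * Real.log 2 := by ring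
      rw [e5, e6] at hmain
      have e7 := mul_nonneg hη.le hhf
      have e8 := mul_nonneg hη.le hhg
      linarith only [hmain, e1, e2, e3, e4, e7, e8]

/-- the node inequality with constants `η`, `K` -/
def NodeE (η K : ℝ) : Prop :=
  ∀ (G : Type) [Fintype G] [AddCommGroup G] (f g : G → ℝ),
    (∀ a, 0 ≤ f a) → (∀ a, 0 ≤ g a) → ∑ a, f a = 1 → ∑ a, g a = 1 →
    ent f + ent g - ent (conv f g) ≤ η * (ent f + ent g) + K * (ent f * ent g)

/-- **The node inequality.** -/
theorem node_exists (η : ℝ) (hη : 0 < η) : ∃ K : ℝ, 0 < K ∧ NodeE η K := by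
  obtain ⟨η', hη'⟩ : ∃ η' : ℝ, η' = min η 1 := ⟨_, rfl⟩
  have hη0 : 0 < η' := by rw [hη']; exact lt_min hη one_pos
  have hη1 : η' ≤ 1 := by rw [hη']; exact min_le_right _ _
  have hηη : η' ≤ η := by rw [hη']; exact min_le_left _ _
  have hl2 : 0 < Real.log 2 := Real.log_pos (by norm_num)
  have hl8 : 0 ≤ Real.log (8 / η') := Real.log_nonneg (by
    rw [le_div_iff₀ hη0]
    linarith only [hη1])
  obtain ⟨t0, ht0⟩ : ∃ t0 : ℝ, t0 = min (Real.exp (-(4 * Real.log 2 / η')))
    (η' / (4 * (1 + Real.log (8 / η')))) := ⟨_, rfl⟩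
  have ht0pos : 0 < t0 := by
    rw [ht0]
    exact lt_min (Real.exp_pos _) (by (clear * - hη0 hl8; positivity))
  have ht1 : t0 < 1 := by
    rw [ht0]
    refine lt_of_le_of_lt (min_le_left _ _) ?_
    rw [Real.exp_lt_one_iff]
    have : 0 < 4 * Real.log 2 / η' := by positivity
    linarith only [this]
  have h1 : Real.log 2 ≤ η' / 4 * (-Real.log t0) := by
    have h3 : Real.log t0 ≤ -(4 * Real.log 2 / η') := by
      rw [Real.log_le_iff_le_exp ht0pos, ht0]
      exact min_le_left _ _
    have h4 : η' / 4 * (4 * Real.log 2 / η') = Real.log 2 := by (clear * - hη0; field_simp)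
    calc Real.log 2 = η' / 4 * (4 * Real.log 2 / η') := h4.symm
      _ ≤ η' / 4 * (-Real.log t0) := mul_le_mul_of_nonneg_left (by (clear * - h3; linarith only [h3])) (by positivity)
  have h2 : t0 * (1 + Real.log (8 / η')) ≤ η' / 4 := by
    have h3 : t0 ≤ η' / (4 * (1 + Real.log (8 / η'))) := by rw [ht0]; exact min_le_right _ _
    have h4 : η' / (4 * (1 + Real.log (8 / η'))) * (1 + Real.log (8 / η')) = η' / 4 := by
      have : (1 + Real.log (8 / η')) ≠ 0 := by (clear * - hl8; positivity)
      (clear * - this hη0; field_simp)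
    rw [← h4]
    exact mul_le_mul_of_nonneg_right h3 (by linarith only [hl8])
  have hc : 0 < η' * t0 := mul_pos hη0 ht0pos
  refine ⟨1 / (η' * t0), by positivity, ?_⟩
  intro G _ _ f g hf hg hf1 hg1
  have hhf := ent_nonneg f hf hf1
  have hhg := ent_nonneg g hg hg1
  have hfg : 0 ≤ 1 / (η' * t0) * (ent f * ent g) := by (clear * - hη0 ht0pos hhf hhg; positivity)
  have hsum : 0 ≤ ent f + ent g := add_nonneg hhf hhg
  have hmono : η' * (ent f + ent g) ≤ η * (ent f + ent g) := mul_le_mul_of_nonneg_right hηη hsum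
  have hpos : 0 ≤ η * (ent f + ent g) := mul_nonneg hη.le hsum
  rcases le_or_gt (ent g) (η' * t0) with h | h
  · have := node_aux η' t0 hη0 hη1 ht0pos ht1 h1 h2 f g hf hg hf1 hg1 h
    linarith only [hfg, hmono, this]
  rcases le_or_gt (ent f) (η' * t0) with h' | h'
  · have := node_aux η' t0 hη0 hη1 ht0pos ht1 h1 h2 g f hg hf hg1 hf1 h'
    rw [conv_comm g f] at this
    (clear * - hfg hmono this; linarith)
  · have h3 := loss_le f g hf hg hf1 hg1
    have h4 : ent g ≤ 1 / (η' * t0) * (ent f * ent g) := by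
      rw [div_mul_eq_mul_div, one_mul, le_div_iff₀ hc, mul_comm]
      exact mul_le_mul_of_nonneg_right h'.le hhg
    (clear * - hpos h3 h4; linarith only [hpos, h3, h4])

end Pool.Agent.Helper15.GL
end

/- Helper24.DI.H15.GL.Split -/
section
set_option autoImplicit false

/-!
# Project GL (MP_120218), Split: one digit of a sumset
-/

namespace Pool.Agent.Helper15.GL

open Finset

/-- the law of `δ` on `C` -/
noncomputable def law {G : Type} [DecidableEq G] (C : Finset ℤ) (δ : ℤ → G) (u : G) : ℝ :=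
  ((C.filter (fun x => δ x = u)).card : ℝ) / C.card

theorem law_nonneg {G : Type} [DecidableEq G] (C : Finset ℤ) (δ : ℤ → G) (u : G) :
    0 ≤ law C δ u := by
  unfold law
  positivity

theorem sum_law_mul {G : Type} [Fintype G] [DecidableEq G] (C : Finset ℤ) (hC : C.Nonempty)
    (δ : ℤ → G) (F : G → ℝ) : (C.card : ℝ) * ∑ u, law C δ u * F u = ∑ x ∈ C, F (δ x) := by
  have hc : (C.card : ℝ) ≠ 0 := by
    have := Finset.card_pos.2 hC
    (clear * - hC; positivity)
  rw [← Finset.sum_fiberwise C δ, Finset.mul_sum]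
  refine Finset.sum_congr rfl fun u _ => ?_
  have h1 : ∑ x ∈ C.filter (fun x => δ x = u), F (δ x) =
      ∑ x ∈ C.filter (fun x => δ x = u), F u := by
    refine Finset.sum_congr rfl fun x hx => ?_
    rw [(Finset.mem_filter.1 hx).2]
  rw [h1, Finset.sum_const, nsmul_eq_mul]
  unfold law
  field_simp

theorem sum_law {G : Type} [Fintype G] [DecidableEq G] (C : Finset ℤ) (hC : C.Nonempty)
    (δ : ℤ → G) : ∑ u, law C δ u = 1 := by
  have hc : (C.card : ℝ) ≠ 0 := by
    have := Finset.card_pos.2 hC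
    (clear * - hC; positivity)
  have h := sum_law_mul C hC δ (fun _ => 1)
  simp only [mul_one, Finset.sum_const, nsmul_eq_mul] at h
  exact mul_left_cancel₀ hc (by rw [h, mul_one])

theorem ent_law {G : Type} [Fintype G] [DecidableEq G] (C : Finset ℤ) (hC : C.Nonempty)
    (δ : ℤ → G) : (C.card : ℝ) * ent (law C δ) =
      ∑ x ∈ C, (Real.log C.card - Real.log ((C.filter (fun y => δ y = δ x)).card)) := by
  have hc : (C.card : ℝ) ≠ 0 := by
    have := Finset.card_pos.2 hC
    positivity
  have h := sum_law_mul C hC δ (fun u => Real.log C.card -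
    Real.log ((C.filter (fun y => δ y = u)).card))
  rw [← h]
  congr 1
  unfold ent
  refine Finset.sum_congr rfl fun u _ => ?_
  rcases eq_or_ne ((C.filter (fun y => δ y = u)).card) 0 with h0 | h0
  · have h1 : law C δ u = 0 := by
      unfold law
      rw [h0]
      simp
    rw [h1]
    simp
  · have h1 : (((C.filter (fun y => δ y = u)).card : ℕ) : ℝ) ≠ 0 := by exact_mod_cast h0
    unfold Real.negMulLog
    have h2 : Real.log (law C δ u) = Real.log ((C.filter (fun y => δ y = u)).card) -
        Real.log C.card := by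
      unfold law
      rw [Real.log_div h1 hc]
    rw [h2]
    ring

/-- Splitting a sumset along `δ3 (x + y) = δ1 x + δ2 y`. -/
theorem split_step {G : Type} [Fintype G] [DecidableEq G] [AddCommGroup G] (C D : Finset ℤ)
    (hC : C.Nonempty) (hD : D.Nonempty) (δ1 δ2 δ3 : ℤ → G)
    (hδ : ∀ x ∈ C, ∀ y ∈ D, δ3 (x + y) = δ1 x + δ2 y) :
    (C.card : ℝ) * D.card * ent (conv (law C δ1) (law D δ2)) +
      ∑ x ∈ C, ∑ y ∈ D, Real.log ((Finset.image₂ (fun a b => a + b)
        (C.filter (fun z => δ1 z = δ1 x)) (D.filter (fun z => δ2 z = δ2 y))).card) ≤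
      (C.card : ℝ) * D.card * Real.log ((Finset.image₂ (fun a b => a + b) C D).card) := by
  classical
  obtain ⟨S, hS⟩ : ∃ S : Finset ℤ, S = Finset.image₂ (fun a b => a + b) C D := ⟨_, rfl⟩
  have hSne : S.Nonempty := by
    rw [hS]
    exact hC.image₂ hD
  have hSc : (0 : ℝ) < S.card := by exact_mod_cast Finset.card_pos.2 hSne
  have hCc : (0 : ℝ) < C.card := by exact_mod_cast Finset.card_pos.2 hC
  have hDc : (0 : ℝ) < D.card := by exact_mod_cast Finset.card_pos.2 hD
  obtain ⟨q, hq⟩ : ∃ q : G → ℝ, q = conv (law C δ1) (law D δ2) := ⟨_, rfl⟩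
  have hq0 : ∀ z, 0 ≤ q z := by
    rw [hq]
    exact conv_nonneg _ _ (law_nonneg C δ1) (law_nonneg D δ2)
  have hq1 : ∑ z, q z = 1 := by
    rw [hq, sum_conv, sum_law C hC, sum_law D hD, one_mul]
  rw [← hS, ← hq]
  obtain ⟨sw, hsw⟩ : ∃ sw : G → ℝ, sw = fun w => ((S.filter (fun z => δ3 z = w)).card : ℝ) :=
    ⟨_, rfl⟩
  have hsw0 : ∀ w, 0 ≤ sw w := by
    intro w
    rw [hsw]
    exact Nat.cast_nonneg _
  have hswsum : ∑ w, sw w = S.card := by
    rw [hsw]
    have h := Finset.card_eq_sum_card_fiberwise (f := δ3) (s := S) (t := Finset.univ)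
      (fun x _ => Finset.mem_coe.mpr (Finset.mem_univ _))
    rw [h]
    push_cast
    rfl
  -- the parts of the sumset
  have hsub : ∀ x ∈ C, ∀ y ∈ D, Finset.image₂ (fun a b => a + b)
      (C.filter (fun z => δ1 z = δ1 x)) (D.filter (fun z => δ2 z = δ2 y)) ⊆
      S.filter (fun z => δ3 z = δ1 x + δ2 y) := by
    intro x hx y hy z hz
    rw [Finset.mem_image₂] at hz
    obtain ⟨a, ha, b, hb, rfl⟩ := hz
    rw [Finset.mem_filter] at ha hb
    rw [Finset.mem_filter, hS]
    refine ⟨Finset.mem_image₂_of_mem ha.1 hb.1, ?_⟩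
    rw [hδ a ha.1 b hb.1, ha.2, hb.2]
  have hne : ∀ x ∈ C, ∀ y ∈ D, (Finset.image₂ (fun a b => a + b)
      (C.filter (fun z => δ1 z = δ1 x)) (D.filter (fun z => δ2 z = δ2 y))).Nonempty := by
    intro x hx y hy
    exact Finset.Nonempty.image₂ ⟨x, Finset.mem_filter.2 ⟨hx, rfl⟩⟩
      ⟨y, Finset.mem_filter.2 ⟨hy, rfl⟩⟩
  -- Gibbs
  have hqs : ∀ w, 0 < q w → 0 < sw w := by
    intro w hw
    rw [hq] at hw
    unfold conv at hw
    obtain ⟨a, -, ha⟩ := Finset.exists_ne_zero_of_sum_ne_zero hw.ne'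
    have h1 : law C δ1 a ≠ 0 := left_ne_zero_of_mul ha
    have h2 : law D δ2 (w - a) ≠ 0 := right_ne_zero_of_mul ha
    unfold law at h1 h2
    have h3 : (C.filter (fun x => δ1 x = a)).Nonempty := by
      rw [← Finset.card_pos]
      by_contra h
      have : (C.filter (fun x => δ1 x = a)).card = 0 := by omega
      rw [this] at h1
      simp at h1
    have h4 : (D.filter (fun x => δ2 x = w - a)).Nonempty := by
      rw [← Finset.card_pos]
      by_contra h
      have : (D.filter (fun x => δ2 x = w - a)).card = 0 := by omega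
      rw [this] at h2
      simp at h2
    obtain ⟨x, hx⟩ := h3
    obtain ⟨y, hy⟩ := h4
    rw [Finset.mem_filter] at hx hy
    rw [hsw]
    simp only
    have h5 : (S.filter (fun z => δ3 z = w)).Nonempty := by
      refine ⟨x + y, ?_⟩
      rw [Finset.mem_filter, hS]
      refine ⟨Finset.mem_image₂_of_mem hx.1 hy.1, ?_⟩
      rw [hδ x hx.1 y hy.1, hx.2, hy.2, add_sub_cancel]
    exact_mod_cast Finset.card_pos.2 h5
  have hG : ent q + ∑ w, q w * Real.log (sw w) ≤ Real.log S.card := by
    have h1 : ∀ w, q w * (Real.log (sw w) - Real.log (q w) - Real.log S.card) ≤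
        sw w / S.card - q w := by
      intro w
      rcases eq_or_lt_of_le (hq0 w) with h | h
      · rw [← h, zero_mul, sub_zero]
        exact div_nonneg (hsw0 w) hSc.le
      · have h2 := hqs w h
        have h3 : Real.log (sw w) - Real.log (q w) - Real.log S.card =
            Real.log (sw w / (q w * S.card)) := by
          rw [Real.log_div h2.ne' (by (clear * - h hsw0 h2 hq hq0 hq1 hqs hS hSne hSc hsw hswsum hsub; positivity)), Real.log_mul h.ne' hSc.ne']
          ring
        rw [h3]
        have h4 := Real.log_le_sub_one_of_pos (show 0 < sw w / (q w * S.card) by positivity)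
        calc q w * Real.log (sw w / (q w * S.card)) ≤ q w * (sw w / (q w * S.card) - 1) :=
              mul_le_mul_of_nonneg_left h4 h.le
          _ = sw w / S.card - q w := by (clear * - hsw0 h2 hq hq0 hq1 hqs h hS hSne hSc hsw hswsum hsub h3 h4; field_simp)
    have h2 := Finset.sum_le_sum (s := univ) fun w _ => h1 w
    rw [Finset.sum_sub_distrib, ← Finset.sum_div, hswsum, hq1, div_self hSc.ne', sub_self] at h2
    have h3 : ∑ w, q w * (Real.log (sw w) - Real.log (q w) - Real.log S.card) =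
        ∑ w, q w * Real.log (sw w) + ent q - Real.log S.card := by
      have e : Real.log S.card = ∑ w, q w * Real.log S.card := by
        rw [← Finset.sum_mul, hq1, one_mul]
      conv_rhs => rw [e]
      unfold ent Real.negMulLog
      rw [← Finset.sum_add_distrib, ← Finset.sum_sub_distrib]
      refine Finset.sum_congr rfl fun w _ => ?_
      ring
    linarith only [h2, h3]
  -- the average of the logarithms of the parts
  have hA : (C.card : ℝ) * D.card * ∑ w, q w * Real.log (sw w) =
      ∑ x ∈ C, ∑ y ∈ D, Real.log (sw (δ1 x + δ2 y)) := by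
    rw [hq, sum_conv_mul (law C δ1) (law D δ2) (fun z => Real.log (sw z))]
    have h1 : ∀ x ∈ C, ∑ y ∈ D, Real.log (sw (δ1 x + δ2 y)) =
        D.card * ∑ v, law D δ2 v * Real.log (sw (δ1 x + v)) := fun x _ =>
      (sum_law_mul D hD δ2 (fun v => Real.log (sw (δ1 x + v)))).symm
    rw [Finset.sum_congr rfl h1, ← Finset.mul_sum]
    have h2 := sum_law_mul C hC δ1 (fun u => ∑ v, law D δ2 v * Real.log (sw (u + v)))
    rw [← h2]
    have h3 : ∑ a, ∑ b, law C δ1 a * law D δ2 b * Real.log (sw (a + b)) =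
        ∑ u, law C δ1 u * ∑ v, law D δ2 v * Real.log (sw (u + v)) := by
      refine Finset.sum_congr rfl fun u _ => ?_
      rw [Finset.mul_sum]
      refine Finset.sum_congr rfl fun v _ => ?_
      ring
    rw [h3]
    ring
  have hB : ∑ x ∈ C, ∑ y ∈ D, Real.log ((Finset.image₂ (fun a b => a + b)
        (C.filter (fun z => δ1 z = δ1 x)) (D.filter (fun z => δ2 z = δ2 y))).card) ≤
      ∑ x ∈ C, ∑ y ∈ D, Real.log (sw (δ1 x + δ2 y)) := by
    refine Finset.sum_le_sum fun x hx => Finset.sum_le_sum fun y hy => ?_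
    apply Real.log_le_log
    · exact_mod_cast Finset.card_pos.2 (hne x hx y hy)
    · rw [hsw]
      simp only
      exact_mod_cast Finset.card_le_card (hsub x hx y hy)
  have hfin := mul_le_mul_of_nonneg_left hG (mul_nonneg hCc.le hDc.le)
  rw [mul_add, hA] at hfin
  linarith only [hB, hfin]

end Pool.Agent.Helper15.GL
end

/- Helper24.DI.H15.GL.Level -/
section
set_option autoImplicit false

/-!
# Project GL (MP_120218), Level: residue classes modulo powers of `p` and one level of digits
-/

namespace Pool.Agent.Helper15.GL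

open Finset

/-- the elements of `X` which are congruent to `x` modulo `p ^ j` -/
def cls (p j : ℕ) (X : Finset ℤ) (x : ℤ) : Finset ℤ := X.filter (fun y => (p : ℤ) ^ j ∣ y - x)

/-- `log` of the size of the class of `x` modulo `p ^ j` minus the same modulo `p ^ (j + 1)` -/
noncomputable def ell (p j : ℕ) (X : Finset ℤ) (x : ℤ) : ℝ :=
  Real.log (cls p j X x).card - Real.log (cls p (j + 1) X x).card

/-- `|X|` times the entropy of the `j`-th digit given the lower ones -/
noncomputable def Fj (p j : ℕ) (X : Finset ℤ) : ℝ := ∑ x ∈ X, ell p j X x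

theorem mem_cls {p j : ℕ} {X : Finset ℤ} {x y : ℤ} :
    y ∈ cls p j X x ↔ y ∈ X ∧ (p : ℤ) ^ j ∣ y - x := Finset.mem_filter

theorem self_mem_cls {p j : ℕ} {X : Finset ℤ} {x : ℤ} (hx : x ∈ X) : x ∈ cls p j X x :=
  mem_cls.2 ⟨hx, by simp⟩

theorem cls_nonempty {p j : ℕ} {X : Finset ℤ} {x : ℤ} (hx : x ∈ X) : (cls p j X x).Nonempty :=
  ⟨x, self_mem_cls hx⟩

theorem cls_zero (p : ℕ) (X : Finset ℤ) (x : ℤ) : cls p 0 X x = X := by
  unfold cls
  simp

theorem cls_succ_subset (p j : ℕ) (X : Finset ℤ) (x : ℤ) : cls p (j + 1) X x ⊆ cls p j X x := by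
  intro y hy
  rw [mem_cls] at hy ⊢
  exact ⟨hy.1, (pow_dvd_pow _ (Nat.le_succ j)).trans hy.2⟩

theorem cls_anti (p : ℕ) {i j : ℕ} (h : i ≤ j) (X : Finset ℤ) (x : ℤ) :
    cls p j X x ⊆ cls p i X x := by
  intro y hy
  rw [mem_cls] at hy ⊢
  exact ⟨hy.1, (pow_dvd_pow _ h).trans hy.2⟩

theorem cls_eq {p j : ℕ} {X : Finset ℤ} {x y : ℤ} (h : (p : ℤ) ^ j ∣ y - x) :
    cls p j X y = cls p j X x := by
  unfold cls
  refine Finset.filter_congr fun z _ => ?_
  constructor
  · intro hz
    have := dvd_add hz h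
    simpa using this
  · intro hz
    have := dvd_sub hz h
    simpa using this

theorem ell_nonneg (p j : ℕ) (X : Finset ℤ) (x : ℤ) (hx : x ∈ X) : 0 ≤ ell p j X x := by
  unfold ell
  have h1 : (0 : ℝ) < (cls p (j + 1) X x).card := by
    exact_mod_cast Finset.card_pos.2 (cls_nonempty hx)
  have h2 : ((cls p (j + 1) X x).card : ℝ) ≤ (cls p j X x).card := by
    exact_mod_cast Finset.card_le_card (cls_succ_subset p j X x)
  have := Real.log_le_log h1 h2
  linarith

theorem Fj_nonneg (p j : ℕ) (X : Finset ℤ) : 0 ≤ Fj p j X :=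
  Finset.sum_nonneg fun x hx => ell_nonneg p j X x hx

theorem sum_ell (p J : ℕ) (X : Finset ℤ) (x : ℤ) :
    ∑ j ∈ Finset.range J, ell p j X x = Real.log X.card - Real.log (cls p J X x).card := by
  induction J with
  | zero => rw [Finset.sum_range_zero, cls_zero, sub_self]
  | succ J ih =>
    rw [Finset.sum_range_succ, ih]
    unfold ell
    ring

theorem sum_Fj_le (p J : ℕ) (X : Finset ℤ) :
    ∑ j ∈ Finset.range J, Fj p j X ≤ X.card * Real.log X.card := by
  unfold Fj
  rw [Finset.sum_comm]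
  have h : ∀ x ∈ X, ∑ j ∈ Finset.range J, ell p j X x ≤ Real.log X.card := by
    intro x _
    rw [sum_ell]
    have := Real.log_natCast_nonneg (cls p J X x).card
    linarith only [this]
  refine (Finset.sum_le_sum h).trans (le_of_eq ?_)
  rw [Finset.sum_const, nsmul_eq_mul]

/-- any set of levels -/
theorem sum_ell_le (p : ℕ) (X : Finset ℤ) (x : ℤ) (hx : x ∈ X) (T : Finset ℕ) :
    ∑ j ∈ T, ell p j X x ≤ Real.log X.card := by
  have hsub : T ⊆ Finset.range (T.sup id + 1) := by
    intro t ht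
    rw [Finset.mem_range]
    exact Nat.lt_succ_of_le (Finset.le_sup (f := id) ht)
  refine (Finset.sum_le_sum_of_subset_of_nonneg hsub
    (fun j _ _ => ell_nonneg p j X x hx)).trans ?_
  rw [sum_ell]
  have := Real.log_natCast_nonneg (cls p (T.sup id + 1) X x).card
  linarith only [this]

/-- for large `j` the classes are singletons -/
theorem exists_singleton (p : ℕ) (hp : 2 ≤ p) (X : Finset ℤ) :
    ∃ J0 : ℕ, ∀ J, J0 ≤ J → ∀ x ∈ X, cls p J X x = {x} := by
  refine ⟨∑ x ∈ X, ∑ x' ∈ X, (x - x').natAbs, fun J hJ x hx => ?_⟩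
  ext y
  rw [mem_cls, Finset.mem_singleton]
  constructor
  · rintro ⟨hy, he⟩
    have h1 : (y - x).natAbs ≤ J := by
      refine le_trans ?_ hJ
      calc (y - x).natAbs ≤ ∑ x' ∈ X, (y - x').natAbs :=
            Finset.single_le_sum (f := fun x' => (y - x').natAbs)
              (fun _ _ => Nat.zero_le _) hx
        _ ≤ ∑ x ∈ X, ∑ x' ∈ X, (x - x').natAbs :=
            Finset.single_le_sum (f := fun x => ∑ x' ∈ X, (x - x').natAbs)
              (fun _ _ => Nat.zero_le _) hy
    have h2 : J < p ^ J := Nat.lt_pow_self (by omega)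
    have h4 : |y - x| < (p : ℤ) ^ J := by
      rw [Int.abs_eq_natAbs]
      exact_mod_cast lt_of_le_of_lt h1 h2
    have h5 := Int.eq_zero_of_abs_lt_dvd he h4
    omega
  · rintro rfl
    exact ⟨hx, by simp⟩

/-- averaging over classes -/
theorem avg_cls (p j : ℕ) (X : Finset ℤ) (ψ : ℤ → ℝ) :
    ∑ x ∈ X, (∑ y ∈ cls p j X x, ψ y) / (cls p j X x).card = ∑ x ∈ X, ψ x := by
  have h1 : ∀ x ∈ X, (∑ y ∈ cls p j X x, ψ y) / (cls p j X x).card =
      ∑ y ∈ X, if (p : ℤ) ^ j ∣ y - x then ψ y / (cls p j X y).card else 0 := by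
    intro x _
    rw [Finset.sum_div, ← Finset.sum_filter]
    refine Finset.sum_congr rfl fun y hy => ?_
    rw [Finset.mem_filter] at hy
    rw [cls_eq hy.2]
  rw [Finset.sum_congr rfl h1, Finset.sum_comm]
  refine Finset.sum_congr rfl fun y hy => ?_
  have h2 : ∑ x ∈ X, (if (p : ℤ) ^ j ∣ y - x then ψ y / (cls p j X y).card else 0) =
      ∑ x ∈ cls p j X y, ψ y / (cls p j X y).card := by
    rw [← Finset.sum_filter]
    unfold cls
    refine Finset.sum_congr (Finset.filter_congr fun x _ => ?_) fun _ _ => rfl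
    rw [dvd_sub_comm]
  rw [h2, Finset.sum_const, nsmul_eq_mul]
  have h3 : ((cls p j X y).card : ℝ) ≠ 0 := by
    have := Finset.card_pos.2 (cls_nonempty (p := p) (j := j) hy)
    (clear * - this; positivity)
  (clear * - h3; field_simp)

/-- `j`-th digit -/
def dig (p j : ℕ) (x : ℤ) : ZMod p := ((x / (p : ℤ) ^ j : ℤ) : ZMod p)

theorem ediv_sub {P x y : ℤ} (h : P ∣ x - y) : x - y = P * (x / P - y / P) := by
  have h1 := Int.mul_ediv_add_emod x P
  have h2 := Int.mul_ediv_add_emod y P
  have h3 : x % P = y % P := Int.emod_eq_emod_iff_emod_sub_eq_zero.2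
    (Int.emod_eq_zero_of_dvd h)
  rw [mul_sub]
  linarith only [h1, h2, h3]

theorem dig_eq_iff {p j : ℕ} (hp : 0 < p) {x y : ℤ} (h : (p : ℤ) ^ j ∣ y - x) :
    dig p j y = dig p j x ↔ (p : ℤ) ^ (j + 1) ∣ y - x := by
  have hP : (p : ℤ) ^ j ≠ 0 := by positivity
  unfold dig
  rw [ZMod.intCast_eq_intCast_iff_dvd_sub, dvd_sub_comm, ediv_sub h, pow_succ,
    mul_dvd_mul_iff_left hP]

theorem filter_dig (p j : ℕ) (hp : 0 < p) (X : Finset ℤ) (x x' : ℤ) (hx' : x' ∈ cls p j X x) :
    (cls p j X x).filter (fun z => dig p j z = dig p j x') = cls p (j + 1) X x' := by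
  rw [mem_cls] at hx'
  ext z
  rw [Finset.mem_filter, mem_cls, mem_cls]
  constructor
  · rintro ⟨⟨hz, h1⟩, h2⟩
    refine ⟨hz, ?_⟩
    have h3 : (p : ℤ) ^ j ∣ z - x' := by
      have := dvd_sub h1 hx'.2
      simpa using this
    exact (dig_eq_iff hp h3).1 h2
  · rintro ⟨hz, h1⟩
    have h3 : (p : ℤ) ^ j ∣ z - x' := (pow_dvd_pow _ (Nat.le_succ j)).trans h1
    refine ⟨⟨hz, ?_⟩, (dig_eq_iff hp h3).2 h1⟩
    have := dvd_add h3 hx'.2
    simpa using this

/-- the entropy of the `j`-th digit in the class of `x` -/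
noncomputable def hx (p j : ℕ) [NeZero p] (X : Finset ℤ) (x : ℤ) : ℝ :=
  ent (law (cls p j X x) (dig p j))

theorem hx_eq (p j : ℕ) [NeZero p] (X : Finset ℤ) (x : ℤ) (hx' : x ∈ X) :
    hx p j X x = (∑ y ∈ cls p j X x, ell p j X y) / (cls p j X x).card := by
  have hc : ((cls p j X x).card : ℝ) ≠ 0 := by
    have := Finset.card_pos.2 (cls_nonempty (p := p) (j := j) hx')
    (clear * - this; positivity)
  have h := ent_law (cls p j X x) (cls_nonempty hx') (dig p j)
  rw [eq_div_iff hc, mul_comm]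
  unfold hx
  rw [h]
  refine Finset.sum_congr rfl fun y hy => ?_
  rw [filter_dig p j (Nat.pos_of_ne_zero (NeZero.ne p)) X x y hy]
  unfold ell
  rw [cls_eq (mem_cls.1 hy).2]

theorem sum_hx (p j : ℕ) [NeZero p] (X : Finset ℤ) : ∑ x ∈ X, hx p j X x = Fj p j X := by
  rw [Finset.sum_congr rfl fun x hx' => hx_eq p j X x hx', avg_cls]
  rfl

theorem hx_nonneg (p j : ℕ) [NeZero p] (X : Finset ℤ) (x : ℤ) (hx' : x ∈ X) : 0 ≤ hx p j X x :=
  ent_nonneg _ (law_nonneg _ _) (sum_law _ (cls_nonempty hx') _)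

end Pool.Agent.Helper15.GL
end

/- Helper24.DI.H62.GLP.Node -/
section
set_option autoImplicit false

/-!
# Project GL+ (MP_120218, helper62): the code for one pair of digits

`a` has law `f` and is random, `b` is a fixed value of a variable of law `g`, and `a + b` is
known. The pair is described at an average cost of at most `η (H(f) + β)`, `β = -log g(b)`, unless
`H(f) ≥ t0` and `β ≥ η t0`.
-/

namespace Pool.Agent.Helper62.GLP

open Finset Pool.Agent.Helper15.GL

/-- `W` is a code for `(a, b)` given `a + b`, good for the laws `f` and `g` -/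
structure IsCode {G : Type} [Fintype G] [AddCommGroup G] (η t0 : ℝ) (f g : G → ℝ)
    (W : G → G → ℝ) : Prop where
  nonneg : ∀ a b, 0 ≤ W a b
  pos : ∀ a b, 0 < f a → 0 < g b → 0 < W a b
  kraft : ∀ s, ∑ a, W a (s - a) ≤ 1
  cost : ∀ b, 0 < g b → ∑ a, f a * (-Real.log (W a b)) ≤ η * (ent f + -Real.log (g b)) +
    if t0 ≤ ent f ∧ η * t0 ≤ -Real.log (g b) then -Real.log (g b) else 0

private theorem mode_ex {α : Type} [Fintype α] (f : α → ℝ) (hf1 : ∑ a, f a = 1) :
    ∃ a0, ∀ a, f a ≤ f a0 := by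
  classical
  have hne : (univ : Finset α).Nonempty := by
    rw [Finset.nonempty_iff_ne_empty]
    intro h
    rw [h, Finset.sum_empty] at hf1
    exact zero_ne_one hf1
  obtain ⟨a0, -, h⟩ := Finset.exists_max_image univ f hne
  exact ⟨a0, fun a => h a (Finset.mem_univ a)⟩

private theorem neglog_le {ρ : ℝ} (h0 : 0 ≤ ρ) (h1 : ρ ≤ 1 / 2) : -Real.log (1 - ρ) ≤ 2 * ρ := by
  have h2 := Real.one_sub_inv_le_log_of_pos (show (0 : ℝ) < 1 - ρ by (clear * - h1; linarith))
  have h3 : (1 - ρ)⁻¹ ≤ 1 + 2 * ρ := by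
    rw [inv_le_comm₀ (by (clear * - h1; linarith only [h1])) (by linarith only [h0]), inv_eq_one_div, div_le_iff₀ (by linarith only [h0])]
    (clear * - h0 h1; nlinarith only [h0, h1])
  (clear * - h2 h3; linarith only [h2, h3])

private theorem mul_neglog_le {τ t0 : ℝ} (h0 : 0 < τ) (h1 : τ ≤ t0) :
    τ * (-Real.log τ) ≤ 2 * Real.sqrt t0 := by
  have hs : 0 < Real.sqrt τ := Real.sqrt_pos.2 h0
  have h2 := Real.one_sub_inv_le_log_of_pos hs
  have h3 : Real.log τ = 2 * Real.log (Real.sqrt τ) := by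
    rw [Real.log_sqrt h0.le]
    ring
  have h4 : τ * (Real.sqrt τ)⁻¹ = Real.sqrt τ := by
    nth_rewrite 1 [← Real.mul_self_sqrt h0.le]
    (clear * - h0; field_simp)
  have h5 : Real.sqrt τ ≤ Real.sqrt t0 := Real.sqrt_le_sqrt h1
  rw [h3]
  nlinarith only [h0, h2, h4, h5]

/-- the constants -/
private theorem consts (η : ℝ) (hη : 0 < η) (hη1 : η ≤ 1) : ∃ t0 : ℝ, 0 < t0 ∧ t0 ≤ 1 / 2 ∧
    t0 ≤ η / 16 ∧ Real.log (16 / η) ≤ η / 4 * (-Real.log t0) ∧
    t0 * Real.log (16 / η) ≤ η / 16 ∧ 2 * Real.sqrt t0 ≤ η / 16 := by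
  have hl : 0 ≤ Real.log (16 / η) := Real.log_nonneg (by rw [le_div_iff₀ hη]; linarith only [hη1])
  refine ⟨min (min (Real.exp (-(4 / η * Real.log (16 / η)))) ((η / 32) ^ 2))
    (η / (16 * (1 + Real.log (16 / η)))), ?_, ?_, ?_, ?_, ?_, ?_⟩
  · exact lt_min (lt_min (Real.exp_pos _) (by (clear * - hη; positivity))) (by (clear * - hη hl; positivity))
  · refine (min_le_left _ _).trans ((min_le_right _ _).trans ?_)
    (clear * - hη1 hη; nlinarith only [hη, hη1])
  · refine (min_le_right _ _).trans ?_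
    exact div_le_div_of_nonneg_left hη.le (by norm_num) (by linarith)
  · obtain ⟨t0, ht⟩ : ∃ t0, t0 = min (min (Real.exp (-(4 / η * Real.log (16 / η)))) ((η / 32) ^ 2))
      (η / (16 * (1 + Real.log (16 / η)))) := ⟨_, rfl⟩
    have hpos : 0 < t0 := by
      rw [ht]
      exact lt_min (lt_min (Real.exp_pos _) (by positivity)) (by positivity)
    have h1 : Real.log t0 ≤ -(4 / η * Real.log (16 / η)) := by
      rw [Real.log_le_iff_le_exp hpos, ht]
      exact (min_le_left _ _).trans (min_le_left _ _)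
    rw [← ht]
    have h2 : η / 4 * (4 / η * Real.log (16 / η)) = Real.log (16 / η) := by field_simp
    have h3 := mul_le_mul_of_nonneg_left (show 4 / η * Real.log (16 / η) ≤ -Real.log t0 by (clear * - h1; linarith only [h1]))
      (show 0 ≤ η / 4 by positivity)
    linarith only [h2, h3]
  · have h1 := mul_le_mul_of_nonneg_right (min_le_right
      (min (Real.exp (-(4 / η * Real.log (16 / η)))) ((η / 32) ^ 2))
      (η / (16 * (1 + Real.log (16 / η))))) hl
    refine h1.trans ?_
    rw [div_mul_eq_mul_div, div_le_div_iff₀ (by positivity) (by norm_num)]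
    (clear * - hη; linarith only [hη])
  · have h1 : Real.sqrt (min (min (Real.exp (-(4 / η * Real.log (16 / η)))) ((η / 32) ^ 2))
      (η / (16 * (1 + Real.log (16 / η))))) ≤ Real.sqrt ((η / 32) ^ 2) :=
      Real.sqrt_le_sqrt ((min_le_left _ _).trans (min_le_right _ _))
    rw [Real.sqrt_sq (by positivity)] at h1
    linarith only [h1]

/-- **The code for one pair of digits.** -/
theorem node_code (η : ℝ) (hη : 0 < η) (hη1 : η ≤ 1) : ∃ t0 : ℝ, 0 < t0 ∧ t0 ≤ 1 / 2 ∧
    ∀ (G : Type) [Fintype G] [AddCommGroup G] (f g : G → ℝ),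
      (∀ a, 0 ≤ f a) → (∀ a, 0 ≤ g a) → ∑ a, f a = 1 → ∑ a, g a = 1 →
      ∃ W : G → G → ℝ, IsCode η t0 f g W := by
  classical
  obtain ⟨t0, ht0, hth, hc2, hc1, hc3, hc4⟩ := consts η hη hη1
  refine ⟨t0, ht0, hth, ?_⟩
  intro G _ _ f g hf hg hf1 hg1
  have hef := ent_nonneg f hf hf1
  have hle1 : ∀ b, g b ≤ 1 := fun b => by
    rw [← hg1]
    exact Finset.single_le_sum (f := g) (fun b _ => hg b) (Finset.mem_univ b)
  have hβ0 : ∀ b, 0 ≤ -Real.log (g b) := fun b => by
    have := Real.log_nonpos (hg b) (hle1 b)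
    linarith only [this]
  have hextra : ∀ b, 0 ≤ (if t0 ≤ ent f ∧ η * t0 ≤ -Real.log (g b) then -Real.log (g b) else 0) := by
    intro b
    split_ifs
    · exact hβ0 b
    · exact le_rfl
  rcases le_or_gt t0 (ent f) with hbig | hsmall
  · refine ⟨fun _ b => g b, fun _ b => hg b, fun _ b _ hb => hb, fun s => ?_, fun b hb => ?_⟩
    · rw [← hg1, ← Equiv.sum_comp (Equiv.subLeft s) g]
      exact le_of_eq rfl
    · rw [← Finset.sum_mul, hf1, one_mul]
      by_cases h : η * t0 ≤ -Real.log (g b)
      · rw [if_pos ⟨hbig, h⟩]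
        have := mul_nonneg hη.le (add_nonneg hef (hβ0 b))
        (clear * - this; linarith only [this])
      · rw [if_neg fun h' => h h'.2, add_zero, mul_add]
        have h1 := mul_le_mul_of_nonneg_left hbig hη.le
        have h2 := mul_nonneg hη.le (hβ0 b)
        linarith only [h, h1, h2]
  · obtain ⟨a0, ha0⟩ := mode_ex f hf1
    obtain ⟨b0, hb0⟩ := mode_ex g hg1
    obtain ⟨hfa, hfa1, hfo, hf3, hf4⟩ := mode_facts f hf hf1 a0 ha0
    obtain ⟨hgb, hgb1, hgo, -, -⟩ := mode_facts g hg hg1 b0 hb0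
    obtain ⟨τ, hτ⟩ : ∃ τ : ℝ, τ = 1 - f a0 := ⟨_, rfl⟩
    rw [← hτ] at hf3 hf4 hfo
    have hτ0 : 0 ≤ τ := by rw [hτ]; linarith only [hfa1]
    have hτt : τ < t0 := lt_of_le_of_lt hf3 hsmall
    have hsumo : ∑ a ∈ univ.erase a0, f a = τ := by
      have := Finset.add_sum_erase univ f (Finset.mem_univ a0)
      rw [hτ]
      linarith only [hf1, this]
    obtain ⟨θ, hθ⟩ : ∃ θ : ℝ, θ = η / 16 := ⟨_, rfl⟩
    have hθ0 : 0 < θ := by rw [hθ]; (clear * - hη; positivity)
    have hθ2 : θ ≤ 1 / 2 := by rw [hθ]; linarith only [hη1]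
    have hlθ : -Real.log θ = Real.log (16 / η) := by
      rw [hθ, ← Real.log_inv, inv_div]
    have hlθ0 : 0 ≤ -Real.log θ := by
      rw [hlθ]
      exact Real.log_nonneg (by rw [le_div_iff₀ hη]; linarith only [hθ, hθ2])
    obtain ⟨ρ, hρ⟩ : ∃ ρ : ℝ, ρ = η * τ / 8 := ⟨_, rfl⟩
    have hρ0 : 0 ≤ ρ := by rw [hρ]; (clear * - hη hτ0; positivity)
    have hρ2 : ρ ≤ 1 / 2 := by
      rw [hρ]
      have : η * τ ≤ 1 * (1 / 2) := mul_le_mul hη1 (by linarith only [hth, hτt]) hτ0 (by norm_num)
      linarith only [this]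
    obtain ⟨κ, hκ⟩ : ∃ κ : G → ℝ, κ = fun z => if z = a0 + b0 then ρ else θ := ⟨_, rfl⟩
    have hκ0 : ∀ z, 0 ≤ κ z := by
      intro z
      rw [hκ]
      simp only
      split_ifs
      · exact hρ0
      · exact hθ0.le
    have hκ1 : ∀ z, κ z ≤ 1 / 2 := by
      intro z
      rw [hκ]
      simp only
      split_ifs
      · exact hρ2
      · exact hθ2
    -- `f a > 0` for some `a ≠ a0` implies `τ > 0`
    have hτpos : ∀ a, a ≠ a0 → 0 < f a → 0 < τ := fun a ha h => lt_of_lt_of_le h (hfo a ha)
    have hlτ0 : 0 ≤ -Real.log τ := by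
      have := Real.log_nonpos hτ0 (by linarith only [hfa, hτ])
      linarith only [this]
    have hlρ : ∀ a, a ≠ a0 → 0 < f a → -Real.log ρ = Real.log (8 / η) + -Real.log τ := by
      intro a ha h
      have := hτpos a ha h
      rw [hρ, show η * τ / 8 = (8 / η)⁻¹ * τ by (clear * - this hη; field_simp), Real.log_mul (by positivity) this.ne',
        Real.log_inv]
      ring
    have hl8 : Real.log (8 / η) ≤ Real.log (16 / η) :=
      Real.log_le_log (by positivity) (by gcongr; norm_num)
    have hl80 : 0 ≤ Real.log (8 / η) := Real.log_nonneg (by rw [le_div_iff₀ hη]; (clear * - hθ hθ2; linarith only [hθ, hθ2]))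
    have hκpos : ∀ a, a ≠ a0 → 0 < f a → ∀ z, 0 < κ z := by
      intro a ha h z
      have := hτpos a ha h
      rw [hκ]
      simp only
      split_ifs
      · rw [hρ]; (clear * - hη this; positivity)
      · exact hθ0
    refine ⟨fun a b => if a = a0 then 1 - κ (a + b) else κ (a + b) * g b, ?_, ?_, ?_, ?_⟩
    · intro a b
      split_ifs
      · have := hκ1 (a + b)
        (clear * - this; linarith only [this])
      · exact mul_nonneg (hκ0 _) (hg b)
    · intro a b ha hb
      split_ifs with h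
      · have := hκ1 (a + b)
        (clear * - this; linarith only [this])
      · exact mul_pos (hκpos a h ha _) hb
    · intro s
      have h1 : ∀ a ∈ univ.erase a0, (if a = a0 then 1 - κ (a + (s - a)) else
          κ (a + (s - a)) * g (s - a)) = κ s * g (s - a) := by
        intro a ha
        rw [if_neg (Finset.ne_of_mem_erase ha), add_sub_cancel]
      rw [← Finset.add_sum_erase univ _ (Finset.mem_univ a0), Finset.sum_congr rfl h1, if_pos rfl,
        add_sub_cancel, ← Finset.mul_sum]
      have h2 : ∑ a ∈ univ.erase a0, g (s - a) ≤ 1 := by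
        calc ∑ a ∈ univ.erase a0, g (s - a) ≤ ∑ a, g (s - a) :=
              Finset.sum_le_sum_of_subset_of_nonneg (Finset.erase_subset _ _)
                fun a _ _ => hg _
          _ = ∑ b, g b := Equiv.sum_comp (Equiv.subLeft s) g
          _ = 1 := hg1
      have h3 := mul_le_mul_of_nonneg_left h2 (hκ0 s)
      linarith only [h3]
    · intro b hb
      refine le_trans ?_ (le_add_of_nonneg_right (hextra b))
      obtain ⟨β, hβ⟩ : ∃ β : ℝ, β = -Real.log (g b) := ⟨_, rfl⟩
      have hβb := hβ0 b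
      rw [← hβ] at hβb ⊢
      rw [← Finset.add_sum_erase univ _ (Finset.mem_univ a0), if_pos rfl]
      by_cases hbb : b = b0
      · -- `b` is the mode
        have e1 : κ (a0 + b) = ρ := by
          rw [hκ, hbb]
          simp only [if_true]
        have e2 : ∀ a ∈ univ.erase a0, f a * (-Real.log (if a = a0 then 1 - κ (a + b) else
            κ (a + b) * g b)) = f a * (-Real.log θ + β) := by
          intro a ha
          have ha' := Finset.ne_of_mem_erase ha
          have e3 : κ (a + b) = θ := by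
            rw [hκ, hbb]
            simp only
            rw [if_neg (by simpa using ha')]
          rw [if_neg ha', e3, Real.log_mul hθ0.ne' hb.ne', hβ]
          ring
        rw [e1, Finset.sum_congr rfl e2, ← Finset.sum_mul, hsumo]
        have h1 := neglog_le hρ0 hρ2
        have h2 : f a0 * (-Real.log (1 - ρ)) ≤ 2 * ρ := by
          have h3 : 0 ≤ -Real.log (1 - ρ) := by
            have := Real.log_nonpos (show (0 : ℝ) ≤ 1 - ρ by (clear * - hρ2; linarith only [hρ2])) (by linarith only [hρ0])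
            linarith only [this]
          calc f a0 * (-Real.log (1 - ρ)) ≤ 1 * (-Real.log (1 - ρ)) :=
                mul_le_mul_of_nonneg_right hfa1 h3
            _ ≤ 2 * ρ := by linarith only [h1]
        have h3 : 2 * ρ ≤ η / 4 * ent f := by
          rw [hρ]
          have := mul_le_mul_of_nonneg_left hf3 hη.le
          linarith only [this]
        have h4 : τ * (-Real.log θ) ≤ η / 4 * ent f := by
          rcases eq_or_lt_of_le hτ0 with h | h
          · rw [← h, zero_mul]
            exact mul_nonneg (by positivity) hef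
          · have h5 : -Real.log t0 ≤ -Real.log τ := neg_le_neg (Real.log_le_log h hτt.le)
            have h6 : -Real.log θ ≤ η / 4 * (-Real.log τ) := by
              rw [hlθ]
              exact hc1.trans (mul_le_mul_of_nonneg_left h5 (by positivity))
            calc τ * (-Real.log θ) ≤ τ * (η / 4 * (-Real.log τ)) :=
                  mul_le_mul_of_nonneg_left h6 hτ0
              _ = η / 4 * (τ * (-Real.log τ)) := by ring
              _ ≤ η / 4 * ent f := mul_le_mul_of_nonneg_left hf4 (by positivity)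
        have h5 : τ * β ≤ η / 8 * β := mul_le_mul_of_nonneg_right (by linarith only [hc2, hτ0, hτt]) hβb
        have h6 := mul_nonneg hη.le hef
        have h7 := mul_nonneg hη.le hβb
        rw [mul_add, mul_add]
        linarith only [h2, h3, h4, h5, h6, h7]
      · -- `b` is not the mode
        have hβ2 : 1 / 2 ≤ β := by
          have h1 : g b ≤ 1 / 2 := by
            have h2 := hgo b hbb
            have h3 := hb0 b
            linarith only [h2, h3]
          have h2 : Real.log (g b) ≤ Real.log (1 / 2) := Real.log_le_log hb h1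
          have h3 : Real.log (1 / 2 : ℝ) = -Real.log 2 := by
            rw [one_div, Real.log_inv]
          have h4 := Real.log_two_gt_d9
          rw [hβ]
          linarith only [h2, h3, h4]
        have e1 : κ (a0 + b) = θ := by
          rw [hκ]
          simp only
          rw [if_neg (by simpa using hbb)]
        obtain ⟨a1, ha1⟩ : ∃ a1 : G, a1 = a0 + b0 - b := ⟨_, rfl⟩
        have e2 : ∀ a ∈ univ.erase a0, f a * (-Real.log (if a = a0 then 1 - κ (a + b) else
            κ (a + b) * g b)) ≤ f a * (-Real.log θ + β) +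
              (if a = a1 then τ * Real.log (8 / η) + τ * (-Real.log τ) else 0) := by
          intro a ha
          have ha' := Finset.ne_of_mem_erase ha
          rw [if_neg ha']
          rcases eq_or_lt_of_le (hf a) with h | h
          · rw [← h, zero_mul, zero_mul, zero_add]
            split_ifs
            · exact add_nonneg (mul_nonneg hτ0 hl80) (mul_nonneg hτ0 hlτ0)
            · exact le_rfl
          · have h8 : Real.log (κ (a + b) * g b) = Real.log (κ (a + b)) - β := by
              rw [Real.log_mul (hκpos a ha' h _).ne' hb.ne', hβ]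
              ring
            rw [h8]
            by_cases haa : a = a1
            · have h1 : κ (a + b) = ρ := by
                rw [hκ]
                simp only
                rw [if_pos (by rw [haa, ha1, sub_add_cancel])]
              rw [if_pos haa, h1]
              have h2 := hlρ a ha' h
              have h3 : f a * (-Real.log ρ) ≤ τ * (-Real.log ρ) :=
                mul_le_mul_of_nonneg_right (hfo a ha') (by rw [h2]; (clear * - hlτ0 hl80; linarith only [hlτ0, hl80]))
              have h4 : 0 ≤ f a * (-Real.log θ) := mul_nonneg h.le hlθ0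
              rw [h2] at h3
              (clear * - h3 h4 h h2; nlinarith only [h, h2, h3, h4])
            · have h1 : κ (a + b) = θ := by
                rw [hκ]
                simp only
                rw [if_neg]
                intro h2
                exact haa (by rw [ha1, ← h2, add_sub_cancel_right])
              rw [if_neg haa, h1, add_zero]
              exact le_of_eq (by ring)
        have h1 := Finset.sum_le_sum e2
        rw [Finset.sum_add_distrib, ← Finset.sum_mul, hsumo] at h1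
        have h2 : ∑ a ∈ univ.erase a0, (if a = a1 then τ * Real.log (8 / η) +
            τ * (-Real.log τ) else 0) ≤ τ * Real.log (8 / η) + τ * (-Real.log τ) := by
          have hnn : 0 ≤ τ * Real.log (8 / η) + τ * (-Real.log τ) :=
            add_nonneg (mul_nonneg hτ0 hl80) (mul_nonneg hτ0 hlτ0)
          calc ∑ a ∈ univ.erase a0, (if a = a1 then τ * Real.log (8 / η) +
                τ * (-Real.log τ) else 0) ≤ ∑ a, (if a = a1 then τ * Real.log (8 / η) +
                τ * (-Real.log τ) else 0) :=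
                Finset.sum_le_sum_of_subset_of_nonneg (Finset.erase_subset _ _)
                  fun a _ _ => by
                    split_ifs
                    · exact hnn
                    · exact le_rfl
            _ = τ * Real.log (8 / η) + τ * (-Real.log τ) := by
              rw [Finset.sum_ite_eq' univ a1]
              simp
        rw [e1]
        have h3 : f a0 * (-Real.log (1 - θ)) ≤ η / 8 := by
          have h4 := neglog_le hθ0.le hθ2
          have h5 : 0 ≤ -Real.log (1 - θ) := by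
            have := Real.log_nonpos (show (0 : ℝ) ≤ 1 - θ by (clear * - hθ2; linarith only [hθ2])) (by linarith only [hθ0])
            linarith only [this]
          calc f a0 * (-Real.log (1 - θ)) ≤ 1 * (-Real.log (1 - θ)) :=
                mul_le_mul_of_nonneg_right hfa1 h5
            _ ≤ 2 * θ := by linarith only [h4]
            _ = η / 8 := by rw [hθ]; ring
        have h4 : τ * (-Real.log θ) ≤ η / 16 := by
          rw [hlθ]
          exact (mul_le_mul_of_nonneg_right hτt.le (by rw [← hlθ]; exact hlθ0)).trans hc3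
        have h5 : τ * Real.log (8 / η) ≤ η / 16 := by
          calc τ * Real.log (8 / η) ≤ t0 * Real.log (16 / η) :=
                mul_le_mul hτt.le hl8 hl80 ht0.le
            _ ≤ η / 16 := hc3
        have h6 : τ * (-Real.log τ) ≤ η / 16 := by
          rcases eq_or_lt_of_le hτ0 with h | h
          · rw [← h, zero_mul]
            positivity
          · exact (mul_neglog_le h hτt.le).trans hc4
        have h7 : τ * β ≤ η / 16 * β := mul_le_mul_of_nonneg_right (by linarith only [hc2, hτt]) hβb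
        have h8 : η / 2 ≤ η * β := by
          have := mul_le_mul_of_nonneg_left hβ2 hη.le
          linarith only [this]
        have h9 := mul_nonneg hη.le hef
        rw [mul_add] at h1
        rw [mul_add]
        linarith only [hθ, hθ0, h1, h2, h3, h4, h5, h6, h7, h8, h9]

end Pool.Agent.Helper62.GLP
end

/- Helper24.DI.H28.LN.Cls -/
section
set_option autoImplicit false

/-!
# Project LINES (MP_120218), Cls: residue classes modulo `m` and one digit
-/

namespace Pool.Agent.Helper28.LN

open Finset Pool.Agent.Helper15.GL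

/-- the elements of `X` which are congruent to `x` modulo `m` -/
def cl (m : ℕ) (X : Finset ℤ) (x : ℤ) : Finset ℤ := X.filter (fun y => (m : ℤ) ∣ y - x)

/-- `log` of the size of the class of `x` modulo `m` minus the same modulo `m'` -/
noncomputable def el (m m' : ℕ) (X : Finset ℤ) (x : ℤ) : ℝ :=
  Real.log (cl m X x).card - Real.log (cl m' X x).card

/-- `|X|` times the conditional entropy of the class modulo `m'` given the class modulo `m` -/
noncomputable def FF (m m' : ℕ) (X : Finset ℤ) : ℝ := ∑ x ∈ X, el m m' X x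

theorem mem_cl {m : ℕ} {X : Finset ℤ} {x y : ℤ} :
    y ∈ cl m X x ↔ y ∈ X ∧ (m : ℤ) ∣ y - x := Finset.mem_filter

theorem self_mem_cl {m : ℕ} {X : Finset ℤ} {x : ℤ} (hx : x ∈ X) : x ∈ cl m X x :=
  mem_cl.2 ⟨hx, by simp⟩

theorem cl_nonempty {m : ℕ} {X : Finset ℤ} {x : ℤ} (hx : x ∈ X) : (cl m X x).Nonempty :=
  ⟨x, self_mem_cl hx⟩

theorem cl_card_pos {m : ℕ} {X : Finset ℤ} {x : ℤ} (hx : x ∈ X) :
    (0 : ℝ) < (cl m X x).card := by
  exact_mod_cast Finset.card_pos.2 (cl_nonempty hx)

theorem cl_one (X : Finset ℤ) (x : ℤ) : cl 1 X x = X := by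
  unfold cl
  simp

theorem cl_anti {m m' : ℕ} (h : m ∣ m') (X : Finset ℤ) (x : ℤ) : cl m' X x ⊆ cl m X x := by
  intro y hy
  rw [mem_cl] at hy ⊢
  exact ⟨hy.1, (Int.natCast_dvd_natCast.2 h).trans hy.2⟩

theorem cl_eq {m : ℕ} {X : Finset ℤ} {x y : ℤ} (h : (m : ℤ) ∣ y - x) : cl m X y = cl m X x := by
  unfold cl
  refine Finset.filter_congr fun z _ => ?_
  constructor
  · intro hz
    have := dvd_add hz h
    simpa using this
  · intro hz
    have := dvd_sub hz h
    simpa using this

theorem cl_comm {m : ℕ} {X : Finset ℤ} {x y : ℤ} (hx : x ∈ X) (h : y ∈ cl m X x) :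
    x ∈ cl m X y := by
  rw [mem_cl] at h ⊢
  exact ⟨hx, by rw [dvd_sub_comm]; exact h.2⟩

theorem el_nonneg {m m' : ℕ} (h : m ∣ m') (X : Finset ℤ) (x : ℤ) (hx : x ∈ X) :
    0 ≤ el m m' X x := by
  unfold el
  have h2 : ((cl m' X x).card : ℝ) ≤ (cl m X x).card := by
    exact_mod_cast Finset.card_le_card (cl_anti h X x)
  have := Real.log_le_log (cl_card_pos hx) h2
  (clear * - this; linarith only [this])

theorem FF_nonneg {m m' : ℕ} (h : m ∣ m') (X : Finset ℤ) : 0 ≤ FF m m' X :=
  Finset.sum_nonneg fun x hx => el_nonneg h X x hx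

theorem FF_add (m m' m'' : ℕ) (X : Finset ℤ) : FF m m' X + FF m' m'' X = FF m m'' X := by
  unfold FF
  rw [← Finset.sum_add_distrib]
  refine Finset.sum_congr rfl fun x _ => ?_
  unfold el
  ring

theorem FF_one_le (m : ℕ) (X : Finset ℤ) : FF 1 m X ≤ X.card * Real.log X.card := by
  unfold FF
  rw [← nsmul_eq_mul, ← Finset.sum_const]
  refine Finset.sum_le_sum fun x _ => ?_
  unfold el
  rw [cl_one]
  have := Real.log_natCast_nonneg (cl m X x).card
  (clear * - this; linarith only [this])

/-- averaging over classes -/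
theorem avg_cl (m : ℕ) (X : Finset ℤ) (ψ : ℤ → ℝ) :
    ∑ x ∈ X, (∑ y ∈ cl m X x, ψ y) / (cl m X x).card = ∑ x ∈ X, ψ x := by
  have h1 : ∀ x ∈ X, (∑ y ∈ cl m X x, ψ y) / (cl m X x).card =
      ∑ y ∈ X, if (m : ℤ) ∣ y - x then ψ y / (cl m X y).card else 0 := by
    intro x _
    rw [Finset.sum_div, ← Finset.sum_filter]
    refine Finset.sum_congr rfl fun y hy => ?_
    rw [Finset.mem_filter] at hy
    rw [cl_eq hy.2]
  rw [Finset.sum_congr rfl h1, Finset.sum_comm]
  refine Finset.sum_congr rfl fun y hy => ?_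
  have h2 : ∑ x ∈ X, (if (m : ℤ) ∣ y - x then ψ y / (cl m X y).card else 0) =
      ∑ x ∈ cl m X y, ψ y / (cl m X y).card := by
    rw [← Finset.sum_filter]
    unfold cl
    refine Finset.sum_congr (Finset.filter_congr fun x _ => ?_) fun _ _ => rfl
    rw [dvd_sub_comm]
  rw [h2, Finset.sum_const, nsmul_eq_mul]
  have h3 : ((cl m X y).card : ℝ) ≠ 0 := (cl_card_pos hy).ne'
  (clear * - h3; field_simp)

/-- the digit following the class modulo `m` -/
def dg (m q : ℕ) (x : ℤ) : ZMod q := ((x / (m : ℤ) : ℤ) : ZMod q)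

theorem ediv_sub {P x y : ℤ} (h : P ∣ x - y) : x - y = P * (x / P - y / P) := by
  have h1 := Int.mul_ediv_add_emod x P
  have h2 := Int.mul_ediv_add_emod y P
  have h3 : x % P = y % P := Int.emod_eq_emod_iff_emod_sub_eq_zero.2
    (Int.emod_eq_zero_of_dvd h)
  rw [mul_sub]
  (clear * - h1 h2 h3; linarith only [h1, h2, h3])

theorem dg_eq_iff {m q : ℕ} (hm : 0 < m) {x y : ℤ} (h : (m : ℤ) ∣ y - x) :
    dg m q y = dg m q x ↔ ((m * q : ℕ) : ℤ) ∣ y - x := by
  have hP : (m : ℤ) ≠ 0 := by (clear * - hm; positivity)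
  unfold dg
  rw [ZMod.intCast_eq_intCast_iff_dvd_sub, dvd_sub_comm, ediv_sub h, Nat.cast_mul,
    mul_dvd_mul_iff_left hP]

theorem filter_dg (m q : ℕ) (hm : 0 < m) (X : Finset ℤ) (x x' : ℤ) (hx' : x' ∈ cl m X x) :
    (cl m X x).filter (fun z => dg m q z = dg m q x') = cl (m * q) X x' := by
  rw [mem_cl] at hx'
  ext z
  rw [Finset.mem_filter, mem_cl, mem_cl]
  constructor
  · rintro ⟨⟨hz, h1⟩, h2⟩
    refine ⟨hz, ?_⟩
    have h3 : (m : ℤ) ∣ z - x' := by
      have := dvd_sub h1 hx'.2
      simpa using this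
    exact (dg_eq_iff hm h3).1 h2
  · rintro ⟨hz, h1⟩
    have h3 : (m : ℤ) ∣ z - x' :=
      (Int.natCast_dvd_natCast.2 (Dvd.intro q rfl)).trans h1
    refine ⟨⟨hz, ?_⟩, (dg_eq_iff hm h3).2 h1⟩
    have := dvd_add h3 hx'.2
    simpa using this

/-- the entropy of the digit in the class of `x` -/
noncomputable def hh (m q : ℕ) [NeZero q] (X : Finset ℤ) (x : ℤ) : ℝ :=
  ent (law (cl m X x) (dg m q))

theorem hh_eq (m q : ℕ) (hm : 0 < m) [NeZero q] (X : Finset ℤ) (x : ℤ) (hx' : x ∈ X) :
    hh m q X x = (∑ y ∈ cl m X x, el m (m * q) X y) / (cl m X x).card := by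
  have hc : ((cl m X x).card : ℝ) ≠ 0 := (cl_card_pos hx').ne'
  have h := ent_law (cl m X x) (cl_nonempty hx') (dg m q)
  rw [eq_div_iff hc, mul_comm]
  unfold hh
  rw [h]
  refine Finset.sum_congr rfl fun y hy => ?_
  rw [filter_dg m q hm X x y hy]
  unfold el
  rw [cl_eq (mem_cl.1 hy).2]

theorem sum_hh (m q : ℕ) (hm : 0 < m) [NeZero q] (X : Finset ℤ) :
    ∑ x ∈ X, hh m q X x = FF m (m * q) X := by
  rw [Finset.sum_congr rfl fun x hx' => hh_eq m q hm X x hx', avg_cl]
  rfl

theorem hh_nonneg (m q : ℕ) [NeZero q] (X : Finset ℤ) (x : ℤ) (hx' : x ∈ X) :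
    0 ≤ hh m q X x := ent_nonneg _ (law_nonneg _ _) (sum_law _ (cl_nonempty hx') _)

/-- the next digit is spread: no class modulo `m * q` carries the proportion `1 - t` -/
def Spread (m q : ℕ) (t : ℝ) (X : Finset ℤ) (x : ℤ) : Prop :=
  ∀ y ∈ cl m X x, ((cl (m * q) X y).card : ℝ) < (1 - t) * (cl m X x).card

open Classical in
/-- the number of elements at a spread node -/
noncomputable def nS (m q : ℕ) (t : ℝ) (X : Finset ℤ) : ℕ :=
  (X.filter (fun x => Spread m q t X x)).card

theorem spread_congr {m q : ℕ} {t : ℝ} {X : Finset ℤ} {x y : ℤ} (h : (m : ℤ) ∣ y - x) :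
    Spread m q t X y ↔ Spread m q t X x := by
  unfold Spread
  rw [cl_eq h]

/-- spread nodes have entropy -/
theorem FF_ge_nS (m q : ℕ) (hm : 0 < m) (t : ℝ) (ht0 : 0 < t) (ht1 : t < 1) (X : Finset ℤ) :
    t * nS m q t X ≤ FF m (m * q) X := by
  classical
  have hdvd : m ∣ m * q := Dvd.intro q rfl
  unfold nS FF
  have h1 : t * ((X.filter (fun x => Spread m q t X x)).card : ℝ) =
      ∑ x ∈ X.filter (fun x => Spread m q t X x), t := by
    rw [Finset.sum_const, nsmul_eq_mul, mul_comm]
  rw [h1]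
  refine le_trans (Finset.sum_le_sum (g := fun x => el m (m * q) X x) fun x hx => ?_)
    (Finset.sum_le_sum_of_subset_of_nonneg (Finset.filter_subset _ _)
      fun x hx _ => el_nonneg hdvd X x hx)
  rw [Finset.mem_filter] at hx
  have h2 := hx.2 x (self_mem_cl hx.1)
  unfold el
  have h3 := cl_card_pos (m := m * q) hx.1
  have h4 := cl_card_pos (m := m) hx.1
  have h5 : Real.log (cl (m * q) X x).card ≤ Real.log (1 - t) + Real.log (cl m X x).card := by
    rw [← Real.log_mul (by (clear * - ht1; linarith only [ht1])) h4.ne']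
    exact Real.log_le_log h3 h2.le
  have h6 := Real.log_le_sub_one_of_pos (show 0 < 1 - t by (clear * - ht1; linarith only [ht1]))
  (clear * - h5 h6; linarith only [h5, h6])

end Pool.Agent.Helper28.LN
end

/- Helper24.DI.H28.LN.Submod -/
section
set_option autoImplicit false

/-!
# Project LINES (MP_120218), Submod: submodularity of the entropy of residues and the moduli
`MM r q j = ∏ i < r, q i ^ j i`
-/

namespace Pool.Agent.Helper28.LN

open Finset

theorem submod_aux (m m' w L : ℕ) (hmm' : m ∣ m') (hmw : m ∣ w)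
    (hL : ∀ d : ℤ, (L : ℤ) ∣ d ↔ (m' : ℤ) ∣ d ∧ (w : ℤ) ∣ d) (Y : Finset ℤ) :
    ∑ y ∈ Y, ((cl w Y y).card * (cl m' Y y).card : ℝ) /
      ((cl m Y y).card * (cl L Y y).card) ≤ Y.card := by
  classical
  have h1 : ∀ y ∈ Y, ((cl w Y y).card * (cl m' Y y).card : ℝ) /
      ((cl m Y y).card * (cl L Y y).card) =
      ∑ z ∈ Y, ∑ z' ∈ Y, if ((w : ℤ) ∣ z - y ∧ (m' : ℤ) ∣ z' - y) then
        1 / (((cl m Y y).card : ℝ) * (cl L Y y).card) else 0 := by
    intro y _
    have e1 : ∀ z ∈ Y, ∑ z' ∈ Y, (if ((w : ℤ) ∣ z - y ∧ (m' : ℤ) ∣ z' - y) then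
        1 / (((cl m Y y).card : ℝ) * (cl L Y y).card) else 0) =
        if (w : ℤ) ∣ z - y then ((cl m' Y y).card : ℝ) *
          (1 / (((cl m Y y).card : ℝ) * (cl L Y y).card)) else 0 := by
      intro z _
      by_cases hz : (w : ℤ) ∣ z - y
      · simp only [hz, true_and, if_true]
        rw [← Finset.sum_filter, Finset.sum_const, nsmul_eq_mul]
        rfl
      · simp only [hz, false_and, if_false, Finset.sum_const_zero]
    rw [Finset.sum_congr rfl e1, ← Finset.sum_filter, Finset.sum_const, nsmul_eq_mul]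
    unfold cl
    ring
  rw [Finset.sum_congr rfl h1, Finset.sum_comm]
  have h2 : ∀ z ∈ Y, ∑ y ∈ Y, ∑ z' ∈ Y, (if ((w : ℤ) ∣ z - y ∧ (m' : ℤ) ∣ z' - y) then
        1 / (((cl m Y y).card : ℝ) * (cl L Y y).card) else 0) ≤ 1 := by
    intro z hz
    rw [Finset.sum_comm]
    have h3 : ∀ z' ∈ Y, ∑ y ∈ Y, (if ((w : ℤ) ∣ z - y ∧ (m' : ℤ) ∣ z' - y) then
        1 / (((cl m Y y).card : ℝ) * (cl L Y y).card) else 0) ≤
        if (m : ℤ) ∣ z' - z then 1 / ((cl m Y z).card : ℝ) else 0 := by
      intro z' _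
      by_cases hex : ∃ y0 ∈ Y, (w : ℤ) ∣ z - y0 ∧ (m' : ℤ) ∣ z' - y0
      · obtain ⟨y0, hy0, hw, hm'⟩ := hex
        have hmz : (m : ℤ) ∣ z' - z := by
          have a1 := (Int.natCast_dvd_natCast.2 hmm').trans hm'
          have a2 := (Int.natCast_dvd_natCast.2 hmw).trans hw
          have := dvd_sub a1 a2
          simpa using this
        rw [if_pos hmz]
        have h4 : ∀ y ∈ Y, (if ((w : ℤ) ∣ z - y ∧ (m' : ℤ) ∣ z' - y) then
            1 / (((cl m Y y).card : ℝ) * (cl L Y y).card) else 0) ≤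
            if (L : ℤ) ∣ y - y0 then 1 / (((cl m Y z).card : ℝ) * (cl L Y y0).card) else 0 := by
          intro y hy
          by_cases hc : (w : ℤ) ∣ z - y ∧ (m' : ℤ) ∣ z' - y
          · have b1 : (L : ℤ) ∣ y - y0 := by
              rw [hL]
              constructor
              · have := dvd_sub hm' hc.2
                simpa using this
              · have := dvd_sub hw hc.1
                simpa using this
            rw [if_pos hc, if_pos b1, cl_eq b1]
            have b2 : cl m Y y = cl m Y z := by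
              refine cl_eq ?_
              have := (Int.natCast_dvd_natCast.2 hmw).trans hc.1
              rw [dvd_sub_comm]
              exact this
            rw [b2]
          · rw [if_neg hc]
            split_ifs
            · (clear * -; positivity)
            · exact le_rfl
        refine (Finset.sum_le_sum h4).trans ?_
        rw [← Finset.sum_filter, Finset.sum_const, nsmul_eq_mul]
        have h5 : (cl L Y y0) = Y.filter (fun y => (L : ℤ) ∣ y - y0) := rfl
        rw [← h5]
        have h6 := cl_card_pos (m := L) hy0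
        have h7 := cl_card_pos (m := m) hz
        rw [mul_one_div, div_mul_eq_div_div_swap, div_self h6.ne']
      · have h4 : ∑ y ∈ Y, (if ((w : ℤ) ∣ z - y ∧ (m' : ℤ) ∣ z' - y) then
            1 / (((cl m Y y).card : ℝ) * (cl L Y y).card) else 0) = 0 := by
          refine Finset.sum_eq_zero fun y hy => ?_
          rw [if_neg]
          intro hc
          exact hex ⟨y, hy, hc⟩
        rw [h4]
        split_ifs
        · (clear * -; positivity)
        · exact le_rfl
    refine (Finset.sum_le_sum h3).trans ?_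
    rw [← Finset.sum_filter, Finset.sum_const, nsmul_eq_mul]
    have h5 : (cl m Y z) = Y.filter (fun y => (m : ℤ) ∣ y - z) := rfl
    rw [← h5, mul_one_div, div_self (cl_card_pos (m := m) hz).ne']
  have h8 : ∑ y ∈ Y, ∑ z ∈ Y, ∑ z' ∈ Y, (if ((w : ℤ) ∣ z - y ∧ (m' : ℤ) ∣ z' - y) then
        1 / (((cl m Y y).card : ℝ) * (cl L Y y).card) else 0) ≤ Y.card := by
    rw [Finset.sum_comm]
    refine (Finset.sum_le_sum h2).trans ?_
    simp
  rw [Finset.sum_comm] at h8
  exact h8

/-- submodularity of the entropy of residues -/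
theorem submod (m m' w L : ℕ) (hmm' : m ∣ m') (hmw : m ∣ w)
    (hL : ∀ d : ℤ, (L : ℤ) ∣ d ↔ (m' : ℤ) ∣ d ∧ (w : ℤ) ∣ d) (Y : Finset ℤ) :
    FF m' L Y ≤ FF m w Y := by
  have h := submod_aux m m' w L hmm' hmw hL Y
  have h1 : ∀ y ∈ Y, el m' L Y y - el m w Y y ≤
      ((cl w Y y).card * (cl m' Y y).card : ℝ) / ((cl m Y y).card * (cl L Y y).card) - 1 := by
    intro y hy
    have a1 := cl_card_pos (m := m) hy
    have a2 := cl_card_pos (m := m') hy
    have a3 := cl_card_pos (m := w) hy
    have a4 := cl_card_pos (m := L) hy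
    have a5 := Real.log_le_sub_one_of_pos (show 0 <
      ((cl w Y y).card * (cl m' Y y).card : ℝ) / ((cl m Y y).card * (cl L Y y).card) by
      (clear * - a3 a2 a1 a4; positivity))
    rw [Real.log_div (by (clear * - a3 a2; positivity)) (by (clear * - a1 a4; positivity)), Real.log_mul a3.ne' a2.ne',
      Real.log_mul a1.ne' a4.ne'] at a5
    unfold el
    linarith only [a5]
  have h2 := Finset.sum_le_sum h1
  rw [Finset.sum_sub_distrib, Finset.sum_sub_distrib] at h2
  simp only [Finset.sum_const, nsmul_eq_mul, mul_one] at h2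
  unfold FF
  linarith only [h, h2]

/-- the moduli -/
def MM (r : ℕ) (q : ℕ → ℕ) (j : ℕ → ℕ) : ℕ := ∏ i ∈ Finset.range r, q i ^ j i

theorem MM_pos (r : ℕ) (q : ℕ → ℕ) (j : ℕ → ℕ) (hq : ∀ i < r, (q i).Prime) :
    0 < MM r q j :=
  Finset.prod_pos fun i hi => pow_pos (hq i (Finset.mem_range.1 hi)).pos _

theorem MM_dvd_iff (r : ℕ) (q : ℕ → ℕ) (j : ℕ → ℕ) (hq : ∀ i < r, (q i).Prime)
    (hinj : ∀ i < r, ∀ l < r, i ≠ l → q i ≠ q l) (d : ℤ) :
    (MM r q j : ℤ) ∣ d ↔ ∀ i < r, ((q i ^ j i : ℕ) : ℤ) ∣ d := by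
  unfold MM
  rw [Nat.cast_prod]
  constructor
  · intro h i hi
    exact (Finset.dvd_prod_of_mem (fun i => ((q i ^ j i : ℕ) : ℤ))
      (Finset.mem_range.2 hi)).trans h
  · intro h
    refine Finset.prod_dvd_of_coprime ?_ fun i hi => h i (Finset.mem_range.1 hi)
    intro i hi l hl hil
    rw [Finset.coe_range, Set.mem_Iio] at hi hl
    simp only [Function.onFun]
    rw [Nat.isCoprime_iff_coprime]
    exact Nat.Coprime.pow _ _ ((Nat.coprime_primes (hq i hi) (hq l hl)).2 (hinj i hi l hl hil))

/-- raising coordinate `i` -/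
def up (j : ℕ → ℕ) (i : ℕ) : ℕ → ℕ := Function.update j i (j i + 1)

theorem MM_up (r : ℕ) (q : ℕ → ℕ) (j : ℕ → ℕ) (i : ℕ) (hi : i < r) :
    MM r q (up j i) = MM r q j * q i := by
  unfold MM up
  rw [← Finset.mul_prod_erase _ _ (Finset.mem_range.2 hi),
    ← Finset.mul_prod_erase (Finset.range r) (fun i => q i ^ j i) (Finset.mem_range.2 hi)]
  have h1 : ∏ x ∈ (Finset.range r).erase i, q x ^ Function.update j i (j i + 1) x =
      ∏ x ∈ (Finset.range r).erase i, q x ^ j x := by
    refine Finset.prod_congr rfl fun x hx => ?_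
    rw [Finset.mem_erase] at hx
    rw [Function.update_of_ne hx.1]
  rw [h1, Function.update_self, pow_succ]
  ring

theorem MM_dvd_MM (r : ℕ) (q : ℕ → ℕ) (j j' : ℕ → ℕ) (h : ∀ i < r, j i ≤ j' i) :
    MM r q j ∣ MM r q j' :=
  Finset.prod_dvd_prod_of_dvd _ _ fun i hi => pow_dvd_pow _ (h i (Finset.mem_range.1 hi))

/-- submodularity for the moduli `MM` -/
theorem submod_MM (r : ℕ) (q : ℕ → ℕ) (hq : ∀ i < r, (q i).Prime)
    (hinj : ∀ i < r, ∀ l < r, i ≠ l → q i ≠ q l) (j j' : ℕ → ℕ) (h : ∀ i < r, j i ≤ j' i)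
    (i : ℕ) (hi : i < r) (hji : j i = j' i) (Y : Finset ℤ) :
    FF (MM r q j') (MM r q j' * q i) Y ≤ FF (MM r q j) (MM r q j * q i) Y := by
  have hd := MM_dvd_MM r q j j' h
  refine submod _ _ _ _ hd (Dvd.intro _ rfl) ?_ Y
  intro d
  constructor
  · intro h1
    have h2 : ((MM r q j' : ℕ) : ℤ) ∣ ((MM r q j' * q i : ℕ) : ℤ) :=
      Int.natCast_dvd_natCast.2 (Dvd.intro _ rfl)
    have h3 : ((MM r q j * q i : ℕ) : ℤ) ∣ ((MM r q j' * q i : ℕ) : ℤ) :=
      Int.natCast_dvd_natCast.2 (Nat.mul_dvd_mul_right hd _)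
    exact ⟨h2.trans h1, h3.trans h1⟩
  · rintro ⟨h1, h2⟩
    rw [← MM_up r q j' i hi]
    rw [← MM_up r q j i hi] at h2
    rw [MM_dvd_iff r q _ hq hinj] at h1 h2 ⊢
    intro l hl
    by_cases hli : l = i
    · have := h2 l hl
      subst hli
      unfold up at this ⊢
      rw [Function.update_self] at this ⊢
      rw [← hji]
      exact this
    · have := h1 l hl
      unfold up
      rw [Function.update_of_ne hli]
      exact this

end Pool.Agent.Helper28.LN
end

/- Helper24.DI.H28.LN.Shift -/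
section
set_option autoImplicit false

/-!
# Project LINES (MP_120218), Shift: almost invariance under multiplication by `G` moves the
spread nodes
-/

namespace Pool.Agent.Helper28.LN

open Finset

/-- the elements of `A` which `G` maps outside `A` -/
def bad (G : ℚ) (A : Finset ℤ) : Finset ℤ := A.filter (fun a => ∀ b ∈ A, (b : ℚ) ≠ G * a)

/-- the elements of `A` which `G` maps into `A` -/
def good (G : ℚ) (A : Finset ℤ) : Finset ℤ := A.filter (fun a => ∃ b ∈ A, (b : ℚ) = G * a)

/-- multiplication by `G` where the result is an integer -/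
def sh (G : ℚ) (a : ℤ) : ℤ := (G * a).num

theorem sh_eq {G : ℚ} {a b : ℤ} (h : (b : ℚ) = G * a) : sh G a = b := by
  unfold sh
  rw [← h]
  exact Rat.num_intCast b

theorem mem_good {G : ℚ} {A : Finset ℤ} {a : ℤ} :
    a ∈ good G A ↔ a ∈ A ∧ sh G a ∈ A ∧ (sh G a : ℚ) = G * a := by
  unfold good
  rw [Finset.mem_filter]
  constructor
  · rintro ⟨ha, b, hb, h⟩
    rw [sh_eq h]
    exact ⟨ha, hb, h⟩
  · rintro ⟨ha, hb, h⟩
    exact ⟨ha, _, hb, h⟩

theorem mem_bad {G : ℚ} {A : Finset ℤ} {a : ℤ} : a ∈ bad G A ↔ a ∈ A ∧ a ∉ good G A := by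
  unfold bad good
  rw [Finset.mem_filter, Finset.mem_filter]
  constructor
  · rintro ⟨ha, h⟩
    refine ⟨ha, fun h1 => ?_⟩
    obtain ⟨_, b, hb, h2⟩ := h1
    exact h b hb h2
  · rintro ⟨ha, h⟩
    exact ⟨ha, fun b hb h2 => h ⟨ha, b, hb, h2⟩⟩

theorem bad_subset (G : ℚ) (A : Finset ℤ) : bad G A ⊆ A := Finset.filter_subset _ _

theorem good_subset (G : ℚ) (A : Finset ℤ) : good G A ⊆ A := Finset.filter_subset _ _

theorem sh_inv {G : ℚ} (hG : G ≠ 0) {a b : ℤ} (h : (b : ℚ) = G * a) :
    (a : ℚ) = G⁻¹ * b := by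
  rw [h, inv_mul_cancel_left₀ hG]

theorem sh_mem_good {G : ℚ} (hG : G ≠ 0) {A : Finset ℤ} {a : ℤ} (ha : a ∈ good G A) :
    sh G a ∈ good G⁻¹ A := by
  rw [mem_good] at ha ⊢
  have h1 := sh_inv hG ha.2.2
  rw [sh_eq h1]
  exact ⟨ha.2.1, ha.1, h1⟩

theorem sh_sh {G : ℚ} (hG : G ≠ 0) {A : Finset ℤ} {a : ℤ} (ha : a ∈ good G A) :
    sh G⁻¹ (sh G a) = a := by
  rw [mem_good] at ha
  exact sh_eq (sh_inv hG ha.2.2)

theorem card_good_add_bad (G : ℚ) (A : Finset ℤ) :
    (good G A).card + (bad G A).card = A.card := by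
  have h : bad G A = A.filter (fun a => a ∉ good G A) := by
    ext a
    rw [mem_bad, Finset.mem_filter]
  have h2 : good G A = A.filter (fun a => a ∈ good G A) := by
    ext a
    rw [Finset.mem_filter]
    exact ⟨fun h => ⟨good_subset _ _ h, h⟩, fun h => h.2⟩
  rw [h]
  conv_lhs => rw [h2]
  have h3 := Finset.card_filter_add_card_filter_not (s := A) (fun a => a ∈ good G A)
  rw [← h2] at h3 ⊢
  exact h3

theorem card_good_inv {G : ℚ} (hG : G ≠ 0) (A : Finset ℤ) :
    (good G⁻¹ A).card = (good G A).card := by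
  refine Finset.card_nbij' (sh G⁻¹) (sh G) ?_ ?_ ?_ ?_
  · intro a ha
    have := sh_mem_good (inv_ne_zero hG) ha
    rwa [inv_inv] at this
  · intro a ha
    exact sh_mem_good hG ha
  · intro a ha
    have := sh_sh (inv_ne_zero hG) ha
    rwa [inv_inv] at this
  · intro a ha
    exact sh_sh hG ha

theorem card_bad_inv {G : ℚ} (hG : G ≠ 0) (A : Finset ℤ) :
    (bad G⁻¹ A).card = (bad G A).card := by
  have h1 := card_good_add_bad G A
  have h2 := card_good_add_bad G⁻¹ A
  have h3 := card_good_inv hG A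
  omega

theorem card_bad_mul (G H : ℚ) (hG : G ≠ 0) (A : Finset ℤ) :
    (bad (H * G) A).card ≤ (bad G A).card + (bad H A).card := by
  classical
  have h1 : bad (H * G) A ⊆ bad G A ∪ (bad (H * G) A \ bad G A) := by
    intro a ha
    rw [Finset.mem_union, Finset.mem_sdiff]
    by_cases h : a ∈ bad G A
    · exact Or.inl h
    · exact Or.inr ⟨ha, h⟩
  refine (Finset.card_le_card h1).trans ((Finset.card_union_le _ _).trans ?_)
  refine Nat.add_le_add_left ?_ _
  refine Finset.card_le_card_of_injOn (sh G) ?_ ?_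
  · intro a ha
    rw [Finset.mem_coe, Finset.mem_sdiff, mem_bad, mem_bad] at ha
    obtain ⟨⟨ha1, ha2⟩, ha3⟩ := ha
    have ha4 : a ∈ good G A := by
      by_contra h
      exact ha3 ⟨ha1, h⟩
    rw [mem_good] at ha4
    rw [Finset.mem_coe, mem_bad]
    refine ⟨ha4.2.1, fun h5 => ha2 ?_⟩
    rw [mem_good] at h5
    rw [ha4.2.2] at h5
    have h6 : (sh H (sh G a) : ℚ) = H * G * a := by rw [h5.2.2]; ring
    rw [mem_good, sh_eq h6]
    exact ⟨ha1, h5.2.1, h6⟩
  · intro a ha b hb h
    rw [Finset.mem_coe, Finset.mem_sdiff, mem_bad, mem_bad] at ha hb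
    have ha4 : a ∈ good G A := by
      by_contra h
      exact ha.2 ⟨ha.1.1, h⟩
    have hb4 : b ∈ good G A := by
      by_contra h
      exact hb.2 ⟨hb.1.1, h⟩
    rw [← sh_sh hG ha4, ← sh_sh hG hb4, h]

theorem card_bad_pow (g : ℚ) (hg : g ≠ 0) (A : Finset ℤ) (u : ℕ) :
    (bad (g ^ u) A).card ≤ u * (bad g A).card := by
  induction u with
  | zero =>
    have : bad (g ^ 0) A = ∅ := by
      unfold bad
      rw [Finset.filter_eq_empty_iff]
      intro a ha h
      exact h a ha (by simp)
    rw [this]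
    simp
  | succ u ih =>
    rw [pow_succ']
    refine (card_bad_mul _ _ (pow_ne_zero _ hg) A).trans ?_
    rw [Nat.succ_mul]
    exact Nat.add_le_add_right ih _

/-- the modulus `m'` at `G d` corresponds to the modulus `m` at `d` -/
def Matched (m' m : ℕ) (G : ℚ) : Prop :=
  ∀ d d' : ℤ, (d' : ℚ) = G * d → ((m' : ℤ) ∣ d' ↔ (m : ℤ) ∣ d)

theorem card_good_cl {G : ℚ} (hG : G ≠ 0) {m' m : ℕ} (h : Matched m' m G) (A : Finset ℤ)
    (y y' : ℤ) (hy : (y' : ℚ) = G * y) :
    ((cl m' A y').filter (fun a => a ∈ good G⁻¹ A)).card =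
      ((cl m A y).filter (fun a => a ∈ good G A)).card := by
  have key : ∀ a : ℤ, a ∈ good G A → ((m' : ℤ) ∣ sh G a - y' ↔ (m : ℤ) ∣ a - y) := by
    intro a ha
    rw [mem_good] at ha
    refine h _ _ ?_
    push_cast
    rw [ha.2.2, hy]
    ring
  refine Finset.card_nbij' (sh G⁻¹) (sh G) ?_ ?_ ?_ ?_
  · intro a ha
    rw [Finset.mem_coe, Finset.mem_filter, mem_cl] at ha ⊢
    have h1 := sh_mem_good (inv_ne_zero hG) ha.2
    rw [inv_inv] at h1
    have h2 := sh_sh (inv_ne_zero hG) ha.2
    rw [inv_inv] at h2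
    refine ⟨⟨good_subset _ _ h1, ?_⟩, h1⟩
    rw [← key _ h1, h2]
    exact ha.1.2
  · intro a ha
    rw [Finset.mem_coe, Finset.mem_filter, mem_cl] at ha ⊢
    have h1 := sh_mem_good hG ha.2
    exact ⟨⟨good_subset _ _ h1, (key a ha.2).2 ha.1.2⟩, h1⟩
  · intro a ha
    rw [Finset.mem_coe, Finset.mem_filter] at ha
    have := sh_sh (inv_ne_zero hG) ha.2
    rwa [inv_inv] at this
  · intro a ha
    rw [Finset.mem_coe, Finset.mem_filter] at ha
    exact sh_sh hG ha.2

/-- Markov's inequality for the classes -/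
theorem markov (m : ℕ) (A B : Finset ℤ) (hBA : B ⊆ A) (κ : ℝ) (hκ : 0 ≤ κ) :
    κ * ((A.filter (fun y => κ * (cl m A y).card <
      ((cl m A y).filter (fun a => a ∈ B)).card)).card : ℝ) ≤ B.card := by
  classical
  have h1 := avg_cl m A (fun a => if a ∈ B then (1 : ℝ) else 0)
  have h2 : ∑ x ∈ A, (if x ∈ B then (1 : ℝ) else 0) = B.card := by
    rw [Finset.sum_boole, Finset.filter_mem_eq_inter, Finset.inter_eq_right.2 hBA]
  have h3 : ∀ x ∈ A, (∑ y ∈ cl m A x, (if y ∈ B then (1 : ℝ) else 0)) / (cl m A x).card =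
      ((cl m A x).filter (fun a => a ∈ B)).card / (cl m A x).card := by
    intro x _
    rw [Finset.sum_boole]
  rw [Finset.sum_congr rfl h3, h2] at h1
  rw [← h1, mul_comm, ← nsmul_eq_mul, ← Finset.sum_const]
  refine le_trans (Finset.sum_le_sum (g := fun x =>
    (((cl m A x).filter (fun a => a ∈ B)).card : ℝ) / (cl m A x).card) fun x hx => ?_)
    (Finset.sum_le_sum_of_subset_of_nonneg (Finset.filter_subset _ _)
      fun x hx _ => by (clear * -; positivity))
  rw [Finset.mem_filter] at hx
  rw [le_div_iff₀ (cl_card_pos hx.1)]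
  exact hx.2.le

theorem card_split (B C A : Finset ℤ) (h : ∀ a ∈ A, a ∈ B ∨ a ∈ C) (D : Finset ℤ)
    (hD : D ⊆ A) : (D.card : ℝ) ≤ (D.filter (fun a => a ∈ B)).card +
      (D.filter (fun a => a ∈ C)).card := by
  classical
  have h1 : D ⊆ D.filter (fun a => a ∈ B) ∪ D.filter (fun a => a ∈ C) := by
    intro a ha
    rw [Finset.mem_union, Finset.mem_filter, Finset.mem_filter]
    rcases h a (hD ha) with h2 | h2
    · exact Or.inl ⟨ha, h2⟩
    · exact Or.inr ⟨ha, h2⟩
  have h2 := (Finset.card_le_card h1).trans (Finset.card_union_le _ _)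
  exact_mod_cast h2

theorem good_or_bad (G : ℚ) (A : Finset ℤ) : ∀ a ∈ A, a ∈ good G A ∨ a ∈ bad G A := by
  intro a ha
  by_cases h : a ∈ good G A
  · exact Or.inl h
  · exact Or.inr (mem_bad.2 ⟨ha, h⟩)

theorem cl_subset (m : ℕ) (A : Finset ℤ) (y : ℤ) : cl m A y ⊆ A := Finset.filter_subset _ _

/-- the digit at a level below the shift is rarely spread -/
theorem nS_low {G : ℚ} (hG : G ≠ 0) {m' m q : ℕ} (h1 : Matched m' m G)
    (h2 : Matched (m' * q) m G) (A : Finset ℤ) (t : ℝ) (ht0 : 0 < t) (ht1 : t ≤ 1) :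
    t * nS m' q t A ≤ 2 * (bad G A).card := by
  classical
  have hsub : A.filter (fun x => Spread m' q t A x) ⊆ bad G⁻¹ A ∪
      A.filter (fun y => t * (cl m' A y).card <
        ((cl m' A y).filter (fun a => a ∈ bad G⁻¹ A)).card) := by
    intro y' hy'
    rw [Finset.mem_filter] at hy'
    rw [Finset.mem_union, Finset.mem_filter]
    rcases good_or_bad G⁻¹ A y' hy'.1 with hg | hb
    · refine Or.inr ⟨hy'.1, ?_⟩
      have h3 := hy'.2 y' (self_mem_cl hy'.1)
      have h4 := card_split _ _ A (good_or_bad G⁻¹ A) (cl m' A y') (cl_subset _ _ _)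
      have h5 : (cl m' A y').filter (fun a => a ∈ good G⁻¹ A) ⊆ cl (m' * q) A y' := by
        intro a ha
        rw [Finset.mem_filter, mem_cl] at ha
        rw [mem_cl]
        refine ⟨ha.1.1, ?_⟩
        have e1 := (mem_good.1 ha.2).2.2
        have e2 := (mem_good.1 hg).2.2
        have e3 : ((a - y' : ℤ) : ℚ) = G * ((sh G⁻¹ a - sh G⁻¹ y' : ℤ) : ℚ) := by
          push_cast
          rw [e1, e2, ← mul_sub, mul_inv_cancel_left₀ hG]
        rw [h2 _ _ e3, ← h1 _ _ e3]
        exact ha.1.2
      have h6 : (((cl m' A y').filter (fun a => a ∈ good G⁻¹ A)).card : ℝ) ≤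
          (cl (m' * q) A y').card := by
        exact_mod_cast Finset.card_le_card h5
      linarith only [h3, h4, h6]
    · exact Or.inl hb
  have h3 : (nS m' q t A : ℝ) ≤ (bad G⁻¹ A).card +
      (A.filter (fun y => t * (cl m' A y).card <
        ((cl m' A y).filter (fun a => a ∈ bad G⁻¹ A)).card)).card := by
    have h4 := (Finset.card_le_card hsub).trans (Finset.card_union_le _ _)
    unfold nS
    have h5 : (A.filter (fun x => Spread m' q t A x)).card ≤ (bad G⁻¹ A).card +
      (A.filter (fun y => t * (cl m' A y).card <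
        ((cl m' A y).filter (fun a => a ∈ bad G⁻¹ A)).card)).card := h4
    exact_mod_cast h5
  have h4 := markov m' A (bad G⁻¹ A) (bad_subset _ _) t ht0.le
  have h5 := mul_le_mul_of_nonneg_left h3 ht0.le
  rw [mul_add] at h5
  have h6 : t * ((bad G⁻¹ A).card : ℝ) ≤ (bad G⁻¹ A).card :=
    mul_le_of_le_one_left (Nat.cast_nonneg _) ht1
  rw [card_bad_inv hG] at h4 h5 h6
  linarith only [h4, h5, h6]

/-- the digit at a level above the shift: spread nodes move -/
theorem nS_high {G : ℚ} (hG : G ≠ 0) {m' m q : ℕ} (h1 : Matched m' m G)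
    (h2 : Matched (m' * q) (m * q) G) (A : Finset ℤ) (t : ℝ) (ht0 : 0 < t) (ht1 : t ≤ 1) :
    t * nS m' q t A ≤ t * nS m q (t / 2) A + 13 * (bad G A).card := by
  classical
  obtain ⟨κ, hκ⟩ : ∃ κ : ℝ, κ = t / 6 := ⟨_, rfl⟩
  have hκ0 : 0 < κ := by rw [hκ]; (clear * - ht0; positivity)
  obtain ⟨S1, hS1⟩ : ∃ S1 : Finset ℤ, S1 = A.filter (fun y => κ * (cl m' A y).card <
        ((cl m' A y).filter (fun a => a ∈ bad G⁻¹ A)).card) := ⟨_, rfl⟩
  obtain ⟨S2, hS2⟩ : ∃ S2 : Finset ℤ, S2 = A.filter (fun y => κ * (cl m A y).card <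
        ((cl m A y).filter (fun a => a ∈ bad G A)).card) := ⟨_, rfl⟩
  obtain ⟨S3, hS3⟩ : ∃ S3 : Finset ℤ, S3 = A.filter (fun x => Spread m q (t / 2) A x) :=
    ⟨_, rfl⟩
  have hsub : A.filter (fun x => Spread m' q t A x) ⊆ bad G⁻¹ A ∪ S1 ∪
      ((good G⁻¹ A).filter (fun y' => sh G⁻¹ y' ∈ S2) ∪
       (good G⁻¹ A).filter (fun y' => sh G⁻¹ y' ∈ S3)) := by
    intro y' hy'
    rw [Finset.mem_filter] at hy'
    rw [Finset.mem_union, Finset.mem_union, Finset.mem_union, Finset.mem_filter,
      Finset.mem_filter]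
    rcases good_or_bad G⁻¹ A y' hy'.1 with hg | hb
    · by_cases hs1 : y' ∈ S1
      · exact Or.inl (Or.inr hs1)
      by_cases hs2 : sh G⁻¹ y' ∈ S2
      · exact Or.inr (Or.inl ⟨hg, hs2⟩)
      refine Or.inr (Or.inr ⟨hg, ?_⟩)
      obtain ⟨y, hy⟩ : ∃ y : ℤ, y = sh G⁻¹ y' := ⟨_, rfl⟩
      rw [← hy] at hs2 ⊢
      have hyA : y ∈ A := by rw [hy]; exact (mem_good.1 hg).2.1
      have hyy : (y' : ℚ) = G * y := by
        rw [hy, (mem_good.1 hg).2.2, mul_inv_cancel_left₀ hG]
      have hs1' : (((cl m' A y').filter (fun a => a ∈ bad G⁻¹ A)).card : ℝ) ≤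
          κ * (cl m' A y').card := by
        by_contra h
        push Not at h
        exact hs1 (by rw [hS1, Finset.mem_filter]; exact ⟨hy'.1, h⟩)
      have hs2' : (((cl m A y).filter (fun a => a ∈ bad G A)).card : ℝ) ≤
          κ * (cl m A y).card := by
        by_contra h
        push Not at h
        exact hs2 (by rw [hS2, Finset.mem_filter]; exact ⟨hyA, h⟩)
      rw [hS3, Finset.mem_filter]
      refine ⟨hyA, ?_⟩
      intro z hz
      -- the class of `z` modulo `m * q`
      have c1 := card_good_cl hG h1 A y y' hyy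
      have c2 := card_split _ _ A (good_or_bad G⁻¹ A) (cl m' A y') (cl_subset _ _ _)
      have c3 : (((cl m A y).filter (fun a => a ∈ good G A)).card : ℝ) ≤ (cl m A y).card := by
        exact_mod_cast Finset.card_le_card (Finset.filter_subset _ _)
      have c4 : (1 - κ) * ((cl m' A y').card : ℝ) ≤ (cl m A y).card := by
        have : (((cl m' A y').filter (fun a => a ∈ good G⁻¹ A)).card : ℝ) =
          ((cl m A y).filter (fun a => a ∈ good G A)).card := by exact_mod_cast c1
        linarith only [hs1', c2, c3, this]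
      have c5 := card_split _ _ A (good_or_bad G A) (cl (m * q) A z) (cl_subset _ _ _)
      have hzcl : cl (m * q) A z ⊆ cl m A y := by
        refine (cl_anti (Dvd.intro q rfl) A z).trans ?_
        rw [cl_eq (mem_cl.1 hz).2]
      have c6 : (((cl (m * q) A z).filter (fun a => a ∈ bad G A)).card : ℝ) ≤
          ((cl m A y).filter (fun a => a ∈ bad G A)).card := by
        exact_mod_cast Finset.card_le_card (Finset.filter_subset_filter _ hzcl)
      have hc'pos := cl_card_pos (m := m') hy'.1
      have hcpos := cl_card_pos (m := m) hyA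
      -- the good part
      have c7 : (((cl (m * q) A z).filter (fun a => a ∈ good G A)).card : ℝ) ≤
          (1 - t) * (cl m' A y').card := by
        rcases Finset.eq_empty_or_nonempty
          ((cl (m * q) A z).filter (fun a => a ∈ good G A)) with he | ⟨w, hw⟩
        · rw [he]
          simp only [Finset.card_empty, Nat.cast_zero]
          exact mul_nonneg (by linarith only [ht1]) hc'pos.le
        · rw [Finset.mem_filter, mem_cl] at hw
          obtain ⟨⟨hwA, hwz⟩, hwg⟩ := hw
          have hwg' := mem_good.1 hwg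
          have d1 := card_good_cl hG h2 A w (sh G w) hwg'.2.2
          have d2 : cl (m * q) A z = cl (m * q) A w := (cl_eq hwz).symm
          have d3 : sh G w ∈ cl m' A y' := by
            rw [mem_cl]
            refine ⟨hwg'.2.1, ?_⟩
            have e3 : ((sh G w - y' : ℤ) : ℚ) = G * ((w - y : ℤ) : ℚ) := by
              push_cast
              rw [hwg'.2.2, hyy]
              ring
            rw [h1 _ _ e3]
            have e4 : w ∈ cl m A y := hzcl (by rw [mem_cl]; exact ⟨hwA, hwz⟩)
            exact (mem_cl.1 e4).2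
          have d4 := hy'.2 _ d3
          have d5 : (((cl (m' * q) A (sh G w)).filter (fun a => a ∈ good G⁻¹ A)).card : ℝ) ≤
              (cl (m' * q) A (sh G w)).card := by
            exact_mod_cast Finset.card_le_card (Finset.filter_subset _ _)
          rw [d2]
          have d6 : (((cl (m' * q) A (sh G w)).filter (fun a => a ∈ good G⁻¹ A)).card : ℝ) =
            ((cl (m * q) A w).filter (fun a => a ∈ good G A)).card := by exact_mod_cast d1
          linarith only [d4, d5, d6]
      -- conclusion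
      have c8 : ((cl (m * q) A z).card : ℝ) ≤
          (1 - t) * (cl m' A y').card + κ * (cl m A y).card := by linarith only [hs2', c5, c6, c7]
      have c9 : (1 - t) * ((cl m' A y').card : ℝ) ≤
          (1 - t) * (1 + 2 * κ) * (cl m A y).card := by
        rw [mul_assoc]
        refine mul_le_mul_of_nonneg_left ?_ (by linarith only [ht1])
        have hk : κ ≤ 1 / 2 := by rw [hκ]; linarith only [ht1]
        have e1 : ((cl m' A y').card : ℝ) ≤ (1 + 2 * κ) * ((1 - κ) * (cl m' A y').card) := by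
          have : 0 ≤ κ * (1 - 2 * κ) * (cl m' A y').card := by
            apply mul_nonneg (mul_nonneg hκ0.le (by linarith only [hk])) hc'pos.le
          linarith only [this]
        exact e1.trans (mul_le_mul_of_nonneg_left c4 (by linarith only [hκ0]))
      have c10 : (1 - t) * (1 + 2 * κ) * (cl m A y).card + κ * (cl m A y).card <
          (1 - t / 2) * ((cl m A y).card : ℝ) := by
        rw [← add_mul]
        refine mul_lt_mul_of_pos_right ?_ hcpos
        rw [hκ]
        (clear * - hκ hκ0; nlinarith only [hκ, hκ0])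
      linarith only [c8, c9, c10]
    · exact Or.inl (Or.inl hb)
  -- counting
  have hinj : ∀ S : Finset ℤ, ((good G⁻¹ A).filter (fun y' => sh G⁻¹ y' ∈ S)).card ≤
      S.card := by
    intro S
    refine Finset.card_le_card_of_injOn (sh G⁻¹) ?_ ?_
    · intro a ha
      exact (Finset.mem_filter.1 ha).2
    · intro a ha b hb hab
      have ha' := sh_sh (inv_ne_zero hG) (Finset.mem_filter.1 ha).1
      have hb' := sh_sh (inv_ne_zero hG) (Finset.mem_filter.1 hb).1
      rw [← ha', ← hb', hab]
  have hnS : nS m' q t A ≤ (bad G⁻¹ A).card + S1.card + (S2.card + nS m q (t / 2) A) := by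
    have e1 := (Finset.card_le_card hsub).trans (Finset.card_union_le _ _)
    have e2 := Finset.card_union_le (bad G⁻¹ A) S1
    have e3 := Finset.card_union_le ((good G⁻¹ A).filter (fun y' => sh G⁻¹ y' ∈ S2))
      ((good G⁻¹ A).filter (fun y' => sh G⁻¹ y' ∈ S3))
    have e4 := hinj S2
    have e5 := hinj S3
    have e6 : S3.card = nS m q (t / 2) A := by
      rw [hS3]
      unfold nS
      rfl
    have e7 : (A.filter (fun x => Spread m' q t A x)).card = nS m' q t A := by
      unfold nS
      rfl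
    rw [e7] at e1
    omega
  have hnS' : (nS m' q t A : ℝ) ≤ (bad G A).card + S1.card + (S2.card +
      nS m q (t / 2) A) := by
    rw [← card_bad_inv hG]
    exact_mod_cast hnS
  have m1 := markov m' A (bad G⁻¹ A) (bad_subset _ _) κ hκ0.le
  have m2 := markov m A (bad G A) (bad_subset _ _) κ hκ0.le
  rw [← hS1, card_bad_inv hG, hκ] at m1
  rw [← hS2, hκ] at m2
  have h3 := mul_le_mul_of_nonneg_left hnS' ht0.le
  have h6 : t * ((bad G A).card : ℝ) ≤ (bad G A).card :=
    mul_le_of_le_one_left (Nat.cast_nonneg _) ht1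
  linarith only [m1, m2, h3, h6]

end Pool.Agent.Helper28.LN
end

/- Helper24.DI.H15.GPQ.Opt -/
section
set_option autoImplicit false

/-!
# Project GL++ (MP_120218), Opt: the extremal sets (copies of the lemmas of GL.Opt and LN.Sharp)
-/

namespace Pool.Agent.Helper15.GPQ

open Finset Pool.Agent.Helper28.LN

/-- `AP` -/
def prd (A : Finset ℤ) (P : Finset ℚ) : Finset ℚ :=
  Finset.image₂ (fun (a : ℤ) (s : ℚ) => (a : ℚ) * s) A P

/-- signs -/

theorem opt_fac {r : ℕ} (p : Fin r → ℕ) (hp : ∀ i, (p i).Prime) (hinj : Function.Injective p)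
    (m : ℕ) (hm0 : m ≠ 0) (hm : ∀ i, ¬ p i ∣ m) (e : Fin r → ℕ) (i : Fin r) :
    (m * ∏ j, p j ^ e j).factorization (p i) = e i := by
  classical
  have h0 : ∀ j, p j ^ e j ≠ 0 := fun j => pow_ne_zero _ (hp j).ne_zero
  have hprod : (∏ j, p j ^ e j) ≠ 0 := Finset.prod_ne_zero_iff.2 fun j _ => h0 j
  rw [Nat.factorization_mul hm0 hprod, Finsupp.add_apply,
    Nat.factorization_eq_zero_of_not_dvd (hm i), zero_add,
    Nat.factorization_prod (fun j _ => h0 j), Finsupp.finsetSum_apply]
  have h1 : ∀ j ∈ (Finset.univ : Finset (Fin r)),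
      ((p j ^ e j).factorization) (p i) = if j = i then e j else 0 := by
    intro j _
    rw [Nat.factorization_pow, Finsupp.smul_apply, (hp j).factorization, Finsupp.single_apply]
    by_cases h : j = i
    · rw [if_pos (by rw [h]), if_pos h]
      simp
    · rw [if_neg (fun h' => h (hinj h')), if_neg h]
      simp
  rw [Finset.sum_congr rfl h1, Finset.sum_ite_eq' Finset.univ i e, if_pos (Finset.mem_univ i)]

/-- the multidimensional geometric progression with natural exponents -/
def gprogN {r : ℕ} (g : Fin r → ℚ) (L : ℕ) : Finset ℚ :=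
  (Fintype.piFinset (fun _ : Fin r => Finset.range L)).image (fun e => ∏ i, g i ^ e i)

/-- the multidimensional geometric progression -/
noncomputable def gprog {r : ℕ} (g : Fin r → ℚ) (L : ℕ) : Finset ℚ :=
  (Fintype.piFinset (fun _ : Fin r => Finset.Icc (-(L : ℤ)) (L : ℤ))).image
    (fun e => ∏ i, g i ^ e i)

theorem gprog_eq {r : ℕ} (g : Fin r → ℚ) (hg : ∀ i, g i ≠ 0) (L : ℕ) :
    gprog g L = (gprogN g (2 * L + 1)).image (fun s => s * (∏ i, g i ^ L)⁻¹) := by
  classical
  have hL : (∏ i, g i ^ L) ≠ 0 := Finset.prod_ne_zero_iff.2 fun i _ => pow_ne_zero _ (hg i)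
  ext x
  unfold gprog gprogN
  rw [Finset.mem_image, Finset.mem_image]
  constructor
  · rintro ⟨e, he, rfl⟩
    rw [Fintype.mem_piFinset] at he
    refine ⟨∏ i, g i ^ (e i + L).toNat, Finset.mem_image.2 ⟨fun i => (e i + L).toNat, ?_, rfl⟩, ?_⟩
    · rw [Fintype.mem_piFinset]
      intro i
      have h1 := Finset.mem_Icc.1 (he i)
      rw [Finset.mem_range]
      omega
    · rw [← div_eq_mul_inv, ← Finset.prod_div_distrib]
      refine Finset.prod_congr rfl fun i _ => ?_
      have h1 := Finset.mem_Icc.1 (he i)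
      have h2 : (((e i + L).toNat : ℕ) : ℤ) = e i + L := Int.toNat_of_nonneg (by omega)
      rw [← zpow_natCast, ← zpow_natCast, ← zpow_sub₀ (hg i), h2]
      congr 1
      ring
  · rintro ⟨y, hy, rfl⟩
    obtain ⟨e, he, rfl⟩ := Finset.mem_image.1 hy
    rw [Fintype.mem_piFinset] at he
    refine ⟨fun i => (e i : ℤ) - L, ?_, ?_⟩
    · rw [Fintype.mem_piFinset]
      intro i
      have h1 := Finset.mem_range.1 (he i)
      rw [Finset.mem_Icc]
      omega
    · rw [← div_eq_mul_inv, ← Finset.prod_div_distrib]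
      refine Finset.prod_congr rfl fun i _ => ?_
      rw [zpow_sub₀ (hg i), zpow_natCast, zpow_natCast]

theorem card_gprog_eq {r : ℕ} (g : Fin r → ℚ) (hg : ∀ i, g i ≠ 0) (L : ℕ) :
    (gprog g L).card = (gprogN g (2 * L + 1)).card := by
  classical
  have hL : (∏ i, g i ^ L) ≠ 0 := Finset.prod_ne_zero_iff.2 fun i _ => pow_ne_zero _ (hg i)
  rw [gprog_eq g hg, Finset.card_image_of_injective]
  exact mul_left_injective₀ (inv_ne_zero hL)

theorem card_prd_eq {r : ℕ} (g : Fin r → ℚ) (hg : ∀ i, g i ≠ 0) (L : ℕ) (A : Finset ℤ) :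
    (prd A (gprog g L)).card ≤ (prd A (gprogN g (2 * L + 1))).card := by
  classical
  have hsub : prd A (gprog g L) ⊆
      (prd A (gprogN g (2 * L + 1))).image (fun s => s * (∏ i, g i ^ L)⁻¹) := by
    intro z hz
    rw [gprog_eq g hg] at hz
    unfold prd at hz
    obtain ⟨a, ha, s, hs, rfl⟩ := Finset.mem_image₂.1 hz
    obtain ⟨t, ht, rfl⟩ := Finset.mem_image.1 hs
    refine Finset.mem_image.2 ⟨(a : ℚ) * t, Finset.mem_image₂_of_mem ha ht, ?_⟩
    ring
  exact (Finset.card_le_card hsub).trans Finset.card_image_le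

/-- the extremal set -/
def optA {r : ℕ} (p : Fin r → ℕ) (D T n : ℕ) : Finset ℤ :=
  (Finset.range T ×ˢ Fintype.piFinset (fun _ : Fin r => Finset.range n)).image
    (fun x : ℕ × (Fin r → ℕ) => (((1 + D * x.1) * ∏ i, p i ^ x.2 i : ℕ) : ℤ))

theorem card_optA {r : ℕ} (p : Fin r → ℕ) (hp : ∀ i, (p i).Prime) (hinj : Function.Injective p)
    (D T n : ℕ) (hD : ∀ i, p i ∣ D) (hD0 : 0 < D) : (optA p D T n).card = T * n ^ r := by
  classical
  unfold optA
  rw [Finset.card_image_of_injOn, Finset.card_product, Finset.card_range, Fintype.card_piFinset]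
  · simp
  · rintro ⟨t, e⟩ _ ⟨t', e'⟩ _ h
    have h1 : (1 + D * t) * ∏ i, p i ^ e i = (1 + D * t') * ∏ i, p i ^ e' i := by
      have h' : (((1 + D * t) * ∏ i, p i ^ e i : ℕ) : ℤ) =
          (((1 + D * t') * ∏ i, p i ^ e' i : ℕ) : ℤ) := h
      exact Int.natCast_inj.1 h'
    have hnd : ∀ (t : ℕ) (i : Fin r), ¬ p i ∣ 1 + D * t := by
      intro t i hd
      have h2 : p i ∣ 1 := (Nat.dvd_add_left ((hD i).mul_right t)).1 hd
      exact (hp i).one_lt.ne' (Nat.dvd_one.1 h2)
    have he : e = e' := by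
      funext i
      have h2 := opt_fac p hp hinj (1 + D * t) (by omega) (hnd t) e i
      have h3 := opt_fac p hp hinj (1 + D * t') (by omega) (hnd t') e' i
      rw [← h2, ← h3, h1]
    subst he
    have hpos : 0 < ∏ i, p i ^ e i := Finset.prod_pos fun i _ => pow_pos (hp i).pos _
    have h4 := Nat.eq_of_mul_eq_mul_right hpos h1
    have h5 : t = t' := Nat.eq_of_mul_eq_mul_left hD0 (by omega)
    rw [h5]

theorem card_gprogN {r : ℕ} (p : Fin r → ℕ) (hp : ∀ i, (p i).Prime)
    (hinj : Function.Injective p) (L : ℕ) : (gprogN (fun i => (p i : ℚ)) L).card = L ^ r := by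
  classical
  unfold gprogN
  rw [Finset.card_image_of_injOn, Fintype.card_piFinset]
  · simp
  · intro e _ e' _ h
    have h1 : 1 * ∏ i, p i ^ e i = 1 * ∏ i, p i ^ e' i := by
      rw [one_mul, one_mul]
      have h' : ∏ i, ((p i : ℚ)) ^ e i = ∏ i, ((p i : ℚ)) ^ e' i := h
      exact_mod_cast h'
    have hnd : ∀ i : Fin r, ¬ p i ∣ 1 := by
      intro i hd
      exact (hp i).one_lt.ne' (Nat.dvd_one.1 hd)
    funext i
    have h2 := opt_fac p hp hinj 1 one_ne_zero hnd e i
    have h3 := opt_fac p hp hinj 1 one_ne_zero hnd e' i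
    rw [← h2, ← h3, h1]

theorem card_prd_opt {r : ℕ} (p : Fin r → ℕ) (D T n L : ℕ) :
    (prd (optA p D T n) (gprogN (fun i => (p i : ℚ)) (2 * L + 1))).card ≤
      T * (n + 2 * L) ^ r := by
  classical
  have hsub : prd (optA p D T n) (gprogN (fun i => (p i : ℚ)) (2 * L + 1)) ⊆
      (Finset.range T ×ˢ Fintype.piFinset (fun _ : Fin r => Finset.range (n + 2 * L))).image
        (fun x : ℕ × (Fin r → ℕ) => (((1 + D * x.1) * ∏ i, p i ^ x.2 i : ℕ) : ℚ)) := by
    intro z hz
    unfold prd optA gprogN at hz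
    obtain ⟨a, ha, s, hs, rfl⟩ := Finset.mem_image₂.1 hz
    obtain ⟨⟨t, e⟩, hte, rfl⟩ := Finset.mem_image.1 ha
    obtain ⟨f, hf, rfl⟩ := Finset.mem_image.1 hs
    rw [Finset.mem_product, Fintype.mem_piFinset] at hte
    rw [Fintype.mem_piFinset] at hf
    refine Finset.mem_image.2 ⟨(t, fun i => e i + f i), ?_, ?_⟩
    · rw [Finset.mem_product, Fintype.mem_piFinset]
      refine ⟨hte.1, fun i => ?_⟩
      have h1 := Finset.mem_range.1 (hte.2 i)
      have h2 := Finset.mem_range.1 (hf i)
      have h1' : e i < n := h1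
      have h3 : e i + f i < n + 2 * L := by omega
      exact Finset.mem_range.2 h3
    · push_cast
      rw [mul_assoc, ← Finset.prod_mul_distrib]
      congr 1
      exact Finset.prod_congr rfl fun i _ => by rw [pow_add]
  refine (Finset.card_le_card hsub).trans (Finset.card_image_le.trans ?_)
  rw [Finset.card_product, Finset.card_range, Fintype.card_piFinset]
  simp

/-- every element of the extremal set has many neighbours -/
theorem rich_opt {r : ℕ} (p : Fin r → ℕ) (hp : ∀ i, (p i).Prime) (hinj : Function.Injective p)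
    (D T n L : ℕ) (hnL : n ≤ L) (a : ℤ) (ha : a ∈ optA p D T n) :
    n ^ r ≤ (rich (optA p D T n) (gprog (fun i => (p i : ℚ)) L) a).card := by
  classical
  unfold optA at ha
  obtain ⟨⟨t, e⟩, hte, rfl⟩ := Finset.mem_image.1 ha
  rw [Finset.mem_product, Fintype.mem_piFinset] at hte
  have hcard : (Fintype.piFinset (fun _ : Fin r => Finset.range n)).card = n ^ r := by
    rw [Fintype.card_piFinset]
    simp
  rw [← hcard]
  refine Finset.card_le_card_of_injOn
    (fun f : Fin r → ℕ => (((1 + D * t) * ∏ i, p i ^ f i : ℕ) : ℤ)) ?_ ?_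
  · intro f hf
    have hf' := Finset.mem_coe.1 hf
    rw [Fintype.mem_piFinset] at hf'
    refine Finset.mem_coe.2 (mem_rich.2 ⟨?_, ∏ i, (p i : ℚ) ^ ((f i : ℤ) - e i), ?_, ?_⟩)
    · unfold optA
      refine Finset.mem_image.2 ⟨(t, f), ?_, rfl⟩
      rw [Finset.mem_product, Fintype.mem_piFinset]
      exact ⟨hte.1, hf'⟩
    · unfold gprog
      refine Finset.mem_image.2 ⟨fun i => (f i : ℤ) - e i, ?_, rfl⟩
      rw [Fintype.mem_piFinset]
      intro i
      have h1 := Finset.mem_range.1 (hte.2 i)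
      have h2 := Finset.mem_range.1 (hf' i)
      have h1' : e i < n := h1
      rw [Finset.mem_Icc]
      omega
    · push_cast
      rw [mul_assoc, ← Finset.prod_mul_distrib]
      congr 1
      refine Finset.prod_congr rfl fun i _ => ?_
      have h0 : (p i : ℚ) ≠ 0 := Nat.cast_ne_zero.2 (hp i).ne_zero
      rw [zpow_sub₀ h0, zpow_natCast, zpow_natCast]
      (clear * - h0; field_simp)
  · intro f _ f' _ h
    have h1 : (1 + D * t) * ∏ i, p i ^ f i = (1 + D * t) * ∏ i, p i ^ f' i := by
      have h' : (((1 + D * t) * ∏ i, p i ^ f i : ℕ) : ℤ) =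
          (((1 + D * t) * ∏ i, p i ^ f' i : ℕ) : ℤ) := h
      exact Int.natCast_inj.1 h'
    have h2 := Nat.eq_of_mul_eq_mul_left (by omega) h1
    have hnd : ∀ i : Fin r, ¬ p i ∣ 1 := by
      intro i hd
      exact (hp i).one_lt.ne' (Nat.dvd_one.1 hd)
    funext i
    have h3 := opt_fac p hp hinj 1 one_ne_zero hnd f i
    have h4 := opt_fac p hp hinj 1 one_ne_zero hnd f' i
    rw [← h3, ← h4, h2]

theorem sum_optA {r : ℕ} (p : Fin r → ℕ) (hp : ∀ i, (p i).Prime) (D T n : ℕ)
    (hD : D = ∏ i, p i) (hD0 : 0 < D) (k : ℕ) :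
    ((Fintype.piFinset (fun _ : Fin k => optA p D T n)).image
      (fun f : Fin k → ℤ => ∑ i, f i)).card ≤ k * (T * D ^ (n + 1)) + 1 := by
  classical
  have hmem : ∀ a ∈ optA p D T n, 0 ≤ a ∧ a ≤ ((T * D ^ (n + 1) : ℕ) : ℤ) := by
    intro a ha
    unfold optA at ha
    obtain ⟨⟨t, e⟩, hte, rfl⟩ := Finset.mem_image.1 ha
    rw [Finset.mem_product, Fintype.mem_piFinset] at hte
    refine ⟨by (clear * -; positivity), ?_⟩
    have ht := Finset.mem_range.1 hte.1
    have h1 : ∏ i, p i ^ e i ≤ D ^ n := by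
      rw [hD, ← Finset.prod_pow]
      refine Finset.prod_le_prod' fun i _ => ?_
      exact Nat.pow_le_pow_right (hp i).pos (Finset.mem_range.1 (hte.2 i)).le
    have h2 : 1 + D * t ≤ T * D := by
      have ht' : t < T := ht
      calc 1 + D * t ≤ D + D * t := by omega
        _ = (t + 1) * D := by ring
        _ ≤ T * D := Nat.mul_le_mul_right _ ht'
    have h3 : (1 + D * t) * ∏ i, p i ^ e i ≤ T * D ^ (n + 1) := by
      calc (1 + D * t) * ∏ i, p i ^ e i ≤ (T * D) * D ^ n := Nat.mul_le_mul h2 h1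
        _ = T * D ^ (n + 1) := by ring
    exact_mod_cast h3
  have hsub : (Fintype.piFinset (fun _ : Fin k => optA p D T n)).image
      (fun f : Fin k → ℤ => ∑ i, f i) ⊆
      Finset.Icc 0 (((k * (T * D ^ (n + 1)) : ℕ) : ℤ)) := by
    intro z hz
    obtain ⟨f, hf, rfl⟩ := Finset.mem_image.1 hz
    rw [Fintype.mem_piFinset] at hf
    rw [Finset.mem_Icc]
    refine ⟨Finset.sum_nonneg fun i _ => (hmem _ (hf i)).1, ?_⟩
    calc ∑ i, f i ≤ ∑ _i : Fin k, ((T * D ^ (n + 1) : ℕ) : ℤ) :=
          Finset.sum_le_sum fun i _ => (hmem _ (hf i)).2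
      _ = ((k * (T * D ^ (n + 1)) : ℕ) : ℤ) := by
          rw [Finset.sum_const, Finset.card_univ, Fintype.card_fin, nsmul_eq_mul]
          push_cast
          ring
  refine (Finset.card_le_card hsub).trans (le_of_eq ?_)
  rw [Int.card_Icc]
  omega

/-- the first `r` primes are at most `4 (r + 1) ^ 2` -/
theorem nth_prime_le (r i : ℕ) (hi : i < r) : Nat.nth Nat.Prime i ≤ 4 * (r + 1) ^ 2 := by
  obtain ⟨m, hm⟩ : ∃ m : ℕ, m = 4 * (r + 1) ^ 2 := ⟨_, rfl⟩
  have h1 := Chebyshev.psi_ge m
  have h2 := Chebyshev.psi_le_primeCounting_mul_log m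
  have hr0 : (0 : ℝ) ≤ r := Nat.cast_nonneg r
  have hmr : (m : ℝ) = 4 * (r + 1) ^ 2 := by rw [hm]; push_cast; ring
  have hm4 : (4 : ℝ) ≤ m := by rw [hmr]; (clear * - hr0; nlinarith only [hr0])
  have hlog2 : (0.69 : ℝ) ≤ Real.log 2 := by
    have := Real.log_two_gt_d9
    (clear * - this; linarith only [this])
  have hlog2' : Real.log 2 ≤ 0.7 := by
    have := Real.log_two_lt_d9
    (clear * - this; linarith only [this])
  have hlogr : Real.log (r + 1) ≤ r := by
    have := Real.log_le_sub_one_of_pos (show (0 : ℝ) < r + 1 by linarith only [])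
    linarith only [this]
  have hlogm : Real.log m = 2 * Real.log 2 + 2 * Real.log (r + 1) := by
    rw [hmr, Real.log_mul (by norm_num) (by (clear * -; positivity)), Real.log_pow]
    have : Real.log 4 = 2 * Real.log 2 := by
      rw [show (4 : ℝ) = 2 ^ 2 by norm_num, Real.log_pow]
      norm_num
    rw [this]
    norm_num
  have hlogm1 : Real.log (m + 1) ≤ Real.log m + 1 / 4 := by
    have h3 : Real.log (m + 1) = Real.log m + Real.log ((m + 1) / m) := by
      rw [Real.log_div (by (clear * - hm4; positivity)) (by positivity)]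
      ring
    have h4 := Real.log_le_sub_one_of_pos (show (0 : ℝ) < (m + 1) / m by (clear * - hm4; positivity))
    have h5 : ((m : ℝ) + 1) / m - 1 ≤ 1 / 4 := by
      rw [add_div, div_self (by (clear * - hm4; positivity))]
      have : (1 : ℝ) / m ≤ 1 / 4 := one_div_le_one_div_of_le (by norm_num) hm4
      linarith only [this]
    linarith only [h3, h4, h5]
  have hcount : r ≤ Nat.primeCounting m := by
    by_contra hcon
    push Not at hcon
    have h3 : (Nat.primeCounting m : ℝ) ≤ r := by exact_mod_cast hcon.le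
    have hlm0 : 0 ≤ Real.log m := Real.log_nonneg (by (clear * - hm4; linarith only [hm4]))
    have h4 : (m : ℝ) * Real.log 2 - Real.log (m + 1) ≤ r * Real.log m :=
      h1.trans (h2.trans (mul_le_mul_of_nonneg_right h3 hlm0))
    have h5 : (m : ℝ) * 0.69 ≤ m * Real.log 2 :=
      mul_le_mul_of_nonneg_left hlog2 (by linarith only [])
    have h6 : (r : ℝ) * Real.log m ≤ r * (1.4 + 2 * r) :=
      mul_le_mul_of_nonneg_left (by rw [hlogm]; linarith only [hlog2', hlogr]) hr0
    have h7 : Real.log m ≤ 1.4 + 2 * r := by rw [hlogm]; linarith only [hlog2', hlogr]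
    rw [hmr] at h5 h4
    (clear * - h1 h2 hmr hlog2' hlogr hlogm hlogm1 h3 hlog2; nlinarith only [h1, h2, hmr, hlog2, hlog2', hlogr, hlogm, hlogm1, h3])
  have h3 : i < Nat.count Nat.Prime (m + 1) := lt_of_lt_of_le hi hcount
  have h4 := Nat.nth_lt_of_lt_count h3
  omega

/-- the number of elements which leave the extremal set -/
theorem bad_optA {r : ℕ} (p : Fin r → ℕ) (D T n : ℕ) (i : Fin r) :
    n * (bad ((p i : ℕ) : ℚ) (optA p D T n)).card ≤ T * n ^ r := by
  classical
  rcases Nat.eq_zero_or_pos n with hn | hn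
  · rw [hn, zero_mul]
    exact Nat.zero_le _
  have hsub : bad ((p i : ℕ) : ℚ) (optA p D T n) ⊆
      (Finset.range T ×ˢ Fintype.piFinset (fun j : Fin r =>
        if j = i then {n - 1} else Finset.range n)).image
      (fun x : ℕ × (Fin r → ℕ) => (((1 + D * x.1) * ∏ i, p i ^ x.2 i : ℕ) : ℤ)) := by
    intro a ha
    unfold bad at ha
    rw [Finset.mem_filter] at ha
    obtain ⟨haA, hb⟩ := ha
    unfold optA at haA
    rw [Finset.mem_image] at haA
    obtain ⟨⟨t, e⟩, hte, rfl⟩ := haA
    rw [Finset.mem_product, Finset.mem_range, Fintype.mem_piFinset] at hte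
    obtain ⟨ht, he⟩ := hte
    simp only [Finset.mem_range] at ht he
    refine Finset.mem_image.2 ⟨(t, e), ?_, rfl⟩
    rw [Finset.mem_product, Fintype.mem_piFinset]
    refine ⟨Finset.mem_range.2 ht, fun j => ?_⟩
    by_cases hj : j = i
    · subst hj
      rw [if_pos rfl, Finset.mem_singleton]
      by_contra hne
      have hlt : e j + 1 < n := by
        have h1 : e j ≠ n - 1 := hne
        have := he j
        omega
      refine hb ((((1 + D * t) * ∏ l, p l ^ (Function.update e j (e j + 1)) l : ℕ) : ℤ)) ?_ ?_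
      · unfold optA
        refine Finset.mem_image.2 ⟨(t, Function.update e j (e j + 1)), ?_, rfl⟩
        rw [Finset.mem_product, Fintype.mem_piFinset]
        refine ⟨Finset.mem_range.2 ht, fun l => ?_⟩
        rw [Finset.mem_range]
        by_cases hl : l = j
        · subst hl
          simp only [Function.update_self]
          exact hlt
        · simp only [Function.update_of_ne hl]
          exact he l
      · have h1 : ∏ l, p l ^ (Function.update e j (e j + 1)) l = p j * ∏ l, p l ^ e l := by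
          rw [← Finset.mul_prod_erase univ _ (Finset.mem_univ j),
            ← Finset.mul_prod_erase univ (fun l => p l ^ e l) (Finset.mem_univ j),
            Function.update_self]
          have h2 : ∏ x ∈ univ.erase j, p x ^ Function.update e j (e j + 1) x =
              ∏ x ∈ univ.erase j, p x ^ e x := by
            refine Finset.prod_congr rfl fun x hx => ?_
            rw [Function.update_of_ne (Finset.ne_of_mem_erase hx)]
          rw [h2, pow_succ]
          ring
        rw [h1]
        push_cast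
        ring
    · rw [if_neg hj]
      exact Finset.mem_range.2 (he j)
  have h1 := (Finset.card_le_card hsub).trans Finset.card_image_le
  rw [Finset.card_product, Finset.card_range, Fintype.card_piFinset] at h1
  have h2 : ∏ j : Fin r, (if j = i then ({n - 1} : Finset ℕ) else Finset.range n).card =
      n ^ (r - 1) := by
    rw [← Finset.mul_prod_erase univ _ (Finset.mem_univ i), if_pos rfl,
      Finset.card_singleton, one_mul]
    have h3 : ∏ x ∈ univ.erase i, (if x = i then ({n - 1} : Finset ℕ) else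
        Finset.range n).card = ∏ _x ∈ univ.erase i, n := by
      refine Finset.prod_congr rfl fun x hx => ?_
      rw [if_neg (Finset.ne_of_mem_erase hx), Finset.card_range]
    rw [h3, Finset.prod_const, Finset.card_erase_of_mem (Finset.mem_univ i), Finset.card_univ,
      Fintype.card_fin]
  rw [h2] at h1
  have hr : 0 < r := lt_of_le_of_lt (Nat.zero_le _) i.2
  calc n * (bad ((p i : ℕ) : ℚ) (optA p D T n)).card ≤ n * (T * n ^ (r - 1)) :=
        Nat.mul_le_mul_left _ h1
    _ = T * (n ^ (r - 1) * n) := by ring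
    _ = T * n ^ r := by rw [← pow_succ, Nat.sub_add_cancel hr]

end Pool.Agent.Helper15.GPQ
end

/- Helper24.DI.H15.GPQ.Fib -/
section
set_option autoImplicit false

/-!
# Project GL++ (MP_120218), Fib: counting fibres of the multiplication map
-/

namespace Pool.Agent.Helper15.GPQ

open Finset

open Classical in
/-- a rational number as a unit -/
noncomputable def ut (x : ℚ) : ℚˣ := if h : x ≠ 0 then Units.mk0 x h else 1

theorem ut_val {x : ℚ} (h : x ≠ 0) : ((ut x : ℚˣ) : ℚ) = x := by
  unfold ut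
  rw [dif_pos h]
  rfl

theorem ut_inj {x y : ℚ} (hx : x ≠ 0) (hy : y ≠ 0) (h : ut x = ut y) : x = y := by
  rw [← ut_val hx, ← ut_val hy, h]

theorem ut_mul {x y : ℚ} (hx : x ≠ 0) (hy : y ≠ 0) : ut (x * y) = ut x * ut y := by
  apply Units.ext
  rw [ut_val (mul_ne_zero hx hy), Units.val_mul, ut_val hx, ut_val hy]

theorem growsB_of_sub (η B : ℝ) (hη : 0 < η) (hη1 : η ≤ 1) (hB : 0 ≤ B) (A A' : Finset ℤ)
    (hA'A : A' ⊆ A) (hA' : A'.Nonempty) (h4 : (A.card : ℝ) ≤ 4 * A'.card)
    (ha : 2 * Real.log 4 ≤ η * Real.log A.card) (hb : (B + 1) * Real.log 4 ≤ Real.log A.card)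
    (hG : GrowsB (η / 2) (B + 1) A') : GrowsB η B A := by
  intro X hX hXB
  have hA'1 : (1 : ℝ) ≤ A'.card := by exact_mod_cast hA'.card_pos
  have hA1 : (1 : ℝ) ≤ A.card := by exact_mod_cast (hA'.mono hA'A).card_pos
  have hX1 : (1 : ℝ) ≤ X.card := by exact_mod_cast hX.card_pos
  have hx : 0 ≤ Real.log X.card := Real.log_nonneg hX1
  have h1 : Real.log A.card ≤ Real.log 4 + Real.log A'.card := by
    rw [← Real.log_mul (by norm_num) (by (clear * - hA'1; linarith only [hA'1]))]
    exact Real.log_le_log (by linarith only [hA1]) h4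
  have hl4 : 0 < Real.log 4 := Real.log_pos (by norm_num)
  have h2 : Real.log X.card ≤ (B + 1) * Real.log A'.card := by
    have h3 := mul_le_mul_of_nonneg_left h1 (show 0 ≤ B + 1 by (clear * - hB; linarith))
    linarith only [hb, hXB, h3]
  have h3 := hG X hX h2
  have h4' : (0 : ℝ) < (Finset.image₂ (fun a b => a + b) X A').card := by
    exact_mod_cast Finset.card_pos.2 (hX.image₂ hA')
  have h5 : ((Finset.image₂ (fun a b => a + b) X A').card : ℝ) ≤
      (Finset.image₂ (fun a b => a + b) X A).card := by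
    exact_mod_cast Finset.card_le_card (Finset.image₂_subset_left hA'A)
  have h6 := Real.log_le_log h4' h5
  refine le_trans ?_ (h3.trans h6)
  have h7 : (1 - η / 2) * (Real.log A.card - Real.log 4) ≤ (1 - η / 2) * Real.log A'.card :=
    mul_le_mul_of_nonneg_left (by linarith only [h1]) (by (clear * - hη1; linarith only [hη1]))
  have h8 : 0 ≤ η * Real.log X.card := mul_nonneg hη.le hx
  have h9 : 0 ≤ η * Real.log 4 := mul_nonneg hη.le hl4.le
  linarith only [ha, h7, h8, h9]

theorem prd_card_mono (A : Finset ℤ) {P Q : Finset ℚ} (h : P ⊆ Q) :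
    (prd A P).card ≤ (prd A Q).card :=
  Finset.card_le_card (Finset.image₂_subset_left h)

/-- counting pairs -/
theorem count_pairs (A A1 : Finset ℤ) (hA1 : A1 ⊆ A) (h0 : (0 : ℤ) ∉ A1) (P Q : Finset ℚ)
    (hQ : Q = P.image (fun s => s⁻¹)) (hP0 : ∀ s ∈ P, s ≠ 0) :
    A1.card * P.card ≤ ∑ z ∈ prd A P, (rich A1 Q z).card := by
  classical
  rw [← Finset.card_product]
  have hmaps : ∀ x ∈ A1 ×ˢ P, (x.1 : ℚ) * x.2 ∈ prd A P := by
    rintro ⟨a, s⟩ hx
    rw [Finset.mem_product] at hx
    exact Finset.mem_image₂_of_mem (hA1 hx.1) hx.2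
  rw [Finset.card_eq_sum_card_fiberwise hmaps]
  refine Finset.sum_le_sum fun z _ => ?_
  refine Finset.card_le_card_of_injOn (fun x => x.1) ?_ ?_
  · rintro ⟨a, s⟩ hx
    have hx' := Finset.mem_filter.1 (Finset.mem_coe.1 hx)
    have hx'' := Finset.mem_product.1 hx'.1
    have hs0 := hP0 s hx''.2
    refine Finset.mem_coe.2 (mem_rich.2 ⟨hx''.1, s⁻¹, ?_, ?_⟩)
    · rw [hQ]
      exact Finset.mem_image_of_mem _ hx''.2
    · have h1 : (a : ℚ) * s = z := hx'.2
      show (a : ℚ) = z * s⁻¹
      rw [← h1]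
      (clear * - hs0; field_simp)
  · rintro ⟨a, s⟩ hx ⟨a', s'⟩ hx' haa
    have hx1 := Finset.mem_filter.1 (Finset.mem_coe.1 hx)
    have hx1' := Finset.mem_filter.1 (Finset.mem_coe.1 hx')
    have haa' : a = a' := haa
    subst haa'
    have h3 : (a : ℚ) * s = (a : ℚ) * s' := hx1.2.trans hx1'.2.symm
    have ha0 : a ≠ 0 := fun h => h0 (h ▸ (Finset.mem_product.1 hx1.1).1)
    have h4 : (a : ℚ) ≠ 0 := by exact_mod_cast ha0
    rw [mul_left_cancel₀ h4 h3]

/-- few rich fibres: many products -/
theorem prd_rank (A : Finset ℤ) (P : Finset ℚ) (hP0 : ∀ s ∈ P, s ≠ 0) (T : ℝ) (hT : 0 ≤ T)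
    (w : ℝ) (hw : ∀ Z : Finset ℚ, (∀ z ∈ Z, T < ((rich A (P.image (fun s => s⁻¹)) z).card : ℝ)) →
      (Z.card : ℝ) ≤ w) :
    (A.card : ℝ) * P.card ≤ (w + 1) * P.card + T * (prd A P).card := by
  classical
  have hcount := count_pairs A (A.erase 0) (Finset.erase_subset _ _) (Finset.notMem_erase _ _)
    P _ rfl hP0
  obtain ⟨Z, hZ⟩ : ∃ Z : Finset ℚ, Z = (prd A P).filter
      (fun z => T < ((rich A (P.image (fun s => s⁻¹)) z).card : ℝ)) := ⟨_, rfl⟩
  have hZw : (Z.card : ℝ) ≤ w := hw Z fun z hz => by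
    rw [hZ, Finset.mem_filter] at hz
    exact hz.2
  have hle : ∀ z, ((rich (A.erase 0) (P.image (fun s => s⁻¹)) z).card : ℝ) ≤
      (rich A (P.image (fun s => s⁻¹)) z).card := by
    intro z
    have h1 : (rich (A.erase 0) (P.image (fun s => s⁻¹)) z).card ≤
        (rich A (P.image (fun s => s⁻¹)) z).card := by
      refine Finset.card_le_card fun a ha => ?_
      obtain ⟨haA, h⟩ := mem_rich.1 ha
      exact mem_rich.2 ⟨Finset.mem_of_mem_erase haA, h⟩
    exact_mod_cast h1
  have hPinv : ((P.image (fun s => s⁻¹)).card : ℝ) ≤ P.card := by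
    exact_mod_cast Finset.card_image_le
  have h3 : (((A.erase 0).card * P.card : ℕ) : ℝ) ≤ w * P.card + T * (prd A P).card := by
    have hP00 : (0 : ℝ) ≤ P.card := Nat.cast_nonneg _
    calc (((A.erase 0).card * P.card : ℕ) : ℝ) ≤
          ((∑ z ∈ prd A P, (rich (A.erase 0) (P.image (fun s => s⁻¹)) z).card : ℕ) : ℝ) := by
            exact_mod_cast hcount
      _ = ∑ z ∈ prd A P, ((rich (A.erase 0) (P.image (fun s => s⁻¹)) z).card : ℝ) := by
            push_cast; rfl
      _ ≤ ∑ z ∈ prd A P, ((if z ∈ Z then (P.card : ℝ) else 0) + T) := by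
            refine Finset.sum_le_sum fun z hz => ?_
            by_cases h : z ∈ Z
            · rw [if_pos h]
              have h4 : ((rich (A.erase 0) (P.image (fun s => s⁻¹)) z).card : ℝ) ≤
                  (P.image (fun s => s⁻¹)).card := by
                exact_mod_cast rich_le _ _ z
              (clear * - hT hPinv h4; linarith only [hT, hPinv, h4])
            · rw [if_neg h, zero_add]
              refine (hle z).trans ?_
              by_contra hcon
              apply h
              rw [hZ, Finset.mem_filter]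
              exact ⟨hz, not_le.1 hcon⟩
      _ = Z.card * P.card + T * (prd A P).card := by
            rw [Finset.sum_add_distrib, Finset.sum_const, nsmul_eq_mul, ← Finset.sum_filter]
            have h5 : (prd A P).filter (fun z => z ∈ Z) = Z := by
              ext z
              rw [Finset.mem_filter]
              refine ⟨fun h => h.2, fun h => ⟨?_, h⟩⟩
              rw [hZ] at h
              exact (Finset.mem_filter.1 h).1
            rw [h5, Finset.sum_const, nsmul_eq_mul]
            ring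
      _ ≤ w * P.card + T * (prd A P).card := by
            have := mul_le_mul_of_nonneg_right hZw hP00
            linarith only [this]
  push_cast at h3
  have h4 := Finset.pred_card_le_card_erase (s := A) (a := (0 : ℤ))
  have h5 : A.card ≤ (A.erase 0).card + 1 := by omega
  have h6 : (A.card : ℝ) ≤ (A.erase 0).card + 1 := by exact_mod_cast h5
  have hP00 : (0 : ℝ) ≤ P.card := Nat.cast_nonneg _
  (clear * - h3 h6; nlinarith only [h3, h6])

theorem fin_bound (N w T D p q : ℝ) (hp : 0 ≤ p) (hw : w + 1 ≤ N / 2)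
    (h : N * p ≤ (w + 1) * p + T * q) (hTD : 2 * T ≤ D) (hq : 0 ≤ q) : N * p ≤ D * q := by
  (clear * - h hp hw hTD hq; nlinarith)

end Pool.Agent.Helper15.GPQ
end
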