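import Pool.Agent.Helper24.DG.G02

/- Helper24.DI.H28.LN.NodeT -/
section
set_option autoImplicit false

/-!
# Project LINES (MP_120218), NodeT: a concentrated law loses nothing

If one law on an abelian group has an atom of mass at least `1 - t0` then, whatever the other law
is, the loss of entropy in the convolution is at most `η` times the sum of the entropies.
-/

namespace Pool.Agent.Helper28.LN

open Finset Pool.Agent.Helper15.GL

variable {G : Type} [Fintype G] [AddCommGroup G]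

/-- the simple code: first whether `b = b0`, then `a` -/
theorem loss_simple (f g : G → ℝ) (hf : ∀ a, 0 ≤ f a) (hg : ∀ a, 0 ≤ g a) (hf1 : ∑ a, f a = 1)
    (hg1 : ∑ a, g a = 1) (b0 : G) (σ : ℝ) (hσ : σ = 1 - g b0) (h0 : 0 < σ) (h1 : σ ≤ 1 / 2) :
    ent f + ent g - ent (conv f g) ≤ σ * (-Real.log σ) + σ + σ * ent f := by
  classical
  obtain ⟨W, hWd⟩ : ∃ W : G → G → ℝ,
    W = fun a b => if b = b0 then 1 - σ else σ * f a := ⟨_, rfl⟩
  have hcode := code_bound f g hf hg hf1 hg1 W (by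
      intro a b ha _
      rw [hWd]
      simp only
      split_ifs
      · linarith only [h1]
      · exact mul_pos h0 ha) (by
      intro a b
      rw [hWd]
      simp only
      split_ifs
      · (clear * - h0 h1; linarith)
      · exact mul_nonneg h0.le (hf a)) (by
      intro z
      have h1 : ∀ a, W a (z - a) ≤ (if a = z - b0 then 1 - σ else 0) + σ * f a := by
        intro a
        rw [hWd]
        simp only
        by_cases h : z - a = b0
        · have h' : a = z - b0 := by rw [← h, sub_sub_cancel]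
          rw [if_pos h, if_pos h']
          have := mul_nonneg h0.le (hf a)
          linarith only [this]
        · have h' : a ≠ z - b0 := by
            intro h2
            exact h (by rw [h2, sub_sub_cancel])
          rw [if_neg h, if_neg h', zero_add]
      refine (Finset.sum_le_sum fun a _ => h1 a).trans ?_
      rw [Finset.sum_add_distrib, ← Finset.mul_sum, hf1, Finset.sum_ite_eq' univ (z - b0)]
      simp)
  refine hcode.trans ?_
  have hterm : ∀ a b, f a * g b * (-Real.log (W a b)) ≤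
      (if b = b0 then g b0 * (f a * (-Real.log (1 - σ))) else
        g b * (Real.negMulLog (f a) + f a * (-Real.log σ))) := by
    intro a b
    by_cases hb : b = b0
    · rw [if_pos hb, hb, hWd]
      simp only [if_true]
      exact le_of_eq (by ring)
    · rw [if_neg hb, hWd]
      simp only
      rw [if_neg hb]
      rcases eq_or_lt_of_le (hf a) with ha | ha
      · rw [← ha]
        simp
      · rw [Real.log_mul h0.ne' ha.ne', Real.negMulLog]
        exact le_of_eq (by ring)
  refine (Finset.sum_le_sum fun a _ => Finset.sum_le_sum fun b _ => hterm a b).trans ?_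
  rw [Finset.sum_comm]
  have hsplit : ∀ b : G, ∑ a, (if b = b0 then g b0 * (f a * (-Real.log (1 - σ))) else
        g b * (Real.negMulLog (f a) + f a * (-Real.log σ))) =
      (if b = b0 then g b0 * (-Real.log (1 - σ)) else g b * (ent f + (-Real.log σ))) := by
    intro b
    by_cases hb : b = b0
    · simp only [if_pos hb]
      rw [← Finset.mul_sum, ← Finset.sum_mul, hf1, one_mul]
    · simp only [if_neg hb]
      rw [← Finset.mul_sum, Finset.sum_add_distrib, ← Finset.sum_mul, hf1, one_mul]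
      rfl
  rw [Finset.sum_congr rfl fun b _ => hsplit b]
  rw [← Finset.add_sum_erase univ _ (Finset.mem_univ b0), if_pos rfl]
  have h2 : ∑ b ∈ univ.erase b0, (if b = b0 then g b0 * (-Real.log (1 - σ)) else
      g b * (ent f + (-Real.log σ))) = σ * (ent f + (-Real.log σ)) := by
    have h3 : ∑ b ∈ univ.erase b0, (if b = b0 then g b0 * (-Real.log (1 - σ)) else
        g b * (ent f + (-Real.log σ))) = ∑ b ∈ univ.erase b0, g b * (ent f + (-Real.log σ)) := by
      refine Finset.sum_congr rfl fun b hb => ?_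
      rw [if_neg (Finset.ne_of_mem_erase hb)]
    rw [h3, ← Finset.sum_mul]
    congr 1
    have := Finset.add_sum_erase univ g (Finset.mem_univ b0)
    linarith only [hg1, hσ, this]
  rw [h2]
  have h3 : g b0 * (-Real.log (1 - σ)) ≤ σ := by
    have h4 : g b0 = 1 - σ := by linarith only [hσ]
    have h5 := Real.one_sub_inv_le_log_of_pos (show (0 : ℝ) < 1 - σ by (clear * - h1; linarith only [h1]))
    rw [h4]
    have h6 : (1 - σ) * (1 - (1 - σ)⁻¹) = -σ := by
      have : (1 - σ) ≠ 0 := by linarith only [h1]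
      field_simp
      ring
    have h7 := mul_le_mul_of_nonneg_left h5 (show (0 : ℝ) ≤ 1 - σ by linarith only [h1])
    rw [h6] at h7
    linarith only [h7]
  linarith only [h3]

/-- **Concentrated laws.** -/
theorem nodeT (η : ℝ) (hη : 0 < η) : ∃ t0 : ℝ, 0 < t0 ∧ t0 ≤ 1 / 2 ∧
    ∀ (G : Type) [Fintype G] [AddCommGroup G] (f g : G → ℝ),
      (∀ a, 0 ≤ f a) → (∀ a, 0 ≤ g a) → ∑ a, f a = 1 → ∑ a, g a = 1 →
      ∀ b0 : G, 1 - t0 ≤ g b0 → ent f + ent g - ent (conv f g) ≤ η * (ent f + ent g) := by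
  obtain ⟨K, hK, hN⟩ := node_exists (η / 2) (by (clear * - hη; positivity))
  obtain ⟨c, hc⟩ : ∃ c : ℝ, c = η / (2 * K) * (η / 4) := ⟨_, rfl⟩
  have hc0 : 0 < c := by rw [hc]; (clear * - hη hK; positivity)
  -- small `x` have small `negMulLog x + x`
  have hcont : Continuous (fun x : ℝ => Real.negMulLog x + x) :=
    Real.continuous_negMulLog.add continuous_id
  have h0 : Filter.Tendsto (fun x : ℝ => Real.negMulLog x + x) (nhds 0) (nhds 0) := by
    have := hcont.tendsto 0
    simpa using this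
  obtain ⟨δ, hδ, hδ2⟩ := Metric.tendsto_nhds_nhds.1 h0 c hc0
  refine ⟨min (min (1 / 2) (η / 4)) (δ / 2), by (clear * - hη hδ; positivity), ?_, ?_⟩
  · exact (min_le_left _ _).trans (min_le_left _ _)
  intro G _ _ f g hf hg hf1 hg1 b0 hb0
  classical
  have hhf := ent_nonneg f hf hf1
  have hhg := ent_nonneg g hg hg1
  have hg1' : g b0 ≤ 1 := by
    rw [← hg1]
    exact Finset.single_le_sum (f := g) (fun b _ => hg b) (Finset.mem_univ b0)
  obtain ⟨σ, hσ⟩ : ∃ σ : ℝ, σ = 1 - g b0 := ⟨_, rfl⟩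
  have hσt : σ ≤ min (min (1 / 2) (η / 4)) (δ / 2) := by rw [hσ]; linarith only [hb0]
  have hσ2 : σ ≤ 1 / 2 := hσt.trans ((min_le_left _ _).trans (min_le_left _ _))
  have hσ4 : σ ≤ η / 4 := hσt.trans ((min_le_left _ _).trans (min_le_right _ _))
  have hσδ : σ ≤ δ / 2 := hσt.trans (min_le_right _ _)
  rcases eq_or_lt_of_le (show 0 ≤ σ by rw [hσ]; (clear * - hg1'; linarith only [hg1'])) with h | h
  · -- `g` is a point mass
    have hother : ∀ b, b ≠ b0 → g b = 0 := by
      intro b hb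
      have h1 := Finset.add_sum_erase univ g (Finset.mem_univ b0)
      have h2 : g b ≤ ∑ x ∈ univ.erase b0, g x :=
        Finset.single_le_sum (f := g) (fun b _ => hg b)
          (Finset.mem_erase.2 ⟨hb, Finset.mem_univ b⟩)
      have := hg b
      linarith only [hg1, hσ, h, h1, h2, this]
    have hentg : ent g = 0 := by
      unfold ent
      refine Finset.sum_eq_zero fun b _ => ?_
      by_cases hb : b = b0
      · have : g b0 = 1 := by linarith only [hσ, h]
        rw [hb, this]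
        simp
      · rw [hother b hb]
        simp
    have h1 := loss_le f g hf hg hf1 hg1
    rw [hentg] at h1 ⊢
    have := mul_nonneg hη.le hhf
    (clear * - h1 this; linarith only [h1, this])
  have hcode := loss_simple f g hf hg hf1 hg1 b0 σ hσ h hσ2
  have hsmall : σ * (-Real.log σ) + σ < c := by
    have h1 : dist σ 0 < δ := by
      rw [Real.dist_eq, sub_zero, abs_of_pos h]
      linarith only [hσδ, h]
    have h2 := hδ2 h1
    rw [Real.dist_eq, sub_zero] at h2
    have h3 := (abs_lt.1 h2).2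
    unfold Real.negMulLog at h3
    linarith only [h3]
  rcases le_or_gt (4 / η * (σ * (-Real.log σ) + σ)) (ent f) with hcase | hcase
  · have h1 : σ * (-Real.log σ) + σ ≤ η / 4 * ent f := by
      have := mul_le_mul_of_nonneg_left hcase (show 0 ≤ η / 4 by positivity)
      calc σ * (-Real.log σ) + σ = η / 4 * (4 / η * (σ * (-Real.log σ) + σ)) := by
            (clear * - hη h; field_simp)
        _ ≤ _ := this
    have h2 : σ * ent f ≤ η / 4 * ent f := mul_le_mul_of_nonneg_right hσ4 hhf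
    have h3 := mul_nonneg hη.le hhf
    have h4 := mul_nonneg hη.le hhg
    linarith only [hcode, h1, h2, h3, h4]
  · have h1 : ent f ≤ η / (2 * K) := by
      have h2 : 4 / η * (σ * (-Real.log σ) + σ) ≤ 4 / η * c :=
        mul_le_mul_of_nonneg_left hsmall.le (by positivity)
      have h3 : 4 / η * c = η / (2 * K) := by
        rw [hc]
        field_simp
      linarith only [hcase, h2, h3]
    have h2 := hN G f g hf hg hf1 hg1
    have h3 : K * (ent f * ent g) ≤ η / 2 * ent g := by
      have h4 : K * ent f ≤ η / 2 := by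
        have := mul_le_mul_of_nonneg_left h1 hK.le
        calc K * ent f ≤ K * (η / (2 * K)) := this
          _ = η / 2 := by field_simp
      calc K * (ent f * ent g) = (K * ent f) * ent g := by ring
        _ ≤ η / 2 * ent g := mul_le_mul_of_nonneg_right h4 hhg
    have h5 := mul_nonneg hη.le hhf
    linarith only [h2, h3, h5]

end Pool.Agent.Helper28.LN
end

/- Helper24.DI.H28.LN.Mid -/
section
set_option autoImplicit false

/-!
# Project LINES (MP_120218), Mid: dilating a law carried by few points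

If the law `g` on `ZMod q` is essentially carried by `K` points then for most dilations `u` in a set
`U` of residues with `|U|` much larger than `K` the convolution of any law `f` with the dilation of
`g` loses little entropy.
-/

namespace Pool.Agent.Helper28.LN

open Finset Pool.Agent.Helper15.GL

variable {q : ℕ} [hq : Fact q.Prime]

/-- the dilated law -/
def du (u : ZMod q) (g : ZMod q → ℝ) : ZMod q → ℝ := fun b => g (u⁻¹ * b)

theorem sum_du (u : ZMod q) (hu : u ≠ 0) (g F : ZMod q → ℝ) :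
    ∑ b, du u g b * F b = ∑ b, g b * F (u * b) := by
  rw [← Equiv.sum_comp (Equiv.mulLeft₀ u hu)]
  refine Finset.sum_congr rfl fun b _ => ?_
  unfold du
  rw [Equiv.mulLeft₀_apply, inv_mul_cancel_left₀ hu]

theorem sum_du_one (u : ZMod q) (hu : u ≠ 0) (g : ZMod q → ℝ) :
    ∑ b, du u g b = ∑ b, g b := by
  have h := sum_du u hu g (fun _ => 1)
  simpa using h

theorem du_nonneg (u : ZMod q) (g : ZMod q → ℝ) (hg : ∀ b, 0 ≤ g b) : ∀ b, 0 ≤ du u g b :=
  fun _ => hg _

theorem ent_du (u : ZMod q) (hu : u ≠ 0) (g : ZMod q → ℝ) : ent (du u g) = ent g := by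
  unfold ent
  rw [← Equiv.sum_comp (Equiv.mulLeft₀ u hu)]
  refine Finset.sum_congr rfl fun b _ => ?_
  unfold du
  rw [Equiv.mulLeft₀_apply, inv_mul_cancel_left₀ hu]

theorem conv_du (u : ZMod q) (hu : u ≠ 0) (f g : ZMod q → ℝ) (z : ZMod q) :
    conv f (du u g) z = ∑ b, g b * f (z - u * b) := by
  rw [conv_comm]
  unfold conv
  exact sum_du u hu g (fun b => f (z - b))

/-- the sum over `u` of the entropies of the dilated convolutions is large if there are many
collisions -/
theorem coll_le (f g : ZMod q → ℝ) (hf : ∀ a, 0 ≤ f a) (hg : ∀ a, 0 ≤ g a) (hf1 : ∑ a, f a = 1)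
    (hg1 : ∑ a, g a = 1) (U : Finset (ZMod q)) (hU : (0 : ZMod q) ∉ U) (hU0 : U.Nonempty) :
    Real.log U.card * ∑ u ∈ U, ∑ a, ∑ b, f a * g b *
      (1 - f a * g b / conv f (du u g) (a + u * b)) ≤ ∑ u ∈ U, ent (conv f (du u g)) := by
  classical
  have hUc : (0 : ℝ) < U.card := by exact_mod_cast hU0.card_pos
  have hu0 : ∀ u ∈ U, u ≠ 0 := fun u hu h => hU (h ▸ hu)
  -- the weight of the pair is at most the weight of the value
  have hwh : ∀ u ∈ U, ∀ a b, f a * g b ≤ conv f (du u g) (a + u * b) := by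
    intro u hu a b
    rw [conv_du u (hu0 u hu)]
    have h1 := Finset.single_le_sum (f := fun b' => g b' * f (a + u * b - u * b'))
      (fun c _ => mul_nonneg (hg c) (hf _)) (Finset.mem_univ b)
    simp only [add_sub_cancel_right] at h1
    rw [mul_comm]
    exact h1
  have hpt : ∀ u ∈ U, ∀ a b, f a * g b * (Real.log (conv f (du u g) (a + u * b)) +
      Real.log U.card * (1 - f a * g b / conv f (du u g) (a + u * b))) ≤
      f a * g b * (f a * g b + U.card * (conv f (du u g) (a + u * b) - f a * g b) - 1) := by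
    intro u hu a b
    obtain ⟨w, hw⟩ : ∃ w : ℝ, w = f a * g b := ⟨_, rfl⟩
    obtain ⟨h, hh⟩ : ∃ h : ℝ, h = conv f (du u g) (a + u * b) := ⟨_, rfl⟩
    have hw0 : 0 ≤ w := by rw [hw]; exact mul_nonneg (hf a) (hg b)
    have hle : w ≤ h := by rw [hw, hh]; exact hwh u hu a b
    rw [← hw, ← hh]
    rcases eq_or_lt_of_le hw0 with h0 | h0
    · rw [← h0]
      simp
    · have hh0 : 0 < h := lt_of_lt_of_le h0 hle
      refine mul_le_mul_of_nonneg_left ?_ h0.le
      have e1 := Real.log_le_sub_one_of_pos hh0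
      have e2 := Real.log_le_sub_one_of_pos (mul_pos hUc hh0)
      rw [Real.log_mul hUc.ne' hh0.ne'] at e2
      have hp0 : 0 ≤ w / h := by (clear * - h0 hh0; positivity)
      have hp1 : w / h ≤ 1 := (div_le_one hh0).2 hle
      have e3 := mul_le_mul_of_nonneg_left e1 hp0
      have e4 := mul_le_mul_of_nonneg_left e2 (show 0 ≤ 1 - w / h by linarith only [hp1])
      have e5 : w / h * (h - 1) + (1 - w / h) * (U.card * h - 1) =
          w + U.card * (h - w) - 1 := by
        field_simp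
        ring
      linarith
  have hsum := Finset.sum_le_sum fun u hu => Finset.sum_le_sum fun a (_ : a ∈ univ) =>
    Finset.sum_le_sum fun b (_ : b ∈ univ) => hpt u hu a b
  -- the left side
  have hL : ∑ u ∈ U, ∑ a, ∑ b, f a * g b * (Real.log (conv f (du u g) (a + u * b)) +
      Real.log U.card * (1 - f a * g b / conv f (du u g) (a + u * b))) =
      Real.log U.card * ∑ u ∈ U, ∑ a, ∑ b, f a * g b *
        (1 - f a * g b / conv f (du u g) (a + u * b)) - ∑ u ∈ U, ent (conv f (du u g)) := by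
    rw [Finset.mul_sum, ← Finset.sum_sub_distrib]
    refine Finset.sum_congr rfl fun u hu => ?_
    have e1 : ent (conv f (du u g)) =
        -∑ a, ∑ b, f a * g b * Real.log (conv f (du u g) (a + u * b)) := by
      have e2 : ∑ z, conv f (du u g) z * Real.log (conv f (du u g) z) =
          ∑ a, ∑ b, f a * g b * Real.log (conv f (du u g) (a + u * b)) := by
        rw [sum_conv_mul f (du u g) (fun z => Real.log (conv f (du u g) z))]
        refine Finset.sum_congr rfl fun a _ => ?_
        have e3 := sum_du u (hu0 u hu) g (fun b => f a * Real.log (conv f (du u g) (a + b)))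
        calc ∑ b, f a * du u g b * Real.log (conv f (du u g) (a + b)) =
              ∑ b, du u g b * (f a * Real.log (conv f (du u g) (a + b))) :=
                Finset.sum_congr rfl fun b _ => by ring
          _ = ∑ b, g b * (f a * Real.log (conv f (du u g) (a + u * b))) := e3
          _ = _ := Finset.sum_congr rfl fun b _ => by ring
      rw [← e2, ← Finset.sum_neg_distrib]
      unfold ent Real.negMulLog
      refine Finset.sum_congr rfl fun z _ => ?_
      ring
    rw [e1, Finset.mul_sum, sub_neg_eq_add, ← Finset.sum_add_distrib]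
    refine Finset.sum_congr rfl fun a _ => ?_
    rw [Finset.mul_sum, ← Finset.sum_add_distrib]
    refine Finset.sum_congr rfl fun b _ => ?_
    ring
  -- the right side
  have hR : ∑ u ∈ U, ∑ a, ∑ b, f a * g b *
      (f a * g b + U.card * (conv f (du u g) (a + u * b) - f a * g b) - 1) ≤ 0 := by
    have hfle : ∀ a, f a ≤ 1 := by
      intro a
      rw [← hf1]
      exact Finset.single_le_sum (f := f) (fun b _ => hf b) (Finset.mem_univ a)
    have hcol : ∀ a b, ∑ u ∈ U, (conv f (du u g) (a + u * b) - f a * g b) ≤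
        1 - f a * g b := by
      intro a b
      have e1 : ∀ u ∈ U, conv f (du u g) (a + u * b) - f a * g b =
          ∑ b' ∈ univ.erase b, g b' * f (a + u * (b - b')) := by
        intro u hu
        rw [conv_du u (hu0 u hu), ← Finset.add_sum_erase univ _ (Finset.mem_univ b)]
        have e2 : g b * f (a + u * b - u * b) = f a * g b := by
          rw [add_sub_cancel_right, mul_comm]
        rw [e2, add_sub_cancel_left]
        refine Finset.sum_congr rfl fun b' _ => ?_
        rw [mul_sub, add_sub_assoc]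
      rw [Finset.sum_congr rfl e1, Finset.sum_comm]
      have e3 : ∀ b' ∈ univ.erase b, ∑ u ∈ U, g b' * f (a + u * (b - b')) ≤ g b' := by
        intro b' hb'
        rw [← Finset.mul_sum]
        refine mul_le_of_le_one_right (hg b') ?_
        have hne : b - b' ≠ 0 := sub_ne_zero.2 (Finset.ne_of_mem_erase hb').symm
        rw [← hf1]
        have hinj : Set.InjOn (fun u => a + u * (b - b')) (U : Set (ZMod q)) := by
          intro u _ v _ h
          simp only [add_right_inj] at h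
          exact mul_right_cancel₀ hne h
        rw [← Finset.sum_image (f := f) hinj]
        exact Finset.sum_le_sum_of_subset_of_nonneg (Finset.subset_univ _)
          fun c _ _ => hf c
      refine (Finset.sum_le_sum e3).trans ?_
      have e4 := Finset.add_sum_erase univ g (Finset.mem_univ b)
      have e5 : f a * g b ≤ g b := mul_le_of_le_one_left (hg b) (hfle a)
      (clear * - hg1 e4 e5; linarith only [hg1, e4, e5])
    have e1 : ∑ u ∈ U, ∑ a, ∑ b, f a * g b *
        (f a * g b + U.card * (conv f (du u g) (a + u * b) - f a * g b) - 1) =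
        ∑ a, ∑ b, f a * g b * (U.card * (∑ u ∈ U,
          (conv f (du u g) (a + u * b) - f a * g b)) + U.card * (f a * g b - 1)) := by
      rw [Finset.sum_comm]
      refine Finset.sum_congr rfl fun a _ => ?_
      rw [Finset.sum_comm]
      refine Finset.sum_congr rfl fun b _ => ?_
      rw [← Finset.mul_sum]
      congr 1
      have e2 : ∑ u ∈ U, (f a * g b + U.card * (conv f (du u g) (a + u * b) - f a * g b) - 1) =
          ∑ u ∈ U, (U.card * (conv f (du u g) (a + u * b) - f a * g b) + (f a * g b - 1)) :=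
        Finset.sum_congr rfl fun u _ => by ring
      rw [e2, Finset.sum_add_distrib, ← Finset.mul_sum, Finset.sum_const, nsmul_eq_mul]
    rw [e1]
    refine Finset.sum_nonpos fun a _ => Finset.sum_nonpos fun b _ => ?_
    refine mul_nonpos_of_nonneg_of_nonpos (mul_nonneg (hf a) (hg b)) ?_
    have e2 := mul_le_mul_of_nonneg_left (hcol a b) hUc.le
    linarith only [e2]
  rw [hL] at hsum
  linarith only [hsum, hR]

/-- the loss for one dilation -/
theorem dil_loss (f g : ZMod q → ℝ) (hf : ∀ a, 0 ≤ f a) (hg : ∀ a, 0 ≤ g a) (hf1 : ∑ a, f a = 1)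
    (hg1 : ∑ a, g a = 1) (u : ZMod q) (hu : u ≠ 0) (T : Finset (ZMod q)) (K : ℕ) (hK : 1 ≤ K)
    (hT : T.card ≤ K) (θ l : ℝ) (hl0 : 0 < l) (hl1 : l ≤ 1 / 4)
    (hθ : 1 - θ ≤ ∑ b ∈ T, g b) :
    ent f + ent g - ent (conv f (du u g)) ≤ -Real.log (1 - 2 * l) +
      (Real.log K - Real.log l) * (∑ a, ∑ b, f a * g b *
        (1 - f a * g b / conv f (du u g) (a + u * b))) + θ * (-Real.log l + ent f) := by
  classical
  have hKr : (1 : ℝ) ≤ K := by exact_mod_cast hK
  have hK0 : (0 : ℝ) < K := by linarith only [hKr]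
  have hl2 : 0 < 1 - 2 * l := by (clear * - hl0 hl1; linarith)
  have hg' := du_nonneg u g hg
  have hg1' : ∑ b, du u g b = 1 := by rw [sum_du_one u hu, hg1]
  have hcn := conv_nonneg f (du u g) hf hg'
  obtain ⟨p, hp⟩ : ∃ p : ZMod q → ZMod q → ℝ,
    p = fun a b => f a * du u g b / conv f (du u g) (a + b) := ⟨_, rfl⟩
  have hp0 : ∀ a b, 0 ≤ p a b := by
    intro a b
    rw [hp]
    exact div_nonneg (mul_nonneg (hf a) (hg' b)) (hcn _)
  have hwh : ∀ a b, f a * du u g b ≤ conv f (du u g) (a + b) := by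
    intro a b
    unfold conv
    have h1 := Finset.single_le_sum (f := fun c => f c * du u g (a + b - c))
      (fun c _ => mul_nonneg (hf c) (hg' _)) (Finset.mem_univ a)
    simpa only [add_sub_cancel_left] using h1
  have hp1 : ∀ a b, p a b ≤ 1 := by
    intro a b
    rw [hp]
    exact div_le_one_of_le₀ (hwh a b) (hcn _)
  obtain ⟨W, hW⟩ : ∃ W : ZMod q → ZMod q → ℝ, W = fun a b => (1 - 2 * l) * p a b +
    (if u⁻¹ * b ∈ T then l / K else 0) + l * f a := ⟨_, rfl⟩
  have hW0 : ∀ a b, 0 ≤ W a b := by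
    intro a b
    rw [hW]
    simp only
    have h1 := mul_nonneg hl2.le (hp0 a b)
    have h2 := mul_nonneg hl0.le (hf a)
    split_ifs <;> (clear * - h1 hl0 hK h2; positivity)
  have hcode := code_bound f (du u g) hf hg' hf1 hg1' W (by
      intro a b ha _
      rw [hW]
      simp only
      have h1 := mul_nonneg hl2.le (hp0 a b)
      have h2 := mul_pos hl0 ha
      split_ifs <;> (clear * - h1 hl0 hK ha; positivity)) hW0 (by
      intro z
      rw [hW]
      simp only
      rw [Finset.sum_add_distrib, Finset.sum_add_distrib, ← Finset.mul_sum, ← Finset.mul_sum,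
        hf1]
      have h1 : ∑ a, p a (z - a) ≤ 1 := by
        rw [hp]
        simp only [add_sub_cancel]
        rw [← Finset.sum_div]
        exact div_le_one_of_le₀ le_rfl (hcn z)
      have h2 : ∑ a, (if u⁻¹ * (z - a) ∈ T then l / K else 0) ≤ l := by
        rw [← Finset.sum_filter, Finset.sum_const, nsmul_eq_mul]
        have h3 : (univ.filter (fun a => u⁻¹ * (z - a) ∈ T)).card ≤ K := by
          refine (Finset.card_le_card_of_injOn (fun a => u⁻¹ * (z - a)) ?_ ?_).trans hT
          · intro a ha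
            exact (Finset.mem_filter.1 ha).2
          · intro a _ b _ h
            have h4 := mul_left_cancel₀ (inv_ne_zero hu) h
            exact sub_right_injective h4
        have h4 : ((univ.filter (fun a => u⁻¹ * (z - a) ∈ T)).card : ℝ) ≤ K := by
          exact_mod_cast h3
        calc ((univ.filter (fun a => u⁻¹ * (z - a) ∈ T)).card : ℝ) * (l / K) ≤ K * (l / K) :=
              mul_le_mul_of_nonneg_right h4 (by positivity)
          _ = l := by field_simp
      have h3 := mul_le_mul_of_nonneg_left h1 hl2.le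
      linarith only [h2, h3])
  rw [ent_du u hu] at hcode
  refine hcode.trans ?_
  -- pointwise
  have hLK : 0 ≤ Real.log K - Real.log l := by
    have h1 := Real.log_nonneg hKr
    have h2 := Real.log_nonpos hl0.le (by linarith only [hl2])
    linarith only [h1, h2]
  have hl12 : 0 ≤ -Real.log (1 - 2 * l) := by
    have := Real.log_nonpos hl2.le (by linarith only [hl0])
    linarith only [this]
  have hpt : ∀ a b, f a * du u g b * (-Real.log (W a b)) ≤
      f a * du u g b * (-Real.log (1 - 2 * l) + (Real.log K - Real.log l) * (1 - p a b)) +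
      (if u⁻¹ * b ∈ T then 0 else du u g b * (Real.negMulLog (f a) + f a * (-Real.log l))) := by
    intro a b
    rcases eq_or_lt_of_le (hf a) with ha | ha
    · rw [← ha]
      simp
    rcases eq_or_lt_of_le (hg' b) with hb | hb
    · rw [← hb]
      simp
    have hab := mul_pos ha hb
    have h1p : 0 ≤ 1 - p a b := by linarith only [hp1 a b]
    have hnn : 0 ≤ -Real.log (1 - 2 * l) + (Real.log K - Real.log l) * (1 - p a b) :=
      add_nonneg hl12 (mul_nonneg hLK h1p)
    by_cases hT' : u⁻¹ * b ∈ T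
    · rw [if_pos hT', add_zero]
      refine mul_le_mul_of_nonneg_left ?_ hab.le
      have h2 : p a b * (1 - 2 * l) + (1 - p a b) * (l / K) ≤ W a b := by
        rw [hW]
        simp only
        rw [if_pos hT']
        have e1 : 0 ≤ p a b * (l / K) := mul_nonneg (hp0 a b) (by (clear * - hl0 hK; positivity))
        have e2 := mul_nonneg hl0.le (hf a)
        linarith only [e1, e2]
      have hlK : 0 < l / K := by positivity
      have h3 : 0 < p a b * (1 - 2 * l) + (1 - p a b) * (l / K) := by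
        rcases eq_or_lt_of_le (hp0 a b) with e1 | e1
        · rw [← e1]
          simpa using hlK
        · have := mul_pos e1 hl2
          have := mul_nonneg h1p hlK.le
          linarith
      have h4 := Real.log_le_log h3 h2
      have h5 : p a b * Real.log (1 - 2 * l) + (1 - p a b) * Real.log (l / K) ≤
          Real.log (p a b * (1 - 2 * l) + (1 - p a b) * (l / K)) := by
        have := strictConcaveOn_log_Ioi.concaveOn.2 (Set.mem_Ioi.2 hl2) (Set.mem_Ioi.2 hlK)
          (hp0 a b) h1p (by ring)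
        simpa only [smul_eq_mul] using this
      rw [Real.log_div hl0.ne' hK0.ne'] at h5
      have h6 : p a b * (-Real.log (1 - 2 * l)) ≤ -Real.log (1 - 2 * l) :=
        mul_le_of_le_one_left hl12 (hp1 a b)
      (clear * - h4 h5 h6; linarith only [h4, h5, h6])
    · rw [if_neg hT']
      have h2 : l * f a ≤ W a b := by
        rw [hW]
        simp only
        rw [if_neg hT']
        have := mul_nonneg hl2.le (hp0 a b)
        linarith only [this]
      have h3 := Real.log_le_log (mul_pos hl0 ha) h2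
      rw [Real.log_mul hl0.ne' ha.ne'] at h3
      have h4 : f a * du u g b * (-Real.log (W a b)) ≤
          f a * du u g b * (-Real.log l - Real.log (f a)) :=
        mul_le_mul_of_nonneg_left (by linarith only [h3]) hab.le
      have h5 := mul_nonneg hab.le hnn
      unfold Real.negMulLog
      linarith only [h4, h5]
  refine (Finset.sum_le_sum fun a _ => Finset.sum_le_sum fun b _ => hpt a b).trans ?_
  -- evaluate
  have hE1 : ∑ a, ∑ b, f a * du u g b * (1 - p a b) =
      ∑ a, ∑ b, f a * g b * (1 - f a * g b / conv f (du u g) (a + u * b)) := by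
    refine Finset.sum_congr rfl fun a _ => ?_
    have e1 := sum_du u hu g (fun b => f a * (1 - p a b))
    calc ∑ b, f a * du u g b * (1 - p a b) = ∑ b, du u g b * (f a * (1 - p a b)) :=
          Finset.sum_congr rfl fun b _ => by ring
      _ = ∑ b, g b * (f a * (1 - p a (u * b))) := e1
      _ = _ := by
          refine Finset.sum_congr rfl fun b _ => ?_
          rw [hp]
          unfold du
          simp only
          rw [inv_mul_cancel_left₀ hu]
          ring
  have hE2 : ∑ a, ∑ b, (if u⁻¹ * b ∈ T then 0 else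
      du u g b * (Real.negMulLog (f a) + f a * (-Real.log l))) ≤
      θ * (-Real.log l + ent f) := by
    rw [Finset.sum_comm]
    have e1 : ∀ b : ZMod q, ∑ a, (if u⁻¹ * b ∈ T then 0 else
        du u g b * (Real.negMulLog (f a) + f a * (-Real.log l))) =
        du u g b * (if u⁻¹ * b ∈ T then 0 else (-Real.log l + ent f)) := by
      intro b
      by_cases hb : u⁻¹ * b ∈ T
      · simp only [if_pos hb, Finset.sum_const_zero, mul_zero]
      · simp only [if_neg hb]
        rw [← Finset.mul_sum, Finset.sum_add_distrib, ← Finset.sum_mul, hf1, one_mul]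
        unfold ent
        ring
    rw [Finset.sum_congr rfl fun b _ => e1 b, sum_du u hu g (fun b =>
      if u⁻¹ * b ∈ T then 0 else (-Real.log l + ent f))]
    simp only [inv_mul_cancel_left₀ hu]
    have e2 : ∑ b, g b * (if b ∈ T then 0 else (-Real.log l + ent f)) =
        (∑ b, (if b ∈ T then 0 else g b)) * (-Real.log l + ent f) := by
      rw [Finset.sum_mul]
      refine Finset.sum_congr rfl fun b _ => ?_
      split_ifs <;> ring
    rw [e2]
    refine mul_le_mul_of_nonneg_right ?_ ?_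
    · have e3 : ∑ b, (if b ∈ T then 0 else g b) = 1 - ∑ b ∈ T, g b := by
        have e4 : ∑ b, g b = ∑ b, (if b ∈ T then 0 else g b) + ∑ b ∈ T, g b := by
          rw [← Finset.sum_filter_add_sum_filter_not univ (fun b => b ∈ T) g]
          have e5 : univ.filter (fun b => b ∈ T) = T := by
            ext b
            simp
          rw [e5, Finset.sum_filter, add_comm]
          congr 1
          refine Finset.sum_congr rfl fun b _ => ?_
          by_cases hb : b ∈ T <;> simp [hb]
        linarith only [hg1, e4]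
      rw [e3]
      linarith only [hθ]
    · have h1 := ent_nonneg f hf hf1
      have h2 := Real.log_nonpos hl0.le (by linarith only [hl2])
      linarith only [h1, h2]
  have hE3 : ∑ a, ∑ b, f a * du u g b * (-Real.log (1 - 2 * l) +
      (Real.log K - Real.log l) * (1 - p a b)) = -Real.log (1 - 2 * l) +
      (Real.log K - Real.log l) * ∑ a, ∑ b, f a * du u g b * (1 - p a b) := by
    have e1 : ∑ a, ∑ b, f a * du u g b = 1 := by
      rw [← Finset.sum_mul_sum, hf1, hg1', one_mul]
    have e2 : -Real.log (1 - 2 * l) = (∑ a, ∑ b, f a * du u g b) * (-Real.log (1 - 2 * l)) := by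
      rw [e1, one_mul]
    conv_rhs => rw [e2]
    rw [Finset.sum_mul, Finset.mul_sum, ← Finset.sum_add_distrib]
    refine Finset.sum_congr rfl fun a _ => ?_
    rw [Finset.sum_mul, Finset.mul_sum, ← Finset.sum_add_distrib]
    refine Finset.sum_congr rfl fun b _ => ?_
    ring
  have hE4 : ∑ a, ∑ b, (f a * du u g b * (-Real.log (1 - 2 * l) +
      (Real.log K - Real.log l) * (1 - p a b)) + (if u⁻¹ * b ∈ T then 0 else
      du u g b * (Real.negMulLog (f a) + f a * (-Real.log l)))) =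
      ∑ a, ∑ b, f a * du u g b * (-Real.log (1 - 2 * l) +
      (Real.log K - Real.log l) * (1 - p a b)) + ∑ a, ∑ b, (if u⁻¹ * b ∈ T then 0 else
      du u g b * (Real.negMulLog (f a) + f a * (-Real.log l))) := by
    rw [← Finset.sum_add_distrib]
    refine Finset.sum_congr rfl fun a _ => ?_
    rw [Finset.sum_add_distrib]
  rw [hE4, hE3, hE1]
  linarith only [hE2]

/-- **Middle nodes.** -/
theorem mid (f g : ZMod q → ℝ) (hf : ∀ a, 0 ≤ f a) (hg : ∀ a, 0 ≤ g a) (hf1 : ∑ a, f a = 1)
    (hg1 : ∑ a, g a = 1) (U : Finset (ZMod q)) (hU : (0 : ZMod q) ∉ U) (hU2 : 2 ≤ U.card)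
    (T : Finset (ZMod q)) (K : ℕ) (hK : 1 ≤ K) (hT : T.card ≤ K) (θ l : ℝ) (hl0 : 0 < l)
    (hl1 : l ≤ 1 / 4) (hθ0 : 0 ≤ θ) (hθ : 1 - θ ≤ ∑ b ∈ T, g b) (c2 : ℝ)
    (hc2 : Real.log K - Real.log l ≤ c2 * Real.log U.card) :
    ∑ u ∈ U, (ent f + ent g - ent (conv f (du u g))) ≤
      U.card * (-Real.log (1 - 2 * l) + θ * (-Real.log l + ent f) + c2 * (ent f + ent g)) := by
  have hUc : (0 : ℝ) < U.card := by
    have : 0 < U.card := by omega
    exact_mod_cast this
  have hlogU : 0 < Real.log U.card := Real.log_pos (by exact_mod_cast hU2)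
  have hu0 : ∀ u ∈ U, u ≠ 0 := fun u hu h => hU (h ▸ hu)
  have hKr : (1 : ℝ) ≤ K := by exact_mod_cast hK
  have hLK : 0 ≤ Real.log K - Real.log l := by
    have h1 := Real.log_nonneg hKr
    have h2 := Real.log_nonpos hl0.le (by (clear * - hl1; linarith only [hl1]))
    linarith only [h1, h2]
  have hc20 : 0 ≤ c2 := by
    by_contra h
    push Not at h
    have := mul_neg_of_neg_of_pos h hlogU
    (clear * - hc2 hLK this; linarith only [hc2, hLK, this])
  have hhf := ent_nonneg f hf hf1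
  have hhg := ent_nonneg g hg hg1
  have hll : 0 ≤ -Real.log l := by
    have h2 := Real.log_nonpos hl0.le (by linarith only [hl1])
    linarith only [h2]
  have hl12 : 0 ≤ -Real.log (1 - 2 * l) := by
    have := Real.log_nonpos (show 0 ≤ 1 - 2 * l by linarith only [hl1]) (by linarith only [hl0])
    linarith only [this]
  obtain ⟨ρ, hρ⟩ : ∃ ρ : ZMod q → ℝ, ρ = fun u => ∑ a, ∑ b, f a * g b *
      (1 - f a * g b / conv f (du u g) (a + u * b)) := ⟨_, rfl⟩
  have h1 : ∀ u ∈ U, ent f + ent g - ent (conv f (du u g)) ≤ -Real.log (1 - 2 * l) +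
      θ * (-Real.log l + ent f) + (Real.log K - Real.log l) * ρ u := by
    intro u hu
    have := dil_loss f g hf hg hf1 hg1 u (hu0 u hu) T K hK hT θ l hl0 hl1 hθ
    rw [hρ]
    linarith only [this]
  have h2 := coll_le f g hf hg hf1 hg1 U hU (Finset.card_pos.1 (by omega))
  have h2' : Real.log U.card * ∑ u ∈ U, ρ u ≤ ∑ u ∈ U, ent (conv f (du u g)) := by
    rw [hρ]
    exact h2
  have hρ0 : 0 ≤ ∑ u ∈ U, ρ u := by
    refine Finset.sum_nonneg fun u hu => ?_
    rw [hρ]
    refine Finset.sum_nonneg fun a _ => Finset.sum_nonneg fun b _ => ?_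
    refine mul_nonneg (mul_nonneg (hf a) (hg b)) ?_
    have hwh : f a * g b ≤ conv f (du u g) (a + u * b) := by
      rw [conv_du u (hu0 u hu)]
      have h1 := Finset.single_le_sum (f := fun b' => g b' * f (a + u * b - u * b'))
        (fun c _ => mul_nonneg (hg c) (hf _)) (Finset.mem_univ b)
      simp only [add_sub_cancel_right] at h1
      rw [mul_comm]
      exact h1
    have := div_le_one_of_le₀ hwh (conv_nonneg f _ hf (du_nonneg u g hg) _)
    linarith only [this]
  have h3 := Finset.sum_le_sum h1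
  rw [Finset.sum_add_distrib, Finset.sum_const, nsmul_eq_mul, ← Finset.mul_sum] at h3
  have h4 : (Real.log K - Real.log l) * ∑ u ∈ U, ρ u ≤ c2 * ∑ u ∈ U, ent (conv f (du u g)) := by
    calc (Real.log K - Real.log l) * ∑ u ∈ U, ρ u ≤ c2 * Real.log U.card * ∑ u ∈ U, ρ u :=
          mul_le_mul_of_nonneg_right hc2 hρ0
      _ = c2 * (Real.log U.card * ∑ u ∈ U, ρ u) := by ring
      _ ≤ _ := mul_le_mul_of_nonneg_left h2' hc20
  have h5 : ∑ u ∈ U, (ent f + ent g - ent (conv f (du u g))) =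
      U.card * (ent f + ent g) - ∑ u ∈ U, ent (conv f (du u g)) := by
    rw [Finset.sum_sub_distrib, Finset.sum_const, nsmul_eq_mul]
  obtain ⟨D, hD⟩ : ∃ D : ℝ, D = ∑ u ∈ U, (ent f + ent g - ent (conv f (du u g))) := ⟨_, rfl⟩
  rw [← hD] at h3 h5 ⊢
  have h6 : ∑ u ∈ U, ent (conv f (du u g)) = U.card * (ent f + ent g) - D := by linarith only [h5]
  rw [h6] at h4
  have hX : 0 ≤ U.card * (-Real.log (1 - 2 * l) + θ * (-Real.log l + ent f) +
      c2 * (ent f + ent g)) := by
    have e1 := mul_nonneg hθ0 (add_nonneg hll hhf)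
    have e2 := mul_nonneg hc20 (add_nonneg hhf hhg)
    exact mul_nonneg hUc.le (by linarith only [hl12, e1, e2])
  rcases le_or_gt D 0 with hD0 | hD0
  · exact hD0.trans hX
  · have := mul_nonneg hc20 hD0.le
    linarith only [h4, h3, this]

end Pool.Agent.Helper28.LN
end

/- Helper24.DI.H28.LN.Joint -/
section
set_option autoImplicit false

/-!
# Project LINES (MP_120218), Joint: one digit of a sum `x + u y`, entropy form
-/

namespace Pool.Agent.Helper28.LN

open Finset Pool.Agent.Helper15.GL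

section Gen

open Classical in
/-- the class of `s` in `S` -/
noncomputable def ncs {α : Type} (S : Finset α) (r : α → α → Prop) (s : α) : Finset α :=
  S.filter (fun t => r t s)

/-- the size of the class of `s` in `S` -/
noncomputable def nc {α : Type} (S : Finset α) (r : α → α → Prop) (s : α) : ℕ :=
  (ncs S r s).card

theorem mem_ncs {α : Type} {S : Finset α} {r : α → α → Prop} {s t : α} :
    t ∈ ncs S r s ↔ t ∈ S ∧ r t s := by
  classical
  unfold ncs
  rw [Finset.mem_filter]

theorem nc_pos {α : Type} {S : Finset α} {r : α → α → Prop} (hr : Equivalence r) {s : α}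
    (hs : s ∈ S) : (0 : ℝ) < nc S r s := by
  unfold nc
  have : 0 < (ncs S r s).card :=
    Finset.card_pos.2 ⟨s, mem_ncs.2 ⟨hs, hr.refl s⟩⟩
  exact_mod_cast this

theorem nc_congr {α : Type} {S : Finset α} {r : α → α → Prop} (hr : Equivalence r) {s t : α}
    (h : r s t) : nc S r s = nc S r t := by
  unfold nc
  congr 1
  ext x
  rw [mem_ncs, mem_ncs]
  exact ⟨fun h1 => ⟨h1.1, hr.trans h1.2 h⟩, fun h1 => ⟨h1.1, hr.trans h1.2 (hr.symm h)⟩⟩

theorem gsub_aux {α : Type} (S : Finset α) (ρ σ δ : α → α → Prop) (hρ : Equivalence ρ)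
    (hσ : Equivalence σ) (hδ : Equivalence δ) (h1 : ∀ s t, ρ s t → δ s t)
    (h2 : ∀ s t, σ s t → δ s t) :
    ∑ y ∈ S, ((nc S σ y : ℝ) * nc S ρ y) /
      (nc S δ y * nc S (fun s t => ρ s t ∧ σ s t) y) ≤ S.card := by
  classical
  have hρσ : Equivalence (fun s t => ρ s t ∧ σ s t) :=
    ⟨fun s => ⟨hρ.refl s, hσ.refl s⟩, fun h => ⟨hρ.symm h.1, hσ.symm h.2⟩,
      fun h h' => ⟨hρ.trans h.1 h'.1, hσ.trans h.2 h'.2⟩⟩
  have e1 : ∀ y ∈ S, ((nc S σ y : ℝ) * nc S ρ y) /
      (nc S δ y * nc S (fun s t => ρ s t ∧ σ s t) y) =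
      ∑ z ∈ S, ∑ z' ∈ S, if (σ z y ∧ ρ z' y) then
        1 / ((nc S δ y : ℝ) * nc S (fun s t => ρ s t ∧ σ s t) y) else 0 := by
    intro y _
    have e2 : ∀ z ∈ S, ∑ z' ∈ S, (if (σ z y ∧ ρ z' y) then
        1 / ((nc S δ y : ℝ) * nc S (fun s t => ρ s t ∧ σ s t) y) else 0) =
        if σ z y then (nc S ρ y : ℝ) *
          (1 / ((nc S δ y : ℝ) * nc S (fun s t => ρ s t ∧ σ s t) y)) else 0 := by
      intro z _
      by_cases hz : σ z y
      · simp only [hz, true_and, if_true]
        rw [← Finset.sum_filter, Finset.sum_const, nsmul_eq_mul]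
        rfl
      · simp only [hz, false_and, if_false, Finset.sum_const_zero]
    rw [Finset.sum_congr rfl e2, ← Finset.sum_filter, Finset.sum_const, nsmul_eq_mul]
    have e3 : ((S.filter (fun z => σ z y)).card : ℝ) = nc S σ y := rfl
    rw [e3]
    ring
  rw [Finset.sum_congr rfl e1, Finset.sum_comm]
  have h3 : ∀ z ∈ S, ∑ y ∈ S, ∑ z' ∈ S, (if (σ z y ∧ ρ z' y) then
        1 / ((nc S δ y : ℝ) * nc S (fun s t => ρ s t ∧ σ s t) y) else 0) ≤ 1 := by
    intro z hz
    rw [Finset.sum_comm]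
    have h4 : ∀ z' ∈ S, ∑ y ∈ S, (if (σ z y ∧ ρ z' y) then
        1 / ((nc S δ y : ℝ) * nc S (fun s t => ρ s t ∧ σ s t) y) else 0) ≤
        if δ z' z then 1 / (nc S δ z : ℝ) else 0 := by
      intro z' _
      by_cases hex : ∃ y0 ∈ S, σ z y0 ∧ ρ z' y0
      · obtain ⟨y0, hy0, hw, hm'⟩ := hex
        have hmz : δ z' z := hδ.trans (h1 _ _ hm') (hδ.symm (h2 _ _ hw))
        rw [if_pos hmz]
        have h5 : ∀ y ∈ S, (if (σ z y ∧ ρ z' y) then
            1 / ((nc S δ y : ℝ) * nc S (fun s t => ρ s t ∧ σ s t) y) else 0) ≤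
            if (ρ y y0 ∧ σ y y0) then
              1 / ((nc S δ z : ℝ) * nc S (fun s t => ρ s t ∧ σ s t) y0) else 0 := by
          intro y hy
          by_cases hc : σ z y ∧ ρ z' y
          · have b1 : ρ y y0 ∧ σ y y0 :=
              ⟨hρ.trans (hρ.symm hc.2) hm', hσ.trans (hσ.symm hc.1) hw⟩
            rw [if_pos hc, if_pos b1, nc_congr hρσ b1, nc_congr hδ (hδ.symm (h2 _ _ hc.1))]
          · rw [if_neg hc]
            split_ifs
            · (clear * -; positivity)
            · exact le_rfl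
        refine (Finset.sum_le_sum h5).trans ?_
        rw [← Finset.sum_filter, Finset.sum_const, nsmul_eq_mul]
        have e3 : ((S.filter (fun y => ρ y y0 ∧ σ y y0)).card : ℝ) =
          nc S (fun s t => ρ s t ∧ σ s t) y0 := by
          unfold nc
          rw [Nat.cast_inj]
          congr 1
          ext t
          rw [Finset.mem_filter, mem_ncs]
        rw [e3]
        have h6 := nc_pos (S := S) hρσ hy0
        have h7 := nc_pos (S := S) hδ hz
        rw [mul_one_div, div_mul_eq_div_div_swap, div_self h6.ne']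
      · have h5 : ∑ y ∈ S, (if (σ z y ∧ ρ z' y) then
            1 / ((nc S δ y : ℝ) * nc S (fun s t => ρ s t ∧ σ s t) y) else 0) = 0 := by
          refine Finset.sum_eq_zero fun y hy => ?_
          rw [if_neg]
          intro hc
          exact hex ⟨y, hy, hc⟩
        rw [h5]
        split_ifs
        · (clear * -; positivity)
        · exact le_rfl
    refine (Finset.sum_le_sum h4).trans ?_
    rw [← Finset.sum_filter, Finset.sum_const, nsmul_eq_mul]
    have e3 : ((S.filter (fun y => δ y z)).card : ℝ) = nc S δ z := rfl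
    rw [e3, mul_one_div, div_self (nc_pos (S := S) hδ hz).ne']
  have h8 : ∑ y ∈ S, ∑ z ∈ S, ∑ z' ∈ S, (if (σ z y ∧ ρ z' y) then
        1 / ((nc S δ y : ℝ) * nc S (fun s t => ρ s t ∧ σ s t) y) else 0) ≤ S.card := by
    rw [Finset.sum_comm]
    refine (Finset.sum_le_sum h3).trans ?_
    simp
  rw [Finset.sum_comm] at h8
  exact h8

/-- submodularity of the entropy of functions on a finite set -/
theorem gsub {α : Type} (S : Finset α) (ρ σ δ : α → α → Prop) (hρ : Equivalence ρ)
    (hσ : Equivalence σ) (hδ : Equivalence δ) (h1 : ∀ s t, ρ s t → δ s t)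
    (h2 : ∀ s t, σ s t → δ s t) :
    ∑ y ∈ S, (Real.log (nc S σ y) - Real.log (nc S (fun s t => ρ s t ∧ σ s t) y)) ≤
      ∑ y ∈ S, (Real.log (nc S δ y) - Real.log (nc S ρ y)) := by
  classical
  have hρσ : Equivalence (fun s t => ρ s t ∧ σ s t) :=
    ⟨fun s => ⟨hρ.refl s, hσ.refl s⟩, fun h => ⟨hρ.symm h.1, hσ.symm h.2⟩,
      fun h h' => ⟨hρ.trans h.1 h'.1, hσ.trans h.2 h'.2⟩⟩
  have h := gsub_aux S ρ σ δ hρ hσ hδ h1 h2
  have h3 : ∀ y ∈ S, (Real.log (nc S σ y) - Real.log (nc S (fun s t => ρ s t ∧ σ s t) y)) -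
      (Real.log (nc S δ y) - Real.log (nc S ρ y)) ≤
      ((nc S σ y : ℝ) * nc S ρ y) / (nc S δ y * nc S (fun s t => ρ s t ∧ σ s t) y) - 1 := by
    intro y hy
    have a1 := nc_pos (S := S) hδ hy
    have a2 := nc_pos (S := S) hρ hy
    have a3 := nc_pos (S := S) hσ hy
    have a4 := nc_pos (S := S) hρσ hy
    have a5 := Real.log_le_sub_one_of_pos (show 0 <
      ((nc S σ y : ℝ) * nc S ρ y) / (nc S δ y * nc S (fun s t => ρ s t ∧ σ s t) y) by
      (clear * - a3 a2 a1 a4; positivity))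
    rw [Real.log_div (by (clear * - a3 a2; positivity)) (by (clear * - a1 a4; positivity)), Real.log_mul a3.ne' a2.ne',
      Real.log_mul a1.ne' a4.ne'] at a5
    (clear * - a5; linarith only [a5])
  have h4 := Finset.sum_le_sum h3
  rw [Finset.sum_sub_distrib (f := fun y => (Real.log (nc S σ y) -
    Real.log (nc S (fun s t => ρ s t ∧ σ s t) y))), Finset.sum_sub_distrib (g := fun _ => (1 : ℝ)),
    Finset.sum_const, nsmul_eq_mul, mul_one] at h4
  (clear * - h h4; linarith)

end Gen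

/-- the classes of pairs modulo `m` -/
def rm (m : ℕ) (s t : ℤ × ℤ) : Prop := (m : ℤ) ∣ s.1 - t.1 ∧ (m : ℤ) ∣ s.2 - t.2

/-- the same class modulo `m` and the same value of `x + u y` -/
def rs (m : ℕ) (u : ℤ) (s t : ℤ × ℤ) : Prop := rm m s t ∧ s.1 + u * s.2 = t.1 + u * t.2

/-- the same class modulo `m` and the same value of `x + u y` modulo `m'` -/
def rd (m m' : ℕ) (u : ℤ) (s t : ℤ × ℤ) : Prop :=
  rm m s t ∧ (m' : ℤ) ∣ (s.1 + u * s.2) - (t.1 + u * t.2)

theorem dvd_eqv (m : ℤ) : Equivalence (fun a b : ℤ => m ∣ a - b) :=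
  ⟨fun a => by simp, fun {a b} h => by rw [dvd_sub_comm]; exact h,
    fun {a b c} h h' => by have := dvd_add h h'; simpa using this⟩

theorem rm_eqv (m : ℕ) : Equivalence (rm m) :=
  ⟨fun _ => ⟨(dvd_eqv m).refl _, (dvd_eqv m).refl _⟩,
    fun h => ⟨(dvd_eqv m).symm h.1, (dvd_eqv m).symm h.2⟩,
    fun h h' => ⟨(dvd_eqv m).trans h.1 h'.1, (dvd_eqv m).trans h.2 h'.2⟩⟩

theorem rs_eqv (m : ℕ) (u : ℤ) : Equivalence (rs m u) :=
  ⟨fun _ => ⟨(rm_eqv m).refl _, rfl⟩, fun h => ⟨(rm_eqv m).symm h.1, h.2.symm⟩,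
    fun h h' => ⟨(rm_eqv m).trans h.1 h'.1, h.2.trans h'.2⟩⟩

theorem rd_eqv (m m' : ℕ) (u : ℤ) : Equivalence (rd m m' u) :=
  ⟨fun _ => ⟨(rm_eqv m).refl _, (dvd_eqv m').refl _⟩,
    fun h => ⟨(rm_eqv m).symm h.1, (dvd_eqv m').symm h.2⟩,
    fun h h' => ⟨(rm_eqv m).trans h.1 h'.1, (dvd_eqv m').trans h.2 h'.2⟩⟩

theorem nc_rm (m : ℕ) (X Y : Finset ℤ) (x y : ℤ) :
    nc (X ×ˢ Y) (rm m) (x, y) = (cl m X x).card * (cl m Y y).card := by
  unfold nc
  rw [← Finset.card_product]
  congr 1
  ext s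
  rw [mem_ncs, Finset.mem_product, Finset.mem_product, mem_cl, mem_cl]
  unfold rm
  exact ⟨fun h => ⟨⟨h.1.1, h.2.1⟩, h.1.2, h.2.2⟩, fun h => ⟨⟨h.1.1, h.2.1⟩, h.1.2, h.2.2⟩⟩

/-- the loss of the step in terms of counts -/
theorem joint_step (m q : ℕ) (u : ℤ) (X Y : Finset ℤ) :
    ∑ s ∈ X ×ˢ Y, (Real.log (nc (X ×ˢ Y) (rs m u) s) -
      Real.log (nc (X ×ˢ Y) (rs (m * q) u) s)) ≤
    ∑ s ∈ X ×ˢ Y, (Real.log (nc (X ×ˢ Y) (rd m (m * q) u) s) -
      Real.log (nc (X ×ˢ Y) (rm (m * q)) s)) := by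
  have h := gsub (X ×ˢ Y) (rm (m * q)) (rs m u) (rd m (m * q) u) (rm_eqv _) (rs_eqv _ _)
    (rd_eqv _ _ _) (by
      intro s t h1
      have hd : (m : ℤ) ∣ ((m * q : ℕ) : ℤ) := Int.natCast_dvd_natCast.2 (Dvd.intro q rfl)
      refine ⟨⟨hd.trans h1.1, hd.trans h1.2⟩, ?_⟩
      have e : (s.1 + u * s.2) - (t.1 + u * t.2) = (s.1 - t.1) + u * (s.2 - t.2) := by ring
      rw [e]
      exact dvd_add h1.1 (Dvd.dvd.mul_left h1.2 u)) (by
      intro s t h1
      refine ⟨h1.1, ?_⟩
      rw [h1.2, sub_self]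
      exact dvd_zero _)
  have e : nc (X ×ˢ Y) (rs (m * q) u) =
      nc (X ×ˢ Y) (fun s t => rm (m * q) s t ∧ rs m u s t) := by
    classical
    funext s
    unfold nc
    congr 1
    ext t
    rw [mem_ncs, mem_ncs]
    have hd : (m : ℤ) ∣ ((m * q : ℕ) : ℤ) := Int.natCast_dvd_natCast.2 (Dvd.intro q rfl)
    constructor
    · intro h1
      exact ⟨h1.1, h1.2.1, ⟨hd.trans h1.2.1.1, hd.trans h1.2.1.2⟩, h1.2.2⟩
    · intro h1
      exact ⟨h1.1, h1.2.1, h1.2.2.2⟩
  rw [e]
  exact h

/-- equality of the digits of the sum -/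
theorem digit_sum {m q : ℕ} (hm : 0 < m) (u : ℤ) {a b x y : ℤ} (ha : (m : ℤ) ∣ a - x)
    (hb : (m : ℤ) ∣ b - y) :
    ((m * q : ℕ) : ℤ) ∣ (a + u * b) - (x + u * y) ↔
      dg m q a + (u : ZMod q) * dg m q b = dg m q x + (u : ZMod q) * dg m q y := by
  have hP : (m : ℤ) ≠ 0 := by positivity
  have e : (a + u * b) - (x + u * y) = m * ((a / m + u * (b / m)) - (x / m + u * (y / m))) := by
    have e1 := ediv_sub ha
    have e2 := ediv_sub hb
    calc (a + u * b) - (x + u * y) = (a - x) + u * (b - y) := by ring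
      _ = m * (a / m - x / m) + u * (m * (b / m - y / m)) := by rw [← e1, ← e2]
      _ = _ := by ring
  rw [e, Nat.cast_mul, mul_dvd_mul_iff_left hP]
  unfold dg
  rw [← Int.cast_mul, ← Int.cast_mul, ← Int.cast_add, ← Int.cast_add,
    ZMod.intCast_eq_intCast_iff_dvd_sub, dvd_sub_comm]

variable {q : ℕ} [hq : Fact q.Prime]

/-- the value of the convolution of the laws of the digits -/
theorem conv_law (C D : Finset ℤ) (hC : C.Nonempty) (hD : D.Nonempty) (δ : ℤ → ZMod q)
    (u : ZMod q) (hu : u ≠ 0) (z : ZMod q) :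
    conv (law C δ) (du u (law D δ)) z =
      (((C ×ˢ D).filter (fun s => δ s.1 + u * δ s.2 = z)).card : ℝ) / (C.card * D.card) := by
  classical
  have hCc : (C.card : ℝ) ≠ 0 := by exact_mod_cast hC.card_pos.ne'
  have hDc : (D.card : ℝ) ≠ 0 := by exact_mod_cast hD.card_pos.ne'
  rw [conv_du u hu, eq_div_iff (mul_ne_zero hCc hDc)]
  have h1 := sum_law_mul D hD δ (fun b => law C δ (z - u * b))
  have h2 : (((C ×ˢ D).filter (fun s => δ s.1 + u * δ s.2 = z)).card : ℝ) =
      ∑ b ∈ D, (C.card : ℝ) * law C δ (z - u * δ b) := by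
    rw [Finset.card_filter, Finset.sum_product_right]
    push_cast
    refine Finset.sum_congr rfl fun b _ => ?_
    unfold law
    rw [mul_div_cancel₀ _ hCc, Finset.card_filter]
    push_cast
    refine Finset.sum_congr rfl fun a _ => ?_
    have : δ a + u * δ b = z ↔ δ a = z - u * δ b := by rw [eq_sub_iff_add_eq]
    simp only [this]
  rw [h2, ← Finset.mul_sum, ← h1]
  ring

/-- the entropy of the convolution of the laws of the digits -/
theorem ent_conv_law (C D : Finset ℤ) (hC : C.Nonempty) (hD : D.Nonempty) (δ : ℤ → ZMod q)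
    (u : ZMod q) (hu : u ≠ 0) :
    (C.card : ℝ) * D.card * ent (conv (law C δ) (du u (law D δ))) =
      ∑ a ∈ C, ∑ b ∈ D, (Real.log C.card + Real.log D.card -
        Real.log ((C ×ˢ D).filter (fun s => δ s.1 + u * δ s.2 = δ a + u * δ b)).card) := by
  classical
  have hCc : (0 : ℝ) < C.card := by exact_mod_cast hC.card_pos
  have hDc : (0 : ℝ) < D.card := by exact_mod_cast hD.card_pos
  obtain ⟨L, hL⟩ : ∃ L : ZMod q → ℝ, L = fun z => -Real.log (conv (law C δ) (du u (law D δ)) z)
    := ⟨_, rfl⟩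
  have h1 : ent (conv (law C δ) (du u (law D δ))) =
      ∑ a, ∑ b, law C δ a * law D δ b * L (a + u * b) := by
    have e1 := sum_conv_mul (law C δ) (du u (law D δ)) L
    have e2 : ent (conv (law C δ) (du u (law D δ))) =
        ∑ z, conv (law C δ) (du u (law D δ)) z * L z := by
      unfold ent Real.negMulLog
      refine Finset.sum_congr rfl fun z _ => ?_
      rw [hL]
      ring
    rw [e2, e1]
    refine Finset.sum_congr rfl fun a _ => ?_
    have e3 := sum_du u hu (law D δ) (fun b => law C δ a * L (a + b))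
    calc ∑ b, law C δ a * du u (law D δ) b * L (a + b) =
          ∑ b, du u (law D δ) b * (law C δ a * L (a + b)) :=
            Finset.sum_congr rfl fun b _ => by ring
      _ = ∑ b, law D δ b * (law C δ a * L (a + u * b)) := e3
      _ = _ := Finset.sum_congr rfl fun b _ => by ring
  have h2 : (C.card : ℝ) * D.card * ent (conv (law C δ) (du u (law D δ))) =
      ∑ a ∈ C, ∑ b ∈ D, L (δ a + u * δ b) := by
    rw [h1]
    have e1 : ∀ a, ∑ b, law C δ a * law D δ b * L (a + u * b) =
        law C δ a * ∑ b, law D δ b * L (a + u * b) := by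
      intro a
      rw [Finset.mul_sum]
      exact Finset.sum_congr rfl fun b _ => by ring
    rw [Finset.sum_congr rfl fun a _ => e1 a]
    have e2 := sum_law_mul C hC δ (fun a => ∑ b, law D δ b * L (a + u * b))
    have e3 : (C.card : ℝ) * D.card * ∑ a, law C δ a * ∑ b, law D δ b * L (a + u * b) =
        D.card * (C.card * ∑ a, law C δ a * ∑ b, law D δ b * L (a + u * b)) := by ring
    rw [e3, e2, Finset.mul_sum]
    refine Finset.sum_congr rfl fun a _ => ?_
    exact sum_law_mul D hD δ (fun b => L (δ a + u * b))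
  rw [h2]
  refine Finset.sum_congr rfl fun a ha => Finset.sum_congr rfl fun b hb => ?_
  have hpos : (0 : ℝ) < ((C ×ˢ D).filter
      (fun s => δ s.1 + u * δ s.2 = δ a + u * δ b)).card := by
    have : 0 < ((C ×ˢ D).filter (fun s => δ s.1 + u * δ s.2 = δ a + u * δ b)).card :=
      Finset.card_pos.2 ⟨(a, b), Finset.mem_filter.2 ⟨Finset.mk_mem_product ha hb, rfl⟩⟩
    exact_mod_cast this
  rw [hL]
  simp only
  rw [conv_law C D hC hD δ u hu, Real.log_div hpos.ne' (mul_pos hCc hDc).ne',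
    Real.log_mul hCc.ne' hDc.ne']
  ring

/-- the loss at the node of `x` and `y` -/
noncomputable def ls (m : ℕ) (u : ZMod q) (X Y : Finset ℤ) (x y : ℤ) : ℝ :=
  ent (law (cl m X x) (dg m q)) + ent (law (cl m Y y) (dg m q)) -
    ent (conv (law (cl m X x) (dg m q)) (du u (law (cl m Y y) (dg m q))))

theorem ls_eq (m : ℕ) (hm : 0 < m) (u : ℤ) (hu : (u : ZMod q) ≠ 0) (X Y : Finset ℤ) (x y : ℤ)
    (hx : x ∈ X) (hy : y ∈ Y) :
    ls (q := q) m u X Y x y = (∑ b ∈ cl m Y y, (∑ a ∈ cl m X x,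
      (Real.log (nc (X ×ˢ Y) (rd m (m * q) u) (a, b)) -
        Real.log (nc (X ×ˢ Y) (rm (m * q)) (a, b)))) / (cl m X x).card) /
          (cl m Y y).card := by
  classical
  obtain ⟨C, hC⟩ : ∃ C : Finset ℤ, C = cl m X x := ⟨_, rfl⟩
  obtain ⟨D, hD⟩ : ∃ D : Finset ℤ, D = cl m Y y := ⟨_, rfl⟩
  have hCne : C.Nonempty := by rw [hC]; exact cl_nonempty hx
  have hDne : D.Nonempty := by rw [hD]; exact cl_nonempty hy
  have hCc : (0 : ℝ) < C.card := by exact_mod_cast hCne.card_pos
  have hDc : (0 : ℝ) < D.card := by exact_mod_cast hDne.card_pos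
  have h1 := ent_conv_law C D hCne hDne (dg m q) (u : ZMod q) hu
  have h2 := ent_law C hCne (dg m q)
  have h3 := ent_law D hDne (dg m q)
  unfold ls
  rw [← hC, ← hD, ← Finset.sum_div, div_div, eq_div_iff (mul_pos hCc hDc).ne']
  have e1 : (ent (law C (dg m q)) + ent (law D (dg m q)) -
      ent (conv (law C (dg m q)) (du (u : ZMod q) (law D (dg m q))))) * (C.card * D.card) =
      D.card * (C.card * ent (law C (dg m q))) + C.card * (D.card * ent (law D (dg m q))) -
      C.card * D.card * ent (conv (law C (dg m q)) (du (u : ZMod q) (law D (dg m q)))) := by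
    ring
  rw [e1, h1, h2, h3]
  have e2 : (D.card : ℝ) * ∑ a ∈ C, (Real.log C.card -
      Real.log ((C.filter (fun z => dg m q z = dg m q a)).card)) =
      ∑ b ∈ D, ∑ a ∈ C, (Real.log C.card -
        Real.log ((C.filter (fun z => dg m q z = dg m q a)).card)) := by
    rw [Finset.sum_const, nsmul_eq_mul]
  have e3 : (C.card : ℝ) * ∑ b ∈ D, (Real.log D.card -
      Real.log ((D.filter (fun z => dg m q z = dg m q b)).card)) =
      ∑ b ∈ D, ∑ _a ∈ C, (Real.log D.card -
        Real.log ((D.filter (fun z => dg m q z = dg m q b)).card)) := by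
    rw [Finset.mul_sum]
    refine Finset.sum_congr rfl fun b _ => ?_
    rw [Finset.sum_const, nsmul_eq_mul]
  rw [e2, e3, Finset.sum_comm (s := C) (t := D), ← Finset.sum_add_distrib,
    ← Finset.sum_sub_distrib]
  refine Finset.sum_congr rfl fun b hb => ?_
  rw [← Finset.sum_add_distrib, ← Finset.sum_sub_distrib]
  refine Finset.sum_congr rfl fun a ha => ?_
  have haC : a ∈ cl m X x := by rw [← hC]; exact ha
  have hbD : b ∈ cl m Y y := by rw [← hD]; exact hb
  have haX := (mem_cl.1 haC).1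
  have hbY := (mem_cl.1 hbD).1
  have f1 : C.filter (fun z => dg m q z = dg m q a) = cl (m * q) X a := by
    rw [hC]; exact filter_dg m q hm X x a haC
  have f2 : D.filter (fun z => dg m q z = dg m q b) = cl (m * q) Y b := by
    rw [hD]; exact filter_dg m q hm Y y b hbD
  have f3 : nc (X ×ˢ Y) (rd m (m * q) u) (a, b) =
      ((C ×ˢ D).filter (fun s => dg m q s.1 + (u : ZMod q) * dg m q s.2 =
        dg m q a + (u : ZMod q) * dg m q b)).card := by
    unfold nc
    congr 1
    ext s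
    rw [mem_ncs, Finset.mem_filter, Finset.mem_product, Finset.mem_product]
    unfold rd rm
    simp only
    constructor
    · rintro ⟨⟨g1, g2⟩, ⟨g3, g4⟩, g5⟩
      refine ⟨⟨?_, ?_⟩, (digit_sum hm u g3 g4).1 g5⟩
      · rw [hC, mem_cl]
        exact ⟨g1, (dvd_eqv m).trans g3 (mem_cl.1 haC).2⟩
      · rw [hD, mem_cl]
        exact ⟨g2, (dvd_eqv m).trans g4 (mem_cl.1 hbD).2⟩
    · rintro ⟨⟨g1, g2⟩, g5⟩
      rw [hC, mem_cl] at g1
      rw [hD, mem_cl] at g2
      have g3 : (m : ℤ) ∣ s.1 - a := (dvd_eqv m).trans g1.2 ((dvd_eqv m).symm (mem_cl.1 haC).2)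
      have g4 : (m : ℤ) ∣ s.2 - b := (dvd_eqv m).trans g2.2 ((dvd_eqv m).symm (mem_cl.1 hbD).2)
      exact ⟨⟨g1.1, g2.1⟩, ⟨g3, g4⟩, (digit_sum hm u g3 g4).2 g5⟩
  rw [f1, f2, f3, nc_rm]
  have g1 := cl_card_pos (m := m * q) haX
  have g2 := cl_card_pos (m := m * q) hbY
  rw [Nat.cast_mul, Real.log_mul g1.ne' g2.ne']
  ring

/-- the sum of the losses -/
theorem sum_ls (m : ℕ) (hm : 0 < m) (u : ℤ) (hu : (u : ZMod q) ≠ 0) (X Y : Finset ℤ) :
    ∑ s ∈ X ×ˢ Y, (Real.log (nc (X ×ˢ Y) (rd m (m * q) u) s) -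
      Real.log (nc (X ×ˢ Y) (rm (m * q)) s)) =
      ∑ x ∈ X, ∑ y ∈ Y, ls (q := q) m u X Y x y := by
  rw [Finset.sum_product]
  obtain ⟨F, hF⟩ : ∃ F : ℤ → ℤ → ℝ, F = fun a b =>
    (Real.log (nc (X ×ˢ Y) (rd m (m * q) u) (a, b)) -
      Real.log (nc (X ×ˢ Y) (rm (m * q)) (a, b))) := ⟨_, rfl⟩
  have h1 : ∀ x ∈ X, ∀ y ∈ Y, ls (q := q) m u X Y x y = (∑ b ∈ cl m Y y, (∑ a ∈ cl m X x,
      F a b) / (cl m X x).card) / (cl m Y y).card := by
    intro x hx y hy
    rw [ls_eq m hm u hu X Y x y hx hy, hF]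
  have h2 : ∑ x ∈ X, ∑ y ∈ Y, ls (q := q) m u X Y x y =
      ∑ x ∈ X, ∑ y ∈ Y, (∑ b ∈ cl m Y y, (∑ a ∈ cl m X x, F a b) / (cl m X x).card) /
        (cl m Y y).card :=
    Finset.sum_congr rfl fun x hx => Finset.sum_congr rfl fun y hy => h1 x hx y hy
  rw [h2]
  have h3 : ∀ x ∈ X, ∑ y ∈ Y, (∑ b ∈ cl m Y y, (∑ a ∈ cl m X x, F a b) / (cl m X x).card) /
        (cl m Y y).card = (∑ a ∈ cl m X x, ∑ y ∈ Y, F a y) / (cl m X x).card := by
    intro x _
    rw [avg_cl m Y (fun b => (∑ a ∈ cl m X x, F a b) / (cl m X x).card), ← Finset.sum_div,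
      Finset.sum_comm]
  rw [Finset.sum_congr rfl h3, avg_cl m X (fun a => ∑ y ∈ Y, F a y), hF]

end Pool.Agent.Helper28.LN
end

/- Helper24.DI.H28.LN.Val -/
section
set_option autoImplicit false

/-!
# Project LINES (MP_120218), Val: matched moduli, and the states at which a prime is stuck
-/

namespace Pool.Agent.Helper28.LN

open Finset

theorem shift_iff (q : ℕ) (hq : q.Prime) (G : ℚ) (hG : G ≠ 0) (d d' : ℤ)
    (h : (d' : ℚ) = G * d) (n : ℕ) :
    ((q ^ n : ℕ) : ℤ) ∣ d' ↔ ((q ^ ((n : ℤ) - padicValRat q G).toNat : ℕ) : ℤ) ∣ d := by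
  have := Fact.mk hq
  by_cases hd : d = 0
  · subst hd
    have : d' = 0 := by
      have : (d' : ℚ) = 0 := by rw [h]; simp
      exact_mod_cast this
    subst this
    simp
  · have hd' : d' ≠ 0 := by
      rintro rfl
      rw [Int.cast_zero] at h
      rcases mul_eq_zero.1 h.symm with h1 | h1
      · exact hG h1
      · exact hd (by exact_mod_cast h1)
    have hv : (padicValInt q d' : ℤ) = padicValRat q G + padicValInt q d := by
      have h1 : padicValRat q (d' : ℚ) = padicValRat q (G * d) := by rw [h]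
      rw [padicValRat.mul hG (by exact_mod_cast hd), padicValRat.of_int, padicValRat.of_int]
        at h1
      exact h1
    rw [Nat.cast_pow, Nat.cast_pow, padicValInt_dvd_iff, padicValInt_dvd_iff]
    simp only [hd, hd', false_or]
    omega

/-- the shifted levels -/
def shj (q : ℕ → ℕ) (G : ℚ) (j : ℕ → ℕ) : ℕ → ℕ :=
  fun l => ((j l : ℤ) - padicValRat (q l) G).toNat

theorem matched_shj (r : ℕ) (q : ℕ → ℕ) (hq : ∀ i < r, (q i).Prime)
    (hinj : ∀ i < r, ∀ l < r, i ≠ l → q i ≠ q l) (G : ℚ) (hG : G ≠ 0) (j : ℕ → ℕ) :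
    Matched (MM r q j) (MM r q (shj q G j)) G := by
  intro d d' h
  rw [MM_dvd_iff r q j hq hinj, MM_dvd_iff r q _ hq hinj]
  refine forall_congr' fun i => forall_congr' fun hi => ?_
  exact shift_iff (q i) (hq i hi) G hG d d' h (j i)

theorem MM_congr (r : ℕ) (q : ℕ → ℕ) (j j' : ℕ → ℕ) (h : ∀ i < r, j i = j' i) :
    MM r q j = MM r q j' :=
  Finset.prod_congr rfl fun i hi => by rw [h i (Finset.mem_range.1 hi)]

theorem matched_high (r : ℕ) (q : ℕ → ℕ) (hq : ∀ i < r, (q i).Prime)
    (hinj : ∀ i < r, ∀ l < r, i ≠ l → q i ≠ q l) (G : ℚ) (hG : G ≠ 0) (j : ℕ → ℕ)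
    (i : ℕ) (hi : i < r) (hw : padicValRat (q i) G ≤ j i) :
    Matched (MM r q j * q i) (MM r q (shj q G j) * q i) G := by
  have h := matched_shj r q hq hinj G hG (up j i)
  rw [MM_up r q j i hi] at h
  rw [← MM_up r q (shj q G j) i hi]
  have h2 : MM r q (up (shj q G j) i) = MM r q (shj q G (up j i)) := by
    refine MM_congr r q _ _ fun l _ => ?_
    unfold up shj
    by_cases hl : l = i
    · subst hl
      rw [Function.update_self, Function.update_self]
      push_cast
      (clear * - r hw; omega)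
    · rw [Function.update_of_ne hl, Function.update_of_ne hl]
  rw [h2]
  exact h

theorem matched_low (r : ℕ) (q : ℕ → ℕ) (hq : ∀ i < r, (q i).Prime)
    (hinj : ∀ i < r, ∀ l < r, i ≠ l → q i ≠ q l) (G : ℚ) (hG : G ≠ 0) (j : ℕ → ℕ)
    (i : ℕ) (hi : i < r) (hw : (j i : ℤ) < padicValRat (q i) G) :
    Matched (MM r q j * q i) (MM r q (shj q G j)) G := by
  have h := matched_shj r q hq hinj G hG (up j i)
  rw [MM_up r q j i hi] at h
  have h2 : MM r q (shj q G j) = MM r q (shj q G (up j i)) := by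
    refine MM_congr r q _ _ fun l _ => ?_
    unfold up shj
    by_cases hl : l = i
    · subst hl
      rw [Function.update_self]
      push_cast
      omega
    · rw [Function.update_of_ne hl]
  rw [h2]
  exact h

/-- the state `(0, .., 0, h, j (i + 1), ..)` -/
def stt (j : ℕ → ℕ) (i h : ℕ) : ℕ → ℕ := fun l => if l < i then 0 else if l = i then h else j l

/-- A stuck digit gives entropy at a much lower level (positive valuation). -/
theorem stuck_pos (r : ℕ) (q : ℕ → ℕ) (hq : ∀ i < r, (q i).Prime)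
    (hinj : ∀ i < r, ∀ l < r, i ≠ l → q i ≠ q l) (A : Finset ℤ) (hA : A.Nonempty)
    (j : ℕ → ℕ) (i : ℕ) (hi : i < r) (g : ℚ) (hg : g ≠ 0) (hv : 0 < padicValRat (q i) g)
    (hv0 : ∀ l < r, i < l → padicValRat (q l) g ≤ 0)
    (t0 ε1 : ℝ) (ht0 : 0 < t0) (ht1 : t0 ≤ 1) (hε1 : 0 < ε1)
    (hst : ε1 * A.card < nS (MM r q j) (q i) t0 A) (u : ℕ)
    (hu : 26 * (u * ((bad g A).card : ℝ)) ≤ ε1 * t0 * A.card) :
    u * (padicValRat (q i) g).toNat ≤ j i ∧
      t0 * ε1 / 4 * A.card ≤ FF (MM r q (stt j i (j i - u * (padicValRat (q i) g).toNat)))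
        (MM r q (stt j i (j i - u * (padicValRat (q i) g).toNat)) * q i) A := by
  have := Fact.mk (hq i hi)
  have hG : g ^ u ≠ 0 := pow_ne_zero _ hg
  have hAc : (0 : ℝ) < A.card := by exact_mod_cast hA.card_pos
  have hbad : ((bad (g ^ u) A).card : ℝ) ≤ u * (bad g A).card := by
    exact_mod_cast card_bad_pow g hg A u
  have hvG : ∀ l < r, padicValRat (q l) (g ^ u) = u * padicValRat (q l) g := by
    intro l hl
    have := Fact.mk (hq l hl)
    rw [padicValRat.pow]
  obtain ⟨a, ha⟩ : ∃ a : ℕ, a = (padicValRat (q i) g).toNat := ⟨_, rfl⟩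
  have hav : padicValRat (q i) g = a := by rw [ha]; omega
  have hGi : padicValRat (q i) (g ^ u) = ((u * a : ℕ) : ℤ) := by
    rw [hvG i hi, hav]
    push_cast
    ring
  rw [← ha]
  have hm := matched_shj r q hq hinj (g ^ u) hG j
  by_cases hlow : j i < u * a
  · exfalso
    have h1 := nS_low hG hm (matched_low r q hq hinj (g ^ u) hG j i hi (by
      rw [hGi]
      exact_mod_cast hlow)) A t0 ht0 ht1
    have h2 := mul_lt_mul_of_pos_left hst ht0
    have h3 : 0 < t0 * (ε1 * A.card) := mul_pos ht0 (mul_pos hε1 hAc)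
    (clear * - hu hbad h1 h2; linarith only [hu, hbad, h1, h2])
  · push Not at hlow
    refine ⟨hlow, ?_⟩
    have h1 := nS_high hG hm (matched_high r q hq hinj (g ^ u) hG j i hi (by
      rw [hGi]
      exact_mod_cast hlow)) A t0 ht0 ht1
    have h2 := mul_lt_mul_of_pos_left hst ht0
    have h3 : t0 * (ε1 * A.card) / 2 ≤ t0 * nS (MM r q (shj q (g ^ u) j)) (q i) (t0 / 2) A := by
      (clear * - hu hbad h1 h2; linarith only [hu, hbad, h1, h2])
    have h4 := FF_ge_nS (MM r q (shj q (g ^ u) j)) (q i) (MM_pos r q _ hq) (t0 / 2)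
      (by linarith only [ht0]) (by linarith only [ht1]) A
    have h5 := submod_MM r q hq hinj (stt j i (j i - u * a)) (shj q (g ^ u) j) (by
      intro l hl
      unfold stt shj
      by_cases h1 : l < i
      · rw [if_pos h1]
        exact Nat.zero_le _
      · rw [if_neg h1]
        by_cases h2 : l = i
        · rw [if_pos h2]
          subst h2
          rw [hGi]
          omega
        · rw [if_neg h2, hvG l hl]
          have h3 := hv0 l hl (by omega)
          have h4 : (u : ℤ) * padicValRat (q l) g ≤ 0 :=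
            mul_nonpos_of_nonneg_of_nonpos (Int.natCast_nonneg u) h3
          omega) i hi (by
        unfold stt shj
        rw [if_neg (lt_irrefl i), if_pos rfl, hGi]
        omega) A
    (clear * - h3 h4 h5; linarith only [h3, h4, h5])

/-- A stuck digit gives entropy at a much lower level. -/
theorem stuck_one (r : ℕ) (q : ℕ → ℕ) (hq : ∀ i < r, (q i).Prime)
    (hinj : ∀ i < r, ∀ l < r, i ≠ l → q i ≠ q l) (A : Finset ℤ) (hA : A.Nonempty)
    (j : ℕ → ℕ) (i : ℕ) (hi : i < r) (g : ℚ) (hg : g ≠ 0) (hv : padicValRat (q i) g ≠ 0)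
    (hv0 : ∀ l < r, i < l → padicValRat (q i) g * padicValRat (q l) g ≤ 0)
    (t0 ε1 : ℝ) (ht0 : 0 < t0) (ht1 : t0 ≤ 1) (hε1 : 0 < ε1)
    (hst : ε1 * A.card < nS (MM r q j) (q i) t0 A) (u : ℕ)
    (hu : 26 * (u * ((bad g A).card : ℝ)) ≤ ε1 * t0 * A.card) :
    u * (padicValRat (q i) g).natAbs ≤ j i ∧
      t0 * ε1 / 4 * A.card ≤ FF (MM r q (stt j i (j i - u * (padicValRat (q i) g).natAbs)))
        (MM r q (stt j i (j i - u * (padicValRat (q i) g).natAbs)) * q i) A := by
  rcases lt_or_gt_of_ne hv with h | h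
  · have := Fact.mk (hq i hi)
    have h1 : padicValRat (q i) g⁻¹ = - padicValRat (q i) g := padicValRat.inv g
    have h2 := stuck_pos r q hq hinj A hA j i hi g⁻¹ (inv_ne_zero hg) (by omega) (by
      intro l hl hil
      have := Fact.mk (hq l hl)
      rw [padicValRat.inv]
      have h2 := nonneg_of_mul_nonpos_right (hv0 l hl hil) h
      omega) t0 ε1 ht0 ht1 hε1 hst u (by
      rw [card_bad_inv hg]
      exact hu)
    have h3 : (padicValRat (q i) g⁻¹).toNat = (padicValRat (q i) g).natAbs := by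
      rw [h1]
      omega
    rw [h3] at h2
    exact h2
  · have h2 := stuck_pos r q hq hinj A hA j i hi g hg h (fun l hl hil =>
      nonpos_of_mul_nonpos_right (hv0 l hl hil) h) t0 ε1 ht0 ht1 hε1 hst u hu
    have h3 : (padicValRat (q i) g).toNat = (padicValRat (q i) g).natAbs := by
      omega
    rw [h3] at h2
    exact h2

theorem MM_stt_succ (r : ℕ) (q : ℕ → ℕ) (j : ℕ → ℕ) (i h : ℕ) (hi : i < r) :
    MM r q (stt j i (h + 1)) = MM r q (stt j i h) * q i := by
  rw [← MM_up r q (stt j i h) i hi]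
  refine MM_congr r q _ _ fun l _ => ?_
  unfold up stt
  by_cases hl : l = i
  · subst hl
    rw [Function.update_self]
    simp
  · rw [Function.update_of_ne hl]
    simp [hl]

theorem FF_stt (r : ℕ) (q : ℕ → ℕ) (A : Finset ℤ) (j : ℕ → ℕ) (i : ℕ) (hi : i < r) (n : ℕ) :
    FF (MM r q (stt j i 0)) (MM r q (stt j i n)) A =
      ∑ h ∈ Finset.range n, FF (MM r q (stt j i h)) (MM r q (stt j i h) * q i) A := by
  induction n with
  | zero =>
    unfold FF el
    simp
  | succ n ih =>
    rw [Finset.sum_range_succ, ← ih, ← MM_stt_succ r q j i n hi, FF_add]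

/-- raising one coordinate of a stuck state from `0` -/
theorem stuck_line (r : ℕ) (q : ℕ → ℕ) (hq : ∀ i < r, (q i).Prime)
    (hinj : ∀ i < r, ∀ l < r, i ≠ l → q i ≠ q l) (A : Finset ℤ) (hA : A.Nonempty)
    (j : ℕ → ℕ) (i : ℕ) (hi : i < r) (g : ℚ) (hg : g ≠ 0) (hv : padicValRat (q i) g ≠ 0)
    (hv0 : ∀ l < r, i < l → padicValRat (q i) g * padicValRat (q l) g ≤ 0)
    (t0 ε1 : ℝ) (ht0 : 0 < t0) (ht1 : t0 ≤ 1) (hε1 : 0 < ε1)
    (hst : ε1 * A.card < nS (MM r q j) (q i) t0 A) (u : ℕ)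
    (hu : 26 * (u * ((bad g A).card : ℝ)) ≤ ε1 * t0 * A.card) :
    u * (t0 * ε1 / 4 * A.card) ≤ FF (MM r q (stt j i 0)) (MM r q (stt j i (j i))) A := by
  classical
  obtain ⟨a, ha⟩ : ∃ a : ℕ, a = (padicValRat (q i) g).natAbs := ⟨_, rfl⟩
  have ha0 : 0 < a := by
    rw [ha]
    exact Int.natAbs_pos.2 hv
  have hone : ∀ v ∈ Finset.Icc 1 u, v * a ≤ j i ∧
      t0 * ε1 / 4 * A.card ≤ FF (MM r q (stt j i (j i - v * a)))
        (MM r q (stt j i (j i - v * a)) * q i) A := by
    intro v hv1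
    rw [Finset.mem_Icc] at hv1
    rw [ha]
    refine stuck_one r q hq hinj A hA j i hi g hg hv hv0 t0 ε1 ht0 ht1 hε1 hst v ?_
    have h1 : (v : ℝ) ≤ u := by exact_mod_cast hv1.2
    have h2 : (v : ℝ) * (bad g A).card ≤ u * (bad g A).card :=
      mul_le_mul_of_nonneg_right h1 (Nat.cast_nonneg _)
    linarith only [hu, h2]
  rw [FF_stt r q A j i hi]
  have hinj2 : Set.InjOn (fun v : ℕ => j i - v * a) (Finset.Icc 1 u : Finset ℕ) := by
    intro v hv1 w hw1 h
    have h1 := (hone v hv1).1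
    have h2 := (hone w hw1).1
    simp only at h
    have h3 : v * a = w * a := by omega
    exact Nat.eq_of_mul_eq_mul_right ha0 h3
  have hsub : (Finset.Icc 1 u).image (fun v : ℕ => j i - v * a) ⊆ Finset.range (j i) := by
    intro h hh
    rw [Finset.mem_image] at hh
    obtain ⟨v, hv1, rfl⟩ := hh
    have h1 := (hone v hv1).1
    rw [Finset.mem_Icc] at hv1
    rw [Finset.mem_range]
    have h2 : 1 * 1 ≤ v * a := Nat.mul_le_mul hv1.1 ha0
    omega
  refine le_trans ?_ (Finset.sum_le_sum_of_subset_of_nonneg hsub fun h _ _ =>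
    FF_nonneg (Dvd.intro _ rfl) A)
  rw [Finset.sum_image hinj2]
  have h1 : (u : ℝ) * (t0 * ε1 / 4 * A.card) =
      ∑ _v ∈ Finset.Icc 1 u, (t0 * ε1 / 4 * A.card) := by
    rw [Finset.sum_const, nsmul_eq_mul, Nat.card_Icc]
    congr 1
  rw [h1]
  exact Finset.sum_le_sum fun v hv1 => (hone v hv1).2

/-- **Stuck states need many digits.** -/
theorem stuck_bound (r : ℕ) (q : ℕ → ℕ) (hq : ∀ i < r, (q i).Prime)
    (hinj : ∀ i < r, ∀ l < r, i ≠ l → q i ≠ q l) (A : Finset ℤ) (hA : A.Nonempty)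
    (j : ℕ → ℕ) (g : ℕ → ℚ) (hg : ∀ i < r, g i ≠ 0)
    (hv : ∀ i < r, padicValRat (q i) (g i) ≠ 0)
    (hv0 : ∀ i < r, ∀ l < r, i < l → padicValRat (q i) (g i) * padicValRat (q l) (g i) ≤ 0)
    (t0 ε1 : ℝ) (ht0 : 0 < t0) (ht1 : t0 ≤ 1) (hε1 : 0 < ε1)
    (hst : ∀ i < r, ε1 * A.card < nS (MM r q j) (q i) t0 A) (u : ℕ → ℕ)
    (hu : ∀ i < r, 26 * (u i * ((bad (g i) A).card : ℝ)) ≤ ε1 * t0 * A.card) :
    (t0 * ε1 / 4) * ∑ i ∈ Finset.range r, (u i : ℝ) ≤ Real.log A.card := by
  have hAc : (0 : ℝ) < A.card := by exact_mod_cast hA.card_pos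
  obtain ⟨T, hT⟩ : ∃ T : ℕ → ℕ → ℕ, T = fun i l => if l < i then 0 else j l := ⟨_, rfl⟩
  have hstep : ∀ i < r, u i * (t0 * ε1 / 4 * A.card) ≤ FF (MM r q (T (i + 1))) (MM r q (T i)) A
      := by
    intro i hi
    have h := stuck_line r q hq hinj A hA j i hi (g i) (hg i hi) (hv i hi) (hv0 i hi)
      t0 ε1 ht0 ht1 hε1 (hst i hi) (u i) (hu i hi)
    have e1 : MM r q (stt j i 0) = MM r q (T (i + 1)) := by
      refine MM_congr r q _ _ fun l _ => ?_
      rw [hT]
      unfold stt
      simp only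
      by_cases h1 : l < i
      · rw [if_pos h1, if_pos (by omega)]
      · by_cases h2 : l = i
        · rw [if_neg h1, if_pos h2, if_pos (by omega)]
        · rw [if_neg h1, if_neg h2, if_neg (by omega)]
    have e2 : MM r q (stt j i (j i)) = MM r q (T i) := by
      refine MM_congr r q _ _ fun l _ => ?_
      rw [hT]
      unfold stt
      simp only
      by_cases h1 : l < i
      · rw [if_pos h1, if_pos h1]
      · by_cases h2 : l = i
        · rw [if_neg h1, if_pos h2, if_neg h1, h2]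
        · rw [if_neg h1, if_neg h2, if_neg h1]
    rw [e1, e2] at h
    exact h
  have hind : ∀ n ≤ r, (∑ i ∈ Finset.range n, (u i : ℝ)) * (t0 * ε1 / 4 * A.card) ≤
      FF (MM r q (T n)) (MM r q (T 0)) A := by
    intro n
    induction n with
    | zero =>
      intro _
      unfold FF el
      simp
    | succ n ih =>
      intro hn
      have h1 := ih (by omega)
      have h2 := hstep n (by omega)
      rw [Finset.sum_range_succ, add_mul, ← FF_add (MM r q (T (n + 1))) (MM r q (T n))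
        (MM r q (T 0)) A]
      linarith only [h1, h2]
  have h1 := hind r le_rfl
  have e1 : MM r q (T r) = 1 := by
    unfold MM
    refine Finset.prod_eq_one fun l hl => ?_
    rw [hT]
    simp only
    rw [if_pos (Finset.mem_range.1 hl), pow_zero]
  rw [e1] at h1
  have h2 := h1.trans (FF_one_le (MM r q (T 0)) A)
  refine le_of_mul_le_mul_left ?_ hAc
  (clear * - h2; linarith only [h2])

end Pool.Agent.Helper28.LN
end

/- Helper24.DI.H28.LN.Heavy -/
section
set_option autoImplicit false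

/-!
# Project LINES (MP_120218), Heavy: nodes which are not carried by `K` digits
-/

namespace Pool.Agent.Helper28.LN

open Finset Pool.Agent.Helper15.GL

/-- the next digit is heavy: no `K` values carry the proportion `1 - t` -/
def Hv (m q K : ℕ) (t : ℝ) (X : Finset ℤ) (x : ℤ) : Prop :=
  ∀ T : Finset (ZMod q), T.card ≤ K →
    (((cl m X x).filter (fun z => dg m q z ∈ T)).card : ℝ) < (1 - t) * (cl m X x).card

open Classical in
/-- the number of elements at a heavy node -/
noncomputable def nH (m q K : ℕ) (t : ℝ) (X : Finset ℤ) : ℕ :=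
  (X.filter (fun x => Hv m q K t X x)).card

theorem hv_spread {m q K : ℕ} (hm : 0 < m) (hK : 1 ≤ K) {t : ℝ} {X : Finset ℤ} {x : ℤ}
    (h : Hv m q K t X x) : Spread m q t X x := by
  intro y hy
  have h1 := h {dg m q y} (by rw [Finset.card_singleton]; exact hK)
  have h2 : (cl m X x).filter (fun z => dg m q z ∈ ({dg m q y} : Finset (ZMod q))) =
      cl (m * q) X y := by
    rw [← filter_dg m q hm X x y hy]
    refine Finset.filter_congr fun z _ => ?_
    rw [Finset.mem_singleton]
  rw [h2] at h1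
  exact h1

theorem nH_le_nS (m q K : ℕ) (hm : 0 < m) (hK : 1 ≤ K) (t : ℝ) (X : Finset ℤ) :
    nH m q K t X ≤ nS m q t X := by
  classical
  unfold nH nS
  refine Finset.card_le_card fun x hx => ?_
  rw [Finset.mem_filter] at hx ⊢
  exact ⟨hx.1, hv_spread hm hK hx.2⟩

theorem hv_congr {m q K : ℕ} {t : ℝ} {X : Finset ℤ} {x y : ℤ} (h : (m : ℤ) ∣ y - x) :
    Hv m q K t X y ↔ Hv m q K t X x := by
  unfold Hv
  rw [cl_eq h]

/-- heavy nodes have entropy `log K` -/
theorem FF_ge_nH (m q K : ℕ) (hm : 0 < m) [NeZero q] (hK : 1 ≤ K) (t : ℝ)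
    (X : Finset ℤ) : t * Real.log K * nH m q K t X ≤ FF m (m * q) X := by
  classical
  have hKr : (1 : ℝ) ≤ K := by exact_mod_cast hK
  have hlogK : 0 ≤ Real.log K := Real.log_nonneg hKr
  have hdvd : m ∣ m * q := Dvd.intro q rfl
  rw [← sum_hh m q hm X]
  unfold nH
  have h1 : t * Real.log K * ((X.filter (fun x => Hv m q K t X x)).card : ℝ) =
      ∑ x ∈ X.filter (fun x => Hv m q K t X x), t * Real.log K := by
    rw [Finset.sum_const, nsmul_eq_mul, mul_comm]
  rw [h1]
  refine le_trans (Finset.sum_le_sum (g := fun x => hh m q X x) fun x hx => ?_)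
    (Finset.sum_le_sum_of_subset_of_nonneg (Finset.filter_subset _ _)
      fun x hx _ => hh_nonneg m q X x hx)
  rw [Finset.mem_filter] at hx
  obtain ⟨hxX, hHv⟩ := hx
  rw [hh_eq m q hm X x hxX]
  obtain ⟨C, hC⟩ : ∃ C : Finset ℤ, C = cl m X x := ⟨_, rfl⟩
  have hCpos : (0 : ℝ) < C.card := by rw [hC]; exact cl_card_pos hxX
  obtain ⟨T, hT⟩ : ∃ T : Finset (ZMod q), T = univ.filter (fun d =>
    C.card < K * (C.filter (fun z => dg m q z = d)).card) := ⟨_, rfl⟩
  have hTK : T.card ≤ K := by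
    by_contra hcon
    push Not at hcon
    have e1 : ∑ d, (C.filter (fun z => dg m q z = d)).card = C.card := by
      have := Finset.card_eq_sum_card_fiberwise (f := dg m q) (s := C) (t := univ)
        (fun _ _ => Finset.mem_coe.2 (Finset.mem_univ _))
      exact this.symm
    have e2 : T.card * C.card ≤ K * C.card := by
      calc T.card * C.card = ∑ _d ∈ T, C.card := by rw [Finset.sum_const, smul_eq_mul]
        _ ≤ ∑ d ∈ T, K * (C.filter (fun z => dg m q z = d)).card := by
            refine Finset.sum_le_sum fun d hd => ?_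
            rw [hT, Finset.mem_filter] at hd
            exact hd.2.le
        _ ≤ ∑ d, K * (C.filter (fun z => dg m q z = d)).card :=
            Finset.sum_le_sum_of_subset (Finset.subset_univ _)
        _ = K * C.card := by rw [← Finset.mul_sum, e1]
    have e3 : 0 < C.card := by exact_mod_cast hCpos
    have e4 := Nat.le_of_mul_le_mul_right e2 e3
    omega
  have h2 := hHv T hTK
  rw [← hC] at h2 ⊢
  rw [le_div_iff₀ hCpos]
  have hsplit := Finset.card_filter_add_card_filter_not (s := C) (fun z => dg m q z ∈ T)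
  have hsplit' : ((C.filter (fun z => dg m q z ∈ T)).card : ℝ) +
      (C.filter (fun z => ¬ dg m q z ∈ T)).card = C.card := by exact_mod_cast hsplit
  have hCX : ∀ z ∈ C, z ∈ X := by
    intro z hz
    rw [hC, mem_cl] at hz
    exact hz.1
  have h3 : ∑ z ∈ C.filter (fun z => ¬ dg m q z ∈ T), Real.log K ≤
      ∑ z ∈ C, el m (m * q) X z := by
    refine le_trans (Finset.sum_le_sum (g := fun z => el m (m * q) X z) fun z hz => ?_)
      (Finset.sum_le_sum_of_subset_of_nonneg (Finset.filter_subset _ _)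
        fun z hz _ => el_nonneg hdvd X z (hCX z hz))
    rw [Finset.mem_filter] at hz
    obtain ⟨hzC, hzT⟩ := hz
    rw [hT, Finset.mem_filter, not_and] at hzT
    have h4 := hzT (Finset.mem_univ _)
    push Not at h4
    have hz' : z ∈ cl m X x := by rw [← hC]; exact hzC
    have h5 : C.filter (fun w => dg m q w = dg m q z) = cl (m * q) X z := by
      rw [hC]
      exact filter_dg m q hm X x z hz'
    rw [h5] at h4
    have h6 : cl m X z = C := by
      rw [hC]
      exact cl_eq (mem_cl.1 hz').2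
    unfold el
    rw [h6]
    have h7 := cl_card_pos (m := m * q) (hCX z hzC)
    have h8 : ((K : ℝ) * (cl (m * q) X z).card) ≤ C.card := by exact_mod_cast h4
    have h9 := Real.log_le_log (by (clear * - hK h7; positivity)) h8
    rw [Real.log_mul (by positivity) h7.ne'] at h9
    linarith only [h9]
  rw [Finset.sum_const, nsmul_eq_mul] at h3
  have h4 : t * C.card ≤ ((C.filter (fun z => ¬ dg m q z ∈ T)).card : ℝ) := by linarith only [h2, hsplit']
  have h5 := mul_le_mul_of_nonneg_right h4 hlogK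
  linarith only [h3, h5]

/-- the digit at a level above the shift: heavy nodes move -/
theorem nH_high {G : ℚ} (hG : G ≠ 0) {m' m q : ℕ} (hm' : 0 < m') (hm : 0 < m)
    (h1 : Matched m' m G) (h2 : Matched (m' * q) (m * q) G) (A : Finset ℤ) (K : ℕ) (t : ℝ)
    (ht0 : 0 < t) (ht1 : t ≤ 1) :
    t * nH m' q K t A ≤ t * nH m q K (t / 2) A + 13 * (bad G A).card := by
  classical
  obtain ⟨κ, hκ⟩ : ∃ κ : ℝ, κ = t / 6 := ⟨_, rfl⟩
  have hκ0 : 0 < κ := by rw [hκ]; (clear * - ht0; positivity)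
  obtain ⟨S1, hS1⟩ : ∃ S1 : Finset ℤ, S1 = A.filter (fun y => κ * (cl m' A y).card <
        ((cl m' A y).filter (fun a => a ∈ bad G⁻¹ A)).card) := ⟨_, rfl⟩
  obtain ⟨S2, hS2⟩ : ∃ S2 : Finset ℤ, S2 = A.filter (fun y => κ * (cl m A y).card <
        ((cl m A y).filter (fun a => a ∈ bad G A)).card) := ⟨_, rfl⟩
  obtain ⟨S3, hS3⟩ : ∃ S3 : Finset ℤ, S3 = A.filter (fun x => Hv m q K (t / 2) A x) :=
    ⟨_, rfl⟩
  have hsub : A.filter (fun x => Hv m' q K t A x) ⊆ bad G⁻¹ A ∪ S1 ∪
      ((good G⁻¹ A).filter (fun y' => sh G⁻¹ y' ∈ S2) ∪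
       (good G⁻¹ A).filter (fun y' => sh G⁻¹ y' ∈ S3)) := by
    intro y' hy'
    rw [Finset.mem_filter] at hy'
    rw [Finset.mem_union, Finset.mem_union, Finset.mem_union, Finset.mem_filter,
      Finset.mem_filter]
    rcases good_or_bad G⁻¹ A y' hy'.1 with hg | hb
    · by_cases hs1 : y' ∈ S1
      · exact Or.inl (Or.inr hs1)
      by_cases hs2 : sh G⁻¹ y' ∈ S2
      · exact Or.inr (Or.inl ⟨hg, hs2⟩)
      refine Or.inr (Or.inr ⟨hg, ?_⟩)
      obtain ⟨y, hy⟩ : ∃ y : ℤ, y = sh G⁻¹ y' := ⟨_, rfl⟩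
      rw [← hy] at hs2 ⊢
      have hyA : y ∈ A := by rw [hy]; exact (mem_good.1 hg).2.1
      have hyy : (y' : ℚ) = G * y := by
        rw [hy, (mem_good.1 hg).2.2, mul_inv_cancel_left₀ hG]
      have hs1' : (((cl m' A y').filter (fun a => a ∈ bad G⁻¹ A)).card : ℝ) ≤
          κ * (cl m' A y').card := by
        by_contra h
        push Not at h
        exact hs1 (by rw [hS1, Finset.mem_filter]; exact ⟨hy'.1, h⟩)
      have hs2' : (((cl m A y).filter (fun a => a ∈ bad G A)).card : ℝ) ≤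
          κ * (cl m A y).card := by
        by_contra h
        push Not at h
        exact hs2 (by rw [hS2, Finset.mem_filter]; exact ⟨hyA, h⟩)
      rw [hS3, Finset.mem_filter]
      refine ⟨hyA, ?_⟩
      intro T hTK
      have c1 := card_good_cl hG h1 A y y' hyy
      have c2 := card_split _ _ A (good_or_bad G⁻¹ A) (cl m' A y') (cl_subset _ _ _)
      have c3 : (((cl m A y).filter (fun a => a ∈ good G A)).card : ℝ) ≤ (cl m A y).card := by
        exact_mod_cast Finset.card_le_card (Finset.filter_subset _ _)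
      have c4 : (1 - κ) * ((cl m' A y').card : ℝ) ≤ (cl m A y).card := by
        have : (((cl m' A y').filter (fun a => a ∈ good G⁻¹ A)).card : ℝ) =
          ((cl m A y).filter (fun a => a ∈ good G A)).card := by exact_mod_cast c1
        (clear * - hs1' c2 c3 this; linarith only [hs1', c2, c3, this])
      obtain ⟨D, hD⟩ : ∃ D : Finset ℤ, D = (cl m A y).filter (fun z => dg m q z ∈ T) :=
        ⟨_, rfl⟩
      have hDcl : D ⊆ cl m A y := by rw [hD]; exact Finset.filter_subset _ _
      rw [← hD]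
      have c5 := card_split _ _ A (good_or_bad G A) D (hDcl.trans (cl_subset _ _ _))
      have c6 : ((D.filter (fun a => a ∈ bad G A)).card : ℝ) ≤
          ((cl m A y).filter (fun a => a ∈ bad G A)).card := by
        exact_mod_cast Finset.card_le_card (Finset.filter_subset_filter _ hDcl)
      have hc'pos := cl_card_pos (m := m') hy'.1
      have hcpos := cl_card_pos (m := m) hyA
      -- the good part
      have c7 : ((D.filter (fun a => a ∈ good G A)).card : ℝ) ≤
          (1 - t) * (cl m' A y').card := by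
        obtain ⟨Wd, hWd⟩ : ∃ Wd : Finset ℤ, Wd = D.filter (fun a => a ∈ good G A) := ⟨_, rfl⟩
        rw [← hWd]
        have hW1 : ∀ w ∈ Wd, w ∈ cl m A y ∧ dg m q w ∈ T ∧ w ∈ good G A := by
          intro w hw
          rw [hWd, hD, Finset.mem_filter, Finset.mem_filter] at hw
          exact ⟨hw.1.1, hw.1.2, hw.2⟩
        have hWm : ∀ w ∈ Wd, sh G w ∈ cl m' A y' := by
          intro w hw
          obtain ⟨e1, _, e3⟩ := hW1 w hw
          rw [mem_good] at e3
          rw [mem_cl]
          refine ⟨e3.2.1, ?_⟩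
          have e4 : ((sh G w - y' : ℤ) : ℚ) = G * ((w - y : ℤ) : ℚ) := by
            push_cast
            rw [e3.2.2, hyy]
            ring
          rw [h1 _ _ e4]
          exact (mem_cl.1 e1).2
        -- equal digits below are equal digits above
        have hdig : ∀ w ∈ Wd, ∀ v ∈ Wd,
            (dg m' q (sh G w) = dg m' q (sh G v) ↔ dg m q w = dg m q v) := by
          intro w hw v hv
          obtain ⟨e1, _, e3⟩ := hW1 w hw
          obtain ⟨f1, _, f3⟩ := hW1 v hv
          rw [mem_good] at e3 f3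
          have e4 : ((sh G w - sh G v : ℤ) : ℚ) = G * ((w - v : ℤ) : ℚ) := by
            push_cast
            rw [e3.2.2, f3.2.2]
            ring
          have e5 : (m : ℤ) ∣ w - v := by
            have := dvd_sub (mem_cl.1 e1).2 (mem_cl.1 f1).2
            simpa using this
          have e6 : (m' : ℤ) ∣ sh G w - sh G v := (h1 _ _ e4).2 e5
          rw [dg_eq_iff hm' e6, dg_eq_iff hm e5]
          exact h2 _ _ e4
        obtain ⟨T', hT'⟩ : ∃ T' : Finset (ZMod q), T' = Wd.image (fun w => dg m' q (sh G w)) :=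
          ⟨_, rfl⟩
        have hT'K : T'.card ≤ K := by
          refine le_trans ?_ hTK
          have hex : ∀ d ∈ T', ∃ w ∈ Wd, dg m' q (sh G w) = d := by
            intro d hd
            rw [hT', Finset.mem_image] at hd
            exact hd
          choose! F hF using hex
          refine Finset.card_le_card_of_injOn (fun d => dg m q (F d)) ?_ ?_
          · intro d hd
            exact (hW1 _ (hF d (Finset.mem_coe.1 hd)).1).2.1
          · intro d hd e he hde
            have hd' := hF d (Finset.mem_coe.1 hd)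
            have he' := hF e (Finset.mem_coe.1 he)
            rw [← hd'.2, ← he'.2]
            exact (hdig _ hd'.1 _ he'.1).2 hde
        have d1 := hy'.2 T' hT'K
        have d2 : Wd.card ≤ ((cl m' A y').filter (fun z => dg m' q z ∈ T')).card := by
          refine Finset.card_le_card_of_injOn (sh G) ?_ ?_
          · intro w hw
            rw [Finset.mem_coe, Finset.mem_filter]
            refine ⟨hWm w hw, ?_⟩
            rw [hT', Finset.mem_image]
            exact ⟨w, hw, rfl⟩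
          · intro w hw v hv hwv
            rw [← sh_sh hG (hW1 w hw).2.2, ← sh_sh hG (hW1 v hv).2.2, hwv]
        have d3 : (Wd.card : ℝ) ≤ ((cl m' A y').filter (fun z => dg m' q z ∈ T')).card := by
          exact_mod_cast d2
        (clear * - d1 d3; linarith only [d1, d3])
      have c8 : (D.card : ℝ) ≤
          (1 - t) * (cl m' A y').card + κ * (cl m A y).card := by linarith only [hs2', c5, c6, c7]
      have c9 : (1 - t) * ((cl m' A y').card : ℝ) ≤
          (1 - t) * (1 + 2 * κ) * (cl m A y).card := by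
        rw [mul_assoc]
        refine mul_le_mul_of_nonneg_left ?_ (by linarith only [ht1])
        have hk : κ ≤ 1 / 2 := by rw [hκ]; (clear * - ht1; linarith only [ht1])
        have e1 : ((cl m' A y').card : ℝ) ≤ (1 + 2 * κ) * ((1 - κ) * (cl m' A y').card) := by
          have : 0 ≤ κ * (1 - 2 * κ) * (cl m' A y').card := by
            apply mul_nonneg (mul_nonneg hκ0.le (by (clear * - hk; linarith only [hk]))) hc'pos.le
          (clear * - this; linarith only [this])
        exact e1.trans (mul_le_mul_of_nonneg_left c4 (by (clear * - hκ0; linarith only [hκ0])))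
      have c10 : (1 - t) * (1 + 2 * κ) * (cl m A y).card + κ * (cl m A y).card <
          (1 - t / 2) * ((cl m A y).card : ℝ) := by
        rw [← add_mul]
        refine mul_lt_mul_of_pos_right ?_ hcpos
        rw [hκ]
        (clear * - ht0; nlinarith only [ht0])
      linarith only [c8, c9, c10]
    · exact Or.inl (Or.inl hb)
  -- counting
  have hinj : ∀ S : Finset ℤ, ((good G⁻¹ A).filter (fun y' => sh G⁻¹ y' ∈ S)).card ≤
      S.card := by
    intro S
    refine Finset.card_le_card_of_injOn (sh G⁻¹) ?_ ?_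
    · intro a ha
      exact (Finset.mem_filter.1 ha).2
    · intro a ha b hb hab
      have ha' := sh_sh (inv_ne_zero hG) (Finset.mem_filter.1 ha).1
      have hb' := sh_sh (inv_ne_zero hG) (Finset.mem_filter.1 hb).1
      rw [← ha', ← hb', hab]
  have hnS : nH m' q K t A ≤ (bad G⁻¹ A).card + S1.card + (S2.card + nH m q K (t / 2) A) := by
    have e1 := (Finset.card_le_card hsub).trans (Finset.card_union_le _ _)
    have e2 := Finset.card_union_le (bad G⁻¹ A) S1
    have e3 := Finset.card_union_le ((good G⁻¹ A).filter (fun y' => sh G⁻¹ y' ∈ S2))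
      ((good G⁻¹ A).filter (fun y' => sh G⁻¹ y' ∈ S3))
    have e4 := hinj S2
    have e5 := hinj S3
    have e6 : S3.card = nH m q K (t / 2) A := by
      rw [hS3]
      unfold nH
      rfl
    have e7 : (A.filter (fun x => Hv m' q K t A x)).card = nH m' q K t A := by
      unfold nH
      rfl
    rw [e7] at e1
    omega
  have hnS' : (nH m' q K t A : ℝ) ≤ (bad G A).card + S1.card + (S2.card +
      nH m q K (t / 2) A) := by
    rw [← card_bad_inv hG]
    exact_mod_cast hnS
  have m1 := markov m' A (bad G⁻¹ A) (bad_subset _ _) κ hκ0.le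
  have m2 := markov m A (bad G A) (bad_subset _ _) κ hκ0.le
  rw [← hS1, card_bad_inv hG, hκ] at m1
  rw [← hS2, hκ] at m2
  have h3 := mul_le_mul_of_nonneg_left hnS' ht0.le
  have h6 : t * ((bad G A).card : ℝ) ≤ (bad G A).card :=
    mul_le_of_le_one_left (Nat.cast_nonneg _) ht1
  linarith only [m1, m2, h3, h6]

end Pool.Agent.Helper28.LN
end

/- Helper24.DI.H28.LN.StuckH -/
section
set_option autoImplicit false

/-!
# Project LINES (MP_120218), StuckH: states at which all primes are heavy need many digits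
-/

namespace Pool.Agent.Helper28.LN

open Finset

/-- A stuck digit gives entropy at a much lower level (positive valuation). -/
theorem stuckH_pos (r : ℕ) (q : ℕ → ℕ) (hq : ∀ i < r, (q i).Prime)
    (hinj : ∀ i < r, ∀ l < r, i ≠ l → q i ≠ q l) (A : Finset ℤ) (hA : A.Nonempty)
    (j : ℕ → ℕ) (i : ℕ) (hi : i < r) (g : ℚ) (hg : g ≠ 0) (hv : 0 < padicValRat (q i) g)
    (hv0 : ∀ l < r, i < l → padicValRat (q l) g ≤ 0) (K : ℕ) (hK : 1 ≤ K)
    (t0 ε1 : ℝ) (ht0 : 0 < t0) (ht1 : t0 ≤ 1) (hε1 : 0 < ε1)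
    (hst : ε1 * A.card < nH (MM r q j) (q i) K t0 A) (u : ℕ)
    (hu : 26 * (u * ((bad g A).card : ℝ)) ≤ ε1 * t0 * A.card) :
    u * (padicValRat (q i) g).toNat ≤ j i ∧
      t0 * ε1 / 4 * Real.log K * A.card ≤
        FF (MM r q (stt j i (j i - u * (padicValRat (q i) g).toNat)))
        (MM r q (stt j i (j i - u * (padicValRat (q i) g).toNat)) * q i) A := by
  have := Fact.mk (hq i hi)
  have : NeZero (q i) := ⟨(hq i hi).ne_zero⟩
  have hG : g ^ u ≠ 0 := pow_ne_zero _ hg
  have hAc : (0 : ℝ) < A.card := by exact_mod_cast hA.card_pos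
  have hKr : (1 : ℝ) ≤ K := by exact_mod_cast hK
  have hlogK : 0 ≤ Real.log K := Real.log_nonneg hKr
  have hbad : ((bad (g ^ u) A).card : ℝ) ≤ u * (bad g A).card := by
    exact_mod_cast card_bad_pow g hg A u
  have hvG : ∀ l < r, padicValRat (q l) (g ^ u) = u * padicValRat (q l) g := by
    intro l hl
    have := Fact.mk (hq l hl)
    rw [padicValRat.pow]
  obtain ⟨a, ha⟩ : ∃ a : ℕ, a = (padicValRat (q i) g).toNat := ⟨_, rfl⟩
  have hav : padicValRat (q i) g = a := by rw [ha]; omega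
  have hGi : padicValRat (q i) (g ^ u) = ((u * a : ℕ) : ℤ) := by
    rw [hvG i hi, hav]
    push_cast
    ring
  rw [← ha]
  have hm := matched_shj r q hq hinj (g ^ u) hG j
  by_cases hlow : j i < u * a
  · exfalso
    have h1 := nS_low hG hm (matched_low r q hq hinj (g ^ u) hG j i hi (by
      rw [hGi]
      exact_mod_cast hlow)) A t0 ht0 ht1
    have h0 : (nH (MM r q j) (q i) K t0 A : ℝ) ≤ nS (MM r q j) (q i) t0 A := by
      exact_mod_cast nH_le_nS _ _ K (MM_pos r q j hq) hK t0 A
    have h2 := mul_lt_mul_of_pos_left (hst.trans_le h0) ht0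
    have h3 : 0 < t0 * (ε1 * A.card) := mul_pos ht0 (mul_pos hε1 hAc)
    (clear * - hu hbad h1 h2; linarith only [hu, hbad, h1, h2])
  · push Not at hlow
    refine ⟨hlow, ?_⟩
    have h1 := nH_high hG (MM_pos r q j hq) (MM_pos r q _ hq) hm
      (matched_high r q hq hinj (g ^ u) hG j i hi (by
      rw [hGi]
      exact_mod_cast hlow)) A K t0 ht0 ht1
    have h2 := mul_lt_mul_of_pos_left hst ht0
    have h3 : t0 * (ε1 * A.card) / 2 ≤
        t0 * nH (MM r q (shj q (g ^ u) j)) (q i) K (t0 / 2) A := by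
      linarith only [hu, hbad, h1, h2]
    have h4 := FF_ge_nH (MM r q (shj q (g ^ u) j)) (q i) K (MM_pos r q _ hq) hK (t0 / 2) A
    have h5 := submod_MM r q hq hinj (stt j i (j i - u * a)) (shj q (g ^ u) j) (by
      intro l hl
      unfold stt shj
      by_cases h1 : l < i
      · rw [if_pos h1]
        exact Nat.zero_le _
      · rw [if_neg h1]
        by_cases h2 : l = i
        · rw [if_pos h2]
          subst h2
          rw [hGi]
          omega
        · rw [if_neg h2, hvG l hl]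
          have h3 := hv0 l hl (by omega)
          have h4 : (u : ℤ) * padicValRat (q l) g ≤ 0 :=
            mul_nonpos_of_nonneg_of_nonpos (Int.natCast_nonneg u) h3
          omega) i hi (by
        unfold stt shj
        rw [if_neg (lt_irrefl i), if_pos rfl, hGi]
        omega) A
    have h6 := mul_le_mul_of_nonneg_right h3 hlogK
    have e1 : t0 * (ε1 * A.card) / 2 * Real.log K = 2 * (t0 * ε1 / 4 * Real.log K * A.card) := by
      ring
    have e2 : t0 * (nH (MM r q (shj q (g ^ u) j)) (q i) K (t0 / 2) A : ℝ) * Real.log K =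
        2 * (t0 / 2 * Real.log K * nH (MM r q (shj q (g ^ u) j)) (q i) K (t0 / 2) A) := by
      ring
    rw [e1, e2] at h6
    linarith only [h4, h5, h6]

/-- raising one coordinate of a stuck state from `0` -/
theorem stuckH_line (r : ℕ) (q : ℕ → ℕ) (hq : ∀ i < r, (q i).Prime)
    (hinj : ∀ i < r, ∀ l < r, i ≠ l → q i ≠ q l) (A : Finset ℤ) (hA : A.Nonempty)
    (j : ℕ → ℕ) (i : ℕ) (hi : i < r) (g : ℚ) (hg : g ≠ 0) (hv : 0 < padicValRat (q i) g)
    (hv0 : ∀ l < r, i < l → padicValRat (q l) g ≤ 0) (K : ℕ) (hK : 1 ≤ K)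
    (t0 ε1 : ℝ) (ht0 : 0 < t0) (ht1 : t0 ≤ 1) (hε1 : 0 < ε1)
    (hst : ε1 * A.card < nH (MM r q j) (q i) K t0 A) (u : ℕ)
    (hu : 26 * (u * ((bad g A).card : ℝ)) ≤ ε1 * t0 * A.card) :
    u * (t0 * ε1 / 4 * Real.log K * A.card) ≤
      FF (MM r q (stt j i 0)) (MM r q (stt j i (j i))) A := by
  classical
  obtain ⟨a, ha⟩ : ∃ a : ℕ, a = (padicValRat (q i) g).toNat := ⟨_, rfl⟩
  have ha0 : 0 < a := by
    rw [ha]
    omega
  have hone : ∀ v ∈ Finset.Icc 1 u, v * a ≤ j i ∧
      t0 * ε1 / 4 * Real.log K * A.card ≤ FF (MM r q (stt j i (j i - v * a)))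
        (MM r q (stt j i (j i - v * a)) * q i) A := by
    intro v hv1
    rw [Finset.mem_Icc] at hv1
    rw [ha]
    refine stuckH_pos r q hq hinj A hA j i hi g hg hv hv0 K hK t0 ε1 ht0 ht1 hε1 hst v ?_
    have h1 : (v : ℝ) ≤ u := by exact_mod_cast hv1.2
    have h2 : (v : ℝ) * (bad g A).card ≤ u * (bad g A).card :=
      mul_le_mul_of_nonneg_right h1 (Nat.cast_nonneg _)
    linarith only [hu, h2]
  rw [FF_stt r q A j i hi]
  have hinj2 : Set.InjOn (fun v : ℕ => j i - v * a) (Finset.Icc 1 u : Finset ℕ) := by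
    intro v hv1 w hw1 h
    have h1 := (hone v hv1).1
    have h2 := (hone w hw1).1
    simp only at h
    have h3 : v * a = w * a := by omega
    exact Nat.eq_of_mul_eq_mul_right ha0 h3
  have hsub : (Finset.Icc 1 u).image (fun v : ℕ => j i - v * a) ⊆ Finset.range (j i) := by
    intro h hh
    rw [Finset.mem_image] at hh
    obtain ⟨v, hv1, rfl⟩ := hh
    have h1 := (hone v hv1).1
    rw [Finset.mem_Icc] at hv1
    rw [Finset.mem_range]
    have h2 : 1 * 1 ≤ v * a := Nat.mul_le_mul hv1.1 ha0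
    omega
  refine le_trans ?_ (Finset.sum_le_sum_of_subset_of_nonneg hsub fun h _ _ =>
    FF_nonneg (Dvd.intro _ rfl) A)
  rw [Finset.sum_image hinj2]
  have h1 : (u : ℝ) * (t0 * ε1 / 4 * Real.log K * A.card) =
      ∑ _v ∈ Finset.Icc 1 u, (t0 * ε1 / 4 * Real.log K * A.card) := by
    rw [Finset.sum_const, nsmul_eq_mul, Nat.card_Icc]
    congr 1
  rw [h1]
  exact Finset.sum_le_sum fun v hv1 => (hone v hv1).2

/-- **Stuck states need many digits.** -/
theorem stuckH_bound (r : ℕ) (q : ℕ → ℕ) (hq : ∀ i < r, (q i).Prime)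
    (hinj : ∀ i < r, ∀ l < r, i ≠ l → q i ≠ q l) (A : Finset ℤ) (hA : A.Nonempty)
    (j : ℕ → ℕ) (g : ℕ → ℚ) (hg : ∀ i < r, g i ≠ 0)
    (hv : ∀ i < r, 0 < padicValRat (q i) (g i))
    (hv0 : ∀ i < r, ∀ l < r, i < l → padicValRat (q l) (g i) ≤ 0) (K : ℕ) (hK : 1 ≤ K)
    (t0 ε1 : ℝ) (ht0 : 0 < t0) (ht1 : t0 ≤ 1) (hε1 : 0 < ε1)
    (hst : ∀ i < r, ε1 * A.card < nH (MM r q j) (q i) K t0 A) (u : ℕ → ℕ)
    (hu : ∀ i < r, 26 * (u i * ((bad (g i) A).card : ℝ)) ≤ ε1 * t0 * A.card) :
    (t0 * ε1 / 4 * Real.log K) * ∑ i ∈ Finset.range r, (u i : ℝ) ≤ Real.log A.card := by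
  have hAc : (0 : ℝ) < A.card := by exact_mod_cast hA.card_pos
  obtain ⟨T, hT⟩ : ∃ T : ℕ → ℕ → ℕ, T = fun i l => if l < i then 0 else j l := ⟨_, rfl⟩
  have hstep : ∀ i < r, u i * (t0 * ε1 / 4 * Real.log K * A.card) ≤
      FF (MM r q (T (i + 1))) (MM r q (T i)) A := by
    intro i hi
    have h := stuckH_line r q hq hinj A hA j i hi (g i) (hg i hi) (hv i hi) (hv0 i hi) K hK
      t0 ε1 ht0 ht1 hε1 (hst i hi) (u i) (hu i hi)
    have e1 : MM r q (stt j i 0) = MM r q (T (i + 1)) := by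
      refine MM_congr r q _ _ fun l _ => ?_
      rw [hT]
      unfold stt
      simp only
      by_cases h1 : l < i
      · rw [if_pos h1, if_pos (by omega)]
      · by_cases h2 : l = i
        · rw [if_neg h1, if_pos h2, if_pos (by omega)]
        · rw [if_neg h1, if_neg h2, if_neg (by omega)]
    have e2 : MM r q (stt j i (j i)) = MM r q (T i) := by
      refine MM_congr r q _ _ fun l _ => ?_
      rw [hT]
      unfold stt
      simp only
      by_cases h1 : l < i
      · rw [if_pos h1, if_pos h1]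
      · by_cases h2 : l = i
        · rw [if_neg h1, if_pos h2, if_neg h1, h2]
        · rw [if_neg h1, if_neg h2, if_neg h1]
    rw [e1, e2] at h
    exact h
  have hind : ∀ n ≤ r, (∑ i ∈ Finset.range n, (u i : ℝ)) *
      (t0 * ε1 / 4 * Real.log K * A.card) ≤ FF (MM r q (T n)) (MM r q (T 0)) A := by
    intro n
    induction n with
    | zero =>
      intro _
      unfold FF el
      simp
    | succ n ih =>
      intro hn
      have h1 := ih (by (clear * - K hn; omega))
      have h2 := hstep n (by omega)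
      rw [Finset.sum_range_succ, add_mul, ← FF_add (MM r q (T (n + 1))) (MM r q (T n))
        (MM r q (T 0)) A]
      (clear * - h1 h2; linarith only [h1, h2])
  have h1 := hind r le_rfl
  have e1 : MM r q (T r) = 1 := by
    unfold MM
    refine Finset.prod_eq_one fun l hl => ?_
    rw [hT]
    simp only
    rw [if_pos (Finset.mem_range.1 hl), pow_zero]
  rw [e1] at h1
  have h2 := h1.trans (FF_one_le (MM r q (T 0)) A)
  refine le_of_mul_le_mul_left ?_ hAc
  linarith only [h2]

end Pool.Agent.Helper28.LN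
end

/- Helper24.DI.H28.LN.Chain -/
section
set_option autoImplicit false

/-!
# Project LINES (MP_120218), Chain: a chain of moduli at which `Y` is rarely spread makes
`X + Y` large for every `X`
-/

namespace Pool.Agent.Helper28.LN

open Finset Pool.Agent.Helper15.GL

/-- the node inequality with constants `η`, `t0` -/
def NodeP (η t0 : ℝ) : Prop :=
  ∀ (G : Type) [Fintype G] [AddCommGroup G] (f g : G → ℝ),
    (∀ a, 0 ≤ f a) → (∀ a, 0 ≤ g a) → ∑ a, f a = 1 → ∑ a, g a = 1 →
    ∀ b0 : G, 1 - t0 ≤ g b0 → ent f + ent g - ent (conv f g) ≤ η * (ent f + ent g)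

/-- the logarithm of the sumset of two classes -/
noncomputable def ta (m : ℕ) (X Y : Finset ℤ) (x y : ℤ) : ℝ :=
  Real.log ((Finset.image₂ (fun a b => a + b) (cl m X x) (cl m Y y)).card)

theorem ta_step (m q : ℕ) (hm : 0 < m) [NeZero q] (X Y : Finset ℤ) (x y : ℤ) (hxX : x ∈ X)
    (hyY : y ∈ Y) :
    ent (conv (law (cl m X x) (dg m q)) (law (cl m Y y) (dg m q))) +
      (∑ y' ∈ cl m Y y, (∑ x' ∈ cl m X x, ta (m * q) X Y x' y') /
        (cl m X x).card) / (cl m Y y).card ≤ ta m X Y x y := by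
  classical
  obtain ⟨C, hC⟩ : ∃ C : Finset ℤ, C = cl m X x := ⟨_, rfl⟩
  obtain ⟨D, hD⟩ : ∃ D : Finset ℤ, D = cl m Y y := ⟨_, rfl⟩
  have hCne : C.Nonempty := by rw [hC]; exact cl_nonempty hxX
  have hDne : D.Nonempty := by rw [hD]; exact cl_nonempty hyY
  have hCc : (0 : ℝ) < C.card := by exact_mod_cast Finset.card_pos.2 hCne
  have hDc : (0 : ℝ) < D.card := by exact_mod_cast Finset.card_pos.2 hDne
  obtain ⟨P, hP⟩ : ∃ P : ℤ, P = (m : ℤ) := ⟨_, rfl⟩
  have hP0 : P ≠ 0 := by rw [hP]; (clear * - hm; positivity)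
  have hmod : ∀ {a b : ℤ}, P ∣ a - b → a % P = b % P := fun h =>
    Int.emod_eq_emod_iff_emod_sub_eq_zero.2 (Int.emod_eq_zero_of_dvd h)
  have hsp := split_step C D hCne hDne (dg m q) (dg m q)
    (fun z => dg m q z - (((x % P + y % P) / P : ℤ) : ZMod q)) (by
      intro a ha b hb
      rw [hC, mem_cl, ← hP] at ha
      rw [hD, mem_cl, ← hP] at hb
      have ha' := hmod ha.2
      have hb' := hmod hb.2
      have h1 : (a + b) / P = a / P + b / P + (x % P + y % P) / P := by
        have e1 := Int.mul_ediv_add_emod a P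
        have e2 := Int.mul_ediv_add_emod b P
        have e3 : a + b = (x % P + y % P) + P * (a / P + b / P) := by
          rw [← ha', ← hb', mul_add]
          (clear * - e1 e2; linarith only [e1, e2])
        rw [e3, Int.add_mul_ediv_left _ _ hP0, add_comm]
      unfold dg
      rw [← hP, h1]
      push_cast
      ring)
  have hsum : ∑ a ∈ C, ∑ b ∈ D, Real.log ((Finset.image₂ (fun u v => u + v)
        (C.filter (fun z => dg m q z = dg m q a))
        (D.filter (fun z => dg m q z = dg m q b))).card) =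
      ∑ a ∈ C, ∑ b ∈ D, ta (m * q) X Y a b := by
    refine Finset.sum_congr rfl fun a ha => Finset.sum_congr rfl fun b hb => ?_
    rw [hC] at ha
    rw [hD] at hb
    rw [hC, hD, filter_dg m q hm X x a ha, filter_dg m q hm Y y b hb]
    rfl
  rw [hsum] at hsp
  rw [← hC, ← hD]
  have hτ : ta m X Y x y = Real.log ((Finset.image₂ (fun a b => a + b) C D).card) := by
    unfold ta
    rw [hC, hD]
  rw [hτ]
  have e : (∑ y' ∈ D, (∑ x' ∈ C, ta (m * q) X Y x' y') / C.card) / D.card =
      (∑ a ∈ C, ∑ b ∈ D, ta (m * q) X Y a b) / (C.card * D.card) := by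
    rw [← Finset.sum_div, div_div, Finset.sum_comm]
  rw [e]
  have h2 : ent (conv (law C (dg m q)) (law D (dg m q))) =
      ((C.card : ℝ) * D.card * ent (conv (law C (dg m q)) (law D (dg m q)))) /
        (C.card * D.card) := by
    (clear * - hP hP0 hmod hD hDne hDc hC hCne hCc hsp hsum hτ e; field_simp)
  rw [h2, ← add_div, div_le_iff₀ (mul_pos hCc hDc)]
  linarith only [hsp]

/-- a node which is not spread has a large atom -/
theorem exists_atom (m q : ℕ) (hm : 0 < m) (t : ℝ) (Y : Finset ℤ) (y : ℤ)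
    (hyY : y ∈ Y) (h : ¬ Spread m q t Y y) : ∃ u, 1 - t ≤ law (cl m Y y) (dg m q) u := by
  unfold Spread at h
  push Not at h
  obtain ⟨z, hz, h1⟩ := h
  refine ⟨dg m q z, ?_⟩
  unfold law
  rw [filter_dg m q hm Y y z hz, le_div_iff₀ (cl_card_pos hyY)]
  exact h1

/-- one step of the chain: the loss is averaged over arbitrary nodes -/
theorem chain_step_gen (m q : ℕ) (hm : 0 < m) [NeZero q] (X Y : Finset ℤ) (L : ℝ)
    (hL : ∑ x ∈ X, ∑ y ∈ Y, (hh m q X x + hh m q Y y -
      ent (conv (law (cl m X x) (dg m q)) (law (cl m Y y) (dg m q)))) ≤ L) :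
    (Y.card * FF m (m * q) X + X.card * FF m (m * q) Y) - L +
      ∑ x ∈ X, ∑ y ∈ Y, ta (m * q) X Y x y ≤ ∑ x ∈ X, ∑ y ∈ Y, ta m X Y x y := by
  have h1 : ∀ x ∈ X, ∀ y ∈ Y, ent (conv (law (cl m X x) (dg m q)) (law (cl m Y y) (dg m q))) +
      (∑ y' ∈ cl m Y y, (∑ x' ∈ cl m X x, ta (m * q) X Y x' y') /
        (cl m X x).card) / (cl m Y y).card ≤ ta m X Y x y :=
    fun x hxX y hyY => ta_step m q hm X Y x y hxX hyY
  have h2 : ∑ x ∈ X, ∑ y ∈ Y, (ent (conv (law (cl m X x) (dg m q)) (law (cl m Y y) (dg m q))) +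
      (∑ y' ∈ cl m Y y, (∑ x' ∈ cl m X x, ta (m * q) X Y x' y') /
        (cl m X x).card) / (cl m Y y).card) ≤ ∑ x ∈ X, ∑ y ∈ Y, ta m X Y x y :=
    Finset.sum_le_sum fun x hxX => Finset.sum_le_sum fun y hyY => h1 x hxX y hyY
  have h4 : ∑ x ∈ X, ∑ y ∈ Y, (∑ y' ∈ cl m Y y,
      (∑ x' ∈ cl m X x, ta (m * q) X Y x' y') / (cl m X x).card) /
        (cl m Y y).card = ∑ x ∈ X, ∑ y ∈ Y, ta (m * q) X Y x y := by
    have e1 : ∀ x ∈ X, ∑ y ∈ Y, (∑ y' ∈ cl m Y y,
        (∑ x' ∈ cl m X x, ta (m * q) X Y x' y') / (cl m X x).card) /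
          (cl m Y y).card =
        (∑ x' ∈ cl m X x, ∑ y ∈ Y, ta (m * q) X Y x' y) / (cl m X x).card := by
      intro x _
      rw [avg_cl m Y (fun y' => (∑ x' ∈ cl m X x, ta (m * q) X Y x' y') /
        (cl m X x).card), ← Finset.sum_div, Finset.sum_comm]
    rw [Finset.sum_congr rfl e1, avg_cl m X (fun x' => ∑ y ∈ Y, ta (m * q) X Y x' y)]
  have h3 : ∑ x ∈ X, ∑ y ∈ Y, (ent (conv (law (cl m X x) (dg m q)) (law (cl m Y y) (dg m q))) +
      (∑ y' ∈ cl m Y y, (∑ x' ∈ cl m X x, ta (m * q) X Y x' y') /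
        (cl m X x).card) / (cl m Y y).card) =
      ∑ x ∈ X, ∑ y ∈ Y, ent (conv (law (cl m X x) (dg m q)) (law (cl m Y y) (dg m q))) +
      ∑ x ∈ X, ∑ y ∈ Y, ta (m * q) X Y x y := by
    rw [← h4, ← Finset.sum_add_distrib]
    refine Finset.sum_congr rfl fun x _ => ?_
    rw [Finset.sum_add_distrib]
  rw [h3] at h2
  have h5 : ∑ x ∈ X, ∑ y ∈ Y, (hh m q X x + hh m q Y y -
      ent (conv (law (cl m X x) (dg m q)) (law (cl m Y y) (dg m q)))) =
      (Y.card * FF m (m * q) X + X.card * FF m (m * q) Y) -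
      ∑ x ∈ X, ∑ y ∈ Y, ent (conv (law (cl m X x) (dg m q)) (law (cl m Y y) (dg m q))) := by
    have e1 : ∀ x ∈ X, ∑ y ∈ Y, (hh m q X x + hh m q Y y -
      ent (conv (law (cl m X x) (dg m q)) (law (cl m Y y) (dg m q)))) =
        (Y.card * hh m q X x + FF m (m * q) Y) -
        ∑ y ∈ Y, ent (conv (law (cl m X x) (dg m q)) (law (cl m Y y) (dg m q))) := by
      intro x _
      rw [Finset.sum_sub_distrib, Finset.sum_add_distrib, sum_hh m q hm, Finset.sum_const,
        nsmul_eq_mul]
    rw [Finset.sum_congr rfl e1, Finset.sum_sub_distrib, Finset.sum_add_distrib,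
      ← Finset.mul_sum, sum_hh m q hm, Finset.sum_const, nsmul_eq_mul]
  rw [h5] at hL
  (clear * - hL h2; linarith only [hL, h2])

/-- one step of the chain for sets which are rarely spread -/
theorem chain_step {η t0 : ℝ} (hη : 0 ≤ η) (hN : NodeP η t0) (m q : ℕ) (hm : 0 < m) [NeZero q]
    (X Y : Finset ℤ) (ε : ℝ) (hε : (nS m q t0 Y : ℝ) ≤ ε * Y.card) :
    (1 - η - ε) * (Y.card * FF m (m * q) X) + (1 - η) * (X.card * FF m (m * q) Y) +
      ∑ x ∈ X, ∑ y ∈ Y, ta (m * q) X Y x y ≤ ∑ x ∈ X, ∑ y ∈ Y, ta m X Y x y := by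
  classical
  have hdvd : m ∣ m * q := Dvd.intro q rfl
  have hloss : ∀ x ∈ X, ∀ y ∈ Y, (hh m q X x + hh m q Y y -
      ent (conv (law (cl m X x) (dg m q)) (law (cl m Y y) (dg m q)))) ≤
      η * (hh m q X x + hh m q Y y) + (if Spread m q t0 Y y then hh m q X x else 0) := by
    intro x hxX y hyY
    have hx0 := hh_nonneg m q X x hxX
    have hy0 := hh_nonneg m q Y y hyY
    by_cases h : Spread m q t0 Y y
    · rw [if_pos h]
      have h1 := loss_le (law (cl m Y y) (dg m q)) (law (cl m X x) (dg m q))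
        (law_nonneg _ _) (law_nonneg _ _) (sum_law _ (cl_nonempty hyY) _)
        (sum_law _ (cl_nonempty hxX) _)
      rw [conv_comm] at h1
      have h2 : ent (law (cl m X x) (dg m q)) = hh m q X x := rfl
      have h3 : ent (law (cl m Y y) (dg m q)) = hh m q Y y := rfl
      rw [h2, h3] at h1
      have h4 := mul_nonneg hη (add_nonneg hx0 hy0)
      linarith only [h1, h4]
    · rw [if_neg h]
      obtain ⟨u, hu⟩ := exists_atom m q hm t0 Y y hyY h
      have h1 := hN (ZMod q) (law (cl m X x) (dg m q)) (law (cl m Y y) (dg m q))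
        (law_nonneg _ _) (law_nonneg _ _) (sum_law _ (cl_nonempty hxX) _)
        (sum_law _ (cl_nonempty hyY) _) u hu
      have h2 : ent (law (cl m X x) (dg m q)) = hh m q X x := rfl
      have h3 : ent (law (cl m Y y) (dg m q)) = hh m q Y y := rfl
      rw [h2, h3] at h1
      (clear * - h1; linarith only [h1])
  have hL : ∑ x ∈ X, ∑ y ∈ Y, (hh m q X x + hh m q Y y -
      ent (conv (law (cl m X x) (dg m q)) (law (cl m Y y) (dg m q)))) ≤
      η * (Y.card * FF m (m * q) X + X.card * FF m (m * q) Y) +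
        ε * (Y.card * FF m (m * q) X) := by
    refine (Finset.sum_le_sum fun x hxX => Finset.sum_le_sum fun y hyY =>
      hloss x hxX y hyY).trans ?_
    have e1 : ∀ x ∈ X, ∑ y ∈ Y, (η * (hh m q X x + hh m q Y y) +
        (if Spread m q t0 Y y then hh m q X x else 0)) =
        η * (Y.card * hh m q X x + FF m (m * q) Y) + nS m q t0 Y * hh m q X x := by
      intro x _
      rw [Finset.sum_add_distrib, ← Finset.mul_sum, Finset.sum_add_distrib, sum_hh m q hm,
        Finset.sum_const, nsmul_eq_mul, ← Finset.sum_filter, Finset.sum_const, nsmul_eq_mul]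
      unfold nS
      rfl
    rw [Finset.sum_congr rfl e1, Finset.sum_add_distrib, ← Finset.mul_sum,
      Finset.sum_add_distrib, ← Finset.mul_sum, ← Finset.mul_sum, sum_hh m q hm,
      Finset.sum_const, nsmul_eq_mul]
    have h1 := mul_le_mul_of_nonneg_right hε (FF_nonneg hdvd X)
    linarith only [h1]
  have h := chain_step_gen m q hm X Y _ hL
  linarith only [h]

/-- **Chains.** If the moduli `m 0 = 1`, `m (i + 1) = m i * q i`, `i < J`, separate `Y` and at
each step at most `ε |Y|` elements of `Y` are spread then `X + Y` is large for every `X`. -/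
theorem chain_grows {η t0 : ℝ} (hη : 0 ≤ η) (hN : NodeP η t0) (ε : ℝ) (hε0 : 0 ≤ ε)
    (Y : Finset ℤ) (hY : Y.Nonempty) (m q : ℕ → ℕ) (J : ℕ) (h0 : m 0 = 1)
    (hstep : ∀ i < J, m (i + 1) = m i * q i) (hq : ∀ i < J, 0 < q i)
    (hsep : ∀ y ∈ Y, cl (m J) Y y = {y})
    (hsp : ∀ i < J, (nS (m i) (q i) t0 Y : ℝ) ≤ ε * Y.card)
    (X : Finset ℤ) (hX : X.Nonempty) :
    (1 - η - ε) * (Real.log X.card + Real.log Y.card) ≤
      Real.log ((Finset.image₂ (fun a b => a + b) X Y).card) := by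
  classical
  have hXc : (0 : ℝ) < X.card := by exact_mod_cast Finset.card_pos.2 hX
  have hYc : (0 : ℝ) < Y.card := by exact_mod_cast Finset.card_pos.2 hY
  have hpos : ∀ i ≤ J, 0 < m i := by
    intro i
    induction i with
    | zero => intro _; rw [h0]; exact one_pos
    | succ i ih =>
      intro hi
      rw [hstep i (by omega)]
      exact Nat.mul_pos (ih (by omega)) (hq i (by omega))
  have hind : ∀ i ≤ J, (1 - η - ε) * (Y.card * FF 1 (m i) X) +
      (1 - η) * (X.card * FF 1 (m i) Y) + ∑ x ∈ X, ∑ y ∈ Y, ta (m i) X Y x y ≤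
      ∑ x ∈ X, ∑ y ∈ Y, ta 1 X Y x y := by
    intro i
    induction i with
    | zero =>
      intro _
      rw [h0]
      have e : ∀ Z : Finset ℤ, FF 1 1 Z = 0 := by
        intro Z
        unfold FF el
        simp
      rw [e, e]
      simp
    | succ i ih =>
      intro hi
      have hi' : i < J := by omega
      have : NeZero (q i) := ⟨(hq i hi').ne'⟩
      have h1 := chain_step hη hN (m i) (q i) (hpos i (by omega)) X Y ε (hsp i hi')
      have h2 := ih (by omega)
      rw [hstep i hi']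
      rw [← FF_add 1 (m i) (m i * q i) X, ← FF_add 1 (m i) (m i * q i) Y]
      linarith only [h1, h2]
  have h1 := hind J le_rfl
  have h2 : ∑ x ∈ X, ∑ y ∈ Y, ta 1 X Y x y =
      X.card * Y.card * Real.log ((Finset.image₂ (fun a b => a + b) X Y).card) := by
    have e : ∀ x ∈ X, ∀ y ∈ Y, ta 1 X Y x y =
        Real.log ((Finset.image₂ (fun a b => a + b) X Y).card) := by
      intro x _ y _
      unfold ta
      rw [cl_one, cl_one]
    rw [Finset.sum_congr rfl fun x hx' => Finset.sum_congr rfl fun y hy' => e x hx' y hy']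
    simp only [Finset.sum_const, nsmul_eq_mul]
    ring
  -- the rest of `X`
  obtain ⟨R, hR⟩ : ∃ R : ℝ, R = ∑ x ∈ X, Real.log (cl (m J) X x).card := ⟨_, rfl⟩
  have hR0 : 0 ≤ R := by
    rw [hR]
    exact Finset.sum_nonneg fun x _ => Real.log_natCast_nonneg _
  have h3 : Y.card * R ≤ ∑ x ∈ X, ∑ y ∈ Y, ta (m J) X Y x y := by
    rw [hR, Finset.mul_sum]
    refine Finset.sum_le_sum fun x hx' => ?_
    rw [← nsmul_eq_mul, ← Finset.sum_const]
    refine Finset.sum_le_sum fun y hy' => ?_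
    unfold ta
    apply Real.log_le_log (cl_card_pos hx')
    have : (cl (m J) X x).card ≤
        (Finset.image₂ (fun a b => a + b) (cl (m J) X x) (cl (m J) Y y)).card := by
      refine Finset.card_le_card_of_injOn (fun a => a + y) ?_ ?_
      · intro a ha
        exact Finset.mem_coe.2 (Finset.mem_image₂_of_mem (Finset.mem_coe.1 ha)
          (self_mem_cl hy'))
      · intro a _ b _ h
        exact add_right_cancel h
    exact_mod_cast this
  have hFX : FF 1 (m J) X = X.card * Real.log X.card - R := by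
    unfold FF el
    rw [hR, Finset.sum_sub_distrib]
    simp only [cl_one, Finset.sum_const, nsmul_eq_mul]
  have hFY : FF 1 (m J) Y = Y.card * Real.log Y.card := by
    unfold FF el
    rw [Finset.sum_sub_distrib]
    have e : ∑ y ∈ Y, Real.log (cl (m J) Y y).card = 0 := by
      refine Finset.sum_eq_zero fun y hy' => ?_
      rw [hsep y hy']
      simp
    rw [e]
    simp only [cl_one, Finset.sum_const, nsmul_eq_mul, sub_zero]
  rw [h2, hFX, hFY] at h1
  have hly : 0 ≤ Real.log (Y.card : ℝ) := Real.log_natCast_nonneg _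
  have hXY : (0 : ℝ) < X.card * Y.card := mul_pos hXc hYc
  refine le_of_mul_le_mul_left ?_ hXY
  have h4 : 0 ≤ (η + ε) * (Y.card * R) := by (clear * - hη hε0 hY hR h1 hR0 h3 hFX; positivity)
  have h5 : 0 ≤ ε * ((X.card : ℝ) * Y.card * Real.log Y.card) := by (clear * - hε0 hX hR h1 hR0 h3 hFX h4 hY; positivity)
  (clear * - h1 h3 h4 h5; linarith only [h1, h3, h4, h5])

end Pool.Agent.Helper28.LN
end

/- Helper24.DI.H15.GL.Gibbs -/
section
set_option autoImplicit false

/-!
# Project GL (MP_120218), Gibbs: the digit entropy is monotone in the set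
-/

namespace Pool.Agent.Helper15.GL

open Finset

theorem ratio_sum_le (p t : ℕ) (V W : Finset ℤ) (z : ℤ) :
    ∑ z' ∈ cls p t V z, ((cls p (t + 1) W z').card : ℝ) / (cls p (t + 1) V z').card ≤
      (cls p t W z).card := by
  classical
  have h1 : ∀ z' ∈ cls p t V z, ((cls p (t + 1) W z').card : ℝ) / (cls p (t + 1) V z').card =
      ∑ u ∈ cls p t W z, if (p : ℤ) ^ (t + 1) ∣ u - z' then
        1 / ((cls p (t + 1) V z').card : ℝ) else 0 := by
    intro z' hz'
    rw [← Finset.sum_filter, Finset.sum_const, nsmul_eq_mul, mul_one_div]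
    congr 2
    congr 1
    ext u
    rw [mem_cls] at hz'
    rw [mem_cls, Finset.mem_filter, mem_cls]
    constructor
    · rintro ⟨hu, hd⟩
      refine ⟨⟨hu, ?_⟩, hd⟩
      have h2 := dvd_add ((pow_dvd_pow (p : ℤ) (Nat.le_succ t)).trans hd) hz'.2
      simpa using h2
    · rintro ⟨⟨hu, _⟩, hd⟩
      exact ⟨hu, hd⟩
  rw [Finset.sum_congr rfl h1, Finset.sum_comm]
  have h2 : ∀ u ∈ cls p t W z, ∑ z' ∈ cls p t V z, (if (p : ℤ) ^ (t + 1) ∣ u - z' then
        1 / ((cls p (t + 1) V z').card : ℝ) else 0) ≤ 1 := by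
    intro u _
    rw [← Finset.sum_filter]
    have h3 : ∀ z' ∈ (cls p t V z).filter (fun z' => (p : ℤ) ^ (t + 1) ∣ u - z'),
        1 / ((cls p (t + 1) V z').card : ℝ) = 1 / ((cls p (t + 1) V u).card : ℝ) := by
      intro z' hz'
      rw [Finset.mem_filter] at hz'
      rw [cls_eq hz'.2]
    rw [Finset.sum_congr rfl h3, Finset.sum_const, nsmul_eq_mul, mul_one_div]
    apply div_le_one_of_le₀ _ (Nat.cast_nonneg _)
    have h4 : (cls p t V z).filter (fun z' => (p : ℤ) ^ (t + 1) ∣ u - z') ⊆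
        cls p (t + 1) V u := by
      intro z' hz'
      rw [Finset.mem_filter, mem_cls] at hz'
      rw [mem_cls]
      exact ⟨hz'.1.1, (dvd_sub_comm).1 hz'.2⟩
    exact_mod_cast Finset.card_le_card h4
  refine (Finset.sum_le_sum h2).trans (le_of_eq ?_)
  rw [Finset.sum_const, nsmul_eq_mul, mul_one]

/-- [Gibbs] -/
theorem ell_mono (p t : ℕ) (V W : Finset ℤ) (hVW : V ⊆ W) :
    ∑ z ∈ V, ell p t V z ≤ ∑ z ∈ V, ell p t W z := by
  classical
  have hpos : ∀ (i : ℕ) (U : Finset ℤ), V ⊆ U → ∀ z ∈ V, (0 : ℝ) < (cls p i U z).card :=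
    fun i U hU z hz => by exact_mod_cast Finset.card_pos.2 (cls_nonempty (hU hz))
  have h1 : ∀ z ∈ V, ell p t V z - ell p t W z ≤
      ((cls p t V z).card / (cls p t W z).card : ℝ) *
        ((cls p (t + 1) W z).card / (cls p (t + 1) V z).card) - 1 := by
    intro z hz
    have a1 := hpos t V (Finset.Subset.refl _) z hz
    have a2 := hpos (t + 1) V (Finset.Subset.refl _) z hz
    have a3 := hpos t W hVW z hz
    have a4 := hpos (t + 1) W hVW z hz
    have h2 := Real.log_le_sub_one_of_pos (show (0 : ℝ) <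
      ((cls p t V z).card / (cls p t W z).card : ℝ) *
        ((cls p (t + 1) W z).card / (cls p (t + 1) V z).card) by (clear * - a1 a3 a4 a2; positivity))
    rw [Real.log_mul (by (clear * - a1 a3; positivity)) (by (clear * - a4 a2; positivity)), Real.log_div a1.ne' a3.ne',
      Real.log_div a4.ne' a2.ne'] at h2
    unfold ell
    (clear * - h2; linarith)
  have h2 := Finset.sum_le_sum h1
  rw [Finset.sum_sub_distrib, Finset.sum_sub_distrib] at h2
  have h3 : ∑ z ∈ V, ((cls p t V z).card / (cls p t W z).card : ℝ) *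
        ((cls p (t + 1) W z).card / (cls p (t + 1) V z).card) ≤ ∑ z ∈ V, (1 : ℝ) := by
    rw [← avg_cls p t V]
    refine Finset.sum_le_sum fun z hz => ?_
    have a1 := hpos t V (Finset.Subset.refl _) z hz
    have a3 := hpos t W hVW z hz
    have e : ∑ y ∈ cls p t V z, ((cls p t V y).card / (cls p t W y).card : ℝ) *
        ((cls p (t + 1) W y).card / (cls p (t + 1) V y).card) =
        ((cls p t V z).card / (cls p t W z).card : ℝ) *
          ∑ y ∈ cls p t V z, ((cls p (t + 1) W y).card / (cls p (t + 1) V y).card : ℝ) := by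
      rw [Finset.mul_sum]
      refine Finset.sum_congr rfl fun y hy => ?_
      rw [cls_eq (mem_cls.1 hy).2, cls_eq (mem_cls.1 hy).2]
    rw [e, div_le_one a1]
    have h4 := ratio_sum_le p t V W z
    calc ((cls p t V z).card / (cls p t W z).card : ℝ) *
          ∑ y ∈ cls p t V z, ((cls p (t + 1) W y).card / (cls p (t + 1) V y).card : ℝ)
        ≤ ((cls p t V z).card / (cls p t W z).card : ℝ) * (cls p t W z).card :=
          mul_le_mul_of_nonneg_left h4 (by (clear * - a1 a3; positivity))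
      _ = (cls p t V z).card := div_mul_cancel₀ _ a3.ne'
  linarith only [h2, h3]

end Pool.Agent.Helper15.GL
end

/- Helper24.DI.H15.GL.Lines -/
section
set_option autoImplicit false

/-!
# Project GL (MP_120218), Lines: a set covered by few geometric lines has small digit entropies
-/

namespace Pool.Agent.Helper15.GL

open Finset

theorem dvd_of_sub {d a b : ℤ} (h : d ∣ a) : d ∣ b - a ↔ d ∣ b := by
  constructor
  · intro h1
    have := dvd_add h1 h
    rwa [sub_add_cancel] at this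
  · intro h1
    exact dvd_sub h1 h

/-- `idx y` is the exponent and `ω y` (an integer) the base point of the line of `y`. -/
theorem lines (p : ℕ) (hp : 2 ≤ p) (Y : Finset ℤ) (n0 : ℕ) (hn0 : 1 ≤ n0) (idx : ℤ → ℕ)
    (ω : ℤ → ℤ) (ha : ∀ y ∈ Y, (p : ℤ) ^ (n0 * idx y) ∣ y)
    (hb : ∀ y ∈ Y, ∀ y' ∈ Y, (∀ t : ℕ, (p : ℤ) ^ t ∣ y ↔ (p : ℤ) ^ t ∣ y') → idx y = idx y')
    (hc : ∀ y ∈ Y, ∀ y' ∈ Y, idx y = idx y' → ∀ t : ℕ,
      (p : ℤ) ^ (n0 * idx y + t) ∣ y - y' ↔ (p : ℤ) ^ t ∣ ω y - ω y') (j : ℕ) :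
    Fj p j Y ≤ (Y.image ω).card * (1 + 2 * Real.log Y.card) := by
  classical
  -- injectivity
  have hinj : ∀ y ∈ Y, ∀ y' ∈ Y, idx y = idx y' → ω y = ω y' → y = y' := by
    intro y hy y' hy' h1 h2
    by_contra hne
    have h3 : y - y' ≠ 0 := sub_ne_zero.2 hne
    have h4 := (hc y hy y' hy' h1 ((y - y').natAbs)).2 (by rw [h2, sub_self]; exact dvd_zero _)
    have h5 : (y - y').natAbs < p ^ (n0 * idx y + (y - y').natAbs) := by
      calc (y - y').natAbs < p ^ (y - y').natAbs := Nat.lt_pow_self (by omega)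
        _ ≤ p ^ (n0 * idx y + (y - y').natAbs) := Nat.pow_le_pow_right (by omega) (by omega)
    have h6 : |y - y'| < (p : ℤ) ^ (n0 * idx y + (y - y').natAbs) := by
      rw [Int.abs_eq_natAbs]
      exact_mod_cast h5
    exact h3 (Int.eq_zero_of_abs_lt_dvd h4 h6)
  obtain ⟨W, hW⟩ : ∃ W : Finset ℤ, W = Y.image ω := ⟨_, rfl⟩
  rw [← hW]
  have hWY : W.card ≤ Y.card := by rw [hW]; exact Finset.card_image_le
  rcases Y.eq_empty_or_nonempty with hY0 | hYne
  · rw [hY0]
    unfold Fj
    simp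
  have hYc : (1 : ℝ) ≤ Y.card := by exact_mod_cast Finset.card_pos.2 hYne
  have hWne : W.Nonempty := by rw [hW]; exact hYne.image ω
  have hWc : (0 : ℝ) < W.card := by exact_mod_cast Finset.card_pos.2 hWne
  have hlogY : 0 ≤ Real.log Y.card := Real.log_nonneg hYc
  have hlogW : Real.log W.card ≤ Real.log Y.card :=
    Real.log_le_log hWc (by exact_mod_cast hWY)
  obtain ⟨Z0, hZ0⟩ : ∃ Z : Finset ℤ, Z = Y.filter (fun y => (p : ℤ) ^ j ∣ y) := ⟨_, rfl⟩
  obtain ⟨Z1, hZ1⟩ : ∃ Z : Finset ℤ, Z = Y.filter (fun y => (p : ℤ) ^ (j + 1) ∣ y) := ⟨_, rfl⟩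
  have hpp : (p : ℤ) ^ j ∣ (p : ℤ) ^ (j + 1) := pow_dvd_pow _ (Nat.le_succ j)
  have hZ10 : Z1 ⊆ Z0 := by
    intro y hy
    rw [hZ1, Finset.mem_filter] at hy
    rw [hZ0, Finset.mem_filter]
    exact ⟨hy.1, hpp.trans hy.2⟩
  have hcls0 : ∀ y ∈ Z0, cls p j Y y = Z0 := by
    intro y hy
    rw [hZ0, Finset.mem_filter] at hy
    ext z
    rw [mem_cls, hZ0, Finset.mem_filter]
    exact and_congr_right fun _ => dvd_of_sub hy.2
  have hcls1 : ∀ y ∈ Z1, cls p (j + 1) Y y = Z1 := by
    intro y hy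
    rw [hZ1, Finset.mem_filter] at hy
    ext z
    rw [mem_cls, hZ1, Finset.mem_filter]
    exact and_congr_right fun _ => dvd_of_sub hy.2
  -- elements of valuation `j`
  have hEq : (Z0 \ Z1).card ≤ W.card := by
    rw [hW]
    refine Finset.card_le_card_of_injOn ω ?_ ?_
    · intro y hy
      have hy' := (Finset.mem_sdiff.1 (Finset.mem_coe.1 hy)).1
      rw [hZ0, Finset.mem_filter] at hy'
      exact Finset.mem_coe.2 (Finset.mem_image_of_mem ω hy'.1)
    · intro y hy y' hy' hω
      have h1 := Finset.mem_sdiff.1 (Finset.mem_coe.1 hy)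
      have h2 := Finset.mem_sdiff.1 (Finset.mem_coe.1 hy')
      rw [hZ0, hZ1, Finset.mem_filter, Finset.mem_filter] at h1 h2
      have h3 : ∀ t : ℕ, (p : ℤ) ^ t ∣ y ↔ (p : ℤ) ^ t ∣ y' := by
        intro t
        rcases le_or_gt t j with ht | ht
        · exact ⟨fun _ => (pow_dvd_pow _ ht).trans h2.1.2, fun _ =>
            (pow_dvd_pow _ ht).trans h1.1.2⟩
        · constructor
          · intro h
            exact absurd ⟨h1.1.1, (pow_dvd_pow _ ht).trans h⟩ h1.2
          · intro h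
            exact absurd ⟨h2.1.1, (pow_dvd_pow _ ht).trans h⟩ h2.2
      exact hinj y h1.1.1 y' h2.1.1 (hb y h1.1.1 y' h2.1.1 h3) hω
  have hEqR : ((Z0 \ Z1).card : ℝ) ≤ W.card := by exact_mod_cast hEq
  have hcardZ : ((Z0 \ Z1).card : ℝ) = Z0.card - Z1.card := by
    rw [Finset.card_sdiff_of_subset hZ10, Nat.cast_sub (Finset.card_le_card hZ10)]
  -- part 1
  have hP1 : ∑ y ∈ Z1, ell p j Y y ≤ W.card := by
    have h1 : ∀ y ∈ Z1, ell p j Y y = Real.log Z0.card - Real.log Z1.card := by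
      intro y hy
      unfold ell
      rw [hcls0 y (hZ10 hy), hcls1 y hy]
    rw [Finset.sum_congr rfl h1, Finset.sum_const, nsmul_eq_mul]
    rcases Z1.eq_empty_or_nonempty with h0 | h0
    · rw [h0]
      simp
    · have h2 : (0 : ℝ) < Z1.card := by exact_mod_cast Finset.card_pos.2 h0
      have h3 : (0 : ℝ) < Z0.card := by exact_mod_cast Finset.card_pos.2 (h0.mono hZ10)
      have h4 := Real.log_le_sub_one_of_pos (div_pos h3 h2)
      rw [Real.log_div h3.ne' h2.ne'] at h4
      have h5 := mul_le_mul_of_nonneg_left h4 h2.le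
      have h6 : (Z1.card : ℝ) * (Z0.card / Z1.card - 1) = Z0.card - Z1.card := by
        (clear * - hZ1 hcls1 h0 h2 hZ0 hZ10 hcls0 hcardZ h1 h3 h4 h5 hW hWY hWne hWc hlogW hEq hEqR; field_simp)
      (clear * - hEqR hcardZ h5 h6; linarith)
  -- part 2
  have hell : ∀ y ∈ Y, ell p j Y y ≤ Real.log Y.card := by
    intro y hy
    have h1 : ((cls p j Y y).card : ℝ) ≤ Y.card := by
      exact_mod_cast Finset.card_le_card (Finset.filter_subset _ _)
    have h2 : (0 : ℝ) < (cls p j Y y).card := by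
      exact_mod_cast Finset.card_pos.2 (cls_nonempty hy)
    have h3 := Real.log_le_log h2 h1
    have h4 := Real.log_natCast_nonneg (cls p (j + 1) Y y).card
    unfold ell
    linarith only [h3, h4]
  have hP2 : ∑ y ∈ Z0 \ Z1, ell p j Y y ≤ W.card * Real.log Y.card := by
    have h1 : ∑ y ∈ Z0 \ Z1, ell p j Y y ≤ ∑ y ∈ Z0 \ Z1, Real.log Y.card := by
      refine Finset.sum_le_sum fun y hy => hell y ?_
      have := (Finset.mem_sdiff.1 hy).1
      rw [hZ0, Finset.mem_filter] at this
      exact this.1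
    rw [Finset.sum_const, nsmul_eq_mul] at h1
    exact h1.trans (mul_le_mul_of_nonneg_right hEqR hlogY)
  -- part 3
  obtain ⟨Y', hY'⟩ : ∃ Y' : Finset ℤ, Y' = Y.filter (fun y => ¬ (p : ℤ) ^ j ∣ y) := ⟨_, rfl⟩
  obtain ⟨V, hV⟩ : ∃ V : ℕ → Finset ℤ, V = fun i => (Y.filter (fun y => idx y = i)).image ω :=
    ⟨_, rfl⟩
  have hVW : ∀ i, V i ⊆ W := by
    intro i
    rw [hV, hW]
    exact Finset.image_subset_image (Finset.filter_subset _ _)
  have hlt : ∀ y ∈ Y', n0 * idx y < j := by
    intro y hy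
    rw [hY', Finset.mem_filter] at hy
    by_contra hge
    exact hy.2 ((pow_dvd_pow _ (not_lt.1 hge)).trans (ha y hy.1))
  -- classes of elements of `Y'`
  have hcl : ∀ y ∈ Y', ∀ i : ℕ, j ≤ i → (cls p i Y y).card =
      (cls p (i - n0 * idx y) (V (idx y)) (ω y)).card := by
    intro y hy i hi
    have hlt' := hlt y hy
    have hyY : y ∈ Y ∧ ¬ (p : ℤ) ^ j ∣ y := by
      rw [hY', Finset.mem_filter] at hy
      exact hy
    have hei : n0 * idx y + (i - n0 * idx y) = i := by omega
    have hidx : ∀ z ∈ Y, (p : ℤ) ^ i ∣ z - y → idx y = idx z := by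
      intro z hz hd
      refine hb y hyY.1 z hz fun t => ?_
      rcases le_or_gt t i with ht | ht
      · have h1 := (pow_dvd_pow (p : ℤ) ht).trans hd
        constructor
        · intro h
          have := dvd_add h1 h
          rwa [sub_add_cancel] at this
        · intro h
          have := dvd_sub h h1
          rwa [sub_sub_cancel] at this
      · constructor
        · intro h
          exact absurd ((pow_dvd_pow _ (hi.trans ht.le)).trans h) hyY.2
        · intro h
          have h1 : (p : ℤ) ^ j ∣ z := (pow_dvd_pow _ (hi.trans ht.le)).trans h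
          have h2 := dvd_sub h1 ((pow_dvd_pow _ hi).trans hd)
          rw [sub_sub_cancel] at h2
          exact absurd h2 hyY.2
    have himg : (cls p i Y y).image ω = cls p (i - n0 * idx y) (V (idx y)) (ω y) := by
      ext w
      rw [Finset.mem_image, mem_cls]
      constructor
      · rintro ⟨z, hz, rfl⟩
        rw [mem_cls] at hz
        have h1 := hidx z hz.1 hz.2
        refine ⟨?_, ?_⟩
        · rw [hV]
          exact Finset.mem_image_of_mem ω (Finset.mem_filter.2 ⟨hz.1, h1.symm⟩)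
        · have h2 := hc z hz.1 y hyY.1 h1.symm (i - n0 * idx y)
          rw [← h1, hei] at h2
          exact h2.1 hz.2
      · rintro ⟨hw, hd⟩
        rw [hV] at hw
        obtain ⟨z, hz, rfl⟩ := Finset.mem_image.1 hw
        rw [Finset.mem_filter] at hz
        refine ⟨z, ?_, rfl⟩
        rw [mem_cls]
        refine ⟨hz.1, ?_⟩
        have h2 := hc z hz.1 y hyY.1 hz.2 (i - n0 * idx y)
        rw [hz.2, hei] at h2
        exact h2.2 hd
    rw [← himg, Finset.card_image_of_injOn]
    intro z hz z' hz' hω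
    have h1 := mem_cls.1 (Finset.mem_coe.1 hz)
    have h2 := mem_cls.1 (Finset.mem_coe.1 hz')
    exact hinj z h1.1 z' h2.1 ((hidx z h1.1 h1.2).symm.trans (hidx z' h2.1 h2.2)) hω
  have hell' : ∀ y ∈ Y', ell p j Y y = ell p (j - n0 * idx y) (V (idx y)) (ω y) := by
    intro y hy
    have h0 := hlt y hy
    have h1 := hcl y hy j le_rfl
    have h2 := hcl y hy (j + 1) (Nat.le_succ j)
    have h3 : j + 1 - n0 * idx y = j - n0 * idx y + 1 := by omega
    rw [h3] at h2
    unfold ell
    rw [h1, h2]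
  have hP3 : ∑ y ∈ Y', ell p j Y y ≤ W.card * Real.log Y.card := by
    rw [Finset.sum_congr rfl hell']
    obtain ⟨T0, hT0⟩ : ∃ T : Finset ℕ, T = (Finset.range (j + 1)).filter (fun i => n0 * i < j) :=
      ⟨_, rfl⟩
    have hmaps : ∀ y ∈ Y', idx y ∈ T0 := by
      intro y hy
      have h1 := hlt y hy
      rw [hT0, Finset.mem_filter, Finset.mem_range]
      refine ⟨?_, h1⟩
      have : 1 * idx y ≤ n0 * idx y := Nat.mul_le_mul_right _ hn0
      omega
    rw [← Finset.sum_fiberwise_of_maps_to hmaps]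
    have hone : ∀ i ∈ T0, ∑ y ∈ Y' with idx y = i,
        ell p (j - n0 * idx y) (V (idx y)) (ω y) ≤ ∑ w ∈ W, ell p (j - n0 * i) W w := by
      intro i _
      have e1 : ∑ y ∈ Y' with idx y = i, ell p (j - n0 * idx y) (V (idx y)) (ω y) =
          ∑ y ∈ Y' with idx y = i, ell p (j - n0 * i) (V i) (ω y) := by
        refine Finset.sum_congr rfl fun y hy => ?_
        rw [(Finset.mem_filter.1 hy).2]
      have hsubY : ∀ y ∈ Y'.filter (fun y => idx y = i), y ∈ Y ∧ idx y = i := by
        intro y hy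
        rw [Finset.mem_filter, hY', Finset.mem_filter] at hy
        exact ⟨hy.1.1, hy.2⟩
      have e2 : ∑ y ∈ Y' with idx y = i, ell p (j - n0 * i) (V i) (ω y) =
          ∑ w ∈ (Y'.filter (fun y => idx y = i)).image ω, ell p (j - n0 * i) (V i) w := by
        rw [Finset.sum_image]
        intro y hy y' hy' hω
        have h1 := hsubY y (Finset.mem_coe.1 hy)
        have h2 := hsubY y' (Finset.mem_coe.1 hy')
        exact hinj y h1.1 y' h2.1 (h1.2.trans h2.2.symm) hω
      have hsub : (Y'.filter (fun y => idx y = i)).image ω ⊆ V i := by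
        rw [hV]
        refine Finset.image_subset_image fun y hy => ?_
        have h1 := hsubY y hy
        exact Finset.mem_filter.2 h1
      have e3 : ∑ w ∈ (Y'.filter (fun y => idx y = i)).image ω, ell p (j - n0 * i) (V i) w ≤
          ∑ w ∈ V i, ell p (j - n0 * i) (V i) w :=
        Finset.sum_le_sum_of_subset_of_nonneg hsub fun w hw _ => ell_nonneg _ _ _ _ hw
      have e4 := ell_mono p (j - n0 * i) (V i) W (hVW i)
      have e5 : ∑ w ∈ V i, ell p (j - n0 * i) W w ≤ ∑ w ∈ W, ell p (j - n0 * i) W w :=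
        Finset.sum_le_sum_of_subset_of_nonneg (hVW i) fun w hw _ => ell_nonneg _ _ _ _ hw
      rw [e1, e2]
      exact e3.trans (e4.trans e5)
    refine (Finset.sum_le_sum hone).trans ?_
    rw [Finset.sum_comm]
    have htwo : ∀ w ∈ W, ∑ i ∈ T0, ell p (j - n0 * i) W w ≤ Real.log Y.card := by
      intro w hw
      have e1 : ∑ i ∈ T0, ell p (j - n0 * i) W w =
          ∑ t ∈ T0.image (fun i => j - n0 * i), ell p t W w := by
        rw [Finset.sum_image]
        intro i hi i' hi' h
        rw [hT0] at hi hi'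
        have h1 := (Finset.mem_filter.1 (Finset.mem_coe.1 hi)).2
        have h2 := (Finset.mem_filter.1 (Finset.mem_coe.1 hi')).2
        have h3 : n0 * i = n0 * i' := by
          have h' : j - n0 * i = j - n0 * i' := h
          omega
        exact Nat.eq_of_mul_eq_mul_left (by omega) h3
      rw [e1]
      exact (sum_ell_le p W w hw _).trans hlogW
    refine (Finset.sum_le_sum htwo).trans (le_of_eq ?_)
    rw [Finset.sum_const, nsmul_eq_mul]
  have hsplit : Fj p j Y = (∑ y ∈ Z1, ell p j Y y + ∑ y ∈ Z0 \ Z1, ell p j Y y) +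
      ∑ y ∈ Y', ell p j Y y := by
    unfold Fj
    have e1 : ∑ y ∈ Z1, ell p j Y y + ∑ y ∈ Z0 \ Z1, ell p j Y y = ∑ y ∈ Z0, ell p j Y y := by
      rw [add_comm]
      exact Finset.sum_sdiff hZ10
    rw [e1, hZ0, hY']
    exact (Finset.sum_filter_add_sum_filter_not Y _ _).symm
  rw [hsplit]
  linarith only [hP1, hP2, hP3]

end Pool.Agent.Helper15.GL
end

/- Helper24.DI.H15.GL.LineG -/
section
set_option autoImplicit false

/-!
# Project GL (MP_120218), LineG: a set which meets few cosets of a group of rank one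
-/

namespace Pool.Agent.Helper15.GL

open Finset

/-- a rational number or its inverse is a power of a prime times a unit -/
theorem exists_form (g : ℚ) (hg : g ≠ 0) (h1 : g ≠ 1) (h2 : g ≠ -1) :
    ∃ (p n0 : ℕ) (α β : ℤ) (h : ℚ), p.Prime ∧ 1 ≤ n0 ∧ ¬ (p : ℤ) ∣ α ∧ ¬ (p : ℤ) ∣ β ∧
      h * β = (p : ℚ) ^ n0 * α ∧ (h = g ∨ h = g⁻¹) := by
  have hnum : g.num ≠ 0 := Rat.num_ne_zero.2 hg
  have hgd : g * (g.den : ℚ) = g.num := Rat.mul_den_eq_num g
  by_cases ha1 : g.num.natAbs = 1
  · have hd1 : g.den ≠ 1 := by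
      intro hd
      rw [hd, Nat.cast_one, mul_one] at hgd
      rcases Int.natAbs_eq g.num with h | h
      · rw [ha1] at h
        apply h1
        rw [hgd, h]
        norm_num
      · rw [ha1] at h
        apply h2
        rw [hgd, h]
        norm_num
    obtain ⟨p, hp, hpd⟩ := Nat.exists_prime_and_dvd hd1
    obtain ⟨n0, d', hd', hn⟩ := Nat.exists_eq_pow_mul_and_not_dvd g.den_ne_zero p hp.ne_one
    have hpn : ¬ (p : ℤ) ∣ g.num := by
      intro h
      have h3 : p ∣ g.num.natAbs := Int.natCast_dvd.1 h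
      rw [ha1] at h3
      exact hp.one_lt.ne' (Nat.dvd_one.1 h3)
    refine ⟨p, n0, d', g.num, g⁻¹, hp, ?_, ?_, hpn, ?_, Or.inr rfl⟩
    · by_contra hc
      have : n0 = 0 := by omega
      rw [this, pow_zero, one_mul] at hn
      rw [hn] at hpd
      exact hd' hpd
    · intro h
      exact hd' (Int.natCast_dvd_natCast.1 h)
    · rw [← hgd, ← mul_assoc, inv_mul_cancel₀ hg, one_mul]
      have h4 : (g.den : ℚ) = (p : ℚ) ^ n0 * d' := by exact_mod_cast hn
      rw [h4]
      push_cast
      ring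
  · obtain ⟨p, hp, hpd⟩ := Nat.exists_prime_and_dvd ha1
    have hna : g.num.natAbs ≠ 0 := Int.natAbs_ne_zero.2 hnum
    obtain ⟨n0, a', ha', hn⟩ := Nat.exists_eq_pow_mul_and_not_dvd hna p hp.ne_one
    have hsign : ∃ ε : ℤ, (ε = 1 ∨ ε = -1) ∧ g.num = ε * g.num.natAbs := by
      rcases Int.natAbs_eq g.num with h | h
      · exact ⟨1, Or.inl rfl, by rw [one_mul]; exact h⟩
      · exact ⟨-1, Or.inr rfl, by rw [neg_one_mul]; exact h⟩
    obtain ⟨ε, hε, hgn⟩ := hsign
    refine ⟨p, n0, ε * a', g.den, g, hp, ?_, ?_, ?_, ?_, Or.inl rfl⟩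
    · by_contra hc
      have : n0 = 0 := by omega
      rw [this, pow_zero, one_mul] at hn
      rw [hn] at hpd
      exact ha' hpd
    · intro h
      apply ha'
      rcases hε with h3 | h3
      · rw [h3, one_mul] at h
        exact Int.natCast_dvd_natCast.1 h
      · rw [h3, neg_one_mul, dvd_neg] at h
        exact Int.natCast_dvd_natCast.1 h
    · intro h
      exact Nat.not_coprime_of_dvd_of_dvd hp.one_lt hpd (Int.natCast_dvd_natCast.1 h) g.reduced
    · have h5 : ((g.den : ℤ) : ℚ) = (g.den : ℚ) := by norm_cast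
      rw [h5, hgd, hgn, hn]
      push_cast
      ring

/-- the exponent of the line through `y` -/
def lidx (p n0 : ℕ) (y : ℤ) : ℕ := padicValInt p y / n0

/-- the base point of the line through `y` -/
def lom (p n0 : ℕ) (α β : ℤ) (I : ℕ) (y : ℤ) : ℤ :=
  y / (p : ℤ) ^ (n0 * lidx p n0 y) * β ^ lidx p n0 y * α ^ (I - lidx p n0 y)

theorem lidx_dvd {p n0 : ℕ} (hp : p.Prime) (y : ℤ) : (p : ℤ) ^ (n0 * lidx p n0 y) ∣ y := by
  have := Fact.mk hp
  rw [padicValInt_dvd_iff]
  exact Or.inr (Nat.mul_div_le _ _)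

theorem val_eq_of {p : ℕ} (hp : p.Prime) {y y' : ℤ} (hy : y ≠ 0) (hy' : y' ≠ 0)
    (h : ∀ t : ℕ, (p : ℤ) ^ t ∣ y ↔ (p : ℤ) ^ t ∣ y') : padicValInt p y = padicValInt p y' := by
  have := Fact.mk hp
  apply le_antisymm
  · have h1 := (h (padicValInt p y)).1 ((padicValInt_dvd_iff _ _).2 (Or.inr le_rfl))
    exact ((padicValInt_dvd_iff _ _).1 h1).resolve_left hy'
  · have h1 := (h (padicValInt p y')).2 ((padicValInt_dvd_iff _ _).2 (Or.inr le_rfl))
    exact ((padicValInt_dvd_iff _ _).1 h1).resolve_left hy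

theorem coprime_pow_mul {p : ℕ} (hp : p.Prime) {c : ℤ} (hc : ¬ (p : ℤ) ∣ c) (t : ℕ) (z : ℤ) :
    (p : ℤ) ^ t ∣ z * c ↔ (p : ℤ) ^ t ∣ z := by
  have hpc : IsCoprime (p : ℤ) c :=
    (Prime.coprime_iff_not_dvd (Nat.prime_iff_prime_int.1 hp)).2 hc
  exact ⟨fun h => (hpc.pow_left).dvd_of_dvd_mul_right h, fun h => h.mul_right c⟩

theorem lom_sub {p n0 : ℕ} (hp : p.Prime) {α β : ℤ} (hα : ¬ (p : ℤ) ∣ α) (hβ : ¬ (p : ℤ) ∣ β)
    (I : ℕ) (y y' : ℤ) (h : lidx p n0 y = lidx p n0 y') (t : ℕ) :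
    (p : ℤ) ^ (n0 * lidx p n0 y + t) ∣ y - y' ↔
      (p : ℤ) ^ t ∣ lom p n0 α β I y - lom p n0 α β I y' := by
  have hpZ : Prime (p : ℤ) := Nat.prime_iff_prime_int.1 hp
  obtain ⟨u, hu⟩ := lidx_dvd (n0 := n0) hp y
  obtain ⟨u', hu'⟩ := lidx_dvd (n0 := n0) hp y'
  have hp0 : (p : ℤ) ^ (n0 * lidx p n0 y) ≠ 0 := pow_ne_zero _ hpZ.ne_zero
  have e1 : y / (p : ℤ) ^ (n0 * lidx p n0 y) = u := Int.ediv_eq_of_eq_mul_right hp0 hu
  have e2 : y' / (p : ℤ) ^ (n0 * lidx p n0 y') = u' := by
    refine Int.ediv_eq_of_eq_mul_right ?_ hu'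
    rw [← h]
    exact hp0
  have hc : ¬ (p : ℤ) ∣ β ^ lidx p n0 y * α ^ (I - lidx p n0 y) := by
    intro hd
    rcases hpZ.dvd_or_dvd hd with hd | hd
    · exact hβ (hpZ.dvd_of_dvd_pow hd)
    · exact hα (hpZ.dvd_of_dvd_pow hd)
  have e3 : lom p n0 α β I y - lom p n0 α β I y' =
      (u - u') * (β ^ lidx p n0 y * α ^ (I - lidx p n0 y)) := by
    unfold lom
    rw [e1, e2, ← h]
    ring
  rw [e3, coprime_pow_mul hp hc]
  have e4 : y - y' = (p : ℤ) ^ (n0 * lidx p n0 y) * (u - u') := by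
    rw [← h] at hu'
    conv_lhs => rw [hu, hu']
    ring
  rw [e4, pow_add]
  exact mul_dvd_mul_iff_left hp0

/-- points of one line have the same base point -/
theorem lom_eq {p n0 : ℕ} (hp : p.Prime) (hn0 : 1 ≤ n0) {α β : ℤ} (hα : ¬ (p : ℤ) ∣ α)
    (hβ : ¬ (p : ℤ) ∣ β) (I : ℕ) (y y' : ℤ) (hy : y ≠ 0) (hy' : y' ≠ 0) (e : ℕ)
    (hI : lidx p n0 y ≤ I) (he : y * β ^ e = (p : ℤ) ^ (n0 * e) * α ^ e * y') :
    lom p n0 α β I y = lom p n0 α β I y' := by
  have := Fact.mk hp
  have hpZ : Prime (p : ℤ) := Nat.prime_iff_prime_int.1 hp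
  have hpow : ∀ (c : ℤ) (t : ℕ), ¬ (p : ℤ) ∣ c → ¬ (p : ℤ) ∣ c ^ t :=
    fun c t hc h => hc (hpZ.dvd_of_dvd_pow h)
  have hv : padicValInt p y = padicValInt p y' + n0 * e := by
    have key : ∀ t : ℕ, (p : ℤ) ^ t ∣ y ↔ (p : ℤ) ^ t ∣ (p : ℤ) ^ (n0 * e) * y' := by
      intro t
      rw [← coprime_pow_mul hp (hpow β e hβ) t y, he, mul_right_comm,
        coprime_pow_mul hp (hpow α e hα)]
    have h1 := val_eq_of hp hy (mul_ne_zero (pow_ne_zero _ hpZ.ne_zero) hy') key
    rw [h1, padicValInt.mul (pow_ne_zero _ hpZ.ne_zero) hy']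
    have h2 : padicValInt p ((p : ℤ) ^ (n0 * e)) = n0 * e := by
      have : padicValInt p ((p : ℤ) ^ (n0 * e)) = padicValNat p (p ^ (n0 * e)) := by
        unfold padicValInt
        rw [Int.natAbs_pow, Int.natAbs_natCast]
      rw [this, padicValNat.prime_pow]
    rw [h2, add_comm]
  have hidx : lidx p n0 y = lidx p n0 y' + e := by
    unfold lidx
    rw [hv, Nat.add_mul_div_left _ _ hn0]
  obtain ⟨u, hu⟩ := lidx_dvd (n0 := n0) hp y
  obtain ⟨u', hu'⟩ := lidx_dvd (n0 := n0) hp y'
  have hp0 : ∀ t : ℕ, (p : ℤ) ^ t ≠ 0 := fun t => pow_ne_zero _ hpZ.ne_zero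
  have e1 : y / (p : ℤ) ^ (n0 * lidx p n0 y) = u := Int.ediv_eq_of_eq_mul_right (hp0 _) hu
  have e2 : y' / (p : ℤ) ^ (n0 * lidx p n0 y') = u' := Int.ediv_eq_of_eq_mul_right (hp0 _) hu'
  have e3 : u * β ^ e = α ^ e * u' := by
    have h1 : (p : ℤ) ^ (n0 * lidx p n0 y) * (u * β ^ e) =
        (p : ℤ) ^ (n0 * lidx p n0 y) * (α ^ e * u') := by
      have h2 : (p : ℤ) ^ (n0 * lidx p n0 y) = (p : ℤ) ^ (n0 * e) *
          (p : ℤ) ^ (n0 * lidx p n0 y') := by
        rw [← pow_add, hidx]
        congr 1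
        ring
      calc (p : ℤ) ^ (n0 * lidx p n0 y) * (u * β ^ e) =
          ((p : ℤ) ^ (n0 * lidx p n0 y) * u) * β ^ e := by ring
        _ = y * β ^ e := by rw [← hu]
        _ = (p : ℤ) ^ (n0 * e) * α ^ e * y' := he
        _ = (p : ℤ) ^ (n0 * e) * α ^ e * ((p : ℤ) ^ (n0 * lidx p n0 y') * u') := by rw [← hu']
        _ = (p : ℤ) ^ (n0 * lidx p n0 y) * (α ^ e * u') := by rw [h2]; ring
    exact mul_left_cancel₀ (hp0 _) h1
  unfold lom
  rw [e1, e2, hidx]
  have e5 : I - lidx p n0 y' = e + (I - (lidx p n0 y' + e)) := by omega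
  rw [e5, pow_add, pow_add]
  calc u * (β ^ lidx p n0 y' * β ^ e) * α ^ (I - (lidx p n0 y' + e)) =
      (u * β ^ e) * β ^ lidx p n0 y' * α ^ (I - (lidx p n0 y' + e)) := by ring
    _ = (α ^ e * u') * β ^ lidx p n0 y' * α ^ (I - (lidx p n0 y' + e)) := by rw [e3]
    _ = _ := by ring

/-- the elements of `A` in the coset `a ⟨g⟩` -/
noncomputable def co (A : Finset ℤ) (g : ℚ) (a : ℤ) : Finset ℤ := by
  classical exact A.filter (fun b => ∃ e : ℤ, (b : ℚ) = a * g ^ e)

theorem mem_co {A : Finset ℤ} {g : ℚ} {a b : ℤ} :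
    b ∈ co A g a ↔ b ∈ A ∧ ∃ e : ℤ, (b : ℚ) = a * g ^ e := by
  classical
  unfold co
  exact Finset.mem_filter

/-- the part of `A` in long cosets has small digit entropies at a suitable prime -/
theorem coset_lines (A : Finset ℤ) (hA0 : (0 : ℤ) ∉ A) (g : ℚ) (hg : g ≠ 0) (h1 : g ≠ 1)
    (h2 : g ≠ -1) (n : ℕ) (Y : Finset ℤ) (hY : ∀ a, a ∈ Y ↔ a ∈ A ∧ n < (co A g a).card) :
    ∃ p : ℕ, 2 ≤ p ∧ ∀ j, n * Fj p j Y ≤ Y.card * (1 + 2 * Real.log Y.card) := by
  classical
  obtain ⟨p, n0, α, β, h, hp, hn0, hα, hβ, hh, hhg⟩ := exists_form g hg h1 h2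
  have hpZ : Prime (p : ℤ) := Nat.prime_iff_prime_int.1 hp
  have hh0 : h ≠ 0 := by
    rcases hhg with hhg | hhg
    · rw [hhg]; exact hg
    · rw [hhg]; exact inv_ne_zero hg
  have hA : ∀ y ∈ A, y ≠ 0 := fun y hy h0 => hA0 (h0 ▸ hy)
  obtain ⟨I, hI⟩ : ∃ I : ℕ, I = A.sup (lidx p n0) := ⟨_, rfl⟩
  have hIle : ∀ y ∈ A, lidx p n0 y ≤ I := fun y hy => by rw [hI]; exact Finset.le_sup hy
  have hnat : ∀ y ∈ A, ∀ y' ∈ A, ∀ e : ℕ, (y : ℚ) = h ^ e * y' →
      lom p n0 α β I y = lom p n0 α β I y' := by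
    intro y hy y' hy' e he
    refine lom_eq hp hn0 hα hβ I y y' (hA y hy) (hA y' hy') e (hIle y hy) ?_
    have h2 : (y : ℚ) * (β : ℚ) ^ e = (p : ℚ) ^ (n0 * e) * (α : ℚ) ^ e * y' := by
      calc (y : ℚ) * (β : ℚ) ^ e = (h * β) ^ e * y' := by rw [he, mul_pow]; ring
        _ = (p : ℚ) ^ (n0 * e) * (α : ℚ) ^ e * y' := by rw [hh, mul_pow, pow_mul]
    exact_mod_cast h2
  have hcosh : ∀ y ∈ A, ∀ y' ∈ A, ∀ e : ℤ, (y : ℚ) = h ^ e * y' →
      lom p n0 α β I y = lom p n0 α β I y' := by
    intro y hy y' hy' e he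
    obtain ⟨m, rfl | rfl⟩ := Int.eq_nat_or_neg e
    · refine hnat y hy y' hy' m ?_
      rw [he, zpow_natCast]
    · refine (hnat y' hy' y hy m ?_).symm
      rw [he, zpow_neg, zpow_natCast, ← mul_assoc, mul_inv_cancel₀ (pow_ne_zero _ hh0), one_mul]
  have hcos : ∀ y ∈ A, ∀ y' ∈ A, ∀ e : ℤ, (y : ℚ) = y' * g ^ e →
      lom p n0 α β I y = lom p n0 α β I y' := by
    intro y hy y' hy' e he
    rcases hhg with hhg | hhg
    · refine hcosh y hy y' hy' e ?_
      rw [hhg, he]
      ring
    · refine hcosh y hy y' hy' (-e) ?_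
      rw [hhg, inv_zpow', neg_neg, he]
      ring
  obtain ⟨ω, hω⟩ : ∃ ω : ℤ → ℤ, ω = lom p n0 α β I := ⟨_, rfl⟩
  have hYA : Y ⊆ A := fun a ha => ((hY a).1 ha).1
  refine ⟨p, hp.two_le, fun j => ?_⟩
  have hlin := lines p hp.two_le Y n0 hn0 (lidx p n0) ω (fun y _ => lidx_dvd hp y)
    (fun y hy y' hy' ht => by
      unfold lidx
      rw [val_eq_of hp (hA y (hYA hy)) (hA y' (hYA hy')) ht])
    (fun y _ y' _ hid t => by
      rw [hω]
      exact lom_sub hp hα hβ I y y' hid t) j
  have hcard : n * (Y.image ω).card ≤ Y.card := by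
    rw [Finset.card_eq_sum_card_image ω Y, mul_comm, ← smul_eq_mul]
    refine Finset.card_nsmul_le_sum _ _ _ fun w hw => ?_
    obtain ⟨y, hy, hyw⟩ := Finset.mem_image.1 hw
    have hy' := (hY y).1 hy
    refine hy'.2.le.trans (Finset.card_le_card fun a ha => ?_)
    obtain ⟨haA, e, he⟩ := mem_co.1 ha
    rw [Finset.mem_filter]
    refine ⟨?_, ?_⟩
    · rw [hY]
      refine ⟨haA, hy'.2.trans_le (Finset.card_le_card fun b hb => ?_)⟩
      obtain ⟨hbA, f, hf⟩ := mem_co.1 hb
      refine mem_co.2 ⟨hbA, f - e, ?_⟩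
      rw [hf, he, zpow_sub₀ hg]
      have h3 : g ^ e ≠ 0 := zpow_ne_zero _ hg
      (clear * - h3 hg; field_simp)
    · rw [← hyw, hω]
      exact hcos a haA y hy'.1 e he
  have hcardR : (n : ℝ) * (Y.image ω).card ≤ Y.card := by exact_mod_cast hcard
  have hlog : 0 ≤ 1 + 2 * Real.log Y.card := by
    have := Real.log_natCast_nonneg Y.card
    (clear * - this; linarith only [this])
  calc (n : ℝ) * Fj p j Y ≤ n * ((Y.image ω).card * (1 + 2 * Real.log Y.card)) :=
        mul_le_mul_of_nonneg_left hlin (Nat.cast_nonneg n)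
    _ = (n * (Y.image ω).card) * (1 + 2 * Real.log Y.card) := by ring
    _ ≤ Y.card * (1 + 2 * Real.log Y.card) := mul_le_mul_of_nonneg_right hcardR hlog

end Pool.Agent.Helper15.GL
end

/- Helper24.DI.H15.GL.Sum -/
section
set_option autoImplicit false

/-!
# Project GL (MP_120218), Sum: `X + Y` is large if the digits of `X` and `Y` do not meet
-/

namespace Pool.Agent.Helper15.GL

open Finset

/-- the sumset of two classes -/
noncomputable def tau (p j : ℕ) (X Y : Finset ℤ) (x y : ℤ) : ℝ :=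
  Real.log ((Finset.image₂ (fun a b => a + b) (cls p j X x) (cls p j Y y)).card)

theorem tau_nonneg (p j : ℕ) (X Y : Finset ℤ) (x y : ℤ) : 0 ≤ tau p j X Y x y :=
  Real.log_natCast_nonneg _

theorem tau_step (p j : ℕ) (hp : 0 < p) [NeZero p] (X Y : Finset ℤ) (x y : ℤ) (hxX : x ∈ X)
    (hyY : y ∈ Y) :
    ent (conv (law (cls p j X x) (dig p j)) (law (cls p j Y y) (dig p j))) +
      (∑ y' ∈ cls p j Y y, (∑ x' ∈ cls p j X x, tau p (j + 1) X Y x' y') /
        (cls p j X x).card) / (cls p j Y y).card ≤ tau p j X Y x y := by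
  classical
  obtain ⟨C, hC⟩ : ∃ C : Finset ℤ, C = cls p j X x := ⟨_, rfl⟩
  obtain ⟨D, hD⟩ : ∃ D : Finset ℤ, D = cls p j Y y := ⟨_, rfl⟩
  have hCne : C.Nonempty := by rw [hC]; exact cls_nonempty hxX
  have hDne : D.Nonempty := by rw [hD]; exact cls_nonempty hyY
  have hCc : (0 : ℝ) < C.card := by exact_mod_cast Finset.card_pos.2 hCne
  have hDc : (0 : ℝ) < D.card := by exact_mod_cast Finset.card_pos.2 hDne
  obtain ⟨P, hP⟩ : ∃ P : ℤ, P = (p : ℤ) ^ j := ⟨_, rfl⟩
  have hP0 : P ≠ 0 := by rw [hP]; positivity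
  have hmod : ∀ {a b : ℤ}, P ∣ a - b → a % P = b % P := fun h =>
    Int.emod_eq_emod_iff_emod_sub_eq_zero.2 (Int.emod_eq_zero_of_dvd h)
  have hsp := split_step C D hCne hDne (dig p j) (dig p j)
    (fun z => dig p j z - (((x % P + y % P) / P : ℤ) : ZMod p)) (by
      intro a ha b hb
      rw [hC, mem_cls, ← hP] at ha
      rw [hD, mem_cls, ← hP] at hb
      have ha' := hmod ha.2
      have hb' := hmod hb.2
      have h1 : (a + b) / P = a / P + b / P + (x % P + y % P) / P := by
        have e1 := Int.mul_ediv_add_emod a P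
        have e2 := Int.mul_ediv_add_emod b P
        have e3 : a + b = (x % P + y % P) + P * (a / P + b / P) := by
          rw [← ha', ← hb', mul_add]
          linarith only [e1, e2]
        rw [e3, Int.add_mul_ediv_left _ _ hP0, add_comm]
      unfold dig
      rw [← hP, h1]
      push_cast
      ring)
  have hsum : ∑ a ∈ C, ∑ b ∈ D, Real.log ((Finset.image₂ (fun u v => u + v)
        (C.filter (fun z => dig p j z = dig p j a))
        (D.filter (fun z => dig p j z = dig p j b))).card) =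
      ∑ a ∈ C, ∑ b ∈ D, tau p (j + 1) X Y a b := by
    refine Finset.sum_congr rfl fun a ha => Finset.sum_congr rfl fun b hb => ?_
    rw [hC] at ha
    rw [hD] at hb
    rw [hC, hD, filter_dig p j hp X x a ha, filter_dig p j hp Y y b hb]
    rfl
  rw [hsum] at hsp
  rw [← hC, ← hD]
  have hτ : tau p j X Y x y = Real.log ((Finset.image₂ (fun a b => a + b) C D).card) := by
    unfold tau
    rw [hC, hD]
  rw [hτ]
  have e : (∑ y' ∈ D, (∑ x' ∈ C, tau p (j + 1) X Y x' y') / C.card) / D.card =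
      (∑ a ∈ C, ∑ b ∈ D, tau p (j + 1) X Y a b) / (C.card * D.card) := by
    rw [← Finset.sum_div, div_div, Finset.sum_comm]
  rw [e]
  have h2 : ent (conv (law C (dig p j)) (law D (dig p j))) =
      ((C.card : ℝ) * D.card * ent (conv (law C (dig p j)) (law D (dig p j)))) /
        (C.card * D.card) := by
    field_simp
  rw [h2, ← add_div, div_le_iff₀ (mul_pos hCc hDc)]
  linarith only [hsp]

/-- one level -/
theorem level_step {η K : ℝ} (hN : NodeE η K) (p j : ℕ) (hp : 0 < p) [NeZero p]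
    (X Y : Finset ℤ) :
    (1 - η) * (Y.card * Fj p j X + X.card * Fj p j Y) - K * (Fj p j X * Fj p j Y) +
      ∑ x ∈ X, ∑ y ∈ Y, tau p (j + 1) X Y x y ≤ ∑ x ∈ X, ∑ y ∈ Y, tau p j X Y x y := by
  have h1 : ∀ x ∈ X, ∀ y ∈ Y, ((1 - η) * (hx p j X x + hx p j Y y) -
      K * (hx p j X x * hx p j Y y)) +
      (∑ y' ∈ cls p j Y y, (∑ x' ∈ cls p j X x, tau p (j + 1) X Y x' y') /
        (cls p j X x).card) / (cls p j Y y).card ≤ tau p j X Y x y := by
    intro x hxX y hyY
    have h2 := tau_step p j hp X Y x y hxX hyY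
    have h3 := hN (ZMod p) (law (cls p j X x) (dig p j)) (law (cls p j Y y) (dig p j))
      (law_nonneg _ _) (law_nonneg _ _) (sum_law _ (cls_nonempty hxX) _)
      (sum_law _ (cls_nonempty hyY) _)
    have h4 : hx p j X x = ent (law (cls p j X x) (dig p j)) := rfl
    have h5 : hx p j Y y = ent (law (cls p j Y y) (dig p j)) := rfl
    rw [← h4, ← h5] at h3
    have h6 : (1 - η) * (hx p j X x + hx p j Y y) - K * (hx p j X x * hx p j Y y) =
      (hx p j X x + hx p j Y y) - (η * (hx p j X x + hx p j Y y) +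
        K * (hx p j X x * hx p j Y y)) := by ring
    rw [h6]
    (clear * - h2 h3; linarith only [h2, h3])
  have h2 : ∑ x ∈ X, ∑ y ∈ Y, (((1 - η) * (hx p j X x + hx p j Y y) -
      K * (hx p j X x * hx p j Y y)) +
      (∑ y' ∈ cls p j Y y, (∑ x' ∈ cls p j X x, tau p (j + 1) X Y x' y') /
        (cls p j X x).card) / (cls p j Y y).card) ≤ ∑ x ∈ X, ∑ y ∈ Y, tau p j X Y x y :=
    Finset.sum_le_sum fun x hxX => Finset.sum_le_sum fun y hyY => h1 x hxX y hyY
  have h3 : ∑ x ∈ X, ∑ y ∈ Y, (((1 - η) * (hx p j X x + hx p j Y y) -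
      K * (hx p j X x * hx p j Y y)) +
      (∑ y' ∈ cls p j Y y, (∑ x' ∈ cls p j X x, tau p (j + 1) X Y x' y') /
        (cls p j X x).card) / (cls p j Y y).card) =
      ∑ x ∈ X, ∑ y ∈ Y, ((1 - η) * (hx p j X x + hx p j Y y) -
        K * (hx p j X x * hx p j Y y)) +
      ∑ x ∈ X, ∑ y ∈ Y, (∑ y' ∈ cls p j Y y, (∑ x' ∈ cls p j X x, tau p (j + 1) X Y x' y') /
        (cls p j X x).card) / (cls p j Y y).card := by
    rw [← Finset.sum_add_distrib]
    refine Finset.sum_congr rfl fun x _ => ?_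
    rw [Finset.sum_add_distrib]
  have h4 : ∑ x ∈ X, ∑ y ∈ Y, (∑ y' ∈ cls p j Y y,
      (∑ x' ∈ cls p j X x, tau p (j + 1) X Y x' y') / (cls p j X x).card) /
        (cls p j Y y).card = ∑ x ∈ X, ∑ y ∈ Y, tau p (j + 1) X Y x y := by
    have e1 : ∀ x ∈ X, ∑ y ∈ Y, (∑ y' ∈ cls p j Y y,
        (∑ x' ∈ cls p j X x, tau p (j + 1) X Y x' y') / (cls p j X x).card) /
          (cls p j Y y).card =
        (∑ x' ∈ cls p j X x, ∑ y ∈ Y, tau p (j + 1) X Y x' y) / (cls p j X x).card := by
      intro x _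
      rw [avg_cls p j Y (fun y' => (∑ x' ∈ cls p j X x, tau p (j + 1) X Y x' y') /
        (cls p j X x).card), ← Finset.sum_div, Finset.sum_comm]
    rw [Finset.sum_congr rfl e1, avg_cls p j X (fun x' => ∑ y ∈ Y, tau p (j + 1) X Y x' y)]
  have h5 : ∑ x ∈ X, ∑ y ∈ Y, ((1 - η) * (hx p j X x + hx p j Y y) -
        K * (hx p j X x * hx p j Y y)) =
      (1 - η) * (Y.card * Fj p j X + X.card * Fj p j Y) - K * (Fj p j X * Fj p j Y) := by
    have e1 : ∀ x ∈ X, ∑ y ∈ Y, ((1 - η) * (hx p j X x + hx p j Y y) -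
        K * (hx p j X x * hx p j Y y)) =
        (1 - η) * (Y.card * hx p j X x + Fj p j Y) - K * (hx p j X x * Fj p j Y) := by
      intro x _
      rw [Finset.sum_sub_distrib, ← Finset.mul_sum, ← Finset.mul_sum, Finset.sum_add_distrib,
        ← Finset.mul_sum, sum_hx, Finset.sum_const, nsmul_eq_mul]
    rw [Finset.sum_congr rfl e1, Finset.sum_sub_distrib, ← Finset.mul_sum, ← Finset.mul_sum,
      Finset.sum_add_distrib, ← Finset.mul_sum, ← Finset.sum_mul, sum_hx, Finset.sum_const,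
      nsmul_eq_mul]
  rw [h3, h4, h5] at h2
  exact h2

/-- **The digits inequality.** -/
theorem sum_ge {η K : ℝ} (hN : NodeE η K) (p : ℕ) (hp : 2 ≤ p) (X Y : Finset ℤ)
    (hX : X.Nonempty) (hY : Y.Nonempty) :
    ∃ J : ℕ, (1 - η) * (Real.log X.card + Real.log Y.card) -
      K * (∑ j ∈ Finset.range J, Fj p j X * Fj p j Y) / (X.card * Y.card) ≤
      Real.log ((Finset.image₂ (fun a b => a + b) X Y).card) := by
  have : NeZero p := ⟨by omega⟩
  have hXc : (0 : ℝ) < X.card := by exact_mod_cast Finset.card_pos.2 hX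
  have hYc : (0 : ℝ) < Y.card := by exact_mod_cast Finset.card_pos.2 hY
  obtain ⟨J1, hJ1⟩ := exists_singleton p hp X
  obtain ⟨J2, hJ2⟩ := exists_singleton p hp Y
  obtain ⟨J, hJ⟩ : ∃ J : ℕ, J = max J1 J2 := ⟨_, rfl⟩
  refine ⟨J, ?_⟩
  have hind : ∀ i : ℕ, (1 - η) * (Y.card * ∑ j ∈ Finset.range i, Fj p j X +
      X.card * ∑ j ∈ Finset.range i, Fj p j Y) -
      K * (∑ j ∈ Finset.range i, Fj p j X * Fj p j Y) +
      ∑ x ∈ X, ∑ y ∈ Y, tau p i X Y x y ≤ ∑ x ∈ X, ∑ y ∈ Y, tau p 0 X Y x y := by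
    intro i
    induction i with
    | zero => simp
    | succ i ih =>
      rw [Finset.sum_range_succ, Finset.sum_range_succ, Finset.sum_range_succ]
      have h := level_step hN p i (by omega) X Y
      have e : (1 - η) * (Y.card * (∑ j ∈ Finset.range i, Fj p j X + Fj p i X) +
          X.card * (∑ j ∈ Finset.range i, Fj p j Y + Fj p i Y)) -
          K * (∑ j ∈ Finset.range i, Fj p j X * Fj p j Y + Fj p i X * Fj p i Y) =
          ((1 - η) * (Y.card * ∑ j ∈ Finset.range i, Fj p j X +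
            X.card * ∑ j ∈ Finset.range i, Fj p j Y) -
            K * (∑ j ∈ Finset.range i, Fj p j X * Fj p j Y)) +
          ((1 - η) * (Y.card * Fj p i X + X.card * Fj p i Y) - K * (Fj p i X * Fj p i Y)) := by
        ring
      rw [e]
      (clear * - ih h; linarith)
  have h0 : ∑ x ∈ X, ∑ y ∈ Y, tau p 0 X Y x y =
      X.card * Y.card * Real.log ((Finset.image₂ (fun a b => a + b) X Y).card) := by
    have e : ∀ x ∈ X, ∀ y ∈ Y, tau p 0 X Y x y =
        Real.log ((Finset.image₂ (fun a b => a + b) X Y).card) := by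
      intro x _ y _
      unfold tau
      rw [cls_zero, cls_zero]
    rw [Finset.sum_congr rfl fun x hx' => Finset.sum_congr rfl fun y hy' => e x hx' y hy']
    simp only [Finset.sum_const, nsmul_eq_mul]
    ring
  have hsumX : ∑ j ∈ Finset.range J, Fj p j X = X.card * Real.log X.card := by
    unfold Fj
    rw [Finset.sum_comm]
    have e : ∀ x ∈ X, ∑ j ∈ Finset.range J, ell p j X x = Real.log X.card := by
      intro x hx'
      rw [sum_ell, hJ1 J (by rw [hJ]; exact le_max_left _ _) x hx', Finset.card_singleton]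
      simp
    rw [Finset.sum_congr rfl e, Finset.sum_const, nsmul_eq_mul]
  have hsumY : ∑ j ∈ Finset.range J, Fj p j Y = Y.card * Real.log Y.card := by
    unfold Fj
    rw [Finset.sum_comm]
    have e : ∀ x ∈ Y, ∑ j ∈ Finset.range J, ell p j Y x = Real.log Y.card := by
      intro x hx'
      rw [sum_ell, hJ2 J (by rw [hJ]; exact le_max_right _ _) x hx', Finset.card_singleton]
      simp
    rw [Finset.sum_congr rfl e, Finset.sum_const, nsmul_eq_mul]
  have h1 := hind J
  rw [h0, hsumX, hsumY] at h1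
  have h2 : 0 ≤ ∑ x ∈ X, ∑ y ∈ Y, tau p J X Y x y :=
    Finset.sum_nonneg fun x _ => Finset.sum_nonneg fun y _ => tau_nonneg _ _ _ _ _ _
  have h3 : (1 - η) * (Y.card * (X.card * Real.log X.card) +
      X.card * (Y.card * Real.log Y.card)) =
      X.card * Y.card * ((1 - η) * (Real.log X.card + Real.log Y.card)) := by ring
  rw [h3] at h1
  have hXY : (0 : ℝ) < X.card * Y.card := mul_pos hXc hYc
  refine le_of_mul_le_mul_left ?_ hXY
  rw [mul_sub, mul_div_cancel₀ _ hXY.ne']
  (clear * - h1 h2; linarith only [h1, h2])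

end Pool.Agent.Helper15.GL
end

/- Helper24.DI.H15.GL.Grow -/
section
set_option autoImplicit false

/-!
# Project GL (MP_120218), Grow: sets which expand every other set, iteration, the rank one case
-/

namespace Pool.Agent.Helper15.GL

open Finset

/-- `A` expands every other set almost maximally -/
def Grows (η : ℝ) (A : Finset ℤ) : Prop :=
  ∀ X : Finset ℤ, X.Nonempty →
    (1 - η) * (Real.log X.card + Real.log A.card) ≤
      Real.log ((Finset.image₂ (fun a b => a + b) X A).card)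

/-- `X + kA` -/
def sk (k : ℕ) (X A : Finset ℤ) : Finset ℤ :=
  (X ×ˢ Fintype.piFinset (fun _ : Fin k => A)).image
    (fun f : ℤ × (Fin k → ℤ) => f.1 + ∑ i, f.2 i)

theorem sk_succ (k : ℕ) (X A : Finset ℤ) :
    Finset.image₂ (fun a b => a + b) (sk k X A) A ⊆ sk (k + 1) X A := by
  intro w hw
  rw [Finset.mem_image₂] at hw
  obtain ⟨z, hz, a, ha, rfl⟩ := hw
  unfold sk at hz
  rw [Finset.mem_image] at hz
  obtain ⟨⟨x, f⟩, hf, rfl⟩ := hz
  rw [Finset.mem_product, Fintype.mem_piFinset] at hf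
  unfold sk
  rw [Finset.mem_image]
  refine ⟨(x, Fin.snoc (α := fun _ => ℤ) f a), ?_, ?_⟩
  · rw [Finset.mem_product, Fintype.mem_piFinset]
    refine ⟨hf.1, ?_⟩
    intro i
    refine Fin.lastCases ?_ (fun i => ?_) i
    · simp only [Fin.snoc_last]
      exact ha
    · simp only [Fin.snoc_castSucc]
      exact hf.2 i
  · simp only [Fin.sum_univ_castSucc, Fin.snoc_castSucc, Fin.snoc_last]
    ring

theorem le_sk (k : ℕ) (X A : Finset ℤ) (hA : A.Nonempty) : X.card ≤ (sk k X A).card := by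
  obtain ⟨a, ha⟩ := hA
  unfold sk
  refine Finset.card_le_card_of_injOn (fun x => x + ∑ _i : Fin k, a) ?_ ?_
  · intro x hx
    refine Finset.mem_coe.2 (Finset.mem_image.2 ⟨(x, fun _ => a), ?_, rfl⟩)
    rw [Finset.mem_product, Fintype.mem_piFinset]
    exact ⟨Finset.mem_coe.1 hx, fun _ => ha⟩
  · intro x _ y _ h
    exact add_right_cancel h

theorem sk_iter (η : ℝ) (hη : 0 ≤ η) (hη1 : η ≤ 1) (A X : Finset ℤ) (hA : A.Nonempty)
    (hX : X.Nonempty) (hG : Grows η A) (k : ℕ) :
    (1 - k * η) * (Real.log X.card + k * Real.log A.card) ≤ Real.log (sk k X A).card := by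
  have hA1 : (1 : ℝ) ≤ A.card := by exact_mod_cast hA.card_pos
  have hX1 : (1 : ℝ) ≤ X.card := by exact_mod_cast hX.card_pos
  have ha : 0 ≤ Real.log A.card := Real.log_nonneg hA1
  have hx : 0 ≤ Real.log X.card := Real.log_nonneg hX1
  induction k with
  | zero =>
    have h1 : (X.card : ℝ) ≤ (sk 0 X A).card := by exact_mod_cast le_sk 0 X A hA
    have h2 := Real.log_le_log (by (clear * - hX1; linarith only [hX1])) h1
    simpa using h2
  | succ k ih =>
    have h1 : (X.card : ℝ) ≤ (sk k X A).card := by exact_mod_cast le_sk k X A hA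
    have hne : (sk k X A).Nonempty := by
      rw [← Finset.card_pos]
      have : (0 : ℝ) < (sk k X A).card := by (clear * - hX1 h1; linarith only [hX1, h1])
      exact_mod_cast this
    have h2 := hG (sk k X A) hne
    have h3 : ((Finset.image₂ (fun a b => a + b) (sk k X A) A).card : ℝ) ≤
        (sk (k + 1) X A).card := by
      exact_mod_cast Finset.card_le_card (sk_succ k X A)
    have h4 : (0 : ℝ) < (Finset.image₂ (fun a b => a + b) (sk k X A) A).card := by
      exact_mod_cast Finset.card_pos.2 (hne.image₂ hA)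
    have h5 := Real.log_le_log h4 h3
    refine le_trans ?_ (h2.trans h5)
    push_cast
    have hk : (0 : ℝ) ≤ k := Nat.cast_nonneg k
    have h6 : (1 - η) * ((1 - k * η) * (Real.log X.card + k * Real.log A.card)) ≤
        (1 - η) * Real.log (sk k X A).card := mul_le_mul_of_nonneg_left ih (by linarith only [hη1])
    have h7 : 0 ≤ Real.log X.card + k * Real.log A.card := by (clear * -; positivity)
    have h8 : (1 - (k + 1) * η) * (Real.log X.card + k * Real.log A.card) ≤
        (1 - η) * (1 - k * η) * (Real.log X.card + k * Real.log A.card) := by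
      refine mul_le_mul_of_nonneg_right ?_ h7
      (clear * - hk hη; linarith only [mul_nonneg hk (mul_nonneg hη hη)])
    have h9 : (1 - (k + 1) * η) * Real.log A.card ≤ (1 - η) * Real.log A.card := by
      refine mul_le_mul_of_nonneg_right ?_ ha
      (clear * - hη; nlinarith only [hη])
    linarith only [h6, h8, h9]

/-- a set which expands has large iterated sumsets -/
theorem sk_large (k : ℕ) (ε b : ℝ) (hε : 0 < ε) : ∃ η : ℝ, 0 < η ∧ η ≤ 1 ∧
    ∀ A X : Finset ℤ, A.Nonempty → X.Nonempty → (X.card : ℝ) ≤ (A.card : ℝ) ^ b →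
      Grows η A → (X.card : ℝ) * (A.card : ℝ) ^ ((k : ℝ) - ε) ≤ (sk k X A).card := by
  have hk : (0 : ℝ) ≤ k := Nat.cast_nonneg k
  have hb0 : 0 ≤ |b| := abs_nonneg b
  have hden : (0 : ℝ) < k * (k + |b|) + ε + 1 := by (clear * - hε; positivity)
  refine ⟨ε / (k * (k + |b|) + ε + 1), by (clear * - hε; positivity), ?_, ?_⟩
  · rw [div_le_one hden]
    nlinarith only [hb0]
  · intro A X hA hX hXb hG
    have hA1 : (1 : ℝ) ≤ A.card := by exact_mod_cast hA.card_pos
    have hX1 : (1 : ℝ) ≤ X.card := by exact_mod_cast hX.card_pos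
    have ha : 0 ≤ Real.log A.card := Real.log_nonneg hA1
    have hx : 0 ≤ Real.log X.card := Real.log_nonneg hX1
    obtain ⟨η, hη⟩ : ∃ η : ℝ, η = ε / (k * (k + |b|) + ε + 1) := ⟨_, rfl⟩
    rw [← hη] at hG
    have hη0 : 0 ≤ η := by rw [hη]; (clear * - hε; positivity)
    have hη1 : η ≤ 1 := by
      rw [hη, div_le_one hden]
      (clear * - hb0; nlinarith only [hb0])
    have h1 := sk_iter η hη0 hη1 A X hA hX hG k
    have h2 : Real.log X.card ≤ |b| * Real.log A.card := by
      have h3 := Real.log_le_log (by linarith only [hX1]) hXb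
      rw [Real.log_rpow (by linarith only [hA1])] at h3
      exact h3.trans (mul_le_mul_of_nonneg_right (le_abs_self b) ha)
    have h3 : η * (k * (k + |b|)) ≤ ε := by
      rw [hη, div_mul_eq_mul_div, div_le_iff₀ hden]
      (clear * - hε; nlinarith only [hε])
    have h4 : k * η * (Real.log X.card + k * Real.log A.card) ≤ ε * Real.log A.card := by
      have h5 : Real.log X.card + k * Real.log A.card ≤ (k + |b|) * Real.log A.card := by
        linarith only [h2]
      calc k * η * (Real.log X.card + k * Real.log A.card) ≤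
            k * η * ((k + |b|) * Real.log A.card) :=
              mul_le_mul_of_nonneg_left h5 (by (clear * - hη0; positivity))
        _ = (η * (k * (k + |b|))) * Real.log A.card := by ring
        _ ≤ ε * Real.log A.card := mul_le_mul_of_nonneg_right h3 ha
    have h5 : Real.log X.card + ((k : ℝ) - ε) * Real.log A.card ≤ Real.log (sk k X A).card := by
      linarith only [h1, h4]
    have h6 : (0 : ℝ) < (sk k X A).card := by
      have : (X.card : ℝ) ≤ (sk k X A).card := by exact_mod_cast le_sk k X A hA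
      linarith only [hX1, this]
    have h7 : (0 : ℝ) < X.card * (A.card : ℝ) ^ ((k : ℝ) - ε) :=
      mul_pos (by linarith only [hX1]) (Real.rpow_pos_of_pos (by linarith only [hA1]) _)
    rw [← Real.log_le_log_iff h7 h6, Real.log_mul (by linarith only [hX1])
      (Real.rpow_pos_of_pos (by linarith only [hA1]) _).ne', Real.log_rpow (by linarith only [hA1])]
    exact h5

/-- final step, common to both cases -/
theorem grows_final (η0 x a L : ℝ) (hη0 : 0 ≤ η0) (hx : 0 ≤ x) (ha : 0 ≤ a) (b : ℝ)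
    (hη1 : η0 ≤ 1) (hb : (1 - η0) * a ≤ b) (hL : (1 - η0) * (x + b) - η0 * x ≤ L) :
    (1 - 4 * η0) * (x + a) ≤ L := by
  have h1 : (1 - η0) * ((1 - η0) * a) ≤ (1 - η0) * b :=
    mul_le_mul_of_nonneg_left hb (by linarith only [hη1])
  nlinarith only [mul_nonneg hη0 hx, mul_nonneg hη0 ha, mul_nonneg (mul_nonneg hη0 hη0) ha, hη1, hb, hL]

/-- **The rank one case.** -/
theorem grow_line (η : ℝ) (hη : 0 < η) (hη1 : η ≤ 1) : ∃ C c N0 : ℝ, 0 < C ∧ 0 < c ∧ c ≤ 1 ∧
    0 < N0 ∧
    ∀ (A : Finset ℤ) (g : ℚ) (Y0 : Finset ℤ), N0 ≤ A.card → g ≠ 0 → g ≠ 1 → g ≠ -1 →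
      (∀ a ∈ Y0, a ∈ A ∧ C * Real.log A.card < (co A g a).card) →
      (A.card : ℝ) ^ (1 - c) < Y0.card → Grows η A := by
  classical
  obtain ⟨η0, hη0⟩ : ∃ η0 : ℝ, η0 = η / 4 := ⟨_, rfl⟩
  have hη0p : 0 < η0 := by rw [hη0]; (clear * - hη; positivity)
  have hη01 : η0 ≤ 1 / 4 := by rw [hη0]; (clear * - hη1; linarith only [hη1])
  obtain ⟨K, hK, hN⟩ := node_exists η0 hη0p
  obtain ⟨K1, hK1⟩ : ∃ K1 : ℝ, K1 = 3 * K / η0 := ⟨_, rfl⟩
  have hK1p : 0 < K1 := by rw [hK1]; positivity
  have hl4 : 0 < Real.log 4 := Real.log_pos (by norm_num)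
  refine ⟨K1 + 2, η0 / 2, Real.exp (1 + 2 * Real.log 4 / η0), by positivity, by positivity,
    by (clear * - hη01; linarith only [hη01]), Real.exp_pos _, ?_⟩
  intro A g Y0 hAN hg hg1 hg2 hY0 hmany
  have hA0 : (0 : ℝ) < A.card := lt_of_lt_of_le (Real.exp_pos _) hAN
  have hlogA : 1 + 2 * Real.log 4 / η0 ≤ Real.log A.card := by
    rw [Real.le_log_iff_exp_le hA0]
    exact hAN
  have hq : 0 ≤ 2 * Real.log 4 / η0 := by positivity
  have hlogA1 : 1 ≤ Real.log A.card := by (clear * - hlogA hq; linarith only [hlogA, hq])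
  have hlogA2 : 2 * Real.log 4 ≤ η0 * Real.log A.card := by
    have h1 : 2 * Real.log 4 / η0 ≤ Real.log A.card := by linarith only [hlogA]
    rw [div_le_iff₀ hη0p] at h1
    (clear * - h1; linarith only [h1])
  obtain ⟨a, ha⟩ : ∃ a : ℝ, a = Real.log A.card := ⟨_, rfl⟩
  rw [← ha] at hY0 hlogA1 hlogA2
  obtain ⟨A', hA'⟩ : ∃ A' : Finset ℤ, A' = A.erase 0 := ⟨_, rfl⟩
  have hA'A : A' ⊆ A := by rw [hA']; exact Finset.erase_subset _ _
  have hA'0 : (0 : ℤ) ∉ A' := by rw [hA']; exact Finset.notMem_erase _ _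
  have hpow2 : (2 : ℝ) ≤ (A.card : ℝ) ^ (1 - η0 / 2) := by
    have hl2 : Real.log 2 ≤ 1 / 2 * a := by
      have h1 : Real.log 4 = 2 * Real.log 2 := by
        rw [show (4 : ℝ) = 2 ^ 2 by norm_num, Real.log_pow]
        norm_num
      have hl2p : 0 < Real.log 2 := Real.log_pos (by norm_num)
      nlinarith only [hη01, hlogA2, hlogA1, h1]
    rw [← Real.log_le_log_iff (by norm_num) (Real.rpow_pos_of_pos hA0 _), Real.log_rpow hA0, ← ha]
    nlinarith only [hη01, hlogA1, hl2]
  obtain ⟨n, hn⟩ : ∃ n : ℕ, n = ⌈K1 * a⌉₊ + 1 := ⟨_, rfl⟩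
  have hnK : K1 * a ≤ n := by
    rw [hn]
    push_cast
    have := Nat.le_ceil (K1 * a)
    (clear * - this; linarith only [this])
  have hnle : (n : ℝ) ≤ (K1 + 2) * a := by
    rw [hn]
    push_cast
    have := (Nat.ceil_lt_add_one (a := K1 * a) (by (clear * - hK1p hlogA1; positivity))).le
    linarith only [hlogA1, this]
  have hn0 : (0 : ℝ) < n := by
    have : 0 < K1 * a := by (clear * - hK1p hlogA1; positivity)
    linarith only [hnK, this]
  obtain ⟨Y, hYd⟩ : ∃ Y : Finset ℤ, Y = A'.filter (fun y => n < (co A' g y).card) := ⟨_, rfl⟩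
  have hYm : ∀ y, y ∈ Y ↔ y ∈ A' ∧ n < (co A' g y).card := by
    intro y
    rw [hYd]
    exact Finset.mem_filter
  have hYA : Y ⊆ A' := fun y hy => ((hYm y).1 hy).1
  have hsub : Y0.erase 0 ⊆ Y := by
    intro y hy
    rw [Finset.mem_erase] at hy
    have h1 := hY0 y hy.2
    rw [hYm]
    refine ⟨by rw [hA', Finset.mem_erase]; exact ⟨hy.1, h1.1⟩, ?_⟩
    have h2 : (n : ℝ) < (co A g y).card := lt_of_le_of_lt hnle h1.2
    have h3 : co A g y ⊆ co A' g y := by
      intro b hb
      obtain ⟨hbA, e, he⟩ := mem_co.1 hb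
      refine mem_co.2 ⟨?_, e, he⟩
      rw [hA', Finset.mem_erase]
      refine ⟨?_, hbA⟩
      rintro rfl
      have h4 : (y : ℚ) ≠ 0 := by exact_mod_cast hy.1
      exact mul_ne_zero h4 (zpow_ne_zero e hg) (by rw [← he]; norm_num)
    have h5 : n < (co A g y).card := by exact_mod_cast h2
    exact h5.trans_le (Finset.card_le_card h3)
  obtain ⟨p, hp, hF⟩ := coset_lines A' hA'0 g hg hg1 hg2 n Y hYm
  have hYbig : (A.card : ℝ) ^ (1 - η0 / 2) ≤ 4 * Y.card := by
    have h1 := Finset.pred_card_le_card_erase (s := Y0) (a := (0 : ℤ))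
    have h2 := Finset.card_le_card hsub
    have h3 : Y0.card ≤ Y.card + 1 := by omega
    have h4 : (Y0.card : ℝ) ≤ Y.card + 1 := by exact_mod_cast h3
    linarith only [hmany, hpow2, h4]
  have hApow : 0 < (A.card : ℝ) ^ (1 - η0 / 2) := Real.rpow_pos_of_pos hA0 _
  have hYp : (0 : ℝ) < Y.card := by (clear * - hYbig hApow; linarith only [hYbig, hApow])
  have hYne : Y.Nonempty := by
    rw [← Finset.card_pos]
    exact_mod_cast hYp
  have hYle : (Y.card : ℝ) ≤ A.card := by exact_mod_cast Finset.card_le_card (hYA.trans hA'A)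
  have hlogY : Real.log Y.card ≤ a := by
    rw [ha]
    exact Real.log_le_log hYp hYle
  have hF' : ∀ j, n * Fj p j Y ≤ Y.card * (3 * a) := by
    intro j
    refine (hF j).trans (mul_le_mul_of_nonneg_left ?_ hYp.le)
    linarith only [hlogA1, hlogY]
  intro X hX
  rw [← ha]
  have hX1 : (1 : ℝ) ≤ X.card := by exact_mod_cast hX.card_pos
  have hx : 0 ≤ Real.log X.card := Real.log_nonneg hX1
  obtain ⟨J, hJ⟩ := sum_ge hN p hp X Y hX hYne
  have hcost : K * (∑ j ∈ Finset.range J, Fj p j X * Fj p j Y) / (X.card * Y.card) ≤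
      η0 * Real.log X.card := by
    rw [div_le_iff₀ (by positivity)]
    have h1 : n * (∑ j ∈ Finset.range J, Fj p j X * Fj p j Y) ≤
        Y.card * (3 * a) * (X.card * Real.log X.card) := by
      calc n * (∑ j ∈ Finset.range J, Fj p j X * Fj p j Y) =
            ∑ j ∈ Finset.range J, Fj p j X * (n * Fj p j Y) := by
              rw [Finset.mul_sum]
              exact Finset.sum_congr rfl fun j _ => by ring
        _ ≤ ∑ j ∈ Finset.range J, Fj p j X * (Y.card * (3 * a)) :=
            Finset.sum_le_sum fun j _ => mul_le_mul_of_nonneg_left (hF' j) (Fj_nonneg p j X)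
        _ = Y.card * (3 * a) * ∑ j ∈ Finset.range J, Fj p j X := by
              rw [← Finset.sum_mul]
              ring
        _ ≤ Y.card * (3 * a) * (X.card * Real.log X.card) :=
              mul_le_mul_of_nonneg_left (sum_Fj_le p J X) (by positivity)
    have h2 : n * (K * (∑ j ∈ Finset.range J, Fj p j X * Fj p j Y)) ≤
        n * (η0 * Real.log X.card * (X.card * Y.card)) := by
      calc n * (K * (∑ j ∈ Finset.range J, Fj p j X * Fj p j Y)) =
            K * (n * (∑ j ∈ Finset.range J, Fj p j X * Fj p j Y)) := by ring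
        _ ≤ K * (Y.card * (3 * a) * (X.card * Real.log X.card)) :=
              mul_le_mul_of_nonneg_left h1 hK.le
        _ = (η0 * (K1 * a)) * (Y.card * (X.card * Real.log X.card)) := by
              rw [hK1]
              field_simp
        _ ≤ (η0 * n) * (Y.card * (X.card * Real.log X.card)) := by
              refine mul_le_mul_of_nonneg_right ?_ (by positivity)
              exact mul_le_mul_of_nonneg_left hnK hη0p.le
        _ = _ := by ring
    exact le_of_mul_le_mul_left h2 hn0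
  have hsub2 : Finset.image₂ (fun a b => a + b) X Y ⊆ Finset.image₂ (fun a b => a + b) X A :=
    Finset.image₂_subset_left (hYA.trans hA'A)
  have hpos : (0 : ℝ) < (Finset.image₂ (fun a b => a + b) X Y).card := by
    exact_mod_cast Finset.card_pos.2 (hX.image₂ hYne)
  have hmono : Real.log (Finset.image₂ (fun a b => a + b) X Y).card ≤
      Real.log (Finset.image₂ (fun a b => a + b) X A).card :=
    Real.log_le_log hpos (by exact_mod_cast Finset.card_le_card hsub2)
  have ha' : (1 - η0) * a ≤ Real.log Y.card := by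
    have h1 := Real.log_le_log hApow hYbig
    rw [Real.log_mul (by norm_num) hYp.ne', Real.log_rpow hA0, ← ha] at h1
    linarith only [hlogA2, h1]
  have h4 : η = 4 * η0 := by rw [hη0]; ring
  rw [h4]
  refine grows_final η0 _ _ _ hη0p.le hx (by linarith only [hnK, hnle]) _ (by linarith only [hη01]) ha' ?_
  linarith only [hJ, hcost, hmono]

end Pool.Agent.Helper15.GL
end

/- Helper24.DI.H28.LN.Greedy -/
section
set_option autoImplicit false

/-!
# Project LINES (MP_120218), Greedy: the greedy chain, and theorem L1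
-/

namespace Pool.Agent.Helper28.LN

open Finset Pool.Agent.Helper15.GL

/-- a good chain of moduli starting at `m0` -/
def ChainFrom (Y : Finset ℤ) (ε t0 : ℝ) (m0 : ℕ) : Prop :=
  ∃ (J : ℕ) (m q : ℕ → ℕ), m 0 = m0 ∧ (∀ i < J, m (i + 1) = m i * q i) ∧ (∀ i < J, 0 < q i) ∧
    (∀ y ∈ Y, cl (m J) Y y = {y}) ∧ (∀ i < J, (nS (m i) (q i) t0 Y : ℝ) ≤ ε * Y.card)

theorem chain_nil (Y : Finset ℤ) (ε t0 : ℝ) (m0 : ℕ) (h : ∀ y ∈ Y, cl m0 Y y = {y}) :
    ChainFrom Y ε t0 m0 :=
  ⟨0, fun _ => m0, fun _ => 1, rfl, fun i hi => absurd hi (Nat.not_lt_zero i),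
    fun i hi => absurd hi (Nat.not_lt_zero i), h, fun i hi => absurd hi (Nat.not_lt_zero i)⟩

theorem chain_cons (Y : Finset ℤ) (ε t0 : ℝ) (m0 q0 : ℕ) (hq0 : 0 < q0)
    (h : (nS m0 q0 t0 Y : ℝ) ≤ ε * Y.card) (hc : ChainFrom Y ε t0 (m0 * q0)) :
    ChainFrom Y ε t0 m0 := by
  obtain ⟨J, m, q, h0, h1, h2, h3, h4⟩ := hc
  refine ⟨J + 1, fun i => Nat.casesOn i m0 m, fun i => Nat.casesOn i q0 q, rfl, ?_, ?_, h3, ?_⟩
  · intro i hi
    cases i with
    | zero => exact h0
    | succ i => exact h1 i (by omega)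
  · intro i hi
    cases i with
    | zero => exact hq0
    | succ i => exact h2 i (by omega)
  · intro i hi
    cases i with
    | zero => exact h
    | succ i => exact h4 i (by (clear * - m0 q0 m hi; omega))

/-- a large level separates -/
theorem sep_of_large (Y : Finset ℤ) (m : ℕ) (h : ∀ y ∈ Y, ∀ z ∈ Y, |z - y| < m) :
    ∀ y ∈ Y, cl m Y y = {y} := by
  intro y hy
  ext z
  rw [mem_cl, Finset.mem_singleton]
  constructor
  · rintro ⟨hz, hd⟩
    have h1 := Int.eq_zero_of_abs_lt_dvd hd (h y hy z hz)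
    omega
  · rintro rfl
    exact ⟨hy, by simp⟩

theorem greedy (r : ℕ) (q : ℕ → ℕ) (hq : ∀ i < r, (q i).Prime) (Y : Finset ℤ) (ε t0 : ℝ)
    (hfree : ∀ j : ℕ → ℕ, (∀ y ∈ Y, cl (MM r q j) Y y = {y}) ∨
      ∃ i < r, (nS (MM r q j) (q i) t0 Y : ℝ) ≤ ε * Y.card) :
    ChainFrom Y ε t0 1 := by
  obtain ⟨K, hK⟩ : ∃ K : ℕ, ∀ y ∈ Y, ∀ z ∈ Y, |z - y| < ((2 ^ K : ℕ) : ℤ) := by
    refine ⟨2 * ∑ y ∈ Y, y.natAbs, fun y hy z hz => ?_⟩
    have h1 := Finset.single_le_sum (f := fun y : ℤ => y.natAbs) (fun _ _ => Nat.zero_le _) hy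
    have h2 := Finset.single_le_sum (f := fun y : ℤ => y.natAbs) (fun _ _ => Nat.zero_le _) hz
    have h3 : 2 * ∑ y ∈ Y, y.natAbs < 2 ^ (2 * ∑ y ∈ Y, y.natAbs) := Nat.lt_two_pow_self
    have h4 : |z - y| ≤ ((2 * ∑ y ∈ Y, y.natAbs : ℕ) : ℤ) := by
      rw [abs_le]
      (clear * - h1 h2; omega)
    exact lt_of_le_of_lt h4 (by exact_mod_cast h3)
  have key : ∀ n : ℕ, ∀ j : ℕ → ℕ, r * K ≤ ∑ i ∈ Finset.range r, j i + n →
      ChainFrom Y ε t0 (MM r q j) := by
    intro n
    induction n with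
    | zero =>
      intro j hj
      refine chain_nil Y ε t0 _ ?_
      rcases hfree j with h | ⟨i, hi, _⟩
      · exact h
      · have hex : ∃ l < r, K ≤ j l := by
          by_contra hcon
          push Not at hcon
          have h1 : ∑ i ∈ Finset.range r, j i < ∑ _i ∈ Finset.range r, K :=
            Finset.sum_lt_sum_of_nonempty ⟨i, Finset.mem_range.2 hi⟩
              fun l hl => hcon l (Finset.mem_range.1 hl)
          rw [Finset.sum_const, Finset.card_range, smul_eq_mul] at h1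
          omega
        obtain ⟨l, hl, hKl⟩ := hex
        refine sep_of_large Y _ fun y hy z hz => lt_of_lt_of_le (hK y hy z hz) ?_
        have h1 : 2 ^ K ≤ MM r q j := by
          calc 2 ^ K ≤ (q l) ^ K := Nat.pow_le_pow_left (hq l hl).two_le K
            _ ≤ (q l) ^ (j l) := Nat.pow_le_pow_right (hq l hl).pos hKl
            _ ≤ MM r q j := Nat.le_of_dvd (MM_pos r q j hq)
                (Finset.dvd_prod_of_mem (fun i => q i ^ j i) (Finset.mem_range.2 hl))
        exact_mod_cast h1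
    | succ n ih =>
      intro j hj
      rcases hfree j with h | ⟨i, hi, h⟩
      · exact chain_nil Y ε t0 _ h
      · refine chain_cons Y ε t0 _ (q i) (hq i hi).pos h ?_
        rw [← MM_up r q j i hi]
        refine ih _ ?_
        have h1 : ∑ l ∈ Finset.range r, up j i l = ∑ l ∈ Finset.range r, j l + 1 := by
          unfold up
          rw [← Finset.add_sum_erase _ _ (Finset.mem_range.2 hi), Function.update_self,
            ← Finset.add_sum_erase (Finset.range r) j (Finset.mem_range.2 hi)]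
          have h2 : ∑ x ∈ (Finset.range r).erase i, Function.update j i (j i + 1) x =
              ∑ x ∈ (Finset.range r).erase i, j x := by
            refine Finset.sum_congr rfl fun x hx => ?_
            rw [Finset.mem_erase] at hx
            rw [Function.update_of_ne hx.1]
          rw [h2]
          ring
        rw [h1]
        omega
  have h := key (r * K) (fun _ => 0) (by simp)
  have e : MM r q (fun _ => 0) = 1 := by
    unfold MM
    simp
  rw [e] at h
  exact h

/-- **Theorem L1, growth form.** -/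
theorem lines_grow (η : ℝ) (hη : 0 < η) (hη1 : η ≤ 1) : ∃ C : ℝ, 0 < C ∧
    ∀ (A : Finset ℤ) (r : ℕ) (g : ℕ → ℚ) (q : ℕ → ℕ), A.Nonempty →
      (∀ i < r, g i ≠ 0) → (∀ i < r, (q i).Prime) → (∀ i < r, padicValRat (q i) (g i) ≠ 0) →
      (∀ i < r, ∀ l < r, i < l → padicValRat (q i) (g i) * padicValRat (q l) (g i) ≤ 0) →
      (∀ i < r, ∀ l < r, i ≠ l → q i ≠ q l) →
      C * Real.log A.card ≤ ∑ i ∈ Finset.range r,
        (if C * (bad (g i) A).card ≤ A.card then (A.card : ℝ) / (bad (g i) A).card else 0) →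
      Grows η A := by
  classical
  obtain ⟨t0, ht0, ht1, hN⟩ := nodeT (η / 2) (by (clear * - hη; positivity))
  obtain ⟨ε1, hε1⟩ : ∃ ε1 : ℝ, ε1 = η / 2 := ⟨_, rfl⟩
  have hε10 : 0 < ε1 := by rw [hε1]; (clear * - hη; positivity)
  obtain ⟨δ, hδ⟩ : ∃ δ : ℝ, δ = ε1 * t0 := ⟨_, rfl⟩
  have hδ0 : 0 < δ := by rw [hδ]; (clear * - hε10 ht0; positivity)
  have hδ1 : δ ≤ 1 := by
    rw [hδ]
    have : ε1 ≤ 1 := by rw [hε1]; (clear * - hη1; linarith only [hη1])
    (clear * - ht1 ht0 hη1 hε1; nlinarith only [hη1, ht0, ht1, hε1])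
  refine ⟨209 / δ ^ 2, by (clear * - hδ0; positivity), ?_⟩
  intro A r g q hA hg hq hv hv0 hinj hsum
  obtain ⟨C, hC⟩ : ∃ C : ℝ, C = 209 / δ ^ 2 := ⟨_, rfl⟩
  rw [← hC] at hsum
  have hAc : (0 : ℝ) < A.card := by exact_mod_cast hA.card_pos
  have hC1 : 52 / δ ≤ C := by
    rw [hC, div_le_div_iff₀ hδ0 (by positivity)]
    (clear * - hδ0 hδ1; nlinarith only [hδ0, hδ1])
  -- the exponents
  obtain ⟨u, hu⟩ : ∃ u : ℕ → ℕ, u = fun i => ⌊δ * (A.card / (bad (g i) A).card) / 26⌋₊ :=
    ⟨_, rfl⟩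
  have hu1 : ∀ i < r, 26 * (u i * ((bad (g i) A).card : ℝ)) ≤ ε1 * t0 * A.card := by
    intro i _
    rw [← hδ]
    have h1 : (u i : ℝ) ≤ δ * (A.card / (bad (g i) A).card) / 26 := by
      rw [hu]
      exact Nat.floor_le (by (clear * - hδ0 hA hsum hδ1 hC hC1 hu hε1 hε10 hδ; positivity))
    rcases Nat.eq_zero_or_pos (bad (g i) A).card with h0 | h0
    · rw [h0]
      simp only [Nat.cast_zero, mul_zero]
      (clear * - hδ0 hA hsum hδ1 hC hC1 hu h1 hε1 hε10 hδ; positivity)
    · have h2 : (0 : ℝ) < (bad (g i) A).card := by exact_mod_cast h0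
      have h3 := mul_le_mul_of_nonneg_right h1 h2.le
      have h4 : δ * ((A.card : ℝ) / (bad (g i) A).card) / 26 * (bad (g i) A).card =
          δ * A.card / 26 := by
        (clear * - h0 hA hsum hδ0 hδ1 hC hC1 hu h1 h3 hε1 hε10 hδ; field_simp)
      rw [h4] at h3
      (clear * - h3; linarith only [h3])
  have hchain : ChainFrom A ε1 t0 1 := by
    refine greedy r q hq A ε1 t0 fun j => ?_
    by_contra hcon
    push Not at hcon
    obtain ⟨⟨y, hy, hsep⟩, hst⟩ := hcon
    have h1 := stuck_bound r q hq hinj A hA j g hg hv hv0 t0 ε1 ht0 (by (clear * - ht1; linarith only [ht1])) hε10 hst u hu1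
    have hcard : 1 < A.card := by
      by_contra h
      have h2 : A.card = 1 := by
        have := hA.card_pos
        omega
      obtain ⟨z, hz⟩ := Finset.card_eq_one.1 h2
      refine hsep ?_
      rw [hz] at hy ⊢
      rw [Finset.mem_singleton] at hy
      subst hy
      ext w
      rw [mem_cl, Finset.mem_singleton]
      constructor
      · exact fun h => h.1
      · rintro rfl
        exact ⟨rfl, by simp⟩
    have hlog : 0 < Real.log A.card := Real.log_pos (by exact_mod_cast hcard)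
    have h2 : ∀ i ∈ Finset.range r, (δ / 52) *
        (if C * (bad (g i) A).card ≤ A.card then (A.card : ℝ) / (bad (g i) A).card else 0) ≤
        u i := by
      intro i _
      split_ifs with h
      · rcases Nat.eq_zero_or_pos (bad (g i) A).card with h0 | h0
        · rw [h0]
          simp
        · have h2 : (0 : ℝ) < (bad (g i) A).card := by exact_mod_cast h0
          have h3 : C ≤ (A.card : ℝ) / (bad (g i) A).card := by
            rw [le_div_iff₀ h2]
            exact h
          have h4 : δ * (A.card / (bad (g i) A).card) / 26 - 1 < (u i : ℝ) := by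
            rw [hu]
            exact Nat.sub_one_lt_floor _
          have h5 : 1 ≤ δ / 52 * ((A.card : ℝ) / (bad (g i) A).card) := by
            have h6 := mul_le_mul_of_nonneg_left (hC1.trans h3)
              (show (0 : ℝ) ≤ δ / 52 by positivity)
            have h7 : δ / 52 * (52 / δ) = 1 := by (clear * - hδ0; field_simp)
            linarith only [h6, h7]
          linarith only [h4, h5]
      · rw [mul_zero]
        exact Nat.cast_nonneg _
    have h3 := Finset.sum_le_sum h2
    rw [← Finset.mul_sum] at h3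
    have h4 := mul_le_mul_of_nonneg_left (mul_le_mul_of_nonneg_left hsum
      (show (0 : ℝ) ≤ δ / 52 by positivity)) (show (0 : ℝ) ≤ δ / 4 by positivity)
    have h5 := mul_le_mul_of_nonneg_left h3 (show (0 : ℝ) ≤ δ / 4 by positivity)
    have h6 : t0 * ε1 / 4 = δ / 4 := by rw [hδ]; ring
    rw [h6] at h1
    have h7 : δ / 4 * (δ / 52 * (C * Real.log A.card)) = 209 / 208 * Real.log A.card := by
      rw [hC]
      field_simp
      ring
    rw [h7] at h4
    linarith only [h1, hlog, h4, h5]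
  obtain ⟨J, m, p, h0, h1, h2, h3, h4⟩ := hchain
  intro X hX
  have h := chain_grows (η := η / 2) (t0 := t0) (by positivity)
    (fun G _ _ f g hf hg hf1 hg1 b0 hb => hN G f g hf hg hf1 hg1 b0 hb)
    ε1 hε10.le A hA m p J h0 h1 h2 h3 h4 X hX
  have e : 1 - η / 2 - ε1 = 1 - η := by rw [hε1]; ring
  rw [e] at h
  exact h

/-- **Theorem L1.** -/
theorem lines (k : ℕ) (ε b : ℝ) (hε : 0 < ε) : ∃ C : ℝ, 0 < C ∧
    ∀ (A X : Finset ℤ) (r : ℕ) (g : Fin r → ℚ) (q : Fin r → ℕ), A.Nonempty → X.Nonempty →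
      (X.card : ℝ) ≤ (A.card : ℝ) ^ b → (∀ i, g i ≠ 0) → (∀ i, (q i).Prime) →
      (∀ i, padicValRat (q i) (g i) ≠ 0) →
      (∀ i l, i < l → padicValRat (q i) (g i) * padicValRat (q l) (g i) ≤ 0) →
      Function.Injective q →
      C * Real.log A.card ≤ ∑ i,
        (if C * (bad (g i) A).card ≤ A.card then (A.card : ℝ) / (bad (g i) A).card else 0) →
      (X.card : ℝ) * (A.card : ℝ) ^ ((k : ℝ) - ε) ≤ (sk k X A).card := by
  classical
  obtain ⟨η, hη, hη1, h⟩ := sk_large k ε b hε
  obtain ⟨C, hC, hL⟩ := lines_grow η hη hη1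
  refine ⟨C, hC, ?_⟩
  intro A X r g q hA hX hXb hg hq hv hv0 hinj hsum
  refine h A X hA hX hXb (hL A r (fun i => if hi : i < r then g ⟨i, hi⟩ else 0)
    (fun i => if hi : i < r then q ⟨i, hi⟩ else 0) hA ?_ ?_ ?_ ?_ ?_ ?_)
  · intro i hi
    simp only [hi, dif_pos]
    exact hg _
  · intro i hi
    simp only [hi, dif_pos]
    exact hq _
  · intro i hi
    simp only [hi, dif_pos]
    exact hv _
  · intro i hi l hl hil
    simp only [hi, hl, dif_pos]
    exact hv0 _ _ hil
  · intro i hi l hl hil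
    simp only [hi, hl, dif_pos]
    intro h2
    have := hinj h2
    rw [Fin.mk.injEq] at this
    exact hil this
  · refine hsum.trans (le_of_eq ?_)
    rw [← Fin.sum_univ_eq_sum_range (fun i => (if C * (bad (if hi : i < r then g ⟨i, hi⟩ else 0)
      A).card ≤ A.card then (A.card : ℝ) / (bad (if hi : i < r then g ⟨i, hi⟩ else 0) A).card
      else 0))]
    refine Finset.sum_congr rfl fun i _ => ?_
    simp only [Fin.is_lt, dif_pos, Fin.eta]

end Pool.Agent.Helper28.LN
end

/- Helper24.DI.H28.LN.Dil -/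
section
set_option autoImplicit false

/-!
# Project LINES (MP_120218), Dil: the chain for the sums `x + u y`, `u` in a set of dilations
-/

namespace Pool.Agent.Helper28.LN

open Finset Pool.Agent.Helper15.GL

/-- a law all of whose atoms are smaller than `1 - t` has entropy at least `t` -/
theorem ent_ge {α : Type} [Fintype α] (g : α → ℝ) (hg : ∀ a, 0 ≤ g a) (hg1 : ∑ a, g a = 1)
    (t : ℝ) (h : ∀ a, g a < 1 - t) : t ≤ ent g := by
  have e : t = ∑ a, g a * t := by rw [← Finset.sum_mul, hg1, one_mul]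
  rw [e]
  unfold ent Real.negMulLog
  refine Finset.sum_le_sum fun a _ => ?_
  rcases eq_or_lt_of_le (hg a) with ha | ha
  · rw [← ha]
    simp
  · have h1 := Real.log_le_sub_one_of_pos ha
    have h2 := h a
    have h3 : g a * t ≤ g a * (-Real.log (g a)) := mul_le_mul_of_nonneg_left (by (clear * - h1 h2; linarith)) ha.le
    (clear * - h3; linarith only [h3])

/-- **Nodes carried by few digits, on average over the dilations.** -/
theorem node_avg (κ : ℝ) (hκ : 0 < κ) (hκ1 : κ ≤ 1) : ∃ θ L0 : ℝ, 0 < θ ∧ θ ≤ 1 ∧ 0 < L0 ∧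
    ∀ (q : ℕ) [Fact q.Prime] (f g : ZMod q → ℝ), (∀ a, 0 ≤ f a) → (∀ a, 0 ≤ g a) →
      ∑ a, f a = 1 → ∑ a, g a = 1 → ∀ U : Finset (ZMod q), (0 : ZMod q) ∉ U → 2 ≤ U.card →
      ∀ K : ℕ, 1 ≤ K → Real.log K + L0 ≤ κ / 4 * Real.log U.card →
      ∀ T : Finset (ZMod q), T.card ≤ K → 1 - θ ≤ ∑ b ∈ T, g b →
      ∑ u ∈ U, (ent f + ent g - ent (conv f (du u g))) ≤ U.card * (κ * (ent f + ent g)) := by
  obtain ⟨t0, ht0, ht1, hN⟩ := nodeT κ hκ
  obtain ⟨l, hl⟩ : ∃ l : ℝ, l = κ * t0 / 16 := ⟨_, rfl⟩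
  have hl0 : 0 < l := by rw [hl]; positivity
  have hl32 : l ≤ 1 / 32 := by
    rw [hl]
    have : κ * t0 ≤ 1 * (1 / 2) := mul_le_mul hκ1 ht1 ht0.le (by norm_num)
    linarith only [this]
  obtain ⟨L0, hL0⟩ : ∃ L0 : ℝ, L0 = -Real.log l := ⟨_, rfl⟩
  have hL0p : 0 < L0 := by
    rw [hL0]
    have := Real.log_neg hl0 (by linarith only [hl32])
    linarith only [this]
  refine ⟨min (κ / 4) (κ * t0 / (4 * L0)), L0, ?_, ?_, hL0p, ?_⟩
  · exact lt_min (by (clear * - hκ; positivity)) (by (clear * - hκ ht0 hL0p; positivity))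
  · exact (min_le_left _ _).trans (by linarith only [hκ1])
  intro q _ f g hf hg hf1 hg1 U hU hU2 K hK hKU T hT hθ
  obtain ⟨θ, hθd⟩ : ∃ θ : ℝ, θ = min (κ / 4) (κ * t0 / (4 * L0)) := ⟨_, rfl⟩
  rw [← hθd] at hθ
  have hθ0 : 0 ≤ θ := by
    rw [hθd]
    exact (lt_min (by positivity) (by positivity)).le
  have hθ4 : θ ≤ κ / 4 := by rw [hθd]; exact min_le_left _ _
  have hθL : θ * L0 ≤ κ * t0 / 4 := by
    have : θ ≤ κ * t0 / (4 * L0) := by rw [hθd]; exact min_le_right _ _
    have h1 := mul_le_mul_of_nonneg_right this hL0p.le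
    have h2 : κ * t0 / (4 * L0) * L0 = κ * t0 / 4 := by (clear * - hL0p ht0 hκ; field_simp)
    (clear * - h1 h2; linarith only [h1, h2])
  have hhf := ent_nonneg f hf hf1
  have hhg := ent_nonneg g hg hg1
  have hUc : (0 : ℝ) < U.card := by
    have : 0 < U.card := by omega
    exact_mod_cast this
  have hu0 : ∀ u ∈ U, u ≠ 0 := fun u hu h => hU (h ▸ hu)
  by_cases hat : ∃ b0, 1 - t0 ≤ g b0
  · obtain ⟨b0, hb0⟩ := hat
    have h1 : ∀ u ∈ U, ent f + ent g - ent (conv f (du u g)) ≤ κ * (ent f + ent g) := by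
      intro u hu
      have h2 := hN (ZMod q) f (du u g) hf (du_nonneg u g hg) hf1
        (by rw [sum_du_one u (hu0 u hu), hg1]) (u * b0) (by
          unfold du
          rw [inv_mul_cancel_left₀ (hu0 u hu)]
          exact hb0)
      rw [ent_du u (hu0 u hu)] at h2
      exact h2
    refine (Finset.sum_le_sum h1).trans ?_
    rw [Finset.sum_const, nsmul_eq_mul]
  · push Not at hat
    have hge := ent_ge g hg hg1 t0 hat
    have h1 := mid f g hf hg hf1 hg1 U hU hU2 T K hK hT θ l hl0 (by (clear * - hl32; linarith only [hl32])) hθ0 hθ (κ / 4) (by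
      rw [hL0] at hKU
      linarith only [hKU])
    refine h1.trans (mul_le_mul_of_nonneg_left ?_ hUc.le)
    have h2 : -Real.log (1 - 2 * l) ≤ κ * t0 / 4 := by
      have h3 := Real.one_sub_inv_le_log_of_pos (show (0 : ℝ) < 1 - 2 * l by linarith only [hl32])
      have h4 : (1 - 2 * l)⁻¹ ≤ 1 + 4 * l := by
        rw [inv_le_comm₀ (by linarith only [hl32]) (by linarith only [hl0])]
        rw [inv_le_comm₀ (by linarith only [hl0]) (by linarith only [hl32])]
        rw [inv_eq_one_div, div_le_iff₀ (by linarith only [hl32])]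
        (clear * - hl0 hl32; nlinarith only [hl0, hl32])
      have h5 : κ * t0 / 4 = 4 * l := by rw [hl]; ring
      linarith only [h3, h4, h5]
    rw [← hL0]
    have h3 : θ * ent f ≤ κ / 4 * ent f := mul_le_mul_of_nonneg_right hθ4 hhf
    have h4 : κ * t0 ≤ κ * ent g := mul_le_mul_of_nonneg_left hge hκ.le
    have h5 := mul_nonneg hκ.le hhf
    have h6 := mul_nonneg hκ.le hhg
    linarith only [hθL, h2, h3, h4, h5, h6]

/-- the mass of a set of digits -/
theorem sum_law_subset {q : ℕ} (C : Finset ℤ) (δ : ℤ → ZMod q) (T : Finset (ZMod q)) :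
    ∑ b ∈ T, law C δ b = ((C.filter (fun z => δ z ∈ T)).card : ℝ) / C.card := by
  classical
  unfold law
  rw [← Finset.sum_div]
  congr 1
  have h := Finset.card_eq_sum_card_fiberwise (f := δ) (s := C.filter (fun z => δ z ∈ T)) (t := T)
    (by
      intro z hz
      exact (Finset.mem_filter.1 hz).2)
  rw [h]
  push_cast
  refine Finset.sum_congr rfl fun b hb => ?_
  congr 2
  ext z
  rw [Finset.mem_filter, Finset.mem_filter, Finset.mem_filter]
  constructor
  · rintro ⟨h1, h2⟩
    exact ⟨⟨h1, by rw [h2]; exact hb⟩, h2⟩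
  · rintro ⟨⟨h1, _⟩, h2⟩
    exact ⟨h1, h2⟩

/-- one step of the chain for the dilations -/
theorem dil_step {κ θ L0 : ℝ} (hκ : 0 < κ)
    (hN : ∀ (q : ℕ) [Fact q.Prime] (f g : ZMod q → ℝ), (∀ a, 0 ≤ f a) → (∀ a, 0 ≤ g a) →
      ∑ a, f a = 1 → ∑ a, g a = 1 → ∀ U : Finset (ZMod q), (0 : ZMod q) ∉ U → 2 ≤ U.card →
      ∀ K : ℕ, 1 ≤ K → Real.log K + L0 ≤ κ / 4 * Real.log U.card →
      ∀ T : Finset (ZMod q), T.card ≤ K → 1 - θ ≤ ∑ b ∈ T, g b →
      ∑ u ∈ U, (ent f + ent g - ent (conv f (du u g))) ≤ U.card * (κ * (ent f + ent g)))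
    (m q : ℕ) (hm : 0 < m) [hq : Fact q.Prime] (X Y : Finset ℤ) (U : Finset ℕ)
    (hU2 : 2 ≤ U.card) (hU0 : ∀ u ∈ U, (u : ZMod q) ≠ 0)
    (hUi : Set.InjOn (fun u : ℕ => (u : ZMod q)) (U : Set ℕ)) (K : ℕ) (hK : 1 ≤ K)
    (hKU : Real.log K + L0 ≤ κ / 4 * Real.log U.card) (ε : ℝ)
    (hε : (nH m q K θ Y : ℝ) ≤ ε * Y.card) :
    ∑ u ∈ U, ∑ s ∈ X ×ˢ Y, (Real.log (nc (X ×ˢ Y) (rs m u) s) -
      Real.log (nc (X ×ˢ Y) (rs (m * q) u) s)) ≤
    U.card * (κ * (Y.card * FF m (m * q) X + X.card * FF m (m * q) Y) +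
      ε * (Y.card * FF m (m * q) X)) := by
  classical
  have hdvd : m ∣ m * q := Dvd.intro q rfl
  have h1 : ∀ u ∈ U, ∑ s ∈ X ×ˢ Y, (Real.log (nc (X ×ˢ Y) (rs m u) s) -
      Real.log (nc (X ×ˢ Y) (rs (m * q) u) s)) ≤
      ∑ x ∈ X, ∑ y ∈ Y, ls (q := q) m ((u : ℤ) : ZMod q) X Y x y := by
    intro u hu
    have e := joint_step m q (u : ℤ) X Y
    rw [sum_ls m hm (u : ℤ) (by rw [Int.cast_natCast]; exact hU0 u hu) X Y] at e
    exact e
  refine (Finset.sum_le_sum h1).trans ?_
  rw [Finset.sum_comm]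
  have hUc : (0 : ℝ) < U.card := by
    have : 0 < U.card := by omega
    exact_mod_cast this
  have hV : ∀ F : ZMod q → ℝ, ∑ u ∈ U, F ((u : ℤ) : ZMod q) =
      ∑ v ∈ U.image (fun u : ℕ => (u : ZMod q)), F v := by
    intro F
    rw [Finset.sum_image hUi]
    refine Finset.sum_congr rfl fun u _ => ?_
    rw [Int.cast_natCast]
  have hVc : (U.image (fun u : ℕ => (u : ZMod q))).card = U.card :=
    Finset.card_image_of_injOn hUi
  have hV0 : (0 : ZMod q) ∉ U.image (fun u : ℕ => (u : ZMod q)) := by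
    intro h
    rw [Finset.mem_image] at h
    obtain ⟨u, hu, h2⟩ := h
    exact hU0 u hu h2
  have hpt : ∀ x ∈ X, ∀ y ∈ Y, ∑ u ∈ U, ls (q := q) m ((u : ℤ) : ZMod q) X Y x y ≤
      U.card * (κ * (hh m q X x + hh m q Y y) + (if Hv m q K θ Y y then hh m q X x else 0)) := by
    intro x hx y hy
    have hx0 := hh_nonneg m q X x hx
    have hy0 := hh_nonneg m q Y y hy
    have hf := law_nonneg (cl m X x) (dg m q)
    have hg := law_nonneg (cl m Y y) (dg m q)
    have hf1 := sum_law (cl m X x) (cl_nonempty hx) (dg m q)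
    have hg1 := sum_law (cl m Y y) (cl_nonempty hy) (dg m q)
    by_cases h : Hv m q K θ Y y
    · rw [if_pos h]
      have h2 : ∀ u ∈ U, ls (q := q) m ((u : ℤ) : ZMod q) X Y x y ≤ hh m q X x := by
        intro u hu
        have hu' : ((u : ℤ) : ZMod q) ≠ 0 := by rw [Int.cast_natCast]; exact hU0 u hu
        have h3 := loss_le (du ((u : ℤ) : ZMod q) (law (cl m Y y) (dg m q)))
          (law (cl m X x) (dg m q)) (du_nonneg _ _ hg) hf
          (by rw [sum_du_one _ hu', hg1]) hf1
        rw [conv_comm, ent_du _ hu'] at h3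
        unfold ls
        have h4 : ent (law (cl m X x) (dg m q)) = hh m q X x := rfl
        rw [h4] at h3 ⊢
        linarith only [h3]
      refine (Finset.sum_le_sum h2).trans ?_
      rw [Finset.sum_const, nsmul_eq_mul]
      refine mul_le_mul_of_nonneg_left ?_ hUc.le
      have := mul_nonneg hκ.le (add_nonneg hx0 hy0)
      linarith only [this]
    · rw [if_neg h, add_zero]
      unfold Hv at h
      push Not at h
      obtain ⟨T, hT, hTc⟩ := h
      have h2 := hN q (law (cl m X x) (dg m q)) (law (cl m Y y) (dg m q)) hf hg hf1 hg1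
        (U.image (fun u : ℕ => (u : ZMod q))) hV0 (by rw [hVc]; exact hU2) K hK
        (by rw [hVc]; exact hKU) T hT (by
          rw [sum_law_subset, le_div_iff₀ (cl_card_pos hy)]
          exact hTc)
      rw [hVc, ← hV (fun v => ent (law (cl m X x) (dg m q)) + ent (law (cl m Y y) (dg m q)) -
        ent (conv (law (cl m X x) (dg m q)) (du v (law (cl m Y y) (dg m q)))))] at h2
      exact h2
  have h2 : ∀ x ∈ X, ∑ u ∈ U, ∑ y ∈ Y, ls (q := q) m ((u : ℤ) : ZMod q) X Y x y ≤
      ∑ y ∈ Y, U.card * (κ * (hh m q X x + hh m q Y y) +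
        (if Hv m q K θ Y y then hh m q X x else 0)) := by
    intro x hx
    rw [Finset.sum_comm]
    exact Finset.sum_le_sum fun y hy => hpt x hx y hy
  refine (Finset.sum_le_sum h2).trans ?_
  have e1 : ∀ x ∈ X, ∑ y ∈ Y, U.card * (κ * (hh m q X x + hh m q Y y) +
        (if Hv m q K θ Y y then hh m q X x else 0)) =
      U.card * (κ * (Y.card * hh m q X x + FF m (m * q) Y) + nH m q K θ Y * hh m q X x) := by
    intro x _
    rw [← Finset.mul_sum, Finset.sum_add_distrib, ← Finset.mul_sum, Finset.sum_add_distrib,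
      sum_hh m q hm, Finset.sum_const, nsmul_eq_mul, ← Finset.sum_filter, Finset.sum_const,
      nsmul_eq_mul]
    unfold nH
    rfl
  rw [Finset.sum_congr rfl e1, ← Finset.mul_sum, Finset.sum_add_distrib, ← Finset.mul_sum,
    Finset.sum_add_distrib, ← Finset.mul_sum, ← Finset.mul_sum, sum_hh m q hm,
    Finset.sum_const, nsmul_eq_mul]
  refine mul_le_mul_of_nonneg_left ?_ hUc.le
  have h3 := mul_le_mul_of_nonneg_right hε (FF_nonneg hdvd X)
  (clear * - h3; linarith only [h3])

/-- **The chain for the dilations.** -/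
theorem dil_chain {κ θ L0 : ℝ} (hκ : 0 < κ)
    (hN : ∀ (q : ℕ) [Fact q.Prime] (f g : ZMod q → ℝ), (∀ a, 0 ≤ f a) → (∀ a, 0 ≤ g a) →
      ∑ a, f a = 1 → ∑ a, g a = 1 → ∀ U : Finset (ZMod q), (0 : ZMod q) ∉ U → 2 ≤ U.card →
      ∀ K : ℕ, 1 ≤ K → Real.log K + L0 ≤ κ / 4 * Real.log U.card →
      ∀ T : Finset (ZMod q), T.card ≤ K → 1 - θ ≤ ∑ b ∈ T, g b →
      ∑ u ∈ U, (ent f + ent g - ent (conv f (du u g))) ≤ U.card * (κ * (ent f + ent g)))
    (ε : ℝ) (hε0 : 0 ≤ ε) (X Y : Finset ℤ) (U : Finset ℕ)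
    (hU2 : 2 ≤ U.card) (K : ℕ) (hK : 1 ≤ K)
    (hKU : Real.log K + L0 ≤ κ / 4 * Real.log U.card)
    (m q : ℕ → ℕ) (J : ℕ) (h0 : m 0 = 1) (hstep : ∀ i < J, m (i + 1) = m i * q i)
    (hq : ∀ i < J, (q i).Prime) (hU0 : ∀ i < J, ∀ u ∈ U, (u : ZMod (q i)) ≠ 0)
    (hUi : ∀ i < J, Set.InjOn (fun u : ℕ => (u : ZMod (q i))) (U : Set ℕ))
    (hsep : ∀ y ∈ Y, cl (m J) Y y = {y})
    (hsp : ∀ i < J, (nH (m i) (q i) K θ Y : ℝ) ≤ ε * Y.card) :
    ∑ u ∈ U, ∑ s ∈ X ×ˢ Y, Real.log (nc (X ×ˢ Y) (rs 1 u) s) ≤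
      U.card * ((κ + ε) * (X.card * Y.card * (Real.log X.card + Real.log Y.card))) := by
  have hUc : (0 : ℝ) ≤ U.card := Nat.cast_nonneg _
  have hpos : ∀ i ≤ J, 0 < m i := by
    intro i
    induction i with
    | zero => intro _; rw [h0]; exact one_pos
    | succ i ih =>
      intro hi
      rw [hstep i (by omega)]
      exact Nat.mul_pos (ih (by omega)) (hq i (by omega)).pos
  have hind : ∀ i ≤ J, ∑ u ∈ U, ∑ s ∈ X ×ˢ Y, Real.log (nc (X ×ˢ Y) (rs 1 u) s) ≤
      ∑ u ∈ U, ∑ s ∈ X ×ˢ Y, Real.log (nc (X ×ˢ Y) (rs (m i) u) s) +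
      U.card * (κ * (Y.card * FF 1 (m i) X + X.card * FF 1 (m i) Y) +
        ε * (Y.card * FF 1 (m i) X)) := by
    intro i
    induction i with
    | zero =>
      intro _
      rw [h0]
      have e : ∀ Z : Finset ℤ, FF 1 1 Z = 0 := by
        intro Z
        unfold FF el
        simp
      rw [e, e]
      simp
    | succ i ih =>
      intro hi
      have hi' : i < J := by omega
      have := Fact.mk (hq i hi')
      have h1 := dil_step hκ hN (m i) (q i) (hpos i (by omega)) X Y U hU2 (hU0 i hi')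
        (hUi i hi') K hK hKU ε (hsp i hi')
      have h2 := ih (by omega)
      rw [hstep i hi']
      rw [← FF_add 1 (m i) (m i * q i) X, ← FF_add 1 (m i) (m i * q i) Y]
      have h3 : ∑ u ∈ U, ∑ s ∈ X ×ˢ Y, (Real.log (nc (X ×ˢ Y) (rs (m i) u) s) -
          Real.log (nc (X ×ˢ Y) (rs (m i * q i) u) s)) =
          ∑ u ∈ U, ∑ s ∈ X ×ˢ Y, Real.log (nc (X ×ˢ Y) (rs (m i) u) s) -
          ∑ u ∈ U, ∑ s ∈ X ×ˢ Y, Real.log (nc (X ×ˢ Y) (rs (m i * q i) u) s) := by
        rw [← Finset.sum_sub_distrib]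
        refine Finset.sum_congr rfl fun u _ => ?_
        rw [Finset.sum_sub_distrib]
      rw [h3] at h1
      linarith only [h1, h2]
  have h1 := hind J le_rfl
  have h2 : ∑ u ∈ U, ∑ s ∈ X ×ˢ Y, Real.log (nc (X ×ˢ Y) (rs (m J) u) s) = 0 := by
    refine Finset.sum_eq_zero fun u _ => Finset.sum_eq_zero fun s hs => ?_
    have h3 : nc (X ×ˢ Y) (rs (m J) u) s = 1 := by
      unfold nc
      rw [Finset.card_eq_one]
      refine ⟨s, ?_⟩
      ext t
      rw [mem_ncs, Finset.mem_singleton]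
      rw [Finset.mem_product] at hs
      constructor
      · rintro ⟨h4, h5, h6⟩
        rw [Finset.mem_product] at h4
        have h7 : t.2 ∈ cl (m J) Y s.2 := mem_cl.2 ⟨h4.2, h5.2⟩
        rw [hsep s.2 hs.2, Finset.mem_singleton] at h7
        rw [h7] at h6
        exact Prod.ext (add_right_cancel h6) h7
      · rintro rfl
        exact ⟨Finset.mem_product.2 hs, (rs_eqv _ _).refl _⟩
    rw [h3]
    simp
  rw [h2, zero_add] at h1
  refine h1.trans (mul_le_mul_of_nonneg_left ?_ hUc)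
  have e1 := mul_le_mul_of_nonneg_left (FF_one_le (m J) X) (Nat.cast_nonneg (α := ℝ) Y.card)
  have e2 := mul_le_mul_of_nonneg_left (FF_one_le (m J) Y) (Nat.cast_nonneg (α := ℝ) X.card)
  have e3 := mul_le_mul_of_nonneg_left (add_le_add e1 e2) hκ.le
  have e4 := mul_le_mul_of_nonneg_left e1 hε0
  have hly : 0 ≤ Real.log (Y.card : ℝ) := Real.log_natCast_nonneg _
  have e5 : 0 ≤ ε * ((X.card : ℝ) * Y.card * Real.log Y.card) := by (clear * - hε0; positivity)
  linarith only [e3, e4, e5]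

/-- the greedy chain for a general predicate -/
theorem greedyP (r : ℕ) (q : ℕ → ℕ) (hq : ∀ i < r, (q i).Prime) (Y : Finset ℤ)
    (P : ℕ → ℕ → Prop)
    (hfree : ∀ j : ℕ → ℕ, (∀ y ∈ Y, cl (MM r q j) Y y = {y}) ∨
      ∃ i < r, P (MM r q j) (q i)) :
    ∃ (J : ℕ) (m p : ℕ → ℕ), m 0 = 1 ∧ (∀ i < J, m (i + 1) = m i * p i) ∧
      (∀ i < J, ∃ l < r, p i = q l) ∧ (∀ y ∈ Y, cl (m J) Y y = {y}) ∧
      (∀ i < J, P (m i) (p i)) := by
  obtain ⟨K, hK⟩ : ∃ K : ℕ, ∀ y ∈ Y, ∀ z ∈ Y, |z - y| < ((2 ^ K : ℕ) : ℤ) := by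
    refine ⟨2 * ∑ y ∈ Y, y.natAbs, fun y hy z hz => ?_⟩
    have h1 := Finset.single_le_sum (f := fun y : ℤ => y.natAbs) (fun _ _ => Nat.zero_le _) hy
    have h2 := Finset.single_le_sum (f := fun y : ℤ => y.natAbs) (fun _ _ => Nat.zero_le _) hz
    have h3 : 2 * ∑ y ∈ Y, y.natAbs < 2 ^ (2 * ∑ y ∈ Y, y.natAbs) := Nat.lt_two_pow_self
    have h4 : |z - y| ≤ ((2 * ∑ y ∈ Y, y.natAbs : ℕ) : ℤ) := by
      rw [abs_le]
      omega
    exact lt_of_le_of_lt h4 (by exact_mod_cast h3)
  have key : ∀ n : ℕ, ∀ j : ℕ → ℕ, r * K ≤ ∑ i ∈ Finset.range r, j i + n →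
      ∃ (J : ℕ) (m p : ℕ → ℕ), m 0 = MM r q j ∧ (∀ i < J, m (i + 1) = m i * p i) ∧
      (∀ i < J, ∃ l < r, p i = q l) ∧ (∀ y ∈ Y, cl (m J) Y y = {y}) ∧
      (∀ i < J, P (m i) (p i)) := by
    intro n
    induction n with
    | zero =>
      intro j hj
      refine ⟨0, fun _ => MM r q j, fun _ => 1, rfl, fun i hi => absurd hi (Nat.not_lt_zero i),
        fun i hi => absurd hi (Nat.not_lt_zero i), ?_,
        fun i hi => absurd hi (Nat.not_lt_zero i)⟩
      rcases hfree j with h | ⟨i, hi, _⟩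
      · exact h
      · have hex : ∃ l < r, K ≤ j l := by
          by_contra hcon
          push Not at hcon
          have h1 : ∑ i ∈ Finset.range r, j i < ∑ _i ∈ Finset.range r, K :=
            Finset.sum_lt_sum_of_nonempty ⟨i, Finset.mem_range.2 hi⟩
              fun l hl => hcon l (Finset.mem_range.1 hl)
          rw [Finset.sum_const, Finset.card_range, smul_eq_mul] at h1
          omega
        obtain ⟨l, hl, hKl⟩ := hex
        refine sep_of_large Y _ fun y hy z hz => lt_of_lt_of_le (hK y hy z hz) ?_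
        have h1 : 2 ^ K ≤ MM r q j := by
          calc 2 ^ K ≤ (q l) ^ K := Nat.pow_le_pow_left (hq l hl).two_le K
            _ ≤ (q l) ^ (j l) := Nat.pow_le_pow_right (hq l hl).pos hKl
            _ ≤ MM r q j := Nat.le_of_dvd (MM_pos r q j hq)
                (Finset.dvd_prod_of_mem (fun i => q i ^ j i) (Finset.mem_range.2 hl))
        exact_mod_cast h1
    | succ n ih =>
      intro j hj
      rcases hfree j with h | ⟨i, hi, h⟩
      · exact ⟨0, fun _ => MM r q j, fun _ => 1, rfl, fun i hi => absurd hi (Nat.not_lt_zero i),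
          fun i hi => absurd hi (Nat.not_lt_zero i), h,
          fun i hi => absurd hi (Nat.not_lt_zero i)⟩
      · have h1 : ∑ l ∈ Finset.range r, up j i l = ∑ l ∈ Finset.range r, j l + 1 := by
          unfold up
          rw [← Finset.add_sum_erase _ _ (Finset.mem_range.2 hi), Function.update_self,
            ← Finset.add_sum_erase (Finset.range r) j (Finset.mem_range.2 hi)]
          have h2 : ∑ x ∈ (Finset.range r).erase i, Function.update j i (j i + 1) x =
              ∑ x ∈ (Finset.range r).erase i, j x := by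
            refine Finset.sum_congr rfl fun x hx => ?_
            rw [Finset.mem_erase] at hx
            rw [Function.update_of_ne hx.1]
          rw [h2]
          ring
        obtain ⟨J, m, p, g0, g1, g2, g3, g4⟩ := ih (up j i) (by rw [h1]; omega)
        rw [MM_up r q j i hi] at g0
        refine ⟨J + 1, fun a => Nat.casesOn a (MM r q j) m, fun a => Nat.casesOn a (q i) p, rfl,
          ?_, ?_, g3, ?_⟩
        · intro a ha
          cases a with
          | zero => exact g0
          | succ a => exact g1 a (by omega)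
        · intro a ha
          cases a with
          | zero => exact ⟨i, hi, rfl⟩
          | succ a => exact g2 a (by omega)
        · intro a ha
          cases a with
          | zero => exact h
          | succ a => exact g4 a (by omega)
  have h := key (r * K) (fun _ => 0) (by simp)
  have e : MM r q (fun _ => 0) = 1 := by
    unfold MM
    simp
  rw [e] at h
  exact h

end Pool.Agent.Helper28.LN
end

/- Helper24.DI.H28.LN.L2 -/
section
set_option autoImplicit false

/-!
# Project LINES (MP_120218), L2: sets which are almost invariant under multiplication by `r` primes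
-/

namespace Pool.Agent.Helper28.LN

open Finset Pool.Agent.Helper15.GL

/-- the image is large if the mean of the logarithm of the fibres is small -/
theorem image_large {α β : Type} [DecidableEq β] (S : Finset α) (hS : S.Nonempty) (σ : α → β) :
    (S.card : ℝ) * (Real.log S.card - Real.log (S.image σ).card) ≤
      ∑ s ∈ S, Real.log ((S.filter (fun t => σ t = σ s)).card) := by
  classical
  have hSc : (0 : ℝ) < S.card := by exact_mod_cast hS.card_pos
  have hW : (0 : ℝ) < (S.image σ).card := by exact_mod_cast (hS.image σ).card_pos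
  have h1 : ∀ s ∈ S, Real.log S.card - Real.log (S.image σ).card -
      Real.log ((S.filter (fun t => σ t = σ s)).card) ≤
      (S.card : ℝ) / (S.image σ).card * (1 / ((S.filter (fun t => σ t = σ s)).card : ℝ)) - 1 := by
    intro s hs
    have hr : (0 : ℝ) < (S.filter (fun t => σ t = σ s)).card := by
      have : 0 < (S.filter (fun t => σ t = σ s)).card :=
        Finset.card_pos.2 ⟨s, Finset.mem_filter.2 ⟨hs, rfl⟩⟩
      exact_mod_cast this
    have h2 := Real.log_le_sub_one_of_pos (show 0 < (S.card : ℝ) / (S.image σ).card *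
      (1 / ((S.filter (fun t => σ t = σ s)).card : ℝ)) by (clear * - hS hr; positivity))
    rw [Real.log_mul (by positivity) (by (clear * - hr; positivity)), Real.log_div hSc.ne' hW.ne',
      Real.log_div one_ne_zero hr.ne', Real.log_one] at h2
    (clear * - h2; linarith)
  have h2 : ∑ s ∈ S, (1 / ((S.filter (fun t => σ t = σ s)).card : ℝ)) = (S.image σ).card := by
    have e1 : ∑ s ∈ S, (1 / ((S.filter (fun t => σ t = σ s)).card : ℝ)) =
        ∑ w ∈ S.image σ, ∑ s ∈ S.filter (fun s => σ s = w),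
          (1 / ((S.filter (fun t => σ t = σ s)).card : ℝ)) :=
      (Finset.sum_fiberwise_of_maps_to (fun s hs => Finset.mem_image_of_mem σ hs) _).symm
    rw [e1]
    have e2 : ∀ w ∈ S.image σ, ∑ s ∈ S.filter (fun s => σ s = w),
          (1 / ((S.filter (fun t => σ t = σ s)).card : ℝ)) = 1 := by
      intro w hw
      have e3 : ∑ s ∈ S.filter (fun s => σ s = w),
          (1 / ((S.filter (fun t => σ t = σ s)).card : ℝ)) =
          ∑ s ∈ S.filter (fun s => σ s = w), (1 / ((S.filter (fun t => σ t = w)).card : ℝ)) := by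
        refine Finset.sum_congr rfl fun s hs => ?_
        rw [(Finset.mem_filter.1 hs).2]
      rw [e3, Finset.sum_const, nsmul_eq_mul, mul_one_div, div_self]
      rw [Finset.mem_image] at hw
      obtain ⟨s, hs, h3⟩ := hw
      have : 0 < (S.filter (fun t => σ t = w)).card :=
        Finset.card_pos.2 ⟨s, Finset.mem_filter.2 ⟨hs, h3⟩⟩
      exact_mod_cast this.ne'
    rw [Finset.sum_congr rfl e2]
    simp
  have h3 := Finset.sum_le_sum h1
  rw [Finset.sum_sub_distrib, Finset.sum_sub_distrib (g := fun _ => (1 : ℝ)), ← Finset.mul_sum,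
    h2, Finset.sum_const, nsmul_eq_mul, Finset.sum_const, nsmul_eq_mul, mul_one,
    div_mul_cancel₀ _ hW.ne'] at h3
  linarith only [h3]

/-- from the count for a dilation to the sumset -/
theorem grow_of_count (A X : Finset ℤ) (hA : A.Nonempty) (hX : X.Nonempty) (u : ℕ) (κ : ℝ)
    (hκ : 0 ≤ κ) (hbad : 2 * ((bad (u : ℚ) A).card : ℝ) ≤ A.card)
    (hcount : ∑ s ∈ X ×ˢ A, Real.log (nc (X ×ˢ A) (rs 1 u) s) ≤
      κ * (X.card * A.card * (Real.log X.card + Real.log A.card))) :
    Real.log X.card + Real.log (good (u : ℚ) A).card -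
      2 * κ * (Real.log X.card + Real.log A.card) ≤
        Real.log ((Finset.image₂ (fun a b => a + b) X A).card) := by
  classical
  obtain ⟨G, hG⟩ : ∃ G : Finset ℤ, G = good (u : ℚ) A := ⟨_, rfl⟩
  have hAc : (0 : ℝ) < A.card := by exact_mod_cast hA.card_pos
  have hXc : (0 : ℝ) < X.card := by exact_mod_cast hX.card_pos
  have hGA : G ⊆ A := by rw [hG]; exact good_subset _ _
  have hGb := card_good_add_bad (u : ℚ) A
  rw [← hG] at hGb ⊢
  have hGb' : (G.card : ℝ) + (bad (u : ℚ) A).card = A.card := by exact_mod_cast hGb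
  have hG2 : (A.card : ℝ) ≤ 2 * G.card := by (clear * - hbad hGb'; linarith only [hbad, hGb'])
  have hGc : (0 : ℝ) < G.card := by (clear * - hAc hG2; linarith only [hAc, hG2])
  have hGne : G.Nonempty := by
    rw [← Finset.card_pos]
    exact_mod_cast hGc
  obtain ⟨σ, hσ⟩ : ∃ σ : ℤ × ℤ → ℤ, σ = fun s : ℤ × ℤ => s.1 + (u : ℤ) * s.2 := ⟨_, rfl⟩
  have hlarge := image_large (X ×ˢ G) (hX.product hGne) σ
  have hsub : (X ×ˢ G).image σ ⊆ Finset.image₂ (fun a b => a + b) X A := by
    intro w hw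
    rw [Finset.mem_image] at hw
    obtain ⟨s, hs, rfl⟩ := hw
    rw [Finset.mem_product, hG, mem_good] at hs
    rw [hσ]
    simp only
    have h1 : sh (u : ℚ) s.2 = u * s.2 := by
      have := hs.2.2.2
      exact_mod_cast this
    rw [← h1]
    exact Finset.mem_image₂_of_mem hs.1 hs.2.2.1
  have hWpos : (0 : ℝ) < ((X ×ˢ G).image σ).card := by
    exact_mod_cast ((hX.product hGne).image σ).card_pos
  have hmono : Real.log ((X ×ˢ G).image σ).card ≤
      Real.log ((Finset.image₂ (fun a b => a + b) X A).card) :=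
    Real.log_le_log hWpos (by exact_mod_cast Finset.card_le_card hsub)
  have hfib : ∑ s ∈ X ×ˢ G, Real.log (((X ×ˢ G).filter (fun t => σ t = σ s)).card) ≤
      ∑ s ∈ X ×ˢ A, Real.log (nc (X ×ˢ A) (rs 1 u) s) := by
    refine le_trans (Finset.sum_le_sum (g := fun s => Real.log (nc (X ×ˢ A) (rs 1 u) s))
      fun s hs => ?_) (Finset.sum_le_sum_of_subset_of_nonneg
        (Finset.product_subset_product_right hGA) fun s _ _ => Real.log_natCast_nonneg _)
    have hr : (0 : ℝ) < ((X ×ˢ G).filter (fun t => σ t = σ s)).card := by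
      have : 0 < ((X ×ˢ G).filter (fun t => σ t = σ s)).card :=
        Finset.card_pos.2 ⟨s, Finset.mem_filter.2 ⟨hs, rfl⟩⟩
      exact_mod_cast this
    refine Real.log_le_log hr ?_
    have : ((X ×ˢ G).filter (fun t => σ t = σ s)).card ≤ nc (X ×ˢ A) (rs 1 u) s := by
      unfold nc
      refine Finset.card_le_card fun t ht => ?_
      rw [Finset.mem_filter, hσ] at ht
      rw [mem_ncs]
      refine ⟨Finset.product_subset_product_right hGA ht.1, ⟨?_, ?_⟩, ht.2⟩
      · simp
      · simp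
    exact_mod_cast this
  have hSc : (((X ×ˢ G).card : ℕ) : ℝ) = X.card * G.card := by
    rw [Finset.card_product, Nat.cast_mul]
  have hL0 : 0 ≤ Real.log X.card + Real.log A.card :=
    add_nonneg (Real.log_natCast_nonneg _) (Real.log_natCast_nonneg _)
  rw [hSc, Real.log_mul hXc.ne' hGc.ne'] at hlarge
  have h1 := hlarge.trans (hfib.trans hcount)
  have h2 : κ * (X.card * A.card * (Real.log X.card + Real.log A.card)) ≤
      X.card * G.card * (2 * κ * (Real.log X.card + Real.log A.card)) := by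
    have e1 : 0 ≤ κ * (X.card * (Real.log X.card + Real.log A.card)) := by (clear * - hκ hX hσ hG hGA hGb hGb' hG2 hGc hGne hlarge hsub hWpos hmono hfib hSc h1; positivity)
    have e2 := mul_le_mul_of_nonneg_left hG2 e1
    (clear * - e2; linarith only [e2])
  have h3 := le_of_mul_le_mul_left (h1.trans h2) (mul_pos hXc hGc)
  linarith only [hmono, h3]

/-- the largest element leaves the set -/
theorem bad_pos (A : Finset ℤ) (hA : 2 ≤ A.card) (p : ℕ) (hp : 2 ≤ p) :
    0 < (bad (p : ℚ) A).card := by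
  classical
  have hne : A.Nonempty := Finset.card_pos.1 (by omega)
  obtain ⟨a, ha, hmax⟩ := Finset.exists_max_image A (fun x => |x|) hne
  rw [Finset.card_pos]
  refine ⟨a, ?_⟩
  have ha0 : a ≠ 0 := by
    rintro rfl
    obtain ⟨b, hb, hb0⟩ := Finset.exists_mem_ne (by omega : 1 < A.card) 0
    have := hmax b hb
    simp only [abs_zero] at this
    exact hb0 (abs_eq_zero.1 (le_antisymm this (abs_nonneg b)))
  unfold bad
  rw [Finset.mem_filter]
  refine ⟨ha, fun b hb hba => ?_⟩
  have h1 : b = p * a := by exact_mod_cast hba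
  have h2 := hmax b hb
  rw [h1, abs_mul, Nat.abs_cast] at h2
  have h3 : 0 < |a| := abs_pos.2 ha0
  have h4 : (2 : ℤ) ≤ p := by exact_mod_cast hp
  (clear * - h2 h4 h3; nlinarith only [h2, h3, h4])

/-- the choice of `K` -/
theorem exists_K (M : ℕ) (hM : 1 ≤ M) (r : ℕ) (hr : 1 ≤ r) :
    ∃ K : ℕ, 1 ≤ K ∧ M * Real.log K ≤ Real.log r ∧
      Real.log r ≤ M * (Real.log K + Real.log 2) := by
  have hex : ∃ K : ℕ, r < (K + 1) ^ M := by
    refine ⟨r, ?_⟩
    calc r < r + 1 := by omega
      _ = (r + 1) ^ 1 := (pow_one _).symm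
      _ ≤ (r + 1) ^ M := Nat.pow_le_pow_right (by omega) hM
  classical
  obtain ⟨K, hK⟩ : ∃ K : ℕ, K = Nat.find hex := ⟨_, rfl⟩
  have h1 : r < (K + 1) ^ M := by rw [hK]; exact Nat.find_spec hex
  have hK1 : 1 ≤ K := by
    by_contra h
    have h0 : K = 0 := by omega
    rw [h0, zero_add, one_pow] at h1
    omega
  have h2 : K ^ M ≤ r := by
    by_contra h
    push Not at h
    have h3 : r < (K - 1 + 1) ^ M := by
      rw [Nat.sub_add_cancel hK1]
      exact h
    have h4 := Nat.find_min hex (m := K - 1) (by (clear * - hK hK1; omega))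
    exact h4 h3
  have hKr : (1 : ℝ) ≤ K := by exact_mod_cast hK1
  have hrr : (1 : ℝ) ≤ r := by exact_mod_cast hr
  refine ⟨K, hK1, ?_, ?_⟩
  · rw [← Real.log_pow]
    exact Real.log_le_log (by (clear * - hK1; positivity)) (by exact_mod_cast h2)
  · rw [← Real.log_mul (by (clear * - hK1; positivity)) (by norm_num), ← Real.log_pow]
    refine Real.log_le_log (by linarith only [hrr]) ?_
    have h3 : ((r : ℕ) : ℝ) ≤ ((K + 1) ^ M : ℕ) := by exact_mod_cast h1.le
    refine h3.trans ?_
    push_cast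
    exact pow_le_pow_left₀ (by (clear * - hK1; positivity)) (by (clear * - hKr; linarith only [hKr])) M

/-- the larger half of the primes as chain, the smaller half as dilations -/
theorem halves (P : Finset ℕ) (hP : ∀ p ∈ P, p.Prime) : ∃ (U : Finset ℕ) (r' : ℕ) (q : ℕ → ℕ),
    U ⊆ P ∧ 2 * U.card + 1 ≥ P.card ∧ 2 * r' ≥ P.card ∧ (∀ i < r', q i ∈ P) ∧
    (∀ i < r', ∀ l < r', i ≠ l → q i ≠ q l) ∧ (∀ i < r', ∀ u ∈ U, 0 < u ∧ u < q i) := by
  classical
  obtain ⟨r, hr⟩ : ∃ r : ℕ, r = P.card := ⟨_, rfl⟩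
  obtain ⟨e, he⟩ : ∃ e : Fin r ↪o ℕ, e = P.orderEmbOfFin hr.symm := ⟨_, rfl⟩
  have heP : ∀ i, e i ∈ P := by
    intro i
    rw [he]
    exact Finset.orderEmbOfFin_mem P hr.symm i
  obtain ⟨F, hF⟩ : ∃ F : ℕ → ℕ, F = fun i => if h : i < r then e ⟨i, h⟩ else 0 := ⟨_, rfl⟩
  refine ⟨(Finset.range (r / 2)).image F, r - r / 2,
    fun i => if h : r / 2 + i < r then e ⟨r / 2 + i, h⟩ else 0, ?_, ?_, ?_, ?_, ?_, ?_⟩
  · intro u hu
    rw [Finset.mem_image] at hu
    obtain ⟨i, hi, rfl⟩ := hu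
    rw [Finset.mem_range] at hi
    rw [hF]
    simp only [show i < r by omega, dif_pos]
    exact heP _
  · rw [Finset.card_image_of_injOn, Finset.card_range, ← hr]
    · omega
    · intro i hi l hl h
      rw [Finset.coe_range, Set.mem_Iio] at hi hl
      rw [hF] at h
      simp only [show i < r by omega, show l < r by omega, dif_pos] at h
      have := e.injective h
      rw [Fin.mk.injEq] at this
      exact this
  · omega
  · intro i hi
    simp only [show r / 2 + i < r by omega, dif_pos]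
    exact heP _
  · intro i hi l hl hil
    simp only [show r / 2 + i < r by omega, show r / 2 + l < r by omega, dif_pos]
    intro h
    have := e.injective h
    rw [Fin.mk.injEq] at this
    omega
  · intro i hi u hu
    simp only [show r / 2 + i < r by omega, dif_pos]
    rw [Finset.mem_image] at hu
    obtain ⟨a, ha, rfl⟩ := hu
    rw [Finset.mem_range] at ha
    rw [hF]
    simp only [show a < r by omega, dif_pos]
    refine ⟨(hP _ (heP _)).pos, ?_⟩
    rw [OrderEmbedding.lt_iff_lt, Fin.lt_def]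
    simp only
    omega

end Pool.Agent.Helper28.LN
end

/- Helper24.DI.H28.LN.L2Main -/
section
set_option autoImplicit false

/-!
# Project LINES (MP_120218), L2Main: theorem L2
-/

namespace Pool.Agent.Helper28.LN

open Finset Pool.Agent.Helper15.GL

/-- few primes: this is L1 -/
theorem few_primes (C1 : ℝ) (hC1 : 0 < C1) (η : ℝ)
    (h1 : ∀ (A : Finset ℤ) (r : ℕ) (g : ℕ → ℚ) (q : ℕ → ℕ), A.Nonempty →
      (∀ i < r, g i ≠ 0) → (∀ i < r, (q i).Prime) → (∀ i < r, padicValRat (q i) (g i) ≠ 0) →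
      (∀ i < r, ∀ l < r, i < l → padicValRat (q i) (g i) * padicValRat (q l) (g i) ≤ 0) →
      (∀ i < r, ∀ l < r, i ≠ l → q i ≠ q l) →
      C1 * Real.log A.card ≤ ∑ i ∈ Finset.range r,
        (if C1 * (bad (g i) A).card ≤ A.card then (A.card : ℝ) / (bad (g i) A).card else 0) →
      Grows η A)
    (A : Finset ℤ) (hA : 2 ≤ A.card) (P : Finset ℕ) (hP : ∀ p ∈ P, p.Prime) (N : ℝ)
    (hN : C1 ≤ N) (hbad : ∀ p ∈ P, N * (bad (p : ℚ) A).card ≤ A.card)
    (hsum : C1 * Real.log A.card ≤ N * P.card) : Grows η A := by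
  classical
  obtain ⟨r, hr⟩ : ∃ r : ℕ, r = P.card := ⟨_, rfl⟩
  obtain ⟨e, he⟩ : ∃ e : Fin r ↪o ℕ, e = P.orderEmbOfFin hr.symm := ⟨_, rfl⟩
  have heP : ∀ i, e i ∈ P := by
    intro i
    rw [he]
    exact Finset.orderEmbOfFin_mem P hr.symm i
  obtain ⟨q, hq⟩ : ∃ q : ℕ → ℕ, q = fun i => if h : i < r then e ⟨i, h⟩ else 0 := ⟨_, rfl⟩
  have hqP : ∀ i < r, q i ∈ P := by
    intro i hi
    rw [hq]
    simp only [hi, dif_pos]
    exact heP _
  have hqinj : ∀ i < r, ∀ l < r, i ≠ l → q i ≠ q l := by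
    intro i hi l hl hil h
    rw [hq] at h
    simp only [hi, hl, dif_pos] at h
    have := e.injective h
    rw [Fin.mk.injEq] at this
    exact hil this
  have hself : ∀ i < r, padicValRat (q i) ((q i : ℕ) : ℚ) = 1 := by
    intro i hi
    have := Fact.mk (hP _ (hqP i hi))
    exact padicValRat.self (hP _ (hqP i hi)).one_lt
  have hother : ∀ i < r, ∀ l < r, i ≠ l → padicValRat (q l) ((q i : ℕ) : ℚ) = 0 := by
    intro i hi l hl hil
    have f1 := Fact.mk (hP _ (hqP i hi))
    have f2 := Fact.mk (hP _ (hqP l hl))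
    rw [padicValRat.of_nat, padicValNat_primes (hqinj l hl i hi (Ne.symm hil))]
    rfl
  refine h1 A r (fun i => (q i : ℚ)) q (Finset.card_pos.1 (by omega)) ?_ ?_ ?_ ?_ hqinj ?_
  · intro i hi
    have := (hP _ (hqP i hi)).pos
    simp only [ne_eq, Nat.cast_eq_zero]
    omega
  · exact fun i hi => hP _ (hqP i hi)
  · intro i hi
    rw [hself i hi]
    exact one_ne_zero
  · intro i hi l hl hil
    rw [hother i hi l hl (by omega), mul_zero]
  · refine hsum.trans ?_
    have h2 : (N * P.card : ℝ) = ∑ _i ∈ Finset.range r, N := by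
      rw [Finset.sum_const, Finset.card_range, nsmul_eq_mul, hr, mul_comm]
    rw [h2]
    refine Finset.sum_le_sum fun i hi => ?_
    rw [Finset.mem_range] at hi
    have hb := bad_pos A hA (q i) (hP _ (hqP i hi)).two_le
    have hbr : (0 : ℝ) < (bad ((q i : ℕ) : ℚ) A).card := by exact_mod_cast hb
    have h3 := hbad _ (hqP i hi)
    rw [if_pos ((mul_le_mul_of_nonneg_right hN hbr.le).trans h3), le_div_iff₀ hbr]
    exact h3

/-- **Theorem L2, growth form.** -/
theorem primes_grow (η : ℝ) (hη : 0 < η) (hη1 : η ≤ 1) : ∃ C : ℝ, 0 < C ∧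
    ∀ (A : Finset ℤ) (P : Finset ℕ) (N : ℝ), A.Nonempty → C ≤ N → (∀ p ∈ P, p.Prime) →
      (∀ p ∈ P, N * (bad (p : ℚ) A).card ≤ A.card) →
      C * Real.log A.card ≤ N * P.card * Real.log (P.card + 1) → Grows η A := by
  classical
  obtain ⟨κ, hκd⟩ : ∃ κ : ℝ, κ = η / 6 := ⟨_, rfl⟩
  have hκ : 0 < κ := by rw [hκd]; (clear * - hη; positivity)
  have hκ1 : κ ≤ 1 := by rw [hκd]; linarith only [hη1]
  obtain ⟨θ, L0, hθ0, hθ1, hL0, hNode⟩ := node_avg κ hκ hκ1
  obtain ⟨C1, hC1, hL1⟩ := lines_grow η hη hη1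
  obtain ⟨M, hMd⟩ : ∃ M : ℕ, M = ⌈64 / κ⌉₊ := ⟨_, rfl⟩
  have hM64 : 64 / κ ≤ M := by rw [hMd]; exact Nat.le_ceil _
  have hMr : (1 : ℝ) ≤ M := by
    have : 1 ≤ 64 / κ := by
      rw [le_div_iff₀ hκ]
      (clear * - hκ1; linarith only [hκ1])
    linarith only [hM64, this]
  have hM1 : 1 ≤ M := by exact_mod_cast hMr
  have hMκ : 64 ≤ κ * M := by
    rw [div_le_iff₀ hκ] at hM64
    linarith only [hM64]
  -- threshold for the number of primes
  obtain ⟨R, hR⟩ : ∃ R : ℝ, R = max (2 * M * Real.log 2) (max (16 * L0 / κ) (Real.log 9)) :=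
    ⟨_, rfl⟩
  have hlog2 : 0 < Real.log 2 := Real.log_pos (by norm_num)
  have hR0 : 0 < R := by
    rw [hR]
    exact lt_max_of_lt_left (by (clear * - hM1; positivity))
  obtain ⟨δ, hδ⟩ : ∃ δ : ℝ, δ = κ * θ := ⟨_, rfl⟩
  have hδ0 : 0 < δ := by rw [hδ]; positivity
  have hδ1 : δ ≤ 1 := by
    rw [hδ]
    exact mul_le_one₀ hκ1 hθ0.le hθ1
  obtain ⟨C, hC⟩ : ∃ C : ℝ, C = C1 * (R + 1) + 52 / δ + 4 / κ + 1665 * M / δ ^ 2 := ⟨_, rfl⟩
  have hC0 : 0 < C := by rw [hC]; (clear * - hC1 hR0 hδ0 hκ hM1; positivity)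
  have c1 : C1 * (R + 1) ≤ C := by
    rw [hC]
    have e1 : 0 < 52 / δ := by positivity
    have e2 : 0 < 4 / κ := by positivity
    have e3 : 0 < 1665 * M / δ ^ 2 := by (clear * - hM1 hδ0; positivity)
    linarith only [e1, e2, e3]
  have c2 : 52 / δ ≤ C := by
    rw [hC]
    have e1 : 0 < C1 * (R + 1) := by positivity
    have e2 : 0 < 4 / κ := by positivity
    have e3 : 0 < 1665 * M / δ ^ 2 := by (clear * - hM1 hδ0; positivity)
    linarith only [e1, e2, e3]
  have c3 : 4 / κ ≤ C := by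
    rw [hC]
    have e1 : 0 < C1 * (R + 1) := by positivity
    have e2 : 0 < 52 / δ := by positivity
    have e3 : 0 < 1665 * M / δ ^ 2 := by (clear * - hM1 hδ0; positivity)
    linarith only [e1, e2, e3]
  have c4 : 1665 * M / δ ^ 2 ≤ C := by
    rw [hC]
    have e1 : 0 < C1 * (R + 1) := by (clear * - hC1 hR0; positivity)
    have e2 : 0 < 52 / δ := by positivity
    have e3 : 0 < 4 / κ := by positivity
    linarith only [e1, e2, e3]
  refine ⟨C, hC0, ?_⟩
  intro A P N hA hN hP hbad hsum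
  have hN0 : 0 < N := lt_of_lt_of_le hC0 hN
  rcases Nat.lt_or_ge A.card 2 with hA1 | hA2
  · -- one element
    have hA1' : A.card = 1 := by
      have := hA.card_pos
      omega
    intro X hX
    obtain ⟨a, ha⟩ := Finset.card_eq_one.1 hA1'
    have hX1 : (1 : ℝ) ≤ X.card := by exact_mod_cast hX.card_pos
    have e1 : X.card ≤ (Finset.image₂ (fun a b => a + b) X A).card := by
      refine Finset.card_le_card_of_injOn (fun x => x + a) ?_ ?_
      · intro x hx
        exact Finset.mem_coe.2 (Finset.mem_image₂_of_mem (Finset.mem_coe.1 hx)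
          (by rw [ha]; exact Finset.mem_singleton_self a))
      · intro x _ y _ h
        exact add_right_cancel h
    have e2 := Real.log_le_log (by linarith only [hX1]) (show (X.card : ℝ) ≤
      (Finset.image₂ (fun a b => a + b) X A).card by exact_mod_cast e1)
    rw [hA1', Nat.cast_one, Real.log_one, add_zero]
    have e3 := mul_nonneg hη.le (Real.log_nonneg hX1)
    linarith only [e2, e3]
  obtain ⟨r, hr⟩ : ∃ r : ℕ, r = P.card := ⟨_, rfl⟩
  rw [← hr] at hsum
  have hAr : (2 : ℝ) ≤ A.card := by exact_mod_cast hA2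
  have hAc : (0 : ℝ) < A.card := by linarith only [hAr]
  have hlogA : 0 < Real.log A.card := Real.log_pos (by linarith only [hAr])
  have hr0 : (0 : ℝ) ≤ r := Nat.cast_nonneg _
  by_cases hrR : Real.log (r + 1) ≤ R + 1
  · -- few primes
    refine few_primes C1 hC1 η hL1 A hA2 P hP N ?_ hbad ?_
    · have : C1 ≤ C1 * (R + 1) := by (clear * - hC1 hR0; nlinarith only [hC1, hR0])
      linarith only [c1, hN, this]
    · rw [← hr]
      have e1 : N * r * Real.log (r + 1) ≤ N * r * (R + 1) :=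
        mul_le_mul_of_nonneg_left hrR (by (clear * - hN0; positivity))
      have e2 : C1 * (R + 1) * Real.log A.card ≤ C * Real.log A.card :=
        mul_le_mul_of_nonneg_right c1 hlogA.le
      have e3 : (R + 1) * (C1 * Real.log A.card) ≤ (R + 1) * (N * r) := by linarith only [hsum, e1, e2]
      exact le_of_mul_le_mul_left e3 (by linarith only [hR0])
  push Not at hrR
  -- many primes
  have hr1 : 1 ≤ r := by
    by_contra h
    have : r = 0 := by omega
    rw [this] at hrR
    simp at hrR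
    linarith only [hR0, hrR]
  have hr1' : (1 : ℝ) ≤ r := by exact_mod_cast hr1
  have hlogr : R < Real.log r := by
    have e1 : Real.log (r + 1) ≤ Real.log r + Real.log 2 := by
      rw [← Real.log_mul (by (clear * - hr1; positivity)) (by norm_num)]
      exact Real.log_le_log (by (clear * - hr1; positivity)) (by linarith only [hr1'])
    have e2 : Real.log 2 ≤ 1 := by
      have := Real.log_le_sub_one_of_pos (show (0 : ℝ) < 2 by norm_num)
      linarith only [this]
    linarith only [hrR, e1, e2]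
  have r1 : 2 * M * Real.log 2 ≤ Real.log r := by
    have : 2 * M * Real.log 2 ≤ R := by rw [hR]; exact le_max_left _ _
    linarith only [hlogr, this]
  have r2 : 16 * L0 / κ ≤ Real.log r := by
    have : 16 * L0 / κ ≤ R := by
      rw [hR]; exact (le_max_left _ _).trans (le_max_right _ _)
    linarith only [hlogr, this]
  have r3 : Real.log 9 ≤ Real.log r := by
    have : Real.log 9 ≤ R := by
      rw [hR]; exact (le_max_right _ _).trans (le_max_right _ _)
    linarith only [hlogr, this]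
  have hr9 : (9 : ℝ) ≤ r := (Real.log_le_log_iff (by norm_num) (by linarith only [hr1'])).1 r3
  have hr9' : 9 ≤ r := by exact_mod_cast hr9
  obtain ⟨K, hK1, hKa, hKb⟩ := exists_K M hM1 r hr1
  obtain ⟨U, r', q, hUP, hUc, hr', hqP, hqinj, hUq⟩ := halves P hP
  rw [← hr] at hUc hr'
  have hU2 : 2 ≤ U.card := by omega
  have hlogU : Real.log r ≤ 2 * Real.log U.card := by
    have e1 : (r : ℝ) ≤ (U.card : ℝ) ^ 2 := by
      have e2 : r ≤ 2 * U.card + 1 := hUc
      have e3 : 4 ≤ U.card := by omega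
      have e4 : r ≤ U.card ^ 2 := by nlinarith only [e2, e3]
      exact_mod_cast e4
    have e2 := Real.log_le_log (by linarith only [hr9]) e1
    rw [Real.log_pow] at e2
    exact_mod_cast e2
  have hlogr0 : 0 ≤ Real.log r := Real.log_nonneg hr1'
  have hKU : Real.log K + L0 ≤ κ / 4 * Real.log U.card := by
    have e1 : Real.log K ≤ κ / 64 * Real.log r := by
      have hlK : 0 ≤ Real.log K := Real.log_nonneg (by exact_mod_cast hK1)
      have e2 : 64 * Real.log K ≤ κ * M * Real.log K :=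
        mul_le_mul_of_nonneg_right hMκ hlK
      have e3 := mul_le_mul_of_nonneg_left hKa hκ.le
      linarith only [e2, e3]
    have e2 : L0 ≤ κ / 16 * Real.log r := by
      rw [div_le_iff₀ hκ] at r2
      linarith only [r2]
    have e3 := mul_le_mul_of_nonneg_left hlogU hκ.le
    have e4 := mul_nonneg hκ.le hlogr0
    linarith only [e1, e2, e3, e4]
  have hlogK : Real.log r ≤ 2 * M * Real.log K := by
    have e1 : Real.log r ≤ M * Real.log K + M * Real.log 2 := by
      rw [mul_add] at hKb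
      exact hKb
    linarith only [r1, e1]
  -- the exponents
  obtain ⟨v, hv⟩ : ∃ v : ℕ, v = ⌊δ * N / 26⌋₊ := ⟨_, rfl⟩
  have hδN : 52 ≤ δ * N := by
    have := c2.trans hN
    rw [div_le_iff₀ hδ0] at this
    linarith only [this]
  have hv1 : (v : ℝ) ≤ δ * N / 26 := by
    rw [hv]
    exact Nat.floor_le (by (clear * - hδ0 hN0; positivity))
  have hv2 : δ * N / 52 ≤ v := by
    have := Nat.sub_one_lt_floor (δ * N / 26)
    rw [← hv] at this
    linarith only [hδN, this]
  have hqprime : ∀ i < r', (q i).Prime := fun i hi => hP _ (hqP i hi)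
  have hchain := greedyP r' q hqprime A (fun m p => (nH m p K θ A : ℝ) ≤ κ * A.card) (by
    intro j
    by_contra hcon
    push Not at hcon
    obtain ⟨_, hst⟩ := hcon
    have h1 := stuckH_bound r' q hqprime hqinj A hA j (fun i => (q i : ℚ)) (by
        intro i hi
        have := (hqprime i hi).pos
        simp only [ne_eq, Nat.cast_eq_zero]
        omega) (by
        intro i hi
        have := Fact.mk (hqprime i hi)
        rw [padicValRat.self (hqprime i hi).one_lt]
        exact one_pos) (by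
        intro i hi l hl hil
        have f1 := Fact.mk (hqprime i hi)
        have f2 := Fact.mk (hqprime l hl)
        rw [padicValRat.of_nat, padicValNat_primes (hqinj l hl i hi (by omega))]
        simp) K hK1 θ κ hθ0 hθ1 hκ hst (fun _ => v) (by
        intro i hi
        have e1 := hbad _ (hqP i hi)
        have e2 := mul_le_mul_of_nonneg_right hv1
          (Nat.cast_nonneg (α := ℝ) (bad ((q i : ℕ) : ℚ) A).card)
        have e3 := mul_le_mul_of_nonneg_left e1 hδ0.le
        rw [← hδ]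
        linarith only [e2, e3])
    rw [Finset.sum_const, Finset.card_range, nsmul_eq_mul] at h1
    have e0 : θ * κ = δ := by rw [hδ]; ring
    rw [e0] at h1
    -- lower bound of the left side
    have e1 : (r : ℝ) / 2 ≤ r' := by
      have : (r : ℝ) ≤ 2 * r' := by exact_mod_cast hr'
      (clear * - this; linarith only [this])
    have e2 : Real.log r / (2 * M) ≤ Real.log K := by
      rw [div_le_iff₀ (by (clear * - hM1; positivity))]
      linarith only [hlogK]
    have e3 : Real.log (r + 1) ≤ 2 * Real.log r := by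
      have : Real.log (r + 1) ≤ Real.log ((r : ℝ) ^ 2) :=
        Real.log_le_log (by (clear * - hr1; positivity)) (by (clear * - hr9; nlinarith only [hr9]))
      rw [Real.log_pow] at this
      exact_mod_cast this
    have e4 : δ / 4 * (Real.log r / (2 * M)) * (r / 2 * (δ * N / 52)) ≤
        δ / 4 * Real.log K * (r' * v) := by
      refine mul_le_mul ?_ ?_ (by (clear * - hr1 hδ0 hN0; positivity)) ?_
      · exact mul_le_mul_of_nonneg_left e2 (by (clear * - hδ0; positivity))
      · exact mul_le_mul e1 hv2 (by (clear * - hδ0 hN0; positivity)) (by (clear * -; positivity))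
      · exact mul_nonneg (by positivity) (Real.log_nonneg (by exact_mod_cast hK1))
    have e5 : δ / 4 * (Real.log r / (2 * M)) * (r / 2 * (δ * N / 52)) =
        δ ^ 2 / (832 * M) * (N * r * Real.log r) := by
      field_simp
      ring
    rw [e5] at e4
    have e6 := e4.trans h1
    -- contradiction
    have e7 : C * Real.log A.card ≤ 2 * (N * r * Real.log r) := by
      have := mul_le_mul_of_nonneg_left e3 (show 0 ≤ N * r by (clear * - hN0 hr1; positivity))
      linarith only [hsum, this]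
    have e8 : 1665 * M / δ ^ 2 * Real.log A.card ≤ 2 * (N * r * Real.log r) :=
      (mul_le_mul_of_nonneg_right c4 hlogA.le).trans e7
    have e9 := mul_le_mul_of_nonneg_left e8 (show 0 ≤ δ ^ 2 / (832 * M) by positivity)
    have e10 : δ ^ 2 / (832 * M) * (1665 * M / δ ^ 2 * Real.log A.card) =
        1665 / 832 * Real.log A.card := by
      (clear * - hδ0 hM1 hlogA; field_simp)
    rw [e10] at e9
    (clear * - hlogA e6 e9; linarith only [hlogA, e6, e9]))
  obtain ⟨J, m, p, h0, h1, h2, h3, h4⟩ := hchain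
  have hpp : ∀ i < J, (p i).Prime := by
    intro i hi
    obtain ⟨l, hl, hpl⟩ := h2 i hi
    rw [hpl]
    exact hqprime l hl
  have hUlt : ∀ i < J, ∀ u ∈ U, 0 < u ∧ u < p i := by
    intro i hi u hu
    obtain ⟨l, hl, hpl⟩ := h2 i hi
    rw [hpl]
    exact hUq l hl u hu
  have hUne : U.Nonempty := Finset.card_pos.1 (by omega)
  intro X hX
  have hX1 : (1 : ℝ) ≤ X.card := by exact_mod_cast hX.card_pos
  have hXlog : 0 ≤ Real.log X.card := Real.log_nonneg hX1
  have hdc := dil_chain hκ hNode κ hκ.le X A U hU2 K hK1 hKU m p J h0 h1 hpp (by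
      intro i hi u hu h
      rw [ZMod.natCast_eq_zero_iff] at h
      have := hUlt i hi u hu
      exact absurd (Nat.le_of_dvd this.1 h) (by omega)) (by
      intro i hi u hu w hw h
      have e1 := hUlt i hi u hu
      have e2 := hUlt i hi w hw
      have h' : (u : ZMod (p i)) = w := h
      rw [ZMod.natCast_eq_natCast_iff] at h'
      have h5 : u % (p i) = w % (p i) := h'
      rw [Nat.mod_eq_of_lt e1.2, Nat.mod_eq_of_lt e2.2] at h5
      exact h5) h3 h4
  -- one good dilation
  obtain ⟨u, hu, hcu⟩ : ∃ u ∈ U, ∑ s ∈ X ×ˢ A, Real.log (nc (X ×ˢ A) (rs 1 u) s) ≤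
      (κ + κ) * (X.card * A.card * (Real.log X.card + Real.log A.card)) := by
    by_contra hcon
    push Not at hcon
    have e1 := Finset.sum_lt_sum_of_nonempty hUne hcon
    rw [Finset.sum_const, nsmul_eq_mul] at e1
    linarith only [hdc, e1]
  have hb := hbad u (hUP hu)
  have hup := hP u (hUP hu)
  have hbr : (0 : ℝ) ≤ (bad (u : ℚ) A).card := Nat.cast_nonneg _
  have hN4 : 4 ≤ κ * N := by
    have := c3.trans hN
    rw [div_le_iff₀ hκ] at this
    linarith only [this]
  have hN4' : 4 ≤ N := by (clear * - hδ1 hδN hδ0; nlinarith only [hδ0, hδ1, hδN])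
  have hbN : (bad (u : ℚ) A).card ≤ A.card / N := by
    rw [le_div_iff₀ hN0]
    linarith only [hb]
  have hb2 : 2 * ((bad (u : ℚ) A).card : ℝ) ≤ A.card := by nlinarith only [hb, hN4']
  have hg := grow_of_count A X hA hX u (κ + κ) (by linarith only [hκ]) hb2 hcu
  -- the loss of the bad elements
  have hGb := card_good_add_bad (u : ℚ) A
  have hGb' : ((good (u : ℚ) A).card : ℝ) + (bad (u : ℚ) A).card = A.card := by
    exact_mod_cast hGb
  have hGc : (0 : ℝ) < (good (u : ℚ) A).card := by linarith only [hAc, hb2, hGb']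
  have hlogG : Real.log A.card - 2 / N ≤ Real.log (good (u : ℚ) A).card := by
    have e1 := Real.one_sub_inv_le_log_of_pos (show (0 : ℝ) < (good (u : ℚ) A).card / A.card
      by (clear * - hGc hA hr hr0 hr1 hr1' r3 hr9 hr9' hUc hr' hlogU hlogr0 hC0 hN hsum hδ0 hδ1 c2 hv hδN hv1 hv2 hR0 c1 hrR hlogr hMr hM1 c4 r1 hKa hKb hlogK hκd hκ hκ1 hNode hMd hM64 hMκ hR hδ hC c3 r2 hKU h4 hdc hcu hN4 hg; positivity))
    rw [Real.log_div hGc.ne' hAc.ne', inv_div] at e1
    have e2 : (A.card : ℝ) / (good (u : ℚ) A).card ≤ 1 + 2 / N := by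
      rw [div_le_iff₀ hGc]
      have e3 : (A.card : ℝ) * (1 - 1 / N) ≤ (good (u : ℚ) A).card := by
        have : (A.card : ℝ) * (1 - 1 / N) = A.card - A.card / N := by ring
        linarith only [hbN, hGb', this]
      have e4 : 0 < 1 / N := by positivity
      have e5 : 1 / N ≤ 1 / 4 := one_div_le_one_div_of_le (by norm_num) hN4'
      have e6 : (1 + 2 / N) * ((A.card : ℝ) * (1 - 1 / N)) ≤
          (1 + 2 / N) * (good (u : ℚ) A).card :=
        mul_le_mul_of_nonneg_left e3 (by (clear * - hN0; positivity))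
      have e7 : (1 + 2 / N) * ((A.card : ℝ) * (1 - 1 / N)) =
          A.card * (1 + 1 / N * (1 - 2 * (1 / N))) := by ring
      have e8 : (A.card : ℝ) * 1 ≤ A.card * (1 + 1 / N * (1 - 2 * (1 / N))) := by
        refine mul_le_mul_of_nonneg_left ?_ hAc.le
        nlinarith only [e4, e5]
      linarith only [e6, e7, e8]
    linarith only [e1, e2]
  have hN2 : 2 / N ≤ κ * Real.log A.card := by
    have e1 : 2 / N ≤ κ / 2 := by
      rw [div_le_iff₀ hN0]
      linarith only [hN4]
    have e2 : (1 : ℝ) / 2 ≤ Real.log A.card := by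
      have e3 := Real.log_le_log (by norm_num) hAr
      have e4 := Real.one_sub_inv_le_log_of_pos (show (0 : ℝ) < 2 by norm_num)
      norm_num at e4
      linarith only [e3, e4]
    nlinarith only [hN4, hN4', e1, e2]
  have e0 : (1 - η) * (Real.log X.card + Real.log A.card) =
      Real.log X.card + Real.log A.card - 6 * κ * (Real.log X.card + Real.log A.card) := by
    rw [hκd]
    ring
  rw [e0]
  have e1 := mul_nonneg hκ.le hXlog
  have e2 := mul_nonneg hκ.le hlogA.le
  linarith only [hg, hlogG, hN2, e1, e2]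

/-- **Theorem L2.** -/
theorem primes_large (k : ℕ) (ε b : ℝ) (hε : 0 < ε) : ∃ C : ℝ, 0 < C ∧
    ∀ (A X : Finset ℤ) (P : Finset ℕ) (N : ℝ), A.Nonempty → X.Nonempty →
      (X.card : ℝ) ≤ (A.card : ℝ) ^ b → C ≤ N → (∀ p ∈ P, p.Prime) →
      (∀ p ∈ P, N * (bad (p : ℚ) A).card ≤ A.card) →
      C * Real.log A.card ≤ N * P.card * Real.log (P.card + 1) →
      (X.card : ℝ) * (A.card : ℝ) ^ ((k : ℝ) - ε) ≤ (sk k X A).card := by
  obtain ⟨η, hη, hη1, h⟩ := sk_large k ε b hε
  obtain ⟨C, hC, hL⟩ := primes_grow η hη hη1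
  exact ⟨C, hC, fun A X P N hA hX hXb hN hP hbad hsum =>
    h A X hA hX hXb (hL A P N hA hN hP hbad hsum)⟩

end Pool.Agent.Helper28.LN
end

/- Helper24.DI.H28.LN.Local -/
section
set_option autoImplicit false

/-!
# Project LINES (MP_120218), Local: the local forms of theorems L1 and L2
-/

namespace Pool.Agent.Helper28.LN

open Finset Pool.Agent.Helper15.GL

/-- growth passes from a large subset to the set -/
theorem grows_of_subset (η c : ℝ) (hη : 0 ≤ η) (hc : 0 ≤ c) (hη1 : η ≤ 1)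
    (A S : Finset ℤ) (hSA : S ⊆ A) (hS : S.Nonempty) (hlarge : (A.card : ℝ) ^ (1 - c) ≤ S.card)
    (hG : Grows η S) : Grows (η + c) A := by
  intro X hX
  have hA : A.Nonempty := hS.mono hSA
  have hA1 : (1 : ℝ) ≤ A.card := by exact_mod_cast hA.card_pos
  have hX1 : (1 : ℝ) ≤ X.card := by exact_mod_cast hX.card_pos
  have ha : 0 ≤ Real.log A.card := Real.log_nonneg hA1
  have hx : 0 ≤ Real.log X.card := Real.log_nonneg hX1
  have h1 := hG X hX
  have hsub : Finset.image₂ (fun a b => a + b) X S ⊆ Finset.image₂ (fun a b => a + b) X A :=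
    Finset.image₂_subset_left hSA
  have hpos : (0 : ℝ) < (Finset.image₂ (fun a b => a + b) X S).card := by
    exact_mod_cast Finset.card_pos.2 (hX.image₂ hS)
  have h2 : Real.log (Finset.image₂ (fun a b => a + b) X S).card ≤
      Real.log (Finset.image₂ (fun a b => a + b) X A).card :=
    Real.log_le_log hpos (by exact_mod_cast Finset.card_le_card hsub)
  have h3 : (1 - c) * Real.log A.card ≤ Real.log S.card := by
    rw [← Real.log_rpow (by (clear * - hA1; linarith only [hA1]))]
    exact Real.log_le_log (Real.rpow_pos_of_pos (by (clear * - hA1; linarith only [hA1])) _) hlarge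
  have h4 := mul_le_mul_of_nonneg_left h3 (show 0 ≤ 1 - η by (clear * - hη1; linarith))
  have h5 : 0 ≤ c * Real.log X.card := mul_nonneg hc hx
  have h6 : 0 ≤ η * (c * Real.log A.card) := mul_nonneg hη (mul_nonneg hc ha)
  (clear * - h1 h2 h4 h5 h6; linarith only [h1, h2, h4, h5, h6])

/-- **Theorems L1 and L2, local form.** -/
theorem local_forms (k : ℕ) (ε b : ℝ) (hε : 0 < ε) : ∃ C c : ℝ, 0 < C ∧ 0 < c ∧
    ∀ A X : Finset ℤ, A.Nonempty → X.Nonempty → (X.card : ℝ) ≤ (A.card : ℝ) ^ b →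
      (X.card : ℝ) * (A.card : ℝ) ^ ((k : ℝ) - ε) ≤ (sk k X A).card ∨
      ∀ S : Finset ℤ, S ⊆ A → (A.card : ℝ) ^ (1 - c) ≤ S.card →
        (∀ (r : ℕ) (g : Fin r → ℚ) (q : Fin r → ℕ), (∀ i, g i ≠ 0) → (∀ i, (q i).Prime) →
          Function.Injective q → (∀ i, padicValRat (q i) (g i) ≠ 0) →
          (∀ i l, i < l → padicValRat (q i) (g i) * padicValRat (q l) (g i) ≤ 0) →
          ∑ i, (if C * (bad (g i) S).card ≤ S.card then
            (S.card : ℝ) / (bad (g i) S).card else 0) < C * Real.log A.card) ∧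
        (∀ (P : Finset ℕ) (N : ℝ), (∀ p ∈ P, p.Prime) → C ≤ N →
          (∀ p ∈ P, N * (bad (p : ℚ) S).card ≤ S.card) →
          N * P.card * Real.log (P.card + 1) < C * Real.log A.card) := by
  classical
  obtain ⟨η0, hη0, hη01, hsk⟩ := sk_large k ε b hε
  obtain ⟨η, hη⟩ : ∃ η : ℝ, η = η0 / 2 := ⟨_, rfl⟩
  have hηp : 0 < η := by rw [hη]; (clear * - hη0; positivity)
  have hη1 : η ≤ 1 := by rw [hη]; linarith only [hη01]
  obtain ⟨C1, hC1, hL1⟩ := lines_grow η hηp hη1
  obtain ⟨C2, hC2, hL2⟩ := primes_grow η hηp hη1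
  refine ⟨max C1 C2, η, lt_max_of_lt_left hC1, hηp, ?_⟩
  intro A X hA hX hXb
  by_cases hfirst : (X.card : ℝ) * (A.card : ℝ) ^ ((k : ℝ) - ε) ≤ (sk k X A).card
  · exact Or.inl hfirst
  refine Or.inr ?_
  intro S hSA hlarge
  have hA1 : (1 : ℝ) ≤ A.card := by exact_mod_cast hA.card_pos
  have hSpos : (0 : ℝ) < S.card := lt_of_lt_of_le (Real.rpow_pos_of_pos (by (clear * - hA1; linarith only [hA1])) _) hlarge
  have hS : S.Nonempty := by
    rw [← Finset.card_pos]
    exact_mod_cast hSpos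
  have hSle : (S.card : ℝ) ≤ A.card := by exact_mod_cast Finset.card_le_card hSA
  have hlogS : Real.log S.card ≤ Real.log A.card := Real.log_le_log hSpos hSle
  have hlogS0 : 0 ≤ Real.log S.card := Real.log_natCast_nonneg _
  have hnot : ¬ Grows η S := by
    intro hG
    have h1 := grows_of_subset η η hηp.le hηp.le hη1 A S hSA hS hlarge hG
    have h2 : η + η = η0 := by rw [hη]; ring
    rw [h2] at h1
    exact hfirst (hsk A X hA hX hXb h1)
  constructor
  · intro r g q hg hq hinj hv hv0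
    by_contra hcon
    push Not at hcon
    refine hnot (hL1 S r (fun i => if hi : i < r then g ⟨i, hi⟩ else 0)
      (fun i => if hi : i < r then q ⟨i, hi⟩ else 0) hS ?_ ?_ ?_ ?_ ?_ ?_)
    · intro i hi
      simp only [hi, dif_pos]
      exact hg _
    · intro i hi
      simp only [hi, dif_pos]
      exact hq _
    · intro i hi
      simp only [hi, dif_pos]
      exact hv _
    · intro i hi l hl hil
      simp only [hi, hl, dif_pos]
      exact hv0 _ _ hil
    · intro i hi l hl hil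
      simp only [hi, hl, dif_pos]
      intro h2
      have := hinj h2
      rw [Fin.mk.injEq] at this
      exact hil this
    · rw [← Fin.sum_univ_eq_sum_range (fun i => (if C1 * (bad (if hi : i < r then g ⟨i, hi⟩
        else 0) S).card ≤ S.card then (S.card : ℝ) / (bad (if hi : i < r then g ⟨i, hi⟩ else 0)
        S).card else 0))]
      have h1 : C1 * Real.log S.card ≤ max C1 C2 * Real.log A.card :=
        mul_le_mul (le_max_left _ _) hlogS hlogS0 (le_max_of_le_left hC1.le)
      refine (h1.trans hcon).trans (Finset.sum_le_sum fun i _ => ?_)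
      simp only [Fin.is_lt, dif_pos, Fin.eta]
      have hb0 : (0 : ℝ) ≤ (bad (g i) S).card := Nat.cast_nonneg _
      split_ifs with h2 h3
      · exact le_rfl
      · exact absurd ((mul_le_mul_of_nonneg_right (le_max_left C1 C2) hb0).trans h2) h3
      · (clear * - hS hη hηp hη1 hL1 hL2 hlarge hnot; positivity)
      · exact le_rfl
  · intro P N hP hN hbad
    by_contra hcon
    push Not at hcon
    refine hnot (hL2 S P N hS ((le_max_right _ _).trans hN) hP hbad ?_)
    have h1 : C2 * Real.log S.card ≤ max C1 C2 * Real.log A.card :=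
      mul_le_mul (le_max_right _ _) hlogS hlogS0 (le_max_of_le_right hC2.le)
    exact h1.trans hcon

end Pool.Agent.Helper28.LN
end

/- Helper24.DI.H15.GPQ.Sharp -/
section
set_option autoImplicit false

/-!
# Project GL++ (MP_120218), Sharp2: optimality for every rank and every length
-/

namespace Pool.Agent.Helper15.GPQ

open Finset Pool.Agent.Helper28.LN

/-- one extremal family for all the bounds -/
theorem sharp2 (η : ℝ) (hη : 0 < η) : ∃ c : ℝ, 0 < c ∧ ∀ r n : ℕ, 1 ≤ r → 1 ≤ n →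
    ∃ (A : Finset ℤ) (p : Fin r → ℕ), (∀ i, (p i).Prime) ∧ Function.Injective p ∧
      (n : ℝ) * r * Real.log (r + 1) ≤ Real.log A.card ∧
      c * Real.log A.card ≤ (n : ℝ) * r * Real.log (r + 1) ∧
      (∀ k : ℕ, (((Fintype.piFinset (fun _ : Fin k => A)).image
        (fun f : Fin k → ℤ => ∑ i, f i)).card : ℝ) ≤ ((k : ℝ) + 1) * (A.card : ℝ) ^ (1 + η)) ∧
      (∀ i, (n : ℝ) * (bad ((p i : ℕ) : ℚ) A).card ≤ A.card) ∧
      (∀ a ∈ A, n ^ r ≤ {b : ℤ | b ∈ A ∧ ∃ e : Fin r → ℤ,
        (b : ℚ) = a * ∏ i, (p i : ℚ) ^ e i}.ncard) ∧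
      (gprog (fun i => (p i : ℚ)) 1).card = 3 ^ r ∧
      n ^ r * (prd A (gprog (fun i => (p i : ℚ)) 1)).card ≤ (n + 2) ^ r * A.card := by
  classical
  refine ⟨1 / (16 / η + 4), by (clear * - hη; positivity), fun r n hr hn => ?_⟩
  obtain ⟨p, hpd⟩ : ∃ p : Fin r → ℕ, p = fun i : Fin r => Nat.nth Nat.Prime i := ⟨_, rfl⟩
  have hp : ∀ i, (p i).Prime := by
    intro i
    rw [hpd]
    exact Nat.prime_nth_prime _
  have hinj : Function.Injective p := by
    intro i j h
    rw [hpd] at h
    exact Fin.ext (Nat.nth_injective Nat.infinite_setOfPred_prime h)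
  have hple : ∀ i, p i ≤ 4 * (r + 1) ^ 2 := by
    intro i
    rw [hpd]
    exact nth_prime_le r i i.2
  obtain ⟨D, hD⟩ : ∃ D : ℕ, D = ∏ i, p i := ⟨_, rfl⟩
  have hDi : ∀ i, p i ∣ D := by
    intro i
    rw [hD]
    exact Finset.dvd_prod_of_mem _ (Finset.mem_univ i)
  have hD0 : 0 < D := by
    rw [hD]
    exact Finset.prod_pos fun i _ => (hp i).pos
  have hDR : (1 : ℝ) ≤ D := by exact_mod_cast hD0
  have hr1 : (1 : ℝ) ≤ r := by exact_mod_cast hr
  have hn1 : (1 : ℝ) ≤ n := by exact_mod_cast hn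
  have hlog2 : (1 / 2 : ℝ) ≤ Real.log 2 := by
    have := Real.log_two_gt_d9
    linarith only [this]
  have hlr : Real.log 2 ≤ Real.log (r + 1) :=
    Real.log_le_log (by norm_num) (by linarith only [hr1])
  obtain ⟨Z, hZ⟩ : ∃ Z : ℝ, Z = (n : ℝ) * r * Real.log (r + 1) := ⟨_, rfl⟩
  have hnr : 1 ≤ (n : ℝ) * r := by (clear * - hn1 hr1; nlinarith only [hr1, hn1])
  have hZ1 : Real.log 2 ≤ Z := by
    rw [hZ]
    (clear * - hlr hnr hlog2; nlinarith only [hlog2, hlr, hnr])
  have hZ0 : 0 < Z := by linarith only [hlog2, hZ1]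
  have hZnr : (n : ℝ) * r ≤ 2 * Z := by
    rw [hZ]
    have h1 := mul_le_mul_of_nonneg_left (hlog2.trans hlr) (show 0 ≤ (n : ℝ) * r by linarith only [hnr])
    linarith only [h1]
  have hlD : Real.log D ≤ 4 * (r * Real.log (r + 1)) := by
    rw [hD, Nat.cast_prod, Real.log_prod (fun i _ => by
      have := (hp i).pos
      (clear * - this; positivity))]
    have h1 : ∀ i ∈ (univ : Finset (Fin r)), Real.log (p i) ≤ 4 * Real.log (r + 1) := by
      intro i _
      have h2 : (p i : ℝ) ≤ 4 * (r + 1) ^ 2 := by exact_mod_cast hple i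
      have h3 : (0 : ℝ) < p i := by exact_mod_cast (hp i).pos
      have h4 := Real.log_le_log h3 h2
      rw [Real.log_mul (by norm_num) (by positivity), Real.log_pow] at h4
      have h5 : Real.log 4 = 2 * Real.log 2 := by
        rw [show (4 : ℝ) = 2 ^ 2 by norm_num, Real.log_pow]
        norm_num
      rw [h5] at h4
      push_cast at h4
      (clear * - hlr h4; linarith only [hlr, h4])
    refine (Finset.sum_le_sum h1).trans ?_
    rw [Finset.sum_const, Finset.card_univ, Fintype.card_fin, nsmul_eq_mul]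
    exact le_of_eq (by ring)
  have hlD0 : 0 ≤ Real.log D := Real.log_nonneg hDR
  have hlD2 : ((n : ℝ) + 1) * Real.log D ≤ 8 * Z := by
    have h1 := mul_le_mul_of_nonneg_left hlD (show 0 ≤ (n : ℝ) + 1 by linarith only [])
    have h2 : ((n : ℝ) + 1) * (4 * (r * Real.log (r + 1))) ≤
        (2 * n) * (4 * (r * Real.log (r + 1))) := by
      refine mul_le_mul_of_nonneg_right (by linarith only [hn1]) ?_
      have : 0 ≤ Real.log ((r : ℝ) + 1) := by linarith only [hlog2, hlr]
      (clear * - hr this; positivity)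
    rw [hZ]
    (clear * - h1 h2; linarith only [h1, h2])
  obtain ⟨W, hW⟩ : ∃ W : ℝ, W = (8 / η + 1) * Z := ⟨_, rfl⟩
  have hWZ : Z ≤ W := by
    rw [hW]
    have : 0 < 8 / η * Z := by (clear * - hη hZ0; positivity)
    (clear * - this; linarith only [this])
  have hηW : 8 * Z ≤ η * W := by
    rw [hW]
    have h1 : η * ((8 / η + 1) * Z) = 8 * Z + η * Z := by
      (clear * - hη hZ0; field_simp)
    rw [h1]
    have : 0 < η * Z := by positivity
    linarith only [this]
  obtain ⟨T, hT⟩ : ∃ T : ℕ, T = ⌈Real.exp W⌉₊ := ⟨_, rfl⟩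
  have hTe : Real.exp W ≤ T := by rw [hT]; exact Nat.le_ceil _
  have hT0 : (0 : ℝ) < T := lt_of_lt_of_le (Real.exp_pos W) hTe
  have hTlog : W ≤ Real.log T := by
    rw [Real.le_log_iff_exp_le hT0]
    exact hTe
  have hT1 : (1 : ℝ) ≤ T := by
    have : 1 ≤ T := by
      have : 0 < T := by exact_mod_cast hT0
      omega
    exact_mod_cast this
  have hTup : Real.log T ≤ 2 * W := by
    have h1 : (T : ℝ) ≤ 2 * Real.exp W := by
      have h2 : (T : ℝ) < Real.exp W + 1 := by
        rw [hT]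
        exact Nat.ceil_lt_add_one (Real.exp_pos W).le
      have h3 : 1 ≤ Real.exp W := Real.one_le_exp (by linarith only [hZ0, hWZ])
      linarith only [h2, h3]
    have h2 := Real.log_le_log hT0 h1
    rw [Real.log_mul (by norm_num) (Real.exp_pos W).ne', Real.log_exp] at h2
    linarith only [hZ1, hWZ, h2]
  have hA : (optA p D T n).card = T * n ^ r := card_optA p hp hinj D T n hDi hD0
  have hAR : ((optA p D T n).card : ℝ) = T * (n : ℝ) ^ r := by rw [hA]; push_cast; ring
  have hnrp : (1 : ℝ) ≤ (n : ℝ) ^ r := one_le_pow₀ hn1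
  have hAT : (T : ℝ) ≤ (optA p D T n).card := by
    rw [hAR]
    (clear * - hnrp; nlinarith only [hnrp])
  have hA1 : (1 : ℝ) ≤ (optA p D T n).card := hT1.trans hAT
  have hlogA : Real.log (optA p D T n).card ≤ (16 / η + 4) * Z := by
    rw [hAR, Real.log_mul (by linarith only [hT1]) (by positivity), Real.log_pow]
    have h1 : Real.log n ≤ n - 1 := Real.log_le_sub_one_of_pos (by (clear * - hn1; linarith only [hn1]))
    have h2 : (r : ℝ) * Real.log n ≤ r * n :=
      mul_le_mul_of_nonneg_left (by linarith only [h1]) (by linarith only [])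
    have h3 : 2 * W = (16 / η + 2) * Z := by rw [hW]; ring
    linarith only [hZnr, hTup, h2, h3]
  have hgp : ∀ i, (fun i => (p i : ℚ)) i ≠ 0 := fun i => Nat.cast_ne_zero.2 (hp i).ne_zero
  have hcg : (gprog (fun i => (p i : ℚ)) 1).card = 3 ^ r := by
    rw [card_gprog_eq _ hgp, card_gprogN p hp hinj]
  refine ⟨optA p D T n, p, hp, hinj, ?_, ?_, ?_, ?_, ?_, hcg, ?_⟩
  · rw [← hZ]
    exact hWZ.trans (hTlog.trans (Real.log_le_log hT0 hAT))
  · rw [← hZ, one_div, inv_mul_le_iff₀ (by positivity)]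
    exact hlogA
  · intro k
    have h1 := sum_optA p hp D T n hD hD0 k
    have h2 : (((Fintype.piFinset (fun _ : Fin k => optA p D T n)).image
        (fun f : Fin k → ℤ => ∑ i, f i)).card : ℝ) ≤ k * (T * (D : ℝ) ^ (n + 1)) + 1 := by
      exact_mod_cast h1
    refine h2.trans ?_
    have h3 : (T : ℝ) * (D : ℝ) ^ (n + 1) ≤ ((optA p D T n).card : ℝ) ^ (1 + η) := by
      have h4 : (D : ℝ) ^ (n + 1) ≤ (T : ℝ) ^ η := by
        rw [← Real.log_le_log_iff (by positivity) (by (clear * - hT0; positivity)), Real.log_pow,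
          Real.log_rpow hT0]
        push_cast
        have h5 := mul_le_mul_of_nonneg_left hTlog hη.le
        linarith only [hlD2, hηW, h5]
      calc (T : ℝ) * (D : ℝ) ^ (n + 1) ≤ T * (T : ℝ) ^ η :=
            mul_le_mul_of_nonneg_left h4 (by linarith only [])
        _ = (T : ℝ) ^ (1 + η) := by rw [Real.rpow_add hT0, Real.rpow_one]
        _ ≤ _ := Real.rpow_le_rpow hT0.le hAT (by linarith only [hη])
    have hk : (0 : ℝ) ≤ k := Nat.cast_nonneg k
    have h5 : (1 : ℝ) ≤ ((optA p D T n).card : ℝ) ^ (1 + η) :=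
      Real.one_le_rpow hA1 (by linarith only [hη])
    calc (k : ℝ) * (T * (D : ℝ) ^ (n + 1)) + 1 ≤
          k * ((optA p D T n).card : ℝ) ^ (1 + η) + ((optA p D T n).card : ℝ) ^ (1 + η) :=
            add_le_add (mul_le_mul_of_nonneg_left h3 hk) h5
      _ = _ := by ring
  · intro i
    rw [hA]
    exact_mod_cast bad_optA p D T n i
  · intro a ha
    refine (rich_opt p hp hinj D T n n le_rfl a ha).trans ?_
    rw [← Set.ncard_coe_finset]
    refine Set.ncard_le_ncard ?_ ?_
    · intro b hb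
      obtain ⟨hbA, s, hs, hbs⟩ := mem_rich.1 (Finset.mem_coe.1 hb)
      unfold gprog at hs
      obtain ⟨e, _, rfl⟩ := Finset.mem_image.1 hs
      exact ⟨hbA, e, hbs⟩
    · exact (Finset.finite_toSet (optA p D T n)).subset fun b hb => Finset.mem_coe.2 hb.1
  · have h1 : (prd (optA p D T n) (gprog (fun i => (p i : ℚ)) 1)).card ≤ T * (n + 2 * 1) ^ r :=
      (card_prd_eq _ hgp 1 (optA p D T n)).trans (card_prd_opt p D T n 1)
    rw [hA]
    calc n ^ r * (prd (optA p D T n) (gprog (fun i => (p i : ℚ)) 1)).card ≤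
          n ^ r * (T * (n + 2 * 1) ^ r) := Nat.mul_le_mul_left _ h1
      _ = (n + 2) ^ r * (T * n ^ r) := by ring

end Pool.Agent.Helper15.GPQ
end

/- Helper24.DI.H15.GPR.Tent -/
section
set_option autoImplicit false

/-!
# Project GL++ (MP_120218), Tent: the extremal sets with smooth weights
-/

namespace Pool.Agent.Helper15.GPR

open Finset Pool.Agent.Helper15.GPQ

/-- the tent -/
def tau (n x : ℕ) : ℕ := min (x + 1) (2 * n - x)

/-- the sum of the squares -/
def SS (n : ℕ) : ℕ := ∑ x ∈ Finset.range (2 * n), tau n x ^ 2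

theorem tau_le (n x : ℕ) : tau n x ≤ n := by
  unfold tau
  omega

theorem tau_pos_lt (n x : ℕ) (h : 0 < tau n x) : x < 2 * n := by
  unfold tau at h
  omega

theorem tau_step (n x : ℕ) : tau n x ^ 2 + tau n (x + 1) ^ 2 ≤ 2 * (tau n x * tau n (x + 1)) + 1 := by
  have h : tau n x = tau n (x + 1) ∨ tau n x = tau n (x + 1) + 1 ∨ tau n x + 1 = tau n (x + 1) := by
    unfold tau
    omega
  rcases h with h | h | h
  · rw [h]
    (clear * -; linarith only [])
  · rw [h]
    (clear * -; linarith only [])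
  · rw [← h]
    linarith only []

theorem sum_shift (f : ℕ → ℕ) (m : ℕ) :
    ∑ x ∈ Finset.range m, f (x + 1) + f 0 = ∑ x ∈ Finset.range m, f x + f m := by
  rw [← Finset.sum_range_succ', Finset.sum_range_succ]

theorem tau_shift (n : ℕ) (hn : 1 ≤ n) :
    ∑ x ∈ Finset.range (2 * n), tau n (x + 1) ^ 2 + 1 = SS n := by
  have h1 := sum_shift (fun x => tau n x ^ 2) (2 * n)
  have h2 : tau n 0 ^ 2 = 1 := by
    have : tau n 0 = 1 := by unfold tau; omega
    rw [this]
    norm_num
  have h3 : tau n (2 * n) ^ 2 = 0 := by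
    have : tau n (2 * n) = 0 := by unfold tau; omega
    rw [this]
    norm_num
  simp only [h2, h3, add_zero] at h1
  exact h1

theorem tau_cross (n : ℕ) (hn : 1 ≤ n) :
    SS n ≤ ∑ x ∈ Finset.range (2 * n), tau n x * tau n (x + 1) + n := by
  have h1 := Finset.sum_le_sum (s := Finset.range (2 * n)) (fun x _ => tau_step n x)
  rw [Finset.sum_add_distrib, Finset.sum_add_distrib, ← Finset.mul_sum, Finset.sum_const,
    Finset.card_range, smul_eq_mul, mul_one] at h1
  have h2 := tau_shift n hn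
  have h3 : SS n = ∑ x ∈ Finset.range (2 * n), tau n x ^ 2 := rfl
  omega

theorem three_SS (n : ℕ) : 3 * SS n = n * (n + 1) * (2 * n + 1) := by
  have h1 : SS n = 2 * ∑ x ∈ Finset.range n, (x + 1) ^ 2 := by
    unfold SS
    rw [two_mul n, Finset.sum_range_add, two_mul]
    congr 1
    · refine Finset.sum_congr rfl fun x hx => ?_
      have hx' := Finset.mem_range.1 hx
      have : tau n x = x + 1 := by unfold tau; omega
      rw [this]
    · rw [← Finset.sum_range_reflect]
      refine Finset.sum_congr rfl fun x hx => ?_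
      have hx' := Finset.mem_range.1 hx
      have : tau n (n + (n - 1 - x)) = x + 1 := by unfold tau; (clear * - hx'; omega)
      rw [this]
  have h2 : ∀ m : ℕ, 6 * ∑ x ∈ Finset.range m, (x + 1) ^ 2 = m * (m + 1) * (2 * m + 1) := by
    intro m
    induction m with
    | zero => simp
    | succ m ih =>
      rw [Finset.sum_range_succ, mul_add, ih]
      ring
  have h3 := h2 n
  rw [h1]
  (clear * - h3; linarith only [h3])

/-- the weights -/
def FF {r : ℕ} (n : ℕ) (v : Fin r → ℕ) : ℕ := ∏ i, tau n (v i) ^ 2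

/-- the box -/
def VV (r n : ℕ) : Finset (Fin r → ℕ) := Fintype.piFinset (fun _ : Fin r => Finset.range (2 * n))

theorem mem_VV {r n : ℕ} {v : Fin r → ℕ} : v ∈ VV r n ↔ ∀ i, v i < 2 * n := by
  unfold VV
  rw [Fintype.mem_piFinset]
  exact forall_congr' fun i => Finset.mem_range

/-- the extremal set -/
def optB {r : ℕ} (p : Fin r → ℕ) (D K n : ℕ) : Finset ℤ :=
  ((VV r n).sigma (fun v => Finset.range (K * FF n v))).image
    (fun x : (_ : Fin r → ℕ) × ℕ => (((1 + D * x.2) * ∏ i, p i ^ x.1 i : ℕ) : ℤ))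

theorem rep_inj {r : ℕ} (p : Fin r → ℕ) (hp : ∀ i, (p i).Prime) (hinj : Function.Injective p)
    (D : ℕ) (hD : ∀ i, p i ∣ D) (hD0 : 0 < D) (x y : (_ : Fin r → ℕ) × ℕ)
    (h : (((1 + D * x.2) * ∏ i, p i ^ x.1 i : ℕ) : ℤ) = (((1 + D * y.2) * ∏ i, p i ^ y.1 i : ℕ) : ℤ)) :
    x = y := by
  obtain ⟨e, t⟩ := x
  obtain ⟨e', t'⟩ := y
  have h1 : (1 + D * t) * ∏ i, p i ^ e i = (1 + D * t') * ∏ i, p i ^ e' i := Int.natCast_inj.1 h
  have hnd : ∀ (t : ℕ) (i : Fin r), ¬ p i ∣ 1 + D * t := by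
    intro t i hd
    have h2 : p i ∣ 1 := (Nat.dvd_add_left ((hD i).mul_right t)).1 hd
    exact (hp i).one_lt.ne' (Nat.dvd_one.1 h2)
  have he : e = e' := by
    funext i
    have h2 := opt_fac p hp hinj (1 + D * t) (by omega) (hnd t) e i
    have h3 := opt_fac p hp hinj (1 + D * t') (by omega) (hnd t') e' i
    rw [← h2, ← h3, h1]
  subst he
  have hpos : 0 < ∏ i, p i ^ e i := Finset.prod_pos fun i _ => pow_pos (hp i).pos _
  have h4 := Nat.eq_of_mul_eq_mul_right hpos h1
  have h5 : t = t' := Nat.eq_of_mul_eq_mul_left hD0 (by omega)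
  rw [h5]

theorem sum_FF (r n : ℕ) : ∑ v ∈ VV r n, FF n v = SS n ^ r := by
  have h1 := Finset.prod_univ_sum (fun _ : Fin r => Finset.range (2 * n)) (fun _ x => tau n x ^ 2)
  rw [Finset.prod_const, Finset.card_univ, Fintype.card_fin] at h1
  exact h1.symm

theorem card_optB {r : ℕ} (p : Fin r → ℕ) (hp : ∀ i, (p i).Prime) (hinj : Function.Injective p)
    (D K n : ℕ) (hD : ∀ i, p i ∣ D) (hD0 : 0 < D) : (optB p D K n).card = K * SS n ^ r := by
  classical
  unfold optB
  rw [Finset.card_image_of_injOn]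
  · rw [Finset.card_sigma, ← sum_FF, Finset.mul_sum]
    exact Finset.sum_congr rfl fun v _ => Finset.card_range _
  · intro x _ y _ h
    exact rep_inj p hp hinj D hD hD0 x y h

/-- the shift by the indicator of `E` -/
def sh {r : ℕ} (E : Finset (Fin r)) (v : Fin r → ℕ) : Fin r → ℕ := fun i =>
  if i ∈ E then v i + 1 else v i

theorem overlap {r : ℕ} (p : Fin r → ℕ) (hp : ∀ i, (p i).Prime) (hinj : Function.Injective p)
    (D K n : ℕ) (hD : ∀ i, p i ∣ D) (hD0 : 0 < D) (E : Finset (Fin r)) :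
    K * ∑ v ∈ VV r n, min (FF n v) (FF n (sh E v)) ≤
      ((optB p D K n).filter (fun a => ((∏ i ∈ E, p i : ℕ) : ℤ) * a ∈ optB p D K n)).card := by
  classical
  have h1 : K * ∑ v ∈ VV r n, min (FF n v) (FF n (sh E v)) =
      ((VV r n).sigma (fun v => Finset.range (K * min (FF n v) (FF n (sh E v))))).card := by
    rw [Finset.card_sigma, Finset.mul_sum]
    exact Finset.sum_congr rfl fun v _ => (Finset.card_range _).symm
  rw [h1]
  refine Finset.card_le_card_of_injOn
    (fun x : (_ : Fin r → ℕ) × ℕ => (((1 + D * x.2) * ∏ i, p i ^ x.1 i : ℕ) : ℤ)) ?_ ?_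
  · rintro ⟨v, t⟩ hx
    obtain ⟨hv, ht⟩ := Finset.mem_sigma.1 (Finset.mem_coe.1 hx)
    have ht' : t < K * min (FF n v) (FF n (sh E v)) := Finset.mem_range.1 ht
    have hK : 0 < K := by
      rcases Nat.eq_zero_or_pos K with h | h
      · rw [h, zero_mul] at ht'
        omega
      · exact h
    have ht1 : t < K * FF n v := lt_of_lt_of_le ht' (Nat.mul_le_mul_left _ (min_le_left _ _))
    have ht2 : t < K * FF n (sh E v) :=
      lt_of_lt_of_le ht' (Nat.mul_le_mul_left _ (min_le_right _ _))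
    refine Finset.mem_coe.2 (Finset.mem_filter.2 ⟨?_, ?_⟩)
    · exact Finset.mem_image.2 ⟨⟨v, t⟩, Finset.mem_sigma.2 ⟨hv, Finset.mem_range.2 ht1⟩, rfl⟩
    · refine Finset.mem_image.2 ⟨⟨sh E v, t⟩, Finset.mem_sigma.2 ⟨?_, Finset.mem_range.2 ht2⟩, ?_⟩
      · rw [mem_VV]
        intro i
        have h2 : FF n (sh E v) ≠ 0 := by
          intro h
          rw [h, mul_zero] at ht2
          omega
        unfold FF at h2
        have h3 := (Finset.prod_ne_zero_iff.1 h2) i (Finset.mem_univ i)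
        refine tau_pos_lt n _ (Nat.pos_of_ne_zero fun h => h3 ?_)
        rw [h]
        norm_num
      · have h2 : ∏ i, p i ^ (sh E v) i = (∏ i ∈ E, p i) * ∏ i, p i ^ v i := by
          have h3 : ∏ i ∈ E, p i = ∏ i, if i ∈ E then p i else 1 := by
            rw [← Finset.prod_filter, Finset.filter_mem_eq_inter, Finset.univ_inter]
          rw [h3, ← Finset.prod_mul_distrib]
          refine Finset.prod_congr rfl fun i _ => ?_
          unfold sh
          by_cases h : i ∈ E
          · rw [if_pos h, if_pos h, pow_succ]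
            ring
          · rw [if_neg h, if_neg h, one_mul]
        show (((1 + D * t) * ∏ i, p i ^ (sh E v) i : ℕ) : ℤ) =
          ((∏ i ∈ E, p i : ℕ) : ℤ) * (((1 + D * t) * ∏ i, p i ^ v i : ℕ) : ℤ)
        rw [h2]
        push_cast
        ring
  · intro x _ y _ h
    exact rep_inj p hp hinj D hD hD0 x y h

theorem sum_min {r : ℕ} (n : ℕ) (hn : 1 ≤ n) (E : Finset (Fin r)) :
    (SS n - n) ^ (2 * r) ≤ 2 * SS n ^ r * ∑ v ∈ VV r n, min (FF n v) (FF n (sh E v)) := by
  classical
  obtain ⟨G, hG⟩ : ∃ G : (Fin r → ℕ) → ℕ, G = fun v => ∏ i, tau n (v i) * tau n (sh E v i) :=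
    ⟨_, rfl⟩
  have hG2 : ∀ v, G v ^ 2 = min (FF n v) (FF n (sh E v)) * max (FF n v) (FF n (sh E v)) := by
    intro v
    rw [min_mul_max, hG]
    unfold FF
    rw [← Finset.prod_mul_distrib, ← Finset.prod_pow]
    exact Finset.prod_congr rfl fun i _ => by ring
  have h1 := Finset.sum_sq_le_sum_mul_sum_of_sq_le_mul (VV r n) (r := G)
    (f := fun v => min (FF n v) (FF n (sh E v))) (g := fun v => max (FF n v) (FF n (sh E v)))
    (fun _ _ => Nat.zero_le _) (fun _ _ => Nat.zero_le _) (fun v _ => (hG2 v).le)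
  -- the maxima
  have h2 : ∑ v ∈ VV r n, max (FF n v) (FF n (sh E v)) ≤ 2 * SS n ^ r := by
    have h3 : ∑ v ∈ VV r n, FF n (sh E v) ≤ SS n ^ r := by
      have h4 : ∑ v ∈ VV r n, FF n (sh E v) =
          ∏ i : Fin r, ∑ x ∈ Finset.range (2 * n), tau n (if i ∈ E then x + 1 else x) ^ 2 := by
        unfold VV FF sh
        rw [Finset.prod_univ_sum]
      have h5 : SS n ^ r = ∏ _i : Fin r, SS n := by
        rw [Finset.prod_const, Finset.card_univ, Fintype.card_fin]
      rw [h4, h5]
      refine Finset.prod_le_prod' fun i _ => ?_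
      by_cases h : i ∈ E
      · simp only [if_pos h]
        have := tau_shift n hn
        omega
      · simp only [if_neg h]
        exact le_rfl
    calc ∑ v ∈ VV r n, max (FF n v) (FF n (sh E v)) ≤
        ∑ v ∈ VV r n, (FF n v + FF n (sh E v)) :=
          Finset.sum_le_sum fun v _ => max_le_add_of_nonneg (Nat.zero_le _) (Nat.zero_le _)
      _ = SS n ^ r + ∑ v ∈ VV r n, FF n (sh E v) := by rw [Finset.sum_add_distrib, sum_FF]
      _ ≤ 2 * SS n ^ r := by omega
  -- the cross terms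
  have h3 : (SS n - n) ^ r ≤ ∑ v ∈ VV r n, G v := by
    have h4 : ∑ v ∈ VV r n, G v = ∏ i : Fin r, ∑ x ∈ Finset.range (2 * n),
        tau n x * tau n (if i ∈ E then x + 1 else x) := by
      rw [hG]
      unfold VV sh
      rw [Finset.prod_univ_sum]
    have h5 : (SS n - n) ^ r = ∏ _i : Fin r, (SS n - n) := by
      rw [Finset.prod_const, Finset.card_univ, Fintype.card_fin]
    rw [h4, h5]
    refine Finset.prod_le_prod' fun i _ => ?_
    by_cases h : i ∈ E
    · simp only [if_pos h]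
      have := tau_cross n hn
      omega
    · simp only [if_neg h]
      have h5 : ∑ x ∈ Finset.range (2 * n), tau n x * tau n x = SS n := by
        unfold SS
        exact Finset.sum_congr rfl fun x _ => by ring
      rw [h5]
      omega
  calc (SS n - n) ^ (2 * r) = ((SS n - n) ^ r) ^ 2 := by rw [← pow_mul, mul_comm]
    _ ≤ (∑ v ∈ VV r n, G v) ^ 2 := Nat.pow_le_pow_left h3 2
    _ ≤ _ := h1
    _ ≤ (∑ v ∈ VV r n, min (FF n v) (FF n (sh E v))) * (2 * SS n ^ r) :=
        Nat.mul_le_mul_left _ h2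
    _ = _ := by ring

/-- the elements are small -/
theorem sum_optB {r : ℕ} (p : Fin r → ℕ) (hp : ∀ i, (p i).Prime) (D K n : ℕ)
    (hD : D = ∏ i, p i) (hD0 : 0 < D) (k : ℕ) :
    ((Fintype.piFinset (fun _ : Fin k => optB p D K n)).image
      (fun f : Fin k → ℤ => ∑ i, f i)).card ≤ k * (K * n ^ (2 * r) * D ^ (2 * n + 1)) + 1 := by
  classical
  obtain ⟨T, hT⟩ : ∃ T : ℕ, T = K * n ^ (2 * r) := ⟨_, rfl⟩
  rw [← hT]
  have hmem : ∀ a ∈ optB p D K n, 0 ≤ a ∧ a ≤ ((T * D ^ (2 * n + 1) : ℕ) : ℤ) := by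
    intro a ha
    unfold optB at ha
    obtain ⟨⟨e, t⟩, hte, rfl⟩ := Finset.mem_image.1 ha
    rw [Finset.mem_sigma] at hte
    refine ⟨by (clear * -; positivity), ?_⟩
    have ht : t < K * FF n e := Finset.mem_range.1 hte.2
    have he := mem_VV.1 hte.1
    have h1 : ∏ i, p i ^ e i ≤ D ^ (2 * n) := by
      rw [hD, ← Finset.prod_pow]
      refine Finset.prod_le_prod' fun i _ => ?_
      exact Nat.pow_le_pow_right (hp i).pos (he i).le
    have h0 : FF n e ≤ n ^ (2 * r) := by
      unfold FF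
      calc ∏ i, tau n (e i) ^ 2 ≤ ∏ _i : Fin r, n ^ 2 :=
            Finset.prod_le_prod' fun i _ => Nat.pow_le_pow_left (tau_le n _) 2
        _ = n ^ (2 * r) := by
            rw [Finset.prod_const, Finset.card_univ, Fintype.card_fin, ← pow_mul]
    have ht' : t < T := by
      rw [hT]
      exact lt_of_lt_of_le ht (Nat.mul_le_mul_left _ h0)
    have h2 : 1 + D * t ≤ T * D := by
      calc 1 + D * t ≤ D + D * t := by omega
        _ = (t + 1) * D := by ring
        _ ≤ T * D := Nat.mul_le_mul_right _ ht'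
    have h3 : (1 + D * t) * ∏ i, p i ^ e i ≤ T * D ^ (2 * n + 1) := by
      calc (1 + D * t) * ∏ i, p i ^ e i ≤ (T * D) * D ^ (2 * n) := Nat.mul_le_mul h2 h1
        _ = T * D ^ (2 * n + 1) := by ring
    exact_mod_cast h3
  have hsub : (Fintype.piFinset (fun _ : Fin k => optB p D K n)).image
      (fun f : Fin k → ℤ => ∑ i, f i) ⊆
      Finset.Icc 0 (((k * (T * D ^ (2 * n + 1)) : ℕ) : ℤ)) := by
    intro z hz
    obtain ⟨f, hf, rfl⟩ := Finset.mem_image.1 hz
    rw [Fintype.mem_piFinset] at hf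
    rw [Finset.mem_Icc]
    refine ⟨Finset.sum_nonneg fun i _ => (hmem _ (hf i)).1, ?_⟩
    calc ∑ i, f i ≤ ∑ _i : Fin k, ((T * D ^ (2 * n + 1) : ℕ) : ℤ) :=
          Finset.sum_le_sum fun i _ => (hmem _ (hf i)).2
      _ = ((k * (T * D ^ (2 * n + 1)) : ℕ) : ℤ) := by
          rw [Finset.sum_const, Finset.card_univ, Fintype.card_fin, nsmul_eq_mul]
          push_cast
          ring
  refine (Finset.card_le_card hsub).trans (le_of_eq ?_)
  rw [Int.card_Icc]
  omega

end Pool.Agent.Helper15.GPR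
end

/- Helper24.DI.H15.GPR.Sharp3 -/
section
set_option autoImplicit false

/-!
# Project GL++ (MP_120218), Sharp3: the incidence bound is sharp
-/

namespace Pool.Agent.Helper15.GPR

open Finset Pool.Agent.Helper15.GPQ

theorem exp_le_sub (x : ℝ) (hx0 : 0 ≤ x) (hx : x ≤ 1 / 2) : Real.exp (-(2 * x)) ≤ 1 - x := by
  rw [Real.exp_neg, inv_le_iff_one_le_mul₀ (Real.exp_pos _)]
  have h1 := Real.add_one_le_exp (2 * x)
  have h2 : 1 ≤ (1 - x) * (2 * x + 1) := by (clear * - hx0 hx; nlinarith only [hx0, hx])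
  exact h2.trans (mul_le_mul_of_nonneg_left h1 (by linarith only [hx]))

/-- the bound for the overlap -/
theorem overlap_real (r n K N m ov : ℕ) (hn : 1 ≤ n) (hN : N = K * SS n ^ r)
    (hm : (SS n - n) ^ (2 * r) ≤ 2 * SS n ^ r * m) (hov : K * m ≤ ov) :
    Real.exp (-(6 * r / n ^ 2)) / 2 * N ≤ ov := by
  have hn1 : (1 : ℝ) ≤ n := by exact_mod_cast hn
  have hn0 : (0 : ℝ) < n := by (clear * - hn1; linarith only [hn1])
  have h3 : 3 * (SS n : ℝ) = n * (n + 1) * (2 * n + 1) := by exact_mod_cast three_SS n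
  obtain ⟨S, hS⟩ : ∃ S : ℝ, S = SS n := ⟨_, rfl⟩
  rw [← hS] at h3
  have hS2 : 2 * (n : ℝ) ≤ S := by
    have h4 : (n : ℝ) * 2 * 3 ≤ n * (n + 1) * (2 * n + 1) := by gcongr <;> linarith only [hn1]
    linarith only [h3, h4]
  have hS0 : 0 < S := by linarith only [hn0, hS2]
  have hnS : n ≤ SS n := by
    have : (n : ℝ) ≤ SS n := by
      rw [← hS]
      linarith only [hS2]
    exact_mod_cast this
  obtain ⟨x, hx⟩ : ∃ x : ℝ, x = n / S := ⟨_, rfl⟩
  have hx0 : 0 ≤ x := by rw [hx]; (clear * - hn hS0; positivity)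
  have hx1 : x ≤ 1 / 2 := by
    rw [hx, div_le_iff₀ hS0]
    linarith only [hS2]
  have hx2 : 4 * x ≤ 6 / n ^ 2 := by
    rw [hx, le_div_iff₀ (by positivity), mul_div_assoc', div_mul_eq_mul_div, div_le_iff₀ hS0]
    (clear * - h3; nlinarith only [h3])
  have h4 : Real.exp (-(6 * r / n ^ 2)) ≤ (1 - x) ^ (2 * r) := by
    have h5 := pow_le_pow_left₀ (Real.exp_pos _).le (exp_le_sub x hx0 hx1) (2 * r)
    rw [← Real.exp_nat_mul] at h5
    refine le_trans (Real.exp_le_exp.2 ?_) h5
    push_cast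
    have hr : (0 : ℝ) ≤ r := Nat.cast_nonneg r
    have h6 := mul_le_mul_of_nonneg_right hx2 hr
    have h7 : 6 / (n : ℝ) ^ 2 * r = 6 * r / n ^ 2 := by ring
    rw [h7] at h6
    (clear * - h6; linarith only [h6])
  have h5 : (S - n) ^ (2 * r) ≤ 2 * S ^ r * m := by
    have h6 : ((SS n - n : ℕ) : ℝ) = S - n := by
      rw [Nat.cast_sub hnS, hS]
    rw [← h6, hS]
    exact_mod_cast hm
  have h6 : S - n = S * (1 - x) := by
    rw [hx]
    (clear * - hS0; field_simp)
  rw [h6, mul_pow] at h5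
  have h7 : S ^ r * (S ^ r * (1 - x) ^ (2 * r)) ≤ S ^ r * (2 * m) := by
    calc S ^ r * (S ^ r * (1 - x) ^ (2 * r)) = S ^ (2 * r) * (1 - x) ^ (2 * r) := by ring
      _ ≤ 2 * S ^ r * m := h5
      _ = _ := by ring
  have h8 := le_of_mul_le_mul_left h7 (by positivity)
  have h9 : (K : ℝ) * m ≤ ov := by exact_mod_cast hov
  have hK : (0 : ℝ) ≤ K := Nat.cast_nonneg K
  have hNr : (N : ℝ) = K * S ^ r := by
    rw [hN, hS]
    push_cast
    rfl
  rw [hNr]
  calc Real.exp (-(6 * r / n ^ 2)) / 2 * (K * S ^ r) =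
      K * (S ^ r * Real.exp (-(6 * r / n ^ 2))) / 2 := by ring
    _ ≤ K * (S ^ r * (1 - x) ^ (2 * r)) / 2 := by (clear * - h4 hS0; gcongr)
    _ ≤ K * (2 * m) / 2 := by (clear * - h8; gcongr)
    _ = K * m := by ring
    _ ≤ ov := h9

/-- **The extremal family for the incidence bound.** -/
theorem sharp3 (η : ℝ) (hη : 0 < η) : ∃ c : ℝ, 0 < c ∧ ∀ r n : ℕ, 1 ≤ r → 1 ≤ n →
    ∃ (A : Finset ℤ) (p : Fin r → ℕ), (∀ i, (p i).Prime) ∧ Function.Injective p ∧
      (n : ℝ) * r * Real.log (r + 1) ≤ Real.log A.card ∧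
      c * Real.log A.card ≤ (n : ℝ) * r * Real.log (r + 1) ∧
      (∀ k : ℕ, (((Fintype.piFinset (fun _ : Fin k => A)).image
        (fun f : Fin k → ℤ => ∑ i, f i)).card : ℝ) ≤ ((k : ℝ) + 1) * (A.card : ℝ) ^ (1 + η)) ∧
      ∀ E : Finset (Fin r), Real.exp (-(6 * r / n ^ 2)) / 2 * A.card ≤
        ((A.filter (fun a : ℤ => ((∏ i ∈ E, p i : ℕ) : ℤ) * a ∈ A)).card : ℝ) := by
  classical
  refine ⟨1 / (24 / η + 8), by (clear * - hη; positivity), fun r n hr hn => ?_⟩
  obtain ⟨p, hpd⟩ : ∃ p : Fin r → ℕ, p = fun i : Fin r => Nat.nth Nat.Prime i := ⟨_, rfl⟩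
  have hp : ∀ i, (p i).Prime := by
    intro i
    rw [hpd]
    exact Nat.prime_nth_prime _
  have hinj : Function.Injective p := by
    intro i j h
    rw [hpd] at h
    exact Fin.ext (Nat.nth_injective Nat.infinite_setOfPred_prime h)
  have hple : ∀ i, p i ≤ 4 * (r + 1) ^ 2 := by
    intro i
    rw [hpd]
    exact nth_prime_le r i i.2
  obtain ⟨D, hD⟩ : ∃ D : ℕ, D = ∏ i, p i := ⟨_, rfl⟩
  have hDi : ∀ i, p i ∣ D := by
    intro i
    rw [hD]
    exact Finset.dvd_prod_of_mem _ (Finset.mem_univ i)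
  have hD0 : 0 < D := by
    rw [hD]
    exact Finset.prod_pos fun i _ => (hp i).pos
  have hDR : (1 : ℝ) ≤ D := by exact_mod_cast hD0
  have hr1 : (1 : ℝ) ≤ r := by exact_mod_cast hr
  have hn1 : (1 : ℝ) ≤ n := by exact_mod_cast hn
  have hn0 : (0 : ℝ) < n := by linarith only [hn1]
  have hlog2 : (1 / 2 : ℝ) ≤ Real.log 2 := by
    have := Real.log_two_gt_d9
    linarith only [this]
  have hlr : Real.log 2 ≤ Real.log (r + 1) :=
    Real.log_le_log (by norm_num) (by linarith only [hr1])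
  have hlr0 : 0 ≤ Real.log ((r : ℝ) + 1) := by linarith only [hlog2, hlr]
  obtain ⟨Z, hZ⟩ : ∃ Z : ℝ, Z = (n : ℝ) * r * Real.log (r + 1) := ⟨_, rfl⟩
  have hnr : 1 ≤ (n : ℝ) * r := by (clear * - hn1 hr1; nlinarith only [hr1, hn1])
  have hZ1 : Real.log 2 ≤ Z := by
    rw [hZ]
    (clear * - hlr hlr0 hnr; nlinarith only [hlr, hlr0, hnr])
  have hZ0 : 0 < Z := by linarith only [hlog2, hZ1]
  have hZnr : (n : ℝ) * r ≤ 2 * Z := by
    rw [hZ]
    have h1 := mul_le_mul_of_nonneg_left (hlog2.trans hlr) (show 0 ≤ (n : ℝ) * r by (clear * - hnr; linarith only [hnr]))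
    linarith only [h1]
  have hlD : Real.log D ≤ 4 * (r * Real.log (r + 1)) := by
    rw [hD, Nat.cast_prod, Real.log_prod (fun i _ => by
      have := (hp i).pos
      (clear * - this; positivity))]
    have h1 : ∀ i ∈ (univ : Finset (Fin r)), Real.log (p i) ≤ 4 * Real.log (r + 1) := by
      intro i _
      have h2 : (p i : ℝ) ≤ 4 * (r + 1) ^ 2 := by exact_mod_cast hple i
      have h3 : (0 : ℝ) < p i := by exact_mod_cast (hp i).pos
      have h4 := Real.log_le_log h3 h2
      rw [Real.log_mul (by norm_num) (by positivity), Real.log_pow] at h4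
      have h5 : Real.log 4 = 2 * Real.log 2 := by
        rw [show (4 : ℝ) = 2 ^ 2 by norm_num, Real.log_pow]
        norm_num
      rw [h5] at h4
      push_cast at h4
      (clear * - hlr h4; linarith only [hlr, h4])
    refine (Finset.sum_le_sum h1).trans ?_
    rw [Finset.sum_const, Finset.card_univ, Fintype.card_fin, nsmul_eq_mul]
    exact le_of_eq (by ring)
  have hlD0 : 0 ≤ Real.log D := Real.log_nonneg hDR
  have hlD2 : (2 * (n : ℝ) + 1) * Real.log D ≤ 12 * Z := by
    have h1 := mul_le_mul_of_nonneg_left hlD (show 0 ≤ 2 * (n : ℝ) + 1 by linarith only [])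
    have h2 : (2 * (n : ℝ) + 1) * (4 * (r * Real.log (r + 1))) ≤
        (3 * n) * (4 * (r * Real.log (r + 1))) := by
      refine mul_le_mul_of_nonneg_right (by linarith only [hn1]) ?_
      (clear * - hr hlr0; positivity)
    rw [hZ]
    linarith only [h1, h2]
  obtain ⟨W, hW⟩ : ∃ W : ℝ, W = (12 / η + 1) * Z := ⟨_, rfl⟩
  have hWZ : Z ≤ W := by
    rw [hW]
    have : 0 < 12 / η * Z := by (clear * - hη hZ0; positivity)
    linarith only [this]
  have hηW : 12 * Z ≤ η * W := by
    rw [hW]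
    have h1 : η * ((12 / η + 1) * Z) = 12 * Z + η * Z := by
      (clear * - hη hZ0; field_simp)
    rw [h1]
    have : 0 < η * Z := by (clear * - hη hZ0; positivity)
    linarith only [this]
  obtain ⟨K, hK⟩ : ∃ K : ℕ, K = ⌈Real.exp W⌉₊ := ⟨_, rfl⟩
  have hKe : Real.exp W ≤ K := by rw [hK]; exact Nat.le_ceil _
  have hK0 : (0 : ℝ) < K := lt_of_lt_of_le (Real.exp_pos W) hKe
  have hKlog : W ≤ Real.log K := by
    rw [Real.le_log_iff_exp_le hK0]
    exact hKe
  have hK1 : (1 : ℝ) ≤ K := by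
    have : 1 ≤ K := by
      have : 0 < K := by exact_mod_cast hK0
      omega
    exact_mod_cast this
  have hKup : Real.log K ≤ 2 * W := by
    have h1 : (K : ℝ) ≤ 2 * Real.exp W := by
      have h2 : (K : ℝ) < Real.exp W + 1 := by
        rw [hK]
        exact Nat.ceil_lt_add_one (Real.exp_pos W).le
      have h3 : 1 ≤ Real.exp W := Real.one_le_exp (by linarith only [hZ0, hWZ])
      linarith only [h2, h3]
    have h2 := Real.log_le_log hK0 h1
    rw [Real.log_mul (by norm_num) (Real.exp_pos W).ne', Real.log_exp] at h2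
    linarith only [hZ1, hWZ, h2]
  -- the size of `SS`
  have h3 : 3 * (SS n : ℝ) = n * (n + 1) * (2 * n + 1) := by exact_mod_cast three_SS n
  have hSlow : (n : ℝ) ^ 2 ≤ SS n := by (clear * - h3; nlinarith only [h3])
  have hS1 : (1 : ℝ) ≤ SS n := le_trans (by nlinarith only [hn1]) hSlow
  have hSup : (SS n : ℝ) ≤ 2 * n ^ 3 := by
    have h4 : (n : ℝ) * (n + 1) * (2 * n + 1) ≤ n * (2 * n) * (3 * n) := by gcongr <;> (clear * - hn1; linarith only [hn1])
    have h5 : (n : ℝ) * (2 * n) * (3 * n) = 6 * n ^ 3 := by ring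
    linarith only [h3, h4]
  have hSlog : Real.log (SS n) ≤ 3 * n := by
    have h4 := Real.log_le_log (by linarith only [hS1]) hSup
    rw [Real.log_mul (by norm_num) (by positivity), Real.log_pow] at h4
    have h5 : Real.log n ≤ n - 1 := Real.log_le_sub_one_of_pos hn0
    have h6 := Real.log_two_lt_d9
    push_cast at h4
    (clear * - h4 h5 h6; linarith only [h4, h5, h6])
  have hA : (optB p D K n).card = K * SS n ^ r := card_optB p hp hinj D K n hDi hD0
  have hAR : ((optB p D K n).card : ℝ) = K * (SS n : ℝ) ^ r := by rw [hA]; push_cast; ring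
  have hSr : (1 : ℝ) ≤ (SS n : ℝ) ^ r := one_le_pow₀ hS1
  have hAK : (K : ℝ) ≤ (optB p D K n).card := by
    rw [hAR]
    exact le_mul_of_one_le_right hK0.le hSr
  have hA1 : (1 : ℝ) ≤ (optB p D K n).card := hK1.trans hAK
  have hlogA : Real.log (optB p D K n).card ≤ (24 / η + 8) * Z := by
    rw [hAR, Real.log_mul (by linarith only [hK1]) (by (clear * - hS1; positivity)), Real.log_pow]
    have h1 : (r : ℝ) * Real.log (SS n) ≤ r * (3 * n) :=
      mul_le_mul_of_nonneg_left hSlog (by linarith only [])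
    have h2 : 2 * W = (24 / η + 2) * Z := by rw [hW]; ring
    linarith only [hZnr, hKup, h1, h2]
  refine ⟨optB p D K n, p, hp, hinj, ?_, ?_, ?_, ?_⟩
  · rw [← hZ]
    exact hWZ.trans (hKlog.trans (Real.log_le_log hK0 hAK))
  · rw [← hZ, one_div, inv_mul_le_iff₀ (by positivity)]
    exact hlogA
  · intro k
    have h1 := sum_optB p hp D K n hD hD0 k
    have h2 : (((Fintype.piFinset (fun _ : Fin k => optB p D K n)).image
        (fun f : Fin k → ℤ => ∑ i, f i)).card : ℝ) ≤
          k * (K * (n : ℝ) ^ (2 * r) * (D : ℝ) ^ (2 * n + 1)) + 1 := by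
      exact_mod_cast h1
    refine h2.trans ?_
    have h4 : (K : ℝ) * (n : ℝ) ^ (2 * r) * (D : ℝ) ^ (2 * n + 1) ≤
        ((optB p D K n).card : ℝ) ^ (1 + η) := by
      have h5 : (D : ℝ) ^ (2 * n + 1) ≤ (K : ℝ) ^ η := by
        rw [← Real.log_le_log_iff (by positivity) (by (clear * - hK0; positivity)), Real.log_pow,
          Real.log_rpow hK0]
        push_cast
        have h6 := mul_le_mul_of_nonneg_left hKlog hη.le
        linarith only [hlD2, hηW, h6]
      have h6 : (K : ℝ) * (n : ℝ) ^ (2 * r) ≤ (optB p D K n).card := by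
        rw [hAR, pow_mul]
        (clear * - hn hSlow hK0; gcongr)
      calc (K : ℝ) * (n : ℝ) ^ (2 * r) * (D : ℝ) ^ (2 * n + 1) ≤
            (optB p D K n).card * (K : ℝ) ^ η := mul_le_mul h6 h5 (by positivity) (by (clear * - hA1; positivity))
        _ ≤ (optB p D K n).card * ((optB p D K n).card : ℝ) ^ η := by (clear * - hK0 hAK hη hA1; gcongr)
        _ = ((optB p D K n).card : ℝ) ^ (1 + η) := by
            rw [Real.rpow_add (by linarith only [hA1]), Real.rpow_one]
    have hk : (0 : ℝ) ≤ k := Nat.cast_nonneg k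
    have h5 : (1 : ℝ) ≤ ((optB p D K n).card : ℝ) ^ (1 + η) :=
      Real.one_le_rpow hA1 (by linarith only [hη])
    calc (k : ℝ) * (K * (n : ℝ) ^ (2 * r) * (D : ℝ) ^ (2 * n + 1)) + 1 ≤
          k * ((optB p D K n).card : ℝ) ^ (1 + η) + ((optB p D K n).card : ℝ) ^ (1 + η) :=
            add_le_add (mul_le_mul_of_nonneg_left h4 hk) h5
      _ = _ := by ring
  · intro E
    exact overlap_real r n K _ _ _ hn hA (sum_min n hn E) (overlap p hp hinj D K n hDi hD0 E)

end Pool.Agent.Helper15.GPR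
end
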