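import Mathlib
import Pool.Agent.Helper24.DG.G02

/- Helper24.DI.H15.BP.Ent -/
section
/-!
# Entropy of functions on a finite weighted space

`pr w f a` is the mass of `{f = a}`, `Ent w f` the Shannon entropy (natural logarithm) of the
function `f` on the finite probability space `(Ω, w)`.  No finiteness of the target is needed.
-/

set_option autoImplicit false

namespace Pool.Agent.Helper15.BP

open Finset

variable {Ω Ω' α β γ δ : Type*} [Fintype Ω] [Fintype Ω']

/-- probability weights -/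
structure IsPr (w : Ω → ℝ) : Prop where
  nonneg : ∀ o, 0 ≤ w o
  sum_one : ∑ o, w o = 1

/-- the mass of the event `f = a` -/
noncomputable def pr (w : Ω → ℝ) (f : Ω → α) (a : α) : ℝ := by
  classical exact ∑ o, if f o = a then w o else 0

/-- Shannon entropy of `f` -/
noncomputable def Ent (w : Ω → ℝ) (f : Ω → α) : ℝ := ∑ o, w o * (-Real.log (pr w f (f o)))

/-- product weights -/
def prodW (w : Ω → ℝ) (w' : Ω' → ℝ) : Ω × Ω' → ℝ := fun p => w p.1 * w' p.2

theorem pr_nonneg {w : Ω → ℝ} (hw : IsPr w) (f : Ω → α) (a : α) : 0 ≤ pr w f a := by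
  classical
  unfold pr
  exact Finset.sum_nonneg fun o _ => by split_ifs <;> simp [hw.nonneg]

theorem le_pr {w : Ω → ℝ} (hw : IsPr w) (f : Ω → α) (o : Ω) : w o ≤ pr w f (f o) := by
  classical
  unfold pr
  have h := Finset.single_le_sum (f := fun x => if f x = f o then w x else 0)
    (fun x _ => by split_ifs <;> simp [hw.nonneg]) (Finset.mem_univ o)
  simpa using h

theorem pr_le_one {w : Ω → ℝ} (hw : IsPr w) (f : Ω → α) (a : α) : pr w f a ≤ 1 := by
  classical
  unfold pr
  rw [← hw.sum_one]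
  exact Finset.sum_le_sum fun o _ => by split_ifs <;> simp [hw.nonneg]

theorem pr_pos {w : Ω → ℝ} (hw : IsPr w) (f : Ω → α) {o : Ω} (ho : 0 < w o) :
    0 < pr w f (f o) := lt_of_lt_of_le ho (le_pr hw f o)

/-- functions inducing the same partition have the same fibre masses -/
theorem pr_congr {w : Ω → ℝ} {f : Ω → α} {g : Ω → β} (h : ∀ o o', f o = f o' ↔ g o = g o')
    (o : Ω) : pr w f (f o) = pr w g (g o) := by
  classical
  unfold pr
  refine Finset.sum_congr rfl fun x _ => ?_
  by_cases hx : f x = f o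
  · rw [if_pos hx, if_pos ((h x o).1 hx)]
  · rw [if_neg hx, if_neg fun h' => hx ((h x o).2 h')]

theorem Ent_congr {w : Ω → ℝ} {f : Ω → α} {g : Ω → β} (h : ∀ o o', f o = f o' ↔ g o = g o') :
    Ent w f = Ent w g := by
  unfold Ent
  exact Finset.sum_congr rfl fun o _ => by rw [pr_congr h o]

theorem pr_mono {w : Ω → ℝ} (hw : IsPr w) {f : Ω → α} {g : Ω → β}
    (h : ∀ o o', g o = g o' → f o = f o') (o : Ω) : pr w g (g o) ≤ pr w f (f o) := by
  classical
  unfold pr
  refine Finset.sum_le_sum fun x _ => ?_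
  by_cases hx : g x = g o
  · rw [if_pos hx, if_pos (h x o hx)]
  · rw [if_neg hx]
    split_ifs <;> simp [hw.nonneg]

/-- coarser functions have smaller entropy -/
theorem Ent_mono {w : Ω → ℝ} (hw : IsPr w) {f : Ω → α} {g : Ω → β}
    (h : ∀ o o', g o = g o' → f o = f o') : Ent w f ≤ Ent w g := by
  unfold Ent
  refine Finset.sum_le_sum fun o _ => ?_
  rcases (hw.nonneg o).eq_or_lt with h0 | h0
  · rw [← h0]; simp
  · refine mul_le_mul_of_nonneg_left ?_ (hw.nonneg o)
    have h1 := pr_pos hw g h0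
    exact neg_le_neg (Real.log_le_log h1 (pr_mono hw h o))

theorem Ent_nonneg {w : Ω → ℝ} (hw : IsPr w) (f : Ω → α) : 0 ≤ Ent w f := by
  unfold Ent
  refine Finset.sum_nonneg fun o _ => ?_
  exact mul_nonneg (hw.nonneg o) (neg_nonneg.2 (Real.log_nonpos (pr_nonneg hw f _) (pr_le_one hw f _)))

/-! ### Submodularity -/

/-- `∑ o, w o * F (f o)` as a sum over the image -/
theorem sum_w_comp [DecidableEq α] (w : Ω → ℝ) (f : Ω → α) (F : α → ℝ) :
    ∑ o, w o * F (f o) = ∑ a ∈ Finset.univ.image f, pr w f a * F a := by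
  have h1 : ∀ a ∈ Finset.univ.image f, pr w f a * F a =
      ∑ o, if f o = a then w o * F (f o) else 0 := by
    intro a _
    unfold pr
    rw [Finset.sum_mul]
    refine Finset.sum_congr rfl fun o _ => ?_
    by_cases h : f o = a
    · simp [h]
    · simp [h]
  rw [Finset.sum_congr rfl h1, Finset.sum_comm]
  refine Finset.sum_congr rfl fun o _ => ?_
  rw [Finset.sum_ite_eq]
  simp

theorem pr_zero_or {w : Ω → ℝ} (f : Ω → α) (a : α) (h : ∀ o, f o ≠ a) : pr w f a = 0 := by
  classical
  unfold pr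
  exact Finset.sum_eq_zero fun o _ => by rw [if_neg (h o)]

/-- masses of a pair, summed over the second coordinate -/
theorem sum_pr_pair [DecidableEq β] (w : Ω → ℝ) (f : Ω → α) (g : Ω → β) (a : α) :
    ∑ b ∈ Finset.univ.image g, pr w (fun o => (f o, g o)) (a, b) = pr w f a := by
  unfold pr
  rw [Finset.sum_comm]
  refine Finset.sum_congr rfl fun o _ => ?_
  by_cases h : f o = a
  · rw [Finset.sum_eq_single (g o)]
    · simp [h]
    · intro b _ hb
      rw [if_neg]
      intro h'
      exact hb (congrArg Prod.snd h').symm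
    · intro h'
      exact absurd (Finset.mem_image_of_mem g (Finset.mem_univ o)) h'
  · rw [if_neg h]
    refine Finset.sum_eq_zero fun b _ => ?_
    rw [if_neg]
    intro h'
    exact h (congrArg Prod.fst h')

/-- **Submodularity**: `H(A,B,C) + H(C) ≤ H(A,C) + H(B,C)`. -/
theorem Ent_submod {w : Ω → ℝ} (hw : IsPr w) (A : Ω → α) (B : Ω → β) (C : Ω → γ) :
    Ent w (fun o => (A o, B o, C o)) + Ent w C ≤
      Ent w (fun o => (A o, C o)) + Ent w (fun o => (B o, C o)) := by
  classical
  set pABC := fun o => pr w (fun o => (A o, B o, C o)) (A o, B o, C o) with hABC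
  set pC := fun o => pr w C (C o) with hC
  set pAC := fun o => pr w (fun o => (A o, C o)) (A o, C o) with hAC
  set pBC := fun o => pr w (fun o => (B o, C o)) (B o, C o) with hBC
  -- the key sum
  have key : ∑ o, w o * (pAC o * pBC o / (pABC o * pC o)) ≤ 1 := by
    have h1 : ∀ o, w o * (pAC o * pBC o / (pABC o * pC o)) =
        w o * (fun t : α × β × γ => pr w (fun o => (A o, C o)) (t.1, t.2.2) *
          pr w (fun o => (B o, C o)) (t.2.1, t.2.2) /
          (pr w (fun o => (A o, B o, C o)) t * pr w C t.2.2)) (A o, B o, C o) := by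
      intro o; rfl
    rw [Finset.sum_congr rfl fun o _ => h1 o,
      sum_w_comp w (fun o => (A o, B o, C o)) (fun t : α × β × γ =>
        pr w (fun o => (A o, C o)) (t.1, t.2.2) * pr w (fun o => (B o, C o)) (t.2.1, t.2.2) /
          (pr w (fun o => (A o, B o, C o)) t * pr w C t.2.2))]
    -- termwise bound
    have h2 : ∀ t ∈ Finset.univ.image (fun o => (A o, B o, C o)),
        pr w (fun o => (A o, B o, C o)) t *
          (pr w (fun o => (A o, C o)) (t.1, t.2.2) * pr w (fun o => (B o, C o)) (t.2.1, t.2.2) /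
          (pr w (fun o => (A o, B o, C o)) t * pr w C t.2.2)) ≤
        pr w (fun o => (A o, C o)) (t.1, t.2.2) * pr w (fun o => (B o, C o)) (t.2.1, t.2.2) /
          pr w C t.2.2 := by
      intro t _
      have hn1 := pr_nonneg hw (fun o => (A o, C o)) (t.1, t.2.2)
      have hn2 := pr_nonneg hw (fun o => (B o, C o)) (t.2.1, t.2.2)
      have hn3 := pr_nonneg hw C t.2.2
      rcases (pr_nonneg hw (fun o => (A o, B o, C o)) t).eq_or_lt with h0 | h0
      · rw [← h0]
        simp only [zero_mul]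
        (clear * - hn1 hn2 hn3; positivity)
      · rw [← mul_div_assoc, mul_div_mul_left _ _ h0.ne']
    refine (Finset.sum_le_sum h2).trans ?_
    -- enlarge the index set to the product of the images
    have h3 : Finset.univ.image (fun o => (A o, B o, C o)) ⊆
        (Finset.univ.image A) ×ˢ ((Finset.univ.image B) ×ˢ (Finset.univ.image C)) := by
      intro t ht
      rw [Finset.mem_image] at ht
      obtain ⟨o, -, rfl⟩ := ht
      simp only [Finset.mem_product, Finset.mem_image, Finset.mem_univ, true_and]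
      exact ⟨⟨o, rfl⟩, ⟨o, rfl⟩, ⟨o, rfl⟩⟩
    refine (Finset.sum_le_sum_of_subset_of_nonneg h3 fun t _ _ => ?_).trans ?_
    · have hn1 := pr_nonneg hw (fun o => (A o, C o)) (t.1, t.2.2)
      have hn2 := pr_nonneg hw (fun o => (B o, C o)) (t.2.1, t.2.2)
      have hn3 := pr_nonneg hw C t.2.2
      (clear * - hn1 hn2 hn3; positivity)
    rw [Finset.sum_product]
    simp only
    have h4 : ∀ a, ∑ bc ∈ (Finset.univ.image B) ×ˢ (Finset.univ.image C),
        pr w (fun o => (A o, C o)) (a, bc.2) * pr w (fun o => (B o, C o)) (bc.1, bc.2) /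
          pr w C bc.2 =
        ∑ c ∈ Finset.univ.image C, pr w (fun o => (A o, C o)) (a, c) *
          (∑ b ∈ Finset.univ.image B, pr w (fun o => (B o, C o)) (b, c)) / pr w C c := by
      intro a
      rw [Finset.sum_product_right]
      refine Finset.sum_congr rfl fun c _ => ?_
      rw [Finset.mul_sum, Finset.sum_div]
    have h5 : ∀ c, ∑ b ∈ Finset.univ.image B, pr w (fun o => (B o, C o)) (b, c) = pr w C c := by
      intro c
      have := sum_pr_pair w C B c
      rw [← this]
      refine Finset.sum_congr rfl fun b _ => ?_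
      unfold pr
      exact Finset.sum_congr rfl fun o _ => by simp [and_comm]
    have h5' : ∀ c, ∑ a ∈ Finset.univ.image A, pr w (fun o => (A o, C o)) (a, c) = pr w C c := by
      intro c
      have := sum_pr_pair w C A c
      rw [← this]
      refine Finset.sum_congr rfl fun b _ => ?_
      unfold pr
      exact Finset.sum_congr rfl fun o _ => by simp [and_comm]
    rw [Finset.sum_congr rfl fun a _ => h4 a, Finset.sum_comm]
    have h6 : ∀ c ∈ Finset.univ.image C, ∑ a ∈ Finset.univ.image A,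
        pr w (fun o => (A o, C o)) (a, c) *
          (∑ b ∈ Finset.univ.image B, pr w (fun o => (B o, C o)) (b, c)) / pr w C c ≤
        pr w C c := by
      intro c _
      rw [h5 c, ← Finset.sum_div, ← Finset.sum_mul, h5' c]
      rcases (pr_nonneg hw C c).eq_or_lt with h0 | h0
      · rw [← h0]; simp
      · rw [mul_div_assoc, div_self h0.ne', mul_one]
    refine (Finset.sum_le_sum h6).trans ?_
    have h7 := sum_w_comp w C (fun _ => 1)
    simp only [mul_one] at h7
    rw [← h7, hw.sum_one]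
  -- conclude
  have h8 : Ent w (fun o => (A o, B o, C o)) + Ent w C - Ent w (fun o => (A o, C o)) -
      Ent w (fun o => (B o, C o)) = ∑ o, w o * (-Real.log (pABC o) + -Real.log (pC o) -
        -Real.log (pAC o) - -Real.log (pBC o)) := by
    unfold Ent
    rw [← Finset.sum_add_distrib, ← Finset.sum_sub_distrib, ← Finset.sum_sub_distrib]
    refine Finset.sum_congr rfl fun o _ => ?_
    ring
  have h9 : ∑ o, w o * (-Real.log (pABC o) + -Real.log (pC o) -
        -Real.log (pAC o) - -Real.log (pBC o)) ≤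
      ∑ o, (w o * (pAC o * pBC o / (pABC o * pC o)) - w o) := by
    refine Finset.sum_le_sum fun o _ => ?_
    rcases (hw.nonneg o).eq_or_lt with h0 | h0
    · rw [← h0]; simp
    · have q1 : 0 < pABC o := pr_pos hw (fun o => (A o, B o, C o)) h0
      have q2 : 0 < pC o := pr_pos hw C h0
      have q3 : 0 < pAC o := pr_pos hw (fun o => (A o, C o)) h0
      have q4 : 0 < pBC o := pr_pos hw (fun o => (B o, C o)) h0
      have h10 := Real.log_le_sub_one_of_pos (show 0 < pAC o * pBC o / (pABC o * pC o) by (clear * - q3 q4 q1 q2; positivity))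
      rw [Real.log_div (by (clear * - q3 q4; positivity)) (by (clear * - q1 q2; positivity)), Real.log_mul q3.ne' q4.ne',
        Real.log_mul q1.ne' q2.ne'] at h10
      have h11 := mul_le_mul_of_nonneg_left h10 h0.le
      linarith only [h11]
  rw [Finset.sum_sub_distrib, hw.sum_one] at h9
  linarith only [key, h8, h9]

/-- entropy grows by at most `log N` when each fibre of `C` carries at most `N` values of `A` -/
theorem Ent_le_add_log {w : Ω → ℝ} (hw : IsPr w) (A : Ω → α) (C : Ω → γ) (N : ℕ)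
    (hN : ∀ o, {a : α | ∃ o', C o' = C o ∧ A o' = a}.ncard ≤ N) :
    Ent w (fun o => (A o, C o)) ≤ Ent w C + Real.log N := by
  classical
  have hΩ : Nonempty Ω := by
    by_contra h
    rw [not_nonempty_iff] at h
    have := hw.sum_one
    simp at this
  have hN1 : 1 ≤ N := by
    obtain ⟨o⟩ := hΩ
    refine le_trans ?_ (hN o)
    rw [Nat.one_le_iff_ne_zero, Ne, Set.ncard_eq_zero (Set.Finite.subset (Set.finite_range A)
      (by rintro a ⟨o', -, rfl⟩; exact ⟨o', rfl⟩))]
    intro h
    have : A o ∈ ({a : α | ∃ o', C o' = C o ∧ A o' = a} : Set α) := ⟨o, rfl, rfl⟩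
    rw [h] at this
    exact this
  have hNr : (0 : ℝ) < N := by exact_mod_cast hN1
  set pC := fun o => pr w C (C o) with hC
  set pAC := fun o => pr w (fun o => (A o, C o)) (A o, C o) with hAC
  have key : ∑ o, w o * (pC o / pAC o) ≤ N := by
    have h1 : ∀ o, w o * (pC o / pAC o) =
        w o * (fun t : α × γ => pr w C t.2 / pr w (fun o => (A o, C o)) t) (A o, C o) := by
      intro o; rfl
    rw [Finset.sum_congr rfl fun o _ => h1 o,
      sum_w_comp w (fun o => (A o, C o)) (fun t : α × γ =>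
        pr w C t.2 / pr w (fun o => (A o, C o)) t)]
    have h2 : ∀ t ∈ Finset.univ.image (fun o => (A o, C o)),
        pr w (fun o => (A o, C o)) t * (pr w C t.2 / pr w (fun o => (A o, C o)) t) ≤
        pr w C t.2 := by
      intro t _
      have hn3 := pr_nonneg hw C t.2
      rcases (pr_nonneg hw (fun o => (A o, C o)) t).eq_or_lt with h0 | h0
      · rw [← h0, zero_mul]; exact hn3
      · rw [mul_div_cancel₀ _ h0.ne']
    refine (Finset.sum_le_sum h2).trans ?_
    -- group by the second coordinate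
    have h3 : ∑ t ∈ Finset.univ.image (fun o => (A o, C o)), pr w C t.2 =
        ∑ c ∈ Finset.univ.image C, ∑ t ∈ (Finset.univ.image (fun o => (A o, C o))).filter
          (fun t => t.2 = c), pr w C t.2 := by
      refine (Finset.sum_fiberwise_of_maps_to (g := Prod.snd) (fun t ht => ?_) _).symm
      rw [Finset.mem_image] at ht
      obtain ⟨o, -, rfl⟩ := ht
      exact Finset.mem_image_of_mem C (Finset.mem_univ o)
    rw [h3]
    have h4 : ∀ c ∈ Finset.univ.image C,
        ∑ t ∈ (Finset.univ.image (fun o => (A o, C o))).filter (fun t => t.2 = c), pr w C t.2 ≤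
          N * pr w C c := by
      intro c hc
      rw [Finset.mem_image] at hc
      obtain ⟨o, -, rfl⟩ := hc
      have h5 : ∀ t ∈ (Finset.univ.image (fun o => (A o, C o))).filter (fun t => t.2 = C o),
          pr w C t.2 = pr w C (C o) := by
        intro t ht
        rw [(Finset.mem_filter.1 ht).2]
      rw [Finset.sum_congr rfl h5, Finset.sum_const, nsmul_eq_mul]
      refine mul_le_mul_of_nonneg_right ?_ (pr_nonneg hw C _)
      have h6 : ((Finset.univ.image (fun o => (A o, C o))).filter (fun t => t.2 = C o)).card ≤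
          {a : α | ∃ o', C o' = C o ∧ A o' = a}.ncard := by
        have hfin : ({a : α | ∃ o', C o' = C o ∧ A o' = a} : Set α).Finite :=
          Set.Finite.subset (Set.finite_range A) (by rintro a ⟨o', -, rfl⟩; exact ⟨o', rfl⟩)
        rw [Set.ncard_eq_toFinset_card _ hfin]
        refine Finset.card_le_card_of_injOn Prod.fst ?_ ?_
        · intro t ht
          rw [Finset.mem_coe, Finset.mem_filter, Finset.mem_image] at ht
          obtain ⟨⟨o', -, rfl⟩, h7⟩ := ht
          rw [Finset.mem_coe, Set.Finite.mem_toFinset]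
          exact ⟨o', h7, rfl⟩
        · intro t ht t' ht' htt
          rw [Finset.mem_coe, Finset.mem_filter] at ht ht'
          exact Prod.ext htt (ht.2.trans ht'.2.symm)
      exact_mod_cast h6.trans (hN o)
    refine (Finset.sum_le_sum h4).trans ?_
    rw [← Finset.mul_sum]
    have h7 := sum_w_comp w C (fun _ => 1)
    simp only [mul_one] at h7
    rw [← h7, hw.sum_one, mul_one]
  have h8 : Ent w (fun o => (A o, C o)) - Ent w C =
      ∑ o, w o * (-Real.log (pAC o) - -Real.log (pC o)) := by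
    unfold Ent
    rw [← Finset.sum_sub_distrib]
    refine Finset.sum_congr rfl fun o _ => ?_
    ring
  have h9 : ∑ o, w o * (-Real.log (pAC o) - -Real.log (pC o)) ≤
      ∑ o, (w o * Real.log N + w o * (pC o / pAC o) / N - w o) := by
    refine Finset.sum_le_sum fun o _ => ?_
    rcases (hw.nonneg o).eq_or_lt with h0 | h0
    · rw [← h0]; simp
    · have q2 : 0 < pC o := pr_pos hw C h0
      have q3 : 0 < pAC o := pr_pos hw (fun o => (A o, C o)) h0
      have h10 := Real.log_le_sub_one_of_pos (show 0 < pC o / pAC o / N by (clear * - q2 q3 hN1; positivity))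
      rw [Real.log_div (by (clear * - q2 q3; positivity)) (by positivity), Real.log_div q2.ne' q3.ne'] at h10
      have h11 := mul_le_mul_of_nonneg_left h10 h0.le
      have h12 : w o * (pC o / pAC o / N - 1) = w o * (pC o / pAC o) / N - w o := by ring
      rw [h12] at h11
      linarith only [h11]
  rw [Finset.sum_sub_distrib, Finset.sum_add_distrib, ← Finset.sum_mul, hw.sum_one, one_mul,
    ← Finset.sum_div] at h9
  have h13 : (∑ o, w o * (pC o / pAC o)) / N ≤ 1 := by
    rw [div_le_one hNr]; exact key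
  linarith only [h8, h9, h13]

/-! ### Products -/

theorem IsPr.prod {w : Ω → ℝ} {w' : Ω' → ℝ} (hw : IsPr w) (hw' : IsPr w') :
    IsPr (prodW w w') := by
  refine ⟨fun p => mul_nonneg (hw.nonneg _) (hw'.nonneg _), ?_⟩
  unfold prodW
  rw [Fintype.sum_prod_type]
  simp only
  have : ∀ x, ∑ y, w x * w' y = w x := by
    intro x
    rw [← Finset.mul_sum, hw'.sum_one, mul_one]
  rw [Finset.sum_congr rfl fun x _ => this x, hw.sum_one]

theorem pr_prod (w : Ω → ℝ) (w' : Ω' → ℝ) (f : Ω → α) (g : Ω' → β) (a : α) (b : β) :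
    pr (prodW w w') (fun p => (f p.1, g p.2)) (a, b) = pr w f a * pr w' g b := by
  unfold pr prodW
  rw [Fintype.sum_prod_type, Finset.sum_mul_sum]
  refine Finset.sum_congr rfl fun x _ => Finset.sum_congr rfl fun y _ => ?_
  by_cases h1 : f x = a <;> by_cases h2 : g y = b <;> simp [h1, h2]

theorem pr_fst {w : Ω → ℝ} {w' : Ω' → ℝ} (hw' : IsPr w') (f : Ω → α) (a : α) :
    pr (prodW w w') (fun p => f p.1) a = pr w f a := by
  unfold pr prodW
  rw [Fintype.sum_prod_type]
  refine Finset.sum_congr rfl fun x _ => ?_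
  by_cases h1 : f x = a
  · simp only [h1, if_true]
    rw [← Finset.mul_sum, hw'.sum_one, mul_one]
  · simp [h1]

theorem pr_snd {w : Ω → ℝ} {w' : Ω' → ℝ} (hw : IsPr w) (g : Ω' → β) (b : β) :
    pr (prodW w w') (fun p => g p.2) b = pr w' g b := by
  unfold pr prodW
  rw [Fintype.sum_prod_type_right]
  refine Finset.sum_congr rfl fun y _ => ?_
  by_cases h1 : g y = b
  · simp only [h1, if_true]
    rw [← Finset.sum_mul, hw.sum_one, one_mul]
  · simp [h1]

theorem sum_prodW_fst {w : Ω → ℝ} {w' : Ω' → ℝ} (hw' : IsPr w') (F : Ω → ℝ) :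
    ∑ p, prodW w w' p * F p.1 = ∑ o, w o * F o := by
  unfold prodW
  rw [Fintype.sum_prod_type]
  refine Finset.sum_congr rfl fun x _ => ?_
  simp only
  have : ∀ y, w x * w' y * F x = w x * F x * w' y := fun y => by ring
  rw [Finset.sum_congr rfl fun y _ => this y, ← Finset.mul_sum, hw'.sum_one, mul_one]

theorem sum_prodW_snd {w : Ω → ℝ} {w' : Ω' → ℝ} (hw : IsPr w) (F : Ω' → ℝ) :
    ∑ p, prodW w w' p * F p.2 = ∑ o, w' o * F o := by
  unfold prodW
  rw [Fintype.sum_prod_type_right]
  refine Finset.sum_congr rfl fun x _ => ?_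
  simp only
  have : ∀ y, w y * w' x * F x = w y * (w' x * F x) := fun y => by ring
  rw [Finset.sum_congr rfl fun y _ => this y, ← Finset.sum_mul, hw.sum_one, one_mul]

/-- entropy of an independent pair -/
theorem Ent_prod {w : Ω → ℝ} {w' : Ω' → ℝ} (hw : IsPr w) (hw' : IsPr w') (f : Ω → α)
    (g : Ω' → β) :
    Ent (prodW w w') (fun p => (f p.1, g p.2)) = Ent w f + Ent w' g := by
  unfold Ent
  rw [← sum_prodW_fst (w' := w') hw' (fun o => -Real.log (pr w f (f o))),
    ← sum_prodW_snd (w := w) hw (fun o => -Real.log (pr w' g (g o))), ← Finset.sum_add_distrib]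
  refine Finset.sum_congr rfl fun p _ => ?_
  rw [pr_prod, ← mul_add]
  rcases ((hw.prod hw').nonneg p).eq_or_lt with h0 | h0
  · rw [← h0, zero_mul, zero_mul]
  · have h1 : 0 < w p.1 := by
      rcases (hw.nonneg p.1).eq_or_lt with h | h
      · unfold prodW at h0; rw [← h, zero_mul] at h0; exact absurd h0 (lt_irrefl _)
      · exact h
    have h2 : 0 < w' p.2 := by
      rcases (hw'.nonneg p.2).eq_or_lt with h | h
      · unfold prodW at h0; rw [← h, mul_zero] at h0; exact absurd h0 (lt_irrefl _)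
      · exact h
    rw [Real.log_mul (pr_pos hw f h1).ne' (pr_pos hw' g h2).ne']
    ring

theorem Ent_fst {w : Ω → ℝ} {w' : Ω' → ℝ} (hw' : IsPr w') (f : Ω → α) :
    Ent (prodW w w') (fun p => f p.1) = Ent w f := by
  unfold Ent
  rw [← sum_prodW_fst (w' := w') hw' (fun o => -Real.log (pr w f (f o)))]
  exact Finset.sum_congr rfl fun p _ => by rw [pr_fst hw']

theorem Ent_snd {w : Ω → ℝ} {w' : Ω' → ℝ} (hw : IsPr w) (g : Ω' → β) :
    Ent (prodW w w') (fun p => g p.2) = Ent w' g := by
  unfold Ent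
  rw [← sum_prodW_snd (w := w) hw (fun o => -Real.log (pr w' g (g o)))]
  exact Finset.sum_congr rfl fun p _ => by rw [pr_snd hw]

/-- constants have entropy zero -/
theorem Ent_const {w : Ω → ℝ} (hw : IsPr w) (a : α) : Ent w (fun _ => a) = 0 := by
  unfold Ent pr
  simp [hw.sum_one]

/-- transport along an equivalence of the underlying space -/
theorem Ent_equiv {w : Ω → ℝ} {w' : Ω' → ℝ} (e : Ω ≃ Ω') (hww : ∀ o, w' (e o) = w o)
    (f : Ω' → α) : Ent w (fun o => f (e o)) = Ent w' f := by
  unfold Ent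
  have hpr : ∀ a, pr w (fun o => f (e o)) a = pr w' f a := by
    intro a
    unfold pr
    refine Fintype.sum_equiv e _ _ fun o => ?_
    rw [hww]
  refine Fintype.sum_equiv e _ _ fun o => ?_
  rw [hww, hpr]

end Pool.Agent.Helper15.BP
end

/- Helper24.DI.H84.TR.Defs -/
section
/-!
# Project TR (MP_120218_co): definitions

Entropies of functions on finite weighted spaces are taken from `Helper15.BP.Ent`
(`IsPr`, `pr`, `Ent`, `prodW`).
-/

set_option autoImplicit false

open Finset

namespace Pool.Agent.Helper84.TR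

open Pool.Agent.Helper15.BP

variable {Ω Ω' α β γ δ : Type*} [Fintype Ω] [Fintype Ω']

/-- conditional entropy `H(f | g)` -/
noncomputable def CE (w : Ω → ℝ) (f : Ω → α) (g : Ω → β) : ℝ :=
  Ent w (fun o => (f o, g o)) - Ent w g

/-- the mass of an event -/
noncomputable def mass (w : Ω → ℝ) (p : Ω → Prop) : ℝ := by
  classical exact ∑ o, if p o then w o else 0

/-- the weights `w` conditioned on `A = a` -/
noncomputable def cw (w : Ω → ℝ) (A : Ω → α) (a : α) : Ω → ℝ := by
  classical exact fun o => if A o = a then w o / pr w A a else 0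

/-- the label `⌊(x + t) / U⌋` of the integer `x` with dither `t` -/
def lb (U t : ℕ) (x : ℤ) : ℤ := (x + t) / (U : ℤ)

/-- entropy of the label of `X` given `A`, averaged over the dither -/
noncomputable def HL (w : Ω → ℝ) (U : ℕ) (X : Ω → ℤ) (A : Ω → α) : ℝ :=
  (∑ t ∈ range U, CE w (fun o => lb U t (X o)) A) / U

/-- `x log ((x + y) / x) + y log ((x + y) / y)` -/
noncomputable def phi (x y : ℝ) : ℝ :=
  x * Real.log ((x + y) / x) + y * Real.log ((x + y) / y)

/-- the labels of the columns below `p` -/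
def labs {n : ℕ} (U : ℕ → ℕ) (θ : (q : Fin n) → Fin (U q)) (p : ℕ) (X : Ω → Fin n → ℤ)
    (o : Ω) : Fin n → ℤ :=
  fun q => if (q : ℕ) < p then lb (U q) (θ q) (X o q) else 0

/-- average over all dithers -/
noncomputable def avg {n : ℕ} (U : ℕ → ℕ) (F : ((q : Fin n) → Fin (U q)) → ℝ) : ℝ :=
  (∑ θ, F θ) / ∏ q : Fin n, (U q : ℝ)

/-- the resolutions for prices `c` -/
noncomputable def UresC (K : ℕ) (τ L Γ : ℝ) (c : ℕ → ℝ) (lam : ℕ → ℕ) (q : ℕ) : ℕ :=
  if lam q = 0 then 1 else K * lam q + ⌈τ * Γ / (L * c q)⌉₊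

/-- the resolutions -/
noncomputable def Ures (K : ℕ) (τ L Γ : ℝ) (lam : ℕ → ℕ) (q : ℕ) : ℕ :=
  if lam q = 0 then 1 else K * lam q + ⌈τ * Γ / (L * Real.log q)⌉₊

/-- the weight of the exponents `lam` -/
noncomputable def W (n : ℕ) (lam : ℕ → ℕ) : ℝ :=
  ∑ q ∈ (range n).filter Nat.Prime, (lam q : ℝ) * Real.log q

/-- the distance `∑ |v_q(b) - v_q(b')| log q` of two nonzero integers -/
noncomputable def dst (b b' : ℤ) : ℝ :=
  Real.log |(b : ℝ)| + Real.log |(b' : ℝ)| - 2 * Real.log (Int.gcd b b' : ℝ)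

/-- closeness of the valuations at every prime -/
def Close (U : ℕ → ℕ) (b b' : ℤ) : Prop :=
  ∀ q : ℕ, q.Prime → |((padicValInt q b : ℤ) - padicValInt q b')| < (U q : ℤ)

end Pool.Agent.Helper84.TR
end

/- Helper24.DI.H84.TR.Num -/
section
/-!
# TR-6: numerical inequalities
-/

set_option autoImplicit false

namespace Pool.Agent.Helper84.TR

private theorem num_eq {x y : ℝ} (hx : 0 ≤ x) (hy : 0 ≤ y) :
    phi x y = (x + y) * Real.log (x + y) - x * Real.log x - y * Real.log y := by
  unfold phi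
  rcases hx.eq_or_lt with rfl | hx
  · rcases hy.eq_or_lt with rfl | hy
    · simp
    · rw [zero_add, div_self hy.ne']
      simp
  · rcases hy.eq_or_lt with rfl | hy
    · rw [add_zero, div_self hx.ne']
      simp
    · rw [Real.log_div (by (clear * - hx hy; positivity)) hx.ne', Real.log_div (by (clear * - hx hy; positivity)) hy.ne']
      ring

private theorem num_comm {x y : ℝ} : phi x y = phi y x := by
  unfold phi
  rw [add_comm x y, add_comm (x * _)]

private theorem num_zero_left (y : ℝ) : phi 0 y = 0 := by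
  unfold phi
  rw [zero_mul, zero_add, zero_add]
  rcases eq_or_ne y 0 with rfl | h
  · simp
  · rw [div_self h, Real.log_one, mul_zero]

/-- increments of a convex function -/
private theorem num_incr {x y d : ℝ} (hx : 0 ≤ x) (hy : 0 ≤ y) (hd : 0 ≤ d) :
    (x + y) * Real.log (x + y) + (x + d) * Real.log (x + d) ≤
      x * Real.log x + (x + y + d) * Real.log (x + y + d) := by
  rcases hy.eq_or_lt with rfl | hy
  · rw [add_zero]
  have hc := Real.convexOn_mul_log.2 (x := x) (y := x + y + d) (Set.mem_Ici.2 hx)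
    (Set.mem_Ici.2 (by linarith only [hx, hd, hy]))
  have h1 := hc (a := d / (y + d)) (b := y / (y + d)) (by (clear * - hd hy; positivity)) (by positivity)
    (by field_simp; ring)
  have h2 := hc (a := y / (y + d)) (b := d / (y + d)) (by positivity) (by positivity)
    (by field_simp)
  simp only [smul_eq_mul] at h1 h2
  rw [show d / (y + d) * x + y / (y + d) * (x + y + d) = x + y by field_simp; ring] at h1
  rw [show y / (y + d) * x + d / (y + d) * (x + y + d) = x + d by field_simp; ring] at h2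
  have h3 : d / (y + d) + y / (y + d) = 1 := by field_simp; ring
  have h4 : d / (y + d) * (x * Real.log x) + y / (y + d) * (x * Real.log x) = x * Real.log x := by
    rw [← add_mul, h3, one_mul]
  have h5 : d / (y + d) * ((x + y + d) * Real.log (x + y + d)) +
      y / (y + d) * ((x + y + d) * Real.log (x + y + d)) =
      (x + y + d) * Real.log (x + y + d) := by
    rw [← add_mul, h3, one_mul]
  linarith only [h1, h2, h4, h5]

private theorem num_mono_left {x x' y : ℝ} (hx : 0 ≤ x) (hx' : x ≤ x') (hy : 0 ≤ y) :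
    phi x y ≤ phi x' y := by
  have h := num_incr (x := x) (y := y) (d := x' - x) hx hy (by (clear * - hx'; linarith only [hx']))
  rw [show x + (x' - x) = x' by ring, show x + y + (x' - x) = x' + y by ring] at h
  rw [num_eq hx hy, num_eq (hx.trans hx') hy]
  (clear * - h; linarith only [h])

private theorem num_smul {c x y : ℝ} (hc : 0 < c) : phi (c * x) (c * y) = c * phi x y := by
  unfold phi
  rw [← mul_add, mul_div_mul_left _ _ hc.ne', mul_div_mul_left _ _ hc.ne']
  ring

theorem phi_mono {x x' y y' : ℝ} (hx : 0 ≤ x) (hx' : x ≤ x') (hy : 0 ≤ y) (hy' : y ≤ y') :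
    phi x y ≤ phi x' y' := by
  refine (num_mono_left hx hx' hy).trans ?_
  rw [num_comm (x := x') (y := y), num_comm (x := x') (y := y')]
  exact num_mono_left hy hy' (hx.trans hx')

theorem phi_add_le {x y y' : ℝ} (hx : 0 ≤ x) (hy : 0 ≤ y) (hy' : 0 ≤ y') :
    phi x (y + y') ≤ phi x y + phi x y' := by
  rcases hy.eq_or_lt with rfl | hy
  · rw [zero_add, num_comm (x := x) (y := 0), num_zero_left, zero_add]
  rcases hy'.eq_or_lt with rfl | hy'
  · rw [add_zero, num_comm (x := x) (y := 0), num_zero_left, add_zero]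
  have key : ∀ z : ℝ, 0 < z → z ≤ y + y' → z * phi (x / (y + y')) 1 ≤ phi x z := by
    intro z hz hz'
    have h1 : phi x z = z * phi (x / z) 1 := by
      rw [← num_smul hz, mul_one, mul_div_cancel₀ x hz.ne']
    rw [h1]
    apply mul_le_mul_of_nonneg_left _ hz.le
    apply num_mono_left (by (clear * - hx hy hy'; positivity)) _ zero_le_one
    exact div_le_div_of_nonneg_left hx hz hz'
  have h2 := key y hy (by linarith only [hy'])
  have h3 := key y' hy' (by (clear * - hy; linarith only [hy]))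
  have h4 : phi x (y + y') = (y + y') * phi (x / (y + y')) 1 := by
    rw [← num_smul (by positivity), mul_one, mul_div_cancel₀ x (by positivity)]
  rw [h4]
  linarith only [h2, h3]

private theorem num_log_le {t : ℝ} (ht : 0 ≤ t) : Real.log (1 + t) ≤ 2 * Real.sqrt t := by
  have h1 : Real.log (1 + t) = 2 * Real.log (Real.sqrt (1 + t)) := by
    rw [Real.log_sqrt (by (clear * - ht; linarith))]
    ring
  have h2 : Real.log (Real.sqrt (1 + t)) ≤ Real.sqrt (1 + t) - 1 :=
    Real.log_le_sub_one_of_pos (Real.sqrt_pos.2 (by linarith only [ht]))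
  have h3 : Real.sqrt (1 + t) ≤ 1 + Real.sqrt t := by
    rw [Real.sqrt_le_left (by positivity)]
    linarith only [Real.sqrt_nonneg t, Real.sq_sqrt ht]
  rw [h1]
  (clear * - h2 h3; linarith only [h2, h3])

/-- `b log (1 / b)` is at most the entropy -/
private theorem num_ent {b : ℝ} (hb : 0 ≤ b) (hb1 : b ≤ 1 / 2) :
    b * Real.log b⁻¹ ≤ Real.binEntropy b := by
  unfold Real.binEntropy
  have h1 : 0 ≤ Real.log (1 - b)⁻¹ := by
    apply Real.log_nonneg
    apply (one_le_inv₀ (by linarith)).2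
    linarith only [hb]
  have h2 : 0 ≤ (1 - b) * Real.log (1 - b)⁻¹ := mul_nonneg (by (clear * - hb1; linarith only [hb1])) h1
  linarith

private theorem num_half {a : ℝ} (ha : 0 ≤ a) (ha1 : a ≤ 1 / 2) : a ≤ 2 * Real.binEntropy a := by
  rcases ha.eq_or_lt with rfl | ha
  · simp
  have h1 := num_ent ha.le ha1
  have h2 : (1 : ℝ) / 2 ≤ Real.log a⁻¹ := by
    have h3 : Real.log 2 ≤ Real.log a⁻¹ := by
      apply Real.log_le_log (by norm_num)
      rw [le_inv_comm₀ (by norm_num) ha]
      (clear * - ha1; linarith)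
    have := Real.log_two_gt_d9
    (clear * - h3 this; linarith only [h3, this])
  (clear * - h1 ha h2; nlinarith only [ha, h1, h2])

/-- the inequality behind the test `X + Z ≥ v + 2 m - 1` for `Z ≥ u` -/
theorem phi_num (η : ℝ) (hη : 0 < η) : ∃ σ : ℝ, 0 < σ ∧ σ ≤ 1 / 2 ∧
    (∀ b : ℝ, 0 ≤ b → b ≤ σ → b ≤ η * Real.binEntropy b) ∧
    ∀ b b' am ap : ℝ, 0 ≤ b → b ≤ σ → b ≤ b' → b' ≤ 1 → 0 ≤ am → am ≤ 1 / 2 → 0 ≤ ap → ap ≤ 1 / 2 →
      phi (b * am) 1 + phi b (b' + ap) ≤
        η * (Real.binEntropy am + Real.binEntropy ap + Real.binEntropy b) + 5 * b' := by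
  set e : ℝ := min (η / 10) 1 with he
  have he0 : 0 < e := by
    rw [he]
    (clear * - hη; positivity)
  have he1 : e ≤ 1 := min_le_right _ _
  have he2 : e ≤ η / 10 := min_le_left _ _
  set M : ℝ := 1 / η + (Real.log (1 + 1 / e ^ 2) + 1) / η with hM
  have hlog0 : 0 ≤ Real.log (1 + 1 / e ^ 2) := by
    apply Real.log_nonneg
    have : 0 ≤ 1 / e ^ 2 := by (clear * - hη; positivity)
    linarith only [this]
  set σ : ℝ := min (1 / 2) (min (η / 2) (min (η ^ 2 / 64) (Real.exp (-M)))) with hσ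
  have s0 : 0 < σ := by
    rw [hσ]
    have := Real.exp_pos (-M)
    positivity
  have s1 : σ ≤ 1 / 2 := min_le_left _ _
  have s2 : σ ≤ η / 2 := (min_le_right _ _).trans (min_le_left _ _)
  have s3 : σ ≤ η ^ 2 / 64 :=
    (min_le_right _ _).trans ((min_le_right _ _).trans (min_le_left _ _))
  have s4 : σ ≤ Real.exp (-M) :=
    (min_le_right _ _).trans ((min_le_right _ _).trans (min_le_right _ _))
  -- the logarithm is large
  have hL : ∀ b : ℝ, 0 < b → b ≤ σ → M ≤ Real.log b⁻¹ := by
    intro b hb hbσ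
    rw [Real.log_inv]
    have : Real.log b ≤ -M := by
      rw [Real.log_le_iff_le_exp hb]
      exact hbσ.trans s4
    linarith only [this]
  have hM1 : 1 / η ≤ M := by
    have : 0 ≤ (Real.log (1 + 1 / e ^ 2) + 1) / η := by (clear * - hlog0 hη; positivity)
    rw [hM]
    (clear * - this; linarith only [this])
  have hM2 : (Real.log (1 + 1 / e ^ 2) + 1) / η ≤ M := by
    have : 0 ≤ 1 / η := by (clear * - hη; positivity)
    rw [hM]
    (clear * - this; linarith only [this])
  have big : ∀ b : ℝ, 0 ≤ b → b ≤ σ → ∀ T : ℝ, T / η ≤ M → b * T ≤ η * Real.binEntropy b := by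
    intro b hb hbσ T hT
    rcases hb.eq_or_lt with rfl | hb
    · simp
    have h1 := num_ent hb.le (hbσ.trans s1)
    have h2 : T / η ≤ Real.log b⁻¹ := hT.trans (hL b hb hbσ)
    rw [div_le_iff₀ hη] at h2
    calc b * T ≤ b * (Real.log b⁻¹ * η) := mul_le_mul_of_nonneg_left h2 hb.le
      _ = η * (b * Real.log b⁻¹) := by ring
      _ ≤ η * Real.binEntropy b := mul_le_mul_of_nonneg_left h1 hη.le
  refine ⟨σ, s0, s1, fun b hb hbσ => ?_, ?_⟩
  · have := big b hb hbσ 1 hM1
    linarith only [this]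
  intro b b' am ap hb hbσ hbb' hb' ham ham1 hap hap1
  have eam : 0 ≤ Real.binEntropy am := Real.binEntropy_nonneg ham (by linarith only [ham1])
  have eap : 0 ≤ Real.binEntropy ap := Real.binEntropy_nonneg hap (by linarith only [hap1])
  have eb : 0 ≤ Real.binEntropy b := Real.binEntropy_nonneg hb (by linarith only [hbb', hb'])
  rcases hb.eq_or_lt with rfl | hb
  · rw [zero_mul, num_zero_left, num_zero_left]
    have h1 : 0 ≤ η * (Real.binEntropy am + Real.binEntropy ap + Real.binEntropy 0) := by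
      (clear * - hη eam eap eb; positivity)
    (clear * - hbb' h1; linarith only [hbb', h1])
  -- first term
  have f1 : phi (b * am) 1 ≤ η * Real.binEntropy am + b' := by
    rcases ham.eq_or_lt with rfl | ham
    · rw [mul_zero, num_zero_left]
      simp only [Real.binEntropy_zero]
      linarith only [hbb', hb]
    have hu : 0 < b * am := by (clear * - hb ham; positivity)
    have g1 : phi (b * am) 1 = (b * am + 1) * Real.log (b * am + 1) +
        b * (am * Real.log am⁻¹) + am * (b * Real.log b⁻¹) := by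
      rw [num_eq hu.le zero_le_one, Real.log_mul hb.ne' ham.ne', Real.log_inv, Real.log_inv,
        Real.log_one]
      ring
    have g2 : (b * am + 1) * Real.log (b * am + 1) ≤ b := by
      have h1 : Real.log (b * am + 1) ≤ b * am := by
        have := Real.log_le_sub_one_of_pos (show 0 < b * am + 1 by linarith only [hu])
        linarith only [this]
      have h2 : (b * am + 1) * Real.log (b * am + 1) ≤ (b * am + 1) * (b * am) :=
        mul_le_mul_of_nonneg_left h1 (by linarith only [hu])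
      have h3 : b * am ≤ b * (1 / 2) := mul_le_mul_of_nonneg_left ham1 hb.le
      have h4 : b * am ≤ 1 := by linarith only [hbb', hb', h3]
      (clear * - h2 h3 hu h4; nlinarith only [hu, h2, h3, h4])
    have g3 : b * (am * Real.log am⁻¹) ≤ η / 2 * Real.binEntropy am := by
      have h1 := num_ent ham.le ham1
      have h2 : 0 ≤ am * Real.log am⁻¹ := by
        apply mul_nonneg ham.le
        apply Real.log_nonneg
        apply (one_le_inv₀ ham).2
        linarith only [ham1]
      calc b * (am * Real.log am⁻¹) ≤ (η / 2) * (am * Real.log am⁻¹) :=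
            mul_le_mul_of_nonneg_right (hbσ.trans s2) h2
        _ ≤ η / 2 * Real.binEntropy am := mul_le_mul_of_nonneg_left h1 (by positivity)
    have g4 : b * Real.log b⁻¹ ≤ η / 4 := by
      have h1 : Real.log b⁻¹ ≤ 2 * (Real.sqrt b)⁻¹ := by
        have h2 : Real.log b⁻¹ = 2 * Real.log (Real.sqrt b)⁻¹ := by
          rw [Real.log_inv, Real.log_inv, Real.log_sqrt hb.le]
          ring
        have h3 := Real.log_le_sub_one_of_pos (inv_pos.2 (Real.sqrt_pos.2 hb))
        rw [h2]
        (clear * - h3; linarith only [h3])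
      have h4 : b * Real.log b⁻¹ ≤ 2 * Real.sqrt b := by
        calc b * Real.log b⁻¹ ≤ b * (2 * (Real.sqrt b)⁻¹) := mul_le_mul_of_nonneg_left h1 hb.le
          _ = 2 * (b * (Real.sqrt b)⁻¹) := by ring
          _ = 2 * Real.sqrt b := by
            have h5 := Real.mul_self_sqrt hb.le
            have h6 : Real.sqrt b ≠ 0 := (Real.sqrt_pos.2 hb).ne'
            congr 1
            rw [← div_eq_mul_inv, div_eq_iff h6]
            exact h5.symm
      have h7 : Real.sqrt b ≤ η / 8 := by
        rw [Real.sqrt_le_left (by positivity)]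
        have := hbσ.trans s3
        linarith only [this]
      linarith only [h4, h7]
    have g5 : am * (b * Real.log b⁻¹) ≤ η / 2 * Real.binEntropy am := by
      have h1 := num_half ham.le ham1
      calc am * (b * Real.log b⁻¹) ≤ am * (η / 4) := mul_le_mul_of_nonneg_left g4 ham.le
        _ ≤ (2 * Real.binEntropy am) * (η / 4) := mul_le_mul_of_nonneg_right h1 (by positivity)
        _ = η / 2 * Real.binEntropy am := by ring
    rw [g1]
    linarith only [hbb', g2, g3, g5]
  -- second term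
  have f2 : phi b b' ≤ 2 * b' := by
    have h1 := num_mono_left hb.le hbb' (hb.le.trans hbb')
    have hb'0 : 0 < b' := hb.trans_le hbb'
    have h2 : phi b' b' = 2 * b' * Real.log 2 := by
      unfold phi
      rw [show (b' + b') / b' = 2 by field_simp; norm_num]
      ring
    have h3 := Real.log_two_lt_d9
    rw [h2] at h1
    (clear * - h1 hb'0 h3; nlinarith only [h1, hb'0, h3])
  have f3 : phi b ap ≤ η * Real.binEntropy ap + η * Real.binEntropy b := by
    rcases hap.eq_or_lt with rfl | hap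
    · rw [num_comm, num_zero_left]
      (clear * - hη eap eb; positivity)
    have h1 : phi b ap ≤ b * Real.log (1 + ap / b) + b := by
      unfold phi
      rw [show (b + ap) / b = 1 + ap / b by (clear * - hb hap; field_simp), show (b + ap) / ap = 1 + b / ap by
        field_simp; ring]
      have h2 := Real.log_le_sub_one_of_pos (show 0 < 1 + b / ap by (clear * - hb hap; positivity))
      have h3 : ap * Real.log (1 + b / ap) ≤ ap * (b / ap) :=
        mul_le_mul_of_nonneg_left (by (clear * - h2; linarith only [h2])) hap.le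
      rw [mul_div_cancel₀ b hap.ne'] at h3
      linarith only [h3]
    rcases le_or_gt b (e ^ 2 * ap) with hc | hc
    · have h4 : b * Real.log (1 + ap / b) ≤ 2 * e * ap := by
        have h5 := num_log_le (t := ap / b) (by (clear * - hap hb; positivity))
        have h6 : b * Real.sqrt (ap / b) ≤ e * ap := by
          have h7 : b * Real.sqrt (ap / b) = Real.sqrt (b * ap) := by
            rw [show b * ap = b ^ 2 * (ap / b) by (clear * - hap hb; field_simp), Real.sqrt_mul (by positivity),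
              Real.sqrt_sq hb.le]
          rw [h7, Real.sqrt_le_left (by positivity)]
          (clear * - hap hc; nlinarith only [hap, hc])
        calc b * Real.log (1 + ap / b) ≤ b * (2 * Real.sqrt (ap / b)) :=
              mul_le_mul_of_nonneg_left h5 hb.le
          _ = 2 * (b * Real.sqrt (ap / b)) := by ring
          _ ≤ 2 * (e * ap) := by linarith only [h6]
          _ = 2 * e * ap := by ring
      have h8 : b ≤ e * ap := by
        refine hc.trans ?_
        have : e ^ 2 ≤ e := by nlinarith only [he0, he1]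
        exact mul_le_mul_of_nonneg_right this hap.le
      have h10 := num_half hap.le hap1
      have h11 : 3 * e * ap ≤ η * Real.binEntropy ap := by
        calc 3 * e * ap ≤ 3 * (η / 10) * ap :=
              mul_le_mul_of_nonneg_right (by linarith only [he2]) hap.le
          _ ≤ 3 * (η / 10) * (2 * Real.binEntropy ap) :=
              mul_le_mul_of_nonneg_left h10 (by positivity)
          _ ≤ η * Real.binEntropy ap := by
            have : 0 ≤ η * Real.binEntropy ap := by (clear * - hη eap; positivity)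
            linarith only [this]
      have h12 : 0 ≤ η * Real.binEntropy b := by (clear * - hη eb; positivity)
      linarith only [h1, h4, h8, h11, h12]
    · have h4 : ap / b ≤ 1 / e ^ 2 := by
        rw [div_le_div_iff₀ hb (by positivity)]
        linarith only [hc]
      have h5 : Real.log (1 + ap / b) ≤ Real.log (1 + 1 / e ^ 2) := by
        apply Real.log_le_log (by (clear * - hap hb; positivity))
        linarith only [h4]
      have h6 := big b hb.le hbσ _ hM2
      have h7 : b * Real.log (1 + ap / b) ≤ b * Real.log (1 + 1 / e ^ 2) :=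
        mul_le_mul_of_nonneg_left h5 hb.le
      have h8 : 0 ≤ η * Real.binEntropy ap := by (clear * - hη eap; positivity)
      linarith only [h1, h6, h7, h8]
  have f4 := phi_add_le hb.le (hb.le.trans hbb') hap
  linarith only [hbb', hb, f1, f2, f3, f4]

end Pool.Agent.Helper84.TR
end

/- Helper24.DI.H84.TR.CE -/
section
/-!
# TR-1: conditional entropy, basic facts
-/

set_option autoImplicit false

open Finset

namespace Pool.Agent.Helper84.TR

open Pool.Agent.Helper15.BP

variable {Ω Ω' α β γ δ α' β' : Type*} [Fintype Ω] [Fintype Ω']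

theorem CE_eq_sum (w : Ω → ℝ) (f : Ω → α) (g : Ω → β) :
    CE w f g = ∑ o, w o * (Real.log (pr w g (g o)) -
      Real.log (pr w (fun o => (f o, g o)) (f o, g o))) := by
  unfold CE Ent
  rw [← Finset.sum_sub_distrib]
  refine Finset.sum_congr rfl fun o _ => ?_
  ring

theorem CE_congr {w : Ω → ℝ} {f : Ω → α} {f' : Ω → α'} {g : Ω → β} {g' : Ω → β'}
    (hg : ∀ o o', g o = g o' ↔ g' o = g' o')
    (hf : ∀ o o', g o = g o' → (f o = f o' ↔ f' o = f' o')) : CE w f g = CE w f' g' := by
  unfold CE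
  rw [Ent_congr (f := g) (g := g') hg,
    Ent_congr (f := fun o => (f o, g o)) (g := fun o => (f' o, g' o)) ?_]
  intro o o'
  simp only [Prod.mk.injEq]
  constructor
  · rintro ⟨h1, h2⟩
    exact ⟨(hf o o' h2).1 h1, (hg o o').1 h2⟩
  · rintro ⟨h1, h2⟩
    exact ⟨(hf o o' ((hg o o').2 h2)).2 h1, (hg o o').2 h2⟩

theorem CE_nonneg {w : Ω → ℝ} (hw : IsPr w) (f : Ω → α) (g : Ω → β) : 0 ≤ CE w f g := by
  unfold CE
  rw [sub_nonneg]
  exact Ent_mono hw fun o o' h => (Prod.mk.injEq _ _ _ _ ▸ h).2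

/-- chain rule -/
theorem CE_chain (w : Ω → ℝ) (f : Ω → α) (f' : Ω → α') (g : Ω → β) :
    CE w (fun o => (f o, f' o)) g = CE w f' g + CE w f (fun o => (f' o, g o)) := by
  unfold CE
  rw [Ent_congr (f := fun o => ((f o, f' o), g o)) (g := fun o => (f o, (f' o, g o))) ?_]
  · ring
  · intro o o'
    simp only [Prod.mk.injEq, and_assoc]

/-- conditioning on more -/
theorem CE_anti {w : Ω → ℝ} (hw : IsPr w) (f : Ω → α) {g : Ω → β} {g' : Ω → β'}
    (h : ∀ o o', g o = g o' → g' o = g' o') : CE w f g ≤ CE w f g' := by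
  have h1 := Ent_submod hw f g g'
  have h2 : Ent w (fun o => (f o, g o, g' o)) = Ent w (fun o => (f o, g o)) :=
    Ent_congr fun o o' => by
      simp only [Prod.mk.injEq]
      exact ⟨fun hh => ⟨hh.1, hh.2.1⟩, fun hh => ⟨hh.1, hh.2, h o o' hh.2⟩⟩
  have h3 : Ent w (fun o => (g o, g' o)) = Ent w g :=
    Ent_congr fun o o' => by
      simp only [Prod.mk.injEq]
      exact ⟨fun hh => hh.1, fun hh => ⟨hh, h o o' hh⟩⟩
  unfold CE
  (clear * - h1 h2 h3; linarith only [h1, h2, h3])

/-- coarser functions -/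
theorem CE_mono {w : Ω → ℝ} (hw : IsPr w) {f : Ω → α} {f' : Ω → α'} {g : Ω → β}
    (h : ∀ o o', g o = g o' → f o = f o' → f' o = f' o') : CE w f' g ≤ CE w f g := by
  unfold CE
  have h1 : Ent w (fun o => (f' o, g o)) ≤ Ent w (fun o => (f o, g o)) :=
    Ent_mono hw fun o o' hh => by
      simp only [Prod.mk.injEq] at hh ⊢
      exact ⟨h o o' hh.2 hh.1, hh.2⟩
  (clear * - h1; linarith only [h1])

theorem CE_le_Ent {w : Ω → ℝ} (hw : IsPr w) (f : Ω → α) (g : Ω → β) : CE w f g ≤ Ent w f := by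
  have h1 := CE_anti hw f (g := g) (g' := fun _ => ()) fun _ _ _ => rfl
  have h2 : CE w f (fun _ => ()) = Ent w f := by
    unfold CE
    rw [Ent_const hw, sub_zero]
    exact Ent_congr fun o o' => by simp
  rw [h2] at h1
  exact h1

theorem CE_pair_le {w : Ω → ℝ} (hw : IsPr w) (f : Ω → α) (f' : Ω → α') (g : Ω → β) :
    CE w (fun o => (f o, f' o)) g ≤ CE w f g + CE w f' g := by
  rw [CE_chain]
  have h1 := CE_anti hw f (g := fun o => (f' o, g o)) (g' := g) fun o o' hh =>
    (Prod.mk.injEq _ _ _ _ ▸ hh).2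
  linarith

/-- information on the other factor of a product does not help -/
theorem CE_prod_fst {w : Ω → ℝ} {w' : Ω' → ℝ} (hw : IsPr w) (hw' : IsPr w') (f : Ω → α)
    (g : Ω → β) (g' : Ω' → γ) :
    CE (prodW w w') (fun p => f p.1) (fun p => (g p.1, g' p.2)) = CE w f g := by
  unfold CE
  rw [Ent_prod hw hw' g g',
    Ent_congr (f := fun p : Ω × Ω' => (f p.1, (g p.1, g' p.2)))
      (g := fun p : Ω × Ω' => ((f p.1, g p.1), g' p.2)) ?_,
    Ent_prod hw hw' (fun o => (f o, g o)) g']
  · ring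
  · intro o o'
    simp only [Prod.mk.injEq, and_assoc]

theorem CE_prod_snd {w : Ω → ℝ} {w' : Ω' → ℝ} (hw : IsPr w) (hw' : IsPr w') (f : Ω' → α)
    (g : Ω → β) (g' : Ω' → γ) :
    CE (prodW w w') (fun p => f p.2) (fun p => (g p.1, g' p.2)) = CE w' f g' := by
  unfold CE
  rw [Ent_prod hw hw' g g',
    Ent_congr (f := fun p : Ω × Ω' => (f p.2, (g p.1, g' p.2)))
      (g := fun p : Ω × Ω' => (g p.1, (f p.2, g' p.2))) ?_,
    Ent_prod hw hw' g (fun o => (f o, g' o))]
  · ring
  · intro o o'
    simp only [Prod.mk.injEq]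
    tauto

/-- at most `N` values on every fibre -/
theorem CE_le_log {w : Ω → ℝ} (hw : IsPr w) (f : Ω → α) (g : Ω → β) (N : ℕ)
    (hN : ∀ o, {a : α | ∃ o', g o' = g o ∧ f o' = a}.ncard ≤ N) :
    CE w f g ≤ Real.log N := by
  unfold CE
  have h1 := Ent_le_add_log hw f g N hN
  linarith

end Pool.Agent.Helper84.TR
end

/- Helper24.DI.H84.TR.Mass -/
section
/-!
# TR-4: masses of events, entropy of an event, medians
-/

set_option autoImplicit false

open Finset

namespace Pool.Agent.Helper84.TR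

open Pool.Agent.Helper15.BP

variable {Ω Ω' α β γ δ : Type*} [Fintype Ω] [Fintype Ω']

theorem mass_nonneg {w : Ω → ℝ} (hw : IsPr w) (p : Ω → Prop) : 0 ≤ mass w p := by
  unfold mass
  exact sum_nonneg fun o _ => by split_ifs <;> simp [hw.nonneg]

theorem mass_mono {w : Ω → ℝ} (hw : IsPr w) {p p' : Ω → Prop} (h : ∀ o, p o → p' o) :
    mass w p ≤ mass w p' := by
  unfold mass
  apply sum_le_sum
  intro o _
  by_cases hp : p o
  · rw [if_pos hp, if_pos (h o hp)]
  · rw [if_neg hp]
    split_ifs <;> simp [hw.nonneg]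

theorem mass_le_one {w : Ω → ℝ} (hw : IsPr w) (p : Ω → Prop) : mass w p ≤ 1 := by
  unfold mass
  rw [← hw.sum_one]
  exact sum_le_sum fun o _ => by split_ifs <;> simp [hw.nonneg]

theorem mass_or_le {w : Ω → ℝ} (hw : IsPr w) (p p' : Ω → Prop) :
    mass w (fun o => p o ∨ p' o) ≤ mass w p + mass w p' := by
  unfold mass
  rw [← sum_add_distrib]
  apply sum_le_sum
  intro o _
  have := hw.nonneg o
  by_cases hp : p o <;> by_cases hp' : p' o <;> simp [hp, hp', this]

theorem mass_not {w : Ω → ℝ} (hw : IsPr w) (p : Ω → Prop) :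
    mass w (fun o => ¬ p o) = 1 - mass w p := by
  unfold mass
  rw [eq_sub_iff_add_eq, ← hw.sum_one, ← sum_add_distrib]
  apply sum_congr rfl
  intro o _
  by_cases hp : p o <;> simp [hp]

theorem mass_prod {w : Ω → ℝ} {w' : Ω' → ℝ} (p : Ω → Prop) (p' : Ω' → Prop) :
    mass (prodW w w') (fun o => p o.1 ∧ p' o.2) = mass w p * mass w' p' := by
  unfold mass prodW
  rw [Fintype.sum_prod_type, sum_mul_sum]
  apply sum_congr rfl
  intro o _
  apply sum_congr rfl
  intro o' _
  by_cases hp : p o <;> by_cases hp' : p' o' <;> simp [hp, hp']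

theorem mass_true {w : Ω → ℝ} (hw : IsPr w) : mass w (fun _ => True) = 1 := by
  unfold mass
  rw [← hw.sum_one]
  apply sum_congr rfl
  intro o _
  simp

theorem mass_fst {w : Ω → ℝ} {w' : Ω' → ℝ} (hw' : IsPr w') (p : Ω → Prop) :
    mass (prodW w w') (fun o => p o.1) = mass w p := by
  have h := mass_prod (w := w) (w' := w') p (fun _ => True)
  rw [mass_true hw', mul_one] at h
  rw [← h]
  congr 1
  ext o
  simp

theorem mass_snd {w : Ω → ℝ} {w' : Ω' → ℝ} (hw : IsPr w) (p : Ω' → Prop) :
    mass (prodW w w') (fun o => p o.2) = mass w' p := by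
  have h := mass_prod (w := w) (w' := w') (fun _ => True) p
  rw [mass_true hw, one_mul] at h
  rw [← h]
  congr 1
  ext o
  simp

/-- entropy of an event -/
theorem Ent_event {w : Ω → ℝ} (hw : IsPr w) (J : Ω → Prop) :
    Ent w J = Real.binEntropy (mass w J) := by
  classical
  have h1 : ∀ o, J o → pr w J (J o) = mass w J := by
    intro o ho
    unfold pr mass
    apply sum_congr rfl
    intro x _
    by_cases hx : J x
    · rw [if_pos (by rw [eq_true hx, eq_true ho]), if_pos hx]
    · rw [if_neg (by rw [eq_false hx, eq_true ho]; simp), if_neg hx]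
  have h2 : ∀ o, ¬ J o → pr w J (J o) = 1 - mass w J := by
    intro o ho
    rw [← mass_not hw]
    unfold pr mass
    apply sum_congr rfl
    intro x _
    by_cases hx : J x
    · rw [if_neg (by rw [eq_true hx, eq_false ho]; simp), if_neg (by simpa using hx)]
    · rw [if_pos (by rw [eq_false hx, eq_false ho]), if_pos hx]
  have h3 : ∀ o, w o * (-Real.log (pr w J (J o))) =
      (if J o then w o else 0) * (-Real.log (mass w J)) +
        (if ¬ J o then w o else 0) * (-Real.log (1 - mass w J)) := by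
    intro o
    by_cases ho : J o
    · rw [h1 o ho, if_pos ho, if_neg (by simpa using ho)]
      ring
    · rw [h2 o ho, if_neg ho, if_pos ho]
      ring
  unfold Ent
  rw [sum_congr rfl fun o _ => h3 o, sum_add_distrib, ← sum_mul, ← sum_mul]
  have h4 : ∑ o, (if J o then w o else 0) = mass w J := by
    unfold mass
    apply sum_congr rfl
    intro o _
    congr
  have h5 : ∑ o, (if ¬ J o then w o else 0) = 1 - mass w J := by
    rw [← mass_not hw]
    unfold mass
    apply sum_congr rfl
    intro o _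
    congr
  rw [h4, h5, Real.binEntropy_eq_negMulLog_add_negMulLog_one_sub, Real.negMulLog, Real.negMulLog]
  ring

theorem median {w : Ω → ℝ} (hw : IsPr w) (X : Ω → ℤ) :
    ∃ v : ℤ, mass w (fun o => v + 1 ≤ X o) ≤ 1 / 2 ∧ mass w (fun o => X o ≤ v - 1) ≤ 1 / 2 := by
  classical
  -- bounds for the values of `X`
  obtain ⟨B, hB⟩ : ∃ B : ℤ, ∀ o, -B < X o ∧ X o < B := by
    refine ⟨(∑ o, |X o|) + 1, fun o => ?_⟩
    have h := single_le_sum (f := fun o => |X o|) (fun _ _ => abs_nonneg _) (mem_univ o)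
    have h' := abs_le.1 (show |X o| ≤ ∑ o, |X o| from h)
    constructor <;> (clear * - h'; linarith only [h'])
  have hex : ∃ v : ℤ, mass w (fun o => v + 1 ≤ X o) ≤ 1 / 2 := by
    refine ⟨B, ?_⟩
    have h0 : mass w (fun o => B + 1 ≤ X o) = 0 := by
      unfold mass
      apply sum_eq_zero
      intro o _
      rw [if_neg]
      intro h
      linarith only [(hB o).2, h]
    rw [h0]
    norm_num
  have hbd : ∃ b : ℤ, ∀ z : ℤ, mass w (fun o => z + 1 ≤ X o) ≤ 1 / 2 → b ≤ z := by
    refine ⟨-B, fun z hz => ?_⟩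
    by_contra hlt
    push Not at hlt
    have h1 : mass w (fun o => z + 1 ≤ X o) = 1 := by
      rw [← mass_true hw]
      unfold mass
      apply sum_congr rfl
      intro o _
      rw [if_pos (by (clear * - hB hlt; linarith only [(hB o).1, hlt])), if_pos trivial]
    rw [h1] at hz
    norm_num at hz
  obtain ⟨v, hv, hmin⟩ := Int.exists_least_of_bdd hbd hex
  refine ⟨v, hv, ?_⟩
  by_contra hlt
  push Not at hlt
  have h2 : mass w (fun o => X o ≤ v - 1) = 1 - mass w (fun o => v ≤ X o) := by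
    rw [← mass_not hw]
    congr 1
    ext o
    constructor
    · intro h h'; linarith only [h, h']
    · intro h
      have := not_le.1 h
      linarith only [this]
  have h3 : mass w (fun o => (v - 1) + 1 ≤ X o) ≤ 1 / 2 := by
    have h4 : mass w (fun o => (v - 1) + 1 ≤ X o) = mass w (fun o => v ≤ X o) := by
      congr 1
      ext o
      rw [sub_add_cancel]
    rw [h4]
    rw [h2] at hlt
    (clear * - hlt; linarith only [hlt])
  have := hmin (v - 1) h3
  (clear * - this; linarith only [this])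

end Pool.Agent.Helper84.TR
end

/- Helper24.DI.H84.TR.Event -/
section
/-!
# TR-7: conditional entropy of an event given an event
-/

set_option autoImplicit false

open Finset

namespace Pool.Agent.Helper84.TR

open Pool.Agent.Helper15.BP

variable {Ω Ω' α β γ δ : Type*} [Fintype Ω] [Fintype Ω']

private theorem ev_mass_congr (w : Ω → ℝ) {p q : Ω → Prop} (h : ∀ o, p o ↔ q o) :
    mass w p = mass w q := by
  have : p = q := funext fun o => propext (h o)
  rw [this]

private theorem ev_mass_nonneg {w : Ω → ℝ} (hw : IsPr w) (p : Ω → Prop) : 0 ≤ mass w p := by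
  classical
  unfold mass
  apply sum_nonneg
  intro o _
  split_ifs
  · exact hw.1 o
  · exact le_rfl

private theorem ev_pr_pair (w : Ω → ℝ) (J D : Ω → Prop) (x y : Prop) :
    pr w (fun o => (J o, D o)) (x, y) = mass w (fun o => (J o ↔ x) ∧ (D o ↔ y)) := by
  classical
  unfold pr mass
  apply sum_congr rfl
  intro o _
  congr 1
  simp [Prod.ext_iff]

private theorem ev_pr_one (w : Ω → ℝ) (D : Ω → Prop) (y : Prop) :
    pr w D y = mass w (fun o => (D o ↔ y)) := by
  classical
  unfold pr mass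
  apply sum_congr rfl
  intro o _
  congr 1
  simp

private theorem ev_split (w : Ω → ℝ) (J D : Ω → Prop) :
    mass w D = mass w (fun o => J o ∧ D o) + mass w (fun o => ¬ J o ∧ D o) := by
  classical
  unfold mass
  rw [← sum_add_distrib]
  apply sum_congr rfl
  intro o _
  by_cases hJ : J o <;> by_cases hD : D o <;> simp [hJ, hD]

private theorem ev_phi {x y : ℝ} (hx : 0 ≤ x) (hy : 0 ≤ y) :
    phi x y = x * (Real.log (x + y) - Real.log x) + y * (Real.log (x + y) - Real.log y) := by
  unfold phi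
  rcases hx.eq_or_lt with h | h
  · rcases hy.eq_or_lt with h' | h'
    · simp [← h, ← h']
    · rw [Real.log_div (by linarith only [h, h']) h'.ne', ← h]
      simp
  · rcases hy.eq_or_lt with h' | h'
    · rw [Real.log_div (by (clear * - hy h; linarith)) h.ne', ← h']
      simp
    · rw [Real.log_div (by linarith) h.ne', Real.log_div (by linarith) h'.ne']

theorem CE_event {w : Ω → ℝ} (hw : IsPr w) (J D : Ω → Prop) :
    CE w J D = phi (mass w (fun o => J o ∧ ¬ D o)) (mass w (fun o => ¬ J o ∧ ¬ D o)) +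
      phi (mass w (fun o => J o ∧ D o)) (mass w (fun o => ¬ J o ∧ D o)) := by
  classical
  rw [ev_phi (ev_mass_nonneg hw _) (ev_mass_nonneg hw _),
    ev_phi (ev_mass_nonneg hw _) (ev_mass_nonneg hw _)]
  have h1 := ev_split w J (fun o => ¬ D o)
  have h2 := ev_split w J D
  rw [← h1, ← h2]
  set a := mass w (fun o => J o ∧ ¬ D o) with ha
  set b := mass w (fun o => ¬ J o ∧ ¬ D o) with hb
  set c := mass w (fun o => J o ∧ D o) with hc
  set d := mass w (fun o => ¬ J o ∧ D o) with hd
  set e := mass w (fun o => ¬ D o) with he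
  set g := mass w D with hg
  have key : ∀ o, w o * (-Real.log (pr w (fun o => (J o, D o)) (J o, D o))) -
      w o * (-Real.log (pr w D (D o))) =
      (if J o ∧ ¬ D o then w o else 0) * (Real.log e - Real.log a) +
      (if ¬ J o ∧ ¬ D o then w o else 0) * (Real.log e - Real.log b) +
      ((if J o ∧ D o then w o else 0) * (Real.log g - Real.log c) +
      (if ¬ J o ∧ D o then w o else 0) * (Real.log g - Real.log d)) := by
    intro o
    rw [ev_pr_pair, ev_pr_one]
    by_cases hJ : J o <;> by_cases hD : D o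
    · have e1 : mass w (fun o' => (J o' ↔ J o) ∧ (D o' ↔ D o)) = c :=
        ev_mass_congr w (by intro o'; simp [hJ, hD])
      have e2 : mass w (fun o' => (D o' ↔ D o)) = g := ev_mass_congr w (by intro o'; simp [hD])
      rw [e1, e2]
      simp only [hJ, hD, not_true_eq_false, and_false, and_self, if_true, if_false, and_true]
      ring
    · have e1 : mass w (fun o' => (J o' ↔ J o) ∧ (D o' ↔ D o)) = a :=
        ev_mass_congr w (by intro o'; simp [hJ, hD])
      have e2 : mass w (fun o' => (D o' ↔ D o)) = e := ev_mass_congr w (by intro o'; simp [hD])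
      rw [e1, e2]
      simp only [hJ, hD, not_true_eq_false, not_false_eq_true, and_false, and_self, if_true,
        if_false, and_true]
      ring
    · have e1 : mass w (fun o' => (J o' ↔ J o) ∧ (D o' ↔ D o)) = d :=
        ev_mass_congr w (by intro o'; simp [hJ, hD])
      have e2 : mass w (fun o' => (D o' ↔ D o)) = g := ev_mass_congr w (by intro o'; simp [hD])
      rw [e1, e2]
      simp only [hJ, hD, not_true_eq_false, not_false_eq_true, and_false, and_self, if_true,
        if_false, and_true, false_and]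
      ring
    · have e1 : mass w (fun o' => (J o' ↔ J o) ∧ (D o' ↔ D o)) = b :=
        ev_mass_congr w (by intro o'; simp [hJ, hD])
      have e2 : mass w (fun o' => (D o' ↔ D o)) = e := ev_mass_congr w (by intro o'; simp [hD])
      rw [e1, e2]
      simp only [hJ, hD, not_true_eq_false, not_false_eq_true, and_false, and_self, if_true,
        if_false, and_true, false_and]
      ring
  have hs : CE w J D = ∑ o, (w o * (-Real.log (pr w (fun o => (J o, D o)) (J o, D o))) -
      w o * (-Real.log (pr w D (D o)))) := by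
    unfold CE Ent
    rw [sum_sub_distrib]
  rw [hs, sum_congr rfl (fun o _ => key o), sum_add_distrib, sum_add_distrib, sum_add_distrib,
    ← sum_mul, ← sum_mul, ← sum_mul, ← sum_mul]
  have m1 : ∑ o, (if J o ∧ ¬ D o then w o else 0) = a := by
    rw [ha]; unfold mass; exact sum_congr rfl fun o _ => by congr
  have m2 : ∑ o, (if ¬ J o ∧ ¬ D o then w o else 0) = b := by
    rw [hb]; unfold mass; exact sum_congr rfl fun o _ => by congr
  have m3 : ∑ o, (if J o ∧ D o then w o else 0) = c := by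
    rw [hc]; unfold mass; exact sum_congr rfl fun o _ => by congr
  have m4 : ∑ o, (if ¬ J o ∧ D o then w o else 0) = d := by
    rw [hd]; unfold mass; exact sum_congr rfl fun o _ => by congr
  rw [m1, m2, m3, m4]

end Pool.Agent.Helper84.TR
end

/- Helper24.DI.H84.TR.Fib -/
section
/-!
# TR-2: decomposition along the fibres of a function
-/

set_option autoImplicit false

open Finset

namespace Pool.Agent.Helper84.TR

open Pool.Agent.Helper15.BP

variable {Ω Ω' α β γ δ : Type*} [Fintype Ω] [Fintype Ω']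

private theorem Fib_cw_of {w : Ω → ℝ} {A : Ω → α} {a : α} {o : Ω} (h : A o = a) :
    cw w A a o = w o / pr w A a := by
  unfold cw
  rw [if_pos h]

private theorem Fib_cw_of_not {w : Ω → ℝ} {A : Ω → α} {a : α} {o : Ω} (h : A o ≠ a) :
    cw w A a o = 0 := by
  unfold cw
  rw [if_neg h]

private theorem Fib_pr_cw (w : Ω → ℝ) (A : Ω → α) (a : α) (f : Ω → β) (b : β) :
    pr (cw w A a) f b = pr w (fun o => (f o, A o)) (b, a) / pr w A a := by
  classical
  have h1 : pr (cw w A a) f b = ∑ o, if f o = b then cw w A a o else 0 := by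
    unfold pr
    exact sum_congr rfl fun o _ => by split_ifs <;> rfl
  have h2 : pr w (fun o => (f o, A o)) (b, a) = ∑ o, if (f o, A o) = (b, a) then w o else 0 := by
    unfold pr
    exact sum_congr rfl fun o _ => by split_ifs <;> rfl
  rw [h1, h2, sum_div]
  apply sum_congr rfl
  intro o _
  by_cases hf : f o = b
  · by_cases hA : A o = a
    · rw [if_pos hf, if_pos (by rw [hf, hA]), Fib_cw_of hA]
    · rw [if_pos hf, if_neg (fun h => hA (congrArg Prod.snd h)), Fib_cw_of_not hA, zero_div]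
  · rw [if_neg hf, if_neg (fun h => hf (congrArg Prod.fst h)), zero_div]

private theorem Fib_zero {w : Ω → ℝ} (hw : IsPr w) {A : Ω → α} {a : α} (ha : pr w A a = 0)
    {o : Ω} (h : A o = a) : w o = 0 := by
  have h1 := le_pr hw A o
  rw [h, ha] at h1
  exact le_antisymm h1 (hw.nonneg o)

private theorem Fib_sum [DecidableEq α] (A : Ω → α) (F : Ω → ℝ) :
    ∑ a ∈ univ.image A, ∑ o, (if A o = a then F o else 0) = ∑ o, F o := by
  rw [sum_comm]
  apply sum_congr rfl
  intro o _
  rw [sum_ite_eq, if_pos (mem_image_of_mem A (mem_univ o))]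

/-- a weighted sum over the fibre -/
private theorem Fib_mul {w : Ω → ℝ} (hw : IsPr w) [DecidableEq α] (A : Ω → α) (a : α) (G : Ω → ℝ) :
    pr w A a * ∑ o, cw w A a o * G o = ∑ o, (if A o = a then w o * G o else 0) := by
  rw [mul_sum]
  apply sum_congr rfl
  intro o _
  by_cases h : A o = a
  · rw [if_pos h, Fib_cw_of h]
    by_cases hp : pr w A a = 0
    · rw [Fib_zero hw hp h]
      simp
    · (clear * - hp; field_simp)
  · rw [if_neg h, Fib_cw_of_not h]
    simp

theorem cw_isPr {w : Ω → ℝ} (hw : IsPr w) (A : Ω → α) (a : α) (ha : pr w A a ≠ 0) :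
    IsPr (cw w A a) := by
  classical
  constructor
  · intro o
    by_cases h : A o = a
    · rw [Fib_cw_of h]
      exact div_nonneg (hw.nonneg o) (pr_nonneg hw A a)
    · rw [Fib_cw_of_not h]
  · have h1 := Fib_mul hw A a (fun _ => 1)
    simp only [mul_one] at h1
    have h2 : ∑ o, (if A o = a then w o else 0) = pr w A a := by
      unfold pr
      exact sum_congr rfl fun o _ => by split_ifs <;> rfl
    rw [h2] at h1
    exact mul_left_cancel₀ ha (by rw [h1, mul_one])

theorem CE_fib [DecidableEq α] {w : Ω → ℝ} (hw : IsPr w) (f : Ω → β) (g : Ω → γ) (A : Ω → α) :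
    CE w f (fun o => (g o, A o)) = ∑ a ∈ univ.image A, pr w A a * CE (cw w A a) f g := by
  rw [CE_eq_sum, ← Fib_sum A]
  apply sum_congr rfl
  intro a _
  rw [CE_eq_sum, Fib_mul hw A a]
  apply sum_congr rfl
  intro o _
  by_cases h : A o = a
  · rw [if_pos h, if_pos h]
    rcases (hw.nonneg o).eq_or_lt with h0 | h0
    · rw [← h0, zero_mul, zero_mul]
    · congr 1
      have hp : 0 < pr w A a := by
        have := pr_pos hw A h0
        rwa [h] at this
      have h1 : 0 < pr w (fun o => (g o, A o)) (g o, a) := by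
        have := pr_pos hw (fun o => (g o, A o)) h0
        simp only [h] at this
        exact this
      have h2 : 0 < pr w (fun o => ((f o, g o), A o)) ((f o, g o), a) := by
        have := pr_pos hw (fun o => ((f o, g o), A o)) h0
        simp only [h] at this
        exact this
      have h3 : pr w (fun o => (f o, (g o, A o))) (f o, (g o, A o)) =
          pr w (fun o => ((f o, g o), A o)) ((f o, g o), a) := by
        have h4 := pr_congr (w := w) (f := fun o => (f o, (g o, A o)))
          (g := fun o => ((f o, g o), A o)) (fun o o' => by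
            simp only [Prod.mk.injEq]
            tauto) o
        simp only [h] at h4 ⊢
        exact h4
      rw [Fib_pr_cw, Fib_pr_cw, Real.log_div h1.ne' hp.ne', Real.log_div h2.ne' hp.ne', h3, h]
      ring
  · rw [if_neg h, if_neg h]

theorem Ent_fib [DecidableEq α] {w : Ω → ℝ} (hw : IsPr w) (f : Ω → β) (A : Ω → α) :
    CE w f A = ∑ a ∈ univ.image A, pr w A a * Ent (cw w A a) f := by
  have h1 : CE w f A = CE w f (fun o => ((), A o)) := by
    apply CE_congr
    · intro o o'
      simp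
    · intro o o' _
      exact Iff.rfl
  rw [h1, CE_fib hw]
  apply sum_congr rfl
  intro a _
  by_cases ha : pr w A a = 0
  · rw [ha, zero_mul, zero_mul]
  · congr 1
    have hc := cw_isPr hw A a ha
    unfold CE
    have h2 : Ent (cw w A a) (fun _ : Ω => ()) = 0 := by
      unfold Ent
      have h3 : pr (cw w A a) (fun _ : Ω => ()) () = 1 := by
        unfold pr
        rw [← hc.sum_one]
        exact sum_congr rfl fun o _ => by rw [if_pos rfl]
      apply sum_eq_zero
      intro o _
      rw [h3, Real.log_one, neg_zero, mul_zero]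
    rw [h2, sub_zero]
    apply Ent_congr
    intro o o'
    simp

theorem mass_fib [DecidableEq α] {w : Ω → ℝ} (hw : IsPr w) (p : Ω → Prop) (A : Ω → α) :
    mass w p = ∑ a ∈ univ.image A, pr w A a * mass (cw w A a) p := by
  classical
  have h1 : ∀ v : Ω → ℝ, mass v p = ∑ o, v o * (if p o then 1 else 0) := by
    intro v
    unfold mass
    apply sum_congr rfl
    intro o _
    by_cases h : p o
    · rw [if_pos h, if_pos h, mul_one]
    · rw [if_neg h, if_neg h, mul_zero]
  rw [h1 w, ← Fib_sum A]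
  apply sum_congr rfl
  intro a _
  rw [h1, Fib_mul hw A a]

theorem sum_pr_one [DecidableEq α] {w : Ω → ℝ} (hw : IsPr w) (A : Ω → α) :
    ∑ a ∈ univ.image A, pr w A a = 1 := by
  have h := sum_w_comp w A (fun _ => (1 : ℝ))
  simp only [mul_one] at h
  rw [← h, hw.sum_one]

theorem cw_prod (w : Ω → ℝ) (w' : Ω' → ℝ) (A : Ω → α) (B : Ω' → β) (a : α) (b : β) :
    cw (prodW w w') (fun p => (A p.1, B p.2)) (a, b) = prodW (cw w A a) (cw w' B b) := by
  funext p
  unfold prodW
  by_cases hA : A p.1 = a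
  · by_cases hB : B p.2 = b
    · rw [Fib_cw_of hA, Fib_cw_of hB, Fib_cw_of (by rw [hA, hB])]
      have h1 : pr (fun p : Ω × Ω' => w p.1 * w' p.2) (fun p => (A p.1, B p.2)) (a, b) =
          pr w A a * pr w' B b := pr_prod w w' A B a b
      rw [h1, mul_div_mul_comm]
    · rw [Fib_cw_of_not hB, mul_zero, Fib_cw_of_not (fun h => hB (congrArg Prod.snd h))]
  · rw [Fib_cw_of_not hA, zero_mul, Fib_cw_of_not (fun h => hA (congrArg Prod.fst h))]

end Pool.Agent.Helper84.TR
end

/- Helper24.DI.H88.RT.Col -/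
section
set_option autoImplicit false

/-!
MP_120218_co, project RT (R1): the column lemma for abelian groups.  If `X`, `Y` are independent and
`Y` is rarely non-zero then `X` is almost determined by `X + Y`, in the sense that
`H(X | X + Y) ≤ η (H(X) + H(Y))`.
-/

open Finset

namespace Pool.Agent.Helper88.RT

open Pool.Agent.Helper15.BP Pool.Agent.Helper84.TR

variable {Ω Ω' : Type} [Fintype Ω] [Fintype Ω']

theorem CE_zero_of_supp {α β : Type*} (w : Ω → ℝ) (f : Ω → α) (g : Ω → β)
    (h : ∀ o o', w o ≠ 0 → w o' ≠ 0 → g o = g o' → f o = f o') : CE w f g = 0 := by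
  classical
  rw [CE_eq_sum]
  apply sum_eq_zero
  intro o _
  by_cases ho : w o = 0
  · rw [ho, zero_mul]
  · have h1 : pr w g (g o) = pr w (fun o => (f o, g o)) (f o, g o) := by
      unfold pr
      apply sum_congr rfl
      intro x _
      by_cases hx : w x = 0
      · rw [hx, ite_self, ite_self]
      · by_cases hg : g x = g o
        · have e : (fun o => (f o, g o)) x = (f o, g o) := by
            show (f x, g x) = (f o, g o)
            rw [h x o hx ho hg, hg]
          rw [if_pos hg, if_pos e]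
        · rw [if_neg hg, if_neg (fun h2 => hg (congrArg Prod.snd h2))]
    rw [h1, sub_self, mul_zero]

theorem pr_true (w : Ω → ℝ) (J : Ω → Prop) : pr w J True = mass w J := by
  classical
  unfold pr mass
  apply sum_congr rfl
  intro o _
  by_cases h : J o
  · rw [if_pos (eq_true h), if_pos h]
  · rw [if_neg (fun h2 => h (of_eq_true h2)), if_neg h]

/-- conditioning a product on an event of the second factor -/
theorem cw_second {w : Ω → ℝ} (hw : IsPr w) (w' : Ω' → ℝ) (J : Ω' → Prop) :
    cw (prodW w w') (fun p => J p.2) True = prodW w (cw w' J True) := by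
  classical
  funext p
  unfold cw
  rw [pr_snd hw]
  unfold prodW
  by_cases h : J p.2 = True
  · rw [if_pos h]
    simp only
    rw [if_pos h, mul_div_assoc]
  · rw [if_neg h]
    simp only
    rw [if_neg h, mul_zero]

/-- the entropy of `X` given `X + Y` and the event `Y ≠ 0` -/
theorem given_event {G : Type} [AddCommGroup G] {w : Ω → ℝ} {w' : Ω' → ℝ} (hw : IsPr w)
    (hw' : IsPr w') (X : Ω → G) (Y : Ω' → G) :
    CE (prodW w w') (fun p => X p.1) (fun p => (X p.1 + Y p.2, (Y p.2 ≠ 0))) ≤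
      mass w' (fun o => Y o ≠ 0) * Ent w X := by
  classical
  have hp := hw.prod hw'
  have hm := mass_nonneg hw' (fun o => Y o ≠ 0)
  have hE := Ent_nonneg hw X
  have hprT : pr (prodW w w') (fun p => (Y p.2 ≠ 0)) True = mass w' (fun o => Y o ≠ 0) := by
    rw [← pr_true w' (fun o => Y o ≠ 0)]
    exact pr_snd hw (fun o => Y o ≠ 0) True
  rw [CE_fib hp (fun p => X p.1) (fun p => X p.1 + Y p.2) (fun p => (Y p.2 ≠ 0))]
  have h1 : ∀ a ∈ univ.image (fun p : Ω × Ω' => (Y p.2 ≠ 0)),
      pr (prodW w w') (fun p => (Y p.2 ≠ 0)) a *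
        CE (cw (prodW w w') (fun p => (Y p.2 ≠ 0)) a) (fun p => X p.1)
          (fun p => X p.1 + Y p.2) ≤
      if a = True then mass w' (fun o => Y o ≠ 0) * Ent w X else 0 := by
    intro a _
    by_cases ha : a
    · have ha' : a = True := eq_true ha
      rw [if_pos ha', ha', hprT]
      by_cases h0 : mass w' (fun o => Y o ≠ 0) = 0
      · rw [h0, zero_mul, zero_mul]
      · apply mul_le_mul_of_nonneg_left _ hm
        rw [cw_second hw w' (fun o => Y o ≠ 0)]
        have hw'' : IsPr (cw w' (fun o => Y o ≠ 0) True) := by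
          apply cw_isPr hw'
          rw [pr_true]
          exact h0
        refine (CE_le_Ent (hw.prod hw'') _ _).trans (le_of_eq ?_)
        exact Ent_fst hw'' X
    · have ha' : a = False := eq_false ha
      rw [if_neg (fun h => ha (of_eq_true h)), ha']
      apply le_of_eq
      rw [CE_zero_of_supp, mul_zero]
      have hY : ∀ p : Ω × Ω', cw (prodW w w') (fun p => (Y p.2 ≠ 0)) False p ≠ 0 → Y p.2 = 0 := by
        intro p hp0
        by_contra hJ
        apply hp0
        unfold cw
        simp only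
        rw [if_neg]
        intro h
        exact of_eq_false h hJ
      intro p p' hp0 hp0' he
      have e1 := hY p hp0
      have e2 := hY p' hp0'
      rw [e1, e2, add_zero, add_zero] at he
      exact he
  refine le_trans (sum_le_sum h1) ?_
  rw [← sum_filter, sum_const, nsmul_eq_mul]
  have hc : ((univ.image (fun p : Ω × Ω' => (Y p.2 ≠ 0))).filter
      (fun a => a = True)).card ≤ 1 := by
    rw [card_le_one]
    intro a ha b hb
    rw [(mem_filter.1 ha).2, (mem_filter.1 hb).2]
  have hc' : ((((univ.image (fun p : Ω × Ω' => (Y p.2 ≠ 0))).filter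
      (fun a => a = True)).card : ℕ) : ℝ) ≤ 1 := by exact_mod_cast hc
  have h2 : 0 ≤ mass w' (fun o => Y o ≠ 0) * Ent w X := mul_nonneg hm hE
  (clear * - hc' h2; nlinarith only [hc', h2])

/-- the decomposition of `H(X | X + Y)` by the event `Y ≠ 0` -/
theorem split_event {G : Type} [AddCommGroup G] {w : Ω → ℝ} {w' : Ω' → ℝ} (hw : IsPr w)
    (hw' : IsPr w') (X : Ω → G) (Y : Ω' → G) :
    CE (prodW w w') (fun p => X p.1) (fun p => X p.1 + Y p.2) ≤
      CE (prodW w w') (fun p => (Y p.2 ≠ 0)) (fun p => X p.1 + Y p.2) +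
        mass w' (fun o => Y o ≠ 0) * Ent w X := by
  have hp := hw.prod hw'
  have h1 : CE (prodW w w') (fun p => X p.1) (fun p => X p.1 + Y p.2) ≤
      CE (prodW w w') (fun p => (X p.1, (Y p.2 ≠ 0))) (fun p => X p.1 + Y p.2) := by
    apply CE_mono hp
    intro o o' _ h
    exact congrArg Prod.fst h
  have h2 := CE_chain (prodW w w') (fun p => X p.1) (fun p => (Y p.2 ≠ 0))
    (fun p => X p.1 + Y p.2)
  have h3 : CE (prodW w w') (fun p => X p.1) (fun p => ((Y p.2 ≠ 0), X p.1 + Y p.2)) =
      CE (prodW w w') (fun p => X p.1) (fun p => (X p.1 + Y p.2, (Y p.2 ≠ 0))) := by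
    apply CE_congr
    · intro o o'
      simp only [Prod.mk.injEq]
      tauto
    · intro o o' _
      exact Iff.rfl
  have h4 := given_event hw hw' X Y
  rw [h2, h3] at h1
  (clear * - h1 h4; linarith)

/-- the event `Y ≠ 0` given `X + Y`, when `X` has a value of large mass -/
theorem event_mode {G : Type} [AddCommGroup G] {w : Ω → ℝ} {w' : Ω' → ℝ} (hw : IsPr w)
    (hw' : IsPr w') (X : Ω → G) (Y : Ω' → G) (x₀ : G) :
    CE (prodW w w') (fun p => (Y p.2 ≠ 0)) (fun p => X p.1 + Y p.2) ≤
      phi (mass w' (fun o => Y o ≠ 0) * mass w (fun o => X o ≠ x₀)) 1 +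
        phi (mass w' (fun o => Y o ≠ 0)) (mass w (fun o => X o ≠ x₀)) := by
  have hp := hw.prod hw'
  have h1 : CE (prodW w w') (fun p => (Y p.2 ≠ 0)) (fun p => X p.1 + Y p.2) ≤
      CE (prodW w w') (fun p => (Y p.2 ≠ 0)) (fun p => (X p.1 + Y p.2 ≠ x₀)) := by
    apply CE_anti hp
    intro o o' h
    rw [h]
  refine h1.trans ?_
  rw [CE_event hp]
  apply add_le_add
  · apply phi_mono (mass_nonneg hp _) _ (mass_nonneg hp _) (mass_le_one hp _)
    rw [mul_comm, ← mass_prod]
    apply mass_mono hp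
    rintro ⟨o, o'⟩ ⟨ha, hb⟩
    simp only [ne_eq, not_not] at ha hb ⊢
    refine ⟨?_, ha⟩
    intro hx
    rw [hx] at hb
    exact ha (by simpa using hb)
  · apply phi_mono (mass_nonneg hp _) _ (mass_nonneg hp _) _
    · refine (mass_mono hp (p' := fun p : Ω × Ω' => Y p.2 ≠ 0) fun o h => h.1).trans ?_
      exact (mass_snd hw (fun o => Y o ≠ 0)).le
    · refine (mass_mono hp (p' := fun p : Ω × Ω' => X p.1 ≠ x₀) ?_).trans ?_
      · rintro ⟨o, o'⟩ ⟨ha, hb⟩
        simp only [ne_eq, not_not] at ha hb ⊢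
        rw [ha, add_zero] at hb
        exact hb
      · exact (mass_fst hw' (fun o => X o ≠ x₀)).le

theorem Ent_event_le {α : Type*} {w : Ω → ℝ} (hw : IsPr w) (X : Ω → α) (J : α → Prop) :
    Real.binEntropy (mass w (fun o => J (X o))) ≤ Ent w X := by
  rw [← Ent_event hw]
  apply Ent_mono hw
  intro o o' h
  rw [h]

/-- if no value has mass more than one half then the entropy is at least `log 2` -/
theorem Ent_ge_log_two {α : Type*} {w : Ω → ℝ} (hw : IsPr w) (X : Ω → α)
    (h : ∀ x, mass w (fun o => X o ≠ x) ≥ 1 / 2) : Real.log 2 ≤ Ent w X := by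
  classical
  unfold Ent
  have h1 : ∀ o, w o * Real.log 2 ≤ w o * (-Real.log (pr w X (X o))) := by
    intro o
    rcases (hw.nonneg o).eq_or_lt with h0 | h0
    · rw [← h0, zero_mul, zero_mul]
    · apply mul_le_mul_of_nonneg_left _ (hw.nonneg o)
      have h2 := pr_pos hw X h0
      have h3 : pr w X (X o) ≤ 1 / 2 := by
        have h4 := h (X o)
        have h5 := mass_not hw (fun o' => X o' = X o)
        have h6 : mass w (fun o' => X o' = X o) = pr w X (X o) := by
          unfold mass pr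
          apply sum_congr rfl
          intro o' _
          congr
        rw [h6] at h5
        have h7 : mass w (fun o' => X o' ≠ X o) = mass w (fun o' => ¬ X o' = X o) := rfl
        rw [h7, h5] at h4
        (clear * - h4; linarith only [h4])
      have h8 := Real.log_le_log h2 h3
      rw [one_div, Real.log_inv] at h8
      (clear * - h8; linarith only [h8])
  calc Real.log 2 = ∑ o, w o * Real.log 2 := by rw [← sum_mul, hw.sum_one, one_mul]
    _ ≤ _ := sum_le_sum fun o _ => h1 o

/-- the binary entropy is small near zero -/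
theorem binEntropy_small (η : ℝ) (hη : 0 < η) : ∃ σ : ℝ, 0 < σ ∧
    ∀ b : ℝ, 0 ≤ b → b ≤ σ → Real.binEntropy b ≤ η := by
  have hc := Real.binEntropy_continuous.tendsto 0
  rw [Real.binEntropy_zero] at hc
  have h1 := (Metric.tendsto_nhds_nhds.1 hc) η hη
  obtain ⟨σ, hσ, H⟩ := h1
  refine ⟨σ / 2, by (clear * - hσ; linarith only [hσ]), fun b hb hb' => ?_⟩
  have h2 := H (x := b) (by
    rw [Real.dist_eq, sub_zero, abs_of_nonneg hb]
    linarith only [hσ, hb'])
  rw [Real.dist_eq, sub_zero] at h2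
  exact (le_abs_self _).trans h2.le

/-- **Column lemma for abelian groups.** -/
theorem group_column (η : ℝ) (hη : 0 < η) : ∃ σ : ℝ, 0 < σ ∧ σ ≤ 1 / 2 ∧
    ∀ (Ω Ω' G : Type) [Fintype Ω] [Fintype Ω'] [AddCommGroup G] (w : Ω → ℝ) (w' : Ω' → ℝ)
      (X : Ω → G) (Y : Ω' → G), IsPr w → IsPr w' → mass w' (fun o => Y o ≠ 0) ≤ σ →
      CE (prodW w w') (fun p => X p.1) (fun p => X p.1 + Y p.2) ≤
        η * (Ent w X + Ent w' Y) := by
  set e : ℝ := η / 8 with he
  have he0 : 0 < e := by (clear * - hη; positivity)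
  obtain ⟨σ₁, hσ₁, hσ₁', hn1, hn2⟩ := phi_num e he0
  have hlog2 : 0 < Real.log 2 := Real.log_pos (by norm_num)
  obtain ⟨σ₂, hσ₂, hn3⟩ := binEntropy_small (e * Real.log 2) (by (clear * - hη; positivity))
  refine ⟨min σ₁ (min σ₂ e), by positivity, (min_le_left _ _).trans hσ₁', ?_⟩
  intro Ω Ω' G _ _ _ w w' X Y hw hw' hτ
  set τ := mass w' (fun o => Y o ≠ 0) with hτdef
  have hτ0 : 0 ≤ τ := mass_nonneg hw' _
  have hτ1 : τ ≤ σ₁ := hτ.trans (min_le_left _ _)
  have hτ2 : τ ≤ σ₂ := hτ.trans ((min_le_right _ _).trans (min_le_left _ _))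
  have hτ3 : τ ≤ e := hτ.trans ((min_le_right _ _).trans (min_le_right _ _))
  have hEX := Ent_nonneg hw X
  have hEY := Ent_nonneg hw' Y
  have hsplit := split_event hw hw' X Y
  rw [← hτdef] at hsplit
  have hτE : τ * Ent w X ≤ e * Ent w X := mul_le_mul_of_nonneg_right hτ3 hEX
  by_cases hmode : ∃ x₀, mass w (fun o => X o ≠ x₀) ≤ 1 / 2
  · obtain ⟨x₀, hx₀⟩ := hmode
    have h1 := event_mode hw hw' X Y x₀
    rw [← hτdef] at h1
    set α := mass w (fun o => X o ≠ x₀) with hα
    have hα0 : 0 ≤ α := mass_nonneg hw _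
    have h2 := hn2 τ τ α α hτ0 hτ1 le_rfl (mass_le_one hw' _) hα0 hx₀ hα0 hx₀
    have h3 : phi τ α ≤ phi τ (τ + α) :=
      phi_mono hτ0 le_rfl hα0 (by linarith only [hτ0])
    have h4 : Real.binEntropy α ≤ Ent w X := Ent_event_le hw X (fun x => x ≠ x₀)
    have h5 : Real.binEntropy τ ≤ Ent w' Y := Ent_event_le hw' Y (fun y => y ≠ 0)
    have h6 := hn1 τ hτ0 hτ1
    have h7 : e * Real.binEntropy α ≤ e * Ent w X := mul_le_mul_of_nonneg_left h4 he0.le
    have h8 : e * Real.binEntropy τ ≤ e * Ent w' Y := mul_le_mul_of_nonneg_left h5 he0.le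
    have h9 : η = 8 * e := by rw [he]; ring
    have h10 : 0 ≤ e * Ent w X := mul_nonneg he0.le hEX
    have h11 : 0 ≤ e * Ent w' Y := mul_nonneg he0.le hEY
    rw [h9]
    linarith only [hsplit, hτE, h1, h2, h3, h6, h7, h8, h10, h11]
  · push Not at hmode
    have h1 := Ent_ge_log_two hw X (fun x => (hmode x).le)
    have h2 : CE (prodW w w') (fun p => (Y p.2 ≠ 0)) (fun p => X p.1 + Y p.2) ≤
        Real.binEntropy τ := by
      refine (CE_le_Ent (hw.prod hw') _ _).trans (le_of_eq ?_)
      rw [Ent_event (hw.prod hw'), mass_snd hw (fun o => Y o ≠ 0)]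
    have h3 := hn3 τ hτ0 hτ2
    have h4 : e * Real.log 2 ≤ e * Ent w X := mul_le_mul_of_nonneg_left h1 he0.le
    have h9 : η = 8 * e := by rw [he]; ring
    have h10 : 0 ≤ e * Ent w X := mul_nonneg he0.le hEX
    have h11 : 0 ≤ e * Ent w' Y := mul_nonneg he0.le hEY
    rw [h9]
    linarith only [hsplit, hτE, h2, h3, h4, h10, h11]

end Pool.Agent.Helper88.RT
end

/- Helper24.DI.H88.RT.Past -/
section
set_option autoImplicit false

/-!
MP_120218_co, project RT (R2): the column lemma given the pasts, and the chain rule over the columns.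
-/

open Finset

namespace Pool.Agent.Helper88.RT

open Pool.Agent.Helper15.BP Pool.Agent.Helper84.TR

/-- the conclusion of the column lemma for given constants -/
def ColProp (η σ : ℝ) : Prop :=
  ∀ (Ω Ω' G : Type) [Fintype Ω] [Fintype Ω'] [AddCommGroup G] (w : Ω → ℝ) (w' : Ω' → ℝ)
    (X : Ω → G) (Y : Ω' → G), IsPr w → IsPr w' → mass w' (fun o => Y o ≠ 0) ≤ σ →
    CE (prodW w w') (fun p => X p.1) (fun p => X p.1 + Y p.2) ≤ η * (Ent w X + Ent w' Y)

section
variable {Ω Ω' : Type} [Fintype Ω] [Fintype Ω']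

/-- the column lemma, given the pasts of both variables -/
theorem col_past {η σ : ℝ} (hη : 0 ≤ η) (hσ : 0 < σ) (hcol : ColProp η σ) {G α β : Type}
    [AddCommGroup G] {w : Ω → ℝ} {w' : Ω' → ℝ} (hw : IsPr w) (hw' : IsPr w') (X : Ω → G)
    (Y : Ω' → G) (A : Ω → α) (B : Ω' → β) :
    CE (prodW w w') (fun p => X p.1) (fun p => (X p.1 + Y p.2, (A p.1, B p.2))) ≤
      (η + mass w' (fun o => Y o ≠ 0) / σ) * CE w X A + η * CE w' Y B := by
  classical
  have hp := hw.prod hw'
  set m : β → ℝ := fun b => mass (cw w' B b) (fun o => Y o ≠ 0) with hm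
  set F : α × β → ℝ := fun ab => pr w A ab.1 * pr w' B ab.2 *
    (η * (Ent (cw w A ab.1) X + Ent (cw w' B ab.2) Y) + m ab.2 / σ * Ent (cw w A ab.1) X) with hF
  rw [CE_fib hp (fun p => X p.1) (fun p => X p.1 + Y p.2) (fun p => (A p.1, B p.2))]
  have hFnn : ∀ ab, 0 ≤ F ab := by
    intro ab
    simp only [hF]
    by_cases ha : pr w A ab.1 = 0
    · rw [ha]; simp
    by_cases hb : pr w' B ab.2 = 0
    · rw [hb]; simp
    have h1 := cw_isPr hw A ab.1 ha
    have h2 := cw_isPr hw' B ab.2 hb
    have h3 := Ent_nonneg h1 X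
    have h4 := Ent_nonneg h2 Y
    have h5 : 0 ≤ m ab.2 := mass_nonneg h2 _
    have h6 := pr_nonneg hw A ab.1
    have h7 := pr_nonneg hw' B ab.2
    (clear * - h6 ha h7 hb hη h3 h4 h5 hσ; positivity)
  have h1 : ∀ ab ∈ univ.image (fun p : Ω × Ω' => (A p.1, B p.2)),
      pr (prodW w w') (fun p => (A p.1, B p.2)) ab *
        CE (cw (prodW w w') (fun p => (A p.1, B p.2)) ab) (fun p => X p.1)
          (fun p => X p.1 + Y p.2) ≤ F ab := by
    rintro ⟨a, b⟩ _
    rw [pr_prod, cw_prod]
    simp only [hF]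
    by_cases ha : pr w A a = 0
    · rw [ha]; simp
    by_cases hb : pr w' B b = 0
    · rw [hb]; simp
    have g1 := cw_isPr hw A a ha
    have g2 := cw_isPr hw' B b hb
    have g3 := Ent_nonneg g1 X
    have g4 := Ent_nonneg g2 Y
    have g5 : 0 ≤ m b := mass_nonneg g2 _
    apply mul_le_mul_of_nonneg_left _ (mul_nonneg (pr_nonneg hw A a) (pr_nonneg hw' B b))
    by_cases hgood : m b ≤ σ
    · refine (hcol Ω Ω' G (cw w A a) (cw w' B b) X Y g1 g2 hgood).trans ?_
      have : 0 ≤ m b / σ * Ent (cw w A a) X := by (clear * - g5 hσ g3; positivity)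
      linarith only [this]
    · push Not at hgood
      refine (CE_le_Ent (g1.prod g2) _ _).trans ?_
      have e1 : Ent (prodW (cw w A a) (cw w' B b)) (fun p => X p.1) = Ent (cw w A a) X :=
        Ent_fst g2 X
      rw [e1]
      have e2 : 1 ≤ m b / σ := by
        rw [le_div_iff₀ hσ]
        (clear * - hgood; linarith)
      have e3 : 1 * Ent (cw w A a) X ≤ m b / σ * Ent (cw w A a) X :=
        mul_le_mul_of_nonneg_right e2 g3
      have e4 : 0 ≤ η * (Ent (cw w A a) X + Ent (cw w' B b) Y) := by (clear * - hη g3 g4; positivity)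
      linarith only [e3, e4]
  refine (sum_le_sum h1).trans ?_
  have hsub : univ.image (fun p : Ω × Ω' => (A p.1, B p.2)) ⊆
      (univ.image A) ×ˢ (univ.image B) := by
    intro ab hab
    obtain ⟨p, -, rfl⟩ := mem_image.1 hab
    rw [mem_product]
    exact ⟨mem_image_of_mem _ (mem_univ _), mem_image_of_mem _ (mem_univ _)⟩
  refine (sum_le_sum_of_subset_of_nonneg hsub fun ab _ _ => hFnn ab).trans (le_of_eq ?_)
  rw [sum_product]
  -- the sums
  have sA := sum_pr_one hw A
  have sB := sum_pr_one hw' B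
  have eA := Ent_fib hw X A
  have eB := Ent_fib hw' Y B
  have eM := mass_fib hw' (fun o => Y o ≠ 0) B
  have h2 : ∀ a ∈ univ.image A, ∑ b ∈ univ.image B, F (a, b) =
      pr w A a * Ent (cw w A a) X * (η + mass w' (fun o => Y o ≠ 0) / σ) +
        pr w A a * (η * CE w' Y B) := by
    intro a _
    rw [eM, eB]
    simp only [hF]
    have h3 : ∀ b ∈ univ.image B, pr w A a * pr w' B b *
        (η * (Ent (cw w A a) X + Ent (cw w' B b) Y) + m b / σ * Ent (cw w A a) X) =
        (pr w A a * Ent (cw w A a) X * η) * pr w' B b +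
          (pr w A a * Ent (cw w A a) X / σ) * (pr w' B b * m b) +
          (pr w A a * η) * (pr w' B b * Ent (cw w' B b) Y) := by
      intro b _
      field_simp
      ring
    rw [sum_congr rfl h3, sum_add_distrib, sum_add_distrib, ← mul_sum, ← mul_sum, ← mul_sum, sB]
    simp only [hm]
    ring
  rw [sum_congr rfl h2, sum_add_distrib, ← sum_mul, ← sum_mul, sA, ← eA]
  ring

end

section chain
variable {Ω Ω' : Type} [Fintype Ω] [Fintype Ω'] {G : ℕ → Type} [∀ q, AddCommGroup (G q)]

/-- the columns below `p` -/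
def tr (p : ℕ) (X : Ω → ∀ q, G q) (o : Ω) : ∀ q, G q :=
  fun q => if q < p then X o q else 0

omit [Fintype Ω] in
theorem tr_eq_iff (p : ℕ) (X : Ω → ∀ q, G q) (o o' : Ω) :
    tr p X o = tr p X o' ↔ ∀ q, q < p → X o q = X o' q := by
  constructor
  · intro h q hq
    have h1 := congrFun h q
    simpa only [tr, if_pos hq] using h1
  · intro h
    funext q
    by_cases hq : q < p
    · simpa only [tr, if_pos hq] using h q hq
    · simp only [tr, if_neg hq]

omit [Fintype Ω] in
theorem tr_succ_iff (p : ℕ) (X : Ω → ∀ q, G q) (o o' : Ω) :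
    tr (p + 1) X o = tr (p + 1) X o' ↔ X o p = X o' p ∧ tr p X o = tr p X o' := by
  rw [tr_eq_iff, tr_eq_iff]
  constructor
  · intro h
    exact ⟨h p (Nat.lt_succ_self _), fun q hq => h q (Nat.lt_succ_of_lt hq)⟩
  · rintro ⟨h1, h2⟩ q hq
    rcases Nat.lt_succ_iff_lt_or_eq.mp hq with h3 | h3
    · exact h2 q h3
    · subst h3
      exact h1

/-- the chain rule over the columns -/
theorem chain {β : Type} (w : Ω → ℝ) (X : Ω → ∀ q, G q) (g : Ω → β) (p : ℕ) :
    CE w (tr p X) g = ∑ q ∈ range p, CE w (fun o => X o q) (fun o => (tr q X o, g o)) := by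
  induction p with
  | zero =>
    rw [range_zero, sum_empty]
    unfold CE
    rw [sub_eq_zero]
    apply Ent_congr
    intro o o'
    constructor
    · intro h
      exact (Prod.ext_iff.mp h).2
    · intro h
      exact Prod.ext ((tr_eq_iff 0 X o o').mpr fun q hq => absurd hq (Nat.not_lt_zero _)) h
  | succ p ih =>
    rw [sum_range_succ, ← ih, ← CE_chain w (fun o => X o p) (tr p X) g]
    apply CE_congr
    · intro o o'
      exact Iff.rfl
    · intro o o' _
      rw [tr_succ_iff]
      simp only [Prod.mk.injEq]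

/-- the chain rule without condition -/
theorem chain_Ent {w : Ω → ℝ} (hw : IsPr w) (X : Ω → ∀ q, G q) (p : ℕ) :
    ∑ q ∈ range p, CE w (fun o => X o q) (tr q X) = Ent w (tr p X) := by
  have h1 := chain w X (fun _ => ()) p
  have h2 : CE w (tr p X) (fun _ => ()) = Ent w (tr p X) := by
    unfold CE
    rw [Ent_const hw, sub_zero]
    exact Ent_congr fun o o' => by simp
  rw [← h2, h1]
  apply sum_congr rfl
  intro q _
  apply CE_congr
  · intro o o'
    simp
  · intro o o' _
    exact Iff.rfl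

/-- **Decoding of the columns**: all columns of `X` are almost determined by the columns of
`X + Y`, if every column of `Y` is rarely non-zero. -/
theorem dec_cols {η σ κ : ℝ} (hη : 0 ≤ η) (hσ : 0 < σ) (hcol : ColProp η σ) (hκ : κ ≤ η * σ)
    {w : Ω → ℝ} {w' : Ω' → ℝ} (hw : IsPr w) (hw' : IsPr w') (X : Ω → ∀ q, G q)
    (Y : Ω' → ∀ q, G q) (n : ℕ) (hY : ∀ q, q < n → mass w' (fun o => Y o q ≠ 0) ≤ κ) :
    CE (prodW w w') (fun p => tr n X p.1) (fun p => tr n (fun p : Ω × Ω' => X p.1 + Y p.2) p) ≤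
      2 * η * (Ent w (tr n X) + Ent w' (tr n Y)) := by
  have hp := hw.prod hw'
  have h0 := chain (prodW w w') (fun p : Ω × Ω' => X p.1)
    (fun p => tr n (fun p : Ω × Ω' => X p.1 + Y p.2) p) n
  have h0' : CE (prodW w w') (tr n (fun p : Ω × Ω' => X p.1))
      (fun p => tr n (fun p : Ω × Ω' => X p.1 + Y p.2) p) =
      CE (prodW w w') (fun p => tr n X p.1)
        (fun p => tr n (fun p : Ω × Ω' => X p.1 + Y p.2) p) := rfl
  rw [← h0', h0]
  have h1 : ∀ q ∈ range n, CE (prodW w w') (fun p : Ω × Ω' => X p.1 q)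
      (fun p => (tr q (fun p : Ω × Ω' => X p.1) p,
        tr n (fun p : Ω × Ω' => X p.1 + Y p.2) p)) ≤
      2 * η * CE w (fun o => X o q) (tr q X) + η * CE w' (fun o => Y o q) (tr q Y) := by
    intro q hq
    rw [mem_range] at hq
    have h2 : CE (prodW w w') (fun p : Ω × Ω' => X p.1 q)
        (fun p => (tr q (fun p : Ω × Ω' => X p.1) p,
          tr n (fun p : Ω × Ω' => X p.1 + Y p.2) p)) ≤
        CE (prodW w w') (fun p : Ω × Ω' => X p.1 q)
          (fun p => (X p.1 q + Y p.2 q, (tr q X p.1, tr q Y p.2))) := by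
      apply CE_anti hp
      intro o o' h
      obtain ⟨e1, e2⟩ := Prod.ext_iff.mp h
      simp only at e1 e2
      rw [tr_eq_iff] at e1 e2
      refine Prod.ext (e2 q hq) (Prod.ext ?_ ?_)
      · rw [tr_eq_iff]
        exact fun i hi => e1 i hi
      · rw [tr_eq_iff]
        intro i hi
        have e3 : X o.1 i + Y o.2 i = X o'.1 i + Y o'.2 i := e2 i (hi.trans hq)
        have e4 : X o.1 i = X o'.1 i := e1 i hi
        rw [e4] at e3
        exact add_left_cancel e3
    refine h2.trans ?_
    have h3 := col_past hη hσ hcol hw hw' (fun o => X o q) (fun o => Y o q) (tr q X) (tr q Y)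
    refine h3.trans ?_
    have h4 : mass w' (fun o => Y o q ≠ 0) / σ ≤ η := by
      rw [div_le_iff₀ hσ]
      exact (hY q hq).trans hκ
    have h5 := CE_nonneg hw (fun o => X o q) (tr q X)
    have h6 : (η + mass w' (fun o => Y o q ≠ 0) / σ) * CE w (fun o => X o q) (tr q X) ≤
        (2 * η) * CE w (fun o => X o q) (tr q X) := mul_le_mul_of_nonneg_right (by (clear * - h4; linarith only [h4])) h5
    linarith only [h6]
  refine (sum_le_sum h1).trans ?_
  rw [sum_add_distrib, ← mul_sum, ← mul_sum, chain_Ent hw, chain_Ent hw']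
  have h7 := Ent_nonneg hw' (tr n Y)
  have h8 : η * Ent w' (tr n Y) ≤ 2 * η * Ent w' (tr n Y) := by
    apply mul_le_mul_of_nonneg_right _ h7
    linarith
  linarith

end chain

end Pool.Agent.Helper88.RT
end

/- Helper34.TR.Pf -/
section
set_option autoImplicit false

/-!
MP_120218_co, project TR, general form: the part of an integer free of a set of primes.
-/

open Finset

namespace Pool.Agent.Helper34.TR

/-- the `P`-part of an integer -/
def ppart (P : Finset ℕ) (g : ℤ) : ℕ := ∏ q ∈ P, q ^ padicValInt q g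

/-- the part of the integer `g` free of the primes in `P` -/
def pf (P : Finset ℕ) (g : ℤ) : ℤ := g / (ppart P g : ℤ)

theorem ppart_pos {P : Finset ℕ} (hP : ∀ q ∈ P, q.Prime) (g : ℤ) : 0 < ppart P g :=
  prod_pos fun q hq => pow_pos (hP q hq).pos _

theorem fact_eq {q : ℕ} (hq : q.Prime) (g : ℤ) : padicValInt q g = g.natAbs.factorization q := by
  rw [Nat.factorization_def _ hq]
  rfl

theorem ppart_fact {P : Finset ℕ} (hP : ∀ q ∈ P, q.Prime) (g : ℤ) (q : ℕ) :
    (ppart P g).factorization q = if q ∈ P then padicValInt q g else 0 := by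
  unfold ppart
  rw [Nat.factorization_prod (fun p hp => pow_ne_zero _ (hP p hp).ne_zero), Finset.sum_apply']
  have h1 : ∀ p ∈ P, (p ^ padicValInt p g).factorization q =
      if p = q then padicValInt q g else 0 := by
    intro p hp
    rw [(hP p hp).factorization_pow, Finsupp.single_apply]
    split_ifs with h
    · rw [h]
    · rfl
  rw [sum_congr rfl h1, sum_ite_eq' P q]

theorem ppart_dvd {P : Finset ℕ} (hP : ∀ q ∈ P, q.Prime) {g : ℤ} (hg : g ≠ 0) :
    (ppart P g : ℤ) ∣ g := by
  rw [Int.natCast_dvd, ← Nat.factorization_le_iff_dvd (ppart_pos hP g).ne'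
    (Int.natAbs_ne_zero.2 hg)]
  intro q
  rw [ppart_fact hP]
  split_ifs with h
  · rw [fact_eq (hP q h)]
  · exact Nat.zero_le _

theorem ppart_mul_pf {P : Finset ℕ} (hP : ∀ q ∈ P, q.Prime) {g : ℤ} (hg : g ≠ 0) :
    (ppart P g : ℤ) * pf P g = g := by
  unfold pf
  exact Int.mul_ediv_cancel' (ppart_dvd hP hg)

theorem pf_ne_zero {P : Finset ℕ} (hP : ∀ q ∈ P, q.Prime) {g : ℤ} (hg : g ≠ 0) : pf P g ≠ 0 := by
  intro h
  have := ppart_mul_pf hP hg
  rw [h, mul_zero] at this
  exact hg this.symm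

theorem val_pf {P : Finset ℕ} (hP : ∀ q ∈ P, q.Prime) {g : ℤ} (hg : g ≠ 0) {q : ℕ}
    (hq : q.Prime) : padicValInt q (pf P g) = if q ∈ P then 0 else padicValInt q g := by
  have := Fact.mk hq
  have h1 : padicValInt q g = padicValInt q (ppart P g : ℤ) + padicValInt q (pf P g) := by
    conv_lhs => rw [← ppart_mul_pf hP hg]
    exact padicValInt.mul (by exact_mod_cast (ppart_pos hP g).ne') (pf_ne_zero hP hg)
  have h2 : padicValInt q (ppart P g : ℤ) = if q ∈ P then padicValInt q g else 0 := by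
    rw [fact_eq hq, Int.natAbs_natCast, ppart_fact hP]
  rw [h2] at h1
  split_ifs at h1 ⊢ with h
  · omega
  · omega

theorem sign_pf {P : Finset ℕ} (hP : ∀ q ∈ P, q.Prime) {g : ℤ} (hg : g ≠ 0) :
    Int.sign (pf P g) = Int.sign g := by
  have h1 : Int.sign (ppart P g : ℤ) = 1 :=
    Int.sign_eq_one_of_pos (by exact_mod_cast ppart_pos hP g)
  conv_rhs => rw [← ppart_mul_pf hP hg, Int.sign_mul, h1, one_mul]

/-- two nonzero integers with the same sign and the same valuations are equal -/
theorem eq_of_val {a b : ℤ} (ha : a ≠ 0) (hb : b ≠ 0) (hs : Int.sign a = Int.sign b)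
    (hv : ∀ q : ℕ, q.Prime → padicValInt q a = padicValInt q b) : a = b := by
  have habs : a.natAbs = b.natAbs := by
    apply Nat.eq_of_factorization_eq (Int.natAbs_ne_zero.2 ha) (Int.natAbs_ne_zero.2 hb)
    intro q
    by_cases hq : q.Prime
    · rw [← fact_eq hq, ← fact_eq hq]
      exact hv q hq
    · rw [Nat.factorization_eq_zero_of_not_prime _ hq,
        Nat.factorization_eq_zero_of_not_prime _ hq]
  rw [← Int.sign_mul_natAbs a, ← Int.sign_mul_natAbs b, hs, habs]

end Pool.Agent.Helper34.TR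
end

/- Helper26.TR.Defs -/
section
set_option autoImplicit false

/-!
MP_120218_co, project TR (translates): definitions shared by all files.
`lev`, `W0`: popular valuations.  `Pop`, `W1`: popular leading digits.  `ht`: multiplicative height.
-/

open Finset

namespace Pool.Agent.Helper26.TR

/-- the `k`-fold product set -/
def prodSet (k : ℕ) (A : Finset ℤ) : Finset ℤ :=
  (Fintype.piFinset (fun _ : Fin k => A)).image (fun f : Fin k → ℤ => ∏ i, f i)

/-- the number of elements of `A` divisible by `n` -/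
def cdiv (A : Finset ℤ) (n : ℤ) : ℕ := (A.filter (fun a => n ∣ a)).card

/-- the largest valuation at `p` of an element of `A` -/
def mval (A : Finset ℤ) (p : ℕ) : ℕ := A.sup (fun a => padicValInt p a)

open Classical in
/-- the largest `l` such that `p^l` divides at least `κ|A|` elements of `A` -/
noncomputable def lev (κ : ℝ) (A : Finset ℤ) (p : ℕ) : ℕ :=
  Nat.findGreatest (fun l => κ * (A.card : ℝ) ≤ (cdiv A ((p : ℤ) ^ l) : ℝ)) (mval A p)

/-- the primes dividing some non-zero element of `A` -/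
def prs (A : Finset ℤ) : Finset ℕ := A.biUnion (fun a => a.natAbs.primeFactors)

/-- weight of the popular valuations -/
noncomputable def W0 (κ : ℝ) (A : Finset ℤ) : ℝ := ∑ p ∈ prs A, (lev κ A p : ℝ) * Real.log p

/-- popular leading digits: for every prime `p` in `T` at least `κ|A|` elements of `A` are
congruent to `β p` modulo `p ^ e p`, and `p ^ e p` does not divide `β p` -/
def Pop (κ : ℝ) (A : Finset ℤ) (T : Finset ℕ) (e : ℕ → ℕ) (β : ℕ → ℤ) : Prop :=
  (∀ p ∈ T, p.Prime) ∧ (∀ p ∈ T, ¬ ((p : ℤ) ^ e p ∣ β p)) ∧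
    ∀ p ∈ T, κ * (A.card : ℝ) ≤ ((A.filter (fun a => (p : ℤ) ^ e p ∣ a - β p)).card : ℝ)

/-- the weight of a system of leading digits -/
noncomputable def W1 (T : Finset ℕ) (e : ℕ → ℕ) (β : ℕ → ℤ) : ℝ :=
  ∑ p ∈ T, ((e p - padicValInt p (β p) : ℕ) : ℝ) * Real.log p

/-- the height of the fraction `a/b` in lowest terms -/
def ht (a b : ℤ) : ℕ := max (a.natAbs / Int.gcd a b) (b.natAbs / Int.gcd a b)

/-- `NZ` (structure theorem for one set), as a proposition -/
def NZStatement : Prop :=
  ∀ k : ℕ, 1 ≤ k → ∀ ε : ℝ, 0 < ε → ∀ κ₀ : ℝ, 0 < κ₀ → ∃ (S : Finset ℝ) (C c : ℝ),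
    (∀ κ ∈ S, 0 < κ ∧ κ ≤ κ₀) ∧ 0 < C ∧ 0 < c ∧
    ∀ A : Finset ℤ, A.Nonempty → (0 : ℤ) ∉ A →
      ((prodSet k A).card : ℝ) < c * (A.card : ℝ) ^ ((k : ℝ) - ε) →
      ∃ κ ∈ S, ∀ (T : Finset ℕ) (e : ℕ → ℕ) (β : ℕ → ℤ), Pop κ A T e β →
        W1 T e β ≤ C * (W0 κ A + 1)

/-- the lower bound for the weight of the popular valuations (helper2), as a proposition -/
def WeightLower : Prop :=
  ∀ k : ℕ, 1 ≤ k → ∀ ε : ℝ, 0 < ε → ∃ κ₀ c : ℝ, 0 < κ₀ ∧ 0 < c ∧
    ∀ A : Finset ℤ, A.Nonempty → (0 : ℤ) ∉ A →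
      ((prodSet k A).card : ℝ) < c * (A.card : ℝ) ^ ((k : ℝ) - ε) →
      ∀ κ : ℝ, 0 < κ → κ ≤ κ₀ →
        c * (Real.log A.card * Real.log (Real.log A.card)) ≤ W0 κ A

/-- the product of `k` sets -/
def mixSet {k : ℕ} (A : Fin k → Finset ℤ) : Finset ℤ :=
  (Fintype.piFinset A).image (fun f : Fin k → ℤ => ∏ i, f i)

/-- the total popular valuation weight of the sets before `l` -/
noncomputable def W0b {k : ℕ} (κ : ℝ) (A : Fin k → Finset ℤ) (l : Fin k) : ℝ :=
  ∑ l' ∈ univ.filter (fun l' : Fin k => l' < l), W0 κ (A l')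

/-- structure theorem for `k` sets (mixed form, helper99) -/
def NZMix : Prop :=
  ∀ k : ℕ, ∀ ε : ℝ, 0 < ε → ∃ (κ : Fin k → ℝ) (C c : ℝ),
    (∀ l, 0 < κ l ∧ κ l ≤ 1) ∧ 0 < C ∧ 0 < c ∧
    ∀ (N : ℕ) (A : Fin k → Finset ℤ), (∀ l, (A l).Nonempty) → (∀ l, (0 : ℤ) ∉ A l) →
      (∀ l, (A l).card ≤ N) →
      ((mixSet A).card : ℝ) < c * (N : ℝ) ^ (-ε) * ∏ l, ((A l).card : ℝ) →
      ∃ l : Fin k, 0 < (l : ℕ) ∧
        (∀ (T : Finset ℕ) (e : ℕ → ℕ) (β : ℕ → ℤ), Pop (κ l) (A l) T e β →
          W1 T e β ≤ C * (W0b (κ l) A l + 1)) ∧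
        c * (Real.log N * Real.log (Real.log N)) ≤ W0b (κ l) A l

/-- translates, mixed form: all but boundedly many translates are jointly generic -/
def TRMix : Prop :=
  ∀ k : ℕ, 1 ≤ k → ∀ ε : ℝ, 0 < ε → ∃ (m : ℕ) (c : ℝ), 0 < c ∧
    ∀ A : Finset ℤ, A.Nonempty → ∃ E : Finset ℤ, E.card ≤ m ∧
      ∀ x : Fin k → ℤ,
        (∀ i, |(x i : ℝ)| ≤ (A.card : ℝ) ^ (c * Real.log (Real.log A.card))) →
        (univ.filter (fun i => x i ∈ E)).card ≤ 1 →
        c * (A.card : ℝ) ^ ((k : ℝ) - ε) ≤
          ((mixSet (fun i => A.image (fun a => a + x i))).card : ℝ)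

/-- translates by rational numbers, mixed form (helpers 34, 99) -/
def TRMixQ : Prop :=
  ∀ k : ℕ, 1 ≤ k → ∀ ε : ℝ, 0 < ε → ∃ (m : ℕ) (c : ℝ), 0 < c ∧
    ∀ A : Finset ℤ, A.Nonempty → ∃ E : Finset ℚ, E.card ≤ m ∧
      ∀ x : Fin k → ℚ,
        (∀ i, |((x i).num : ℝ)| ≤ (A.card : ℝ) ^ (c * Real.log (Real.log A.card)) ∧
          ((x i).den : ℝ) ≤ (A.card : ℝ) ^ (c * Real.log (Real.log A.card))) →
        (univ.filter (fun i => x i ∈ E)).card ≤ 1 →
        c * (A.card : ℝ) ^ ((k : ℝ) - ε) ≤
          (((Fintype.piFinset (fun i => A.image (fun a : ℤ => (a : ℚ) + x i))).image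
            (fun f : Fin k → ℚ => ∏ i, f i)).card : ℝ)

/-- the decoding corollary (helper84), as a proposition: the sets are decoded one after the other -/
def CORStatement : Prop :=
  ∀ k : ℕ, ∀ ζ : ℝ, 0 < ζ → ∃ κ C : ℝ, 0 < κ ∧ 0 < C ∧
    ∀ L : ℝ, 1 ≤ L → ∀ Y : Fin k → Finset ℤ, (∀ l, (Y l).Nonempty) → (∀ l, (0 : ℤ) ∉ Y l) →
      (∀ l, Real.log (Y l).card ≤ L) → ∀ M : ℝ, 1 ≤ M →
      (∀ l : Fin k, 0 < l.val → ∀ b ∈ Y l,
        (((Y l).filter (fun b' => Real.log (ht b b') ≤
          C * ∑ l' ∈ univ.filter (fun l' : Fin k => l' < l), W0 κ (Y l'))).card : ℝ) ≤ M) →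
      ∑ l, Real.log (Y l).card - k * (ζ * L + Real.log M + 1) ≤
        Real.log ((Fintype.piFinset Y).image (fun f : Fin k → ℤ => ∏ i, f i)).card

/-- almost all translates have product sets of nearly maximal size -/
def TRStatement : Prop :=
  ∀ k : ℕ, 1 ≤ k → ∀ ε : ℝ, 0 < ε → ∃ (m : ℕ) (c : ℝ), 0 < c ∧
    ∀ A : Finset ℤ, A.Nonempty → ∀ X : Finset ℤ, m < X.card →
      (∀ x ∈ X, ∀ y ∈ X, (|x - y| : ℝ) ≤ (A.card : ℝ) ^ (c * Real.log (Real.log A.card))) →
      ∃ x ∈ X, c * (A.card : ℝ) ^ ((k : ℝ) - ε) ≤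
        ((prodSet k (A.image (fun a => a + x))).card : ℝ)

end Pool.Agent.Helper26.TR
end

/- Helper24.DI.H88.PP.Defs -/
section
set_option autoImplicit false

/-!
MP_120218_co, project PP (popular primes): definitions and the statements of the modules.
-/

open Finset

namespace Pool.Agent.Helper88.PP

open Pool.Agent.Helper15.BP Pool.Agent.Helper84.TR

/-- the valuation truncated at `T`: the number of `t < T` with `q ^ (t + 1) ∣ x` -/
def vt (T q : ℕ) (x : ℤ) : ℕ := ((range T).filter (fun t => ((q : ℤ) ^ (t + 1) ∣ x))).card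

/-- the truncated valuations at the elements of `P` -/
def vP (T : ℕ) (P : Finset ℕ) (x : ℤ) : ℕ → ℕ := fun q => if q ∈ P then vt T q x else 0

/-- M2 (Phase 1): the valuations at the elements of `P` are almost determined by the sum -/
def PhaseOne : Prop :=
  ∀ η : ℝ, 0 < η → ∃ K : ℝ, 0 < K ∧
    ∀ (Ω Ω' : Type) [Fintype Ω] [Fintype Ω'] (w : Ω → ℝ) (w' : Ω' → ℝ) (X : Ω → ℤ) (Z : Ω' → ℤ)
      (T : ℕ) (P : Finset ℕ), IsPr w → IsPr w' →
      CE (prodW w w') (fun p => (vP T P (X p.1), vP T P (Z p.2))) (fun p => X p.1 + Z p.2) ≤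
        η * (Ent w X + Ent w' Z) + K * P.card

/-- `V` is `b`-spread, in the order `0, 1, 2, ...` of the coordinates -/
def Spr {J : ℕ} (b : Fin J → ℕ) (V : Finset (Fin J → ℕ)) : Prop :=
  ∀ (i : Fin J) (u : Fin J → ℕ),
    b i * (V.filter (fun v => ∀ l, l ≤ i → v l = u l)).card ≤
      (V.filter (fun v => ∀ l, l < i → v l = u l)).card

/-- the vectors with positive entries and sum at most `m` -/
def boxes (J m : ℕ) : Finset (Fin J → ℕ) :=
  (Fintype.piFinset (fun _ : Fin J => Icc 1 m)).filter (fun b => ∑ i, b i ≤ m)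

/-- M6a: large sets contain spread sets.  (The set of the `b` such that `V` contains a
`b`-uniform subtree has exactly `|V|` elements.) -/
def TreeLemma : Prop :=
  ∀ (J m : ℕ) (V : Finset (Fin J → ℕ)), 1 ≤ J → J ≤ m → (boxes J m).card < V.card →
    ∃ b : Fin J → ℕ, (∀ i, 1 ≤ b i) ∧ ∑ i, b i = m + 1 ∧ ∃ V' ⊆ V, V'.Nonempty ∧ Spr b V'

/-- M6b -/
def TreeCount : Prop :=
  ∀ (J m : ℕ), 1 ≤ J → J ≤ m → ((boxes J m).card : ℝ) ≤ (Real.exp 1 * m / J) ^ J

/-- `B` is `b`-spread inside the classes of `κ` -/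
def SprC {J : ℕ} (κ : ℤ → ℤ) (v : ℤ → Fin J → ℕ) (b : Fin J → ℕ) (B : Finset ℤ) : Prop :=
  ∀ (y : ℤ) (i : Fin J) (u : Fin J → ℕ),
    b i * (B.filter (fun x => κ x = y ∧ ∀ l, l ≤ i → v x l = u l)).card ≤
      (B.filter (fun x => κ x = y ∧ ∀ l, l < i → v x l = u l)).card

/-- M6c: selection of a spread subset -/
def Select : Prop :=
  ∀ (J m : ℕ) (κ : ℤ → ℤ) (v : ℤ → Fin J → ℕ) (A : Finset ℤ), 1 ≤ J → J ≤ m →
    (∀ x ∈ A, ∀ x' ∈ A, κ x = κ x' → v x = v x' → x = x') →
    (∀ x ∈ A, 2 * (boxes J (m + 1)).card ≤ (A.filter (fun x' => κ x' = κ x)).card) →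
    ∃ b : Fin J → ℕ, (∀ i, 1 ≤ b i) ∧ ∑ i, b i = m + 1 ∧
      ∃ B ⊆ A, SprC κ v b B ∧ A.card ≤ 2 * (boxes J (m + 1)).card * B.card

/-- the elements of `A` with the same `P`-free part as `a` -/
def cls (P : Finset ℕ) (A : Finset ℤ) (a : ℤ) : Finset ℤ :=
  A.filter (fun a' => Pool.Agent.Helper34.TR.pf P a' = Pool.Agent.Helper34.TR.pf P a)

/-- the popular prime powers outside `P` have weight at most `R` -/
def WtOut (κ R : ℝ) (P : Finset ℕ) (A : Finset ℤ) : Prop :=
  ∀ (S : Finset ℕ) (l : ℕ → ℕ), (∀ p ∈ S, p.Prime ∧ p ∉ P) →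
    (∀ p ∈ S, κ * (A.card : ℝ) ≤ ((A.filter (fun a => ((p : ℤ) ^ l p ∣ a))).card : ℝ)) →
    ∑ p ∈ S, (l p : ℝ) * Real.log p ≤ R

/-- M7: products -/
def ProdSide : Prop :=
  ∀ (k : ℕ) (ε : ℝ), 0 < ε → ∃ C : ℝ, 1 ≤ C ∧
    ∀ (A : Finset ℤ) (P : Finset ℕ) (F : ℕ), (0 : ℤ) ∉ A → 3 ≤ A.card → (∀ p ∈ P, p.Prime) →
      1 ≤ F →
      (A.card : ℝ) ≤ 2 * ((A.filter (fun a => (cls P A a).card ≤ F)).card : ℝ) →
      WtOut (1 / C) (1 / C * (Real.log A.card * Real.log (Real.log A.card))) P A →
      (A.card : ℝ) ^ ((k : ℝ) - ε) ≤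
        C * (F : ℝ) ^ k * ((Pool.Agent.Helper26.TR.prodSet k A).card : ℝ)

/-- the sums -/
def sumS (A D : Finset ℤ) : Finset ℤ := (A ×ˢ D).image (fun p => p.1 + p.2)

/-- M5: sums -/
def SumSide : Prop :=
  ∀ ε : ℝ, 0 < ε → ∃ C : ℝ, 1 ≤ C ∧
    ∀ (A : Finset ℤ) (P : Finset ℕ), (0 : ℤ) ∉ A → 3 ≤ A.card → (∀ p ∈ P, p.Prime) →
      1 ≤ P.card → C * P.card ≤ Real.log A.card →
      (A.card : ℝ) ^ (1 - 1 / C) ≤ ((A.filter (fun a =>
        (C * Real.log A.card / P.card) ^ P.card < ((cls P A a).card : ℝ))).card : ℝ) →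
      ∀ D : Finset ℤ, D.Nonempty →
        ((A.card : ℝ) * D.card) ^ (1 - ε) ≤ C * ((sumS A D).card : ℝ)

end Pool.Agent.Helper88.PP
end

/- Helper24.DI.H88.PP.Defs2 -/
section
set_option autoImplicit false

/-!
MP_120218_co, project PP (popular primes): the simplified product side and the main proposition.
(The weight condition is equivalent to a bound for the number of popular primes, up to constants.)
-/

open Finset

namespace Pool.Agent.Helper88.PP

open Pool.Agent.Helper26.TR

/-- the `k`-fold sum set -/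
def sumSet (k : ℕ) (A : Finset ℤ) : Finset ℤ :=
  (Fintype.piFinset (fun _ : Fin k => A)).image (fun f : Fin k → ℤ => ∑ i, f i)

/-- no prime outside `P` divides `|A| / C` elements of `A` -/
def Unpop (C : ℝ) (P : Finset ℕ) (A : Finset ℤ) : Prop :=
  ∀ p : ℕ, p.Prime → p ∉ P →
    C * ((A.filter (fun a => ((p : ℤ) ∣ a))).card : ℝ) < (A.card : ℝ)

/-- M7 (simplified): products, no popular prime outside `P`, small classes -/
def ProdSide0 : Prop :=
  ∀ (k : ℕ) (ε : ℝ), 0 < ε → ∃ C : ℝ, 1 ≤ C ∧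
    ∀ (A : Finset ℤ) (P : Finset ℕ) (F : ℕ), (0 : ℤ) ∉ A → 3 ≤ A.card → (∀ p ∈ P, p.Prime) →
      1 ≤ F →
      (A.card : ℝ) ≤ 2 * ((A.filter (fun a => (cls P A a).card ≤ F)).card : ℝ) →
      Unpop C P A →
      (A.card : ℝ) ^ ((k : ℝ) - ε) ≤ C * (F : ℝ) ^ k * ((prodSet k A).card : ℝ)

/-- M8: Q1 for the sets with few popular primes -/
def PopQ1 : Prop :=
  ∀ (k : ℕ) (ε : ℝ), 0 < ε → ∃ C : ℝ, 1 ≤ C ∧
    ∀ (A : Finset ℤ) (P : Finset ℕ), (0 : ℤ) ∉ A → 3 ≤ A.card → (∀ p ∈ P, p.Prime) →
      C * P.card ≤ Real.log A.card → Unpop C P A →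
      (A.card : ℝ) ^ ((k : ℝ) - ε) ≤
        C * (max (sumSet k A).card (prodSet k A).card : ℕ)

end Pool.Agent.Helper88.PP
end

/- Helper24.DI.H88.PP.Defs3 -/
section
set_option autoImplicit false

/-!
MP_120218_co, project PP: the abstract form of the sum side (labels with residues), for `⟨P⟩` and
for every group of rank `J`.
-/

open Finset

namespace Pool.Agent.Helper88.PP

/-- `κ x` is the label of `x` (its class), `ρ l s` the residue of a label modulo `q_l ^ s` -/
structure LabOK {J : ℕ} (q : Fin J → ℕ) (A : Finset ℤ) {𝒴 R : Type} (κ : ℤ → 𝒴)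
    (ρ : Fin J → ℕ → 𝒴 → R) : Prop where
  inj : ∀ x ∈ A, ∀ x' ∈ A, κ x = κ x' →
    (∀ l, padicValInt (q l) x = padicValInt (q l) x') → x = x'
  mono : ∀ l s a a', ρ l (s + 1) a = ρ l (s + 1) a' → ρ l s a = ρ l s a'
  ker : ∀ x ∈ A, ∀ x' ∈ A, (∀ l, padicValInt (q l) x = padicValInt (q l) x') → ∀ l s,
    (((q l : ℤ) ^ s) ∣ x - x' ↔
      ρ l (s - padicValInt (q l) x) (κ x) = ρ l (s - padicValInt (q l) x) (κ x'))

open Classical in
/-- M5 (abstract): if many elements lie in large classes then `A + D` is large -/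
def SumAbs : Prop :=
  ∀ ε : ℝ, 0 < ε → ∃ C : ℝ, 1 ≤ C ∧
    ∀ (J : ℕ) (q : Fin J → ℕ) (A : Finset ℤ) (𝒴 R : Type) (κ : ℤ → 𝒴) (ρ : Fin J → ℕ → 𝒴 → R),
      1 ≤ J → (∀ l, (q l).Prime) → Function.Injective q → (0 : ℤ) ∉ A → 3 ≤ A.card →
      C * J ≤ Real.log A.card → LabOK q A κ ρ →
      (A.card : ℝ) ^ (1 - 1 / C) ≤ ((A.filter (fun a =>
        (C * Real.log A.card / J) ^ J <
          ((A.filter (fun a' => κ a' = κ a)).card : ℝ))).card : ℝ) →
      ∀ D : Finset ℤ, D.Nonempty →
        ((A.card : ℝ) * D.card) ^ (1 - ε) ≤ C * ((sumS A D).card : ℝ)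

end Pool.Agent.Helper88.PP
end

/- Helper24.DI.H28.PP.Label -/
section
set_option autoImplicit false

/-!
MP_120218_co, project PP: the labels of the cosets of a group of rank `r`.
-/

open Finset

namespace Pool.Agent.Helper28.PP

open Pool.Agent.Helper88.PP

/-- `r` primes that separate a group generated by `r` positive rationals -/
theorem exists_primes (r : ℕ) (g : Fin r → ℚ) (hg : ∀ i, 0 < g i) :
    ∃ q : Fin r → ℕ, (∀ l, (q l).Prime) ∧ Function.Injective q ∧ ∀ e e' : Fin r → ℤ,
      (∀ l, padicValRat (q l) (∏ i, g i ^ e i) = padicValRat (q l) (∏ i, g i ^ e' i)) →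
      ∏ i, g i ^ e i = ∏ i, g i ^ e' i := by
  rcases Nat.eq_zero_or_pos r with hr | hr
  · subst hr
    refine ⟨fun l => l.elim0, fun l => l.elim0, fun l => l.elim0, fun e e' _ => ?_⟩
    rw [univ_eq_empty, prod_empty, prod_empty]
  obtain ⟨Q, hQ, hQr, hsep⟩ := Pool.Agent.Helper15.GL.exists_separating r g hg
  obtain ⟨S, hQS, hSP, hSr⟩ := Set.Infinite.exists_superset_ncard_eq (s := (Q : Set ℕ))
    (t := {p : ℕ | p.Prime}) Nat.infinite_setOf_prime (fun p hp => hQ p (by simpa using hp))
    (Finset.finite_toSet Q) (k := r) (by rw [Set.ncard_coe_finset]; exact hQr)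
  have hcases : ∃ S' : Finset ℕ, (S' : Set ℕ) = S ∧ S'.card = r := by
    have hfin : S.Finite := Set.finite_of_ncard_pos (by omega)
    refine ⟨hfin.toFinset, hfin.coe_toFinset, ?_⟩
    rw [← Set.ncard_eq_toFinset_card S hfin]
    exact hSr
  obtain ⟨S', hS'S, hS'r⟩ := hcases
  refine ⟨fun l => (S'.orderEmbOfFin hS'r l), ?_, ?_, ?_⟩
  · intro l
    have h1 : (S'.orderEmbOfFin hS'r l) ∈ S' := orderEmbOfFin_mem _ _ _
    have h2 : (S'.orderEmbOfFin hS'r l) ∈ S := by rw [← hS'S]; exact_mod_cast h1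
    exact hSP h2
  · intro l l' h
    exact (S'.orderEmbOfFin hS'r).injective h
  · intro e e' h
    refine hsep e e' ?_
    intro p hp
    have h1 : p ∈ S' := by
      have : p ∈ S := hQS (by simpa using hp)
      rw [← hS'S] at this
      exact_mod_cast this
    have h2 : p ∈ Set.range (S'.orderEmbOfFin hS'r) := by
      rw [range_orderEmbOfFin]
      exact_mod_cast h1
    obtain ⟨l, rfl⟩ := h2
    exact h l

/-- balls: residues of rationals -/
def ball (p : ℕ) (s : ℕ) (a : ℚ) : Set ℚ := {b | padicNorm p (a - b) ≤ (p : ℚ) ^ (-(s : ℤ))}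

theorem ball_iff (p : ℕ) [hp : Fact p.Prime] (s : ℕ) (a a' : ℚ) :
    ball p s a = ball p s a' ↔ padicNorm p (a - a') ≤ (p : ℚ) ^ (-(s : ℤ)) := by
  have hp0 : (0 : ℚ) < (p : ℚ) := by exact_mod_cast hp.out.pos
  constructor
  · intro h
    have h1 : a' ∈ ball p s a' := by
      unfold ball
      simp only [Set.mem_ofPred_eq, sub_self, padicNorm.zero]
      positivity
    rw [← h] at h1
    exact h1
  · intro h
    have hsym : padicNorm p (a' - a) ≤ (p : ℚ) ^ (-(s : ℤ)) := by
      rw [← padicNorm.neg, neg_sub]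
      exact h
    ext b
    unfold ball
    simp only [Set.mem_ofPred_eq]
    constructor
    · intro h1
      have e : a' - b = (a' - a) + (a - b) := by ring
      rw [e]
      exact (padicNorm.nonarchimedean).trans (max_le hsym h1)
    · intro h1
      have e : a - b = (a - a') + (a' - b) := by ring
      rw [e]
      exact (padicNorm.nonarchimedean).trans (max_le h h1)

theorem ball_mono (p : ℕ) [hp : Fact p.Prime] (s : ℕ) (a a' : ℚ)
    (h : ball p (s + 1) a = ball p (s + 1) a') : ball p s a = ball p s a' := by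
  rw [ball_iff] at h ⊢
  refine h.trans ?_
  have hp1 : (1 : ℚ) ≤ (p : ℚ) := by exact_mod_cast hp.out.one_le
  exact zpow_le_zpow_right₀ hp1 (by push_cast; (clear * -; linarith only []))

/-- the section: `θ n` has the valuations `n`, and `θ` is compatible with the group -/
theorem exists_theta (r : ℕ) (g : Fin r → ℚ) (hg : ∀ i, 0 < g i) (q : Fin r → ℕ)
    (hq : ∀ l, (q l).Prime) (hinj : Function.Injective q)
    (hsep : ∀ e e' : Fin r → ℤ,
      (∀ l, padicValRat (q l) (∏ i, g i ^ e i) = padicValRat (q l) (∏ i, g i ^ e' i)) →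
      ∏ i, g i ^ e i = ∏ i, g i ^ e' i) :
    ∃ θ : (Fin r → ℤ) → ℚ, (∀ n, 0 < θ n) ∧ (∀ n l, padicValRat (q l) (θ n) = n l) ∧
      ∀ (n : Fin r → ℤ) (e : Fin r → ℤ),
        θ (fun l => n l + padicValRat (q l) (∏ i, g i ^ e i)) = θ n * ∏ i, g i ^ e i := by
  classical
  obtain ⟨V, hV⟩ : ∃ V : (Fin r → ℤ) →+ (Fin r → ℤ),
      ∀ e l, V e l = padicValRat (q l) (∏ i, g i ^ e i) := by
    refine ⟨{ toFun := fun e l => ∑ i, e i * padicValRat (q l) (g i), map_zero' := ?_,
              map_add' := ?_ }, ?_⟩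
    · funext l
      simp
    · intro e e'
      funext l
      simp only [Pi.add_apply, add_mul, sum_add_distrib]
    · intro e l
      rw [Pool.Agent.Helper15.GL.val_prod _ (hq l) g hg]
      rfl
  obtain ⟨s, hs⟩ : ∃ s : (Fin r → ℤ) → (Fin r → ℤ), s = fun n =>
      Quotient.out (QuotientAddGroup.mk n : (Fin r → ℤ) ⧸ V.range) := ⟨_, rfl⟩
  have hsmem : ∀ n, ∃ E : Fin r → ℤ, V E = n - s n := by
    intro n
    have h1 : (QuotientAddGroup.mk (s n) : (Fin r → ℤ) ⧸ V.range) = QuotientAddGroup.mk n := by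
      rw [hs]
      exact Quotient.out_eq _
    rw [QuotientAddGroup.eq] at h1
    obtain ⟨E, hE⟩ := h1
    refine ⟨E, ?_⟩
    rw [hE]
    abel
  choose E hE using hsmem
  have hsadd : ∀ n e, s (n + V e) = s n := by
    intro n e
    rw [hs]
    have h1 : (QuotientAddGroup.mk (n + V e) : (Fin r → ℤ) ⧸ V.range) = QuotientAddGroup.mk n := by
      rw [QuotientAddGroup.eq]
      exact ⟨-e, by rw [map_neg]; abel⟩
    simp only [h1]
  have hprodpos : ∀ e : Fin r → ℤ, 0 < ∏ i, g i ^ e i := fun e =>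
    prod_pos fun i _ => zpow_pos (hg i) _
  have hqpos : ∀ n : Fin r → ℤ, 0 < ∏ l, ((q l : ℕ) : ℚ) ^ n l := fun n =>
    prod_pos fun l _ => zpow_pos (by exact_mod_cast (hq l).pos) _
  refine ⟨fun n => (∏ l, ((q l : ℕ) : ℚ) ^ (s n l)) * ∏ i, g i ^ (E n i), ?_, ?_, ?_⟩
  · intro n
    exact mul_pos (hqpos _) (hprodpos _)
  · intro n l
    have := Fact.mk (hq l)
    rw [padicValRat.mul (hqpos _).ne' (hprodpos _).ne', ← hV, hE]
    rw [Pool.Agent.Helper15.GL.val_prod _ (hq l) (fun l => ((q l : ℕ) : ℚ))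
      (fun l => by exact_mod_cast (hq l).pos)]
    have h1 : ∑ i, s n i * padicValRat (q l) ((q i : ℕ) : ℚ) = s n l := by
      rw [sum_eq_single l]
      · rw [padicValRat.of_nat, padicValNat_self]
        simp
      · intro i _ hi
        have := Fact.mk (hq i)
        rw [padicValRat.of_nat, padicValNat_primes (fun h => hi (hinj h).symm)]
        simp
      · intro h
        exact absurd (mem_univ l) h
    rw [h1]
    simp
  · intro n e
    have h1 : (fun l => n l + padicValRat (q l) (∏ i, g i ^ e i)) = n + V e := by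
      funext l
      rw [Pi.add_apply, hV]
    rw [h1]
    simp only
    rw [hsadd]
    have h2 : ∏ i, g i ^ (E (n + V e) i) = ∏ i, g i ^ ((E n + e) i) := by
      refine hsep _ _ ?_
      intro l
      rw [← hV, ← hV, hE, map_add, hE, hsadd]
      simp only [Pi.add_apply, Pi.sub_apply]
      ring
    have h3 : ∏ i, g i ^ ((E n + e) i) = (∏ i, g i ^ (E n i)) * ∏ i, g i ^ e i := by
      rw [← prod_mul_distrib]
      refine prod_congr rfl fun i _ => ?_
      rw [Pi.add_apply, zpow_add₀ (hg i).ne']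
    rw [h2, h3, mul_assoc]

end Pool.Agent.Helper28.PP
end

/- Helper24.DI.H28.PP.Group -/
section
set_option autoImplicit false

/-!
MP_120218_co, project PP: the sum side for the cosets of any group of rank `r`.
-/

open Finset

namespace Pool.Agent.Helper28.PP

open Pool.Agent.Helper88.PP

/-- the sum side for groups: if many elements `a` of `A` have many elements of `A` in `± a Γ`, `Γ`
generated by `r` rationals, then `A + D` is large for all `D` -/
def SumGroup : Prop :=
  ∀ ε : ℝ, 0 < ε → ∃ C : ℝ, 1 ≤ C ∧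
    ∀ (r : ℕ) (g : Fin r → ℚ) (A : Finset ℤ), 1 ≤ r → (∀ i, g i ≠ 0) → A.Nonempty →
      (A.card : ℝ) ^ (1 - 1 / C) ≤
        ({a : ℤ | a ∈ A ∧ (1 + C * Real.log A.card / r) ^ r <
          ({b : ℤ | b ∈ A ∧ ∃ e : Fin r → ℤ, (b : ℚ) = a * ∏ i, g i ^ e i ∨
            (b : ℚ) = -(a * ∏ i, g i ^ e i)}.ncard : ℝ)}.ncard : ℝ) →
      ∀ D : Finset ℤ, D.Nonempty →
        ((A.card : ℝ) * D.card) ^ (1 - ε) ≤ C * ((sumS A D).card : ℝ)

/-- the valuations as integers -/
def vv {r : ℕ} (q : Fin r → ℕ) (x : ℤ) : Fin r → ℤ := fun l => (padicValInt (q l) x : ℤ)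

/-- the labels are admissible -/
theorem labOK {r : ℕ} (q : Fin r → ℕ) (hq : ∀ l, (q l).Prime) (θ : (Fin r → ℤ) → ℚ)
    (hθ0 : ∀ n, 0 < θ n) (hθ : ∀ n l, padicValRat (q l) (θ n) = n l) (A : Finset ℤ)
    (h0 : (0 : ℤ) ∉ A) :
    LabOK q A (fun x : ℤ => (x : ℚ) / θ (vv q x)) (fun l s a => ball (q l) s a) := by
  refine ⟨?_, ?_, ?_⟩
  · intro x _ x' _ h1 h2
    have h3 : vv q x = vv q x' := by
      funext l
      unfold vv
      rw [h2 l]
    have h4 : (x : ℚ) / θ (vv q x) = (x' : ℚ) / θ (vv q x') := h1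
    rw [h3, div_left_inj' (hθ0 _).ne'] at h4
    exact_mod_cast h4
  · intro l s a a' h
    have := Fact.mk (hq l)
    exact ball_mono _ _ _ _ h
  · intro x hx x' hx' h2 l s
    have hpf := Fact.mk (hq l)
    have hx0 : x ≠ 0 := fun h => h0 (h ▸ hx)
    have hx0' : x' ≠ 0 := fun h => h0 (h ▸ hx')
    have h3 : vv q x' = vv q x := by
      funext l
      unfold vv
      rw [h2 l]
    have hp0 : (0 : ℚ) < ((q l : ℕ) : ℚ) := by exact_mod_cast (hq l).pos
    rw [ball_iff]
    rw [h3, ← sub_div]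
    have h4 : padicNorm (q l) (((x : ℚ) - x') / θ (vv q x)) =
        padicNorm (q l) ((x - x' : ℤ) : ℚ) * ((q l : ℕ) : ℚ) ^ ((padicValInt (q l) x : ℕ) : ℤ) := by
      rw [padicNorm.div, padicNorm.eq_zpow_of_nonzero (hθ0 _).ne', hθ]
      unfold vv
      rw [zpow_neg, div_inv_eq_mul]
      push_cast
      rfl
    rw [h4]
    have h5 := padicNorm.dvd_iff_norm_le (p := q l) (n := s) (z := x - x')
    have h6 : (((q l : ℕ) ^ s : ℕ) : ℤ) = (q l : ℤ) ^ s := by push_cast; rfl
    rw [h6] at h5
    rcases le_or_gt (padicValInt (q l) x) s with hle | hlt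
    · rw [h5]
      have e : (((s - padicValInt (q l) x : ℕ) : ℕ) : ℤ) = (s : ℤ) - (padicValInt (q l) x : ℕ) := by
        omega
      rw [e, ← le_div_iff₀ (zpow_pos hp0 _), ← zpow_sub₀ hp0.ne']
      have e2 : -((s : ℤ) - (padicValInt (q l) x : ℕ)) - (padicValInt (q l) x : ℕ) = -(s : ℤ) := by
        ring
      rw [e2]
    · have hd : ((q l : ℤ) ^ (padicValInt (q l) x)) ∣ x - x' := by
        refine dvd_sub ?_ ?_
        · exact padicValInt_dvd x
        · rw [h2 l]
          exact padicValInt_dvd x'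
      refine ⟨fun _ => ?_, fun _ => (pow_dvd_pow _ hlt.le).trans hd⟩
      have h7 := padicNorm.dvd_iff_norm_le (p := q l) (n := padicValInt (q l) x) (z := x - x')
      have h8 : (((q l : ℕ) ^ (padicValInt (q l) x) : ℕ) : ℤ) = (q l : ℤ) ^ (padicValInt (q l) x) := by
        push_cast; rfl
      rw [h8] at h7
      have h9 := h7.1 hd
      have e : (s - padicValInt (q l) x : ℕ) = 0 := by omega
      rw [e]
      calc padicNorm (q l) ((x - x' : ℤ) : ℚ) * ((q l : ℕ) : ℚ) ^ ((padicValInt (q l) x : ℕ) : ℤ)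
          ≤ ((q l : ℕ) : ℚ) ^ (-((padicValInt (q l) x : ℕ) : ℤ)) *
            ((q l : ℕ) : ℚ) ^ ((padicValInt (q l) x : ℕ) : ℤ) :=
            mul_le_mul_of_nonneg_right h9 (by (clear * - hp0; positivity))
        _ = 1 := by rw [← zpow_add₀ hp0.ne']; simp
        _ ≤ ((q l : ℕ) : ℚ) ^ (-((0 : ℕ) : ℤ)) := by simp

/-- the valuations of an integer and of the same rational -/
theorem vv_eq {r : ℕ} (q : Fin r → ℕ) (x : ℤ) (l : Fin r) :
    vv q x l = padicValRat (q l) (x : ℚ) := by
  unfold vv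
  rw [padicValRat.of_int]

/-- elements of one coset have the same label up to sign -/
theorem label_coset {r : ℕ} (g : Fin r → ℚ) (hg : ∀ i, g i ≠ 0) (q : Fin r → ℕ)
    (hq : ∀ l, (q l).Prime) (θ : (Fin r → ℤ) → ℚ) (hθ0 : ∀ n, 0 < θ n)
    (hθ : ∀ (n : Fin r → ℤ) (e : Fin r → ℤ),
        θ (fun l => n l + padicValRat (q l) (∏ i, |g i| ^ e i)) = θ n * ∏ i, |g i| ^ e i)
    (a b : ℤ) (ha : a ≠ 0) (e : Fin r → ℤ)
    (h : (b : ℚ) = a * ∏ i, g i ^ e i ∨ (b : ℚ) = -(a * ∏ i, g i ^ e i)) :
    (b : ℚ) / θ (vv q b) = (a : ℚ) / θ (vv q a) ∨ (b : ℚ) / θ (vv q b) = -((a : ℚ) / θ (vv q a)) := by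
  have hgpos : ∀ i, 0 < |g i| := fun i => abs_pos.2 (hg i)
  have habs : |∏ i, g i ^ e i| = ∏ i, |g i| ^ e i := by
    rw [abs_prod]
    refine prod_congr rfl fun i _ => ?_
    rw [abs_zpow]
  have hprodpos : 0 < ∏ i, |g i| ^ e i := prod_pos fun i _ => zpow_pos (hgpos i) _
  have h1 : (b : ℚ) = a * ∏ i, |g i| ^ e i ∨ (b : ℚ) = -(a * ∏ i, |g i| ^ e i) := by
    rw [← habs]
    rcases abs_choice (∏ i, g i ^ e i) with h2 | h2
    · rw [h2]; exact h
    · rw [h2]
      rcases h with h | h
      · right; rw [h]; ring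
      · left; rw [h]; ring
  have haQ : (a : ℚ) ≠ 0 := by exact_mod_cast ha
  have hv : vv q b = fun l => vv q a l + padicValRat (q l) (∏ i, |g i| ^ e i) := by
    funext l
    have := Fact.mk (hq l)
    rw [vv_eq, vv_eq]
    rcases h1 with h1 | h1
    · rw [h1, padicValRat.mul haQ hprodpos.ne']
    · rw [h1, padicValRat.neg, padicValRat.mul haQ hprodpos.ne']
  have hθb : θ (vv q b) = θ (vv q a) * ∏ i, |g i| ^ e i := by
    rw [hv]
    exact hθ _ _
  have hθa := (hθ0 (vv q a)).ne'
  rcases h1 with h1 | h1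
  · left
    rw [hθb, h1]
    (clear * - hprodpos hθa haQ; field_simp)
  · right
    rw [hθb, h1]
    (clear * - hprodpos hθa haQ; field_simp)

/-- counting: elements whose `±` class is large -/
theorem count_sign (A B : Finset ℤ) (κ : ℤ → ℚ) (T : ℝ) (hBA : B ⊆ A)
    (hB : ∀ a ∈ B, 2 * T < ((A.filter (fun b => κ b = κ a ∨ κ b = -κ a)).card : ℝ)) :
    B.card ≤ 2 * (A.filter (fun a => T < ((A.filter (fun b => κ b = κ a)).card : ℝ))).card := by
  classical
  set G := A.filter (fun a => T < ((A.filter (fun b => κ b = κ a)).card : ℝ)) with hG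
  have h1 : (B.filter (fun a => a ∈ G)).card ≤ G.card :=
    card_le_card fun a ha => (mem_filter.1 ha).2
  have h2 : (B.filter (fun a => a ∉ G)).card ≤ G.card := by
    set B2 := B.filter (fun a => a ∉ G) with hB2
    have hkey : ∀ a ∈ B2, (A.filter (fun b => κ b = κ a)).card ≤
        (G.filter (fun b => -κ b = κ a)).card := by
      intro a ha
      rw [hB2, mem_filter] at ha
      have h3 := hB a ha.1
      have h4 : ((A.filter (fun b => κ b = κ a)).card : ℝ) ≤ T := by
        by_contra hcon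
        push Not at hcon
        exact ha.2 (mem_filter.2 ⟨hBA ha.1, hcon⟩)
      have h5 : ((A.filter (fun b => κ b = κ a ∨ κ b = -κ a)).card : ℝ) ≤
          ((A.filter (fun b => κ b = κ a)).card : ℝ) +
          ((A.filter (fun b => κ b = -κ a)).card : ℝ) := by
        rw [filter_or]
        exact_mod_cast card_union_le _ _
      have h6 : T < ((A.filter (fun b => κ b = -κ a)).card : ℝ) := by linarith only [h3, h4, h5]
      have h7 : A.filter (fun b => κ b = -κ a) ⊆ G.filter (fun b => -κ b = κ a) := by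
        intro b hb
        rw [mem_filter] at hb
        rw [mem_filter, hG, mem_filter]
        refine ⟨⟨hb.1, ?_⟩, by rw [hb.2, neg_neg]⟩
        rw [hb.2]
        exact h6
      have h8 : ((A.filter (fun b => κ b = -κ a)).card : ℝ) ≤
          ((G.filter (fun b => -κ b = κ a)).card : ℝ) := by exact_mod_cast card_le_card h7
      have h9 : ((A.filter (fun b => κ b = κ a)).card : ℝ) ≤
          ((G.filter (fun b => -κ b = κ a)).card : ℝ) := by linarith only [h4, h6, h8]
      exact_mod_cast h9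
    calc B2.card = ∑ y ∈ B2.image κ, (B2.filter (fun a => κ a = y)).card :=
          card_eq_sum_card_image κ B2
      _ ≤ ∑ y ∈ B2.image κ, (G.filter (fun b => -κ b = y)).card := by
          refine sum_le_sum fun y hy => ?_
          obtain ⟨a, ha, rfl⟩ := mem_image.1 hy
          refine (card_le_card ?_).trans (hkey a ha)
          intro b hb
          rw [mem_filter] at hb ⊢
          exact ⟨hBA (mem_filter.1 hb.1).1, hb.2⟩
      _ ≤ G.card := by
          rw [← card_biUnion]
          · exact card_le_card fun b hb => by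
              obtain ⟨y, _, hb⟩ := mem_biUnion.1 hb
              exact (mem_filter.1 hb).1
          · intro y _ y' _ hne
            rw [Function.onFun, disjoint_left]
            intro b hb hb'
            exact hne ((mem_filter.1 hb).2.symm.trans (mem_filter.1 hb').2)
  have h3 : (B.filter (fun a => a ∈ G)).card + (B.filter (fun a => a ∉ G)).card = B.card :=
    card_filter_add_card_filter_not _
  omega

/-- `e ^ L ≤ (1 + C L / r) ^ r` if `L ≤ K r` -/
theorem exp_le_pow (K C L : ℝ) (r : ℕ) (hr : 1 ≤ r) (hL : 0 ≤ L) (hK : L ≤ K * r)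
    (hC : Real.exp K ≤ C) : Real.exp L ≤ (1 + C * L / r) ^ r := by
  have hr0 : (0 : ℝ) < r := by exact_mod_cast hr
  obtain ⟨x, hx⟩ : ∃ x : ℝ, x = L / r := ⟨_, rfl⟩
  have hx0 : 0 ≤ x := by rw [hx]; (clear * - hL hr; positivity)
  have hxK : x ≤ K := by rw [hx, div_le_iff₀ hr0]; exact hK
  have h1 : Real.exp x ≤ 1 + C * x := by
    have h2 : 1 - x ≤ Real.exp (-x) := by
      have := Real.add_one_le_exp (-x)
      linarith only [this]
    have h3 : Real.exp x * Real.exp (-x) = 1 := by rw [← Real.exp_add]; simp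
    have h4 : 0 < Real.exp x := Real.exp_pos x
    have h5 : Real.exp x ≤ Real.exp K := Real.exp_le_exp.2 hxK
    have h6 : Real.exp x * (1 - x) ≤ 1 :=
      (mul_le_mul_of_nonneg_left h2 h4.le).trans (le_of_eq h3)
    have h7 : x * Real.exp x ≤ x * C := mul_le_mul_of_nonneg_left (h5.trans hC) hx0
    (clear * - h6 h7; linarith only [h6, h7])
  have e1 : Real.exp L = Real.exp x ^ r := by
    rw [← Real.exp_nat_mul, hx]
    congr 1
    field_simp
  have e2 : C * L / r = C * x := by rw [hx]; ring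
  rw [e1, e2]
  exact pow_le_pow_left₀ (Real.exp_pos x).le h1 r

theorem sumGroup (hS : SumAbs) : SumGroup := by
  classical
  intro ε hε
  obtain ⟨C₀, hC₀, hmain⟩ := hS ε hε
  obtain ⟨K, hK⟩ : ∃ K : ℝ, K = 4 * C₀ + 4 := ⟨_, rfl⟩
  have hexpK : 0 < Real.exp K := Real.exp_pos K
  obtain ⟨C, hC⟩ : ∃ C : ℝ, C = Real.exp K + 4 * C₀ := ⟨_, rfl⟩
  refine ⟨C, by linarith only [hC₀, hexpK, hC], ?_⟩
  intro r g A hr hg hA hbig D hD
  have hN1 : (1 : ℝ) ≤ (A.card : ℝ) := by exact_mod_cast hA.card_pos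
  have hN0 : (0 : ℝ) < (A.card : ℝ) := by (clear * - hN1; linarith only [hN1])
  obtain ⟨L, hL⟩ : ∃ L : ℝ, L = Real.log A.card := ⟨_, rfl⟩
  have hL0 : 0 ≤ L := by rw [hL]; exact Real.log_nonneg hN1
  have hr1 : (1 : ℝ) ≤ (r : ℝ) := by exact_mod_cast hr
  have hr0 : (0 : ℝ) < (r : ℝ) := by linarith only [hr1]
  rw [← hL] at hbig
  -- the fibres as finsets
  set fib : ℤ → Finset ℤ := fun a => A.filter (fun b => ∃ e : Fin r → ℤ,
    (b : ℚ) = a * ∏ i, g i ^ e i ∨ (b : ℚ) = -(a * ∏ i, g i ^ e i)) with hfib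
  have hfibn : ∀ a : ℤ, ({b : ℤ | b ∈ A ∧ ∃ e : Fin r → ℤ, (b : ℚ) = a * ∏ i, g i ^ e i ∨
            (b : ℚ) = -(a * ∏ i, g i ^ e i)}.ncard) = (fib a).card := by
    intro a
    rw [← Set.ncard_coe_finset]
    congr 1
    ext b
    simp [hfib]
  obtain ⟨B, hB⟩ : ∃ B : Finset ℤ, B = A.filter (fun a => (1 + C * L / r) ^ r <
      ((fib a).card : ℝ)) := ⟨_, rfl⟩
  have hBn : ({a : ℤ | a ∈ A ∧ (1 + C * L / r) ^ r <
          ({b : ℤ | b ∈ A ∧ ∃ e : Fin r → ℤ, (b : ℚ) = a * ∏ i, g i ^ e i ∨
            (b : ℚ) = -(a * ∏ i, g i ^ e i)}.ncard : ℝ)}.ncard) = B.card := by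
    rw [← Set.ncard_coe_finset]
    congr 1
    ext a
    rw [hB]
    simp only [Set.mem_ofPred_eq, coe_filter]
    rw [hfibn]
  rw [hBn] at hbig
  have hfibN : ∀ a, ((fib a).card : ℝ) ≤ (A.card : ℝ) := fun a => by
    exact_mod_cast card_le_card (filter_subset _ _)
  rcases le_or_gt L (K * r) with hsmall | hlarge
  · -- small sets: no large fibres
    exfalso
    have h1 := exp_le_pow K C L r hr hL0 hsmall (by rw [hC]; linarith only [hC₀])
    have h2 : Real.exp L = (A.card : ℝ) := by rw [hL, Real.exp_log hN0]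
    have h3 : B = ∅ := by
      rw [hB, filter_eq_empty_iff]
      intro a _ h4
      have := hfibN a
      linarith only [h1, h2, h4, this]
    rw [h3, card_empty, Nat.cast_zero] at hbig
    have : 0 < (A.card : ℝ) ^ (1 - 1 / C) := Real.rpow_pos_of_pos hN0 _
    linarith only [hbig, this]
  -- the non-zero elements
  obtain ⟨A', hA'⟩ : ∃ A' : Finset ℤ, A' = A.erase 0 := ⟨_, rfl⟩
  have hA'0 : (0 : ℤ) ∉ A' := by rw [hA']; exact notMem_erase _ _
  have hA'A : A' ⊆ A := by rw [hA']; exact erase_subset _ _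
  have hKr : K ≤ K * r := by (clear * - hK hr1 hC₀; nlinarith only [hC₀, hK, hr1])
  have hLK : K < L := by linarith only [hlarge, hKr]
  have hN5 : (5 : ℝ) ≤ (A.card : ℝ) := by
    have h1 : Real.exp L = (A.card : ℝ) := by rw [hL, Real.exp_log hN0]
    rw [← h1]
    have := Real.add_one_le_exp L
    linarith only [hC₀, hK, hLK, this]
  have hN5' : 5 ≤ A.card := by exact_mod_cast hN5
  have hcard' : A.card ≤ A'.card + 1 := by
    rw [hA']
    have := pred_card_le_card_erase (a := (0 : ℤ)) (s := A)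
    omega
  have hcardR : (A.card : ℝ) ≤ (A'.card : ℝ) + 1 := by exact_mod_cast hcard'
  have hcardle : (A'.card : ℝ) ≤ (A.card : ℝ) := by exact_mod_cast card_le_card hA'A
  have hN'0 : (0 : ℝ) < (A'.card : ℝ) := by linarith only [hN5, hcardR]
  obtain ⟨L', hL'⟩ : ∃ L' : ℝ, L' = Real.log A'.card := ⟨_, rfl⟩
  have hL'L : L' ≤ L := by
    rw [hL', hL]
    exact Real.log_le_log hN'0 hcardle
  have hLL' : L - 1 ≤ L' := by
    have h1 : (A.card : ℝ) ≤ 2 * (A'.card : ℝ) := by linarith only [hN5, hcardR]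
    have h2 : L ≤ Real.log 2 + L' := by
      rw [hL, hL', ← Real.log_mul (by norm_num) hN'0.ne']
      exact Real.log_le_log hN0 h1
    have h3 := Real.log_two_lt_d9
    (clear * - h2 h3; linarith only [h2, h3])
  have hL'0 : 0 ≤ L' := by linarith only [hC₀, hK, hLK, hLL']
  -- the labels
  obtain ⟨q, hq, hinj, hsep⟩ := exists_primes r (fun i => |g i|) (fun i => abs_pos.2 (hg i))
  obtain ⟨θ, hθ0, hθv, hθg⟩ := exists_theta r (fun i => |g i|) (fun i => abs_pos.2 (hg i)) q hq
    hinj hsep
  have hlab := labOK q hq θ hθ0 hθv A' hA'0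
  set κ : ℤ → ℚ := fun x : ℤ => (x : ℚ) / θ (vv q x) with hκ
  -- the elements with large fibres are non-zero
  have hpow1 : (1 : ℝ) ≤ (1 + C * L / r) ^ r := by
    refine one_le_pow₀ ?_
    have : 0 ≤ C * L / r := by
      have : 0 ≤ C := by linarith only [hC₀, hexpK, hC]
      (clear * - this hL0 hr; positivity)
    linarith only [this]
  have hB0 : ∀ a ∈ B, a ≠ 0 := by
    intro a ha h0
    rw [hB, mem_filter] at ha
    have h1 : (fib a).card ≤ 1 := by
      rw [card_le_one]
      intro x hx y hy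
      simp only [hfib, mem_filter] at hx hy
      obtain ⟨-, e, he⟩ := hx
      obtain ⟨-, e', he'⟩ := hy
      rw [h0] at he he'
      have hx0 : (x : ℚ) = 0 := by rcases he with h | h <;> rw [h] <;> simp
      have hy0 : (y : ℚ) = 0 := by rcases he' with h | h <;> rw [h] <;> simp
      have hx1 : x = 0 := by exact_mod_cast hx0
      have hy1 : y = 0 := by exact_mod_cast hy0
      rw [hx1, hy1]
    have h2 : ((fib a).card : ℝ) ≤ 1 := by exact_mod_cast h1
    linarith only [hpow1, ha, h2]
  have hBA' : B ⊆ A' := by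
    intro a ha
    have h1 := hB0 a ha
    rw [hB, mem_filter] at ha
    rw [hA', mem_erase]
    exact ⟨h1, ha.1⟩
  obtain ⟨T, hT⟩ : ∃ T : ℝ, T = (C₀ * L' / r) ^ r := ⟨_, rfl⟩
  have h2T : 2 * T ≤ (1 + C * L / r) ^ r := by
    have h1 : 2 * (C₀ * L' / r) ≤ 1 + C * L / r := by
      have h2 : 2 * (C₀ * L' / r) = (2 * C₀) * L' / r := by ring
      have h3 : (2 * C₀) * L' / r ≤ C * L / r := by
        refine div_le_div_of_nonneg_right ?_ hr0.le
        exact mul_le_mul (by linarith only [hC₀, hexpK, hC]) hL'L hL'0 (by linarith only [hC₀, hexpK, hC])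
      linarith only [h2, h3]
    have h4 : (0 : ℝ) ≤ C₀ * L' / r := by (clear * - hC₀ hL'0 hr; positivity)
    have h5 : (2 : ℝ) ≤ 2 ^ r := by
      calc (2 : ℝ) = 2 ^ 1 := by norm_num
        _ ≤ 2 ^ r := pow_le_pow_right₀ (by norm_num) hr
    calc 2 * T ≤ 2 ^ r * T := mul_le_mul_of_nonneg_right h5 (by rw [hT]; (clear * - hC₀ hL'0 hr; positivity))
      _ = (2 * (C₀ * L' / r)) ^ r := by rw [hT, mul_pow]
      _ ≤ (1 + C * L / r) ^ r := pow_le_pow_left₀ (by (clear * - hC₀ hL'0 hr; positivity)) h1 r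
  have hcount := count_sign A' B κ T hBA' (by
    intro a ha
    have h0 := hB0 a ha
    rw [hB, mem_filter] at ha
    refine lt_of_le_of_lt h2T (lt_of_lt_of_le ha.2 ?_)
    have : fib a ⊆ A'.filter (fun b => κ b = κ a ∨ κ b = -κ a) := by
      intro b hb
      simp only [hfib, mem_filter] at hb
      obtain ⟨hbA, e, he⟩ := hb
      rw [mem_filter, hA', mem_erase]
      refine ⟨⟨?_, hbA⟩, ?_⟩
      · intro hb0
        have hprod : ∏ i, g i ^ e i ≠ 0 := prod_ne_zero_iff.2 fun i _ => zpow_ne_zero _ (hg i)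
        have haQ : (a : ℚ) ≠ 0 := by exact_mod_cast h0
        rw [hb0] at he
        rcases he with he | he
        · exact mul_ne_zero haQ hprod (by rw [← he]; simp)
        · refine mul_ne_zero haQ hprod ?_
          have : (0 : ℚ) = -(a * ∏ i, g i ^ e i) := by rw [← he]; simp
          linarith only [this]
      · exact label_coset g hg q hq θ hθ0 hθg a b h0 e he
    exact_mod_cast card_le_card this)
  -- the abstract theorem
  have hx : 0 < Real.log 2 := Real.log_pos (by norm_num)
  have hgood : (A'.card : ℝ) ^ (1 - 1 / C₀) ≤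
      ((A'.filter (fun a => T < ((A'.filter (fun b => κ b = κ a)).card : ℝ))).card : ℝ) := by
    have h1 : (B.card : ℝ) ≤
        2 * ((A'.filter (fun a => T < ((A'.filter (fun b => κ b = κ a)).card : ℝ))).card : ℝ) := by
      exact_mod_cast hcount
    have h2 : 2 * (A'.card : ℝ) ^ (1 - 1 / C₀) ≤ (A.card : ℝ) ^ (1 - 1 / C) := by
      have h3 : (A'.card : ℝ) ^ (1 - 1 / C₀) ≤ (A.card : ℝ) ^ (1 - 1 / C₀) := by
        refine Real.rpow_le_rpow hN'0.le hcardle ?_
        have : 1 / C₀ ≤ 1 := by rw [div_le_one (by linarith only [hC₀])]; exact hC₀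
        linarith only [this]
      have h4 : (2 : ℝ) ≤ (A.card : ℝ) ^ (1 / C₀ - 1 / C) := by
        have h5 : 1 / C ≤ 1 / (4 * C₀) :=
          one_div_le_one_div_of_le (by linarith only [hC₀]) (by linarith only [hexpK, hC])
        have h6 : 3 / (4 * C₀) ≤ 1 / C₀ - 1 / C := by
          have : 1 / C₀ - 1 / (4 * C₀) = 3 / (4 * C₀) := by
            field_simp
            norm_num
          linarith only [h5, this]
        have h7 : 3 ≤ L * (3 / (4 * C₀)) := by
          rw [mul_div_assoc', le_div_iff₀ (by linarith only [hC₀])]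
          linarith only [hK, hlarge, hKr]
        have h8 : (1 : ℝ) ≤ L * (1 / C₀ - 1 / C) := by
          have := mul_le_mul_of_nonneg_left h6 hL0
          linarith only [h7, this]
        rw [Real.rpow_def_of_pos hN0, ← hL]
        have := Real.add_one_le_exp (L * (1 / C₀ - 1 / C))
        linarith only [h8, this]
      calc 2 * (A'.card : ℝ) ^ (1 - 1 / C₀) ≤
            (A.card : ℝ) ^ (1 / C₀ - 1 / C) * (A.card : ℝ) ^ (1 - 1 / C₀) :=
            mul_le_mul h4 h3 (by (clear * - hN'0; positivity)) (by (clear * - hA hL'0 hT hA' hA'0 hA'A hcard' hcardR hcardle hN'0 hL' hlab h3 hB0 hBA' hcount h1 hL hL0 hL'L hLL' hbig hB hBn hpow1 h2T h4 hK hexpK hC hlarge hKr hLK; positivity))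
        _ = (A.card : ℝ) ^ (1 - 1 / C) := by
            rw [← Real.rpow_add hN0]
            congr 1
            ring
    linarith only [hbig, h1, h2]
  have h3card : 3 ≤ A'.card := by (clear * - C g L B hN5' hcard' q θ T; omega)
  have hJL : C₀ * r ≤ Real.log A'.card := by
    rw [← hL']
    nlinarith only [hC₀, hK, hlarge, hKr, hLL']
  rw [hT, hL'] at hgood
  have hfin := hmain r q A' ℚ (Set ℚ) κ (fun l s a => ball (q l) s a) hr hq hinj hA'0 h3card hJL
    hlab (by
      refine hgood.trans (le_of_eq ?_)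
      congr 2
      ext a
      simp only [mem_filter]
      refine and_congr_right fun _ => ?_
      have : (A'.filter (fun b => κ b = κ a)) =
        @Finset.filter ℤ (fun a' => κ a' = κ a) (fun a' => Classical.propDecidable _) A' := by
        ext b
        simp only [mem_filter]
      rw [this]) D hD
  have hsub : ((sumS A' D).card : ℝ) ≤ ((sumS A D).card : ℝ) := by
    unfold sumS
    exact_mod_cast card_le_card (image_subset_image (product_subset_product_left hA'A))
  have hD1 : (1 : ℝ) ≤ (D.card : ℝ) := by exact_mod_cast hD.card_pos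
  have hfin2 : ((A.card : ℝ) * D.card) ^ (1 - ε) ≤ 2 * ((A'.card : ℝ) * D.card) ^ (1 - ε) := by
    rcases le_or_gt ε 1 with h1 | h1
    · have h2 : ((A.card : ℝ) * D.card) ^ (1 - ε) ≤ (2 * ((A'.card : ℝ) * D.card)) ^ (1 - ε) := by
        refine Real.rpow_le_rpow (by (clear * - hA hL'0 hT hA' hA'0 hA'A hcard' hcardR hcardle hN'0 hL' hlab hgood h3card hJL hfin hsub hB0 hBA' hcount hL hL0 hL'L hLL' hbig hB hBn hpow1 h2T hK hexpK hC hlarge hKr hLK hD; positivity)) ?_ (by linarith only [h1])
        have : (A.card : ℝ) ≤ 2 * (A'.card : ℝ) := by linarith only [hN5, hcardR]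
        nlinarith only [this]
      refine h2.trans ?_
      rw [Real.mul_rpow (by norm_num) (by (clear * - h3card hD hL'0 hT hA' hA'0 hA'A hcard' hcardR hcardle hN'0 hL' hlab hgood hJL hfin hsub h2 hB0 hBA' hcount hL hL0 hL'L hLL' hbig hB hBn hpow1 h2T hK hexpK hC hlarge hKr hLK; positivity))]
      refine mul_le_mul_of_nonneg_right ?_ (by (clear * - h3card hD hL'0 hT hA' hA'0 hA'A hcard' hcardR hcardle hN'0 hL' hlab hgood hJL hfin hsub h2 hB0 hBA' hcount hL hL0 hL'L hLL' hbig hB hBn hpow1 h2T hK hexpK hC hlarge hKr hLK; positivity))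
      calc (2 : ℝ) ^ (1 - ε) ≤ 2 ^ (1 : ℝ) :=
            Real.rpow_le_rpow_of_exponent_le (by norm_num) (by linarith only [hε])
        _ = 2 := Real.rpow_one 2
    · have h2 : ((A.card : ℝ) * D.card) ^ (1 - ε) ≤ ((A'.card : ℝ) * D.card) ^ (1 - ε) := by
        refine Real.rpow_le_rpow_of_nonpos (by (clear * - h3card hD hL'0 hT hA' hA'0 hA'A hcard' hcardR hcardle hN'0 hL' hlab hgood hJL hfin hsub hB0 hBA' hcount hL hL0 hL'L hLL' hbig hB hBn hpow1 h2T hK hexpK hC hlarge hKr hLK; positivity)) ?_ (by linarith only [h1])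
        exact mul_le_mul_of_nonneg_right hcardle (by (clear * - hD hL'0 hT hA' hA'0 hA'A hcard' hcardR hcardle hN'0 hL' hlab hgood h3card hJL hfin hsub hB0 hBA' hcount hL hL0 hL'L hLL' hbig hB hBn hpow1 h2T hK hexpK hC hlarge hKr hLK; positivity))
      have h3 : 0 ≤ ((A'.card : ℝ) * D.card) ^ (1 - ε) := by (clear * - h3card hD hL'0 hT hA' hA'0 hA'A hcard' hcardR hcardle hN'0 hL' hlab hgood hJL hfin hsub h2 hB0 hBA' hcount hL hL0 hL'L hLL' hbig hB hBn hpow1 h2T hK hexpK hC hlarge hKr hLK; positivity)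
      linarith only [h2, h3]
  calc ((A.card : ℝ) * D.card) ^ (1 - ε) ≤ 2 * ((A'.card : ℝ) * D.card) ^ (1 - ε) := hfin2
    _ ≤ 2 * (C₀ * ((sumS A' D).card : ℝ)) := mul_le_mul_of_nonneg_left hfin (by norm_num)
    _ ≤ 2 * (C₀ * ((sumS A D).card : ℝ)) := by
        refine mul_le_mul_of_nonneg_left ?_ (by norm_num)
        exact mul_le_mul_of_nonneg_left hsub (by linarith only [hC₀])
    _ ≤ C * ((sumS A D).card : ℝ) := by
        have : (0 : ℝ) ≤ ((sumS A D).card : ℝ) := by (clear * -; positivity)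
        nlinarith only [hC₀, hexpK, hC]

end Pool.Agent.Helper28.PP
end

/- Helper24.DI.H88.PP.Guess -/
section
set_option autoImplicit false

/-!
MP_120218_co, project PP: guessing errors, the stopped chain rule, domination.
-/

open Finset

namespace Pool.Agent.Helper88.PP

open Pool.Agent.Helper15.BP Pool.Agent.Helper84.TR Pool.Agent.Helper88.RT

variable {Ω Ω' : Type} [Fintype Ω] [Fintype Ω'] {α β γ : Type}

omit [Fintype Ω] in
theorem nonempty_of_isPr [Fintype Ω] {w : Ω → ℝ} (hw : IsPr w) : Nonempty Ω := by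
  by_contra h
  rw [not_nonempty_iff] at h
  have h1 := hw.sum_one
  simp at h1

theorem mass_eq_pr (w : Ω → ℝ) (f : Ω → α) (a : α) : mass w (fun o => f o = a) = pr w f a := by
  unfold mass pr
  apply sum_congr rfl
  intro o _
  congr

/-- the entropy is at least the error of the best guess -/
theorem exists_mode {w : Ω → ℝ} (hw : IsPr w) (f : Ω → α) :
    ∃ a, mass w (fun o => f o ≠ a) ≤ Ent w f := by
  classical
  obtain ⟨o₁⟩ := nonempty_of_isPr hw
  obtain ⟨o₀, -, ho₀⟩ := exists_max_image univ (fun o => pr w f (f o)) ⟨o₁, mem_univ _⟩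
  refine ⟨f o₀, ?_⟩
  have h1 : mass w (fun o => f o ≠ f o₀) = 1 - pr w f (f o₀) := by
    rw [← mass_eq_pr w f (f o₀), ← mass_not hw (fun o => f o = f o₀)]
  have h2 : 1 - pr w f (f o₀) = ∑ o, w o * (1 - pr w f (f o₀)) := by
    rw [← sum_mul, hw.sum_one, one_mul]
  rw [h1, h2]
  unfold Ent
  apply sum_le_sum
  intro o _
  rcases (hw.nonneg o).eq_or_lt with h0 | h0
  · rw [← h0, zero_mul, zero_mul]
  · apply mul_le_mul_of_nonneg_left _ (hw.nonneg o)
    have h3 := pr_pos hw f h0
    have h4 := Real.log_le_sub_one_of_pos h3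
    have h5 := ho₀ o (mem_univ _)
    linarith only [h4, h5]

/-- the conditional entropy is at least the error of the best guess -/
theorem exists_guess {w : Ω → ℝ} (hw : IsPr w) (f : Ω → α) (g : Ω → β) :
    ∃ G : β → α, mass w (fun o => f o ≠ G (g o)) ≤ CE w f g := by
  classical
  obtain ⟨o₁⟩ := nonempty_of_isPr hw
  have h : ∀ b : β, ∃ a : α, pr w g b ≠ 0 →
      mass (cw w g b) (fun o => f o ≠ a) ≤ Ent (cw w g b) f := by
    intro b
    by_cases hb : pr w g b = 0
    · exact ⟨f o₁, fun h => absurd hb h⟩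
    · obtain ⟨a, ha⟩ := exists_mode (cw_isPr hw g b hb) f
      exact ⟨a, fun _ => ha⟩
  choose G hG using h
  refine ⟨G, ?_⟩
  rw [mass_fib hw _ g, Ent_fib hw f g]
  apply sum_le_sum
  intro b _
  by_cases hb : pr w g b = 0
  · rw [hb, zero_mul, zero_mul]
  · apply mul_le_mul_of_nonneg_left _ (pr_nonneg hw g b)
    refine le_trans (le_of_eq ?_) (hG b hb)
    unfold mass
    apply sum_congr rfl
    intro o _
    by_cases h : g o = b
    · simp only [h]
      congr
    · have h0 : cw w g b o = 0 := by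
        unfold cw
        rw [if_neg h]
      rw [h0]
      simp

theorem mass_split [DecidableEq β] {w : Ω → ℝ} (κ : Ω → β) (p : Ω → Prop) :
    mass w p = ∑ k ∈ univ.image κ, mass w (fun o => κ o = k ∧ p o) := by
  classical
  unfold mass
  rw [sum_comm]
  apply sum_congr rfl
  intro o _
  rw [sum_eq_single (κ o)]
  · simp
  · intro k _ hk
    rw [if_neg]
    intro h
    exact hk h.1.symm
  · intro h
    exact absurd (mem_image_of_mem κ (mem_univ o)) h

theorem mass_zero {w : Ω → ℝ} {p : Ω → Prop} (h : ∀ o, ¬ p o) : mass w p = 0 := by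
  unfold mass
  apply sum_eq_zero
  intro o _
  rw [if_neg (h o)]

/-- the chain rule for digits which are revealed until a stopping time -/
theorem stop_chain {w : Ω → ℝ} (hw : IsPr w) (V : Ω → ℕ) (P : Ω → α) (N : ℕ → Ω → γ)
    (hN : ∀ s o o', N (s + 1) o = N (s + 1) o' → N s o = N s o') (j : ℕ) :
    ∃ G : ℕ → α × γ → Option γ, ∑ a ∈ range j, mass w (fun o => V o < a + 1 ∧
      some (N (j - a) o) ≠ G a (P o, N (j - (a + 1)) o)) ≤
      CE w (fun o => (V o, N (j - V o) o)) P := by
  classical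
  have hmono : ∀ s t o o', s ≤ t → N t o = N t o' → N s o = N s o' := by
    intro s t o o' hst
    induction t, hst using Nat.le_induction with
    | base => exact id
    | succ t _ ih => exact fun h => ih (hN t o o' h)
  set Ψ : ℕ → Ω → α × Option ℕ × γ := fun a o =>
    (P o, (if a ≤ V o then some (V o) else none), N (j - max a (V o)) o) with hΨ
  have hstep : ∀ a o o', Ψ a o = Ψ a o' → Ψ (a + 1) o = Ψ (a + 1) o' := by
    intro a o o' h
    simp only [hΨ, Prod.mk.injEq] at h ⊢
    obtain ⟨h1, h2, h3⟩ := h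
    refine ⟨h1, ?_, ?_⟩
    · by_cases hv : a ≤ V o
      · rw [if_pos hv] at h2
        by_cases hv' : a ≤ V o'
        · rw [if_pos hv'] at h2
          rw [Option.some.injEq] at h2
          rw [h2]
        · rw [if_neg hv'] at h2
          exact absurd h2 (by simp)
      · rw [if_neg hv] at h2
        by_cases hv' : a ≤ V o'
        · rw [if_pos hv'] at h2
          exact absurd h2 (by simp)
        · rw [if_neg (by omega), if_neg (by omega)]
    · by_cases hv : a ≤ V o
      · rw [if_pos hv] at h2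
        by_cases hv' : a ≤ V o'
        · rw [if_pos hv'] at h2
          rw [Option.some.injEq] at h2
          rw [← h2] at h3 ⊢
          exact hmono _ _ o o' (by omega) h3
        · rw [if_neg hv'] at h2
          exact absurd h2 (by simp)
      · rw [if_neg hv] at h2
        by_cases hv' : a ≤ V o'
        · rw [if_pos hv'] at h2
          exact absurd h2 (by simp)
        · have e1 : max a (V o) = a := by omega
          have e2 : max a (V o') = a := by omega
          have e3 : max (a + 1) (V o) = a + 1 := by omega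
          have e4 : max (a + 1) (V o') = a + 1 := by omega
          rw [e1, e2] at h3
          rw [e3, e4]
          exact hmono _ _ o o' (by (clear * - e1 e2 e3 e4; omega)) h3
  -- the guesses
  have hG : ∀ a : ℕ, ∃ G : α × γ → Option γ, mass w (fun o => V o < a + 1 ∧
      some (N (j - a) o) ≠ G (P o, N (j - (a + 1)) o)) ≤ Ent w (Ψ a) - Ent w (Ψ (a + 1)) := by
    intro a
    set f : Ω → Option γ := fun o => if V o < a + 1 then some (N (j - a) o) else none with hf
    obtain ⟨G', hG'⟩ := exists_guess hw f (Ψ (a + 1))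
    refine ⟨fun x => G' (x.1, none, x.2), ?_⟩
    have h1 : mass w (fun o => V o < a + 1 ∧
        some (N (j - a) o) ≠ G' (P o, none, N (j - (a + 1)) o)) ≤
        mass w (fun o => f o ≠ G' (Ψ (a + 1) o)) := by
      apply mass_mono hw
      rintro o ⟨h1, h2⟩
      have e1 : f o = some (N (j - a) o) := by
        simp only [hf]
        rw [if_pos h1]
      have e2 : Ψ (a + 1) o = (P o, none, N (j - (a + 1)) o) := by
        simp only [hΨ]
        rw [if_neg (by omega), show max (a + 1) (V o) = a + 1 by omega]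
      rw [e1, e2]
      exact h2
    have h2 : CE w f (Ψ (a + 1)) ≤ CE w (Ψ a) (Ψ (a + 1)) := by
      apply CE_mono hw
      intro o o' _ h
      simp only [hΨ, Prod.mk.injEq] at h
      obtain ⟨_, h2, h3⟩ := h
      simp only [hf]
      by_cases hv : a ≤ V o
      · rw [if_pos hv] at h2
        by_cases hv' : a ≤ V o'
        · rw [if_pos hv'] at h2
          rw [Option.some.injEq] at h2
          rw [← h2] at h3 ⊢
          by_cases hva : V o < a + 1
          · rw [if_pos hva, if_pos hva]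
            have : max a (V o) = a := by omega
            rw [this] at h3
            rw [h3]
          · rw [if_neg hva, if_neg hva]
        · rw [if_neg hv'] at h2
          exact absurd h2 (by simp)
      · rw [if_neg hv] at h2
        by_cases hv' : a ≤ V o'
        · rw [if_pos hv'] at h2
          exact absurd h2 (by simp)
        · rw [if_pos (by omega), if_pos (by omega)]
          have e1 : max a (V o) = a := by omega
          have e2 : max a (V o') = a := by omega
          rw [e1, e2] at h3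
          rw [h3]
    have h3 : CE w (Ψ a) (Ψ (a + 1)) = Ent w (Ψ a) - Ent w (Ψ (a + 1)) := by
      unfold CE
      congr 1
      apply Ent_congr
      intro o o'
      simp only [Prod.mk.injEq]
      constructor
      · exact fun h => h.1
      · exact fun h => ⟨h, hstep a o o' h⟩
    calc _ ≤ _ := h1
      _ ≤ _ := hG'
      _ ≤ _ := h2
      _ = _ := h3
  choose G hG using hG
  refine ⟨G, ?_⟩
  refine (sum_le_sum fun a _ => hG a).trans ?_
  rw [Finset.sum_range_sub']
  have h1 : Ent w (Ψ 0) = Ent w (fun o => ((V o, N (j - V o) o), P o)) := by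
    apply Ent_congr
    intro o o'
    simp only [hΨ, Prod.mk.injEq, Nat.zero_le, if_true, Nat.zero_max, Option.some.injEq]
    tauto
  have h2 : Ent w P ≤ Ent w (Ψ j) := by
    apply Ent_mono hw
    intro o o' h
    exact congrArg Prod.fst h
  unfold CE
  rw [h1]
  linarith only [h2]

/-- **Domination**: an event which depends on `κ` and `V`, when the law of `V` given `κ` is spread -/
theorem dominate {w : Ω → ℝ} (hw : IsPr w) (κ : Ω → β) (V : Ω → ℕ) (b : ℕ) (hb : 1 ≤ b) (e : ℝ)
    (he : 0 < e)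
    (hsp : ∀ k a, (b : ℝ) * mass w (fun o => κ o = k ∧ V o = a) ≤ mass w (fun o => κ o = k))
    (Q : β → ℕ → Prop) (n : ℕ) (hn : ∀ k a, n ≤ a → ¬ Q k a) :
    mass w (fun o => Q (κ o) (V o)) ≤ e + 1 / b +
      1 / (e * b) * ∑ a ∈ range n, mass w (fun o => V o < a ∧ Q (κ o) a) := by
  classical
  have hb0 : (0 : ℝ) < b := by exact_mod_cast hb
  set late : β → ℕ → Prop := fun k a =>
    mass w (fun o => κ o = k ∧ V o < a) < e * mass w (fun o => κ o = k) with hlate
  have h1 : mass w (fun o => Q (κ o) (V o)) ≤ mass w (fun o => late (κ o) (V o)) +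
      mass w (fun o => ¬ late (κ o) (V o) ∧ Q (κ o) (V o)) := by
    refine le_trans (mass_mono hw ?_) (mass_or_le hw _ _)
    intro o ho
    by_cases h : late (κ o) (V o)
    · exact Or.inl h
    · exact Or.inr ⟨h, ho⟩
  -- the late part
  have h2 : mass w (fun o => late (κ o) (V o)) ≤ e + 1 / b := by
    rw [mass_split κ]
    have h3 : ∀ k ∈ univ.image κ, mass w (fun o => κ o = k ∧ late (κ o) (V o)) ≤
        (e + 1 / b) * mass w (fun o => κ o = k) := by
      intro k _
      have hp0 : 0 ≤ mass w (fun o => κ o = k) := mass_nonneg hw _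
      by_cases hex : ∃ o, κ o = k ∧ late (κ o) (V o)
      · obtain ⟨o₁, ho₁⟩ := hex
        obtain ⟨o₀, ho₀, hmax⟩ := exists_max_image
          (univ.filter (fun o => κ o = k ∧ late (κ o) (V o))) V ⟨o₁, by simpa using ho₁⟩
        rw [mem_filter] at ho₀
        obtain ⟨-, hk, hl⟩ := ho₀
        rw [hk] at hl
        have h4 : mass w (fun o => κ o = k ∧ late (κ o) (V o)) ≤
            mass w (fun o => (κ o = k ∧ V o < V o₀) ∨ (κ o = k ∧ V o = V o₀)) := by
          apply mass_mono hw
          rintro o ⟨h5, h6⟩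
          have h7 := hmax o (by rw [mem_filter]; exact ⟨mem_univ _, h5, h6⟩)
          rcases h7.lt_or_eq with h8 | h8
          · exact Or.inl ⟨h5, h8⟩
          · exact Or.inr ⟨h5, h8⟩
        have h5 := mass_or_le hw (fun o => κ o = k ∧ V o < V o₀) (fun o => κ o = k ∧ V o = V o₀)
        have h6 := hsp k (V o₀)
        have h7 : mass w (fun o => κ o = k ∧ V o = V o₀) ≤ 1 / b * mass w (fun o => κ o = k) := by
          rw [one_div, ← div_eq_inv_mul, le_div_iff₀ hb0]
          (clear * - h6; linarith only [h6])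
        simp only [hlate] at hl
        calc _ ≤ _ := h4
          _ ≤ _ := h5
          _ ≤ e * mass w (fun o => κ o = k) + 1 / b * mass w (fun o => κ o = k) :=
            add_le_add hl.le h7
          _ = _ := by ring
      · push Not at hex
        rw [mass_zero]
        · (clear * - he hb hp0; positivity)
        · rintro o ⟨h5, h6⟩
          exact hex o h5 h6
    refine (sum_le_sum h3).trans ?_
    rw [← mul_sum]
    have h4 : ∑ k ∈ univ.image κ, mass w (fun o => κ o = k) = 1 := by
      rw [← sum_pr_one hw κ]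
      exact sum_congr rfl fun k _ => mass_eq_pr w κ k
    rw [h4, mul_one]
  -- the early part
  have h3 : mass w (fun o => ¬ late (κ o) (V o) ∧ Q (κ o) (V o)) ≤
      1 / (e * b) * ∑ a ∈ range n, mass w (fun o => V o < a ∧ Q (κ o) a) := by
    have h4 : ∀ k ∈ univ.image κ, mass w (fun o => κ o = k ∧ ¬ late (κ o) (V o) ∧ Q (κ o) (V o)) ≤
        1 / (e * b) * ∑ a ∈ range n, mass w (fun o => κ o = k ∧ V o < a ∧ Q (κ o) a) := by
      intro k _
      have h5 : mass w (fun o => κ o = k ∧ ¬ late (κ o) (V o) ∧ Q (κ o) (V o)) ≤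
          ∑ a ∈ range n, mass w (fun o => V o = a ∧ κ o = k ∧ ¬ late (κ o) (V o) ∧
            Q (κ o) (V o)) := by
        rw [mass_split V]
        have hsub : ∀ a ∈ univ.image V, a ∉ range n →
            mass w (fun o => V o = a ∧ κ o = k ∧ ¬ late (κ o) (V o) ∧ Q (κ o) (V o)) = 0 := by
          intro a _ ha
          rw [mem_range, not_lt] at ha
          apply mass_zero
          rintro o ⟨e1, -, -, e4⟩
          exact hn _ _ (by rw [e1]; exact ha) e4
        calc _ = ∑ a ∈ (univ.image V).filter (fun a => a ∈ range n),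
              mass w (fun o => V o = a ∧ κ o = k ∧ ¬ late (κ o) (V o) ∧ Q (κ o) (V o)) := by
              symm
              apply sum_filter_of_ne
              intro a ha hne
              by_contra hcon
              exact hne (hsub a ha hcon)
          _ ≤ _ := by
              apply sum_le_sum_of_subset_of_nonneg
              · intro a ha
                exact (mem_filter.1 ha).2
              · intro a _ _
                exact mass_nonneg hw _
      refine h5.trans ?_
      rw [mul_sum]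
      apply sum_le_sum
      intro a _
      by_cases hQ : Q k a
      · by_cases hl : late k a
        · rw [mass_zero]
          · have := mass_nonneg hw (fun o => κ o = k ∧ V o < a ∧ Q (κ o) a)
            (clear * - he hb this; positivity)
          · rintro o ⟨e1, e2, e3, -⟩
            rw [e1, e2] at e3
            exact e3 hl
        · have h6 : mass w (fun o => V o = a ∧ κ o = k ∧ ¬ late (κ o) (V o) ∧ Q (κ o) (V o)) ≤
              mass w (fun o => κ o = k ∧ V o = a) :=
            mass_mono hw fun o ho => ⟨ho.2.1, ho.1⟩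
          have h7 := hsp k a
          have h8 : mass w (fun o => κ o = k ∧ V o < a) ≤
              mass w (fun o => κ o = k ∧ V o < a ∧ Q (κ o) a) := by
            apply mass_mono hw
            rintro o ⟨e1, e2⟩
            exact ⟨e1, e2, by rw [e1]; exact hQ⟩
          simp only [hlate, not_lt] at hl
          rw [one_div, ← div_eq_inv_mul, le_div_iff₀ (by positivity)]
          calc mass w (fun o => V o = a ∧ κ o = k ∧ ¬ late (κ o) (V o) ∧ Q (κ o) (V o)) * (e * b) ≤
                mass w (fun o => κ o = k ∧ V o = a) * (e * b) :=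
                mul_le_mul_of_nonneg_right h6 (by positivity)
            _ = e * (b * mass w (fun o => κ o = k ∧ V o = a)) := by ring
            _ ≤ e * mass w (fun o => κ o = k) := mul_le_mul_of_nonneg_left h7 he.le
            _ ≤ _ := hl
            _ ≤ _ := h8
      · rw [mass_zero]
        · have := mass_nonneg hw (fun o => κ o = k ∧ V o < a ∧ Q (κ o) a)
          (clear * - he hb this; positivity)
        · rintro o ⟨e1, e2, -, e4⟩
          rw [e1, e2] at e4
          exact hQ e4
    rw [mass_split κ]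
    refine (sum_le_sum h4).trans (le_of_eq ?_)
    rw [← mul_sum, sum_comm]
    congr 1
    apply sum_congr rfl
    intro a _
    exact (mass_split κ _).symm
  linarith only [h1, h2, h3]

end Pool.Agent.Helper88.PP
end

/- Helper24.DI.H88.PP.Stuck -/
section
set_option autoImplicit false

/-!
MP_120218_co, project PP: the path is never stuck.
-/

open Finset

namespace Pool.Agent.Helper88.PP

open Pool.Agent.Helper15.BP Pool.Agent.Helper84.TR Pool.Agent.Helper88.RT

/-- the modulus of the state `j` -/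
def mj {J : ℕ} (q j : Fin J → ℕ) : ℕ := ∏ l, q l ^ j l

theorem mj_split {J : ℕ} (q j : Fin J → ℕ) (i : Fin J) :
    mj q j = q i ^ j i * ∏ l ∈ univ.erase i, q l ^ j l :=
  (mul_prod_erase univ (fun l => q l ^ j l) (mem_univ i)).symm

theorem coprime_rest {J : ℕ} {q : Fin J → ℕ} (hq : ∀ l, (q l).Prime) (hinj : Function.Injective q)
    (j : Fin J → ℕ) (i : Fin J) (s : ℕ) :
    Nat.Coprime (q i ^ s) (∏ l ∈ univ.erase i, q l ^ j l) := by
  apply Nat.Coprime.pow_left
  apply Nat.Coprime.prod_right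
  intro l hl
  apply Nat.Coprime.pow_right
  rw [Nat.coprime_primes (hq i) (hq l)]
  intro h
  exact (mem_erase.1 hl).1 (hinj h).symm

/-- the next modulus -/
theorem next_dvd {J : ℕ} {q : Fin J → ℕ} (hq : ∀ l, (q l).Prime) (hinj : Function.Injective q)
    (j : Fin J → ℕ) {d : ℤ} (h : ((mj q j : ℕ) : ℤ) ∣ d) (i : Fin J)
    (hd : ((q i : ℤ) ^ (j i + 1)) ∣ d) : ((mj q j * q i : ℕ) : ℤ) ∣ d := by
  have h2 : ((∏ l' ∈ univ.erase i, q l' ^ j l' : ℕ) : ℤ) ∣ d := by
    refine dvd_trans ?_ h
    have h3 : (∏ l' ∈ univ.erase i, q l' ^ j l') ∣ mj q j :=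
      ⟨q i ^ j i, by rw [mj_split q j i, mul_comm]⟩
    exact_mod_cast h3
  have h3 : IsCoprime ((q i : ℤ) ^ (j i + 1)) ((∏ l' ∈ univ.erase i, q l' ^ j l' : ℕ) : ℤ) := by
    have := Nat.isCoprime_iff_coprime.2 (coprime_rest hq hinj j i (j i + 1))
    exact_mod_cast this
  have h4 := h3.mul_dvd hd h2
  have h5 : ((mj q j * q i : ℕ) : ℤ) = (q i : ℤ) ^ (j i + 1) *
      ((∏ l' ∈ univ.erase i, q l' ^ j l' : ℕ) : ℤ) := by
    rw [mj_split q j i]
    push_cast
    ring
  rw [h5]
  exact h4

section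
variable {Ω : Type} [Fintype Ω]

variable {𝒴 R : Type}

/-- what is known before the prime number `n` -/
def Pn {J : ℕ} (ρ : Fin J → ℕ → 𝒴 → R) (j : Fin J → ℕ) (V : Ω → Fin J → ℕ) (Y : Ω → 𝒴) (n : ℕ)
    (o : Ω) : Fin J → Option (ℕ × R) :=
  fun l => if (l : ℕ) < n then some (V o l, ρ l (j l - V o l) (Y o)) else none

/-- what is revealed at the prime number `i` -/
def Rv {J : ℕ} (ρ : Fin J → ℕ → 𝒴 → R) (j : Fin J → ℕ) (V : Ω → Fin J → ℕ) (Y : Ω → 𝒴)
    (i : Fin J) (o : Ω) : ℕ × R :=
  (V o i, ρ i (j i - V o i) (Y o))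

/-- the sum of the conditional entropies -/
theorem sum_H {J : ℕ} {w : Ω → ℝ} (hw : IsPr w) (ρ : Fin J → ℕ → 𝒴 → R) (j : Fin J → ℕ)
    (V : Ω → Fin J → ℕ) (Y : Ω → 𝒴) : ∑ i : Fin J, CE w (Rv ρ j V Y i) (Pn ρ j V Y i) ≤
      Ent w (fun o => (V o, Y o)) := by
  have h1 : ∀ n, n ≤ J → ∑ i ∈ univ.filter (fun i : Fin J => (i : ℕ) < n),
      CE w (Rv ρ j V Y i) (Pn ρ j V Y i) ≤ Ent w (Pn ρ j V Y n) := by
    intro n
    induction n with
    | zero =>
      intro _
      rw [filter_eq_empty_iff.2 (by simp), sum_empty]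
      exact Ent_nonneg hw _
    | succ n ih =>
      intro hn
      set i₀ : Fin J := ⟨n, by omega⟩ with hi₀
      have h2 : univ.filter (fun i : Fin J => (i : ℕ) < n + 1) =
          insert i₀ (univ.filter (fun i : Fin J => (i : ℕ) < n)) := by
        ext i
        simp only [mem_filter, mem_univ, true_and, mem_insert, hi₀, Fin.ext_iff]
        omega
      rw [h2, sum_insert (by simp [hi₀])]
      have h3 := ih (by omega)
      have h4 : CE w (Rv ρ j V Y i₀) (Pn ρ j V Y i₀) = Ent w (Pn ρ j V Y (n + 1)) -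
          Ent w (Pn ρ j V Y n) := by
        unfold CE
        congr 1
        apply Ent_congr
        intro o o'
        simp only [Prod.mk.injEq]
        constructor
        · rintro ⟨e1, e2⟩
          funext l
          have e3 := congrFun e2 l
          unfold Pn at e3 ⊢
          by_cases hl : (l : ℕ) < n
          · rw [if_pos (by rw [hi₀]; exact hl), if_pos (by rw [hi₀]; exact hl)] at e3
            rw [if_pos (by omega), if_pos (by omega)]
            exact e3
          · by_cases hl' : (l : ℕ) < n + 1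
            · have e4 : l = i₀ := by
                rw [hi₀, Fin.ext_iff]
                simp only
                omega
              rw [if_pos hl', if_pos hl', e4]
              exact congrArg some e1
            · rw [if_neg hl', if_neg hl']
        · intro e
          constructor
          · have e3 := congrFun e i₀
            unfold Pn at e3
            rw [if_pos (by simp [hi₀]), if_pos (by simp [hi₀])] at e3
            exact Option.some.inj e3
          · funext l
            have e3 := congrFun e l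
            unfold Pn at e3 ⊢
            by_cases hl : (l : ℕ) < n
            · rw [if_pos (by omega), if_pos (by omega)] at e3
              rw [if_pos (by rw [hi₀]; exact hl), if_pos (by rw [hi₀]; exact hl)]
              exact e3
            · rw [if_neg (by rw [hi₀]; exact hl), if_neg (by rw [hi₀]; exact hl)]
      rw [h4]
      linarith only [h3]
  have h2 := h1 J le_rfl
  have h3 : univ.filter (fun i : Fin J => (i : ℕ) < J) = univ := by
    ext i
    simp
  rw [h3] at h2
  refine h2.trans (Ent_mono hw ?_)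
  intro o o' h
  obtain ⟨e1, e2⟩ := Prod.ext_iff.mp h
  simp only at e1 e2
  funext l
  unfold Pn
  rw [e1, e2]

/-- **The claim**: the error of the best guess of the next state, from the entropy revealed at the
prime number `i`. -/
theorem guess_step {J : ℕ} {w : Ω → ℝ} (hw : IsPr w) {q : Fin J → ℕ} (hq : ∀ l, (q l).Prime)
    (hinj : Function.Injective q) (j : Fin J → ℕ) (X : Ω → ℤ) (V : Ω → Fin J → ℕ) (Y : Ω → 𝒴)
    (ρ : Fin J → ℕ → 𝒴 → R)
    (hρ : ∀ l s a a', ρ l (s + 1) a = ρ l (s + 1) a' → ρ l s a = ρ l s a')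
    (hker : ∀ o o', V o = V o' → ∀ l s, (((q l : ℤ) ^ s) ∣ X o - X o' ↔
      ρ l (s - V o l) (Y o) = ρ l (s - V o l) (Y o')))
    (b : Fin J → ℕ) (hb : ∀ i, 1 ≤ b i)
    (hsp : ∀ (i : Fin J) (y : 𝒴) (u : Fin J → ℕ),
      (b i : ℝ) * mass w (fun o => Y o = y ∧ ∀ l, l ≤ i → V o l = u l) ≤
        mass w (fun o => Y o = y ∧ ∀ l, l < i → V o l = u l))
    (i : Fin J) (e : ℝ) (he : 0 < e) :
    ∃ G : (Fin J → ℕ) × ℤ → ℤ, mass w (fun o => X o % ((mj q j * q i : ℕ) : ℤ) ≠
      G (V o, X o % ((mj q j : ℕ) : ℤ))) ≤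
      e + 1 / b i + 1 / (e * b i) * CE w (Rv ρ j V Y i) (Pn ρ j V Y i) := by
  classical
  obtain ⟨G, hG⟩ := stop_chain hw (fun o => V o i) (Pn ρ j V Y i)
    (fun s o => ρ i s (Y o)) (by
      intro s o o' h
      exact hρ i s _ _ h) (j i)
  -- the label
  set κ : Ω → 𝒴 × ({l : Fin J // l < i} → ℕ) := fun o => (Y o, fun l => V o l) with hκ
  set Pκ : 𝒴 × ({l : Fin J // l < i} → ℕ) → (Fin J → Option (ℕ × R)) := fun k l =>
    if h : l < i then some (k.2 ⟨l, h⟩, ρ l (j l - k.2 ⟨l, h⟩) k.1) else none with hPκ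
  have hPκ' : ∀ o, Pκ (κ o) = Pn ρ j V Y i o := by
    intro o
    funext l
    simp only [hPκ, hκ, Pn]
    by_cases h : l < i
    · rw [dif_pos h, if_pos (show (l : ℕ) < (i : ℕ) from h)]
    · rw [dif_neg h, if_neg (show ¬ (l : ℕ) < (i : ℕ) from h)]
  set Q : 𝒴 × ({l : Fin J // l < i} → ℕ) → ℕ → Prop := fun k a => a ≤ j i ∧
    (a ≠ 0 → some (ρ i (j i - (a - 1)) k.1) ≠
      G (a - 1) (Pκ k, ρ i (j i - a) k.1)) with hQ
  have hspκ : ∀ k a, (b i : ℝ) * mass w (fun o => κ o = k ∧ V o i = a) ≤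
      mass w (fun o => κ o = k) := by
    rintro ⟨y, u⟩ a
    set u' : Fin J → ℕ := fun l => if h : l < i then u ⟨l, h⟩ else a with hu'
    have h1 := hsp i y u'
    have h2 : mass w (fun o => κ o = (y, u) ∧ V o i = a) ≤
        mass w (fun o => Y o = y ∧ ∀ l, l ≤ i → V o l = u' l) := by
      apply mass_mono hw
      rintro o ⟨e1, e2⟩
      simp only [hκ, Prod.mk.injEq] at e1
      refine ⟨e1.1, ?_⟩
      intro l hl
      rcases hl.lt_or_eq with h | h
      · simp only [hu', dif_pos h]
        exact congrFun e1.2 ⟨l, h⟩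
      · rw [h]
        simp only [hu', lt_irrefl, dif_neg, not_false_eq_true]
        exact e2
    have h3 : mass w (fun o => Y o = y ∧ ∀ l, l < i → V o l = u' l) ≤
        mass w (fun o => κ o = (y, u)) := by
      apply mass_mono hw
      rintro o ⟨e1, e2⟩
      simp only [hκ, Prod.mk.injEq]
      refine ⟨e1, ?_⟩
      funext l
      have e3 := e2 l.1 l.2
      simp only [hu', dif_pos l.2] at e3
      exact e3
    have hb0 : (0 : ℝ) ≤ b i := Nat.cast_nonneg _
    have h4 := mul_le_mul_of_nonneg_left h2 hb0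
    linarith only [h1, h3, h4]
  have hdom := dominate hw κ (fun o => V o i) (b i) (hb i) e he hspκ Q (j i + 1) (by
    intro k a ha h
    have := h.1
    omega)
  -- the sum
  have hsum : ∑ a ∈ range (j i + 1), mass w (fun o => V o i < a ∧ Q (κ o) a) ≤
      CE w (Rv ρ j V Y i) (Pn ρ j V Y i) := by
    rw [sum_range_succ']
    have h0 : mass w (fun o => V o i < 0 ∧ Q (κ o) 0) = 0 := by
      apply mass_zero
      rintro o ⟨h1, -⟩
      omega
    rw [h0, add_zero]
    refine le_trans (sum_le_sum ?_) hG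
    intro a _
    apply mass_mono hw
    rintro o ⟨h1, h2⟩
    refine ⟨h1, ?_⟩
    have h3 := h2.2 (by omega)
    rw [Nat.add_sub_cancel, hPκ'] at h3
    exact h3
  -- the guess
  set good : Ω → Prop := fun o => ¬ Q (κ o) (V o i) with hgood
  set GG : (Fin J → ℕ) × ℤ → ℤ := fun π =>
    if h : ∃ o, (V o, X o % ((mj q j : ℕ) : ℤ)) = π ∧ good o then
      X h.choose % ((mj q j * q i : ℕ) : ℤ) else 0 with hGG
  refine ⟨GG, ?_⟩
  have hkey : ∀ o, good o → X o % ((mj q j * q i : ℕ) : ℤ) =
      GG (V o, X o % ((mj q j : ℕ) : ℤ)) := by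
    intro o ho
    have hex : ∃ o', (V o', X o' % ((mj q j : ℕ) : ℤ)) = (V o, X o % ((mj q j : ℕ) : ℤ)) ∧
        good o' := ⟨o, rfl, ho⟩
    simp only [hGG]
    rw [dif_pos hex]
    obtain ⟨h1, ho'⟩ := hex.choose_spec
    set o' := hex.choose with ho'def
    obtain ⟨hV, hm⟩ := Prod.ext_iff.mp h1
    simp only at hV hm
    have hd : ((mj q j : ℕ) : ℤ) ∣ X o' - X o :=
      Int.dvd_of_emod_eq_zero (Int.emod_eq_emod_iff_emod_sub_eq_zero.1 hm)
    have hdl : ∀ l, ((q l : ℤ) ^ j l) ∣ X o' - X o := by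
      intro l
      refine dvd_trans ?_ hd
      have h3 : q l ^ j l ∣ mj q j := ⟨_, mj_split q j l⟩
      exact_mod_cast h3
    have hdig : ∀ l, ρ l (j l - V o l) (Y o') = ρ l (j l - V o l) (Y o) := by
      intro l
      have e1 := (hker o' o hV l (j l)).1 (hdl l)
      rw [hV] at e1
      exact e1
    have hP : Pn ρ j V Y i o' = Pn ρ j V Y i o := by
      funext l
      unfold Pn
      rw [hV, hdig l]
    have hnext : ((q i : ℤ) ^ (j i + 1)) ∣ (X o' - X o) := by
      apply (hker o' o hV i (j i + 1)).2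
      rw [hV]
      by_cases hle : V o i ≤ j i
      · by_cases h0 : V o i = 0
        · -- impossible
          exact absurd ⟨hle, fun h => absurd h0 h⟩ ho
        · simp only [hgood, hQ] at ho ho'
          have e2 : some (ρ i (j i - (V o i - 1)) (Y o)) =
              G (V o i - 1) (Pκ (κ o), ρ i (j i - V o i) (Y o)) := by
            by_contra hne
            exact ho ⟨hle, fun _ => hne⟩
          rw [hV] at ho'
          have e4 : some (ρ i (j i - (V o i - 1)) (Y o')) =
              G (V o i - 1) (Pκ (κ o'), ρ i (j i - V o i) (Y o')) := by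
            by_contra hne
            exact ho' ⟨hle, fun _ => hne⟩
          rw [hPκ'] at e2 e4
          rw [hP, hdig i, ← e2] at e4
          have e5 : j i - (V o i - 1) = j i + 1 - V o i := by omega
          rw [e5] at e4
          exact Option.some.inj e4
      · have e1 := (hker o' o hV i 0).1 (by rw [pow_zero]; exact one_dvd _)
        rw [hV] at e1
        rw [show j i + 1 - V o i = 0 - V o i by omega]
        exact e1
    have e6 := next_dvd hq hinj j hd i hnext
    exact (Int.emod_eq_emod_iff_emod_sub_eq_zero.2 (Int.emod_eq_zero_of_dvd e6)).symm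
  have h1 : mass w (fun o => X o % ((mj q j * q i : ℕ) : ℤ) ≠
      GG (V o, X o % ((mj q j : ℕ) : ℤ))) ≤ mass w (fun o => Q (κ o) (V o i)) := by
    apply mass_mono hw
    intro o ho
    by_contra hcon
    exact ho (hkey o hcon)
  have hb0 : (0 : ℝ) < b i := by exact_mod_cast hb i
  have h2 : 1 / (e * b i) * ∑ a ∈ range (j i + 1), mass w (fun o => V o i < a ∧ Q (κ o) a) ≤
      1 / (e * b i) * CE w (Rv ρ j V Y i) (Pn ρ j V Y i) :=
    mul_le_mul_of_nonneg_left hsum (by (clear * - he hb0; positivity))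
  (clear * - hdom h1 h2; linarith only [hdom, h1, h2])

/-- **The path is never stuck.** -/
theorem never_stuck {J : ℕ} {w : Ω → ℝ} (hw : IsPr w) {q : Fin J → ℕ} (hq : ∀ l, (q l).Prime)
    (hinj : Function.Injective q) (j : Fin J → ℕ) (X : Ω → ℤ) (V : Ω → Fin J → ℕ) (Y : Ω → 𝒴)
    (ρ : Fin J → ℕ → 𝒴 → R)
    (hρ : ∀ l s a a', ρ l (s + 1) a = ρ l (s + 1) a' → ρ l s a = ρ l s a')
    (hker : ∀ o o', V o = V o' → ∀ l s, (((q l : ℤ) ^ s) ∣ X o - X o' ↔
      ρ l (s - V o l) (Y o) = ρ l (s - V o l) (Y o')))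
    (b : Fin J → ℕ) (hb : ∀ i, 1 ≤ b i)
    (hsp : ∀ (i : Fin J) (y : 𝒴) (u : Fin J → ℕ),
      (b i : ℝ) * mass w (fun o => Y o = y ∧ ∀ l, l ≤ i → V o l = u l) ≤
        mass w (fun o => Y o = y ∧ ∀ l, l < i → V o l = u l))
    (ε L : ℝ) (hε : 0 < ε) (hL : Ent w (fun o => (V o, Y o)) ≤ L)
    (hsum : 8 * L / ε ^ 2 + 4 * J / ε < ∑ i, (b i : ℝ)) :
    ∃ i, ∃ G : (Fin J → ℕ) × ℤ → ℤ, mass w (fun o => X o % ((mj q j * q i : ℕ) : ℤ) ≠
      G (V o, X o % ((mj q j : ℕ) : ℤ))) ≤ ε := by
  by_contra hcon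
  push Not at hcon
  have h1 : ∀ i, (b i : ℝ) * ε ^ 2 / 8 ≤ CE w (Rv ρ j V Y i) (Pn ρ j V Y i) + ε / 2 := by
    intro i
    obtain ⟨G, hG⟩ := guess_step hw hq hinj j X V Y ρ hρ hker b hb hsp i (ε / 4) (by (clear * - hε; positivity))
    have h2 := hcon i G
    have hb0 : (0 : ℝ) < b i := by exact_mod_cast hb i
    set H := CE w (Rv ρ j V Y i) (Pn ρ j V Y i) with hH
    have h3 : ε < ε / 4 + 1 / b i + 1 / (ε / 4 * b i) * H := lt_of_lt_of_le h2 hG
    have h4 : ε * b i < (ε / 4 + 1 / b i + 1 / (ε / 4 * b i) * H) * b i :=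
      mul_lt_mul_of_pos_right h3 hb0
    have h5 : (ε / 4 + 1 / b i + 1 / (ε / 4 * b i) * H) * b i = ε / 4 * b i + 1 + 4 / ε * H := by
      (clear * - hb0 hε; field_simp)
    rw [h5] at h4
    have h6 : (ε * b i) * (ε / 4) < (ε / 4 * b i + 1 + 4 / ε * H) * (ε / 4) :=
      mul_lt_mul_of_pos_right h4 (by positivity)
    have h7 : (ε / 4 * b i + 1 + 4 / ε * H) * (ε / 4) = ε ^ 2 / 16 * b i + ε / 4 + H := by
      field_simp
      ring
    rw [h7] at h6
    have h8 : 0 < ε ^ 2 * b i := by (clear * - hε hb0; positivity)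
    nlinarith only [h4, h6, h7, h8]
  have h2 := sum_le_sum fun i (_ : i ∈ (univ : Finset (Fin J))) => h1 i
  rw [sum_add_distrib, sum_const, card_univ, Fintype.card_fin, nsmul_eq_mul, ← sum_div,
    ← sum_mul] at h2
  have h3 := (sum_H hw ρ j V Y).trans hL
  have h4 : (∑ i, (b i : ℝ)) * ε ^ 2 / 8 ≤ L + J * (ε / 2) := by linarith only [h2, h3]
  have h5 : (8 * L / ε ^ 2 + 4 * J / ε) * ε ^ 2 / 8 < (∑ i, (b i : ℝ)) * ε ^ 2 / 8 := by
    apply div_lt_div_of_pos_right _ (by norm_num)
    exact mul_lt_mul_of_pos_right hsum (by positivity)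
  have h6 : (8 * L / ε ^ 2 + 4 * J / ε) * ε ^ 2 / 8 = L + J * (ε / 2) := by
    field_simp
    ring
  linarith only [h4, h5, h6]

end

end Pool.Agent.Helper88.PP
end

/- Helper24.DI.H88.PP.Path -/
section
set_option autoImplicit false

/-!
MP_120218_co, project PP: Phase 2, the descent along the path of moduli.
-/

open Finset

namespace Pool.Agent.Helper88.PP

open Pool.Agent.Helper15.BP Pool.Agent.Helper84.TR Pool.Agent.Helper88.RT

variable {Ω Ω' : Type} [Fintype Ω] [Fintype Ω'] {α β : Type}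

/-- the column lemma given the pasts, when `Y` can be guessed from its past -/
theorem col_mode {η σ : ℝ} (hη : 0 ≤ η) (hσ : 0 < σ) (hcol : ColProp η σ) {G : Type}
    [AddCommGroup G] {w : Ω → ℝ} {w' : Ω' → ℝ} (hw : IsPr w) (hw' : IsPr w') (X : Ω → G)
    (Y : Ω' → G) (A : Ω → α) (B : Ω' → β) (g : β → G) :
    CE (prodW w w') (fun p => X p.1) (fun p => (X p.1 + Y p.2, (A p.1, B p.2))) ≤
      (η + mass w' (fun o => Y o ≠ g (B o)) / σ) * CE w X A + η * CE w' Y B := by
  have h1 := col_past hη hσ hcol hw hw' X (fun o => Y o - g (B o)) A B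
  have h2 : CE (prodW w w') (fun p => X p.1)
      (fun p => (X p.1 + (Y p.2 - g (B p.2)), (A p.1, B p.2))) =
      CE (prodW w w') (fun p => X p.1) (fun p => (X p.1 + Y p.2, (A p.1, B p.2))) := by
    apply CE_congr
    · intro o o'
      simp only [Prod.mk.injEq]
      constructor
      · rintro ⟨e1, e2, e3⟩
        refine ⟨?_, e2, e3⟩
        rw [e3] at e1
        have : X o.1 + Y o.2 - g (B o'.2) = X o'.1 + Y o'.2 - g (B o'.2) := by
          rw [add_sub_assoc, e1, add_sub_assoc]
        exact sub_left_injective this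
      · rintro ⟨e1, e2, e3⟩
        refine ⟨?_, e2, e3⟩
        rw [e3, ← add_sub_assoc, ← add_sub_assoc, e1]
    · intro o o' _
      exact Iff.rfl
  have h3 : mass w' (fun o => Y o - g (B o) ≠ 0) = mass w' (fun o => Y o ≠ g (B o)) := by
    congr 1
    funext o
    rw [ne_eq, sub_eq_zero]
  have h4 : CE w' (fun o => Y o - g (B o)) B = CE w' Y B := by
    apply CE_congr
    · intro o o'
      exact Iff.rfl
    · intro o o' e
      rw [e]
      constructor
      · intro h
        exact sub_left_injective h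
      · intro h
        rw [h]
  rw [h2, h3, h4] at h1
  exact h1

theorem cast_iff (m : ℕ) (x y : ℤ) : ((x : ℤ) : ZMod m) = ((y : ℤ) : ZMod m) ↔
    x % (m : ℤ) = y % (m : ℤ) := ZMod.intCast_eq_intCast_iff' x y m

theorem mod_of_mod {m m' : ℕ} (h : m ∣ m') {x y : ℤ} (hxy : x % (m' : ℤ) = y % (m' : ℤ)) :
    x % (m : ℤ) = y % (m : ℤ) := by
  have h1 : (m : ℤ) ∣ (m' : ℤ) := by exact_mod_cast h
  rw [← Int.emod_emod_of_dvd x h1, hxy, Int.emod_emod_of_dvd y h1]

/-- the chain rule for one step -/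
theorem chain_step {w : Ω → ℝ} (X : Ω → ℤ) (A : Ω → α) {m m' : ℕ} (h : m ∣ m') :
    CE w X (fun o => (A o, X o % (m : ℤ))) =
      CE w (fun o => ((X o : ℤ) : ZMod m')) (fun o => (A o, X o % (m : ℤ))) +
        CE w X (fun o => (A o, X o % (m' : ℤ))) := by
  have h1 := CE_chain w X (fun o => ((X o : ℤ) : ZMod m')) (fun o => (A o, X o % (m : ℤ)))
  have h2 : CE w (fun o => (X o, ((X o : ℤ) : ZMod m'))) (fun o => (A o, X o % (m : ℤ))) =
      CE w X (fun o => (A o, X o % (m : ℤ))) := by
    apply CE_congr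
    · intro o o'
      exact Iff.rfl
    · intro o o' _
      simp only [Prod.mk.injEq]
      constructor
      · exact fun e => e.1
      · intro e
        exact ⟨e, by rw [e]⟩
  have h3 : CE w X (fun o => (((X o : ℤ) : ZMod m'), (A o, X o % (m : ℤ)))) =
      CE w X (fun o => (A o, X o % (m' : ℤ))) := by
    apply CE_congr
    · intro o o'
      simp only [Prod.mk.injEq]
      rw [cast_iff]
      constructor
      · rintro ⟨e1, e2, -⟩
        exact ⟨e2, e1⟩
      · rintro ⟨e1, e2⟩
        exact ⟨e2, e1, mod_of_mod h e2⟩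
    · intro o o' _
      exact Iff.rfl
  rw [h2, h3] at h1
  exact h1

theorem mj_update {J : ℕ} (q j : Fin J → ℕ) (i : Fin J) :
    mj q (Function.update j i (j i + 1)) = mj q j * q i := by
  rw [mj_split q j i, mj_split q (Function.update j i (j i + 1)) i]
  have h1 : ∏ l ∈ univ.erase i, q l ^ Function.update j i (j i + 1) l =
      ∏ l ∈ univ.erase i, q l ^ j l := by
    apply prod_congr rfl
    intro l hl
    rw [Function.update_of_ne (mem_erase.1 hl).1]
  rw [h1, Function.update_self, pow_succ]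
  ring

/-- **Phase 2.** -/
theorem phase_two {η σ : ℝ} (hη : 0 ≤ η) (hσ : 0 < σ) (hcol : ColProp η σ) {ε : ℝ}
    (hε : ε ≤ η * σ) {J : ℕ} {w : Ω → ℝ} {w' : Ω' → ℝ} (hw : IsPr w) (hw' : IsPr w')
    (q : Fin J → ℕ) (Z : Ω → ℤ) (X : Ω' → ℤ) (VZ : Ω → α) (VX : Ω' → β) (T : ℕ)
    (hTZ : ∀ i o o', ((q i : ℤ) ^ T) ∣ Z o - Z o' → Z o = Z o')
    (hstuck : ∀ j : Fin J → ℕ, ∃ i, ∃ G : β × ℤ → ℤ,
      mass w' (fun o => X o % ((mj q j * q i : ℕ) : ℤ) ≠
        G (VX o, X o % ((mj q j : ℕ) : ℤ))) ≤ ε) :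
    CE (prodW w w') (fun p => Z p.1) (fun p => (Z p.1 + X p.2, (VZ p.1, VX p.2))) ≤
      2 * η * CE w Z VZ + η * CE w' X VX := by
  have hp := hw.prod hw'
  have main : ∀ n : ℕ, ∀ j : Fin J → ℕ, J * T ≤ ∑ i, j i + n →
      CE (prodW w w') (fun p => Z p.1) (fun p => (Z p.1 + X p.2,
        ((VZ p.1, Z p.1 % ((mj q j : ℕ) : ℤ)), (VX p.2, X p.2 % ((mj q j : ℕ) : ℤ))))) ≤
      2 * η * CE w Z (fun o => (VZ o, Z o % ((mj q j : ℕ) : ℤ))) +
        η * CE w' X (fun o => (VX o, X o % ((mj q j : ℕ) : ℤ))) := by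
    intro n
    induction n with
    | zero =>
      intro j hj
      obtain ⟨i₁, -, -⟩ := hstuck j
      have hex : ∃ i, T ≤ j i := by
        by_contra hcon
        push Not at hcon
        have h1 : ∑ i, j i < ∑ _i : Fin J, T :=
          sum_lt_sum_of_nonempty ⟨i₁, mem_univ _⟩ fun i _ => hcon i
        rw [sum_const, card_univ, Fintype.card_fin, smul_eq_mul] at h1
        omega
      obtain ⟨i, hi⟩ := hex
      rw [CE_zero_of_supp]
      · have h1 := CE_nonneg hw Z (fun o => (VZ o, Z o % ((mj q j : ℕ) : ℤ)))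
        have h2 := CE_nonneg hw' X (fun o => (VX o, X o % ((mj q j : ℕ) : ℤ)))
        (clear * - hη h1 h2; positivity)
      · intro p p' _ _ h
        simp only [Prod.mk.injEq] at h
        apply hTZ i
        have h1 := h.2.1.2
        have h2 : ((mj q j : ℕ) : ℤ) ∣ Z p.1 - Z p'.1 :=
          Int.dvd_of_emod_eq_zero (Int.emod_eq_emod_iff_emod_sub_eq_zero.1 h1)
        refine dvd_trans ?_ h2
        have h3 : q i ^ T ∣ mj q j :=
          (pow_dvd_pow (q i) hi).trans ⟨_, mj_split q j i⟩
        exact_mod_cast h3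
    | succ n ih =>
      intro j hj
      obtain ⟨i, G, hG⟩ := hstuck j
      set m : ℕ := mj q j with hm
      set m' : ℕ := mj q j * q i with hm'
      have hmm : m ∣ m' := Dvd.intro _ rfl
      have hup : mj q (Function.update j i (j i + 1)) = m' := mj_update q j i
      have hsum : ∑ l, Function.update j i (j i + 1) l = ∑ l, j l + 1 := by
        rw [← add_sum_erase univ _ (mem_univ i), ← add_sum_erase univ j (mem_univ i),
          Function.update_self]
        have h1 : ∑ l ∈ univ.erase i, Function.update j i (j i + 1) l =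
            ∑ l ∈ univ.erase i, j l := by
          apply sum_congr rfl
          intro l hl
          rw [Function.update_of_ne (mem_erase.1 hl).1]
        rw [h1]
        ring
      have hrec := ih (Function.update j i (j i + 1)) (by rw [hsum]; omega)
      rw [hup] at hrec
      set A : Ω → α × ℤ := fun o => (VZ o, Z o % (m : ℤ)) with hA
      set B : Ω' → β × ℤ := fun o => (VX o, X o % (m : ℤ)) with hB
      set cZ : Ω → ZMod m' := fun o => ((Z o : ℤ) : ZMod m') with hcZ
      set cX : Ω' → ZMod m' := fun o => ((X o : ℤ) : ZMod m') with hcX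
      -- reveal the column
      have h1 : CE (prodW w w') (fun p => Z p.1) (fun p => (Z p.1 + X p.2, (A p.1, B p.2))) ≤
          CE (prodW w w') (fun p => (Z p.1, cZ p.1))
            (fun p => (Z p.1 + X p.2, (A p.1, B p.2))) := by
        apply CE_mono hp
        intro o o' _ h
        exact congrArg Prod.fst h
      have h2 := CE_chain (prodW w w') (fun p => Z p.1) (fun p => cZ p.1)
        (fun p => (Z p.1 + X p.2, (A p.1, B p.2)))
      have h3 : CE (prodW w w') (fun p => cZ p.1)
          (fun p => (Z p.1 + X p.2, (A p.1, B p.2))) ≤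
          CE (prodW w w') (fun p => cZ p.1) (fun p => (cZ p.1 + cX p.2, (A p.1, B p.2))) := by
        apply CE_anti hp
        intro o o' h
        simp only [Prod.mk.injEq] at h ⊢
        refine ⟨?_, h.2⟩
        simp only [hcZ, hcX]
        rw [← Int.cast_add, ← Int.cast_add, h.1]
      have h4 := col_mode hη hσ hcol hw hw' cZ cX A B (fun b => ((G b : ℤ) : ZMod m'))
      have h5 : mass w' (fun o => cX o ≠ ((G (B o) : ℤ) : ZMod m')) ≤ ε := by
        refine le_trans (mass_mono hw' ?_) hG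
        intro o ho h
        apply ho
        simp only [hB, hcX]
        rw [← h, ZMod.intCast_mod]
      have h6 : CE (prodW w w') (fun p => Z p.1)
          (fun p => (cZ p.1, (Z p.1 + X p.2, (A p.1, B p.2)))) ≤
          CE (prodW w w') (fun p => Z p.1) (fun p => (Z p.1 + X p.2,
            ((VZ p.1, Z p.1 % (m' : ℤ)), (VX p.2, X p.2 % (m' : ℤ))))) := by
        apply CE_anti hp
        intro o o' h
        simp only [hA, hB, hcZ, Prod.mk.injEq] at h ⊢
        obtain ⟨e1, e2, ⟨e3, e4⟩, e5, e6⟩ := h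
        rw [cast_iff] at e1
        refine ⟨e2, ⟨e3, e1⟩, e5, ?_⟩
        have e7 : X o.2 = Z o.1 + X o.2 - Z o.1 := by ring
        have e8 : X o'.2 = Z o'.1 + X o'.2 - Z o'.1 := by ring
        rw [e7, e8, e2]
        exact Int.emod_eq_emod_iff_emod_sub_eq_zero.2 (by
          have := Int.emod_eq_emod_iff_emod_sub_eq_zero.1 e1
          have h9 : (m' : ℤ) ∣ Z o.1 - Z o'.1 := Int.dvd_of_emod_eq_zero this
          apply Int.emod_eq_zero_of_dvd
          have h10 : Z o'.1 + X o'.2 - Z o.1 - (Z o'.1 + X o'.2 - Z o'.1) =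
            -(Z o.1 - Z o'.1) := by ring
          rw [h10]
          exact (dvd_neg).2 h9)
      have h7 := chain_step (w := w) Z VZ hmm
      have h8 := chain_step (w := w') X VX hmm
      have h9 : 0 ≤ CE w cZ A := CE_nonneg hw _ _
      have h10 : mass w' (fun o => cX o ≠ ((G (B o) : ℤ) : ZMod m')) / σ ≤ η := by
        rw [div_le_iff₀ hσ]
        exact h5.trans hε
      have h11 : (η + mass w' (fun o => cX o ≠ ((G (B o) : ℤ) : ZMod m')) / σ) * CE w cZ A ≤
          2 * η * CE w cZ A := mul_le_mul_of_nonneg_right (by (clear * - h10; linarith only [h10])) h9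
      rw [h7, h8]
      have h12 : CE (prodW w w') (fun p => Z p.1)
          (fun p => (Z p.1 + X p.2, (A p.1, B p.2))) ≤
          (2 * η * CE w cZ A + η * CE w' cX B) +
          (2 * η * CE w Z (fun o => (VZ o, Z o % (m' : ℤ))) +
            η * CE w' X (fun o => (VX o, X o % (m' : ℤ)))) := by
        linarith only [hrec, h1, h2, h3, h4, h6, h11]
      refine h12.trans (le_of_eq ?_)
      ring
  have h0 := main (J * T) (fun _ => 0) (by omega)
  have hm0 : mj q (fun _ => 0) = 1 := by
    unfold mj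
    simp
  rw [hm0] at h0
  have e1 : CE (prodW w w') (fun p => Z p.1) (fun p => (Z p.1 + X p.2,
        ((VZ p.1, Z p.1 % ((1 : ℕ) : ℤ)), (VX p.2, X p.2 % ((1 : ℕ) : ℤ))))) =
      CE (prodW w w') (fun p => Z p.1) (fun p => (Z p.1 + X p.2, (VZ p.1, VX p.2))) := by
    apply CE_congr
    · intro o o'
      simp
    · intro o o' _
      exact Iff.rfl
  have e2 : CE w Z (fun o => (VZ o, Z o % ((1 : ℕ) : ℤ))) = CE w Z VZ := by
    apply CE_congr
    · intro o o'
      simp
    · intro o o' _
      exact Iff.rfl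
  have e3 : CE w' X (fun o => (VX o, X o % ((1 : ℕ) : ℤ))) = CE w' X VX := by
    apply CE_congr
    · intro o o'
      simp
    · intro o o' _
      exact Iff.rfl
  rw [e1, e2, e3] at h0
  exact h0

end Pool.Agent.Helper88.PP
end

/- Helper24.DI.H88.PP.Unif -/
section
set_option autoImplicit false

/-!
MP_120218_co, project PP: uniform laws, truncated valuations, numerics.
-/

open Finset

namespace Pool.Agent.Helper88.PP

open Pool.Agent.Helper15.BP Pool.Agent.Helper84.TR Pool.Agent.Helper88.RT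

/-- uniform weights on a finset -/
noncomputable def uw (Y : Finset ℤ) : {x // x ∈ Y} → ℝ := fun _ => 1 / (Y.card : ℝ)

theorem uw_isPr {Y : Finset ℤ} (hY : Y.Nonempty) : IsPr (uw Y) := by
  have h0 : (0 : ℝ) < Y.card := by exact_mod_cast hY.card_pos
  refine ⟨fun _ => by unfold uw; (clear * - hY; positivity), ?_⟩
  unfold uw
  rw [Finset.sum_const, Finset.card_univ, Fintype.card_coe, nsmul_eq_mul]
  field_simp

theorem mass_uw {Y : Finset ℤ} (P : ℤ → Prop) [DecidablePred P] :
    mass (uw Y) (fun x => P x) = ((Y.filter P).card : ℝ) / Y.card := by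
  classical
  have h2 : mass (uw Y) (fun x => P x) =
      ∑ o : {x // x ∈ Y}, (if P o then 1 / (Y.card : ℝ) else 0) := by
    unfold mass uw
    refine Finset.sum_congr rfl fun o _ => ?_
    by_cases h : P o
    · simp [h]
    · simp [h]
  rw [h2, ← Finset.sum_filter, Finset.sum_const, nsmul_eq_mul, mul_one_div]
  congr 2
  refine Finset.card_bij (fun x _ => (x : ℤ)) ?_ ?_ ?_
  · intro x hx
    rw [mem_filter] at hx ⊢
    exact ⟨x.2, hx.2⟩
  · intro x _ y _ hxy
    exact Subtype.ext hxy
  · intro b hb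
    rw [mem_filter] at hb
    exact ⟨⟨b, hb.1⟩, by rw [mem_filter]; exact ⟨mem_univ _, hb.2⟩, rfl⟩

theorem Ent_uw {Y : Finset ℤ} (hY : Y.Nonempty) :
    Ent (uw Y) (fun x => (x : ℤ)) = Real.log Y.card := by
  classical
  have h0 : (0 : ℝ) < Y.card := by exact_mod_cast hY.card_pos
  have hpr : ∀ o : {x // x ∈ Y}, pr (uw Y) (fun x => (x : ℤ)) (o : ℤ) = 1 / (Y.card : ℝ) := by
    intro o
    unfold pr
    rw [Finset.sum_eq_single o]
    · simp [uw]
    · intro b _ hb
      rw [if_neg]
      intro h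
      exact hb (Subtype.ext h)
    · intro h; exact absurd (Finset.mem_univ _) h
  have h1 : Ent (uw Y) (fun x => (x : ℤ)) = ∑ _o : {x // x ∈ Y}, (1 / (Y.card : ℝ)) *
      Real.log Y.card := by
    unfold Ent
    refine Finset.sum_congr rfl fun o _ => ?_
    rw [hpr o, one_div, Real.log_inv, neg_neg]
    simp [uw]
  rw [h1, Finset.sum_const, Finset.card_univ, Fintype.card_coe, nsmul_eq_mul]
  (clear * - hY; field_simp)

theorem natAbs_lt_pow {q T : ℕ} (hq : 2 ≤ q) {M : ℕ} (hM : M < T) : M < q ^ T :=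
  lt_of_lt_of_le (lt_trans hM Nat.lt_two_pow_self) (Nat.pow_le_pow_left hq T)

/-- the truncated valuation is the valuation -/
theorem vt_eq {T q : ℕ} (hq : q.Prime) {x : ℤ} (hx : x ≠ 0) (hT : x.natAbs < T) :
    vt T q x = padicValInt q x := by
  have : Fact q.Prime := ⟨hq⟩
  have h1 : padicValInt q x < T := by
    by_contra hcon
    push Not at hcon
    have h2 : ((q : ℤ)) ^ T ∣ x := by
      rw [padicValInt_dvd_iff]
      exact Or.inr hcon
    have h3 : q ^ T ≤ x.natAbs := by
      apply Nat.le_of_dvd (Int.natAbs_pos.mpr hx)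
      have h4 := Int.natAbs_dvd_natAbs.2 h2
      rwa [Int.natAbs_pow, Int.natAbs_natCast] at h4
    have h5 := natAbs_lt_pow hq.two_le hT
    omega
  unfold vt
  have h2 : (range T).filter (fun t => ((q : ℤ) ^ (t + 1) ∣ x)) = range (padicValInt q x) := by
    ext t
    rw [mem_filter, mem_range, mem_range, padicValInt_dvd_iff]
    constructor
    · rintro ⟨-, h | h⟩
      · exact absurd h hx
      · omega
    · intro h
      exact ⟨by omega, Or.inr (by omega)⟩
  rw [h2, card_range]

/-- entropy is at most the logarithm of the number of values -/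
theorem Ent_le_log_card {Ω : Type} [Fintype Ω] {w : Ω → ℝ} (hw : IsPr w) (S : Ω → ℤ)
    (F : Finset ℤ) (hF : ∀ o, S o ∈ F) : Ent w S ≤ Real.log F.card := by
  have e2 : Ent w S ≤ CE w S (fun _ => (0 : ℤ)) := by
    unfold CE
    rw [Ent_const hw, sub_zero]
    exact Ent_mono hw fun o o' e => congrArg Prod.fst e
  refine e2.trans (CE_le_log hw S _ _ ?_)
  intro o
  have hsub : {a : ℤ | ∃ o', (fun _ : Ω => (0 : ℤ)) o' = (fun _ : Ω => (0 : ℤ)) o ∧ S o' = a} ⊆
      (F : Set ℤ) := by
    rintro a ⟨o', -, rfl⟩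
    exact hF o'
  refine le_trans (Set.ncard_le_ncard hsub (Finset.finite_toSet _)) ?_
  rw [Set.ncard_coe_finset]

/-- `(c L / J) ^ J` is a small power of `e ^ L` if `J` is small compared to `L` -/
theorem pow_small (c δ : ℝ) (hc : 1 ≤ c) (hδ : 0 < δ) : ∃ C₀ : ℝ, 1 ≤ C₀ ∧
    ∀ (C L : ℝ) (J : ℕ), C₀ ≤ C → 0 < L → 1 ≤ J → C * J ≤ L →
      (c * L / J) ^ J ≤ Real.exp (δ * L) := by
  set s : ℝ := 2 * c / δ + 1 with hs
  have hs0 : 0 < 2 * c / δ := by positivity
  have hs1 : 1 ≤ s := by (clear * - hs0; linarith only [hs0])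
  have hlogs : 0 ≤ Real.log s := Real.log_nonneg hs1
  refine ⟨max 1 (2 * Real.log s / δ), le_max_left _ _, ?_⟩
  intro C L J hC hL hJ hCJ
  have hJ0 : (0 : ℝ) < J := by exact_mod_cast hJ
  have hC0 : 0 < C := lt_of_lt_of_le one_pos ((le_max_left _ _).trans hC)
  have ht : 0 < c * L / J := by (clear * - hc hL hJ; positivity)
  rw [← Real.exp_log ht, ← Real.exp_nat_mul]
  apply Real.exp_le_exp.2
  have h1 : Real.log (c * L / J) ≤ c * L / J / s + Real.log s := by
    have h2 : Real.log (c * L / J) = Real.log (c * L / J / s) + Real.log s := by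
      rw [Real.log_div ht.ne' (by linarith only [hs1])]
      ring
    rw [h2]
    have h3 := Real.log_le_sub_one_of_pos (show 0 < c * L / J / s by (clear * - hc hL hJ hδ; positivity))
    (clear * - h3; linarith only [h3])
  have h2 : (J : ℝ) * Real.log (c * L / J) ≤ J * (c * L / J / s + Real.log s) :=
    mul_le_mul_of_nonneg_left h1 hJ0.le
  have h3 : (J : ℝ) * (c * L / J / s + Real.log s) = c * L / s + J * Real.log s := by
    field_simp
  have h4 : c * L / s ≤ δ / 2 * L := by
    rw [div_le_iff₀ (by linarith only [hs1])]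
    have h5 : δ / 2 * L * s = δ / 2 * L * (2 * c / δ) + δ / 2 * L := by
      rw [hs]
      ring
    have h6 : δ / 2 * L * (2 * c / δ) = c * L := by
      field_simp
    rw [h5, h6]
    have : 0 ≤ δ / 2 * L := by (clear * - hδ hL; positivity)
    (clear * - this; linarith only [this])
  have h5 : (J : ℝ) * Real.log s ≤ δ / 2 * L := by
    have h6 : 2 * Real.log s / δ ≤ C := (le_max_right _ _).trans hC
    have h7 : 2 * Real.log s ≤ C * δ := by
      rwa [div_le_iff₀ hδ] at h6
    have h8 : (J : ℝ) * (2 * Real.log s) ≤ J * (C * δ) := mul_le_mul_of_nonneg_left h7 hJ0.le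
    have h9 : (J : ℝ) * (C * δ) ≤ L * δ := by
      have := mul_le_mul_of_nonneg_right hCJ hδ.le
      linarith only [this]
    linarith only [h8, h9]
  linarith only [h2, h3, h4, h5]

end Pool.Agent.Helper88.PP
end

/- Helper24.DI.H88.PP.Sum -/
section
set_option autoImplicit false

/-!
MP_120218_co, project PP: the sum of a spread set and an arbitrary set.
-/

open Finset

namespace Pool.Agent.Helper88.PP

open Pool.Agent.Helper15.BP Pool.Agent.Helper84.TR Pool.Agent.Helper88.RT

open Classical in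
/-- the sum of a spread set and an arbitrary set -/
theorem spread_sum (hP1 : PhaseOne) (η : ℝ) (hη : 0 < η) : ∃ (ε₁ K : ℝ), 0 < ε₁ ∧ ε₁ ≤ 1 ∧ 0 < K ∧
    ∀ (J : ℕ) (q : Fin J → ℕ) (B : Finset ℤ) (𝒴 R : Type) (κ : ℤ → 𝒴)
      (ρ : Fin J → ℕ → 𝒴 → R) (b : Fin J → ℕ), (∀ l, (q l).Prime) → Function.Injective q →
      (0 : ℤ) ∉ B → B.Nonempty → LabOK q B κ ρ → (∀ i, 1 ≤ b i) →
      (∀ (i : Fin J) (y : 𝒴) (u : Fin J → ℕ),
        b i * (B.filter (fun x => κ x = y ∧ ∀ l, l ≤ i → padicValInt (q l) x = u l)).card ≤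
          (B.filter (fun x => κ x = y ∧ ∀ l, l < i → padicValInt (q l) x = u l)).card) →
      8 * Real.log B.card / ε₁ ^ 2 + 4 * J / ε₁ < ∑ i, (b i : ℝ) →
      ∀ D : Finset ℤ, D.Nonempty →
        (1 - 3 * η) * (Real.log D.card + Real.log B.card) - K * J ≤
          Real.log ((sumS B D).card) := by
  obtain ⟨σ, hσ, hσ', hcol⟩ := group_column η hη
  obtain ⟨K, hK, hP⟩ := hP1 η hη
  refine ⟨min (η * σ) 1, K, by (clear * - hη hσ; positivity), min_le_right _ _, hK, ?_⟩
  set ε₁ : ℝ := min (η * σ) 1 with hε₁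
  have hε₁0 : 0 < ε₁ := by positivity
  intro J q B 𝒴 R κ ρ b hq hinj hB0 hBne hlab hb hspr hsum D hDne
  have hBcard : (0 : ℝ) < B.card := by exact_mod_cast hBne.card_pos
  set w : {x // x ∈ D} → ℝ := uw D with hwdef
  set w' : {x // x ∈ B} → ℝ := uw B with hw'def
  have hw : IsPr w := uw_isPr hDne
  have hw' : IsPr w' := uw_isPr hBne
  have hp := hw.prod hw'
  set Z : {x // x ∈ D} → ℤ := fun o => (o : ℤ) with hZ
  set X : {x // x ∈ B} → ℤ := fun o => (o : ℤ) with hX
  set V : {x // x ∈ B} → Fin J → ℕ := fun o l => padicValInt (q l) (o : ℤ) with hV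
  have hEZ : Ent w Z = Real.log D.card := Ent_uw hDne
  have hEX : Ent w' X = Real.log B.card := Ent_uw hBne
  have hEZ0 : 0 ≤ Ent w Z := Ent_nonneg hw _
  have hEX0 : 0 ≤ Ent w' X := Ent_nonneg hw' _
  -- never stuck
  have hstuck : ∀ j : Fin J → ℕ, ∃ i, ∃ G : (Fin J → ℕ) × ℤ → ℤ,
      mass w' (fun o => X o % ((mj q j * q i : ℕ) : ℤ) ≠
        G (V o, X o % ((mj q j : ℕ) : ℤ))) ≤ ε₁ := by
    intro j
    refine never_stuck hw' hq hinj j X V (fun o => κ (o : ℤ)) ρ hlab.mono ?_ b hb ?_ ε₁
      (Real.log B.card) hε₁0 ?_ hsum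
    · intro o o' hVo l s
      exact hlab.ker o o.2 o' o'.2 (fun l => congrFun hVo l) l s
    · intro i y u
      have h1 := hspr i y u
      have e1 : mass w' (fun o => κ (o : ℤ) = y ∧ ∀ l, l ≤ i → V o l = u l) =
          ((B.filter (fun x => κ x = y ∧ ∀ l, l ≤ i → padicValInt (q l) x = u l)).card : ℝ) /
            B.card := mass_uw (Y := B)
              (fun x => κ x = y ∧ ∀ l, l ≤ i → padicValInt (q l) x = u l)
      have e2 : mass w' (fun o => κ (o : ℤ) = y ∧ ∀ l, l < i → V o l = u l) =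
          ((B.filter (fun x => κ x = y ∧ ∀ l, l < i → padicValInt (q l) x = u l)).card : ℝ) /
            B.card := mass_uw (Y := B)
              (fun x => κ x = y ∧ ∀ l, l < i → padicValInt (q l) x = u l)
      rw [e1, e2, ← mul_div_assoc]
      apply div_le_div_of_nonneg_right _ hBcard.le
      exact_mod_cast h1
    · rw [← hEX]
      apply Ent_mono hw'
      intro o o' h
      have h1 : o = o' := Subtype.ext h
      rw [h1]
  -- the truncation
  set M : ℕ := max (B.sup Int.natAbs) (D.sup Int.natAbs) with hM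
  set T : ℕ := 2 * M + 1 with hT
  have hMB : ∀ x ∈ B, x.natAbs ≤ M := fun x hx =>
    (Finset.le_sup (f := Int.natAbs) hx).trans (le_max_left _ _)
  have hMD : ∀ x ∈ D, x.natAbs ≤ M := fun x hx =>
    (Finset.le_sup (f := Int.natAbs) hx).trans (le_max_right _ _)
  have hTZ : ∀ i (o o' : {x // x ∈ D}), ((q i : ℤ) ^ T) ∣ Z o - Z o' → Z o = Z o' := by
    intro i o o' h
    by_contra hne
    have h1 : Z o - Z o' ≠ 0 := sub_ne_zero.2 hne
    have h2 : q i ^ T ≤ (Z o - Z o').natAbs := by
      apply Nat.le_of_dvd (Int.natAbs_pos.mpr h1)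
      have h4 := Int.natAbs_dvd_natAbs.2 h
      rwa [Int.natAbs_pow, Int.natAbs_natCast] at h4
    have h3 : (Z o - Z o').natAbs ≤ 2 * M := by
      have e1 := hMD o o.2
      have e2 := hMD o' o'.2
      simp only [hZ]
      omega
    have h4 := natAbs_lt_pow (hq i).two_le (show 2 * M < T by omega)
    omega
  set P : Finset ℕ := univ.image q with hPdef
  have hPcard : P.card = J := by
    rw [hPdef, card_image_of_injective _ hinj, card_univ, Fintype.card_fin]
  have hphase2 := phase_two hη.le hσ hcol (min_le_left (η * σ) 1) hw hw' q Z X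
    (fun o => vP T P (Z o)) V T hTZ hstuck
  have hphase1 := hP {x // x ∈ D} {x // x ∈ B} w w' Z X T P hw hw'
  rw [hPcard] at hphase1
  -- the valuations of X
  have hvX : ∀ o o' : {x // x ∈ B}, vP T P (X o) = vP T P (X o') ↔ V o = V o' := by
    have hval : ∀ (o : {x // x ∈ B}) (l : Fin J), vP T P (X o) (q l) = V o l := by
      intro o l
      unfold vP
      rw [if_pos (mem_image_of_mem q (mem_univ l))]
      refine vt_eq (hq l) (fun h => hB0 (h ▸ o.2)) ?_
      have h1 := hMB o o.2
      show (o : ℤ).natAbs < T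
      omega
    intro o o'
    constructor
    · intro h
      funext l
      rw [← hval, ← hval, h]
    · intro h
      funext p
      by_cases hp' : p ∈ P
      · obtain ⟨l, -, rfl⟩ := mem_image.1 hp'
        rw [hval, hval, h]
      · unfold vP
        rw [if_neg hp', if_neg hp']
  -- the entropy of the sum
  have h1 : CE (prodW w w') (fun p => Z p.1) (fun p => Z p.1 + X p.2) ≤
      CE (prodW w w') (fun p => (Z p.1, (vP T P (Z p.1), vP T P (X p.2))))
        (fun p => Z p.1 + X p.2) := by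
    apply CE_mono hp
    intro o o' _ h
    exact congrArg Prod.fst h
  have h2 := CE_chain (prodW w w') (fun p => Z p.1) (fun p => (vP T P (Z p.1), vP T P (X p.2)))
    (fun p => Z p.1 + X p.2)
  have h3 : CE (prodW w w') (fun p => Z p.1)
      (fun p => ((vP T P (Z p.1), vP T P (X p.2)), Z p.1 + X p.2)) =
      CE (prodW w w') (fun p => Z p.1) (fun p => (Z p.1 + X p.2, (vP T P (Z p.1), V p.2))) := by
    apply CE_congr
    · intro o o'
      simp only [Prod.mk.injEq]
      rw [hvX]
      tauto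
    · intro o o' _
      exact Iff.rfl
  have h4 : CE w Z (fun o => vP T P (Z o)) ≤ Ent w Z := CE_le_Ent hw _ _
  have h5 : CE w' X V ≤ Ent w' X := CE_le_Ent hw' _ _
  have h6 : Ent (prodW w w') (fun p => (Z p.1, Z p.1 + X p.2)) = Ent w Z + Ent w' X := by
    rw [← Ent_prod hw hw' Z X]
    apply Ent_congr
    intro o o'
    simp only [Prod.mk.injEq]
    constructor
    · rintro ⟨e1, e2⟩
      exact ⟨e1, by rw [e1] at e2; exact add_left_cancel e2⟩
    · rintro ⟨e1, e2⟩
      exact ⟨e1, by rw [e1, e2]⟩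
  have h7 : CE (prodW w w') (fun p => Z p.1) (fun p => Z p.1 + X p.2) =
      Ent w Z + Ent w' X - Ent (prodW w w') (fun p => Z p.1 + X p.2) := by
    unfold CE
    rw [h6]
  have h8 : Ent (prodW w w') (fun p => Z p.1 + X p.2) ≤ Real.log ((sumS B D).card) := by
    apply Ent_le_log_card hp
    rintro ⟨o, o'⟩
    unfold sumS
    rw [mem_image]
    exact ⟨(o', o), mem_product.2 ⟨o'.2, o.2⟩, add_comm _ _⟩
  rw [← hEZ, ← hEX]
  have h9 : 2 * η * CE w Z (fun o => vP T P (Z o)) ≤ 2 * η * Ent w Z :=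
    mul_le_mul_of_nonneg_left h4 (by positivity)
  have h10 : η * CE w' X V ≤ η * Ent w' X := mul_le_mul_of_nonneg_left h5 hη.le
  rw [h2, h3, h7] at h1
  have h11 : 0 ≤ η * Ent w' X := by (clear * - hη hEX0; positivity)
  linarith only [hphase2, hphase1, h1, h8, h9, h10, h11]

end Pool.Agent.Helper88.PP
end

/- Helper24.DI.H88.PP.Main -/
section
set_option autoImplicit false

/-!
MP_120218_co, project PP: if many elements lie in large classes then `A + D` is large.
-/

open Finset

namespace Pool.Agent.Helper88.PP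

open Pool.Agent.Helper15.BP Pool.Agent.Helper84.TR Pool.Agent.Helper88.RT

open Classical in
theorem sumAbs (hP1 : PhaseOne) (hS : Select) (hT : TreeCount) : SumAbs := by
  intro ε₀ hε₀
  set ε : ℝ := min ε₀ 1 with hε
  have hε0 : 0 < ε := lt_min hε₀ one_pos
  have hε1 : ε ≤ 1 := min_le_right _ _
  obtain ⟨ε₁, K, hε₁, hε₁', hK, H⟩ := spread_sum hP1 (ε / 16) (by positivity)
  set C₁ : ℝ := 8 / ε₁ ^ 2 + 4 / ε₁ + 1 with hC₁
  have hC₁1 : 1 ≤ C₁ := by
    have : 0 < 8 / ε₁ ^ 2 + 4 / ε₁ := by (clear * - hε₁; positivity)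
    linarith only [this]
  set C₂ : ℝ := Real.exp 1 * (C₁ + 1) with hC₂
  have hexp1 : 1 ≤ Real.exp 1 := Real.one_le_exp (by norm_num)
  have hC₂1 : 1 ≤ C₂ := by (clear * - hC₁1 hexp1; nlinarith only [hC₁1, hexp1])
  obtain ⟨C₀, hC₀, hsmall⟩ := pow_small (2 * C₂) (ε / 4) (by linarith only [hC₂1]) (by positivity)
  set C : ℝ := max (max C₀ (2 * C₂)) (max (8 / ε) (8 * K / ε)) with hC
  have hCC₀ : C₀ ≤ C := (le_max_left _ _).trans (le_max_left _ _)
  have hCC₂ : 2 * C₂ ≤ C := (le_max_right _ _).trans (le_max_left _ _)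
  have hCε : 8 / ε ≤ C := (le_max_left _ _).trans (le_max_right _ _)
  have hCK : 8 * K / ε ≤ C := (le_max_right _ _).trans (le_max_right _ _)
  have hC1 : 1 ≤ C := hC₀.trans hCC₀
  have hCpos : 0 < C := by linarith only [hC1]
  refine ⟨C, hC1, ?_⟩
  intro J q A 𝒴 R κ ρ hJ hq hinj hA0 hA3 hCJ hlab hbig D hD
  set L : ℝ := Real.log A.card with hL
  have hJ1 : (1 : ℝ) ≤ J := by exact_mod_cast hJ
  have hJL : (J : ℝ) ≤ L := (le_mul_of_one_le_left (by linarith only []) hC1).trans hCJ
  have hL1 : 1 ≤ L := hJ1.trans hJL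
  have hN3 : (3 : ℝ) ≤ A.card := by exact_mod_cast hA3
  have hN0 : (0 : ℝ) < A.card := by linarith only [hN3]
  -- the number m
  set m : ℕ := ⌈8 * L / ε₁ ^ 2 + 4 * J / ε₁⌉₊ with hm
  have hmlow : 8 * L / ε₁ ^ 2 + 4 * J / ε₁ ≤ m := Nat.le_ceil _
  have hpos1 : 0 ≤ 8 * L / ε₁ ^ 2 := by (clear * - hL1 hε₁; positivity)
  have hmup : (m : ℝ) ≤ C₁ * L := by
    have h1 : (m : ℝ) < 8 * L / ε₁ ^ 2 + 4 * J / ε₁ + 1 := Nat.ceil_lt_add_one (by (clear * - hL1 hε₁ hJ; positivity))
    have h2 : 4 * (J : ℝ) / ε₁ ≤ 4 * L / ε₁ := by (clear * - hJL hε₁; gcongr)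
    have h3 : C₁ * L = 8 * L / ε₁ ^ 2 + 4 * L / ε₁ + L := by
      rw [hC₁]
      ring
    rw [h3]
    linarith only [hL1, h1, h2]
  have hmJ : J ≤ m := by
    have h1 : (J : ℝ) ≤ 4 * J / ε₁ := by
      rw [le_div_iff₀ hε₁]
      (clear * - hε₁'; nlinarith only [hε₁'])
    have h2 : (J : ℝ) ≤ m := by linarith only [hmlow, hpos1, h1]
    exact_mod_cast h2
  -- the number of boxes
  set bx : ℕ := (boxes J (m + 1)).card with hbx
  have hbx1 : (bx : ℝ) ≤ (C₂ * L / J) ^ J := by
    refine (hT J (m + 1) hJ (by omega)).trans ?_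
    apply pow_le_pow_left₀ (by (clear * - hL1 hε₁ hJ; positivity))
    apply div_le_div_of_nonneg_right _ (by linarith only [])
    have h1 : ((m + 1 : ℕ) : ℝ) ≤ (C₁ + 1) * L := by
      push_cast
      linarith only [hL1, hmup]
    calc Real.exp 1 * ((m + 1 : ℕ) : ℝ) ≤ Real.exp 1 * ((C₁ + 1) * L) :=
          mul_le_mul_of_nonneg_left h1 (by positivity)
      _ = C₂ * L := by rw [hC₂]; ring
  have hbx2 : 2 * (bx : ℝ) ≤ (2 * C₂ * L / J) ^ J := by
    have h1 : (2 * C₂ * L / J) ^ J = 2 ^ J * (C₂ * L / J) ^ J := by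
      rw [← mul_pow]
      congr 1
      ring
    have h2 : (2 : ℝ) ≤ 2 ^ J := by
      calc (2 : ℝ) = 2 ^ 1 := by norm_num
        _ ≤ 2 ^ J := pow_le_pow_right₀ (by norm_num) hJ
    have h3 : 0 ≤ (C₂ * L / J) ^ J := by (clear * - hε₁ hL1 hJ; positivity)
    rw [h1]
    calc 2 * (bx : ℝ) ≤ 2 * (C₂ * L / J) ^ J := by linarith only [hbx1]
      _ ≤ 2 ^ J * (C₂ * L / J) ^ J := mul_le_mul_of_nonneg_right h2 h3
  have hbx3 : 2 * (bx : ℝ) ≤ Real.exp (ε / 4 * L) :=
    hbx2.trans (hsmall C L J hCC₀ (by linarith only [hL1]) hJ hCJ)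
  have hbx4 : 2 * (bx : ℝ) ≤ (C * L / J) ^ J := by
    refine hbx2.trans ?_
    apply pow_le_pow_left₀ (by (clear * - hε₁ hL1 hJ; positivity))
    apply div_le_div_of_nonneg_right _ (by linarith only [])
    exact mul_le_mul_of_nonneg_right hCC₂ (by linarith only [hL1])
  -- the integer label
  set g : 𝒴 → ℤ := fun y => if h : ∃ a ∈ A, κ a = y then h.choose else 0 with hg
  have hgκ : ∀ x ∈ A, κ (g (κ x)) = κ x := by
    intro x hx
    have hex : ∃ a ∈ A, κ a = κ x := ⟨x, hx, rfl⟩
    simp only [hg]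
    rw [dif_pos hex]
    exact hex.choose_spec.2
  have hκ' : ∀ x ∈ A, ∀ x' ∈ A, g (κ x) = g (κ x') ↔ κ x = κ x' := by
    intro x hx x' hx'
    constructor
    · intro h
      rw [← hgκ x hx, ← hgκ x' hx', h]
    · intro h
      rw [h]
  -- the large classes
  set A₁ : Finset ℤ := A.filter (fun a => (C * L / J) ^ J <
    ((A.filter (fun a' => κ a' = κ a)).card : ℝ)) with hA₁
  have hA₁A : A₁ ⊆ A := filter_subset _ _
  have hclass : ∀ x ∈ A₁, 2 * bx ≤ (A₁.filter (fun x' => g (κ x') = g (κ x))).card := by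
    intro x hx
    have hxA := hA₁A hx
    have h1 : A.filter (fun a' => κ a' = κ x) ⊆
        A₁.filter (fun x' => g (κ x') = g (κ x)) := by
      intro a ha
      rw [mem_filter] at ha ⊢
      refine ⟨?_, by rw [ha.2]⟩
      rw [hA₁, mem_filter] at hx ⊢
      refine ⟨ha.1, ?_⟩
      rw [ha.2]
      exact hx.2
    have h2 := card_le_card h1
    have h3 : (2 * bx : ℝ) ≤ ((A.filter (fun a' => κ a' = κ x)).card : ℝ) :=
      hbx4.trans (mem_filter.1 hx).2.le
    have h4 : 2 * bx ≤ (A.filter (fun a' => κ a' = κ x)).card := by exact_mod_cast h3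
    (clear * - h2 h4; omega)
  obtain ⟨b, hb1, hbsum, B, hBA₁, hspr, hcard⟩ := hS J m (fun x => g (κ x))
    (fun x l => padicValInt (q l) x) A₁ hJ hmJ (by
      intro x hx x' hx' h1 h2
      exact hlab.inj x (hA₁A hx) x' (hA₁A hx') ((hκ' x (hA₁A hx) x' (hA₁A hx')).1 h1)
        fun l => congrFun h2 l) hclass
  have hBA : B ⊆ A := hBA₁.trans hA₁A
  have hA₁pos : (0 : ℝ) < A₁.card := lt_of_lt_of_le (Real.rpow_pos_of_pos hN0 _) hbig
  have hBne : B.Nonempty := by
    rw [nonempty_iff_ne_empty]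
    rintro rfl
    rw [card_empty, mul_zero] at hcard
    have h1 : A₁.card = 0 := by omega
    rw [h1] at hA₁pos
    simp at hA₁pos
  have hBpos : (0 : ℝ) < B.card := by exact_mod_cast hBne.card_pos
  have hlabB : LabOK q B κ ρ := ⟨fun x hx x' hx' => hlab.inj x (hBA hx) x' (hBA hx'), hlab.mono,
    fun x hx x' hx' => hlab.ker x (hBA hx) x' (hBA hx')⟩
  have hlogB : Real.log B.card ≤ L := by
    apply Real.log_le_log hBpos
    exact_mod_cast card_le_card hBA
  have hH := H J q B 𝒴 R κ ρ b hq hinj (fun h => hA0 (hBA h)) hBne hlabB hb1 (by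
    intro i y u
    by_cases hex : ∃ x₀ ∈ B, κ x₀ = y
    · obtain ⟨x₀, hx₀, rfl⟩ := hex
      have h1 := hspr (g (κ x₀)) i u
      have e1 : B.filter (fun x => κ x = κ x₀ ∧ ∀ l, l ≤ i → padicValInt (q l) x = u l) =
          B.filter (fun x => g (κ x) = g (κ x₀) ∧ ∀ l, l ≤ i → padicValInt (q l) x = u l) := by
        apply filter_congr
        intro x hx
        rw [hκ' x (hBA hx) x₀ (hBA hx₀)]
      have e2 : B.filter (fun x => κ x = κ x₀ ∧ ∀ l, l < i → padicValInt (q l) x = u l) =
          B.filter (fun x => g (κ x) = g (κ x₀) ∧ ∀ l, l < i → padicValInt (q l) x = u l) := by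
        apply filter_congr
        intro x hx
        rw [hκ' x (hBA hx) x₀ (hBA hx₀)]
      rw [e1, e2]
      convert h1 using 2
    · push Not at hex
      have e1 : B.filter (fun x => κ x = y ∧ ∀ l, l ≤ i → padicValInt (q l) x = u l) = ∅ := by
        rw [filter_eq_empty_iff]
        rintro x hx ⟨h, -⟩
        exact hex x hx h
      rw [e1, card_empty, mul_zero]
      exact Nat.zero_le _) (by
    have h1 : ∑ i, (b i : ℝ) = m + 1 := by
      rw [← Nat.cast_sum, hbsum]
      push_cast
      ring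
    rw [h1]
    have h2 : 8 * Real.log B.card / ε₁ ^ 2 ≤ 8 * L / ε₁ ^ 2 := by (clear * - hlogB hε₁; gcongr)
    linarith only [hmlow, h2]) D hD
  -- sizes
  have hDpos : (0 : ℝ) < D.card := by exact_mod_cast hD.card_pos
  have hD1 : (1 : ℝ) ≤ D.card := by exact_mod_cast hD.card_pos
  set ℓ : ℝ := Real.log D.card with hℓ
  have hℓ0 : 0 ≤ ℓ := Real.log_nonneg hD1
  have hsub : sumS B D ⊆ sumS A D := by
    unfold sumS
    apply image_subset_image
    exact product_subset_product_left hBA
  have hsumne : (sumS B D).Nonempty := by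
    unfold sumS
    exact (hBne.product hD).image _
  have hSpos : (0 : ℝ) < (sumS A D).card := by
    exact_mod_cast (hsumne.mono hsub).card_pos
  have hlog1 : Real.log ((sumS B D).card) ≤ Real.log ((sumS A D).card) := by
    apply Real.log_le_log
    · exact_mod_cast hsumne.card_pos
    · exact_mod_cast card_le_card hsub
  have hlogB2 : (1 - 1 / C) * L - ε / 4 * L ≤ Real.log B.card := by
    have h1 : (A.card : ℝ) ^ (1 - 1 / C) ≤ Real.exp (ε / 4 * L) * B.card := by
      calc (A.card : ℝ) ^ (1 - 1 / C) ≤ A₁.card := hbig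
        _ ≤ 2 * bx * B.card := by exact_mod_cast hcard
        _ ≤ Real.exp (ε / 4 * L) * B.card := mul_le_mul_of_nonneg_right hbx3 hBpos.le
    have h2 := Real.log_le_log (Real.rpow_pos_of_pos hN0 _) h1
    rw [Real.log_rpow hN0, Real.log_mul (Real.exp_pos _).ne' hBpos.ne', Real.log_exp] at h2
    linarith only [h2]
  have hKJ : K * J ≤ ε / 8 * L := by
    have h1 : 8 * K ≤ C * ε := by
      rwa [div_le_iff₀ hε0] at hCK
    have h2 : (J : ℝ) * (8 * K) ≤ J * (C * ε) := mul_le_mul_of_nonneg_left h1 (by linarith only [])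
    have h3 : C * J * ε ≤ L * ε := mul_le_mul_of_nonneg_right hCJ hε0.le
    linarith only [h2, h3]
  have hCinv : 1 / C ≤ ε / 8 := by
    rw [div_le_iff₀ hCpos]
    have h1 : 8 ≤ C * ε := by
      rwa [div_le_iff₀ hε0] at hCε
    linarith only [h1]
  have hkey : (1 - ε) * (L + ℓ) ≤ Real.log ((sumS A D).card) := by
    refine le_trans ?_ (hH.trans hlog1)
    have h1 : 0 < 1 - 3 * (ε / 16) := by linarith only [hε1]
    have h2 : (1 - 3 * (ε / 16)) * (ℓ + ((1 - 1 / C) * L - ε / 4 * L)) ≤
        (1 - 3 * (ε / 16)) * (ℓ + Real.log B.card) := by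
      apply mul_le_mul_of_nonneg_left _ h1.le
      linarith only [hlogB2]
    have h3 : 1 / C * L ≤ ε / 8 * L := mul_le_mul_of_nonneg_right hCinv (by linarith only [hL1])
    have h4 : ℓ + (L - ε / 8 * L - ε / 4 * L) ≤ ℓ + ((1 - 1 / C) * L - ε / 4 * L) := by
      linarith only [h3]
    have h5 := mul_le_mul_of_nonneg_left h4 h1.le
    have h6 : (1 - ε) * (L + ℓ) ≤ (1 - 3 * (ε / 16)) * (ℓ + (L - ε / 8 * L - ε / 4 * L)) -
        ε / 8 * L := by
      have e1 : 0 ≤ ε * ℓ := by (clear * - hε₀; positivity)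
      have e2 : 0 ≤ ε * L := by positivity
      have e3 : 0 ≤ ε * ε * L := by (clear * - hε₀ hL1; positivity)
      have e4 : (1 - 3 * (ε / 16)) * (ℓ + (L - ε / 8 * L - ε / 4 * L)) - ε / 8 * L -
          (1 - ε) * (L + ℓ) = 13 / 16 * (ε * ℓ) + 5 / 16 * (ε * L) + 9 / 128 * (ε * ε * L) := by
        ring
      linarith only [e1, e2, e3]
    linarith only [hKJ, h2, h5, h6]
  have hNDpos : (0 : ℝ) < (A.card : ℝ) * D.card := by (clear * - hA3 hD; positivity)
  have hND1 : (1 : ℝ) ≤ (A.card : ℝ) * D.card :=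
    one_le_mul_of_one_le_of_one_le (by linarith only [hN3]) hD1
  calc ((A.card : ℝ) * D.card) ^ (1 - ε₀) ≤ ((A.card : ℝ) * D.card) ^ (1 - ε) := by
        apply Real.rpow_le_rpow_of_exponent_le hND1
        have : ε ≤ ε₀ := min_le_left _ _
        linarith only [this]
    _ = Real.exp ((1 - ε) * (L + ℓ)) := by
        rw [Real.rpow_def_of_pos hNDpos, Real.log_mul hN0.ne' hDpos.ne', mul_comm]
    _ ≤ Real.exp (Real.log ((sumS A D).card)) := Real.exp_le_exp.2 hkey
    _ = (sumS A D).card := Real.exp_log hSpos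
    _ ≤ C * ((sumS A D).card : ℝ) := le_mul_of_one_le_left hSpos.le hC1

end Pool.Agent.Helper88.PP
end

/- Helper24.DI.H68.PP.Trees -/
section
set_option autoImplicit false

/-!
MP_120218_co, project PP (popular primes), module M6: spread subsets of finite sets of vectors.
-/

open Finset

namespace Pool.Agent.Helper68.PP

open Pool.Agent.Helper88.PP

/-- the slice of `V` over the first coordinate `c` -/
def sl {J : ℕ} (V : Finset (Fin (J + 1) → ℕ)) (c : ℕ) : Finset (Fin J → ℕ) :=
  (V.filter (fun v => v 0 = c)).image Fin.tail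

/-- the set of the shapes of the uniform subtrees of `V` -/
def TT : (J : ℕ) → Finset (Fin J → ℕ) → Finset (Fin J → ℕ)
  | 0, V => V
  | J + 1, V =>
    ((V.image (fun v => v 0)).biUnion (fun c => TT J (sl V c))).biUnion (fun b' =>
      (Icc 1 (((V.image (fun v => v 0)).filter (fun c => b' ∈ TT J (sl V c))).card)).image
        (fun β => (Fin.cons β b' : Fin (J + 1) → ℕ)))

theorem cons_inj_left {J : ℕ} (b' : Fin J → ℕ) :
    Function.Injective (fun β : ℕ => (Fin.cons β b' : Fin (J + 1) → ℕ)) := by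
  intro x y h
  have := congrFun h 0
  simpa using this

theorem cons_inj_right {J : ℕ} (c : ℕ) :
    Function.Injective (fun b' : Fin J → ℕ => (Fin.cons c b' : Fin (J + 1) → ℕ)) := by
  intro x y h
  have := congrArg Fin.tail h
  simpa using this

theorem card_sl {J : ℕ} (V : Finset (Fin (J + 1) → ℕ)) (c : ℕ) :
    (sl V c).card = (V.filter (fun v => v 0 = c)).card := by
  unfold sl
  apply card_image_of_injOn
  intro x hx y hy h
  have hx' := (mem_filter.1 (mem_coe.1 hx)).2
  have hy' := (mem_filter.1 (mem_coe.1 hy)).2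
  rw [← Fin.cons_self_tail x, ← Fin.cons_self_tail y, h, hx', hy']

theorem card_TT (J : ℕ) (V : Finset (Fin J → ℕ)) : (TT J V).card = V.card := by
  induction J with
  | zero => rfl
  | succ J ih =>
    unfold TT
    rw [card_biUnion]
    · have h1 : ∀ b' ∈ ((V.image (fun v => v 0)).biUnion (fun c => TT J (sl V c))),
          ((Icc 1 (((V.image (fun v => v 0)).filter (fun c => b' ∈ TT J (sl V c))).card)).image
            (fun β => (Fin.cons β b' : Fin (J + 1) → ℕ))).card =
          ((V.image (fun v => v 0)).filter (fun c => b' ∈ TT J (sl V c))).card := by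
        intro b' _
        rw [card_image_of_injective _ (cons_inj_left b'), Nat.card_Icc]
        omega
      rw [sum_congr rfl h1]
      have h2 := sum_card_bipartiteAbove_eq_sum_card_bipartiteBelow
        (s := (V.image (fun v => v 0)).biUnion (fun c => TT J (sl V c)))
        (t := V.image (fun v => v 0)) (fun b' c => b' ∈ TT J (sl V c))
      unfold bipartiteAbove bipartiteBelow at h2
      rw [h2]
      have h3 : ∀ c ∈ V.image (fun v => v 0),
          (((V.image (fun v => v 0)).biUnion (fun c => TT J (sl V c))).filter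
            (fun b' => b' ∈ TT J (sl V c))).card = (V.filter (fun v => v 0 = c)).card := by
        intro c hc
        rw [← card_sl, ← ih (sl V c)]
        congr 1
        ext b'
        simp only [mem_filter, mem_biUnion]
        constructor
        · exact fun h => h.2
        · exact fun h => ⟨⟨c, hc, h⟩, h⟩
      rw [sum_congr rfl h3, ← card_eq_sum_card_image (fun v : Fin (J + 1) → ℕ => v 0) V]
    · intro x _ y _ hxy
      refine disjoint_left.2 ?_
      intro z hz1 hz2
      obtain ⟨β, _, h1⟩ := mem_image.1 hz1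
      obtain ⟨γ, _, h2⟩ := mem_image.1 hz2
      apply hxy
      have h3 := congrArg Fin.tail (h1.trans h2.symm)
      simpa using h3

theorem mem_TT {J : ℕ} (V : Finset (Fin (J + 1) → ℕ)) (b : Fin (J + 1) → ℕ) :
    b ∈ TT (J + 1) V ↔ 1 ≤ b 0 ∧
      b 0 ≤ ((V.image (fun v => v 0)).filter (fun c => Fin.tail b ∈ TT J (sl V c))).card := by
  constructor
  · intro h
    unfold TT at h
    obtain ⟨b', _, h2⟩ := mem_biUnion.1 h
    obtain ⟨β, h3, rfl⟩ := mem_image.1 h2
    rw [mem_Icc] at h3
    simpa using h3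
  · rintro ⟨h1, h2⟩
    unfold TT
    refine mem_biUnion.2 ⟨Fin.tail b, ?_, ?_⟩
    · have h3 : 0 < ((V.image (fun v => v 0)).filter
          (fun c => Fin.tail b ∈ TT J (sl V c))).card := by omega
      obtain ⟨c, hc⟩ := card_pos.1 h3
      obtain ⟨hc1, hc2⟩ := mem_filter.1 hc
      exact mem_biUnion.2 ⟨c, hc1, hc2⟩
    · exact mem_image.2 ⟨b 0, mem_Icc.2 ⟨h1, h2⟩, Fin.cons_self_tail b⟩

theorem TT_pos {J : ℕ} {V : Finset (Fin J → ℕ)} {b : Fin J → ℕ} (h : b ∈ TT J V) (i : Fin J) :
    1 ≤ b i := by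
  induction J with
  | zero => exact i.elim0
  | succ J ih =>
    obtain ⟨h1, h2⟩ := (mem_TT V b).1 h
    refine Fin.cases h1 (fun j => ?_) i
    have h3 : 0 < ((V.image (fun v => v 0)).filter
        (fun c => Fin.tail b ∈ TT J (sl V c))).card := by omega
    obtain ⟨c, hc⟩ := card_pos.1 h3
    exact ih (mem_filter.1 hc).2 j

theorem TT_mono {J : ℕ} {V : Finset (Fin J → ℕ)} {b b' : Fin J → ℕ} (h : b ∈ TT J V)
    (h1 : ∀ i, 1 ≤ b' i) (h2 : ∀ i, b' i ≤ b i) : b' ∈ TT J V := by
  induction J with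
  | zero =>
    have : b' = b := Subsingleton.elim _ _
    rwa [this]
  | succ J ih =>
    rw [mem_TT] at h ⊢
    refine ⟨h1 0, (h2 0).trans (h.2.trans (card_le_card ?_))⟩
    intro c hc
    rw [mem_filter] at hc ⊢
    exact ⟨hc.1, ih hc.2 (fun i => h1 i.succ) (fun i => h2 i.succ)⟩

theorem card_glue {J : ℕ} (C : Finset ℕ) (W : ℕ → Finset (Fin J → ℕ)) (u : ℕ)
    (q : (Fin J → ℕ) → Prop) [DecidablePred q] :
    ((C.biUnion (fun c => (W c).image (fun v' => (Fin.cons c v' : Fin (J + 1) → ℕ)))).filter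
      (fun v => v 0 = u ∧ q (Fin.tail v))).card = if u ∈ C then ((W u).filter q).card else 0 := by
  split_ifs with hu
  · rw [← card_image_of_injective _ (cons_inj_right (J := J) u)]
    congr 1
    ext v
    simp only [mem_filter, mem_biUnion, mem_image]
    constructor
    · rintro ⟨⟨c, hc, v', hv', rfl⟩, h1, h2⟩
      have h3 : c = u := by simpa using h1
      subst h3
      exact ⟨v', ⟨hv', by simpa using h2⟩, rfl⟩
    · rintro ⟨v', ⟨hv', h2⟩, rfl⟩
      exact ⟨⟨u, hu, v', hv', rfl⟩, by simp, by simpa using h2⟩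
  · rw [card_eq_zero, filter_eq_empty_iff]
    intro v hv
    rintro ⟨h1, _⟩
    obtain ⟨c, hc, hv2⟩ := mem_biUnion.1 hv
    obtain ⟨v', _, rfl⟩ := mem_image.1 hv2
    apply hu
    have h3 : c = u := by simpa using h1
    rwa [← h3]

theorem TT_exists {J : ℕ} {V : Finset (Fin J → ℕ)} {b : Fin J → ℕ} (h : b ∈ TT J V) :
    ∃ V' ⊆ V, V'.card = ∏ i, b i ∧ Spr b V' := by
  induction J with
  | zero =>
    refine ⟨V, Subset.refl _, ?_, fun i => i.elim0⟩
    have h1 : V = {b} := by
      ext v
      rw [mem_singleton]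
      have : v = b := Subsingleton.elim _ _
      subst this
      exact ⟨fun _ => rfl, fun _ => h⟩
    rw [h1]
    simp
  | succ J ih =>
    obtain ⟨h1, h2⟩ := (mem_TT V b).1 h
    obtain ⟨C, hC1, hC2⟩ := exists_subset_card_eq h2
    have hW : ∀ c, ∃ W : Finset (Fin J → ℕ), c ∈ C → W ⊆ sl V c ∧
        W.card = ∏ i, (Fin.tail b) i ∧ Spr (Fin.tail b) W := by
      intro c
      by_cases hc : c ∈ C
      · obtain ⟨W, hW1, hW2, hW3⟩ := ih (mem_filter.1 (hC1 hc)).2
        exact ⟨W, fun _ => ⟨hW1, hW2, hW3⟩⟩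
      · exact ⟨∅, fun h => absurd h hc⟩
    choose W hW using hW
    have hcard : (C.biUnion (fun c => (W c).image
        (fun v' => (Fin.cons c v' : Fin (J + 1) → ℕ)))).card = b 0 * ∏ i, (Fin.tail b) i := by
      rw [card_biUnion]
      · rw [← hC2, card_eq_sum_ones, sum_mul]
        refine sum_congr rfl fun c hc => ?_
        rw [card_image_of_injective _ (cons_inj_right (J := J) c), (hW c hc).2.1, one_mul]
      · intro x _ y _ hxy
        refine disjoint_left.2 ?_
        intro z hz1 hz2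
        obtain ⟨v, _, h3⟩ := mem_image.1 hz1
        obtain ⟨w, _, h4⟩ := mem_image.1 hz2
        apply hxy
        have h5 := congrFun (h3.trans h4.symm) 0
        simpa using h5
    refine ⟨C.biUnion (fun c => (W c).image (fun v' => (Fin.cons c v' : Fin (J + 1) → ℕ))),
      ?_, ?_, ?_⟩
    · intro v hv
      obtain ⟨c, hc, hv2⟩ := mem_biUnion.1 hv
      obtain ⟨v', hv', rfl⟩ := mem_image.1 hv2
      obtain ⟨w, hw, hw2⟩ := mem_image.1 ((hW c hc).1 hv')
      obtain ⟨hw3, hw4⟩ := mem_filter.1 hw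
      rw [← hw2, ← hw4, Fin.cons_self_tail]
      exact hw3
    · rw [hcard, Fin.prod_univ_succ]
      rfl
    · intro i u
      refine Fin.cases ?_ (fun j => ?_) i
      · have e1 : ((C.biUnion (fun c => (W c).image
            (fun v' => (Fin.cons c v' : Fin (J + 1) → ℕ)))).filter
              (fun v => ∀ l, l ≤ 0 → v l = u l)).card =
            if u 0 ∈ C then ((W (u 0)).filter (fun _ => True)).card else 0 := by
          rw [← card_glue C W (u 0) (fun _ => True)]
          refine congrArg card (filter_congr ?_)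
          intro v _
          constructor
          · exact fun h => ⟨h 0 le_rfl, trivial⟩
          · intro h l hl
            rw [Fin.le_zero_iff] at hl
            rw [hl]; exact h.1
        have e2 : (C.biUnion (fun c => (W c).image
            (fun v' => (Fin.cons c v' : Fin (J + 1) → ℕ)))).filter
              (fun v => ∀ l, l < 0 → v l = u l) =
            (C.biUnion (fun c => (W c).image
            (fun v' => (Fin.cons c v' : Fin (J + 1) → ℕ)))) := by
          apply filter_true_of_mem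
          intro v _ l hl
          exact absurd hl (Fin.not_lt_zero l)
        rw [e1, e2, hcard]
        split_ifs with hu
        · rw [filter_true_of_mem (fun _ _ => trivial), (hW _ hu).2.1]
        · rw [mul_zero]; exact Nat.zero_le _
      · have e1 : ((C.biUnion (fun c => (W c).image
            (fun v' => (Fin.cons c v' : Fin (J + 1) → ℕ)))).filter
              (fun v => ∀ l, l ≤ j.succ → v l = u l)).card =
            if u 0 ∈ C then ((W (u 0)).filter
              (fun v' => ∀ l, l ≤ j → v' l = (Fin.tail u) l)).card else 0 := by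
          rw [← card_glue C W (u 0) (fun v' => ∀ l, l ≤ j → v' l = (Fin.tail u) l)]
          refine congrArg card (filter_congr ?_)
          intro v _
          constructor
          · exact fun h => ⟨h 0 (Fin.zero_le _), fun l hl => h l.succ (Fin.succ_le_succ_iff.2 hl)⟩
          · intro h l
            refine Fin.cases (fun _ => h.1) (fun l' hl => ?_) l
            exact h.2 l' (Fin.succ_le_succ_iff.1 hl)
        have e2 : ((C.biUnion (fun c => (W c).image
            (fun v' => (Fin.cons c v' : Fin (J + 1) → ℕ)))).filter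
              (fun v => ∀ l, l < j.succ → v l = u l)).card =
            if u 0 ∈ C then ((W (u 0)).filter
              (fun v' => ∀ l, l < j → v' l = (Fin.tail u) l)).card else 0 := by
          rw [← card_glue C W (u 0) (fun v' => ∀ l, l < j → v' l = (Fin.tail u) l)]
          refine congrArg card (filter_congr ?_)
          intro v _
          constructor
          · exact fun h => ⟨h 0 (Fin.succ_pos _), fun l hl => h l.succ (Fin.succ_lt_succ_iff.2 hl)⟩
          · intro h l
            refine Fin.cases (fun _ => h.1) (fun l' hl => ?_) l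
            exact h.2 l' (Fin.succ_lt_succ_iff.1 hl)
        rw [e1, e2]
        split_ifs with hu
        · exact (hW _ hu).2.2 j (Fin.tail u)
        · rw [mul_zero]

theorem exists_between {J : ℕ} (b : Fin J → ℕ) (s : ℕ) (hb : ∀ i, 1 ≤ b i) (hs : J ≤ s)
    (hs2 : s ≤ ∑ i, b i) : ∃ b' : Fin J → ℕ, (∀ i, 1 ≤ b' i) ∧ (∀ i, b' i ≤ b i) ∧
      ∑ i, b' i = s := by
  obtain ⟨n, hn⟩ : ∃ n, ∑ i, b i = s + n := ⟨_, (Nat.add_sub_cancel' hs2).symm⟩
  induction n generalizing b with
  | zero => exact ⟨b, hb, fun _ => le_rfl, hn⟩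
  | succ n ih =>
    obtain ⟨i, hi⟩ : ∃ i, 2 ≤ b i := by
      by_contra hcon
      push Not at hcon
      have h1 : ∀ i ∈ (univ : Finset (Fin J)), b i = 1 := fun i _ => by
        have := hb i; have := hcon i; omega
      rw [sum_congr rfl h1] at hn
      simp at hn
      omega
    have hsum : ∑ l, Function.update b i (b i - 1) l = s + n := by
      rw [sum_update_of_mem (mem_univ i)]
      rw [← add_sum_erase _ _ (mem_univ i)] at hn
      rw [sdiff_singleton_eq_erase]
      omega
    obtain ⟨b', h1, h2, h3⟩ := ih (Function.update b i (b i - 1)) (fun l => by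
      rw [Function.update_apply]
      split_ifs with h
      · omega
      · exact hb l) (by rw [hsum]; omega) hsum
    refine ⟨b', h1, fun l => (h2 l).trans ?_, h3⟩
    rw [Function.update_apply]
    split_ifs with h
    · rw [h]; omega
    · exact le_rfl

theorem treeLemma : TreeLemma := by
  intro J m V hJ hm hV
  rw [← card_TT J V] at hV
  obtain ⟨b, hb1, hb2⟩ := exists_mem_notMem_of_card_lt_card hV
  have hpos := TT_pos hb1
  have hsum : m + 1 ≤ ∑ i, b i := by
    by_contra hcon
    apply hb2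
    unfold boxes
    rw [mem_filter, Fintype.mem_piFinset]
    refine ⟨fun i => mem_Icc.2 ⟨hpos i, ?_⟩, by omega⟩
    have : b i ≤ ∑ i, b i := single_le_sum (fun _ _ => Nat.zero_le _) (mem_univ i)
    omega
  obtain ⟨b', h1, h2, h3⟩ := exists_between b (m + 1) hpos (by omega) hsum
  obtain ⟨V', h4, h5, h6⟩ := TT_exists (TT_mono hb1 h1 h2)
  refine ⟨b', h1, h3, V', h4, ?_, h6⟩
  rw [← card_pos, h5]
  exact prod_pos fun i _ => h1 i

theorem sum_exp_le (t : ℝ) (m : ℕ) :
    t * ∑ b ∈ Icc 1 m, Real.exp (-(t * b)) ≤ 1 - Real.exp (-(t * m)) := by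
  induction m with
  | zero => simp
  | succ m ih =>
    rw [sum_Icc_succ_top (by omega), mul_add]
    have h1 : t * Real.exp (-(t * ((m + 1 : ℕ) : ℝ))) ≤
        Real.exp (-(t * m)) - Real.exp (-(t * ((m + 1 : ℕ) : ℝ))) := by
      have h2 : Real.exp (-(t * m)) = Real.exp t * Real.exp (-(t * ((m + 1 : ℕ) : ℝ))) := by
        rw [← Real.exp_add]
        congr 1
        push_cast
        ring
      rw [h2]
      have h3 := Real.add_one_le_exp t
      have h4 := Real.exp_pos (-(t * ((m + 1 : ℕ) : ℝ)))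
      (clear * - h3 h4; nlinarith only [h3, h4])
    (clear * - ih h1; linarith only [ih, h1])

theorem treeCount : TreeCount := by
  intro J m hJ hm
  have hJ' : (0 : ℝ) < J := by exact_mod_cast hJ
  have hm' : (0 : ℝ) < m := by
    have : 0 < m := by omega
    exact_mod_cast this
  obtain ⟨t, ht⟩ : ∃ t : ℝ, t = J / m := ⟨_, rfl⟩
  have ht0 : 0 < t := by rw [ht]; (clear * - hJ hm'; positivity)
  have htm : t * m = J := by rw [ht]; field_simp
  have h1 : ((boxes J m).card : ℝ) ≤ ∑ b ∈ boxes J m,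
      Real.exp (t * m) * ∏ i, Real.exp (-(t * b i)) := by
    rw [card_eq_sum_ones]
    push_cast
    refine sum_le_sum fun b hb => ?_
    have hb2 := (mem_filter.1 hb).2
    rw [← Real.exp_sum, ← Real.exp_add]
    rw [← Real.exp_zero]
    apply Real.exp_le_exp.2
    rw [sum_neg_distrib, ← mul_sum]
    have h3 : ((∑ i, b i : ℕ) : ℝ) ≤ m := by exact_mod_cast hb2
    push_cast at h3
    nlinarith only [ht0, h3]
  have h2 : ∑ b ∈ boxes J m, Real.exp (t * m) * ∏ i, Real.exp (-(t * b i)) ≤
      ∑ b ∈ Fintype.piFinset (fun _ : Fin J => Icc 1 m),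
        Real.exp (t * m) * ∏ i, Real.exp (-(t * b i)) := by
    refine sum_le_sum_of_subset_of_nonneg (filter_subset _ _) fun b _ _ => ?_
    exact mul_nonneg (Real.exp_pos _).le (prod_nonneg fun i _ => (Real.exp_pos _).le)
  have h2' : ∑ b ∈ Fintype.piFinset (fun _ : Fin J => Icc 1 m),
      Real.exp (t * m) * ∏ i, Real.exp (-(t * b i)) =
      Real.exp (t * m) * ∏ _i : Fin J, ∑ b ∈ Icc 1 m, Real.exp (-(t * (b : ℝ))) := by
    rw [← mul_sum, prod_univ_sum]
  rw [h2'] at h2
  have h3 : ∑ b ∈ Icc 1 m, Real.exp (-(t * b)) ≤ m / J := by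
    have h4 := sum_exp_le t m
    have h5 : t * ∑ b ∈ Icc 1 m, Real.exp (-(t * b)) ≤ 1 := by
      have := Real.exp_pos (-(t * m))
      (clear * - h4 this; linarith only [h4, this])
    rw [le_div_iff₀ hJ', ← htm]
    calc (∑ b ∈ Icc 1 m, Real.exp (-(t * b))) * (t * m) =
        (t * ∑ b ∈ Icc 1 m, Real.exp (-(t * b))) * m := by ring
      _ ≤ 1 * m := mul_le_mul_of_nonneg_right h5 hm'.le
      _ = m := one_mul _
  have h6 : ∏ i : Fin J, ∑ b ∈ Icc 1 m, Real.exp (-(t * (b : ℝ))) ≤ ((m : ℝ) / J) ^ J := by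
    rw [prod_const, card_univ, Fintype.card_fin]
    exact pow_le_pow_left₀ (sum_nonneg fun b _ => (Real.exp_pos _).le) h3 J
  have h7 : Real.exp (t * m) = Real.exp 1 ^ J := by
    rw [htm, ← Real.exp_nat_mul, mul_one]
  refine h1.trans (h2.trans ?_)
  rw [h7, mul_div_assoc, mul_pow]
  exact mul_le_mul_of_nonneg_left h6 (pow_nonneg (Real.exp_pos 1).le _)

theorem boxes_mono (J m : ℕ) : boxes J m ⊆ boxes J (m + 1) := by
  intro b hb
  unfold boxes at hb ⊢
  rw [mem_filter, Fintype.mem_piFinset] at hb ⊢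
  refine ⟨fun i => ?_, by omega⟩
  have := mem_Icc.1 (hb.1 i)
  exact mem_Icc.2 ⟨this.1, by omega⟩

theorem mem_boxes {J m : ℕ} {b : Fin J → ℕ} (h1 : ∀ i, 1 ≤ b i) (h2 : ∑ i, b i ≤ m) :
    b ∈ boxes J m := by
  unfold boxes
  rw [mem_filter, Fintype.mem_piFinset]
  refine ⟨fun i => mem_Icc.2 ⟨h1 i, ?_⟩, h2⟩
  have : b i ≤ ∑ i, b i := single_le_sum (fun _ _ => Nat.zero_le _) (mem_univ i)
  omega

theorem sprC_empty {J : ℕ} (κ : ℤ → ℤ) (v : ℤ → Fin J → ℕ) (b : Fin J → ℕ) :
    SprC κ v b ∅ := by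
  intro y i u
  simp

theorem sprC_union {J : ℕ} {κ : ℤ → ℤ} {v : ℤ → Fin J → ℕ} {b : Fin J → ℕ} {B B' : Finset ℤ}
    (h : SprC κ v b B) (h' : SprC κ v b B') (hd : Disjoint B B') : SprC κ v b (B ∪ B') := by
  intro y i u
  rw [filter_union, filter_union, card_union_of_disjoint (disjoint_filter_filter hd),
    card_union_of_disjoint (disjoint_filter_filter hd), mul_add]
  exact add_le_add (h y i u) (h' y i u)

theorem sprC_of_spr {J : ℕ} {κ : ℤ → ℤ} {v : ℤ → Fin J → ℕ} {b : Fin J → ℕ} {y : ℤ}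
    {S : Finset ℤ} (hS : ∀ x ∈ S, κ x = y) (hinj : Set.InjOn v S) {V' : Finset (Fin J → ℕ)}
    (hV : V' ⊆ S.image v) (h : Spr b V') : SprC κ v b (S.filter (fun x => v x ∈ V')) := by
  have key : ∀ (P : (Fin J → ℕ) → Prop) [DecidablePred P],
      ((S.filter (fun x => v x ∈ V')).filter (fun x => κ x = y ∧ P (v x))).card =
        (V'.filter P).card := by
    intro P _
    rw [← card_image_of_injOn (s := (S.filter (fun x => v x ∈ V')).filter
      (fun x => κ x = y ∧ P (v x))) (f := v)]
    · congr 1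
      ext w
      simp only [mem_filter, mem_image]
      constructor
      · rintro ⟨x, ⟨⟨_, h2⟩, _, h4⟩, rfl⟩
        exact ⟨h2, h4⟩
      · rintro ⟨h1, h2⟩
        obtain ⟨x, hx, rfl⟩ := mem_image.1 (hV h1)
        exact ⟨x, ⟨⟨hx, h1⟩, hS x hx, h2⟩, rfl⟩
    · intro x hx x' hx' he
      have h1 := (mem_filter.1 (mem_filter.1 (mem_coe.1 hx)).1).1
      have h2 := (mem_filter.1 (mem_filter.1 (mem_coe.1 hx')).1).1
      exact hinj h1 h2 he
  intro y' i u
  by_cases hy : y' = y
  · subst hy
    rw [key (fun w => ∀ l, l ≤ i → w l = u l), key (fun w => ∀ l, l < i → w l = u l)]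
    exact h i u
  · have h0 : (S.filter (fun x => v x ∈ V')).filter
        (fun x => κ x = y' ∧ ∀ l, l ≤ i → v x l = u l) = ∅ := by
      rw [filter_eq_empty_iff]
      rintro x hx ⟨h1, _⟩
      apply hy
      rw [← h1, hS x (mem_filter.1 hx).1]
    rw [h0, card_empty, mul_zero]
    exact Nat.zero_le _

theorem select : Select := by
  classical
  intro J m κ v A hJ hm hinj hcls
  obtain ⟨Bs, hBs⟩ : ∃ Bs : Finset (Fin J → ℕ),
      Bs = (boxes J (m + 1)).filter (fun b => ∑ i, b i = m + 1) := ⟨_, rfl⟩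
  have hBs1 : ∀ b ∈ Bs, (∀ i, 1 ≤ b i) ∧ ∑ i, b i = m + 1 := by
    intro b hb
    rw [hBs, mem_filter] at hb
    refine ⟨fun i => ?_, hb.2⟩
    have := hb.1
    unfold boxes at this
    rw [mem_filter, Fintype.mem_piFinset] at this
    exact (mem_Icc.1 (this.1 i)).1
  have hBs2 : ∀ b : Fin J → ℕ, (∀ i, 1 ≤ b i) → ∑ i, b i = m + 1 → b ∈ Bs := by
    intro b h1 h2
    rw [hBs, mem_filter]
    exact ⟨mem_boxes h1 h2.le, h2⟩
  have hne : Bs.Nonempty := by
    obtain ⟨b, h1, _, h3⟩ := exists_between (fun _ : Fin J => m + 1) (m + 1)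
      (fun _ => by omega) (by omega) (by
        rw [sum_const, card_univ, Fintype.card_fin, smul_eq_mul]
        exact Nat.le_mul_of_pos_left _ (by omega))
    exact ⟨b, hBs2 b h1 h3⟩
  have hmax : ∀ b : Fin J → ℕ, ∃ B : Finset ℤ, B ⊆ A ∧ SprC κ v b B ∧
      ∀ B' ⊆ A, SprC κ v b B' → B'.card ≤ B.card := by
    intro b
    obtain ⟨B, hB, hB2⟩ := exists_max_image (A.powerset.filter (fun B => SprC κ v b B))
      (fun B => B.card) ⟨∅, by simp [sprC_empty]⟩
    rw [mem_filter, mem_powerset] at hB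
    refine ⟨B, hB.1, hB.2, fun B' h1 h2 => hB2 B' ?_⟩
    rw [mem_filter, mem_powerset]
    exact ⟨h1, h2⟩
  choose F hF1 hF2 hF3 using hmax
  obtain ⟨U, hU⟩ : ∃ U : Finset ℤ, U = Bs.biUnion F := ⟨_, rfl⟩
  have hsmall : ∀ y, ((A.filter (fun x => κ x = y)).filter (fun x => x ∉ U)).card ≤
      (boxes J m).card := by
    intro y
    by_contra hcon
    rw [not_le] at hcon
    obtain ⟨S, hS⟩ : ∃ S : Finset ℤ, S = (A.filter (fun x => κ x = y)).filter
      (fun x => x ∉ U) := ⟨_, rfl⟩
    have hSA : ∀ x ∈ S, x ∈ A ∧ κ x = y ∧ x ∉ U := by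
      intro x hx
      rw [hS, mem_filter, mem_filter] at hx
      exact ⟨hx.1.1, hx.1.2, hx.2⟩
    have hinjS : Set.InjOn v S := by
      intro x hx x' hx' he
      have h1 := hSA x (mem_coe.1 hx)
      have h2 := hSA x' (mem_coe.1 hx')
      exact hinj x h1.1 x' h2.1 (h1.2.1.trans h2.2.1.symm) he
    rw [← hS, ← card_image_of_injOn hinjS] at hcon
    obtain ⟨b, hb1, hb2, V', hV1, ⟨w, hw⟩, hV3⟩ := treeLemma J m (S.image v) hJ hm hcon
    have h1 := sprC_of_spr (κ := κ) (fun x hx => (hSA x hx).2.1) hinjS hV1 hV3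
    have hbB := hBs2 b hb1 hb2
    have hd : Disjoint (F b) (S.filter (fun x => v x ∈ V')) := by
      rw [disjoint_left]
      intro x hx1 hx2
      apply (hSA x (mem_filter.1 hx2).1).2.2
      rw [hU]
      exact mem_biUnion.2 ⟨b, hbB, hx1⟩
    have h2 := hF3 b (F b ∪ S.filter (fun x => v x ∈ V'))
      (union_subset (hF1 b) (fun x hx => (hSA x (mem_filter.1 hx).1).1))
      (sprC_union (hF2 b) h1 hd)
    rw [card_union_of_disjoint hd] at h2
    have h3 : 0 < (S.filter (fun x => v x ∈ V')).card := by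
      rw [card_pos]
      obtain ⟨x, hx, rfl⟩ := mem_image.1 (hV1 hw)
      exact ⟨x, mem_filter.2 ⟨hx, hw⟩⟩
    omega
  have hclass : ∀ y ∈ A.image κ, (A.filter (fun x => κ x = y)).card ≤
      2 * ((A.filter (fun x => x ∈ U)).filter (fun x => κ x = y)).card := by
    intro y hy
    obtain ⟨x, hx, rfl⟩ := mem_image.1 hy
    have h1 := hcls x hx
    have h2 := hsmall (κ x)
    have h3 := card_le_card (boxes_mono J m)
    have h4 := card_filter_add_card_filter_not (s := A.filter (fun x' => κ x' = κ x))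
      (fun x => x ∈ U)
    have h5 : (A.filter (fun x' => κ x' = κ x)).filter (fun x => x ∈ U) =
        (A.filter (fun x => x ∈ U)).filter (fun x' => κ x' = κ x) := filter_comm _ _ _
    rw [h5] at h4
    omega
  have hA : A.card ≤ 2 * (A.filter (fun x => x ∈ U)).card := by
    rw [card_eq_sum_card_image κ A, card_eq_sum_card_fiberwise (f := κ)
      (s := A.filter (fun x => x ∈ U)) (t := A.image κ)
      (fun x hx => mem_image_of_mem κ (mem_filter.1 (mem_coe.1 hx)).1), mul_sum]
    exact sum_le_sum hclass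
  obtain ⟨b0, hb0, hb0max⟩ := exists_max_image Bs (fun b => (F b).card) hne
  refine ⟨b0, (hBs1 b0 hb0).1, (hBs1 b0 hb0).2, F b0, hF1 b0, hF2 b0, ?_⟩
  have h1 : (A.filter (fun x => x ∈ U)).card ≤ U.card := by
    apply card_le_card
    intro x hx
    exact (mem_filter.1 hx).2
  have h2 : U.card ≤ Bs.card * (F b0).card := by
    rw [hU]
    exact card_biUnion_le_card_mul _ _ _ fun b hb => hb0max b hb
  have h3 : Bs.card ≤ (boxes J (m + 1)).card := by
    rw [hBs]; exact card_le_card (filter_subset _ _)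
  calc A.card ≤ 2 * (A.filter (fun x => x ∈ U)).card := hA
    _ ≤ 2 * (Bs.card * (F b0).card) := Nat.mul_le_mul_left 2 (h1.trans h2)
    _ ≤ 2 * ((boxes J (m + 1)).card * (F b0).card) :=
        Nat.mul_le_mul_left 2 (Nat.mul_le_mul_right _ h3)
    _ = _ := by ring

end Pool.Agent.Helper68.PP
end

/- Helper24.DI.H78.PP.PhaseOne -/
section
/-!
# Project PP (MP_120218_co), M2: the valuations at few primes are almost determined by the sum
-/

set_option autoImplicit false

open Finset

namespace Pool.Agent.Helper78.PP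

open Pool.Agent.Helper15.BP Pool.Agent.Helper84.TR Pool.Agent.Helper88.RT Pool.Agent.Helper88.PP

variable {Ω Ω' : Type} [Fintype Ω] [Fintype Ω']

/-! ### entropy lemmas -/

theorem CE_mono_supp {α β γ : Type} {w : Ω → ℝ} (hw : IsPr w) (f : Ω → α) (f' : Ω → β)
    (g : Ω → γ)
    (h : ∀ o o', w o ≠ 0 → w o' ≠ 0 → g o = g o' → f o = f o' → f' o = f' o') :
    CE w f' g ≤ CE w f g := by
  have h1 : CE w f' g ≤ CE w (fun o => (f' o, f o)) g :=
    CE_mono hw fun o o' _ hh => congrArg Prod.fst hh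
  have h2 := CE_chain w f' f g
  have h3 : CE w f' (fun o => (f o, g o)) = 0 := by
    apply CE_zero_of_supp
    intro o o' ho ho' hh
    exact h o o' ho ho' (congrArg Prod.snd hh) (congrArg Prod.fst hh)
  (clear * - h1 h2 h3; linarith only [h1, h2, h3])

theorem CE_swap {α β : Type} (w : Ω → ℝ) (w' : Ω' → ℝ) (f : Ω × Ω' → α) (g : Ω × Ω' → β) :
    CE (prodW w w') f g = CE (prodW w' w) (fun p => f p.swap) (fun p => g p.swap) := by
  have h : ∀ o : Ω × Ω', prodW w' w (Equiv.prodComm Ω Ω' o) = prodW w w' o := by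
    intro o
    unfold prodW
    exact mul_comm _ _
  have e : ∀ {γ : Type} (u : Ω × Ω' → γ),
      Ent (prodW w w') u = Ent (prodW w' w) (fun p => u p.swap) := fun u =>
    Ent_equiv (Equiv.prodComm Ω Ω') h (fun p => u p.swap)
  unfold CE
  rw [e, e]

theorem Ent_prop_le {w : Ω → ℝ} (hw : IsPr w) (J : Ω → Prop) : Ent w J ≤ Real.log 2 := by
  rw [Ent_event hw]
  exact Real.binEntropy_le_log_two

theorem cw_supp {α : Type} {w : Ω → ℝ} {A : Ω → α} {a : α} {o : Ω} (h : cw w A a o ≠ 0) :
    A o = a ∧ w o ≠ 0 := by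
  classical
  unfold cw at h
  by_cases h1 : A o = a
  · rw [if_pos h1] at h
    exact ⟨h1, fun h2 => h (by rw [h2, zero_div])⟩
  · rw [if_neg h1] at h
    exact absurd rfl h

/-- revealing `A(X)` and `B(Z)` and continuing in the cells -/
theorem cell_step {α β γ : Type} {η : ℝ} (hη : 0 ≤ η) {w : Ω → ℝ} {w' : Ω' → ℝ} (hw : IsPr w)
    (hw' : IsPr w') (X : Ω → ℤ) (Z : Ω' → ℤ) (G : Ω × Ω' → γ) (A : Ω → α) (B : Ω' → β)
    [DecidableEq α] [DecidableEq β] (c : α → β → ℝ) (hc : ∀ a b, 0 ≤ c a b)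
    (h : ∀ a b, pr w A a ≠ 0 → pr w' B b ≠ 0 →
      CE (prodW (cw w A a) (cw w' B b)) G (fun p => X p.1 + Z p.2) ≤
        η * (Ent (cw w A a) X + Ent (cw w' B b) Z) + c a b) :
    CE (prodW w w') G (fun p => X p.1 + Z p.2) ≤
      CE (prodW w w') (fun p => (A p.1, B p.2)) (fun p => X p.1 + Z p.2) +
        η * (CE w X A + CE w' Z B) +
        ∑ a ∈ univ.image A, ∑ b ∈ univ.image B, pr w A a * pr w' B b * c a b := by
  have hp := hw.prod hw'
  have h1 : CE (prodW w w') G (fun p => X p.1 + Z p.2) ≤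
      CE (prodW w w') (fun p => (G p, (A p.1, B p.2))) (fun p => X p.1 + Z p.2) :=
    CE_mono hp fun o o' _ hh => congrArg Prod.fst hh
  have h2 := CE_chain (prodW w w') G (fun p => (A p.1, B p.2)) (fun p => X p.1 + Z p.2)
  have h3 : CE (prodW w w') G (fun p => ((A p.1, B p.2), X p.1 + Z p.2)) =
      CE (prodW w w') G (fun p => (X p.1 + Z p.2, (A p.1, B p.2))) := by
    apply CE_congr
    · intro o o'
      simp only [Prod.mk.injEq]
      tauto
    · intro o o' _
      exact Iff.rfl
  set F : α × β → ℝ := fun ab => pr w A ab.1 * pr w' B ab.2 *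
    (η * (Ent (cw w A ab.1) X + Ent (cw w' B ab.2) Z) + c ab.1 ab.2) with hF
  have hFnn : ∀ ab, 0 ≤ F ab := by
    intro ab
    simp only [hF]
    by_cases ha : pr w A ab.1 = 0
    · rw [ha]; simp
    by_cases hb : pr w' B ab.2 = 0
    · rw [hb]; simp
    have g3 := Ent_nonneg (cw_isPr hw A ab.1 ha) X
    have g4 := Ent_nonneg (cw_isPr hw' B ab.2 hb) Z
    have g6 := pr_nonneg hw A ab.1
    have g7 := pr_nonneg hw' B ab.2
    have g8 := hc ab.1 ab.2
    (clear * - g6 ha g7 hb hη g3 g4 g8; positivity)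
  have h4 : CE (prodW w w') G (fun p => (X p.1 + Z p.2, (A p.1, B p.2))) ≤
      ∑ a ∈ univ.image A, ∑ b ∈ univ.image B, F (a, b) := by
    rw [CE_fib hp G (fun p => X p.1 + Z p.2) (fun p => (A p.1, B p.2))]
    have h5 : ∀ ab ∈ univ.image (fun p : Ω × Ω' => (A p.1, B p.2)),
        pr (prodW w w') (fun p => (A p.1, B p.2)) ab *
          CE (cw (prodW w w') (fun p => (A p.1, B p.2)) ab) G (fun p => X p.1 + Z p.2) ≤
          F ab := by
      rintro ⟨a, b⟩ _
      rw [pr_prod, cw_prod]
      simp only [hF]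
      by_cases ha : pr w A a = 0
      · rw [ha]; simp
      by_cases hb : pr w' B b = 0
      · rw [hb]; simp
      exact mul_le_mul_of_nonneg_left (h a b ha hb)
        (mul_nonneg (pr_nonneg hw A a) (pr_nonneg hw' B b))
    refine (sum_le_sum h5).trans ?_
    have hsub : univ.image (fun p : Ω × Ω' => (A p.1, B p.2)) ⊆
        (univ.image A) ×ˢ (univ.image B) := by
      intro ab hab
      obtain ⟨p, -, rfl⟩ := mem_image.1 hab
      rw [mem_product]
      exact ⟨mem_image_of_mem _ (mem_univ _), mem_image_of_mem _ (mem_univ _)⟩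
    refine (sum_le_sum_of_subset_of_nonneg hsub fun ab _ _ => hFnn ab).trans (le_of_eq ?_)
    rw [sum_product]
  have sA := sum_pr_one hw A
  have sB := sum_pr_one hw' B
  have eA := Ent_fib hw X A
  have eB := Ent_fib hw' Z B
  have h6 : ∑ a ∈ univ.image A, ∑ b ∈ univ.image B, F (a, b) =
      η * (CE w X A + CE w' Z B) +
        ∑ a ∈ univ.image A, ∑ b ∈ univ.image B, pr w A a * pr w' B b * c a b := by
    have h7 : ∀ a ∈ univ.image A, ∑ b ∈ univ.image B, F (a, b) =
        η * (pr w A a * Ent (cw w A a) X) + η * CE w' Z B * pr w A a +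
          ∑ b ∈ univ.image B, pr w A a * pr w' B b * c a b := by
      intro a _
      have h8 : ∀ b ∈ univ.image B, F (a, b) =
          η * (pr w A a * Ent (cw w A a) X) * pr w' B b +
            η * pr w A a * (pr w' B b * Ent (cw w' B b) Z) + pr w A a * pr w' B b * c a b := by
        intro b _
        simp only [hF]
        ring
      rw [sum_congr rfl h8, sum_add_distrib, sum_add_distrib, ← mul_sum, ← mul_sum, sB, ← eB]
      ring
    rw [sum_congr rfl h7, sum_add_distrib, sum_add_distrib, ← mul_sum, ← mul_sum, sA, ← eA]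
    ring
  rw [h2, h3] at h1
  rw [h6] at h4
  (clear * - h1 h4; linarith only [h1, h4])

/-! ### the claims -/

/-- the bound for the valuations at `Q`, with the additive constant `c` -/
def Cl (η c : ℝ) (T : ℕ) (Q : Finset ℕ) (w : Ω → ℝ) (w' : Ω' → ℝ) (X : Ω → ℤ) (Z : Ω' → ℤ) :
    Prop :=
  CE (prodW w w') (fun p => (vP T Q (X p.1), vP T Q (Z p.2))) (fun p => X p.1 + Z p.2) ≤
    η * (Ent w X + Ent w' Z) + c

theorem Cl.swap {η c : ℝ} {T : ℕ} {Q : Finset ℕ} {w : Ω → ℝ} {w' : Ω' → ℝ} {X : Ω → ℤ}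
    {Z : Ω' → ℤ} (h : Cl η c T Q w w' X Z) : Cl η c T Q w' w Z X := by
  unfold Cl at h ⊢
  rw [CE_swap]
  rw [add_comm (Ent w' Z)]
  refine le_trans (le_of_eq ?_) h
  apply CE_congr
  · intro o o'
    simp only [Prod.fst_swap, Prod.snd_swap]
    rw [add_comm (Z o.2), add_comm (Z o'.2)]
  · intro o o' _
    simp only [Prod.fst_swap, Prod.snd_swap, Prod.mk.injEq]
    tauto

theorem Cl.mono {η c c' : ℝ} {T : ℕ} {Q : Finset ℕ} {w : Ω → ℝ} {w' : Ω' → ℝ} {X : Ω → ℤ}
    {Z : Ω' → ℤ} (h : Cl η c T Q w w' X Z) (hc : c ≤ c') : Cl η c' T Q w w' X Z := by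
  unfold Cl at h ⊢
  linarith only [h, hc]

theorem vt_eq {T q t : ℕ} (ht : t < T) {x : ℤ} (h1 : (q : ℤ) ^ t ∣ x)
    (h2 : ¬ (q : ℤ) ^ (t + 1) ∣ x) : vt T q x = t := by
  unfold vt
  have h3 : (range T).filter (fun s => ((q : ℤ) ^ (s + 1) ∣ x)) = range t := by
    ext s
    rw [mem_filter, mem_range, mem_range]
    constructor
    · rintro ⟨_, h4⟩
      by_contra h5
      exact h2 ((pow_dvd_pow _ (by omega)).trans h4)
    · intro h4
      exact ⟨by omega, (pow_dvd_pow _ (by omega)).trans h1⟩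
  rw [h3, card_range]

theorem vt_top {T q : ℕ} {x : ℤ} (h1 : (q : ℤ) ^ T ∣ x) : vt T q x = T := by
  unfold vt
  have h3 : (range T).filter (fun s => ((q : ℤ) ^ (s + 1) ∣ x)) = range T := by
    ext s
    rw [mem_filter, mem_range]
    constructor
    · exact fun h => h.1
    · intro h4
      exact ⟨h4, (pow_dvd_pow _ (by omega)).trans h1⟩
  rw [h3, card_range]

/-- the induction hypothesis for `P` -/
def IH (η K : ℝ) (T : ℕ) (P : Finset ℕ) : Prop :=
  ∀ (Ω Ω' : Type) [Fintype Ω] [Fintype Ω'] (w : Ω → ℝ) (w' : Ω' → ℝ) (X : Ω → ℤ) (Z : Ω' → ℤ),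
    IsPr w → IsPr w' → Cl η K T P w w' X Z

/-- both valuations at `q` are known -/
theorem caseRR {η K : ℝ} {T : ℕ} {P : Finset ℕ} (hIH : IH η K T P) (q : ℕ) {w : Ω → ℝ}
    {w' : Ω' → ℝ} (hw : IsPr w) (hw' : IsPr w') (X : Ω → ℤ) (Z : Ω' → ℤ) (a b : ℕ)
    (hX : ∀ o, w o ≠ 0 → vt T q (X o) = a) (hZ : ∀ o, w' o ≠ 0 → vt T q (Z o) = b) :
    Cl η K T (insert q P) w w' X Z := by
  have h := hIH Ω Ω' w w' X Z hw hw'
  unfold Cl at h ⊢
  refine le_trans (CE_mono_supp (hw.prod hw') _ _ _ ?_) h
  rintro ⟨o1, o2⟩ ⟨o3, o4⟩ ho ho' _ hF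
  have e1 : w o1 ≠ 0 := fun h0 => ho (by unfold prodW; simp only; rw [h0, zero_mul])
  have e2 : w' o2 ≠ 0 := fun h0 => ho (by unfold prodW; simp only; rw [h0, mul_zero])
  have e3 : w o3 ≠ 0 := fun h0 => ho' (by unfold prodW; simp only; rw [h0, zero_mul])
  have e4 : w' o4 ≠ 0 := fun h0 => ho' (by unfold prodW; simp only; rw [h0, mul_zero])
  simp only [Prod.mk.injEq] at hF ⊢
  constructor
  · funext q'
    have h5 := congrFun hF.1 q'
    unfold vP at h5 ⊢
    by_cases hq : q' = q
    · rw [hq, hX o1 e1, hX o3 e3]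
    · simp only [mem_insert, hq, false_or]
      exact h5
  · funext q'
    have h5 := congrFun hF.2 q'
    unfold vP at h5 ⊢
    by_cases hq : q' = q
    · rw [hq, hZ o2 e2, hZ o4 e4]
    · simp only [mem_insert, hq, false_or]
      exact h5

/-- conditioning on a function -/
theorem CE_self {α : Type} {w : Ω → ℝ} (X : Ω → ℤ) (f : ℤ → α) :
    CE w X (fun o => f (X o)) = Ent w X - Ent w (fun o => f (X o)) := by
  unfold CE
  rw [Ent_congr (f := fun o => (X o, f (X o))) (g := X)]
  intro o o'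
  simp only [Prod.mk.injEq]
  exact ⟨fun h => h.1, fun h => ⟨h, by rw [h]⟩⟩

/-- revealing both classes modulo `n`, when `Z` is mostly `0` modulo `n` -/
theorem step_mod {η σ : ℝ} (hη : 0 ≤ η) (hcol : ColProp η σ) {w : Ω → ℝ} {w' : Ω' → ℝ}
    (hw : IsPr w) (hw' : IsPr w') (X : Ω → ℤ) (Z : Ω' → ℤ) (n : ℕ)
    (hm : mass w' (fun o => ((Z o : ℤ) : ZMod n) ≠ 0) ≤ σ) {γ : Type} (G : Ω × Ω' → γ) (c : ℝ)
    (hc : 0 ≤ c)
    (h : ∀ a b : ZMod n, pr w (fun o => ((X o : ℤ) : ZMod n)) a ≠ 0 →
      pr w' (fun o => ((Z o : ℤ) : ZMod n)) b ≠ 0 →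
      CE (prodW (cw w (fun o => ((X o : ℤ) : ZMod n)) a) (cw w' (fun o => ((Z o : ℤ) : ZMod n)) b))
        G (fun p => X p.1 + Z p.2) ≤
        η * (Ent (cw w (fun o => ((X o : ℤ) : ZMod n)) a) X +
          Ent (cw w' (fun o => ((Z o : ℤ) : ZMod n)) b) Z) + c) :
    CE (prodW w w') G (fun p => X p.1 + Z p.2) ≤ η * (Ent w X + Ent w' Z) + c := by
  classical
  have hp := hw.prod hw'
  have h1 := cell_step hη hw hw' X Z G (fun o => ((X o : ℤ) : ZMod n))
    (fun o => ((Z o : ℤ) : ZMod n)) (fun _ _ => c) (fun _ _ => hc) h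
  have h2 : ∑ a ∈ univ.image (fun o => ((X o : ℤ) : ZMod n)),
      ∑ b ∈ univ.image (fun o => ((Z o : ℤ) : ZMod n)),
      pr w (fun o => ((X o : ℤ) : ZMod n)) a * pr w' (fun o => ((Z o : ℤ) : ZMod n)) b * c = c := by
    have sA := sum_pr_one hw (fun o => ((X o : ℤ) : ZMod n))
    have sB := sum_pr_one hw' (fun o => ((Z o : ℤ) : ZMod n))
    have h3 : ∀ a ∈ univ.image (fun o => ((X o : ℤ) : ZMod n)),
        ∑ b ∈ univ.image (fun o => ((Z o : ℤ) : ZMod n)),
        pr w (fun o => ((X o : ℤ) : ZMod n)) a * pr w' (fun o => ((Z o : ℤ) : ZMod n)) b * c =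
        pr w (fun o => ((X o : ℤ) : ZMod n)) a * c := by
      intro a _
      rw [← sum_mul, ← mul_sum, sB, mul_one]
    rw [sum_congr rfl h3, ← sum_mul, sA, one_mul]
  have h4 : CE (prodW w w') (fun p => (((X p.1 : ℤ) : ZMod n), ((Z p.2 : ℤ) : ZMod n)))
      (fun p => X p.1 + Z p.2) ≤
      η * (Ent w (fun o => ((X o : ℤ) : ZMod n)) + Ent w' (fun o => ((Z o : ℤ) : ZMod n))) := by
    have h5 : CE (prodW w w') (fun p => (((X p.1 : ℤ) : ZMod n), ((Z p.2 : ℤ) : ZMod n)))
        (fun p => X p.1 + Z p.2) ≤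
        CE (prodW w w') (fun p => ((X p.1 : ℤ) : ZMod n)) (fun p => X p.1 + Z p.2) := by
      apply CE_mono hp
      intro o o' hs hx
      simp only [Prod.mk.injEq]
      refine ⟨hx, ?_⟩
      have h6 : (((X o.1 + Z o.2 : ℤ)) : ZMod n) = ((X o'.1 + Z o'.2 : ℤ) : ZMod n) := by
        rw [hs]
      push_cast at h6
      rw [hx] at h6
      exact add_left_cancel h6
    have h6 : CE (prodW w w') (fun p => ((X p.1 : ℤ) : ZMod n)) (fun p => X p.1 + Z p.2) ≤
        CE (prodW w w') (fun p => ((X p.1 : ℤ) : ZMod n))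
          (fun p => ((X p.1 : ℤ) : ZMod n) + ((Z p.2 : ℤ) : ZMod n)) := by
      apply CE_anti hp
      intro o o' hs
      have h7 : (((X o.1 + Z o.2 : ℤ)) : ZMod n) = ((X o'.1 + Z o'.2 : ℤ) : ZMod n) := by
        rw [hs]
      push_cast at h7
      exact h7
    have h7 := hcol Ω Ω' (ZMod n) w w' (fun o => ((X o : ℤ) : ZMod n))
      (fun o => ((Z o : ℤ) : ZMod n)) hw hw' hm
    linarith only [h5, h6, h7]
  have h8 := CE_self (w := w) X (fun x => (x : ZMod n))
  have h9 := CE_self (w := w') Z (fun x => (x : ZMod n))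
  rw [h2, h8, h9] at h1
  (clear * - h1 h4; linarith only [h1, h4])

/-- mass of the complement -/
theorem pr_prop {w : Ω → ℝ} (J : Ω → Prop) : pr w J True = mass w J := pr_true w J

theorem pr_false {w : Ω → ℝ} (J : Ω → Prop) : pr w J False = mass w (fun o => ¬ J o) := by
  classical
  unfold pr mass
  apply sum_congr rfl
  intro o _
  by_cases h : J o
  · rw [if_neg (fun h2 => of_eq_false h2 h), if_neg (fun h2 => h2 h)]
  · rw [if_pos (eq_false h), if_pos h]

/-- the average of a function of an event -/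
theorem sum_bit [DecidableEq Prop] {w : Ω → ℝ} (hw : IsPr w) (J : Ω → Prop) (F : Prop → ℝ) :
    ∑ j ∈ univ.image J, pr w J j * F j = mass w J * F True + (1 - mass w J) * F False := by
  classical
  rw [← sum_w_comp w J F, ← hw.sum_one]
  have h1 : mass w J = ∑ o, (if J o then w o else 0) := by
    unfold mass
    exact sum_congr rfl fun o _ => by congr
  rw [h1, sub_mul, sum_mul, sum_mul, sum_mul, ← sum_sub_distrib, ← sum_add_distrib]
  apply sum_congr rfl
  intro o _
  by_cases h : J o
  · rw [if_pos h, eq_true h]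
    ring
  · rw [if_neg h, eq_false h]
    ring

section q
variable {η σ K : ℝ} {T : ℕ} {P : Finset ℕ} {q : ℕ}

/-- `v_q(X)` is known and `q ^ t` divides `Z`; here `q ^ (t + 1)` mostly divides `Z` -/
theorem caseRU_small (hη : 0 ≤ η) (hcol : ColProp η σ) (hK : 0 ≤ K) (hIH : IH η K T P) {b : ℝ}
    (hb : 0 ≤ b) {t : ℕ} (ht : t < T)
    (hnext : ∀ (Ω Ω' : Type) [Fintype Ω] [Fintype Ω'] (w : Ω → ℝ) (w' : Ω' → ℝ) (X : Ω → ℤ)
      (Z : Ω' → ℤ) (a : ℕ), IsPr w → IsPr w' → (∀ o, w o ≠ 0 → vt T q (X o) = a) →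
      (∀ o, w' o ≠ 0 → (q : ℤ) ^ (t + 1) ∣ Z o) → Cl η (K + b) T (insert q P) w w' X Z)
    {w : Ω → ℝ} {w' : Ω' → ℝ} (hw : IsPr w) (hw' : IsPr w') (X : Ω → ℤ) (Z : Ω' → ℤ) (a : ℕ)
    (hX : ∀ o, w o ≠ 0 → vt T q (X o) = a) (hZ : ∀ o, w' o ≠ 0 → (q : ℤ) ^ t ∣ Z o)
    (hm : mass w' (fun o => ¬ (q : ℤ) ^ (t + 1) ∣ Z o) ≤ σ) :
    Cl η (K + b) T (insert q P) w w' X Z := by
  unfold Cl
  have hzero : ∀ x : ℤ, ((x : ℤ) : ZMod (q ^ (t + 1))) = 0 ↔ (q : ℤ) ^ (t + 1) ∣ x := by
    intro x
    rw [← Int.cast_zero, ZMod.intCast_eq_intCast_iff_dvd_sub, zero_sub, dvd_neg]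
    push_cast
    rfl
  apply step_mod hη hcol hw hw' X Z (q ^ (t + 1))
  · refine le_trans (mass_mono hw' ?_) hm
    intro o ho hd
    exact ho ((hzero _).2 hd)
  · linarith only [hK, hb]
  · intro x z hx hz
    have hw1 := cw_isPr hw _ x hx
    have hw2 := cw_isPr hw' _ z hz
    by_cases hz0 : z = 0
    · apply hnext _ _ _ _ _ _ a hw1 hw2
      · intro o ho
        exact hX o (cw_supp ho).2
      · intro o ho
        have h1 := (cw_supp ho).1
        rw [hz0] at h1
        exact (hzero _).1 h1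
    · refine Cl.mono (caseRR hIH q hw1 hw2 X Z a t ?_ ?_) (by (clear * - hb; linarith only [hb]))
      · intro o ho
        exact hX o (cw_supp ho).2
      · intro o ho
        have h1 := (cw_supp ho).1
        refine vt_eq ht (hZ o (cw_supp ho).2) ?_
        intro h2
        exact hz0 (by rw [← h1]; exact (hzero _).2 h2)

/-- `v_q(X)` is known and `q ^ t` divides `Z` -/
theorem caseRU (hη : 0 ≤ η) (hσ : 0 < σ) (hcol : ColProp η σ) (hK : 0 ≤ K) (hIH : IH η K T P)
    {b : ℝ} (hb : Real.log 2 ≤ σ * b) : ∀ s : ℕ, s ≤ T →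
    ∀ (Ω Ω' : Type) [Fintype Ω] [Fintype Ω'] (w : Ω → ℝ) (w' : Ω' → ℝ) (X : Ω → ℤ)
      (Z : Ω' → ℤ) (a : ℕ), IsPr w → IsPr w' → (∀ o, w o ≠ 0 → vt T q (X o) = a) →
      (∀ o, w' o ≠ 0 → (q : ℤ) ^ (T - s) ∣ Z o) → Cl η (K + b) T (insert q P) w w' X Z := by
  classical
  have hl2 : 0 < Real.log 2 := Real.log_pos (by norm_num)
  have hb0 : 0 ≤ b := by
    by_contra hcon
    push Not at hcon
    nlinarith only [hσ, hb, hl2, hcon]
  intro s
  induction s with
  | zero =>
    intro _ Ω Ω' _ _ w w' X Z a hw hw' hX hZ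
    refine Cl.mono (caseRR hIH q hw hw' X Z a T hX ?_) (by (clear * - hb0; linarith only [hb0]))
    intro o ho
    have := hZ o ho
    rw [Nat.sub_zero] at this
    exact vt_top this
  | succ s ih =>
    intro hs Ω Ω' _ _ w w' X Z a hw hw' hX hZ
    have hts : T - (s + 1) + 1 = T - s := by omega
    have htT : T - (s + 1) < T := by omega
    have hnext := ih (by omega)
    rw [← hts] at hnext
    by_cases hm : mass w' (fun o => ¬ (q : ℤ) ^ (T - (s + 1) + 1) ∣ Z o) ≤ σ
    · exact caseRU_small hη hcol hK hIH hb0 htT hnext hw hw' X Z a hX hZ hm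
    · push Not at hm
      set J : Ω' → Prop := fun o => (q : ℤ) ^ (T - (s + 1) + 1) ∣ Z o with hJ
      have h1 := cell_step hη hw hw' X Z
        (fun p => (vP T (insert q P) (X p.1), vP T (insert q P) (Z p.2))) (fun _ => ()) J
        (fun _ j => if j then K + b else K) (by
          intro _ j
          split_ifs <;> (clear * - hK hb0; linarith only [hK, hb0])) (by
          intro u j hu hj
          have hw1 := cw_isPr hw _ u hu
          have hw2 := cw_isPr hw' _ j hj
          by_cases hjj : j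
          · rw [if_pos hjj]
            have hj' : j = True := eq_true hjj
            refine caseRU_small hη hcol hK hIH hb0 htT hnext hw1 hw2 X Z a ?_ ?_ ?_
            · intro o ho
              exact hX o (cw_supp ho).2
            · intro o ho
              exact hZ o (cw_supp ho).2
            · have h2 : mass (cw w' J j) (fun o => ¬ (q : ℤ) ^ (T - (s + 1) + 1) ∣ Z o) = 0 := by
                unfold mass
                apply sum_eq_zero
                intro o _
                by_cases h3 : cw w' J j o = 0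
                · rw [h3, ite_self]
                · have h4 := (cw_supp h3).1
                  rw [hj'] at h4
                  rw [if_neg (not_not.2 (of_eq_true h4))]
              rw [h2]
              exact hσ.le
          · rw [if_neg hjj]
            refine caseRR hIH q hw1 hw2 X Z a (T - (s + 1)) ?_ ?_
            · intro o ho
              exact hX o (cw_supp ho).2
            · intro o ho
              have h4 := (cw_supp ho).1
              refine vt_eq htT (hZ o (cw_supp ho).2) ?_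
              intro h5
              apply hjj
              rw [← h4]
              exact h5)
      have h2 : CE (prodW w w') (fun p => ((), J p.2)) (fun p => X p.1 + Z p.2) ≤ Real.log 2 := by
        refine (CE_mono (hw.prod hw') (f := fun p => J p.2) ?_).trans
          ((CE_le_Ent (hw.prod hw') (fun p => J p.2) _).trans ?_)
        · intro o o' _ h
          simp only [h]
        · exact Ent_prop_le (hw.prod hw') (fun p => J p.2)
      have h3 : CE w X (fun _ => ()) ≤ Ent w X := CE_le_Ent hw _ _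
      have h4 : CE w' Z J ≤ Ent w' Z := CE_le_Ent hw' _ _
      have h5 : ∑ a ∈ univ.image (fun _ : Ω => ()), ∑ j ∈ univ.image J,
          pr w (fun _ => ()) a * pr w' J j * (if j then K + b else K) = K + mass w' J * b := by
        have sA := sum_pr_one hw (fun _ => ())
        have sB := sum_pr_one hw' J
        have h6 : ∑ j ∈ univ.image J, pr w' J j * (if j then K + b else K) =
            K + mass w' J * b := by
          rw [sum_bit hw' J (fun j => if j then K + b else K), if_pos trivial,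
            if_neg (fun h => h)]
          ring
        have h9 : ∀ a ∈ univ.image (fun _ : Ω => ()), ∑ j ∈ univ.image J,
            pr w (fun _ => ()) a * pr w' J j * (if j then K + b else K) =
            pr w (fun _ => ()) a * (K + mass w' J * b) := by
          intro a _
          rw [← h6, mul_sum]
          exact sum_congr rfl fun j _ => by ring
        rw [sum_congr rfl h9, ← sum_mul, sA, one_mul]
      have h6 := mass_not hw' J
      have h7 : mass w' J = 1 - mass w' (fun o => ¬ J o) := by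
        rw [h6]; ring
      have h8 : σ < mass w' (fun o => ¬ J o) := hm
      unfold Cl
      rw [h5, h7] at h1
      nlinarith only [hη, hb, hb0, h1, h2, h3, h4, h8]

/-- the same for known `v_q(Z)` -/
theorem caseUR (hη : 0 ≤ η) (hσ : 0 < σ) (hcol : ColProp η σ) (hK : 0 ≤ K) (hIH : IH η K T P)
    {b : ℝ} (hb : Real.log 2 ≤ σ * b) {s : ℕ} (hs : s ≤ T)
    {w : Ω → ℝ} {w' : Ω' → ℝ} (hw : IsPr w) (hw' : IsPr w') (X : Ω → ℤ) (Z : Ω' → ℤ) (a : ℕ)
    (hZ : ∀ o, w' o ≠ 0 → vt T q (Z o) = a) (hX : ∀ o, w o ≠ 0 → (q : ℤ) ^ (T - s) ∣ X o) :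
    Cl η (K + b) T (insert q P) w w' X Z :=
  (caseRU hη hσ hcol hK hIH hb s hs Ω' Ω w' w Z X a hw' hw hZ hX).swap

/-- `q ^ t` divides `X` and `Z`, and `q ^ (t + 1)` mostly divides `Z` -/
theorem caseUU_small (hη : 0 ≤ η) (hσ : 0 < σ) (hcol : ColProp η σ) (hK : 0 ≤ K)
    (hIH : IH η K T P) {b c : ℝ} (hb : Real.log 2 ≤ σ * b) (hbc : b ≤ c) (hb0 : 0 ≤ b) {s : ℕ}
    (hs : s + 1 ≤ T)
    (hnext : ∀ (Ω Ω' : Type) [Fintype Ω] [Fintype Ω'] (w : Ω → ℝ) (w' : Ω' → ℝ) (X : Ω → ℤ)
      (Z : Ω' → ℤ), IsPr w → IsPr w' → (∀ o, w o ≠ 0 → (q : ℤ) ^ (T - s) ∣ X o) →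
      (∀ o, w' o ≠ 0 → (q : ℤ) ^ (T - s) ∣ Z o) → Cl η (K + c) T (insert q P) w w' X Z)
    {w : Ω → ℝ} {w' : Ω' → ℝ} (hw : IsPr w) (hw' : IsPr w') (X : Ω → ℤ) (Z : Ω' → ℤ)
    (hX : ∀ o, w o ≠ 0 → (q : ℤ) ^ (T - (s + 1)) ∣ X o)
    (hZ : ∀ o, w' o ≠ 0 → (q : ℤ) ^ (T - (s + 1)) ∣ Z o)
    (hm : mass w' (fun o => ¬ (q : ℤ) ^ (T - s) ∣ Z o) ≤ σ) :
    Cl η (K + c) T (insert q P) w w' X Z := by
  unfold Cl
  have hts : T - (s + 1) + 1 = T - s := by omega
  have htT : T - (s + 1) < T := by omega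
  have hzero : ∀ x : ℤ, ((x : ℤ) : ZMod (q ^ (T - s))) = 0 ↔ (q : ℤ) ^ (T - s) ∣ x := by
    intro x
    rw [← Int.cast_zero, ZMod.intCast_eq_intCast_iff_dvd_sub, zero_sub, dvd_neg]
    push_cast
    rfl
  apply step_mod hη hcol hw hw' X Z (q ^ (T - s))
  · refine le_trans (mass_mono hw' ?_) hm
    intro o ho hd
    exact ho ((hzero _).2 hd)
  · (clear * - hK hbc hb0; linarith only [hK, hbc, hb0])
  · intro x z hx hz
    have hw1 := cw_isPr hw _ x hx
    have hw2 := cw_isPr hw' _ z hz
    have X0 : x = 0 → ∀ o, cw w (fun o => ((X o : ℤ) : ZMod (q ^ (T - s)))) x o ≠ 0 →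
        (q : ℤ) ^ (T - s) ∣ X o := by
      intro hx0 o ho
      have h1 := (cw_supp ho).1
      rw [hx0] at h1
      exact (hzero _).1 h1
    have Z0 : z = 0 → ∀ o, cw w' (fun o => ((Z o : ℤ) : ZMod (q ^ (T - s)))) z o ≠ 0 →
        (q : ℤ) ^ (T - s) ∣ Z o := by
      intro hx0 o ho
      have h1 := (cw_supp ho).1
      rw [hx0] at h1
      exact (hzero _).1 h1
    have X1 : x ≠ 0 → ∀ o, cw w (fun o => ((X o : ℤ) : ZMod (q ^ (T - s)))) x o ≠ 0 →
        vt T q (X o) = T - (s + 1) := by
      intro hx0 o ho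
      have h1 := (cw_supp ho).1
      refine vt_eq htT (hX o (cw_supp ho).2) ?_
      rw [hts]
      intro h2
      exact hx0 (by rw [← h1]; exact (hzero _).2 h2)
    have Z1 : z ≠ 0 → ∀ o, cw w' (fun o => ((Z o : ℤ) : ZMod (q ^ (T - s)))) z o ≠ 0 →
        vt T q (Z o) = T - (s + 1) := by
      intro hx0 o ho
      have h1 := (cw_supp ho).1
      refine vt_eq htT (hZ o (cw_supp ho).2) ?_
      rw [hts]
      intro h2
      exact hx0 (by rw [← h1]; exact (hzero _).2 h2)
    by_cases hx0 : x = 0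
    · by_cases hz0 : z = 0
      · exact hnext _ _ _ _ _ _ hw1 hw2 (X0 hx0) (Z0 hz0)
      · exact Cl.mono (caseUR hη hσ hcol hK hIH hb (by omega) hw1 hw2 X Z _ (Z1 hz0) (X0 hx0))
          (by (clear * - hbc; linarith only [hbc]))
    · by_cases hz0 : z = 0
      · exact Cl.mono (caseRU hη hσ hcol hK hIH hb s (by omega) _ _ _ _ X Z _ hw1 hw2 (X1 hx0)
          (Z0 hz0)) (by (clear * - hbc; linarith only [hbc]))
      · exact Cl.mono (caseRR hIH q hw1 hw2 X Z _ _ (X1 hx0) (Z1 hz0)) (by linarith only [hbc, hb0])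

/-- `q ^ t` divides `X` and `Z` -/
theorem caseUU (hη : 0 ≤ η) (hσ : 0 < σ) (hcol : ColProp η σ) (hK : 0 ≤ K) (hIH : IH η K T P)
    {b c : ℝ} (hb : Real.log 2 ≤ σ * b) (hc : 2 * Real.log 2 ≤ σ * (c - b)) : ∀ s : ℕ, s ≤ T →
    ∀ (Ω Ω' : Type) [Fintype Ω] [Fintype Ω'] (w : Ω → ℝ) (w' : Ω' → ℝ) (X : Ω → ℤ)
      (Z : Ω' → ℤ), IsPr w → IsPr w' → (∀ o, w o ≠ 0 → (q : ℤ) ^ (T - s) ∣ X o) →
      (∀ o, w' o ≠ 0 → (q : ℤ) ^ (T - s) ∣ Z o) → Cl η (K + c) T (insert q P) w w' X Z := by
  classical
  have hl2 : 0 < Real.log 2 := Real.log_pos (by norm_num)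
  have hb0 : 0 ≤ b := by
    by_contra hcon
    push Not at hcon
    (clear * - hb hl2 hσ hcon; nlinarith only [hσ, hb, hl2, hcon])
  have hbc : b ≤ c := by
    by_contra hcon
    push Not at hcon
    (clear * - hb hcon hc hb0 hl2; nlinarith only [hb, hc, hl2, hb0, hcon])
  intro s
  induction s with
  | zero =>
    intro _ Ω Ω' _ _ w w' X Z hw hw' hX hZ
    refine Cl.mono (caseRR hIH q hw hw' X Z T T ?_ ?_) (by (clear * - hb0 hbc; linarith only [hb0, hbc]))
    · intro o ho
      have := hX o ho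
      rw [Nat.sub_zero] at this
      exact vt_top this
    · intro o ho
      have := hZ o ho
      rw [Nat.sub_zero] at this
      exact vt_top this
  | succ s ih =>
    intro hs Ω Ω' _ _ w w' X Z hw hw' hX hZ
    have hts : T - (s + 1) + 1 = T - s := by omega
    have htT : T - (s + 1) < T := by omega
    have hnext := ih (by omega)
    by_cases hm : mass w' (fun o => ¬ (q : ℤ) ^ (T - s) ∣ Z o) ≤ σ
    · exact caseUU_small hη hσ hcol hK hIH hb hbc hb0 hs hnext hw hw' X Z hX hZ hm
    by_cases hm' : mass w (fun o => ¬ (q : ℤ) ^ (T - s) ∣ X o) ≤ σ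
    · exact (caseUU_small hη hσ hcol hK hIH hb hbc hb0 hs hnext hw' hw Z X hZ hX hm').swap
    push Not at hm hm'
    set I : Ω → Prop := fun o => (q : ℤ) ^ (T - s) ∣ X o with hI
    set J : Ω' → Prop := fun o => (q : ℤ) ^ (T - s) ∣ Z o with hJ
    have h1 := cell_step hη hw hw' X Z
      (fun p => (vP T (insert q P) (X p.1), vP T (insert q P) (Z p.2))) I J
      (fun i j => if i then (if j then K + c else K + b) else K + b) (by
        intro i j
        split_ifs <;> (clear * - hK hb0 hbc; linarith only [hK, hb0, hbc])) (by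
        intro i j hi hj
        have hw1 := cw_isPr hw _ i hi
        have hw2 := cw_isPr hw' _ j hj
        have X0 : i → ∀ o, cw w I i o ≠ 0 → (q : ℤ) ^ (T - s) ∣ X o := by
          intro hi o ho
          have h1 := (cw_supp ho).1
          have h2 : I o := by rw [h1]; exact hi
          exact h2
        have Z0 : j → ∀ o, cw w' J j o ≠ 0 → (q : ℤ) ^ (T - s) ∣ Z o := by
          intro hi o ho
          have h1 := (cw_supp ho).1
          have h2 : J o := by rw [h1]; exact hi
          exact h2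
        have X1 : ¬ i → ∀ o, cw w I i o ≠ 0 → vt T q (X o) = T - (s + 1) := by
          intro hi o ho
          have h1 := (cw_supp ho).1
          refine vt_eq htT (hX o (cw_supp ho).2) ?_
          rw [hts]
          intro h2
          apply hi
          rw [← h1]
          exact h2
        have Z1 : ¬ j → ∀ o, cw w' J j o ≠ 0 → vt T q (Z o) = T - (s + 1) := by
          intro hi o ho
          have h1 := (cw_supp ho).1
          refine vt_eq htT (hZ o (cw_supp ho).2) ?_
          rw [hts]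
          intro h2
          apply hi
          rw [← h1]
          exact h2
        by_cases hii : i
        · by_cases hjj : j
          · rw [if_pos hii, if_pos hjj]
            exact hnext _ _ _ _ X Z hw1 hw2 (X0 hii) (Z0 hjj)
          · rw [if_pos hii, if_neg hjj]
            exact caseUR hη hσ hcol hK hIH hb (s := s) (by omega) hw1 hw2 X Z _ (Z1 hjj) (X0 hii)
        · rw [if_neg hii]
          by_cases hjj : j
          · exact caseRU hη hσ hcol hK hIH hb s (by omega) _ _ _ _ X Z _ hw1 hw2 (X1 hii) (Z0 hjj)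
          · exact Cl.mono (caseRR hIH q hw1 hw2 X Z _ _ (X1 hii) (Z1 hjj)) (by linarith only [hb0]))
    have hp := hw.prod hw'
    have h2 : CE (prodW w w') (fun p => (I p.1, J p.2)) (fun p => X p.1 + Z p.2) ≤
        2 * Real.log 2 := by
      have e1 := CE_pair_le hp (fun p => I p.1) (fun p => J p.2) (fun p => X p.1 + Z p.2)
      have e2 := (CE_le_Ent hp (fun p => I p.1) (fun p => X p.1 + Z p.2)).trans
        (Ent_prop_le hp (fun p => I p.1))
      have e3 := (CE_le_Ent hp (fun p => J p.2) (fun p => X p.1 + Z p.2)).trans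
        (Ent_prop_le hp (fun p => J p.2))
      linarith only [e1, e2, e3]
    have h3 : CE w X I ≤ Ent w X := CE_le_Ent hw _ _
    have h4 : CE w' Z J ≤ Ent w' Z := CE_le_Ent hw' _ _
    have h5 : ∑ i ∈ univ.image I, ∑ j ∈ univ.image J,
        pr w I i * pr w' J j * (if i then (if j then K + c else K + b) else K + b) =
        mass w I * (mass w' J * (K + c) + (1 - mass w' J) * (K + b)) +
          (1 - mass w I) * (K + b) := by
      have h6 : ∀ i ∈ univ.image I, ∑ j ∈ univ.image J,
          pr w I i * pr w' J j * (if i then (if j then K + c else K + b) else K + b) =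
          pr w I i * (mass w' J * (if i then K + c else K + b) + (1 - mass w' J) * (K + b)) := by
        intro i _
        have h7 := sum_bit hw' J (fun j => if i then (if j then K + c else K + b) else K + b)
        have h8 : ∑ j ∈ univ.image J,
            pr w I i * pr w' J j * (if i then (if j then K + c else K + b) else K + b) =
            pr w I i * ∑ j ∈ univ.image J,
            pr w' J j * (if i then (if j then K + c else K + b) else K + b) := by
          rw [mul_sum]
          exact sum_congr rfl fun j _ => by ring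
        rw [h8, h7, if_pos trivial, if_neg (fun h => h)]
        congr 2
        split_ifs <;> ring
      rw [sum_congr rfl h6, sum_bit hw I (fun i => mass w' J * (if i then K + c else K + b) +
        (1 - mass w' J) * (K + b)), if_pos trivial, if_neg (fun h => h)]
      ring
    have h6 := mass_not hw I
    have h7 := mass_not hw' J
    have h8 : σ < mass w (fun o => ¬ I o) := hm'
    have h9 : σ < mass w' (fun o => ¬ J o) := hm
    have h10 := mass_nonneg hw I
    have h11 := mass_nonneg hw' J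
    have h12 := mass_le_one hw I
    have h13 := mass_le_one hw' J
    unfold Cl
    rw [h5] at h1
    set mI := mass w I with hmI
    set mJ := mass w' J with hmJ
    have h14 : mI * mJ ≤ 1 - σ := by (clear * - h8 h6 h10 h13; nlinarith only [h8, h6, h10, h13])
    have h15 : mI * mJ * (c - b) ≤ (1 - σ) * (c - b) :=
      mul_le_mul_of_nonneg_right h14 (by linarith only [hbc])
    nlinarith only [hη, hc, h2, h3, h4, h1, h15]

end q

/-- **M2, Phase 1** -/
theorem phaseOne : PhaseOne := by
  classical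
  intro η hη
  obtain ⟨σ, hσ, -, hcol⟩ := group_column η hη
  have hl2 : 0 < Real.log 2 := Real.log_pos (by norm_num)
  have hcol' : ColProp η σ := hcol
  refine ⟨3 * Real.log 2 / σ, by (clear * - hσ; positivity), ?_⟩
  intro Ω Ω' _ _ w w' X Z T P hw hw'
  have main : ∀ P : Finset ℕ, IH η (3 * Real.log 2 / σ * P.card) T P := by
    intro P
    induction P using Finset.induction_on with
    | empty =>
      intro Ω Ω' _ _ w w' X Z hw hw'
      unfold Cl
      have h1 : CE (prodW w w') (fun p => (vP T ∅ (X p.1), vP T ∅ (Z p.2)))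
          (fun p => X p.1 + Z p.2) = 0 := by
        apply CE_zero_of_supp
        intro o o' _ _ _
        have e : ∀ x : ℤ, vP T ∅ x = fun _ => 0 := by
          intro x
          funext q
          simp [vP]
        simp only [e]
      rw [h1]
      have h2 := Ent_nonneg hw X
      have h3 := Ent_nonneg hw' Z
      simp only [card_empty, Nat.cast_zero, mul_zero, add_zero]
      (clear * - hη h2 h3; positivity)
    | insert q P hq ih =>
      intro Ω Ω' _ _ w w' X Z hw hw'
      rw [card_insert_of_notMem hq]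
      push_cast
      have h1 := caseUU (q := q) hη.le hσ hcol' (by (clear * - hσ; positivity)) ih (b := Real.log 2 / σ)
        (c := 3 * Real.log 2 / σ) (by field_simp; exact le_rfl) (by
          apply le_of_eq
          field_simp
          ring) T le_rfl Ω Ω' w w' X Z hw hw' (by
          intro o _
          rw [Nat.sub_self, pow_zero]
          exact one_dvd _) (by
          intro o _
          rw [Nat.sub_self, pow_zero]
          exact one_dvd _)
      refine h1.mono (le_of_eq ?_)
      ring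
  have h := main P Ω Ω' w w' X Z hw hw'
  exact h

end Pool.Agent.Helper78.PP
end

/- Helper24.DI.H88.PP.All -/
section
set_option autoImplicit false

/-!
MP_120218_co, project PP: the sums-alone theorem for labels, unconditional.
-/

namespace Pool.Agent.Helper88.PP

/-- **sums alone**: many elements in large classes force `|A + D| ≥ c (|A||D|)^(1-ε)` for every `D` -/
theorem sumAbs_all : SumAbs :=
  sumAbs Pool.Agent.Helper78.PP.phaseOne Pool.Agent.Helper68.PP.select
    Pool.Agent.Helper68.PP.treeCount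

end Pool.Agent.Helper88.PP
end
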