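import Mathlib
import Pool.Agent.Helper24.DG.G01
import Pool.Agent.Helper24.DG.G02

/- Helper24.DI.H15.GPP.Down -/
section
set_option autoImplicit false

/-!
# Project GL++ (MP_120218), Down: sums of down-sets of vectors of natural numbers
-/

namespace Pool.Agent.Helper15.GPP

open Finset

/-- two to the number of non-zero coordinates -/
def wt {r : ℕ} (a : Fin r → ℕ) : ℕ := ∏ j, (if a j = 0 then 1 else 2)

theorem wt_eq {r : ℕ} (a : Fin r → ℕ) :
    wt a = 2 ^ (Finset.univ.filter (fun j => a j ≠ 0)).card := by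
  unfold wt
  rw [← Finset.prod_const, Finset.prod_filter]
  refine Finset.prod_congr rfl fun j _ => ?_
  by_cases h : a j = 0 <;> simp [h]

/-- the vectors with first coordinate `i`, without this coordinate -/
def fibN {r : ℕ} (D : Finset (Fin (r + 1) → ℕ)) (i : ℕ) : Finset (Fin r → ℕ) :=
  (D.filter (fun f => f 0 = i)).image (fun f => (Fin.tail f : Fin r → ℕ))

theorem mem_fibN {r : ℕ} {D : Finset (Fin (r + 1) → ℕ)} {i : ℕ} {f : Fin r → ℕ} :
    f ∈ fibN D i ↔ (Fin.cons i f : Fin (r + 1) → ℕ) ∈ D := by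
  unfold fibN
  rw [Finset.mem_image]
  constructor
  · rintro ⟨g, hg, rfl⟩
    rw [Finset.mem_filter] at hg
    obtain ⟨hg, rfl⟩ := hg
    rw [Fin.cons_self_tail]
    exact hg
  · intro h
    refine ⟨Fin.cons i f, Finset.mem_filter.2 ⟨h, Fin.cons_zero _ _⟩, ?_⟩
    exact Fin.tail_cons _ _

theorem tail_injOn {r : ℕ} (D : Finset (Fin (r + 1) → ℕ)) (i : ℕ) :
    Set.InjOn (fun f : Fin (r + 1) → ℕ => (Fin.tail f : Fin r → ℕ))
      ((D.filter (fun f => f 0 = i) : Finset (Fin (r + 1) → ℕ)) : Set (Fin (r + 1) → ℕ)) := by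
  intro f hf g hg hfg
  have hf' := (Finset.mem_filter.1 (Finset.mem_coe.1 hf)).2
  have hg' := (Finset.mem_filter.1 (Finset.mem_coe.1 hg)).2
  have hfg' : (Fin.tail f : Fin r → ℕ) = Fin.tail g := hfg
  rw [← Fin.cons_self_tail f, ← Fin.cons_self_tail g, hfg']
  rw [hf', hg']

theorem card_fibN {r : ℕ} (D : Finset (Fin (r + 1) → ℕ)) (i : ℕ) :
    (fibN D i).card = (D.filter (fun f => f 0 = i)).card :=
  Finset.card_image_of_injOn (tail_injOn D i)

theorem sum_even_odd (f : ℕ → ℕ) (M : ℕ) :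
    ∑ u ∈ Finset.range (2 * M), f u = ∑ i ∈ Finset.range M, (f (2 * i) + f (2 * i + 1)) := by
  induction M with
  | zero => simp
  | succ M ih =>
    rw [Finset.sum_range_succ, ← ih, show 2 * (M + 1) = 2 * M + 1 + 1 by ring,
      Finset.sum_range_succ, Finset.sum_range_succ]
    ring

/-- `∑ 2 ^ |supp a| ≤ |D + D|` -/
theorem sum_wt_le : ∀ (r : ℕ) (D : Finset (Fin r → ℕ)),
    (∀ a ∈ D, ∀ b : Fin r → ℕ, (∀ j, b j ≤ a j) → b ∈ D) →
    ∑ a ∈ D, wt a ≤ (Finset.image₂ (fun a b => a + b) D D).card := by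
  classical
  intro r
  induction r with
  | zero =>
    intro D _
    have h1 : ∑ a ∈ D, wt a = D.card := by
      rw [Finset.card_eq_sum_ones]
      refine Finset.sum_congr rfl fun a _ => ?_
      unfold wt
      simp
    rw [h1]
    rcases D.eq_empty_or_nonempty with rfl | ⟨a, ha⟩
    · simp
    · exact Finset.card_le_card fun b hb => by
        have : b = a + a := Subsingleton.elim _ _
        rw [this]
        exact Finset.mem_image₂_of_mem ha ha
  | succ r ih =>
    intro D hdown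
    obtain ⟨M, hM⟩ : ∃ M : ℕ, ∀ a ∈ D, a 0 < M := by
      refine ⟨D.sup (fun a => a 0) + 1, fun a ha => ?_⟩
      have := Finset.le_sup (f := fun a : Fin (r + 1) → ℕ => a 0) ha
      exact Nat.lt_succ_of_le this
    obtain ⟨E, hE⟩ : ∃ E : Finset (Fin (r + 1) → ℕ), E = Finset.image₂ (fun a b => a + b) D D :=
      ⟨_, rfl⟩
    rw [← hE]
    obtain ⟨T, hT⟩ : ∃ T : ℕ → ℕ, T = fun i =>
      (Finset.image₂ (fun a b => a + b) (fibN D i) (fibN D i)).card := ⟨_, rfl⟩
    have hdi : ∀ i, ∀ a ∈ fibN D i, ∀ b : Fin r → ℕ, (∀ j, b j ≤ a j) → b ∈ fibN D i := by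
      intro i a ha b hb
      rw [mem_fibN] at ha ⊢
      refine hdown _ ha _ fun j => ?_
      induction j using Fin.cases with
      | zero => simp
      | succ j => simpa using hb j
    have hle : ∀ i, fibN D (i + 1) ⊆ fibN D i := by
      intro i a ha
      rw [mem_fibN] at ha ⊢
      refine hdown _ ha _ fun j => ?_
      induction j using Fin.cases with
      | zero => simp
      | succ j => simp
    -- the left side
    have hL : ∑ a ∈ D, wt a ≤ ∑ i ∈ Finset.range M, (if i = 0 then 1 else 2) * T i := by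
      rw [← Finset.sum_fiberwise_of_maps_to (s := D) (t := Finset.range M) (g := fun a => a 0)
        (fun a ha => Finset.mem_range.2 (hM a ha))]
      refine Finset.sum_le_sum fun i _ => ?_
      have h1 : ∑ a ∈ D.filter (fun a => a 0 = i), wt a =
          ∑ b ∈ fibN D i, (if i = 0 then 1 else 2) * wt b := by
        unfold fibN
        rw [Finset.sum_image (tail_injOn D i)]
        refine Finset.sum_congr rfl fun a ha => ?_
        have ha0 := (Finset.mem_filter.1 ha).2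
        unfold wt
        rw [Fin.prod_univ_succ, ha0]
        rfl
      rw [h1, ← Finset.mul_sum, hT]
      exact Nat.mul_le_mul_left _ (ih _ (hdi i))
    -- the right side
    have hR : ∑ i ∈ Finset.range M, (T i + T (i + 1)) ≤ E.card := by
      have h1 : E.card = ∑ u ∈ Finset.range (2 * M), (fibN E u).card := by
        rw [Finset.card_eq_sum_card_fiberwise (s := E) (t := Finset.range (2 * M))
          (f := fun a => a 0)]
        · exact Finset.sum_congr rfl fun u _ => (card_fibN E u).symm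
        · intro a ha
          rw [hE] at ha
          obtain ⟨x, hx, y, hy, rfl⟩ := Finset.mem_image₂.1 (Finset.mem_coe.1 ha)
          have hx' := hM x hx
          have hy' := hM y hy
          refine Finset.mem_coe.2 (Finset.mem_range.2 ?_)
          show x 0 + y 0 < 2 * M
          omega
      rw [h1, sum_even_odd]
      refine Finset.sum_le_sum fun i _ => Nat.add_le_add ?_ ?_
      · rw [hT]
        refine Finset.card_le_card fun z hz => ?_
        obtain ⟨x, hx, y, hy, rfl⟩ := Finset.mem_image₂.1 hz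
        rw [mem_fibN] at hx hy ⊢
        have hxy : (Fin.cons (2 * i) (x + y) : Fin (r + 1) → ℕ) = Fin.cons i x + Fin.cons i y := by
          funext j
          induction j using Fin.cases with
          | zero => simp [two_mul]
          | succ j => simp
        rw [hxy, hE]
        exact Finset.mem_image₂_of_mem hx hy
      · rw [hT]
        refine Finset.card_le_card fun z hz => ?_
        obtain ⟨x, hx, y, hy, rfl⟩ := Finset.mem_image₂.1 hz
        have hy' := hle i hy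
        rw [mem_fibN] at hx hy' ⊢
        have hxy : (Fin.cons (2 * i + 1) (x + y) : Fin (r + 1) → ℕ) =
            Fin.cons (i + 1) x + Fin.cons i y := by
          funext j
          induction j using Fin.cases with
          | zero =>
            simp only [Fin.cons_zero, Pi.add_apply]
            ring
          | succ j => simp
        rw [hxy, hE]
        exact Finset.mem_image₂_of_mem hx hy'
    refine hL.trans (le_trans ?_ hR)
    rw [Finset.sum_add_distrib]
    have h3 : ∑ i ∈ Finset.range M, (if i = 0 then 1 else 2) * T i + T 0 ≤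
        (∑ i ∈ Finset.range M, T i + ∑ i ∈ Finset.range M, T (i + 1)) + T 0 := by
      have h4 := Finset.sum_range_succ' T M
      rw [add_assoc, ← h4]
      rcases Nat.eq_zero_or_pos M with rfl | hMp
      · simp
      · have h5 : ∑ i ∈ Finset.range M, (if i = 0 then 1 else 2) * T i + T 0 =
            ∑ i ∈ Finset.range M, 2 * T i := by
          have h6 : ∀ i ∈ Finset.range M, 2 * T i =
              (if i = 0 then 1 else 2) * T i + (if i = 0 then T 0 else 0) := by
            intro i _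
            by_cases h : i = 0
            · subst h
              simp only [if_true]
              ring
            · simp only [if_neg h, add_zero]
          rw [Finset.sum_congr rfl h6, Finset.sum_add_distrib,
            Finset.sum_ite_eq' (Finset.range M) 0 (fun _ => T 0),
            if_pos (Finset.mem_range.2 hMp)]
        rw [h5, Finset.sum_range_succ, ← Finset.mul_sum]
        omega
    omega

/-- the number of vectors below `a` -/
def bx {r : ℕ} (a : Fin r → ℕ) : ℕ := ∏ j, (a j + 1)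

/-- **A down-set with small doubling contains a large box of small dimension.** -/
theorem down_shape {r : ℕ} (D : Finset (Fin r → ℕ)) (hD : D.Nonempty)
    (hdown : ∀ a ∈ D, ∀ b : Fin r → ℕ, (∀ j, b j ≤ a j) → b ∈ D) (K : ℝ)
    (hK : ((Finset.image₂ (fun a b => a + b) D D).card : ℝ) ≤ K * D.card) :
    ∃ a ∈ D, (2 : ℝ) ^ (Finset.univ.filter (fun j => a j ≠ 0)).card ≤ 2 * K ∧
      (D.card : ℝ) ≤ 4 * K * ((bx a : ℕ) : ℝ) ^ 2 := by
  classical
  have hDc : (0 : ℝ) < D.card := by exact_mod_cast hD.card_pos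
  have hEc : (0 : ℝ) < (Finset.image₂ (fun a b => a + b) D D).card := by
    exact_mod_cast (hD.image₂ hD).card_pos
  have hK0 : 0 < K := by
    by_contra h
    have : K * D.card ≤ 0 := mul_nonpos_of_nonpos_of_nonneg (not_lt.1 h) hDc.le
    (clear * - hK hEc this; linarith only [hK, hEc, this])
  have hsum : (∑ a ∈ D, (wt a : ℝ)) ≤ K * D.card := by
    refine le_trans ?_ hK
    exact_mod_cast sum_wt_le r D hdown
  obtain ⟨D1, hD1⟩ : ∃ D1 : Finset (Fin r → ℕ), D1 = D.filter (fun a => (wt a : ℝ) ≤ 2 * K) :=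
    ⟨_, rfl⟩
  have hD1D : D1 ⊆ D := by rw [hD1]; exact Finset.filter_subset _ _
  have hhalf : (D.card : ℝ) ≤ 2 * D1.card := by
    have h1 : (2 * K) * ((D \ D1).card : ℝ) ≤ ∑ a ∈ D \ D1, (wt a : ℝ) := by
      rw [mul_comm, ← nsmul_eq_mul, ← Finset.sum_const]
      refine Finset.sum_le_sum fun a ha => ?_
      rw [Finset.mem_sdiff, hD1, Finset.mem_filter] at ha
      by_contra h
      exact ha.2 ⟨ha.1, (not_le.1 h).le⟩
    have h2 : ∑ a ∈ D \ D1, (wt a : ℝ) ≤ ∑ a ∈ D, (wt a : ℝ) :=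
      Finset.sum_le_sum_of_subset_of_nonneg Finset.sdiff_subset fun _ _ _ => Nat.cast_nonneg _
    have h3 : ((D \ D1).card : ℝ) = D.card - D1.card := by
      rw [Finset.card_sdiff_of_subset hD1D, Nat.cast_sub (Finset.card_le_card hD1D)]
    rw [h3] at h1
    have h4 : K * (2 * (D.card - D1.card : ℝ)) ≤ K * D.card := by
      calc K * (2 * (D.card - D1.card : ℝ)) = 2 * K * (D.card - D1.card) := by ring
        _ ≤ _ := h1.trans (h2.trans hsum)
    have h5 := le_of_mul_le_mul_left h4 hK0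
    linarith only [h5]
  have hD1ne : D1.Nonempty := by
    rw [← Finset.card_pos]
    have : (0 : ℝ) < D1.card := by linarith
    exact_mod_cast this
  obtain ⟨a, ha, hmax⟩ := Finset.exists_max_image D1 bx hD1ne
  refine ⟨a, hD1D ha, ?_, ?_⟩
  · have h1 := ha
    rw [hD1, Finset.mem_filter] at h1
    have h2 := h1.2
    rw [wt_eq] at h2
    exact_mod_cast h2
  · have hcount : (D1 ×ˢ D1).card ≤ (bx a * bx a) *
        ((D1 ×ˢ D1).image (fun x : (Fin r → ℕ) × (Fin r → ℕ) => x.1 + x.2)).card := by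
      refine Finset.card_le_mul_card_image _ _ fun f hf => ?_
      obtain ⟨⟨a0, b0⟩, h0, rfl⟩ := Finset.mem_image.1 hf
      rw [Finset.mem_product] at h0
      have h1 : ((D1 ×ˢ D1).filter (fun x : (Fin r → ℕ) × (Fin r → ℕ) =>
          x.1 + x.2 = a0 + b0)).card ≤ bx (a0 + b0) := by
        have h2 : bx (a0 + b0) =
            (Fintype.piFinset (fun j => Finset.range ((a0 + b0) j + 1))).card := by
          rw [Fintype.card_piFinset]
          unfold bx
          exact Finset.prod_congr rfl fun j _ => (Finset.card_range _).symm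
        rw [h2]
        refine Finset.card_le_card_of_injOn (fun x => x.1) ?_ ?_
        · intro x hx
          have hx' := (Finset.mem_filter.1 (Finset.mem_coe.1 hx)).2
          refine Finset.mem_coe.2 (Fintype.mem_piFinset.2 fun j => ?_)
          rw [Finset.mem_range, ← hx']
          show x.1 j < x.1 j + x.2 j + 1
          omega
        · intro x hx y hy hxy
          have hx' := (Finset.mem_filter.1 (Finset.mem_coe.1 hx)).2
          have hy' := (Finset.mem_filter.1 (Finset.mem_coe.1 hy)).2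
          have hxy' : x.1 = y.1 := hxy
          refine Prod.ext hxy' ?_
          rw [← hy', hxy'] at hx'
          exact add_left_cancel hx'
      refine h1.trans ?_
      have h3 : bx (a0 + b0) ≤ bx a0 * bx b0 := by
        unfold bx
        rw [← Finset.prod_mul_distrib]
        refine Finset.prod_le_prod' fun j _ => ?_
        show a0 j + b0 j + 1 ≤ (a0 j + 1) * (b0 j + 1)
        nlinarith only []
      exact h3.trans (Nat.mul_le_mul (hmax _ h0.1) (hmax _ h0.2))
    have h1 : ((D1 ×ˢ D1).image (fun x : (Fin r → ℕ) × (Fin r → ℕ) => x.1 + x.2)).card ≤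
        (Finset.image₂ (fun a b => a + b) D D).card := by
      refine Finset.card_le_card fun z hz => ?_
      obtain ⟨⟨x, y⟩, hxy, rfl⟩ := Finset.mem_image.1 hz
      rw [Finset.mem_product] at hxy
      exact Finset.mem_image₂_of_mem (hD1D hxy.1) (hD1D hxy.2)
    have h2 : (D1.card : ℝ) * D1.card ≤ (bx a : ℝ) * bx a * (K * D.card) := by
      have h3 := hcount.trans (Nat.mul_le_mul_left _ h1)
      rw [Finset.card_product] at h3
      have h4 : ((D1.card * D1.card : ℕ) : ℝ) ≤ ((bx a * bx a *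
        (Finset.image₂ (fun a b => a + b) D D).card : ℕ) : ℝ) := by exact_mod_cast h3
      push_cast at h4
      refine h4.trans (mul_le_mul_of_nonneg_left hK (by (clear * -; positivity)))
    have h3 : (D.card : ℝ) * D.card ≤ (4 * K * ((bx a : ℕ) : ℝ) ^ 2) * D.card := by
      have h4 : (D.card : ℝ) * D.card ≤ (2 * D1.card) * (2 * D1.card) :=
        mul_le_mul hhalf hhalf hDc.le (by (clear * - hD1 hD1D hhalf hD1ne ha hmax hcount h1 h2; positivity))
      calc (D.card : ℝ) * D.card ≤ (2 * D1.card) * (2 * D1.card) := h4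
        _ = 4 * (D1.card * D1.card) := by ring
        _ ≤ 4 * ((bx a : ℝ) * bx a * (K * D.card)) := by linarith only [h2]
        _ = _ := by ring
    exact le_of_mul_le_mul_right h3 hDc

end Pool.Agent.Helper15.GPP
end

/- Helper24.DI.H15.GPP.Tree -/
section
set_option autoImplicit false

/-!
# Project GL++ (MP_120218), Tree: a set of rationals with small doubling contains a large subset
whose elements are determined by few valuations
-/

namespace Pool.Agent.Helper15.GPP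

open Finset Pool.Agent.Helper15.GLP Pool.Agent.Helper15.GL

theorem exists_tree {R : ℕ} (S : Finset (Fin R → ℤ)) (hS : S.Nonempty) (K : ℝ)
    (hK : ((Finset.image₂ (fun a b => a + b) S S).card : ℝ) ≤ K * S.card) :
    ∃ a : Fin R → ℕ, Tr S a ∧ (2 : ℝ) ^ (Finset.univ.filter (fun j => a j ≠ 0)).card ≤ 2 * K ∧
      (S.card : ℝ) ≤ 4 * K * ((bx a : ℕ) : ℝ) ^ 2 := by
  classical
  have hc := card_osh R S
  have hne : (osh R S).Nonempty := by
    rw [← Finset.card_pos, hc]
    exact hS.card_pos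
  have h1 : ((Finset.image₂ (fun a b => a + b) (osh R S) (osh R S)).card : ℝ) ≤
      K * (osh R S).card := by
    rw [hc]
    refine le_trans ?_ hK
    rw [← card_osh R (Finset.image₂ (fun a b => a + b) S S)]
    have h2 : (Finset.image₂ (fun a b => a + b) (osh R S) (osh R S)) ⊆
        osh R (Finset.image₂ (fun a b => a + b) S S) := by
      intro z hz
      obtain ⟨a, ha, b, hb, rfl⟩ := Finset.mem_image₂.1 hz
      exact osh_add R S S a ha b hb
    exact_mod_cast Finset.card_le_card h2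
  obtain ⟨a, ha, h2, h3⟩ := down_shape (osh R S) hne (osh_down R S) K h1
  rw [hc] at h3
  exact ⟨a, osh_tr R S a ha, h2, h3⟩

theorem bx_pos {r : ℕ} (a : Fin r → ℕ) : 0 < bx a := by
  unfold bx
  exact Finset.prod_pos fun j _ => Nat.succ_pos _

/-- a box can be made smaller -/
theorem exists_sub_box {r : ℕ} (T : ℕ) (hT : 1 ≤ T) : ∀ (M : ℕ) (a : Fin r → ℕ), ∑ j, a j = M →
    T ≤ bx a → ∃ b : Fin r → ℕ, (∀ j, b j ≤ a j) ∧ bx b ≤ T ∧ T < 2 * bx b := by
  intro M
  induction M with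
  | zero =>
    intro a ha hTa
    have h0 : ∀ j, a j = 0 := fun j => (Finset.sum_eq_zero_iff.1 ha) j (Finset.mem_univ j)
    have h1 : bx a = 1 := by
      unfold bx
      exact Finset.prod_eq_one fun j _ => by rw [h0 j, zero_add]
    exact ⟨a, fun _ => le_rfl, by omega, by omega⟩
  | succ M ih =>
    intro a ha hTa
    by_cases hle : bx a ≤ T
    · exact ⟨a, fun _ => le_rfl, hle, by omega⟩
    have hpos : ∃ j, 0 < a j := by
      by_contra h
      push Not at h
      have : ∑ j, a j = 0 := Finset.sum_eq_zero fun j _ => Nat.le_zero.1 (h j)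
      omega
    obtain ⟨j, hj⟩ := hpos
    obtain ⟨a', ha'⟩ : ∃ a' : Fin r → ℕ, a' = Function.update a j (a j - 1) := ⟨_, rfl⟩
    have hle' : ∀ i, a' i ≤ a i := by
      intro i
      rw [ha']
      rcases eq_or_ne i j with rfl | hij
      · rw [Function.update_self]
        omega
      · rw [Function.update_of_ne hij]
    have hsum : ∑ i, a' i = M := by
      have h1 := Finset.add_sum_erase Finset.univ a (Finset.mem_univ j)
      have h2 := Finset.add_sum_erase Finset.univ a' (Finset.mem_univ j)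
      have h3 : ∑ x ∈ Finset.univ.erase j, a' x = ∑ x ∈ Finset.univ.erase j, a x := by
        refine Finset.sum_congr rfl fun x hx => ?_
        rw [ha', Function.update_of_ne (Finset.ne_of_mem_erase hx)]
      have h4 : a' j = a j - 1 := by rw [ha', Function.update_self]
      rw [h3, h4] at h2
      omega
    have hbx : bx a ≤ 2 * bx a' := by
      unfold bx
      rw [← Finset.mul_prod_erase Finset.univ _ (Finset.mem_univ j),
        ← Finset.mul_prod_erase Finset.univ (fun i => a' i + 1) (Finset.mem_univ j)]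
      have h3 : ∏ x ∈ Finset.univ.erase j, (a' x + 1) = ∏ x ∈ Finset.univ.erase j, (a x + 1) := by
        refine Finset.prod_congr rfl fun x hx => ?_
        rw [ha', Function.update_of_ne (Finset.ne_of_mem_erase hx)]
      have h4 : a' j = a j - 1 := by rw [ha', Function.update_self]
      rw [h3, h4, ← mul_assoc]
      exact Nat.mul_le_mul_right _ (by omega)
    by_cases hT' : T ≤ bx a'
    · obtain ⟨b, hb, h1, h2⟩ := ih a' hsum hT'
      exact ⟨b, fun i => (hb i).trans (hle' i), h1, h2⟩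
    · exact ⟨a', hle', by omega, by omega⟩

/-- the leaves of a tree of shape `b`: they are determined by the coordinates in the support -/
theorem leaves {R : ℕ} (S : Finset (Fin R → ℤ)) (b : Fin R → ℕ) (h : Tr S b) :
    ∃ L : Finset (Fin R → ℤ), L ⊆ S ∧ L.card = bx b ∧
      ∀ x ∈ L, ∀ y ∈ L, (∀ j, b j ≠ 0 → x j = y j) → x = y := by
  classical
  obtain ⟨s, hs, hs2⟩ := h
  obtain ⟨B, hB⟩ : ∃ B : Finset (Fin R → ℕ), B = Fintype.piFinset (fun j => Finset.range (b j + 1)) :=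
    ⟨_, rfl⟩
  have memB : ∀ t, t ∈ B ↔ ∀ j, t j ≤ b j := by
    intro t
    rw [hB, Fintype.mem_piFinset]
    exact forall_congr' fun j => by rw [Finset.mem_range, Nat.lt_succ_iff]
  have hdet : ∀ t ∈ B, ∀ t' ∈ B, (∀ j, b j ≠ 0 → s t j = s t' j) → t = t' := by
    intro t ht t' ht' hst
    have key : ∀ n : ℕ, ∀ j : Fin R, (j : ℕ) < n → t j = t' j := by
      intro n
      induction n with
      | zero => intro j hj; omega
      | succ n ih =>
        intro j hj
        rcases Nat.lt_succ_iff_lt_or_eq.1 hj with hlt | heq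
        · exact ih j hlt
        · by_cases hb : b j = 0
          · have h1 := (memB t).1 ht j
            have h2 := (memB t').1 ht' j
            omega
          · refine (hs2 t t' ((memB t).1 ht) ((memB t').1 ht') j fun i hi => ih i ?_).1 (hst j hb)
            have : (i : ℕ) < j := hi
            omega
    funext j
    exact key R j j.2
  refine ⟨B.image s, ?_, ?_, ?_⟩
  · intro x hx
    obtain ⟨t, ht, rfl⟩ := Finset.mem_image.1 hx
    exact hs t ((memB t).1 ht)
  · rw [Finset.card_image_of_injOn]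
    · rw [hB, Fintype.card_piFinset]
      unfold bx
      exact Finset.prod_congr rfl fun j _ => Finset.card_range _
    · intro t ht t' ht' hst
      exact hdet t (Finset.mem_coe.1 ht) t' (Finset.mem_coe.1 ht') fun j _ => by rw [hst]
  · intro x hx y hy hxy
    obtain ⟨t, ht, rfl⟩ := Finset.mem_image.1 hx
    obtain ⟨t', ht', rfl⟩ := Finset.mem_image.1 hy
    rw [hdet t ht t' ht' hxy]

theorem padicValRat_eq_zero (p : ℕ) (hp : p.Prime) (x : ℚ) (hx : x ≠ 0)
    (h1 : p ∉ x.num.natAbs.primeFactors) (h2 : p ∉ x.den.primeFactors) : padicValRat p x = 0 := by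
  have hn : x.num.natAbs ≠ 0 := Int.natAbs_ne_zero.2 (Rat.num_ne_zero.2 hx)
  have h3 : ¬ p ∣ x.num.natAbs := fun h => h1 (Nat.mem_primeFactors.2 ⟨hp, h, hn⟩)
  have h4 : ¬ p ∣ x.den := fun h => h2 (Nat.mem_primeFactors.2 ⟨hp, h, x.den_ne_zero⟩)
  rw [padicValRat_def]
  unfold padicValInt
  rw [padicValNat.eq_zero_of_not_dvd h3, padicValNat.eq_zero_of_not_dvd h4]
  simp

/-- **A set of positive rationals with small doubling** contains a subset of a prescribed size whose
elements are determined by few valuations. -/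
theorem sub_tree (H : Finset ℚ) (hH : H.Nonempty) (hpos : ∀ h ∈ H, 0 < h) (K : ℝ)
    (hK : ((Finset.image₂ (fun a b => a * b) H H).card : ℝ) ≤ K * H.card) (T : ℕ) (hT1 : 1 ≤ T)
    (hT : 4 * K * (T : ℝ) ^ 2 ≤ H.card) :
    ∃ (r : ℕ) (pr : Fin r → ℕ) (P : Finset ℚ), P ⊆ H ∧ (∀ i, (pr i).Prime) ∧
      (2 : ℝ) ^ r ≤ 2 * K ∧ P.card ≤ T ∧ T < 2 * P.card ∧
      ∀ s ∈ P, ∀ t ∈ P, (∀ i, padicValRat (pr i) s = padicValRat (pr i) t) → s = t := by
  classical
  obtain ⟨Q, hQ⟩ : ∃ Q : Finset ℕ, Q = H.biUnion (fun h =>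
    h.num.natAbs.primeFactors ∪ h.den.primeFactors) := ⟨_, rfl⟩
  obtain ⟨R, hR⟩ : ∃ R : ℕ, Q.card = R := ⟨_, rfl⟩
  obtain ⟨q, hq⟩ : ∃ q : Fin R → ℕ, q = fun j => Q.orderEmbOfFin hR j := ⟨_, rfl⟩
  have hqQ : ∀ j, q j ∈ Q := by
    intro j
    rw [hq]
    exact Finset.orderEmbOfFin_mem Q hR j
  have hqp : ∀ j, (q j).Prime := by
    intro j
    have h1 := hqQ j
    rw [hQ, Finset.mem_biUnion] at h1
    obtain ⟨h, _, h2⟩ := h1
    rcases Finset.mem_union.1 h2 with h3 | h3
    · exact (Nat.mem_primeFactors.1 h3).1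
    · exact (Nat.mem_primeFactors.1 h3).1
  have hqs : ∀ p ∈ Q, ∃ j, q j = p := by
    intro p hp
    have h1 : p ∈ Set.range (Q.orderEmbOfFin hR) := by
      rw [Finset.range_orderEmbOfFin]
      exact hp
    obtain ⟨j, hj⟩ := h1
    exact ⟨j, by rw [hq]; exact hj⟩
  obtain ⟨v, hv⟩ : ∃ v : ℚ → (Fin R → ℤ), v = fun x j => padicValRat (q j) x := ⟨_, rfl⟩
  have hvinj : Set.InjOn v H := by
    intro x hx y hy hxy
    have hx' := hpos x (Finset.mem_coe.1 hx)
    have hy' := hpos y (Finset.mem_coe.1 hy)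
    have h1 : x / y = 1 := by
      refine eq_one_of_val _ (div_pos hx' hy') fun p hp => ?_
      have := Fact.mk hp
      rw [padicValRat.div hx'.ne' hy'.ne']
      by_cases hpQ : p ∈ Q
      · obtain ⟨j, rfl⟩ := hqs p hpQ
        have h2 := congrFun hxy j
        rw [hv] at h2
        have h3 : padicValRat (q j) x = padicValRat (q j) y := h2
        rw [h3, sub_self]
      · have h2 : ∀ z ∈ H, padicValRat p z = 0 := by
          intro z hz
          have h3 : p ∉ z.num.natAbs.primeFactors ∪ z.den.primeFactors := by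
            intro h3
            exact hpQ (by rw [hQ]; exact Finset.mem_biUnion.2 ⟨z, hz, h3⟩)
          rw [Finset.mem_union, not_or] at h3
          exact padicValRat_eq_zero p hp z (hpos z hz).ne' h3.1 h3.2
        rw [h2 x (Finset.mem_coe.1 hx), h2 y (Finset.mem_coe.1 hy), sub_self]
    exact (div_eq_one_iff_eq hy'.ne').1 h1
  obtain ⟨S, hS⟩ : ∃ S : Finset (Fin R → ℤ), S = H.image v := ⟨_, rfl⟩
  have hSc : S.card = H.card := by rw [hS, Finset.card_image_of_injOn hvinj]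
  have hSK : ((Finset.image₂ (fun a b => a + b) S S).card : ℝ) ≤ K * S.card := by
    rw [hSc]
    refine le_trans ?_ hK
    have h1 : (Finset.image₂ (fun a b => a + b) S S) ⊆
        (Finset.image₂ (fun a b => a * b) H H).image v := by
      intro z hz
      obtain ⟨a, ha, b, hb, rfl⟩ := Finset.mem_image₂.1 hz
      rw [hS] at ha hb
      obtain ⟨x, hx, rfl⟩ := Finset.mem_image.1 ha
      obtain ⟨y, hy, rfl⟩ := Finset.mem_image.1 hb
      refine Finset.mem_image.2 ⟨x * y, Finset.mem_image₂_of_mem hx hy, ?_⟩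
      funext j
      have := Fact.mk (hqp j)
      rw [hv]
      exact padicValRat.mul (hpos x hx).ne' (hpos y hy).ne'
    exact_mod_cast (Finset.card_le_card h1).trans Finset.card_image_le
  obtain ⟨a, haT, ha2, haC⟩ := exists_tree S (by rw [hS]; exact hH.image v) K hSK
  have hK0 : 0 < K := by
    have : (0 : ℝ) < 2 * K := lt_of_lt_of_le (by positivity) ha2
    (clear * - this; linarith only [this])
  have hTbx : T ≤ bx a := by
    rw [hSc] at haC
    have h1 : 4 * K * (T : ℝ) ^ 2 ≤ 4 * K * ((bx a : ℕ) : ℝ) ^ 2 := hT.trans haC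
    have h2 := le_of_mul_le_mul_left h1 (by linarith only [hK0])
    have h3 : (T : ℝ) ≤ ((bx a : ℕ) : ℝ) := by
      by_contra hcon
      rw [not_le] at hcon
      have h4 : (0 : ℝ) ≤ ((bx a : ℕ) : ℝ) := Nat.cast_nonneg _
      (clear * - h2 hcon; nlinarith only [h2, hcon])
    exact_mod_cast h3
  obtain ⟨b, hba, hb1, hb2⟩ := exists_sub_box T hT1 _ a rfl hTbx
  obtain ⟨L, hLS, hLc, hL⟩ := leaves S b (haT.mono hba)
  obtain ⟨J, hJ⟩ : ∃ J : Finset (Fin R), J = Finset.univ.filter (fun j => b j ≠ 0) := ⟨_, rfl⟩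
  obtain ⟨r, hr⟩ : ∃ r : ℕ, J.card = r := ⟨_, rfl⟩
  have hJle : J.card ≤ (Finset.univ.filter (fun j => a j ≠ 0)).card := by
    refine Finset.card_le_card fun j hj => ?_
    rw [hJ, Finset.mem_filter] at hj
    rw [Finset.mem_filter]
    refine ⟨Finset.mem_univ j, fun h0 => hj.2 ?_⟩
    have := hba j
    omega
  refine ⟨r, fun i => q (J.orderEmbOfFin hr i), H.filter (fun h => v h ∈ L),
    Finset.filter_subset _ _, fun i => hqp _, ?_, ?_, ?_, ?_⟩
  · refine le_trans ?_ ha2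
    refine pow_le_pow_right₀ (by norm_num) ?_
    rw [← hr]
    exact hJle
  · have h1 : (H.filter (fun h => v h ∈ L)).card ≤ L.card := by
      refine Finset.card_le_card_of_injOn v ?_ ?_
      · intro h hh
        exact Finset.mem_coe.2 (Finset.mem_filter.1 (Finset.mem_coe.1 hh)).2
      · intro x hx y hy hxy
        exact hvinj (Finset.mem_coe.2 (Finset.mem_filter.1 (Finset.mem_coe.1 hx)).1)
          (Finset.mem_coe.2 (Finset.mem_filter.1 (Finset.mem_coe.1 hy)).1) hxy
    omega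
  · have h1 : L.card ≤ (H.filter (fun h => v h ∈ L)).card := by
      have h2 : L ⊆ (H.filter (fun h => v h ∈ L)).image v := by
        intro l hl
        have h3 := hLS hl
        rw [hS] at h3
        obtain ⟨h, hh, rfl⟩ := Finset.mem_image.1 h3
        exact Finset.mem_image.2 ⟨h, Finset.mem_filter.2 ⟨hh, hl⟩, rfl⟩
      exact (Finset.card_le_card h2).trans Finset.card_image_le
    omega
  · intro s hs t ht hst
    rw [Finset.mem_filter] at hs ht
    refine hvinj (Finset.mem_coe.2 hs.1) (Finset.mem_coe.2 ht.1) ?_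
    refine hL _ hs.2 _ ht.2 fun j hj => ?_
    have h1 : j ∈ Set.range (J.orderEmbOfFin hr) := by
      rw [Finset.range_orderEmbOfFin, hJ]
      exact Finset.mem_coe.2 (Finset.mem_filter.2 ⟨Finset.mem_univ j, hj⟩)
    obtain ⟨i, rfl⟩ := h1
    rw [hv]
    exact hst i

end Pool.Agent.Helper15.GPP
end

/- Helper24.DI.H15.GPQ.Comb -/
section
set_option autoImplicit false

/-!
# Project GL++ (MP_120218), Comb: large boxes of small dimension in the multiples of a set
-/

namespace Pool.Agent.Helper15.GPQ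

open Finset Pool.Agent.Helper15.GPP Pool.Agent.Helper15.GLP

/-- the `j`-fold sums -/
def js {R : ℕ} (S : Finset (Fin R → ℤ)) : ℕ → Finset (Fin R → ℤ)
  | 0 => {0}
  | j + 1 => Finset.image₂ (fun x y => x + y) (js S j) S

theorem js_add {R : ℕ} (S : Finset (Fin R → ℤ)) (a b : ℕ) :
    Finset.image₂ (fun x y => x + y) (js S a) (js S b) ⊆ js S (a + b) := by
  induction b with
  | zero =>
    intro z hz
    obtain ⟨x, hx, y, hy, rfl⟩ := Finset.mem_image₂.1 hz
    have h1 : y = 0 := Finset.mem_singleton.1 hy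
    show x + y ∈ js S a
    rw [h1, add_zero]
    exact hx
  | succ b ih =>
    intro z hz
    obtain ⟨x, hx, y, hy, rfl⟩ := Finset.mem_image₂.1 hz
    obtain ⟨w, hw, s, hs, rfl⟩ := Finset.mem_image₂.1 hy
    have h1 : x + (w + s) = (x + w) + s := (add_assoc _ _ _).symm
    show x + (w + s) ∈ js S (a + b + 1)
    rw [h1]
    exact Finset.mem_image₂_of_mem (ih (Finset.mem_image₂_of_mem hx hw)) hs

theorem js_one_card {R : ℕ} (S : Finset (Fin R → ℤ)) : (js S 1).card = S.card := by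
  have h1 : js S 1 = S := by
    ext z
    constructor
    · intro hz
      obtain ⟨x, hx, y, hy, rfl⟩ := Finset.mem_image₂.1 hz
      have h1 : x = 0 := Finset.mem_singleton.1 hx
      rw [h1, zero_add]
      exact hy
    · intro hz
      have h1 : (0 : Fin R → ℤ) ∈ js S 0 := Finset.mem_singleton.2 rfl
      have h2 := Finset.mem_image₂_of_mem (f := fun x y => x + y) h1 hz
      simp only [zero_add] at h2
      exact h2
  rw [h1]

theorem js_nonempty {R : ℕ} (S : Finset (Fin R → ℤ)) (hS : S.Nonempty) (j : ℕ) :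
    (js S j).Nonempty := by
  induction j with
  | zero => exact ⟨0, Finset.mem_singleton.2 rfl⟩
  | succ j ih => exact ih.image₂ hS

theorem osh_mul {R : ℕ} (S : Finset (Fin R → ℤ)) (j : ℕ) (a : Fin R → ℕ)
    (ha : a ∈ osh R (js S j)) (m : ℕ) (hm : 1 ≤ m) :
    (fun i => m * a i) ∈ osh R (js S (m * j)) := by
  induction m, hm using Nat.le_induction with
  | base =>
    have h1 : (fun i => 1 * a i) = a := by
      funext i
      rw [one_mul]
    rw [h1, one_mul]
    exact ha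
  | succ m _ ih =>
    have h1 : (fun i => (m + 1) * a i) = (fun i => m * a i) + a := by
      funext i
      rw [Pi.add_apply]
      ring
    rw [h1, Nat.succ_mul]
    exact osh_mono R _ _ (js_add S (m * j) j) (osh_add R _ _ _ ih _ ha)

theorem exists_osh {R : ℕ} (S : Finset (Fin R → ℤ)) (hS : S.Nonempty) (K : ℝ)
    (hK : ((Finset.image₂ (fun a b => a + b) S S).card : ℝ) ≤ K * S.card) :
    ∃ a ∈ osh R S, (S.card : ℝ) ≤ 4 * K * ((bx a : ℕ) : ℝ) ^ 2 := by
  classical
  have hc := card_osh R S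
  have hne : (osh R S).Nonempty := by
    rw [← Finset.card_pos, hc]
    exact hS.card_pos
  have h1 : ((Finset.image₂ (fun a b => a + b) (osh R S) (osh R S)).card : ℝ) ≤
      K * (osh R S).card := by
    rw [hc]
    refine le_trans ?_ hK
    rw [← card_osh R (Finset.image₂ (fun a b => a + b) S S)]
    have h2 : (Finset.image₂ (fun a b => a + b) (osh R S) (osh R S)) ⊆
        osh R (Finset.image₂ (fun a b => a + b) S S) := by
      intro z hz
      obtain ⟨a, ha, b, hb, rfl⟩ := Finset.mem_image₂.1 hz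
      exact osh_add R S S a ha b hb
    exact_mod_cast Finset.card_le_card h2
  obtain ⟨a, ha, -, h3⟩ := down_shape (osh R S) hne (osh_down R S) K h1
  rw [hc] at h3
  exact ⟨a, ha, h3⟩

/-- the number of non-zero coordinates -/
def sup {R : ℕ} (a : Fin R → ℕ) : ℕ := (Finset.univ.filter (fun j => a j ≠ 0)).card

theorem two_pow_le_bx {R : ℕ} (a : Fin R → ℕ) : 2 ^ sup a ≤ bx a := by
  unfold sup
  rw [← wt_eq]
  unfold wt bx
  refine Finset.prod_le_prod' fun j _ => ?_
  by_cases h : a j = 0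
  · rw [if_pos h]
    omega
  · rw [if_neg h]
    omega

theorem bx_eq_one {R : ℕ} (a : Fin R → ℕ) (h : sup a = 0) : bx a = 1 := by
  unfold sup at h
  rw [Finset.card_eq_zero, Finset.filter_eq_empty_iff] at h
  unfold bx
  refine Finset.prod_eq_one fun j hj => ?_
  have h1 := h hj
  push Not at h1
  rw [h1, zero_add]

theorem bx_mul {R : ℕ} (a : Fin R → ℕ) (m : ℕ) :
    ((m : ℝ) / 2) ^ sup a * ((bx a : ℕ) : ℝ) ≤ ((bx (fun i => m * a i) : ℕ) : ℝ) := by
  have h1 : ((m : ℝ) / 2) ^ sup a = ∏ j, (if a j = 0 then (1 : ℝ) else (m : ℝ) / 2) := by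
    unfold sup
    rw [← Finset.prod_const, Finset.prod_filter]
    refine Finset.prod_congr rfl fun j _ => ?_
    by_cases h : a j = 0
    · rw [if_pos h, if_neg (not_not.2 h)]
    · rw [if_neg h, if_pos h]
  rw [h1]
  unfold bx
  push_cast
  rw [← Finset.prod_mul_distrib]
  have hm : (0 : ℝ) ≤ m := Nat.cast_nonneg m
  refine Finset.prod_le_prod (fun j _ => ?_) fun j _ => ?_
  · have ha : (0 : ℝ) ≤ a j := Nat.cast_nonneg _
    split_ifs <;> positivity
  · by_cases h : a j = 0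
    · rw [if_pos h, h]
      simp
    · rw [if_neg h]
      have ha : (1 : ℝ) ≤ a j := by exact_mod_cast Nat.one_le_iff_ne_zero.2 h
      have h2 : (m : ℝ) ≤ m * a j := le_mul_of_one_le_right hm ha
      (clear * - h2; linarith only [h2])

/-- the first scale of slow growth -/
theorem scale (f : ℕ → ℝ) (u L c' : ℝ) (hu : 1 ≤ u) (huL : u ≤ L) (hc0 : 0 ≤ c')
    (hc : c' ≤ 1 / 8) (h0 : f 0 = u) (hf : ∀ i, f i ≤ c' * u ^ 2 / L * 2 ^ i + L) :
    ∃ i : ℕ, u ≤ f i ∧ f i ≤ 2 * L ∧ f (i + 1) ≤ 3 / 2 * f i ∧ u ^ 2 * 2 ^ i ≤ f i ^ 2 := by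
  have hu0 : 0 < u := by (clear * - hu; linarith only [hu])
  have hL : 0 < L := by (clear * - hu huL; linarith only [hu, huL])
  have hex : ∃ n : ℕ, 2 * L < (3 / 2 : ℝ) ^ n * u := by
    obtain ⟨n, hn⟩ := pow_unbounded_of_one_lt (2 * L / u) (show (1 : ℝ) < 3 / 2 by norm_num)
    exact ⟨n, by rwa [div_lt_iff₀ hu0] at hn⟩
  classical
  obtain ⟨I, hI⟩ : ∃ I : ℕ, I = Nat.find hex := ⟨_, rfl⟩
  have hI1 : 2 * L < (3 / 2 : ℝ) ^ I * u := by rw [hI]; exact Nat.find_spec hex
  have hI2 : ∀ n < I, (3 / 2 : ℝ) ^ n * u ≤ 2 * L := by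
    intro n hn
    rw [hI] at hn
    exact not_lt.1 (Nat.find_min hex hn)
  have hpow : ∀ n : ℕ, u ^ 2 * 2 ^ n ≤ ((3 / 2 : ℝ) ^ n * u) ^ 2 := by
    intro n
    have h1 : (2 : ℝ) ^ n ≤ (9 / 4) ^ n := pow_le_pow_left₀ (by norm_num) (by norm_num) n
    have h2 : ((3 / 2 : ℝ) ^ n * u) ^ 2 = u ^ 2 * (9 / 4) ^ n := by
      rw [mul_pow, ← pow_mul, mul_comm n 2, pow_mul]
      norm_num
      ring
    rw [h2]
    exact mul_le_mul_of_nonneg_left h1 (sq_nonneg u)
  have hpow2 : ∀ n < I, u ^ 2 * 2 ^ n ≤ 4 * L ^ 2 := by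
    intro n hn
    refine (hpow n).trans ?_
    have h1 : 0 ≤ (3 / 2 : ℝ) ^ n * u := by (clear * - hu; positivity)
    calc ((3 / 2 : ℝ) ^ n * u) ^ 2 ≤ (2 * L) ^ 2 := pow_le_pow_left₀ h1 (hI2 n hn) 2
      _ = 4 * L ^ 2 := by ring
  have hbd : ∀ x : ℝ, x ≤ 8 * L ^ 2 → c' * x / L ≤ L := by
    intro x hx
    rw [div_le_iff₀ hL]
    calc c' * x ≤ c' * (8 * L ^ 2) := mul_le_mul_of_nonneg_left hx hc0
      _ = (8 * c') * L ^ 2 := by ring
      _ ≤ 1 * L ^ 2 := mul_le_mul_of_nonneg_right (by (clear * - hc; linarith only [hc])) (by positivity)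
      _ = L * L := by ring
  have hfx : ∀ n : ℕ, u ^ 2 * 2 ^ n ≤ 8 * L ^ 2 → f n ≤ 2 * L := by
    intro n hn
    have h1 := hf n
    have h2 := hbd _ hn
    have h3 : c' * u ^ 2 / L * 2 ^ n = c' * (u ^ 2 * 2 ^ n) / L := by ring
    rw [h3] at h1
    linarith only [h1, h2]
  have hI0 : I ≠ 0 := by
    intro h
    rw [h, pow_zero, one_mul] at hI1
    linarith only [hu, huL, hI1]
  have hfI : f I ≤ 2 * L := by
    apply hfx
    obtain ⟨n, hn⟩ : ∃ n, I = n + 1 := Nat.exists_eq_succ_of_ne_zero hI0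
    have h1 := hpow2 n (by omega)
    have h2 : (2 : ℝ) ^ I = 2 ^ n * 2 := by rw [hn, pow_succ]
    rw [h2]
    (clear * - h1; linarith only [h1])
  have hex2 : ∃ n : ℕ, f n < (3 / 2 : ℝ) ^ n * u := ⟨I, lt_of_le_of_lt hfI hI1⟩
  obtain ⟨J, hJ⟩ : ∃ J : ℕ, J = Nat.find hex2 := ⟨_, rfl⟩
  have hJ1 : f J < (3 / 2 : ℝ) ^ J * u := by rw [hJ]; exact Nat.find_spec hex2
  have hJ2 : ∀ n < J, (3 / 2 : ℝ) ^ n * u ≤ f n := by
    intro n hn
    rw [hJ] at hn
    exact not_lt.1 (Nat.find_min hex2 hn)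
  have hJI : J ≤ I := by
    rw [hJ]
    exact Nat.find_min' hex2 (lt_of_le_of_lt hfI hI1)
  have hJ0 : J ≠ 0 := by
    intro h
    rw [h, pow_zero, one_mul, h0] at hJ1
    exact lt_irrefl _ hJ1
  obtain ⟨i, hi⟩ : ∃ i, J = i + 1 := Nat.exists_eq_succ_of_ne_zero hJ0
  have h1 := hJ2 i (by omega)
  have h2 := hpow2 i (by omega)
  have h3 : (0 : ℝ) ≤ (3 / 2 : ℝ) ^ i * u := by (clear * - hu; positivity)
  refine ⟨i, ?_, ?_, ?_, ?_⟩
  · refine le_trans ?_ h1
    exact le_mul_of_one_le_left hu0.le (one_le_pow₀ (by norm_num))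
  · apply hfx
    have : 0 ≤ L ^ 2 := by positivity
    linarith only [h2, this]
  · rw [← hi]
    refine hJ1.le.trans ?_
    rw [hi, pow_succ]
    linarith only [h1]
  · exact (hpow i).trans (pow_le_pow_left₀ h3 h1 2)

theorem le_exp_half (x : ℝ) (hx : 0 ≤ x) : x ≤ Real.exp (x / 2) := by
  have h1 := Real.add_one_le_exp (x / 4)
  have h2 : Real.exp (x / 2) = Real.exp (x / 4) * Real.exp (x / 4) := by
    rw [← Real.exp_add]
    congr 1
    ring
  have h3 : (x / 4 + 1) * (x / 4 + 1) ≤ Real.exp (x / 4) * Real.exp (x / 4) :=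
    mul_le_mul h1 h1 (by (clear * - hx; linarith only [hx])) (Real.exp_pos _).le
  rw [h2]
  nlinarith only [sq_nonneg (x / 4 - 1), h1]

/-- **A large box of small dimension** in the multiples of a set. -/
theorem comb (C2 c5 : ℝ) (hC2 : 0 < C2) (hc5 : 0 < c5) (hc5' : c5 ≤ 1 / 4) :
    ∃ c' U0 : ℝ, 0 < c' ∧ 1 ≤ U0 ∧ ∀ (R : ℕ) (S : Finset (Fin R → ℤ)) (u L : ℝ), S.Nonempty →
      u = Real.log S.card → U0 ≤ u → u ≤ L →
      (∀ j : ℕ, 1 ≤ j → Real.log (js S j).card ≤ c' * u ^ 2 / L * j + L) →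
      ∃ (n : ℕ) (a : Fin R → ℕ) (β : ℝ), 1 ≤ n ∧ a ∈ osh R (js S n) ∧ 16 ≤ β ∧ β ≤ c5 * L ∧
        c' * u ^ 2 / L * n ≤ β / 16 ∧ 1 ≤ sup a ∧ (sup a : ℝ) ≤ 2 * c5 * L ∧
        sup a * Real.log (C2 * L / sup a) + β / 2 ≤ Real.log ((bx a : ℕ) : ℝ) := by
  classical
  obtain ⟨D, hD⟩ : ∃ D : ℝ, D = 8 / c5 + 32 * C2 / c5 ^ 2 := ⟨_, rfl⟩
  have hD0 : 0 < D := by rw [hD]; (clear * - hc5 hC2; positivity)
  obtain ⟨c', hc'⟩ : ∃ c' : ℝ, c' = min (1 / 8) (1 / (16 * D)) := ⟨_, rfl⟩
  have hc'0 : 0 < c' := by rw [hc']; exact lt_min (by norm_num) (by (clear * - hD0; positivity))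
  have hc'8 : c' ≤ 1 / 8 := by rw [hc']; exact min_le_left _ _
  have hc'D : c' * D ≤ 1 / 16 := by
    have h1 : c' ≤ 1 / (16 * D) := by rw [hc']; exact min_le_right _ _
    calc c' * D ≤ 1 / (16 * D) * D := mul_le_mul_of_nonneg_right h1 hD0.le
      _ = 1 / 16 := by (clear * - hD0; field_simp)
  have hU : 0 < 64 / c5 := by positivity
  refine ⟨c', 64 / c5 + 8, hc'0, by linarith only [hU], ?_⟩
  intro R S u L hS hu hU0 huL hb
  have hu8 : 8 ≤ u := by (clear * - hU hU0; linarith only [hU, hU0])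
  have hL : 0 < L := by linarith only [huL, hu8]
  have hcardpos : ∀ j, (0 : ℝ) < (js S j).card := by
    intro j
    exact_mod_cast (js_nonempty S hS j).card_pos
  obtain ⟨f, hf⟩ : ∃ f : ℕ → ℝ, f = fun i => Real.log (js S (2 ^ i)).card := ⟨_, rfl⟩
  have hfe : ∀ i, Real.exp (f i) = (js S (2 ^ i)).card := by
    intro i
    rw [hf]
    exact Real.exp_log (hcardpos _)
  obtain ⟨i, hFu, hFL, hF2, hFi⟩ := scale f u L c' (by (clear * - hu8; linarith only [hu8])) huL hc'0.le hc'8 (by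
      rw [hf]
      simp only [pow_zero]
      rw [js_one_card, hu]) (by
      intro i
      have h1 := hb (2 ^ i) (Nat.one_le_two_pow)
      rw [hf]
      push_cast at h1
      exact h1)
  obtain ⟨F, hFd⟩ : ∃ F : ℝ, F = f i := ⟨_, rfl⟩
  rw [← hFd] at hFu hFL hF2 hFi
  have hF8 : 8 ≤ F := by linarith only [hu8, hFu]
  have hF0 : 0 < F := by linarith only [hF8]
  have hTne := js_nonempty S hS (2 ^ i)
  have hTe : ((js S (2 ^ i)).card : ℝ) = Real.exp F := by rw [hFd, hfe]
  obtain ⟨a0, ha0, ha0c⟩ := exists_osh (js S (2 ^ i)) hTne (Real.exp (F / 2)) (by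
    have h1 := Finset.card_le_card (js_add S (2 ^ i) (2 ^ i))
    have h2 : 2 ^ i + 2 ^ i = 2 ^ (i + 1) := by rw [pow_succ]; ring
    rw [h2] at h1
    have h3 : ((Finset.image₂ (fun a b => a + b) (js S (2 ^ i)) (js S (2 ^ i))).card : ℝ) ≤
        (js S (2 ^ (i + 1))).card := by exact_mod_cast h1
    refine h3.trans ?_
    rw [← hfe, hTe, ← Real.exp_add]
    exact Real.exp_le_exp.2 (by linarith only [hF2]))
  rw [hTe] at ha0c
  have hbx0 : Real.exp (F / 8) ≤ ((bx a0 : ℕ) : ℝ) := by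
    have h1 : Real.exp F = Real.exp (F / 2) * (Real.exp (F / 4) * Real.exp (F / 8) ^ 2) := by
      rw [← Real.exp_nat_mul, ← Real.exp_add, ← Real.exp_add]
      congr 1
      push_cast
      ring
    rw [h1] at ha0c
    have h2 : Real.exp (F / 4) * Real.exp (F / 8) ^ 2 ≤ 4 * ((bx a0 : ℕ) : ℝ) ^ 2 := by
      have h3 : Real.exp (F / 2) * (Real.exp (F / 4) * Real.exp (F / 8) ^ 2) ≤
          Real.exp (F / 2) * (4 * ((bx a0 : ℕ) : ℝ) ^ 2) := by linarith only [ha0c]
      exact le_of_mul_le_mul_left h3 (Real.exp_pos _)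
    have h4 : (4 : ℝ) ≤ Real.exp (F / 4) := by
      have h5 := Real.add_one_le_exp (F / 8)
      have h6 : Real.exp (F / 4) = Real.exp (F / 8) * Real.exp (F / 8) := by
        rw [← Real.exp_add]
        congr 1
        ring
      have h7 : (2 : ℝ) * 2 ≤ Real.exp (F / 8) * Real.exp (F / 8) :=
        mul_le_mul (by linarith only [hF8, h5]) (by linarith only [hF8, h5]) (by norm_num) (Real.exp_pos _).le
      rw [h6]
      linarith only [h7]
    have h5 : 4 * Real.exp (F / 8) ^ 2 ≤ Real.exp (F / 4) * Real.exp (F / 8) ^ 2 :=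
      mul_le_mul_of_nonneg_right h4 (sq_nonneg _)
    have h6 : Real.exp (F / 8) ^ 2 ≤ ((bx a0 : ℕ) : ℝ) ^ 2 := by linarith only [h2, h5]
    exact (pow_le_pow_iff_left₀ (Real.exp_pos _).le (Nat.cast_nonneg _) (by norm_num)).1 h6
  -- the small box
  obtain ⟨T0, hT0⟩ : ∃ T0 : ℕ, T0 = ⌊Real.exp (c5 * F / 2)⌋₊ := ⟨_, rfl⟩
  have hT0le : (T0 : ℝ) ≤ Real.exp (c5 * F / 2) := by
    rw [hT0]
    exact Nat.floor_le (Real.exp_pos _).le
  have hT0lt : Real.exp (c5 * F / 2) < T0 + 1 := by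
    rw [hT0]
    exact Nat.lt_floor_add_one _
  have hc5F : 0 ≤ c5 * F := by (clear * - hc5 hF8; positivity)
  have hc5F64 : 64 ≤ c5 * F := by
    have h1 : 64 / c5 ≤ F := by (clear * - hU0 hFu; linarith only [hU0, hFu])
    rw [div_le_iff₀ hc5] at h1
    linarith only [h1]
  have hT01 : 1 ≤ T0 := by
    have h1 : (1 : ℝ) ≤ Real.exp (c5 * F / 2) := Real.one_le_exp (by linarith only [hc5F64])
    have h2 : (0 : ℝ) < T0 := by linarith only [hT0lt, h1]
    exact_mod_cast h2
  have hT0b : T0 ≤ bx a0 := by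
    have h1 : (T0 : ℝ) ≤ ((bx a0 : ℕ) : ℝ) := by
      refine hT0le.trans (le_trans (Real.exp_le_exp.2 ?_) hbx0)
      have h2 : c5 * F ≤ 1 / 4 * F := mul_le_mul_of_nonneg_right hc5' hF0.le
      linarith only [h2]
    exact_mod_cast h1
  obtain ⟨b, hba, hb1, hb2⟩ := exists_sub_box T0 hT01 _ a0 rfl hT0b
  have hbosh : b ∈ osh R (js S (2 ^ i)) := osh_down R _ a0 ha0 b hba
  obtain ⟨β, hβ⟩ : ∃ β : ℝ, β = Real.log ((bx b : ℕ) : ℝ) := ⟨_, rfl⟩
  have hbxb : (0 : ℝ) < ((bx b : ℕ) : ℝ) := by exact_mod_cast bx_pos b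
  have hβup : β ≤ c5 * F / 2 := by
    rw [hβ, Real.log_le_iff_le_exp hbxb]
    refine le_trans ?_ hT0le
    exact_mod_cast hb1
  have hβlow : c5 * F / 4 ≤ β := by
    have h1 : Real.exp (c5 * F / 2) ≤ 2 * ((bx b : ℕ) : ℝ) := by
      have h2 : ((T0 + 1 : ℕ) : ℝ) ≤ ((2 * bx b : ℕ) : ℝ) := by exact_mod_cast hb2
      push_cast at h2
      linarith only [hT0lt, h2]
    have h3 := Real.log_le_log (Real.exp_pos _) h1
    rw [Real.log_exp, Real.log_mul (by norm_num) hbxb.ne', ← hβ] at h3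
    have h4 := Real.log_two_lt_d9
    linarith only [hc5F64, h3, h4]
  have hβ16 : 16 ≤ β := by linarith only [hc5F64, hβlow]
  have hβ0 : 0 < β := by linarith only [hβ16]
  have hβL : β ≤ c5 * L := by
    refine hβup.trans ?_
    have : c5 * F ≤ c5 * (2 * L) := mul_le_mul_of_nonneg_left hFL hc5.le
    linarith only [this]
  obtain ⟨r, hr⟩ : ∃ r : ℕ, r = sup b := ⟨_, rfl⟩
  have hr1 : 1 ≤ r := by
    by_contra hcon
    have h1 : sup b = 0 := by (clear * - c5 F a0 T0 hr hcon; omega)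
    rw [hβ, bx_eq_one b h1] at hβ0
    simp at hβ0
  have hr0 : (0 : ℝ) < r := by exact_mod_cast hr1
  have hrβ : (r : ℝ) ≤ 2 * β := by
    have h1 := two_pow_le_bx b
    rw [← hr] at h1
    have h2 : (2 : ℝ) ^ r ≤ ((bx b : ℕ) : ℝ) := by exact_mod_cast h1
    have h3 := Real.log_le_log (by positivity) h2
    rw [Real.log_pow, ← hβ] at h3
    have h4 := Real.log_two_gt_d9
    have h5 : (r : ℝ) * (1 / 2) ≤ r * Real.log 2 := mul_le_mul_of_nonneg_left (by (clear * - h4; linarith only [h4])) hr0.le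
    linarith only [h3, h5]
  -- the multiple
  obtain ⟨X, hX⟩ : ∃ X : ℝ, X = 2 * C2 * (L / r) * Real.exp (-(β / r / 2)) := ⟨_, rfl⟩
  have hX0 : 0 < X := by rw [hX]; (clear * - hC2 hL hr1; positivity)
  obtain ⟨m, hm⟩ : ∃ m : ℕ, m = ⌈X⌉₊ := ⟨_, rfl⟩
  have hmX : X ≤ m := by rw [hm]; exact Nat.le_ceil _
  have hmX1 : (m : ℝ) ≤ X + 1 := by
    rw [hm]
    exact (Nat.ceil_lt_add_one hX0.le).le
  have hm1 : 1 ≤ m := by
    have h1 : (0 : ℝ) < m := by linarith only [hX0, hmX]
    exact_mod_cast h1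
  have hm0 : (0 : ℝ) < m := by exact_mod_cast hm1
  have hsup : sup (fun j => m * b j) = r := by
    rw [hr]
    unfold sup
    congr 1
    refine Finset.filter_congr fun j _ => ?_
    constructor
    · intro h h0
      apply h
      show m * b j = 0
      rw [h0, mul_zero]
    · intro h h0
      have h0' : m * b j = 0 := h0
      rcases Nat.mul_eq_zero.1 h0' with h1 | h1
      · omega
      · exact h h1
  refine ⟨m * 2 ^ i, fun j => m * b j, β, ?_, osh_mul S _ b hbosh m hm1, hβ16, hβL, ?_, ?_, ?_, ?_⟩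
  · exact Nat.mul_pos hm1 (Nat.two_pow_pos i)
  · -- the cost
    have h1 : c' * u ^ 2 / L * ((m * 2 ^ i : ℕ) : ℝ) = c' * (u ^ 2 * 2 ^ i) / L * m := by
      push_cast
      ring
    rw [h1]
    have h2 : c' * (u ^ 2 * 2 ^ i) / L ≤ c' * F ^ 2 / L :=
      div_le_div_of_nonneg_right (mul_le_mul_of_nonneg_left hFi hc'0.le) hL.le
    have h3 : c' * (u ^ 2 * 2 ^ i) / L * m ≤ c' * F ^ 2 / L * (X + 1) :=
      mul_le_mul h2 hmX1 hm0.le (by (clear * - hc'0 hF8 hL; positivity))
    refine h3.trans ?_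
    have hFβ : F ≤ 4 * β / c5 := by
      rw [le_div_iff₀ hc5]
      linarith only [hβlow]
    have h4 : c' * F ^ 2 / L ≤ c' * (8 / c5) * β := by
      have h5 : F ^ 2 / L ≤ 2 * F := by
        rw [div_le_iff₀ hL, sq]
        calc F * F ≤ F * (2 * L) := mul_le_mul_of_nonneg_left hFL hF0.le
          _ = 2 * F * L := by ring
      calc c' * F ^ 2 / L = c' * (F ^ 2 / L) := by ring
        _ ≤ c' * (2 * F) := mul_le_mul_of_nonneg_left h5 hc'0.le
        _ ≤ c' * (2 * (4 * β / c5)) := by (clear * - hFβ hc'0; gcongr)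
        _ = c' * (8 / c5) * β := by ring
    have h6 : c' * F ^ 2 / L * X ≤ c' * (32 * C2 / c5 ^ 2) * β := by
      have h7 : c' * F ^ 2 / L * X = 2 * C2 * c' * F ^ 2 / r * Real.exp (-(β / r / 2)) := by
        rw [hX]
        (clear * - hL hr1 hC2 hF8 hc'0; field_simp)
      rw [h7]
      have h8 : β / r * Real.exp (-(β / r / 2)) ≤ 1 := by
        have h9 := le_exp_half (β / r) (by (clear * - hβ16 hr1; positivity))
        calc β / r * Real.exp (-(β / r / 2)) ≤ Real.exp (β / r / 2) * Real.exp (-(β / r / 2)) :=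
              mul_le_mul_of_nonneg_right h9 (Real.exp_pos _).le
          _ = 1 := by rw [← Real.exp_add, add_neg_cancel, Real.exp_zero]
      have h10 : F ^ 2 ≤ (4 * β / c5) ^ 2 := pow_le_pow_left₀ hF0.le hFβ 2
      calc 2 * C2 * c' * F ^ 2 / r * Real.exp (-(β / r / 2)) ≤
            2 * C2 * c' * (4 * β / c5) ^ 2 / r * Real.exp (-(β / r / 2)) := by (clear * - h10 hC2 hc'0 hr1; gcongr)
        _ = c' * (32 * C2 / c5 ^ 2) * β * (β / r * Real.exp (-(β / r / 2))) := by
            field_simp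
            ring
        _ ≤ c' * (32 * C2 / c5 ^ 2) * β * 1 := by (clear * - h8 hc'0 hC2 hc5 hβ16; gcongr)
        _ = c' * (32 * C2 / c5 ^ 2) * β := mul_one _
    calc c' * F ^ 2 / L * (X + 1) = c' * F ^ 2 / L * X + c' * F ^ 2 / L := by ring
      _ ≤ c' * (32 * C2 / c5 ^ 2) * β + c' * (8 / c5) * β := add_le_add h6 h4
      _ = (c' * D) * β := by rw [hD]; ring
      _ ≤ 1 / 16 * β := mul_le_mul_of_nonneg_right hc'D hβ0.le
      _ = β / 16 := by ring
  · rw [hsup]
    exact hr1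
  · rw [hsup]
    linarith only [hβL, hrβ]
  · rw [hsup]
    have h1 := bx_mul b m
    rw [← hr] at h1
    have h2 : 0 < ((m : ℝ) / 2) ^ r * ((bx b : ℕ) : ℝ) := by (clear * - hm1 hbxb; positivity)
    have h3 := Real.log_le_log h2 h1
    refine le_trans ?_ h3
    rw [Real.log_mul (by (clear * - hm1; positivity)) hbxb.ne', Real.log_pow, ← hβ]
    have h4 : Real.log (C2 * L / r) - β / r / 2 ≤ Real.log ((m : ℝ) / 2) := by
      have h5 : C2 * L / r * Real.exp (-(β / r / 2)) ≤ (m : ℝ) / 2 := by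
        have h6 : C2 * L / r * Real.exp (-(β / r / 2)) = X / 2 := by
          rw [hX]
          ring
        linarith only [hmX, h6]
      have h6 := Real.log_le_log (by (clear * - hC2 hL hr1; positivity)) h5
      rw [Real.log_mul (by (clear * - hC2 hL hr1; positivity)) (Real.exp_pos _).ne', Real.log_exp] at h6
      linarith only [h6]
    have h5 := mul_le_mul_of_nonneg_left h4 hr0.le
    have h6 : (r : ℝ) * (Real.log (C2 * L / r) - β / r / 2) =
        r * Real.log (C2 * L / r) - β / 2 := by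
      (clear * - hr1; field_simp)
    rw [h6] at h5
    linarith only [h5]

end Pool.Agent.Helper15.GPQ
end

/- Helper24.DI.H15.GPR.Tri -/
section
set_option autoImplicit false

/-!
# Project GL++ (MP_120218), Tri: solutions of `x = y + z` and order shapes
-/

namespace Pool.Agent.Helper15.GPR

open Finset Pool.Agent.Helper15.GPP

/-- the maximum is attained at least twice -/
def gd (a b c : ℕ) : Prop := (a = b ∧ c ≤ a) ∨ (a = c ∧ b ≤ a) ∨ (b = c ∧ a ≤ b)

instance gd_dec (a b c : ℕ) : Decidable (gd a b c) := by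
  unfold gd
  infer_instance

theorem gd_max1 (b c : ℕ) : gd (max b c) b c := by
  unfold gd
  omega

theorem gd_max2 (a c : ℕ) : gd a (max a c) c := by
  unfold gd
  (clear * -; omega)

theorem gd_max3 (a b : ℕ) : gd a b (max a b) := by
  unfold gd
  omega

/-- the good triples -/
def gd3 {R : ℕ} (D E F : Finset (Fin R → ℕ)) :
    Finset ((Fin R → ℕ) × (Fin R → ℕ) × (Fin R → ℕ)) :=
  (D ×ˢ E ×ˢ F).filter (fun q => ∀ j, gd (q.1 j) (q.2.1 j) (q.2.2 j))

/-- the solutions of `x = y + z` -/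
def sol3 {R : ℕ} (S T X : Finset (Fin R → ℤ)) :
    Finset ((Fin R → ℤ) × (Fin R → ℤ) × (Fin R → ℤ)) :=
  (S ×ˢ T ×ˢ X).filter (fun q => q.1 = q.2.1 + q.2.2)

theorem mem_gd3 {R : ℕ} {D E F : Finset (Fin R → ℕ)}
    {q : (Fin R → ℕ) × (Fin R → ℕ) × (Fin R → ℕ)} :
    q ∈ gd3 D E F ↔ (q.1 ∈ D ∧ q.2.1 ∈ E ∧ q.2.2 ∈ F) ∧
      ∀ j, gd (q.1 j) (q.2.1 j) (q.2.2 j) := by
  unfold gd3
  rw [Finset.mem_filter, Finset.mem_product, Finset.mem_product]

theorem mem_sol3 {R : ℕ} {S T X : Finset (Fin R → ℤ)}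
    {q : (Fin R → ℤ) × (Fin R → ℤ) × (Fin R → ℤ)} :
    q ∈ sol3 S T X ↔ (q.1 ∈ S ∧ q.2.1 ∈ T ∧ q.2.2 ∈ X) ∧ q.1 = q.2.1 + q.2.2 := by
  unfold sol3
  rw [Finset.mem_filter, Finset.mem_product, Finset.mem_product]

theorem one_dim (V W U : Finset ℤ) :
    ((V ×ˢ W ×ˢ U).filter (fun q => q.1 = q.2.1 + q.2.2)).card ≤
      ((Finset.range V.card ×ˢ Finset.range W.card ×ˢ Finset.range U.card).filter
        (fun k => gd k.1 k.2.1 k.2.2)).card := by
  obtain ⟨L, hL⟩ : ∃ L, L = (V ×ˢ W ×ˢ U).filter (fun q : ℤ × ℤ × ℤ => q.1 = q.2.1 + q.2.2) :=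
    ⟨_, rfl⟩
  obtain ⟨K, hK⟩ : ∃ K, K = (Finset.range V.card ×ˢ Finset.range W.card ×ˢ
    Finset.range U.card).filter (fun k : ℕ × ℕ × ℕ => gd k.1 k.2.1 k.2.2) := ⟨_, rfl⟩
  rw [← hL, ← hK]
  have memL : ∀ q, q ∈ L ↔ (q.1 ∈ V ∧ q.2.1 ∈ W ∧ q.2.2 ∈ U) ∧ q.1 = q.2.1 + q.2.2 := by
    intro q
    rw [hL, Finset.mem_filter, Finset.mem_product, Finset.mem_product]
  have memK : ∀ k, k ∈ K ↔ (k.1 < V.card ∧ k.2.1 < W.card ∧ k.2.2 < U.card) ∧
      gd k.1 k.2.1 k.2.2 := by
    intro k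
    rw [hK, Finset.mem_filter, Finset.mem_product, Finset.mem_product, Finset.mem_range,
      Finset.mem_range, Finset.mem_range]
  by_cases h1 : W.card ≤ V.card ∧ U.card ≤ V.card
  · calc L.card ≤ (W ×ˢ U).card := by
          refine Finset.card_le_card_of_injOn (fun q => q.2) ?_ ?_
          · intro q hq
            have h2 := (memL q).1 (Finset.mem_coe.1 hq)
            exact Finset.mem_coe.2 (Finset.mem_product.2 h2.1.2)
          · intro q hq q' hq' e
            have h2 := (memL q).1 (Finset.mem_coe.1 hq)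
            have h3 := (memL q').1 (Finset.mem_coe.1 hq')
            have e' : q.2 = q'.2 := e
            exact Prod.ext (by rw [h2.2, h3.2, e']) e'
      _ = (Finset.range W.card ×ˢ Finset.range U.card).card := by
          rw [Finset.card_product, Finset.card_product, Finset.card_range, Finset.card_range]
      _ ≤ K.card := by
          refine Finset.card_le_card_of_injOn (fun k => (max k.1 k.2, k)) ?_ ?_
          · intro k hk
            have h2 := Finset.mem_product.1 (Finset.mem_coe.1 hk)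
            rw [Finset.mem_range, Finset.mem_range] at h2
            refine Finset.mem_coe.2 ((memK _).2 ⟨⟨?_, h2.1, h2.2⟩, gd_max1 _ _⟩)
            show max k.1 k.2 < V.card
            omega
          · intro k _ k' _ e
            exact (Prod.mk.inj e).2
  by_cases h2 : V.card ≤ W.card ∧ U.card ≤ W.card
  · calc L.card ≤ (V ×ˢ U).card := by
          refine Finset.card_le_card_of_injOn (fun q => (q.1, q.2.2)) ?_ ?_
          · intro q hq
            have h2 := (memL q).1 (Finset.mem_coe.1 hq)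
            exact Finset.mem_coe.2 (Finset.mem_product.2 ⟨h2.1.1, h2.1.2.2⟩)
          · intro q hq q' hq' e
            have h2 := (memL q).1 (Finset.mem_coe.1 hq)
            have h3 := (memL q').1 (Finset.mem_coe.1 hq')
            obtain ⟨e1, e2⟩ := Prod.mk.inj e
            have e3 : q.2.1 = q'.2.1 := by
              have h4 := h2.2
              rw [e1, h3.2, e2] at h4
              exact (add_right_cancel h4).symm
            exact Prod.ext e1 (Prod.ext e3 e2)
      _ = (Finset.range V.card ×ˢ Finset.range U.card).card := by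
          rw [Finset.card_product, Finset.card_product, Finset.card_range, Finset.card_range]
      _ ≤ K.card := by
          refine Finset.card_le_card_of_injOn (fun k => (k.1, max k.1 k.2, k.2)) ?_ ?_
          · intro k hk
            have h3 := Finset.mem_product.1 (Finset.mem_coe.1 hk)
            rw [Finset.mem_range, Finset.mem_range] at h3
            refine Finset.mem_coe.2 ((memK _).2 ⟨⟨h3.1, ?_, h3.2⟩, gd_max2 _ _⟩)
            show max k.1 k.2 < W.card
            omega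
          · intro k _ k' _ e
            obtain ⟨e1, e2⟩ := Prod.mk.inj e
            exact Prod.ext e1 (Prod.mk.inj e2).2
  · calc L.card ≤ (V ×ˢ W).card := by
          refine Finset.card_le_card_of_injOn (fun q => (q.1, q.2.1)) ?_ ?_
          · intro q hq
            have h2 := (memL q).1 (Finset.mem_coe.1 hq)
            exact Finset.mem_coe.2 (Finset.mem_product.2 ⟨h2.1.1, h2.1.2.1⟩)
          · intro q hq q' hq' e
            have h2 := (memL q).1 (Finset.mem_coe.1 hq)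
            have h3 := (memL q').1 (Finset.mem_coe.1 hq')
            obtain ⟨e1, e2⟩ := Prod.mk.inj e
            have e3 : q.2.2 = q'.2.2 := by
              have h4 := h2.2
              rw [e1, h3.2, e2] at h4
              exact (add_left_cancel h4).symm
            exact Prod.ext e1 (Prod.ext e2 e3)
      _ = (Finset.range V.card ×ˢ Finset.range W.card).card := by
          rw [Finset.card_product, Finset.card_product, Finset.card_range, Finset.card_range]
      _ ≤ K.card := by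
          refine Finset.card_le_card_of_injOn (fun k => (k.1, k.2, max k.1 k.2)) ?_ ?_
          · intro k hk
            have h3 := Finset.mem_product.1 (Finset.mem_coe.1 hk)
            rw [Finset.mem_range, Finset.mem_range] at h3
            refine Finset.mem_coe.2 ((memK _).2 ⟨⟨h3.1, h3.2, ?_⟩, gd_max3 _ _⟩)
            show max k.1 k.2 < U.card
            omega
          · intro k _ k' _ e
            obtain ⟨e1, e2⟩ := Prod.mk.inj e
            exact Prod.ext e1 (Prod.mk.inj e2).1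

/-- **Solutions of `x = y + z`** are at most as many as good triples of order shapes. -/
theorem tri : ∀ (R : ℕ) (S T X : Finset (Fin R → ℤ)),
    (sol3 S T X).card ≤ (gd3 (osh R S) (osh R T) (osh R X)).card := by
  classical
  intro R
  induction R with
  | zero =>
    intro S T X
    have h1 : gd3 (osh 0 S) (osh 0 T) (osh 0 X) = osh 0 S ×ˢ osh 0 T ×ˢ osh 0 X := by
      unfold gd3
      refine Finset.filter_true_of_mem fun q _ j => j.elim0
    rw [h1, Finset.card_product, Finset.card_product, card_osh, card_osh, card_osh]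
    unfold sol3
    refine (Finset.card_filter_le _ _).trans (le_of_eq ?_)
    rw [Finset.card_product, Finset.card_product]
  | succ R ih =>
    intro S T X
    obtain ⟨iS, hiS⟩ : ∃ I : Finset ℤ, I = S.image (fun f => f 0) := ⟨_, rfl⟩
    obtain ⟨iT, hiT⟩ : ∃ I : Finset ℤ, I = T.image (fun f => f 0) := ⟨_, rfl⟩
    obtain ⟨iX, hiX⟩ : ∃ I : Finset ℤ, I = X.image (fun f => f 0) := ⟨_, rfl⟩
    obtain ⟨BS, hBS⟩ : ∃ B, B = iS.biUnion (fun v => osh R (fib S v)) := ⟨_, rfl⟩
    obtain ⟨BT, hBT⟩ : ∃ B, B = iT.biUnion (fun v => osh R (fib T v)) := ⟨_, rfl⟩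
    obtain ⟨BX, hBX⟩ : ∃ B, B = iX.biUnion (fun v => osh R (fib X v)) := ⟨_, rfl⟩
    obtain ⟨W, hW⟩ : ∃ W, W = (iS ×ˢ iT ×ˢ iX).filter (fun v : ℤ × ℤ × ℤ => v.1 = v.2.1 + v.2.2) :=
      ⟨_, rfl⟩
    have memW : ∀ v, v ∈ W ↔ (v.1 ∈ iS ∧ v.2.1 ∈ iT ∧ v.2.2 ∈ iX) ∧ v.1 = v.2.1 + v.2.2 := by
      intro v
      rw [hW, Finset.mem_filter, Finset.mem_product, Finset.mem_product]
    obtain ⟨Rel, hRel⟩ : ∃ Rel : (ℤ × ℤ × ℤ) → ((Fin R → ℕ) × (Fin R → ℕ) × (Fin R → ℕ)) → Prop,
      Rel = fun v b => b.1 ∈ osh R (fib S v.1) ∧ b.2.1 ∈ osh R (fib T v.2.1) ∧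
        b.2.2 ∈ osh R (fib X v.2.2) := ⟨_, rfl⟩
    -- first step
    have step1 : (sol3 S T X).card ≤
        ∑ v ∈ W, (gd3 (osh R (fib S v.1)) (osh R (fib T v.2.1)) (osh R (fib X v.2.2))).card := by
      have hmaps : ∀ q ∈ sol3 S T X, (q.1 0, q.2.1 0, q.2.2 0) ∈ W := by
        intro q hq
        rw [mem_sol3] at hq
        rw [memW, hiS, hiT, hiX]
        refine ⟨⟨Finset.mem_image_of_mem _ hq.1.1, Finset.mem_image_of_mem _ hq.1.2.1,
          Finset.mem_image_of_mem _ hq.1.2.2⟩, ?_⟩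
        show q.1 0 = q.2.1 0 + q.2.2 0
        rw [hq.2]
        rfl
      rw [Finset.card_eq_sum_card_fiberwise hmaps]
      refine Finset.sum_le_sum fun v _ => ?_
      refine le_trans ?_ (ih _ _ _)
      refine Finset.card_le_card_of_injOn (fun q : (Fin (R + 1) → ℤ) × (Fin (R + 1) → ℤ) ×
        (Fin (R + 1) → ℤ) => ((Fin.tail q.1 : Fin R → ℤ), (Fin.tail q.2.1 : Fin R → ℤ),
          (Fin.tail q.2.2 : Fin R → ℤ))) ?_ ?_
      · intro q hq
        have h1 := Finset.mem_filter.1 (Finset.mem_coe.1 hq)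
        have h2 := mem_sol3.1 h1.1
        have h3 : (q.1 0, q.2.1 0, q.2.2 0) = v := h1.2
        refine Finset.mem_coe.2 (mem_sol3.2 ⟨⟨?_, ?_, ?_⟩, ?_⟩)
        · show (Fin.tail q.1 : Fin R → ℤ) ∈ fib S v.1
          rw [mem_fib, ← h3]
          show (Fin.cons (q.1 0) (Fin.tail q.1) : Fin (R + 1) → ℤ) ∈ S
          rw [Fin.cons_self_tail]
          exact h2.1.1
        · show (Fin.tail q.2.1 : Fin R → ℤ) ∈ fib T v.2.1
          rw [mem_fib, ← h3]
          show (Fin.cons (q.2.1 0) (Fin.tail q.2.1) : Fin (R + 1) → ℤ) ∈ T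
          rw [Fin.cons_self_tail]
          exact h2.1.2.1
        · show (Fin.tail q.2.2 : Fin R → ℤ) ∈ fib X v.2.2
          rw [mem_fib, ← h3]
          show (Fin.cons (q.2.2 0) (Fin.tail q.2.2) : Fin (R + 1) → ℤ) ∈ X
          rw [Fin.cons_self_tail]
          exact h2.1.2.2
        · show (Fin.tail q.1 : Fin R → ℤ) = Fin.tail q.2.1 + Fin.tail q.2.2
          rw [h2.2]
          rfl
      · intro q hq q' hq' e
        have h1 := Finset.mem_filter.1 (Finset.mem_coe.1 hq)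
        have h1' := Finset.mem_filter.1 (Finset.mem_coe.1 hq')
        have h3 : (q.1 0, q.2.1 0, q.2.2 0) = (q'.1 0, q'.2.1 0, q'.2.2 0) :=
          (show (q.1 0, q.2.1 0, q.2.2 0) = v from h1.2).trans
            (show (q'.1 0, q'.2.1 0, q'.2.2 0) = v from h1'.2).symm
        obtain ⟨f1, f2⟩ := Prod.mk.inj h3
        obtain ⟨f2, f3⟩ := Prod.mk.inj f2
        obtain ⟨e1, e2⟩ := Prod.mk.inj e
        obtain ⟨e2, e3⟩ := Prod.mk.inj e2
        refine Prod.ext ?_ (Prod.ext ?_ ?_)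
        · rw [← Fin.cons_self_tail q.1, ← Fin.cons_self_tail q'.1, f1, e1]
        · rw [← Fin.cons_self_tail q.2.1, ← Fin.cons_self_tail q'.2.1, f2, e2]
        · rw [← Fin.cons_self_tail q.2.2, ← Fin.cons_self_tail q'.2.2, f3, e3]
    -- second step
    have step2 : ∑ v ∈ W, (gd3 (osh R (fib S v.1)) (osh R (fib T v.2.1))
        (osh R (fib X v.2.2))).card =
        ∑ b ∈ gd3 BS BT BX, (W.filter (fun v => Rel v b)).card := by
      have h1 : ∀ v ∈ W, gd3 (osh R (fib S v.1)) (osh R (fib T v.2.1)) (osh R (fib X v.2.2)) =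
          (gd3 BS BT BX).filter (fun b => Rel v b) := by
        intro v hv
        rw [memW] at hv
        ext b
        rw [mem_gd3, Finset.mem_filter, mem_gd3, hRel, hBS, hBT, hBX]
        constructor
        · rintro ⟨⟨h1, h2, h3⟩, h4⟩
          exact ⟨⟨⟨Finset.mem_biUnion.2 ⟨_, hv.1.1, h1⟩, Finset.mem_biUnion.2 ⟨_, hv.1.2.1, h2⟩,
            Finset.mem_biUnion.2 ⟨_, hv.1.2.2, h3⟩⟩, h4⟩, h1, h2, h3⟩
        · rintro ⟨⟨_, h4⟩, h1, h2, h3⟩
          exact ⟨⟨h1, h2, h3⟩, h4⟩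
      rw [Finset.sum_congr rfl (fun v hv => by rw [h1 v hv])]
      have h2 : ∀ v ∈ W, ((gd3 BS BT BX).filter (fun b => Rel v b)).card =
          ∑ b ∈ gd3 BS BT BX, if Rel v b then 1 else 0 := by
        intro v _
        rw [Finset.card_filter]
      rw [Finset.sum_congr rfl h2, Finset.sum_comm]
      refine Finset.sum_congr rfl fun b _ => ?_
      rw [Finset.card_filter]
    -- third step
    obtain ⟨nS, hnS⟩ : ∃ n : (Fin R → ℕ) → ℕ, n = fun b =>
      (iS.filter (fun v => b ∈ osh R (fib S v))).card := ⟨_, rfl⟩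
    obtain ⟨nT, hnT⟩ : ∃ n : (Fin R → ℕ) → ℕ, n = fun b =>
      (iT.filter (fun v => b ∈ osh R (fib T v))).card := ⟨_, rfl⟩
    obtain ⟨nX, hnX⟩ : ∃ n : (Fin R → ℕ) → ℕ, n = fun b =>
      (iX.filter (fun v => b ∈ osh R (fib X v))).card := ⟨_, rfl⟩
    have step3 : ∀ b ∈ gd3 BS BT BX, (W.filter (fun v => Rel v b)).card ≤
        ((Finset.range (nS b.1) ×ˢ Finset.range (nT b.2.1) ×ˢ Finset.range (nX b.2.2)).filter
          (fun k : ℕ × ℕ × ℕ => gd k.1 k.2.1 k.2.2)).card := by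
      intro b _
      rw [hnS, hnT, hnX]
      refine le_trans (le_of_eq ?_) (one_dim _ _ _)
      congr 1
      ext v
      rw [Finset.mem_filter, memW, Finset.mem_filter, Finset.mem_product, Finset.mem_product,
        Finset.mem_filter, Finset.mem_filter, Finset.mem_filter, hRel]
      constructor
      · rintro ⟨⟨⟨h1, h2, h3⟩, h4⟩, h5, h6, h7⟩
        exact ⟨⟨⟨h1, h5⟩, ⟨h2, h6⟩, ⟨h3, h7⟩⟩, h4⟩
      · rintro ⟨⟨⟨h1, h5⟩, ⟨h2, h6⟩, ⟨h3, h7⟩⟩, h4⟩
        exact ⟨⟨⟨h1, h2, h3⟩, h4⟩, h5, h6, h7⟩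
    refine step1.trans (step2.le.trans ((Finset.sum_le_sum step3).trans ?_))
    rw [← Finset.card_sigma]
    refine Finset.card_le_card_of_injOn (fun x : (_ : (Fin R → ℕ) × (Fin R → ℕ) × (Fin R → ℕ)) ×
      (ℕ × ℕ × ℕ) => ((Fin.cons x.2.1 x.1.1 : Fin (R + 1) → ℕ),
        (Fin.cons x.2.2.1 x.1.2.1 : Fin (R + 1) → ℕ),
        (Fin.cons x.2.2.2 x.1.2.2 : Fin (R + 1) → ℕ))) ?_ ?_
    · rintro ⟨b, k⟩ hx
      have h1 := Finset.mem_sigma.1 (Finset.mem_coe.1 hx)
      have h2 := mem_gd3.1 h1.1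
      have h3 := Finset.mem_filter.1 h1.2
      have h4 := Finset.mem_product.1 h3.1
      have h5 := Finset.mem_product.1 h4.2
      have h6 := Finset.mem_range.1 h4.1
      have h7 := Finset.mem_range.1 h5.1
      have h8 := Finset.mem_range.1 h5.2
      rw [hnS] at h6
      rw [hnT] at h7
      rw [hnX] at h8
      rw [hiS] at h6
      rw [hiT] at h7
      rw [hiX] at h8
      refine Finset.mem_coe.2 (mem_gd3.2 ⟨⟨mem_osh_succ.2 h6, mem_osh_succ.2 h7,
        mem_osh_succ.2 h8⟩, ?_⟩)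
      intro j
      induction j using Fin.cases with
      | zero =>
        simp only [Fin.cons_zero]
        exact h3.2
      | succ j =>
        simp only [Fin.cons_succ]
        exact h2.2 j
    · rintro ⟨b, k⟩ _ ⟨b', k'⟩ _ e
      obtain ⟨e1, e2⟩ := Prod.mk.inj e
      obtain ⟨e2, e3⟩ := Prod.mk.inj e2
      have t1 : ∀ (n n' : ℕ) (f f' : Fin R → ℕ), (Fin.cons n f : Fin (R + 1) → ℕ) = Fin.cons n' f' →
          n = n' ∧ f = f' := by
        intro n n' f f' h
        refine ⟨?_, ?_⟩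
        · have := congrFun h 0
          simpa using this
        · have h2 : (Fin.tail (Fin.cons n f : Fin (R + 1) → ℕ) : Fin R → ℕ) =
            Fin.tail (Fin.cons n' f' : Fin (R + 1) → ℕ) := by rw [h]
          rwa [Fin.tail_cons, Fin.tail_cons] at h2
      obtain ⟨g1, g1'⟩ := t1 _ _ _ _ e1
      obtain ⟨g2, g2'⟩ := t1 _ _ _ _ e2
      obtain ⟨g3, g3'⟩ := t1 _ _ _ _ e3
      have hb : b = b' := Prod.ext g1' (Prod.ext g2' g3')
      have hk : k = k' := Prod.ext g1 (Prod.ext g2 g3)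
      rw [hb, hk]

end Pool.Agent.Helper15.GPR
end

/- Helper24.DI.H15.GPR.Good -/
section
set_option autoImplicit false

/-!
# Project GL++ (MP_120218), Good: the number of good triples of three down-sets
-/

namespace Pool.Agent.Helper15.GPR

open Finset Pool.Agent.Helper15.GPP

/-- the common value of the first two, if it is the maximum -/
def t1 (a b c : ℕ) : ℕ := if a = b ∧ c ≤ a then a else 0

/-- the common value of the first and the third -/
def t2 (a b c : ℕ) : ℕ := if a = b ∧ c ≤ a then 0 else if a = c ∧ b ≤ a then a else 0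

/-- the common value of the last two -/
def t3 (a b c : ℕ) : ℕ := if a = b ∧ c ≤ a then 0 else if a = c ∧ b ≤ a then 0 else b

theorem t12 (a b c : ℕ) : t1 a b c + t2 a b c ≤ a := by
  unfold t1 t2
  split_ifs <;> omega

theorem t13 (a b c : ℕ) : t1 a b c + t3 a b c ≤ b := by
  unfold t1 t3
  split_ifs <;> omega

theorem t23 (a b c : ℕ) (h : gd a b c) : t2 a b c + t3 a b c ≤ c := by
  have h1 := h
  unfold gd at h1
  unfold t2 t3
  split_ifs <;> omega

theorem t_min (a b c : ℕ) (h : gd a b c) : min a (min b c) ≤ t1 a b c + t2 a b c + t3 a b c := by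
  unfold gd at h
  unfold t1 t2 t3
  split_ifs <;> omega

theorem t_inj (a b c a' b' c' : ℕ) (h : gd a b c) (h' : gd a' b' c')
    (h1 : t1 a b c = t1 a' b' c') (h2 : t2 a b c = t2 a' b' c') (h3 : t3 a b c = t3 a' b' c')
    (hm : min a (min b c) = min a' (min b' c')) : a = a' ∧ b = b' ∧ c = c' := by
  unfold gd at h h'
  unfold t1 at h1
  unfold t2 at h2
  unfold t3 at h3
  split_ifs at h1 h2 h3 <;> omega

/-- the points below a point -/
theorem card_below {R : ℕ} (a : Fin R → ℕ) :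
    (Fintype.piFinset (fun j => Finset.range (a j + 1))).card = bx a := by
  rw [Fintype.card_piFinset]
  unfold bx
  exact Finset.prod_congr rfl fun j _ => Finset.card_range _

theorem mem_below {R : ℕ} {a t : Fin R → ℕ} :
    t ∈ Fintype.piFinset (fun j => Finset.range (a j + 1)) ↔ ∀ j, t j ≤ a j := by
  rw [Fintype.mem_piFinset]
  exact forall_congr' fun j => by rw [Finset.mem_range, Nat.lt_succ_iff]

theorem card_pairs {R : ℕ} (D D' : Finset (Fin R → ℕ)) (K : ℕ) (hK : ∀ b ∈ D', bx b ≤ K) :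
    ((D ×ˢ D).filter (fun q => q.1 + q.2 ∈ D')).card ≤ K * D'.card := by
  refine Finset.card_le_mul_card_image_of_maps_to
    (f := fun q : (Fin R → ℕ) × (Fin R → ℕ) => q.1 + q.2)
    (fun q hq => (Finset.mem_filter.1 hq).2) K fun c hc => ?_
  refine le_trans ?_ (hK c hc)
  rw [← card_below c]
  refine Finset.card_le_card_of_injOn (fun q => q.1) ?_ ?_
  · intro q hq
    have h1 := (Finset.mem_filter.1 (Finset.mem_coe.1 hq)).2
    refine Finset.mem_coe.2 (mem_below.2 fun j => ?_)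
    have h2 : q.1 j + q.2 j = c j := congrFun h1 j
    show q.1 j ≤ c j
    omega
  · intro q hq q' hq' e
    have h1 := (Finset.mem_filter.1 (Finset.mem_coe.1 hq)).2
    have h1' := (Finset.mem_filter.1 (Finset.mem_coe.1 hq')).2
    have e' : q.1 = q'.1 := e
    have h2 : q.1 + q.2 = q'.1 + q'.2 := h1.trans h1'.symm
    rw [e'] at h2
    exact Prod.ext e' (add_left_cancel h2)

/-- counting triangles -/
theorem tri_count {α : Type*} [DecidableEq α] (D : Finset α) (E1 E2 : Finset (α × α)) :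
    (∑ e ∈ E2, (D.filter (fun y => (y, e.1) ∈ E1 ∧ (y, e.2) ∈ E1)).card) ^ 2 ≤
      E2.card * E1.card ^ 2 := by
  refine (sq_sum_le_card_mul_sum_sq).trans (Nat.mul_le_mul_left _ ?_)
  rw [sq, ← Finset.card_product]
  have h1 : ∀ e ∈ E2, (D.filter (fun y => (y, e.1) ∈ E1 ∧ (y, e.2) ∈ E1)).card ^ 2 =
      ((D.filter (fun y => (y, e.1) ∈ E1 ∧ (y, e.2) ∈ E1)) ×ˢ
        (D.filter (fun y => (y, e.1) ∈ E1 ∧ (y, e.2) ∈ E1))).card := by
    intro e _
    rw [Finset.card_product, sq]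
  rw [Finset.sum_congr rfl h1, ← Finset.card_sigma]
  refine Finset.card_le_card_of_injOn (fun x : (_ : α × α) × (α × α) =>
    ((x.2.1, x.1.1), (x.2.2, x.1.2))) ?_ ?_
  · rintro ⟨e, y⟩ hx
    have h2 := (Finset.mem_sigma.1 (Finset.mem_coe.1 hx)).2
    have h3 := Finset.mem_product.1 h2
    have h4 := (Finset.mem_filter.1 h3.1).2
    have h5 := (Finset.mem_filter.1 h3.2).2
    exact Finset.mem_coe.2 (Finset.mem_product.2 ⟨h4.1, h5.2⟩)
  · rintro ⟨e, y⟩ _ ⟨e', y'⟩ _ h
    obtain ⟨a1, a2⟩ := Prod.mk.inj h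
    obtain ⟨b1, b2⟩ := Prod.mk.inj a1
    obtain ⟨c1, c2⟩ := Prod.mk.inj a2
    have h1 : e = e' := Prod.ext b2 c2
    have h2 : y = y' := Prod.ext b1 c1
    rw [h1, h2]

/-- **The number of good triples.** -/
theorem gd3_card {R : ℕ} (D D' : Finset (Fin R → ℕ)) (hDD' : D ⊆ D')
    (hdown : ∀ a ∈ D, ∀ b : Fin R → ℕ, (∀ j, b j ≤ a j) → b ∈ D)
    (hdown' : ∀ a ∈ D', ∀ b : Fin R → ℕ, (∀ j, b j ≤ a j) → b ∈ D')
    (K : ℕ) (hK : ∀ b ∈ D', bx b ≤ K) :
    (gd3 D D D').card ^ 2 ≤ K ^ 9 * D.card ^ 2 * D'.card := by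
  obtain ⟨E1, hE1⟩ : ∃ E, E = (D ×ˢ D).filter (fun q => q.1 + q.2 ∈ D) := ⟨_, rfl⟩
  obtain ⟨E2, hE2⟩ : ∃ E, E = (D ×ˢ D).filter (fun q => q.1 + q.2 ∈ D') := ⟨_, rfl⟩
  have c1 : E1.card ≤ K * D.card := by
    rw [hE1]
    exact card_pairs D D K fun b hb => hK b (hDD' hb)
  have c2 : E2.card ≤ K * D'.card := by
    rw [hE2]
    exact card_pairs D D' K hK
  have c3 := tri_count D E1 E2
  obtain ⟨Y, hY⟩ : ∃ Y, Y = E2.sigma (fun e => D.filter (fun y => (y, e.1) ∈ E1 ∧ (y, e.2) ∈ E1)) :=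
    ⟨_, rfl⟩
  rw [← Finset.card_sigma, ← hY] at c3
  have c4 : (gd3 D D D').card ≤ K ^ 3 * Y.card := by
    refine Finset.card_le_mul_card_image_of_maps_to
      (f := fun q => (⟨((fun j => t2 (q.1 j) (q.2.1 j) (q.2.2 j)),
        (fun j => t3 (q.1 j) (q.2.1 j) (q.2.2 j))), fun j => t1 (q.1 j) (q.2.1 j) (q.2.2 j)⟩ :
        (_ : (Fin R → ℕ) × (Fin R → ℕ)) × (Fin R → ℕ))) ?_ (K ^ 3) ?_
    · intro q hq
      rw [mem_gd3] at hq
      obtain ⟨⟨ha, hb, hc⟩, hg⟩ := hq
      have s12 : (fun j => t1 (q.1 j) (q.2.1 j) (q.2.2 j)) +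
          (fun j => t2 (q.1 j) (q.2.1 j) (q.2.2 j)) ∈ D :=
        hdown _ ha _ fun j => t12 _ _ _
      have s13 : (fun j => t1 (q.1 j) (q.2.1 j) (q.2.2 j)) +
          (fun j => t3 (q.1 j) (q.2.1 j) (q.2.2 j)) ∈ D :=
        hdown _ hb _ fun j => t13 _ _ _
      have s23 : (fun j => t2 (q.1 j) (q.2.1 j) (q.2.2 j)) +
          (fun j => t3 (q.1 j) (q.2.1 j) (q.2.2 j)) ∈ D' :=
        hdown' _ hc _ fun j => t23 _ _ _ (hg j)
      have s1 : (fun j => t1 (q.1 j) (q.2.1 j) (q.2.2 j)) ∈ D :=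
        hdown _ s12 _ fun j => Nat.le_add_right _ _
      have s2 : (fun j => t2 (q.1 j) (q.2.1 j) (q.2.2 j)) ∈ D :=
        hdown _ s12 _ fun j => Nat.le_add_left _ _
      have s3 : (fun j => t3 (q.1 j) (q.2.1 j) (q.2.2 j)) ∈ D :=
        hdown _ s13 _ fun j => Nat.le_add_left _ _
      rw [hY, Finset.mem_sigma]
      refine ⟨?_, ?_⟩
      · rw [hE2, Finset.mem_filter, Finset.mem_product]
        exact ⟨⟨s2, s3⟩, s23⟩
      · rw [Finset.mem_filter, hE1, Finset.mem_filter, Finset.mem_filter, Finset.mem_product,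
          Finset.mem_product]
        exact ⟨s1, ⟨⟨s1, s2⟩, s12⟩, ⟨⟨s1, s3⟩, s13⟩⟩
    · rintro ⟨⟨y2, y3⟩, y1⟩ hy
      rw [hY, Finset.mem_sigma] at hy
      obtain ⟨hy23, hy1⟩ := hy
      rw [hE2, Finset.mem_filter, Finset.mem_product] at hy23
      have hy1D := (Finset.mem_filter.1 hy1).1
      have b1 := hK y1 (hDD' hy1D)
      have b2 := hK y2 (hDD' hy23.1.1)
      have b3 := hK y3 (hDD' hy23.1.2)
      have hbx : bx (y1 + y2 + y3) ≤ K ^ 3 := by
        calc bx (y1 + y2 + y3) ≤ bx y1 * bx y2 * bx y3 := by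
              unfold bx
              rw [← Finset.prod_mul_distrib, ← Finset.prod_mul_distrib]
              refine Finset.prod_le_prod' fun j _ => ?_
              show y1 j + y2 j + y3 j + 1 ≤ _
              nlinarith only [Nat.zero_le (y1 j * y2 j * y3 j)]
          _ ≤ K * K * K := Nat.mul_le_mul (Nat.mul_le_mul b1 b2) b3
          _ = K ^ 3 := by ring
      refine le_trans ?_ hbx
      rw [← card_below (y1 + y2 + y3)]
      refine Finset.card_le_card_of_injOn (fun q => fun j => min (q.1 j) (min (q.2.1 j) (q.2.2 j)))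
        ?_ ?_
      · intro q hq
        have h1 := Finset.mem_filter.1 (Finset.mem_coe.1 hq)
        have h2 := (mem_gd3.1 h1.1).2
        refine Finset.mem_coe.2 (mem_below.2 fun j => ?_)
        have h3 := Sigma.mk.inj_iff.1 h1.2
        have h4 := Prod.mk.inj h3.1
        have e1 : (fun j => t1 (q.1 j) (q.2.1 j) (q.2.2 j)) = y1 := eq_of_heq h3.2
        rw [← h4.1, ← h4.2, ← e1]
        exact t_min _ _ _ (h2 j)
      · intro q hq q' hq' e
        have h1 := Finset.mem_filter.1 (Finset.mem_coe.1 hq)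
        have h1' := Finset.mem_filter.1 (Finset.mem_coe.1 hq')
        have g := (mem_gd3.1 h1.1).2
        have g' := (mem_gd3.1 h1'.1).2
        have h3 := Sigma.mk.inj_iff.1 (h1.2.trans h1'.2.symm)
        have h4 := Prod.mk.inj h3.1
        have e1 := eq_of_heq h3.2
        have key : ∀ j, q.1 j = q'.1 j ∧ q.2.1 j = q'.2.1 j ∧ q.2.2 j = q'.2.2 j := fun j =>
          t_inj _ _ _ _ _ _ (g j) (g' j) (congrFun e1 j) (congrFun h4.1 j) (congrFun h4.2 j)
            (congrFun e j)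
        exact Prod.ext (funext fun j => (key j).1)
          (Prod.ext (funext fun j => (key j).2.1) (funext fun j => (key j).2.2))
  calc (gd3 D D D').card ^ 2 ≤ (K ^ 3 * Y.card) ^ 2 := Nat.pow_le_pow_left c4 2
    _ = K ^ 6 * Y.card ^ 2 := by ring
    _ ≤ K ^ 6 * (E2.card * E1.card ^ 2) := Nat.mul_le_mul_left _ c3
    _ ≤ K ^ 6 * ((K * D'.card) * (K * D.card) ^ 2) :=
        Nat.mul_le_mul_left _ (Nat.mul_le_mul c2 (Nat.pow_le_pow_left c1 2))
    _ = K ^ 9 * D.card ^ 2 * D'.card := by ring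

end Pool.Agent.Helper15.GPR
end

/- Helper24.DI.H28.GPP.Plun -/
section
set_option autoImplicit false

/-!
MP_120218_co, GL++: the Pluennecke part.
-/

open Finset Pointwise

namespace Pool.Agent.Helper28.GPP

section
variable {G : Type} [CommGroup G] [DecidableEq G]

/-- Petridis: for a minimiser of the growth ratio -/
theorem mul_pow_le {R B : Finset G}
    (h : ∀ R' ⊆ R, #(R * B) * #R' ≤ #(R' * B) * #R) (n : ℕ) :
    ((#(R * B ^ n) : ℕ) : ℝ) ≤ ((#(R * B) : ℝ) / (#R : ℝ)) ^ n * (#R : ℝ) := by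
  obtain rfl | hR := R.eq_empty_or_nonempty
  · simp
  have hR0 : (0 : ℝ) < (#R : ℝ) := by exact_mod_cast hR.card_pos
  induction n with
  | zero => simp
  | succ n ih =>
    refine le_of_mul_le_mul_right ?_ hR0
    have h1 : #(R * B ^ (n + 1)) * #R ≤ #(R * B) * #(B ^ n * R) := by
      have := pluennecke_petridis_inequality_mul (A := R) (B := B) (B ^ n) h
      have e : B ^ n * R * B = R * B ^ (n + 1) := by
        rw [pow_succ, mul_comm (B ^ n) R, mul_assoc]
      rwa [e] at this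
    have h1' : ((#(R * B ^ (n + 1)) : ℕ) : ℝ) * (#R : ℝ) ≤ (#(R * B) : ℝ) * (#(B ^ n * R) : ℝ) := by
      exact_mod_cast h1
    calc ((#(R * B ^ (n + 1)) : ℕ) : ℝ) * (#R : ℝ) ≤ (#(R * B) : ℝ) * (#(B ^ n * R) : ℝ) := h1'
      _ ≤ (#(R * B) : ℝ) * (((#(R * B) : ℝ) / (#R : ℝ)) ^ n * (#R : ℝ)) := by
          rw [mul_comm (B ^ n) R]
          exact mul_le_mul_of_nonneg_left ih (by (clear * -; positivity))
      _ = ((#(R * B) : ℝ) / (#R : ℝ)) ^ (n + 1) * (#R : ℝ) * (#R : ℝ) := by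
          rw [pow_succ]
          (clear * - hR; field_simp)

/-- every set contains a non-empty subset with small growth -/
theorem exists_small {R B : Finset G} (hR : R.Nonempty) (K : ℝ)
    (hK : (#(R * B) : ℝ) ≤ K * (#R : ℝ)) (m : ℕ) :
    ∃ R' ⊆ R, R'.Nonempty ∧ (#(R' * B ^ m) : ℝ) ≤ K ^ m * (#R' : ℝ) := by
  have hR' : R ∈ R.powerset.erase ∅ := mem_erase_of_ne_of_mem hR.ne_empty (mem_powerset_self _)
  obtain ⟨U, hU, hUmin⟩ :=
    exists_min_image (R.powerset.erase ∅) (fun U ↦ (#(U * B) : ℝ) / (#U : ℝ)) ⟨R, hR'⟩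
  rw [mem_erase, mem_powerset, ← nonempty_iff_ne_empty] at hU
  obtain ⟨hU0, hUR⟩ := hU
  have hR0 : (0 : ℝ) < (#R : ℝ) := by exact_mod_cast hR.card_pos
  have hU0' : (0 : ℝ) < (#U : ℝ) := by exact_mod_cast hU0.card_pos
  refine ⟨U, hUR, hU0, ?_⟩
  have hmin : ∀ U' ⊆ U, #(U * B) * #U' ≤ #(U' * B) * #U := by
    intro U' hU'
    obtain rfl | hne := U'.eq_empty_or_nonempty
    · simp
    have hne' : (0 : ℝ) < (#U' : ℝ) := by exact_mod_cast hne.card_pos
    have := hUmin U' (mem_erase_of_ne_of_mem hne.ne_empty (mem_powerset.2 (hU'.trans hUR)))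
    rw [div_le_div_iff₀ hU0' hne'] at this
    exact_mod_cast this
  have h1 := mul_pow_le (R := U) (B := B) hmin m
  refine h1.trans ?_
  have h2 : (#(U * B) : ℝ) / (#U : ℝ) ≤ K := by
    refine (hUmin R hR').trans ?_
    rw [div_le_iff₀ hR0]
    exact hK
  have h3 : (0 : ℝ) ≤ (#(U * B) : ℝ) / (#U : ℝ) := by (clear * - hU0; positivity)
  exact mul_le_mul_of_nonneg_right (pow_le_pow_left₀ h3 h2 m) (by (clear * - hU0; positivity))

/-- half of the set has small growth -/
theorem exists_half {A B : Finset G} (K : ℝ) (hK : (#(A * B) : ℝ) ≤ K * (#A : ℝ)) (hK0 : 0 ≤ K)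
    (m : ℕ) :
    ∃ A' ⊆ A, #A ≤ 2 * #A' ∧ (#(A' * B ^ m) : ℝ) ≤ (2 * K) ^ m * (#A' : ℝ) := by
  have hne : (A.powerset.filter (fun S => (#(S * B ^ m) : ℝ) ≤ (2 * K) ^ m * (#S : ℝ))).Nonempty := by
    refine ⟨∅, ?_⟩
    simp
  obtain ⟨S, hS, hSmax⟩ := exists_max_image _ (fun S => #S) hne
  rw [mem_filter, mem_powerset] at hS
  refine ⟨S, hS.1, ?_, hS.2⟩
  by_contra hcon
  push Not at hcon
  have hc : #(A \ S) + #S = #A := card_sdiff_add_card_eq_card hS.1
  have hlt : #A < 2 * #(A \ S) := by omega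
  have hRne : (A \ S).Nonempty := by
    rw [← card_pos]
    omega
  have hRK : (#((A \ S) * B) : ℝ) ≤ (2 * K) * (#(A \ S) : ℝ) := by
    have h1 : (#((A \ S) * B) : ℝ) ≤ (#(A * B) : ℝ) := by
      exact_mod_cast card_le_card (mul_subset_mul_right sdiff_subset)
    have h2 : (#A : ℝ) ≤ 2 * (#(A \ S) : ℝ) := by exact_mod_cast hlt.le
    calc (#((A \ S) * B) : ℝ) ≤ K * (#A : ℝ) := h1.trans hK
      _ ≤ K * (2 * (#(A \ S) : ℝ)) := mul_le_mul_of_nonneg_left h2 hK0
      _ = (2 * K) * (#(A \ S) : ℝ) := by ring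
  obtain ⟨R', hR', hR'ne, hR'le⟩ := exists_small hRne (2 * K) hRK m
  have hdisj : Disjoint S R' := by
    rw [Finset.disjoint_left]
    intro x hx hx'
    exact (mem_sdiff.1 (hR' hx')).2 hx
  have hmem : S ∪ R' ∈ A.powerset.filter
      (fun S => (#(S * B ^ m) : ℝ) ≤ (2 * K) ^ m * (#S : ℝ)) := by
    rw [mem_filter, mem_powerset]
    refine ⟨union_subset hS.1 (hR'.trans sdiff_subset), ?_⟩
    rw [union_mul, card_union_of_disjoint hdisj]
    have h1 : (#(S * B ^ m ∪ R' * B ^ m) : ℝ) ≤ (#(S * B ^ m) : ℝ) + (#(R' * B ^ m) : ℝ) := by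
      exact_mod_cast card_union_le _ _
    push_cast
    (clear * - hS hR'le h1; linarith only [hS, hR'le, h1])
  have h4 := hSmax _ hmem
  rw [card_union_of_disjoint hdisj] at h4
  have := hR'ne.card_pos
  omega

theorem card_mul_pow_mono {A B : Finset G} (hB : B.Nonempty) {a b : ℕ} (hab : a ≤ b) :
    #(A * B ^ a) ≤ #(A * B ^ b) := by
  obtain ⟨c, rfl⟩ := Nat.exists_eq_add_of_le hab
  rw [pow_add, ← mul_assoc]
  exact card_le_card_mul_right (hB.pow)

end

theorem structured (κ : ℝ) (hκ : 0 < κ) : ∃ τ N0 : ℝ, 0 < τ ∧ 1 ≤ N0 ∧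
   ∀ (G : Type) [CommGroup G] [DecidableEq G] (A B : Finset G), B.Nonempty → N0 ≤ A.card →
     ((A * B).card : ℝ) ≤ (A.card : ℝ) ^ (1 + τ) →
     ∃ A' H : Finset G, A' ⊆ A ∧ (A.card : ℝ) ≤ 2 * A'.card ∧ B.card ≤ H.card ∧
       ((H * H).card : ℝ) ≤ (A.card : ℝ) ^ κ * H.card ∧
       ((A' * H).card : ℝ) ≤ (A.card : ℝ) ^ κ * A'.card := by
  -- kappa' = min kappa 1
  obtain ⟨κ', hκ'0, hκ'κ, hκ'1⟩ : ∃ κ' : ℝ, 0 < κ' ∧ κ' ≤ κ ∧ κ' ≤ 1 :=
    ⟨min κ 1, lt_min hκ one_pos, min_le_left _ _, min_le_right _ _⟩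
  obtain ⟨I, hI⟩ : ∃ I : ℕ, 2 / κ' < (I : ℝ) := exists_nat_gt _
  have hI' : 2 < κ' * I := by
    rw [div_lt_iff₀ hκ'0] at hI
    (clear * - hI; linarith only [hI])
  set m : ℕ := 2 ^ I with hm
  have hm0 : 0 < m := by positivity
  have hmR : (0 : ℝ) < (m : ℝ) := by exact_mod_cast hm0
  refine ⟨κ' / (2 * m), (2 : ℝ) ^ (2 * (m : ℝ) / κ'), by (clear * - hκ'0; positivity),
    Real.one_le_rpow (by norm_num) (by (clear * - hκ'0; positivity)), ?_⟩
  intro G _ _ A B hB hN hAB
  set N : ℝ := (#A : ℝ) with hNdef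
  have hN01 : (1 : ℝ) ≤ (2 : ℝ) ^ (2 * (m : ℝ) / κ') := Real.one_le_rpow (by norm_num) (by (clear * - hκ'0; positivity))
  have hN1 : 1 ≤ N := hN01.trans hN
  have hN0 : 0 < N := by (clear * - hN1; linarith only [hN1])
  -- 2 ^ m ≤ N ^ (kappa' / 2)
  have h2m : (2 : ℝ) ^ m ≤ N ^ (κ' / 2) := by
    have h1 : ((2 : ℝ) ^ (2 * (m : ℝ) / κ')) ^ (κ' / 2) ≤ N ^ (κ' / 2) :=
      Real.rpow_le_rpow (by positivity) hN (by positivity)
    rw [← Real.rpow_mul (by norm_num)] at h1
    have e : 2 * (m : ℝ) / κ' * (κ' / 2) = m := by (clear * - hκ'0 hm0; field_simp)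
    rw [e, Real.rpow_natCast] at h1
    exact h1
  set K : ℝ := N ^ (κ' / (2 * m)) with hKdef
  have hK0 : 0 < K := Real.rpow_pos_of_pos hN0 _
  have hKm : K ^ m = N ^ (κ' / 2) := by
    rw [hKdef, ← Real.rpow_natCast, ← Real.rpow_mul hN0.le]
    congr 1
    (clear * - hm0 hκ'0; field_simp)
  have h2K : (2 * K) ^ m ≤ N ^ κ' := by
    rw [mul_pow, hKm]
    calc (2 : ℝ) ^ m * N ^ (κ' / 2) ≤ N ^ (κ' / 2) * N ^ (κ' / 2) :=
          mul_le_mul_of_nonneg_right h2m (by (clear * - hN1; positivity))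
      _ = N ^ κ' := by rw [← Real.rpow_add hN0]; congr 1; ring
  have hABK : (#(A * B) : ℝ) ≤ K * (#A : ℝ) := by
    refine hAB.trans (le_of_eq ?_)
    rw [hKdef, Real.rpow_add hN0, Real.rpow_one]
    ring
  obtain ⟨A', hA'A, hA'2, hA'le⟩ := exists_half K hABK hK0.le m
  have hA'pos : 0 < #A' := by
    have : (1 : ℕ) ≤ #A := by
      have h1 : (1 : ℝ) ≤ (#A : ℝ) := hN1
      exact_mod_cast h1
    omega
  have hA'ne : A'.Nonempty := card_pos.1 hA'pos
  have hA'R : (0 : ℝ) < (#A' : ℝ) := by exact_mod_cast hA'pos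
  have hNκ : N ^ κ' ≤ N ^ κ := Real.rpow_le_rpow_of_exponent_le hN1 hκ'κ
  have hgrow : ∀ i ≤ I, (#(A' * B ^ (2 ^ i)) : ℝ) ≤ N ^ κ * (#A' : ℝ) := by
    intro i hi
    have h1 : (#(A' * B ^ (2 ^ i)) : ℝ) ≤ (#(A' * B ^ m) : ℝ) := by
      exact_mod_cast card_mul_pow_mono hB (Nat.pow_le_pow_right (by norm_num) hi)
    refine h1.trans (hA'le.trans ?_)
    exact mul_le_mul_of_nonneg_right (h2K.trans hNκ) hA'R.le
  -- pigeonhole
  have hpig : ∃ i < I, (#(B ^ (2 ^ (i + 1))) : ℝ) ≤ N ^ κ' * (#(B ^ (2 ^ i)) : ℝ) := by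
    by_contra hcon
    push Not at hcon
    have hind : ∀ i ≤ I, (N ^ κ') ^ i ≤ (#(B ^ (2 ^ i)) : ℝ) := by
      intro i
      induction i with
      | zero =>
        intro _
        have := hB.card_pos
        simp only [pow_zero, pow_one]
        exact_mod_cast this
      | succ i ih =>
        intro hi
        have h1 := hcon i (by omega)
        have h2 := ih (by omega)
        calc (N ^ κ') ^ (i + 1) = N ^ κ' * (N ^ κ') ^ i := by ring
          _ ≤ N ^ κ' * (#(B ^ (2 ^ i)) : ℝ) := mul_le_mul_of_nonneg_left h2 (by (clear * - hN1; positivity))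
          _ ≤ (#(B ^ (2 ^ (i + 1))) : ℝ) := h1.le
    have h3 := hind I le_rfl
    have h4 : (#(B ^ (2 ^ I)) : ℝ) ≤ (#(A' * B ^ m) : ℝ) := by
      have := card_le_card_mul_left (t := B ^ m) hA'ne
      exact_mod_cast this
    have h5 : (#A' : ℝ) ≤ N := by
      rw [hNdef]
      exact_mod_cast card_le_card hA'A
    have h6 : (#(B ^ (2 ^ I)) : ℝ) ≤ N ^ (2 : ℝ) := by
      calc (#(B ^ (2 ^ I)) : ℝ) ≤ (2 * K) ^ m * (#A' : ℝ) := h4.trans hA'le
        _ ≤ N ^ κ' * N := mul_le_mul h2K h5 hA'R.le (by (clear * - hN1; positivity))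
        _ ≤ N ^ (1 : ℝ) * N ^ (1 : ℝ) := by
            refine mul_le_mul (Real.rpow_le_rpow_of_exponent_le hN1 hκ'1) (by rw [Real.rpow_one])
              hN0.le (by (clear * - hN1; positivity))
        _ = N ^ (2 : ℝ) := by rw [← Real.rpow_add hN0]; norm_num
    have h7 : (N ^ κ') ^ I = N ^ (κ' * I) := by
      rw [← Real.rpow_natCast, ← Real.rpow_mul hN0.le]
    rw [h7] at h3
    -- N > 1
    have hNgt : 1 < N := by
      refine lt_of_lt_of_le ?_ hN
      exact Real.one_lt_rpow (by norm_num) (by positivity)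
    have h8 : N ^ (2 : ℝ) < N ^ (κ' * I) := Real.rpow_lt_rpow_of_exponent_lt hNgt hI'
    linarith only [h3, h6, h8]
  obtain ⟨i, hiI, hi⟩ := hpig
  refine ⟨A', B ^ (2 ^ i), hA'A, ?_, ?_, ?_, hgrow i hiI.le⟩
  · rw [hNdef]
    exact_mod_cast hA'2
  · have := card_mul_pow_mono (A := (1 : Finset G)) hB (a := 1) (b := 2 ^ i) (Nat.one_le_two_pow)
    simpa using this
  · have e : B ^ (2 ^ i) * B ^ (2 ^ i) = B ^ (2 ^ (i + 1)) := by
      rw [← pow_add]
      congr 1
      ring
    rw [e]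
    exact hi.trans (mul_le_mul_of_nonneg_right hNκ (by (clear * -; positivity)))

end Pool.Agent.Helper28.GPP
end

/- Helper24.DI.H15.GPQ.Box -/
section
set_option autoImplicit false

/-!
# Project GL++ (MP_120218), Box: the powers of a set of positive rationals
-/

namespace Pool.Agent.Helper15.GPQ

open Finset Pool.Agent.Helper15.GPP Pool.Agent.Helper15.GLP
open scoped Pointwise

/-- the vector of valuations -/
def vv {R : ℕ} (q : Fin R → ℕ) (x : ℚˣ) : Fin R → ℤ := fun j => padicValRat (q j) (x : ℚ)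

theorem vv_mul {R : ℕ} (q : Fin R → ℕ) (hq : ∀ j, (q j).Prime) (x y : ℚˣ) :
    vv q (x * y) = vv q x + vv q y := by
  funext j
  have := Fact.mk (hq j)
  show padicValRat (q j) ((x * y : ℚˣ) : ℚ) = padicValRat (q j) (x : ℚ) + padicValRat (q j) (y : ℚ)
  rw [Units.val_mul]
  exact padicValRat.mul x.ne_zero y.ne_zero

theorem vv_one {R : ℕ} (q : Fin R → ℕ) : vv q 1 = 0 := by
  funext j
  show padicValRat (q j) ((1 : ℚˣ) : ℚ) = 0
  rw [Units.val_one, padicValRat.one]

theorem js_image {R : ℕ} (q : Fin R → ℕ) (hq : ∀ j, (q j).Prime) (B : Finset ℚˣ) (n : ℕ) :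
    (B ^ n).image (vv q) = js (B.image (vv q)) n := by
  induction n with
  | zero =>
    rw [pow_zero]
    show (1 : Finset ℚˣ).image (vv q) = {0}
    rw [← vv_one q]
    exact Finset.image_singleton _ _
  | succ n ih =>
    rw [pow_succ]
    show (B ^ n * B).image (vv q) = Finset.image₂ (fun x y => x + y) (js (B.image (vv q)) n)
      (B.image (vv q))
    rw [← ih]
    ext z
    constructor
    · intro hz
      obtain ⟨w, hw, rfl⟩ := Finset.mem_image.1 hz
      obtain ⟨x, hx, y, hy, rfl⟩ := Finset.mem_mul.1 hw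
      rw [vv_mul q hq]
      exact Finset.mem_image₂_of_mem (Finset.mem_image_of_mem _ hx) (Finset.mem_image_of_mem _ hy)
    · intro hz
      obtain ⟨x', hx', y', hy', rfl⟩ := Finset.mem_image₂.1 hz
      obtain ⟨x, hx, rfl⟩ := Finset.mem_image.1 hx'
      obtain ⟨y, hy, rfl⟩ := Finset.mem_image.1 hy'
      exact Finset.mem_image.2 ⟨x * y, Finset.mul_mem_mul hx hy, vv_mul q hq x y⟩

/-- the primes of a set of positive rationals -/
theorem exists_primes (P : Finset ℚ) (hpos : ∀ s ∈ P, 0 < s) :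
    ∃ (R : ℕ) (q : Fin R → ℕ), (∀ j, (q j).Prime) ∧ ∀ n : ℕ, (∀ x ∈ (P.image ut) ^ n, 0 < (x : ℚ)) ∧
      Set.InjOn (vv q) (((P.image ut) ^ n : Finset ℚˣ) : Set ℚˣ) := by
  classical
  obtain ⟨Q, hQ⟩ : ∃ Q : Finset ℕ, Q = P.biUnion (fun h =>
    h.num.natAbs.primeFactors ∪ h.den.primeFactors) := ⟨_, rfl⟩
  obtain ⟨R, hR⟩ : ∃ R : ℕ, Q.card = R := ⟨_, rfl⟩
  obtain ⟨q, hq⟩ : ∃ q : Fin R → ℕ, q = fun j => Q.orderEmbOfFin hR j := ⟨_, rfl⟩
  have hqQ : ∀ j, q j ∈ Q := by
    intro j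
    rw [hq]
    exact Finset.orderEmbOfFin_mem Q hR j
  have hqp : ∀ j, (q j).Prime := by
    intro j
    have h1 := hqQ j
    rw [hQ, Finset.mem_biUnion] at h1
    obtain ⟨h, _, h2⟩ := h1
    rcases Finset.mem_union.1 h2 with h3 | h3
    · exact (Nat.mem_primeFactors.1 h3).1
    · exact (Nat.mem_primeFactors.1 h3).1
  have hqs : ∀ p ∈ Q, ∃ j, q j = p := by
    intro p hp
    have h1 : p ∈ Set.range (Q.orderEmbOfFin hR) := by
      rw [Finset.range_orderEmbOfFin]
      exact hp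
    obtain ⟨j, hj⟩ := h1
    exact ⟨j, by rw [hq]; exact hj⟩
  have key : ∀ n : ℕ, ∀ x ∈ (P.image ut) ^ n, 0 < (x : ℚ) ∧
      ∀ p : ℕ, p.Prime → p ∉ Q → padicValRat p (x : ℚ) = 0 := by
    intro n
    induction n with
    | zero =>
      intro x hx
      rw [pow_zero, Finset.mem_one] at hx
      rw [hx, Units.val_one]
      exact ⟨one_pos, fun p _ _ => padicValRat.one⟩
    | succ n ih =>
      intro x hx
      rw [pow_succ] at hx
      obtain ⟨y, hy, z, hz, rfl⟩ := Finset.mem_mul.1 hx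
      obtain ⟨s, hs, rfl⟩ := Finset.mem_image.1 hz
      obtain ⟨h1, h2⟩ := ih y hy
      have h3 := hpos s hs
      rw [Units.val_mul, ut_val h3.ne']
      refine ⟨mul_pos h1 h3, fun p hp hpQ => ?_⟩
      have := Fact.mk hp
      rw [padicValRat.mul h1.ne' h3.ne', h2 p hp hpQ, zero_add]
      have h4 : p ∉ s.num.natAbs.primeFactors ∪ s.den.primeFactors := by
        intro h4
        exact hpQ (by rw [hQ]; exact Finset.mem_biUnion.2 ⟨s, hs, h4⟩)
      rw [Finset.mem_union, not_or] at h4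
      exact padicValRat_eq_zero p hp s h3.ne' h4.1 h4.2
  refine ⟨R, q, hqp, fun n => ⟨fun x hx => (key n x hx).1, ?_⟩⟩
  intro x hx y hy hxy
  obtain ⟨hx1, hx2⟩ := key n x (Finset.mem_coe.1 hx)
  obtain ⟨hy1, hy2⟩ := key n y (Finset.mem_coe.1 hy)
  have h1 : (x : ℚ) / y = 1 := by
    refine Pool.Agent.Helper15.GL.eq_one_of_val _ (div_pos hx1 hy1) fun p hp => ?_
    have := Fact.mk hp
    rw [padicValRat.div hx1.ne' hy1.ne']
    by_cases hpQ : p ∈ Q
    · obtain ⟨j, rfl⟩ := hqs p hpQ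
      have h3 : padicValRat (q j) (x : ℚ) = padicValRat (q j) (y : ℚ) := congrFun hxy j
      rw [h3, sub_self]
    · rw [hx2 p hp hpQ, hy2 p hp hpQ, sub_self]
  exact Units.ext ((div_eq_one_iff_eq hy1.ne').1 h1)

/-- **Boxes** in the order shape of the multiples give subsets of the powers whose elements are
determined by few valuations. -/
theorem box_set (P : Finset ℚ) (hP : P.Nonempty) (hpos : ∀ s ∈ P, 0 < s) :
    ∃ (R : ℕ) (S : Finset (Fin R → ℤ)), S.Nonempty ∧ S.card = P.card ∧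
      (∀ n : ℕ, (js S n).card = ((P.image ut) ^ n).card) ∧
      ∀ (n : ℕ), ∀ a ∈ osh R (js S n), ∀ b : Fin R → ℕ, (∀ j, b j ≤ a j) →
        ∃ (pr : Fin (sup b) → ℕ) (Q : Finset ℚ), (∀ i, (pr i).Prime) ∧ Q.card = bx b ∧
          (∀ s ∈ Q, 0 < s) ∧ (∀ s ∈ Q, ∃ x ∈ (P.image ut) ^ n, (x : ℚ) = s) ∧
          ∀ s ∈ Q, ∀ t ∈ Q, (∀ i, padicValRat (pr i) s = padicValRat (pr i) t) → s = t := by
  classical
  obtain ⟨R, q, hq, hq2⟩ := exists_primes P hpos
  have hcard : ∀ n : ℕ, (js ((P.image ut).image (vv q)) n).card = ((P.image ut) ^ n).card := by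
    intro n
    rw [← js_image q hq, Finset.card_image_of_injOn (hq2 n).2]
  refine ⟨R, (P.image ut).image (vv q), (hP.image _).image _, ?_, hcard, ?_⟩
  · have h1 := hcard 1
    rw [js_one_card, pow_one] at h1
    rw [h1, Finset.card_image_of_injOn]
    intro x hx y hy hxy
    exact ut_inj (hpos x (Finset.mem_coe.1 hx)).ne' (hpos y (Finset.mem_coe.1 hy)).ne' hxy
  · intro n a ha b hba
    obtain ⟨L, hLS, hLc, hL⟩ := leaves _ b ((osh_tr R _ a ha).mono hba)
    obtain ⟨J, hJ⟩ : ∃ J : Finset (Fin R), J = Finset.univ.filter (fun j => b j ≠ 0) := ⟨_, rfl⟩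
    have hr : J.card = sup b := by rw [hJ]; rfl
    obtain ⟨Qu, hQu⟩ : ∃ Qu : Finset ℚˣ, Qu = ((P.image ut) ^ n).filter (fun x => vv q x ∈ L) :=
      ⟨_, rfl⟩
    have memQu : ∀ x, x ∈ Qu ↔ x ∈ (P.image ut) ^ n ∧ vv q x ∈ L := by
      intro x
      rw [hQu, Finset.mem_filter]
    have hQuL : Qu.image (vv q) = L := by
      ext l
      rw [Finset.mem_image]
      constructor
      · rintro ⟨x, hx, rfl⟩
        exact ((memQu x).1 hx).2
      · intro hl
        have h1 := hLS hl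
        rw [← js_image q hq] at h1
        obtain ⟨x, hx, rfl⟩ := Finset.mem_image.1 h1
        exact ⟨x, (memQu x).2 ⟨hx, hl⟩, rfl⟩
    have hQuc : Qu.card = bx b := by
      rw [← hLc, ← hQuL, Finset.card_image_of_injOn]
      intro x hx y hy hxy
      exact (hq2 n).2 (Finset.mem_coe.2 ((memQu x).1 (Finset.mem_coe.1 hx)).1)
        (Finset.mem_coe.2 ((memQu y).1 (Finset.mem_coe.1 hy)).1) hxy
    refine ⟨fun i => q (J.orderEmbOfFin hr i), Qu.image (fun x : ℚˣ => (x : ℚ)), fun i => hq _,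
      ?_, ?_, ?_, ?_⟩
    · rw [Finset.card_image_of_injective _ Units.val_injective, hQuc]
    · intro s hs
      obtain ⟨x, hx, rfl⟩ := Finset.mem_image.1 hs
      exact (hq2 n).1 x ((memQu x).1 hx).1
    · intro s hs
      obtain ⟨x, hx, rfl⟩ := Finset.mem_image.1 hs
      exact ⟨x, ((memQu x).1 hx).1, rfl⟩
    · intro s hs t ht hst
      obtain ⟨x, hx, rfl⟩ := Finset.mem_image.1 hs
      obtain ⟨y, hy, rfl⟩ := Finset.mem_image.1 ht
      obtain ⟨hx1, hx2⟩ := (memQu x).1 hx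
      obtain ⟨hy1, hy2⟩ := (memQu y).1 hy
      have h1 : vv q x = vv q y := by
        refine hL _ hx2 _ hy2 fun j hj => ?_
        have h1 : j ∈ Set.range (J.orderEmbOfFin hr) := by
          rw [Finset.range_orderEmbOfFin, hJ]
          exact Finset.mem_coe.2 (Finset.mem_filter.2 ⟨Finset.mem_univ j, hj⟩)
        obtain ⟨i, rfl⟩ := h1
        exact hst i
      rw [(hq2 n).2 (Finset.mem_coe.2 hx1) (Finset.mem_coe.2 hy1) h1]

/-- **Pluennecke**: a large subset of `A` grows slowly under the powers of `P`. -/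
theorem sub_pow (A : Finset ℤ) (P : Finset ℚ) (hA2 : 2 ≤ A.card) (hP : P.Nonempty)
    (hP0 : ∀ s ∈ P, s ≠ 0) (K : ℝ) (hK : 4 * ((prd A P).card : ℝ) ≤ K * A.card) (n : ℕ) :
    (((P.image ut) ^ n).card : ℝ) ≤ K ^ n * A.card ∧
    ∃ A' : Finset ℤ, A' ⊆ A ∧ A'.Nonempty ∧ (A.card : ℝ) ≤ 4 * A'.card ∧
      ∀ Q : Finset ℚ, (∀ s ∈ Q, ∃ x ∈ (P.image ut) ^ n, (x : ℚ) = s) →
        ((prd A' Q).card : ℝ) ≤ K ^ n * A'.card := by
  classical
  have hN2 : (2 : ℝ) ≤ A.card := by exact_mod_cast hA2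
  have hK0 : 0 ≤ K := by
    have h1 : (0 : ℝ) ≤ K * A.card := le_trans (by (clear * -; positivity)) hK
    by_contra hcon
    rw [not_le] at hcon
    nlinarith only [hN2, h1, hcon]
  obtain ⟨A1, hA1⟩ : ∃ A1 : Finset ℤ, A1 = A.erase 0 := ⟨_, rfl⟩
  have hA10 : ∀ a ∈ A1, (a : ℚ) ≠ 0 := by
    intro a ha
    rw [hA1, Finset.mem_erase] at ha
    exact_mod_cast ha.1
  have hA1A : A1 ⊆ A := by rw [hA1]; exact Finset.erase_subset _ _
  have hA1c : (A.card : ℝ) ≤ 2 * A1.card := by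
    have h1 := Finset.pred_card_le_card_erase (s := A) (a := (0 : ℤ))
    rw [← hA1] at h1
    have : A.card ≤ 2 * A1.card := by omega
    exact_mod_cast this
  have hA1N : (A1.card : ℝ) ≤ A.card := by
    exact_mod_cast Finset.card_le_card hA1A
  obtain ⟨Au, hAu⟩ : ∃ Au : Finset ℚˣ, Au = A1.image (fun a : ℤ => ut (a : ℚ)) := ⟨_, rfl⟩
  have hAinj : Set.InjOn (fun a : ℤ => ut (a : ℚ)) A1 := by
    intro a ha b hb h
    have h1 := ut_inj (hA10 a (Finset.mem_coe.1 ha)) (hA10 b (Finset.mem_coe.1 hb)) h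
    exact_mod_cast h1
  have hAuc : Au.card = A1.card := by rw [hAu, Finset.card_image_of_injOn hAinj]
  have hprodc : (Au * P.image ut).card ≤ (prd A P).card := by
    have h1 : Au * P.image ut ⊆ (prd A P).image ut := by
      intro z hz
      obtain ⟨x, hx, y, hy, rfl⟩ := Finset.mem_mul.1 hz
      rw [hAu] at hx
      obtain ⟨a, ha, rfl⟩ := Finset.mem_image.1 hx
      obtain ⟨s, hs, rfl⟩ := Finset.mem_image.1 hy
      refine Finset.mem_image.2 ⟨(a : ℚ) * s, ?_, ut_mul (hA10 a ha) (hP0 s hs)⟩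
      exact Finset.mem_image₂_of_mem (hA1A ha) hs
    exact (Finset.card_le_card h1).trans Finset.card_image_le
  have hKu : ((Au * P.image ut).card : ℝ) ≤ K / 2 * Au.card := by
    have h1 : ((Au * P.image ut).card : ℝ) ≤ (prd A P).card := by exact_mod_cast hprodc
    rw [hAuc]
    have h2 : K * (A.card : ℝ) ≤ K * (2 * A1.card) := mul_le_mul_of_nonneg_left hA1c hK0
    (clear * - hK h1 h2; linarith only [hK, h1, h2])
  obtain ⟨A'u, hA'u, hA'uc, hA'K⟩ := Pool.Agent.Helper28.GPP.exists_half (K / 2) hKu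
    (by (clear * - hK0; positivity)) n
  have h2K : 2 * (K / 2) = K := by ring
  rw [h2K] at hA'K
  have hA'ue : A'u.Nonempty := by
    rw [← Finset.card_pos]
    have h1 : 0 < Au.card := by
      rw [hAuc]
      have : (0 : ℝ) < A1.card := by (clear * - hN2 hA1c; linarith only [hN2, hA1c])
      exact_mod_cast this
    omega
  obtain ⟨A', hA'⟩ : ∃ A' : Finset ℤ, A' = A1.filter (fun a : ℤ => ut (a : ℚ) ∈ A'u) := ⟨_, rfl⟩
  have hA'c : A'.card = A'u.card := by
    have h1 : A'.image (fun a : ℤ => ut (a : ℚ)) = A'u := by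
      ext x
      rw [Finset.mem_image]
      constructor
      · rintro ⟨a, ha, rfl⟩
        rw [hA', Finset.mem_filter] at ha
        exact ha.2
      · intro hx
        have h2 := hA'u hx
        rw [hAu] at h2
        obtain ⟨a, ha, rfl⟩ := Finset.mem_image.1 h2
        exact ⟨a, by rw [hA', Finset.mem_filter]; exact ⟨ha, hx⟩, rfl⟩
    rw [← h1, Finset.card_image_of_injOn]
    exact hAinj.mono (by rw [hA']; exact Finset.coe_subset.2 (Finset.filter_subset _ _))
  have hA'A : A' ⊆ A := by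
    rw [hA']
    exact (Finset.filter_subset _ _).trans hA1A
  refine ⟨?_, A', hA'A, ?_, ?_, ?_⟩
  · have h1 : (((P.image ut) ^ n).card : ℝ) ≤ (A'u * (P.image ut) ^ n).card := by
      exact_mod_cast Finset.card_le_card_mul_left hA'ue
    refine h1.trans (hA'K.trans (mul_le_mul_of_nonneg_left ?_ (by (clear * - hK0; positivity))))
    have h2 : (A'u.card : ℝ) ≤ Au.card := by exact_mod_cast Finset.card_le_card hA'u
    rw [hAuc] at h2
    linarith only [hA1N, h2]
  · rw [← Finset.card_pos, hA'c]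
    exact hA'ue.card_pos
  · rw [hA'c]
    have h1 : (Au.card : ℝ) ≤ 2 * A'u.card := by exact_mod_cast hA'uc
    rw [hAuc] at h1
    linarith only [hA1c, h1]
  · intro Q hQ
    have h1 : (prd A' Q).card ≤ (A'u * (P.image ut) ^ n).card := by
      have h2 : prd A' Q ⊆ (A'u * (P.image ut) ^ n).image (fun h : ℚˣ => (h : ℚ)) := by
        intro z hz
        unfold prd at hz
        obtain ⟨a, ha, s, hs, rfl⟩ := Finset.mem_image₂.1 hz
        obtain ⟨x, hx, rfl⟩ := hQ s hs
        rw [hA', Finset.mem_filter] at ha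
        refine Finset.mem_image.2 ⟨ut (a : ℚ) * x, Finset.mul_mem_mul ha.2 hx, ?_⟩
        rw [Units.val_mul, ut_val (hA10 a ha.1)]
      exact (Finset.card_le_card h2).trans Finset.card_image_le
    rw [hA'c]
    refine le_trans ?_ hA'K
    exact_mod_cast h1

end Pool.Agent.Helper15.GPQ
end
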