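import Mathlib
import Pool.Agent.Helper24.DG.G01
import Pool.Agent.Helper24.DG.G02
import Pool.Agent.Helper24.DG.G03

/- Helper24.DI.H15.GPP.Pop -/
section
set_option autoImplicit false

/-!
# Project GL++ (MP_120218), Pop: many popular differences contain a structured set of popular
differences
-/

namespace Pool.Agent.Helper15.GPP

open Finset
open scoped Pointwise

section

variable {G : Type} [AddCommGroup G] [DecidableEq G]

/-- the elements `a` of `A` with `a + t ∈ A` -/
def cor (A : Finset G) (t : G) : Finset G := A.filter (fun a => a + t ∈ A)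

theorem mem_cor {A : Finset G} {t a : G} : a ∈ cor A t ↔ a ∈ A ∧ a + t ∈ A := Finset.mem_filter

theorem cor_le (A : Finset G) (t : G) : (cor A t).card ≤ A.card :=
  Finset.card_le_card (Finset.filter_subset _ _)

/-- double counting -/
theorem sum_cor_le (A U : Finset G) : ∑ t ∈ U, (cor A t).card ≤ A.card ^ 2 := by
  have h1 : ∑ t ∈ U, (cor A t).card = (U.sigma (fun t => cor A t)).card :=
    (Finset.card_sigma _ _).symm
  rw [h1, sq, ← Finset.card_product]
  refine Finset.card_le_card_of_injOn (fun x : (_ : G) × G => (x.2, x.2 + x.1)) ?_ ?_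
  · intro x hx
    have h2 := Finset.mem_sigma.1 (Finset.mem_coe.1 hx)
    have h3 := mem_cor.1 h2.2
    exact Finset.mem_coe.2 (Finset.mem_product.2 ⟨h3.1, h3.2⟩)
  · rintro ⟨t, a⟩ _ ⟨t', a'⟩ _ h
    have h2 : a = a' ∧ a + t = a' + t' := Prod.mk.inj h
    obtain ⟨rfl, h3⟩ := h2
    have h4 := add_left_cancel h3
    subst h4
    rfl

/-- the popular differences -/
noncomputable def pop (A : Finset G) (u : ℝ) : Finset G := by
  classical
  exact (A - A).filter (fun t => u ≤ ((cor A t).card : ℝ))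

theorem mem_pop {A : Finset G} {u : ℝ} (hu : 0 < u) {t : G} :
    t ∈ pop A u ↔ u ≤ ((cor A t).card : ℝ) := by
  unfold pop
  rw [Finset.mem_filter]
  refine ⟨fun h => h.2, fun h => ⟨?_, h⟩⟩
  have h1 : (0 : ℝ) < (cor A t).card := lt_of_lt_of_le hu h
  have h2 : 0 < (cor A t).card := by exact_mod_cast h1
  obtain ⟨a, ha⟩ := Finset.card_pos.1 h2
  obtain ⟨h3, h4⟩ := mem_cor.1 ha
  have h5 := Finset.sub_mem_sub h4 h3
  rwa [add_sub_cancel_left] at h5

theorem card_pop_le (A : Finset G) (u : ℝ) (hu : 0 < u) :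
    ((pop A u).card : ℝ) * u ≤ (A.card : ℝ) ^ 2 := by
  have h1 : ((pop A u).card : ℝ) * u ≤ ∑ t ∈ pop A u, ((cor A t).card : ℝ) := by
    rw [← nsmul_eq_mul, ← Finset.sum_const]
    exact Finset.sum_le_sum fun t ht => (mem_pop hu).1 ht
  refine h1.trans ?_
  exact_mod_cast sum_cor_le A (pop A u)

/-- the pairs of popular differences whose difference is popular -/
theorem pairs (A S : Finset G) (u v : ℝ) (hu : 0 ≤ u) (hS : ∀ s ∈ S, u ≤ ((cor A s).card : ℝ)) :
    (S.card * u) ^ 2 ≤ A.card * (A.card *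
      (((S ×ˢ S).filter (fun q : G × G => v ≤ ((cor A (q.2 - q.1)).card : ℝ))).card : ℝ) +
        (S.card : ℝ) ^ 2 * max v 0) := by
  classical
  obtain ⟨F, hF⟩ : ∃ F : G → ℝ, F = fun a => ((S.filter (fun x => a + x ∈ A)).card : ℝ) := ⟨_, rfl⟩
  have hF1 : ∀ a, F a = ∑ x ∈ S, if a + x ∈ A then (1 : ℝ) else 0 := by
    intro a
    rw [hF, Finset.sum_ite, Finset.sum_const, Finset.sum_const_zero, add_zero, nsmul_eq_mul,
      mul_one]
  have hcor : ∀ x, ((cor A x).card : ℝ) = ∑ a ∈ A, if a + x ∈ A then (1 : ℝ) else 0 := by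
    intro x
    rw [Finset.sum_ite, Finset.sum_const, Finset.sum_const_zero, add_zero, nsmul_eq_mul,
      mul_one]
    rfl
  have h1 : S.card * u ≤ ∑ a ∈ A, F a := by
    calc S.card * u = ∑ x ∈ S, u := by rw [Finset.sum_const, nsmul_eq_mul]
      _ ≤ ∑ x ∈ S, ((cor A x).card : ℝ) := Finset.sum_le_sum hS
      _ = ∑ x ∈ S, ∑ a ∈ A, (if a + x ∈ A then (1 : ℝ) else 0) :=
          Finset.sum_congr rfl fun x _ => hcor x
      _ = ∑ a ∈ A, ∑ x ∈ S, (if a + x ∈ A then (1 : ℝ) else 0) := Finset.sum_comm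
      _ = ∑ a ∈ A, F a := Finset.sum_congr rfl fun a _ => (hF1 a).symm
  have h2 : (∑ a ∈ A, F a) ^ 2 ≤ A.card * ∑ a ∈ A, F a ^ 2 := sq_sum_le_card_mul_sum_sq
  have h3 : (S.card * u) ^ 2 ≤ (∑ a ∈ A, F a) ^ 2 :=
    pow_le_pow_left₀ (mul_nonneg (Nat.cast_nonneg _) hu) h1 2
  refine h3.trans (h2.trans (mul_le_mul_of_nonneg_left ?_ (Nat.cast_nonneg _)))
  -- the second moment
  have h4 : ∑ a ∈ A, F a ^ 2 = ∑ q ∈ S ×ˢ S,
      ((A.filter (fun a => a + q.1 ∈ A ∧ a + q.2 ∈ A)).card : ℝ) := by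
    calc ∑ a ∈ A, F a ^ 2 = ∑ a ∈ A, ∑ q ∈ S ×ˢ S,
          ((if a + q.1 ∈ A then (1 : ℝ) else 0) * (if a + q.2 ∈ A then (1 : ℝ) else 0)) := by
          refine Finset.sum_congr rfl fun a _ => ?_
          rw [sq, hF1, Finset.sum_mul_sum, ← Finset.sum_product']
      _ = ∑ q ∈ S ×ˢ S, ∑ a ∈ A,
          ((if a + q.1 ∈ A then (1 : ℝ) else 0) * (if a + q.2 ∈ A then (1 : ℝ) else 0)) :=
          Finset.sum_comm
      _ = _ := by
          refine Finset.sum_congr rfl fun q _ => ?_
          rw [Finset.card_filter]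
          push_cast
          refine Finset.sum_congr rfl fun a _ => ?_
          by_cases h5 : a + q.1 ∈ A
          · by_cases h6 : a + q.2 ∈ A
            · rw [if_pos h5, if_pos h6, if_pos ⟨h5, h6⟩, mul_one]
            · rw [if_pos h5, if_neg h6, if_neg (fun h => h6 h.2), mul_zero]
          · rw [if_neg h5, zero_mul,
              if_neg (show ¬(a + q.1 ∈ A ∧ a + q.2 ∈ A) from fun h => h5 h.1)]
  have h5 : ∀ q : G × G, (A.filter (fun a => a + q.1 ∈ A ∧ a + q.2 ∈ A)).card ≤
      (cor A (q.2 - q.1)).card := by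
    intro q
    refine Finset.card_le_card_of_injOn (fun a => a + q.1) ?_ ?_
    · intro a ha
      have h6 := Finset.mem_filter.1 (Finset.mem_coe.1 ha)
      refine Finset.mem_coe.2 (mem_cor.2 ⟨h6.2.1, ?_⟩)
      have h7 : a + q.1 + (q.2 - q.1) = a + q.2 := by abel
      rw [h7]
      exact h6.2.2
    · intro a _ b _ h
      exact add_right_cancel h
  rw [h4]
  calc ∑ q ∈ S ×ˢ S, ((A.filter (fun a => a + q.1 ∈ A ∧ a + q.2 ∈ A)).card : ℝ)
      ≤ ∑ q ∈ S ×ˢ S, ((if v ≤ ((cor A (q.2 - q.1)).card : ℝ) then (A.card : ℝ) else 0) +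
          max v 0) := by
        refine Finset.sum_le_sum fun q _ => ?_
        by_cases h6 : v ≤ ((cor A (q.2 - q.1)).card : ℝ)
        · rw [if_pos h6]
          have h7 : ((A.filter (fun a => a + q.1 ∈ A ∧ a + q.2 ∈ A)).card : ℝ) ≤ A.card := by
            exact_mod_cast Finset.card_le_card (Finset.filter_subset _ _)
          have h8 : 0 ≤ max v 0 := le_max_right _ _
          linarith only [h7, h8]
        · rw [if_neg h6, zero_add]
          have h7 : ((A.filter (fun a => a + q.1 ∈ A ∧ a + q.2 ∈ A)).card : ℝ) ≤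
            (cor A (q.2 - q.1)).card := by exact_mod_cast h5 q
          exact h7.trans ((not_le.1 h6).le.trans (le_max_left _ _))
    _ = A.card * (((S ×ˢ S).filter (fun q : G × G => v ≤ ((cor A (q.2 - q.1)).card : ℝ))).card : ℝ) +
        (S.card : ℝ) ^ 2 * max v 0 := by
        rw [Finset.sum_add_distrib, Finset.sum_ite, Finset.sum_const, Finset.sum_const_zero,
          add_zero, Finset.sum_const, Finset.card_product, nsmul_eq_mul, nsmul_eq_mul]
        push_cast
        ring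

/-- many pairs with difference in a set `T` give large energy -/
theorem energy (S T : Finset G) :
    (((S ×ˢ S).filter (fun q : G × G => q.2 - q.1 ∈ T)).card : ℝ) ^ 2 ≤
      T.card * ∑ t ∈ S - S, ((cor S t).card : ℝ) ^ 2 := by
  classical
  have h1 : ((S ×ˢ S).filter (fun q : G × G => q.2 - q.1 ∈ T)).card ≤ ∑ t ∈ T, (cor S t).card := by
    have h2 : ∑ t ∈ T, (cor S t).card = (T.sigma (fun t => cor S t)).card :=
      (Finset.card_sigma _ _).symm
    rw [h2]
    refine Finset.card_le_card_of_injOn (fun q : G × G => (⟨q.2 - q.1, q.1⟩ : (_ : G) × G)) ?_ ?_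
    · intro q hq
      have h3 := Finset.mem_filter.1 (Finset.mem_coe.1 hq)
      have h4 := Finset.mem_product.1 h3.1
      refine Finset.mem_coe.2 (Finset.mem_sigma.2 ⟨h3.2, mem_cor.2 ⟨h4.1, ?_⟩⟩)
      show q.1 + (q.2 - q.1) ∈ S
      rw [add_sub_cancel]
      exact h4.2
    · rintro ⟨x, y⟩ _ ⟨x', y'⟩ _ h
      have h3 : y - x = y' - x' ∧ x = x' := by
        have := Sigma.mk.inj h
        exact ⟨this.1, eq_of_heq this.2⟩
      obtain ⟨h4, rfl⟩ := h3
      have h5 : y = y' := sub_left_inj.1 h4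
      rw [h5]
  have h2 : (∑ t ∈ T, ((cor S t).card : ℝ)) ^ 2 ≤ T.card * ∑ t ∈ T, ((cor S t).card : ℝ) ^ 2 :=
    sq_sum_le_card_mul_sum_sq
  have h3 : ∑ t ∈ T, ((cor S t).card : ℝ) ^ 2 ≤ ∑ t ∈ S - S, ((cor S t).card : ℝ) ^ 2 := by
    have h4 : ∑ t ∈ T, ((cor S t).card : ℝ) ^ 2 =
        ∑ t ∈ T.filter (fun t => t ∈ S - S), ((cor S t).card : ℝ) ^ 2 := by
      rw [Finset.sum_filter]
      refine Finset.sum_congr rfl fun t _ => ?_
      by_cases h5 : t ∈ S - S
      · rw [if_pos h5]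
      · rw [if_neg h5]
        have h6 : cor S t = ∅ := by
          rw [Finset.eq_empty_iff_forall_notMem]
          intro a ha
          obtain ⟨h7, h8⟩ := mem_cor.1 ha
          apply h5
          have h9 := Finset.sub_mem_sub h8 h7
          rwa [add_sub_cancel_left] at h9
        rw [h6, Finset.card_empty, Nat.cast_zero]
        ring
    rw [h4]
    refine Finset.sum_le_sum_of_subset_of_nonneg ?_ fun t _ _ => sq_nonneg _
    intro t ht
    exact (Finset.mem_filter.1 ht).2
  have h4 : (((S ×ˢ S).filter (fun q : G × G => q.2 - q.1 ∈ T)).card : ℝ) ≤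
      ∑ t ∈ T, ((cor S t).card : ℝ) := by exact_mod_cast h1
  calc (((S ×ˢ S).filter (fun q : G × G => q.2 - q.1 ∈ T)).card : ℝ) ^ 2 ≤
        (∑ t ∈ T, ((cor S t).card : ℝ)) ^ 2 := pow_le_pow_left₀ (Nat.cast_nonneg _) h4 2
    _ ≤ _ := h2.trans (mul_le_mul_of_nonneg_left h3 (Nat.cast_nonneg _))

/-- Balog-Szemeredi-Gowers for a set -/
theorem bsg_set (S : Finset G) (hS : S.Nonempty) (K : ℝ) (hK : 1 ≤ K)
    (hE : (S.card : ℝ) ^ 3 ≤ K * ∑ t ∈ S - S, ((cor S t).card : ℝ) ^ 2) :
    ∃ X : Finset G, X.Nonempty ∧ X ⊆ S ∧ (S.card : ℝ) ≤ 128 * K ^ 3 * X.card ∧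
      ((X - X).card : ℝ) ≤ 2 ^ 31 * K ^ 10 * X.card ∧
      ((X + X).card : ℝ) ≤ 2 ^ 62 * K ^ 20 * X.card := by
  classical
  have hn : (0 : ℝ) < S.card := by exact_mod_cast hS.card_pos
  have hK0 : 0 < K := by (clear * - hK; linarith only [hK])
  obtain ⟨mu, hmu⟩ : ∃ mu : G → ℝ, mu = fun x => if x ∈ S then 1 / (S.card : ℝ) else 0 := ⟨_, rfl⟩
  have hin : ∀ x ∈ S, mu x = 1 / (S.card : ℝ) := by
    intro x hx
    rw [hmu]
    exact if_pos hx
  have hout : ∀ x, x ∉ S → mu x = 0 := by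
    intro x hx
    rw [hmu]
    exact if_neg hx
  have h0 : ∀ x, 0 ≤ mu x := by
    intro x
    by_cases hx : x ∈ S
    · rw [hin x hx]
      (clear * - hS hmu hin hout; positivity)
    · rw [hout x hx]
  have h1 : ∑ x ∈ S, mu x = 1 := by
    rw [Finset.sum_congr rfl hin, Finset.sum_const, nsmul_eq_mul]
    field_simp
  have h2 : ∑ x ∈ S, mu x ^ 2 = 1 / (S.card : ℝ) := by
    rw [Finset.sum_congr rfl fun x hx => by rw [hin x hx], Finset.sum_const, nsmul_eq_mul]
    (clear * - hS hmu hin hout h0 h1; field_simp)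
  have h3 : ∀ t, ∑ x ∈ S, mu x * mu (x + t) = ((cor S t).card : ℝ) / (S.card : ℝ) ^ 2 := by
    intro t
    have h4 : ∑ x ∈ S, mu x * mu (x + t) =
        ∑ x ∈ S, if x + t ∈ S then 1 / (S.card : ℝ) ^ 2 else 0 := by
      refine Finset.sum_congr rfl fun x hx => ?_
      by_cases h5 : x + t ∈ S
      · rw [if_pos h5, hin x hx, hin _ h5]
        (clear * - hS hmu hin hout h0 h1 h2; field_simp)
      · rw [if_neg h5, hout _ h5, mul_zero]
    rw [h4, Finset.sum_ite, Finset.sum_const, Finset.sum_const_zero, add_zero, nsmul_eq_mul]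
    unfold cor
    field_simp
  obtain ⟨X, hX1, hX2, hX3, _, hX5, hX6⟩ := Pool.Agent.Helper94.LE.bsg_law S mu h0 hout h1 K hK (by
    rw [h2]
    have h4 : ∑ t ∈ S - S, (∑ x ∈ S, mu x * mu (x + t)) ^ 2 =
        (∑ t ∈ S - S, ((cor S t).card : ℝ) ^ 2) / (S.card : ℝ) ^ 4 := by
      rw [Finset.sum_div]
      refine Finset.sum_congr rfl fun t _ => ?_
      rw [h3, div_pow, ← pow_mul]
    rw [h4, div_div, div_le_div_iff₀ (by positivity) (by positivity)]
    calc 1 * (S.card : ℝ) ^ 4 = S.card * (S.card : ℝ) ^ 3 := by ring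
      _ ≤ S.card * (K * ∑ t ∈ S - S, ((cor S t).card : ℝ) ^ 2) :=
          mul_le_mul_of_nonneg_left hE hn.le
      _ = _ := by ring)
  refine ⟨X, hX1, hX2, ?_, hX5, hX6⟩
  have h4 : ∑ x ∈ X, mu x = X.card / S.card := by
    rw [Finset.sum_congr rfl fun x hx => hin x (hX2 hx), Finset.sum_const, nsmul_eq_mul]
    field_simp
  rw [h4, div_le_div_iff₀ (by positivity) hn] at hX3
  linarith only [hX3]

end

end Pool.Agent.Helper15.GPP
end

/- Helper24.DI.H15.GPP.PopS -/
section
set_option autoImplicit false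

/-!
# Project GL++ (MP_120218), PopS: many popular differences contain a structured set of popular
differences
-/

namespace Pool.Agent.Helper15.GPP

open Finset
open scoped Pointwise

/-- a pigeonhole principle -/
theorem pigeon (m : ℕ) (hm : 1 ≤ m) (p : ℕ → ℝ) (q : ℝ) (hq : 0 ≤ q) (hp0 : 1 ≤ p 0)
    (hpm : p m ≤ q ^ m) : ∃ i < m, p (i + 1) ≤ q * p i := by
  by_contra hcon
  push Not at hcon
  have h1 : ∀ i ≤ m, q ^ i ≤ p i := by
    intro i
    induction i with
    | zero =>
      intro _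
      rw [pow_zero]
      exact hp0
    | succ i ih =>
      intro hi
      have h2 := ih (by omega)
      have h3 := hcon i (by omega)
      rw [pow_succ, mul_comm]
      exact (mul_le_mul_of_nonneg_left h2 hq).trans h3.le
  have h2 := hcon (m - 1) (by omega)
  have h3 := h1 (m - 1) (by omega)
  have h4 : m - 1 + 1 = m := by omega
  rw [h4] at h2
  have h5 : q ^ m = q * q ^ (m - 1) := by
    rw [← pow_succ', h4]
  rw [h5] at hpm
  have h6 := mul_le_mul_of_nonneg_left h3 hq
  (clear * - hpm h2 h6; linarith only [hpm, h2, h6])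

theorem pop_struct (κ δ : ℝ) (hκ : 0 < κ) (hδ : 0 ≤ δ) : ∃ θ N0 : ℝ, 0 < θ ∧ 1 ≤ N0 ∧
    ∀ (G : Type) [AddCommGroup G] [DecidableEq G] (A S : Finset G), N0 ≤ A.card →
      (A.card : ℝ) ^ δ ≤ S.card → (∀ s ∈ S, (A.card : ℝ) ^ (1 - θ) ≤ ((cor A s).card : ℝ)) →
      ∃ H : Finset G, H.Nonempty ∧ (A.card : ℝ) ^ (δ - κ) ≤ H.card ∧
        ((H - H).card : ℝ) ≤ (A.card : ℝ) ^ κ * H.card ∧
        ((H + H).card : ℝ) ≤ (A.card : ℝ) ^ κ * H.card ∧
        ∀ h ∈ H, (A.card : ℝ) ^ (1 - κ) ≤ ((cor A h).card : ℝ) := by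
  classical
  obtain ⟨m, hm⟩ := exists_nat_gt (200 / κ)
  have hm0 : (0 : ℝ) < m := lt_trans (by (clear * - hκ; positivity)) hm
  have hm1 : 1 ≤ m := by exact_mod_cast hm0
  have hm1R : (1 : ℝ) ≤ m := by exact_mod_cast hm1
  have hκm : 200 * (1 / (m : ℝ)) ≤ κ := by
    rw [div_lt_iff₀ hκ] at hm
    rw [mul_one_div, div_le_iff₀ hm0]
    linarith only [hm]
  obtain ⟨e, he⟩ : ∃ e : ℝ, e = 1 / (m : ℝ) := ⟨_, rfl⟩
  rw [← he] at hκm
  have he0 : 0 < e := by rw [he]; (clear * - hm1; positivity)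
  have hem : (m : ℝ) * e = 1 := by rw [he]; field_simp
  obtain ⟨θ, hθ⟩ : ∃ θ : ℝ, θ = e / 3 ^ m := ⟨_, rfl⟩
  have hθ0 : 0 < θ := by rw [hθ]; (clear * - he0; positivity)
  refine ⟨θ, (2 : ℝ) ^ (62 / θ), hθ0, ?_, ?_⟩
  · exact Real.one_le_rpow (by norm_num) (by (clear * - hθ0; positivity))
  intro G _ _ A S hAN hSδ hS
  obtain ⟨N, hN⟩ : ∃ N : ℝ, N = A.card := ⟨_, rfl⟩
  rw [← hN] at hAN hSδ hS ⊢
  have h20 : (0 : ℝ) < 2 ^ (62 / θ) := Real.rpow_pos_of_pos (by norm_num) _
  have hN1 : 1 ≤ N := le_trans (Real.one_le_rpow (by norm_num) (by (clear * - hθ0; positivity))) hAN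
  have hNp : 0 < N := by linarith only [hN1]
  have hbig : (2 : ℝ) ^ 62 ≤ N ^ θ := by
    have h1 := Real.rpow_le_rpow h20.le hAN hθ0.le
    rw [← Real.rpow_mul (by norm_num)] at h1
    have h2 : 62 / θ * θ = 62 := by (clear * - hθ0; field_simp)
    rw [h2] at h1
    have h3 : (2 : ℝ) ^ (62 : ℝ) = 2 ^ 62 := by
      rw [← Real.rpow_natCast]
      norm_num
    rwa [h3] at h1
  have hθi : ∀ i : ℕ, θ ≤ 3 ^ i * θ := by
    intro i
    exact le_mul_of_one_le_left hθ0.le (one_le_pow₀ (by norm_num))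
  have hθe : ∀ i ≤ m, 3 ^ i * θ ≤ e := by
    intro i hi
    rw [hθ, mul_div_assoc', div_le_iff₀ (by positivity)]
    have h1 : (3 : ℝ) ^ i ≤ 3 ^ m := pow_le_pow_right₀ (by norm_num) hi
    calc (3 : ℝ) ^ i * e ≤ 3 ^ m * e := mul_le_mul_of_nonneg_right h1 he0.le
      _ = e * 3 ^ m := mul_comm _ _
  have hbe : (2 : ℝ) ^ 62 ≤ N ^ e := by
    refine hbig.trans (Real.rpow_le_rpow_of_exponent_le hN1 ?_)
    have := hθe 0 (by omega)
    rwa [pow_zero, one_mul] at this
  obtain ⟨P, hP⟩ : ∃ P : ℕ → Finset G, P = fun i => pop A (N ^ (1 - 3 ^ i * θ)) := ⟨_, rfl⟩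
  have hmemP : ∀ i t, t ∈ P i ↔ N ^ (1 - 3 ^ i * θ) ≤ ((cor A t).card : ℝ) := by
    intro i t
    rw [hP]
    exact mem_pop (Real.rpow_pos_of_pos hNp _)
  have hSP : ∀ i, S ⊆ P i := by
    intro i s hs
    rw [hmemP]
    refine le_trans ?_ (hS s hs)
    exact Real.rpow_le_rpow_of_exponent_le hN1 (by linarith only [hθi i])
  have hPδ : ∀ i, N ^ δ ≤ (P i).card := by
    intro i
    refine hSδ.trans ?_
    exact_mod_cast Finset.card_le_card (hSP i)
  have hone : 1 ≤ N ^ δ := Real.one_le_rpow hN1 hδ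
  -- the level
  obtain ⟨i, him, hi⟩ := pigeon m hm1 (fun i => ((P i).card : ℝ)) (N ^ (2 * e))
    (Real.rpow_nonneg hNp.le _) (hone.trans (hPδ 0)) (by
      have h1 := card_pop_le A (N ^ (1 - 3 ^ m * θ)) (Real.rpow_pos_of_pos hNp _)
      have h2 : ((P m).card : ℝ) ≤ N ^ (2 : ℝ) := by
        have h3 : (P m).card = (pop A (N ^ (1 - 3 ^ m * θ))).card := by rw [hP]
        rw [h3]
        rw [← hN] at h1
        have h4 : N ^ 2 = N ^ (1 + 3 ^ m * θ) * N ^ (1 - 3 ^ m * θ) := by
          rw [← Real.rpow_add hNp, ← Real.rpow_natCast]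
          congr 1
          push_cast
          ring
        rw [h4] at h1
        have h5 := le_of_mul_le_mul_right h1 (Real.rpow_pos_of_pos hNp _)
        refine h5.trans (Real.rpow_le_rpow_of_exponent_le hN1 ?_)
        have h6 := hθe m le_rfl
        have h7 : e ≤ 1 := by
          rw [he, div_le_one hm0]
          exact hm1R
        linarith only [h6, h7]
      refine h2.trans (le_of_eq ?_)
      rw [← Real.rpow_natCast, ← Real.rpow_mul hNp.le]
      congr 1
      linarith only [hem])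
  obtain ⟨t, ht⟩ : ∃ t : ℝ, t = 3 ^ i * θ := ⟨_, rfl⟩
  have ht0 : 0 < t := by rw [ht]; positivity
  have hte : t ≤ e := by rw [ht]; exact hθe i him.le
  have ht3 : 3 ^ (i + 1) * θ = 3 * t := by rw [ht, pow_succ]; ring
  have h2t : 2 ≤ N ^ t := by
    have h1 : N ^ θ ≤ N ^ t := Real.rpow_le_rpow_of_exponent_le hN1 (by rw [ht]; exact hθi i)
    have h2 : (2 : ℝ) ≤ 2 ^ 62 := by norm_num
    linarith only [hbig, h1]
  obtain ⟨p, hp⟩ : ∃ p : ℝ, p = (P i).card := ⟨_, rfl⟩
  have hpδ : N ^ δ ≤ p := by rw [hp]; exact hPδ i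
  have hp0 : 0 < p := by linarith only [hone, hpδ]
  have hmi : ∀ s ∈ P i, N ^ (1 - t) ≤ ((cor A s).card : ℝ) := by
    intro s hs
    rw [ht]
    exact (hmemP i s).1 hs
  -- the number of pairs
  obtain ⟨W, hW⟩ : ∃ W : ℝ, W =
      (((P i ×ˢ P i).filter (fun q : G × G => q.2 - q.1 ∈ P (i + 1))).card : ℝ) := ⟨_, rfl⟩
  have hWp : p ^ 2 * N ^ (-(3 * t)) ≤ W := by
    have h1 := pairs A (P i) (N ^ (1 - t)) (N ^ (1 - 3 * t)) (Real.rpow_nonneg hNp.le _) hmi
    have h2 : (((P i ×ˢ P i).filter (fun q : G × G => N ^ (1 - 3 * t) ≤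
        ((cor A (q.2 - q.1)).card : ℝ))).card : ℝ) = W := by
      rw [hW]
      congr 2
      refine Finset.filter_congr fun q _ => ?_
      rw [hmemP, ht3]
    rw [h2, ← hN, ← hp, max_eq_left (Real.rpow_nonneg hNp.le _)] at h1
    have h3 : (p * N ^ (1 - t)) ^ 2 = p ^ 2 * (N ^ t * N ^ (2 - 3 * t)) := by
      rw [mul_pow, ← Real.rpow_natCast (N ^ (1 - t)), ← Real.rpow_mul hNp.le,
        ← Real.rpow_add hNp]
      congr 2
      push_cast
      ring
    have h4 : N * (N * W + p ^ 2 * N ^ (1 - 3 * t)) = N ^ 2 * W + p ^ 2 * N ^ (2 - 3 * t) := by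
      have : N ^ (2 - 3 * t) = N * N ^ (1 - 3 * t) := by
        nth_rewrite 2 [← Real.rpow_one N]
        rw [← Real.rpow_add hNp]
        congr 1
        ring
      rw [this]
      ring
    rw [h3, h4] at h1
    have h5 : 0 ≤ p ^ 2 * N ^ (2 - 3 * t) := by (clear * - hp0 hN1; positivity)
    have h6 : p ^ 2 * N ^ (2 - 3 * t) * 2 ≤ p ^ 2 * N ^ (2 - 3 * t) * N ^ t :=
      mul_le_mul_of_nonneg_left h2t h5
    have h7 : p ^ 2 * N ^ (2 - 3 * t) ≤ N ^ 2 * W := by linarith only [h1, h6]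
    have h8 : p ^ 2 * N ^ (2 - 3 * t) = N ^ 2 * (p ^ 2 * N ^ (-(3 * t))) := by
      have : N ^ (2 - 3 * t) = N ^ 2 * N ^ (-(3 * t)) := by
        rw [← Real.rpow_natCast, ← Real.rpow_add hNp]
        congr 1
      rw [this]
      ring
    rw [h8] at h7
    exact le_of_mul_le_mul_left h7 (by (clear * - hN1; positivity))
  -- the energy
  obtain ⟨E, hE⟩ : ∃ E : ℝ, E = ∑ t ∈ P i - P i, ((cor (P i) t).card : ℝ) ^ 2 := ⟨_, rfl⟩
  have hE0 : 0 ≤ E := by rw [hE]; exact Finset.sum_nonneg fun _ _ => sq_nonneg _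
  have hEn := energy (P i) (P (i + 1))
  rw [← hW, ← hE] at hEn
  have hEK : p ^ 3 ≤ N ^ (8 * e) * E := by
    have h1 : (p ^ 2 * N ^ (-(3 * t))) ^ 2 ≤ N ^ (2 * e) * p * E := by
      refine (pow_le_pow_left₀ (by (clear * - hp0 hN1; positivity)) hWp 2).trans (hEn.trans ?_)
      refine mul_le_mul_of_nonneg_right ?_ hE0
      rw [hp]
      exact hi
    have h2 : (p ^ 2 * N ^ (-(3 * t))) ^ 2 = p * (p ^ 3 * N ^ (-(6 * t))) := by
      rw [mul_pow, ← Real.rpow_natCast (N ^ (-(3 * t))), ← Real.rpow_mul hNp.le]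
      have : -(3 * t) * ((2 : ℕ) : ℝ) = -(6 * t) := by push_cast; ring
      rw [this]
      ring
    have h3 : N ^ (2 * e) * p * E = p * (N ^ (2 * e) * E) := by ring
    rw [h2, h3] at h1
    have h4 := le_of_mul_le_mul_left h1 hp0
    have h5 : p ^ 3 = (p ^ 3 * N ^ (-(6 * t))) * N ^ (6 * t) := by
      rw [mul_assoc, ← Real.rpow_add hNp, neg_add_cancel, Real.rpow_zero, mul_one]
    rw [h5]
    calc (p ^ 3 * N ^ (-(6 * t))) * N ^ (6 * t) ≤ (N ^ (2 * e) * E) * N ^ (6 * e) := by
          refine mul_le_mul h4 (Real.rpow_le_rpow_of_exponent_le hN1 (by linarith only [hte]))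
            (Real.rpow_nonneg hNp.le _) (by (clear * - hN1 hE0; positivity))
      _ = N ^ (8 * e) * E := by
          have : N ^ (8 * e) = N ^ (2 * e) * N ^ (6 * e) := by
            rw [← Real.rpow_add hNp]
            congr 1
            ring
          rw [this]
          ring
  have hPne : (P i).Nonempty := by
    rw [← Finset.card_pos]
    rw [hp] at hp0
    exact_mod_cast hp0
  obtain ⟨X, hX1, hX2, hX3, hX4, hX5⟩ := bsg_set (P i) hPne (N ^ (8 * e))
    (Real.one_le_rpow hN1 (by positivity)) (by rw [← hp, ← hE]; exact hEK)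
  rw [← hp] at hX3
  have hpw : ∀ j : ℕ, (N ^ (8 * e)) ^ j = N ^ (8 * j * e) := by
    intro j
    rw [← Real.rpow_natCast (N ^ (8 * e)), ← Real.rpow_mul hNp.le]
    congr 1
    ring
  have hX0 : (0 : ℝ) ≤ X.card := Nat.cast_nonneg _
  have hcst : ∀ (C : ℝ) (j : ℕ), 0 ≤ C → C ≤ 2 ^ 62 → (8 * j + 1 : ℝ) * e ≤ κ →
      C * (N ^ (8 * e)) ^ j ≤ N ^ κ := by
    intro C j hC0 hC hj
    rw [hpw]
    calc C * N ^ (8 * j * e) ≤ N ^ e * N ^ (8 * j * e) :=
          mul_le_mul_of_nonneg_right (hC.trans hbe) (Real.rpow_nonneg hNp.le _)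
      _ = N ^ ((8 * j + 1 : ℝ) * e) := by
          rw [← Real.rpow_add hNp]
          congr 1
          ring
      _ ≤ N ^ κ := Real.rpow_le_rpow_of_exponent_le hN1 hj
  refine ⟨X, hX1, ?_, ?_, ?_, ?_⟩
  · have h1 := hcst 128 3 (by norm_num) (by norm_num) (by push_cast; linarith only [hκm, he0])
    have h2 : N ^ δ ≤ N ^ κ * X.card :=
      hpδ.trans (hX3.trans (mul_le_mul_of_nonneg_right h1 hX0))
    have h3 : N ^ δ = N ^ κ * N ^ (δ - κ) := by
      rw [← Real.rpow_add hNp]
      congr 1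
      ring
    rw [h3] at h2
    exact le_of_mul_le_mul_left h2 (Real.rpow_pos_of_pos hNp _)
  · exact hX4.trans (mul_le_mul_of_nonneg_right
      (hcst (2 ^ 31) 10 (by norm_num) (by norm_num) (by push_cast; linarith only [hκm, he0])) hX0)
  · exact hX5.trans (mul_le_mul_of_nonneg_right
      (hcst (2 ^ 62) 20 (by norm_num) le_rfl (by push_cast; linarith only [hκm, he0])) hX0)
  · intro h hh
    refine le_trans ?_ (hmi h (hX2 hh))
    exact Real.rpow_le_rpow_of_exponent_le hN1 (by linarith only [hκm, ht0, hte])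

end Pool.Agent.Helper15.GPP
end

/- Helper24.DI.H15.GPQ.PopQ -/
section
set_option autoImplicit false

/-!
# Project GL++ (MP_120218), PopQ: many popular ratios of a set of integers contain a structured set
-/

namespace Pool.Agent.Helper15.GPQ

open Finset Pool.Agent.Helper15.GPP
open scoped Pointwise

open Classical in
/-- a rational number as an element of the additive form of the group of units -/
noncomputable def au (x : ℚ) : Additive ℚˣ :=
  Additive.ofMul (if h : x ≠ 0 then Units.mk0 x h else 1)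

/-- the value -/
def va (g : Additive ℚˣ) : ℚ := ((Additive.toMul g : ℚˣ) : ℚ)

theorem va_au {x : ℚ} (h : x ≠ 0) : va (au x) = x := by
  unfold va au
  rw [dif_pos h]
  rfl

theorem va_ne (g : Additive ℚˣ) : va g ≠ 0 := (Additive.toMul g).ne_zero

theorem va_inj {g h : Additive ℚˣ} (e : va g = va h) : g = h := by
  unfold va at e
  have h1 := Units.ext e
  exact Additive.toMul.injective h1

theorem va_add (g h : Additive ℚˣ) : va (g + h) = va g * va h := rfl

theorem va_sub (g h : Additive ℚˣ) : va (g - h) = va g / va h := by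
  unfold va
  rw [toMul_sub, Units.val_div_eq_div_val]

theorem au_va (g : Additive ℚˣ) : au (va g) = g := va_inj (va_au (va_ne g))

theorem card_abs_le (H : Finset ℚ) : H.card ≤ 2 * (H.image (fun h => |h|)).card := by
  classical
  refine Finset.card_le_mul_card_image H 2 fun t _ => ?_
  have hsub : H.filter (fun h => |h| = t) ⊆ {t, -t} := by
    intro h hh
    have h1 := (Finset.mem_filter.1 hh).2
    rw [Finset.mem_insert, Finset.mem_singleton]
    rcases abs_choice h with h2 | h2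
    · left
      rw [← h1, h2]
    · right
      rw [← h1, h2, neg_neg]
  exact (Finset.card_le_card hsub).trans Finset.card_le_two

/-- the non-zero elements of `A` and `-A` -/
def sym (A : Finset ℤ) : Finset ℤ := (A ∪ A.image (fun a => -a)).erase 0

theorem sym_ne {A : Finset ℤ} {z : ℤ} (hz : z ∈ sym A) : z ≠ 0 := (Finset.mem_erase.1 hz).1

theorem card_sym_le (A : Finset ℤ) : (sym A).card ≤ 2 * A.card := by
  unfold sym
  refine (Finset.card_le_card (Finset.erase_subset _ _)).trans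
    ((Finset.card_union_le _ _).trans ?_)
  have := Finset.card_image_le (s := A) (f := fun a => -a)
  omega

/-- the number of `a ∈ A` with `a s ∈ A` -/
def stay (A : Finset ℤ) (s : ℚ) : Finset ℤ := A.filter (fun a : ℤ => ∃ b ∈ A, (b : ℚ) = a * s)

/-- **Many popular ratios** contain a structured set of popular ratios. -/
theorem pop_rat (κ δ : ℝ) (hκ : 0 < κ) (hκ1 : κ ≤ 1) (hκδ : κ ≤ δ) :
    ∃ θ N0 : ℝ, 0 < θ ∧ 1 ≤ N0 ∧
    ∀ (A : Finset ℤ) (P : Finset ℚ), (∀ s ∈ P, s ≠ 0) → N0 ≤ A.card →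
      (A.card : ℝ) ^ δ ≤ P.card →
      (∀ s ∈ P, (A.card : ℝ) ^ (1 - θ) ≤ ((stay A s).card : ℝ)) →
      ∃ H : Finset ℚ, (∀ h ∈ H, 0 < h) ∧ (A.card : ℝ) ^ (δ - κ) ≤ H.card ∧
        ((Finset.image₂ (fun a b => a * b) H H).card : ℝ) ≤ (A.card : ℝ) ^ κ * H.card ∧
        ((Finset.image₂ (fun a b => a / b) H H).card : ℝ) ≤ (A.card : ℝ) ^ κ * H.card ∧
        ∀ h ∈ H, (A.card : ℝ) ^ (1 - κ) ≤
          (((sym A).filter (fun z : ℤ => ∃ b ∈ A, (b : ℚ) = z * h)).card : ℝ) := by
  classical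
  have hδ : 0 ≤ δ := by linarith
  obtain ⟨θ1, N1, hθ1, hN1, hst⟩ := pop_struct (κ / 2) δ (by positivity) hδ
  obtain ⟨θ2, hθ2⟩ : ∃ θ2 : ℝ, θ2 = min θ1 (1 / 2) := ⟨_, rfl⟩
  have hθ20 : 0 < θ2 := by rw [hθ2]; exact lt_min hθ1 (by norm_num)
  have hθ21 : θ2 ≤ θ1 := by rw [hθ2]; exact min_le_left _ _
  have hθ2h : θ2 ≤ 1 / 2 := by rw [hθ2]; exact min_le_right _ _
  have p1 : (0 : ℝ) < 2 ^ (2 / θ2) := Real.rpow_pos_of_pos (by norm_num) _
  have p2 : (0 : ℝ) < 2 ^ (2 * (δ + 1) / κ) := Real.rpow_pos_of_pos (by norm_num) _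
  refine ⟨θ2 / 2, 2 + 2 * N1 + 2 ^ (2 / θ2) + 2 ^ (2 * (δ + 1) / κ), by positivity,
    by (clear * - hN1 p1 p2; linarith only [hN1, p1, p2]), ?_⟩
  intro A P hP0 hAN hPδ hpop
  obtain ⟨N, hN⟩ : ∃ N : ℝ, N = A.card := ⟨_, rfl⟩
  rw [← hN] at hAN hPδ hpop ⊢
  have hN2 : 2 ≤ N := by linarith only [hN1, p1, p2, hAN]
  have hNp : 0 < N := by linarith only [hN2]
  have hN1' : 1 ≤ N := by linarith only [hN2]
  have hNθ : 2 ≤ N ^ (θ2 / 2) := by
    have h1 : (2 : ℝ) ^ (2 / θ2) ≤ N := by linarith only [hN1, p2, hAN]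
    have h2 := Real.rpow_le_rpow p1.le h1 (show 0 ≤ θ2 / 2 by positivity)
    rw [← Real.rpow_mul (by norm_num)] at h2
    have h3 : 2 / θ2 * (θ2 / 2) = 1 := by field_simp
    rwa [h3, Real.rpow_one] at h2
  have hNκ : (2 : ℝ) ^ (δ + 1) ≤ N ^ (κ / 2) := by
    have h1 : (2 : ℝ) ^ (2 * (δ + 1) / κ) ≤ N := by linarith only [hN1, p1, hAN]
    have h2 := Real.rpow_le_rpow p2.le h1 (show 0 ≤ κ / 2 by positivity)
    rw [← Real.rpow_mul (by norm_num)] at h2
    have h3 : 2 * (δ + 1) / κ * (κ / 2) = δ + 1 := by (clear * - hκ hδ; field_simp)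
    rwa [h3] at h2
  have hNκ2 : 2 ≤ N ^ (κ / 2) := by
    refine le_trans ?_ hNκ
    calc (2 : ℝ) = 2 ^ (1 : ℝ) := (Real.rpow_one 2).symm
      _ ≤ 2 ^ (δ + 1) := Real.rpow_le_rpow_of_exponent_le (by norm_num) (by linarith only [hδ])
  obtain ⟨A1, hA1⟩ : ∃ A1 : Finset ℤ, A1 = A.erase 0 := ⟨_, rfl⟩
  have hA10' : ∀ a ∈ A1, a ≠ 0 := by
    intro a ha
    rw [hA1, Finset.mem_erase] at ha
    exact ha.1
  have hA10 : ∀ a ∈ A1, (a : ℚ) ≠ 0 := fun a ha => by exact_mod_cast hA10' a ha
  have hA1A : A1 ⊆ A := by rw [hA1]; exact Finset.erase_subset _ _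
  have hA1m : ∀ a ∈ A, a ≠ 0 → a ∈ A1 := by
    intro a ha h0
    rw [hA1, Finset.mem_erase]
    exact ⟨h0, ha⟩
  obtain ⟨n, hn⟩ : ∃ n : ℝ, n = A1.card := ⟨_, rfl⟩
  have hn2 : N / 2 ≤ n := by
    have h1 := Finset.pred_card_le_card_erase (s := A) (a := (0 : ℤ))
    rw [← hA1] at h1
    have h2 : (A.card : ℝ) ≤ A1.card + 1 := by
      have : A.card ≤ A1.card + 1 := by omega
      exact_mod_cast this
    rw [hn]
    (clear * - hN hN2 h2; linarith only [hN, hN2, h2])
  have hnN : n ≤ N := by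
    rw [hN, hn]
    exact_mod_cast Finset.card_le_card hA1A
  have hn1 : 1 ≤ n := by linarith only [hN2, hn2]
  have hnp : 0 < n := by linarith only [hn1]
  have hhalf : ∀ x : ℝ, 0 ≤ x → N ^ x ≤ 2 ^ x * n ^ x := by
    intro x hx
    rw [← Real.mul_rpow (by norm_num) hnp.le]
    exact Real.rpow_le_rpow hNp.le (by linarith only [hn2]) hx
  obtain ⟨Au, hAu⟩ : ∃ Au : Finset (Additive ℚˣ), Au = A1.image (fun a : ℤ => au (a : ℚ)) :=
    ⟨_, rfl⟩
  have hAuc : Au.card = A1.card := by
    rw [hAu, Finset.card_image_of_injOn]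
    intro a ha b hb h
    have h1 := congrArg va h
    simp only at h1
    rw [va_au (hA10 a (Finset.mem_coe.1 ha)), va_au (hA10 b (Finset.mem_coe.1 hb))] at h1
    exact_mod_cast h1
  have memAu : ∀ g, g ∈ Au ↔ ∃ a ∈ A1, va g = a := by
    intro g
    rw [hAu, Finset.mem_image]
    constructor
    · rintro ⟨a, ha, rfl⟩
      exact ⟨a, ha, va_au (hA10 a ha)⟩
    · rintro ⟨a, ha, h⟩
      refine ⟨a, ha, ?_⟩
      rw [← h, au_va]
  obtain ⟨Pu, hPu⟩ : ∃ Pu : Finset (Additive ℚˣ), Pu = P.image au := ⟨_, rfl⟩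
  have hPuc : Pu.card = P.card := by
    rw [hPu, Finset.card_image_of_injOn]
    intro a ha b hb h
    have h1 := congrArg va h
    rwa [va_au (hP0 a (Finset.mem_coe.1 ha)), va_au (hP0 b (Finset.mem_coe.1 hb))] at h1
  obtain ⟨Hu, hHu1, hHu2, hHu3, hHu4, hHu5⟩ := hst (Additive ℚˣ) Au Pu (by
      rw [hAuc, ← hn]
      linarith only [p1, p2, hAN, hn2]) (by
      rw [hAuc, ← hn, hPuc]
      exact (Real.rpow_le_rpow hnp.le hnN hδ).trans hPδ) (by
      intro g hg
      rw [hPu, Finset.mem_image] at hg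
      obtain ⟨s, hs, rfl⟩ := hg
      rw [hAuc, ← hn]
      have h1 := hpop s hs
      have h2 : (stay A s).card ≤ (cor Au (au s)).card + 1 := by
        have h3 : (stay A s).card ≤ ((stay A s).erase 0).card + 1 := by
          have := Finset.pred_card_le_card_erase (s := stay A s) (a := (0 : ℤ))
          omega
        have h4 : ((stay A s).erase 0).card ≤ (cor Au (au s)).card := by
          refine Finset.card_le_card_of_injOn (fun a : ℤ => au (a : ℚ)) ?_ ?_
          · intro a ha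
            have h5 := Finset.mem_erase.1 (Finset.mem_coe.1 ha)
            obtain ⟨h6, b, hb, h7⟩ := Finset.mem_filter.1 h5.2
            have h8 : (a : ℚ) ≠ 0 := by exact_mod_cast h5.1
            refine Finset.mem_coe.2 (mem_cor.2 ⟨(memAu _).2 ⟨a, hA1m a h6 h5.1, va_au h8⟩,
              (memAu _).2 ⟨b, hA1m b hb ?_, ?_⟩⟩)
            · intro h9
              rw [h9] at h7
              have h10 : (a : ℚ) * s ≠ 0 := mul_ne_zero h8 (hP0 s hs)
              exact h10 (by rw [← h7]; norm_num)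
            · show va (au (a : ℚ) + au s) = b
              rw [va_add, va_au h8, va_au (hP0 s hs), h7]
          · intro a ha b hb h
            have h5 := Finset.mem_erase.1 (Finset.mem_coe.1 ha)
            have h6 := Finset.mem_erase.1 (Finset.mem_coe.1 hb)
            have h8 : (a : ℚ) ≠ 0 := by exact_mod_cast h5.1
            have h9 : (b : ℚ) ≠ 0 := by exact_mod_cast h6.1
            have h1 := congrArg va h
            simp only at h1
            rw [va_au h8, va_au h9] at h1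
            exact_mod_cast h1
        omega
      have h2R : ((stay A s).card : ℝ) ≤ (cor Au (au s)).card + 1 := by exact_mod_cast h2
      have h3 : N ^ (1 - θ2 / 2) = N ^ (θ2 / 2) * N ^ (1 - θ2) := by
        rw [← Real.rpow_add hNp]
        congr 1
        ring
      have h4 : 1 ≤ N ^ (1 - θ2) := Real.one_le_rpow hN1' (by linarith only [hθ2h])
      have h5 : 2 * N ^ (1 - θ2) ≤ N ^ (θ2 / 2) * N ^ (1 - θ2) :=
        mul_le_mul_of_nonneg_right hNθ (by linarith only [h4])
      have h6 : n ^ (1 - θ1) ≤ N ^ (1 - θ2) :=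
        (Real.rpow_le_rpow_of_exponent_le hn1 (by linarith only [hθ21])).trans
          (Real.rpow_le_rpow hnp.le hnN (by linarith only [hθ2h]))
      rw [h3] at h1
      linarith only [h1, h2R, h4, h5, h6])
  rw [hAuc, ← hn] at hHu2 hHu3 hHu4 hHu5
  obtain ⟨H0, hH0⟩ : ∃ H0 : Finset ℚ, H0 = Hu.image va := ⟨_, rfl⟩
  have hH0c : H0.card = Hu.card := by
    rw [hH0]
    exact Finset.card_image_of_injective _ fun _ _ h => va_inj h
  obtain ⟨H, hH⟩ : ∃ H : Finset ℚ, H = H0.image (fun h : ℚ => |h|) := ⟨_, rfl⟩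
  have hH2 : (Hu.card : ℝ) ≤ 2 * H.card := by
    rw [← hH0c, hH]
    exact_mod_cast card_abs_le H0
  have memH : ∀ h, h ∈ H ↔ ∃ g ∈ Hu, |va g| = h := by
    intro h
    rw [hH, hH0, Finset.mem_image]
    constructor
    · rintro ⟨x, hx, rfl⟩
      obtain ⟨g, hg, rfl⟩ := Finset.mem_image.1 hx
      exact ⟨g, hg, rfl⟩
    · rintro ⟨g, hg, rfl⟩
      exact ⟨va g, Finset.mem_image_of_mem _ hg, rfl⟩
  have hH0' : (0 : ℝ) ≤ H.card := Nat.cast_nonneg _
  have hκn : n ^ (κ / 2) * 2 ≤ N ^ κ := by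
    calc n ^ (κ / 2) * 2 ≤ N ^ (κ / 2) * N ^ (κ / 2) :=
          mul_le_mul (Real.rpow_le_rpow hnp.le hnN (by positivity)) hNκ2 (by norm_num)
            (Real.rpow_nonneg hNp.le _)
      _ = N ^ κ := by
          rw [← Real.rpow_add hNp]
          congr 1
          ring
  have hdbl : ∀ c : ℝ, c ≤ n ^ (κ / 2) * Hu.card → c ≤ N ^ κ * H.card := by
    intro c hc
    calc c ≤ n ^ (κ / 2) * Hu.card := hc
      _ ≤ n ^ (κ / 2) * (2 * H.card) :=
          mul_le_mul_of_nonneg_left hH2 (Real.rpow_nonneg hnp.le _)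
      _ = (n ^ (κ / 2) * 2) * H.card := by ring
      _ ≤ N ^ κ * H.card := mul_le_mul_of_nonneg_right hκn hH0'
  refine ⟨H, ?_, ?_, ?_, ?_, ?_⟩
  · intro h hh
    obtain ⟨g, _, rfl⟩ := (memH h).1 hh
    exact abs_pos.2 (va_ne g)
  · have h1 := hhalf (δ - κ / 2) (by (clear * - hκ hκδ; linarith only [hκ, hκδ]))
    have h2 : (2 : ℝ) ^ (δ - κ / 2) ≤ 2 ^ δ :=
      Real.rpow_le_rpow_of_exponent_le (by norm_num) (by linarith only [hκ])
    have h3 : N ^ (δ - κ / 2) ≤ 2 ^ δ * (2 * H.card) := by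
      refine h1.trans (mul_le_mul h2 (hHu2.trans hH2) (Real.rpow_nonneg hnp.le _) (by positivity))
    have h4 : (2 : ℝ) ^ δ * (2 * H.card) = 2 ^ (δ + 1) * H.card := by
      rw [Real.rpow_add (by norm_num), Real.rpow_one]
      ring
    rw [h4] at h3
    have h5 : N ^ (δ - κ / 2) ≤ N ^ (κ / 2) * H.card :=
      h3.trans (mul_le_mul_of_nonneg_right hNκ hH0')
    have h6 : N ^ (δ - κ / 2) = N ^ (κ / 2) * N ^ (δ - κ) := by
      rw [← Real.rpow_add hNp]
      congr 1
      ring
    rw [h6] at h5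
    exact le_of_mul_le_mul_left h5 (Real.rpow_pos_of_pos hNp _)
  · refine hdbl _ (le_trans ?_ hHu4)
    have h1 : (Finset.image₂ (fun a b => a * b) H H).card ≤ (Hu + Hu).card := by
      have h2 : Finset.image₂ (fun a b => a * b) H H ⊆ (Hu + Hu).image (fun g => |va g|) := by
        intro z hz
        obtain ⟨a, ha, b, hb, rfl⟩ := Finset.mem_image₂.1 hz
        obtain ⟨g, hg, rfl⟩ := (memH a).1 ha
        obtain ⟨g', hg', rfl⟩ := (memH b).1 hb
        refine Finset.mem_image.2 ⟨g + g', Finset.add_mem_add hg hg', ?_⟩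
        rw [va_add, abs_mul]
      exact (Finset.card_le_card h2).trans Finset.card_image_le
    exact_mod_cast h1
  · refine hdbl _ (le_trans ?_ hHu3)
    have h1 : (Finset.image₂ (fun a b => a / b) H H).card ≤ (Hu - Hu).card := by
      have h2 : Finset.image₂ (fun a b => a / b) H H ⊆ (Hu - Hu).image (fun g => |va g|) := by
        intro z hz
        obtain ⟨a, ha, b, hb, rfl⟩ := Finset.mem_image₂.1 hz
        obtain ⟨g, hg, rfl⟩ := (memH a).1 ha
        obtain ⟨g', hg', rfl⟩ := (memH b).1 hb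
        refine Finset.mem_image.2 ⟨g - g', Finset.sub_mem_sub hg hg', ?_⟩
        rw [va_sub, abs_div]
      exact (Finset.card_le_card h2).trans Finset.card_image_le
    exact_mod_cast h1
  · intro h hh
    obtain ⟨g, hg, rfl⟩ := (memH h).1 hh
    have h1 := hHu5 g hg
    have h2 : (cor Au g).card ≤
        ((sym A).filter (fun z : ℤ => ∃ b ∈ A, (b : ℚ) = z * |va g|)).card := by
      refine Finset.card_le_card_of_injOn
        (fun x => if 0 < va g then (va x).num else -(va x).num) ?_ ?_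
      · intro x hx
        obtain ⟨h3, h4⟩ := mem_cor.1 (Finset.mem_coe.1 hx)
        obtain ⟨a, ha, h5⟩ := (memAu x).1 h3
        obtain ⟨b, hb, h6⟩ := (memAu _).1 h4
        rw [va_add, h5] at h6
        simp only
        rw [h5, Rat.num_intCast]
        by_cases h7 : 0 < va g
        · rw [if_pos h7]
          refine Finset.mem_coe.2 (Finset.mem_filter.2 ⟨?_, b, hA1A hb, ?_⟩)
          · unfold sym
            rw [Finset.mem_erase]
            exact ⟨hA10' a ha, Finset.mem_union_left _ (hA1A ha)⟩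
          · rw [abs_of_pos h7, h6]
        · rw [if_neg h7]
          refine Finset.mem_coe.2 (Finset.mem_filter.2 ⟨?_, b, hA1A hb, ?_⟩)
          · unfold sym
            rw [Finset.mem_erase]
            refine ⟨neg_ne_zero.2 (hA10' a ha), Finset.mem_union_right _ ?_⟩
            exact Finset.mem_image_of_mem _ (hA1A ha)
          · rw [abs_of_nonpos (not_lt.1 h7), ← h6]
            push_cast
            ring
      · intro x hx y hy h3
        obtain ⟨h4, _⟩ := mem_cor.1 (Finset.mem_coe.1 hx)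
        obtain ⟨h5, _⟩ := mem_cor.1 (Finset.mem_coe.1 hy)
        obtain ⟨a, _, h6⟩ := (memAu x).1 h4
        obtain ⟨b, _, h7⟩ := (memAu y).1 h5
        simp only at h3
        rw [h6, h7, Rat.num_intCast, Rat.num_intCast] at h3
        apply va_inj
        rw [h6, h7]
        by_cases h8 : 0 < va g
        · rw [if_pos h8, if_pos h8] at h3
          rw [h3]
        · rw [if_neg h8, if_neg h8] at h3
          rw [neg_inj.1 h3]
    have h3 : ((cor Au g).card : ℝ) ≤
        (((sym A).filter (fun z : ℤ => ∃ b ∈ A, (b : ℚ) = z * |va g|)).card : ℝ) := by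
      exact_mod_cast h2
    refine le_trans ?_ (h1.trans h3)
    have h4 := hhalf (1 - κ / 2) (by (clear * - hκ1; linarith only [hκ1]))
    have h5 : (2 : ℝ) ^ (1 - κ / 2) ≤ N ^ (κ / 2) := by
      refine le_trans ?_ hNκ2
      calc (2 : ℝ) ^ (1 - κ / 2) ≤ 2 ^ (1 : ℝ) :=
            Real.rpow_le_rpow_of_exponent_le (by norm_num) (by linarith only [hκ])
        _ = 2 := Real.rpow_one 2
    have h6 : N ^ (1 - κ / 2) ≤ N ^ (κ / 2) * n ^ (1 - κ / 2) :=
      h4.trans (mul_le_mul_of_nonneg_right h5 (Real.rpow_nonneg hnp.le _))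
    have h7 : N ^ (1 - κ / 2) = N ^ (κ / 2) * N ^ (1 - κ) := by
      rw [← Real.rpow_add hNp]
      congr 1
      ring
    rw [h7] at h6
    exact le_of_mul_le_mul_left h6 (Real.rpow_pos_of_pos hNp _)

end Pool.Agent.Helper15.GPQ
end

/- Helper24.DI.H15.GLP.Conv -/
section
set_option autoImplicit false

/-!
# Project GL+ (MP_120218), Conv: trees in sets of vectors as good functions on boxes
-/

namespace Pool.Agent.Helper15.GLP

open Finset Pool.Agent.Helper62.GLP

/-- the list of the pairs `(p j, a j + 1)` with `a j > 0` -/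
def shp : {r : ℕ} → (Fin r → ℕ) → (Fin r → ℕ) → List (ℕ × ℕ)
  | 0, _, _ => []
  | _ + 1, p, a => if a 0 = 0 then shp (Fin.tail p) (Fin.tail a)
      else (p 0, a 0 + 1) :: shp (Fin.tail p) (Fin.tail a)

theorem shp_mem : ∀ {r : ℕ} (p a : Fin r → ℕ) (q : ℕ × ℕ), q ∈ shp p a →
    (∃ j, q.1 = p j) ∧ 2 ≤ q.2 := by
  intro r
  induction r with
  | zero => intro p a q hq; simp [shp] at hq
  | succ r ih =>
    intro p a q hq
    unfold shp at hq
    by_cases h : a 0 = 0
    · rw [if_pos h] at hq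
      obtain ⟨⟨j, hj⟩, h2⟩ := ih _ _ q hq
      exact ⟨⟨j.succ, hj⟩, h2⟩
    · rw [if_neg h, List.mem_cons] at hq
      rcases hq with rfl | hq
      · exact ⟨⟨0, rfl⟩, by show 2 ≤ a 0 + 1; omega⟩
      · obtain ⟨⟨j, hj⟩, h2⟩ := ih _ _ q hq
        exact ⟨⟨j.succ, hj⟩, h2⟩

theorem sum_shp : ∀ {r : ℕ} (p a : Fin r → ℕ), ((∑ j, a j : ℕ) : ℝ) ≤
    ((shp p a).map (fun q => (q.2 : ℝ))).sum := by
  intro r
  induction r with
  | zero => intro p a; simp [shp]
  | succ r ih =>
    intro p a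
    have h1 := ih (Fin.tail p) (Fin.tail a)
    have h2 : ∑ j, a j = a 0 + ∑ j, (Fin.tail a) j := Fin.sum_univ_succ a
    unfold shp
    by_cases h : a 0 = 0
    · rw [if_pos h, h2, h, zero_add]
      exact h1
    · rw [if_neg h, h2, List.map_cons, List.sum_cons]
      push_cast
      push_cast at h1
      (clear * - h1; linarith only [h1])

theorem sum_log_shp : ∀ {r : ℕ} (p a : Fin r → ℕ),
    ((shp p a).map (fun q => Real.log ((q.2 : ℝ) + 2))).sum ≤
      ∑ j, Real.log ((a j : ℝ) + 3) := by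
  intro r
  induction r with
  | zero => intro p a; simp [shp]
  | succ r ih =>
    intro p a
    have h1 := ih (Fin.tail p) (Fin.tail a)
    have h2 : ∑ j, Real.log ((a j : ℝ) + 3) = Real.log ((a 0 : ℝ) + 3) +
      ∑ j, Real.log (((Fin.tail a) j : ℝ) + 3) := Fin.sum_univ_succ _
    have h3 : 0 ≤ Real.log ((a 0 : ℝ) + 3) := by
      apply Real.log_nonneg
      have : (0 : ℝ) ≤ a 0 := Nat.cast_nonneg _
      (clear * -; linarith only [])
    unfold shp
    by_cases h : a 0 = 0
    · rw [if_pos h, h2]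
      (clear * - h1 h3; linarith only [h1, h3])
    · rw [if_neg h, h2, List.map_cons, List.sum_cons]
      have h4 : ((((p 0, a 0 + 1) : ℕ × ℕ).2 : ℕ) : ℝ) + 2 = (a 0 : ℝ) + 3 := by
        push_cast
        ring
      rw [h4]
      (clear * - h1; linarith)

/-- a tree of vectors of valuations gives a good function -/
theorem conv : ∀ {r : ℕ} (p a : Fin r → ℕ) (s : (Fin r → ℕ) → (Fin r → ℤ))
    (D0 : (Fin r → ℕ) → ℕ),
    (∀ t, (∀ j, t j ≤ a j) → ∀ j, ((padicValNat (p j) (D0 t) : ℕ) : ℤ) = s t j) →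
    (∀ t t', (∀ j, t j ≤ a j) → (∀ j, t' j ≤ a j) → ∀ j, (∀ i, i < j → t i = t' i) →
      (s t j = s t' j ↔ t j = t' j)) →
    ∃ D : List ℕ → ℕ, Good (shp p a) D ∧
      ∀ t, InBox (shp p a) t → ∃ t', (∀ j, t' j ≤ a j) ∧ D t = D0 t' := by
  intro r
  induction r with
  | zero =>
    intro p a s D0 _ _
    refine ⟨fun _ => D0 (fun _ => 0), trivial, fun t _ => ⟨fun _ => 0, fun j => j.elim0, rfl⟩⟩
  | succ r ih =>
    intro p a s D0 hD hs
    -- the inductive hypothesis for each value of the first coordinate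
    have key : ∀ i, i ≤ a 0 → ∃ D : List ℕ → ℕ, Good (shp (Fin.tail p) (Fin.tail a)) D ∧
        ∀ t, InBox (shp (Fin.tail p) (Fin.tail a)) t →
          ∃ t' : Fin r → ℕ, (∀ j, t' j ≤ (Fin.tail a) j) ∧ D t = D0 (Fin.cons i t') := by
      intro i hi
      have hbox : ∀ t : Fin r → ℕ, (∀ j, t j ≤ (Fin.tail a) j) →
          ∀ j, (Fin.cons i t : Fin (r + 1) → ℕ) j ≤ a j := by
        intro t ht j
        induction j using Fin.cases with
        | zero => simpa using hi
        | succ j => simpa [Fin.tail] using ht j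
      refine ih (Fin.tail p) (Fin.tail a) (fun t => Fin.tail (s (Fin.cons i t)))
        (fun t => D0 (Fin.cons i t)) ?_ ?_
      · intro t ht j
        exact hD _ (hbox t ht) j.succ
      · intro t t' ht ht' j hj
        have h1 := hs _ _ (hbox t ht) (hbox t' ht') j.succ (by
          intro i' hi'
          induction i' using Fin.cases with
          | zero => simp
          | succ i' =>
            simp only [Fin.cons_succ]
            exact hj i' (Fin.succ_lt_succ_iff.1 hi'))
        simpa [Fin.tail] using h1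
    choose! E hE1 hE2 using key
    by_cases h : a 0 = 0
    · refine ⟨E 0, ?_, ?_⟩
      · unfold shp
        rw [if_pos h]
        exact hE1 0 (by omega)
      · intro t ht
        unfold shp at ht
        rw [if_pos h] at ht
        obtain ⟨t', ht', h2⟩ := hE2 0 (by (clear * - h; omega)) t ht
        refine ⟨Fin.cons 0 t', fun j => ?_, h2⟩
        induction j using Fin.cases with
        | zero => simp
        | succ j => simpa [Fin.tail] using ht' j
    · refine ⟨fun t => match t with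
        | [] => 0
        | i :: t => E i t, ?_, ?_⟩
      · unfold shp
        rw [if_neg h]
        refine ⟨⟨fun i => padicValNat (p 0) (D0 (Fin.cons i (fun _ => 0))), ?_, ?_⟩, ?_⟩
        · intro i hi j hj hij
          have hi' : i ≤ a 0 := by omega
          have hj' : j ≤ a 0 := by omega
          have hb : ∀ i, i ≤ a 0 → ∀ l, (Fin.cons i (fun _ => 0) : Fin (r + 1) → ℕ) l ≤ a l := by
            intro i hi l
            induction l using Fin.cases with
            | zero => simpa using hi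
            | succ l => simp
          have h1 := hs _ _ (hb i hi') (hb j hj') 0 (fun l hl => absurd hl (Fin.not_lt_zero l))
          rw [← hD _ (hb i hi'), ← hD _ (hb j hj')] at h1
          have h2 := h1.1 (by exact_mod_cast hij)
          simpa using h2
        · intro i hi t ht
          have hi' : i ≤ a 0 := by omega
          obtain ⟨t', ht', h2⟩ := hE2 i hi' t ht
          show padicValNat (p 0) (E i t) = _
          rw [h2]
          have hb : ∀ t' : Fin r → ℕ, (∀ j, t' j ≤ (Fin.tail a) j) →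
              ∀ l, (Fin.cons i t' : Fin (r + 1) → ℕ) l ≤ a l := by
            intro t' ht' l
            induction l using Fin.cases with
            | zero => simpa using hi'
            | succ l => simpa [Fin.tail] using ht' l
          have h1 := hs _ _ (hb t' ht') (hb (fun _ => 0) (fun j => Nat.zero_le _)) 0
            (fun l hl => absurd hl (Fin.not_lt_zero l))
          rw [← hD _ (hb t' ht'), ← hD _ (hb (fun _ => 0) (fun j => Nat.zero_le _))] at h1
          have h3 := h1.2 (by simp)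
          exact_mod_cast h3
        · intro i hi
          exact hE1 i (by omega)
      · intro t ht
        unfold shp at ht
        rw [if_neg h] at ht
        cases ht with
        | cons hi ht =>
          rename_i i t
          have hi' : i ≤ a 0 := by
            have : i < a 0 + 1 := hi
            omega
          obtain ⟨t', ht', h2⟩ := hE2 i hi' t ht
          refine ⟨Fin.cons i t', fun j => ?_, h2⟩
          induction j using Fin.cases with
          | zero => simpa using hi'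
          | succ j => simpa [Fin.tail] using ht' j

end Pool.Agent.Helper15.GLP
end

/- Helper24.DI.H15.GPQ.Core -/
section
set_option autoImplicit false

/-!
# Project GL++ (MP_120218), Core: one shape for many multipliers (copy of the lemma of GLP.GrowU)
-/

namespace Pool.Agent.Helper15.GPQ

open Finset Pool.Agent.Helper15.GLP Pool.Agent.Helper62.GLP

/-- the combinatorial core: one shape for many multipliers -/
theorem shape_core (r' N : ℕ) (pr : Fin r' → ℕ) (P' : Finset ℕ)
    (hinj : ∀ s ∈ P', ∀ s' ∈ P', (∀ j, padicValNat (pr j) s = padicValNat (pr j) s') → s = s')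
    (A' : Finset ℤ) (W0 : Finset ℤ) (hW0 : W0.Nonempty)
    (hrich : ∀ w ∈ W0, (N + r').choose r' <
      (P'.filter (fun d : ℕ => (d : ℤ) * w ∈ A')).card) :
    ∃ (a : Fin r' → ℕ) (W : Finset ℤ), W ⊆ W0 ∧ W.Nonempty ∧ ∑ j, a j = N ∧
      (W0.card : ℝ) ≤ ((N + r').choose r' : ℕ) * W.card ∧
      ∀ z ∈ W, ∃ D : List ℕ → ℕ, Good (shp pr a) D ∧
        ∀ t, InBox (shp pr a) t → D t ∈ P' ∧ (D t : ℤ) * z ∈ A' := by
  classical
  obtain ⟨v, hv⟩ : ∃ v : ℕ → (Fin r' → ℤ),
      v = fun d j => ((padicValNat (pr j) d : ℕ) : ℤ) := ⟨_, rfl⟩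
  obtain ⟨S, hS⟩ : ∃ S : ℤ → Finset ℕ, S = fun w => P'.filter (fun d : ℕ => (d : ℤ) * w ∈ A') :=
    ⟨_, rfl⟩
  have memS : ∀ w d, d ∈ S w ↔ d ∈ P' ∧ (d : ℤ) * w ∈ A' := by
    intro w d
    rw [hS]
    exact Finset.mem_filter
  have hvinj : ∀ w, Set.InjOn v (S w) := by
    intro w d hd d' hd' h
    refine hinj d ((memS w d).1 (Finset.mem_coe.1 hd)).1 d' ((memS w d').1 (Finset.mem_coe.1 hd')).1
      fun j => ?_
    have h1 := congrFun h j
    rw [hv] at h1
    simp only at h1
    exact_mod_cast h1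
  have hex : ∀ w, ∃ a : Fin r' → ℕ, w ∈ W0 → (∑ j, a j = N ∧ Tr ((S w).image v) a) := by
    intro w
    by_cases hw : w ∈ W0
    · have h1 : (N + r').choose r' < ((S w).image v).card := by
        rw [Finset.card_image_of_injOn (hvinj w), hS]
        exact hrich w hw
      obtain ⟨a, ha⟩ := exists_shape ((S w).image v) N h1
      exact ⟨a, fun _ => ha⟩
    · exact ⟨fun _ => 0, fun h => absurd h hw⟩
  choose a ha using hex
  have hmaps : ∀ w ∈ W0, a w ∈ shapes r' N := fun w hw => mem_shapes.2 (ha w hw).1.le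
  have hshc : ((shapes r' N).card : ℝ) = (((N + r').choose r' : ℕ) : ℝ) := by rw [card_shapes]
  have hpos : 0 < (N + r').choose r' := Nat.choose_pos (by omega)
  have hposR : (0 : ℝ) < (((N + r').choose r' : ℕ) : ℝ) := by exact_mod_cast hpos
  have hshne : (shapes r' N).Nonempty := by
    rw [← Finset.card_pos, card_shapes]
    exact hpos
  obtain ⟨b, hb⟩ : ∃ b : ℝ, b = (W0.card : ℝ) / ((N + r').choose r' : ℕ) := ⟨_, rfl⟩
  obtain ⟨y, hy, hyb⟩ := Finset.exists_le_card_fiber_of_nsmul_le_card_of_maps_to hmaps hshne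
    (b := b) (by
      rw [nsmul_eq_mul, hshc, hb, mul_div_cancel₀ _ hposR.ne'])
  obtain ⟨W, hW⟩ : ∃ W : Finset ℤ, W = W0.filter (fun w => a w = y) := ⟨_, rfl⟩
  rw [← hW] at hyb
  have hWc : (W0.card : ℝ) ≤ ((N + r').choose r' : ℕ) * W.card := by
    rw [hb, div_le_iff₀ hposR] at hyb
    linarith only [hyb]
  have hWne : W.Nonempty := by
    rw [← Finset.card_pos]
    have h1 : (0 : ℝ) < W0.card := by exact_mod_cast hW0.card_pos
    have h2 : (0 : ℝ) < W.card := by
      by_contra h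
      have : (W.card : ℝ) = 0 := le_antisymm (not_lt.1 h) (Nat.cast_nonneg _)
      rw [this, mul_zero] at hWc
      linarith only [hWc, h1]
    exact_mod_cast h2
  have memW : ∀ w ∈ W, w ∈ W0 ∧ a w = y := by
    intro w hw
    rw [hW] at hw
    exact Finset.mem_filter.1 hw
  refine ⟨y, W, fun w hw => (memW w hw).1, hWne, ?_, hWc, ?_⟩
  · obtain ⟨w, hw⟩ := hWne
    obtain ⟨h1, h2⟩ := memW w hw
    rw [← h2]
    exact (ha w h1).1
  · intro z hz
    obtain ⟨h1, h2⟩ := memW z hz
    obtain ⟨_, s, hs1, hs2⟩ := ha z h1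
    rw [h2] at hs1 hs2
    have hD0 : ∀ t : Fin r' → ℕ, ∃ d : ℕ, (∀ j, t j ≤ y j) → d ∈ S z ∧ v d = s t := by
      intro t
      by_cases ht : ∀ j, t j ≤ y j
      · obtain ⟨d, hd, hd2⟩ := Finset.mem_image.1 (hs1 t ht)
        exact ⟨d, fun _ => ⟨hd, hd2⟩⟩
      · exact ⟨0, fun h => absurd h ht⟩
    choose D0 hD0 using hD0
    obtain ⟨D, hG, hD⟩ := conv pr y s D0 (fun t ht j => by
      have h3 := congrFun (hD0 t ht).2 j
      rw [hv] at h3
      exact h3) hs2
    refine ⟨D, hG, fun t ht => ?_⟩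
    obtain ⟨t', ht', h4⟩ := hD t ht
    have h5 := (memS z _).1 (hD0 t' ht').1
    rw [h4]
    exact h5

end Pool.Agent.Helper15.GPQ
end

/- Helper24.DI.H62.GLP.Kraft -/
section
set_option autoImplicit false

/-!
# Project GL+ (MP_120218, helper62): sums over partitions, Kraft inequality with stopping
-/

namespace Pool.Agent.Helper62.GLP

open Finset Pool.Agent.Helper15.GL

/-- averaging over the parts of a partition -/
theorem part_avg (X : Finset ℤ) (C : ℤ → Finset ℤ) (h1 : ∀ x ∈ X, C x ⊆ X)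
    (h2 : ∀ x ∈ X, x ∈ C x) (h3 : ∀ x ∈ X, ∀ y ∈ C x, C y = C x) (ψ : ℤ → ℝ) :
    ∑ x ∈ X, (∑ y ∈ C x, ψ y) / (C x).card = ∑ x ∈ X, ψ x := by
  classical
  have hsym : ∀ x ∈ X, ∀ y ∈ X, (y ∈ C x ↔ x ∈ C y) := by
    intro x hx y hy
    constructor
    · intro h
      rw [h3 x hx y h]
      exact h2 x hx
    · intro h
      rw [h3 y hy x h]
      exact h2 y hy
  have e1 : ∀ x ∈ X, (∑ y ∈ C x, ψ y) / (C x).card =
      ∑ y ∈ X, if y ∈ C x then ψ y / (C y).card else 0 := by
    intro x hx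
    rw [Finset.sum_div, ← Finset.sum_filter]
    have e2 : X.filter (fun y => y ∈ C x) = C x := by
      ext y
      rw [Finset.mem_filter]
      exact ⟨fun h => h.2, fun h => ⟨h1 x hx h, h⟩⟩
    rw [e2]
    refine Finset.sum_congr rfl fun y hy => ?_
    rw [h3 x hx y hy]
  rw [Finset.sum_congr rfl e1, Finset.sum_comm]
  refine Finset.sum_congr rfl fun y hy => ?_
  have e2 : ∑ x ∈ X, (if y ∈ C x then ψ y / (C y).card else 0) =
      ∑ x ∈ C y, ψ y / (C y).card := by
    rw [← Finset.sum_filter]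
    refine Finset.sum_congr ?_ fun _ _ => rfl
    ext x
    rw [Finset.mem_filter]
    constructor
    · rintro ⟨hx, h⟩
      exact (hsym x hx y hy).1 h
    · intro h
      exact ⟨h1 y hy h, (hsym x (h1 y hy h) y hy).2 h⟩
  rw [e2, Finset.sum_const, nsmul_eq_mul]
  have h4 : ((C y).card : ℝ) ≠ 0 := by
    have := Finset.card_pos.2 ⟨y, h2 y hy⟩
    (clear * - this; positivity)
  (clear * - h4; field_simp)

/-- comparison of two sums, part by part -/
theorem part_sum (X : Finset ℤ) (C : ℤ → Finset ℤ) (h1 : ∀ x ∈ X, C x ⊆ X)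
    (h2 : ∀ x ∈ X, x ∈ C x) (h3 : ∀ x ∈ X, ∀ y ∈ C x, C y = C x) (F G : ℤ → ℝ)
    (h : ∀ x ∈ X, ∑ y ∈ C x, F y ≤ (C x).card * G x) : ∑ x ∈ X, F x ≤ ∑ x ∈ X, G x := by
  rw [← part_avg X C h1 h2 h3 F]
  refine Finset.sum_le_sum fun x hx => ?_
  have h4 : (0 : ℝ) < (C x).card := by exact_mod_cast Finset.card_pos.2 ⟨x, h2 x hx⟩
  rw [div_le_iff₀ h4, mul_comm]
  exact h x hx

/-- digits of a sum -/
theorem dig_add {p l : ℕ} (hp : 0 < p) {X Y : Finset ℤ} {x0 y0 a b : ℤ} (ha : a ∈ cls p l X x0)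
    (hb : b ∈ cls p l Y y0) : dig p l (a + b) = dig p l a + dig p l b +
      (((x0 % (p : ℤ) ^ l + y0 % (p : ℤ) ^ l) / (p : ℤ) ^ l : ℤ) : ZMod p) := by
  obtain ⟨P, hP⟩ : ∃ P : ℤ, P = (p : ℤ) ^ l := ⟨_, rfl⟩
  have hP0 : P ≠ 0 := by rw [hP]; (clear * - hp; positivity)
  have hmod : ∀ {a b : ℤ}, P ∣ a - b → a % P = b % P := fun h =>
    Int.emod_eq_emod_iff_emod_sub_eq_zero.2 (Int.emod_eq_zero_of_dvd h)
  rw [mem_cls, ← hP] at ha hb
  have ha' := hmod ha.2
  have hb' := hmod hb.2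
  have h1 : (a + b) / P = a / P + b / P + (x0 % P + y0 % P) / P := by
    have e1 := Int.mul_ediv_add_emod a P
    have e2 := Int.mul_ediv_add_emod b P
    have e3 : a + b = (x0 % P + y0 % P) + P * (a / P + b / P) := by
      rw [← ha', ← hb', mul_add]
      linarith only [e1, e2]
    rw [e3, Int.add_mul_ediv_left _ _ hP0, add_comm]
  unfold dig
  rw [← hP, h1]
  push_cast
  ring

/-- `∑ F x y` over the pairs `(x, y) ∈ X × Y` with `x + y = s` -/
noncomputable def psum (X Y : Finset ℤ) (F : ℤ → ℤ → ℝ) (s : ℤ) : ℝ :=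
  ∑ x ∈ X.filter (fun x => s - x ∈ Y), F x (s - x)

/-- **Kraft's inequality with stopping.** `L x y` is the level at which the pair `(x, y)` is
stopped, `W l x y` the code for the digits at the level `l` and `lf l` the code for the rest. -/
theorem kraft_stop (p : ℕ) (hp : 0 < p) [NeZero p] (X Y : Finset ℤ) (L : ℤ → ℤ → ℕ)
    (hL : ∀ l, ∀ x ∈ X, ∀ y ∈ Y, l ≤ L x y → ∀ x' ∈ cls p l X x, ∀ y' ∈ cls p l Y y,
      l ≤ L x' y' ∧ (L x y = l → L x' y' = l))
    (W : ℕ → ℤ → ℤ → ZMod p → ZMod p → ℝ) (hW0 : ∀ l x y a b, 0 ≤ W l x y a b)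
    (hW : ∀ l, ∀ x ∈ X, ∀ y ∈ Y, ∀ x' ∈ cls p l X x, ∀ y' ∈ cls p l Y y, W l x' y' = W l x y)
    (hK : ∀ l, ∀ x ∈ X, ∀ y ∈ Y, ∀ s, ∑ a, W l x y a (s - a) ≤ 1)
    (lf : ℕ → ℤ → ℤ → ℝ) (M : ℝ) (hM : 0 ≤ M)
    (hlf : ∀ l, ∀ x ∈ X, ∀ y ∈ Y, ∀ s, psum (cls p l X x) (cls p l Y y) (lf l) s ≤ M) (s : ℤ) :
    psum X Y (fun x y => (∏ i ∈ Finset.range (L x y), W i x y (dig p i x) (dig p i y)) *
      lf (L x y) x y) s ≤ M := by
  classical
  have key : ∀ k l : ℕ, ∀ x0 ∈ X, ∀ y0 ∈ Y, l ≤ L x0 y0 →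
      (∀ x ∈ cls p l X x0, ∀ y ∈ cls p l Y y0, L x y ≤ l + k) →
      psum (cls p l X x0) (cls p l Y y0) (fun x y =>
        (∏ i ∈ Finset.Ico l (L x y), W i x y (dig p i x) (dig p i y)) * lf (L x y) x y) s ≤ M := by
    intro k
    -- the case where everything is stopped at the level `l`
    have hstop : ∀ l : ℕ, ∀ x0 ∈ X, ∀ y0 ∈ Y, L x0 y0 = l →
      psum (cls p l X x0) (cls p l Y y0) (fun x y =>
        (∏ i ∈ Finset.Ico l (L x y), W i x y (dig p i x) (dig p i y)) * lf (L x y) x y) s ≤ M := by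
      intro l x0 hx0 y0 hy0 h0
      refine le_trans (le_of_eq ?_) (hlf l x0 hx0 y0 hy0 s)
      unfold psum
      refine Finset.sum_congr rfl fun x hx => ?_
      rw [Finset.mem_filter] at hx
      have h1 := (hL l x0 hx0 y0 hy0 h0.ge x hx.1 (s - x) hx.2).2 h0
      simp only [h1, Finset.Ico_self, Finset.prod_empty, one_mul]
    induction k with
    | zero =>
      intro l x0 hx0 y0 hy0 h1 h2
      have h3 := h2 x0 (self_mem_cls hx0) y0 (self_mem_cls hy0)
      exact hstop l x0 hx0 y0 hy0 (by omega)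
    | succ k ih =>
      intro l x0 hx0 y0 hy0 h1 h2
      rcases h1.eq_or_lt with h0 | hlt
      · exact hstop l x0 hx0 y0 hy0 h0.symm
      -- not stopped
      have hlt' : ∀ x ∈ cls p l X x0, ∀ y ∈ cls p l Y y0, l < L x y := by
        intro x hx y hy
        have hxX := (mem_cls.1 hx).1
        have hyY := (mem_cls.1 hy).1
        have h3 := (hL l x0 hx0 y0 hy0 h1 x hx y hy).1
        rcases h3.eq_or_lt with h4 | h4
        · exfalso
          have hx' : x0 ∈ cls p l X x := by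
            rw [mem_cls] at hx ⊢
            exact ⟨hx0, (dvd_sub_comm).1 hx.2⟩
          have hy' : y0 ∈ cls p l Y y := by
            rw [mem_cls] at hy ⊢
            exact ⟨hy0, (dvd_sub_comm).1 hy.2⟩
          have h5 := (hL l x hxX y hyY h3 x0 hx' y0 hy').2 h4.symm
          omega
        · exact h4
      obtain ⟨σ, hσ⟩ : ∃ σ : ZMod p, σ = dig p l s -
        (((x0 % (p : ℤ) ^ l + y0 % (p : ℤ) ^ l) / (p : ℤ) ^ l : ℤ) : ZMod p) := ⟨_, rfl⟩
      have hdig : ∀ x ∈ cls p l X x0, s - x ∈ cls p l Y y0 → dig p l (s - x) = σ - dig p l x := by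
        intro x hx hy
        have h3 := dig_add hp hx hy
        rw [add_sub_cancel] at h3
        rw [hσ, h3]
        ring
      obtain ⟨T, hT⟩ : ∃ T : Finset ℤ,
        T = (cls p l X x0).filter (fun x => s - x ∈ cls p l Y y0) := ⟨_, rfl⟩
      have memT : ∀ x, x ∈ T ↔ x ∈ cls p l X x0 ∧ s - x ∈ cls p l Y y0 := by
        intro x
        rw [hT]
        exact Finset.mem_filter
      unfold psum
      rw [← hT, ← Finset.sum_fiberwise T (dig p l)]
      have hpart : ∀ a : ZMod p, ∑ x ∈ T.filter (fun x => dig p l x = a),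
          (∏ i ∈ Finset.Ico l (L x (s - x)), W i x (s - x) (dig p i x) (dig p i (s - x))) *
            lf (L x (s - x)) x (s - x) ≤ W l x0 y0 a (σ - a) * M := by
        intro a
        have hterm : ∀ x ∈ T.filter (fun x => dig p l x = a),
            (∏ i ∈ Finset.Ico l (L x (s - x)), W i x (s - x) (dig p i x) (dig p i (s - x))) *
              lf (L x (s - x)) x (s - x) = W l x0 y0 a (σ - a) *
            ((∏ i ∈ Finset.Ico (l + 1) (L x (s - x)),
              W i x (s - x) (dig p i x) (dig p i (s - x))) * lf (L x (s - x)) x (s - x)) := by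
          intro x hx
          rw [Finset.mem_filter, memT] at hx
          rw [Finset.prod_eq_prod_Ico_succ_bot (hlt' x hx.1.1 _ hx.1.2),
            hW l x0 hx0 y0 hy0 x hx.1.1 _ hx.1.2, hdig x hx.1.1 hx.1.2, hx.2, mul_assoc]
        rw [Finset.sum_congr rfl hterm, ← Finset.mul_sum]
        refine mul_le_mul_of_nonneg_left ?_ (hW0 _ _ _ _ _)
        rcases (T.filter (fun x => dig p l x = a)).eq_empty_or_nonempty with h0 | ⟨x1, hx1⟩
        · rw [h0, Finset.sum_empty]
          exact hM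
        · rw [Finset.mem_filter, memT] at hx1
          have hx1X := (mem_cls.1 hx1.1.1).1
          have hy1Y := (mem_cls.1 hx1.1.2).1
          have e : T.filter (fun x => dig p l x = a) = (cls p (l + 1) X x1).filter
              (fun x => s - x ∈ cls p (l + 1) Y (s - x1)) := by
            have f1 := filter_dig p l hp X x0 x1 hx1.1.1
            have f2 := filter_dig p l hp Y y0 (s - x1) hx1.1.2
            ext x
            rw [Finset.mem_filter, memT, Finset.mem_filter, ← f1, ← f2, Finset.mem_filter,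
              Finset.mem_filter]
            constructor
            · rintro ⟨⟨h3, h4⟩, h5⟩
              refine ⟨⟨h3, h5.trans hx1.2.symm⟩, h4, ?_⟩
              rw [hdig x h3 h4, hdig x1 hx1.1.1 hx1.1.2, h5, hx1.2]
            · rintro ⟨⟨h3, h4⟩, h5, -⟩
              exact ⟨⟨h3, h5⟩, h4.trans hx1.2⟩
          rw [e]
          have h3 := ih (l + 1) x1 hx1X (s - x1) hy1Y (hlt' x1 hx1.1.1 _ hx1.1.2)
            (by
              intro x hx y hy
              have h4 := h2 x (by
                have := cls_succ_subset p l X x1 hx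
                rwa [cls_eq (mem_cls.1 hx1.1.1).2] at this) y (by
                have := cls_succ_subset p l Y (s - x1) hy
                rwa [cls_eq (mem_cls.1 hx1.1.2).2] at this)
              omega)
          exact h3
      refine (Finset.sum_le_sum fun a _ => hpart a).trans ?_
      rw [← Finset.sum_mul]
      exact mul_le_of_le_one_left hM (hK l x0 hx0 y0 hy0 σ)
  -- conclusion
  unfold psum
  rcases (X.filter (fun x => s - x ∈ Y)).eq_empty_or_nonempty with h0 | ⟨x1, hx1⟩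
  · rw [h0, Finset.sum_empty]
    exact hM
  · rw [Finset.mem_filter] at hx1
    have h1 := key ((X ×ˢ Y).sup fun q => L q.1 q.2) 0 x1 hx1.1 (s - x1) hx1.2 (Nat.zero_le _)
      (by
        intro x hx y hy
        rw [cls_zero] at hx hy
        rw [zero_add]
        exact Finset.le_sup (f := fun q : ℤ × ℤ => L q.1 q.2)
          (Finset.mem_product.2 ⟨hx, hy⟩ : (x, y) ∈ X ×ˢ Y))
    unfold psum at h1
    rw [cls_zero, cls_zero] at h1
    refine le_trans (le_of_eq ?_) h1
    refine Finset.sum_congr rfl fun x _ => ?_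
    simp only [Finset.range_eq_Ico]

end Pool.Agent.Helper62.GLP
end

/- Helper24.DI.H62.GLP.Mc -/
section
set_option autoImplicit false

/-!
# Project GL+ (MP_120218, helper62): the cost of a pair `(x, y)` given `x + y`
-/

namespace Pool.Agent.Helper62.GLP

open Finset Pool.Agent.Helper15.GL

/-- `node_code` as a predicate -/
def NodeP (η t0 : ℝ) : Prop :=
  ∀ (G : Type) [Fintype G] [AddCommGroup G] (f g : G → ℝ),
    (∀ a, 0 ≤ f a) → (∀ a, 0 ≤ g a) → ∑ a, f a = 1 → ∑ a, g a = 1 →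
    ∃ W : G → G → ℝ, IsCode η t0 f g W

/-- the entropy of the `l`-th digit in the class of `x` modulo `p ^ l` -/
noncomputable def al (p l : ℕ) (X : Finset ℤ) (x : ℤ) : ℝ :=
  (∑ y ∈ cls p l X x, ell p l X y) / (cls p l X x).card

theorem al_nonneg (p l : ℕ) (X : Finset ℤ) (x : ℤ) : 0 ≤ al p l X x :=
  div_nonneg (Finset.sum_nonneg fun y hy => ell_nonneg p l X y (mem_cls.1 hy).1)
    (Nat.cast_nonneg _)

theorem al_cls {p i l : ℕ} (hil : i ≤ l) {X : Finset ℤ} {x x' : ℤ} (h : x' ∈ cls p l X x) :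
    al p i X x' = al p i X x := by
  unfold al
  rw [cls_eq (mem_cls.1 (cls_anti p hil X x h)).2]

/-- the code for the digits of the class pair -/
noncomputable def Wc (η t0 : ℝ) (p : ℕ) (f g : ZMod p → ℝ) : ZMod p → ZMod p → ℝ := by
  classical
  exact if h : p ≠ 0 then
    (have : NeZero p := ⟨h⟩
     if h' : ∃ W : ZMod p → ZMod p → ℝ, IsCode η t0 f g W then h'.choose else fun _ _ => 0)
  else fun _ _ => 0

theorem Wc_nonneg (η t0 : ℝ) (p : ℕ) (f g : ZMod p → ℝ) (a b : ZMod p) :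
    0 ≤ Wc η t0 p f g a b := by
  unfold Wc
  by_cases h : p ≠ 0
  · rw [dif_pos h]
    have : NeZero p := ⟨h⟩
    by_cases h' : ∃ W : ZMod p → ZMod p → ℝ, IsCode η t0 f g W
    · rw [dif_pos h']
      exact h'.choose_spec.nonneg a b
    · rw [dif_neg h']
  · rw [dif_neg h]

theorem Wc_spec {η t0 : ℝ} (hN : NodeP η t0) (p : ℕ) [NeZero p] (f g : ZMod p → ℝ)
    (hf : ∀ a, 0 ≤ f a) (hg : ∀ a, 0 ≤ g a) (hf1 : ∑ a, f a = 1) (hg1 : ∑ a, g a = 1) :
    IsCode η t0 f g (Wc η t0 p f g) := by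
  unfold Wc
  have h : p ≠ 0 := NeZero.ne p
  have h' : ∃ W : ZMod p → ZMod p → ℝ, IsCode η t0 f g W := hN (ZMod p) f g hf hg hf1 hg1
  rw [dif_pos h]
  rw [dif_pos h']
  exact h'.choose_spec

/-- the code at the level `l` for the pair of classes of `x` and `y` -/
noncomputable def Wn (η t0 : ℝ) (p l : ℕ) (X Y : Finset ℤ) (x y : ℤ) : ZMod p → ZMod p → ℝ :=
  Wc η t0 p (law (cls p l X x) (dig p l)) (law (cls p l Y y) (dig p l))

/-- the cost of the `l`-th digits of `x` and `y` -/
noncomputable def nc (η t0 : ℝ) (p l : ℕ) (X Y : Finset ℤ) (x y : ℤ) : ℝ :=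
  -Real.log (Wn η t0 p l X Y x y (dig p l x) (dig p l y))

theorem Wn_spec {η t0 : ℝ} (hN : NodeP η t0) (p l : ℕ) [NeZero p] (X Y : Finset ℤ) (x y : ℤ)
    (hx : x ∈ X) (hy : y ∈ Y) : IsCode η t0 (law (cls p l X x) (dig p l))
      (law (cls p l Y y) (dig p l)) (Wn η t0 p l X Y x y) :=
  Wc_spec hN p _ _ (law_nonneg _ _) (law_nonneg _ _) (sum_law _ (cls_nonempty hx) _)
    (sum_law _ (cls_nonempty hy) _)

theorem law_dig_pos (p l : ℕ) (X : Finset ℤ) (x0 x : ℤ) (hx : x ∈ cls p l X x0) :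
    0 < law (cls p l X x0) (dig p l) (dig p l x) := by
  unfold law
  have h1 : 0 < ((cls p l X x0).filter (fun y => dig p l y = dig p l x)).card :=
    Finset.card_pos.2 ⟨x, Finset.mem_filter.2 ⟨hx, rfl⟩⟩
  have h2 : 0 < (cls p l X x0).card := Finset.card_pos.2 ⟨x, hx⟩
  have h3 : (0 : ℝ) < ((cls p l X x0).filter (fun y => dig p l y = dig p l x)).card := by
    exact_mod_cast h1
  have h4 : (0 : ℝ) < (cls p l X x0).card := by exact_mod_cast h2
  exact div_pos h3 h4

theorem Wn_pos {η t0 : ℝ} (hN : NodeP η t0) (p l : ℕ) [NeZero p] (X Y : Finset ℤ) (x y : ℤ)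
    (hx : x ∈ X) (hy : y ∈ Y) : 0 < Wn η t0 p l X Y x y (dig p l x) (dig p l y) :=
  (Wn_spec hN p l X Y x y hx hy).pos _ _ (law_dig_pos p l X x x (self_mem_cls hx))
    (law_dig_pos p l Y y y (self_mem_cls hy))

/-- what is revealed before the level `l` -/
noncomputable def rev (p l : ℕ) (X Y : Finset ℤ) (x y : ℤ) : ℝ :=
  ∑ i ∈ Finset.range l, al p i X x + (Real.log Y.card - Real.log (cls p l Y y).card)

/-- the number of levels below `l` with a big digit entropy -/
noncomputable def nbig (t0 : ℝ) (p l : ℕ) (X : Finset ℤ) (x : ℤ) : ℕ := by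
  classical exact ((Finset.range l).filter (fun i => t0 ≤ al p i X x)).card

/-- the threshold -/
noncomputable def thr (K ε : ℝ) (n : ℕ) (X Y : Finset ℤ) : ℝ :=
  min (ε * n) (K * (Real.log X.card + Real.log Y.card))

/-- the stopping rule with the announced number `i` -/
def St (t0 R : ℝ) (p : ℕ) (X Y : Finset ℤ) (i l : ℕ) (x y : ℤ) : Prop :=
  R ≤ rev p l X Y x y ∨ ((cls p l X x).card = 1 ∧ (cls p l Y y).card = 1) ∨
    (t0 ≤ al p l X x ∧ nbig t0 p l X x = i)

/-- the level at which `(x, y)` is stopped -/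
noncomputable def lev (t0 R : ℝ) (p : ℕ) (X Y : Finset ℤ) (i : ℕ) (x y : ℤ) : ℕ :=
  sInf {l | St t0 R p X Y i l x y}

/-- the cost of `(x, y)` given `x + y` -/
noncomputable def mc (η t0 K ε : ℝ) : List (ℕ × ℕ) → Finset ℤ → Finset ℤ → ℤ → ℤ → ℝ
  | [], X, _, _, _ => Real.log X.card
  | (p, n) :: s, X, Y, x, y => (Finset.range (n + 2)).inf' ⟨0, by simp⟩ (fun i =>
      ∑ l ∈ Finset.range (lev t0 (thr K ε n X Y) p X Y i x y), nc η t0 p l X Y x y +
      mc η t0 K ε s (cls p (lev t0 (thr K ε n X Y) p X Y i x y) X x)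
        (cls p (lev t0 (thr K ε n X Y) p X Y i x y) Y y) x y)

theorem rev_cls {p j l : ℕ} (h : j ≤ l) {X Y : Finset ℤ} {x x' y y' : ℤ}
    (hx : x' ∈ cls p l X x) (hy : y' ∈ cls p l Y y) : rev p j X Y x' y' = rev p j X Y x y := by
  unfold rev
  rw [cls_eq (mem_cls.1 (cls_anti p h Y y hy)).2]
  congr 1
  refine Finset.sum_congr rfl fun i hi => ?_
  exact al_cls ((Finset.mem_range.1 hi).le.trans h) hx

theorem nbig_cls {t0 : ℝ} {p j l : ℕ} (h : j ≤ l) {X : Finset ℤ} {x x' : ℤ}
    (hx : x' ∈ cls p l X x) : nbig t0 p j X x' = nbig t0 p j X x := by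
  unfold nbig
  congr 1
  refine Finset.filter_congr fun i hi => ?_
  rw [al_cls ((Finset.mem_range.1 hi).le.trans h) hx]

theorem St_cls {t0 R : ℝ} {p j l i : ℕ} (h : j ≤ l) {X Y : Finset ℤ} {x x' y y' : ℤ}
    (hx : x' ∈ cls p l X x) (hy : y' ∈ cls p l Y y) :
    St t0 R p X Y i j x' y' ↔ St t0 R p X Y i j x y := by
  unfold St
  rw [rev_cls h hx hy, nbig_cls h hx, al_cls h hx, cls_eq (mem_cls.1 (cls_anti p h Y y hy)).2,
    cls_eq (mem_cls.1 (cls_anti p h X x hx)).2]

theorem exists_St (t0 R : ℝ) {p : ℕ} (hp : 2 ≤ p) (X Y : Finset ℤ) (i : ℕ) (x y : ℤ)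
    (hx : x ∈ X) (hy : y ∈ Y) : {l | St t0 R p X Y i l x y}.Nonempty := by
  obtain ⟨J1, h1⟩ := exists_singleton p hp X
  obtain ⟨J2, h2⟩ := exists_singleton p hp Y
  refine ⟨max J1 J2, Or.inr (Or.inl ⟨?_, ?_⟩)⟩
  · rw [h1 _ (le_max_left _ _) x hx, Finset.card_singleton]
  · rw [h2 _ (le_max_right _ _) y hy, Finset.card_singleton]

theorem lev_cls {t0 R : ℝ} {p : ℕ} (hp : 2 ≤ p) {X Y : Finset ℤ} {i l : ℕ} {x x' y y' : ℤ}
    (hxX : x ∈ X) (hyY : y ∈ Y) (hl : l ≤ lev t0 R p X Y i x y)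
    (hx : x' ∈ cls p l X x) (hy : y' ∈ cls p l Y y) :
    l ≤ lev t0 R p X Y i x' y' ∧ (lev t0 R p X Y i x y = l → lev t0 R p X Y i x' y' = l) := by
  have h1 := Nat.sInf_mem (exists_St t0 R hp X Y i x y hxX hyY)
  have h2 := Nat.sInf_mem (exists_St t0 R hp X Y i x' y' (mem_cls.1 hx).1 (mem_cls.1 hy).1)
  have h3 : l ≤ lev t0 R p X Y i x' y' := by
    by_contra hcon
    rw [not_le] at hcon
    have h4 : St t0 R p X Y i (lev t0 R p X Y i x' y') x y := (St_cls hcon.le hx hy).1 h2
    have h5 : lev t0 R p X Y i x y ≤ lev t0 R p X Y i x' y' := Nat.sInf_le h4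
    omega
  refine ⟨h3, fun h => le_antisymm ?_ h3⟩
  have h4 : St t0 R p X Y i l x y := by
    have h6 : St t0 R p X Y i (lev t0 R p X Y i x y) x y := h1
    rwa [h] at h6
  exact Nat.sInf_le (s := {l | St t0 R p X Y i l x' y'}) ((St_cls le_rfl hx hy).2 h4)

theorem psum_mono {X Y : Finset ℤ} {F G : ℤ → ℤ → ℝ} (h : ∀ x ∈ X, ∀ y ∈ Y, F x y ≤ G x y)
    (s : ℤ) : psum X Y F s ≤ psum X Y G s := by
  unfold psum
  refine Finset.sum_le_sum fun x hx => ?_
  rw [Finset.mem_filter] at hx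
  exact h x hx.1 _ hx.2

theorem psum_sum {ι : Type} (T : Finset ι) (X Y : Finset ℤ) (F : ι → ℤ → ℤ → ℝ) (s : ℤ) :
    psum X Y (fun x y => ∑ i ∈ T, F i x y) s = ∑ i ∈ T, psum X Y (F i) s := by
  unfold psum
  exact Finset.sum_comm

theorem exp_neg_inf' {ι : Type} (T : Finset ι) (hT : T.Nonempty) (F : ι → ℝ) :
    Real.exp (-T.inf' hT F) ≤ ∑ i ∈ T, Real.exp (-F i) := by
  obtain ⟨i, hi, h⟩ := Finset.exists_mem_eq_inf' hT F
  rw [h]
  exact Finset.single_le_sum (f := fun i => Real.exp (-F i)) (fun i _ => (Real.exp_pos _).le) hi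

/-- **Kraft's inequality for the cost.** -/
theorem mc_kraft {η t0 : ℝ} (K ε : ℝ) (hN : NodeP η t0) (s : List (ℕ × ℕ))
    (hs : ∀ q ∈ s, 2 ≤ q.1) : ∀ (X Y : Finset ℤ) (σ : ℤ),
    psum X Y (fun x y => Real.exp (-mc η t0 K ε s X Y x y)) σ ≤
      (s.map (fun q => (q.2 : ℝ) + 2)).prod := by
  induction s with
  | nil =>
    intro X Y σ
    rw [List.map_nil, List.prod_nil]
    unfold psum
    simp only [mc]
    rw [Finset.sum_const, nsmul_eq_mul]
    rcases X.eq_empty_or_nonempty with h | h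
    · rw [h]
      simp
    · have h1 : (0 : ℝ) < X.card := by exact_mod_cast h.card_pos
      rw [Real.exp_neg, Real.exp_log h1]
      have h2 : ((X.filter (fun x => σ - x ∈ Y)).card : ℝ) ≤ X.card := by
        exact_mod_cast Finset.card_filter_le _ _
      rw [← div_eq_mul_inv, div_le_one h1]
      exact h2
  | cons q s ih =>
    obtain ⟨p, n⟩ := q
    intro X Y σ
    have hp : 2 ≤ p := hs (p, n) (List.mem_cons_self ..)
    have ih' := ih (fun q hq => hs q (List.mem_cons_of_mem _ hq))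
    have : NeZero p := ⟨by omega⟩
    obtain ⟨M, hM⟩ : ∃ M : ℝ, M = (s.map (fun q => (q.2 : ℝ) + 2)).prod := ⟨_, rfl⟩
    have hM0 : 0 ≤ M := by
      rw [hM]
      refine List.prod_nonneg fun a ha => ?_
      obtain ⟨q, _, rfl⟩ := List.mem_map.1 ha
      (clear * -; positivity)
    rw [← hM] at ih'
    rw [List.map_cons, List.prod_cons, ← hM]
    have h1 : psum X Y (fun x y => Real.exp (-mc η t0 K ε ((p, n) :: s) X Y x y)) σ ≤
        psum X Y (fun x y => ∑ i ∈ Finset.range (n + 2), Real.exp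
          (-(∑ l ∈ Finset.range (lev t0 (thr K ε n X Y) p X Y i x y), nc η t0 p l X Y x y +
      mc η t0 K ε s (cls p (lev t0 (thr K ε n X Y) p X Y i x y) X x)
        (cls p (lev t0 (thr K ε n X Y) p X Y i x y) Y y) x y))) σ := by
      refine psum_mono (fun x _ y _ => ?_) σ
      simp only [mc]
      exact exp_neg_inf' _ _ _
    refine h1.trans ?_
    rw [psum_sum]
    have h2 : ∀ i ∈ Finset.range (n + 2), psum X Y (fun x y => Real.exp
          (-(∑ l ∈ Finset.range (lev t0 (thr K ε n X Y) p X Y i x y), nc η t0 p l X Y x y +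
      mc η t0 K ε s (cls p (lev t0 (thr K ε n X Y) p X Y i x y) X x)
        (cls p (lev t0 (thr K ε n X Y) p X Y i x y) Y y) x y))) σ ≤ M := by
      intro i _
      have h3 := kraft_stop p (by omega) X Y (fun x y => lev t0 (thr K ε n X Y) p X Y i x y)
        (fun l x hx y hy hl x' hx' y' hy' => lev_cls hp hx hy hl hx' hy')
        (fun l x y => Wn η t0 p l X Y x y)
        (fun l x y a b => Wc_nonneg _ _ _ _ _ _ _)
        (fun l x _ y _ x' hx' y' hy' => by
          unfold Wn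
          rw [cls_eq (mem_cls.1 hx').2, cls_eq (mem_cls.1 hy').2])
        (fun l x hx y hy s => (Wn_spec hN p l X Y x y hx hy).kraft s)
        (fun l x y => Real.exp (-mc η t0 K ε s (cls p l X x) (cls p l Y y) x y)) M hM0
        (fun l x _ y _ s => by
          refine le_trans (psum_mono (fun x' hx' y' hy' => ?_) s)
            (ih' (cls p l X x) (cls p l Y y) s)
          rw [cls_eq (mem_cls.1 hx').2, cls_eq (mem_cls.1 hy').2]) σ
      refine le_trans (psum_mono (fun x hx y hy => ?_) σ) h3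
      rw [neg_add, Real.exp_add, ← Finset.sum_neg_distrib, Real.exp_sum]
      refine mul_le_mul_of_nonneg_right (le_of_eq ?_) (Real.exp_pos _).le
      refine Finset.prod_congr rfl fun l _ => ?_
      unfold nc
      rw [neg_neg, Real.exp_log (Wn_pos hN p l X Y x y hx hy)]
    refine (Finset.sum_le_sum h2).trans (le_of_eq ?_)
    rw [Finset.sum_const, Finset.card_range, nsmul_eq_mul]
    push_cast
    ring

end Pool.Agent.Helper62.GLP
end

/- Helper24.DI.H62.GLP.Count -/
section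
set_option autoImplicit false

/-!
# Project GL+ (MP_120218, helper62): few shifts are bad

`α`, `β` are two sequences of non-negative numbers. Among `n` different shifts `c` there are few
for which big terms of `α` and terms of `β` shifted by `c` meet too often at the beginning.
-/

namespace Pool.Agent.Helper62.GLP

open Finset

/-- `β` shifted by `c` -/
def shf (β : ℕ → ℝ) (c l : ℕ) : ℝ := if c ≤ l then β (l - c) else 0

/-- the sum of the coincidences up to the level `l` -/
noncomputable def Lam (t0 b : ℝ) (α β : ℕ → ℝ) (c l : ℕ) : ℝ := by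
  classical exact ∑ i ∈ Finset.range l, if t0 ≤ α i ∧ b ≤ shf β c i then shf β c i else 0

/-- the shift `c` is bad -/
def Bad (t0 b R e : ℝ) (α β : ℕ → ℝ) (c : ℕ) : Prop :=
  ∃ l, ∑ i ∈ Finset.range l, α i + ∑ i ∈ Finset.range (l - c), β i < R ∧
    e * R < Lam t0 b α β c (l + 1)

theorem card_big {α : ℕ → ℝ} (hα : ∀ i, 0 ≤ α i) {t R : ℝ} (B : Finset ℕ)
    (hB : ∀ i ∈ B, t ≤ α i ∧ ∑ j ∈ Finset.range i, α j < R) (hne : B.Nonempty) :
    ((B.card : ℝ) - 1) * t < R := by
  have hm := B.max'_mem hne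
  obtain ⟨m, hmd⟩ : ∃ m, m = B.max' hne := ⟨_, rfl⟩
  rw [← hmd] at hm
  have hsub : B.erase m ⊆ Finset.range m := by
    intro i hi
    rw [Finset.mem_erase] at hi
    rw [Finset.mem_range]
    have h1 := B.le_max' i hi.2
    rw [← hmd] at h1
    omega
  have h1 : ∑ i ∈ B.erase m, α i ≤ ∑ i ∈ Finset.range m, α i :=
    Finset.sum_le_sum_of_subset_of_nonneg hsub fun i _ _ => hα i
  have h2 : ∑ i ∈ B.erase m, t ≤ ∑ i ∈ B.erase m, α i :=
    Finset.sum_le_sum fun i hi => (hB i (Finset.mem_of_mem_erase hi)).1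
  rw [Finset.sum_const, nsmul_eq_mul] at h2
  have h3 : ((B.erase m).card : ℝ) = B.card - 1 := by
    have h4 := Finset.card_erase_add_one hm
    have h5 : ((B.erase m).card : ℝ) + 1 = B.card := by exact_mod_cast h4
    linarith only [h5]
  rw [h3] at h2
  (clear * - hB hm h1 h2; linarith only [(hB m hm).2, h1, h2])

theorem count_bad {α β : ℕ → ℝ} (hα : ∀ i, 0 ≤ α i) (hβ : ∀ i, 0 ≤ β i) {t0 b R e : ℝ}
    (ht0 : 0 < t0) (hb : 0 < b) (hR : 0 < R) (he : 0 < e) (n : ℕ) (c : ℕ → ℕ)
    (hc : ∀ i < n, ∀ j < n, c i = c j → i = j) (G : Finset ℕ) (hG : G ⊆ Finset.range n)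
    (hbad : ∀ j ∈ G, Bad t0 b R e α β (c j)) :
    (G.card : ℝ) ≤ (R / t0 + 1) * (1 / e + 1) ∧ (R ≤ t0 → R ≤ b → (G.card : ℝ) ≤ 1) := by
  classical
  have hex : ∀ j : ℕ, ∃ l, j ∈ G → (∑ i ∈ Finset.range l, α i +
      ∑ i ∈ Finset.range (l - c j), β i < R ∧ e * R < Lam t0 b α β (c j) (l + 1)) := by
    intro j
    by_cases hj : j ∈ G
    · obtain ⟨l, hl⟩ := hbad j hj
      exact ⟨l, fun _ => hl⟩
    · exact ⟨0, fun h => absurd h hj⟩
  choose lv hlv using hex
  obtain ⟨N, hN⟩ : ∃ N : ℕ, N = G.sup lv + 1 := ⟨_, rfl⟩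
  have hlN : ∀ j ∈ G, lv j < N := fun j hj => by
    rw [hN]
    exact Nat.lt_succ_of_le (Finset.le_sup (f := lv) hj)
  obtain ⟨B, hB⟩ : ∃ B : Finset ℕ, B = (Finset.range N).filter
    (fun i => t0 ≤ α i ∧ ∑ j ∈ Finset.range i, α j < R) := ⟨_, rfl⟩
  obtain ⟨A, hA⟩ : ∃ A : Finset ℕ, A = (Finset.range N).filter
    (fun i => b ≤ β i ∧ ∑ j ∈ Finset.range i, β j < R) := ⟨_, rfl⟩
  have memB : ∀ i, i ∈ B ↔ i < N ∧ (t0 ≤ α i ∧ ∑ j ∈ Finset.range i, α j < R) := fun i => by
    rw [hB, Finset.mem_filter, Finset.mem_range]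
  have memA : ∀ i, i ∈ A ↔ i < N ∧ (b ≤ β i ∧ ∑ j ∈ Finset.range i, β j < R) := fun i => by
    rw [hA, Finset.mem_filter, Finset.mem_range]
  obtain ⟨S, hS⟩ : ∃ S : ℕ → Finset ℕ, S = fun j => (Finset.range (lv j + 1)).filter
    (fun i => t0 ≤ α i ∧ b ≤ shf β (c j) i) := ⟨_, rfl⟩
  have memS : ∀ j i, i ∈ S j ↔ i < lv j + 1 ∧ (t0 ≤ α i ∧ b ≤ shf β (c j) i) := fun j i => by
    rw [hS, Finset.mem_filter, Finset.mem_range]
  have hle : ∀ j i, i ∈ S j → c j ≤ i ∧ shf β (c j) i = β (i - c j) := by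
    intro j i hi
    have h1 := ((memS j i).1 hi).2.2
    unfold shf at h1 ⊢
    by_cases h : c j ≤ i
    · exact ⟨h, if_pos h⟩
    · rw [if_neg h] at h1
      linarith only [hb, h1]
  obtain ⟨w, hw⟩ : ∃ w : ℕ → ℝ, w = fun i => min (β i / (e * R)) 1 := ⟨_, rfl⟩
  have heR : 0 < e * R := mul_pos he hR
  have hw0 : ∀ i, 0 ≤ w i := fun i => by
    rw [hw]
    exact le_min (div_nonneg (hβ i) heR.le) zero_le_one
  -- every bad shift has weight at least one
  have hone : ∀ j ∈ G, 1 ≤ ∑ i ∈ S j, w (i - c j) := by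
    intro j hj
    have h1 := (hlv j hj).2
    have h2 : Lam t0 b α β (c j) (lv j + 1) = ∑ i ∈ S j, β (i - c j) := by
      unfold Lam
      rw [← Finset.sum_filter]
      have h3 : (Finset.range (lv j + 1)).filter (fun i => t0 ≤ α i ∧ b ≤ shf β (c j) i) = S j := by
        rw [hS]
      rw [h3]
      exact Finset.sum_congr rfl fun i hi => (hle j i hi).2
    rw [h2] at h1
    by_cases hex : ∃ i ∈ S j, e * R ≤ β (i - c j)
    · obtain ⟨i, hi, hi2⟩ := hex
      have h3 : w (i - c j) = 1 := by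
        rw [hw]
        exact min_eq_right ((le_div_iff₀ heR).2 (by rw [one_mul]; exact hi2))
      rw [← h3]
      exact Finset.single_le_sum (f := fun i => w (i - c j)) (fun i _ => hw0 _) hi
    · push Not at hex
      have h3 : ∑ i ∈ S j, w (i - c j) = ∑ i ∈ S j, β (i - c j) / (e * R) := by
        refine Finset.sum_congr rfl fun i hi => ?_
        rw [hw]
        exact min_eq_left ((div_le_one heR).2 (hex i hi).le)
      rw [h3, ← Finset.sum_div, le_div_iff₀ heR, one_mul]
      exact h1.le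
  -- each pair of levels has only one shift
  have hpairs : ∑ j ∈ G, ∑ i ∈ S j, w (i - c j) ≤ ∑ q ∈ B ×ˢ A, w q.2 := by
    rw [Finset.sum_sigma']
    obtain ⟨g, hg⟩ : ∃ g : (_ : ℕ) × ℕ → ℕ × ℕ, g = fun q => (q.2, q.2 - c q.1) := ⟨_, rfl⟩
    have hinj : Set.InjOn g (G.sigma S : Finset ((_ : ℕ) × ℕ)) := by
      rintro ⟨j, i⟩ hq ⟨j', i'⟩ hq' h
      rw [Finset.mem_coe, Finset.mem_sigma] at hq hq'
      rw [hg] at h
      simp only [Prod.mk.injEq] at h
      obtain ⟨h1, h2⟩ := h
      subst h1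
      have h3 := (hle j i hq.2).1
      have h4 := (hle j' i hq'.2).1
      have h5 : j = j' := hc j (Finset.mem_range.1 (hG hq.1)) j' (Finset.mem_range.1 (hG hq'.1))
        (by omega)
      subst h5
      rfl
    have h1 : ∑ x ∈ G.sigma S, w (x.2 - c x.1) = ∑ q ∈ (G.sigma S).image g, w q.2 := by
      rw [Finset.sum_image hinj, hg]
    rw [h1]
    refine Finset.sum_le_sum_of_subset_of_nonneg ?_ fun q _ _ => hw0 _
    intro q hq
    obtain ⟨⟨j, i⟩, hji, rfl⟩ := Finset.mem_image.1 hq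
    rw [Finset.mem_sigma] at hji
    have h2 := (memS j i).1 hji.2
    have h3 := hle j i hji.2
    rw [h3.2] at h2
    have h4 := (hlv j hji.1).1
    have h5 := hlN j hji.1
    have h6 : ∑ k ∈ Finset.range i, α k ≤ ∑ k ∈ Finset.range (lv j), α k :=
      Finset.sum_le_sum_of_subset_of_nonneg (Finset.range_subset_range.2 (by omega))
        fun k _ _ => hα k
    have h7 : ∑ k ∈ Finset.range (i - c j), β k ≤ ∑ k ∈ Finset.range (lv j - c j), β k :=
      Finset.sum_le_sum_of_subset_of_nonneg (Finset.range_subset_range.2 (by omega))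
        fun k _ _ => hβ k
    have h8 : 0 ≤ ∑ k ∈ Finset.range (lv j), α k := Finset.sum_nonneg fun k _ => hα k
    have h9 : 0 ≤ ∑ k ∈ Finset.range (lv j - c j), β k := Finset.sum_nonneg fun k _ => hβ k
    rw [hg, Finset.mem_product, memB, memA]
    refine ⟨⟨?_, h2.2.1, ?_⟩, ?_, h2.2.2, ?_⟩
    · show i < N
      omega
    · show ∑ k ∈ Finset.range i, α k < R
      (clear * - h4 h6 h9; linarith only [h4, h6, h9])
    · show i - c j < N
      omega
    · show ∑ k ∈ Finset.range (i - c j), β k < R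
      (clear * - h4 h7 h8; linarith only [h4, h7, h8])
  have hcardG : (G.card : ℝ) ≤ ∑ q ∈ B ×ˢ A, w q.2 := by
    refine le_trans ?_ hpairs
    calc (G.card : ℝ) = ∑ _j ∈ G, (1 : ℝ) := by rw [Finset.sum_const, nsmul_eq_mul, mul_one]
      _ ≤ _ := Finset.sum_le_sum hone
  have hprod : ∑ q ∈ B ×ˢ A, w q.2 = B.card * ∑ i ∈ A, w i := by
    rw [Finset.sum_product]
    simp only [Finset.sum_const, nsmul_eq_mul]
  rw [hprod] at hcardG
  have hBc : (B.card : ℝ) ≤ R / t0 + 1 := by
    rcases B.eq_empty_or_nonempty with h | h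
    · rw [h, Finset.card_empty, Nat.cast_zero]
      (clear * - hR ht0; positivity)
    · have h1 := card_big hα B (fun i hi => ((memB i).1 hi).2) h
      have h2 : (B.card : ℝ) - 1 ≤ R / t0 := by
        rw [le_div_iff₀ ht0]
        exact h1.le
      linarith only [h2]
  have hAw : ∑ i ∈ A, w i ≤ 1 / e + 1 := by
    rcases A.eq_empty_or_nonempty with h | h
    · rw [h, Finset.sum_empty]
      positivity
    · have hm := A.max'_mem h
      obtain ⟨m, hmd⟩ : ∃ m, m = A.max' h := ⟨_, rfl⟩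
      rw [← hmd] at hm
      have hsub : A.erase m ⊆ Finset.range m := by
        intro i hi
        rw [Finset.mem_erase] at hi
        rw [Finset.mem_range]
        have h1 := A.le_max' i hi.2
        rw [← hmd] at h1
        omega
      rw [← Finset.add_sum_erase A w hm]
      have h1 : w m ≤ 1 := by
        rw [hw]
        exact min_le_right _ _
      have h2 : ∑ i ∈ A.erase m, w i ≤ ∑ i ∈ Finset.range m, β i / (e * R) := by
        refine (Finset.sum_le_sum fun i _ => ?_).trans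
          (Finset.sum_le_sum_of_subset_of_nonneg hsub fun i _ _ => div_nonneg (hβ i) heR.le)
        rw [hw]
        exact min_le_left _ _
      rw [← Finset.sum_div] at h2
      have h3 : (∑ i ∈ Finset.range m, β i) / (e * R) ≤ 1 / e := by
        rw [div_le_div_iff₀ heR he]
        have h4 := ((memA m).1 hm).2.2
        (clear * - he h4; nlinarith only [he, h4])
      linarith only [h1, h2, h3]
  refine ⟨hcardG.trans (mul_le_mul hBc hAw (Finset.sum_nonneg fun i _ => hw0 i)
    (by (clear * - hR ht0; positivity))), fun hRt hRb => ?_⟩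
  have hB1 : (B.card : ℝ) ≤ 1 := by
    rcases B.eq_empty_or_nonempty with h | h
    · rw [h, Finset.card_empty, Nat.cast_zero]
      exact zero_le_one
    · have h1 := card_big hα B (fun i hi => ((memB i).1 hi).2) h
      have h2 : (B.card : ℝ) < 2 := by nlinarith only [hR, hRt, h1]
      have h3 : B.card < 2 := by exact_mod_cast h2
      exact_mod_cast Nat.lt_succ_iff.1 h3
  have hA1 : (A.card : ℝ) ≤ 1 := by
    rcases A.eq_empty_or_nonempty with h | h
    · rw [h, Finset.card_empty, Nat.cast_zero]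
      exact zero_le_one
    · have h1 := card_big hβ A (fun i hi => ((memA i).1 hi).2) h
      have h2 : (A.card : ℝ) < 2 := by (clear * - h1 hRb hR; nlinarith only [hR, hRb, h1])
      have h3 : A.card < 2 := by exact_mod_cast h2
      exact_mod_cast Nat.lt_succ_iff.1 h3
  have hAw1 : ∑ i ∈ A, w i ≤ 1 := by
    calc ∑ i ∈ A, w i ≤ ∑ _i ∈ A, (1 : ℝ) := Finset.sum_le_sum fun i _ => by
          rw [hw]
          exact min_le_right _ _
      _ = A.card := by rw [Finset.sum_const, nsmul_eq_mul, mul_one]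
      _ ≤ 1 := hA1
  have h1 : 0 ≤ ∑ i ∈ A, w i := Finset.sum_nonneg fun i _ => hw0 i
  have h2 : (B.card : ℝ) * ∑ i ∈ A, w i ≤ 1 * 1 := mul_le_mul hB1 hAw1 h1 zero_le_one
  linarith only [hcardG, h2]

end Pool.Agent.Helper62.GLP
end

/- Helper24.DI.H62.GLP.Sm -/
section
set_option autoImplicit false

/-!
# Project GL+ (MP_120218, helper62): multiples of a set and its classes
-/

namespace Pool.Agent.Helper62.GLP

open Finset Pool.Agent.Helper15.GL

/-- the multiples `D w`, `w ∈ W` -/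
def sm (D : ℕ) (W : Finset ℤ) : Finset ℤ := W.image (fun w => (D : ℤ) * w)

theorem mem_sm {D : ℕ} {W : Finset ℤ} {y : ℤ} : y ∈ sm D W ↔ ∃ w ∈ W, (D : ℤ) * w = y := by
  unfold sm
  exact Finset.mem_image

theorem card_sm {D : ℕ} (hD : D ≠ 0) (W : Finset ℤ) : (sm D W).card = W.card := by
  unfold sm
  refine Finset.card_image_of_injective _ ?_
  intro a b h
  have hD' : (D : ℤ) ≠ 0 := by exact_mod_cast hD
  exact mul_left_cancel₀ hD' h

theorem pow_dvd_mul {p : ℕ} (hp : p.Prime) {D : ℕ} (hD : D ≠ 0) (l : ℕ) (a : ℤ) :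
    (p : ℤ) ^ l ∣ (D : ℤ) * a ↔ (p : ℤ) ^ (l - padicValNat p D) ∣ a := by
  have := Fact.mk hp
  have h4 : (D : ℤ) ≠ 0 := by exact_mod_cast hD
  rcases eq_or_ne a 0 with rfl | ha
  · simp
  · rw [padicValInt_dvd_iff, padicValInt_dvd_iff, padicValInt.mul h4 ha, padicValInt.of_nat]
    simp only [mul_eq_zero, ha, h4, or_self, false_or]
    omega

theorem cls_sm {p : ℕ} (hp : p.Prime) {D : ℕ} (hD : D ≠ 0) (l : ℕ) (W : Finset ℤ) (z : ℤ) :
    cls p l (sm D W) ((D : ℤ) * z) = sm D (cls p (l - padicValNat p D) W z) := by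
  ext y
  rw [mem_cls, mem_sm, mem_sm]
  constructor
  · rintro ⟨⟨w, hw, rfl⟩, h⟩
    rw [← mul_sub, pow_dvd_mul hp hD] at h
    exact ⟨w, mem_cls.2 ⟨hw, h⟩, rfl⟩
  · rintro ⟨w, hw, rfl⟩
    rw [mem_cls] at hw
    refine ⟨⟨w, hw.1, rfl⟩, ?_⟩
    rw [← mul_sub, pow_dvd_mul hp hD]
    exact hw.2

theorem ell_sm {p : ℕ} (hp : p.Prime) {D : ℕ} (hD : D ≠ 0) (l : ℕ) (W : Finset ℤ) (z : ℤ) :
    ell p l (sm D W) ((D : ℤ) * z) = shf (fun i => ell p i W z) (padicValNat p D) l := by
  unfold shf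
  have h1 : ell p l (sm D W) ((D : ℤ) * z) = Real.log (cls p (l - padicValNat p D) W z).card -
      Real.log (cls p (l + 1 - padicValNat p D) W z).card := by
    unfold ell
    rw [cls_sm hp hD, cls_sm hp hD, card_sm hD, card_sm hD]
  rw [h1]
  by_cases h : padicValNat p D ≤ l
  · rw [if_pos h]
    have h2 : l + 1 - padicValNat p D = (l - padicValNat p D) + 1 := by omega
    rw [h2]
    rfl
  · rw [if_neg h]
    have h2 : l + 1 - padicValNat p D = 0 := by omega
    have h3 : l - padicValNat p D = 0 := by omega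
    rw [h2, h3, sub_self]

theorem sum_shf (β : ℕ → ℝ) (c m : ℕ) :
    ∑ l ∈ Finset.range m, shf β c l = ∑ i ∈ Finset.range (m - c), β i := by
  induction m with
  | zero => simp
  | succ m ih =>
    rw [Finset.sum_range_succ, ih]
    unfold shf
    by_cases h : c ≤ m
    · rw [if_pos h]
      have h2 : m + 1 - c = (m - c) + 1 := by omega
      rw [h2, Finset.sum_range_succ]
    · rw [if_neg h]
      have h2 : m + 1 - c = 0 := by omega
      have h3 : m - c = 0 := by omega
      rw [h2, h3]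
      simp

/-- what is revealed before the level `l`, in terms of `W` -/
noncomputable def rw' (p c l : ℕ) (X W : Finset ℤ) (x z : ℤ) : ℝ :=
  ∑ i ∈ Finset.range l, al p i X x + ∑ i ∈ Finset.range (l - c), ell p i W z

theorem rev_sm {p : ℕ} (hp : p.Prime) {D : ℕ} (hD : D ≠ 0) (l : ℕ) (X W : Finset ℤ) (x z : ℤ) :
    rev p l X (sm D W) x ((D : ℤ) * z) = rw' p (padicValNat p D) l X W x z := by
  unfold rev rw'
  rw [cls_sm hp hD, card_sm hD, card_sm hD, sum_ell]

/-- the stopping rule in terms of `W` -/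
def Sw (t0 b R e : ℝ) (p c : ℕ) (X W : Finset ℤ) (z : ℤ) (l : ℕ) (x : ℤ) : Prop :=
  R ≤ rw' p c l X W x z ∨ ((cls p l X x).card = 1 ∧ (cls p (l - c) W z).card = 1) ∨
    ((t0 ≤ al p l X x ∧ b ≤ shf (fun i => ell p i W z) c l) ∧
      e * R < Lam t0 b (fun i => al p i X x) (fun i => ell p i W z) c (l + 1))

/-- the level at which the pair is stopped -/
noncomputable def Tw (t0 b R e : ℝ) (p c : ℕ) (X W : Finset ℤ) (z : ℤ) (x : ℤ) : ℕ :=
  sInf {l | Sw t0 b R e p c X W z l x}

theorem exists_Sw (t0 b R e : ℝ) {p : ℕ} (hp : 2 ≤ p) (c : ℕ) (X W : Finset ℤ) (z x : ℤ)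
    (hx : x ∈ X) (hz : z ∈ W) : {l | Sw t0 b R e p c X W z l x}.Nonempty := by
  obtain ⟨J1, h1⟩ := exists_singleton p hp X
  obtain ⟨J2, h2⟩ := exists_singleton p hp W
  refine ⟨max J1 (J2 + c), Or.inr (Or.inl ⟨?_, ?_⟩)⟩
  · rw [h1 _ (le_max_left _ _) x hx, Finset.card_singleton]
  · rw [h2 _ (by (clear * - p; omega)) z hz, Finset.card_singleton]

theorem Sw_cls {t0 b R e : ℝ} {p c j l : ℕ} (h : j ≤ l) {X W : Finset ℤ} {z x x' : ℤ}
    (hx : x' ∈ cls p l X x) : Sw t0 b R e p c X W z j x' ↔ Sw t0 b R e p c X W z j x := by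
  have h1 : rw' p c j X W x' z = rw' p c j X W x z := by
    unfold rw'
    congr 1
    refine Finset.sum_congr rfl fun i hi => ?_
    exact al_cls ((Finset.mem_range.1 hi).le.trans h) hx
  have h2 : Lam t0 b (fun i => al p i X x') (fun i => ell p i W z) c (j + 1) =
      Lam t0 b (fun i => al p i X x) (fun i => ell p i W z) c (j + 1) := by
    unfold Lam
    refine Finset.sum_congr rfl fun i hi => ?_
    have h3 : i ≤ l := by
      have := Finset.mem_range.1 hi
      (clear * - h this; omega)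
    simp only [al_cls h3 hx]
  unfold Sw
  rw [h1, h2, al_cls h hx, cls_eq (mem_cls.1 (cls_anti p h X x hx)).2]

theorem Tw_cls {t0 b R e : ℝ} {p c : ℕ} (hp : 2 ≤ p) {X W : Finset ℤ} {z x x' : ℤ} {l : ℕ}
    (hxX : x ∈ X) (hz : z ∈ W) (hl : l ≤ Tw t0 b R e p c X W z x) (hx : x' ∈ cls p l X x) :
    l ≤ Tw t0 b R e p c X W z x' ∧
      (Tw t0 b R e p c X W z x = l → Tw t0 b R e p c X W z x' = l) := by
  have h1 : Sw t0 b R e p c X W z (Tw t0 b R e p c X W z x) x :=
    Nat.sInf_mem (exists_Sw t0 b R e hp c X W z x hxX hz)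
  have h2 : Sw t0 b R e p c X W z (Tw t0 b R e p c X W z x') x' :=
    Nat.sInf_mem (exists_Sw t0 b R e hp c X W z x' (mem_cls.1 hx).1 hz)
  have h3 : l ≤ Tw t0 b R e p c X W z x' := by
    by_contra hcon
    rw [not_le] at hcon
    have h4 := (Sw_cls hcon.le hx).1 h2
    have h5 : Tw t0 b R e p c X W z x ≤ Tw t0 b R e p c X W z x' := Nat.sInf_le h4
    omega
  refine ⟨h3, fun h => le_antisymm ?_ h3⟩
  rw [h] at h1
  exact Nat.sInf_le (s := {l | Sw t0 b R e p c X W z l x'}) ((Sw_cls le_rfl hx).2 h1)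

/-- the leaf of `x` -/
noncomputable def leaf (t0 b R e : ℝ) (p c : ℕ) (X W : Finset ℤ) (z : ℤ) (x : ℤ) : Finset ℤ :=
  cls p (Tw t0 b R e p c X W z x) X x

theorem Tw_leaf {t0 b R e : ℝ} {p c : ℕ} (hp : 2 ≤ p) {X W : Finset ℤ} {z x x' : ℤ}
    (hxX : x ∈ X) (hz : z ∈ W) (hx : x' ∈ leaf t0 b R e p c X W z x) :
    Tw t0 b R e p c X W z x' = Tw t0 b R e p c X W z x :=
  (Tw_cls hp hxX hz le_rfl hx).2 rfl

theorem leaf_leaf {t0 b R e : ℝ} {p c : ℕ} (hp : 2 ≤ p) {X W : Finset ℤ} {z x x' : ℤ}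
    (hxX : x ∈ X) (hz : z ∈ W) (hx : x' ∈ leaf t0 b R e p c X W z x) :
    leaf t0 b R e p c X W z x' = leaf t0 b R e p c X W z x := by
  have h1 := Tw_leaf hp hxX hz hx
  unfold leaf at hx ⊢
  rw [h1, cls_eq (mem_cls.1 hx).2]

/-- the coincidences before the stopping level are few -/
theorem Lam_le {t0 b R e : ℝ} (heR : 0 ≤ e * R) {p c : ℕ} {X W : Finset ℤ} {z x : ℤ} :
    ∀ m, m ≤ Tw t0 b R e p c X W z x →
      Lam t0 b (fun i => al p i X x) (fun i => ell p i W z) c m ≤ e * R := by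
  intro m
  induction m with
  | zero =>
    intro _
    unfold Lam
    simpa using heR
  | succ m ih =>
    intro hm
    have h1 : ¬ Sw t0 b R e p c X W z m x := fun h => by
      have h2 : Tw t0 b R e p c X W z x ≤ m := Nat.sInf_le h
      omega
    have h2 := ih (by omega)
    by_cases h3 : t0 ≤ al p m X x ∧ b ≤ shf (fun i => ell p i W z) c m
    · by_contra hcon
      exact h1 (Or.inr (Or.inr ⟨h3, not_le.1 hcon⟩))
    · have h4 : Lam t0 b (fun i => al p i X x) (fun i => ell p i W z) c (m + 1) =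
          Lam t0 b (fun i => al p i X x) (fun i => ell p i W z) c m := by
        unfold Lam
        rw [Finset.sum_range_succ, if_neg h3, add_zero]
      rw [h4]
      exact h2

/-- the stopping level of `W` is one of the announced stopping levels of the code -/
theorem lev_eq {t0 b R e : ℝ} (ht0 : 0 < t0) {p : ℕ} (hp : p.Prime) {D n : ℕ} (hD : D ≠ 0)
    (hRn : R ≤ t0 * n) (X W : Finset ℤ) (x z : ℤ) (hx : x ∈ X) (hz : z ∈ W) :
    ∃ i ∈ Finset.range (n + 2), lev t0 R p X (sm D W) i x ((D : ℤ) * z) =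
      Tw t0 b R e p (padicValNat p D) X W z x := by
  classical
  obtain ⟨T, hT⟩ : ∃ T, T = Tw t0 b R e p (padicValNat p D) X W z x := ⟨_, rfl⟩
  have h1 : Sw t0 b R e p (padicValNat p D) X W z T x := by
    rw [hT]
    exact Nat.sInf_mem (exists_Sw t0 b R e hp.two_le _ X W z x hx hz)
  have hlt : ∀ l < T, ¬ Sw t0 b R e p (padicValNat p D) X W z l x := by
    intro l hl h
    have h2 : Tw t0 b R e p (padicValNat p D) X W z x ≤ l := Nat.sInf_le h
    omega
  have hSt : ∀ i l, St t0 R p X (sm D W) i l x ((D : ℤ) * z) ↔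
      (R ≤ rw' p (padicValNat p D) l X W x z ∨ ((cls p l X x).card = 1 ∧
        (cls p (l - padicValNat p D) W z).card = 1) ∨
        (t0 ≤ al p l X x ∧ nbig t0 p l X x = i)) := by
    intro i l
    unfold St
    rw [rev_sm hp hD, cls_sm hp hD, card_sm hD]
  -- few big levels
  have hnb : ∀ l, rw' p (padicValNat p D) l X W x z < R → nbig t0 p l X x < n := by
    intro l hl
    have h2 : (nbig t0 p l X x : ℝ) * t0 ≤ rw' p (padicValNat p D) l X W x z := by
      unfold rw' nbig
      have h3 : 0 ≤ ∑ i ∈ Finset.range (l - padicValNat p D), ell p i W z :=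
        Finset.sum_nonneg fun i _ => ell_nonneg p i W z hz
      have h4 : ∑ i ∈ (Finset.range l).filter (fun i => t0 ≤ al p i X x), t0 ≤
          ∑ i ∈ (Finset.range l).filter (fun i => t0 ≤ al p i X x), al p i X x :=
        Finset.sum_le_sum fun i hi => (Finset.mem_filter.1 hi).2
      have h5 : ∑ i ∈ (Finset.range l).filter (fun i => t0 ≤ al p i X x), al p i X x ≤
          ∑ i ∈ Finset.range l, al p i X x :=
        Finset.sum_le_sum_of_subset_of_nonneg (Finset.filter_subset _ _)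
          fun i _ _ => al_nonneg p i X x
      rw [Finset.sum_const, nsmul_eq_mul] at h4
      linarith only [h3, h4, h5]
    have h3 : (nbig t0 p l X x : ℝ) * t0 < t0 * n := by (clear * - hRn hl h2; linarith only [hRn, hl, h2])
    have h4 : (nbig t0 p l X x : ℝ) < n := by
      rw [mul_comm] at h3
      exact lt_of_mul_lt_mul_left h3 ht0.le
    exact_mod_cast h4
  rw [← hT]
  by_cases hA : R ≤ rw' p (padicValNat p D) T X W x z ∨ ((cls p T X x).card = 1 ∧
        (cls p (T - padicValNat p D) W z).card = 1)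
  · refine ⟨n + 1, by simp, ?_⟩
    refine le_antisymm (Nat.sInf_le ((hSt _ _).2 ?_)) ?_
    · rcases hA with h | h
      · exact Or.inl h
      · exact Or.inr (Or.inl h)
    · by_contra hcon
      rw [not_le] at hcon
      obtain ⟨l, hl⟩ : ∃ l, l = lev t0 R p X (sm D W) (n + 1) x ((D : ℤ) * z) := ⟨_, rfl⟩
      rw [← hl] at hcon
      have h2 : St t0 R p X (sm D W) (n + 1) l x ((D : ℤ) * z) := by
        rw [hl]
        refine Nat.sInf_mem (s := {l | St t0 R p X (sm D W) (n + 1) l x ((D : ℤ) * z)})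
          ⟨T, (hSt _ _).2 ?_⟩
        rcases hA with h | h
        · exact Or.inl h
        · exact Or.inr (Or.inl h)
      rw [hSt] at h2
      have h3 := hlt l hcon
      unfold Sw at h3
      push Not at h3
      rcases h2 with h | h | h
      · exact absurd h (not_le.2 h3.1)
      · exact h3.2.1 h.1 h.2
      · have := hnb l h3.1
        omega
  · push Not at hA
    have hB : (t0 ≤ al p T X x ∧ b ≤ shf (fun i => ell p i W z) (padicValNat p D) T) ∧
      e * R < Lam t0 b (fun i => al p i X x) (fun i => ell p i W z) (padicValNat p D) (T + 1) := by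
      rcases h1 with h | h | h
      · exact absurd h (not_le.2 hA.1)
      · exact absurd h.2 (hA.2 h.1)
      · exact h
    have hn := hnb T hA.1
    refine ⟨nbig t0 p T X x, by rw [Finset.mem_range]; omega, ?_⟩
    have hT' : St t0 R p X (sm D W) (nbig t0 p T X x) T x ((D : ℤ) * z) :=
      (hSt _ _).2 (Or.inr (Or.inr ⟨hB.1.1, rfl⟩))
    refine le_antisymm (Nat.sInf_le hT') ?_
    by_contra hcon
    rw [not_le] at hcon
    obtain ⟨l, hl⟩ : ∃ l, l = lev t0 R p X (sm D W) (nbig t0 p T X x) x ((D : ℤ) * z) := ⟨_, rfl⟩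
    rw [← hl] at hcon
    have h2 : St t0 R p X (sm D W) (nbig t0 p T X x) l x ((D : ℤ) * z) := by
      rw [hl]
      exact Nat.sInf_mem (s := {l | St t0 R p X (sm D W) (nbig t0 p T X x) l x ((D : ℤ) * z)})
        ⟨T, hT'⟩
    rw [hSt] at h2
    have h3 := hlt l hcon
    unfold Sw at h3
    push Not at h3
    rcases h2 with h | h | h
    · exact absurd h (not_le.2 h3.1)
    · exact h3.2.1 h.1 h.2
    · have h4 : nbig t0 p l X x < nbig t0 p T X x := by
        unfold nbig
        refine Finset.card_lt_card ?_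
        rw [Finset.ssubset_iff_of_subset (Finset.filter_subset_filter _
          (Finset.range_subset_range.2 hcon.le))]
        exact ⟨l, Finset.mem_filter.2 ⟨Finset.mem_range.2 hcon, h.1⟩, by simp⟩
      omega

end Pool.Agent.Helper62.GLP
end

/- Helper24.DI.H62.GLP.One -/
section
set_option autoImplicit false

/-!
# Project GL+ (MP_120218, helper62): accounting for one prime
-/

namespace Pool.Agent.Helper62.GLP

open Finset Pool.Agent.Helper15.GL

theorem Tw_lt {t0 b R e : ℝ} {p c : ℕ} (hp : 2 ≤ p) {X W : Finset ℤ} {z x x' : ℤ} {l : ℕ}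
    (hxX : x ∈ X) (hz : z ∈ W) (hx : x' ∈ cls p l X x) :
    l < Tw t0 b R e p c X W z x' ↔ l < Tw t0 b R e p c X W z x := by
  have key : ∀ u ∈ X, (l < Tw t0 b R e p c X W z u ↔ ∀ j ≤ l, ¬ Sw t0 b R e p c X W z j u) := by
    intro u hu
    constructor
    · intro h j hj hS
      have h1 : Tw t0 b R e p c X W z u ≤ j := Nat.sInf_le hS
      omega
    · intro h
      by_contra hcon
      rw [not_lt] at hcon
      exact h _ hcon (Nat.sInf_mem (exists_Sw t0 b R e hp c X W z u hu hz))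
  rw [key x' (mem_cls.1 hx).1, key x hxX]
  refine forall_congr' fun j => ?_
  constructor
  · intro h hj
    rw [← Sw_cls hj hx]
    exact h hj
  · intro h hj
    rw [Sw_cls hj hx]
    exact h hj

/-- sums over the levels below a stopping level -/
theorem sum_swap (X : Finset ℤ) (T : ℤ → ℕ) (F : ℕ → ℤ → ℝ) (J : ℕ) (hJ : ∀ x ∈ X, T x ≤ J) :
    ∑ x ∈ X, ∑ l ∈ Finset.range (T x), F l x =
      ∑ l ∈ Finset.range J, ∑ x ∈ X, if l < T x then F l x else 0 := by
  rw [Finset.sum_comm]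
  refine Finset.sum_congr rfl fun x hx => ?_
  rw [← Finset.sum_filter]
  refine Finset.sum_congr ?_ fun _ _ => rfl
  ext l
  rw [Finset.mem_filter, Finset.mem_range, Finset.mem_range]
  have := hJ x hx
  omega

/-- the cost of the digits at the level `l`, averaged over the class of `x` -/
theorem class_cost {η t0 : ℝ} (hN : NodeP η t0) (p l : ℕ) [NeZero p] (X Y : Finset ℤ) (x y : ℤ)
    (hx : x ∈ X) (hy : y ∈ Y) : ∑ x' ∈ cls p l X x, nc η t0 p l X Y x' y ≤
      (cls p l X x).card * (η * (al p l X x + ell p l Y y) +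
        if t0 ≤ al p l X x ∧ η * t0 ≤ ell p l Y y then ell p l Y y else 0) := by
  have hC := cls_nonempty (p := p) (j := l) hx
  have hpos := law_dig_pos p l Y y y (self_mem_cls hy)
  have h1 := (Wn_spec hN p l X Y x y hx hy).cost (dig p l y) hpos
  have h2 : -Real.log (law (cls p l Y y) (dig p l) (dig p l y)) = ell p l Y y := by
    have h3 : law (cls p l Y y) (dig p l) (dig p l y) =
        ((cls p (l + 1) Y y).card : ℝ) / (cls p l Y y).card := by
      unfold law
      rw [filter_dig p l (Nat.pos_of_ne_zero (NeZero.ne p)) Y y y (self_mem_cls hy)]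
    have h4 : (0 : ℝ) < (cls p l Y y).card := by
      exact_mod_cast Finset.card_pos.2 (cls_nonempty hy)
    have h5 : (0 : ℝ) < (cls p (l + 1) Y y).card := by
      exact_mod_cast Finset.card_pos.2 (cls_nonempty hy)
    rw [h3, Real.log_div h5.ne' h4.ne']
    unfold ell
    ring
  have h3 : ent (law (cls p l X x) (dig p l)) = al p l X x := hx_eq p l X x hx
  rw [h2, h3] at h1
  have h4 : ∑ x' ∈ cls p l X x, nc η t0 p l X Y x' y =
      (cls p l X x).card * ∑ u, law (cls p l X x) (dig p l) u *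
        (-Real.log (Wn η t0 p l X Y x y u (dig p l y))) := by
    rw [sum_law_mul (cls p l X x) hC (dig p l)
      (fun u => -Real.log (Wn η t0 p l X Y x y u (dig p l y)))]
    refine Finset.sum_congr rfl fun x' hx' => ?_
    unfold nc Wn
    rw [cls_eq (mem_cls.1 hx').2]
  rw [h4]
  exact mul_le_mul_of_nonneg_left h1 (Nat.cast_nonneg _)

/-- the decrease of the potential -/
noncomputable def dlt (t0 b R e : ℝ) (p c : ℕ) (X W : Finset ℤ) (z x : ℤ) : ℝ :=
  Real.log X.card - Real.log (leaf t0 b R e p c X W z x).card +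
    (Real.log W.card - Real.log (cls p (Tw t0 b R e p c X W z x - c) W z).card)

/-- the revealed information is on average the decrease of the potential -/
theorem sum_rw {t0 b R e : ℝ} {p c : ℕ} (hp : 2 ≤ p) {X W : Finset ℤ} {z : ℤ} (hz : z ∈ W) :
    ∑ x ∈ X, rw' p c (Tw t0 b R e p c X W z x) X W x z =
      ∑ x ∈ X, dlt t0 b R e p c X W z x := by
  obtain ⟨T, hT⟩ : ∃ T : ℤ → ℕ, T = Tw t0 b R e p c X W z := ⟨_, rfl⟩
  have hTlt : ∀ l, ∀ x ∈ X, ∀ x' ∈ cls p l X x, (l < T x' ↔ l < T x) := by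
    intro l x hx x' hx'
    rw [hT]
    exact Tw_lt hp hx hz hx'
  have h1 : ∑ x ∈ X, ∑ l ∈ Finset.range (T x), al p l X x =
      ∑ x ∈ X, ∑ l ∈ Finset.range (T x), ell p l X x := by
    have hJ : ∀ x ∈ X, T x ≤ X.sup T := fun x hx => Finset.le_sup (f := T) hx
    rw [sum_swap X T (fun l x => al p l X x) _ hJ, sum_swap X T (fun l x => ell p l X x) _ hJ]
    refine Finset.sum_congr rfl fun l _ => ?_
    rw [← part_avg X (cls p l X) (fun x _ => Finset.filter_subset _ _)
      (fun x hx => self_mem_cls hx) (fun x _ y hy => cls_eq (mem_cls.1 hy).2)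
      (fun x => if l < T x then ell p l X x else 0)]
    refine Finset.sum_congr rfl fun x hx => ?_
    have h2 : ∑ y ∈ cls p l X x, (if l < T y then ell p l X y else 0) =
        if l < T x then ∑ y ∈ cls p l X x, ell p l X y else 0 := by
      by_cases h : l < T x
      · rw [if_pos h]
        exact Finset.sum_congr rfl fun y hy => if_pos ((hTlt l x hx y hy).2 h)
      · rw [if_neg h]
        exact Finset.sum_eq_zero fun y hy => if_neg fun h' => h ((hTlt l x hx y hy).1 h')
    rw [h2]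
    by_cases h : l < T x
    · rw [if_pos h, if_pos h]
      rfl
    · rw [if_neg h, if_neg h, zero_div]
  unfold rw' dlt leaf
  rw [← hT, Finset.sum_add_distrib, h1, Finset.sum_add_distrib]
  congr 1
  · exact Finset.sum_congr rfl fun x _ => sum_ell p (T x) X x
  · exact Finset.sum_congr rfl fun x _ => sum_ell p (T x - c) W z

/-- **The cost of one prime.** -/
theorem cost_one {η t0 R e : ℝ} (hN : NodeP η t0) (heR : 0 ≤ e * R)
    {p D : ℕ} (hp : p.Prime) (hD : D ≠ 0) {X W : Finset ℤ} {z : ℤ} (hz : z ∈ W) :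
    ∑ x ∈ X, ∑ l ∈ Finset.range (Tw t0 (η * t0) R e p (padicValNat p D) X W z x),
        nc η t0 p l X (sm D W) x ((D : ℤ) * z) ≤
      ∑ x ∈ X, (η * dlt t0 (η * t0) R e p (padicValNat p D) X W z x + e * R) := by
  have : NeZero p := ⟨hp.ne_zero⟩
  obtain ⟨c, hc⟩ : ∃ c, c = padicValNat p D := ⟨_, rfl⟩
  obtain ⟨b, hb⟩ : ∃ b, b = η * t0 := ⟨_, rfl⟩
  obtain ⟨T, hT⟩ : ∃ T : ℤ → ℕ, T = Tw t0 b R e p c X W z := ⟨_, rfl⟩
  have hy : (D : ℤ) * z ∈ sm D W := mem_sm.2 ⟨z, hz, rfl⟩
  have hTlt : ∀ l, ∀ x ∈ X, ∀ x' ∈ cls p l X x, (l < T x' ↔ l < T x) := by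
    intro l x hx x' hx'
    rw [hT]
    exact Tw_lt hp.two_le hx hz hx'
  obtain ⟨bd, hbd⟩ : ∃ bd : ℕ → ℤ → ℝ, bd = fun l x => η * (al p l X x +
    shf (fun i => ell p i W z) c l) + if t0 ≤ al p l X x ∧ b ≤ shf (fun i => ell p i W z) c l
      then shf (fun i => ell p i W z) c l else 0 := ⟨_, rfl⟩
  have hJ : ∀ x ∈ X, T x ≤ X.sup T := fun x hx => Finset.le_sup (f := T) hx
  have h1 : ∑ x ∈ X, ∑ l ∈ Finset.range (T x), nc η t0 p l X (sm D W) x ((D : ℤ) * z) ≤
      ∑ x ∈ X, ∑ l ∈ Finset.range (T x), bd l x := by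
    rw [sum_swap X T (fun l x => nc η t0 p l X (sm D W) x ((D : ℤ) * z)) _ hJ,
      sum_swap X T (fun l x => bd l x) _ hJ]
    refine Finset.sum_le_sum fun l _ => ?_
    refine part_sum X (cls p l X) (fun x _ => Finset.filter_subset _ _)
      (fun x hx => self_mem_cls hx) (fun x _ y hy => cls_eq (mem_cls.1 hy).2) _ _ ?_
    intro x hx
    by_cases h : l < T x
    · have h2 := class_cost hN p l X (sm D W) x ((D : ℤ) * z) hx hy
      rw [ell_sm hp hD, ← hc, ← hb] at h2
      have h3 : ∑ y ∈ cls p l X x, (if l < T y then nc η t0 p l X (sm D W) y ((D : ℤ) * z) else 0)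
          = ∑ y ∈ cls p l X x, nc η t0 p l X (sm D W) y ((D : ℤ) * z) :=
        Finset.sum_congr rfl fun y hy' => if_pos ((hTlt l x hx y hy').2 h)
      rw [h3, if_pos h, hbd]
      exact h2
    · have h3 : ∑ y ∈ cls p l X x, (if l < T y then nc η t0 p l X (sm D W) y ((D : ℤ) * z) else 0)
          = 0 := Finset.sum_eq_zero fun y hy' => if_neg fun h' => h ((hTlt l x hx y hy').1 h')
      rw [h3, if_neg h, mul_zero]
  have h2 : ∑ x ∈ X, ∑ l ∈ Finset.range (T x), bd l x ≤
      ∑ x ∈ X, (η * rw' p c (T x) X W x z + e * R) := by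
    refine Finset.sum_le_sum fun x _ => ?_
    have h3 := Lam_le heR (t0 := t0) (b := b) (p := p) (c := c) (X := X) (W := W) (z := z)
      (x := x) (T x) (by rw [hT])
    have h4 : ∑ l ∈ Finset.range (T x), bd l x = η * rw' p c (T x) X W x z +
        Lam t0 b (fun i => al p i X x) (fun i => ell p i W z) c (T x) := by
      rw [hbd]
      simp only
      rw [Finset.sum_add_distrib, ← Finset.mul_sum, Finset.sum_add_distrib, sum_shf]
      rfl
    rw [h4]
    (clear * - h3; linarith only [h3])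
  rw [← hb, ← hc, ← hT]
  refine h1.trans (h2.trans (le_of_eq ?_))
  rw [Finset.sum_add_distrib, Finset.sum_add_distrib]
  congr 1
  rw [← Finset.mul_sum, ← Finset.mul_sum, hT, sum_rw hp.two_le hz]

theorem dlt_nonneg {t0 b R e : ℝ} {p c : ℕ} {X W : Finset ℤ} {z x : ℤ} (hx : x ∈ X)
    (hz : z ∈ W) : 0 ≤ dlt t0 b R e p c X W z x := by
  unfold dlt leaf
  have h1 : (0 : ℝ) < (cls p (Tw t0 b R e p c X W z x) X x).card := by
    exact_mod_cast Finset.card_pos.2 (cls_nonempty hx)
  have h2 : (0 : ℝ) < (cls p (Tw t0 b R e p c X W z x - c) W z).card := by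
    exact_mod_cast Finset.card_pos.2 (cls_nonempty hz)
  have h3 := Real.log_le_log h1 (show ((cls p (Tw t0 b R e p c X W z x) X x).card : ℝ) ≤ X.card by
    exact_mod_cast Finset.card_le_card (Finset.filter_subset _ _))
  have h4 := Real.log_le_log h2
    (show ((cls p (Tw t0 b R e p c X W z x - c) W z).card : ℝ) ≤ W.card by
      exact_mod_cast Finset.card_le_card (Finset.filter_subset _ _))
  linarith only [h3, h4]

theorem rw_nonneg {p c l : ℕ} {X W : Finset ℤ} {z x : ℤ} (hz : z ∈ W) :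
    0 ≤ rw' p c l X W x z := by
  unfold rw'
  exact add_nonneg (Finset.sum_nonneg fun i _ => al_nonneg p i X x)
    (Finset.sum_nonneg fun i _ => ell_nonneg p i W z hz)

/-- a shift which is not bad reveals at least `R` or everything -/
theorem good_shift {t0 b R e : ℝ} {p c : ℕ} (hp : 2 ≤ p) {X W : Finset ℤ} {z x : ℤ} (hx : x ∈ X)
    (hz : z ∈ W) (hbad : ¬ Bad t0 b R e (fun i => al p i X x) (fun i => ell p i W z) c) :
    R ≤ rw' p c (Tw t0 b R e p c X W z x) X W x z ∨
      dlt t0 b R e p c X W z x = Real.log X.card + Real.log W.card := by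
  have h1 : Sw t0 b R e p c X W z (Tw t0 b R e p c X W z x) x :=
    Nat.sInf_mem (exists_Sw t0 b R e hp c X W z x hx hz)
  rcases h1 with h | h | h
  · exact Or.inl h
  · right
    unfold dlt leaf
    rw [h.1, h.2]
    simp
  · left
    by_contra hcon
    rw [not_le] at hcon
    exact hbad ⟨_, hcon, h.2⟩

/-- the average decrease of the potential over the shifts -/
theorem decrease {t0 b R e : ℝ} (ht0 : 0 < t0) (hb : 0 < b) (hbt : b ≤ t0) (hR : 0 < R)
    (he : 0 < e) (he1 : e ≤ 1) {p : ℕ} (hp : 2 ≤ p) {X W : Finset ℤ} {z : ℤ} (hz : z ∈ W)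
    (n : ℕ) (c : ℕ → ℕ) (hc : ∀ i < n, ∀ j < n, c i = c j → i = j)
    (hu : 0 < Real.log X.card + Real.log W.card) (B : ℝ)
    (hB : (R ≤ b → 1 ≤ B) ∧ (b < R → 4 * R / (b * e) ≤ B)) :
    (n : ℝ) * X.card ≤ (∑ i ∈ Finset.range n, ∑ x ∈ X, dlt t0 b R e p (c i) X W z x) *
      (1 / R + 1 / (Real.log X.card + Real.log W.card)) + X.card * B := by
  classical
  obtain ⟨u, hud⟩ : ∃ u, u = Real.log X.card + Real.log W.card := ⟨_, rfl⟩
  rw [← hud] at hu ⊢
  -- pointwise
  have hpt : ∀ i ∈ Finset.range n, ∀ x ∈ X, (1 : ℝ) ≤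
      rw' p (c i) (Tw t0 b R e p (c i) X W z x) X W x z / R + dlt t0 b R e p (c i) X W z x / u +
      (if Bad t0 b R e (fun i => al p i X x) (fun i => ell p i W z) (c i) then 1 else 0) := by
    intro i _ x hx
    have h1 : 0 ≤ rw' p (c i) (Tw t0 b R e p (c i) X W z x) X W x z / R :=
      div_nonneg (rw_nonneg hz) hR.le
    have h2 : 0 ≤ dlt t0 b R e p (c i) X W z x / u := div_nonneg (dlt_nonneg hx hz) hu.le
    by_cases hbad : Bad t0 b R e (fun i => al p i X x) (fun i => ell p i W z) (c i)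
    · rw [if_pos hbad]
      linarith only [h1, h2]
    · rw [if_neg hbad]
      rcases good_shift hp hx hz hbad with h | h
      · have h3 : 1 ≤ rw' p (c i) (Tw t0 b R e p (c i) X W z x) X W x z / R := by
          rw [le_div_iff₀ hR, one_mul]
          exact h
        linarith only [h2, h3]
      · rw [h, ← hud, div_self hu.ne']
        (clear * - h1; linarith only [h1])
  have hsum := Finset.sum_le_sum fun i hi => Finset.sum_le_sum fun x hx => hpt i hi x hx
  have e1 : ∑ i ∈ Finset.range n, ∑ x ∈ X, (1 : ℝ) = n * X.card := by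
    simp
  have e2 : ∑ i ∈ Finset.range n, ∑ x ∈ X,
      (rw' p (c i) (Tw t0 b R e p (c i) X W z x) X W x z / R + dlt t0 b R e p (c i) X W z x / u +
      (if Bad t0 b R e (fun i => al p i X x) (fun i => ell p i W z) (c i) then (1 : ℝ) else 0)) =
      (∑ i ∈ Finset.range n, ∑ x ∈ X, dlt t0 b R e p (c i) X W z x) * (1 / R + 1 / u) +
      ∑ i ∈ Finset.range n, ∑ x ∈ X,
        (if Bad t0 b R e (fun i => al p i X x) (fun i => ell p i W z) (c i) then (1 : ℝ) else 0) := by
    rw [Finset.sum_mul, ← Finset.sum_add_distrib]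
    refine Finset.sum_congr rfl fun i _ => ?_
    rw [Finset.sum_add_distrib, Finset.sum_add_distrib, ← Finset.sum_div, ← Finset.sum_div,
      sum_rw hp hz]
    ring
  rw [e1, e2] at hsum
  refine hsum.trans (add_le_add le_rfl ?_)
  rw [Finset.sum_comm]
  have h3 : ∀ x ∈ X, ∑ i ∈ Finset.range n,
      (if Bad t0 b R e (fun i => al p i X x) (fun i => ell p i W z) (c i) then (1 : ℝ) else 0) ≤
      B := by
    intro x hx
    rw [← Finset.sum_filter, Finset.sum_const, nsmul_eq_mul, mul_one]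
    have h4 := count_bad (α := fun i => al p i X x) (β := fun i => ell p i W z)
      (fun i => al_nonneg p i X x) (fun i => ell_nonneg p i W z hz) ht0 hb hR he n c hc
      ((Finset.range n).filter (fun i => Bad t0 b R e (fun i => al p i X x)
        (fun i => ell p i W z) (c i))) (Finset.filter_subset _ _)
      (fun j hj => (Finset.mem_filter.1 hj).2)
    rcases le_or_gt R b with hRb | hRb
    · exact (h4.2 (hRb.trans hbt) hRb).trans (hB.1 hRb)
    · refine h4.1.trans (le_trans ?_ (hB.2 hRb))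
      have h5 : R / t0 + 1 ≤ 2 * R / b := by
        have h6 : R / t0 ≤ R / b := div_le_div_of_nonneg_left hR.le hb hbt
        have h7 : 1 ≤ R / b := by
          rw [le_div_iff₀ hb, one_mul]
          exact hRb.le
        have h8 : 2 * R / b = R / b + R / b := by ring
        linarith only [h6, h7, h8]
      have h6 : 1 / e + 1 ≤ 2 / e := by
        have h7 : 1 ≤ 1 / e := by
          rw [le_div_iff₀ he, one_mul]
          exact he1
        have h8 : 2 / e = 1 / e + 1 / e := by ring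
        linarith only [h7, h8]
      calc (R / t0 + 1) * (1 / e + 1) ≤ (2 * R / b) * (2 / e) :=
            mul_le_mul h5 h6 (by positivity) (by positivity)
        _ = 4 * R / (b * e) := by
            field_simp
            norm_num
  refine (Finset.sum_le_sum h3).trans (le_of_eq ?_)
  rw [Finset.sum_const, nsmul_eq_mul]

end Pool.Agent.Helper62.GLP
end

/- Helper24.DI.H62.GLP.Main -/
section
set_option autoImplicit false

/-!
# Project GL+ (MP_120218, helper62): all primes
-/

namespace Pool.Agent.Helper62.GLP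

open Finset Pool.Agent.Helper15.GL

/-- the average over the box of a shape -/
noncomputable def Av : List (ℕ × ℕ) → (List ℕ → ℝ) → ℝ
  | [], F => F []
  | (_, n) :: s, F => (∑ i ∈ Finset.range n, Av s (fun t => F (i :: t))) / n

theorem Av_mono : ∀ (s : List (ℕ × ℕ)) (F G : List ℕ → ℝ), (∀ t, InBox s t → F t ≤ G t) →
    Av s F ≤ Av s G := by
  intro s
  induction s with
  | nil =>
    intro F G h
    exact h [] List.Forall₂.nil
  | cons q s ih =>
    obtain ⟨p, n⟩ := q
    intro F G h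
    simp only [Av]
    refine div_le_div_of_nonneg_right ?_ (Nat.cast_nonneg _)
    refine Finset.sum_le_sum fun i hi => ih _ _ fun t ht => ?_
    exact h (i :: t) (List.Forall₂.cons (Finset.mem_range.1 hi) ht)

theorem Av_add : ∀ (s : List (ℕ × ℕ)) (F G : List ℕ → ℝ),
    Av s (fun t => F t + G t) = Av s F + Av s G := by
  intro s
  induction s with
  | nil => intro F G; rfl
  | cons q s ih =>
    obtain ⟨p, n⟩ := q
    intro F G
    simp only [Av]
    rw [← add_div, ← Finset.sum_add_distrib]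
    congr 1
    exact Finset.sum_congr rfl fun i _ => ih _ _

theorem Av_sum (T : Finset ℤ) : ∀ (s : List (ℕ × ℕ)) (F : ℤ → List ℕ → ℝ),
    Av s (fun t => ∑ x ∈ T, F x t) = ∑ x ∈ T, Av s (F x) := by
  intro s
  induction s with
  | nil => intro F; rfl
  | cons q s ih =>
    obtain ⟨p, n⟩ := q
    intro F
    simp only [Av]
    rw [← Finset.sum_div, Finset.sum_comm]
    congr 1
    exact Finset.sum_congr rfl fun i _ => ih _

theorem Av_const : ∀ (s : List (ℕ × ℕ)) (_ : ∀ q ∈ s, q.2 ≠ 0) (r : ℝ),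
    Av s (fun _ => r) = r := by
  intro s
  induction s with
  | nil => intro _ r; rfl
  | cons q s ih =>
    obtain ⟨p, n⟩ := q
    intro h r
    have hn : (n : ℝ) ≠ 0 := by exact_mod_cast h (p, n) (List.mem_cons_self ..)
    simp only [Av]
    rw [Finset.sum_congr rfl fun i _ => ih (fun q hq => h q (List.mem_cons_of_mem _ hq)) r,
      Finset.sum_const, Finset.card_range, nsmul_eq_mul]
    (clear * - hn; field_simp)

/-- the factor of one prime -/
noncomputable def th1 (K ε I : ℝ) (n : ℕ) : ℝ := max (2 / K) (Real.exp (-(ε * n / (4 * K * I))))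

/-- the factor of a shape -/
noncomputable def th (K ε I : ℝ) (s : List (ℕ × ℕ)) : ℝ := (s.map (fun q => th1 K ε I q.2)).prod

theorem th1_pos {K ε I : ℝ} (n : ℕ) : 0 < th1 K ε I n :=
  lt_of_lt_of_le (Real.exp_pos _) (le_max_right _ _)

theorem th_pos {K ε I : ℝ} (s : List (ℕ × ℕ)) : 0 < th K ε I s := by
  unfold th
  refine List.prod_pos fun a ha => ?_
  obtain ⟨q, _, rfl⟩ := List.mem_map.1 ha
  exact th1_pos _

theorem th_le {K ε I : ℝ} (hK : 2 ≤ K) (hε : 0 ≤ ε) (hI : 0 < I) (s : List (ℕ × ℕ)) :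
    th K ε I s ≤ max (2 / K) (Real.exp (-(ε / (4 * K) * (s.map (fun q => (q.2 : ℝ))).sum / I))) := by
  have hK0 : 0 < K := by linarith only [hK]
  have hK1 : 2 / K ≤ 1 := by rw [div_le_one hK0]; exact hK
  induction s with
  | nil =>
    unfold th
    simp
  | cons q s ih =>
    have h1 : th K ε I (q :: s) = th1 K ε I q.2 * th K ε I s := by
      unfold th
      rw [List.map_cons, List.prod_cons]
    have h2 : Real.exp (-(ε / (4 * K) * ((q :: s).map (fun q => (q.2 : ℝ))).sum / I)) =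
        Real.exp (-(ε * q.2 / (4 * K * I))) *
          Real.exp (-(ε / (4 * K) * (s.map (fun q => (q.2 : ℝ))).sum / I)) := by
      rw [← Real.exp_add, List.map_cons, List.sum_cons]
      congr 1
      field_simp
      ring
    have hx1 : Real.exp (-(ε * q.2 / (4 * K * I))) ≤ 1 := by
      rw [Real.exp_le_one_iff]
      have : 0 ≤ ε * q.2 / (4 * K * I) := by (clear * - hε hK hI; positivity)
      linarith only [this]
    have hsum : 0 ≤ (s.map (fun q => (q.2 : ℝ))).sum := by
      refine List.sum_nonneg fun a ha => ?_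
      obtain ⟨q, _, rfl⟩ := List.mem_map.1 ha
      (clear * -; positivity)
    have hx2 : Real.exp (-(ε / (4 * K) * (s.map (fun q => (q.2 : ℝ))).sum / I)) ≤ 1 := by
      rw [Real.exp_le_one_iff]
      have : 0 ≤ ε / (4 * K) * (s.map (fun q => (q.2 : ℝ))).sum / I := by (clear * - hε hK hsum hI; positivity)
      linarith only [this]
    have hth1 : th1 K ε I q.2 ≤ 1 := max_le hK1 hx1
    have hth : th K ε I s ≤ 1 := ih.trans (max_le hK1 hx2)
    rw [h1, h2]
    rcases max_cases (2 / K) (Real.exp (-(ε * q.2 / (4 * K * I)))) with h | h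
    · refine le_max_of_le_left ?_
      have h3 : th1 K ε I q.2 = 2 / K := h.1
      rw [h3]
      exact mul_le_of_le_one_right (by positivity) hth
    · have h3 : th1 K ε I q.2 = Real.exp (-(ε * q.2 / (4 * K * I))) := h.1
      rcases le_or_gt (th K ε I s) (2 / K) with h4 | h4
      · refine le_max_of_le_left ?_
        exact (mul_le_of_le_one_left (th_pos s).le hth1).trans h4
      · refine le_max_of_le_right ?_
        rw [h3]
        refine mul_le_mul_of_nonneg_left ?_ (Real.exp_pos _).le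
        rcases le_max_iff.1 ih with h5 | h5
        · exact absurd h5 (not_le.2 h4)
        · exact h5

/-- the numerical part of the step -/
theorem numeric {K ε I u N Δ R B n : ℝ} (hK : 8 ≤ K) (hI : 0 < I) (hu : 0 < u) (huI : u ≤ I)
    (hN : 0 ≤ N) (hΔ : 0 ≤ Δ) (hRd : R = min (ε * n) (K * u)) (hR : 0 < R)
    (h : N ≤ Δ * (1 / R + 1 / u) + B) (hB : B ≤ N / 2) (hB2 : K * u ≤ ε * n → B ≤ N / K) :
    R * N ≤ 4 * K * Δ ∧
      N * u - Δ ≤ N * (max (2 / K) (Real.exp (-(ε * n / (4 * K * I)))) * u) := by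
  have hK0 : 0 < K := by (clear * - hK; linarith only [hK])
  rcases le_or_gt (K * u) (ε * n) with hc | hc
  · have hR' : R = K * u := by rw [hRd]; exact min_eq_right hc
    have h1 := hB2 hc
    have h2 : Δ * (1 / R + 1 / u) = Δ / u * (1 + 1 / K) := by
      rw [hR']
      field_simp
      ring
    rw [h2] at h
    obtain ⟨d, hd⟩ : ∃ d, d = Δ / u := ⟨_, rfl⟩
    rw [← hd] at h
    have hd0 : 0 ≤ d := by rw [hd]; positivity
    have hΔd : Δ = d * u := by rw [hd]; field_simp
    obtain ⟨k, hk⟩ : ∃ k, k = 1 / K := ⟨_, rfl⟩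
    have hk0 : 0 < k := by rw [hk]; positivity
    have hk8 : k ≤ 1 / 8 := by rw [hk]; exact one_div_le_one_div_of_le (by norm_num) hK
    have hNK : N / K = N * k := by rw [hk]; ring
    have h2K : 2 / K = 2 * k := by rw [hk]; ring
    rw [hNK] at h1
    rw [← hk] at h
    -- `N (1 - k) ≤ d (1 + k)`
    have h3 : N * (1 - 2 * k) ≤ d := by
      have h4 : N * (1 - k) ≤ d * (1 + k) := by linarith only [h, h1]
      have h5 : N * (1 - 2 * k) * (1 + k) ≤ d * (1 + k) := by
        have h6 : N * (1 - 2 * k) * (1 + k) = N * (1 - k) - N * (2 * k ^ 2) := by ring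
        rw [h6]
        have : 0 ≤ N * (2 * k ^ 2) := by (clear * - hN hk0; positivity)
        linarith only [h4, this]
      exact le_of_mul_le_mul_right h5 (by linarith only [hk0])
    refine ⟨?_, ?_⟩
    · rw [hR', hΔd]
      have h4 : N ≤ 4 * d := by
        have : N * (1 / 4) ≤ N * (1 - 2 * k) := mul_le_mul_of_nonneg_left (by linarith only [hk8]) hN
        linarith only [h3, this]
      have h5 : 0 ≤ K * u := by positivity
      (clear * - h4 h5; nlinarith only [h4, h5])
    · have h4 : 2 / K * u ≤ max (2 / K) (Real.exp (-(ε * n / (4 * K * I)))) * u :=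
        mul_le_mul_of_nonneg_right (le_max_left _ _) hu.le
      have h5 := mul_le_mul_of_nonneg_left h4 hN
      refine le_trans ?_ h5
      rw [hΔd, h2K]
      (clear * - hK0 hR h3 hR'; nlinarith only [hR, hK0, hR', h3])
  · have hR' : R = ε * n := by rw [hRd]; exact min_eq_left hc.le
    have hRu : R ≤ K * u := by rw [hR']; exact hc.le
    have h1 : Δ * (1 / R + 1 / u) ≤ Δ * ((1 + K) / R) := by
      refine mul_le_mul_of_nonneg_left ?_ hΔ
      have : 1 / u ≤ K / R := by
        rw [div_le_div_iff₀ hu hR, one_mul]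
        exact hRu
      rw [add_div]
      (clear * - this; linarith only [this])
    have h2 : N / 2 * R ≤ Δ * (1 + K) := by
      have h3 : N / 2 ≤ Δ * ((1 + K) / R) := by linarith only [h, hB, h1]
      have h4 := mul_le_mul_of_nonneg_right h3 hR.le
      have h5 : Δ * ((1 + K) / R) * R = Δ * (1 + K) := by (clear * - hR hK; field_simp)
      linarith only [h4, h5]
    have h3 : R * N ≤ 4 * K * Δ := by nlinarith only [hK, hΔ, h2]
    refine ⟨h3, ?_⟩
    have h4 : Real.exp (-(ε * n / (4 * K * I))) * u ≤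
        max (2 / K) (Real.exp (-(ε * n / (4 * K * I)))) * u :=
      mul_le_mul_of_nonneg_right (le_max_right _ _) hu.le
    refine le_trans ?_ (mul_le_mul_of_nonneg_left h4 hN)
    have h5 := Real.add_one_le_exp (-(ε * n / (4 * K * I)))
    have h6 : N * ((-(ε * n / (4 * K * I)) + 1) * u) ≤
        N * (Real.exp (-(ε * n / (4 * K * I))) * u) :=
      mul_le_mul_of_nonneg_left (mul_le_mul_of_nonneg_right h5 hu.le) hN
    refine le_trans ?_ h6
    have h7 : R / (4 * K * I) * u ≤ R / (4 * K) := by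
      rw [div_mul_eq_mul_div, div_le_div_iff₀ (by positivity) (by positivity)]
      have : R * u ≤ R * I := mul_le_mul_of_nonneg_left huI hR.le
      nlinarith only [hK0, this]
    have h8 : N * (R / (4 * K)) ≤ Δ := by
      rw [mul_div_assoc', div_le_iff₀ (by positivity)]
      linarith only [h3]
    rw [← hR']
    have h9 := mul_le_mul_of_nonneg_left h7 hN
    linarith only [h8, h9]

/-- **All primes.** -/
theorem main_ind {η t0 K e I : ℝ} (hN : NodeP η t0) (hη : 0 < η) (hη1 : η ≤ 1) (ht0 : 0 < t0)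
    (ht1 : t0 ≤ 1 / 2) (hK : 8 ≤ K) (he : 0 < e) (he1 : e ≤ 1) (hI : 0 < I) (s : List (ℕ × ℕ)) :
    (∀ q ∈ s, q.1.Prime ∧ 2 ≤ q.2) → ∀ (X W : Finset ℤ) (z : ℤ) (D : List ℕ → ℕ), z ∈ W →
      X.Nonempty → Good s D → (∀ t, InBox s t → D t ≠ 0) →
      Real.log X.card + Real.log W.card ≤ I →
      Av s (fun t => ∑ x ∈ X, mc η t0 K (η * t0 * e / (4 * K)) s X (sm (D t) W) x ((D t : ℤ) * z)) ≤
        X.card * ((η + 4 * K * e + th K (η * t0 * e / (4 * K)) I s) *
          (Real.log X.card + Real.log W.card)) := by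
  classical
  obtain ⟨ε, hε⟩ : ∃ ε, ε = η * t0 * e / (4 * K) := ⟨_, rfl⟩
  have hK0 : 0 < K := by linarith only [hK]
  have hε0 : 0 < ε := by rw [hε]; (clear * - hη ht0 he hK; positivity)
  obtain ⟨κ, hκ⟩ : ∃ κ, κ = η + 4 * K * e := ⟨_, rfl⟩
  have hκ0 : 0 ≤ κ := by rw [hκ]; positivity
  have hb0 : 0 < η * t0 := mul_pos hη ht0
  have hbt : η * t0 ≤ t0 := mul_le_of_le_one_left ht0.le hη1
  have hεb : 4 * ε / (η * t0 * e) = 1 / K := by
    rw [hε]
    field_simp
  have hεt : ε ≤ t0 := by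
    rw [hε, div_le_iff₀ (by positivity)]
    have h1 : η * t0 * e ≤ t0 * 1 := mul_le_mul hbt he1 he.le ht0.le
    (clear * - hb0 hbt hK he1; nlinarith only [hK, he1, hb0, hbt])
  rw [← hε, ← hκ]
  induction s with
  | nil =>
    intro _ X W z D hz hX _ _ _
    simp only [Av, mc]
    rw [Finset.sum_const, nsmul_eq_mul]
    refine mul_le_mul_of_nonneg_left ?_ (Nat.cast_nonneg _)
    have h1 : th K ε I [] = 1 := by
      unfold th
      simp
    have h2 : 0 ≤ Real.log X.card := Real.log_natCast_nonneg _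
    have h3 : 0 ≤ Real.log W.card := Real.log_natCast_nonneg _
    have h4 := mul_nonneg hκ0 (add_nonneg h2 h3)
    rw [h1, add_mul, one_mul]
    linarith only [h3, h4]
  | cons q s ih =>
    obtain ⟨p, n⟩ := q
    intro hs X W z D hz hX hGood hD0 huI
    have hp : p.Prime := (hs (p, n) (List.mem_cons_self ..)).1
    have hn2 : 2 ≤ n := (hs (p, n) (List.mem_cons_self ..)).2
    have hs' : ∀ q ∈ s, q.1.Prime ∧ 2 ≤ q.2 := fun q hq => hs q (List.mem_cons_of_mem _ hq)
    have hsn : ∀ q ∈ s, q.2 ≠ 0 := fun q hq => by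
      have := (hs' q hq).2
      omega
    obtain ⟨⟨c, hcinj, hcval⟩, hGood'⟩ := hGood
    have hn0 : (0 : ℝ) < n := by
      have : 0 < n := by omega
      exact_mod_cast this
    have hXc : (0 : ℝ) < X.card := by exact_mod_cast hX.card_pos
    obtain ⟨u, hu⟩ : ∃ u, u = Real.log X.card + Real.log W.card := ⟨_, rfl⟩
    have hlX : 0 ≤ Real.log X.card := Real.log_natCast_nonneg _
    have hlW : 0 ≤ Real.log W.card := Real.log_natCast_nonneg _
    have hu0 : 0 ≤ u := by rw [hu]; exact add_nonneg hlX hlW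
    obtain ⟨R, hR⟩ : ∃ R, R = min (ε * n) (K * u) := ⟨_, rfl⟩
    have hR0 : 0 ≤ R := by
      rw [hR]
      exact le_min (by (clear * - hε0 hn2; positivity)) (by (clear * - hK hu0; positivity))
    have hRn : R ≤ t0 * n := by
      rw [hR]
      exact (min_le_left _ _).trans (mul_le_mul_of_nonneg_right hεt hn0.le)
    have heR : 0 ≤ e * R := mul_nonneg he.le hR0
    obtain ⟨b, hb⟩ : ∃ b, b = η * t0 := ⟨_, rfl⟩
    obtain ⟨dl, hdl⟩ : ∃ dl : ℕ → ℤ → ℝ, dl = fun i x => dlt t0 b R e p (c i) X W z x :=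
      ⟨_, rfl⟩
    obtain ⟨θ, hθ⟩ : ∃ θ, θ = th K ε I s := ⟨_, rfl⟩
    have hθ0 : 0 < θ := by rw [hθ]; exact th_pos s
    -- one shift
    have hshift : ∀ i ∈ Finset.range n, Av s (fun t => ∑ x ∈ X, mc η t0 K ε ((p, n) :: s) X
        (sm (D (i :: t)) W) x ((D (i :: t) : ℤ) * z)) ≤
        ∑ x ∈ X, (η * dl i x + e * R) + ∑ x ∈ X, (κ + θ) * (u - dl i x) := by
      intro i hi
      rw [Finset.mem_range] at hi
      obtain ⟨T, hT⟩ : ∃ T : ℤ → ℕ, T = Tw t0 b R e p (c i) X W z := ⟨_, rfl⟩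
      have h1 : ∀ t, InBox s t → ∑ x ∈ X, mc η t0 K ε ((p, n) :: s) X (sm (D (i :: t)) W) x
          ((D (i :: t) : ℤ) * z) ≤ ∑ x ∈ X, (η * dl i x + e * R) +
          ∑ x ∈ X, mc η t0 K ε s (cls p (T x) X x) (sm (D (i :: t)) (cls p (T x - c i) W z)) x
            ((D (i :: t) : ℤ) * z) := by
        intro t ht
        have hD : D (i :: t) ≠ 0 := hD0 _ (List.Forall₂.cons hi ht)
        have hv : padicValNat p (D (i :: t)) = c i := hcval i hi t ht
        have h2 := cost_one (R := R) (e := e) hN heR hp hD (X := X) hz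
        rw [hv, ← hb] at h2
        have h3 : ∀ x ∈ X, mc η t0 K ε ((p, n) :: s) X (sm (D (i :: t)) W) x
            ((D (i :: t) : ℤ) * z) ≤ ∑ l ∈ Finset.range (T x),
              nc η t0 p l X (sm (D (i :: t)) W) x ((D (i :: t) : ℤ) * z) +
            mc η t0 K ε s (cls p (T x) X x) (sm (D (i :: t)) (cls p (T x - c i) W z)) x
              ((D (i :: t) : ℤ) * z) := by
          intro x hx
          obtain ⟨j, hj, hjT⟩ := lev_eq (b := b) (e := e) ht0 hp hD hRn X W x z hx hz
          have hthr : thr K ε n X (sm (D (i :: t)) W) = R := by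
            unfold thr
            rw [card_sm hD, ← hu, hR]
          simp only [mc]
          refine (Finset.inf'_le _ hj).trans (le_of_eq ?_)
          rw [hthr, hjT, hv, cls_sm hp hD, hv, ← hT]
        refine (Finset.sum_le_sum h3).trans ?_
        rw [Finset.sum_add_distrib]
        refine add_le_add ?_ le_rfl
        rw [hT, hdl]
        exact h2
      refine (Av_mono s _ _ h1).trans ?_
      rw [Av_add s (fun _ => ∑ x ∈ X, (η * dl i x + e * R)), Av_const s hsn, Av_sum]
      refine add_le_add le_rfl ?_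
      refine part_sum X (leaf t0 b R e p (c i) X W z) (fun x _ => Finset.filter_subset _ _)
        (fun x hx => self_mem_cls hx) (fun x hx y hy => leaf_leaf hp.two_le hx hz hy) _ _ ?_
      intro x hx
      have hlf : leaf t0 b R e p (c i) X W z x = cls p (T x) X x := by
        rw [hT]
        rfl
      have h4 : ∀ x' ∈ leaf t0 b R e p (c i) X W z x, Av s (fun t => mc η t0 K ε s
          (cls p (T x') X x') (sm (D (i :: t)) (cls p (T x' - c i) W z)) x'
            ((D (i :: t) : ℤ) * z)) = Av s (fun t => mc η t0 K ε s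
          (cls p (T x) X x) (sm (D (i :: t)) (cls p (T x - c i) W z)) x'
            ((D (i :: t) : ℤ) * z)) := by
        intro x' hx'
        have h5 : T x' = T x := by
          rw [hT]
          exact Tw_leaf hp.two_le hx hz hx'
        have h6 : cls p (T x') X x' = cls p (T x) X x := by
          have h7 := leaf_leaf hp.two_le hx hz hx'
          have h8 : leaf t0 b R e p (c i) X W z x' = cls p (T x') X x' := by
            rw [hT]
            rfl
          rw [← h8, h7, hlf]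
        rw [h6, h5]
      rw [Finset.sum_congr rfl h4, ← Av_sum, hlf]
      have h5 : Real.log (cls p (T x) X x).card + Real.log (cls p (T x - c i) W z).card =
          u - dl i x := by
        rw [hdl, hu, ← hlf]
        simp only [dlt]
        rw [← hT]
        ring
      have h6 := ih hs' (cls p (T x) X x) (cls p (T x - c i) W z) z (fun t => D (i :: t))
        (self_mem_cls hz) (cls_nonempty hx) (hGood' i hi)
        (fun t ht => hD0 _ (List.Forall₂.cons hi ht))
        (by
          rw [h5]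
          have h7 : 0 ≤ dl i x := by
            rw [hdl]
            exact dlt_nonneg hx hz
          rw [hu]
          linarith only [huI, h7])
      rw [h5, ← hθ] at h6
      exact h6
    -- the sum over the shifts
    have hsum : Av ((p, n) :: s) (fun t => ∑ x ∈ X, mc η t0 K ε ((p, n) :: s) X (sm (D t) W) x
        ((D t : ℤ) * z)) * n ≤ ∑ i ∈ Finset.range n, (∑ x ∈ X, (η * dl i x + e * R) +
          ∑ x ∈ X, (κ + θ) * (u - dl i x)) := by
      simp only [Av]
      rw [div_mul_cancel₀ _ hn0.ne']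
      exact Finset.sum_le_sum hshift
    obtain ⟨Δ, hΔ⟩ : ∃ Δ, Δ = ∑ i ∈ Finset.range n, ∑ x ∈ X, dl i x := ⟨_, rfl⟩
    have hΔ0 : 0 ≤ Δ := by
      rw [hΔ, hdl]
      exact Finset.sum_nonneg fun i _ => Finset.sum_nonneg fun x hx => dlt_nonneg hx hz
    have hesum : ∑ i ∈ Finset.range n, (∑ x ∈ X, (η * dl i x + e * R) +
          ∑ x ∈ X, (κ + θ) * (u - dl i x)) =
        η * Δ + e * (R * (n * X.card)) + (κ + θ) * (n * X.card * u - Δ) := by
      rw [hΔ, Finset.sum_add_distrib]
      congr 1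
      · rw [Finset.mul_sum]
        have : e * (R * (n * X.card)) = ∑ _i ∈ Finset.range n, ∑ _x ∈ X, e * R := by
          simp only [Finset.sum_const, Finset.card_range, nsmul_eq_mul]
          ring
        rw [this, ← Finset.sum_add_distrib]
        refine Finset.sum_congr rfl fun i _ => ?_
        rw [Finset.sum_add_distrib, Finset.mul_sum]
      · have : (n : ℝ) * X.card * u = ∑ _i ∈ Finset.range n, ∑ _x ∈ X, u := by
          simp only [Finset.sum_const, Finset.card_range, nsmul_eq_mul]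
          ring
        rw [this, ← Finset.sum_sub_distrib, Finset.mul_sum]
        refine Finset.sum_congr rfl fun i _ => ?_
        rw [← Finset.sum_sub_distrib, Finset.mul_sum]
    rw [hesum] at hsum
    have hN0 : (0 : ℝ) ≤ n * X.card := by (clear * - hn2 hX hΔ0 hθ0 hΔ hb hR0 hRn heR hdl hu hu0 hκ hκ0 hesum hε hε0 hεb hεt ih hR hθ hshift hsum; positivity)
    -- the two numerical facts
    have hnum : R * (n * X.card) ≤ 4 * K * Δ ∧ n * X.card * u - Δ ≤
        n * X.card * (th1 K ε I n * u) := by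
      rcases hu0.eq_or_lt with h0 | hupos
      · have hR' : R = 0 := by
          rw [hR, ← h0, mul_zero]
          exact min_eq_right (by (clear * - hε0 hn2; positivity))
        rw [hR', ← h0]
        refine ⟨?_, ?_⟩
        · rw [zero_mul]
          (clear * - hK hΔ0; positivity)
        · rw [mul_zero, mul_zero, mul_zero]
          linarith only [hΔ0]
      · have hRpos : 0 < R := by
          rw [hR]
          exact lt_min (by (clear * - hε0 hn2; positivity)) (by (clear * - hK hupos; positivity))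
        have h1 := decrease ht0 hb0 hbt hRpos he he1 hp.two_le hz n c hcinj
          (by rw [← hu]; exact hupos) (max 1 (if R ≤ b then 1 else n / K)) ?_ (X := X)
        · rw [← hu, ← hb] at h1
          refine numeric (B := X.card * max 1 (if R ≤ b then 1 else n / K)) hK hI hupos
            (by rw [hu]; exact huI) hN0 hΔ0 hR hRpos ?_ ?_ ?_
          · rw [hΔ, hdl]
            exact h1
          · have h2 : max 1 (if R ≤ b then (1 : ℝ) else n / K) ≤ n / 2 := by
              have hn2' : (2 : ℝ) ≤ n := by exact_mod_cast hn2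
              refine max_le (by linarith only [hn2']) ?_
              split_ifs
              · (clear * - hn2'; linarith only [hn2'])
              · exact div_le_div_of_nonneg_left hn0.le (by norm_num) (by linarith only [hK])
            have h3 := mul_le_mul_of_nonneg_left h2 hXc.le
            linarith only [h3]
          · intro hKu
            have h2 : R = K * u := by rw [hR]; exact min_eq_right hKu
            have hlog2 : Real.log 2 ≤ u := by
              have h3 : (2 : ℝ) ≤ X.card * W.card := by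
                by_contra hcon
                rw [not_le] at hcon
                have h4 : X.card * W.card < 2 := by exact_mod_cast hcon
                have hXp := hX.card_pos
                have hWp := Finset.card_pos.2 ⟨z, hz⟩
                have h5 : X.card * W.card = 1 := by
                  have : 0 < X.card * W.card := Nat.mul_pos hXp hWp
                  omega
                have h6 := Nat.eq_one_of_mul_eq_one_right h5
                have h7 := Nat.eq_one_of_mul_eq_one_left h5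
                rw [hu, h6, h7] at hupos
                simp at hupos
              have hW0 : (0 : ℝ) < W.card := by
                exact_mod_cast Finset.card_pos.2 ⟨z, hz⟩
              rw [hu, ← Real.log_mul hXc.ne' hW0.ne']
              exact Real.log_le_log (by norm_num) h3
            have h3 := Real.log_two_gt_d9
            have h4 : ¬ R ≤ b := by
              rw [not_le, h2, hb]
              have h5 : 8 * u ≤ K * u := mul_le_mul_of_nonneg_right hK hupos.le
              have h6 : η * t0 ≤ 1 / 2 := hbt.trans ht1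
              linarith only [hlog2, h3, h5, h6]
            have h5 : (1 : ℝ) ≤ n / K := by
              -- `K u ≤ ε n` and `u ≥ log 2`, `ε ≤ 1 / (8 K)`
              rw [le_div_iff₀ hK0, one_mul]
              have h6 : ε ≤ 1 / 2 := hεt.trans ht1
              have h7 : K * Real.log 2 ≤ ε * n := (mul_le_mul_of_nonneg_left hlog2 hK0.le).trans hKu
              have h8 : ε * n ≤ 1 / 2 * n := mul_le_mul_of_nonneg_right h6 hn0.le
              nlinarith only [h3, h7, h8]
            rw [if_neg h4, max_eq_right h5]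
            exact le_of_eq (by ring)
        · constructor
          · intro _
            exact le_max_left _ _
          · intro hRb
            rw [← hb] at hRb
            rw [if_neg (not_le.2 hRb)]
            refine le_max_of_le_right ?_
            have h2 : R ≤ ε * n := by rw [hR]; exact min_le_left _ _
            calc 4 * R / (η * t0 * e) ≤ 4 * (ε * n) / (η * t0 * e) := by (clear * - h2 hη ht0 he; gcongr)
              _ = 4 * ε / (η * t0 * e) * n := by ring
              _ = n / K := by rw [hεb]; ring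
    have hfin : Av ((p, n) :: s) (fun t => ∑ x ∈ X, mc η t0 K ε ((p, n) :: s) X (sm (D t) W) x
        ((D t : ℤ) * z)) * n ≤ (X.card * ((κ + th K ε I ((p, n) :: s)) * u)) * n := by
      refine hsum.trans ?_
      have h1 : th K ε I ((p, n) :: s) = th1 K ε I n * θ := by
        rw [hθ]
        unfold th
        rw [List.map_cons, List.prod_cons]
      rw [h1]
      have h2 := mul_le_mul_of_nonneg_left hnum.1 he.le
      have h3 := mul_le_mul_of_nonneg_left hnum.2 hθ0.le
      have h4 : κ * (n * X.card * u) = η * Δ + 4 * K * e * Δ + κ * (n * X.card * u - Δ) := by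
        rw [hκ]
        ring
      have h5 : (X.card * ((κ + th1 K ε I n * θ) * u)) * (n : ℝ) =
          κ * (n * X.card * u) + θ * (n * X.card * (th1 K ε I n * u)) := by ring
      rw [h5, h4]
      (clear * - h2 h3; linarith only [h2, h3])
    rw [← hu]
    exact le_of_mul_le_mul_right hfin hn0

end Pool.Agent.Helper62.GLP
end

/- Helper24.DI.H62.GLP.Decode -/
section
set_option autoImplicit false

/-!
# Project GL+ (MP_120218, helper62): decoding
-/

namespace Pool.Agent.Helper62.GLP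

open Finset Pool.Agent.Helper15.GL

theorem amgm {α : Type} (Ω : Finset α) (hΩ : Ω.Nonempty) (E : α → ℝ) (B : ℝ)
    (h : ∑ a ∈ Ω, Real.exp (-E a) ≤ B) :
    Real.log Ω.card - (∑ a ∈ Ω, E a) / Ω.card ≤ Real.log B := by
  have hc : (0 : ℝ) < Ω.card := by exact_mod_cast hΩ.card_pos
  obtain ⟨m, hm⟩ : ∃ m, m = (∑ a ∈ Ω, E a) / Ω.card := ⟨_, rfl⟩
  have h1 : ∀ a ∈ Ω, Real.exp (-m) * (1 + (m - E a)) ≤ Real.exp (-E a) := by
    intro a _
    have h2 := Real.add_one_le_exp (m - E a)
    calc Real.exp (-m) * (1 + (m - E a)) ≤ Real.exp (-m) * Real.exp (m - E a) :=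
          mul_le_mul_of_nonneg_left (by (clear * - h2; linarith only [h2])) (Real.exp_pos _).le
      _ = Real.exp (-E a) := by
          rw [← Real.exp_add]
          congr 1
          ring
  have h2 := Finset.sum_le_sum h1
  rw [← Finset.mul_sum, Finset.sum_add_distrib, Finset.sum_sub_distrib, Finset.sum_const,
    Finset.sum_const, nsmul_eq_mul, nsmul_eq_mul, mul_one] at h2
  have h3 : (Ω.card : ℝ) * m = ∑ a ∈ Ω, E a := by
    rw [hm]
    (clear * - hΩ hm h1 h2; field_simp)
  rw [h3, sub_self, add_zero] at h2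
  have h4 : Real.exp (-m) * Ω.card ≤ B := h2.trans h
  have h5 := Real.log_le_log (mul_pos (Real.exp_pos _) hc) h4
  rw [Real.log_mul (Real.exp_pos _).ne' hc.ne', Real.log_exp] at h5
  rw [← hm]
  linarith only [h5]

theorem log_list_prod (s : List (ℕ × ℕ)) :
    Real.log ((s.map (fun q => (q.2 : ℝ) + 2)).prod) =
      (s.map (fun q => Real.log ((q.2 : ℝ) + 2))).sum ∧
    0 < (s.map (fun q => (q.2 : ℝ) + 2)).prod := by
  induction s with
  | nil => simp
  | cons q s ih =>
    have h1 : (0 : ℝ) < (q.2 : ℝ) + 2 := by (clear * -; positivity)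
    rw [List.map_cons, List.prod_cons, List.map_cons, List.sum_cons,
      Real.log_mul h1.ne' ih.2.ne', ih.1]
    exact ⟨rfl, mul_pos h1 ih.2⟩

/-- the sums of all codes -/
theorem sum_codes (X W A : Finset ℤ) (P : Finset ℕ) (hP : ∀ d ∈ P, d ≠ 0) (d : ℤ → ℕ)
    (hd : ∀ z ∈ W, d z ∈ P ∧ (d z : ℤ) * z ∈ A) (F : ℕ → ℤ → ℤ → ℝ)
    (hF : ∀ D x y, 0 ≤ F D x y) (M : ℝ)
    (hK : ∀ D ∈ P, ∀ σ, psum X (sm D W) (F D) σ ≤ M) :
    ∑ q ∈ W ×ˢ X, F (d q.1) q.2 ((d q.1 : ℤ) * q.1) ≤
      P.card * ((Finset.image₂ (fun a b => a + b) X A).card * M) := by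
  classical
  obtain ⟨S, hS⟩ : ∃ S : Finset ℤ, S = Finset.image₂ (fun a b => a + b) X A := ⟨_, rfl⟩
  rw [← hS]
  have h1 := Finset.sum_fiberwise_of_maps_to (s := W ×ˢ X) (t := P) (g := fun q => d q.1)
    (fun q hq => (hd q.1 (Finset.mem_product.1 hq).1).1)
    (fun q => F (d q.1) q.2 ((d q.1 : ℤ) * q.1))
  rw [← h1]
  have h2 : ∀ D ∈ P, ∑ q ∈ (W ×ˢ X).filter (fun q => d q.1 = D),
      F (d q.1) q.2 ((d q.1 : ℤ) * q.1) ≤ S.card * M := by
    intro D hD
    have hD0 : (D : ℤ) ≠ 0 := by exact_mod_cast hP D hD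
    have h3 : ∀ q ∈ (W ×ˢ X).filter (fun q => d q.1 = D), q.2 + (D : ℤ) * q.1 ∈ S := by
      intro q hq
      rw [Finset.mem_filter, Finset.mem_product] at hq
      rw [hS]
      refine Finset.mem_image₂_of_mem hq.1.2 ?_
      rw [← hq.2]
      exact (hd q.1 hq.1.1).2
    rw [← Finset.sum_fiberwise_of_maps_to h3]
    have h4 : ∀ σ ∈ S, ∑ q ∈ ((W ×ˢ X).filter (fun q => d q.1 = D)).filter
        (fun q => q.2 + (D : ℤ) * q.1 = σ), F (d q.1) q.2 ((d q.1 : ℤ) * q.1) ≤ M := by
      intro σ _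
      refine le_trans ?_ (hK D hD σ)
      unfold psum
      obtain ⟨Q, hQ⟩ : ∃ Q, Q = ((W ×ˢ X).filter (fun q => d q.1 = D)).filter
        (fun q => q.2 + (D : ℤ) * q.1 = σ) := ⟨_, rfl⟩
      have memQ : ∀ q, q ∈ Q ↔ ((q.1 ∈ W ∧ q.2 ∈ X) ∧ d q.1 = D) ∧ q.2 + (D : ℤ) * q.1 = σ := by
        intro q
        rw [hQ, Finset.mem_filter, Finset.mem_filter, Finset.mem_product]
      rw [← hQ]
      have h5 : ∑ q ∈ Q, F (d q.1) q.2 ((d q.1 : ℤ) * q.1) =
          ∑ q ∈ Q, F D q.2 (σ - q.2) := by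
        refine Finset.sum_congr rfl fun q hq => ?_
        have h6 := (memQ q).1 hq
        rw [h6.1.2, ← h6.2, add_sub_cancel_left]
      have h6 : ∑ q ∈ Q, F D q.2 (σ - q.2) = ∑ x ∈ Q.image (fun q => q.2), F D x (σ - x) := by
        rw [Finset.sum_image]
        intro q hq q' hq' h
        have h7 := (memQ q).1 (Finset.mem_coe.1 hq)
        have h8 := (memQ q').1 (Finset.mem_coe.1 hq')
        have h9 : q.2 = q'.2 := h
        have h10 : (D : ℤ) * q.1 = (D : ℤ) * q'.1 := by
          have := h7.2.trans h8.2.symm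
          rw [h9] at this
          exact add_left_cancel this
        exact Prod.ext (mul_left_cancel₀ hD0 h10) h9
      rw [h5, h6]
      refine Finset.sum_le_sum_of_subset_of_nonneg ?_ fun x _ _ => hF _ _ _
      intro x hx
      obtain ⟨q, hq, rfl⟩ := Finset.mem_image.1 hx
      have h7 := (memQ q).1 hq
      refine Finset.mem_filter.2 ⟨h7.1.1.2, mem_sm.2 ⟨q.1, h7.1.1.1, ?_⟩⟩
      show (D : ℤ) * q.1 = σ - q.2
      rw [← h7.2, add_sub_cancel_left]
    refine (Finset.sum_le_sum h4).trans (le_of_eq ?_)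
    rw [Finset.sum_const, nsmul_eq_mul]
  refine (Finset.sum_le_sum h2).trans (le_of_eq ?_)
  rw [Finset.sum_const, nsmul_eq_mul]

/-- **Decoding.** If every `z ∈ W` has a tree of multipliers `D t ∈ P`, `D t * z ∈ A`, then `X + A`
is large. -/
theorem decode (η : ℝ) (hη : 0 < η) : ∃ ε : ℝ, 0 < ε ∧
    ∀ (s : List (ℕ × ℕ)) (X W A : Finset ℤ) (P : Finset ℕ) (I : ℝ),
      (∀ q ∈ s, q.1.Prime ∧ 2 ≤ q.2) → X.Nonempty → W.Nonempty → (∀ d ∈ P, d ≠ 0) → 0 < I →
      Real.log X.card + Real.log W.card ≤ I →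
      (∀ z ∈ W, ∃ D : List ℕ → ℕ, Good s D ∧ ∀ t, InBox s t → D t ∈ P ∧ (D t : ℤ) * z ∈ A) →
      (1 - η - Real.exp (-(ε * (s.map (fun q => (q.2 : ℝ))).sum / I))) *
          (Real.log X.card + Real.log W.card) - Real.log P.card -
          (s.map (fun q => Real.log ((q.2 : ℝ) + 2))).sum ≤
        Real.log ((Finset.image₂ (fun a b => a + b) X A).card) := by
  classical
  obtain ⟨h, hh⟩ : ∃ h, h = min η 1 := ⟨_, rfl⟩
  have hh0 : 0 < h := by rw [hh]; exact lt_min hη one_pos
  have hh1 : h ≤ 1 := by rw [hh]; exact min_le_right _ _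
  have hhη : h ≤ η := by rw [hh]; exact min_le_left _ _
  obtain ⟨t0, ht0, ht1, hnode⟩ := node_code (h / 4) (by (clear * - hh0; positivity)) (by (clear * - hh1; linarith))
  have hN : NodeP (h / 4) t0 := hnode
  obtain ⟨K, hK⟩ : ∃ K, K = 8 / h := ⟨_, rfl⟩
  have hK8 : 8 ≤ K := by
    rw [hK, le_div_iff₀ hh0]
    linarith only [hh1]
  have hK0 : 0 < K := by linarith only [hK8]
  obtain ⟨e, he⟩ : ∃ e, e = h ^ 2 / 128 := ⟨_, rfl⟩
  have he0 : 0 < e := by rw [he]; positivity
  have he1 : e ≤ 1 := by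
    rw [he]
    (clear * - hh1 hh0; nlinarith only [hh0, hh1])
  have hKe : 4 * K * e = h / 4 := by
    rw [hK, he]
    field_simp
    norm_num
  have h2K : 2 / K = h / 4 := by
    rw [hK]
    field_simp
    norm_num
  obtain ⟨ε, hε⟩ : ∃ ε, ε = h / 4 * t0 * e / (4 * K) := ⟨_, rfl⟩
  have hε0 : 0 < ε := by rw [hε]; (clear * - hh0 ht0 he0 hK8; positivity)
  refine ⟨ε / (4 * K), by (clear * - hε0 hK8; positivity), ?_⟩
  intro s X W A P I hs hX hW hP hI huI hD
  have hD' : ∀ z : ℤ, ∃ D : List ℕ → ℕ, z ∈ W →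
      (Good s D ∧ ∀ t, InBox s t → D t ∈ P ∧ (D t : ℤ) * z ∈ A) := by
    intro z
    by_cases hz : z ∈ W
    · obtain ⟨D, h1⟩ := hD z hz
      exact ⟨D, fun _ => h1⟩
    · exact ⟨fun _ => 0, fun h1 => absurd h1 hz⟩
  choose D hD using hD'
  have hXc : (0 : ℝ) < X.card := by exact_mod_cast hX.card_pos
  have hWc : (0 : ℝ) < W.card := by exact_mod_cast hW.card_pos
  obtain ⟨u, hu⟩ : ∃ u, u = Real.log X.card + Real.log W.card := ⟨_, rfl⟩
  have hu0 : 0 ≤ u := by
    rw [hu]
    exact add_nonneg (Real.log_natCast_nonneg _) (Real.log_natCast_nonneg _)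
  obtain ⟨V, hV⟩ : ∃ V, V = Real.log P.card +
    Real.log ((Finset.image₂ (fun a b => a + b) X A).card) +
      (s.map (fun q => Real.log ((q.2 : ℝ) + 2))).sum := ⟨_, rfl⟩
  -- the main inequality
  have hkey : ∀ t, InBox s t → (u - V) * (W.card * X.card) ≤
      ∑ z ∈ W, ∑ x ∈ X, mc (h / 4) t0 K ε s X (sm (D z t) W) x ((D z t : ℤ) * z) := by
    intro t ht
    obtain ⟨z0, hz0⟩ := hW
    have hz0' := (hD z0 hz0).2 t ht
    have hPc : (0 : ℝ) < P.card := by exact_mod_cast Finset.card_pos.2 ⟨_, hz0'.1⟩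
    have hSc : (0 : ℝ) < (Finset.image₂ (fun a b => a + b) X A).card := by
      obtain ⟨x0, hx0⟩ := hX
      exact_mod_cast Finset.card_pos.2 ⟨_, Finset.mem_image₂_of_mem hx0 hz0'.2⟩
    obtain ⟨hlog, hMpos⟩ := log_list_prod s
    have h1 := sum_codes X W A P hP (fun z => D z t) (fun z hz => (hD z hz).2 t ht)
      (fun D x y => Real.exp (-mc (h / 4) t0 K ε s X (sm D W) x y))
      (fun _ _ _ => (Real.exp_pos _).le) ((s.map (fun q => (q.2 : ℝ) + 2)).prod)
      (fun D _ σ => mc_kraft K ε hN s (fun q hq => (hs q hq).1.two_le) X (sm D W) σ)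
    have h2 := amgm (W ×ˢ X) (Finset.Nonempty.product ⟨z0, hz0⟩ hX)
      (fun q => mc (h / 4) t0 K ε s X (sm (D q.1 t) W) q.2 ((D q.1 t : ℤ) * q.1)) _ h1
    rw [Real.log_mul hPc.ne' (mul_pos hSc hMpos).ne', Real.log_mul hSc.ne' hMpos.ne', hlog,
      Finset.card_product, Nat.cast_mul, Real.log_mul hWc.ne' hXc.ne', Finset.sum_product] at h2
    have h3 : u - V ≤ (∑ z ∈ W, ∑ x ∈ X, mc (h / 4) t0 K ε s X (sm (D z t) W) x
        ((D z t : ℤ) * z)) / (W.card * X.card) := by
      rw [hu, hV]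
      (clear * - h2; linarith only [h2])
    rwa [le_div_iff₀ (mul_pos hWc hXc)] at h3
  have h1 := Av_mono s _ _ hkey
  rw [Av_const s (fun q hq => by have := (hs q hq).2; omega), Av_sum] at h1
  have h2 : ∀ z ∈ W, Av s (fun t => ∑ x ∈ X, mc (h / 4) t0 K ε s X (sm (D z t) W) x
      ((D z t : ℤ) * z)) ≤ X.card * ((h / 2 + th K ε I s) * u) := by
    intro z hz
    have h3 := main_ind hN (by positivity) (by (clear * - hh1; linarith only [hh1])) ht0 ht1 hK8 he0 he1 hI s hs X W z (D z)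
      hz hX (hD z hz).1 (fun t ht => hP _ ((hD z hz).2 t ht).1) huI
    rw [← hε, ← hu, hKe] at h3
    refine h3.trans (le_of_eq ?_)
    ring
  have h3 := h1.trans (Finset.sum_le_sum h2)
  rw [Finset.sum_const, nsmul_eq_mul] at h3
  have h4 : u - V ≤ (h / 2 + th K ε I s) * u := by
    have h5 : (W.card : ℝ) * (X.card * ((h / 2 + th K ε I s) * u)) =
        ((h / 2 + th K ε I s) * u) * (W.card * X.card) := by ring
    rw [h5] at h3
    exact le_of_mul_le_mul_right h3 (mul_pos hWc hXc)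
  have h5 : th K ε I s ≤ h / 4 + Real.exp (-(ε / (4 * K) *
      (s.map (fun q => (q.2 : ℝ))).sum / I)) := by
    refine (th_le (by linarith only [hK8]) hε0.le hI s).trans ?_
    rw [h2K]
    have h6 := Real.exp_pos (-(ε / (4 * K) * (s.map (fun q => (q.2 : ℝ))).sum / I))
    exact max_le (by linarith only [h6]) (by linarith only [hh0])
  have h6 : (h / 2 + th K ε I s) * u ≤ (η + Real.exp (-(ε / (4 * K) *
      (s.map (fun q => (q.2 : ℝ))).sum / I))) * u :=
    mul_le_mul_of_nonneg_right (by linarith only [hh0, hhη, h5]) hu0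
  rw [← hu]
  rw [hV] at h4
  linarith only [h4, h6]

end Pool.Agent.Helper62.GLP
end

/- Helper24.DI.H15.GPQ.GrowS -/
section
set_option autoImplicit false

/-!
# Project GL++ (MP_120218), GrowS: multipliers which are determined by `r` valuations
-/

namespace Pool.Agent.Helper15.GPQ

open Finset Pool.Agent.Helper15.GLP Pool.Agent.Helper62.GLP

/-- **Multipliers determined by `r` valuations, uniform in `r`.** -/
theorem grow_sepU (η B : ℝ) (hη : 0 < η) (hη1 : η ≤ 1) (hB : 0 ≤ B) :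
    ∃ C c N0 : ℝ, 0 < C ∧ 0 < c ∧ c ≤ 1 ∧ 0 < N0 ∧
    ∀ (A : Finset ℤ) (r : ℕ) (pr : Fin r → ℕ) (P Z : Finset ℚ), N0 ≤ A.card → 1 ≤ r →
      (r : ℝ) ≤ c * Real.log A.card →
      (∀ i, (pr i).Prime) → (∀ s ∈ P, 0 < s) →
      (∀ s ∈ P, ∀ t ∈ P, (∀ i, padicValRat (pr i) s = padicValRat (pr i) t) → s = t) →
      (P.card : ℝ) ≤ (A.card : ℝ) ^ c → (A.card : ℝ) ^ (1 - c) < Z.card →
      (∀ z ∈ Z, (C * Real.log A.card / r) ^ r < (rich A P z).card) →
      GrowsB η B A := by
  classical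
  obtain ⟨η0, hη0⟩ : ∃ η0 : ℝ, η0 = η / 8 := ⟨_, rfl⟩
  have hη0p : 0 < η0 := by rw [hη0]; positivity
  have hη01 : η0 ≤ 1 / 8 := by rw [hη0]; (clear * - hη1; linarith only [hη1])
  obtain ⟨ε1, hε1, hdec⟩ := decode η0 hη0p
  -- the constants
  obtain ⟨K1, hK1⟩ : ∃ K1 : ℝ, K1 = (B + 2) * Real.log (1 / η0) / ε1 := ⟨_, rfl⟩
  have hlog0 : 0 < Real.log (1 / η0) := by
    apply Real.log_pos
    rw [lt_div_iff₀ hη0p]
    (clear * - hη01; linarith only [hη01])
  have hK1p : 0 < K1 := by rw [hK1]; (clear * - hB hlog0 hε1; positivity)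
  obtain ⟨l, hl⟩ : ∃ l : ℝ, l = η0 / (4 * (K1 + 4)) := ⟨_, rfl⟩
  have hlp : 0 < l := by rw [hl]; (clear * - hη0p hK1p; positivity)
  have hlK : l * (K1 + 4) ≤ η0 / 4 := by
    rw [hl]
    have : K1 + 4 ≠ 0 := by positivity
    field_simp
    linarith only []
  have hl1 : l ≤ 1 := by (clear * - hη01 hK1p hlK; nlinarith only [hη01, hK1p, hlK])
  have hlogl : 0 ≤ Real.log (1 / l) := by
    apply Real.log_nonneg
    rw [le_div_iff₀ hlp]
    linarith only [hl1]
  obtain ⟨c, hc⟩ : ∃ c : ℝ, c = η0 / (4 * (1 + Real.log (1 / l))) := ⟨_, rfl⟩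
  have hc0 : 0 < c := by rw [hc]; (clear * - hη0p hlogl; positivity)
  have hcl : c * (1 + Real.log (1 / l)) ≤ η0 / 4 := by
    rw [hc]
    have : 1 + Real.log (1 / l) ≠ 0 := by positivity
    field_simp
    linarith only []
  have hcη : c ≤ η0 / 4 := (le_mul_of_one_le_right hc0.le (by linarith only [hlogl])).trans hcl
  have hc1 : c ≤ 1 := by linarith only [hη01, hcη]
  refine ⟨Real.exp 1 * (K1 + 2), c, Real.exp 1, by positivity, hc0, hc1, Real.exp_pos _, ?_⟩
  intro A r pr P Z hAN hr hra hprime hPpos hsep hPc hmany hrich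
  have hA0 : (0 : ℝ) < A.card := lt_of_lt_of_le (Real.exp_pos _) hAN
  obtain ⟨a, ha⟩ : ∃ a : ℝ, a = Real.log A.card := ⟨_, rfl⟩
  have ha1 : 1 ≤ a := by
    rw [ha, Real.le_log_iff_exp_le hA0]
    exact hAN
  rw [← ha] at hrich hra
  have hA1R : (1 : ℝ) ≤ A.card := by
    have := Real.add_one_le_exp (1 : ℝ)
    linarith only [hAN, this]
  have hr0 : (0 : ℝ) < r := by exact_mod_cast hr
  have ha0 : 0 ≤ a := by linarith only [ha1]
  have hca1 : c * a ≤ η0 / 4 * a := mul_le_mul_of_nonneg_right hcη ha0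
  have hηa0 : 0 ≤ η0 * a := mul_nonneg hη0p.le ha0
  have hca2 : c * a ≤ a := mul_le_of_le_one_left ha0 hc1
  have hra' : (r : ℝ) ≤ a := hra.trans hca2
  have hZp : (0 : ℝ) < Z.card := lt_of_le_of_lt (Real.rpow_nonneg hA0.le _) hmany
  have hZne : Z.Nonempty := by
    rw [← Finset.card_pos]
    exact_mod_cast hZp
  -- the number `N`
  obtain ⟨N, hN⟩ : ∃ N : ℕ, N = ⌈K1 * a⌉₊ := ⟨_, rfl⟩
  have hNK : K1 * a ≤ N := by rw [hN]; exact Nat.le_ceil _
  have hNle : (N : ℝ) ≤ (K1 + 1) * a := by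
    rw [hN]
    have := (Nat.ceil_lt_add_one (a := K1 * a) (by (clear * - hK1p ha1; positivity))).le
    linarith only [ha1, this]
  have hT : (((N + r).choose r : ℕ) : ℝ) ≤ (Real.exp 1 * (K1 + 2) * a / r) ^ r := by
    refine (choose_le N r hr).trans (pow_le_pow_left₀ (by (clear * - hr; positivity)) ?_ r)
    rw [div_le_div_iff_of_pos_right hr0, mul_assoc]
    refine mul_le_mul_of_nonneg_left ?_ (Real.exp_pos 1).le
    linarith only [hra', hNle]
  have hT1 : (1 : ℝ) ≤ (Real.exp 1 * (K1 + 2) * a / r) ^ r := by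
    refine le_trans ?_ hT
    exact_mod_cast Nat.one_le_iff_ne_zero.2 (Nat.choose_pos (by omega)).ne'
  have hZ0 : ∀ z ∈ Z, z ≠ 0 := by
    rintro z hz rfl
    have h1 := hrich 0 hz
    have h2 : (rich A P 0).card ≤ 1 := by
      rw [Finset.card_le_one]
      intro x hx y hy
      obtain ⟨_, s, _, hs⟩ := mem_rich.1 hx
      obtain ⟨_, t, _, ht⟩ := mem_rich.1 hy
      rw [zero_mul] at hs ht
      have h3 : (x : ℚ) = y := by rw [hs, ht]
      exact_mod_cast h3
    have h3 : ((rich A P 0).card : ℝ) ≤ 1 := by exact_mod_cast h2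
    (clear * - hT1 h1 h3; linarith only [hT1, h1, h3])
  have hPne : P.Nonempty := by
    obtain ⟨z, hz⟩ := hZne
    have h1 := hrich z hz
    have h2 : (0 : ℝ) < (rich A P z).card := by linarith only [hT1, h1]
    have h3 : 0 < (rich A P z).card := by exact_mod_cast h2
    obtain ⟨x, hx⟩ := Finset.card_pos.1 h3
    obtain ⟨_, s, hs, _⟩ := mem_rich.1 hx
    exact ⟨s, hs⟩
  have hAne : A.Nonempty := by
    rw [← Finset.card_pos]
    exact_mod_cast hA0
  have hPp : (1 : ℝ) ≤ P.card := by exact_mod_cast hPne.card_pos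
  obtain ⟨r', hr'⟩ : ∃ r' : ℕ, r' = r := ⟨_, rfl⟩
  subst hr'
  have hqr : r' ≤ r' := le_rfl
  have hr'r : (r' : ℝ) ≤ r' := le_rfl
  -- scaling
  obtain ⟨D, σ, hD, hσ⟩ := scale_pos P hPpos
  have hDQ : (D : ℚ) ≠ 0 := by exact_mod_cast hD.ne'
  have hσinj : Set.InjOn σ P := by
    intro s hs s' hs' h
    have h1 := (hσ s hs).2
    have h2 := (hσ s' hs').2
    rw [h, h2] at h1
    exact (mul_right_cancel₀ hDQ h1).symm
  obtain ⟨P', hP'⟩ : ∃ P' : Finset ℕ, P' = P.image σ := ⟨_, rfl⟩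
  have hP'c : P'.card ≤ P.card := by
    rw [hP']
    exact Finset.card_image_le
  have hP'ne : P'.Nonempty := by rw [hP']; exact hPne.image σ
  have hP'0 : ∀ s ∈ P', s ≠ 0 := by
    intro s hs
    rw [hP', Finset.mem_image] at hs
    obtain ⟨t, ht, rfl⟩ := hs
    exact (hσ t ht).1
  have hinj : ∀ s ∈ P', ∀ s' ∈ P',
      (∀ j, padicValNat (pr j) s = padicValNat (pr j) s') → s = s' := by
    intro s hs s' hs' h
    rw [hP', Finset.mem_image] at hs hs'
    obtain ⟨t, ht, rfl⟩ := hs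
    obtain ⟨t', ht', rfl⟩ := hs'
    have h1 : t = t' := by
      refine hsep t ht t' ht' fun j => ?_
      have := Fact.mk (hprime j)
      have h2 : (padicValRat (pr j) ((σ t : ℕ) : ℚ)) = padicValRat (pr j) ((σ t' : ℕ) : ℚ) := by
        rw [padicValRat.of_nat, padicValRat.of_nat, h j]
      rw [(hσ t ht).2, (hσ t' ht').2, padicValRat.mul (hPpos t ht).ne' hDQ,
        padicValRat.mul (hPpos t' ht').ne' hDQ] at h2
      linarith only [h2]
    rw [h1]
  obtain ⟨E, hE, hEz⟩ := scale_int (Z.image (fun z : ℚ => z / (D : ℚ)))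
  have hEQ : (E : ℚ) ≠ 0 := by exact_mod_cast hE.ne'
  obtain ⟨ω, hω⟩ : ∃ ω : ℚ → ℤ, ω = fun z : ℚ => (z / (D : ℚ) * (E : ℚ)).num :=
    ⟨_, rfl⟩
  have hωz : ∀ z ∈ Z, ((ω z : ℤ) : ℚ) = z / D * E := by
    intro z hz
    rw [hω]
    exact hEz _ (Finset.mem_image_of_mem _ hz)
  have hωinj : Set.InjOn ω Z := by
    intro z hz w hw h
    have h1 := hωz z (Finset.mem_coe.1 hz)
    have h2 := hωz w (Finset.mem_coe.1 hw)
    rw [h, h2] at h1
    have h3 := mul_right_cancel₀ hEQ h1
    exact ((div_left_inj' hDQ).1 h3).symm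
  obtain ⟨A', hA'⟩ : ∃ A' : Finset ℤ, A' = A.image (fun x => (E : ℤ) * x) := ⟨_, rfl⟩
  obtain ⟨W0, hW0⟩ : ∃ W0 : Finset ℤ, W0 = Z.image ω := ⟨_, rfl⟩
  have hW0c : W0.card = Z.card := by rw [hW0, Finset.card_image_of_injOn hωinj]
  have hW0ne : W0.Nonempty := by rw [hW0]; exact hZne.image _
  have hrich' : ∀ w ∈ W0, (N + r').choose r' <
      (P'.filter (fun d : ℕ => (d : ℤ) * w ∈ A')).card := by
    intro w hw
    rw [hW0, Finset.mem_image] at hw
    obtain ⟨z, hz, rfl⟩ := hw
    have h1 : (((N + r').choose r' : ℕ) : ℝ) < (rich A P z).card := by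
      refine lt_of_le_of_lt ?_ (hrich z hz)
      refine le_trans ?_ hT
      exact_mod_cast choose_mono N r' r' hqr
    have h2 : (N + r').choose r' < (rich A P z).card := by exact_mod_cast h1
    refine h2.trans_le ?_
    have hz0 := hZ0 z hz
    refine Finset.card_le_card_of_injOn (fun x : ℤ => σ (x / z)) ?_ ?_
    · intro x hx
      obtain ⟨hxA, s, hs, hxs⟩ := mem_rich.1 (Finset.mem_coe.1 hx)
      have h3 : (x : ℚ) / z = s := by
        rw [hxs]
        (clear * - hz0; field_simp)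
      refine Finset.mem_coe.2 (Finset.mem_filter.2 ⟨?_, ?_⟩)
      · show σ (x / z) ∈ P'
        rw [h3, hP']
        exact Finset.mem_image_of_mem σ hs
      · have h4 : ((((σ (x / z) : ℕ) : ℤ) * ω z : ℤ) : ℚ) = (((E : ℤ) * x : ℤ) : ℚ) := by
          push_cast
          rw [hωz z hz, h3, (hσ _ hs).2, hxs]
          (clear * - hDQ hEQ hz0; field_simp)
        have h5 : ((σ (x / z) : ℕ) : ℤ) * ω z = (E : ℤ) * x := by exact_mod_cast h4
        show ((σ (x / z) : ℕ) : ℤ) * ω z ∈ A'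
        rw [h5, hA']
        exact Finset.mem_image_of_mem _ hxA
    · intro x hx y hy h
      obtain ⟨_, s, hs, hxs⟩ := mem_rich.1 (Finset.mem_coe.1 hx)
      obtain ⟨_, t, ht, hyt⟩ := mem_rich.1 (Finset.mem_coe.1 hy)
      have h3 : (x : ℚ) / z = s := by
        rw [hxs]
        (clear * - hz0; field_simp)
      have h4 : (y : ℚ) / z = t := by
        rw [hyt]
        (clear * - hz0; field_simp)
      have h5 : σ (x / z) = σ (y / z) := h
      rw [h3, h4] at h5
      have h6 := hσinj (Finset.mem_coe.2 hs) (Finset.mem_coe.2 ht) h5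
      rw [h6, ← hyt] at hxs
      exact_mod_cast hxs
  obtain ⟨sh, W, hWW, hWne, hsum, hWc, hWg⟩ :=
    shape_core r' N pr P' hinj A' W0 hW0ne hrich'
  -- the size of `W`
  have hWp : (1 : ℝ) ≤ W.card := by exact_mod_cast hWne.card_pos
  have hchp : (0 : ℝ) < (((N + r').choose r' : ℕ) : ℝ) := by
    exact_mod_cast Nat.choose_pos (by omega)
  have hr'0 : (0 : ℝ) ≤ r' := Nat.cast_nonneg _
  have hlogch : Real.log (((N + r').choose r' : ℕ) : ℝ) ≤ η0 / 2 * a := by
    refine (log_choose_le N r' l hlp).trans ?_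
    have e1 : (r' : ℝ) * (1 + Real.log (1 / l)) ≤ η0 / 4 * a := by
      calc (r' : ℝ) * (1 + Real.log (1 / l)) ≤ (c * a) * (1 + Real.log (1 / l)) :=
            mul_le_mul_of_nonneg_right (by linarith only [hra]) (by (clear * - hlogl; positivity))
        _ = (c * (1 + Real.log (1 / l))) * a := by ring
        _ ≤ η0 / 4 * a := mul_le_mul_of_nonneg_right hcl (by linarith only [hra'])
    have e2 : l * ((N : ℝ) + r') ≤ η0 / 4 * a := by
      calc l * ((N : ℝ) + r') ≤ l * ((K1 + 4) * a) :=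
            mul_le_mul_of_nonneg_left (by linarith only [hNle, hra']) hlp.le
        _ = (l * (K1 + 4)) * a := by ring
        _ ≤ η0 / 4 * a := mul_le_mul_of_nonneg_right hlK (by linarith only [hra'])
    linarith only [e1, e2]
  have hlogW : (1 - η0) * a ≤ Real.log W.card := by
    have e1 : (A.card : ℝ) ^ (1 - c) ≤ ((N + r').choose r' : ℕ) * W.card := by
      rw [hW0c] at hWc
      exact hmany.le.trans hWc
    have e2 := Real.log_le_log (Real.rpow_pos_of_pos hA0 _) e1
    rw [Real.log_rpow hA0, Real.log_mul hchp.ne' (by linarith only [hWp]), ← ha] at e2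
    linarith only [hca1, hηa0, hlogch, e2]
  have hlogW2 : Real.log W.card ≤ 2 * a := by
    have e1 : W.card ≤ A.card * P.card := by
      have h1 : W ⊆ (A ×ˢ P).image (fun x : ℤ × ℚ => ω ((x.1 : ℚ) / x.2)) := by
        intro w hw
        have hw0 := hWW hw
        rw [hW0, Finset.mem_image] at hw0
        obtain ⟨z, hz, rfl⟩ := hw0
        have h1 := hrich z hz
        have h2 : (0 : ℝ) < (rich A P z).card := by linarith only [hT1, h1]
        have h3 : 0 < (rich A P z).card := by exact_mod_cast h2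
        obtain ⟨x, hx⟩ := Finset.card_pos.1 h3
        obtain ⟨hxA, s, hs, hxs⟩ := mem_rich.1 hx
        rw [Finset.mem_image]
        refine ⟨(x, s), Finset.mk_mem_product hxA hs, ?_⟩
        have hs0 := (hPpos s hs).ne'
        have h4 : (x : ℚ) / s = z := by
          rw [hxs]
          (clear * - hs0; field_simp)
        show ω ((x : ℚ) / s) = ω z
        rw [h4]
      calc W.card ≤ ((A ×ˢ P).image (fun x : ℤ × ℚ => ω ((x.1 : ℚ) / x.2))).card :=
            Finset.card_le_card h1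
        _ ≤ (A ×ˢ P).card := Finset.card_image_le
        _ = A.card * P.card := Finset.card_product _ _
    have e2 : (W.card : ℝ) ≤ A.card * P.card := by exact_mod_cast e1
    have e3 : (W.card : ℝ) ≤ A.card * (A.card : ℝ) ^ c :=
      e2.trans (mul_le_mul_of_nonneg_left hPc hA0.le)
    have e4 := Real.log_le_log (by linarith only [hWp]) e3
    rw [Real.log_mul hA0.ne' (Real.rpow_pos_of_pos hA0 _).ne', Real.log_rpow hA0, ← ha] at e4
    linarith only [hca2, e4]
  have hlogP : Real.log P'.card ≤ η0 * a := by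
    have e0 : (1 : ℝ) ≤ P'.card := by exact_mod_cast hP'ne.card_pos
    have e1 : (P'.card : ℝ) ≤ (A.card : ℝ) ^ c := by
      refine le_trans ?_ hPc
      exact_mod_cast hP'c
    have e2 := Real.log_le_log (by linarith only [e0]) e1
    rw [Real.log_rpow hA0, ← ha] at e2
    linarith only [hca1, hηa0, e2]
  have hlogs : ((shp pr sh).map (fun q => Real.log ((q.2 : ℝ) + 2))).sum ≤ η0 * a := by
    refine (sum_log_shp pr sh).trans ?_
    have e1 : ∑ j, Real.log ((sh j : ℝ) + 3) ≤
        ∑ j, (l * ((sh j : ℝ) + 3) + Real.log (1 / l)) := by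
      refine Finset.sum_le_sum fun j _ => log_le_lin l _ hlp ?_
      have : (0 : ℝ) ≤ sh j := Nat.cast_nonneg _
      linarith only []
    refine e1.trans ?_
    have e2 : ∑ j, (l * ((sh j : ℝ) + 3) + Real.log (1 / l)) =
        l * (N + 3 * r') + r' * Real.log (1 / l) := by
      rw [Finset.sum_add_distrib, ← Finset.mul_sum, Finset.sum_add_distrib, Finset.sum_const,
        Finset.sum_const, Finset.card_univ, Fintype.card_fin, nsmul_eq_mul, nsmul_eq_mul]
      have : ∑ j, (sh j : ℝ) = N := by exact_mod_cast hsum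
      rw [this]
      ring
    rw [e2]
    have e3 : (r' : ℝ) * Real.log (1 / l) ≤ η0 / 4 * a := by
      calc (r' : ℝ) * Real.log (1 / l) ≤ (c * a) * (1 + Real.log (1 / l)) := by
            refine mul_le_mul (by linarith only [hra]) (by linarith only []) hlogl (by (clear * - hc0 ha1; positivity))
        _ = (c * (1 + Real.log (1 / l))) * a := by ring
        _ ≤ η0 / 4 * a := mul_le_mul_of_nonneg_right hcl (by linarith only [hra'])
    have e4 : l * ((N : ℝ) + 3 * r') ≤ η0 / 4 * a := by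
      have hca : (r' : ℝ) ≤ c * a := by linarith only [hra]
      have hca2 : c * a ≤ 1 / 32 * a := mul_le_mul_of_nonneg_right (by linarith only [hη01, hcη]) (by linarith only [hra'])
      calc l * ((N : ℝ) + 3 * r') ≤ l * ((K1 + 4) * a) :=
            mul_le_mul_of_nonneg_left (by linarith only [hNle, hca, hca2]) hlp.le
        _ = (l * (K1 + 4)) * a := by ring
        _ ≤ η0 / 4 * a := mul_le_mul_of_nonneg_right hlK (by linarith only [hca, hca2])
    linarith only [hηa0, e3, e4]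
  -- decoding
  intro X hX hXB
  rw [← ha] at hXB ⊢
  obtain ⟨X', hX'⟩ : ∃ X' : Finset ℤ, X' = X.image (fun x => (E : ℤ) * x) := ⟨_, rfl⟩
  have hX'c : X'.card = X.card := by rw [hX']; exact card_scale E hE X
  have hX'ne : X'.Nonempty := by rw [hX']; exact hX.image _
  have hX1 : (1 : ℝ) ≤ X.card := by exact_mod_cast hX.card_pos
  have hx0 : 0 ≤ Real.log X.card := Real.log_nonneg hX1
  have hfin := hdec (shp pr sh) X' W A' P' ((B + 2) * a) (fun q hq => by
      obtain ⟨⟨j, hj⟩, h2⟩ := shp_mem pr sh q hq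
      rw [hj]
      exact ⟨hprime j, h2⟩) hX'ne hWne hP'0 (by (clear * - hB ha1; positivity)) (by
      rw [hX'c]
      linarith only [hlogW2, hXB]) hWg
  have hcs : (Finset.image₂ (fun a b => a + b) X' A').card =
      (Finset.image₂ (fun a b => a + b) X A).card := by
    rw [hX', hA']
    exact card_sum_scale E hE X A
  rw [hcs, hX'c] at hfin
  have hexp : Real.exp (-(ε1 * ((shp pr sh).map (fun q => (q.2 : ℝ))).sum / ((B + 2) * a))) ≤
      η0 := by
    have e1 : (N : ℝ) ≤ ((shp pr sh).map (fun q => (q.2 : ℝ))).sum := by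
      have := sum_shp pr sh
      rw [hsum] at this
      exact this
    have e2 : Real.log (1 / η0) ≤
        ε1 * ((shp pr sh).map (fun q => (q.2 : ℝ))).sum / ((B + 2) * a) := by
      rw [le_div_iff₀ (by (clear * - hB ha1; positivity))]
      have e3 : Real.log (1 / η0) * ((B + 2) * a) = ε1 * (K1 * a) := by
        rw [hK1]
        (clear * - hε1 ha1 hB hlog0; field_simp)
      rw [e3]
      exact mul_le_mul_of_nonneg_left (hNK.trans e1) hε1.le
    have e4 : Real.exp (-(ε1 * ((shp pr sh).map (fun q => (q.2 : ℝ))).sum / ((B + 2) * a))) ≤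
        Real.exp (-Real.log (1 / η0)) := Real.exp_le_exp.2 (by linarith only [e2])
    refine e4.trans ?_
    rw [one_div, Real.log_inv, neg_neg, Real.exp_log hη0p]
  have hw0 : 0 ≤ Real.log W.card := Real.log_nonneg hWp
  have h1 : (1 - 2 * η0) * (Real.log X.card + Real.log W.card) ≤
      (1 - η0 - Real.exp (-(ε1 * ((shp pr sh).map (fun q => (q.2 : ℝ))).sum /
        ((B + 2) * a)))) * (Real.log X.card + Real.log W.card) :=
    mul_le_mul_of_nonneg_right (by linarith only [hexp]) (by linarith only [hx0, hw0])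
  have h2 : (1 - 2 * η0) * ((1 - η0) * a) ≤ (1 - 2 * η0) * Real.log W.card :=
    mul_le_mul_of_nonneg_left hlogW (by linarith only [hη01])
  have h3 : η = 8 * η0 := by rw [hη0]; ring
  rw [h3]
  have e1 := mul_nonneg hη0p.le hx0
  have e2 := mul_nonneg hη0p.le (show (0 : ℝ) ≤ a by linarith only [hlogW2, hw0])
  have e3 := mul_nonneg (mul_nonneg hη0p.le hη0p.le) (show (0 : ℝ) ≤ a by linarith only [hlogW2, hw0])
  have e4 : (1 - 8 * η0) * (Real.log X.card + a) = Real.log X.card + a -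
      8 * (η0 * Real.log X.card) - 8 * (η0 * a) := by ring
  have e5 : (1 - 2 * η0) * (Real.log X.card + Real.log W.card) = Real.log X.card -
      2 * (η0 * Real.log X.card) + (1 - 2 * η0) * Real.log W.card := by ring
  have e6 : (1 - 2 * η0) * ((1 - η0) * a) = a - 3 * (η0 * a) + 2 * (η0 * η0 * a) := by ring
  rw [e4]
  rw [e5] at h1
  rw [e6] at h2
  linarith only [hlogP, hlogs, hfin, h1, h2, e1, e2, e3]

end Pool.Agent.Helper15.GPQ
end

/- Helper24.DI.H15.GPR.Power -/
section
set_option autoImplicit false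

/-!
# Project GL++ (MP_120218), Power: popular ratios and their powers
-/

namespace Pool.Agent.Helper15.GPR

open Finset

/-- the elements of `A` whose multiple by `x` lies in `B` -/
def inc (A : Finset ℤ) (B : Finset ℚ) (x : ℚ) : Finset ℤ := A.filter (fun a => (a : ℚ) * x ∈ B)

/-- the number of elements of `A` whose multiple by `x` lies in `A` -/
def ww (A : Finset ℤ) (x : ℚ) : ℕ := (inc A (A.image (fun a : ℤ => (a : ℚ))) x).card

theorem mem_inc {A : Finset ℤ} {B : Finset ℚ} {x : ℚ} {a : ℤ} :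
    a ∈ inc A B x ↔ a ∈ A ∧ (a : ℚ) * x ∈ B := Finset.mem_filter

theorem ww_le (A : Finset ℤ) (x : ℚ) : ww A x ≤ A.card := Finset.card_filter_le _ _

/-- **Cauchy-Schwarz** -/
theorem cs {ι : Type*} (A : Finset ℤ) (B : Finset ℚ) (s : Finset ι) (φ : ι → ℚ)
    (h : ∀ i ∈ s, φ i ≠ 0) :
    (∑ i ∈ s, (inc A B (φ i)).card) ^ 2 ≤ B.card * ∑ i ∈ s, ∑ j ∈ s, ww A (φ i / φ j) := by
  classical
  obtain ⟨Rel, hRel⟩ : ∃ Rel : ι → ℚ → Prop, Rel = fun i z => ∃ a ∈ A, (a : ℚ) * φ i = z :=
    ⟨_, rfl⟩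
  have h1 : ∀ i ∈ s, (inc A B (φ i)).card = (B.filter (fun z => Rel i z)).card := by
    intro i hi
    rw [← Finset.card_image_of_injOn (s := inc A B (φ i)) (f := fun a : ℤ => (a : ℚ) * φ i)]
    · congr 1
      ext z
      rw [Finset.mem_image, Finset.mem_filter, hRel]
      constructor
      · rintro ⟨a, ha, rfl⟩
        rw [mem_inc] at ha
        exact ⟨ha.2, a, ha.1, rfl⟩
      · rintro ⟨hz, a, ha, rfl⟩
        exact ⟨a, mem_inc.2 ⟨ha, hz⟩, rfl⟩
    · intro a _ b _ hab
      have h2 := mul_right_cancel₀ (h i hi) hab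
      exact_mod_cast h2
  have h2 : ∑ i ∈ s, (inc A B (φ i)).card = ∑ z ∈ B, (s.filter (fun i => Rel i z)).card := by
    rw [Finset.sum_congr rfl h1]
    simp_rw [Finset.card_filter]
    exact Finset.sum_comm
  rw [h2]
  refine (sq_sum_le_card_mul_sum_sq).trans (Nat.mul_le_mul_left _ ?_)
  have h3 : ∀ z ∈ B, (s.filter (fun i => Rel i z)).card ^ 2 =
      ∑ i ∈ s, ∑ j ∈ s, if Rel i z ∧ Rel j z then 1 else 0 := by
    intro z _
    rw [sq, Finset.card_filter, Finset.sum_mul_sum]
    refine Finset.sum_congr rfl fun i _ => Finset.sum_congr rfl fun j _ => ?_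
    by_cases h4 : Rel i z
    · by_cases h5 : Rel j z
      · simp [h4, h5]
      · simp [h4, h5]
    · simp [h4]
  rw [Finset.sum_congr rfl h3, Finset.sum_comm]
  refine Finset.sum_le_sum fun i hi => ?_
  rw [Finset.sum_comm]
  refine Finset.sum_le_sum fun j hj => ?_
  rw [← Finset.card_filter]
  unfold ww
  refine le_trans ?_ (Finset.card_image_le (f := fun a : ℤ => (a : ℚ)))
  refine Finset.card_le_card_of_injOn (fun z => z / φ i) ?_ ?_
  · intro z hz
    obtain ⟨-, h4, h5⟩ := Finset.mem_filter.1 (Finset.mem_coe.1 hz)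
    rw [hRel] at h4 h5
    obtain ⟨a, ha, h4⟩ := h4
    obtain ⟨a', ha', h5⟩ := h5
    refine Finset.mem_coe.2 (Finset.mem_image.2 ⟨a, mem_inc.2 ⟨ha, ?_⟩, ?_⟩)
    · refine Finset.mem_image.2 ⟨a', ha', ?_⟩
      show (a' : ℚ) = (a : ℚ) * (φ i / φ j)
      rw [← mul_div_assoc, h4, ← h5, mul_div_assoc, div_self (h j hj), mul_one]
    · show (a : ℚ) = z / φ i
      rw [← h4, mul_div_assoc, div_self (h i hi), mul_one]
  · intro z _ z' _ hzz
    exact (div_left_inj' (h i hi)).1 hzz

/-- sums over products of `n` factors -/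
def TT {κ : Type*} (K : Finset κ) (x : κ → ℚ) (n : ℕ) (f : ℚ → ℕ) : ℕ :=
  ∑ τ ∈ Fintype.piFinset (fun _ : Fin n => K), f (∏ i, x (τ i))

theorem TT_add {κ : Type*} (K : Finset κ) (x : κ → ℚ) (n m : ℕ) (f : ℚ → ℕ) :
    TT K x (n + m) f = TT K x n (fun y => TT K x m (fun z => f (y * z))) := by
  unfold TT
  rw [← Finset.sum_product' (f := fun (τ : Fin n → κ) (σ : Fin m → κ) =>
    f ((∏ i, x (τ i)) * ∏ i, x (σ i)))]
  refine Finset.sum_bij' (fun τ _ => (fun i => τ (Fin.castAdd m i), fun i => τ (Fin.natAdd n i)))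
    (fun p _ => Fin.append p.1 p.2) ?_ ?_ ?_ ?_ ?_
  · intro τ hτ
    rw [Fintype.mem_piFinset] at hτ
    exact Finset.mem_product.2 ⟨Fintype.mem_piFinset.2 fun i => hτ _,
      Fintype.mem_piFinset.2 fun i => hτ _⟩
  · intro p hp
    rw [Finset.mem_product, Fintype.mem_piFinset, Fintype.mem_piFinset] at hp
    rw [Fintype.mem_piFinset]
    intro i
    refine Fin.addCases (fun j => ?_) (fun j => ?_) i
    · rw [Fin.append_left]
      exact hp.1 j
    · rw [Fin.append_right]
      exact hp.2 j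
  · intro τ _
    funext i
    refine Fin.addCases (fun j => ?_) (fun j => ?_) i
    · rw [Fin.append_left]
    · rw [Fin.append_right]
  · intro p _
    refine Prod.ext (funext fun i => ?_) (funext fun i => ?_)
    · exact Fin.append_left _ _ _
    · exact Fin.append_right _ _ _
  · intro τ _
    rw [Fin.prod_univ_add]

theorem TT_one {κ : Type*} (K : Finset κ) (x : κ → ℚ) (f : ℚ → ℕ) :
    TT K x 1 f = ∑ k ∈ K, f (x k) := by
  unfold TT
  refine Finset.sum_bij' (fun τ _ => τ 0) (fun k _ => fun _ => k) ?_ ?_ ?_ ?_ ?_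
  · intro τ hτ
    exact Fintype.mem_piFinset.1 hτ 0
  · intro k hk
    exact Fintype.mem_piFinset.2 fun _ => hk
  · intro τ _
    funext i
    rw [Fin.fin_one_eq_zero i]
  · intro k _
    rfl
  · intro τ _
    rw [Fin.prod_univ_one]

/-- the energy of `n` steps -/
def II {κ : Type*} (A : Finset ℤ) (K : Finset κ) (x : κ → ℚ) (n : ℕ) : ℕ :=
  TT K x n (fun y => TT K x n (fun z => ww A (y / z)))

theorem II_double {κ : Type*} (A : Finset ℤ) (K : Finset κ) (x : κ → ℚ) (hx : ∀ k, x k ≠ 0)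
    (n : ℕ) : II A K x n ^ 2 ≤ A.card * II A K x (n + n) := by
  classical
  obtain ⟨F, hF⟩ : ∃ F, F = Fintype.piFinset (fun _ : Fin n => K) := ⟨_, rfl⟩
  obtain ⟨g, hg⟩ : ∃ g : (Fin n → κ) → ℚ, g = fun τ => ∏ i, x (τ i) := ⟨_, rfl⟩
  have hg0 : ∀ τ, g τ ≠ 0 := by
    intro τ
    rw [hg]
    exact Finset.prod_ne_zero_iff.2 fun i _ => hx _
  have h1 : II A K x n = ∑ p ∈ F ×ˢ F, ww A (g p.1 / g p.2) := by
    rw [Finset.sum_product, hF, hg]
    rfl
  have h2 : II A K x (n + n) = ∑ p ∈ F ×ˢ F, ∑ p' ∈ F ×ˢ F,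
      ww A ((g p.1 / g p.2) / (g p'.1 / g p'.2)) := by
    have e1 : II A K x (n + n) = ∑ a ∈ F, ∑ b ∈ F, ∑ c ∈ F, ∑ d ∈ F,
        ww A ((g a * g b) / (g c * g d)) := by
      unfold II
      rw [TT_add]
      have : ∀ y z : ℚ, TT K x (n + n) (fun w => ww A (y * z / w)) =
          TT K x n (fun u => TT K x n (fun v => ww A (y * z / (u * v)))) := by
        intro y z
        rw [TT_add]
      simp_rw [this]
      rw [hF, hg]
      rfl
    rw [e1, Finset.sum_product]
    simp_rw [Finset.sum_product]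
    refine Finset.sum_congr rfl fun a _ => ?_
    rw [Finset.sum_comm]
    refine Finset.sum_congr rfl fun c _ => ?_
    rw [Finset.sum_comm]
    refine Finset.sum_congr rfl fun d _ => ?_
    refine Finset.sum_congr rfl fun b _ => ?_
    congr 1
    have := hg0 a
    have := hg0 b
    have := hg0 c
    have := hg0 d
    field_simp
  rw [h1, h2]
  have h3 := cs A (A.image (fun a : ℤ => (a : ℚ))) (F ×ˢ F) (fun p => g p.1 / g p.2)
    (fun p _ => div_ne_zero (hg0 _) (hg0 _))
  refine h3.trans (Nat.mul_le_mul_right _ Finset.card_image_le)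

theorem II_one {κ : Type*} (A : Finset ℤ) (K : Finset κ) (x : κ → ℚ) (hx : ∀ k, x k ≠ 0) :
    (∑ k ∈ K, ww A (x k)) ^ 2 ≤ A.card * II A K x 1 := by
  have h3 := cs A (A.image (fun a : ℤ => (a : ℚ))) K x (fun k _ => hx k)
  refine h3.trans (Nat.mul_le_mul Finset.card_image_le (le_of_eq ?_))
  unfold II
  simp_rw [TT_one]

/-- the energy of `2 ^ i` steps -/
theorem II_pow {κ : Type*} (A : Finset ℤ) (hA : A.Nonempty) (K : Finset κ) (x : κ → ℚ)
    (hx : ∀ k, x k ≠ 0) (l : ℝ) (hl : ∀ k ∈ K, Real.exp (-l) * A.card ≤ ww A (x k)) (i : ℕ) :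
    Real.exp (-(2 * l * 2 ^ i)) * (K.card : ℝ) ^ (2 * 2 ^ i) * A.card ≤ II A K x (2 ^ i) := by
  have hA0 : (0 : ℝ) < A.card := by exact_mod_cast hA.card_pos
  induction i with
  | zero =>
    have h1 : (K.card : ℝ) * (Real.exp (-l) * A.card) ≤ ∑ k ∈ K, (ww A (x k) : ℝ) := by
      have := Finset.card_nsmul_le_sum K (fun k => (ww A (x k) : ℝ)) _ hl
      rwa [nsmul_eq_mul] at this
    have h2 : ((∑ k ∈ K, ww A (x k) : ℕ) : ℝ) ^ 2 ≤ A.card * II A K x 1 := by
      exact_mod_cast II_one A K x hx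
    have h3 : ((K.card : ℝ) * (Real.exp (-l) * A.card)) ^ 2 ≤ A.card * II A K x 1 := by
      refine le_trans (pow_le_pow_left₀ (by (clear * - hA; positivity)) ?_ 2) h2
      push_cast
      exact h1
    have h4 : (A.card : ℝ) * (Real.exp (-(2 * l)) * (K.card : ℝ) ^ 2 * A.card) ≤
        A.card * II A K x 1 := by
      refine le_trans (le_of_eq ?_) h3
      have : Real.exp (-(2 * l)) = Real.exp (-l) ^ 2 := by
        rw [← Real.exp_nat_mul]
        congr 1
        push_cast
        ring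
      rw [this]
      ring
    have h5 := le_of_mul_le_mul_left h4 hA0
    simpa using h5
  | succ i ih =>
    have h1 : ((II A K x (2 ^ i) : ℕ) : ℝ) ^ 2 ≤ A.card * II A K x (2 ^ i + 2 ^ i) := by
      exact_mod_cast II_double A K x hx (2 ^ i)
    have h2 : (Real.exp (-(2 * l * 2 ^ i)) * (K.card : ℝ) ^ (2 * 2 ^ i) * A.card) ^ 2 ≤
        A.card * II A K x (2 ^ i + 2 ^ i) :=
      le_trans (pow_le_pow_left₀ (by (clear * - hA; positivity)) ih 2) h1
    have e1 : (2 : ℕ) ^ (i + 1) = 2 ^ i + 2 ^ i := by ring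
    have h4 : (A.card : ℝ) * (Real.exp (-(2 * l * 2 ^ (i + 1))) *
        (K.card : ℝ) ^ (2 * 2 ^ (i + 1)) * A.card) ≤ A.card * II A K x (2 ^ i + 2 ^ i) := by
      refine le_trans (le_of_eq ?_) h2
      have e2 : Real.exp (-(2 * l * 2 ^ (i + 1))) = Real.exp (-(2 * l * 2 ^ i)) ^ 2 := by
        rw [← Real.exp_nat_mul]
        congr 1
        push_cast
        ring
      have e3 : (K.card : ℝ) ^ (2 * 2 ^ (i + 1)) = ((K.card : ℝ) ^ (2 * 2 ^ i)) ^ 2 := by
        rw [← pow_mul]
        congr 1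
        ring
      rw [e2, e3]
      ring
    have h5 := le_of_mul_le_mul_left h4 hA0
    rw [e1]
    rwa [e1] at h5

end Pool.Agent.Helper15.GPR
end
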