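import Pool.Agent.Helper24.DG.G01
import Pool.Agent.Helper24.DG.G02
import Pool.Agent.Helper24.DG.G06
import Pool.Agent.Helper24.DG.G07

/- Helper24.DI.H15.GPQ.Free -/
section
set_option autoImplicit false

/-!
# Project GL++ (MP_120218), Free: a set with many popular ratios has maximal sumsets
-/

namespace Pool.Agent.Helper15.GPQ

open Finset Pool.Agent.Helper15.GPP

/-- the counting step -/
theorem count_rich (A : Finset ℤ) (H Q D : Finset ℚ) (hQH : Q ⊆ H) (hpos : ∀ h ∈ H, 0 < h)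
    (hD : D = Finset.image₂ (fun a b => a / b) H H) (u M W : ℝ) (hM : 0 ≤ M)
    (hu : ∀ h ∈ H, u ≤ (((sym A).filter (fun z : ℤ => ∃ b ∈ A, (b : ℚ) = z * h)).card : ℝ))
    (hW : ∀ Z : Finset ℚ, (∀ z ∈ Z, M < ((rich A Q z).card : ℝ)) → (Z.card : ℝ) ≤ W) :
    H.card * u * Q.card ≤ D.card * (2 * M * A.card + Q.card * W) := by
  classical
  obtain ⟨V, hV⟩ : ∃ V : Finset (ℤ × ℚ), V = (sym A ×ˢ H).filter
    (fun q : ℤ × ℚ => ∃ b ∈ A, (b : ℚ) = q.1 * q.2) := ⟨_, rfl⟩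
  have memV : ∀ q : ℤ × ℚ, q ∈ V ↔ (q.1 ∈ sym A ∧ q.2 ∈ H) ∧ ∃ b ∈ A, (b : ℚ) = q.1 * q.2 := by
    intro q
    rw [hV, Finset.mem_filter, Finset.mem_product]
  have hVc : H.card * u ≤ V.card := by
    have h1 : (V.card : ℝ) = ∑ h ∈ H,
        (((sym A).filter (fun z : ℤ => ∃ b ∈ A, (b : ℚ) = z * h)).card : ℝ) := by
      rw [hV, Finset.card_filter]
      push_cast
      rw [Finset.sum_product_right]
      refine Finset.sum_congr rfl fun h _ => ?_
      rw [Finset.card_filter]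
      push_cast
      rfl
    rw [h1]
    calc H.card * u = ∑ h ∈ H, u := by rw [Finset.sum_const, nsmul_eq_mul]
      _ ≤ _ := Finset.sum_le_sum hu
  have hDpos : ∀ d ∈ D, 0 < d := by
    intro d hd
    rw [hD] at hd
    obtain ⟨a, ha, b, hb, rfl⟩ := Finset.mem_image₂.1 hd
    exact div_pos (hpos a ha) (hpos b hb)
  have hVQ : (V ×ˢ Q).card ≤ ∑ x ∈ sym A ×ˢ D, (rich A Q ((x.1 : ℚ) * x.2)).card := by
    rw [← Finset.card_sigma]
    refine Finset.card_le_card_of_injOn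
      (fun y : (ℤ × ℚ) × ℚ => (⟨(y.1.1, y.1.2 / y.2), ((y.1.1 : ℚ) * y.1.2).num⟩ :
        (_ : ℤ × ℚ) × ℤ)) ?_ ?_
    · rintro ⟨⟨z, h⟩, q⟩ hy
      have h1 := Finset.mem_product.1 (Finset.mem_coe.1 hy)
      obtain ⟨⟨h2, h3⟩, b, hb, h4⟩ := (memV _).1 h1.1
      have h5 : q ∈ Q := h1.2
      have hq := hpos q (hQH h5)
      simp only at h2 h3 h4
      refine Finset.mem_coe.2 (Finset.mem_sigma.2 ⟨Finset.mem_product.2 ⟨h2, ?_⟩, ?_⟩)
      · rw [hD]
        exact Finset.mem_image₂_of_mem h3 (hQH h5)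
      · show ((z : ℚ) * h).num ∈ rich A Q ((z : ℚ) * (h / q))
        rw [← h4, Rat.num_intCast, mem_rich]
        refine ⟨hb, q, h5, ?_⟩
        rw [h4]
        (clear * - hq; field_simp)
    · rintro ⟨⟨z, h⟩, q⟩ hy ⟨⟨z', h'⟩, q'⟩ hy' e
      have h1 := Finset.mem_product.1 (Finset.mem_coe.1 hy)
      obtain ⟨⟨h2, h3⟩, b, hb, h4⟩ := (memV _).1 h1.1
      have h1' := Finset.mem_product.1 (Finset.mem_coe.1 hy')
      obtain ⟨⟨h2', h3'⟩, b', hb', h4'⟩ := (memV _).1 h1'.1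
      have h5 : q ∈ Q := h1.2
      have h5' : q' ∈ Q := h1'.2
      have hq := hpos q (hQH h5)
      have hq' := hpos q' (hQH h5')
      simp only at h2 h3 h4 h2' h3' h4'
      have e1 := Sigma.mk.inj e
      have e2 := Prod.mk.inj e1.1
      have e3 : ((z : ℚ) * h).num = ((z' : ℚ) * h').num := eq_of_heq e1.2
      obtain ⟨e4, e5⟩ := e2
      simp only at e4 e5
      rw [← h4, ← h4', Rat.num_intCast, Rat.num_intCast] at e3
      rw [e3, h4', ← e4] at h4
      have hz : (z : ℚ) ≠ 0 := by exact_mod_cast sym_ne h2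
      have e6 := mul_left_cancel₀ hz h4
      rw [e6] at e5
      have hh := hpos h h3
      have e7 : q = q' := by
        rw [div_eq_div_iff hq.ne' hq'.ne'] at e5
        exact (mul_left_cancel₀ hh.ne' e5).symm
      rw [← e4, e6, e7]
  -- rich pairs
  obtain ⟨Pr, hPr⟩ : ∃ Pr : Finset (ℤ × ℚ), Pr = (sym A ×ˢ D).filter
    (fun x : ℤ × ℚ => M < ((rich A Q ((x.1 : ℚ) * x.2)).card : ℝ)) := ⟨_, rfl⟩
  have hPrc : (Pr.card : ℝ) ≤ W * D.card := by
    obtain ⟨Z, hZ⟩ : ∃ Z : Finset ℚ, Z = Pr.image (fun x : ℤ × ℚ => (x.1 : ℚ) * x.2) := ⟨_, rfl⟩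
    have h1 : Pr.card ≤ (Z ×ˢ D).card := by
      refine Finset.card_le_card_of_injOn (fun x : ℤ × ℚ => ((x.1 : ℚ) * x.2, x.2)) ?_ ?_
      · intro x hx
        have h2 := Finset.mem_coe.1 hx
        have h3 : x ∈ sym A ×ˢ D := by
          rw [hPr] at h2
          exact (Finset.mem_filter.1 h2).1
        refine Finset.mem_coe.2 (Finset.mem_product.2 ⟨?_, (Finset.mem_product.1 h3).2⟩)
        rw [hZ]
        exact Finset.mem_image_of_mem _ h2
      · rintro ⟨z, d⟩ hx ⟨z', d'⟩ hx' e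
        have h2 := Finset.mem_coe.1 hx
        have h3 : (z, d) ∈ sym A ×ˢ D := by
          rw [hPr] at h2
          exact (Finset.mem_filter.1 h2).1
        have h4 := hDpos d (Finset.mem_product.1 h3).2
        obtain ⟨e1, e2⟩ := Prod.mk.inj e
        simp only at e1 e2
        rw [← e2] at e1
        have e3 := mul_right_cancel₀ h4.ne' e1
        have e4 : z = z' := by exact_mod_cast e3
        rw [e4, e2]
    have h2 : (Z.card : ℝ) ≤ W := by
      refine hW Z fun z hz => ?_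
      rw [hZ] at hz
      obtain ⟨x, hx, rfl⟩ := Finset.mem_image.1 hz
      rw [hPr] at hx
      exact (Finset.mem_filter.1 hx).2
    rw [Finset.card_product] at h1
    have h3 : (Pr.card : ℝ) ≤ Z.card * D.card := by exact_mod_cast h1
    exact h3.trans (mul_le_mul_of_nonneg_right h2 (Nat.cast_nonneg _))
  have hsum : (∑ x ∈ sym A ×ˢ D, ((rich A Q ((x.1 : ℚ) * x.2)).card : ℝ)) ≤
      (2 * A.card) * D.card * M + Q.card * (W * D.card) := by
    calc (∑ x ∈ sym A ×ˢ D, ((rich A Q ((x.1 : ℚ) * x.2)).card : ℝ)) ≤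
          ∑ x ∈ sym A ×ˢ D, (M + if M < ((rich A Q ((x.1 : ℚ) * x.2)).card : ℝ) then
            (Q.card : ℝ) else 0) := by
          refine Finset.sum_le_sum fun x _ => ?_
          by_cases h1 : M < ((rich A Q ((x.1 : ℚ) * x.2)).card : ℝ)
          · rw [if_pos h1]
            have h2 : ((rich A Q ((x.1 : ℚ) * x.2)).card : ℝ) ≤ Q.card := by
              exact_mod_cast rich_le A Q _
            linarith only [hM, h2]
          · rw [if_neg h1, add_zero]
            exact not_lt.1 h1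
      _ = (sym A).card * D.card * M + Q.card * Pr.card := by
          rw [Finset.sum_add_distrib, Finset.sum_const, Finset.card_product, nsmul_eq_mul,
            Finset.sum_ite, Finset.sum_const_zero, add_zero, Finset.sum_const, nsmul_eq_mul, hPr]
          push_cast
          ring
      _ ≤ _ := by
          have h1 : ((sym A).card : ℝ) ≤ 2 * A.card := by exact_mod_cast card_sym_le A
          refine add_le_add ?_ (mul_le_mul_of_nonneg_left hPrc (Nat.cast_nonneg _))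
          exact mul_le_mul_of_nonneg_right (mul_le_mul_of_nonneg_right h1 (Nat.cast_nonneg _)) hM
  have hVQ' : ((V ×ˢ Q).card : ℝ) ≤ ∑ x ∈ sym A ×ˢ D, ((rich A Q ((x.1 : ℚ) * x.2)).card : ℝ) := by
    exact_mod_cast hVQ
  rw [Finset.card_product] at hVQ'
  push_cast at hVQ'
  calc H.card * u * Q.card ≤ V.card * Q.card :=
        mul_le_mul_of_nonneg_right hVc (Nat.cast_nonneg _)
    _ ≤ _ := hVQ'.trans hsum
    _ = _ := by ring

/-- **Many popular ratios** force maximal sumsets. -/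
theorem grow_pop (η B δ : ℝ) (hη : 0 < η) (hη1 : η ≤ 1) (hB : 0 ≤ B) (hδ : 0 < δ) :
    ∃ θ N0 : ℝ, 0 < θ ∧ 1 ≤ N0 ∧ ∀ (A : Finset ℤ) (P : Finset ℚ), (∀ s ∈ P, s ≠ 0) →
      N0 ≤ A.card → (A.card : ℝ) ^ δ ≤ P.card →
      (∀ s ∈ P, (A.card : ℝ) ^ (1 - θ) ≤ ((stay A s).card : ℝ)) → GrowsB η B A := by
  classical
  obtain ⟨C2, c2, N2, hC2, hc2, hc21, hN2, hgrow⟩ := grow_sepU η B hη hη1 hB
  -- constants
  obtain ⟨δ', hδ'⟩ : ∃ δ' : ℝ, δ' = min δ 1 := ⟨_, rfl⟩
  have hδ'0 : 0 < δ' := by rw [hδ']; exact lt_min hδ one_pos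
  have hδ'δ : δ' ≤ δ := by rw [hδ']; exact min_le_left _ _
  have hδ'1 : δ' ≤ 1 := by rw [hδ']; exact min_le_right _ _
  obtain ⟨c', hc'⟩ : ∃ c' : ℝ, c' = min (δ' / 4) (c2 / 2) := ⟨_, rfl⟩
  have hc'0 : 0 < c' := by rw [hc']; exact lt_min (by positivity) (by positivity)
  have hc'δ : c' ≤ δ' / 4 := by rw [hc']; exact min_le_left _ _
  have hc'c : c' ≤ c2 / 2 := by rw [hc']; exact min_le_right _ _
  obtain ⟨l, hl⟩ : ∃ l : ℝ, l = min 1 (c' / (16 * C2)) := ⟨_, rfl⟩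
  have hl0 : 0 < l := by rw [hl]; exact lt_min one_pos (by positivity)
  have hl1 : l ≤ 1 := by rw [hl]; exact min_le_left _ _
  have hlC : l * C2 ≤ c' / 16 := by
    have h1 : l ≤ c' / (16 * C2) := by rw [hl]; exact min_le_right _ _
    calc l * C2 ≤ c' / (16 * C2) * C2 := mul_le_mul_of_nonneg_right h1 hC2.le
      _ = c' / 16 := by field_simp
  have hlog : 0 ≤ Real.log (1 / l) := by
    apply Real.log_nonneg
    rw [le_div_iff₀ hl0]
    linarith only [hl1]
  obtain ⟨κ, hκ⟩ : ∃ κ : ℝ, κ = min (c' / 8) (min (c2 / 6) (c' / (48 * (1 + Real.log (1 / l))))) :=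
    ⟨_, rfl⟩
  have hκ0 : 0 < κ := by
    rw [hκ]
    exact lt_min (by positivity) (lt_min (by positivity) (by (clear * - hc'0 hlog; positivity)))
  have hκ1 : κ ≤ c' / 8 := by rw [hκ]; exact min_le_left _ _
  have hκ2 : κ ≤ c2 / 6 := by
    rw [hκ]
    exact (min_le_right _ _).trans (min_le_left _ _)
  have hκ3 : 3 * κ * Real.log (1 / l) ≤ c' / 16 := by
    have h1 : κ ≤ c' / (48 * (1 + Real.log (1 / l))) := by
      rw [hκ]
      exact (min_le_right _ _).trans (min_le_right _ _)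
    calc 3 * κ * Real.log (1 / l) ≤ 3 * κ * (1 + Real.log (1 / l)) :=
          mul_le_mul_of_nonneg_left (by linarith only []) (by positivity)
      _ ≤ 3 * (c' / (48 * (1 + Real.log (1 / l)))) * (1 + Real.log (1 / l)) := by (clear * - h1 hlog; gcongr)
      _ = c' / 16 := by
          field_simp
          ring
  obtain ⟨θ, N1, hθ, hN1, hst⟩ := pop_rat κ δ' hκ0 (by linarith only [hδ'1, hc'δ, hκ1]) (by linarith only [hc'0, hc'δ, hκ1])
  have hl2 : 0 < Real.log 2 := Real.log_pos (by norm_num)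
  obtain ⟨L0, hL0⟩ : ∃ L0 : ℝ, L0 = 1 / κ + 8 * Real.log 2 / δ' + 8 * Real.log 2 / c' +
      2 * Real.log 2 / c2 + 1 := ⟨_, rfl⟩
  refine ⟨θ, N1 + N2 + Real.exp L0, hθ, ?_, ?_⟩
  · have := Real.exp_pos L0
    linarith only [hN2, hN1, this]
  intro A P hP0 hAN hPδ hpop
  have hexpL := Real.exp_pos L0
  obtain ⟨N, hN⟩ : ∃ N : ℝ, N = A.card := ⟨_, rfl⟩
  have hAN1 : N1 ≤ N := by linarith only [hN2, hAN, hexpL, hN]
  have hA1 : 1 ≤ N := hN1.trans hAN1
  have hA0 : 0 < N := by linarith only [hA1]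
  obtain ⟨L, hL⟩ : ∃ L : ℝ, L = Real.log N := ⟨_, rfl⟩
  have hLL0 : L0 ≤ L := by
    rw [hL, Real.le_log_iff_exp_le hA0]
    linarith only [hN2, hN1, hAN, hN]
  have q1 : 0 < 1 / κ := by (clear * - hκ0; positivity)
  have q2 : 0 < 8 * Real.log 2 / δ' := by positivity
  have q3 : 0 < 8 * Real.log 2 / c' := by positivity
  have q4 : 0 < 2 * Real.log 2 / c2 := by positivity
  have w1 : 1 ≤ κ * L := by
    have h1 : 1 / κ ≤ L := by linarith only [hL0, hLL0, q2, q3, q4]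
    rw [div_le_iff₀ hκ0] at h1
    linarith only [h1]
  have w2 : 8 * Real.log 2 ≤ δ' * L := by
    have h1 : 8 * Real.log 2 / δ' ≤ L := by linarith only [hL0, hLL0, q1, q3, q4]
    rw [div_le_iff₀ hδ'0] at h1
    linarith only [h1]
  have w3 : 8 * Real.log 2 ≤ c' * L := by
    have h1 : 8 * Real.log 2 / c' ≤ L := by linarith only [hL0, hLL0, q1, q2, q4]
    rw [div_le_iff₀ hc'0] at h1
    linarith only [h1]
  have w4 : 2 * Real.log 2 ≤ c2 * L := by
    have h1 : 2 * Real.log 2 / c2 ≤ L := by linarith only [hL0, hLL0, q1, q2, q3]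
    rw [div_le_iff₀ hc2] at h1
    linarith only [h1]
  have hLp : 0 < L := by linarith only [hL0, hLL0, q1, q2, q3, q4]
  have hpow : ∀ x : ℝ, N ^ x = Real.exp (x * L) := by
    intro x
    rw [Real.rpow_def_of_pos hA0, hL, mul_comm]
  have hpow2 : ∀ (j : ℕ) (x : ℝ), j * Real.log 2 ≤ x * L → (2 : ℝ) ^ j ≤ N ^ x := by
    intro j x h
    rw [hpow, ← Real.exp_log (show (0 : ℝ) < 2 ^ j by positivity), Real.log_pow]
    exact Real.exp_le_exp.2 h
  obtain ⟨H, hHpos, hHc, hHH, hHD, hHs⟩ := hst A P hP0 (by rw [← hN]; exact hAN1) (by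
    rw [← hN] at hPδ ⊢
    exact (Real.rpow_le_rpow_of_exponent_le hA1 hδ'δ).trans hPδ) hpop
  rw [← hN] at hHc hHH hHD hHs
  by_contra hG
  -- the number `T`
  obtain ⟨T, hT⟩ : ∃ T : ℕ, T = ⌊N ^ c'⌋₊ := ⟨_, rfl⟩
  have hTc : (T : ℝ) ≤ N ^ c' := by
    rw [hT]
    exact Nat.floor_le (Real.rpow_nonneg hA0.le _)
  have h256 : (256 : ℝ) ≤ N ^ c' := by
    have := hpow2 8 c' (by push_cast; linarith only [w3])
    norm_num at this
    exact this
  have hTge : N ^ c' / 2 ≤ T := by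
    have h1 := Nat.lt_floor_add_one (N ^ c')
    rw [← hT] at h1
    linarith only [h256, h1]
  have hT1 : 1 ≤ T := by
    have h1 : (1 : ℝ) ≤ T := by linarith only [h256, hTge]
    exact_mod_cast h1
  have hHne : H.Nonempty := by
    rw [← Finset.card_pos]
    have h2 : (0 : ℝ) < H.card := lt_of_lt_of_le (Real.rpow_pos_of_pos hA0 _) hHc
    exact_mod_cast h2
  have hHp : (0 : ℝ) < H.card := by exact_mod_cast hHne.card_pos
  have hTH : 4 * N ^ κ * (T : ℝ) ^ 2 ≤ H.card := by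
    have h1 : (T : ℝ) ^ 2 ≤ (N ^ c') ^ 2 := pow_le_pow_left₀ (Nat.cast_nonneg _) hTc 2
    have h2 : 4 * (N ^ κ * (N ^ c') ^ 2) ≤ N ^ (δ' - κ) := by
      have h3 := hpow2 2 (δ' / 4) (by push_cast; (clear * - w2; linarith only [w2]))
      have h4 : N ^ κ * (N ^ c') ^ 2 = N ^ (κ + 2 * c') := by
        rw [← Real.rpow_natCast (N ^ c'), ← Real.rpow_mul hA0.le, ← Real.rpow_add hA0]
        congr 1
        push_cast
        ring
      rw [h4]
      calc 4 * N ^ (κ + 2 * c') ≤ N ^ (δ' / 4) * N ^ (κ + 2 * c') := by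
            refine mul_le_mul_of_nonneg_right ?_ (Real.rpow_nonneg hA0.le _)
            linarith only [h3]
        _ = N ^ (δ' / 4 + (κ + 2 * c')) := (Real.rpow_add hA0 _ _).symm
        _ ≤ N ^ (δ' - κ) := Real.rpow_le_rpow_of_exponent_le hA1 (by linarith only [hc'δ, hκ0, hκ1])
    have h3 : N ^ κ * (T : ℝ) ^ 2 ≤ N ^ κ * (N ^ c') ^ 2 :=
      mul_le_mul_of_nonneg_left h1 (Real.rpow_nonneg hA0.le _)
    linarith only [hHc, h2, h3]
  obtain ⟨r, pr, Q, hQH, hprime, hr2, hQT, hTQ, hsep⟩ :=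
    sub_tree H hHne hHpos (N ^ κ) hHH T hT1 hTH
  have hTQR : (T : ℝ) < 2 * Q.card := by exact_mod_cast hTQ
  have hQTR : (Q.card : ℝ) ≤ T := by exact_mod_cast hQT
  have hQpos : ∀ s ∈ Q, 0 < s := fun s hs => hHpos s (hQH hs)
  have hr1 : 1 ≤ r := by
    by_contra hcon
    have hr0 : r = 0 := by omega
    subst hr0
    have h1 : Q.card ≤ 1 := Finset.card_le_one.2 fun s hs t ht => hsep s hs t ht fun i => i.elim0
    have h2 : (Q.card : ℝ) ≤ 1 := by exact_mod_cast h1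
    (clear * - h256 hTge hTQR h2; linarith only [h256, hTge, hTQR, h2])
  have hr1R : (1 : ℝ) ≤ r := by exact_mod_cast hr1
  have hrκ : (r : ℝ) ≤ 3 * κ * L := by
    have h1 : (r : ℝ) * Real.log 2 ≤ Real.log 2 + κ * L := by
      have h2 := Real.log_le_log (by positivity) hr2
      rw [Real.log_pow, hpow, Real.log_mul (by norm_num) (Real.exp_pos _).ne',
        Real.log_exp] at h2
      exact h2
    have h3 : (1 / 2 : ℝ) ≤ Real.log 2 := by
      have := Real.log_two_gt_d9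
      linarith only [this]
    have h4 : ((r : ℝ) - 1) * (1 / 2) ≤ ((r : ℝ) - 1) * Real.log 2 :=
      mul_le_mul_of_nonneg_left h3 (by linarith only [hr1R])
    linarith only [w1, h1, h4]
  obtain ⟨M, hM⟩ : ∃ M : ℝ, M = (C2 * L / r) ^ r := ⟨_, rfl⟩
  have hM0 : 0 < M := by rw [hM]; (clear * - hC2 hLp hr1; positivity)
  have hMle : M ≤ N ^ (c' / 8) := by
    rw [hpow, ← Real.log_le_iff_le_exp hM0, hM, Real.log_pow]
    have h1 := log_le_lin l (C2 * L / r) hl0 (by (clear * - hC2 hLp hr1; positivity))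
    have h2 := mul_le_mul_of_nonneg_left h1 (show (0 : ℝ) ≤ r by linarith only [])
    have h3 : (r : ℝ) * (l * (C2 * L / r) + Real.log (1 / l)) =
        l * C2 * L + r * Real.log (1 / l) := by
      (clear * - hr1 hl0 hC2 hLp hlog; field_simp)
    rw [h3] at h2
    have h4 : l * C2 * L ≤ c' / 16 * L := mul_le_mul_of_nonneg_right hlC hLp.le
    have h5 : r * Real.log (1 / l) ≤ c' / 16 * L := by
      calc r * Real.log (1 / l) ≤ (3 * κ * L) * Real.log (1 / l) :=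
            mul_le_mul_of_nonneg_right hrκ hlog
        _ = (3 * κ * Real.log (1 / l)) * L := by ring
        _ ≤ c' / 16 * L := mul_le_mul_of_nonneg_right hκ3 hLp.le
    linarith only [h2, h4, h5]
  -- few rich fibres
  have hnorich : ∀ Z : Finset ℚ, (∀ z ∈ Z, M < ((rich A Q z).card : ℝ)) →
      (Z.card : ℝ) ≤ N ^ (1 - c2) := by
    intro Z hZ
    by_contra hcon
    rw [not_le] at hcon
    refine hG (hgrow A r pr Q Z ?_ hr1 ?_ hprime hQpos hsep ?_ ?_ ?_)
    · rw [← hN]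
      linarith only [hN1, hAN, hexpL, hN]
    · rw [← hN, ← hL]
      have h1 : 3 * κ * L ≤ c2 * L := by
        refine mul_le_mul_of_nonneg_right ?_ hLp.le
        linarith only [hκ0, hκ2]
      linarith only [hrκ, h1]
    · rw [← hN]
      refine hQTR.trans (hTc.trans (Real.rpow_le_rpow_of_exponent_le hA1 ?_))
      linarith only [hc'0, hc'c]
    · rw [← hN]
      exact hcon
    · intro z hz
      rw [← hN, ← hL, ← hM]
      exact hZ z hz
  obtain ⟨D, hD⟩ : ∃ D : Finset ℚ, D = Finset.image₂ (fun a b => a / b) H H := ⟨_, rfl⟩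
  rw [← hD] at hHD
  have h1 := count_rich A H Q D hQH hHpos hD (N ^ (1 - κ)) M (N ^ (1 - c2)) hM0.le hHs hnorich
  rw [← hN] at h1
  obtain ⟨x, hx⟩ : ∃ x : ℝ, x = Q.card := ⟨_, rfl⟩
  rw [← hx] at h1 hTQR
  have hx0 : 0 ≤ x := by rw [hx]; exact Nat.cast_nonneg _
  have h2 : N ^ (1 - κ) * x ≤ N ^ κ * (2 * M * N + x * N ^ (1 - c2)) := by
    have h3 : (H.card : ℝ) * (N ^ (1 - κ) * x) ≤
        H.card * (N ^ κ * (2 * M * N + x * N ^ (1 - c2))) := by
      calc (H.card : ℝ) * (N ^ (1 - κ) * x) = H.card * N ^ (1 - κ) * x := by ring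
        _ ≤ D.card * (2 * M * N + x * N ^ (1 - c2)) := h1
        _ ≤ (N ^ κ * H.card) * (2 * M * N + x * N ^ (1 - c2)) :=
            mul_le_mul_of_nonneg_right hHD (by (clear * - hM0 hA1 hx0; positivity))
        _ = _ := by ring
    exact le_of_mul_le_mul_left h3 hHp
  have h3 : N ^ (1 - κ) = N ^ (c2 - 2 * κ) * (N ^ κ * N ^ (1 - c2)) := by
    rw [← Real.rpow_add hA0, ← Real.rpow_add hA0]
    congr 1
    ring
  have h4 : 2 ≤ N ^ (c2 - 2 * κ) := by
    have h5 := hpow2 1 (c2 / 2) (by push_cast; linarith only [w4])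
    rw [pow_one] at h5
    exact h5.trans (Real.rpow_le_rpow_of_exponent_le hA1 (by linarith only [hκ0, hκ2]))
  have h5 : 2 * (N ^ κ * N ^ (1 - c2)) ≤ N ^ (1 - κ) := by
    rw [h3]
    exact mul_le_mul_of_nonneg_right h4 (by (clear * - hA1; positivity))
  have h6 : N ^ (1 - κ) * x ≤ 4 * (N ^ κ * (M * N)) := by
    have h7 := mul_le_mul_of_nonneg_right h5 hx0
    have h8 : N ^ κ * (2 * M * N + x * N ^ (1 - c2)) =
        2 * (N ^ κ * (M * N)) + (N ^ κ * N ^ (1 - c2)) * x := by ring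
    rw [h8] at h2
    linarith only [h2, h7]
  have h7 : N ^ κ * (M * N) = N ^ (1 - κ) * (N ^ (2 * κ) * M) := by
    have : N ^ κ * N = N ^ (1 - κ) * N ^ (2 * κ) := by
      rw [← Real.rpow_add hA0]
      nth_rewrite 2 [← Real.rpow_one N]
      rw [← Real.rpow_add hA0]
      congr 1
      ring
    calc N ^ κ * (M * N) = (N ^ κ * N) * M := by ring
      _ = _ := by rw [this]; ring
  rw [h7] at h6
  have h8 : x ≤ 4 * (N ^ (2 * κ) * M) := by
    have h9 : N ^ (1 - κ) * x ≤ N ^ (1 - κ) * (4 * (N ^ (2 * κ) * M)) := by linarith only [h6]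
    exact le_of_mul_le_mul_left h9 (Real.rpow_pos_of_pos hA0 _)
  have h9 : N ^ (2 * κ) * M ≤ N ^ (c' / 2) := by
    calc N ^ (2 * κ) * M ≤ N ^ (2 * κ) * N ^ (c' / 8) :=
          mul_le_mul_of_nonneg_left hMle (Real.rpow_nonneg hA0.le _)
      _ = N ^ (2 * κ + c' / 8) := (Real.rpow_add hA0 _ _).symm
      _ ≤ N ^ (c' / 2) := Real.rpow_le_rpow_of_exponent_le hA1 (by linarith only [hκ0, hκ1])
  have h10 : 16 ≤ N ^ (c' / 2) := by
    have h11 := hpow2 4 (c' / 2) (by push_cast; linarith only [w3])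
    norm_num at h11
    exact h11
  have h11 : N ^ c' = N ^ (c' / 2) * N ^ (c' / 2) := by
    rw [← Real.rpow_add hA0]
    congr 1
    ring
  have h12 : 16 * N ^ (c' / 2) ≤ N ^ (c' / 2) * N ^ (c' / 2) :=
    mul_le_mul_of_nonneg_right h10 (by linarith only [h10])
  linarith only [hTge, hTQR, h8, h9, h11, h12]

end Pool.Agent.Helper15.GPQ
end

/- Helper24.DI.H15.GPQ.Inc -/
section
set_option autoImplicit false

/-!
# Project GL++ (MP_120218), Inc: a set with many dilation coincidences has maximal sumsets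
-/

namespace Pool.Agent.Helper15.GPQ

open Finset

/-- coincidences, popular ratios -/
theorem inc_energy (A : Finset ℤ) (P B : Finset ℚ) (hP : ∀ s ∈ P, s ≠ 0) :
    (((A ×ˢ P).filter (fun q : ℤ × ℚ => (q.1 : ℚ) * q.2 ∈ B)).card : ℝ) ^ 2 ≤
      B.card * ∑ t ∈ P, ∑ s ∈ P, ((stay A (s / t)).card : ℝ) := by
  classical
  obtain ⟨I, hI⟩ : ∃ I : Finset (ℤ × ℚ), I = (A ×ˢ P).filter
    (fun q : ℤ × ℚ => (q.1 : ℚ) * q.2 ∈ B) := ⟨_, rfl⟩
  rw [← hI]
  have memI : ∀ q : ℤ × ℚ, q ∈ I → q.1 ∈ A ∧ q.2 ∈ P ∧ (q.1 : ℚ) * q.2 ∈ B := by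
    intro q hq
    rw [hI, Finset.mem_filter, Finset.mem_product] at hq
    exact ⟨hq.1.1, hq.1.2, hq.2⟩
  have h1 : I.card = ∑ x ∈ B, (I.filter (fun q : ℤ × ℚ => (q.1 : ℚ) * q.2 = x)).card :=
    Finset.card_eq_sum_card_fiberwise fun q hq =>
      Finset.mem_coe.2 (memI q (Finset.mem_coe.1 hq)).2.2
  have h2 : (I.card : ℝ) ^ 2 ≤ B.card * ∑ x ∈ B,
      ((I.filter (fun q : ℤ × ℚ => (q.1 : ℚ) * q.2 = x)).card : ℝ) ^ 2 := by
    rw [h1]
    push_cast
    exact sq_sum_le_card_mul_sum_sq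
  refine h2.trans (mul_le_mul_of_nonneg_left ?_ (Nat.cast_nonneg _))
  have h3 : ∑ x ∈ B, (I.filter (fun q : ℤ × ℚ => (q.1 : ℚ) * q.2 = x)).card ^ 2 ≤
      ∑ t ∈ P, ∑ s ∈ P, (stay A (s / t)).card := by
    calc ∑ x ∈ B, (I.filter (fun q : ℤ × ℚ => (q.1 : ℚ) * q.2 = x)).card ^ 2
        = (B.sigma (fun x => (I.filter (fun q : ℤ × ℚ => (q.1 : ℚ) * q.2 = x)) ×ˢ
            (I.filter (fun q : ℤ × ℚ => (q.1 : ℚ) * q.2 = x)))).card := by
          rw [Finset.card_sigma]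
          refine Finset.sum_congr rfl fun x _ => ?_
          rw [Finset.card_product, sq]
      _ ≤ ((P ×ˢ P).sigma (fun y => stay A (y.2 / y.1))).card := by
          refine Finset.card_le_card_of_injOn
            (fun z : (_ : ℚ) × ((ℤ × ℚ) × (ℤ × ℚ)) =>
              (⟨(z.2.2.2, z.2.1.2), z.2.1.1⟩ : (_ : ℚ × ℚ) × ℤ)) ?_ ?_
          · rintro ⟨x, ⟨a, s⟩, ⟨b, t⟩⟩ hz
            have h4 := Finset.mem_sigma.1 (Finset.mem_coe.1 hz)
            obtain ⟨h5, h6⟩ := Finset.mem_product.1 h4.2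
            obtain ⟨h7, h8⟩ := Finset.mem_filter.1 h5
            obtain ⟨h9, h10⟩ := Finset.mem_filter.1 h6
            obtain ⟨ha, hs, _⟩ := memI _ h7
            obtain ⟨hb, ht, _⟩ := memI _ h9
            simp only at ha hs hb ht h8 h10
            refine Finset.mem_coe.2 (Finset.mem_sigma.2 ⟨Finset.mem_product.2 ⟨ht, hs⟩, ?_⟩)
            show a ∈ stay A (s / t)
            unfold stay
            refine Finset.mem_filter.2 ⟨ha, b, hb, ?_⟩
            have ht0 := hP t ht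
            rw [mul_div_assoc', eq_div_iff ht0, h10, h8]
          · rintro ⟨x, ⟨a, s⟩, ⟨b, t⟩⟩ hz ⟨x', ⟨a', s'⟩, ⟨b', t'⟩⟩ hz' e
            have h4 := Finset.mem_sigma.1 (Finset.mem_coe.1 hz)
            obtain ⟨h5, h6⟩ := Finset.mem_product.1 h4.2
            obtain ⟨h7, h8⟩ := Finset.mem_filter.1 h5
            obtain ⟨h9, h10⟩ := Finset.mem_filter.1 h6
            obtain ⟨ha, hs, _⟩ := memI _ h7
            obtain ⟨hb, ht, _⟩ := memI _ h9
            have h4' := Finset.mem_sigma.1 (Finset.mem_coe.1 hz')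
            obtain ⟨h5', h6'⟩ := Finset.mem_product.1 h4'.2
            obtain ⟨h7', h8'⟩ := Finset.mem_filter.1 h5'
            obtain ⟨h9', h10'⟩ := Finset.mem_filter.1 h6'
            simp only at ha hs hb ht h8 h10 h8' h10'
            have e1 := Sigma.mk.inj e
            have e2 := Prod.mk.inj e1.1
            have e3 : a = a' := eq_of_heq e1.2
            obtain ⟨e4, e5⟩ := e2
            simp only at e4 e5
            have ht0 := hP t ht
            subst e3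
            subst e4
            subst e5
            have e6 : x = x' := by rw [← h8, ← h8']
            subst e6
            have e7 : (b : ℚ) = b' := by
              have e8 : (b : ℚ) * t = b' * t := by rw [h10, h10']
              exact mul_right_cancel₀ ht0 e8
            have e9 : b = b' := by exact_mod_cast e7
            subst e9
            rfl
      _ = ∑ t ∈ P, ∑ s ∈ P, (stay A (s / t)).card := by
          rw [Finset.card_sigma, Finset.sum_product]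
  exact_mod_cast h3

/-- **Many dilation coincidences** force maximal sumsets. -/
theorem grow_inc (η B δ : ℝ) (hη : 0 < η) (hη1 : η ≤ 1) (hB : 0 ≤ B) (hδ : 0 < δ) :
    ∃ τ N0 : ℝ, 0 < τ ∧ 1 ≤ N0 ∧ ∀ (A : Finset ℤ) (P Q : Finset ℚ), (∀ s ∈ P, s ≠ 0) →
      N0 ≤ A.card → (A.card : ℝ) ^ δ ≤ P.card → (Q.card : ℝ) ≤ (A.card : ℝ) ^ (1 + τ) →
      (A.card : ℝ) ^ (1 - τ) * P.card ≤
        (((A ×ˢ P).filter (fun q : ℤ × ℚ => (q.1 : ℚ) * q.2 ∈ Q)).card : ℝ) → GrowsB η B A := by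
  classical
  obtain ⟨θ, N1, hθ, hN1, hpop⟩ := grow_pop η B (δ / 2) hη hη1 hB (by (clear * - hδ; positivity))
  obtain ⟨τ, hτ⟩ : ∃ τ : ℝ, τ = min (θ / 4) (δ / 8) := ⟨_, rfl⟩
  have hτ0 : 0 < τ := by rw [hτ]; exact lt_min (by positivity) (by positivity)
  have hτθ : τ ≤ θ / 4 := by rw [hτ]; exact min_le_left _ _
  have hτδ : τ ≤ δ / 8 := by rw [hτ]; exact min_le_right _ _
  have p1 : (0 : ℝ) < 2 ^ (1 / τ) := Real.rpow_pos_of_pos (by norm_num) _
  refine ⟨τ, N1 + 2 ^ (1 / τ), hτ0, by (clear * - hN1 p1; linarith only [hN1, p1]), ?_⟩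
  intro A P Q hP0 hAN hPδ hQ hI
  obtain ⟨N, hN⟩ : ∃ N : ℝ, N = A.card := ⟨_, rfl⟩
  rw [← hN] at hAN hPδ hQ hI
  have hA1 : 1 ≤ N := by linarith only [hN1, p1, hAN]
  have hA0 : 0 < N := by linarith only [hA1]
  have h2τ : 2 ≤ N ^ τ := by
    have h1 : (2 : ℝ) ^ (1 / τ) ≤ N := by linarith only [hN1, hAN]
    have h2 := Real.rpow_le_rpow p1.le h1 hτ0.le
    rw [← Real.rpow_mul (by norm_num)] at h2
    have h3 : 1 / τ * τ = 1 := by field_simp
    rwa [h3, Real.rpow_one] at h2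
  have hPp : (0 : ℝ) < P.card := lt_of_lt_of_le (Real.rpow_pos_of_pos hA0 _) hPδ
  have hPne : P.Nonempty := by
    rw [← Finset.card_pos]
    exact_mod_cast hPp
  obtain ⟨p, hp⟩ : ∃ p : ℝ, p = P.card := ⟨_, rfl⟩
  have hE := inc_energy A P Q hP0
  obtain ⟨E, hEd⟩ : ∃ E : ℝ, E = ∑ t ∈ P, ∑ s ∈ P, ((stay A (s / t)).card : ℝ) := ⟨_, rfl⟩
  have hE0 : 0 ≤ E := by
    rw [hEd]
    exact Finset.sum_nonneg fun _ _ => Finset.sum_nonneg fun _ _ => Nat.cast_nonneg _
  rw [← hEd] at hE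
  rw [← hp] at hI hPp hPδ
  have h1 : N ^ (1 - 3 * τ) * p ^ 2 ≤ E := by
    have h2 : (N ^ (1 - τ) * p) ^ 2 ≤ N ^ (1 + τ) * E :=
      (pow_le_pow_left₀ (by positivity) hI 2).trans
        (hE.trans (mul_le_mul_of_nonneg_right hQ hE0))
    have h3 : (N ^ (1 - τ) * p) ^ 2 = N ^ (1 + τ) * (N ^ (1 - 3 * τ) * p ^ 2) := by
      rw [mul_pow, ← Real.rpow_natCast (N ^ (1 - τ)), ← Real.rpow_mul hA0.le, ← mul_assoc,
        ← Real.rpow_add hA0]
      congr 2
      push_cast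
      ring
    rw [h3] at h2
    exact le_of_mul_le_mul_left h2 (Real.rpow_pos_of_pos hA0 _)
  -- one good base point
  obtain ⟨t, ht, ht2⟩ : ∃ t ∈ P, N ^ (1 - 3 * τ) * p ≤ ∑ s ∈ P, ((stay A (s / t)).card : ℝ) := by
    by_contra hcon
    push Not at hcon
    have h2 : E < ∑ t ∈ P, N ^ (1 - 3 * τ) * p := by
      rw [hEd]
      exact Finset.sum_lt_sum_of_nonempty hPne hcon
    rw [Finset.sum_const, nsmul_eq_mul, ← hp] at h2
    have h3 : p * (N ^ (1 - 3 * τ) * p) = N ^ (1 - 3 * τ) * p ^ 2 := by ring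
    linarith only [h1, h2]
  obtain ⟨P1, hP1⟩ : ∃ P1 : Finset ℚ, P1 = P.filter
    (fun s => N ^ (1 - 4 * τ) ≤ ((stay A (s / t)).card : ℝ)) := ⟨_, rfl⟩
  have hP1c : N ^ (-(4 * τ)) * p ≤ P1.card := by
    have h2 : ∑ s ∈ P, ((stay A (s / t)).card : ℝ) ≤ N * P1.card + N ^ (1 - 4 * τ) * p := by
      calc ∑ s ∈ P, ((stay A (s / t)).card : ℝ) ≤
            ∑ s ∈ P, ((if N ^ (1 - 4 * τ) ≤ ((stay A (s / t)).card : ℝ) then N else 0) +
              N ^ (1 - 4 * τ)) := by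
            refine Finset.sum_le_sum fun s _ => ?_
            by_cases h3 : N ^ (1 - 4 * τ) ≤ ((stay A (s / t)).card : ℝ)
            · rw [if_pos h3]
              have h4 : ((stay A (s / t)).card : ℝ) ≤ N := by
                rw [hN]
                exact_mod_cast Finset.card_le_card (Finset.filter_subset _ _)
              have h5 : 0 ≤ N ^ (1 - 4 * τ) := Real.rpow_nonneg hA0.le _
              linarith only [h4, h5]
            · rw [if_neg h3, zero_add]
              exact (not_le.1 h3).le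
        _ = N * P1.card + N ^ (1 - 4 * τ) * p := by
            rw [Finset.sum_add_distrib, Finset.sum_const, nsmul_eq_mul, Finset.sum_ite,
              Finset.sum_const_zero, add_zero, Finset.sum_const, nsmul_eq_mul, hP1, hp]
            ring
    have h3 : N ^ (1 - 3 * τ) = N ^ τ * N ^ (1 - 4 * τ) := by
      rw [← Real.rpow_add hA0]
      congr 1
      ring
    have h4 : 0 ≤ N ^ (1 - 4 * τ) * p := by positivity
    have h5 : 2 * (N ^ (1 - 4 * τ) * p) ≤ N ^ τ * (N ^ (1 - 4 * τ) * p) :=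
      mul_le_mul_of_nonneg_right h2τ h4
    have h6 : N ^ (1 - 4 * τ) * p ≤ N * P1.card := by
      have h7 : N ^ (1 - 3 * τ) * p = N ^ τ * (N ^ (1 - 4 * τ) * p) := by rw [h3]; ring
      linarith only [ht2, h2, h5, h7]
    have h7 : N ^ (1 - 4 * τ) * p = N * (N ^ (-(4 * τ)) * p) := by
      have : N ^ (1 - 4 * τ) = N * N ^ (-(4 * τ)) := by
        nth_rewrite 2 [← Real.rpow_one N]
        rw [← Real.rpow_add hA0]
        congr 1
      rw [this]
      ring
    rw [h7] at h6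
    exact le_of_mul_le_mul_left h6 hA0
  have ht0 := hP0 t ht
  obtain ⟨R, hR⟩ : ∃ R : Finset ℚ, R = P1.image (fun s => s / t) := ⟨_, rfl⟩
  have hRc : R.card = P1.card := by
    rw [hR, Finset.card_image_of_injOn]
    intro a _ b _ h
    exact (div_left_inj' ht0).1 h
  refine hpop A R ?_ ?_ ?_ ?_
  · intro s hs
    rw [hR] at hs
    obtain ⟨x, hx, rfl⟩ := Finset.mem_image.1 hs
    rw [hP1] at hx
    exact div_ne_zero (hP0 x (Finset.mem_filter.1 hx).1) ht0
  · rw [← hN]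
    linarith only [p1, hAN]
  · rw [← hN, hRc]
    refine le_trans ?_ hP1c
    calc N ^ (δ / 2) ≤ N ^ (-(4 * τ) + δ) :=
          Real.rpow_le_rpow_of_exponent_le hA1 (by linarith only [hτδ])
      _ = N ^ (-(4 * τ)) * N ^ δ := Real.rpow_add hA0 _ _
      _ ≤ N ^ (-(4 * τ)) * p := mul_le_mul_of_nonneg_left hPδ (Real.rpow_nonneg hA0.le _)
  · intro s hs
    rw [hR] at hs
    obtain ⟨x, hx, rfl⟩ := Finset.mem_image.1 hs
    rw [hP1] at hx
    rw [← hN]
    refine le_trans ?_ (Finset.mem_filter.1 hx).2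
    exact Real.rpow_le_rpow_of_exponent_le hA1 (by linarith only [hτθ])

end Pool.Agent.Helper15.GPQ
end

/- Helper24.DI.H15.GPR.Extract -/
section
set_option autoImplicit false

/-!
# Project GL++ (MP_120218), Extract: many popular ratios with distinct valuations at few primes
-/

namespace Pool.Agent.Helper15.GPR

open Finset Pool.Agent.Helper15.GLP Pool.Agent.Helper15.GPP Pool.Agent.Helper15.GPQ

/-- the valuations -/
def vq {R : ℕ} (pr : Fin R → ℕ) (x : ℚ) : Fin R → ℤ := fun j => padicValRat (pr j) x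

theorem vq_mul {R : ℕ} (pr : Fin R → ℕ) (hpr : ∀ j, (pr j).Prime) (x y : ℚ) (hx : x ≠ 0)
    (hy : y ≠ 0) (j : Fin R) : vq pr (x * y) j = vq pr x j + vq pr y j := by
  have := Fact.mk (hpr j)
  exact padicValRat.mul hx hy

theorem vq_div {R : ℕ} (pr : Fin R → ℕ) (hpr : ∀ j, (pr j).Prime) (x y : ℚ) (hx : x ≠ 0)
    (hy : y ≠ 0) (j : Fin R) : vq pr (x / y) j = vq pr x j - vq pr y j := by
  have := Fact.mk (hpr j)
  exact padicValRat.div hx hy

theorem vq_prod {R : ℕ} (pr : Fin R → ℕ) (hpr : ∀ j, (pr j).Prime) {ι : Type*} (s : Finset ι)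
    (f : ι → ℚ) (hf : ∀ i ∈ s, f i ≠ 0) (j : Fin R) :
    vq pr (∏ i ∈ s, f i) j = ∑ i ∈ s, vq pr (f i) j := by
  classical
  induction s using Finset.induction_on with
  | empty =>
    rw [Finset.prod_empty, Finset.sum_empty]
    exact padicValRat.one
  | insert a s ha ih =>
    rw [Finset.prod_insert ha, Finset.sum_insert ha, vq_mul pr hpr _ _
      (hf a (Finset.mem_insert_self _ _)) (Finset.prod_ne_zero_iff.2 fun i hi =>
        hf i (Finset.mem_insert_of_mem hi)), ih fun i hi => hf i (Finset.mem_insert_of_mem hi)]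

theorem prod_wl {R : ℕ} (J : ℕ) (b : Fin R → ℕ) : ∏ j, wl J (b j) = (2 ^ J) ^ sup b * bx b := by
  unfold GPQ.sup bx wl
  rw [← Finset.prod_const, Finset.prod_filter, ← Finset.prod_mul_distrib]
  refine Finset.prod_congr rfl fun j _ => ?_
  by_cases h : b j = 0
  · rw [if_pos h, if_neg (not_not.2 h), h, zero_add, mul_one]
  · rw [if_neg h, if_pos h]

theorem prod_wu {R : ℕ} (J : ℕ) (b : Fin R → ℕ) :
    ∏ j, wu J (b j) = 52 ^ sup b * bx b ^ (4 ^ J) := by
  unfold GPQ.sup bx wu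
  rw [← Finset.prod_const, Finset.prod_filter, ← Finset.prod_pow, ← Finset.prod_mul_distrib]
  refine Finset.prod_congr rfl fun j _ => ?_
  by_cases h : b j = 0
  · rw [if_pos h, if_neg (not_not.2 h), h, zero_add, one_pow, mul_one]
  · rw [if_neg h, if_pos h]

theorem transversal {α β : Type*} [DecidableEq β] (P : Finset α) (f : α → β) :
    ∃ T : Finset α, T ⊆ P ∧ (∀ x ∈ T, ∀ y ∈ T, f x = f y → x = y) ∧ T.card = (P.image f).card := by
  classical
  have h1 : ∀ z : β, ∃ x : Option α, z ∈ P.image f → ∃ y ∈ P, x = some y ∧ f y = z := by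
    intro z
    by_cases hz : z ∈ P.image f
    · obtain ⟨y, hy, h2⟩ := Finset.mem_image.1 hz
      exact ⟨some y, fun _ => ⟨y, hy, rfl, h2⟩⟩
    · exact ⟨none, fun h => absurd h hz⟩
  choose g hg using h1
  refine ⟨P.filter (fun x => g (f x) = some x), Finset.filter_subset _ _, ?_, ?_⟩
  · intro x hx y hy hxy
    have h2 := (Finset.mem_filter.1 hx).2
    have h3 := (Finset.mem_filter.1 hy).2
    rw [hxy, h3] at h2
    exact (Option.some.inj h2).symm
  · refine Finset.card_bij (fun x _ => f x) ?_ ?_ ?_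
    · intro x hx
      exact Finset.mem_image_of_mem _ (Finset.mem_filter.1 hx).1
    · intro x hx y hy hxy
      have h2 := (Finset.mem_filter.1 hx).2
      have h3 := (Finset.mem_filter.1 hy).2
      have hxy' : f x = f y := hxy
      rw [hxy', h3] at h2
      exact (Option.some.inj h2).symm
    · intro z hz
      obtain ⟨y, hy, h2, h3⟩ := hg z hz
      refine ⟨y, Finset.mem_filter.2 ⟨hy, ?_⟩, h3⟩
      rw [h3]
      exact h2

/-- **Popular ratios with distinct valuations at few primes.** -/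
theorem extract (A : Finset ℤ) (hA : A.Nonempty) {R : ℕ} (pr : Fin R → ℕ)
    (hpr : ∀ j, (pr j).Prime) (X : Finset ℚ) (hX0 : ∀ x ∈ X, 0 < x) (l : ℝ)
    (hl : ∀ x ∈ X, Real.exp (-l) * A.card ≤ ww A x) (b : Fin R → ℕ)
    (hb : Tr (X.image (vq pr)) b) (J : ℕ) :
    ∃ Q : Finset ℚ, (∀ x ∈ Q, 0 < x) ∧
      (∀ x ∈ Q, Real.exp (-(2 * l * 4 ^ J)) / 2 * A.card ≤ ww A x) ∧
      (∀ x ∈ Q, ∀ y ∈ Q, (∀ j, b j ≠ 0 → padicValRat (pr j) x = padicValRat (pr j) y) → x = y) ∧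
      Real.exp (-(2 * l * 4 ^ J)) / 2 * (2 ^ J / 52) ^ sup b * ((bx b : ℕ) : ℝ) ≤ Q.card := by
  classical
  have hA0 : (0 : ℝ) < A.card := by exact_mod_cast hA.card_pos
  obtain ⟨s, hs, hs2⟩ := hb
  have hch : ∀ t : Fin R → ℕ, ∃ x : ℚ, 0 < x ∧ ((∀ j, t j ≤ b j) → x ∈ X ∧ vq pr x = s t) := by
    intro t
    by_cases ht : ∀ j, t j ≤ b j
    · obtain ⟨x, hx, hxs⟩ := Finset.mem_image.1 (hs t ht)
      exact ⟨x, hX0 x hx, fun _ => ⟨hx, hxs⟩⟩
    · exact ⟨1, one_pos, fun h => absurd h ht⟩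
  choose y hy0 hy using hch
  obtain ⟨K, hK⟩ : ∃ K : Finset (Fin R → ℕ), K = Fintype.piFinset (fun j => Finset.range (b j + 1)) :=
    ⟨_, rfl⟩
  have memK : ∀ t, t ∈ K ↔ ∀ j, t j ≤ b j := by
    intro t
    rw [hK, Fintype.mem_piFinset]
    exact forall_congr' fun j => by rw [Finset.mem_range, Nat.lt_succ_iff]
  have cardK : K.card = bx b := by
    rw [hK, Fintype.card_piFinset]
    unfold bx
    exact Finset.prod_congr rfl fun j _ => Finset.card_range _
  have hKp : (0 : ℝ) < K.card := by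
    rw [cardK]
    exact_mod_cast bx_pos b
  have hpow := II_pow A hA K y (fun k => (hy0 k).ne') l (fun k hk =>
    hl _ ((hy k ((memK k).1 hk)).1)) (2 * J)
  have e2 : (2 : ℕ) ^ (2 * J) = 4 ^ J := by
    rw [pow_mul]
    norm_num
  have e3 : (2 : ℝ) ^ (2 * J) = 4 ^ J := by
    rw [pow_mul]
    norm_num
  rw [e2, e3] at hpow
  obtain ⟨θ, hθ⟩ : ∃ θ : ℝ, θ = Real.exp (-(2 * l * 4 ^ J)) := ⟨_, rfl⟩
  rw [← hθ] at hpow ⊢
  have hθ0 : 0 < θ := by rw [hθ]; exact Real.exp_pos _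
  obtain ⟨F, hF⟩ : ∃ F, F = Fintype.piFinset (fun _ : Fin (4 ^ J) => K) := ⟨_, rfl⟩
  obtain ⟨g, hg⟩ : ∃ g : (Fin (4 ^ J) → (Fin R → ℕ)) → ℚ, g = fun τ => ∏ i, y (τ i) := ⟨_, rfl⟩
  have hg0 : ∀ τ, 0 < g τ := by
    intro τ
    rw [hg]
    exact Finset.prod_pos fun i _ => hy0 _
  have cardF : (F.card : ℝ) = (K.card : ℝ) ^ (4 ^ J) := by
    rw [hF, Fintype.card_piFinset, Finset.prod_const, Finset.card_univ, Fintype.card_fin]
    push_cast
    rfl
  have hFp : (0 : ℝ) < F.card := by rw [cardF]; positivity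
  have hFne : F.Nonempty := by
    rw [← Finset.card_pos]
    exact_mod_cast hFp
  have hII : ((II A K y (4 ^ J) : ℕ) : ℝ) = ∑ σ ∈ F, ∑ τ ∈ F, (ww A (g τ / g σ) : ℝ) := by
    rw [Finset.sum_comm, hF, hg]
    unfold II TT
    push_cast
    rfl
  rw [hII] at hpow
  obtain ⟨σ, hσF, hσ⟩ := Finset.exists_le_of_sum_le hFne
    (f := fun _ => θ * (F.card : ℝ) * A.card) (g := fun σ => ∑ τ ∈ F, (ww A (g τ / g σ) : ℝ)) (by
      refine le_trans (le_of_eq ?_) hpow
      rw [Finset.sum_const, nsmul_eq_mul, two_mul, pow_add, ← cardF]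
      ring)
  obtain ⟨P, hP⟩ : ∃ P, P = F.filter (fun τ => θ / 2 * A.card ≤ (ww A (g τ / g σ) : ℝ)) := ⟨_, rfl⟩
  have hPc : θ / 2 * F.card ≤ P.card := by
    have h1 : ∑ τ ∈ F, (ww A (g τ / g σ) : ℝ) ≤
        ∑ τ ∈ F, (θ / 2 * A.card + if θ / 2 * A.card ≤ (ww A (g τ / g σ) : ℝ) then
          (A.card : ℝ) else 0) := by
      refine Finset.sum_le_sum fun τ _ => ?_
      split_ifs with h
      · have h2 : (ww A (g τ / g σ) : ℝ) ≤ A.card := by exact_mod_cast ww_le A _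
        have h3 : 0 ≤ θ / 2 * A.card := by positivity
        linarith only [h2, h3]
      · rw [not_le] at h
        linarith only [h]
    rw [Finset.sum_add_distrib, Finset.sum_const, nsmul_eq_mul, ← Finset.sum_filter, ← hP,
      Finset.sum_const, nsmul_eq_mul] at h1
    have h2 : θ * (F.card : ℝ) * A.card ≤ F.card * (θ / 2 * A.card) + P.card * A.card :=
      le_trans hσ h1
    have h3 : (θ / 2 * F.card) * A.card ≤ P.card * A.card := by linarith only [h2]
    exact le_of_mul_le_mul_right h3 hA0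
  -- the projections
  obtain ⟨π, hπ⟩ : ∃ π : (Fin (4 ^ J) → (Fin R → ℕ)) → (Fin R → ℤ), π = fun τ j =>
    if b j ≠ 0 then vq pr (g τ / g σ) j else 0 := ⟨_, rfl⟩
  have hfib : ∀ z ∈ P.image π, (P.filter (fun τ => π τ = z)).card * ∏ j, wl J (b j) ≤
      ∏ j, wu J (b j) := by
    intro z _
    refine le_trans (Nat.mul_le_mul_right _ ?_) (walk J R b (fun _ => s) (fun _ => hs2)
      (fun j => z j + vq pr (g σ) j))
    rw [← hK, ← hF]
    refine Finset.card_le_card fun τ hτ => ?_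
    rw [Finset.mem_filter] at hτ ⊢
    obtain ⟨h1, h2⟩ := hτ
    rw [hP, Finset.mem_filter] at h1
    refine ⟨h1.1, fun j hj => ?_⟩
    have h3 : π τ j = z j := congrFun h2 j
    rw [hπ] at h3
    have h4 : vq pr (g τ / g σ) j = z j := by
      have : (if b j ≠ 0 then vq pr (g τ / g σ) j else 0) = z j := h3
      rwa [if_pos hj] at this
    rw [vq_div pr hpr _ _ (hg0 _).ne' (hg0 _).ne'] at h4
    have h5 : vq pr (g τ) j = ∑ i, s (τ i) j := by
      rw [hg]
      show vq pr (∏ i, y (τ i)) j = _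
      rw [vq_prod pr hpr _ _ (fun i _ => (hy0 _).ne')]
      refine Finset.sum_congr rfl fun i _ => ?_
      have h6 := Fintype.mem_piFinset.1 (hF ▸ h1.1) i
      rw [(hy (τ i) ((memK _).1 h6)).2]
    rw [← h5]
    (clear * - h4; linarith only [h4])
  have hcount : P.card * ∏ j, wl J (b j) ≤ (P.image π).card * ∏ j, wu J (b j) := by
    have h1 := Finset.card_eq_sum_card_image π P
    calc P.card * ∏ j, wl J (b j) =
        ∑ z ∈ P.image π, (P.filter (fun τ => π τ = z)).card * ∏ j, wl J (b j) := by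
          rw [h1, Finset.sum_mul]
      _ ≤ ∑ _z ∈ P.image π, ∏ j, wu J (b j) := Finset.sum_le_sum hfib
      _ = _ := by rw [Finset.sum_const, smul_eq_mul]
  obtain ⟨T, hTP, hTinj, hTc⟩ := transversal P π
  refine ⟨T.image (fun τ => g τ / g σ), ?_, ?_, ?_, ?_⟩
  · intro x hx
    obtain ⟨τ, _, rfl⟩ := Finset.mem_image.1 hx
    exact div_pos (hg0 _) (hg0 _)
  · intro x hx
    obtain ⟨τ, hτ, rfl⟩ := Finset.mem_image.1 hx
    have h1 := hTP hτ
    rw [hP, Finset.mem_filter] at h1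
    exact h1.2
  · intro x hx x' hx' hxx
    obtain ⟨τ, hτ, rfl⟩ := Finset.mem_image.1 hx
    obtain ⟨τ', hτ', rfl⟩ := Finset.mem_image.1 hx'
    have h1 : π τ = π τ' := by
      rw [hπ]
      funext j
      show (if b j ≠ 0 then vq pr (g τ / g σ) j else 0) =
        (if b j ≠ 0 then vq pr (g τ' / g σ) j else 0)
      by_cases hj : b j ≠ 0
      · rw [if_pos hj, if_pos hj]
        exact hxx j hj
      · rw [if_neg hj, if_neg hj]
    rw [hTinj τ hτ τ' hτ' h1]
  · have h1 : (T.image (fun τ => g τ / g σ)).card = T.card := by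
      refine Finset.card_image_of_injOn fun τ hτ τ' hτ' h => ?_
      refine hTinj τ (Finset.mem_coe.1 hτ) τ' (Finset.mem_coe.1 hτ') ?_
      have h' : g τ / g σ = g τ' / g σ := h
      rw [hπ]
      funext j
      show (if b j ≠ 0 then vq pr (g τ / g σ) j else 0) =
        (if b j ≠ 0 then vq pr (g τ' / g σ) j else 0)
      rw [h']
    rw [h1, hTc]
    rw [prod_wl, prod_wu] at hcount
    have h2 : (P.card : ℝ) * ((2 ^ J) ^ sup b * (bx b : ℕ)) ≤
        ((P.image π).card : ℝ) * (52 ^ sup b * ((bx b : ℕ) : ℝ) ^ (4 ^ J)) := by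
      exact_mod_cast hcount
    have hbp : (0 : ℝ) < ((bx b : ℕ) : ℝ) := by exact_mod_cast bx_pos b
    rw [cardF, cardK] at hPc
    have h3 : (θ / 2 * ((bx b : ℕ) : ℝ) ^ (4 ^ J)) * ((2 ^ J) ^ sup b * (bx b : ℕ)) ≤
        ((P.image π).card : ℝ) * (52 ^ sup b * ((bx b : ℕ) : ℝ) ^ (4 ^ J)) :=
      le_trans (mul_le_mul_of_nonneg_right hPc (by (clear * - hbp; positivity))) h2
    have h4 : (θ / 2 * (2 ^ J / 52) ^ sup b * ((bx b : ℕ) : ℝ)) *
        (52 ^ sup b * ((bx b : ℕ) : ℝ) ^ (4 ^ J)) ≤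
        ((P.image π).card : ℝ) * (52 ^ sup b * ((bx b : ℕ) : ℝ) ^ (4 ^ J)) := by
      refine le_trans (le_of_eq ?_) h3
      rw [div_pow]
      (clear * - hbp hθ0; field_simp)
    exact le_of_mul_le_mul_right h4 (by (clear * - hbp; positivity))

end Pool.Agent.Helper15.GPR
end

/- Helper24.DI.H15.GPR.Scale -/
section
set_option autoImplicit false

/-!
# Project GL++ (MP_120218), Scale: one step between two sets of popular ratios
-/

namespace Pool.Agent.Helper15.GPR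

open Finset Pool.Agent.Helper15.GLP Pool.Agent.Helper15.GPP Pool.Agent.Helper15.GPQ

open Classical in
/-- the popular ratios -/
noncomputable def XX (A : Finset ℤ) (l : ℝ) : Finset ℚ :=
  (Finset.image₂ (fun a b : ℤ => (b : ℚ) / a) A A).filter
    (fun x => 0 < x ∧ Real.exp (-l) * A.card ≤ ww A x)

theorem mem_XX {A : Finset ℤ} (hA : A.Nonempty) (h0 : (0 : ℤ) ∉ A) {l : ℝ} {x : ℚ} :
    x ∈ XX A l ↔ 0 < x ∧ Real.exp (-l) * A.card ≤ ww A x := by
  unfold XX
  rw [Finset.mem_filter]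
  refine ⟨fun h => h.2, fun h => ⟨?_, h⟩⟩
  have hA0 : (0 : ℝ) < A.card := by exact_mod_cast hA.card_pos
  have h1 : (0 : ℝ) < ww A x := lt_of_lt_of_le (mul_pos (Real.exp_pos _) hA0) h.2
  have h2 : 0 < ww A x := by exact_mod_cast h1
  obtain ⟨a, ha⟩ := Finset.card_pos.1 h2
  rw [mem_inc] at ha
  obtain ⟨b, hb, hba⟩ := Finset.mem_image.1 ha.2
  have ha0 : (a : ℚ) ≠ 0 := by
    intro h3
    have h4 : a = 0 := by exact_mod_cast h3
    exact h0 (h4 ▸ ha.1)
  refine Finset.mem_image₂.2 ⟨a, ha.1, b, hb, ?_⟩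
  show (b : ℚ) / a = x
  have hba' : (b : ℚ) = (a : ℚ) * x := hba
  rw [hba', mul_comm, mul_div_assoc, div_self ha0, mul_one]

theorem card_XX_le (A : Finset ℤ) (l : ℝ) : (XX A l).card ≤ A.card * A.card := by
  unfold XX
  exact (Finset.card_filter_le _ _).trans (Finset.card_image₂_le _ _ _)

theorem XX_mono {A : Finset ℤ} (hA : A.Nonempty) (h0 : (0 : ℤ) ∉ A) {l l' : ℝ} (h : l ≤ l') :
    XX A l ⊆ XX A l' := by
  intro x hx
  rw [mem_XX hA h0] at hx ⊢
  refine ⟨hx.1, le_trans (mul_le_mul_of_nonneg_right (Real.exp_le_exp.2 (by (clear * - h; linarith only [h])))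
    (Nat.cast_nonneg _)) hx.2⟩

theorem exp_neg_one_le : Real.exp (-1) ≤ 1 / 2 := by
  rw [Real.exp_neg, one_div]
  refine inv_anti₀ (by norm_num) ?_
  have := Real.add_one_le_exp (1 : ℝ)
  (clear * - this; linarith)

/-- many pairs of popular ratios have a popular quotient -/
theorem many_pairs {A : Finset ℤ} (hA : A.Nonempty) (h0 : (0 : ℤ) ∉ A) (l : ℝ) :
    Real.exp (-(2 * l)) / 2 * ((XX A l).card : ℝ) ^ 2 ≤
      (((XX A l) ×ˢ (XX A l)).filter (fun p => p.1 / p.2 ∈ XX A (2 * l + 1))).card := by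
  classical
  have hA0 : (0 : ℝ) < A.card := by exact_mod_cast hA.card_pos
  obtain ⟨X, hX⟩ : ∃ X, X = XX A l := ⟨_, rfl⟩
  obtain ⟨W, hW⟩ : ∃ W, W = (X ×ˢ X).filter (fun p => p.1 / p.2 ∈ XX A (2 * l + 1)) := ⟨_, rfl⟩
  rw [← hX, ← hW]
  have hpos : ∀ s ∈ X, 0 < s := fun s hs => by
    rw [hX, mem_XX hA h0] at hs
    exact hs.1
  have h1 := cs A (A.image (fun a : ℤ => (a : ℚ))) X (fun s => s) (fun s hs => (hpos s hs).ne')
  have h2 : (X.card : ℝ) * (Real.exp (-l) * A.card) ≤ ∑ s ∈ X, (ww A s : ℝ) := by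
    have := Finset.card_nsmul_le_sum X (fun s => (ww A s : ℝ)) (Real.exp (-l) * A.card)
      (fun s hs => by
        rw [hX, mem_XX hA h0] at hs
        exact hs.2)
    rwa [nsmul_eq_mul] at this
  have h3 : ((X.card : ℝ) * (Real.exp (-l) * A.card)) ^ 2 ≤
      A.card * ∑ s ∈ X, ∑ t ∈ X, (ww A (s / t) : ℝ) := by
    refine (pow_le_pow_left₀ (by (clear * - hA hX hW hpos h1 h2; positivity)) h2 2).trans ?_
    have h4 : ((∑ s ∈ X, ww A s) ^ 2 : ℕ) ≤ A.card * ∑ s ∈ X, ∑ t ∈ X, ww A (s / t) :=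
      h1.trans (Nat.mul_le_mul_right _ Finset.card_image_le)
    exact_mod_cast h4
  have h4 : Real.exp (-(2 * l)) * (X.card : ℝ) ^ 2 * A.card ≤
      ∑ s ∈ X, ∑ t ∈ X, (ww A (s / t) : ℝ) := by
    have e1 : Real.exp (-(2 * l)) = Real.exp (-l) ^ 2 := by
      rw [← Real.exp_nat_mul]
      congr 1
      push_cast
      ring
    have h5 : (A.card : ℝ) * (Real.exp (-(2 * l)) * (X.card : ℝ) ^ 2 * A.card) ≤
        A.card * ∑ s ∈ X, ∑ t ∈ X, (ww A (s / t) : ℝ) := by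
      refine le_trans (le_of_eq ?_) h3
      rw [e1]
      ring
    exact le_of_mul_le_mul_left h5 hA0
  rw [← Finset.sum_product' (f := fun s t => (ww A (s / t) : ℝ))] at h4
  have h5 : ∑ p ∈ X ×ˢ X, (ww A (p.1 / p.2) : ℝ) ≤ ∑ p ∈ X ×ˢ X,
      (Real.exp (-(2 * l)) / 2 * A.card + if p.1 / p.2 ∈ XX A (2 * l + 1) then (A.card : ℝ) else 0) := by
    refine Finset.sum_le_sum fun p hp => ?_
    rw [Finset.mem_product] at hp
    split_ifs with h
    · have h6 : (ww A (p.1 / p.2) : ℝ) ≤ A.card := by exact_mod_cast ww_le A _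
      have h7 : 0 ≤ Real.exp (-(2 * l)) / 2 * A.card := by positivity
      (clear * - h6 h7; linarith only [h6, h7])
    · rw [mem_XX hA h0, not_and, not_le] at h
      have h6 := h (div_pos (hpos _ hp.1) (hpos _ hp.2))
      have h7 : Real.exp (-(2 * l + 1)) ≤ Real.exp (-(2 * l)) / 2 := by
        have e1 : Real.exp (-(2 * l + 1)) = Real.exp (-(2 * l)) * Real.exp (-1) := by
          rw [← Real.exp_add]
          congr 1
          ring
        rw [e1]
        have := mul_le_mul_of_nonneg_left exp_neg_one_le (Real.exp_pos (-(2 * l))).le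
        linarith only [this]
      have h8 := mul_le_mul_of_nonneg_right h7 hA0.le
      linarith only [h6, h8]
  rw [Finset.sum_add_distrib, Finset.sum_const, nsmul_eq_mul, ← Finset.sum_filter, ← hW,
    Finset.sum_const, nsmul_eq_mul, Finset.card_product] at h5
  push_cast at h5
  have h6 : (Real.exp (-(2 * l)) / 2 * (X.card : ℝ) ^ 2) * A.card ≤ W.card * A.card := by
    (clear * - h4 h5; linarith only [h4, h5])
  exact le_of_mul_le_mul_right h6 hA0

/-- **One step.** -/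
theorem step {A : Finset ℤ} (hA : A.Nonempty) (h0 : (0 : ℤ) ∉ A) (l : ℝ) (hl : 0 ≤ l) {R : ℕ}
    (pr : Fin R → ℕ) (hpr : ∀ j, (pr j).Prime)
    (hinj : ∀ x ∈ XX A (2 * l + 1), ∀ y ∈ XX A (2 * l + 1),
      (∀ j, padicValRat (pr j) x = padicValRat (pr j) y) → x = y) (hne : (XX A l).Nonempty) :
    ∃ b ∈ osh R ((XX A (2 * l + 1)).image (vq pr)),
      Real.exp (-(4 * l)) / 4 * ((XX A l).card : ℝ) ^ 2 ≤
        ((bx b : ℕ) : ℝ) ^ 9 * (XX A (2 * l + 1)).card := by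
  classical
  have hmany := many_pairs hA h0 l
  obtain ⟨X, hX⟩ : ∃ X, X = XX A l := ⟨_, rfl⟩
  obtain ⟨Y, hY⟩ : ∃ Y, Y = XX A (2 * l + 1) := ⟨_, rfl⟩
  have hXY : X ⊆ Y := by
    rw [hX, hY]
    exact XX_mono hA h0 (by (clear * - hl; linarith only [hl]))
  rw [← hX, ← hY] at hmany
  rw [← hY] at hinj
  rw [← hX] at hne
  rw [← hX, ← hY]
  have hposY : ∀ s ∈ Y, 0 < s := fun s hs => by
    rw [hY, mem_XX hA h0] at hs
    exact hs.1
  have hpos : ∀ s ∈ X, 0 < s := fun s hs => hposY s (hXY hs)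
  have hvinj : ∀ x ∈ Y, ∀ y ∈ Y, vq pr x = vq pr y → x = y := fun x hx y hy h =>
    hinj x hx y hy fun j => congrFun h j
  have c1 : ((X ×ˢ X).filter (fun p => p.1 / p.2 ∈ Y)).card ≤
      (sol3 (X.image (vq pr)) (X.image (vq pr)) (Y.image (vq pr))).card := by
    refine Finset.card_le_card_of_injOn (fun p : ℚ × ℚ => (vq pr p.1, vq pr p.2,
      vq pr (p.1 / p.2))) ?_ ?_
    · intro p hp
      have h1 := Finset.mem_filter.1 (Finset.mem_coe.1 hp)
      have h2 := Finset.mem_product.1 h1.1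
      refine Finset.mem_coe.2 (mem_sol3.2 ⟨⟨Finset.mem_image_of_mem _ h2.1,
        Finset.mem_image_of_mem _ h2.2, Finset.mem_image_of_mem _ h1.2⟩, ?_⟩)
      funext j
      show vq pr p.1 j = vq pr p.2 j + vq pr (p.1 / p.2) j
      rw [vq_div pr hpr _ _ (hpos _ h2.1).ne' (hpos _ h2.2).ne']
      ring
    · intro p hp p' hp' h
      have h1 := Finset.mem_product.1 (Finset.mem_filter.1 (Finset.mem_coe.1 hp)).1
      have h2 := Finset.mem_product.1 (Finset.mem_filter.1 (Finset.mem_coe.1 hp')).1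
      obtain ⟨e1, e2⟩ := Prod.mk.inj h
      obtain ⟨e2, e3⟩ := Prod.mk.inj e2
      exact Prod.ext (hvinj _ (hXY h1.1) _ (hXY h2.1) e1) (hvinj _ (hXY h1.2) _ (hXY h2.2) e2)
  have c2 := c1.trans (tri R _ _ _)
  obtain ⟨D, hD⟩ : ∃ D, D = osh R (X.image (vq pr)) := ⟨_, rfl⟩
  obtain ⟨D', hD'⟩ : ∃ D', D' = osh R (Y.image (vq pr)) := ⟨_, rfl⟩
  rw [← hD, ← hD'] at c2
  have cD : D.card = X.card := by
    rw [hD, card_osh, Finset.card_image_of_injOn]
    intro x hx y hy h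
    exact hvinj x (hXY (Finset.mem_coe.1 hx)) y (hXY (Finset.mem_coe.1 hy)) h
  have cD' : D'.card = Y.card := by
    rw [hD', card_osh, Finset.card_image_of_injOn]
    intro x hx y hy h
    exact hvinj x (Finset.mem_coe.1 hx) y (Finset.mem_coe.1 hy) h
  have hne' : D'.Nonempty := by
    rw [← Finset.card_pos, cD']
    exact (hne.mono hXY).card_pos
  obtain ⟨b, hb, hmax⟩ := Finset.exists_max_image D' (fun b => bx b) hne'
  have c3 := gd3_card D D' (by
    rw [hD, hD']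
    exact osh_mono R _ _ (Finset.image_subset_image hXY)) (by
    rw [hD]
    exact osh_down R _) (by
    rw [hD']
    exact osh_down R _) (bx b) hmax
  refine ⟨b, by rw [← hD']; exact hb, ?_⟩
  rw [cD, cD'] at c3
  have hX0 : (0 : ℝ) < X.card := by exact_mod_cast hne.card_pos
  have c4 : Real.exp (-(2 * l)) / 2 * (X.card : ℝ) ^ 2 ≤ (gd3 D D D').card :=
    hmany.trans (by exact_mod_cast c2)
  have c5 : (Real.exp (-(2 * l)) / 2 * (X.card : ℝ) ^ 2) ^ 2 ≤
      ((bx b : ℕ) : ℝ) ^ 9 * (X.card : ℝ) ^ 2 * Y.card := by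
    refine (pow_le_pow_left₀ (by positivity) c4 2).trans ?_
    exact_mod_cast c3
  have e1 : Real.exp (-(4 * l)) = Real.exp (-(2 * l)) ^ 2 := by
    rw [← Real.exp_nat_mul]
    congr 1
    push_cast
    ring
  have c6 : (X.card : ℝ) ^ 2 * (Real.exp (-(4 * l)) / 4 * (X.card : ℝ) ^ 2) ≤
      (X.card : ℝ) ^ 2 * (((bx b : ℕ) : ℝ) ^ 9 * Y.card) := by
    calc (X.card : ℝ) ^ 2 * (Real.exp (-(4 * l)) / 4 * (X.card : ℝ) ^ 2) =
        (Real.exp (-(2 * l)) / 2 * (X.card : ℝ) ^ 2) ^ 2 := by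
          rw [e1]
          ring
      _ ≤ _ := c5
      _ = _ := by ring
  exact le_of_mul_le_mul_left c6 (by positivity)

/-- the choice of the scale -/
theorem select (f : ℕ → ℝ) (g B : ℝ) (hg : 0 < g) (h0 : f 0 = g) (hB : ∀ i, f i ≤ B) :
    ∃ i : ℕ, f (i + 1) ≤ 13 / 10 * f i ∧ (13 / 10) ^ i * g ≤ f i := by
  classical
  have hex : ∃ i : ℕ, f (i + 1) ≤ 13 / 10 * f i := by
    by_contra hcon
    push Not at hcon
    have h1 : ∀ i : ℕ, (13 / 10 : ℝ) ^ i * g ≤ f i := by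
      intro i
      induction i with
      | zero => rw [pow_zero, one_mul, h0]
      | succ i ih =>
        have := hcon i
        rw [pow_succ]
        linarith only [ih, this]
    obtain ⟨n, hn⟩ := pow_unbounded_of_one_lt (B / g) (show (1 : ℝ) < 13 / 10 by norm_num)
    rw [div_lt_iff₀ hg] at hn
    have := h1 n
    have := hB n
    linarith
  refine ⟨Nat.find hex, Nat.find_spec hex, ?_⟩
  have h1 : ∀ i : ℕ, i ≤ Nat.find hex → (13 / 10 : ℝ) ^ i * g ≤ f i := by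
    intro i
    induction i with
    | zero => intro _; rw [pow_zero, one_mul, h0]
    | succ i ih =>
      intro hi
      have h2 := Nat.find_min hex (m := i) (by omega)
      rw [not_le] at h2
      have h3 := ih (by omega)
      rw [pow_succ]
      linarith only [h2, h3]
  exact h1 _ le_rfl

end Pool.Agent.Helper15.GPR
end

/- Helper24.DI.H15.GPR.Popular -/
section
set_option autoImplicit false

/-!
# Project GL++ (MP_120218), Popular: a set with many popular ratios grows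
-/

namespace Pool.Agent.Helper15.GPR

open Finset Pool.Agent.Helper15.GLP Pool.Agent.Helper15.GPP Pool.Agent.Helper15.GPQ
open scoped Pointwise

/-- counting popular ratios by rich fibres -/
theorem pop_bound {A : Finset ℤ} (h0 : (0 : ℤ) ∉ A) (Q : Finset ℚ) (hQ : ∀ x ∈ Q, 0 < x)
    (t M w : ℝ) (hM : 0 ≤ M) (hpop : ∀ x ∈ Q, t * A.card ≤ ww A x)
    (hw : ∀ Z : Finset ℚ, (∀ z ∈ Z, M < ((rich A (Q.image (fun s => s⁻¹)) z).card : ℝ)) →
      (Z.card : ℝ) ≤ w) :
    t * A.card * Q.card ≤ w * Q.card + A.card * M := by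
  classical
  obtain ⟨B, hB⟩ : ∃ B : Finset ℚ, B = A.image (fun a : ℤ => (a : ℚ)) := ⟨_, rfl⟩
  obtain ⟨P, hP⟩ : ∃ P : Finset ℚ, P = Q.image (fun s => s⁻¹) := ⟨_, rfl⟩
  have hBc : (B.card : ℝ) = A.card := by
    rw [hB, Finset.card_image_of_injective _ Int.cast_injective]
  have hPc : (P.card : ℝ) ≤ Q.card := by
    rw [hP]
    exact_mod_cast Finset.card_image_le
  have h1 : ∑ x ∈ Q, ww A x ≤ ∑ z ∈ B, (rich A P z).card := by
    rw [← Finset.card_sigma]
    unfold ww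
    rw [← Finset.card_sigma, ← hB]
    refine Finset.card_le_card_of_injOn (fun p : (_ : ℚ) × ℤ =>
      (⟨(p.2 : ℚ) * p.1, p.2⟩ : (_ : ℚ) × ℤ)) ?_ ?_
    · rintro ⟨x, a⟩ hp
      have h2 := Finset.mem_sigma.1 (Finset.mem_coe.1 hp)
      have h3 := mem_inc.1 h2.2
      refine Finset.mem_coe.2 (Finset.mem_sigma.2 ⟨h3.2, mem_rich.2 ⟨h3.1, x⁻¹, ?_, ?_⟩⟩)
      · rw [hP]
        exact Finset.mem_image_of_mem _ h2.1
      · show (a : ℚ) = (a : ℚ) * x * x⁻¹
        rw [mul_assoc, mul_inv_cancel₀ (hQ x h2.1).ne', mul_one]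
    · rintro ⟨x, a⟩ hp ⟨x', a'⟩ hp' h
      obtain ⟨e1, e2⟩ := Sigma.mk.inj_iff.1 h
      have e3 : a = a' := eq_of_heq e2
      subst e3
      have h2 := (mem_inc.1 (Finset.mem_sigma.1 (Finset.mem_coe.1 hp)).2).1
      have ha : (a : ℚ) ≠ 0 := by
        intro h3
        have h4 : a = 0 := by exact_mod_cast h3
        exact h0 (h4 ▸ h2)
      have e4 : x = x' := mul_left_cancel₀ ha e1
      rw [e4]
  have h2 : t * A.card * Q.card ≤ ∑ x ∈ Q, (ww A x : ℝ) := by
    have := Finset.card_nsmul_le_sum Q (fun s => (ww A s : ℝ)) _ hpop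
    rw [nsmul_eq_mul] at this
    (clear * - this; linarith only [this])
  have h3 : ∑ x ∈ Q, (ww A x : ℝ) ≤ ∑ z ∈ B, ((rich A P z).card : ℝ) := by exact_mod_cast h1
  obtain ⟨Z, hZ⟩ : ∃ Z : Finset ℚ, Z = B.filter (fun z => M < ((rich A P z).card : ℝ)) := ⟨_, rfl⟩
  have hZw : (Z.card : ℝ) ≤ w := by
    refine hw Z fun z hz => ?_
    rw [hZ, Finset.mem_filter] at hz
    rw [← hP]
    exact hz.2
  have h4 : ∑ z ∈ B, ((rich A P z).card : ℝ) ≤
      ∑ z ∈ B, (M + if M < ((rich A P z).card : ℝ) then (Q.card : ℝ) else 0) := by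
    refine Finset.sum_le_sum fun z _ => ?_
    split_ifs with h
    · have h5 : ((rich A P z).card : ℝ) ≤ P.card := by exact_mod_cast rich_le A P z
      (clear * - hM hPc h5; linarith only [hM, hPc, h5])
    · rw [not_lt] at h
      linarith only [h]
  rw [Finset.sum_add_distrib, Finset.sum_const, nsmul_eq_mul, ← Finset.sum_filter, ← hZ,
    Finset.sum_const, nsmul_eq_mul, hBc] at h4
  have h5 : (Z.card : ℝ) * Q.card ≤ w * Q.card :=
    mul_le_mul_of_nonneg_right hZw (Nat.cast_nonneg _)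
  linarith only [h2, h3, h4, h5]

theorem exists_J (y : ℝ) : ∃ J : ℕ, y ≤ 2 ^ J ∧ (4 : ℝ) ^ J ≤ 1 + 4 * y ^ 2 := by
  classical
  by_cases hy : y ≤ 1
  · refine ⟨0, by rw [pow_zero]; exact hy, ?_⟩
    rw [pow_zero]
    (clear * -; nlinarith only [])
  rw [not_le] at hy
  have hex : ∃ J : ℕ, y ≤ 2 ^ J := by
    obtain ⟨n, hn⟩ := pow_unbounded_of_one_lt y (show (1 : ℝ) < 2 by norm_num)
    exact ⟨n, hn.le⟩
  refine ⟨Nat.find hex, Nat.find_spec hex, ?_⟩
  obtain ⟨J, hJ⟩ : ∃ J : ℕ, J = Nat.find hex := ⟨_, rfl⟩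
  rw [← hJ]
  have hJ0 : J ≠ 0 := by
    intro h
    have h1 := Nat.find_spec hex
    rw [← hJ, h, pow_zero] at h1
    (clear * - hy h1; linarith only [hy, h1])
  obtain ⟨m, hm⟩ : ∃ m, J = m + 1 := ⟨J - 1, by omega⟩
  have h1 := Nat.find_min hex (m := m) (by omega)
  rw [not_le] at h1
  have h2 : (4 : ℝ) ^ J = 4 * (2 ^ m) ^ 2 := by
    rw [hm, pow_succ, ← pow_mul, mul_comm m 2, pow_mul]
    norm_num
    ring
  rw [h2]
  have h3 : ((2 : ℝ) ^ m) ^ 2 ≤ y ^ 2 := pow_le_pow_left₀ (by positivity) h1.le 2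
  linarith only [h3]

/-- the choice of the length of the walk -/
theorem choose_J (C2 L β r κ0 : ℝ) (hC2 : 0 < C2) (hL : 0 < L) (hβ : 0 < β) (hβL : β ≤ L)
    (hr : 0 < r) (hκ0 : 0 ≤ κ0)
    (hκ : κ0 * (1 + 4 * (52 * C2) ^ 2) * L ^ 2 ≤ β ^ 3 / 16) :
    ∃ J : ℕ, C2 * L / r * Real.exp (-(β / (2 * r))) ≤ 2 ^ J / 52 ∧ κ0 * 4 ^ J ≤ β / 16 := by
  obtain ⟨J, hJ1, hJ2⟩ := exists_J (52 * (C2 * L / r * Real.exp (-(β / (2 * r)))))
  refine ⟨J, by (clear * - hJ1; linarith only [hJ1]), ?_⟩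
  have h1 : C2 * L / r * Real.exp (-(β / (2 * r))) ≤ C2 * (L / β) := by
    have h2 := le_exp_half (β / r) (by positivity)
    have h3 : β / r * Real.exp (-(β / (2 * r))) ≤ 1 := by
      have e1 : β / (2 * r) = β / r / 2 := by
        field_simp
      rw [e1]
      calc β / r * Real.exp (-(β / r / 2)) ≤ Real.exp (β / r / 2) * Real.exp (-(β / r / 2)) :=
            mul_le_mul_of_nonneg_right h2 (Real.exp_pos _).le
        _ = 1 := by rw [← Real.exp_add, add_neg_cancel, Real.exp_zero]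
    calc C2 * L / r * Real.exp (-(β / (2 * r))) =
        C2 * (L / β) * (β / r * Real.exp (-(β / (2 * r)))) := by
          field_simp
      _ ≤ C2 * (L / β) * 1 := mul_le_mul_of_nonneg_left h3 (by (clear * - hC2 hL hβ; positivity))
      _ = C2 * (L / β) := mul_one _
  have h4 : (4 : ℝ) ^ J ≤ (1 + 4 * (52 * C2) ^ 2) * (L / β) ^ 2 := by
    have h5 : (52 * (C2 * L / r * Real.exp (-(β / (2 * r))))) ^ 2 ≤ (52 * (C2 * (L / β))) ^ 2 :=
      pow_le_pow_left₀ (by positivity) (by linarith only [h1]) 2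
    have h6 : 1 ≤ (L / β) ^ 2 := by
      have h7 : 1 ≤ L / β := by
        rw [le_div_iff₀ hβ, one_mul]
        exact hβL
      (clear * - h7; nlinarith only [h7])
    calc (4 : ℝ) ^ J ≤ 1 + 4 * (52 * (C2 * L / r * Real.exp (-(β / (2 * r))))) ^ 2 := hJ2
      _ ≤ (L / β) ^ 2 + 4 * (52 * (C2 * (L / β))) ^ 2 := by linarith only [h5, h6]
      _ = (1 + 4 * (52 * C2) ^ 2) * (L / β) ^ 2 := by ring
  calc κ0 * 4 ^ J ≤ κ0 * ((1 + 4 * (52 * C2) ^ 2) * (L / β) ^ 2) :=
        mul_le_mul_of_nonneg_left h4 hκ0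
    _ = (κ0 * (1 + 4 * (52 * C2) ^ 2) * L ^ 2) / β ^ 2 := by
        field_simp
    _ ≤ (β ^ 3 / 16) / β ^ 2 := div_le_div_of_nonneg_right hκ (by positivity)
    _ = β / 16 := by
        field_simp

/-- the primes of a set of positive rationals -/
theorem exists_vq (P : Finset ℚ) (hpos : ∀ s ∈ P, 0 < s) :
    ∃ (R : ℕ) (q : Fin R → ℕ), (∀ j, (q j).Prime) ∧
      ∀ x ∈ P, ∀ y ∈ P, (∀ j, padicValRat (q j) x = padicValRat (q j) y) → x = y := by
  classical
  obtain ⟨R, q, hq, hq2⟩ := exists_primes P hpos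
  refine ⟨R, q, hq, fun x hx y hy h => ?_⟩
  have h1 := (hq2 1).2
  rw [pow_one] at h1
  have hx0 := (hpos x hx).ne'
  have hy0 := (hpos y hy).ne'
  refine ut_inj hx0 hy0 (h1 (Finset.mem_coe.2 (Finset.mem_image_of_mem _ hx))
    (Finset.mem_coe.2 (Finset.mem_image_of_mem _ hy)) ?_)
  funext j
  show padicValRat (q j) ((ut x : ℚˣ) : ℚ) = padicValRat (q j) ((ut y : ℚˣ) : ℚ)
  rw [ut_val hx0, ut_val hy0]
  exact h j

end Pool.Agent.Helper15.GPR
end

/- Helper24.DI.H15.GPR.Pop3 -/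
section
set_option autoImplicit false

/-!
# Project GL++ (MP_120218), Pop3: a set with many popular ratios grows, quantitative form
-/

namespace Pool.Agent.Helper15.GPR

open Finset Pool.Agent.Helper15.GLP Pool.Agent.Helper15.GPP Pool.Agent.Helper15.GPQ

theorem g_le {A : Finset ℤ} (hA : A.Nonempty) (l : ℝ) :
    Real.log (XX A l).card ≤ 2 * Real.log A.card := by
  have hA1 : (1 : ℝ) ≤ A.card := by exact_mod_cast hA.card_pos
  rcases Nat.eq_zero_or_pos (XX A l).card with h1 | h1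
  · rw [h1, Nat.cast_zero, Real.log_zero]
    have := Real.log_nonneg hA1
    linarith only [this]
  · have h2 : (0 : ℝ) < (XX A l).card := by exact_mod_cast h1
    have h3 : ((XX A l).card : ℝ) ≤ A.card * A.card := by
      exact_mod_cast card_XX_le A _
    have h4 := Real.log_le_log h2 h3
    rw [Real.log_mul (by (clear * - hA1; linarith only [hA1])) (by linarith only [hA1])] at h4
    (clear * - h4; linarith only [h4])

/-- the logarithmic form of `step` -/
theorem step_log (E X Y K l : ℝ) (hX : 0 < X) (hY : 0 < Y) (hK : 0 < K)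
    (h : Real.exp (-(4 * l)) / 4 * X ^ 2 ≤ K ^ 9 * Y) (hE : E = Real.log 4) :
    -(4 * l) - E + 2 * Real.log X ≤ 9 * Real.log K + Real.log Y := by
  have h0 : 0 < Real.exp (-(4 * l)) / 4 := by (clear * -; positivity)
  have h1 := Real.log_le_log (mul_pos h0 (pow_pos hX 2)) h
  rw [Real.log_mul h0.ne' (pow_pos hX 2).ne', Real.log_div (Real.exp_pos _).ne' (by norm_num),
    Real.log_exp, Real.log_pow, Real.log_mul (pow_pos hK 9).ne' hY.ne', Real.log_pow] at h1
  rw [hE]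
  push_cast at h1
  (clear * - h1; linarith only [h1])

theorem cube_le (g L : ℝ) (hg0 : 0 < g) (hL0 : 0 < L) (hgL : g ≤ 2 * L) :
    g ^ 3 / L ^ 2 ≤ 4 * g := by
  rw [div_le_iff₀ (by (clear * - hL0; positivity))]
  have h1 : g ^ 2 ≤ (2 * L) ^ 2 := pow_le_pow_left₀ hg0.le hgL 2
  calc g ^ 3 = g * g ^ 2 := by ring
    _ ≤ g * (2 * L) ^ 2 := mul_le_mul_of_nonneg_left h1 hg0.le
    _ = 4 * g * L ^ 2 := by ring

theorem log_four_lt : Real.log 4 < 7 / 5 := by
  have hl24 : Real.log 4 = 2 * Real.log 2 := by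
    rw [show (4 : ℝ) = 2 ^ 2 by norm_num, Real.log_pow]
    norm_num
  have := Real.log_two_lt_d9
  linarith only [hl24, this]

/-- the box at the right scale -/
theorem box_at (c c5 : ℝ) (hc0 : 0 < c) (hca : c ≤ 1 / 160) (hc50 : 0 < c5) (hc5a : c5 ≤ 1 / 18)
    (A : Finset ℤ) (l g L : ℝ) (hA : A.Nonempty) (h0 : (0 : ℤ) ∉ A) (hl : 0 ≤ l)
    (hL : L = Real.log A.card) (hL0 : 0 < L) (hg : g = Real.log (XX A l).card) (hg14 : 14 < g)
    (hc5g : 32 ≤ c5 * g) (hl1 : l + 1 ≤ c * g ^ 3 / L ^ 2)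
    (hY : Real.log (XX A (2 * l + 1)).card ≤ 13 / 10 * g) :
    ∃ (R : ℕ) (q b : Fin R → ℕ), (∀ j, (q j).Prime) ∧
      Tr ((XX A (2 * l + 1)).image (vq q)) b ∧ 1 ≤ sup b ∧
      31 ≤ Real.log ((bx b : ℕ) : ℝ) ∧ Real.log ((bx b : ℕ) : ℝ) ≤ c5 * g ∧
      c5 * g ≤ 2 * Real.log ((bx b : ℕ) : ℝ) ∧
      (sup b : ℝ) ≤ 2 * Real.log ((bx b : ℕ) : ℝ) := by
  have hg0 : 0 < g := by (clear * - hg14; linarith only [hg14])
  have hgL : g ≤ 2 * L := by
    rw [hg, hL]
    exact g_le hA l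
  have hXne : (XX A l).Nonempty := by
    rw [Finset.nonempty_iff_ne_empty]
    intro h
    rw [h, Finset.card_empty, Nat.cast_zero, Real.log_zero] at hg
    (clear * - hg hg14; linarith only [hg, hg14])
  have hXp : (0 : ℝ) < (XX A l).card := by exact_mod_cast hXne.card_pos
  have hl4 : 4 * l ≤ g / 10 := by
    have h1 : c * g ^ 3 / L ^ 2 ≤ c * (4 * g) := by
      calc c * g ^ 3 / L ^ 2 = c * (g ^ 3 / L ^ 2) := by ring
        _ ≤ c * (4 * g) := mul_le_mul_of_nonneg_left (cube_le g L hg0 hL0 hgL) hc0.le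
    have h2 : c * (4 * g) ≤ 1 / 160 * (4 * g) := mul_le_mul_of_nonneg_right hca (by (clear * - hg14; positivity))
    (clear * - hl1 h1 h2; linarith only [hl1, h1, h2])
  obtain ⟨R, q, hq, hinj⟩ := exists_vq (XX A (2 * l + 1)) (fun s hs => by
    rw [mem_XX hA h0] at hs
    exact hs.1)
  obtain ⟨b', hb', hstep⟩ := step hA h0 l hl q hq hinj hXne
  have hb'p : (0 : ℝ) < ((bx b' : ℕ) : ℝ) := by exact_mod_cast bx_pos b'
  have hYp : (0 : ℝ) < (XX A (2 * l + 1)).card := by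
    exact_mod_cast (hXne.mono (XX_mono hA h0 (by (clear * - hl; linarith only [hl])))).card_pos
  have hK : g / 18 ≤ Real.log ((bx b' : ℕ) : ℝ) := by
    have h1 := step_log _ _ _ _ l hXp hYp hb'p hstep rfl
    rw [← hg] at h1
    have := log_four_lt
    (clear * - hg14 hY hl4 h1 this; linarith only [hg14, hY, hl4, h1, this])
  obtain ⟨T, hT⟩ : ∃ T : ℕ, T = ⌊Real.exp (c5 * g)⌋₊ := ⟨_, rfl⟩
  have hTc : (T : ℝ) ≤ Real.exp (c5 * g) := by
    rw [hT]
    exact Nat.floor_le (Real.exp_pos _).le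
  have hTlt : Real.exp (c5 * g) < T + 1 := by
    rw [hT]
    exact Nat.lt_floor_add_one _
  have hT1 : 1 ≤ T := by
    rw [hT]
    refine Nat.le_floor ?_
    rw [Nat.cast_one, ← Real.exp_zero]
    exact Real.exp_le_exp.2 (by (clear * - hc50 hg14; positivity))
  have hTb : T ≤ bx b' := by
    have h1 : (T : ℝ) ≤ ((bx b' : ℕ) : ℝ) := by
      refine hTc.trans ?_
      rw [← Real.exp_log hb'p]
      refine Real.exp_le_exp.2 (le_trans ?_ hK)
      have := mul_le_mul_of_nonneg_right hc5a hg0.le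
      linarith only [this]
    exact_mod_cast h1
  obtain ⟨b, hbb', hbT, hb2⟩ := exists_sub_box T hT1 _ b' rfl hTb
  have hbp : (0 : ℝ) < ((bx b : ℕ) : ℝ) := by exact_mod_cast bx_pos b
  obtain ⟨β, hβ⟩ : ∃ β : ℝ, β = Real.log ((bx b : ℕ) : ℝ) := ⟨_, rfl⟩
  have hβ1 : β ≤ c5 * g := by
    rw [hβ, Real.log_le_iff_le_exp hbp]
    exact le_trans (by exact_mod_cast hbT) hTc
  have hlog2 := Real.log_two_lt_d9
  have hlog2' := Real.log_two_gt_d9
  have hβ2 : c5 * g ≤ Real.log 2 + β := by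
    have h1 : Real.exp (c5 * g) ≤ 2 * ((bx b : ℕ) : ℝ) := by
      have h2 : ((T + 1 : ℕ) : ℝ) ≤ ((2 * bx b : ℕ) : ℝ) := by exact_mod_cast hb2
      push_cast at h2
      linarith only [hTlt, h2]
    have h2 := Real.log_le_log (Real.exp_pos _) h1
    rw [Real.log_exp, Real.log_mul (by norm_num) hbp.ne', ← hβ] at h2
    exact h2
  refine ⟨R, q, b, hq, (osh_tr R _ b' hb').mono hbb', ?_, ?_, ?_, ?_, ?_⟩
  · by_contra hcon
    have h1 : sup b = 0 := by omega
    have h2 := bx_eq_one b h1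
    rw [h2, Nat.cast_one, Real.log_one] at hβ
    (clear * - hc5g hβ hlog2 hβ2; linarith only [hc5g, hβ, hlog2, hβ2])
  · rw [← hβ]
    linarith only [hc5g, hlog2, hβ2]
  · rw [← hβ]
    exact hβ1
  · rw [← hβ]
    (clear * - hc5g hlog2 hβ2; linarith only [hc5g, hlog2, hβ2])
  · have h1 : ((2 ^ sup b : ℕ) : ℝ) ≤ ((bx b : ℕ) : ℝ) := by exact_mod_cast two_pow_le_bx b
    push_cast at h1
    have h2 := Real.log_le_log (by positivity) h1
    rw [Real.log_pow] at h2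
    have h3 : (0 : ℝ) ≤ sup b := Nat.cast_nonneg _
    (clear * - h2 hlog2'; nlinarith only [hlog2', h2])

/-- many popular ratios with few primes -/
theorem contra (η B : ℝ) (hη : 0 < η) (hη1 : η ≤ 1) (hB : 0 ≤ B) :
    ∃ C2 c2 N2 : ℝ, 0 < C2 ∧ 0 < c2 ∧ c2 ≤ 1 ∧ 0 < N2 ∧ ∀ (A : Finset ℤ) (L M κ : ℝ) (r : ℕ)
      (pr : Fin r → ℕ) (Q : Finset ℚ), A.Nonempty → (0 : ℤ) ∉ A → L = Real.log A.card →
      N2 ≤ A.card → 1 ≤ r → (r : ℝ) ≤ c2 * L → (∀ i, (pr i).Prime) → (∀ x ∈ Q, 0 < x) →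
      (∀ x ∈ Q, Real.exp (-κ) / 2 * A.card ≤ ww A x) →
      (∀ x ∈ Q, ∀ y ∈ Q, (∀ i, padicValRat (pr i) x = padicValRat (pr i) y) → x = y) →
      M = (C2 * L / r) ^ r → 0 < M → 4 * M * Real.exp κ < Q.card →
      Real.log 4 + Real.log M + κ ≤ c2 * L / 2 → 16 ≤ c2 * L → κ + Real.log 4 ≤ c2 * L →
      GrowsB η B A := by
  classical
  obtain ⟨C2, c2, N2, hC2, hc2, hc21, hN2, hgrow⟩ := grow_sepU η B hη hη1 hB
  refine ⟨C2, c2, N2, hC2, hc2, hc21, hN2, ?_⟩
  intro A L M κ r pr Q hA h0 hL hAN hr1 hrc2 hpr hQ0 hQpop hQsep hM hM0 hQbig hsmall h16 hκ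
  have hA0 : (0 : ℝ) < A.card := by exact_mod_cast hA.card_pos
  have hNL : (A.card : ℝ) = Real.exp L := by rw [hL, Real.exp_log hA0]
  obtain ⟨T2, hT2⟩ : ∃ T2 : ℕ, T2 = ⌊Real.exp (c2 * L)⌋₊ := ⟨_, rfl⟩
  have hT2c : (T2 : ℝ) ≤ Real.exp (c2 * L) := by
    rw [hT2]
    exact Nat.floor_le (Real.exp_pos _).le
  have hT2big : 4 * M * Real.exp κ < T2 := by
    have h1 : Real.exp (c2 * L) < T2 + 1 := by
      rw [hT2]
      exact Nat.lt_floor_add_one _
    have h2 : 4 * M * Real.exp κ ≤ Real.exp (c2 * L / 2) := by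
      have h3 : 4 * M * Real.exp κ = Real.exp (Real.log 4 + Real.log M + κ) := by
        rw [Real.exp_add, Real.exp_add, Real.exp_log (by norm_num), Real.exp_log hM0]
      rw [h3]
      exact Real.exp_le_exp.2 hsmall
    have h3 : Real.exp (c2 * L) = Real.exp (c2 * L / 2) * Real.exp (c2 * L / 2) := by
      rw [← Real.exp_add]
      congr 1
      ring
    have h4 := Real.add_one_le_exp (c2 * L / 2)
    have h5 : 2 * Real.exp (c2 * L / 2) ≤ Real.exp (c2 * L / 2) * Real.exp (c2 * L / 2) :=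
      mul_le_mul_of_nonneg_right (by (clear * - h16 h4; linarith only [h16, h4])) (Real.exp_pos _).le
    linarith only [h16, h1, h2, h3, h4, h5]
  -- the small set
  obtain ⟨Q', hQ'Q, hQ'c⟩ := Finset.exists_subset_card_eq (s := Q) (n := min Q.card T2)
    (min_le_left _ _)
  have hQ'big : 4 * M * Real.exp κ < Q'.card := by
    rw [hQ'c, Nat.cast_min]
    exact lt_min hQbig hT2big
  have hQ'T : (Q'.card : ℝ) ≤ T2 := by
    rw [hQ'c, Nat.cast_min]
    exact min_le_right _ _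
  by_contra hG
  have hpow : ∀ x : ℝ, (A.card : ℝ) ^ x = Real.exp (x * L) := by
    intro x
    rw [Real.rpow_def_of_pos hA0, hL, mul_comm]
  have hnorich : ∀ Z : Finset ℚ, (∀ z ∈ Z, M < ((rich A (Q'.image (fun s => s⁻¹)) z).card : ℝ)) →
      (Z.card : ℝ) ≤ (A.card : ℝ) ^ (1 - c2) := by
    intro Z hZ
    by_contra hcon
    rw [not_le] at hcon
    refine hG (hgrow A r pr (Q'.image (fun s => s⁻¹)) Z hAN hr1 ?_ hpr ?_ ?_ ?_ hcon ?_)
    · rw [← hL]
      exact hrc2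
    · intro s hs
      obtain ⟨t, ht, rfl⟩ := Finset.mem_image.1 hs
      exact inv_pos.2 (hQ0 t (hQ'Q ht))
    · intro s hs t ht hst
      obtain ⟨s', hs', rfl⟩ := Finset.mem_image.1 hs
      obtain ⟨t', ht', rfl⟩ := Finset.mem_image.1 ht
      rw [hQsep s' (hQ'Q hs') t' (hQ'Q ht') fun i => ?_]
      have := Fact.mk (hpr i)
      have h1 := hst i
      rw [padicValRat.inv, padicValRat.inv] at h1
      (clear * - h1; linarith only [h1])
    · have h1 : ((Q'.image (fun s => s⁻¹)).card : ℝ) ≤ Q'.card := by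
        exact_mod_cast Finset.card_image_le
      rw [hpow]
      exact h1.trans (hQ'T.trans hT2c)
    · intro z hz
      rw [← hL, ← hM]
      exact hZ z hz
  have hfin := pop_bound h0 Q' (fun x hx => hQ0 x (hQ'Q hx)) (Real.exp (-κ) / 2) M
    ((A.card : ℝ) ^ (1 - c2)) hM0.le (fun x hx => hQpop x (hQ'Q hx)) hnorich
  have hsm : (A.card : ℝ) ^ (1 - c2) ≤ A.card * (Real.exp (-κ) / 4) := by
    rw [hpow]
    have h1 : Real.exp (-κ) / 4 = Real.exp (-κ - Real.log 4) := by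
      rw [Real.exp_sub, Real.exp_log (by norm_num)]
    rw [h1, hNL, ← Real.exp_add]
    refine Real.exp_le_exp.2 ?_
    linarith only [hκ]
  have h1 : (A.card : ℝ) ^ (1 - c2) * Q'.card ≤ A.card * (Real.exp (-κ) / 4) * Q'.card :=
    mul_le_mul_of_nonneg_right hsm (Nat.cast_nonneg _)
  have h2 : (A.card : ℝ) * (Real.exp (-κ) / 4 * Q'.card) ≤ A.card * M := by
    have e1 : Real.exp (-κ) / 2 * A.card * Q'.card =
      2 * ((A.card : ℝ) * (Real.exp (-κ) / 4 * Q'.card)) := by ring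
    have e2 : (A.card : ℝ) * (Real.exp (-κ) / 4) * Q'.card =
      (A.card : ℝ) * (Real.exp (-κ) / 4 * Q'.card) := by ring
    rw [e1] at hfin
    rw [e2] at h1
    (clear * - hfin h1; linarith only [hfin, h1])
  have h3 := le_of_mul_le_mul_left h2 hA0
  have h4 : (Q'.card : ℝ) ≤ 4 * M * Real.exp κ := by
    have h5 : Real.exp (-κ) * Real.exp κ = 1 := by
      rw [← Real.exp_add, neg_add_cancel, Real.exp_zero]
    calc (Q'.card : ℝ) = 4 * (Real.exp (-κ) / 4 * Q'.card) * Real.exp κ := by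
          have : 4 * (Real.exp (-κ) / 4 * Q'.card) * Real.exp κ =
            (Real.exp (-κ) * Real.exp κ) * Q'.card := by ring
          rw [this, h5, one_mul]
      _ ≤ 4 * M * Real.exp κ := by (clear * - h3; gcongr)
  (clear * - hQ'big h4; linarith only [hQ'big, h4])

/-- the size of `Q` -/
theorem q_big (M C2 L β κ bb q : ℝ) (r J : ℕ) (hC2 : 0 < C2) (hL : 0 < L) (hr : 1 ≤ r)
    (hM : M = (C2 * L / r) ^ r) (hbb : bb = Real.exp β) (hβ : 31 ≤ β) (hκ : κ ≤ β / 16)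
    (hJ : C2 * L / r * Real.exp (-(β / (2 * r))) ≤ 2 ^ J / 52)
    (hq : Real.exp (-κ) / 2 * (2 ^ J / 52) ^ r * bb ≤ q) : 4 * M * Real.exp κ < q := by
  have hr0 : (0 : ℝ) < r := by exact_mod_cast hr
  have hM0 : 0 < M := by rw [hM]; (clear * - hC2 hL hr; positivity)
  have h1 : M * Real.exp (-(β / 2)) ≤ (2 ^ J / 52) ^ r := by
    have h2 : M * Real.exp (-(β / 2)) =
        (C2 * L / r * Real.exp (-(β / (2 * r)))) ^ r := by
      rw [mul_pow, ← hM, ← Real.exp_nat_mul]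
      congr 2
      (clear * - hr hβ; field_simp)
    rw [h2]
    exact pow_le_pow_left₀ (by (clear * - hC2 hL hr; positivity)) hJ _
  have h3 : Real.exp (-κ) / 2 * (M * Real.exp (-(β / 2))) * Real.exp β ≤ q := by
    refine le_trans ?_ hq
    rw [hbb]
    (clear * - h1; gcongr)
  have h4 : Real.exp (-κ) / 2 * (M * Real.exp (-(β / 2))) * Real.exp β =
      M / 2 * (Real.exp (β / 2 - 2 * κ) * Real.exp κ) := by
    have e1 : Real.exp (β / 2 - 2 * κ) * Real.exp κ =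
        Real.exp (-κ) * Real.exp (-(β / 2)) * Real.exp β := by
      rw [← Real.exp_add, ← Real.exp_add, ← Real.exp_add]
      congr 1
      ring
    rw [e1]
    ring
  rw [h4] at h3
  have h5 : 8 < Real.exp (β / 2 - 2 * κ) := by
    have := Real.add_one_le_exp (β / 2 - 2 * κ)
    linarith only [hβ, hκ, this]
  refine lt_of_lt_of_le ?_ h3
  have h6 : 8 * Real.exp κ < Real.exp (β / 2 - 2 * κ) * Real.exp κ :=
    mul_lt_mul_of_pos_right h5 (Real.exp_pos _)
  have h7 : M / 2 * (8 * Real.exp κ) < M / 2 * (Real.exp (β / 2 - 2 * κ) * Real.exp κ) :=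
    mul_lt_mul_of_pos_left h6 (by (clear * - hM0; positivity))
  linarith only [h7]

/-- the logarithm of `M` -/
theorem log_M (M C2 L l1 c2 c5 : ℝ) (r : ℕ) (hC2 : 0 < C2) (hL : 0 < L) (hr : 1 ≤ r)
    (hM : M = (C2 * L / r) ^ r) (hl10 : 0 < l1) (hlog : 0 ≤ Real.log (1 / l1))
    (hl1C : l1 * C2 ≤ c2 / 32) (hc5c : 4 * c5 * Real.log (1 / l1) ≤ c2 / 16)
    (hrL : (r : ℝ) ≤ 4 * c5 * L) : Real.log M ≤ 3 * c2 * L / 32 := by
  have hr0 : (0 : ℝ) < r := by exact_mod_cast hr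
  rw [hM, Real.log_pow]
  have h1 := log_le_lin l1 (C2 * L / r) hl10 (by (clear * - hC2 hL hr; positivity))
  have h2 := mul_le_mul_of_nonneg_left h1 hr0.le
  have h3 : (r : ℝ) * (l1 * (C2 * L / r) + Real.log (1 / l1)) =
      l1 * C2 * L + r * Real.log (1 / l1) := by
    (clear * - hr hl10 hC2 hL hlog; field_simp)
  rw [h3] at h2
  have h4 : l1 * C2 * L ≤ c2 / 32 * L := mul_le_mul_of_nonneg_right hl1C hL.le
  have h5 : r * Real.log (1 / l1) ≤ c2 / 16 * L := by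
    calc r * Real.log (1 / l1) ≤ (4 * c5 * L) * Real.log (1 / l1) :=
          mul_le_mul_of_nonneg_right hrL hlog
      _ = (4 * c5 * Real.log (1 / l1)) * L := by ring
      _ ≤ c2 / 16 * L := mul_le_mul_of_nonneg_right hc5c hL.le
  linarith only [h2, h4, h5]

/-- the length of the walk -/
theorem cost (c c5 C6 g L l β : ℝ) (hc0 : 0 < c) (hg0 : 0 < g) (hL0 : 0 < L) (hc50 : 0 < c5)
    (hC60 : 0 < C6) (hcb : c * C6 ≤ c5 ^ 3 / 512) (hl1 : l + 1 ≤ c * g ^ 3 / L ^ 2)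
    (hβ : c5 * g ≤ 2 * β) : 2 * (2 * l + 1) * C6 * L ^ 2 ≤ β ^ 3 / 16 := by
  have h1 : 2 * (2 * l + 1) ≤ 4 * (c * g ^ 3 / L ^ 2) := by (clear * - hl1; linarith only [hl1])
  calc 2 * (2 * l + 1) * C6 * L ^ 2 ≤ 4 * (c * g ^ 3 / L ^ 2) * C6 * L ^ 2 := by (clear * - h1 hC60 hL0; gcongr)
    _ = 4 * (c * C6) * g ^ 3 := by
        field_simp
    _ ≤ 4 * (c5 ^ 3 / 512) * g ^ 3 := by gcongr
    _ = (c5 * g) ^ 3 / 128 := by ring
    _ ≤ (2 * β) ^ 3 / 128 := by (clear * - hc50 hg0 hβ; gcongr)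
    _ = β ^ 3 / 16 := by ring

end Pool.Agent.Helper15.GPR
end

/- Helper24.DI.H15.GPR.Pop4 -/
section
set_option autoImplicit false

/-!
# Project GL++ (MP_120218), Pop4: a set with many popular ratios grows
-/

namespace Pool.Agent.Helper15.GPR

open Finset Pool.Agent.Helper15.GLP Pool.Agent.Helper15.GPP Pool.Agent.Helper15.GPQ

/-- at the right scale -/
theorem at_scale (η B : ℝ) (hη : 0 < η) (hη1 : η ≤ 1) (hB : 0 ≤ B) :
    ∃ c U0 : ℝ, 0 < c ∧ 1 ≤ U0 ∧ ∀ (A : Finset ℤ) (l g L : ℝ), A.Nonempty → (0 : ℤ) ∉ A → 0 ≤ l →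
      L = Real.log A.card → g = Real.log (XX A l).card → U0 ≤ g →
      l + 1 ≤ c * g ^ 3 / L ^ 2 →
      Real.log (XX A (2 * l + 1)).card ≤ 13 / 10 * g → GrowsB η B A := by
  obtain ⟨C2, c2, N2, hC2, hc2, hc21, hN2, hcontra⟩ := contra η B hη hη1 hB
  obtain ⟨l1, hl1⟩ : ∃ l1 : ℝ, l1 = min 1 (c2 / (32 * C2)) := ⟨_, rfl⟩
  have hl10 : 0 < l1 := by rw [hl1]; exact lt_min one_pos (by (clear * - hc2 hC2; positivity))
  have hl11 : l1 ≤ 1 := by rw [hl1]; exact min_le_left _ _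
  have hl1C : l1 * C2 ≤ c2 / 32 := by
    have h1 : l1 ≤ c2 / (32 * C2) := by rw [hl1]; exact min_le_right _ _
    calc l1 * C2 ≤ c2 / (32 * C2) * C2 := mul_le_mul_of_nonneg_right h1 hC2.le
      _ = c2 / 32 := by field_simp
  have hlog : 0 ≤ Real.log (1 / l1) := by
    apply Real.log_nonneg
    rw [le_div_iff₀ hl10]
    (clear * - hl11; linarith only [hl11])
  obtain ⟨c5, hc5⟩ : ∃ c5 : ℝ, c5 = min (1 / 18) (min (c2 / 4)
    (c2 / (64 * (1 + Real.log (1 / l1))))) := ⟨_, rfl⟩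
  have hc50 : 0 < c5 := by
    rw [hc5]
    exact lt_min (by norm_num) (lt_min (by positivity) (by (clear * - hc2 hlog; positivity)))
  have hc5a : c5 ≤ 1 / 18 := by rw [hc5]; exact min_le_left _ _
  have hc5b : c5 ≤ c2 / 4 := by rw [hc5]; exact (min_le_right _ _).trans (min_le_left _ _)
  have hc5c : 4 * c5 * Real.log (1 / l1) ≤ c2 / 16 := by
    have h1 : c5 ≤ c2 / (64 * (1 + Real.log (1 / l1))) := by
      rw [hc5]
      exact (min_le_right _ _).trans (min_le_right _ _)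
    calc 4 * c5 * Real.log (1 / l1) ≤ 4 * c5 * (1 + Real.log (1 / l1)) :=
          mul_le_mul_of_nonneg_left (by (clear * -; linarith only [])) (by (clear * - hc50; positivity))
      _ ≤ 4 * (c2 / (64 * (1 + Real.log (1 / l1)))) * (1 + Real.log (1 / l1)) := by gcongr
      _ = c2 / 16 := by
          field_simp
          ring
  obtain ⟨C6, hC6⟩ : ∃ C6 : ℝ, C6 = 1 + 4 * (52 * C2) ^ 2 := ⟨_, rfl⟩
  have hC60 : 0 < C6 := by rw [hC6]; (clear * - hC2; positivity)
  obtain ⟨c, hc⟩ : ∃ c : ℝ, c = min (1 / 160) (c5 ^ 3 / (512 * C6)) := ⟨_, rfl⟩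
  have hc0 : 0 < c := by rw [hc]; exact lt_min (by norm_num) (by (clear * - hc50 hC60; positivity))
  have hca : c ≤ 1 / 160 := by rw [hc]; exact min_le_left _ _
  have hcb : c * C6 ≤ c5 ^ 3 / 512 := by
    have h1 : c ≤ c5 ^ 3 / (512 * C6) := by rw [hc]; exact min_le_right _ _
    calc c * C6 ≤ c5 ^ 3 / (512 * C6) * C6 := mul_le_mul_of_nonneg_right h1 hC60.le
      _ = c5 ^ 3 / 512 := by (clear * - hC60 hc50; field_simp)
  have q1 : 0 < 32 / c5 := by positivity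
  have q2 : 0 ≤ Real.log (1 + N2) := Real.log_nonneg (by (clear * - hN2; linarith only [hN2]))
  have q3 : 0 < 32 / c2 := by positivity
  refine ⟨c, 15 + 32 / c5 + 2 * Real.log (1 + N2) + 32 / c2, hc0,
    by linarith only [q1, q2, q3], ?_⟩
  intro A l g L hA h0 hl hL hg hU hl1' hY
  have hA0 : (0 : ℝ) < A.card := by exact_mod_cast hA.card_pos
  have hg14 : 14 < g := by linarith only [q1, q2, q3, hU]
  have hg0 : 0 < g := by linarith only [hg14]
  have hgL : g ≤ 2 * L := by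
    rw [hg, hL]
    exact g_le hA l
  have hL0 : 0 < L := by linarith only [hg0, hgL]
  have hc5g : 32 ≤ c5 * g := by
    have h1 : 32 / c5 ≤ g := by linarith only [q2, q3, hU]
    rw [div_le_iff₀ hc50] at h1
    linarith only [h1]
  have hc2L : 16 ≤ c2 * L := by
    have h1 : 32 / c2 ≤ 2 * L := by linarith only [q1, q2, hU, hgL]
    rw [div_le_iff₀ hc2] at h1
    linarith only [h1]
  have hAN : N2 ≤ A.card := by
    have h1 : Real.log (1 + N2) ≤ Real.log A.card := by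
      rw [← hL]
      linarith only [q1, q3, hU, hgL]
    have h2 := (Real.log_le_log_iff (by linarith only [hN2]) hA0).1 h1
    linarith only [h2]
  obtain ⟨R, q, b, hq, hTr, hr1, hβ31, hβ1, hβ2, hr2⟩ := box_at c c5 hc0 hca hc50 hc5a A l g L hA h0
    hl hL hL0 hg hg14 hc5g hl1' hY
  obtain ⟨β, hβ⟩ : ∃ β : ℝ, β = Real.log ((bx b : ℕ) : ℝ) := ⟨_, rfl⟩
  rw [← hβ] at hβ31 hβ1 hβ2 hr2
  have hbp : (0 : ℝ) < ((bx b : ℕ) : ℝ) := by exact_mod_cast bx_pos b
  have hbb : ((bx b : ℕ) : ℝ) = Real.exp β := by rw [hβ, Real.exp_log hbp]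
  have hβL : β ≤ L := by
    have h1 : c5 * g ≤ 1 / 18 * g := mul_le_mul_of_nonneg_right hc5a hg0.le
    linarith only [h1, hβ1, hgL, hg0]
  have hr0 : (0 : ℝ) < sup b := by exact_mod_cast hr1
  have hc5L : c5 * g ≤ 2 * c5 * L := by
    have h1 : c5 * g ≤ c5 * (2 * L) := mul_le_mul_of_nonneg_left hgL hc50.le
    linarith only [h1]
  have hrL : (sup b : ℝ) ≤ 4 * c5 * L := by linarith only [hr2, hβ1, hc5L]
  have hc5c2 : c5 * L ≤ c2 / 4 * L := mul_le_mul_of_nonneg_right hc5b hL0.le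
  have hrc2 : (sup b : ℝ) ≤ c2 * L := by linarith only [hrL, hc5c2]
  obtain ⟨J, hJ1, hJ2⟩ := choose_J C2 L β (sup b) (2 * (2 * l + 1)) hC2 hL0
    (by linarith only [hβ31]) hβL hr0 (by (clear * - hl; positivity)) (by
      rw [← hC6]
      exact cost c c5 C6 g L l β hc0 hg0 hL0 hc50 hC60 hcb hl1' hβ2)
  obtain ⟨κ, hκ⟩ : ∃ κ : ℝ, κ = 2 * (2 * l + 1) * 4 ^ J := ⟨_, rfl⟩
  rw [← hκ] at hJ2
  obtain ⟨Q, hQ0, hQpop, hQsep, hQc⟩ := extract A hA q hq (XX A (2 * l + 1)) (fun s hs => by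
    rw [mem_XX hA h0] at hs
    exact hs.1) (2 * l + 1) (fun s hs => by
    rw [mem_XX hA h0] at hs
    exact hs.2) b hTr J
  rw [← hκ] at hQpop hQc
  obtain ⟨M, hM⟩ : ∃ M : ℝ, M = (C2 * L / sup b) ^ sup b := ⟨_, rfl⟩
  have hM0 : 0 < M := by rw [hM]; (clear * - hC2 hL0 hr1; positivity)
  have hMlog := log_M M C2 L l1 c2 c5 (sup b) hC2 hL0 hr1 hM hl10 hlog hl1C hc5c hrL
  have hκL : κ ≤ c2 * L / 32 := by linarith only [hJ2, hβ1, hc5L, hc5c2]
  have hQbig := q_big M C2 L β κ _ _ (sup b) J hC2 hL0 hr1 hM hbb hβ31 hJ2 hJ1 hQc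
  have hl4 := log_four_lt
  obtain ⟨J0, hJ0⟩ : ∃ J0 : Finset (Fin R), J0 = Finset.univ.filter (fun j => b j ≠ 0) := ⟨_, rfl⟩
  have hJ0c : J0.card = sup b := by rw [hJ0]; rfl
  refine hcontra A L M κ (sup b) (fun i => q (J0.orderEmbOfFin hJ0c i)) Q hA h0 hL hAN hr1 hrc2
    (fun i => hq _) hQ0 hQpop ?_ hM hM0 hQbig ?_ hc2L ?_
  · intro x hx y hy hxy
    refine hQsep x hx y hy fun j hj => ?_
    have h1 : j ∈ Set.range (J0.orderEmbOfFin hJ0c) := by
      rw [Finset.range_orderEmbOfFin, hJ0]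
      exact Finset.mem_coe.2 (Finset.mem_filter.2 ⟨Finset.mem_univ j, hj⟩)
    obtain ⟨i, rfl⟩ := h1
    exact hxy i
  · linarith only [hl4, hMlog, hκL, hc2L]
  · linarith only [hl4, hκL, hc2L]

/-- **A set with many popular ratios grows.** -/
theorem popular3 (η B : ℝ) (hη : 0 < η) (hη1 : η ≤ 1) (hB : 0 ≤ B) :
    ∃ c U0 : ℝ, 0 < c ∧ 1 ≤ U0 ∧ ∀ (A : Finset ℤ) (l : ℝ), A.Nonempty → (0 : ℤ) ∉ A → 0 ≤ l →
      U0 ≤ Real.log (XX A l).card →
      l + 1 ≤ c * Real.log (XX A l).card ^ 3 / Real.log A.card ^ 2 → GrowsB η B A := by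
  obtain ⟨c, U0, hc0, hU0, h⟩ := at_scale η B hη hη1 hB
  refine ⟨c, U0, hc0, hU0, ?_⟩
  intro A l hA h0 hl hU hl1
  obtain ⟨L, hL⟩ : ∃ L : ℝ, L = Real.log A.card := ⟨_, rfl⟩
  obtain ⟨g, hg⟩ : ∃ g : ℝ, g = Real.log (XX A l).card := ⟨_, rfl⟩
  rw [← hg] at hU hl1
  rw [← hL] at hl1
  have hg0 : 0 < g := by (clear * - hU0 hU; linarith only [hU0, hU])
  obtain ⟨f, hf⟩ : ∃ f : ℕ → ℝ, f = fun i => Real.log (XX A (2 ^ i * (l + 1) - 1)).card := ⟨_, rfl⟩
  have hB : ∀ i, f i ≤ 2 * L := by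
    intro i
    rw [hf, hL]
    exact g_le hA _
  obtain ⟨I, hI1, hI2⟩ := select f g (2 * L) hg0 (by
    rw [hf, hg]
    show Real.log (XX A (2 ^ 0 * (l + 1) - 1)).card = _
    have : (2 : ℝ) ^ 0 * (l + 1) - 1 = l := by ring
    rw [this]) hB
  have e1 : (2 : ℝ) ^ (I + 1) * (l + 1) - 1 = 2 * (2 ^ I * (l + 1) - 1) + 1 := by ring
  have hone : (1 : ℝ) ≤ 2 ^ I := one_le_pow₀ (by norm_num)
  have hone' : (1 : ℝ) ≤ (13 / 10) ^ I := one_le_pow₀ (by norm_num)
  refine h A (2 ^ I * (l + 1) - 1) (f I) L hA h0 (by (clear * - hl hone; nlinarith only [hl, hone])) hL (by rw [hf]) ?_ ?_ ?_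
  · have : g ≤ (13 / 10) ^ I * g := le_mul_of_one_le_left hg0.le hone'
    linarith only [hU, hI2, this]
  · rw [sub_add_cancel]
    have h1 : 2 ^ I * g ^ 3 ≤ f I ^ 3 := by
      have h2 : ((13 / 10 : ℝ) ^ I * g) ^ 3 ≤ f I ^ 3 := pow_le_pow_left₀ (by (clear * - hg0; positivity)) hI2 3
      have h3 : (2 : ℝ) ^ I ≤ ((13 / 10) ^ I) ^ 3 := by
        rw [← pow_mul, mul_comm I 3, pow_mul]
        exact pow_le_pow_left₀ (by norm_num) (by norm_num) I
      calc 2 ^ I * g ^ 3 ≤ ((13 / 10) ^ I) ^ 3 * g ^ 3 :=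
            mul_le_mul_of_nonneg_right h3 (by positivity)
        _ = ((13 / 10 : ℝ) ^ I * g) ^ 3 := by ring
        _ ≤ f I ^ 3 := h2
    calc 2 ^ I * (l + 1) ≤ 2 ^ I * (c * g ^ 3 / L ^ 2) :=
          mul_le_mul_of_nonneg_left hl1 (by positivity)
      _ = c * (2 ^ I * g ^ 3) / L ^ 2 := by ring
      _ ≤ c * f I ^ 3 / L ^ 2 := by (clear * - h1 hc0; gcongr)
  · rw [← e1]
    have h1 : f (I + 1) = Real.log (XX A (2 ^ (I + 1) * (l + 1) - 1)).card := by rw [hf]
    rw [← h1]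
    exact hI1

end Pool.Agent.Helper15.GPR
end

/- Helper24.DI.H15.GPR.Inc3 -/
section
set_option autoImplicit false

/-!
# Project GL++ (MP_120218), Inc3: coincidences `a s = b` for any number of dilations
-/

namespace Pool.Agent.Helper15.GPR

open Finset Pool.Agent.Helper15.GPQ

/-- many coincidences give many popular ratios -/
theorem pop_from_inc (A : Finset ℤ) (hA : A.Nonempty) (h0 : (0 : ℤ) ∉ A) (P D : Finset ℚ)
    (hP : ∀ s ∈ P, 0 < s) (N p l : ℝ) (hN : (A.card : ℝ) ≤ N) (hp0 : 0 < p)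
    (hp : (P.card : ℝ) ≤ p) (hD : (D.card : ℝ) ≤ N * Real.exp l)
    (h : 4 * (N * p * Real.exp (-l)) ≤ ∑ s ∈ P, ((inc A D s).card : ℝ)) :
    p * Real.exp (-(3 * l)) ≤ (XX A (3 * l)).card := by
  classical
  have hA0 : (0 : ℝ) < A.card := by exact_mod_cast hA.card_pos
  have hN0 : 0 < N := by (clear * - hN hA0; linarith only [hN, hA0])
  have hcs := cs A D P (fun s => s) (fun s hs => (hP s hs).ne')
  obtain ⟨S, hS⟩ : ∃ S : ℝ, S = ∑ s ∈ P, ∑ t ∈ P, (ww A (s / t) : ℝ) := ⟨_, rfl⟩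
  have hS0 : 0 ≤ S := by
    rw [hS]
    exact Finset.sum_nonneg fun _ _ => Finset.sum_nonneg fun _ _ => Nat.cast_nonneg _
  have hcs' : (∑ s ∈ P, ((inc A D s).card : ℝ)) ^ 2 ≤ D.card * S := by
    rw [hS]
    exact_mod_cast hcs
  have h1 : N * Real.exp l * (16 * (N * p ^ 2 * Real.exp (-(3 * l)))) ≤ N * Real.exp l * S := by
    calc N * Real.exp l * (16 * (N * p ^ 2 * Real.exp (-(3 * l)))) =
        (4 * (N * p * Real.exp (-l))) ^ 2 := by
          have e1 : Real.exp l * Real.exp (-(3 * l)) = Real.exp (-l) ^ 2 := by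
            rw [← Real.exp_add, ← Real.exp_nat_mul]
            congr 1
            push_cast
            ring
          calc N * Real.exp l * (16 * (N * p ^ 2 * Real.exp (-(3 * l)))) =
              16 * N ^ 2 * p ^ 2 * (Real.exp l * Real.exp (-(3 * l))) := by ring
            _ = _ := by rw [e1]; ring
      _ ≤ (∑ s ∈ P, ((inc A D s).card : ℝ)) ^ 2 := pow_le_pow_left₀ (by (clear * - hN0 hp0; positivity)) h 2
      _ ≤ D.card * S := hcs'
      _ ≤ N * Real.exp l * S := mul_le_mul_of_nonneg_right hD hS0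
  have h2 : 16 * (N * p ^ 2 * Real.exp (-(3 * l))) ≤ S :=
    le_of_mul_le_mul_left h1 (by positivity)
  have hPne : P.Nonempty := by
    rw [Finset.nonempty_iff_ne_empty]
    intro h3
    rw [h3, Finset.sum_empty] at hS
    have : 0 < 16 * (N * p ^ 2 * Real.exp (-(3 * l))) := by (clear * - hN0 hp0; positivity)
    linarith only [hS, h2, this]
  obtain ⟨t, ht, ht2⟩ := Finset.exists_le_of_sum_le hPne
    (f := fun _ : ℚ => 16 * (N * p * Real.exp (-(3 * l))))
    (g := fun t => ∑ s ∈ P, (ww A (s / t) : ℝ)) (by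
      rw [Finset.sum_const, nsmul_eq_mul, Finset.sum_comm, ← hS]
      refine le_trans ?_ h2
      calc (P.card : ℝ) * (16 * (N * p * Real.exp (-(3 * l)))) ≤
          p * (16 * (N * p * Real.exp (-(3 * l)))) := mul_le_mul_of_nonneg_right hp (by (clear * - hN0 hp0; positivity))
        _ = 16 * (N * p ^ 2 * Real.exp (-(3 * l))) := by ring)
  have ht2' : 16 * (N * p * Real.exp (-(3 * l))) ≤ ∑ s ∈ P, (ww A (s / t) : ℝ) := ht2
  have ht0 := hP t ht
  obtain ⟨F, hF⟩ : ∃ F : Finset ℚ, F = P.filter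
    (fun s => Real.exp (-(3 * l)) * A.card ≤ (ww A (s / t) : ℝ)) := ⟨_, rfl⟩
  have h3 : ∑ s ∈ P, (ww A (s / t) : ℝ) ≤ ∑ s ∈ P, (Real.exp (-(3 * l)) * N +
      if Real.exp (-(3 * l)) * A.card ≤ (ww A (s / t) : ℝ) then N else 0) := by
    refine Finset.sum_le_sum fun s _ => ?_
    have h5 : 0 ≤ Real.exp (-(3 * l)) * N := by positivity
    split_ifs with h4
    · have h6 : (ww A (s / t) : ℝ) ≤ A.card := by exact_mod_cast ww_le A _
      linarith only [hN, h5, h6]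
    · rw [not_le] at h4
      have h6 : Real.exp (-(3 * l)) * A.card ≤ Real.exp (-(3 * l)) * N :=
        mul_le_mul_of_nonneg_left hN (Real.exp_pos _).le
      linarith only [h4, h6]
  rw [Finset.sum_add_distrib, Finset.sum_const, nsmul_eq_mul, ← Finset.sum_filter, ← hF,
    Finset.sum_const, nsmul_eq_mul] at h3
  have h4 : (P.card : ℝ) * (Real.exp (-(3 * l)) * N) ≤ p * (Real.exp (-(3 * l)) * N) :=
    mul_le_mul_of_nonneg_right hp (by positivity)
  have h5 : (p * Real.exp (-(3 * l))) * N ≤ F.card * N := by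
    have h6 : 0 ≤ (p * Real.exp (-(3 * l))) * N := by positivity
    have e1 : 16 * (N * p * Real.exp (-(3 * l))) = 16 * ((p * Real.exp (-(3 * l))) * N) := by ring
    have e2 : p * (Real.exp (-(3 * l)) * N) = (p * Real.exp (-(3 * l))) * N := by ring
    rw [e1] at ht2'
    rw [e2] at h4
    linarith only [ht2', h3, h4, h6]
  have h6 := le_of_mul_le_mul_right h5 hN0
  refine h6.trans ?_
  have h7 : F.card ≤ (XX A (3 * l)).card := by
    refine Finset.card_le_card_of_injOn (fun s => s / t) ?_ ?_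
    · intro s hs
      have h8 := Finset.mem_coe.1 hs
      rw [hF, Finset.mem_filter] at h8
      exact Finset.mem_coe.2 ((mem_XX hA h0).2 ⟨div_pos (hP s h8.1) ht0, h8.2⟩)
    · intro s _ s' _ hss
      exact (div_left_inj' ht0.ne').1 hss
  exact_mod_cast h7

theorem count_eq (A : Finset ℤ) (P D : Finset ℚ) :
    ((A ×ˢ P).filter (fun q : ℤ × ℚ => (q.1 : ℚ) * q.2 ∈ D)).card =
      ∑ s ∈ P, (inc A D s).card := by
  rw [Finset.card_filter, Finset.sum_product_right]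
  refine Finset.sum_congr rfl fun s _ => ?_
  unfold inc
  rw [Finset.card_filter]

theorem inc_erase (A : Finset ℤ) (D : Finset ℚ) (s : ℚ) :
    (inc A D s).card ≤ (inc (A.erase 0) D s).card + 1 := by
  have h1 : inc A D s ⊆ insert 0 (inc (A.erase 0) D s) := by
    intro a ha
    rw [mem_inc] at ha
    rw [Finset.mem_insert]
    by_cases h : a = 0
    · exact Or.inl h
    · exact Or.inr (mem_inc.2 ⟨Finset.mem_erase.2 ⟨h, ha.1⟩, ha.2⟩)
  exact (Finset.card_le_card h1).trans (Finset.card_insert_le _ _)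

theorem inc_neg (A : Finset ℤ) (D : Finset ℚ) (s : ℚ) :
    inc A (D.image (fun z => -z)) (-s) = inc A D s := by
  ext a
  rw [mem_inc, mem_inc, Finset.mem_image]
  refine and_congr_right fun _ => ⟨?_, fun h => ⟨_, h, by ring⟩⟩
  rintro ⟨z, hz, hzs⟩
  have : z = (a : ℚ) * s := by linarith
  rwa [← this]

/-- positive dilations -/
theorem make_pos (A : Finset ℤ) (P D : Finset ℚ) (hP : ∀ s ∈ P, s ≠ 0) (T : ℝ)
    (h : 2 * T ≤ ∑ s ∈ P, ((inc A D s).card : ℝ)) :
    ∃ P' D' : Finset ℚ, (∀ s ∈ P', 0 < s) ∧ P'.card ≤ P.card ∧ D'.card ≤ D.card ∧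
      T ≤ ∑ s ∈ P', ((inc A D' s).card : ℝ) := by
  classical
  rw [← Finset.sum_filter_add_sum_filter_not P (fun s => 0 < s)] at h
  by_cases h1 : T ≤ ∑ s ∈ P.filter (fun s => 0 < s), ((inc A D s).card : ℝ)
  · exact ⟨_, D, fun s hs => (Finset.mem_filter.1 hs).2, Finset.card_filter_le _ _, le_rfl, h1⟩
  · rw [not_le] at h1
    refine ⟨(P.filter (fun s => ¬ 0 < s)).image (fun s => -s), D.image (fun z => -z), ?_, ?_,
      Finset.card_image_le, ?_⟩
    · intro s hs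
      obtain ⟨t, ht, rfl⟩ := Finset.mem_image.1 hs
      rw [Finset.mem_filter, not_lt] at ht
      have := lt_of_le_of_ne ht.2 (hP t ht.1)
      (clear * - this; linarith)
    · exact Finset.card_image_le.trans (Finset.card_filter_le _ _)
    · rw [Finset.sum_image (fun x _ y _ hxy => neg_injective hxy)]
      have h2 : ∑ s ∈ P.filter (fun s => ¬ 0 < s), ((inc A (D.image (fun z => -z)) (-s)).card : ℝ) =
          ∑ s ∈ P.filter (fun s => ¬ 0 < s), ((inc A D s).card : ℝ) :=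
        Finset.sum_congr rfl fun s _ => by rw [inc_neg]
      rw [h2]
      linarith only [h, h1]

/-- **Coincidences for any number of dilations.** -/
theorem grow_inc3 (η B : ℝ) (hη : 0 < η) (hη1 : η ≤ 1) (hB : 0 ≤ B) :
    ∃ c : ℝ, 0 < c ∧ c ≤ 1 ∧ ∀ (A : Finset ℤ) (P D : Finset ℚ), (∀ s ∈ P, s ≠ 0) → P.Nonempty →
      P.card ≤ A.card →
      (D.card : ℝ) ≤ A.card * Real.exp (c * Real.log P.card ^ 3 / Real.log A.card ^ 2) →
      (A.card : ℝ) * P.card < c * Real.exp (c * Real.log P.card ^ 3 / Real.log A.card ^ 2) *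
        (((A ×ˢ P).filter (fun q : ℤ × ℚ => (q.1 : ℚ) * q.2 ∈ D)).card : ℝ) →
      GrowsB η B A := by
  classical
  obtain ⟨c0, U0, hc0, hU0, hpop⟩ := popular3 (η / 2) (B + 1) (by (clear * - hη; positivity)) (by linarith only [hη1])
    (by (clear * - hB; linarith))
  have hl4 : 0 < Real.log 4 := Real.log_pos (by norm_num)
  obtain ⟨V, hV⟩ : ∃ V : ℝ, V = 2 * U0 + 2 * Real.log 4 / η + (B + 1) * Real.log 4 := ⟨_, rfl⟩
  have q1 : 0 < 2 * Real.log 4 / η := by positivity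
  have q2 : 0 ≤ (B + 1) * Real.log 4 := by (clear * - hB; positivity)
  have hV1 : 1 ≤ V := by linarith
  obtain ⟨c, hc⟩ : ∃ c : ℝ, c = min (1 / 16) (min (c0 / 32) (Real.exp (-V))) := ⟨_, rfl⟩
  have hcp : 0 < c := by
    rw [hc]
    exact lt_min (by norm_num) (lt_min (by positivity) (Real.exp_pos _))
  have hc16 : c ≤ 1 / 16 := by rw [hc]; exact min_le_left _ _
  have hcc0 : c ≤ c0 / 32 := by rw [hc]; exact (min_le_right _ _).trans (min_le_left _ _)
  have hcV : c ≤ Real.exp (-V) := by rw [hc]; exact (min_le_right _ _).trans (min_le_right _ _)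
  refine ⟨c, hcp, by linarith only [hc16], ?_⟩
  intro A P D hP0 hPne hPA hD hcount
  obtain ⟨u, hu⟩ : ∃ u : ℝ, u = Real.log P.card := ⟨_, rfl⟩
  obtain ⟨L, hL⟩ : ∃ L : ℝ, L = Real.log A.card := ⟨_, rfl⟩
  obtain ⟨l, hl⟩ : ∃ l : ℝ, l = c * u ^ 3 / L ^ 2 := ⟨_, rfl⟩
  rw [← hu, ← hL, ← hl] at hD hcount
  have hPp : (1 : ℝ) ≤ P.card := by exact_mod_cast hPne.card_pos
  have hP0' : (0 : ℝ) < P.card := by linarith only [hPp]
  have hPAR : (P.card : ℝ) ≤ A.card := by exact_mod_cast hPA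
  have hA1 : (1 : ℝ) ≤ A.card := hPp.trans hPAR
  have hA0 : (0 : ℝ) < A.card := by linarith only [hA1]
  have hu0 : 0 ≤ u := by rw [hu]; exact Real.log_nonneg hPp
  have huL : u ≤ L := by rw [hu, hL]; exact Real.log_le_log (by linarith only [hP0']) hPAR
  have hL00 : 0 ≤ L := hu0.trans huL
  obtain ⟨X, hX⟩ : ∃ X : ℝ, X = (((A ×ˢ P).filter
    (fun q : ℤ × ℚ => (q.1 : ℚ) * q.2 ∈ D)).card : ℝ) := ⟨_, rfl⟩
  rw [← hX] at hcount
  have hXle : X ≤ A.card * P.card := by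
    rw [hX]
    have h1 := Finset.card_filter_le (A ×ˢ P) (fun q : ℤ × ℚ => (q.1 : ℚ) * q.2 ∈ D)
    rw [Finset.card_product] at h1
    exact_mod_cast h1
  have hcE : 1 < c * Real.exp l := by
    have h1 : (A.card : ℝ) * P.card * 1 < A.card * P.card * (c * Real.exp l) := by
      calc (A.card : ℝ) * P.card * 1 = A.card * P.card := mul_one _
        _ < c * Real.exp l * X := hcount
        _ ≤ c * Real.exp l * (A.card * P.card) := mul_le_mul_of_nonneg_left hXle (by positivity)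
        _ = A.card * P.card * (c * Real.exp l) := by ring
    exact lt_of_mul_lt_mul_left h1 (by (clear * - hA1 hPne hX hXle hD hL hL00 hu hu0 huL hcp hc16 hcc0 hl hcount h1 hV hV1 hc hcV; positivity))
  have hVl : V < l := by
    have h1 : 1 < Real.exp (-V) * Real.exp l :=
      lt_of_lt_of_le hcE (mul_le_mul_of_nonneg_right hcV (Real.exp_pos _).le)
    rw [← Real.exp_add, ← Real.exp_zero] at h1
    have h2 := Real.exp_lt_exp.1 h1
    linarith only [h2]
  have hLp : 0 < L := by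
    rcases hL00.lt_or_eq with h | h
    · exact h
    · rw [← h] at hl
      norm_num at hl
      (clear * - hV1 hVl hl; linarith only [hV1, hVl, hl])
  have hlu : l ≤ c * u := by
    rw [hl, div_le_iff₀ (by (clear * - hLp; positivity))]
    have h1 : u ^ 2 ≤ L ^ 2 := pow_le_pow_left₀ hu0 huL 2
    calc c * u ^ 3 = c * u * u ^ 2 := by ring
      _ ≤ c * u * L ^ 2 := mul_le_mul_of_nonneg_left h1 (by (clear * - hcp hu0; positivity))
  have hlu16 : l ≤ 1 / 16 * u := hlu.trans (mul_le_mul_of_nonneg_right hc16 hu0)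
  have hl0 : 0 < l := by linarith only [hV1, hVl]
  -- without zero
  obtain ⟨A1, hA1d⟩ : ∃ A1 : Finset ℤ, A1 = A.erase 0 := ⟨_, rfl⟩
  have h0 : (0 : ℤ) ∉ A1 := by rw [hA1d]; exact Finset.notMem_erase _ _
  have hA1A : A1 ⊆ A := by rw [hA1d]; exact Finset.erase_subset _ _
  have hAc2 : 2 ≤ A.card := by
    by_contra hcon
    have h1 : A.card ≤ 1 := by omega
    have h2 : (A.card : ℝ) ≤ 1 := by exact_mod_cast h1
    have h3 : L ≤ 0 := by
      rw [hL]
      exact Real.log_nonpos hA0.le h2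
    linarith only [hLp, h3]
  have hA1c : A.card ≤ A1.card + 1 := by
    rw [hA1d]
    have := Finset.pred_card_le_card_erase (s := A) (a := (0 : ℤ))
    omega
  have hA1ne : A1.Nonempty := by
    rw [← Finset.card_pos]
    omega
  have hA1le : (A1.card : ℝ) ≤ A.card := by exact_mod_cast Finset.card_le_card hA1A
  have h4 : (A.card : ℝ) ≤ 4 * A1.card := by
    have : A.card ≤ 4 * A1.card := by omega
    exact_mod_cast this
  -- the coincidences of `A1`
  have hbig : 16 * (A.card * P.card * Real.exp (-l)) ≤ X := by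
    have h1 : (A.card : ℝ) * P.card ≤ 1 / 16 * Real.exp l * X := by
      refine hcount.le.trans ?_
      have hX0 : 0 ≤ X := by rw [hX]; exact Nat.cast_nonneg _
      (clear * - hc16 hX0; gcongr)
    have h2 : Real.exp (-l) * Real.exp l = 1 := by
      rw [← Real.exp_add, neg_add_cancel, Real.exp_zero]
    calc 16 * (A.card * P.card * Real.exp (-l)) ≤ 16 * (1 / 16 * Real.exp l * X * Real.exp (-l)) := by
          (clear * - h1; gcongr)
      _ = X * (Real.exp (-l) * Real.exp l) := by ring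
      _ = X := by rw [h2, mul_one]
  have hP1 : (P.card : ℝ) ≤ A.card * P.card * Real.exp (-l) := by
    have h1 : 1 ≤ (A.card : ℝ) * Real.exp (-l) := by
      have h2 : (A.card : ℝ) = Real.exp L := by rw [hL, Real.exp_log hA0]
      rw [h2, ← Real.exp_add, ← Real.exp_zero]
      exact Real.exp_le_exp.2 (by (clear * - huL hL00 hlu16; linarith only [huL, hL00, hlu16]))
    calc (P.card : ℝ) = 1 * P.card := (one_mul _).symm
      _ ≤ (A.card * Real.exp (-l)) * P.card := mul_le_mul_of_nonneg_right h1 hP0'.le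
      _ = _ := by ring
  have hsum : 2 * (4 * (A.card * P.card * Real.exp (-l))) ≤
      ∑ s ∈ P, ((inc A1 D s).card : ℝ) := by
    have h1 : X ≤ ∑ s ∈ P, ((inc A1 D s).card : ℝ) + P.card := by
      have h2 : ∑ s ∈ P, (inc A D s).card ≤ ∑ s ∈ P, ((inc A1 D s).card + 1) :=
        Finset.sum_le_sum fun s _ => by
          rw [hA1d]
          exact inc_erase A D s
      rw [← count_eq, Finset.sum_add_distrib, Finset.sum_const, smul_eq_mul, mul_one] at h2
      rw [hX]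
      exact_mod_cast h2
    linarith only [hbig, hP1, h1]
  obtain ⟨P', D', hP'0, hP'c, hD'c, hsum'⟩ := make_pos A1 P D hP0 _ hsum
  have hpi := pop_from_inc A1 hA1ne h0 P' D' hP'0 A.card P.card l hA1le hP0'
    (by exact_mod_cast hP'c) (le_trans (by exact_mod_cast hD'c) hD) hsum'
  obtain ⟨g, hg⟩ : ∃ g : ℝ, g = Real.log (XX A1 (3 * l)).card := ⟨_, rfl⟩
  have hgu : u - 3 * l ≤ g := by
    have h1 : 0 < (P.card : ℝ) * Real.exp (-(3 * l)) := by positivity
    have h2 := Real.log_le_log h1 hpi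
    rw [Real.log_mul hP0'.ne' (Real.exp_pos _).ne', Real.log_exp, ← hg, ← hu] at h2
    linarith only [h2]
  have hg2 : u / 2 ≤ g := by linarith only [hlu16, hl0, hgu]
  have hgV : V < u := by linarith only [hVl, hlu16, hl0]
  have hgU : U0 ≤ g := by linarith only [hV, q1, q2, hg2, hgV]
  have hg0 : 0 < g := by linarith only [hlu16, hl0, hg2]
  have hLA1 : Real.log A1.card ≤ L := by
    rw [hL]
    exact Real.log_le_log (by exact_mod_cast hA1ne.card_pos) hA1le
  have hLA1p : 0 < Real.log A1.card := by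
    have h1 := g_le hA1ne (3 * l)
    rw [← hg] at h1
    linarith only [hg0, h1]
  refine growsB_of_sub η B hη hη1 hB A A1 hA1A hA1ne h4 ?_ ?_ (hpop A1 (3 * l) hA1ne h0
    (by linarith only [hl0]) (by rw [← hg]; exact hgU) ?_)
  · rw [← hL]
    have h1 : 2 * Real.log 4 / η ≤ L := by linarith only [hU0, hV, q2, huL, hgV]
    rw [div_le_iff₀ hη] at h1
    linarith only [h1]
  · rw [← hL]
    linarith only [hU0, hV, q1, huL, hgV]
  · rw [← hg]
    have h1 : 3 * l + 1 ≤ 4 * l := by (clear * - hV1 hVl; linarith only [hV1, hVl])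
    refine h1.trans ?_
    have h2 : u ^ 3 / 8 ≤ g ^ 3 := by
      calc u ^ 3 / 8 = (u / 2) ^ 3 := by ring
        _ ≤ g ^ 3 := pow_le_pow_left₀ (by linarith only [hlu16, hl0]) hg2 3
    have h3 : Real.log A1.card ^ 2 ≤ L ^ 2 := pow_le_pow_left₀ hLA1p.le hLA1 2
    calc 4 * l = 4 * c * u ^ 3 / L ^ 2 := by rw [hl]; ring
      _ ≤ 4 * (c0 / 32) * u ^ 3 / L ^ 2 := by (clear * - hcc0 hu0 hLp; gcongr)
      _ = c0 * (u ^ 3 / 8) / L ^ 2 := by ring
      _ ≤ c0 * g ^ 3 / L ^ 2 := by (clear * - h2 hc0 hLp; gcongr)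
      _ ≤ c0 * g ^ 3 / Real.log A1.card ^ 2 :=
          div_le_div_of_nonneg_left (by (clear * - hc0 hg0; positivity)) (by (clear * - hLA1p; positivity)) h3

end Pool.Agent.Helper15.GPR
end
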