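import Pool.Agent.Helper24.DG.G06
import Pool.Agent.Helper24.DG.G07

/- Helper24.DI.H15.GPQ.Quant -/
section
set_option autoImplicit false

/-!
# Project GL++ (MP_120218), Quant: expansion by any number of dilations
-/

namespace Pool.Agent.Helper15.GPQ

open Finset Pool.Agent.Helper15.GPP Pool.Agent.Helper15.GLP

theorem sup_mono {R : ℕ} {a b : Fin R → ℕ} (h : ∀ j, b j ≤ a j) : sup b ≤ sup a := by
  unfold sup
  refine Finset.card_le_card fun j hj => ?_
  rw [Finset.mem_filter] at hj ⊢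
  refine ⟨hj.1, fun h0 => hj.2 ?_⟩
  have := h j
  omega

theorem card_le_prd (A : Finset ℤ) (P : Finset ℚ) (hP : P.Nonempty) (hP0 : ∀ s ∈ P, s ≠ 0) :
    A.card ≤ (prd A P).card := by
  classical
  obtain ⟨s, hs⟩ := hP
  have h1 : (A.image (fun a : ℤ => (a : ℚ) * s)).card = A.card := by
    refine Finset.card_image_of_injective _ fun a b hab => ?_
    have h2 := mul_right_cancel₀ (hP0 s hs) hab
    exact_mod_cast h2
  rw [← h1]
  refine Finset.card_le_card fun z hz => ?_
  obtain ⟨a, ha, rfl⟩ := Finset.mem_image.1 hz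
  exact Finset.mem_image₂_of_mem ha hs

theorem card_abs_le' (H : Finset ℚ) : H.card ≤ 2 * (H.image (fun h => |h|)).card := by
  classical
  refine Finset.card_le_mul_card_image H 2 fun t _ => ?_
  have hsub : H.filter (fun h => |h| = t) ⊆ {t, -t} := by
    intro h hh
    have h1 := (Finset.mem_filter.1 hh).2
    rw [Finset.mem_insert, Finset.mem_singleton]
    rcases abs_choice h with h2 | h2
    · left
      rw [← h1, h2]
    · right
      rw [← h1, h2, neg_neg]
  exact (Finset.card_le_card hsub).trans Finset.card_le_two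

theorem prd_abs (A : Finset ℤ) (P : Finset ℚ) :
    (prd A (P.image (fun h => |h|))).card ≤ 2 * (prd A P).card := by
  classical
  have h1 : prd A (P.image (fun h => |h|)) ⊆ prd A P ∪ (prd A P).image (fun z => -z) := by
    intro z hz
    unfold prd at hz
    obtain ⟨a, ha, s, hs, rfl⟩ := Finset.mem_image₂.1 hz
    obtain ⟨t, ht, rfl⟩ := Finset.mem_image.1 hs
    rw [Finset.mem_union]
    rcases abs_choice t with h2 | h2
    · left
      rw [h2]
      exact Finset.mem_image₂_of_mem ha ht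
    · right
      rw [h2]
      refine Finset.mem_image.2 ⟨(a : ℚ) * t, Finset.mem_image₂_of_mem ha ht, ?_⟩
      ring
  have h2 := (Finset.card_le_card h1).trans (Finset.card_union_le _ _)
  have h3 : ((prd A P).image (fun z => -z)).card ≤ (prd A P).card := Finset.card_image_le
  omega

/-- **Expansion by any number of dilations.** -/
theorem grow_quant (η B : ℝ) (hη : 0 < η) (hη1 : η ≤ 1) (hB : 0 ≤ B) :
    ∃ c : ℝ, 0 < c ∧ ∀ (A : Finset ℤ) (P : Finset ℚ), (∀ s ∈ P, s ≠ 0) → P.Nonempty →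
      P.card ≤ A.card → ((prd A P).card : ℝ) <
        c * A.card * Real.exp (c * Real.log P.card ^ 2 / Real.log A.card) → GrowsB η B A := by
  classical
  obtain ⟨C2, c2, N2, hC2, hc2, hc21, hN2, hgrow⟩ :=
    grow_sepU (η / 2) (B + 1) (by (clear * - hη; positivity)) (by (clear * - hη1; linarith only [hη1])) (by linarith)
  -- constants
  obtain ⟨e, he⟩ : ∃ e : ℝ, e = c2 / 2 := ⟨_, rfl⟩
  have he0 : 0 < e := by rw [he]; positivity
  obtain ⟨l, hl⟩ : ∃ l : ℝ, l = min 1 (e / (8 * C2)) := ⟨_, rfl⟩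
  have hl0 : 0 < l := by rw [hl]; exact lt_min one_pos (by positivity)
  have hl1 : l ≤ 1 := by rw [hl]; exact min_le_left _ _
  have hlC : l * C2 ≤ e / 8 := by
    have h1 : l ≤ e / (8 * C2) := by rw [hl]; exact min_le_right _ _
    calc l * C2 ≤ e / (8 * C2) * C2 := mul_le_mul_of_nonneg_right h1 hC2.le
      _ = e / 8 := by field_simp
  have hlog : 0 ≤ Real.log (1 / l) := by
    apply Real.log_nonneg
    rw [le_div_iff₀ hl0]
    linarith only [hl1]
  obtain ⟨c5, hc5⟩ : ∃ c5 : ℝ, c5 = min (c2 / 4) (e / (16 * (1 + Real.log (1 / l)))) := ⟨_, rfl⟩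
  have hc50 : 0 < c5 := by
    rw [hc5]
    exact lt_min (by positivity) (by (clear * - he0 hlog; positivity))
  have hc5a : c5 ≤ c2 / 4 := by rw [hc5]; exact min_le_left _ _
  have hc5e : c5 ≤ e := by rw [he]; linarith only [hc50, hc5a]
  have hc5l : 2 * c5 * Real.log (1 / l) ≤ e / 8 := by
    have h1 : c5 ≤ e / (16 * (1 + Real.log (1 / l))) := by
      rw [hc5]
      exact min_le_right _ _
    calc 2 * c5 * Real.log (1 / l) ≤ 2 * c5 * (1 + Real.log (1 / l)) :=
          mul_le_mul_of_nonneg_left (by linarith only []) (by positivity)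
      _ ≤ 2 * (e / (16 * (1 + Real.log (1 / l)))) * (1 + Real.log (1 / l)) := by (clear * - h1 hlog; gcongr)
      _ = e / 8 := by
          field_simp
          ring
  obtain ⟨c', U0, hc'0, hU0, hcomb⟩ := comb C2 c5 hC2 hc50 (by linarith only [hc21, hc5a])
  have hl2 : 0 < Real.log 2 := Real.log_pos (by norm_num)
  have hl4 : 0 < Real.log 4 := Real.log_pos (by norm_num)
  have hN20 : 0 ≤ Real.log (1 + 4 * N2) := Real.log_nonneg (by linarith only [hN2])
  obtain ⟨L0, hL0⟩ : ∃ L0 : ℝ, L0 = U0 + 2 * Real.log 2 + Real.log (1 + 4 * N2) +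
      2 * Real.log 4 / η + (B + 1) * Real.log 4 + 8 * Real.log 4 / e + 4 * Real.log 4 + 2 := ⟨_, rfl⟩
  have q4 : 0 < 2 * Real.log 4 / η := by positivity
  have q5 : 0 ≤ (B + 1) * Real.log 4 := by (clear * - hB; positivity)
  have q6 : 0 < 8 * Real.log 4 / e := by positivity
  have hL00 : 0 < L0 := by linarith only [hU0, hl2, hl4, hN20, hL0, q4, q5, q6]
  obtain ⟨c, hc⟩ : ∃ c : ℝ, c = min (1 / 16) (min (c' / 4) (1 / L0)) := ⟨_, rfl⟩
  have hc0 : 0 < c := by
    rw [hc]
    exact lt_min (by norm_num) (lt_min (by positivity) (by positivity))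
  have hc16 : c ≤ 1 / 16 := by rw [hc]; exact min_le_left _ _
  have hcc' : c ≤ c' / 4 := by
    rw [hc]
    exact (min_le_right _ _).trans (min_le_left _ _)
  have hcL0 : c ≤ 1 / L0 := by
    rw [hc]
    exact (min_le_right _ _).trans (min_le_right _ _)
  refine ⟨c, hc0, ?_⟩
  intro A P hP0 hPne hPA hprd
  -- sizes
  obtain ⟨u0, hu0⟩ : ∃ u0 : ℝ, u0 = Real.log P.card := ⟨_, rfl⟩
  obtain ⟨L, hL⟩ : ∃ L : ℝ, L = Real.log A.card := ⟨_, rfl⟩
  rw [← hu0, ← hL] at hprd
  have hPp : (1 : ℝ) ≤ P.card := by exact_mod_cast hPne.card_pos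
  have hPAR : (P.card : ℝ) ≤ A.card := by exact_mod_cast hPA
  have hA1 : (1 : ℝ) ≤ A.card := hPp.trans hPAR
  have hA0 : (0 : ℝ) < A.card := by linarith only [hA1]
  have hu00 : 0 ≤ u0 := by rw [hu0]; exact Real.log_nonneg hPp
  have hu0L : u0 ≤ L := by rw [hu0, hL]; exact Real.log_le_log (by linarith only [hPp]) hPAR
  have hL00' : 0 ≤ L := hu00.trans hu0L
  have hone : 1 < c * Real.exp (c * u0 ^ 2 / L) := by
    have h1 : (A.card : ℝ) ≤ (prd A P).card := by exact_mod_cast card_le_prd A P hPne hP0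
    have h2 : (A.card : ℝ) * 1 < A.card * (c * Real.exp (c * u0 ^ 2 / L)) := by
      rw [mul_one]
      refine lt_of_le_of_lt h1 (lt_of_lt_of_eq hprd ?_)
      ring
    exact lt_of_mul_lt_mul_left h2 hA0.le
  have hLp : 0 < L := by
    rcases hL00'.lt_or_eq with h | h
    · exact h
    · rw [← h, div_zero, Real.exp_zero] at hone
      linarith only [hc16, hone]
  have hu0big : L0 < u0 := by
    have h1 : 1 ≤ c * u0 ^ 2 / L := by
      by_contra hcon
      rw [not_le] at hcon
      have h2 : Real.exp (c * u0 ^ 2 / L) < Real.exp 1 := Real.exp_lt_exp.2 hcon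
      have h3 := Real.exp_one_lt_d9
      have h4 : c * Real.exp (c * u0 ^ 2 / L) ≤ 1 / 16 * Real.exp 1 :=
        mul_le_mul hc16 h2.le (Real.exp_pos _).le (by norm_num)
      linarith only [hone, h3, h4]
    have h1' : Real.exp 2 < Real.exp (c * u0 ^ 2 / L) := by
      have h2 : Real.exp 2 < 16 := by
        have h3 := Real.exp_one_lt_d9
        have h4 : Real.exp 2 = Real.exp 1 * Real.exp 1 := by
          rw [← Real.exp_add]
          norm_num
        have h5 := Real.exp_pos 1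
        rw [h4]
        (clear * - h3 h5; nlinarith only [h3, h5])
      have h3 : c * Real.exp (c * u0 ^ 2 / L) ≤ 1 / 16 * Real.exp (c * u0 ^ 2 / L) :=
        mul_le_mul_of_nonneg_right hc16 (Real.exp_pos _).le
      linarith only [hone, h2, h3]
    have h5 : 2 < c * u0 ^ 2 / L := Real.exp_lt_exp.1 h1'
    have h6 : u0 ^ 2 / L ≤ u0 := by
      rw [div_le_iff₀ hLp, sq]
      exact mul_le_mul_of_nonneg_left hu0L hu00
    have h7 : c * u0 ^ 2 / L ≤ c * u0 := by
      calc c * u0 ^ 2 / L = c * (u0 ^ 2 / L) := by ring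
        _ ≤ c * u0 := mul_le_mul_of_nonneg_left h6 hc0.le
    have h8 : c * u0 ≤ 1 / L0 * u0 := mul_le_mul_of_nonneg_right hcL0 hu00
    have h9 : 1 < u0 / L0 := by
      have : 1 / L0 * u0 = u0 / L0 := by ring
      linarith only [h5, h7, h8, this]
    rw [lt_div_iff₀ hL00] at h9
    linarith only [h9]
  have hLL0 : L0 < L := lt_of_lt_of_le hu0big hu0L
  -- positive dilations
  obtain ⟨P1, hP1⟩ : ∃ P1 : Finset ℚ, P1 = P.image (fun h => |h|) := ⟨_, rfl⟩
  have hP1ne : P1.Nonempty := by rw [hP1]; exact hPne.image _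
  have hP1pos : ∀ s ∈ P1, 0 < s := by
    intro s hs
    rw [hP1] at hs
    obtain ⟨t, ht, rfl⟩ := Finset.mem_image.1 hs
    exact abs_pos.2 (hP0 t ht)
  have hP1c : (P.card : ℝ) ≤ 2 * P1.card := by
    rw [hP1]
    exact_mod_cast card_abs_le' P
  have hP1P : (P1.card : ℝ) ≤ P.card := by
    rw [hP1]
    exact_mod_cast Finset.card_image_le
  have hP1p : (0 : ℝ) < P1.card := by exact_mod_cast hP1ne.card_pos
  have hP1prd : ((prd A P1).card : ℝ) ≤ 2 * (prd A P).card := by
    rw [hP1]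
    exact_mod_cast prd_abs A P
  obtain ⟨u, hu⟩ : ∃ u : ℝ, u = Real.log P1.card := ⟨_, rfl⟩
  have huu0 : u ≤ u0 := by
    rw [hu, hu0]
    exact Real.log_le_log hP1p hP1P
  have hu0u : u0 ≤ Real.log 2 + u := by
    rw [hu, hu0, ← Real.log_mul (by norm_num) hP1p.ne']
    exact Real.log_le_log (by linarith only [hP1P, hP1p]) hP1c
  have huhalf : u0 / 2 ≤ u := by linarith only [hU0, hl4, hN20, hL0, q4, q5, q6, hu0big, hu0u]
  have huU : U0 ≤ u := by linarith only [hl2, hl4, hN20, hL0, q4, q5, q6, hu0big, hu0u]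
  have huL : u ≤ L := huu0.trans hu0L
  have hup : 0 < u := by linarith only [hL00, hu0big, huhalf]
  obtain ⟨κ, hκ⟩ : ∃ κ : ℝ, κ = c' * u ^ 2 / L := ⟨_, rfl⟩
  have hκ0 : 0 < κ := by rw [hκ]; (clear * - hc'0 hup hLp; positivity)
  have hK : 4 * ((prd A P1).card : ℝ) ≤ Real.exp κ * A.card := by
    have h1 : Real.exp (c * u0 ^ 2 / L) ≤ Real.exp κ := by
      rw [hκ]
      refine Real.exp_le_exp.2 (div_le_div_of_nonneg_right ?_ hLp.le)
      have h2 : (u0 / 2) ^ 2 ≤ u ^ 2 := pow_le_pow_left₀ (by linarith only [huu0, huhalf]) huhalf 2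
      calc c * u0 ^ 2 ≤ c' / 4 * u0 ^ 2 := mul_le_mul_of_nonneg_right hcc' (sq_nonneg _)
        _ = c' * (u0 / 2) ^ 2 := by ring
        _ ≤ c' * u ^ 2 := mul_le_mul_of_nonneg_left h2 hc'0.le
    have h3 : c * A.card * Real.exp (c * u0 ^ 2 / L) ≤ 1 / 16 * A.card * Real.exp κ := by
      (clear * - hc16 hA1 h1; gcongr)
    have h4 : 0 ≤ Real.exp κ * A.card := by (clear * - hA1; positivity)
    linarith only [hprd, hP1prd, h3]
  have hA2 : 2 ≤ A.card := by
    by_contra hcon
    have h1 : A.card ≤ 1 := by (clear * - P hcon; omega)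
    have h2 : (A.card : ℝ) ≤ 1 := by exact_mod_cast h1
    have h3 : L ≤ 0 := by
      rw [hL]
      exact Real.log_nonpos hA0.le h2
    linarith only [huL, hup, h3]
  obtain ⟨R, S, hSne, hSc, hSj, hbox⟩ := box_set P1 hP1ne hP1pos
  have hKn : ∀ n : ℕ, Real.exp κ ^ n = Real.exp (κ * n) := by
    intro n
    rw [← Real.exp_nat_mul, mul_comm]
  obtain ⟨n, a, β, hn1, ha, hβ16, hβL, hκn, hsup1, hsup2, hbig⟩ := hcomb R S u L hSne
    (by rw [hSc]; exact hu) huU huL (by
      intro j hj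
      have h1 := (sub_pow A P1 hA2 hP1ne (fun s hs => (hP1pos s hs).ne') (Real.exp κ) hK j).1
      rw [hKn] at h1
      have h2 : (0 : ℝ) < (js S j).card := by
        exact_mod_cast (js_nonempty S hSne j).card_pos
      rw [Real.log_le_iff_le_exp h2, hSj j]
      refine h1.trans (le_of_eq ?_)
      rw [Real.exp_add, hL, Real.exp_log hA0, ← hL, ← hκ])
  rw [← hκ] at hκn
  obtain ⟨-, A', hA'A, hA'ne, hA'4, hA'prd⟩ := sub_pow A P1 hA2 hP1ne
    (fun s hs => (hP1pos s hs).ne') (Real.exp κ) hK n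
  rw [hKn] at hA'prd
  -- sizes of `A'`
  have hA'p : (1 : ℝ) ≤ A'.card := by exact_mod_cast hA'ne.card_pos
  obtain ⟨L', hL'⟩ : ∃ L' : ℝ, L' = Real.log A'.card := ⟨_, rfl⟩
  have hL'L : L' ≤ L := by
    rw [hL', hL]
    exact Real.log_le_log (by linarith only [hA'p]) (by exact_mod_cast Finset.card_le_card hA'A)
  have hLL' : L ≤ Real.log 4 + L' := by
    rw [hL', hL, ← Real.log_mul (by norm_num) (by linarith only [hA'p])]
    exact Real.log_le_log hA0 hA'4
  have hL'half : L / 2 ≤ L' := by linarith only [hU0, hl2, hN20, hL0, q4, q5, q6, hL00, hLL0, hLL']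
  have hL'p : 0 < L' := by linarith only [huL, hup, hL'half]
  have hpow' : ∀ x : ℝ, (A'.card : ℝ) ^ x = Real.exp (x * L') := by
    intro x
    rw [Real.rpow_def_of_pos (by linarith only [hA'p]), hL', mul_comm]
  have w4 : 2 * Real.log 4 ≤ η * L := by
    have h1 : 2 * Real.log 4 / η ≤ L := by linarith only [hU0, hl2, hl4, hN20, hL0, q5, q6, hLL0]
    rw [div_le_iff₀ hη] at h1
    linarith only [h1]
  have w6 : 8 * Real.log 4 ≤ e * L := by
    have h1 : 8 * Real.log 4 / e ≤ L := by linarith only [hU0, hl2, hl4, hN20, hL0, q4, q5, hLL0]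
    rw [div_le_iff₀ he0] at h1
    linarith only [h1]
  have hA'N2 : N2 ≤ A'.card := by
    have h1 : Real.log (1 + 4 * N2) ≤ Real.log A.card := by
      rw [← hL]
      linarith only [hU0, hl2, hl4, hL0, q4, q5, q6, hLL0]
    have h2 := (Real.log_le_log_iff (by linarith only [hN2]) hA0).1 h1
    linarith only [hA'4, h2]
  have hl24 : Real.log 4 = 2 * Real.log 2 := by
    rw [show (4 : ℝ) = 2 ^ 2 by norm_num, Real.log_pow]
    norm_num
  -- reduction to `A'`
  refine growsB_of_sub η B hη hη1 hB A A' hA'A hA'ne hA'4 (by rw [← hL]; exact w4)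
    (by rw [← hL]; linarith only [hU0, hl2, hl4, hN20, hL0, q4, q6, hLL0]) ?_
  by_contra hG
  -- the number `T`
  obtain ⟨T, hT⟩ : ∃ T : ℕ, T = ⌊Real.exp (e * L)⌋₊ := ⟨_, rfl⟩
  have hTc : (T : ℝ) ≤ Real.exp (e * L) := by
    rw [hT]
    exact Nat.floor_le (Real.exp_pos _).le
  have hTlt : Real.exp (e * L) < T + 1 := by
    rw [hT]
    exact Nat.lt_floor_add_one _
  have hTge : (2 : ℝ) < T := by
    have h1 : Real.exp (Real.log 4) ≤ Real.exp (e * L) := Real.exp_le_exp.2 (by linarith only [hL'L, hLL', w6])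
    rw [Real.exp_log (by norm_num)] at h1
    linarith only [hTlt, h1]
  have hT2 : 2 < T := by exact_mod_cast hTge
  -- the box
  obtain ⟨b, hba, hbT, hb1, hbM⟩ : ∃ b : Fin R → ℕ, (∀ j, b j ≤ a j) ∧ bx b ≤ T ∧ 1 ≤ sup b ∧
      sup b * Real.log (C2 * L / sup b) + κ * n + Real.log 2 < Real.log ((bx b : ℕ) : ℝ) := by
    by_cases haT : bx a ≤ T
    · refine ⟨a, fun _ => le_rfl, haT, hsup1, ?_⟩
      have h1 := Real.log_two_lt_d9
      (clear * - hβ16 hκn hbig h1; linarith only [hβ16, hκn, hbig, h1])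
    · rw [not_le] at haT
      obtain ⟨b, hba, hb1, hb2⟩ := exists_sub_box T (by (clear * - A P P1 S n a hT hT2; omega)) _ a rfl haT.le
      have hbsup : 1 ≤ sup b := by
        by_contra hcon
        have h1 : sup b = 0 := by omega
        have h2 := bx_eq_one b h1
        omega
      refine ⟨b, hba, hb1, hbsup, ?_⟩
      have hr0 : (0 : ℝ) < sup b := by exact_mod_cast hbsup
      have h1 := log_le_lin l (C2 * L / sup b) hl0 (by (clear * - hC2 hLp hbsup; positivity))
      have h2 := mul_le_mul_of_nonneg_left h1 hr0.le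
      have h3 : (sup b : ℝ) * (l * (C2 * L / sup b) + Real.log (1 / l)) =
          l * C2 * L + sup b * Real.log (1 / l) := by
        (clear * - hbsup hl0 hC2 hLp hlog; field_simp)
      rw [h3] at h2
      have h4 : l * C2 * L ≤ e / 8 * L := mul_le_mul_of_nonneg_right hlC hLp.le
      have h5 : (sup b : ℝ) ≤ 2 * c5 * L := by
        refine le_trans ?_ hsup2
        exact_mod_cast sup_mono hba
      have h6 : sup b * Real.log (1 / l) ≤ e / 8 * L := by
        calc sup b * Real.log (1 / l) ≤ (2 * c5 * L) * Real.log (1 / l) :=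
              mul_le_mul_of_nonneg_right h5 hlog
          _ = (2 * c5 * Real.log (1 / l)) * L := by ring
          _ ≤ e / 8 * L := mul_le_mul_of_nonneg_right hc5l hLp.le
      have h7 : c5 * L ≤ e * L := mul_le_mul_of_nonneg_right hc5e hLp.le
      have h8 : e * L - Real.log 2 ≤ Real.log ((bx b : ℕ) : ℝ) := by
        have h9 : Real.exp (e * L) ≤ 2 * ((bx b : ℕ) : ℝ) := by
          have h10 : ((T + 1 : ℕ) : ℝ) ≤ ((2 * bx b : ℕ) : ℝ) := by exact_mod_cast hb2
          push_cast at h10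
          linarith only [hTlt, h10]
        have hbb : (0 : ℝ) < ((bx b : ℕ) : ℝ) := by exact_mod_cast bx_pos b
        have h11 := Real.log_le_log (Real.exp_pos _) h9
        rw [Real.log_exp, Real.log_mul (by norm_num) hbb.ne'] at h11
        linarith only [h11]
      linarith only [hβ16, hβL, hκn, w6, hl24, h2, h4, h6, h7, h8]
  obtain ⟨pr, Q, hprime, hQc, hQpos, hQn, hsep⟩ := hbox n a ha b hba
  have hprdQ := hA'prd Q hQn
  have hr0 : (0 : ℝ) < sup b := by exact_mod_cast hb1
  have hQc' : (Q.card : ℝ) = ((bx b : ℕ) : ℝ) := by rw [hQc]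
  have hbb : (0 : ℝ) < ((bx b : ℕ) : ℝ) := by exact_mod_cast bx_pos b
  obtain ⟨M, hM⟩ : ∃ M : ℝ, M = (C2 * L' / sup b) ^ sup b := ⟨_, rfl⟩
  have hM0 : 0 < M := by rw [hM]; (clear * - hC2 hL'p hb1; positivity)
  have hMlog : Real.log M ≤ sup b * Real.log (C2 * L / sup b) := by
    rw [hM, Real.log_pow]
    refine mul_le_mul_of_nonneg_left (Real.log_le_log (by (clear * - hC2 hL'p hb1; positivity)) ?_) hr0.le
    (clear * - hL'L hC2 hb1; gcongr)
  have hMQ : 2 * M * Real.exp (κ * n) < Q.card := by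
    rw [hQc', ← Real.exp_log hM0]
    have h1 : 2 * Real.exp (Real.log M) * Real.exp (κ * n) =
        Real.exp (Real.log 2 + Real.log M + κ * n) := by
      rw [Real.exp_add, Real.exp_add, Real.exp_log (show (0 : ℝ) < 2 by norm_num)]
    rw [h1, ← Real.lt_log_iff_exp_lt hbb]
    linarith only [hbM, hMlog]
  have hsupc2 : (sup b : ℝ) ≤ c2 * L' := by
    have h5 : (sup b : ℝ) ≤ 2 * c5 * L := by
      refine le_trans ?_ hsup2
      exact_mod_cast sup_mono hba
    have h6 : 2 * c5 * L ≤ 2 * (c2 / 4) * L := by (clear * - hc5a hLp; gcongr)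
    have h7 : c2 * (L / 2) ≤ c2 * L' := mul_le_mul_of_nonneg_left hL'half hc2.le
    linarith only [h5, h6, h7]
  -- few rich fibres
  have hnorich : ∀ Z : Finset ℚ, (∀ z ∈ Z, M < ((rich A' (Q.image (fun s => s⁻¹)) z).card : ℝ)) →
      (Z.card : ℝ) ≤ (A'.card : ℝ) ^ (1 - c2) := by
    intro Z hZ
    by_contra hcon
    rw [not_le] at hcon
    refine hG (hgrow A' (sup b) pr (Q.image (fun s => s⁻¹)) Z hA'N2 hb1 ?_ hprime ?_ ?_ ?_ hcon ?_)
    · rw [← hL']
      exact hsupc2
    · intro s hs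
      obtain ⟨t, ht, rfl⟩ := Finset.mem_image.1 hs
      exact inv_pos.2 (hQpos t ht)
    · intro s hs t ht hst
      obtain ⟨s', hs', rfl⟩ := Finset.mem_image.1 hs
      obtain ⟨t', ht', rfl⟩ := Finset.mem_image.1 ht
      rw [hsep s' hs' t' ht' fun i => ?_]
      have := Fact.mk (hprime i)
      have h1 := hst i
      rw [padicValRat.inv, padicValRat.inv] at h1
      linarith only [h1]
    · have h1 : ((Q.image (fun s => s⁻¹)).card : ℝ) ≤ Q.card := by
        exact_mod_cast Finset.card_image_le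
      refine h1.trans ?_
      have h2 : (Q.card : ℝ) ≤ T := by
        rw [hQc]
        exact_mod_cast hbT
      refine h2.trans (hTc.trans ?_)
      rw [hpow']
      apply Real.exp_le_exp.2
      rw [he]
      have h3 : c2 * (L / 2) ≤ c2 * L' := mul_le_mul_of_nonneg_left hL'half hc2.le
      linarith only [h3]
    · intro z hz
      rw [← hL', ← hM]
      exact hZ z hz
  have h1 := prd_rank A' Q (fun s hs => (hQpos s hs).ne') M hM0.le
    ((A'.card : ℝ) ^ (1 - c2)) hnorich
  have hw : (A'.card : ℝ) ^ (1 - c2) + 1 ≤ A'.card / 2 := by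
    have h2 : (4 : ℝ) ≤ (A'.card : ℝ) ^ c2 := by
      rw [hpow', ← Real.log_le_iff_le_exp (by norm_num)]
      have h3 : c2 * (L / 2) ≤ c2 * L' := mul_le_mul_of_nonneg_left hL'half hc2.le
      rw [he] at w6
      linarith only [w6, hsupc2, h3]
    have h3 : (4 : ℝ) ≤ A'.card := by
      have h4 : Real.log 4 ≤ Real.log A'.card := by
        rw [← hL']
        linarith only [hU0, hl2, hl4, hN20, hL0, q4, q5, q6, hLL0, hL'half]
      exact (Real.log_le_log_iff (by norm_num) (by linarith only [hA'p])).1 h4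
    have h4 : (A'.card : ℝ) = (A'.card : ℝ) ^ c2 * (A'.card : ℝ) ^ (1 - c2) := by
      rw [← Real.rpow_add (by linarith only [h3])]
      have : c2 + (1 - c2) = 1 := by ring
      rw [this, Real.rpow_one]
    have h5 : 4 * (A'.card : ℝ) ^ (1 - c2) ≤ A'.card := by
      calc 4 * (A'.card : ℝ) ^ (1 - c2) ≤ (A'.card : ℝ) ^ c2 * (A'.card : ℝ) ^ (1 - c2) :=
            mul_le_mul_of_nonneg_right h2 (Real.rpow_nonneg (by linarith only []) _)
        _ = A'.card := h4.symm
    linarith only [h3, h5]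
  have h2 := fin_bound (A'.card : ℝ) ((A'.card : ℝ) ^ (1 - c2)) M (2 * M) Q.card (prd A' Q).card
    (Nat.cast_nonneg _) hw h1 le_rfl (Nat.cast_nonneg _)
  have h4 : (A'.card : ℝ) * Q.card ≤ A'.card * (2 * M * Real.exp (κ * n)) := by
    calc (A'.card : ℝ) * Q.card ≤ 2 * M * (prd A' Q).card := h2
      _ ≤ 2 * M * (Real.exp (κ * n) * A'.card) := mul_le_mul_of_nonneg_left hprdQ (by (clear * - hM0; positivity))
      _ = _ := by ring
  have h5 := le_of_mul_le_mul_left h4 (by linarith only [hA'p])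
  linarith only [hMQ, h5]

end Pool.Agent.Helper15.GPQ
end
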