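import Pool.Agent.Helper24.DG.G04
import Pool.Agent.Helper24.DG.G05
import Pool.Agent.Helper24.DG.G08
import Pool.Agent.Helper24.DG.G09

/- Helper24.DI.H15.GPQ.Result -/
section
set_option autoImplicit false

/-!
# Project GL++ (MP_120218), Result: the sums-alone theorem
-/

namespace Pool.Agent.Helper15.GPQ

open Finset Pool.Agent.Helper15.GL Pool.Agent.Helper28.LN

theorem toB {η B : ℝ} {A : Finset ℤ} (h : Grows η A) : GrowsB η B A :=
  fun X hX _ => h X hX

/-- `|A + D|` is almost maximal for every `D` -/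
def AllD (ε c : ℝ) (A : Finset ℤ) : Prop :=
  ∀ D : Finset ℤ, D.Nonempty → c * ((A.card : ℝ) * D.card) ^ (1 - ε) ≤
    ((Finset.image₂ (fun a d => a + d) A D).card : ℝ)

theorem card_add_comm (X A : Finset ℤ) : (Finset.image₂ (fun a b => a + b) X A).card =
    (Finset.image₂ (fun a b => a + b) A X).card := by
  congr 1
  ext z
  rw [Finset.mem_image₂, Finset.mem_image₂]
  constructor
  · rintro ⟨a, ha, b, hb, rfl⟩
    exact ⟨b, hb, a, ha, add_comm _ _⟩
  · rintro ⟨a, ha, b, hb, rfl⟩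
    exact ⟨b, hb, a, ha, add_comm _ _⟩

theorem le_card_add (A D : Finset ℤ) (hA : A.Nonempty) :
    D.card ≤ (Finset.image₂ (fun a d => a + d) A D).card := by
  obtain ⟨a, ha⟩ := hA
  calc D.card = (D.image (fun d => a + d)).card := by
        rw [Finset.card_image_of_injective]
        exact add_right_injective a
    _ ≤ _ := by
        refine Finset.card_le_card fun z hz => ?_
        obtain ⟨d, hd, rfl⟩ := Finset.mem_image.1 hz
        exact Finset.mem_image₂_of_mem ha hd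

theorem allD_of_growsB (ε η : ℝ) (hη : 0 < η) (hηε : η ≤ ε) (hη1 : η ≤ 1) (c : ℝ) (hc0 : 0 ≤ c)
    (hc : c ≤ 1) (A : Finset ℤ) (hA : A.Nonempty) (hG : GrowsB η (1 / η) A) : AllD ε c A := by
  intro D hD
  have hA1 : (1 : ℝ) ≤ A.card := by exact_mod_cast hA.card_pos
  have hD1 : (1 : ℝ) ≤ D.card := by exact_mod_cast hD.card_pos
  have hAD1 : (1 : ℝ) ≤ (A.card : ℝ) * D.card := by nlinarith only [hA1, hD1]
  have ha : 0 ≤ Real.log A.card := Real.log_nonneg hA1
  have hd : 0 ≤ Real.log D.card := Real.log_nonneg hD1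
  have hpos : (0 : ℝ) < (Finset.image₂ (fun a d => a + d) A D).card := by
    exact_mod_cast Finset.card_pos.2 (hA.image₂ hD)
  have h1 : ((A.card : ℝ) * D.card) ^ (1 - ε) ≤ ((A.card : ℝ) * D.card) ^ (1 - η) :=
    Real.rpow_le_rpow_of_exponent_le hAD1 (by (clear * - hηε; linarith))
  have h0 : (0 : ℝ) < ((A.card : ℝ) * D.card) ^ (1 - ε) := Real.rpow_pos_of_pos (by linarith only [hAD1]) _
  have h2 : ((A.card : ℝ) * D.card) ^ (1 - η) ≤
      ((Finset.image₂ (fun a d => a + d) A D).card : ℝ) := by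
    rw [← Real.log_le_log_iff (Real.rpow_pos_of_pos (by linarith only [hAD1]) _) hpos,
      Real.log_rpow (by linarith only [hAD1]), Real.log_mul (by linarith only [hA1]) (by linarith)]
    by_cases hB : Real.log D.card ≤ 1 / η * Real.log A.card
    · have h3 := hG D hD hB
      rw [card_add_comm] at h3
      (clear * - h3; linarith only [h3])
    · rw [not_le, div_mul_eq_mul_div, one_mul, div_lt_iff₀ hη] at hB
      have h3 : Real.log D.card ≤ Real.log (Finset.image₂ (fun a d => a + d) A D).card :=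
        Real.log_le_log (by linarith only [hD1]) (by exact_mod_cast le_card_add A D hA)
      have h4 : 0 ≤ η * Real.log A.card := mul_nonneg hη.le ha
      (clear * - hB h3 h4; linarith only [hB, h3, h4])
  calc c * ((A.card : ℝ) * D.card) ^ (1 - ε) ≤ 1 * ((A.card : ℝ) * D.card) ^ (1 - ε) :=
        mul_le_mul_of_nonneg_right hc h0.le
    _ = ((A.card : ℝ) * D.card) ^ (1 - ε) := one_mul _
    _ ≤ _ := h1.trans h2

theorem allD_small (ε N0 c : ℝ) (hε : 0 < ε) (hN0 : 1 ≤ N0) (hc0 : 0 ≤ c) (hc : c ≤ 1 / N0)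
    (A : Finset ℤ) (hA : A.Nonempty) (hAN : (A.card : ℝ) ≤ N0) : AllD ε c A := by
  intro D hD
  have hA1 : (1 : ℝ) ≤ A.card := by exact_mod_cast hA.card_pos
  have hD1 : (1 : ℝ) ≤ D.card := by exact_mod_cast hD.card_pos
  have hAD1 : (1 : ℝ) ≤ (A.card : ℝ) * D.card := by nlinarith only [hA1, hD1]
  have h1 : ((A.card : ℝ) * D.card) ^ (1 - ε) ≤ (A.card : ℝ) * D.card := by
    calc ((A.card : ℝ) * D.card) ^ (1 - ε) ≤ ((A.card : ℝ) * D.card) ^ (1 : ℝ) :=
          Real.rpow_le_rpow_of_exponent_le hAD1 (by (clear * - hε; linarith only [hε]))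
      _ = _ := Real.rpow_one _
  have h2 : (D.card : ℝ) ≤ ((Finset.image₂ (fun a d => a + d) A D).card : ℝ) := by
    exact_mod_cast le_card_add A D hA
  calc c * ((A.card : ℝ) * D.card) ^ (1 - ε) ≤ 1 / N0 * (N0 * D.card) := by
        refine mul_le_mul hc (h1.trans ?_) (Real.rpow_nonneg (by (clear * - hAD1; linarith only [hAD1])) _) (by (clear * - hN0; positivity))
        exact mul_le_mul_of_nonneg_right hAN (by linarith only [])
    _ = D.card := by (clear * - hN0 hD; field_simp)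
    _ ≤ _ := h2

/-- the dichotomy -/
theorem dichotomy (ε δ : ℝ) (hε : 0 < ε) (hδ : 0 < δ) : ∃ C c : ℝ, 0 < C ∧ 0 < c ∧
    ∀ A : Finset ℤ, A.Nonempty → AllD ε c A ∨
      ((∀ (r : ℕ) (g : Fin r → ℚ), 1 ≤ r → (∀ i, g i ≠ 0) →
          ({a : ℤ | a ∈ A ∧ (1 + C * Real.log (A.card : ℝ) / r) ^ r <
            ({b : ℤ | b ∈ A ∧ ∃ e : Fin r → ℤ, (b : ℚ) = a * ∏ i, g i ^ e i ∨
              (b : ℚ) = -(a * ∏ i, g i ^ e i)}.ncard : ℝ)}.ncard : ℝ) ≤
            (A.card : ℝ) ^ (1 - c)) ∧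
       (∀ P B : Finset ℚ, (∀ s ∈ P, s ≠ 0) → (A.card : ℝ) ^ δ ≤ P.card →
          (B.card : ℝ) ≤ (A.card : ℝ) ^ (1 + c) →
          (((A ×ˢ P).filter (fun q : ℤ × ℚ => (q.1 : ℚ) * q.2 ∈ B)).card : ℝ) <
            (A.card : ℝ) ^ (1 - c) * P.card) ∧
       (∀ (S : Finset ℤ) (P : Finset ℕ) (R : ℝ), S ⊆ A →
          (A.card : ℝ) ^ (1 - c) ≤ S.card → (∀ p ∈ P, p.Prime) → C ≤ R →
          (∀ p ∈ P, R * ((S.filter (fun a : ℤ => (p : ℤ) * a ∉ S)).card : ℝ) ≤ S.card) →
          R * P.card * Real.log (P.card + 1) < C * Real.log (A.card : ℝ))) := by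
  classical
  obtain ⟨η, hη⟩ : ∃ η : ℝ, η = min ε 1 := ⟨_, rfl⟩
  have hη0 : 0 < η := by rw [hη]; exact lt_min hε one_pos
  have hηε : η ≤ ε := by rw [hη]; exact min_le_left _ _
  have hη1 : η ≤ 1 := by rw [hη]; exact min_le_right _ _
  obtain ⟨C1, hC1, hgroup⟩ := Pool.Agent.Helper28.PP.sumGroup Pool.Agent.Helper88.PP.sumAbs_all ε hε
  obtain ⟨τ, N0, hτ, hN0, hfree⟩ := grow_inc η (1 / η) δ hη0 hη1 (by (clear * - hη0; positivity)) hδ
  obtain ⟨C2, hC2, hlines⟩ := primes_grow (η / 2) (by (clear * - hη0; positivity)) (by linarith only [hη1])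
  obtain ⟨C, hCd⟩ : ∃ C : ℝ, C = max C1 C2 := ⟨_, rfl⟩
  have hC1C : C1 ≤ C := by rw [hCd]; exact le_max_left _ _
  have hC2C : C2 ≤ C := by rw [hCd]; exact le_max_right _ _
  have hC : 0 < C := by linarith only [hC2, hC2C]
  obtain ⟨c, hcd⟩ : ∃ c : ℝ, c = min (min (1 / C1) (1 / N0)) (min τ (η / 2)) := ⟨_, rfl⟩
  have hN0p : 0 < N0 := by linarith only [hN0]
  have hC1p : 0 < C1 := by linarith only [hC1]
  have hc0 : 0 < c := by
    rw [hcd]
    exact lt_min (lt_min (by (clear * - hC1; positivity)) (by positivity)) (lt_min hτ (by positivity))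
  have hcC1 : c ≤ 1 / C1 := by rw [hcd]; exact (min_le_left _ _).trans (min_le_left _ _)
  have hcN0 : c ≤ 1 / N0 := by rw [hcd]; exact (min_le_left _ _).trans (min_le_right _ _)
  have hcτ : c ≤ τ := by rw [hcd]; exact (min_le_right _ _).trans (min_le_left _ _)
  have hcη : c ≤ η / 2 := by rw [hcd]; exact (min_le_right _ _).trans (min_le_right _ _)
  have hc1 : c ≤ 1 := by (clear * - hη1 hcη; linarith only [hη1, hcη])
  refine ⟨C, c, hC, hc0, fun A hA => ?_⟩
  by_cases hAll : AllD ε c A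
  · exact Or.inl hAll
  right
  have hA1 : (1 : ℝ) ≤ A.card := by exact_mod_cast hA.card_pos
  have hA0 : (0 : ℝ) < A.card := by (clear * - hA1; linarith only [hA1])
  have hlog : 0 ≤ Real.log A.card := Real.log_nonneg hA1
  have hAN : N0 ≤ A.card := by
    by_contra h
    exact hAll (allD_small ε N0 c hε hN0 hc0.le hcN0 A hA (not_le.1 h).le)
  refine ⟨?_, ?_, ?_⟩
  · intro r g hr hg
    by_contra hcon
    rw [not_le] at hcon
    refine hAll fun D hD => ?_
    have hr0 : (0 : ℝ) < r := by exact_mod_cast hr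
    have h1 := hgroup r g A hr hg hA (by
      have h2 : {a : ℤ | a ∈ A ∧ (1 + C * Real.log (A.card : ℝ) / r) ^ r <
          ({b : ℤ | b ∈ A ∧ ∃ e : Fin r → ℤ, (b : ℚ) = a * ∏ i, g i ^ e i ∨
            (b : ℚ) = -(a * ∏ i, g i ^ e i)}.ncard : ℝ)} ⊆
          {a : ℤ | a ∈ A ∧ (1 + C1 * Real.log (A.card : ℝ) / r) ^ r <
          ({b : ℤ | b ∈ A ∧ ∃ e : Fin r → ℤ, (b : ℚ) = a * ∏ i, g i ^ e i ∨
            (b : ℚ) = -(a * ∏ i, g i ^ e i)}.ncard : ℝ)} := by
        rintro a ⟨ha, hb⟩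
        refine ⟨ha, lt_of_le_of_lt ?_ hb⟩
        refine pow_le_pow_left₀ (by (clear * - hC1 hr; positivity)) ?_ r
        have h6 := div_le_div_of_nonneg_right (mul_le_mul_of_nonneg_right hC1C hlog) hr0.le
        linarith only [h6]
      have h3 : {a : ℤ | a ∈ A ∧ (1 + C1 * Real.log (A.card : ℝ) / r) ^ r <
          ({b : ℤ | b ∈ A ∧ ∃ e : Fin r → ℤ, (b : ℚ) = a * ∏ i, g i ^ e i ∨
            (b : ℚ) = -(a * ∏ i, g i ^ e i)}.ncard : ℝ)}.Finite :=
        (Finset.finite_toSet A).subset fun a ha => Finset.mem_coe.2 ha.1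
      have h4 := Set.ncard_le_ncard h2 h3
      have h5 : (A.card : ℝ) ^ (1 - 1 / C1) ≤ (A.card : ℝ) ^ (1 - c) :=
        Real.rpow_le_rpow_of_exponent_le hA1 (by linarith only [hcC1])
      refine h5.trans (hcon.le.trans ?_)
      exact_mod_cast h4) D hD
    have h2 : ((Pool.Agent.Helper88.PP.sumS A D).card : ℝ) =
        ((Finset.image₂ (fun a d => a + d) A D).card : ℝ) := by
      unfold Pool.Agent.Helper88.PP.sumS
      rfl
    rw [h2] at h1
    have h3 : 0 ≤ ((A.card : ℝ) * D.card) ^ (1 - ε) := by (clear * - hA hc0 hcC1 hcN0 hcτ hc1 hAll hCd hC1C hC2C hC hcon hη hη0 hηε hη1 hfree hlines hcd hcη hD; positivity)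
    calc c * ((A.card : ℝ) * D.card) ^ (1 - ε) ≤ 1 / C1 * ((A.card : ℝ) * D.card) ^ (1 - ε) :=
          mul_le_mul_of_nonneg_right hcC1 h3
      _ ≤ 1 / C1 * (C1 * ((Finset.image₂ (fun a d => a + d) A D).card : ℝ)) :=
          mul_le_mul_of_nonneg_left h1 (by positivity)
      _ = _ := by (clear * - hC1 hA hD hc0 hcC1 hcN0 hcτ hc1 hAll hCd hC1C hC2C hC hcon hη hη0 hηε hη1 hfree hlines hcd hcη; field_simp)
  · intro P B hP hPc hB
    by_contra hcon
    rw [not_lt] at hcon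
    refine hAll (allD_of_growsB ε η hη0 hηε hη1 c hc0.le hc1 A hA (hfree A P B hP hAN hPc ?_ ?_))
    · exact hB.trans (Real.rpow_le_rpow_of_exponent_le hA1 (by linarith only [hcτ]))
    · refine le_trans (mul_le_mul_of_nonneg_right ?_ (Nat.cast_nonneg _)) hcon
      exact Real.rpow_le_rpow_of_exponent_le hA1 (by linarith only [hcτ])
  · intro S P R hSA hS hP hCR hbad
    by_contra hcon
    rw [not_lt] at hcon
    have hSpos : (0 : ℝ) < S.card := lt_of_lt_of_le (Real.rpow_pos_of_pos hA0 _) hS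
    have hSne : S.Nonempty := by
      rw [← Finset.card_pos]
      exact_mod_cast hSpos
    have hSle : (S.card : ℝ) ≤ A.card := by exact_mod_cast Finset.card_le_card hSA
    have hlogS : Real.log S.card ≤ Real.log A.card := Real.log_le_log hSpos hSle
    have hlogS0 : 0 ≤ Real.log S.card := Real.log_natCast_nonneg _
    have hfil : ∀ p : ℕ, (bad (p : ℚ) S).card = (S.filter (fun a : ℤ => (p : ℤ) * a ∉ S)).card := by
      intro p
      unfold bad
      congr 1
      ext a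
      rw [Finset.mem_filter, Finset.mem_filter]
      refine and_congr_right fun _ => ⟨fun h hb => h _ hb ?_, fun h b hb hba => h ?_⟩
      · push_cast
        ring
      · have h1 : ((b : ℤ) : ℚ) = (((p : ℤ) * a : ℤ) : ℚ) := by rw [hba]; push_cast; ring
        rw [← Int.cast_injective h1]
        exact hb
    have hG : Grows (η / 2) S := by
      refine hlines S P R hSne (hC2C.trans hCR) hP ?_ ?_
      · intro p hp
        rw [hfil]
        exact hbad p hp
      · refine le_trans ?_ hcon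
        exact mul_le_mul hC2C hlogS hlogS0 hC.le
    have h1 := grows_of_subset (η / 2) (η / 2) (by positivity) (by positivity) (by (clear * - hη1; linarith only [hη1])) A S hSA
      hSne ((Real.rpow_le_rpow_of_exponent_le hA1 (by linarith only [hcη])).trans hS) hG
    have h2 : η / 2 + η / 2 = η := by ring
    rw [h2] at h1
    exact hAll (allD_of_growsB ε η hη0 hηε hη1 c hc0.le hc1 A hA (toB h1))

end Pool.Agent.Helper15.GPQ
end

/- Helper24.DI.H15.GPQ.Final -/
section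
set_option autoImplicit false

/-!
# Project GL++ (MP_120218), Final: the sums-alone theorem, with `kA`, and its sharpness
-/

namespace Pool.Agent.Helper15.GPQ

open Finset Pool.Agent.Helper28.LN

/-- `kA` -/
def kS (k : ℕ) (A : Finset ℤ) : Finset ℤ :=
  (Fintype.piFinset (fun _ : Fin k => A)).image (fun f : Fin k → ℤ => ∑ i, f i)

theorem kS_card_le (k : ℕ) (A : Finset ℤ) : (kS k A).card ≤ A.card ^ k := by
  unfold kS
  refine Finset.card_image_le.trans ?_
  rw [Fintype.card_piFinset]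
  simp

theorem kS_zero (A : Finset ℤ) : (kS 0 A).card = 1 := by
  unfold kS
  rw [Finset.card_eq_one]
  refine ⟨0, ?_⟩
  ext z
  rw [Finset.mem_image, Finset.mem_singleton]
  constructor
  · rintro ⟨f, _, rfl⟩
    simp
  · rintro rfl
    exact ⟨fun i => i.elim0, Fintype.mem_piFinset.2 fun i => i.elim0, by simp⟩

theorem kS_nonempty (k : ℕ) (A : Finset ℤ) (hA : A.Nonempty) : (kS k A).Nonempty := by
  unfold kS
  obtain ⟨a, ha⟩ := hA
  exact ⟨_, Finset.mem_image_of_mem _ (Fintype.mem_piFinset.2 fun _ => ha)⟩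

theorem kS_succ (k : ℕ) (A : Finset ℤ) :
    Finset.image₂ (fun a d => a + d) A (kS k A) ⊆ kS (k + 1) A := by
  intro z hz
  obtain ⟨a, ha, d, hd, rfl⟩ := Finset.mem_image₂.1 hz
  unfold kS at hd
  obtain ⟨f, hf, rfl⟩ := Finset.mem_image.1 hd
  rw [Fintype.mem_piFinset] at hf
  unfold kS
  refine Finset.mem_image.2 ⟨Fin.cons a f, ?_, ?_⟩
  · rw [Fintype.mem_piFinset]
    intro i
    induction i using Fin.cases with
    | zero => exact ha
    | succ i => exact hf i
  · rw [Fin.sum_univ_succ]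
    simp

/-- iteration of the first alternative -/
theorem kS_large (ε c : ℝ) (hε : 0 ≤ ε) (hc : 0 < c) (A : Finset ℤ) (hA : A.Nonempty)
    (h : AllD ε c A) (k : ℕ) :
    c ^ k * (A.card : ℝ) ^ ((k : ℝ) - ε * (k * (k + 1))) ≤ (kS k A).card := by
  have hA1 : (1 : ℝ) ≤ A.card := by exact_mod_cast hA.card_pos
  have hA0 : (0 : ℝ) < A.card := by (clear * - hA1; linarith)
  induction k with
  | zero =>
    rw [kS_zero]
    simp
  | succ k ih =>
    have hne := kS_nonempty k A hA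
    have h1 := h (kS k A) hne
    have h2 : ((Finset.image₂ (fun a d => a + d) A (kS k A)).card : ℝ) ≤ (kS (k + 1) A).card := by
      exact_mod_cast Finset.card_le_card (kS_succ k A)
    refine le_trans ?_ (h1.trans h2)
    have hk1 : (1 : ℝ) ≤ (kS k A).card := by exact_mod_cast hne.card_pos
    have hkN : ((kS k A).card : ℝ) ≤ (A.card : ℝ) ^ (k : ℝ) := by
      rw [Real.rpow_natCast]
      exact_mod_cast kS_card_le k A
    have hAk : (A.card : ℝ) * (kS k A).card ≤ (A.card : ℝ) ^ ((k : ℝ) + 1) := by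
      calc (A.card : ℝ) * (kS k A).card ≤ A.card * (A.card : ℝ) ^ (k : ℝ) :=
            mul_le_mul_of_nonneg_left hkN hA0.le
        _ = (A.card : ℝ) ^ ((k : ℝ) + 1) := by
            rw [Real.rpow_add hA0, Real.rpow_one]
            ring
    have hpos : (0 : ℝ) < (A.card : ℝ) * (kS k A).card := by (clear * - hA hne; positivity)
    have h3 : (A.card : ℝ) ^ (-(ε * (k + 1))) ≤ ((A.card : ℝ) * (kS k A).card) ^ (-ε) := by
      have h4 : (((A.card : ℝ) ^ ((k : ℝ) + 1))) ^ (-ε) ≤ ((A.card : ℝ) * (kS k A).card) ^ (-ε) :=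
        Real.rpow_le_rpow_of_nonpos hpos hAk (by linarith)
      rw [← Real.rpow_mul hA0.le] at h4
      have h5 : ((k : ℝ) + 1) * -ε = -(ε * (k + 1)) := by ring
      rwa [h5] at h4
    have h6 : ((A.card : ℝ) * (kS k A).card) ^ (1 - ε) =
        (A.card : ℝ) * (kS k A).card * ((A.card : ℝ) * (kS k A).card) ^ (-ε) := by
      rw [sub_eq_add_neg, Real.rpow_add hpos, Real.rpow_one]
    rw [h6]
    have h7 : c ^ (k + 1) * (A.card : ℝ) ^ (((k + 1 : ℕ) : ℝ) - ε * (((k + 1 : ℕ) : ℝ) *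
        (((k + 1 : ℕ) : ℝ) + 1))) ≤ c * ((A.card : ℝ) * (c ^ k * (A.card : ℝ) ^ ((k : ℝ) - ε *
          (k * (k + 1)))) * (A.card : ℝ) ^ (-(ε * (k + 1)))) := by
      have e1 : c * ((A.card : ℝ) * (c ^ k * (A.card : ℝ) ^ ((k : ℝ) - ε *
          (k * (k + 1)))) * (A.card : ℝ) ^ (-(ε * (k + 1)))) =
          c ^ (k + 1) * ((A.card : ℝ) ^ (1 : ℝ) * (A.card : ℝ) ^ ((k : ℝ) - ε *
          (k * (k + 1))) * (A.card : ℝ) ^ (-(ε * (k + 1)))) := by
        rw [Real.rpow_one]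
        ring
      rw [e1, ← Real.rpow_add hA0, ← Real.rpow_add hA0]
      refine mul_le_mul_of_nonneg_left (Real.rpow_le_rpow_of_exponent_le hA1 ?_) (by positivity)
      push_cast
      have hk0 : (0 : ℝ) ≤ k := Nat.cast_nonneg k
      (clear * - hε; nlinarith only [hε])
    refine h7.trans ?_
    refine mul_le_mul_of_nonneg_left ?_ hc.le
    refine mul_le_mul (mul_le_mul_of_nonneg_left ih hA0.le) h3
      (Real.rpow_nonneg hA0.le _) (by (clear * - hA hne; positivity))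

/-- **The sums-alone theorem.** -/
theorem final :
    (∀ k : ℕ, ∀ ε δ : ℝ, 0 < ε → 0 < δ → ∃ C c : ℝ, 0 < C ∧ 0 < c ∧
      ∀ A : Finset ℤ, A.Nonempty →
        ((∀ D : Finset ℤ, D.Nonempty → c * ((A.card : ℝ) * D.card) ^ (1 - ε) ≤
            ((Finset.image₂ (fun a d => a + d) A D).card : ℝ)) ∧
          c * (A.card : ℝ) ^ ((k : ℝ) - ε) ≤
            (((Fintype.piFinset (fun _ : Fin k => A)).image
              (fun f : Fin k → ℤ => ∑ i, f i)).card : ℝ)) ∨
        ((∀ P B : Finset ℚ, (∀ s ∈ P, s ≠ 0) → (A.card : ℝ) ^ δ ≤ P.card →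
            (B.card : ℝ) ≤ (A.card : ℝ) ^ (1 + c) →
            (((A ×ˢ P).filter (fun q : ℤ × ℚ => (q.1 : ℚ) * q.2 ∈ B)).card : ℝ) <
              (A.card : ℝ) ^ (1 - c) * P.card) ∧
         (∀ (r : ℕ) (g : Fin r → ℚ), 1 ≤ r → (∀ i, g i ≠ 0) →
            ({a : ℤ | a ∈ A ∧ (1 + C * Real.log (A.card : ℝ) / r) ^ r <
              ({b : ℤ | b ∈ A ∧ ∃ e : Fin r → ℤ, (b : ℚ) = a * ∏ i, g i ^ e i ∨
                (b : ℚ) = -(a * ∏ i, g i ^ e i)}.ncard : ℝ)}.ncard : ℝ) ≤
              (A.card : ℝ) ^ (1 - c)) ∧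
         (∀ (S : Finset ℤ) (P : Finset ℕ) (R : ℝ), S ⊆ A →
            (A.card : ℝ) ^ (1 - c) ≤ S.card → (∀ p ∈ P, p.Prime) → C ≤ R →
            (∀ p ∈ P, R * ((S.filter (fun a : ℤ => (p : ℤ) * a ∉ S)).card : ℝ) ≤ S.card) →
            R * P.card * Real.log (P.card + 1) < C * Real.log (A.card : ℝ)))) ∧
    (∀ η : ℝ, 0 < η → ∃ c : ℝ, 0 < c ∧ ∀ r n : ℕ, 1 ≤ r → 1 ≤ n →
      ∃ (A : Finset ℤ) (p : Fin r → ℕ), (∀ i, (p i).Prime) ∧ Function.Injective p ∧
        (n : ℝ) * r * Real.log (r + 1) ≤ Real.log (A.card : ℝ) ∧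
        c * Real.log (A.card : ℝ) ≤ (n : ℝ) * r * Real.log (r + 1) ∧
        (∀ k : ℕ, (((Fintype.piFinset (fun _ : Fin k => A)).image
          (fun f : Fin k → ℤ => ∑ i, f i)).card : ℝ) ≤
            ((k : ℝ) + 1) * (A.card : ℝ) ^ (1 + η)) ∧
        (∀ i, (n : ℝ) * ((A.filter (fun a : ℤ => (p i : ℤ) * a ∉ A)).card : ℝ) ≤ A.card) ∧
        (∀ a ∈ A, n ^ r ≤ {b : ℤ | b ∈ A ∧ ∃ e : Fin r → ℤ,
          (b : ℚ) = a * ∏ i, (p i : ℚ) ^ e i}.ncard) ∧
        ∀ P : Finset ℚ, P = (Fintype.piFinset (fun _ : Fin r => Finset.Icc (-1 : ℤ) 1)).image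
            (fun e => ∏ i, (p i : ℚ) ^ e i) →
          P.card = 3 ^ r ∧
          n ^ r * (Finset.image₂ (fun (a : ℤ) (s : ℚ) => (a : ℚ) * s) A P).card ≤
            (n + 2) ^ r * A.card) := by
  classical
  constructor
  · intro k ε δ hε hδ
    have hk0 : (0 : ℝ) ≤ k := Nat.cast_nonneg k
    have hkk : (0 : ℝ) < (k : ℝ) * (k + 1) + 1 := by (clear * -; positivity)
    obtain ⟨ε', hε'⟩ : ∃ ε' : ℝ, ε' = ε / ((k : ℝ) * (k + 1) + 1) := ⟨_, rfl⟩
    have hε'0 : 0 < ε' := by rw [hε']; (clear * - hε; positivity)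
    have hε'1 : ε' ≤ ε := by
      rw [hε', div_le_iff₀ hkk]
      (clear * - hε hk0; linarith only [mul_nonneg hε.le (mul_nonneg hk0 (show (0 : ℝ) ≤ k + 1 by linarith))])
    have hε'2 : ε' * (k * (k + 1)) ≤ ε := by
      rw [hε', div_mul_eq_mul_div, div_le_iff₀ hkk]
      linarith only [hε'0, hε'1]
    obtain ⟨C, c', hC, hc', h⟩ := dichotomy ε' δ hε'0 hδ
    obtain ⟨c, hcd⟩ : ∃ c : ℝ, c = min c' (c' ^ k) := ⟨_, rfl⟩
    have hc0 : 0 < c := by rw [hcd]; exact lt_min hc' (by positivity)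
    have hcc' : c ≤ c' := by rw [hcd]; exact min_le_left _ _
    have hcck : c ≤ c' ^ k := by rw [hcd]; exact min_le_right _ _
    refine ⟨C, c, hC, hc0, fun A hA => ?_⟩
    have hA1 : (1 : ℝ) ≤ A.card := by exact_mod_cast hA.card_pos
    have hA0 : (0 : ℝ) < A.card := by (clear * - hA1; linarith)
    rcases h A hA with h1 | ⟨h1, h2, h3⟩
    · left
      constructor
      · intro D hD
        have hD1 : (1 : ℝ) ≤ D.card := by exact_mod_cast hD.card_pos
        have hAD1 : (1 : ℝ) ≤ (A.card : ℝ) * D.card := by (clear * - hA1 hD1; nlinarith only [hA1, hD1])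
        refine le_trans ?_ (h1 D hD)
        refine mul_le_mul hcc' ?_ (by (clear * - hA hcd hc0 hcc' hcck hε' hε'0 hε'1 hε'2 h h1 hD; positivity)) hc'.le
        exact Real.rpow_le_rpow_of_exponent_le hAD1 (by linarith only [hε'1])
      · have h4 := kS_large ε' c' hε'0.le hc' A hA h1 k
        refine le_trans ?_ h4
        refine mul_le_mul hcck ?_ (by positivity) (by positivity)
        exact Real.rpow_le_rpow_of_exponent_le hA1 (by linarith only [hε'2])
    · right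
      refine ⟨?_, ?_, ?_⟩
      · intro P B hP hPc hB
        refine lt_of_lt_of_le (h2 P B hP hPc (hB.trans
          (Real.rpow_le_rpow_of_exponent_le hA1 (by linarith only [hcc'])))) ?_
        exact mul_le_mul_of_nonneg_right (Real.rpow_le_rpow_of_exponent_le hA1 (by linarith only [hcc']))
          (Nat.cast_nonneg _)
      · intro r g hr hg
        exact (h1 r g hr hg).trans (Real.rpow_le_rpow_of_exponent_le hA1 (by linarith only [hcc']))
      · intro S P R hSA hS hP hCR hbad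
        exact h3 S P R hSA ((Real.rpow_le_rpow_of_exponent_le hA1 (by (clear * - hcc'; linarith))).trans hS) hP hCR
          hbad
  · intro η hη
    obtain ⟨c, hc, h⟩ := sharp2 η hη
    refine ⟨c, hc, fun r n hr hn => ?_⟩
    obtain ⟨A, p, hp, hinj, h1, h2, h3, h4, h5, h6, h7⟩ := h r n hr hn
    refine ⟨A, p, hp, hinj, h1, h2, h3, ?_, h5, ?_⟩
    · intro i
      have h8 := h4 i
      have h9 : (bad ((p i : ℕ) : ℚ) A).card =
          (A.filter (fun a : ℤ => ((p i : ℕ) : ℤ) * a ∉ A)).card := by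
        unfold bad
        congr 1
        ext a
        rw [Finset.mem_filter, Finset.mem_filter]
        refine and_congr_right fun _ => ⟨fun h hb => h _ hb ?_, fun h b hb hba => h ?_⟩
        · push_cast
          ring
        · have h10 : ((b : ℤ) : ℚ) = ((((p i : ℕ) : ℤ) * a : ℤ) : ℚ) := by
            rw [hba]
            push_cast
            ring
          rw [← Int.cast_injective h10]
          exact hb
      rw [h9] at h8
      exact h8
    · intro P hP
      subst hP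
      have h10 : (Fintype.piFinset (fun _ : Fin r => Finset.Icc (-1 : ℤ) 1)).image
          (fun e => ∏ i, (p i : ℚ) ^ e i) = gprog (fun i => (p i : ℚ)) 1 := by
        unfold gprog
        norm_num
      rw [h10]
      exact ⟨h6, h7⟩

end Pool.Agent.Helper15.GPQ
end

/- Helper24.DI.H15.GPR.Form -/
section
set_option autoImplicit false

/-!
# Project GL++ (MP_120218), Form: the bounds for the number of dilations
-/

namespace Pool.Agent.Helper15.GPR

open Finset Pool.Agent.Helper15.GPQ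

theorem K_log (K c : ℝ) (hK : 1 ≤ K) (hc : 0 < c) (hc1 : c ≤ 1) :
    Real.log K + Real.log (1 / c) ≤ (1 + 2 * Real.log (1 / c)) * Real.log (2 * K) := by
  have h1 : 0 ≤ Real.log (1 / c) := by
    apply Real.log_nonneg
    rw [le_div_iff₀ hc]
    (clear * - hc1; linarith only [hc1])
  have h2 : Real.log (2 * K) = Real.log 2 + Real.log K :=
    Real.log_mul (by norm_num) (by (clear * - hK; linarith only [hK]))
  have h3 := Real.log_two_gt_d9
  have h4 : 0 ≤ Real.log K := Real.log_nonneg hK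
  have h5 : Real.log (1 / c) * 1 ≤ Real.log (1 / c) * (2 * Real.log (2 * K)) :=
    mul_le_mul_of_nonneg_left (by (clear * - h2 h3 h4; linarith only [h2, h3, h4])) h1
  (clear * - h2 h3 h5; linarith only [h2, h3, h5])

/-- a subset of given size with at least the average -/
theorem avg_subset (f : ℚ → ℝ) (hf : ∀ s, 0 ≤ f s) (m : ℕ) : ∀ (j : ℕ) (P : Finset ℚ),
    P.card = m + j → ∃ Q : Finset ℚ, Q ⊆ P ∧ Q.card = m ∧
      (m : ℝ) * ∑ s ∈ P, f s ≤ P.card * ∑ s ∈ Q, f s := by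
  classical
  intro j
  induction j with
  | zero =>
    intro P hP
    refine ⟨P, subset_rfl, by omega, ?_⟩
    rw [hP, add_zero]
  | succ j ih =>
    intro P hP
    rcases Nat.eq_zero_or_pos m with hm | hm
    · refine ⟨∅, Finset.empty_subset _, by rw [hm]; rfl, ?_⟩
      rw [hm, Finset.sum_empty, Nat.cast_zero, zero_mul, mul_zero]
    have hne : P.Nonempty := by
      rw [← Finset.card_pos]
      omega
    obtain ⟨t, ht, hmin⟩ := Finset.exists_min_image P f hne
    have hc : (P.erase t).card = m + j := by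
      rw [Finset.card_erase_of_mem ht]
      omega
    obtain ⟨Q, hQ, hQc, hQs⟩ := ih (P.erase t) hc
    refine ⟨Q, hQ.trans (Finset.erase_subset _ _), hQc, ?_⟩
    have h1 : (P.card : ℝ) * f t ≤ ∑ s ∈ P, f s := by
      have := Finset.card_nsmul_le_sum P f (f t) (fun s hs => hmin s hs)
      rwa [nsmul_eq_mul] at this
    have h2 : ∑ s ∈ P, f s = f t + ∑ s ∈ P.erase t, f s := (Finset.add_sum_erase P f ht).symm
    obtain ⟨x, hx⟩ : ∃ x : ℝ, x = ∑ s ∈ P, f s := ⟨_, rfl⟩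
    obtain ⟨y, hy⟩ : ∃ y : ℝ, y = ∑ s ∈ P.erase t, f s := ⟨_, rfl⟩
    obtain ⟨z, hz⟩ : ∃ z : ℝ, z = ∑ s ∈ Q, f s := ⟨_, rfl⟩
    rw [← hx] at h1 h2
    rw [← hy] at h2 hQs
    rw [← hz] at hQs
    rw [← hx, ← hz]
    have hcR : ((P.erase t).card : ℝ) = (P.card : ℝ) - 1 := by
      rw [Finset.card_erase_of_mem ht, Nat.cast_sub (by omega)]
      norm_num
    rw [hcR] at hQs
    have hp1 : (1 : ℝ) ≤ (P.card : ℝ) - 1 := by
      have : 2 ≤ P.card := by omega
      have h3 : (2 : ℝ) ≤ P.card := by exact_mod_cast this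
      linarith only [h3]
    have hm0 : (0 : ℝ) ≤ m := Nat.cast_nonneg m
    have h3 : ((P.card : ℝ) - 1) * x ≤ P.card * y := by
      have : P.card * y = P.card * x - P.card * f t := by rw [h2]; ring
      rw [this]
      (clear * - h1; linarith only [h1])
    have h4 : ((P.card : ℝ) - 1) * (m * x) ≤ ((P.card : ℝ) - 1) * (P.card * z) := by
      calc ((P.card : ℝ) - 1) * (m * x) = m * (((P.card : ℝ) - 1) * x) := by ring
        _ ≤ m * (P.card * y) := mul_le_mul_of_nonneg_left h3 hm0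
        _ = P.card * (m * y) := by ring
        _ ≤ P.card * (((P.card : ℝ) - 1) * z) :=
            mul_le_mul_of_nonneg_left hQs (Nat.cast_nonneg _)
        _ = _ := by ring
    exact le_of_mul_le_mul_left h4 (by linarith only [hp1])

theorem exists_ne_zero_of_two (A : Finset ℤ) (hA : 2 ≤ A.card) : ∃ a ∈ A, a ≠ 0 := by
  by_contra hcon
  push Not at hcon
  have h1 : A ⊆ {0} := fun a ha => Finset.mem_singleton.2 (hcon a ha)
  have h2 := Finset.card_le_card h1
  rw [Finset.card_singleton] at h2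
  omega

theorem card_P_le (A : Finset ℤ) (hA : 2 ≤ A.card) (P : Finset ℚ) : P.card ≤ (prd A P).card := by
  classical
  obtain ⟨a, ha, ha0⟩ := exists_ne_zero_of_two A hA
  refine Finset.card_le_card_of_injOn (fun s => (a : ℚ) * s) ?_ ?_
  · intro s hs
    exact Finset.mem_coe.2 (Finset.mem_image₂_of_mem ha (Finset.mem_coe.1 hs))
  · intro s _ t _ h
    exact mul_left_cancel₀ (by exact_mod_cast ha0) h

/-- **The number of dilations which do not expand the set.** -/
theorem form1 (η B : ℝ) (hη : 0 < η) (hη1 : η ≤ 1) (hB : 0 ≤ B) :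
    ∃ C : ℝ, 0 < C ∧ ∀ A : Finset ℤ, 2 ≤ A.card → ¬ GrowsB η B A →
      ∀ (P : Finset ℚ) (K : ℝ), (∀ s ∈ P, s ≠ 0) → 1 ≤ K → K ≤ A.card →
        ((prd A P).card : ℝ) ≤ K * A.card →
        Real.log P.card ^ 2 ≤ C * Real.log A.card * Real.log (2 * K) := by
  classical
  obtain ⟨cq, hcq, hquant⟩ := grow_quant η B hη hη1 hB
  obtain ⟨c, hc⟩ : ∃ c : ℝ, c = min cq 1 := ⟨_, rfl⟩
  have hc0 : 0 < c := by rw [hc]; exact lt_min hcq one_pos
  have hcc : c ≤ cq := by rw [hc]; exact min_le_left _ _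
  have hc1 : c ≤ 1 := by rw [hc]; exact min_le_right _ _
  have hlc : 0 ≤ Real.log (1 / c) := by
    apply Real.log_nonneg
    rw [le_div_iff₀ hc0]
    linarith only [hc1]
  obtain ⟨C1, hC1⟩ : ∃ C1 : ℝ, C1 = (1 + 2 * Real.log (1 / c)) / c := ⟨_, rfl⟩
  have hC10 : 0 < C1 := by rw [hC1]; (clear * - hlc hc0; positivity)
  refine ⟨4 * C1, by positivity, ?_⟩
  intro A hA2 hG P K hP0 hK1 hKA hAP
  obtain ⟨L, hL⟩ : ∃ L : ℝ, L = Real.log A.card := ⟨_, rfl⟩
  obtain ⟨κ, hκ⟩ : ∃ κ : ℝ, κ = Real.log (2 * K) := ⟨_, rfl⟩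
  have hN2 : (2 : ℝ) ≤ A.card := by exact_mod_cast hA2
  have hN0 : (0 : ℝ) < A.card := by linarith only [hN2]
  have hL0 : 0 < L := by rw [hL]; exact Real.log_pos (by linarith only [hN2])
  have hκ0 : 0 < κ := by rw [hκ]; exact Real.log_pos (by linarith only [hK1])
  rw [← hL, ← hκ]
  -- at most `|A|` dilations
  have key : ∀ Q : Finset ℚ, Q.Nonempty → (∀ s ∈ Q, s ≠ 0) → Q.card ≤ A.card →
      ((prd A Q).card : ℝ) ≤ K * A.card → Real.log Q.card ^ 2 ≤ C1 * L * κ := by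
    intro Q hQne hQ0 hQA hAQ
    obtain ⟨u, hu⟩ : ∃ u : ℝ, u = Real.log Q.card := ⟨_, rfl⟩
    rw [← hu]
    have h1 : c * A.card * Real.exp (c * u ^ 2 / L) ≤ K * A.card := by
      refine le_trans ?_ hAQ
      by_contra hcon
      rw [not_le] at hcon
      refine hG (hquant A Q hQ0 hQne hQA (lt_of_lt_of_le hcon ?_))
      rw [← hu, ← hL]
      have h2 : c * u ^ 2 / L ≤ cq * u ^ 2 / L :=
        div_le_div_of_nonneg_right (mul_le_mul_of_nonneg_right hcc (sq_nonneg _)) hL0.le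
      exact mul_le_mul (mul_le_mul_of_nonneg_right hcc hN0.le) (Real.exp_le_exp.2 h2)
        (Real.exp_pos _).le (by (clear * - hcq hA2; positivity))
    have h2 : c * Real.exp (c * u ^ 2 / L) ≤ K := by
      have h3 : (A.card : ℝ) * (c * Real.exp (c * u ^ 2 / L)) ≤ A.card * K := by linarith only [h1]
      exact le_of_mul_le_mul_left h3 hN0
    have h3 := Real.log_le_log (by positivity) h2
    rw [Real.log_mul hc0.ne' (Real.exp_pos _).ne', Real.log_exp] at h3
    have h4 := K_log K c hK1 hc0 hc1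
    have h5 : Real.log (1 / c) = -Real.log c := by rw [one_div, Real.log_inv]
    rw [← hκ] at h4
    have h6 : c * u ^ 2 / L ≤ (1 + 2 * Real.log (1 / c)) * κ := by (clear * - h3 h4 h5; linarith only [h3, h4, h5])
    rw [div_le_iff₀ hL0] at h6
    have h7 : c * u ^ 2 ≤ c * (C1 * L * κ) := by
      refine h6.trans (le_of_eq ?_)
      rw [hC1]
      (clear * - hc0 hL0 hκ0 hlc; field_simp)
    exact le_of_mul_le_mul_left h7 hc0
  have hC1L : 0 ≤ C1 * L * κ := by (clear * - hC10 hL0 hκ0; positivity)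
  rcases P.eq_empty_or_nonempty with hPe | hPne
  · rw [hPe, Finset.card_empty, Nat.cast_zero, Real.log_zero]
    linarith only [hC1L]
  by_cases hPA : P.card ≤ A.card
  · have h1 := key P hPne hP0 hPA hAP
    linarith only [hC1L, h1]
  · rw [not_le] at hPA
    obtain ⟨Q, hQP, hQc⟩ := Finset.exists_subset_card_eq (s := P) (n := A.card) hPA.le
    have hQne : Q.Nonempty := by
      rw [← Finset.card_pos]
      omega
    have h1 := key Q hQne (fun s hs => hP0 s (hQP hs)) hQc.le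
      (le_trans (by exact_mod_cast prd_card_mono A hQP) hAP)
    rw [hQc, ← hL] at h1
    have h2 : Real.log P.card ≤ 2 * L := by
      have h3 : (P.card : ℝ) ≤ A.card * A.card := by
        calc (P.card : ℝ) ≤ (prd A P).card := by exact_mod_cast card_P_le A hA2 P
          _ ≤ K * A.card := hAP
          _ ≤ A.card * A.card := mul_le_mul_of_nonneg_right hKA hN0.le
      have h4 := Real.log_le_log (by exact_mod_cast hPne.card_pos) h3
      rw [Real.log_mul hN0.ne' hN0.ne', ← hL] at h4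
      linarith only [h4]
    have h3 : 0 ≤ Real.log P.card := Real.log_natCast_nonneg _
    have h4 : Real.log P.card ^ 2 ≤ (2 * L) ^ 2 := pow_le_pow_left₀ h3 h2 2
    linarith only [h1, h4]

theorem count_le (A : Finset ℤ) (P B : Finset ℚ) :
    ((A ×ˢ P).filter (fun q : ℤ × ℚ => (q.1 : ℚ) * q.2 ∈ B)).card ≤ P.card + A.card * B.card := by
  classical
  have h1 : (A ×ˢ P).filter (fun q : ℤ × ℚ => (q.1 : ℚ) * q.2 ∈ B) ⊆
      (P.image (fun s => ((0 : ℤ), s))) ∪
        ((A ×ˢ P).filter (fun q : ℤ × ℚ => q.1 ≠ 0 ∧ (q.1 : ℚ) * q.2 ∈ B)) := by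
    rintro ⟨a, s⟩ hq
    rw [Finset.mem_filter, Finset.mem_product] at hq
    rw [Finset.mem_union]
    by_cases ha : a = 0
    · left
      exact Finset.mem_image.2 ⟨s, hq.1.2, by rw [ha]⟩
    · right
      exact Finset.mem_filter.2 ⟨Finset.mem_product.2 hq.1, ha, hq.2⟩
  refine (Finset.card_le_card h1).trans ((Finset.card_union_le _ _).trans
    (Nat.add_le_add Finset.card_image_le ?_))
  rw [← Finset.card_product]
  refine Finset.card_le_card_of_injOn (fun q : ℤ × ℚ => (q.1, (q.1 : ℚ) * q.2)) ?_ ?_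
  · rintro ⟨a, s⟩ hq
    have h2 := Finset.mem_filter.1 (Finset.mem_coe.1 hq)
    have h3 := Finset.mem_product.1 h2.1
    exact Finset.mem_coe.2 (Finset.mem_product.2 ⟨h3.1, h2.2.2⟩)
  · rintro ⟨a, s⟩ hq ⟨a', s'⟩ _ h
    have h2 := (Finset.mem_filter.1 (Finset.mem_coe.1 hq)).2.1
    obtain ⟨e1, e2⟩ := Prod.mk.inj h
    simp only at e1 e2 h2
    subst e1
    have e3 : s = s' := mul_left_cancel₀ (by exact_mod_cast h2) e2
    rw [e3]

/-- **The number of dilations with many coincidences.** -/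
theorem form2 (η B : ℝ) (hη : 0 < η) (hη1 : η ≤ 1) (hB : 0 ≤ B) :
    ∃ C : ℝ, 0 < C ∧ ∀ A : Finset ℤ, 2 ≤ A.card → ¬ GrowsB η B A →
      ∀ (P D : Finset ℚ) (K : ℝ), (∀ s ∈ P, s ≠ 0) → 1 ≤ K → K ^ 2 ≤ A.card →
        (D.card : ℝ) ≤ K * A.card →
        (A.card : ℝ) * P.card ≤
          K * (((A ×ˢ P).filter (fun q : ℤ × ℚ => (q.1 : ℚ) * q.2 ∈ D)).card : ℝ) →
        Real.log P.card ^ 3 ≤ C * Real.log A.card ^ 2 * Real.log (2 * K) := by
  classical
  obtain ⟨c, hc0, hc1, hinc⟩ := grow_inc3 η B hη hη1 hB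
  have hlc : 0 ≤ Real.log (1 / c) := by
    apply Real.log_nonneg
    rw [le_div_iff₀ hc0]
    linarith only [hc1]
  obtain ⟨C1, hC1⟩ : ∃ C1 : ℝ, C1 = (1 + 2 * Real.log (1 / c)) / c := ⟨_, rfl⟩
  have hC10 : 0 < C1 := by rw [hC1]; (clear * - hlc hc0; positivity)
  refine ⟨64 * C1, by positivity, ?_⟩
  intro A hA2 hG P D K hP0 hK1 hKA hD hcount
  obtain ⟨L, hL⟩ : ∃ L : ℝ, L = Real.log A.card := ⟨_, rfl⟩
  obtain ⟨κ, hκ⟩ : ∃ κ : ℝ, κ = Real.log (2 * K) := ⟨_, rfl⟩
  have hN2 : (2 : ℝ) ≤ A.card := by exact_mod_cast hA2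
  have hN0 : (0 : ℝ) < A.card := by (clear * - hN2; linarith only [hN2])
  have hL0 : 0 < L := by rw [hL]; exact Real.log_pos (by linarith only [hN2])
  have hκ0 : 0 < κ := by rw [hκ]; exact Real.log_pos (by (clear * - hK1; linarith only [hK1]))
  have hK0 : 0 < K := by linarith only [hK1]
  rw [← hL, ← hκ]
  -- at most `|A|` dilations
  have key : ∀ Q : Finset ℚ, Q.Nonempty → (∀ s ∈ Q, s ≠ 0) → Q.card ≤ A.card →
      (A.card : ℝ) * Q.card ≤
        K * (((A ×ˢ Q).filter (fun q : ℤ × ℚ => (q.1 : ℚ) * q.2 ∈ D)).card : ℝ) →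
      Real.log Q.card ^ 3 ≤ C1 * L ^ 2 * κ := by
    intro Q hQne hQ0 hQA hAQ
    obtain ⟨u, hu⟩ : ∃ u : ℝ, u = Real.log Q.card := ⟨_, rfl⟩
    obtain ⟨X, hX⟩ : ∃ X : ℝ, X = (((A ×ˢ Q).filter
      (fun q : ℤ × ℚ => (q.1 : ℚ) * q.2 ∈ D)).card : ℝ) := ⟨_, rfl⟩
    rw [← hu]
    rw [← hX] at hAQ
    have hQp : (0 : ℝ) < Q.card := by exact_mod_cast hQne.card_pos
    have hX0 : 0 < X := by
      have h1 : 0 < K * X := lt_of_lt_of_le (mul_pos hN0 hQp) hAQ
      exact (pos_iff_pos_of_mul_pos h1).1 hK0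
    have h2 : c * Real.exp (c * u ^ 3 / L ^ 2) ≤ K := by
      by_contra hcon
      rw [not_le] at hcon
      refine hG (hinc A Q D hQ0 hQne hQA ?_ ?_)
      · rw [← hu, ← hL]
        have h3 : K ≤ Real.exp (c * u ^ 3 / L ^ 2) :=
          hcon.le.trans (mul_le_of_le_one_left (Real.exp_pos _).le hc1)
        refine hD.trans ?_
        rw [mul_comm]
        exact mul_le_mul_of_nonneg_left h3 hN0.le
      · rw [← hu, ← hL, ← hX]
        exact lt_of_le_of_lt hAQ (mul_lt_mul_of_pos_right hcon hX0)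
    have h3 := Real.log_le_log (by positivity) h2
    rw [Real.log_mul hc0.ne' (Real.exp_pos _).ne', Real.log_exp] at h3
    have h4 := K_log K c hK1 hc0 hc1
    have h5 : Real.log (1 / c) = -Real.log c := by rw [one_div, Real.log_inv]
    rw [← hκ] at h4
    have h6 : c * u ^ 3 / L ^ 2 ≤ (1 + 2 * Real.log (1 / c)) * κ := by linarith only [h3, h4, h5]
    rw [div_le_iff₀ (by positivity)] at h6
    have h7 : c * u ^ 3 ≤ c * (C1 * L ^ 2 * κ) := by
      refine h6.trans (le_of_eq ?_)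
      rw [hC1]
      (clear * - hc0 hL0 hκ0 hlc; field_simp)
    exact le_of_mul_le_mul_left h7 hc0
  have hC1L : 0 ≤ C1 * L ^ 2 * κ := by (clear * - hC10 hL0 hκ0; positivity)
  rcases P.eq_empty_or_nonempty with hPe | hPne
  · rw [hPe, Finset.card_empty, Nat.cast_zero, Real.log_zero]
    have h1 : (0 : ℝ) ^ 3 = 0 := by norm_num
    rw [h1]
    linarith only [hC1L]
  by_cases hPA : P.card ≤ A.card
  · have h1 := key P hPne hP0 hPA hcount
    (clear * - hC1L h1; linarith only [hC1L, h1])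
  · rw [not_le] at hPA
    obtain ⟨Q, hQP, hQc, hQs⟩ := avg_subset (fun s => ((inc A D s).card : ℝ))
      (fun s => Nat.cast_nonneg _) A.card (P.card - A.card) P (by omega)
    have hQne : Q.Nonempty := by
      rw [← Finset.card_pos]
      omega
    have hPp : (0 : ℝ) < P.card := by exact_mod_cast hPne.card_pos
    have e1 : ∑ s ∈ P, ((inc A D s).card : ℝ) =
        (((A ×ˢ P).filter (fun q : ℤ × ℚ => (q.1 : ℚ) * q.2 ∈ D)).card : ℝ) := by
      rw [count_eq]
      push_cast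
      rfl
    have e2 : ∑ s ∈ Q, ((inc A D s).card : ℝ) =
        (((A ×ˢ Q).filter (fun q : ℤ × ℚ => (q.1 : ℚ) * q.2 ∈ D)).card : ℝ) := by
      rw [count_eq]
      push_cast
      rfl
    rw [e1, e2] at hQs
    have h1 := key Q hQne (fun s hs => hP0 s (hQP hs)) hQc.le (by
      rw [hQc]
      have h2 : (P.card : ℝ) * (A.card * A.card) ≤ P.card *
          (K * (((A ×ˢ Q).filter (fun q : ℤ × ℚ => (q.1 : ℚ) * q.2 ∈ D)).card : ℝ)) := by
        calc (P.card : ℝ) * (A.card * A.card) = A.card * (A.card * P.card) := by ring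
          _ ≤ A.card * (K * (((A ×ˢ P).filter
              (fun q : ℤ × ℚ => (q.1 : ℚ) * q.2 ∈ D)).card : ℝ)) :=
              mul_le_mul_of_nonneg_left hcount hN0.le
          _ = K * (A.card * (((A ×ˢ P).filter
              (fun q : ℤ × ℚ => (q.1 : ℚ) * q.2 ∈ D)).card : ℝ)) := by ring
          _ ≤ K * (P.card * (((A ×ˢ Q).filter
              (fun q : ℤ × ℚ => (q.1 : ℚ) * q.2 ∈ D)).card : ℝ)) :=
              mul_le_mul_of_nonneg_left hQs hK0.le
          _ = _ := by ring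
      exact le_of_mul_le_mul_left h2 hPp)
    rw [hQc, ← hL] at h1
    have h2 : Real.log P.card ≤ 4 * L := by
      have h3 : (P.card : ℝ) ≤ (A.card : ℝ) ^ 4 := by
        have h4 : (((A ×ˢ P).filter (fun q : ℤ × ℚ => (q.1 : ℚ) * q.2 ∈ D)).card : ℝ) ≤
            P.card + A.card * D.card := by exact_mod_cast count_le A P D
        have h5 : (A.card : ℝ) * P.card ≤ K * (P.card + A.card * (K * A.card)) :=
          hcount.trans (mul_le_mul_of_nonneg_left (h4.trans
            (by linarith only [mul_le_mul_of_nonneg_left hD hN0.le])) hK0.le)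
        have h6 : K ≤ 3 / 4 * A.card := by
          by_contra hcon
          rw [not_le] at hcon
          (clear * - hKA hN2 hcon; nlinarith only [hKA, hN2, hcon])
        have h7 : K * P.card ≤ 3 / 4 * A.card * P.card := mul_le_mul_of_nonneg_right h6 hPp.le
        have h8 : K * (A.card * (K * A.card)) ≤ (A.card : ℝ) ^ 3 := by
          calc K * (A.card * (K * A.card)) = K ^ 2 * (A.card : ℝ) ^ 2 := by ring
            _ ≤ A.card * (A.card : ℝ) ^ 2 := mul_le_mul_of_nonneg_right hKA (by (clear * - hA2; positivity))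
            _ = (A.card : ℝ) ^ 3 := by ring
        have h9 : (A.card : ℝ) * P.card ≤ A.card * (4 * (A.card : ℝ) ^ 2) := by
          have : (A.card : ℝ) * (4 * (A.card : ℝ) ^ 2) = 4 * (A.card : ℝ) ^ 3 := by ring
          rw [this]
          linarith only [h5, h7, h8]
        have h10 := le_of_mul_le_mul_left h9 hN0
        have h11 : (4 : ℝ) ≤ (A.card : ℝ) ^ 2 := by nlinarith only [hN2]
        calc (P.card : ℝ) ≤ 4 * (A.card : ℝ) ^ 2 := h10
          _ ≤ (A.card : ℝ) ^ 2 * (A.card : ℝ) ^ 2 := mul_le_mul_of_nonneg_right h11 (by (clear * - hA2; positivity))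
          _ = (A.card : ℝ) ^ 4 := by ring
      have h4 := Real.log_le_log hPp h3
      rw [Real.log_pow, ← hL] at h4
      push_cast at h4
      linarith only [h4]
    have h3 : 0 ≤ Real.log P.card := Real.log_natCast_nonneg _
    have h4 : Real.log P.card ^ 3 ≤ (4 * L) ^ 3 := pow_le_pow_left₀ h3 h2 3
    have h5 : (4 * L) ^ 3 = 64 * L ^ 3 := by ring
    linarith only [h1, h4]

end Pool.Agent.Helper15.GPR
end

/- Helper24.DI.H15.GPR.Final3 -/
section
set_option autoImplicit false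

/-!
# Project GL++ (MP_120218), Final3: the sums-alone theorem, for any number of dilations
-/

namespace Pool.Agent.Helper15.GPR

open Finset Pool.Agent.Helper15.GPQ Pool.Agent.Helper28.LN

theorem AllD.mono {ε c c' : ℝ} (h : c' ≤ c) {A : Finset ℤ} (hA : AllD ε c A) : AllD ε c' A := by
  intro D hD
  refine le_trans (mul_le_mul_of_nonneg_right h ?_) (hA D hD)
  exact Real.rpow_nonneg (by (clear * - hD; positivity)) _

/-- **The sums-alone theorem.** -/
theorem main3 (k : ℕ) (ε : ℝ) (hε : 0 < ε) : ∃ C c : ℝ, 0 < C ∧ 0 < c ∧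
      ∀ A : Finset ℤ, 1 < A.card →
        ((∀ D : Finset ℤ, D.Nonempty → c * ((A.card : ℝ) * D.card) ^ (1 - ε) ≤
            ((Finset.image₂ (fun a d => a + d) A D).card : ℝ)) ∧
          c * (A.card : ℝ) ^ ((k : ℝ) - ε) ≤
            (((Fintype.piFinset (fun _ : Fin k => A)).image
              (fun f : Fin k → ℤ => ∑ i, f i)).card : ℝ)) ∨
        ((∀ (P : Finset ℚ) (K : ℝ), (∀ s ∈ P, s ≠ 0) → 1 ≤ K → K ^ 2 ≤ A.card →
            ((Finset.image₂ (fun (a : ℤ) (s : ℚ) => (a : ℚ) * s) A P).card : ℝ) ≤ K * A.card →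
            Real.log (P.card : ℝ) ^ 2 ≤ C * Real.log (A.card : ℝ) * Real.log (2 * K)) ∧
         (∀ (P B : Finset ℚ) (K : ℝ), (∀ s ∈ P, s ≠ 0) → 1 ≤ K → K ^ 2 ≤ A.card →
            (B.card : ℝ) ≤ K * A.card →
            (A.card : ℝ) * P.card ≤
              K * (((A ×ˢ P).filter (fun q : ℤ × ℚ => (q.1 : ℚ) * q.2 ∈ B)).card : ℝ) →
            Real.log (P.card : ℝ) ^ 3 ≤ C * Real.log (A.card : ℝ) ^ 2 * Real.log (2 * K)) ∧
         (∀ (r : ℕ) (g : Fin r → ℚ), 1 ≤ r → (∀ i, g i ≠ 0) →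
            ({a : ℤ | a ∈ A ∧ (1 + C * Real.log (A.card : ℝ) / r) ^ r <
              ({b : ℤ | b ∈ A ∧ ∃ e : Fin r → ℤ, (b : ℚ) = a * ∏ i, g i ^ e i ∨
                (b : ℚ) = -(a * ∏ i, g i ^ e i)}.ncard : ℝ)}.ncard : ℝ) ≤
              (A.card : ℝ) ^ (1 - c)) ∧
         (∀ (S : Finset ℤ) (P : Finset ℕ) (R : ℝ), S ⊆ A →
            (A.card : ℝ) ^ (1 - c) ≤ S.card → (∀ p ∈ P, p.Prime) → C ≤ R →
            (∀ p ∈ P, R * ((S.filter (fun a : ℤ => (p : ℤ) * a ∉ S)).card : ℝ) ≤ S.card) →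
            R * P.card * Real.log (P.card + 1) < C * Real.log (A.card : ℝ))) := by
  classical
  have hk0 : (0 : ℝ) ≤ k := Nat.cast_nonneg k
  have hkk : (0 : ℝ) < (k : ℝ) * (k + 1) + 1 := by (clear * -; positivity)
  obtain ⟨ε', hε'⟩ : ∃ ε' : ℝ, ε' = ε / ((k : ℝ) * (k + 1) + 1) := ⟨_, rfl⟩
  have hε'0 : 0 < ε' := by rw [hε']; (clear * - hε; positivity)
  have hε'1 : ε' ≤ ε := by
    rw [hε', div_le_iff₀ hkk]
    (clear * - hε hk0; linarith only [mul_nonneg hε.le (mul_nonneg hk0 (show (0 : ℝ) ≤ k + 1 by linarith))])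
  have hε'2 : ε' * (k * (k + 1)) ≤ ε := by
    rw [hε', div_mul_eq_mul_div, div_le_iff₀ hkk]
    linarith only [hε'0, hε'1]
  obtain ⟨η, hη⟩ : ∃ η : ℝ, η = min ε' 1 := ⟨_, rfl⟩
  have hη0 : 0 < η := by rw [hη]; exact lt_min hε'0 one_pos
  have hηε : η ≤ ε' := by rw [hη]; exact min_le_left _ _
  have hη1 : η ≤ 1 := by rw [hη]; exact min_le_right _ _
  obtain ⟨C1, hC1, hf1⟩ := form1 η (1 / η) hη0 hη1 (by positivity)
  obtain ⟨C2, hC2, hf2⟩ := form2 η (1 / η) hη0 hη1 (by positivity)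
  obtain ⟨C0, c0, hC0, hc0, h⟩ := dichotomy ε' 1 hε'0 one_pos
  obtain ⟨c', hc'd⟩ : ∃ c' : ℝ, c' = min c0 1 := ⟨_, rfl⟩
  have hc' : 0 < c' := by rw [hc'd]; exact lt_min hc0 one_pos
  have hc'0 : c' ≤ c0 := by rw [hc'd]; exact min_le_left _ _
  have hc'1 : c' ≤ 1 := by rw [hc'd]; exact min_le_right _ _
  obtain ⟨c, hcd⟩ : ∃ c : ℝ, c = min c' (c' ^ k) := ⟨_, rfl⟩
  have hcc0 : 0 < c := by rw [hcd]; exact lt_min hc' (by positivity)
  have hcc' : c ≤ c' := by rw [hcd]; exact min_le_left _ _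
  have hcck : c ≤ c' ^ k := by rw [hcd]; exact min_le_right _ _
  obtain ⟨C, hCd⟩ : ∃ C : ℝ, C = max C0 (max C1 C2) := ⟨_, rfl⟩
  have hCC0 : C0 ≤ C := by rw [hCd]; exact le_max_left _ _
  have hCC1 : C1 ≤ C := by rw [hCd]; exact (le_max_left _ _).trans (le_max_right _ _)
  have hCC2 : C2 ≤ C := by rw [hCd]; exact (le_max_right _ _).trans (le_max_right _ _)
  have hC : 0 < C := lt_of_lt_of_le hC0 hCC0
  refine ⟨C, c, hC, hcc0, fun A hA1' => ?_⟩
  have hA : A.Nonempty := by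
    rw [← Finset.card_pos]
    omega
  have hA1 : (1 : ℝ) ≤ A.card := by exact_mod_cast hA.card_pos
  have hA0 : (0 : ℝ) < A.card := by linarith only [hA1]
  have hL0 : 0 ≤ Real.log (A.card : ℝ) := Real.log_nonneg hA1
  by_cases hAll : AllD ε' c' A
  · left
    constructor
    · intro D hD
      have hD1 : (1 : ℝ) ≤ D.card := by exact_mod_cast hD.card_pos
      have hAD1 : (1 : ℝ) ≤ (A.card : ℝ) * D.card := by (clear * - hA1 hD1; nlinarith only [hA1, hD1])
      refine le_trans ?_ (hAll D hD)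
      refine mul_le_mul hcc' ?_ (by (clear * - hA hCd hCC0 hCC1 hCC2 hC hcc0 hc'd hc' hc'0 hc'1 hcd hcc' hcck hη0 hη1 hf1 hf2 hε' hε'0 hε'1 hε'2 hη hηε h hAll hD; positivity)) hc'.le
      exact Real.rpow_le_rpow_of_exponent_le hAD1 (by linarith only [hε'1])
    · have h4 := kS_large ε' c' hε'0.le hc' A hA hAll k
      refine le_trans ?_ h4
      refine mul_le_mul hcck ?_ (by positivity) (by (clear * - hc'; positivity))
      exact Real.rpow_le_rpow_of_exponent_le hA1 (by linarith only [hε'2])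
  · right
    have hG : ¬ GrowsB η (1 / η) A := fun hG =>
      hAll (allD_of_growsB ε' η hη0 hηε hη1 c' hc'.le hc'1 A hA hG)
    rcases h A hA with h1 | ⟨h1, _, h3⟩
    · exact absurd (AllD.mono hc'0 h1) hAll
    refine ⟨?_, ?_, ?_, ?_⟩
    · intro P K hP hK1 hKA hAP
      have h4 := hf1 A (by omega) hG P K hP hK1 (by (clear * - hKA hK1; nlinarith only [hK1, hKA])) hAP
      refine h4.trans ?_
      have h5 : 0 ≤ Real.log (2 * K) := Real.log_nonneg (by linarith only [hK1])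
      (clear * - hCC1 h5; gcongr)
    · intro P B K hP hK1 hKA hB hcount
      have h4 := hf2 A (by omega) hG P B K hP hK1 hKA hB hcount
      refine h4.trans ?_
      have h5 : 0 ≤ Real.log (2 * K) := Real.log_nonneg (by linarith only [hK1])
      (clear * - hCC2 h5; gcongr)
    · intro r g hr hg
      refine le_trans ?_ ((h1 r g hr hg).trans
        (Real.rpow_le_rpow_of_exponent_le hA1 (by linarith only [hc'0, hcc'])))
      have hfin : ({a : ℤ | a ∈ A ∧ (1 + C0 * Real.log (A.card : ℝ) / r) ^ r <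
          ({b : ℤ | b ∈ A ∧ ∃ e : Fin r → ℤ, (b : ℚ) = a * ∏ i, g i ^ e i ∨
            (b : ℚ) = -(a * ∏ i, g i ^ e i)}.ncard : ℝ)}).Finite :=
        (Finset.finite_toSet A).subset fun a ha => Finset.mem_coe.2 ha.1
      have hr0 : (0 : ℝ) < r := by exact_mod_cast hr
      have h5 : (1 + C0 * Real.log (A.card : ℝ) / r) ^ r ≤
          (1 + C * Real.log (A.card : ℝ) / r) ^ r := by (clear * - hC0 hr hCC0; gcongr)
      have h4 : {a : ℤ | a ∈ A ∧ (1 + C * Real.log (A.card : ℝ) / r) ^ r <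
          ({b : ℤ | b ∈ A ∧ ∃ e : Fin r → ℤ, (b : ℚ) = a * ∏ i, g i ^ e i ∨
            (b : ℚ) = -(a * ∏ i, g i ^ e i)}.ncard : ℝ)} ⊆
          {a : ℤ | a ∈ A ∧ (1 + C0 * Real.log (A.card : ℝ) / r) ^ r <
          ({b : ℤ | b ∈ A ∧ ∃ e : Fin r → ℤ, (b : ℚ) = a * ∏ i, g i ^ e i ∨
            (b : ℚ) = -(a * ∏ i, g i ^ e i)}.ncard : ℝ)} :=
        fun a ha => ⟨ha.1, lt_of_le_of_lt h5 ha.2⟩
      exact_mod_cast Set.ncard_le_ncard h4 hfin
    · intro S P R hSA hS hP hCR hbad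
      refine lt_of_lt_of_le (h3 S P R hSA ((Real.rpow_le_rpow_of_exponent_le hA1
        (by linarith only [hc'0, hcc'])).trans hS) hP (hCC0.trans hCR) hbad) ?_
      exact mul_le_mul_of_nonneg_right hCC0 hL0

/-- **The extremal families.** -/
theorem fam3 (η : ℝ) (hη : 0 < η) : ∃ c : ℝ, 0 < c ∧ ∀ r n : ℕ, 1 ≤ r → 1 ≤ n →
      (∃ (A : Finset ℤ) (p : Fin r → ℕ), (∀ i, (p i).Prime) ∧ Function.Injective p ∧
        (n : ℝ) * r * Real.log (r + 1) ≤ Real.log (A.card : ℝ) ∧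
        c * Real.log (A.card : ℝ) ≤ (n : ℝ) * r * Real.log (r + 1) ∧
        (∀ k : ℕ, (((Fintype.piFinset (fun _ : Fin k => A)).image
          (fun f : Fin k → ℤ => ∑ i, f i)).card : ℝ) ≤
            ((k : ℝ) + 1) * (A.card : ℝ) ^ (1 + η)) ∧
        (∀ i, (n : ℝ) * ((A.filter (fun a : ℤ => (p i : ℤ) * a ∉ A)).card : ℝ) ≤ A.card) ∧
        (∀ a ∈ A, n ^ r ≤ {b : ℤ | b ∈ A ∧ ∃ e : Fin r → ℤ,
          (b : ℚ) = a * ∏ i, (p i : ℚ) ^ e i}.ncard) ∧
        ∀ P : Finset ℚ, P = (Fintype.piFinset (fun _ : Fin r => Finset.Icc (-1 : ℤ) 1)).image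
            (fun e => ∏ i, (p i : ℚ) ^ e i) →
          P.card = 3 ^ r ∧
          n ^ r * (Finset.image₂ (fun (a : ℤ) (s : ℚ) => (a : ℚ) * s) A P).card ≤
            (n + 2) ^ r * A.card) ∧
      (∃ (A : Finset ℤ) (p : Fin r → ℕ), (∀ i, (p i).Prime) ∧ Function.Injective p ∧
        (n : ℝ) * r * Real.log (r + 1) ≤ Real.log (A.card : ℝ) ∧
        c * Real.log (A.card : ℝ) ≤ (n : ℝ) * r * Real.log (r + 1) ∧
        (∀ k : ℕ, (((Fintype.piFinset (fun _ : Fin k => A)).image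
          (fun f : Fin k → ℤ => ∑ i, f i)).card : ℝ) ≤
            ((k : ℝ) + 1) * (A.card : ℝ) ^ (1 + η)) ∧
        ∀ E : Finset (Fin r), Real.exp (-(6 * r / n ^ 2)) / 2 * A.card ≤
          ((A.filter (fun a : ℤ => ((∏ i ∈ E, p i : ℕ) : ℤ) * a ∈ A)).card : ℝ)) := by
  obtain ⟨c1, hc1, h1⟩ := final.2 η hη
  obtain ⟨c2, hc2, h2⟩ := sharp3 η hη
  refine ⟨min c1 c2, lt_min hc1 hc2, fun r n hr hn => ?_⟩
  have hL0 : ∀ A : Finset ℤ, 0 ≤ Real.log (A.card : ℝ) := fun A => Real.log_natCast_nonneg _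
  constructor
  · obtain ⟨A, p, hp, hinj, q1, q2, q3⟩ := h1 r n hr hn
    exact ⟨A, p, hp, hinj, q1,
      (mul_le_mul_of_nonneg_right (min_le_left _ _) (hL0 A)).trans q2, q3⟩
  · obtain ⟨A, p, hp, hinj, q1, q2, q3⟩ := h2 r n hr hn
    exact ⟨A, p, hp, hinj, q1,
      (mul_le_mul_of_nonneg_right (min_le_right _ _) (hL0 A)).trans q2, q3⟩

end Pool.Agent.Helper15.GPR
end
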